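import Pool.Agent.Lib.MP_8daebb_an.GM.TInt

/-! The area formula with integer multiplicity. -/

set_option linter.unusedSectionVars false

open MeasureTheory Metric Filter Topology Set
open scoped RealInnerProductSpace ENNReal

namespace Pool.Agent.Lib.MP_8daebb_an.GM

open SV (areaElt IsIntegral)

variable {H : Type*} [NormedAddCommGroup H] [InnerProductSpace ℝ H] [FiniteDimensional ℝ H]
  [MeasurableSpace H] [BorelSpace H] {m : ℕ}

variable {V : Measure (H × (H →L[ℝ] H))}

theorem locInj_tarea {g : E m → E m} {g' : E m → E m →L[ℝ] E m} {O : Set (E m)} (hO : IsOpen O)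
    (hg : ∀ a ∈ O, HasFDerivAt g (g' a) a) (hc : ContinuousOn g' O) {a : E m} (ha : a ∈ O)
    (hd : (g' a).det ≠ 0) : ∃ U : Set (E m), IsOpen U ∧ InjOn g U ∧ a ∈ U := by
  have h1 : HasStrictFDerivAt g (g' a) a :=
    hasStrictFDerivAt_of_hasFDerivAt_of_continuousAt
      (Filter.eventually_of_mem (hO.mem_nhds ha) hg) (hc.continuousAt (hO.mem_nhds ha))
  have h2 : HasStrictFDerivAt g
      (((g' a).toContinuousLinearEquivOfDetNeZero hd : E m ≃L[ℝ] E m) : E m →L[ℝ] E m) a := by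
    rw [ContinuousLinearMap.coe_toContinuousLinearEquivOfDetNeZero]
    exact h1
  exact ⟨(h2.toOpenPartialHomeomorph g).source, (h2.toOpenPartialHomeomorph g).open_source,
    (h2.toOpenPartialHomeomorph g).injOn, h2.mem_toOpenPartialHomeomorph_source⟩

/-- a `C¹` map of the plane restricted to a measurable set where its Jacobian does not vanish is
injective on the members of a countable measurable partition -/
theorem exists_inj_partition {g : E m → E m} {g' : E m → E m →L[ℝ] E m} {A O : Set (E m)} (hA : MeasurableSet A)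
    (hO : IsOpen O) (hAO : A ⊆ O) (hg : ∀ a ∈ O, HasFDerivAt g (g' a) a)
    (hc : ContinuousOn g' O) (hd : ∀ a ∈ A, (g' a).det ≠ 0) :
    ∃ B : ℕ → Set (E m), (∀ j, MeasurableSet (B j)) ∧ Pairwise (Function.onFun Disjoint B) ∧
      ⋃ j, B j = A ∧ ∀ j, InjOn g (B j) := by
  obtain ⟨T, hTc, hTS, hT⟩ := TopologicalSpace.isOpen_sUnion_countable
    {U : Set (E m) | IsOpen U ∧ InjOn g U} fun s hs => hs.1
  obtain ⟨u, hu⟩ := (hTc.insert ∅).exists_eq_range (insert_nonempty _ _)
  have hus : ∀ j, IsOpen (u j) ∧ InjOn g (u j) := by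
    intro j
    have hj : u j ∈ insert ∅ T := hu ▸ mem_range_self j
    rcases hj with hj | hj
    · rw [hj]
      exact ⟨isOpen_empty, injOn_empty g⟩
    · exact hTS hj
  have hcov : A ⊆ ⋃ j, u j := by
    intro a ha
    obtain ⟨U, h1, h2, h3⟩ := locInj_tarea hO hg hc (hAO ha) (hd a ha)
    have h4 : a ∈ ⋃₀ T := by
      rw [hT]
      exact ⟨U, ⟨h1, h2⟩, h3⟩
    obtain ⟨t, ht, hat⟩ := h4
    have h5 : t ∈ range u := hu ▸ mem_insert_of_mem _ ht
    obtain ⟨j, rfl⟩ := h5
    exact mem_iUnion.2 ⟨j, hat⟩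
  refine ⟨fun j => A ∩ disjointed u j, fun j => hA.inter ?_, ?_, ?_, fun j => ?_⟩
  · exact MeasurableSet.disjointed (fun i => (hus i).1.measurableSet) j
  · intro i j hij
    exact (disjoint_disjointed u hij).mono inter_subset_right inter_subset_right
  · rw [← inter_iUnion, iUnion_disjointed]
    exact inter_eq_left.2 hcov
  · exact (hus j).2.mono (inter_subset_right.trans (disjointed_subset u j))

/-- the area formula in the plane, with multiplicity -/
theorem area_plane {g : E m → E m} {g' : E m → E m →L[ℝ] E m} {A O : Set (E m)} (hA : MeasurableSet A)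
    (hO : IsOpen O) (hAO : A ⊆ O) (hg : ∀ a ∈ O, HasFDerivAt g (g' a) a)
    (hc : ContinuousOn g' O) :
    ∃ S : ℕ → Set (E m), (∀ j, MeasurableSet (S j)) ∧ ∀ ψ : E m → ℝ≥0∞, Measurable ψ →
      ∫⁻ a in A, ψ (g a) * ENNReal.ofReal |(g' a).det| = ∑' j, ∫⁻ y in S j, ψ y := by
  have hdc : ContinuousOn (fun a => (g' a).det) O :=
    ContinuousLinearMap.continuous_det.comp_continuousOn hc
  have hop : IsOpen (O ∩ (fun a => (g' a).det) ⁻¹' {0}ᶜ) :=
    hdc.isOpen_inter_preimage hO isOpen_compl_singleton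
  have hA0 : MeasurableSet (A ∩ (O ∩ (fun a => (g' a).det) ⁻¹' {0}ᶜ)) := hA.inter hop.measurableSet
  obtain ⟨B, hBm, hBd, hBU, hBi⟩ := exists_inj_partition hA0 hO (inter_subset_left.trans hAO) hg hc
    fun a ha => ha.2.2
  have hBO : ∀ j, B j ⊆ O := fun j a ha => by
    have h1 : a ∈ ⋃ j, B j := mem_iUnion.2 ⟨j, ha⟩
    rw [hBU] at h1
    exact h1.2.1
  have hder : ∀ j, ∀ a ∈ B j, HasFDerivWithinAt g (g' a) (B j) a := fun j a ha =>
    (hg a (hBO j ha)).hasFDerivWithinAt
  refine ⟨fun j => g '' B j, fun j => measurable_image_of_fderivWithin (hBm j) (hder j) (hBi j),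
    fun ψ _ => ?_⟩
  have e1 : ∫⁻ a in A, ψ (g a) * ENNReal.ofReal |(g' a).det| =
      ∫⁻ a in ⋃ j, B j, ψ (g a) * ENNReal.ofReal |(g' a).det| := by
    rw [hBU, ← lintegral_indicator hA, ← lintegral_indicator hA0]
    refine lintegral_congr fun a => ?_
    by_cases ha : a ∈ A
    · rw [indicator_of_mem ha]
      by_cases h0 : (g' a).det = 0
      · rw [indicator_of_notMem fun h => h.2.2 h0, h0]
        simp
      · rw [indicator_of_mem (show a ∈ A ∩ (O ∩ (fun a => (g' a).det) ⁻¹' {0}ᶜ) from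
          ⟨ha, hAO ha, h0⟩)]
    · rw [indicator_of_notMem ha, indicator_of_notMem fun h => ha h.1]
  rw [e1, lintegral_iUnion hBm hBd]
  refine tsum_congr fun j => ?_
  rw [lintegral_image_eq_lintegral_abs_det_fderiv_mul volume (hBm j) (hder j) (hBi j)]
  exact lintegral_congr fun a => mul_comm _ _

theorem count_tarea (S : ℕ × ℕ → Set (E m)) (y : E m) :
    ∑' p, (S p).indicator (fun _ => (1 : ℝ≥0∞)) y = ⊤ ∨
      ∃ k : ℕ, ∑' p, (S p).indicator (fun _ => (1 : ℝ≥0∞)) y = k := by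
  have e : ∑' p, (S p).indicator (fun _ => (1 : ℝ≥0∞)) y = ({p | y ∈ S p} : Set (ℕ × ℕ)).encard := by
    rw [← ENNReal.tsum_set_one, tsum_subtype {p | y ∈ S p} fun _ => (1 : ℝ≥0∞)]
    refine tsum_congr fun p => ?_
    by_cases h : y ∈ S p
    · rw [indicator_of_mem h, indicator_of_mem (show p ∈ {p | y ∈ S p} from h)]
    · rw [indicator_of_notMem h, indicator_of_notMem (show p ∉ {p | y ∈ S p} from h)]
  rw [e]
  generalize ({p | y ∈ S p} : Set (ℕ × ℕ)).encard = n
  induction n using ENat.recTopCoe with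
  | top => exact Or.inl rfl
  | coe n => exact Or.inr ⟨n, rfl⟩

theorem IsIntC.area (h : IsIntC m V) (O : Set H) (hO : IsOpen O) (Φ : H → E m)
    (hΦ : ContDiffOn ℝ 1 Φ O) (Z : Set (H × (H →L[ℝ] H))) (hZ : MeasurableSet Z)
    (hZO : Z ⊆ Prod.fst ⁻¹' O) :
    ∃ N : E m → ℝ≥0∞, Measurable N ∧ (∀ y, N y = ⊤ ∨ ∃ k : ℕ, N y = k) ∧
      ∀ f : E m → ℝ≥0∞, Measurable f →
        ∫⁻ z in Z, f (Φ z.1) * ENNReal.ofReal (jac (fderiv ℝ Φ z.1) z.2) ∂V = ∫⁻ y, f y * N y := by
  classical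
  obtain ⟨F, A, P, hF, hA, hP, hpl, hint⟩ := h
  have hFm : ∀ k, Measurable fun a => (F k a, P k a) := fun k =>
    (hF k).continuous.measurable.prodMk (hP k)
  have hA' : ∀ k, MeasurableSet (A k ∩ (fun a => (F k a, P k a)) ⁻¹' Z) := fun k =>
    (hA k).inter (hFm k hZ)
  have hO' : ∀ k, IsOpen (F k ⁻¹' O) := fun k => hO.preimage (hF k).continuous
  have hAO : ∀ k, A k ∩ (fun a => (F k a, P k a)) ⁻¹' Z ⊆ F k ⁻¹' O := fun k a ha => hZO ha.2
  have hder : ∀ k, ∀ a ∈ F k ⁻¹' O, HasFDerivAt (fun a => Φ (F k a))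
      ((fderiv ℝ Φ (F k a)).comp (fderiv ℝ (F k) a)) a := fun k a ha =>
    ((hΦ.differentiableOn one_ne_zero).differentiableAt (hO.mem_nhds ha)).hasFDerivAt.comp a
      ((hF k).differentiable one_ne_zero a).hasFDerivAt
  have hcont : ∀ k, ContinuousOn (fun a => (fderiv ℝ Φ (F k a)).comp (fderiv ℝ (F k) a))
      (F k ⁻¹' O) := fun k =>
    ((hΦ.continuousOn_fderiv_of_isOpen hO le_rfl).comp (hF k).continuous.continuousOn
      fun a ha => ha).clm_comp ((hF k).continuous_fderiv one_ne_zero).continuousOn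
  choose S hSm hS using fun k => area_plane (hA' k) (hO' k) (hAO k) (hder k) (hcont k)
  have hind : ∀ p : ℕ × ℕ, Measurable ((S p.1 p.2).indicator fun _ => (1 : ℝ≥0∞)) := fun p =>
    measurable_const.indicator (hSm p.1 p.2)
  refine ⟨fun y => ∑' p : ℕ × ℕ, (S p.1 p.2).indicator (fun _ => (1 : ℝ≥0∞)) y,
    Measurable.tsum hind, fun y => count_tarea (fun p => S p.1 p.2) y, fun f hf => ?_⟩
  have hΦm : Measurable (O.piecewise Φ 0) :=
    hΦ.continuousOn.measurable_piecewise continuousOn_const hO.measurableSet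
  have hG : Measurable fun z : H × (H →L[ℝ] H) =>
      f (O.piecewise Φ 0 z.1) * ENNReal.ofReal (jac (fderiv ℝ Φ z.1) z.2) :=
    (hf.comp (hΦm.comp measurable_fst)).mul (ENNReal.measurable_ofReal.comp
      (continuous_jac.measurable.comp
        (((measurable_fderiv ℝ Φ).comp measurable_fst).prodMk measurable_snd)))
  have e1 : ∫⁻ z in Z, f (Φ z.1) * ENNReal.ofReal (jac (fderiv ℝ Φ z.1) z.2) ∂V =
      ∫⁻ z, Z.indicator (fun z : H × (H →L[ℝ] H) =>
        f (O.piecewise Φ 0 z.1) * ENNReal.ofReal (jac (fderiv ℝ Φ z.1) z.2)) z ∂V := by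
    rw [lintegral_indicator hZ]
    refine setLIntegral_congr_fun hZ fun z hz => ?_
    show _ = f (O.piecewise Φ 0 z.1) * _
    rw [piecewise_eq_of_mem _ _ _ (show z.1 ∈ O from hZO hz)]
  have e2 : ∀ k, ∫⁻ a in A k, Z.indicator (fun z : H × (H →L[ℝ] H) =>
        f (O.piecewise Φ 0 z.1) * ENNReal.ofReal (jac (fderiv ℝ Φ z.1) z.2)) (F k a, P k a) *
        ENNReal.ofReal (areaElt (fderiv ℝ (F k) a)) = ∑' j, ∫⁻ y in S k j, f y := by
    intro k
    rw [← hS k f hf, ← lintegral_indicator (hA k), ← lintegral_indicator (hA' k)]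
    refine lintegral_congr fun a => ?_
    by_cases ha : a ∈ A k
    · rw [indicator_of_mem ha]
      by_cases hz : (F k a, P k a) ∈ Z
      · rw [indicator_of_mem hz, indicator_of_mem
          (show a ∈ A k ∩ (fun a => (F k a, P k a)) ⁻¹' Z from ⟨ha, hz⟩),
          abs_det_comp (hpl k a ha).1 (hpl k a ha).2, mul_assoc,
          ENNReal.ofReal_mul (show 0 ≤ jac (fderiv ℝ Φ (F k a)) (P k a) from Real.sqrt_nonneg _)]
        show f (O.piecewise Φ 0 (F k a)) * _ = _
        rw [piecewise_eq_of_mem _ _ _ (show F k a ∈ O from hZO hz)]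
      · rw [indicator_of_notMem hz, zero_mul, indicator_of_notMem fun h => hz h.2]
    · rw [indicator_of_notMem ha, indicator_of_notMem fun h => ha h.1]
  rw [e1, hint _ (hG.indicator hZ), tsum_congr e2, ← ENNReal.tsum_prod]
  simp only [← ENNReal.tsum_mul_left]
  rw [lintegral_tsum fun p => (hf.fun_mul (hind p)).aemeasurable]
  refine tsum_congr fun p => ?_
  rw [← lintegral_indicator (hSm p.1 p.2)]
  refine lintegral_congr fun y => ?_
  by_cases hy : y ∈ S p.1 p.2
  · rw [indicator_of_mem hy, indicator_of_mem hy, mul_one]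
  · rw [indicator_of_notMem hy, indicator_of_notMem hy, mul_zero]

end Pool.Agent.Lib.MP_8daebb_an.GM
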