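import Pool.Agent.Lib.MP_8daebb_an.GM.TLD
import Pool.Agent.Lib.MP_8daebb_an.GM.TInt

/-! Monotonicity of the mass ratio and existence of the density. -/

set_option linter.unusedSectionVars false

open MeasureTheory Metric Filter Topology Set
open scoped RealInnerProductSpace ENNReal

namespace Pool.Agent.Lib.MP_8daebb_an.GM

open SV (areaElt IsIntegral)

variable {H : Type*} [NormedAddCommGroup H] [InnerProductSpace ℝ H] [FiniteDimensional ℝ H]
  [MeasurableSpace H] [BorelSpace H] {m : ℕ}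

variable {U : Set H} {V : Measure (H × (H →L[ℝ] H))}

theorem exists_lt_tmono (μ : Measure H) {p : H} {s : ℝ} (hs : 0 < s) {c : ℝ≥0∞}
    (h : c < μ (ball p s)) : ∃ κ ∈ Ioo (0 : ℝ) 1, c < μ (ball p (κ * s)) := by
  obtain ⟨u, h1, h2, h3⟩ := exists_seq_strictMono_tendsto' (zero_lt_one' ℝ)
  have e : ball p s ⊆ ⋃ n, ball p (u n * s) := fun y hy => by
    have h4 := h3.mul_const s
    rw [one_mul] at h4
    obtain ⟨n, hn⟩ := (h4.eventually_const_lt (mem_ball.1 hy)).exists
    exact mem_iUnion.2 ⟨n, hn⟩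
  have h5 := h.trans_le (measure_mono e)
  rw [Monotone.measure_iUnion (fun a b hab => ball_subset_ball
    (mul_le_mul_of_nonneg_right (h1.monotone hab) hs.le)), lt_iSup_iff] at h5
  obtain ⟨n, hn⟩ := h5
  exact ⟨u n, h2 n, hn⟩

theorem exists_ball_tmono (hU : IsOpen U) {p : H} {s : ℝ} (hs : 0 ≤ s) (hp : closedBall p s ⊆ U) :
    ∃ R, s < R ∧ ball p R ⊆ U := by
  obtain ⟨d, hd, h⟩ := (isCompact_closedBall p s).exists_thickening_subset_open hU hp
  rw [thickening_closedBall hd hs] at h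
  exact ⟨d + s, by linarith, h⟩

theorem ev_closedBall_tmono (hU : IsOpen U) {p : H} (hp : p ∈ U) :
    ∀ᶠ r in 𝓝[>] (0 : ℝ), 0 < r ∧ closedBall p r ⊆ U := by
  obtain ⟨ε, hε, h⟩ := nhds_basis_closedBall.mem_iff.1 (hU.mem_nhds hp)
  filter_upwards [Ioo_mem_nhdsGT hε] with r hr
  exact ⟨hr.1, (closedBall_subset_closedBall hr.2.le).trans h⟩

theorem measurable_ball_tmono (μ : Measure H) {s : ℝ} (hs : 0 < s) :
    Measurable fun x => μ (ball x s) := by
  refine LowerSemicontinuous.measurable fun x c hc => ?_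
  obtain ⟨κ, hκ, h⟩ := exists_lt_tmono μ hs hc
  have h1 : 0 < s - κ * s := by nlinarith [hκ.2]
  filter_upwards [ball_mem_nhds x h1] with y hy
  refine h.trans_le (measure_mono (ball_subset_ball' ?_))
  rw [mem_ball, dist_comm] at hy
  linarith

theorem isOpen_closedBall_tmono (hU : IsOpen U) {s : ℝ} (hs : 0 ≤ s) :
    IsOpen {x : H | closedBall x s ⊆ U} := by
  refine isOpen_iff_mem_nhds.2 fun x hx => ?_
  obtain ⟨R, hR, h⟩ := exists_ball_tmono hU hs hx
  filter_upwards [ball_mem_nhds x (sub_pos.2 hR)] with y hy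
  refine (closedBall_subset_ball' ?_).trans h
  rw [mem_ball] at hy
  linarith

theorem mass_mono (hV : IsStationaryVarifold m U V) (hU : IsOpen U) {p : H} {s s' : ℝ}
    (hs : 0 < s) (hss : s ≤ s') (hp : closedBall p s' ⊆ U) :
    (V.fst (ball p s)).toReal / s ^ m ≤ (V.fst (ball p s')).toReal / s' ^ m := by
  have hs' : 0 < s' := hs.trans_le hss
  obtain ⟨R, hR, hRU⟩ := exists_ball_tmono hU hs'.le hp
  rw [div_le_iff₀ (by positivity)]
  refine ENNReal.toReal_le_of_le_ofReal (by positivity) (not_lt.1 fun hc => ?_)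
  obtain ⟨κ, hκ, h⟩ := exists_lt_tmono V.fst hs hc
  have hδ : 0 < 1 - κ ^ 2 := by nlinarith [hκ.1, hκ.2]
  have hp' : closedBall p s ⊆ U := (closedBall_subset_closedBall hss).trans hp
  have h2 := hV.le_sm hκ.1 hκ.2 hs hp'
  have h3 : sm V p (1 - κ ^ 2) s / s ^ m ≤ sm V p (1 - κ ^ 2) s' / s' ^ m :=
    hV.sm_mono hδ hRU ⟨hs, hss.trans_lt hR⟩ ⟨hs', hR⟩ hss
  have h4 := hV.sm_le hδ hs' hp
  have h5 : V.fst (ball p (κ * s)) ≠ ⊤ := (hV.ball_lt_top (x := p) (s := κ * s)
    ((closedBall_subset_closedBall (by nlinarith [hκ.2])).trans hp')).ne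
  rw [ENNReal.ofReal_lt_iff_lt_toReal (by positivity) h5] at h
  rw [div_le_iff₀ (by positivity)] at h3
  have h6 : sm V p (1 - κ ^ 2) s' / s' ^ m * s ^ m ≤
      (V.fst (ball p s')).toReal / s' ^ m * s ^ m := by gcongr
  linarith

theorem exists_hasDensity (hV : IsStationaryVarifold m U V) (hU : IsOpen U) {p : H} (hp : p ∈ U) :
    ∃ θ, HasDensity m V.fst p θ := by
  obtain ⟨ε, hε, h⟩ := nhds_basis_closedBall.mem_iff.1 (hU.mem_nhds hp)
  have hω := omega_pos m
  refine ⟨_, MonotoneOn.tendsto_nhdsWithin_Ioo_right (y := ε) (nonempty_Ioo.2 hε)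
    (fun a ha b hb hab => ?_) ⟨0, ?_⟩⟩
  · have := mass_mono hV hU ha.1 hab ((closedBall_subset_closedBall hb.2.le).trans h)
    simp only [mul_comm (omega m), ← div_div]
    gcongr
  · rintro _ ⟨a, ha, rfl⟩
    have := ha.1
    positivity

theorem measurableSet_density_ge (hV : IsStationaryVarifold m U V) (hU : IsOpen U) :
    MeasurableSet {x | x ∈ U ∧ ∃ θ, 1 ≤ θ ∧ HasDensity m V.fst x θ} := by
  have e : {x | x ∈ U ∧ ∃ θ, 1 ≤ θ ∧ HasDensity m V.fst x θ} = U ∩ ⋂ q : {q : ℚ // 0 < q},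
      ({x | closedBall x (q.1 : ℝ) ⊆ U}ᶜ ∪
        {x | ENNReal.ofReal (omega m * (q.1 : ℝ) ^ m) ≤ V.fst (ball x (q.1 : ℝ))}) := by
    have hω := omega_pos m
    ext x
    simp only [mem_ofPred_eq, mem_inter_iff, mem_iInter, mem_union, mem_compl_iff]
    refine and_congr_right fun hx => ⟨?_, fun h => ?_⟩
    · rintro ⟨θ, h1, h2⟩ q
      rw [← imp_iff_not_or]
      intro h3
      have h4 := hV.mass_ge_of_density h2 (by exact_mod_cast q.2) h3 hU
      refine ENNReal.ofReal_le_of_le_toReal (le_trans ?_ h4)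
      rw [mul_assoc]
      have hq : (0 : ℝ) < q.1 := by exact_mod_cast q.2
      exact le_mul_of_one_le_left (by positivity) h1
    · obtain ⟨θ, hθ⟩ := exists_hasDensity hV hU hx
      refine ⟨θ, ge_of_tendsto hθ ?_, hθ⟩
      filter_upwards [ev_closedBall_tmono hU hx] with r hr
      obtain ⟨q, h1, h2⟩ := exists_rat_btwn hr.1
      have h3 : closedBall x (q : ℝ) ⊆ U := (closedBall_subset_closedBall h2.le).trans hr.2
      have h4 := (h ⟨q, by exact_mod_cast h1⟩).resolve_left (not_not.2 h3)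
      rw [ENNReal.ofReal_le_iff_le_toReal (hV.ball_lt_top h3).ne, ← le_div_iff₀ (by positivity)]
        at h4
      rw [mul_comm, ← div_div, one_le_div hω]
      exact h4.trans (mass_mono hV hU h1 h2.le hr.2)
  rw [e]
  refine hU.measurableSet.inter (MeasurableSet.iInter fun q => ?_)
  have hq : (0 : ℝ) < q.1 := by exact_mod_cast q.2
  exact (isOpen_closedBall_tmono hU hq.le).measurableSet.compl.union
    (measurableSet_le measurable_const (measurable_ball_tmono _ hq))

theorem ae_density_ge (hV : IsStationaryVarifold m U V) (hU : IsOpen U) (hi : IsIntC m V) :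
    ∀ᵐ x ∂V.fst, ∃ θ, 1 ≤ θ ∧ HasDensity m V.fst x θ := by
  have h : ∀ᵐ x ∂V.fst, x ∈ U ∧ ∃ θ, 1 ≤ θ ∧ HasDensity m V.fst x θ := by
    refine (ae_map_iff measurable_fst.aemeasurable (measurableSet_density_ge hV hU)).2 ?_
    filter_upwards [hV.carried, hi.ae_LD1] with w h1 h2
    obtain ⟨θ, hθ⟩ := exists_hasDensity hV hU h1.1
    refine ⟨h1.1, θ, le_of_forall_sub_le fun δ hδ => ge_of_tendsto hθ ?_, hθ⟩
    filter_upwards [ev_closedBall_tmono hU h1.1, h2 δ hδ] with r hr h3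
    have h4 := hr.1
    rw [ENNReal.ofReal_le_iff_le_toReal (hV.ball_lt_top hr.2).ne] at h3
    have hω := omega_pos m
    rw [le_div_iff₀ (by positivity), ← mul_assoc]
    exact h3
  exact h.mono fun x hx => hx.2

theorem one_le_density (hV : IsStationaryVarifold m U V) (hU : IsOpen U) (hi : IsIntC m V) {p : H}
    (hp : p ∈ U) (hs : p ∈ V.fst.support) {θ : ℝ} (hθ : HasDensity m V.fst p θ) : 1 ≤ θ := by
  refine ge_of_tendsto hθ ?_
  filter_upwards [ev_closedBall_tmono hU hp] with r hr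
  have h1 := hr.1
  have hω := omega_pos m
  rw [one_le_div (by positivity)]
  exact hV.mass_ge_of_support (ae_density_ge hV hU hi) hs hr.1 hr.2 hU

end Pool.Agent.Lib.MP_8daebb_an.GM
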