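import Pool.Agent.Lib.MP_8daebb_an.GM.MsOf

/-! From the state to the hypotheses of a stage. -/

set_option linter.unusedSectionVars false
set_option linter.unusedVariables false

open MeasureTheory Metric Filter Topology Set
open scoped RealInnerProductSpace ENNReal ContDiff

namespace Pool.Agent.Lib.MP_8daebb_an.GM

open LG (vb chi om trS)
open SV (ux)

variable {d : ℕ} {α : Type*} [MeasurableSpace α] {H : Type*} [NormedAddCommGroup H]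
  [InnerProductSpace ℝ H] [FiniteDimensional ℝ H] [MeasurableSpace H] [BorelSpace H]

theorem state_stg {C : Type*} (d : ℕ) (M θ : ℝ) {CI δg cg : ℝ} (hCI : 0 ≤ CI) (hδg : 0 < δg)
    (hcg : 0 < cg) (hcg1 : cg ≤ 1 / 2) (hG : GlobOK d α H M CI δg cg) : ∃ δ₀ : ℝ, 0 < δ₀ ∧
    ∀ (KN : ℕ) (A b g cN : ℝ) (p : ℕ), Par d KN A b g → 0 < cN → ∃ L₀ : ℝ,
    ∀ (Adm : C → ℝ → ℝ → Prop) (ch : C → ℝ → CD d α H) (δ ε₁ εB δ₂ : ℝ) (Q' : ℕ) (CN : ℝ),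
    Sys Adm ch M θ δ ε₁ εB δ₂ Q' CN cN KN → δ ≤ δ₀ →
    ∀ (K B L r : ℝ) (c : C) (R : ℝ), L₀ ≤ L → 1 ≤ K → K ≤ L ^ p →
    State Adm ch ε₁ A b g L r K B c R →
    (∃ N, Stg ((ch c R).resB 0 (R - ux L 2)) (R - ux L 2) δ M CI ⌊θ + 1 / 2⌋₊ N A b g L r K B) ∧
    (∀ σ, ux L 2 ≤ σ → σ ≤ r →
      ((ch c R).resB 0 (R - ux L 2)).bad ⌊θ + 1 / 2⌋₊ σ ≤ εB * σ ^ d) ∧
    (∀ σ, ux L 2 ≤ σ → σ ≤ r →
      (∀ᵐ a ∂(ch c R).m, a ∈ (ch c R).cyl 0 σ → ‖(ch c R).y a‖ ≤ cN * σ) ∧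
      ((ch c R).resB 0 (R - ux L 2)).bad ⌊θ + 1 / 2⌋₊ σ ≤ (ch c R).m.real
        {a | a ∈ (ch c R).cyl 0 σ ∧ ¬(ch c R).Den ((θ - 1 / 50) * omega d) a}) ∧
    ∀ B' r', Out ((ch c R).resB 0 (R - ux L 2)) A L r K B' r' → Out (ch c R) A L r K B' r' := by
  obtain ⟨δ₀, hδ₀, hδ₁, hlev⟩ := lev_of_en (α := α) (H := H) (C := C) d M θ hCI hδg hcg hcg1 hG
  refine ⟨δ₀, hδ₀, fun KN A b g cN p hP hcN => ?_⟩
  obtain ⟨L₁, hL₁⟩ := hlev KN A b g cN hP hcN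
  obtain ⟨L₂, hL₂, hsm⟩ := ux_small 8 p (κ := 1) one_pos
  refine ⟨max L₁ L₂, ?_⟩
  intro Adm ch δ ε₁ εB δ₂ Q' CN hS hδ K B L r c R hL hK hKp hSt
  have hδc : δ ≤ 1 / 2 := by linarith
  have hLa : L₁ ≤ L := (le_max_left _ _).trans hL
  have hLb : L₂ ≤ L := (le_max_right _ _).trans hL
  have hL0 : 0 ≤ L := by linarith
  have hu1 := ux_pos L 1
  have hu2 := ux_pos L 2
  have hb : 2 ≤ b := by
    have h1 := hP.g_ge
    have h2 := hP.b_ge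
    have h3 : (0 : ℝ) ≤ d := Nat.cast_nonneg d
    have h4 : (0 : ℝ) ≤ KN := Nat.cast_nonneg KN
    linarith
  have hb2 : ux L b ≤ ux L 2 := ux_anti hL0 hb
  have hK0 : 0 < K := by linarith
  have hbeg := hSt.beg
  have hr0 : 0 < r := hu1.trans_le hbeg.r_ge
  obtain ⟨q, hq⟩ : ∃ q, q = r / K := ⟨_, rfl⟩
  have hq1 : 8 * ux L 2 ≤ q := by
    rw [hq, le_div_iff₀ hK0, show (2 : ℝ) = 1 + 1 by norm_num, ux_add]
    have h1 : 8 * K * ux L 1 ≤ 1 :=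
      (mul_le_mul_of_nonneg_right (by linarith) hu1.le).trans (hsm L hLb)
    have h2 := mul_le_mul_of_nonneg_right h1 hu1.le
    linarith [hbeg.r_ge]
  have e1 : r * (1 + 1 / K) = r + q := by rw [hq]; ring
  have hR : r + 5 / 4 * q ≤ R := by
    have h1 := hSt.R_ge
    rwa [show r * (1 + 5 / (4 * K)) = r + 5 / 4 * q by rw [hq]; field_simp] at h1
  have hR0 : 0 < R := by linarith
  have hε : 3 * ε₁ - ux L 1 ≤ 3 * ε₁ := by linarith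
  have hcv : CV (ch c R) 0 R δ M := hS.cv c _ R hSt.adm hε hR0 hSt.R_le
  have hEn : (ch c R).En 0 R ≤ ux L (A - 2) := by
    have h1 := (hcv.resB_rad hδc (R₁ := R) hR0 le_rfl 0).2.2.2.2.2.2
    rw [hcv.resB_self] at h1
    rw [← h1]
    exact hSt.en_le
  obtain ⟨⟨N, hN⟩, hrest⟩ := hL₁ Adm ch δ ε₁ εB δ₂ Q' CN hS hδ c _ R R L hLa hSt.adm hε hSt.R_le
    le_rfl (by linarith [hbeg.r_ge]) hEn
  have hr1 : r + q ≤ R - ux L 2 := by linarith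
  have heq := fun (x : ℝ) (h0 : 0 < x) (h1 : x ≤ r + q) =>
    hcv.resB_rad hδc (R₁ := R - ux L 2) h0 (h1.trans hr1) ⌊θ + 1 / 2⌋₊
  have hrq : r ≤ r + q := by linarith
  have h3 : ∀ σ, ux L 2 ≤ σ → σ ≤ r →
      (∀ᵐ a ∂(ch c R).m, a ∈ (ch c R).cyl 0 σ → ‖(ch c R).y a‖ ≤ cN * σ) ∧
      ((ch c R).resB 0 (R - ux L 2)).bad ⌊θ + 1 / 2⌋₊ σ ≤ (ch c R).m.real
        {a | a ∈ (ch c R).cyl 0 σ ∧ ¬(ch c R).Den ((θ - 1 / 50) * omega d) a} :=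
    fun σ h0 h1 => hrest σ h0 (by linarith)
  refine ⟨⟨N, hN, ⟨hbeg.r_le, hbeg.r_ge, ?_, ?_, ?_, ?_, ?_⟩, by linarith⟩, ?_, h3, ?_⟩
  · rw [(heq r hr0 hrq).1]; exact hbeg.h_ge
  · rw [(heq r hr0 hrq).1]; exact hbeg.h_le
  · rw [(heq r hr0 hrq).1, (heq r hr0 hrq).2.1]; exact hbeg.d_le
  · rw [(heq r hr0 hrq).1, (heq _ (by linarith) e1.le).1]; exact hbeg.dbl
  · intro v hv
    have := av_resB hcv.m_x (c := 0) (u := v) (R₁ := R - ux L 2) (ux_pos L b)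
      (by rw [sub_zero]; linarith) (ch c R).y
    exact le_of_eq_of_le (congrArg norm this) (hbeg.avg v hv)
  · intro σ h0 h1
    exact (h3 σ h0 h1).2.trans (hS.bad c _ R σ hSt.adm hε hSt.R_le (by linarith) (by linarith)
      (h1.trans hbeg.r_le) (h3 σ h0 h1).1)
  · intro B' r' hO
    have hr' : 0 < r' := lt_of_lt_of_le (mul_pos hr0 (ux_pos _ _)) hO.lo
    have hK1 : 0 < 1 / K := by positivity
    have hK2 : 2 / K = 2 * (1 / K) := by ring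
    have hK3 : 3 / (2 * K) = 3 / 2 * (1 / K) := by field_simp
    have hx := mul_pos hr' hK1
    have hi := hO.hi'
    rw [hK2] at hi
    have hr'r : r' ≤ r + q := by linarith
    refine ⟨hO.lo, hO.hi, hO.hi', ?_, ?_, ?_, ?_, ?_⟩
    · rw [← (heq r' hr' hr'r).1]; exact hO.h_le
    · intro ϱ h0 h1
      rw [← (heq ϱ (by linarith) (by linarith)).1]; exact hO.h_ge ϱ h0 h1
    · rw [← (heq r' hr' hr'r).1, ← (heq r' hr' hr'r).2.1]; exact hO.d_le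
    · rw [← (heq r' hr' hr'r).1, ← (heq _ (by linarith) (by linarith)).1]; exact hO.dbl
    · rw [← (resB_eq (D := ch c R) hcv.m_x (c := 0) (u := 0) (σ := R - ux L 2)
        (by rw [sub_zero, norm_zero, hK3]; linarith)).2.2.2.2]
      exact hO.en_le

end Pool.Agent.Lib.MP_8daebb_an.GM
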