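import Pool.Agent.Lib.MP_8daebb_an.GM.DecB

/-! The last stage. -/

set_option linter.unusedSectionVars false
set_option linter.unusedVariables false

open MeasureTheory Metric Filter Topology Set
open scoped RealInnerProductSpace ENNReal ContDiff

namespace Pool.Agent.Lib.MP_8daebb_an.GM

open LG (vb chi om trS)
open SV (ux)

variable {d : ℕ} {α : Type*} [MeasurableSpace α] {H : Type*} [NormedAddCommGroup H]
  [InnerProductSpace ℝ H] [FiniteDimensional ℝ H] [MeasurableSpace H] [BorelSpace H]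

theorem stage_z (d : ℕ) (M : ℝ) {CI : ℝ} (hCI : 0 ≤ CI) (Q : ℕ) : ∃ δ₀ : ℝ, 0 < δ₀ ∧
    ∀ (KN : ℕ) (A b g K : ℝ), Par d KN A b g → 1 ≤ K → ∃ η L₁ : ℝ, 0 < η ∧
    ∀ (D : CD d α H) (R δ L r B B' r' : ℝ) (N : E d → ℕ), δ ≤ δ₀ → L₁ ≤ L →
    Stg D R δ M CI Q N A b g L r K B → (∀ σ, ux L 2 ≤ σ → σ ≤ r → D.bad Q σ ≤ η * σ ^ d) →
    Out D A L r K B' r' → False := by
  obtain ⟨δ₀, hδ₀, hdec⟩ := dec_u (α := α) (H := H) d M hCI Q
  refine ⟨δ₀, hδ₀, fun KN A b g K hP hK => ?_⟩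
  obtain ⟨εB, C, L₀, hεB, hC, hmain⟩ := hdec KN A b g hP (60 * K) (by positivity)
  obtain ⟨L₂, hL₂, hsm⟩ := ux_small (C + 2) 0 (κ := 2) two_pos
  refine ⟨εB, max L₀ L₂, hεB, ?_⟩
  intro D R δ L r B B' r' N hδ hL hS hbad hO
  have hLa : L₀ ≤ L := (le_max_left _ _).trans hL
  have hLb : L₂ ≤ L := (le_max_right _ _).trans hL
  have hL0 : 0 < L := by linarith
  have hK0 : 0 < K := by linarith
  have pu := ux_pos L 1
  have hr0 : 0 < r := pu.trans_le hS.beg.r_ge
  have hA : 40 ≤ A := by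
    have h1 := hP.A_d
    have h2 : (0 : ℝ) ≤ d := Nat.cast_nonneg d
    nlinarith
  obtain ⟨e, he⟩ : ∃ e, e = Real.exp (-(L / (12 * K))) := ⟨_, rfl⟩
  have he0 : 0 < e := he ▸ Real.exp_pos _
  have hLK : 0 ≤ L / (12 * K) := by positivity
  have he1 : e ≤ 1 := he ▸ Real.exp_le_one_iff.2 (by linarith)
  have he2 : ux L 1 ≤ e := by
    rw [he, ux]
    apply Real.exp_le_exp.2
    have : L / (12 * K) ≤ L := div_le_self hL0.le (by linarith)
    linarith
  have hϱr : r * e ≤ r := mul_le_of_le_one_right hr0.le he1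
  have hϱ2 : ux L 2 ≤ r * e := by
    rw [show (2 : ℝ) = 1 + 1 by norm_num, ux_add]
    exact mul_le_mul hS.beg.r_ge he2 pu.le hr0.le
  have hϱ1 : r' ≤ r * e := by
    have h1 := mul_le_mul_of_nonneg_right hO.hi he0.le
    rwa [mul_assoc, he, ← Real.exp_add, add_neg_cancel, Real.exp_zero, mul_one, ← he] at h1
  have key := hmain D R δ L r K B (r * e) N hδ hLa hK hS hbad hϱ2 hϱr
  have hexp : Real.exp (-(60 * K * Real.log (r / (r * e)))) = ux L 5 := by
    have h1 : r / (r * e) = Real.exp (L / (12 * K)) := by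
      rw [he, Real.exp_neg]
      field_simp
    rw [h1, Real.log_exp, ux]
    congr 1
    field_simp
    ring
  rw [hexp] at key
  have hlow := hO.h_ge (r * e) hϱ1 hϱr
  have t1 : ux L (A + 3) ≤ ux L (A + 2 + 1 / (2 * A)) := by
    refine ux_anti hL0.le ?_
    have : 1 / (2 * A) ≤ 1 := (div_le_one (by linarith)).2 (by linarith)
    linarith
  have t2 : ux L 5 * ux L A = ux L (A + 3) * ux L 2 := by
    rw [← ux_add, ← ux_add]
    congr 1
    ring
  have t3 : ux L (A + 5) = ux L (A + 3) * ux L 2 := by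
    rw [← ux_add]
    congr 1
    ring
  have t4 := hsm L hLb
  rw [pow_zero, mul_one] at t4
  have t5 := mul_le_mul_of_nonneg_left t4 (ux_pos L (A + 3)).le
  have t6 := mul_pos (ux_pos L (A + 3)) (ux_pos L 2)
  rw [mul_assoc, t2, t3] at key
  linarith

end Pool.Agent.Lib.MP_8daebb_an.GM
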