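import Pool.Agent.Lib.MP_8daebb_an.GM.Df
import Pool.Agent.Lib.MP_8daebb_an.SV.Ker2

/-! Cut-off functions. -/

set_option linter.unusedSectionVars false
set_option linter.unusedVariables false

open MeasureTheory Metric Filter Topology Set
open scoped RealInnerProductSpace ENNReal ContDiff

namespace Pool.Agent.Lib.MP_8daebb_an.GM

open LG (vb chi om trS Sym)

variable {α : Type*} [MeasurableSpace α] {m : ℕ} {H : Type*} [NormedAddCommGroup H]
  [InnerProductSpace ℝ H] [FiniteDimensional ℝ H] [MeasurableSpace H] [BorelSpace H]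

/-- A cutoff: one on `closedBall c r`, zero off `ball c (r + l)`. -/
structure Cut (κ : E m → ℝ) (c : E m) (r l C : ℝ) : Prop where
  smooth : ContDiff ℝ 2 κ
  mem : ∀ u, 0 ≤ κ u ∧ κ u ≤ 1
  one : ∀ u, ‖u - c‖ ≤ r + l / 4 → κ u = 1
  zero : ∀ u, r + 3 * l / 4 ≤ ‖u - c‖ → κ u = 0
  d1 : ∀ u, ‖fderiv ℝ κ u‖ ≤ C / l
  d2 : ∀ u, ‖fderiv ℝ (fderiv ℝ κ) u‖ ≤ C / l ^ 2

theorem sq_ker2 (a d : ℝ) (u : E m) :
    HasFDerivAt (fun u : E m => a + d * ‖u‖ ^ 2) ((2 * d) • innerSL ℝ u) u := by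
  refine (((hasStrictFDerivAt_norm_sq u).hasFDerivAt.const_mul d).const_add a).congr_fderiv ?_
  rw [mul_comm, mul_smul, two_smul, two_smul]

theorem cut0_ker2 : ∃ C : ℝ, 1 ≤ C ∧ ∀ (m : ℕ) (r l : ℝ), 0 ≤ r → 0 < l →
    ∃ κ : E m → ℝ, Cut κ 0 r l C := by
  obtain ⟨φ, φ1, φ2, M, hM, h1, h2, h3, h4, h5, h6, h7, h8⟩ := SV.step_ker2
  refine ⟨1 + 20 * M, by linarith, fun m r l hr hl => ?_⟩
  set a := r + l / 4 with ha
  set b := r + 3 * l / 4 with hb
  have ha0 : 0 < a := by positivity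
  have hb0 : 0 < b := by positivity
  set d := (l / 2 * (a + b))⁻¹ with hd
  have hd0 : 0 < d := by positivity
  set g : E m → ℝ := fun u => -(d * a ^ 2) + d * ‖u‖ ^ 2 with hg
  have hgb : ∀ u : E m, g u - 1 = d * (‖u‖ ^ 2 - b ^ 2) := fun u => by
    have : d * (b ^ 2 - a ^ 2) = 1 := by
      rw [show b ^ 2 - a ^ 2 = l / 2 * (a + b) by rw [ha, hb]; ring]
      exact inv_mul_cancel₀ (by positivity)
    simp only [hg]; linarith
  have hL : ∀ u : E m, ‖u‖ ≤ b → ‖(2 * d) • innerSL ℝ u‖ ≤ 4 / l := fun u hu => by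
    rw [norm_smul, innerSL_apply_norm, Real.norm_of_nonneg (by positivity)]
    calc 2 * d * ‖u‖ ≤ 2 * d * (a + b) := by gcongr; linarith
      _ = 4 / l := by rw [hd]; field_simp; norm_num
  have hout : ∀ u : E m, b < ‖u‖ → 1 < g u := fun u hu => by
    have : 0 < d * (‖u‖ ^ 2 - b ^ 2) := mul_pos hd0 (by nlinarith)
    linarith [hgb u]
  have e1 : fderiv ℝ (fun u => φ (g u)) = fun u => φ1 (g u) • ((2 * d) • innerSL ℝ u) :=
    funext fun u => ((h2 (g u)).comp_hasFDerivAt u (sq_ker2 _ d u)).fderiv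
  refine ⟨fun u => φ (g u), h1.comp (contDiff_const.add (contDiff_const.mul
    (contDiff_norm_sq ℝ))), fun u => h4 _, fun u hu => h5 _ ?_, fun u hu => h6 _ ?_,
    fun u => ?_, fun u => ?_⟩
  · rw [sub_zero] at hu
    have : d * ‖u‖ ^ 2 ≤ d * a ^ 2 := by gcongr
    simp only [hg]; linarith
  · rw [sub_zero] at hu
    have : 0 ≤ d * (‖u‖ ^ 2 - b ^ 2) := mul_nonneg hd0.le (by nlinarith)
    linarith [hgb u]
  · rw [e1]
    rcases le_or_gt ‖u‖ b with hu | hu
    · simp only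
      rw [norm_smul]
      calc _ ≤ M * (4 / l) := mul_le_mul (h7 _).1 (hL u hu) (norm_nonneg _) hM
        _ = 4 * M / l := by ring
        _ ≤ _ := by gcongr; linarith
    · simp only [(h8 _ (hout u hu)).1, zero_smul, norm_zero]
      positivity
  · have e2 := (((h3 (g u)).comp_hasFDerivAt u (sq_ker2 _ d u)).smul
      (((2 * d) • (innerSL ℝ : E m →L[ℝ] E m →L[ℝ] ℝ)).hasFDerivAt (x := u))).fderiv
    rw [e1]
    refine (congrArg norm e2).trans_le ?_
    rcases le_or_gt ‖u‖ b with hu | hu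
    · refine (norm_add_le _ _).trans ?_
      rw [ContinuousLinearMap.norm_smulRight_apply, norm_smul, norm_smul, norm_smul (φ2 _)]
      have g1 : ‖(innerSL ℝ : E m →L[ℝ] E m →L[ℝ] ℝ)‖ ≤ 1 := norm_innerSL_le ℝ
      have g2 : ‖2 * d‖ ≤ 4 / l ^ 2 := by
        rw [Real.norm_of_nonneg (by positivity)]
        calc 2 * d ≤ 2 * (l / 2 * l)⁻¹ := by rw [hd]; gcongr; linarith
          _ = _ := by field_simp; norm_num
      have g3 := hL u hu
      calc _ ≤ M * (4 / l ^ 2 * 1) + M * (4 / l) * (4 / l) := by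
            gcongr
            · exact (h7 _).1
            · exact (h7 _).2
            · exact g3
        _ = 20 * M / l ^ 2 := by ring
        _ ≤ _ := by gcongr; linarith
    · simp only [Function.comp, (h8 _ (hout u hu)).1, (h8 _ (hout u hu)).2, zero_smul,
        ContinuousLinearMap.zero_smulRight, add_zero, norm_zero]
      positivity

theorem exists_cut : ∃ C : ℝ, 1 ≤ C ∧ ∀ (m : ℕ) (c : E m) (r l : ℝ), 0 ≤ r → 0 < l →
    ∃ κ : E m → ℝ, Cut κ c r l C := by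
  obtain ⟨C, hC, h⟩ := cut0_ker2
  refine ⟨C, hC, fun m c r l hr hl => ?_⟩
  obtain ⟨κ, hκ⟩ := h m r l hr hl
  have e1 : fderiv ℝ (fun u => κ (u - c)) = fun u => fderiv ℝ κ (u - c) :=
    funext fun u => fderiv_comp_sub c
  refine ⟨fun u => κ (u - c), hκ.smooth.comp (contDiff_id.sub contDiff_const), fun u => hκ.mem _,
    fun u hu => hκ.one _ (by rwa [sub_zero]), fun u hu => hκ.zero _ (by rwa [sub_zero]),
    fun u => ?_, fun u => ?_⟩
  · rw [e1]
    exact hκ.d1 _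
  · rw [e1, fderiv_comp_sub c]
    exact hκ.d2 _

theorem fd_ker2 (φ : E m → ℝ) (u v : E m) : fderiv ℝ φ u v = ⟪gradient φ u, v⟫ := by
  rw [gradient, InnerProductSpace.toDual_symm_apply]

theorem nfd_ker2 (φ : E m → ℝ) (u : E m) : ‖fderiv ℝ φ u‖ = ‖gradient φ u‖ := by
  rw [gradient, LinearIsometryEquiv.norm_map]

theorem chi_props (c : E m) {r : ℝ} (hr : 0 < r) :
    (∀ u, 3 * chi c r u ≤ om c r u) ∧
      (∀ u : E m, r ≤ ‖u - c‖ → chi c r u = 0 ∧ om c r u = 0 ∧ fderiv ℝ (chi c r) u = 0 ∧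
        fderiv ℝ (om c r) u = 0) ∧
      (∀ u v : E m, fderiv ℝ (chi c r) u v = -(2 / r ^ 2) * om c r u * ⟪u - c, v⟫) ∧
      (∀ u v : E m, fderiv ℝ (om c r) u v = -(12 / r ^ 2) * LG.pr c r u * ⟪u - c, v⟫) ∧
      (∀ u, ‖fderiv ℝ (chi c r) u‖ ≤ 6 / r ∧ ‖fderiv ℝ (om c r) u‖ ≤ 12 / r) ∧
      (∀ u v : E m, |chi c r u - chi c r v| ≤ 6 / r * ‖u - v‖ ∧
        |om c r u - om c r v| ≤ 12 / r * ‖u - v‖ ∧
        |LG.pr c r u - LG.pr c r v| ≤ 2 / r * ‖u - v‖) := by
  have m0 := LG.pr_nonneg c r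
  have m1 := LG.pr_le_one c r
  have m2 : ∀ u : E m, r ≤ ‖u - c‖ → LG.pr c r u = 0 := fun u hu =>
    LG.pr_eq_zero hr (by rwa [mem_ball_iff_norm, not_lt])
  have c1 : ∀ u v : E m, fderiv ℝ (chi c r) u v = -(2 / r ^ 2) * om c r u * ⟪u - c, v⟫ :=
    fun u v => by rw [fd_ker2, LG.grad_chi, real_inner_smul_left]; ring
  have o1 : ∀ u v : E m, fderiv ℝ (om c r) u v = -(12 / r ^ 2) * LG.pr c r u * ⟪u - c, v⟫ :=
    fun u v => by rw [fd_ker2, LG.grad_om, real_inner_smul_left]; ring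
  have z1 : ∀ u : E m, r ≤ ‖u - c‖ → chi c r u = 0 ∧ om c r u = 0 ∧ fderiv ℝ (chi c r) u = 0 ∧
      fderiv ℝ (om c r) u = 0 := fun u hu => by
    have h1 : om c r u = 0 := by simp [om, m2 u hu]
    refine ⟨by simp [chi, m2 u hu], h1, ?_, ?_⟩
    · ext1 v
      simp [c1, h1]
    · ext1 v
      simp [o1, m2 u hu]
  refine ⟨fun u => ?_, z1, c1, o1, fun u => ?_, fun u v => ?_⟩
  · exact mul_le_mul_of_nonneg_left (pow_le_pow_of_le_one (m0 u) (m1 u) (by norm_num))
      (by norm_num)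
  · rcases le_total ‖u - c‖ r with hu | hu
    · have g1 := LG.om_le c r u
      have g2 := LG.om_nonneg c r u
      have g3 := m0 u
      have g4 := m1 u
      rw [nfd_ker2, nfd_ker2, LG.grad_chi, LG.grad_om, norm_smul, norm_smul, norm_neg, norm_neg,
        Real.norm_of_nonneg (by positivity), Real.norm_of_nonneg (by positivity)]
      constructor
      · calc _ ≤ 2 * 3 / r ^ 2 * r := by gcongr
          _ = _ := by field_simp; norm_num
      · calc _ ≤ 12 * 1 / r ^ 2 * r := by gcongr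
          _ = _ := by field_simp
    · rw [(z1 u hu).2.2.1, (z1 u hu).2.2.2, norm_zero]
      constructor <;> positivity
  · have g1 := SV.lip_ker2 (x := ‖u - c‖ / r) (y := ‖v - c‖ / r) (by positivity) (by positivity)
    rw [div_pow, div_pow, ← sub_div, abs_div, abs_of_pos hr] at g1
    have g2 : |LG.pr c r u - LG.pr c r v| ≤ 2 / r * ‖u - v‖ :=
      g1.trans (by
        rw [mul_div_assoc', div_mul_eq_mul_div]
        gcongr
        refine (abs_norm_sub_norm_le _ _).trans_eq ?_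
        rw [sub_sub_sub_cancel_right])
    obtain ⟨g3, g4, -⟩ := SV.alg_ker2 (m0 u) (m1 u) (m0 v) (m1 v)
    rw [show 6 / r = 3 * (2 / r) by ring, show 12 / r = 6 * (2 / r) by ring]
    unfold chi om
    exact ⟨by linarith, by linarith, g2⟩

theorem pr_scale_ker2 (c : E m) {r : ℝ} (hr : 0 < r) (u : E m) :
    LG.pr c r u = LG.pr 0 1 (r⁻¹ • (u - c)) := by
  unfold LG.pr
  rw [sub_zero, norm_smul, norm_inv, Real.norm_of_nonneg hr.le, mul_pow, one_pow, div_one,
    inv_pow, div_eq_inv_mul]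

theorem int_scale_ker2 (c : E m) {r : ℝ} (hr : 0 < r) (F : E m → ℝ) :
    ∫ u, F (r⁻¹ • (u - c)) = r ^ m * ∫ u, F u := by
  rw [integral_sub_right_eq_self (fun u => F (r⁻¹ • u)) c,
    Measure.integral_comp_inv_smul_of_nonneg volume F hr.le, finrank_euclideanSpace_fin,
    smul_eq_mul]

theorem int_bd_ker2 {φ : E m → ℝ} (hφ : Continuous φ) {B : ℝ} (h0 : ∀ u, 0 ≤ φ u)
    (hB : ∀ u, φ u ≤ B) (hz : ∀ u, u ∉ ball (0 : E m) 1 → φ u = 0) (h1 : φ 0 ≠ 0) :
    0 < ∫ u, φ u ∧ ∫ u, φ u ≤ B * vb m := by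
  have hc : HasCompactSupport φ :=
    (isCompact_closedBall (0 : E m) 1).of_isClosed_subset (isClosed_tsupport _) (LG.supp_cut hz)
  refine ⟨hφ.integral_pos_of_hasCompactSupport_nonneg_nonzero hc h0 h1, ?_⟩
  have h2 : ∫ u, φ u ≤ ∫ u, (ball (0 : E m) 1).indicator (fun _ => B) u := by
    refine integral_mono (hφ.integrable_of_hasCompactSupport hc) (LG.ind_cut 0 1 B) fun u => ?_
    by_cases hu : u ∈ ball (0 : E m) 1
    · rw [indicator_of_mem hu]
      exact hB u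
    · rw [indicator_of_notMem hu, hz u hu]
  rwa [integral_indicator_const _ measurableSet_ball, smul_eq_mul, mul_comm] at h2

theorem int_chi (c : E m) {r : ℝ} (hr : 0 < r) :
    Integrable (chi c r) ∧ Integrable (om c r) ∧
      ∫ u, chi c r u = r ^ m * ∫ u : E m, chi 0 1 u ∧ ∫ u, om c r u = r ^ m * ∫ u : E m, om 0 1 u ∧
      0 < ∫ u : E m, chi 0 1 u ∧ ∫ u : E m, chi 0 1 u ≤ vb m ∧
      0 < ∫ u : E m, om 0 1 u ∧ ∫ u : E m, om 0 1 u ≤ 3 * vb m := by
  have k1 : HasCompactSupport (chi c r) :=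
    (isCompact_closedBall c r).of_isClosed_subset (isClosed_tsupport _) (LG.tsupport_chi hr)
  have k2 : HasCompactSupport (om c r) :=
    (isCompact_closedBall c r).of_isClosed_subset (isClosed_tsupport _) (LG.tsupport_om hr)
  have b1 := int_bd_ker2 (LG.contDiff_chi (0 : E m) 1).continuous (LG.chi_nonneg 0 1)
    (LG.chi_le_one 0 1) (fun u hu => by simp [chi, LG.pr_eq_zero one_pos hu])
    (by simp [chi, LG.pr])
  have b2 := int_bd_ker2 (LG.contDiff_om (0 : E m) 1).continuous (LG.om_nonneg 0 1)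
    (LG.om_le 0 1) (fun u hu => by simp [om, LG.pr_eq_zero one_pos hu]) (by simp [om, LG.pr])
  refine ⟨(LG.contDiff_chi c r).continuous.integrable_of_hasCompactSupport k1,
    (LG.contDiff_om c r).continuous.integrable_of_hasCompactSupport k2, ?_, ?_, b1.1,
    by simpa using b1.2, b2.1, b2.2⟩
  · rw [← int_scale_ker2 c hr]
    simp only [chi, pr_scale_ker2 c hr]
  · rw [← int_scale_ker2 c hr]
    simp only [om, pr_scale_ker2 c hr]

end Pool.Agent.Lib.MP_8daebb_an.GM
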