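import Pool.Agent.Lib.MP_8daebb_an.GM.Id2
import Pool.Agent.Lib.MP_8daebb_an.GM.Ker2

/-! Caccioppoli inequality. -/

set_option linter.unusedSectionVars false
set_option linter.unusedVariables false

open MeasureTheory Metric Filter Topology Set
open scoped RealInnerProductSpace ENNReal ContDiff

namespace Pool.Agent.Lib.MP_8daebb_an.GM

open LG (vb chi om trS)

variable {d : ℕ} {α : Type*} [MeasurableSpace α] {H : Type*} [NormedAddCommGroup H]
  [InnerProductSpace ℝ H] [FiniteDimensional ℝ H] [MeasurableSpace H] [BorelSpace H]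

theorem PW.q_cacc {D : CD d α H} {δ : ℝ} {a : α} (h : PW D δ a) (h0 : 0 ≤ δ) (hδ : δ ≤ 1 / 10)
    (ham : ‖D.am (D.x a) - 1‖ ≤ δ) (e : H) :
    ‖D.q a e‖ ≤ ‖e‖ * (3 * √(D.t a) + ‖D.y a‖) := by
  have hY0 := norm_nonneg (D.y a)
  have hY : ‖D.y a‖ ≤ 1 / 10 := h.y_le.trans hδ
  have hs0 := Real.sqrt_nonneg (D.t a)
  have he0 := norm_nonneg e
  have h3 : δ * ‖D.y a‖ ≤ 1 / 10 * ‖D.y a‖ := mul_le_mul_of_nonneg_right hδ hY0
  have h1 : ‖D.am (D.x a)‖ ≤ 11 / 10 := by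
    have h2 := norm_add_le (D.am (D.x a) - 1) 1
    rw [sub_add_cancel] at h2
    have h4 : ‖(1 : E d →L[ℝ] E d)‖ ≤ 1 := ContinuousLinearMap.norm_id_le
    linarith
  have h2 : ‖D.p e a‖ ≤ (2 * √(D.t a) + 1 / 10 * ‖D.y a‖) * ‖e‖ := by
    refine (ContinuousLinearMap.le_opNorm _ _).trans (mul_le_mul_of_nonneg_right ?_ he0)
    rw [LinearIsometryEquiv.norm_map]
    linarith [h.b_le]
  have h4 : ‖D.am (D.x a) (D.p e a)‖ ≤ 11 / 10 * ((2 * √(D.t a) + 1 / 10 * ‖D.y a‖) * ‖e‖) :=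
    (ContinuousLinearMap.le_opNorm _ _).trans
      (mul_le_mul h1 h2 (norm_nonneg _) (by norm_num))
  have h5 : ‖D.q a e - D.am (D.x a) (D.p e a)‖ ≤ 1 / 100 * (√(D.t a) + ‖D.y a‖) * ‖e‖ := by
    refine (h.qb e).trans ?_
    gcongr
    linarith
  have h6 := norm_add_le (D.q a e - D.am (D.x a) (D.p e a)) (D.am (D.x a) (D.p e a))
  rw [sub_add_cancel] at h6
  nlinarith [mul_nonneg hs0 he0, mul_nonneg hY0 he0]

theorem CV.integrable_cacc {D : CD d α H} {c : E d} {R δ M : ℝ} (h : CV D c R δ M)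
    (hδ : δ ≤ 1 / 10) (F : (E d × H) × (H →L[ℝ] E d) × (H →L[ℝ] H) × H → ℝ) (hF : Continuous F) :
    Integrable (fun a => F ((D.x a, D.y a), D.q a, D.g a, D.L a)) D.m := by
  have h0 := h.δ_nonneg
  obtain ⟨C, hC⟩ := (isCompact_closedBall
    (0 : (E d × H) × (H →L[ℝ] E d) × (H →L[ℝ] H) × H)
      (4 + 3 * √d)).exists_bound_of_continuousOn hF.continuousOn
  refine h.integrable ?_ C fun a ha hx => hC _ ?_
  · exact (hF.comp_stronglyMeasurable
      ((h.m_x.stronglyMeasurable.prodMk h.m_y.stronglyMeasurable).prodMk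
        (h.m_q.stronglyMeasurable.prodMk (h.m_g.stronglyMeasurable.prodMk
          h.m_L.stronglyMeasurable)))).aestronglyMeasurable
  · have hp := h.pw a ha
    have h6 := hp.x_le
    have h7 := hp.y_two
    have h8 := hp.g_norm
    have e2 : 0 ≤ √(d : ℝ) := Real.sqrt_nonneg _
    have e3 : √(D.t a) ≤ √(d : ℝ) := Real.sqrt_le_sqrt hp.t_le
    have h1 : ‖D.q a‖ ≤ 3 * √(D.t a) + ‖D.y a‖ :=
      ContinuousLinearMap.opNorm_le_bound _ (by positivity) fun e => by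
        rw [mul_comm]
        exact hp.q_cacc h0 hδ (h.met.one _ hx).2.2 e
    have h2 : ‖D.L a‖ ≤ √(D.t a) + ‖D.y a‖ :=
      hp.L_le.trans (mul_le_of_le_one_left (by positivity) (by linarith))
    rw [mem_closedBall_zero_iff]
    simp only [Prod.norm_def, max_le_iff]
    refine ⟨⟨?_, ?_⟩, ?_, ?_, ?_⟩ <;> linarith

theorem continuous_trH_cacc : Continuous (trH : (H →L[ℝ] H) → ℝ) := by
  have : (trH : (H →L[ℝ] H) → ℝ) = fun A => ∑ k, ⟪stdOrthonormalBasis ℝ H k,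
      A (stdOrthonormalBasis ℝ H k)⟫ :=
    funext fun A => LinearMap.trace_eq_sum_inner _ (stdOrthonormalBasis ℝ H)
  rw [this]
  fun_prop

theorem real_cacc {z d k s Y T : ℝ} (hz0 : 0 ≤ z) (hz1 : z ≤ 1) (hk : 0 ≤ k) (hs : 0 ≤ s)
    (hY : 0 ≤ Y) (hd : |d| ≤ k * (Y * (3 * s + Y))) (hT : 4 / 5 * s ^ 2 - Y ^ 2 / 10 ≤ T) :
    1 / 2 * (z ^ 2 * s ^ 2) - (45 * k ^ 2 + 2 * k + 1 / 10) * Y ^ 2 ≤ 2 * z * d + z ^ 2 * T := by
  have h1 : -(k * (Y * (3 * s + Y))) ≤ d := (abs_le.1 hd).1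
  have h2 := mul_le_mul_of_nonneg_left h1 (show 0 ≤ 2 * z by positivity)
  have h3 := mul_le_mul_of_nonneg_left hT (sq_nonneg z)
  have h4 : z ^ 2 * Y ^ 2 ≤ Y ^ 2 := by
    have : z ^ 2 ≤ 1 := by nlinarith
    nlinarith [sq_nonneg Y]
  have h5 : z * (k * Y ^ 2) ≤ k * Y ^ 2 := by
    have : 0 ≤ k * Y ^ 2 := by positivity
    nlinarith
  have h6 : 6 * (z * s) * (k * Y) ≤ (z * s) ^ 2 / 5 + 45 * (k * Y) ^ 2 := by
    nlinarith [sq_nonneg (z * s - 15 * (k * Y))]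
  nlinarith [sq_nonneg (z * s)]

theorem tilt_cacc (d : ℕ) : ∃ C : ℝ, 0 < C ∧ ∀ (D : CD d α H) (c : E d) (R δ M : ℝ),
    CV D c R δ M → δ ≤ 1 / 10 → ∀ (u : E d) (σ l : ℝ), 0 ≤ σ → 0 < l → ‖u - c‖ + σ + l ≤ R →
    D.T u σ ≤ C / l ^ 2 * D.J u (σ + l) := by
  obtain ⟨C0, hC0, hcut⟩ := exists_cut
  refine ⟨2 * (45 * C0 ^ 2 + 4 * C0 + 1), by positivity,
    fun D c R δ M h hδ u σ l hσ hl hR => ?_⟩
  obtain ⟨κ, hκ⟩ := hcut d u σ l hσ hl
  have h0 := h.δ_nonneg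
  have hl2 : l ≤ 2 := by linarith [h.R_le, norm_nonneg (u - c)]
  have hκ1 : ContDiff ℝ 1 κ := hκ.smooth.of_le (by norm_num)
  set ψ : E d × H → ℝ := fun v => κ v.1 ^ 2 with hψ
  have hψc : ContDiff ℝ 1 ψ := (hκ1.comp contDiff_fst).pow 2
  have hT : Test c R ψ := by
    refine ⟨hψc.contDiffOn, ‖u - c‖ + σ + 3 * l / 4, by linarith, fun v hv => ?_⟩
    have h1 : ‖v.1 - c‖ ≤ ‖v.1 - u‖ + ‖u - c‖ := norm_sub_le_norm_sub_add_norm_sub _ _ _
    have h2 : κ v.1 = 0 := hκ.zero _ (by linarith)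
    simp [hψ, h2]
  have hd : ∀ v p : E d × H, fderiv ℝ ψ v p = 2 * κ v.1 * fderiv ℝ κ v.1 p.1 := by
    intro v p
    have h1 : HasFDerivAt κ (fderiv ℝ κ v.1) v.1 :=
      (hκ1.differentiable one_ne_zero _).hasFDerivAt
    have h2 : HasFDerivAt (fun v : E d × H => κ v.1)
        ((fderiv ℝ κ v.1).comp (ContinuousLinearMap.fst ℝ (E d) H)) v :=
      HasFDerivAt.comp v h1 hasFDerivAt_fst
    rw [(h2.pow 2).fderiv]
    simp
  have e := h.ver_rad hT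
  have hi : Integrable (fun a => fderiv ℝ ψ (D.x a, D.y a) (D.q a (D.y a), D.g a (D.y a)) +
      ψ (D.x a, D.y a) * (trH (D.g a) + ⟪D.L a, D.y a⟫)) D.m := by
    have h1 : Continuous ψ := hψc.continuous
    have h2 : Continuous (fderiv ℝ ψ) := hψc.continuous_fderiv one_ne_zero
    have h3 := continuous_trH_cacc (H := H)
    exact h.integrable_cacc hδ
      (fun p => fderiv ℝ ψ p.1 (p.2.1 p.1.2, p.2.2.1 p.1.2) +
        ψ p.1 * (trH p.2.2.1 + ⟪p.2.2.2, p.1.2⟫)) (by fun_prop)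
  obtain ⟨i1, -, i2, -⟩ := h.integrable_t
  obtain ⟨K, hK⟩ : ∃ K, K = (45 * C0 ^ 2 + 4 * C0 + 1) / l ^ 2 := ⟨_, rfl⟩
  have hK0 : 0 ≤ K := by rw [hK]; positivity
  have hKk : 45 * (C0 / l) ^ 2 + 2 * (C0 / l) + 1 / 10 ≤ K := by
    rw [hK, le_div_iff₀ (by positivity)]
    have e1 : (45 * (C0 / l) ^ 2 + 2 * (C0 / l) + 1 / 10) * l ^ 2 =
        45 * C0 ^ 2 + 2 * C0 * l + l ^ 2 / 10 := by field_simp
    rw [e1]
    nlinarith
  have m1 := h.meas_cyl u σ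
  have m2 := h.meas_cyl u (σ + l)
  have hle : ∫ a, (1 / 2 * (D.cyl u σ).indicator D.t a -
      K * (D.cyl u (σ + l)).indicator (fun a => ‖D.y a‖ ^ 2) a) ∂D.m ≤ 0 := by
    rw [← e]
    refine integral_mono_ae (((i1.indicator m1).const_mul _).sub ((i2.indicator m2).const_mul _))
      hi ?_
    filter_upwards [h.ae_G, h.car] with a ha hx
    have hp := h.pw a ha
    have ht0 := hp.t_nonneg
    have hY0 := norm_nonneg (D.y a)
    rw [hd]
    simp only [hψ]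
    by_cases h2 : a ∈ D.cyl u (σ + l)
    · rw [indicator_of_mem h2]
      have hz := hκ.mem (D.x a)
      have hw := (abs_le.1 (h.met.one _ hx).1).1
      have hY : ‖D.y a‖ ≤ 1 / 10 := hp.y_le.trans hδ
      have htr := (abs_le.1 hp.trg).1
      have hsq : √(D.t a) ^ 2 = D.t a := Real.sq_sqrt ht0
      have hTT : 4 / 5 * √(D.t a) ^ 2 - ‖D.y a‖ ^ 2 / 10 ≤ trH (D.g a) + ⟪D.L a, D.y a⟫ := by
        rw [hsq]
        have a1 : 9 / 10 * D.t a ≤ D.w (D.x a) * D.t a :=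
          mul_le_mul_of_nonneg_right (by linarith) ht0
        have a2 : δ * (‖D.y a‖ ^ 2 + ‖D.y a‖ * D.t a) ≤
            1 / 10 * (‖D.y a‖ ^ 2 + ‖D.y a‖ * D.t a) :=
          mul_le_mul_of_nonneg_right hδ (by positivity)
        have a3 : ‖D.y a‖ * D.t a ≤ 1 / 10 * D.t a := mul_le_mul_of_nonneg_right hY ht0
        linarith
      have hdd : |fderiv ℝ κ (D.x a) (D.q a (D.y a))| ≤
          C0 / l * (‖D.y a‖ * (3 * √(D.t a) + ‖D.y a‖)) :=
        ((fderiv ℝ κ (D.x a)).le_opNorm _).trans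
          (mul_le_mul (hκ.d1 _) (hp.q_cacc h0 hδ (h.met.one _ hx).2.2 _) (norm_nonneg _) (by positivity))
      have key := real_cacc hz.1 hz.2 (show 0 ≤ C0 / l by positivity) (Real.sqrt_nonneg _) hY0
        hdd hTT
      rw [hsq] at key
      have b1 : (D.cyl u σ).indicator D.t a ≤ κ (D.x a) ^ 2 * D.t a := by
        by_cases h1 : a ∈ D.cyl u σ
        · have h3 : ‖D.x a - u‖ < σ := h1
          rw [indicator_of_mem h1, hκ.one _ (by linarith)]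
          simp
        · rw [indicator_of_notMem h1]
          positivity
      have b2 := mul_le_mul_of_nonneg_right hKk (sq_nonneg ‖D.y a‖)
      linarith
    · have h3 : σ + l ≤ ‖D.x a - u‖ := not_lt.1 h2
      have h1 : a ∉ D.cyl u σ := fun h1 => by
        have h4 : ‖D.x a - u‖ < σ := h1
        linarith
      rw [indicator_of_notMem h1, indicator_of_notMem h2, hκ.zero _ (by linarith)]
      simp
  rw [integral_sub ((i1.indicator m1).const_mul _) ((i2.indicator m2).const_mul _),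
    integral_const_mul, integral_const_mul, integral_indicator m1, integral_indicator m2] at hle
  have e2 : 2 * (45 * C0 ^ 2 + 4 * C0 + 1) / l ^ 2 = 2 * K := by rw [hK]; ring
  rw [e2, CD.T, CD.J]
  linarith

theorem cacc (d : ℕ) : ∃ C : ℝ, 0 < C ∧ ∀ (D : CD d α H) (c : E d) (R δ M : ℝ), CV D c R δ M →
    δ ≤ 1 / 10 → ∀ (u : E d) (σ l : ℝ), 0 ≤ σ → 0 < l → ‖u - c‖ + σ + l ≤ R →
    D.En u σ ≤ C / l ^ 2 * D.J u (σ + l) := by
  obtain ⟨C, hC, hT⟩ := tilt_cacc (α := α) (H := H) d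
  refine ⟨C + 4, by positivity, fun D c R δ M h hδ u σ l hσ hl hR => ?_⟩
  have hl2 : l ≤ 2 := by linarith [h.R_le, norm_nonneg (u - c)]
  have h1 := hT D c R δ M h hδ u σ l hσ hl hR
  have h2 := (h.cyl_mono (u := u) (v := u) (r := σ) (s := σ + l) (by simp [hl.le])).2.2.1
  have h3 := (h.nonneg u (σ + l)).2.2.1
  have h4 : 1 ≤ 4 / l ^ 2 := by
    rw [le_div_iff₀ (by positivity)]
    nlinarith
  rw [(h.nonneg u σ).2.2.2.2.1, add_div, add_mul]
  nlinarith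

theorem en_le (d : ℕ) (M : ℝ) : ∃ C : ℝ, 0 < C ∧ ∀ (D : CD d α H) (c : E d) (R δ lam : ℝ),
    CV D c R δ M → δ ≤ 1 / 10 → Ht D lam → 0 < lam → ∀ (u : E d) (σ l : ℝ), 0 ≤ σ → lam < l →
    ‖u - c‖ + σ + l ≤ R → D.En u σ ≤ C * lam ^ 2 * ((σ + l) ^ d / l ^ 2) := by
  obtain ⟨C, hC, hT⟩ := cacc (α := α) (H := H) d
  refine ⟨C * (|M| + 1), by positivity, fun D c R δ lam h hδ hs hlam u σ l hσ hl hR => ?_⟩
  have hl0 : 0 < l := hlam.trans hl
  have := h.fin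
  have h1 := hs.cyl_le h u (σ := σ + l) (by linarith) (by linarith)
  have h2 : D.J u (σ + l) ≤ lam ^ 2 * D.Ms u (σ + l) := by
    have h3 : D.J u (σ + l) ≤ ∫ a in D.cyl u (σ + l), lam ^ 2 ∂D.m := by
      refine integral_mono_ae h.integrable_t.2.2.1.integrableOn (integrable_const _) ?_
      filter_upwards [ae_restrict_of_ae hs] with a ha
      gcongr
    rwa [setIntegral_const, smul_eq_mul, mul_comm] at h3
  have h3 : D.Ms u (σ + l) ≤ (|M| + 1) * (σ + l) ^ d :=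
    h1.trans (mul_le_mul_of_nonneg_right (by linarith [le_abs_self M]) (by positivity))
  calc _ ≤ C / l ^ 2 * D.J u (σ + l) := hT D c R δ M h hδ u σ l hσ hl0 hR
    _ ≤ C / l ^ 2 * (lam ^ 2 * ((|M| + 1) * (σ + l) ^ d)) := by
      gcongr
      exact h2.trans (by gcongr)
    _ = _ := by ring

end Pool.Agent.Lib.MP_8daebb_an.GM
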