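import Pool.Agent.Lib.MP_8daebb_an.GM.Df3
import Pool.Agent.Lib.MP_8daebb_an.GM.Cacc

/-! The start: a radius at which the least energy doubles slowly. -/

set_option linter.unusedSectionVars false
set_option linter.unusedVariables false

open MeasureTheory Metric Filter Topology Set
open scoped RealInnerProductSpace ENNReal ContDiff

namespace Pool.Agent.Lib.MP_8daebb_an.GM

open LG (vb chi om trS)
open SV (ux)

variable {d : ℕ} {α : Type*} [MeasurableSpace α] {H : Type*} [NormedAddCommGroup H]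
  [InnerProductSpace ℝ H] [FiniteDimensional ℝ H] [MeasurableSpace H] [BorelSpace H]

theorem doubling {f : ℝ → ℝ} {l₁ : ℝ} (hl : 4 ≤ l₁) (hm : MonotoneOn f (Icc (1 / 2) 1))
    (h0 : 0 < f (1 / 2)) (h1 : f 1 ≤ Real.exp (-l₁)) :
    ∃ r l : ℝ, 1 / 2 ≤ r ∧ r ≤ 3 / 4 ∧ l₁ ≤ l ∧ f r = Real.exp (-l) ∧
      f (r + (l ^ 2)⁻¹) ≤ 3 * Real.exp (-l) := by
  by_contra hc
  have i1 : (1 : ℝ) ∈ Icc (1 / 2 : ℝ) 1 := ⟨by norm_num, le_rfl⟩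
  have i0 : (1 / 2 : ℝ) ∈ Icc (1 / 2 : ℝ) 1 := ⟨le_rfl, by norm_num⟩
  have hlog : ∀ x ∈ Icc (1 / 2 : ℝ) 1, ∃ l, l₁ ≤ l ∧ f x = Real.exp (-l) := fun x hx => by
    have h2 : 0 < f x := h0.trans_le (hm i0 hx hx.1)
    refine ⟨-Real.log (f x), ?_, by rw [neg_neg, Real.exp_log h2]⟩
    have := (Real.log_le_iff_le_exp h2).2 ((hm hx i1 hx.2).trans h1)
    linarith
  obtain ⟨l₀, a0, a1⟩ := hlog _ i0
  have key : ∀ n : ℕ, ∃ x l : ℝ, 1 / 2 ≤ x ∧ x ≤ 1 / 2 + l⁻¹ ∧ l₁ ≤ l ∧ f x = Real.exp (-l) ∧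
      l ≤ l₀ - n := by
    intro n
    induction n with
    | zero =>
      exact ⟨1 / 2, l₀, le_rfl, le_add_of_nonneg_right (inv_nonneg.2 (by linarith)), a0, a1,
        by simp⟩
    | succ n ih =>
      obtain ⟨x, l, b1, b2, b3, b4, b5⟩ := ih
      have hl0 : 0 < l := by linarith
      have c1 : l⁻¹ ≤ 1 / 4 := by
        rw [one_div]
        exact inv_anti₀ (by norm_num) (by linarith)
      have c2 : (l ^ 2)⁻¹ ≤ 1 / 16 := by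
        rw [one_div]
        exact inv_anti₀ (by norm_num) (by nlinarith)
      have c3 : 0 < (l ^ 2)⁻¹ := by positivity
      obtain ⟨l', d1, d2⟩ := hlog (x + (l ^ 2)⁻¹) ⟨by linarith, by linarith⟩
      have d3 : 3 * Real.exp (-l) < Real.exp (-l') := by
        rw [← d2]
        exact not_le.1 fun h => hc ⟨x, l, b1, by linarith, b3, b4, h⟩
      have d4 : l' ≤ l - 1 := by
        have h2 : Real.exp (1 + -l) < Real.exp (-l') := by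
          rw [Real.exp_add]
          refine lt_of_le_of_lt (mul_le_mul_of_nonneg_right ?_ (Real.exp_pos _).le) d3
          linarith [Real.exp_one_lt_d9]
        linarith [Real.exp_lt_exp.1 h2]
      have d5 : l⁻¹ + (l ^ 2)⁻¹ ≤ l'⁻¹ := by
        have h2 : (l - 1)⁻¹ ≤ l'⁻¹ := inv_anti₀ (by linarith) d4
        refine le_trans ?_ h2
        have h3 : 0 < l - 1 := by linarith
        rw [show l⁻¹ + (l ^ 2)⁻¹ = (l + 1) / l ^ 2 by field_simp, inv_eq_one_div,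
          div_le_div_iff₀ (by positivity) h3]
        nlinarith
      exact ⟨x + (l ^ 2)⁻¹, l', by linarith, by linarith, d1, d2, by push_cast; linarith⟩
  obtain ⟨n, hn⟩ := exists_nat_gt (l₀ - l₁)
  obtain ⟨x, l, -, -, b3, -, b5⟩ := key n
  linarith

theorem CV.J_le_starta {D : CD d α H} {c : E d} {R δ M : ℝ} (h : CV D c R δ M) (u : E d)
    (σ : ℝ) : D.J u σ ≤ 3 ^ d * M * δ ^ 2 := by
  have := h.fin
  refine (setIntegral_le_integral h.integrable_t.2.2.1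
    (Eventually.of_forall fun a => sq_nonneg _)).trans ?_
  calc ∫ a, ‖D.y a‖ ^ 2 ∂D.m ≤ ∫ _, δ ^ 2 ∂D.m := by
        refine integral_mono_ae h.integrable_t.2.2.1 (integrable_const _) ?_
        filter_upwards [h.ae_G] with a ha
        exact pow_le_pow_left₀ (norm_nonneg _) (h.pw a ha).y_le 2
    _ ≤ _ := by
        rw [integral_const, smul_eq_mul]
        exact mul_le_mul_of_nonneg_right h.mass_le (sq_nonneg _)

theorem start_a {C : Type*} (d : ℕ) (M : ℝ) {l₁ : ℝ} (hl : 4 ≤ l₁) : ∃ δ₂ : ℝ, 0 < δ₂ ∧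
    ∀ (Adm : C → ℝ → ℝ → Prop) (ch : C → ℝ → CD d α H) (θ δ ε₁ εB : ℝ) (Q : ℕ) (CN cN : ℝ)
      (KN : ℕ), Sys Adm ch M θ δ ε₁ εB δ₂ Q CN cN KN → 0 < ε₁ →
    (∃ η > 0, ∀ c R, 1 / 2 ≤ R → R ≤ 2 → Adm c (2 * ε₁) R → η < (ch c R).En 0 (1 / 2)) →
    ∃ (r l : ℝ) (c₁ : C) (R₁ : ℝ), 1 / 2 ≤ r ∧ r ≤ 3 / 4 ∧ l₁ ≤ l ∧
      Adm c₁ (ε₁ * (2 - r - (l ^ 2)⁻¹)) R₁ ∧ r + (l ^ 2)⁻¹ ≤ R₁ ∧ R₁ ≤ 2 ∧
      (ch c₁ R₁).En 0 (r + (l ^ 2)⁻¹) ≤ 6 * Real.exp (-l) ∧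
      ∀ c R, r ≤ R → R ≤ 2 → Adm c (ε₁ * (2 - r)) R → Real.exp (-l) ≤ (ch c R).En 0 r := by
  obtain ⟨K, hK, hc⟩ := cacc (α := α) (H := H) d
  have hmp := Real.exp_pos (-l₁)
  have hL : 0 < K * (3 ^ d * |M|) + 1 := by positivity
  obtain ⟨δ₂, h0, h1, h2⟩ : ∃ δ₂ : ℝ, 0 < δ₂ ∧ δ₂ ≤ 1 / 10 ∧
      (K * (3 ^ d * |M|) + 1) * δ₂ ≤ Real.exp (-l₁) :=
    ⟨min (1 / 10) (Real.exp (-l₁) / (K * (3 ^ d * |M|) + 1)),
      lt_min (by norm_num) (div_pos hmp hL), min_le_left _ _,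
      (le_div_iff₀' hL).1 (min_le_right _ _)⟩
  refine ⟨δ₂, h0, fun Adm ch θ δ ε₁ εB Q CN cN KN hS hε ⟨η, hη, hlow⟩ => ?_⟩
  obtain ⟨c₀, a0, cv0⟩ := hS.flat
  let S : ℝ → Set ℝ := fun x =>
    {e | ∃ c R, x ≤ R ∧ R ≤ 2 ∧ Adm c (ε₁ * (2 - x)) R ∧ (ch c R).En 0 x = e}
  have hEn : ∀ {D : CD d α H} {R x x' : ℝ}, CV D 0 R δ M → x ≤ x' → D.En 0 x ≤ D.En 0 x' :=
    fun h hx => (h.cyl_mono (by simpa using hx)).2.2.2
  have hmem : ∀ x ∈ Icc (1 / 2 : ℝ) 1, (ch c₀ 2).En 0 x ∈ S x := fun x hx =>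
    ⟨c₀, 2, by linarith [hx.2], le_rfl,
      hS.adm_mono _ _ _ _ a0 (mul_nonneg hε.le (by linarith [hx.2])), rfl⟩
  have hcv : ∀ x ∈ Icc (1 / 2 : ℝ) 1, ∀ c R, x ≤ R → R ≤ 2 → Adm c (ε₁ * (2 - x)) R →
      CV (ch c R) 0 R δ M := fun x hx c R b1 b2 b3 =>
    hS.cv c _ R b3 (by nlinarith [hx.1]) (by linarith [hx.1]) b2
  have hlb : ∀ x ∈ Icc (1 / 2 : ℝ) 1, η ∈ lowerBounds (S x) := by
    rintro x hx _ ⟨c, R, b1, b2, b3, rfl⟩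
    exact (hlow c R (hx.1.trans b1) b2 (hS.adm_mono _ _ _ _ b3 (by nlinarith [hx.1]))).le.trans
      (hEn (hcv x hx c R b1 b2 b3) hx.1)
  have hpos : ∀ x ∈ Icc (1 / 2 : ℝ) 1, 0 < sInf (S x) := fun x hx =>
    hη.trans_le (le_csInf ⟨_, hmem x hx⟩ (hlb x hx))
  have hmono : MonotoneOn (fun x => sInf (S x)) (Icc (1 / 2) 1) := by
    intro x hx x' hx' hxx
    refine le_csInf ⟨_, hmem x' hx'⟩ ?_
    rintro _ ⟨c, R, b1, b2, b3, rfl⟩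
    exact (csInf_le ⟨η, hlb x hx⟩ ⟨c, R, hxx.trans b1, b2, hS.adm_mono _ _ _ _ b3
      (mul_le_mul_of_nonneg_left (by linarith) hε.le), rfl⟩).trans
      (hEn (hcv x' hx' c R b1 b2 b3) hxx)
  have i1 : (1 : ℝ) ∈ Icc (1 / 2 : ℝ) 1 := ⟨by norm_num, le_rfl⟩
  have hone : sInf (S 1) ≤ Real.exp (-l₁) := by
    refine (csInf_le ⟨η, hlb 1 i1⟩ (hmem 1 i1)).trans (le_trans ?_ h2)
    have b1 := hc _ _ _ _ _ cv0 h1 0 1 1 zero_le_one one_pos (by norm_num)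
    have b2 : (ch c₀ 2).J 0 (1 + 1) ≤ 3 ^ d * |M| * δ₂ :=
      (cv0.J_le_starta 0 _).trans (mul_le_mul
        (mul_le_mul_of_nonneg_left (le_abs_self M) (by positivity))
        (by nlinarith) (sq_nonneg _) (by positivity))
    have b3 := mul_le_mul_of_nonneg_left b2 hK.le
    rw [one_pow, div_one] at b1
    linarith
  obtain ⟨r, l, r1, r2, r3, r4, r5⟩ := doubling hl hmono (hpos _ ⟨le_rfl, by norm_num⟩) hone
  have ir : r ∈ Icc (1 / 2 : ℝ) 1 := ⟨r1, by linarith⟩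
  have c2 : (l ^ 2)⁻¹ ≤ 1 / 16 := by
    rw [one_div]
    exact inv_anti₀ (by norm_num) (by nlinarith)
  have c3 : 0 ≤ (l ^ 2)⁻¹ := by positivity
  have iF : r + (l ^ 2)⁻¹ ∈ Icc (1 / 2 : ℝ) 1 := ⟨by linarith, by linarith⟩
  have f3 := Real.exp_pos (-l)
  obtain ⟨_, ⟨c, R, b1, b2, b3, rfl⟩, b4⟩ := exists_lt_of_csInf_lt ⟨_, hmem _ iF⟩
    (by linarith : sInf (S (r + (l ^ 2)⁻¹)) < 6 * Real.exp (-l))
  refine ⟨r, l, c, R, r1, r2, r3, by rwa [sub_sub], b1, b2, b4.le, fun c' R' d1 d2 d3 => ?_⟩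
  rw [← r4]
  exact csInf_le ⟨η, hlb r ir⟩ ⟨c', R', d1, d2, d3, rfl⟩

end Pool.Agent.Lib.MP_8daebb_an.GM
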