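import Pool.Agent.Lib.MP_8daebb_an.GM.Df

/-! Facts about the metric of the centre. -/

set_option linter.unusedSectionVars false
set_option linter.unusedVariables false

open MeasureTheory Metric Filter Topology Set
open scoped RealInnerProductSpace ENNReal ContDiff

namespace Pool.Agent.Lib.MP_8daebb_an.GM

open LG (vb chi om trS)

variable {d : ℕ} {α : Type*} [MeasurableSpace α] {H : Type*} [NormedAddCommGroup H]
  [InnerProductSpace ℝ H] [FiniteDimensional ℝ H] [MeasurableSpace H] [BorelSpace H]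

theorem abs_trH_le (A : E d →L[ℝ] E d) : |trH A| ≤ d * ‖A‖ := by
  rw [← trS_eq, trS]
  refine (Finset.abs_sum_le_sum_abs _ _).trans ?_
  have h : ∀ b : Fin d, |⟪A (LG.eb b), LG.eb b⟫| ≤ ‖A‖ := fun b => by
    have h1 : ‖(LG.eb b : E d)‖ = 1 := by simp [LG.eb]
    have h2 := abs_real_inner_le_norm (A (LG.eb b)) (LG.eb b)
    have h3 := A.le_opNorm (LG.eb b)
    rw [h1, mul_one] at h2 h3
    exact h2.trans h3
  simpa using Finset.sum_le_card_nsmul Finset.univ _ _ fun b _ => h b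

theorem trH_lin (A B : E d →L[ℝ] E d) (c : ℝ) : trH (A + B) = trH A + trH B ∧
    trH (A - B) = trH A - trH B ∧ trH (c • A) = c * trH A ∧ trH (A.comp B) = trH (B.comp A) ∧
    trH (1 : E d →L[ℝ] E d) = d ∧ Continuous (trH : (E d →L[ℝ] E d) → ℝ) := by
  refine ⟨?_, ?_, ?_, ?_, ?_, ?_⟩
  · simp [trH]
  · simp [trH]
  · simp [trH]
  · simp only [trH]
    exact LinearMap.trace_comp_comm' _ _
  · have : ((1 : E d →L[ℝ] E d) : E d →ₗ[ℝ] E d) = 1 := rfl
    rw [trH, this, LinearMap.trace_one]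
    simp
  · have : (trH : (E d →L[ℝ] E d) → ℝ) = fun A => ∑ b, ⟪A (LG.eb b), LG.eb b⟫ := by
      funext A
      rw [← trS_eq, trS]
    rw [this]
    fun_prop

theorem Psd.cs_metf {A : E d →L[ℝ] E d} (h : Psd A) (v z : E d) :
    ⟪A v, z⟫ ^ 2 ≤ ⟪A v, v⟫ * ⟪A z, z⟫ := by
  have key : ∀ s : ℝ, 0 ≤ ⟪A z, z⟫ * (s * s) + 2 * ⟪A v, z⟫ * s + ⟪A v, v⟫ := by
    intro s
    have h1 := h.2 (v + s • z)
    have h2 : ⟪A z, v⟫ = ⟪A v, z⟫ := by rw [h.1, real_inner_comm]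
    simp only [map_add, map_smul, inner_add_left, inner_add_right, real_inner_smul_left,
      real_inner_smul_right, h2] at h1
    linarith
  have := discrim_le_zero key
  rw [discrim] at this
  nlinarith

theorem Psd.norm_le {A : E d →L[ℝ] E d} (h : Psd A) : 0 ≤ trH A ∧ ‖A‖ ≤ trH A := by
  have h0 : 0 ≤ trH A := by
    rw [← trS_eq, trS]
    exact Finset.sum_nonneg fun b _ => h.2 _
  refine ⟨h0, A.opNorm_le_bound h0 fun v => ?_⟩
  have h1 : ‖A v‖ ^ 2 = ∑ b, ⟪A v, LG.eb b⟫ ^ 2 := by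
    rw [EuclideanSpace.real_norm_sq_eq]
    refine Finset.sum_congr rfl fun b _ => ?_
    simp [LG.eb, EuclideanSpace.inner_single_right]
  have h2 : ‖A v‖ ^ 2 ≤ ⟪A v, v⟫ * trH A := by
    rw [h1, ← trS_eq, trS, Finset.mul_sum]
    exact Finset.sum_le_sum fun b _ => h.cs_metf _ _
  have h3 : ⟪A v, v⟫ * trH A ≤ ‖A v‖ * ‖v‖ * trH A :=
    mul_le_mul_of_nonneg_right (real_inner_le_norm _ _) h0
  rcases (norm_nonneg (A v)).eq_or_lt with h4 | h4
  · rw [← h4]; positivity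
  · refine le_of_mul_le_mul_left ?_ h4
    nlinarith

theorem near_one_metf {A : E d →L[ℝ] E d} (h : ‖A - 1‖ ≤ 1 / 2) (v : E d) :
    ‖v‖ / 2 ≤ ‖A v‖ ∧ ‖A v‖ ≤ 3 / 2 * ‖v‖ ∧ 0 ≤ ⟪A v, v⟫ := by
  have h1 : ‖A v - v‖ ≤ 1 / 2 * ‖v‖ := by
    have := (A - 1).le_opNorm v
    rw [sub_apply, one_apply_eq_self] at this
    exact this.trans (by gcongr)
  have h2 := abs_le.1 (abs_norm_sub_norm_le (A v) v)
  refine ⟨by linarith [h2.1], by linarith [h2.2], ?_⟩
  have h3 := abs_le.1 ((abs_real_inner_le_norm (A v - v) v).trans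
    (mul_le_mul_of_nonneg_right h1 (norm_nonneg v)))
  rw [inner_sub_left, real_inner_self_eq_norm_sq] at h3
  nlinarith [h3.1, sq_nonneg ‖v‖]

theorem Met.lip {D : CD d α H} {c : E d} {R δ : ℝ} (h : Met D c R δ) (h0 : 0 ≤ δ)
    (hδ : δ ≤ 1 / 2) {u v : E d} (hu : u ∈ ball c R) (hv : v ∈ ball c R) :
    |D.w u - D.w v| ≤ δ * ‖u - v‖ ∧ ‖D.am u - D.am v‖ ≤ δ * ‖u - v‖ ∧
      ‖D.gm u - D.gm v‖ ≤ 5 * δ * ‖u - v‖ := by
  have h1 : |D.w u - D.w v| ≤ δ * ‖u - v‖ :=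
    (convex_ball c R).norm_image_sub_le_of_norm_fderiv_le
      (fun x hx => (h.w_diff.differentiableOn one_ne_zero).differentiableAt
        (isOpen_ball.mem_nhds hx)) (fun x hx => (h.w_le x hx).2) hv hu
  have h2 : ‖D.am u - D.am v‖ ≤ δ * ‖u - v‖ :=
    (convex_ball c R).norm_image_sub_le_of_norm_fderiv_le
      (fun x hx => (h.am_diff.differentiableOn one_ne_zero).differentiableAt
        (isOpen_ball.mem_nhds hx)) (fun x hx => (h.am_le x hx).2) hv hu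
  refine ⟨h1, h2, ContinuousLinearMap.opNorm_le_bound _ (by positivity) fun z => ?_⟩
  have e1 : D.am u ((D.gm u - D.gm v) z) =
      (D.w u - D.w v) • z - (D.am u - D.am v) (D.gm v z) := by
    simp only [sub_apply, map_sub, (h.am_gm u hu z).1, (h.am_gm v hv z).1,
      sub_smul]
    abel
  have h3 := (near_one_metf ((h.one u hu).2.2.trans hδ) ((D.gm u - D.gm v) z)).1
  have h4 := (near_one_metf ((h.one v hv).2.1.trans hδ) z).2.1
  have h5 : ‖(D.am u - D.am v) (D.gm v z)‖ ≤ δ * ‖u - v‖ * (3 / 2 * ‖z‖) :=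
    ((D.am u - D.am v).le_opNorm _).trans (by gcongr)
  have h6 : ‖(D.w u - D.w v) • z‖ ≤ δ * ‖u - v‖ * ‖z‖ := by
    rw [norm_smul, Real.norm_eq_abs]
    gcongr
  have h7 := norm_sub_le ((D.w u - D.w v) • z) ((D.am u - D.am v) (D.gm v z))
  rw [e1] at h3
  linarith

theorem Met.psd {D : CD d α H} {c : E d} {R δ : ℝ} (h : Met D c R δ) (hδ : δ ≤ 1 / 2) {u : E d}
    (hu : u ∈ ball c R) : Psd (D.am u) ∧ Psd (D.gm u) ∧ ‖D.am u‖ ≤ 2 ∧ ‖D.gm u‖ ≤ 2 ∧
      1 / 2 ≤ D.w u ∧ D.w u ≤ 3 / 2 ∧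
      ∀ B : E d →L[ℝ] E d, (∀ v, D.gm u (B v) = v) → D.am u = D.w u • B := by
  obtain ⟨h1, h2, h3⟩ := h.one u hu
  have h4 := abs_le.1 (h1.trans hδ)
  refine ⟨⟨h.am_symm u hu, fun v => (near_one_metf (h3.trans hδ) v).2.2⟩,
    ⟨h.gm_symm u hu, fun v => (near_one_metf (h2.trans hδ) v).2.2⟩,
    ContinuousLinearMap.opNorm_le_bound _ (by norm_num) fun v => ?_,
    ContinuousLinearMap.opNorm_le_bound _ (by norm_num) fun v => ?_,
    by linarith [h4.1], by linarith [h4.2], fun B hB => ?_⟩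
  · linarith [(near_one_metf (h3.trans hδ) v).2.1, norm_nonneg v]
  · linarith [(near_one_metf (h2.trans hδ) v).2.1, norm_nonneg v]
  · ext1 v
    rw [smul_apply, ← (h.am_gm u hu (B v)).1, hB]

theorem Met.mu {D : CD d α H} {c : E d} {R δ : ℝ} (h : Met D c R δ) (h0 : 0 ≤ δ) {u : E d}
    (hu : u ∈ ball c R) : |D.mu u - 1| ≤ δ * ‖u‖ ∧ |D.mu u - 1| ≤ δ ∧
      D.mu u * ‖u‖ ^ 2 = ⟪D.am u u, u⟫ := by
  have key : ∀ K, 0 ≤ K → ‖D.am u - 1‖ ≤ K → |D.mu u - 1| ≤ K := by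
    intro K hK hA
    rw [CD.mu, add_sub_cancel_left, abs_div, abs_of_nonneg (sq_nonneg ‖u‖)]
    refine div_le_of_le_mul₀ (sq_nonneg _) hK ((abs_real_inner_le_norm _ _).trans ?_)
    have h1 : ‖D.am u u - u‖ ≤ K * ‖u‖ := by
      have := (D.am u - 1).le_opNorm u
      rw [sub_apply, one_apply_eq_self] at this
      exact this.trans (by gcongr)
    calc _ ≤ K * ‖u‖ * ‖u‖ := by gcongr
      _ = _ := by ring
  refine ⟨key _ (by positivity) (h.am_le u hu).1, key _ h0 (h.one u hu).2.2, ?_⟩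
  rcases eq_or_ne u 0 with rfl | hu0
  · simp
  · have h1 : ‖u‖ ^ 2 ≠ 0 := pow_ne_zero 2 (norm_ne_zero_iff.2 hu0)
    rw [CD.mu, add_mul, div_mul_cancel₀ _ h1, inner_sub_left, real_inner_self_eq_norm_sq]
    ring

theorem meas_mu {D : CD d α H} (h : Measurable D.am) : Measurable D.mu := by
  have h1 : Measurable fun u => D.am u u :=
    ContinuousLinearMap.measurable_apply₂.comp (h.prodMk measurable_id)
  unfold CD.mu
  exact measurable_const.add (((h1.sub measurable_id).inner measurable_id).div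
    (measurable_norm.pow_const 2))

end Pool.Agent.Lib.MP_8daebb_an.GM
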