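import Pool.Agent.Lib.MP_8daebb_an.GM.Base2
import Pool.Agent.Lib.MP_8daebb_an.GM.Ker2
import Pool.Agent.Lib.MP_8daebb_an.GM.MetF

/-! Elementary comparisons of the radial quantities. -/

set_option linter.unusedSectionVars false
set_option linter.unusedVariables false

open MeasureTheory Metric Filter Topology Set
open scoped RealInnerProductSpace ENNReal ContDiff

namespace Pool.Agent.Lib.MP_8daebb_an.GM

open LG (vb chi om trS)

variable {d : ℕ} {α : Type*} [MeasurableSpace α] {H : Type*} [NormedAddCommGroup H]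
  [InnerProductSpace ℝ H] [FiniteDimensional ℝ H] [MeasurableSpace H] [BorelSpace H]

theorem low_hb {r σ : ℝ} (hr : 0 < r) (hσr : σ ≤ r) {u : E d} (hu : ‖u - 0‖ < σ) :
    1 - σ / r ≤ LG.pr 0 r u := by
  refine le_trans ?_ (le_max_left _ _)
  have h0 := norm_nonneg (u - 0)
  have h1 : ‖u - 0‖ ^ 2 / r ^ 2 ≤ σ / r := by
    rw [div_le_div_iff₀ (by positivity) hr]
    have h2 : ‖u - 0‖ * ‖u - 0‖ ≤ σ * r := mul_le_mul hu.le (hu.le.trans hσr) h0 (h0.trans hu.le)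
    nlinarith
  linarith

theorem om_mono_hb {r r' : ℝ} (hr' : 0 < r') (h : r' ≤ r) (u : E d) : om 0 r' u ≤ om 0 r u := by
  have h1 : ‖u - 0‖ ^ 2 / r ^ 2 ≤ ‖u - 0‖ ^ 2 / r' ^ 2 := by gcongr
  have h2 : LG.pr 0 r' u ≤ LG.pr 0 r u := max_le_max (by linarith) le_rfl
  have h3 := pow_le_pow_left₀ (LG.pr_nonneg 0 r' u) h2 2
  unfold om
  linarith

theorem CV.w_mem_hb {D : CD d α H} {R δ M : ℝ} (h : CV D 0 R δ M) (hδ : δ ≤ 1 / 2) {u : E d}
    (hu : u ∈ ball (0 : E d) R) :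
    1 / 2 ≤ D.w u ∧ D.w u ≤ 3 / 2 ∧ 1 / 2 ≤ D.mu u ∧ D.mu u ≤ 3 / 2 := by
  have h1 := abs_le.1 (h.met.one u hu).1
  have h2 := abs_le.1 (h.met.mu h.δ_nonneg hu).2.1
  refine ⟨?_, ?_, ?_, ?_⟩ <;> linarith [h1.1, h1.2, h2.1, h2.2]

theorem CV.int_om_hb {D : CD d α H} {R δ M : ℝ} (h : CV D 0 R δ M) (hδ : δ ≤ 1 / 2) (r : ℝ) :
    Integrable (fun a => om 0 r (D.x a) * D.mu (D.x a) * ‖D.y a‖ ^ 2) D.m := by
  refine h.integrable_t.2.2.1.bdd_mul (c := 5)
    (((LG.contDiff_om 0 r).continuous.measurable.comp h.m_x).mul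
      ((meas_mu h.m_am).comp h.m_x)).aestronglyMeasurable ?_
  filter_upwards [h.car] with a ha
  obtain ⟨-, -, h1, h2⟩ := h.w_mem_hb hδ ha
  have h3 := LG.om_nonneg 0 r (D.x a)
  have h4 := LG.om_le 0 r (D.x a)
  rw [Real.norm_of_nonneg (mul_nonneg h3 (by linarith))]
  nlinarith

theorem CV.int_chi_hb {D : CD d α H} {R δ M : ℝ} (h : CV D 0 R δ M) (hδ : δ ≤ 1 / 2) (r : ℝ)
    {f : α → ℝ} (hf : Integrable f D.m) :
    Integrable (fun a => chi 0 r (D.x a) * D.w (D.x a) * f a) D.m := by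
  refine hf.bdd_mul (c := 3 / 2)
    (((LG.contDiff_chi 0 r).continuous.measurable.comp h.m_x).mul
      (h.m_w.comp h.m_x)).aestronglyMeasurable ?_
  filter_upwards [h.car] with a ha
  obtain ⟨h1, h2, -⟩ := h.w_mem_hb hδ ha
  have h3 := LG.chi_nonneg 0 r (D.x a)
  have h4 := LG.chi_le_one 0 r (D.x a)
  rw [Real.norm_of_nonneg (mul_nonneg h3 (by linarith))]
  nlinarith

theorem hh_basic {D : CD d α H} {R δ M : ℝ} (h : CV D 0 R δ M) (hδ : δ ≤ 1 / 2) {r : ℝ}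
    (hr : 0 < r) : 0 ≤ D.hh r ∧ 0 ≤ D.dr r ∧ 0 ≤ D.RR r ∧ r ^ d * D.hh r ≤ 5 * D.J 0 r ∧
      r ^ d * D.dr r ≤ 2 * r ^ 2 * D.T 0 r ∧
      (∀ r', 0 < r' → r' ≤ r → r' ^ d * D.hh r' ≤ r ^ d * D.hh r) ∧
      (∫ a, chi 0 r (D.x a) * D.w (D.x a) * ‖D.y a‖ ^ 2 ∂D.m ≤ r ^ d * D.hh r) ∧
      ∀ σ, 0 < σ → σ ≤ r → (1 - σ / r) ^ 2 * D.J 0 σ ≤ r ^ d * D.hh r ∧
        (1 - σ / r) ^ 3 * r ^ 2 * D.T 0 σ ≤ 2 * r ^ d * D.dr r := by
  obtain ⟨c1, c2, -⟩ := chi_props (0 : E d) hr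
  have c3 := LG.chi_nonneg (0 : E d) r
  have c4 := LG.om_nonneg (0 : E d) r
  have iy := h.integrable_t.2.2.1
  have it := h.integrable_t.1
  have e1 : ∀ r : ℝ, 0 < r →
      r ^ d * D.hh r = ∫ a, om 0 r (D.x a) * D.mu (D.x a) * ‖D.y a‖ ^ 2 ∂D.m := by
    intro r hr
    rw [CD.hh, ← mul_assoc, mul_inv_cancel₀ (by positivity), one_mul]
  have e2 : r ^ d * D.dr r = r ^ 2 * ∫ a, chi 0 r (D.x a) * D.w (D.x a) * D.t a ∂D.m := by
    rw [CD.dr, ← mul_assoc, mul_div_cancel₀ _ (by positivity)]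
  have eJ : ∀ k σ : ℝ, k * D.J 0 σ =
      ∫ a, k * (D.cyl 0 σ).indicator (fun a => ‖D.y a‖ ^ 2) a ∂D.m := by
    intro k σ
    rw [integral_const_mul, integral_indicator (h.meas_cyl 0 σ), CD.J]
  have eT : ∀ k σ : ℝ, k * D.T 0 σ = ∫ a, k * (D.cyl 0 σ).indicator D.t a ∂D.m := by
    intro k σ
    rw [integral_const_mul, integral_indicator (h.meas_cyl 0 σ), CD.T]
  have iJ : ∀ k σ : ℝ,
      Integrable (fun a => k * (D.cyl 0 σ).indicator (fun a => ‖D.y a‖ ^ 2) a) D.m :=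
    fun k σ => (iy.indicator (h.meas_cyl 0 σ)).const_mul k
  have iT : ∀ k σ : ℝ, Integrable (fun a => k * (D.cyl 0 σ).indicator D.t a) D.m :=
    fun k σ => (it.indicator (h.meas_cyl 0 σ)).const_mul k
  have mem : ∀ (σ : ℝ) (a : α), a ∈ D.cyl 0 σ ↔ ‖D.x a - 0‖ < σ := fun σ a => Iff.rfl
  refine ⟨?_, ?_, ?_, ?_, ?_, fun r' hr' hle => ?_, ?_, fun σ hσ hle => ⟨?_, ?_⟩⟩
  · refine mul_nonneg (by positivity) (integral_nonneg_of_ae ?_)
    filter_upwards [h.car] with a ha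
    obtain ⟨-, -, h1, -⟩ := h.w_mem_hb hδ ha
    exact mul_nonneg (mul_nonneg (c4 _) (by linarith)) (by positivity)
  · refine mul_nonneg (by positivity) (integral_nonneg_of_ae ?_)
    filter_upwards [h.car, h.ae_G] with a ha hG
    have h1 := (h.w_mem_hb hδ ha).1
    exact mul_nonneg (mul_nonneg (c3 _) (by linarith)) (h.pw a hG).t_nonneg
  · refine mul_nonneg (by positivity) (integral_nonneg_of_ae ?_)
    filter_upwards [h.car, h.ae_G] with a ha hG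
    obtain ⟨-, -, h1, -⟩ := h.w_mem_hb hδ ha
    exact mul_nonneg (c4 _) (div_nonneg ((h.pw a hG).T0_pos _) (by linarith))
  · rw [e1 r hr, eJ]
    refine integral_mono_ae (h.int_om_hb hδ r) (iJ _ _) ?_
    filter_upwards [h.car] with a hb
    by_cases ha : a ∈ D.cyl 0 r
    · simp only [indicator_of_mem ha]
      obtain ⟨-, -, h1, h2⟩ := h.w_mem_hb hδ hb
      have h3 := c4 (D.x a)
      have h4 := LG.om_le 0 r (D.x a)
      exact mul_le_mul_of_nonneg_right (by nlinarith) (by positivity)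
    · simp only [indicator_of_notMem ha]
      rw [(c2 _ (not_lt.1 ((mem r a).not.1 ha))).2.1]
      simp
  · rw [e2, mul_comm 2, mul_assoc, eT]
    refine mul_le_mul_of_nonneg_left
      (integral_mono_ae (h.int_chi_hb hδ r it) (iT _ _) ?_) (by positivity)
    filter_upwards [h.car, h.ae_G] with a hb hG
    by_cases ha : a ∈ D.cyl 0 r
    · simp only [indicator_of_mem ha]
      obtain ⟨h1, h2, -⟩ := h.w_mem_hb hδ hb
      have h3 := c3 (D.x a)
      have h4 := LG.chi_le_one 0 r (D.x a)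
      exact mul_le_mul_of_nonneg_right (by nlinarith) (h.pw a hG).t_nonneg
    · simp only [indicator_of_notMem ha]
      rw [(c2 _ (not_lt.1 ((mem r a).not.1 ha))).1]
      simp
  · rw [e1 r hr, e1 r' hr']
    refine integral_mono_ae (h.int_om_hb hδ r') (h.int_om_hb hδ r) ?_
    filter_upwards [h.car] with a hb
    obtain ⟨-, -, h1, -⟩ := h.w_mem_hb hδ hb
    exact mul_le_mul_of_nonneg_right
      (mul_le_mul_of_nonneg_right (om_mono_hb hr' hle _) (by linarith)) (by positivity)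
  · rw [e1 r hr]
    refine integral_mono_ae (h.int_chi_hb hδ r iy) (h.int_om_hb hδ r) ?_
    filter_upwards [h.car] with a hb
    obtain ⟨h1, h2, h3, -⟩ := h.w_mem_hb hδ hb
    have h5 := c1 (D.x a)
    have h6 := c3 (D.x a)
    exact mul_le_mul_of_nonneg_right (by nlinarith) (by positivity)
  · rw [e1 r hr, eJ]
    refine integral_mono_ae (iJ _ _) (h.int_om_hb hδ r) ?_
    filter_upwards [h.car] with a hb
    obtain ⟨-, -, h3, -⟩ := h.w_mem_hb hδ hb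
    have h4 := c4 (D.x a)
    by_cases ha : a ∈ D.cyl 0 σ
    · simp only [indicator_of_mem ha]
      refine mul_le_mul_of_nonneg_right ?_ (by positivity)
      have h0 : 0 ≤ 1 - σ / r := by
        rw [sub_nonneg, div_le_one hr]
        exact hle
      have h1 := pow_le_pow_left₀ h0 (low_hb hr hle ((mem σ a).1 ha)) 2
      have h2 := sq_nonneg (LG.pr 0 r (D.x a))
      have h5 : om 0 r (D.x a) = 3 * LG.pr 0 r (D.x a) ^ 2 := rfl
      nlinarith
    · simp only [indicator_of_notMem ha, mul_zero]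
      exact mul_nonneg (mul_nonneg h4 (by linarith)) (by positivity)
  · rw [mul_assoc 2, e2, mul_comm ((1 - σ / r) ^ 3), mul_assoc, mul_left_comm 2, eT,
      ← integral_const_mul 2]
    refine mul_le_mul_of_nonneg_left
      (integral_mono_ae (iT _ _) ((h.int_chi_hb hδ r it).const_mul 2) ?_) (sq_nonneg r)
    filter_upwards [h.car, h.ae_G] with a hb hG
    obtain ⟨h1, h2, -⟩ := h.w_mem_hb hδ hb
    have ht := (h.pw a hG).t_nonneg
    have hc := c3 (D.x a)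
    by_cases ha : a ∈ D.cyl 0 σ
    · simp only [indicator_of_mem ha]
      have h0 : 0 ≤ 1 - σ / r := by
        rw [sub_nonneg, div_le_one hr]
        exact hle
      have h3 : (1 - σ / r) ^ 3 ≤ chi 0 r (D.x a) :=
        pow_le_pow_left₀ h0 (low_hb hr hle ((mem σ a).1 ha)) 3
      rw [← mul_assoc]
      refine mul_le_mul_of_nonneg_right ?_ ht
      nlinarith
    · simp only [indicator_of_notMem ha, mul_zero]
      exact mul_nonneg (by norm_num) (mul_nonneg (mul_nonneg hc (by linarith)) ht)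

/-- The radial quantities do not see the restriction to a larger ball. -/
theorem CV.resB_rad {D : CD d α H} {R δ M : ℝ} (h : CV D 0 R δ M) (hδ : δ ≤ 1 / 2) {R₁ r : ℝ}
    (hr : 0 < r) (h1 : r ≤ R₁) (Q : ℕ) :
    (D.resB 0 R₁).hh r = D.hh r ∧ (D.resB 0 R₁).dr r = D.dr r ∧
      (D.resB 0 R₁).EE Q r = D.EE Q r ∧ (D.resB 0 R₁).UU r = D.UU r ∧
      (D.resB 0 R₁).RR r = D.RR r ∧ (D.resB 0 R₁).bad Q r = D.bad Q r ∧
      ∫ a, D.en a ∂(D.resB 0 R₁).m = D.En 0 R₁ := by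
  obtain ⟨-, c2, -⟩ := chi_props (0 : E d) hr
  have key : ∀ f : α → ℝ, (∀ a, r ≤ ‖D.x a - 0‖ → f a = 0) →
      ∫ a, f a ∂(D.m.restrict (D.cyl 0 R₁)) = ∫ a, f a ∂D.m := fun f hf =>
    setIntegral_eq_integral_of_forall_compl_eq_zero fun a ha =>
      hf a (h1.trans (not_lt.1 ha))
  refine ⟨?_, ?_, ?_, ?_, ?_, ?_, rfl⟩
  · refine congrArg (fun s => (r ^ d)⁻¹ * s)
      (key (fun a => om 0 r (D.x a) * D.mu (D.x a) * ‖D.y a‖ ^ 2) fun a ha => ?_)
    rw [(c2 _ ha).2.1, zero_mul, zero_mul]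
  · refine congrArg (fun s => r ^ 2 / r ^ d * s)
      (key (fun a => chi 0 r (D.x a) * D.w (D.x a) * D.t a) fun a ha => ?_)
    rw [(c2 _ ha).1, zero_mul, zero_mul]
  · refine congrArg (fun s => r ^ 2 / r ^ d * (s - Q * ∫ u, chi 0 r u * D.w u))
      (key (fun a => chi 0 r (D.x a) * D.w (D.x a)) fun a ha => ?_)
    rw [(c2 _ ha).1, zero_mul]
  · refine congrArg (fun s => 2 / r ^ d * s)
      (key (fun a => om 0 r (D.x a) * ⟪D.y a, D.b a (D.am (D.x a) (D.x a))⟫) fun a ha => ?_)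
    rw [(c2 _ ha).2.1, zero_mul]
  · refine congrArg (fun s => 2 / r ^ d * s) (key (fun a => om 0 r (D.x a) *
      (⟪D.T0 a (D.am (D.x a) (D.x a)), D.am (D.x a) (D.x a)⟫ / D.mu (D.x a))) fun a ha => ?_)
    rw [(c2 _ ha).2.1, zero_mul]
  · change (D.m.restrict (D.cyl 0 R₁)).real
      {a | a ∈ D.cyl 0 r ∧ ¬(D.resB 0 R₁).Den ((Q - 1 / 3) * omega d) a} =
      D.m.real {a | a ∈ D.cyl 0 r ∧ ¬D.Den ((Q - 1 / 3) * omega d) a}
    rw [measureReal_def, measureReal_def, Measure.restrict_apply' (h.meas_cyl 0 R₁)]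
    refine congrArg ENNReal.toReal (measure_congr ?_)
    filter_upwards [h.ae_G] with a hG
    refine propext ⟨fun ha => ⟨ha.1.1, fun hd => ha.1.2 ((h.den_resB hδ hG ha.2 _).2 hd)⟩,
      fun ha => ?_⟩
    have hx : a ∈ D.cyl 0 R₁ := lt_of_lt_of_le ha.1 h1
    exact ⟨⟨ha.1, fun hd => ha.2 ((h.den_resB hδ hG hx _).1 hd)⟩, hx⟩

theorem CV.sd_chi {D : CD d α H} {R δ M : ℝ} (h : CV D 0 R δ M) (hδ : δ ≤ 1 / 2) {r : ℝ}
    (hr : 0 < r) (Q : ℕ) :
    2 * D.EE Q r - D.dr r = r ^ 2 / r ^ d * D.Sd Q (fun u => chi 0 r u * D.w u) := by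
  have := h.fin
  have i1 := h.int_chi_hb hδ r (integrable_const (2 : ℝ))
  have i2 := h.int_chi_hb hδ r h.integrable_t.1
  have e : ∫ a, chi 0 r (D.x a) * D.w (D.x a) * (2 - D.t a) ∂D.m =
      2 * ∫ a, chi 0 r (D.x a) * D.w (D.x a) ∂D.m -
        ∫ a, chi 0 r (D.x a) * D.w (D.x a) * D.t a ∂D.m := by
    simp only [mul_sub]
    rw [integral_sub i1 i2, integral_mul_const, mul_comm]
  rw [CD.EE, CD.dr, CD.Sd, e]
  ring

end Pool.Agent.Lib.MP_8daebb_an.GM
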