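import Pool.Agent.Lib.MP_8daebb_an.GM.Df3
import Pool.Agent.Lib.MP_8daebb_an.GM.HB

/-! Comparison of the radial quantities in two charts. -/

set_option linter.unusedSectionVars false
set_option linter.unusedVariables false

open MeasureTheory Metric Filter Topology Set
open scoped RealInnerProductSpace ENNReal ContDiff

namespace Pool.Agent.Lib.MP_8daebb_an.GM

open LG (vb chi om trS)

variable {d : ℕ} {α : Type*} [MeasurableSpace α] {H : Type*} [NormedAddCommGroup H]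
  [InnerProductSpace ℝ H] [FiniteDimensional ℝ H] [MeasurableSpace H] [BorelSpace H]

theorem up_cmpm {μ ν : Measure α} {ε : ℝ} (hε : 0 ≤ ε) (h : μ ≤ ENNReal.ofReal (1 + ε) • ν)
    {f g : α → ℝ} (hf : Integrable f μ) (hg : Integrable g ν) (h0 : 0 ≤ᵐ[ν] g)
    (hfg : f ≤ᵐ[μ] g) : ∫ a, f a ∂μ ≤ (1 + ε) * ∫ a, g a ∂ν := by
  have hg' : Integrable g (ENNReal.ofReal (1 + ε) • ν) := hg.smul_measure ENNReal.ofReal_ne_top
  refine (integral_mono_ae hf (hg'.mono_measure h) hfg).trans ?_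
  refine (integral_mono_measure h (Measure.ae_smul_measure h0 _) hg').trans_eq ?_
  rw [integral_smul_measure, ENNReal.toReal_ofReal (by linarith), smul_eq_mul]

theorem cs_cmpm {ν : Measure α} [IsFiniteMeasure ν] {f : α → ℝ} (hf : Integrable f ν)
    (hs : Integrable (fun a => √(f a)) ν) (h0 : 0 ≤ᵐ[ν] f) :
    (∫ a, √(f a) ∂ν) ^ 2 ≤ ν.real univ * ∫ a, f a ∂ν := by
  have h := discrim_le_zero (a := ν.real univ) (b := -2 * ∫ a, √(f a) ∂ν) (c := ∫ a, f a ∂ν)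
    fun x => by
      have e : ∫ a, (x ^ 2 + (-2 * x * √(f a) + f a)) ∂ν =
          ν.real univ * (x * x) + (-2 * ∫ a, √(f a) ∂ν) * x + ∫ a, f a ∂ν := by
        have i1 : Integrable (fun a => -2 * x * √(f a) + f a) ν := (hs.const_mul _).add hf
        rw [integral_add (integrable_const _) i1,
          integral_add (hs.const_mul _) hf, integral_const, integral_const_mul, smul_eq_mul]
        ring
      rw [← e]
      refine integral_nonneg_of_ae ?_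
      filter_upwards [h0] with a ha
      have := Real.sq_sqrt ha
      show (0 : ℝ) ≤ _
      nlinarith [sq_nonneg (x - √(f a))]
  rw [discrim] at h
  nlinarith

theorem lin_cmpm {ν : Measure α} [IsFiniteMeasure ν] {F f : α → ℝ} (hF : Integrable F ν)
    (hf : Integrable f ν) (hs : Integrable (fun a => √(f a)) ν) (c1 c2 c3 : ℝ) :
    Integrable (fun a => F a + (c1 * f a + (c2 * √(f a) + c3))) ν ∧
      ∫ a, (F a + (c1 * f a + (c2 * √(f a) + c3))) ∂ν =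
        ∫ a, F a ∂ν + (c1 * ∫ a, f a ∂ν + (c2 * ∫ a, √(f a) ∂ν + c3 * ν.real univ)) := by
  have i1 : Integrable (fun a => c2 * √(f a) + c3) ν := (hs.const_mul c2).add (integrable_const c3)
  have i2 : Integrable (fun a => c1 * f a + (c2 * √(f a) + c3)) ν := (hf.const_mul c1).add i1
  refine ⟨hF.add i2, ?_⟩
  rw [integral_add hF i2, integral_add (hf.const_mul c1) i1,
    integral_add (hs.const_mul c2) (integrable_const c3), integral_const_mul, integral_const_mul,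
    integral_const, smul_eq_mul, mul_comm _ c3]

theorem pt1_cmpm {o o' n n' s ε k : ℝ} (ho : 0 ≤ o') (ho3 : o' ≤ 5) (hk : |o' - o| ≤ k)
    (hn : 0 ≤ n) (hn' : 0 ≤ n') (he : |n' - n| ≤ ε) (hs : n ≤ s) :
    |o' * n' ^ 2 - o * n ^ 2| ≤ k * s ^ 2 + (10 * ε * s + 5 * ε ^ 2) := by
  have hε : 0 ≤ ε := (abs_nonneg _).trans he
  have h1 : |n' ^ 2 - n ^ 2| ≤ ε * (2 * s + ε) := by
    rw [show n' ^ 2 - n ^ 2 = (n' - n) * (n' + n) by ring, abs_mul, abs_of_nonneg (add_nonneg hn' hn)]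
    have := (abs_le.1 he).2
    exact mul_le_mul he (by linarith) (add_nonneg hn' hn) hε
  have h2 : |o' * (n' ^ 2 - n ^ 2)| ≤ 5 * (ε * (2 * s + ε)) := by
    rw [abs_mul, abs_of_nonneg ho]
    exact mul_le_mul ho3 h1 (abs_nonneg _) (by norm_num)
  have h3 : |(o' - o) * n ^ 2| ≤ k * s ^ 2 := by
    rw [abs_mul, abs_of_nonneg (sq_nonneg n)]
    exact mul_le_mul hk (pow_le_pow_left₀ hn hs 2) (sq_nonneg _) ((abs_nonneg _).trans hk)
  rw [show o' * n' ^ 2 - o * n ^ 2 = o' * (n' ^ 2 - n ^ 2) + (o' - o) * n ^ 2 by ring]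
  refine (abs_add_le _ _).trans ?_
  linarith

theorem pt2_cmpm {c c' w w' u u' s ε k : ℝ} (hc : 0 ≤ c) (hc1 : c ≤ 1) (hc' : 0 ≤ c')
    (hc1' : c' ≤ 1) (hk : |c' - c| ≤ k) (hw' : 0 ≤ w') (hw1 : w' ≤ 3 / 2) (hw : |w' - w| ≤ ε)
    (hu : 0 ≤ u) (hu' : 0 ≤ u') (he : |u' - u| ≤ ε) (hs : u ≤ s) :
    c' * w' * u' ^ 2 ≤ c * w * u ^ 2 + ((3 / 2 * k + ε) * s ^ 2 + (3 * ε * s + 3 / 2 * ε ^ 2)) := by
  have hε : 0 ≤ ε := (abs_nonneg _).trans he
  have hk0 : 0 ≤ k := (abs_nonneg _).trans hk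
  have h1 : u' ^ 2 ≤ u ^ 2 + (2 * ε * s + ε ^ 2) := by
    have := pow_le_pow_left₀ hu' (show u' ≤ u + ε by linarith [(abs_le.1 he).2]) 2
    nlinarith
  have h2 : c' * w' ≤ 3 / 2 := by nlinarith
  have h3 : c' * w' ≤ c * w + (3 / 2 * k + ε) := by
    have a1 := (abs_le.1 hk).2
    have a2 := (abs_le.1 hw).2
    have a3 : c' * w' ≤ (c + k) * w' := mul_le_mul_of_nonneg_right (by linarith) hw'
    have a4 : c * w' ≤ c * (w + ε) := mul_le_mul_of_nonneg_left (by linarith) hc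
    nlinarith
  have h4 : u ^ 2 ≤ s ^ 2 := pow_le_pow_left₀ hu hs 2
  have h5 : 0 ≤ 2 * ε * s + ε ^ 2 := by have := hu.trans hs; positivity
  have h6 := mul_le_mul_of_nonneg_left h1 (mul_nonneg hc' hw')
  have h7 := mul_le_mul_of_nonneg_right h2 h5
  have h8 := mul_le_mul_of_nonneg_right h3 (sq_nonneg u)
  have h9 := mul_le_mul_of_nonneg_left h4 (show 0 ≤ 3 / 2 * k + ε by positivity)
  nlinarith

theorem mu_cmpm {B B' : E d →L[ℝ] E d} {x x' : E d} {ε : ℝ} (h1 : ‖B' - B‖ ≤ ε)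
    (h2 : ‖x' - x‖ ≤ ε) (h3 : ‖B - 1‖ ≤ 1 / 2 * ‖x‖) :
    |⟪B' x' - x', x'⟫ / ‖x'‖ ^ 2 - ⟪B x - x, x⟫ / ‖x‖ ^ 2| ≤ 3 * ε := by
  have e0 : ∀ (A : E d →L[ℝ] E d) (z : E d), ⟪A z - z, z⟫ / ‖z‖ ^ 2 =
      ⟪(A - 1) (‖z‖⁻¹ • z), ‖z‖⁻¹ • z⟫ := fun A z => by
    rw [map_smul, real_inner_smul_left, real_inner_smul_right]
    show _ = _ * (_ * ⟪A z - z, z⟫)
    ring
  have e1 : ∀ z : E d, ‖‖z‖⁻¹ • z‖ ≤ 1 ∧ ‖z‖ • ‖z‖⁻¹ • z = z := fun z => by
    rcases eq_or_ne z 0 with rfl | hz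
    · simp
    · have := norm_ne_zero_iff.2 hz
      exact ⟨by rw [norm_smul, norm_inv, norm_norm, inv_mul_cancel₀ this], smul_inv_smul₀ this z⟩
  rw [e0, e0]
  obtain ⟨a1, a2⟩ := e1 x
  obtain ⟨a3, a4⟩ := e1 x'
  generalize ‖x‖⁻¹ • x = e at *
  generalize ‖x'‖⁻¹ • x' = e' at *
  have hε : 0 ≤ ε := (norm_nonneg _).trans h1
  have b1 : ‖x‖ * ‖e' - e‖ ≤ 2 * ε := by
    have b2 : ‖x‖ • (e' - e) = (x' - x) + (‖x‖ - ‖x'‖) • e' := by
      rw [smul_sub, sub_smul, a2, a4]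
      abel
    have b3 := (abs_norm_sub_norm_le x x').trans (by rwa [norm_sub_rev] : ‖x - x'‖ ≤ ε)
    have b4 := (norm_add_le (x' - x) ((‖x‖ - ‖x'‖) • e')).trans (add_le_add h2
      ((norm_smul _ _).trans_le (mul_le_mul b3 a3 (norm_nonneg _) hε)))
    rw [← b2, norm_smul, norm_norm] at b4
    linarith
  have b2 : ⟪(B' - 1) e', e'⟫ - ⟪(B - 1) e, e⟫ =
      ⟪(B' - B) e', e'⟫ + (⟪(B - 1) (e' - e), e'⟫ + ⟪(B - 1) e, e' - e⟫) := by
    simp only [map_sub, sub_apply, inner_sub_left, inner_sub_right]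
    ring
  have b3 : ∀ (A : E d →L[ℝ] E d) (v u : E d), |⟪A v, u⟫| ≤ ‖A‖ * ‖v‖ * ‖u‖ := fun A v u =>
    (abs_real_inner_le_norm _ _).trans (mul_le_mul_of_nonneg_right (A.le_opNorm v) (norm_nonneg _))
  have b4 : |⟪(B' - B) e', e'⟫| ≤ ε * 1 * 1 := (b3 _ _ _).trans (by gcongr)
  have b5 : |⟪(B - 1) (e' - e), e'⟫| ≤ 1 / 2 * ‖x‖ * ‖e' - e‖ * 1 := (b3 _ _ _).trans (by gcongr)
  have b6 : |⟪(B - 1) e, e' - e⟫| ≤ 1 / 2 * ‖x‖ * 1 * ‖e' - e‖ := (b3 _ _ _).trans (by gcongr)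
  rw [b2]
  refine (abs_add_le _ _).trans ((add_le_add b4 ((abs_add_le _ _).trans (add_le_add b5 b6))).trans ?_)
  linarith

theorem en_cmpm {y y' t t' ε : ℝ} (hy' : 0 ≤ y') (ht : 0 ≤ t) (ht' : 0 ≤ t') (h1 : y' - y ≤ ε)
    (h2 : √t' - √t ≤ ε) :
    t' + y' ^ 2 ≤ t + y ^ 2 + (1 * (t + y ^ 2) + (0 * √(t + y ^ 2) + 4 * ε ^ 2)) := by
  have a3 := pow_le_pow_left₀ hy' (show _ ≤ y + ε by linarith) 2
  have a4 := pow_le_pow_left₀ (Real.sqrt_nonneg t') (show _ ≤ √t + ε by linarith) 2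
  have a5 := Real.sq_sqrt ht
  rw [Real.sq_sqrt ht'] at a4
  nlinarith [sq_nonneg (y - ε), sq_nonneg (√t - ε)]

theorem cmp_m (d : ℕ) (M : ℝ) : ∃ C : ℝ, 0 < C ∧
    ∀ (D D' : CD d α H) (R R' δ ε r E₀ : ℝ), CV D 0 R δ M → CV D' 0 R' δ M → δ ≤ 1 / 2 →
    Cmp D D' R' ε → 0 ≤ ε → ε ≤ r → r ≤ 1 → 0 < r → r + 2 * ε ≤ R' → R' + ε ≤ R →
    D.En 0 (R' + ε) ≤ E₀ → E₀ ≤ 1 →
    |D'.hh r - D.hh r| ≤ C * ε * (√E₀ + ε) / r ^ (d + 1) ∧
      D'.dr r ≤ D.dr r + C * ε * (√E₀ + ε) / r ^ (d + 1) ∧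
      ∫ a, D'.en a ∂D'.m ≤ 4 * E₀ + C * ε ^ 2 := by
  refine ⟨100 * (3 ^ d * |M| + 1), by positivity, ?_⟩
  intro D D' R R' δ ε r E₀ h h' hδ hc hε hεr hr1 hr hR hRR hE hE1
  have := h.fin
  have := h'.fin
  obtain ⟨-, c6, -, -, -, c9⟩ := chi_props (0 : E d) hr
  have c3 := LG.chi_nonneg (0 : E d) r
  have c3' := LG.chi_le_one (0 : E d) r
  have c4 := LG.om_nonneg (0 : E d) r
  have c4' := LG.om_le (0 : E d) r
  set μ := 3 ^ d * |M| + 1 with hμ
  have hμ1 : 1 ≤ μ := le_add_of_nonneg_left (by positivity)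
  set Z := D.cyl 0 (R' + ε) with hZ
  have mZ : MeasurableSet Z := h.meas_cyl _ _
  set ν := D.m.restrict Z with hν
  have aZ : ∀ᵐ a ∂D'.m, a ∈ Z := by
    filter_upwards [h'.car, hc.near] with a h1 h2
    have h3 : ‖D'.x a‖ < R' := by simpa using h1
    have h4 := norm_sub_norm_le (D.x a) (D'.x a)
    rw [norm_sub_rev] at h4
    show ‖D.x a - 0‖ < R' + ε
    rw [sub_zero]; linarith [h2.1]
  have hle : D'.m ≤ ENNReal.ofReal (1 + ε) • ν := by
    rw [← Measure.restrict_eq_self_of_ae_mem aZ, hν, ← Measure.restrict_smul]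
    exact Measure.restrict_mono subset_rfl hc.le
  have ac : D'.m ≪ D.m := Measure.absolutelyContinuous_of_le_smul hc.le
  obtain ⟨it, -, iy, ie, is, -⟩ := h.integrable_t
  obtain ⟨it', -, iy', ie', -, -⟩ := h'.integrable_t
  have pw : ∀ᵐ a ∂D.m, 0 ≤ D.t a ∧ 0 ≤ D.en a ∧ ‖D.y a‖ ≤ √(D.en a) ∧ √(D.t a) ≤ √(D.en a) ∧
      0 ≤ D.w (D.x a) ∧ D.w (D.x a) ≤ 3 / 2 ∧ 0 ≤ D.mu (D.x a) ∧ D.mu (D.x a) ≤ 3 / 2 ∧
      ‖D.am (D.x a) - 1‖ ≤ 1 / 2 * ‖D.x a‖ := by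
    filter_upwards [h.ae_G, h.car] with a h1 h2
    have t0 := (h.pw a h1).t_nonneg
    obtain ⟨w1, w2, w3, w4⟩ := h.w_mem_hb hδ h2
    exact ⟨t0, add_nonneg t0 (sq_nonneg _), Real.le_sqrt_of_sq_le (le_add_of_nonneg_left t0),
      Real.sqrt_le_sqrt (le_add_of_nonneg_right (sq_nonneg _)), by linarith, w2, by linarith, w4,
      (h.met.am_le _ h2).1.trans (mul_le_mul_of_nonneg_right hδ (norm_nonneg _))⟩
  have pw' : ∀ᵐ a ∂D'.m, 0 ≤ D'.t a ∧ 0 ≤ D'.w (D'.x a) ∧ D'.w (D'.x a) ≤ 3 / 2 ∧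
      0 ≤ D'.mu (D'.x a) ∧ D'.mu (D'.x a) ≤ 3 / 2 := by
    filter_upwards [h'.ae_G, h'.car] with a h1 h2
    obtain ⟨w1, w2, w3, w4⟩ := h'.w_mem_hb hδ h2
    exact ⟨(h'.pw a h1).t_nonneg, by linarith, w2, by linarith, w4⟩
  have pν : ∀ᵐ a ∂ν, _ := ae_restrict_of_ae (s := Z) pw
  have e0 : 0 ≤ᵐ[ν] D.en := pν.mono fun a ha => ha.2.1
  set F₀ := ∫ a, D.en a ∂ν with hEd
  set S := ∫ a, √(D.en a) ∂ν with hS
  set V := ν.real univ with hV
  have E0 : 0 ≤ F₀ := integral_nonneg_of_ae e0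
  have E1 : F₀ ≤ E₀ := hE
  have V0 : 0 ≤ V := measureReal_nonneg
  have V1 : V ≤ μ := by
    have h1 : V ≤ D.m.real univ := by
      rw [hV, hν, measureReal_restrict_apply_univ]
      exact measureReal_mono (subset_univ _)
    have h2 := h.mass_le
    have h3 := mul_le_mul_of_nonneg_left (le_abs_self M) (by positivity : (0 : ℝ) ≤ 3 ^ d)
    linarith
  have q0 : 0 ≤ √E₀ := Real.sqrt_nonneg _
  have q1 : √E₀ ^ 2 = E₀ := Real.sq_sqrt (E0.trans E1)
  have q2 : E₀ ≤ √E₀ := by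
    have : √E₀ ≤ 1 := Real.sqrt_le_one.2 hE1
    nlinarith
  have S1 : S ≤ μ * √E₀ := by
    have h1 := cs_cmpm (ν := ν) ie.restrict is.restrict e0
    refine le_trans (le_abs_self _) (abs_le_of_sq_le_sq (h1.trans ?_) (by positivity))
    rw [mul_pow, q1]
    exact mul_le_mul (by nlinarith) E1 E0 (by positivity)
  set W := ε / r * (√E₀ + ε) with hW
  have k0 : ε ≤ ε / r := by rw [le_div_iff₀ hr]; nlinarith
  have k1 : ε / r * F₀ ≤ W := mul_le_mul_of_nonneg_left (by linarith) (by positivity)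
  have k2 : ε * F₀ ≤ W := (mul_le_mul_of_nonneg_right k0 E0).trans k1
  have k3 : ε * S ≤ μ * W := by
    have h1 := mul_le_mul_of_nonneg_left S1 hε
    have h2 : ε * √E₀ ≤ W := mul_le_mul k0 (by linarith) q0 (by positivity)
    nlinarith
  have k4 : ε ^ 2 * V ≤ μ * W := by
    have h2 : ε * ε ≤ W := mul_le_mul k0 (by linarith) hε (by positivity)
    rw [mul_comm]
    exact mul_le_mul V1 (by linarith [sq ε]) (sq_nonneg _) (by linarith)
  have W0 : 0 ≤ W := by positivity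
  have k5 : W ≤ μ * W := le_mul_of_one_le_left W0 hμ1
  have hε1 : ε ≤ 1 := hεr.trans hr1
  have fin : 100 * μ * ε * (√E₀ + ε) / r ^ (d + 1) = (r ^ d)⁻¹ * (100 * (μ * W)) := by
    rw [hW, pow_succ]; field_simp
  refine ⟨?_, ?_, ?_⟩
  · set F := fun a => om 0 r (D.x a) * D.mu (D.x a) * ‖D.y a‖ ^ 2 with hF
    set F' := fun a => om 0 r (D'.x a) * D'.mu (D'.x a) * ‖D'.y a‖ ^ 2 with hF'
    have F0 : ∀ᵐ a ∂D.m, 0 ≤ F a := pw.mono fun a ha =>
      mul_nonneg (mul_nonneg (c4 _) ha.2.2.2.2.2.2.1) (sq_nonneg _)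
    have F1 : ∀ᵐ a ∂ν, 0 ≤ F a := ae_restrict_of_ae F0
    have iF : Integrable F D.m := h.int_om_hb hδ r
    have iF' : Integrable F' D'.m := h'.int_om_hb hδ r
    have iF2 : Integrable F D'.m :=
      (iF.smul_measure ENNReal.ofReal_ne_top).mono_measure hc.le
    have near : ∀ᵐ a ∂D'.m, |F' a - F a| ≤
        27 * (ε / r) * D.en a + (10 * ε * √(D.en a) + 5 * ε ^ 2) := by
      filter_upwards [hc.near, ac.ae_le pw, pw'] with a h1 h2 h4
      have h5 : |D'.mu (D'.x a) - D.mu (D.x a)| ≤ 3 * ε := by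
        rw [CD.mu, CD.mu, add_sub_add_left_eq_sub]
        exact mu_cmpm h1.2.2.2.2 h1.1 h2.2.2.2.2.2.2.2.2
      have h6 : |om 0 r (D'.x a) - om 0 r (D.x a)| ≤ 12 * (ε / r) :=
        (c9 (D'.x a) (D.x a)).2.1.trans (by
          rw [← mul_div_assoc, mul_div_right_comm]
          exact mul_le_mul_of_nonneg_left h1.1 (by positivity))
      have h3 := pt1_cmpm (o' := om 0 r (D'.x a) * D'.mu (D'.x a))
        (o := om 0 r (D.x a) * D.mu (D.x a)) (mul_nonneg (c4 _) h4.2.2.2.1)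
        ((mul_le_mul (c4' _) h4.2.2.2.2 h4.2.2.2.1 (by norm_num)).trans (by norm_num))
        (k := 27 * (ε / r)) (by
          rw [show om 0 r (D'.x a) * D'.mu (D'.x a) - om 0 r (D.x a) * D.mu (D.x a) =
            (om 0 r (D'.x a) - om 0 r (D.x a)) * D'.mu (D'.x a) +
              om 0 r (D.x a) * (D'.mu (D'.x a) - D.mu (D.x a)) by ring]
          refine (abs_add_le _ _).trans ?_
          rw [abs_mul, abs_mul, abs_of_nonneg h4.2.2.2.1, abs_of_nonneg (c4 _)]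
          have h7 := mul_le_mul h6 h4.2.2.2.2 h4.2.2.2.1 (by positivity)
          have h8 := mul_le_mul (c4' (D.x a)) h5 (abs_nonneg _) (by norm_num)
          linarith)
        (norm_nonneg (D.y a)) (norm_nonneg (D'.y a))
        ((abs_norm_sub_norm_le _ _).trans h1.2.1) h2.2.2.1
      rwa [Real.sq_sqrt h2.2.1] at h3
    have P3 : ∫ a, F a ∂ν ≤ 5 * F₀ := by
      rw [hEd, ← integral_const_mul]
      refine integral_mono_ae iF.restrict (ie.restrict.const_mul _) ?_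
      filter_upwards [pν] with a ha
      exact mul_le_mul ((mul_le_mul (c4' _) ha.2.2.2.2.2.2.2.1 ha.2.2.2.2.2.2.1
        (by norm_num)).trans (by norm_num)) (le_add_of_nonneg_left ha.1) (sq_nonneg _)
        (by norm_num)
    have P4 : ∫ a, F a ∂ν ≤ ∫ a, F a ∂D.m := setIntegral_le_integral iF F0
    obtain ⟨l1, l2⟩ := lin_cmpm (ν := ν) iF.restrict ie.restrict is.restrict
      (27 * (ε / r)) (10 * ε) (5 * ε ^ 2)
    obtain ⟨l3, l4⟩ := lin_cmpm (ν := ν) (integrable_zero _ _ _) ie.restrict is.restrict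
      (27 * (ε / r)) (10 * ε) (5 * ε ^ 2)
    have g0 : ∀ᵐ a ∂ν, 0 ≤ 27 * (ε / r) * D.en a + (10 * ε * √(D.en a) + 5 * ε ^ 2) :=
      e0.mono fun a (ha : 0 ≤ D.en a) => by positivity
    have G1 : 27 * (ε / r) * F₀ + (10 * ε * S + 5 * ε ^ 2 * V) ≤ 42 * (μ * W) := by linarith
    have G0 : 0 ≤ 27 * (ε / r) * F₀ + (10 * ε * S + 5 * ε ^ 2 * V) := by
      have : 0 ≤ S := integral_nonneg fun a => Real.sqrt_nonneg _
      positivity
    have u1 := up_cmpm hε hle iF' l1 ((g0.and F1).mono fun a ha => add_nonneg ha.2 ha.1)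
      (near.mono fun a ha => by have := (abs_le.1 ha).2; show F' a ≤ _; linarith)
    have u2 := up_cmpm hε hle (iF2.sub iF') l3 (g0.mono fun a ha => by simpa using ha)
      (near.mono fun a ha => by
        have := (abs_le.1 ha).1
        simp only [Pi.sub_apply, Pi.zero_apply]; linarith)
    have u3 := up_cmpm hε hle iF2 iF.restrict F1 (ae_of_all _ fun _ => le_rfl)
    have u4 := up_cmpm hε hc.ge iF.restrict iF2 (ac.ae_le F0) (ae_of_all _ fun _ => le_rfl)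
    rw [setIntegral_eq_integral_of_forall_compl_eq_zero (fun a ha => by
      have h1 : r ≤ ‖D.x a - 0‖ := by
        have h2 : ¬‖D.x a - 0‖ < R' - ε := ha
        linarith [not_lt.1 h2]
      simp only [hF, (c6 _ h1).2.1, zero_mul])] at u4
    rw [l2] at u1
    rw [l4] at u2
    simp only [Pi.sub_apply, Pi.zero_apply, integral_zero, zero_add] at u2
    rw [integral_sub iF2 iF'] at u2
    have P0 : 0 ≤ ∫ a, F a ∂ν := integral_nonneg_of_ae F1
    rw [fin, CD.hh, CD.hh, ← mul_sub, abs_mul, abs_of_nonneg (by positivity)]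
    refine mul_le_mul_of_nonneg_left (abs_le.2 ⟨?_, ?_⟩) (by positivity)
    · have v1 := mul_le_mul_of_nonneg_left u3 hε
      have v2 : ε * ((1 + ε) * ∫ a, F a ∂ν) ≤ ε * (2 * (5 * F₀)) :=
        mul_le_mul_of_nonneg_left (mul_le_mul (by linarith) P3 P0 (by norm_num)) hε
      have v3 := mul_le_mul_of_nonneg_right (show 1 + ε ≤ 2 by linarith) G0
      linarith
    · have v2 := mul_le_mul_of_nonneg_left P3 hε
      have v3 := mul_le_mul_of_nonneg_right (show 1 + ε ≤ 2 by linarith) G0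
      linarith
  · set K := fun a => chi 0 r (D.x a) * D.w (D.x a) * D.t a with hK
    have iK : Integrable K D.m := h.int_chi_hb hδ r it
    have K0 : ∀ᵐ a ∂D.m, 0 ≤ K a :=
      pw.mono fun a ha => mul_nonneg (mul_nonneg (c3 _) ha.2.2.2.2.1) ha.1
    have P3 : ∫ a, K a ∂ν ≤ 3 / 2 * F₀ := by
      rw [hEd, ← integral_const_mul]
      refine integral_mono_ae iK.restrict (ie.restrict.const_mul _) ?_
      filter_upwards [pν] with a ha
      have x1 : chi 0 r (D.x a) * D.w (D.x a) ≤ 1 * (3 / 2) :=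
        mul_le_mul (c3' _) ha.2.2.2.2.2.1 ha.2.2.2.2.1 zero_le_one
      exact mul_le_mul (by linarith) (le_add_of_nonneg_right (sq_nonneg _)) ha.1 (by norm_num)
    have P4 : ∫ a, K a ∂ν ≤ ∫ a, K a ∂D.m := setIntegral_le_integral iK K0
    obtain ⟨l1, l2⟩ := lin_cmpm (ν := ν) iK.restrict ie.restrict is.restrict
      (3 / 2 * (6 * (ε / r)) + ε) (3 * ε) (3 / 2 * ε ^ 2)
    have u1 := up_cmpm hε hle (h'.int_chi_hb hδ r it') l1 (by
      filter_upwards [ae_restrict_of_ae (s := Z) K0, e0] with a h1 (h2 : 0 ≤ D.en a)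
      show (0 : ℝ) ≤ _
      positivity) (by
      filter_upwards [hc.near, ac.ae_le pw, pw'] with a h1 h2 h3
      have h4 := pt2_cmpm (c3 (D.x a)) (c3' _) (c3 (D'.x a)) (c3' _) (k := 6 * (ε / r))
        ((c9 (D'.x a) (D.x a)).1.trans (by
          rw [← mul_div_assoc, mul_div_right_comm]
          exact mul_le_mul_of_nonneg_left h1.1 (by positivity)))
        h3.2.1 h3.2.2.1 h1.2.2.2.1 (Real.sqrt_nonneg _) (Real.sqrt_nonneg _) h1.2.2.1 h2.2.2.2.1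
      rwa [Real.sq_sqrt h2.2.1, Real.sq_sqrt h2.1, Real.sq_sqrt h3.1] at h4)
    rw [l2] at u1
    have G0 : 0 ≤ (3 / 2 * (6 * (ε / r)) + ε) * F₀ + (3 * ε * S + 3 / 2 * ε ^ 2 * V) := by
      have : 0 ≤ S := integral_nonneg fun a => Real.sqrt_nonneg _
      positivity
    have v2 := mul_le_mul_of_nonneg_left P3 hε
    have v3 := mul_le_mul_of_nonneg_right (show 1 + ε ≤ 2 by linarith) G0
    have v4 : r ^ 2 / r ^ d * (100 * (μ * W)) ≤ (r ^ d)⁻¹ * (100 * (μ * W)) := by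
      rw [div_eq_mul_inv]
      exact mul_le_mul_of_nonneg_right (mul_le_of_le_one_left (by positivity)
        (pow_le_one₀ hr.le hr1)) (by positivity)
    rw [fin, CD.dr, CD.dr]
    refine le_trans ?_ (add_le_add le_rfl v4)
    rw [← mul_add]
    refine mul_le_mul_of_nonneg_left ?_ (by positivity)
    linarith
  · obtain ⟨l1, l2⟩ := lin_cmpm (ν := ν) ie.restrict ie.restrict is.restrict 1 0 (4 * ε ^ 2)
    have u1 := up_cmpm hε hle ie' l1 (e0.mono fun a (ha : 0 ≤ D.en a) => by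
      show (0 : ℝ) ≤ _
      positivity) (by
      filter_upwards [hc.near, ac.ae_le pw, pw'] with a h1 h2 h3
      exact en_cmpm (norm_nonneg _) h2.1 h3.1
        (abs_le.1 ((abs_norm_sub_norm_le _ _).trans h1.2.1)).2 (abs_le.1 h1.2.2.1).2)
    rw [l2] at u1
    have G0 : 0 ≤ F₀ + (1 * F₀ + (0 * S + 4 * ε ^ 2 * V)) := by positivity
    have v3 := mul_le_mul_of_nonneg_right (show 1 + ε ≤ 2 by linarith) G0
    have v4 := mul_le_mul_of_nonneg_left V1 (sq_nonneg ε)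
    have v5 : 0 ≤ μ * ε ^ 2 := by positivity
    linarith

end Pool.Agent.Lib.MP_8daebb_an.GM
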