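import Pool.Agent.Lib.MP_8daebb_an.GM.Av
import Pool.Agent.Lib.MP_8daebb_an.GM.Cacc

/-! Bounds for local averages. -/

set_option linter.unusedSectionVars false
set_option linter.unusedVariables false

open MeasureTheory Metric Filter Topology Set
open scoped RealInnerProductSpace ENNReal ContDiff

namespace Pool.Agent.Lib.MP_8daebb_an.GM

open LG (vb chi om trS)

variable {d : ℕ} {α : Type*} [MeasurableSpace α] {H : Type*} [NormedAddCommGroup H]
  [InnerProductSpace ℝ H] [FiniteDimensional ℝ H] [MeasurableSpace H] [BorelSpace H]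

theorem sqrt_cs_av2 {μ : Measure α} [IsFiniteMeasure μ] {f : α → ℝ} (hf : Integrable f μ)
    (hs : Integrable (fun a => √(f a)) μ) (h0 : ∀ᵐ a ∂μ, 0 ≤ f a) :
    ∫ a, √(f a) ∂μ ≤ √(μ.real univ * ∫ a, f a ∂μ) := by
  have key : ∀ l : ℝ, 0 ≤ μ.real univ * (l * l) + (-2 * ∫ a, √(f a) ∂μ) * l + ∫ a, f a ∂μ :=
    fun l => by
    have j1 : Integrable (fun _ : α => l * l) μ := integrable_const _
    have j2 : Integrable (fun a => (-2 * l) * √(f a)) μ := hs.const_mul _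
    have j3 : Integrable (fun a => l * l + (-2 * l) * √(f a)) μ := j1.add j2
    have e : ∫ a, (l * l + (-2 * l) * √(f a)) + f a ∂μ =
        μ.real univ * (l * l) + (-2 * ∫ a, √(f a) ∂μ) * l + ∫ a, f a ∂μ := by
      rw [integral_add j3 hf, integral_add j1 j2, integral_const, integral_const_mul, smul_eq_mul]
      ring
    rw [← e]
    refine integral_nonneg_of_ae (h0.mono fun a ha => ?_)
    have h1 := Real.sq_sqrt ha
    change 0 ≤ (l * l + (-2 * l) * √(f a)) + f a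
    nlinarith [sq_nonneg (√(f a) - l)]
  have h2 := discrim_le_zero key
  rw [discrim] at h2
  refine Real.le_sqrt_of_sq_le ?_
  nlinarith

theorem av_nonneg_av2 (D : CD d α H) {ρ : ℝ} (hρ : 0 < ρ) {f : α → ℝ} (h0 : ∀ᵐ a ∂D.m, 0 ≤ f a)
    (u : E d) : 0 ≤ D.av ρ f u :=
  integral_nonneg_of_ae (h0.mono fun a ha => mul_nonneg (kr_nonneg hρ _) ha)

theorem CV.av_le_av2 {D : CD d α H} {c : E d} {R δ M : ℝ} (h : CV D c R δ M) {ρ : ℝ} (hρ : 0 < ρ)
    {f : α → ℝ} (hf : Integrable f D.m) (h0 : ∀ᵐ a ∂D.m, 0 ≤ f a) (u : E d) :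
    D.av ρ f u ≤ Ck d / ρ ^ d * ∫ a in D.cyl u ρ, f a ∂D.m :=
  (h.norm_av_le hρ (f := fun _ => (0 : ℝ)) hf u (h0.mono fun a ha _ => by simpa using ha)).2

theorem av_le (d : ℕ) (M : ℝ) : ∃ C : ℝ, 1 ≤ C ∧ ∀ (D : CD d α H) (c : E d) (R δ lam ρ : ℝ)
    (u : E d), CV D c R δ M → δ ≤ 1 / 10 → Ht D lam → 0 < lam → 2 * lam ≤ ρ →
    D.Ms u ρ ≤ C * ρ ^ d ∧ 0 ≤ D.av ρ (fun _ => (1 : ℝ)) u ∧ D.av ρ (fun _ => (1 : ℝ)) u ≤ C ∧
      0 ≤ D.av ρ D.en u ∧ D.av ρ D.en u ≤ C * (D.En u ρ / ρ ^ d) ∧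
      0 ≤ D.av ρ (fun a => √(D.en a)) u ∧
      D.av ρ (fun a => √(D.en a)) u ≤ C * √(D.En u ρ / ρ ^ d) ∧
      ∫ a in D.cyl u ρ, √(D.en a) ∂D.m ≤ C * ρ ^ d * √(D.En u ρ / ρ ^ d) ∧
      (‖u - c‖ + 2 * ρ ≤ R → D.En u ρ / ρ ^ d ≤ C * (lam ^ 2 / ρ ^ 2)) ∧
      (‖u - c‖ + 16 * ρ ≤ R → D.En u (8 * ρ) / ρ ^ d ≤ C * (lam ^ 2 / ρ ^ 2)) := by
  obtain ⟨Ce, hCe, hen⟩ := en_le (α := α) (H := H) d M
  have hk := one_le_Ck d
  have hM0 := abs_nonneg M
  have h9 : 0 ≤ Ce * 9 ^ d := by positivity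
  have hkM : 0 ≤ Ck d * |M| := by positivity
  refine ⟨Ck d * (1 + |M|) + Ce * 9 ^ d, by nlinarith, ?_⟩
  intro D c R δ lam ρ u h hδ hs hl hρ2
  have := h.fin
  have hρ : 0 < ρ := by linarith
  have hlρ : lam < ρ := by linarith
  have hM := h.M_nonneg
  rw [abs_of_nonneg hM] at hkM ⊢
  set C := Ck d * (1 + M) + Ce * 9 ^ d with hC
  have hp : 0 < ρ ^ d := pow_pos hρ d
  have c1 : M ≤ C := by nlinarith
  have c2 : Ck d * M ≤ C := by nlinarith
  have c3 : Ck d ≤ C := by nlinarith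
  have c4 : √M ≤ 1 + M := by
    rw [Real.sqrt_le_left (by linarith)]
    nlinarith
  have c5 : Ck d * √M ≤ C := by
    have := mul_le_mul_of_nonneg_left c4 (by linarith : 0 ≤ Ck d)
    linarith
  have c6 : √M ≤ C := by nlinarith
  have c7 : Ce * 9 ^ d ≤ C := by nlinarith
  have hms := hs.cyl_le h u hρ hlρ
  obtain ⟨-, -, -, i4, i5, -, -⟩ := h.integrable_t
  have hen0 : ∀ᵐ a ∂D.m, 0 ≤ D.en a := h.ae_pw.mono fun a ha => ha.facts_av.1
  have hE0 : 0 ≤ D.En u ρ := (h.nonneg u ρ).2.2.2.1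
  have hsq : ∫ a in D.cyl u ρ, √(D.en a) ∂D.m ≤ √M * ρ ^ d * √(D.En u ρ / ρ ^ d) := by
    refine (sqrt_cs_av2 i4.integrableOn i5.integrableOn (ae_restrict_of_ae hen0)).trans ?_
    rw [measureReal_restrict_apply_univ]
    have e : √M * ρ ^ d * √(D.En u ρ / ρ ^ d) = √(M * ρ ^ d * D.En u ρ) := by
      rw [← Real.sqrt_sq hp.le, ← Real.sqrt_mul hM, ← Real.sqrt_mul (by positivity),
        Real.sqrt_sq hp.le]
      congr 1
      field_simp
    rw [e]
    exact Real.sqrt_le_sqrt (mul_le_mul_of_nonneg_right hms hE0)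
  have hs0 := Real.sqrt_nonneg (D.En u ρ / ρ ^ d)
  have hq0 : 0 ≤ lam ^ 2 / ρ ^ 2 := by positivity
  have hfin : ∀ k : ℝ, 0 ≤ k → k + 1 ≤ 9 → ‖u - c‖ + k * ρ + ρ ≤ R →
      D.En u (k * ρ) / ρ ^ d ≤ C * (lam ^ 2 / ρ ^ 2) := fun k hk0 hk9 hR => by
    have h1 := hen D c R δ lam h hδ hs hl u (k * ρ) ρ (by positivity) hlρ hR
    have h2 : (k * ρ + ρ) ^ d ≤ 9 ^ d * ρ ^ d := by
      rw [← mul_pow]
      exact pow_le_pow_left₀ (by positivity) (by nlinarith) d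
    rw [div_le_iff₀ hp]
    refine h1.trans ?_
    calc Ce * lam ^ 2 * ((k * ρ + ρ) ^ d / ρ ^ 2) ≤ Ce * lam ^ 2 * (9 ^ d * ρ ^ d / ρ ^ 2) := by
          gcongr
      _ = Ce * 9 ^ d * (lam ^ 2 / ρ ^ 2) * ρ ^ d := by ring
      _ ≤ _ := by gcongr
  refine ⟨hms.trans (mul_le_mul_of_nonneg_right c1 hp.le),
    av_nonneg_av2 D hρ (Eventually.of_forall fun _ => zero_le_one) u, ?_,
    av_nonneg_av2 D hρ hen0 u, ?_,
    av_nonneg_av2 D hρ (Eventually.of_forall fun _ => Real.sqrt_nonneg _) u, ?_,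
    hsq.trans (by gcongr), fun hR => ?_, fun hR => hfin 8 (by norm_num) (by norm_num) (by linarith)⟩
  · refine (h.av_le_av2 hρ (integrable_const _) (Eventually.of_forall fun _ => zero_le_one)
      u).trans (le_trans ?_ c2)
    rw [setIntegral_one_eq_measureReal, div_mul_eq_mul_div, div_le_iff₀ hp, mul_assoc]
    exact mul_le_mul_of_nonneg_left hms (by linarith)
  · refine (h.av_le_av2 hρ i4 hen0 u).trans ?_
    rw [div_mul_eq_mul_div, mul_div_assoc]
    exact mul_le_mul_of_nonneg_right c3 (div_nonneg hE0 hp.le)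
  · refine (h.av_le_av2 hρ i5 (Eventually.of_forall fun _ => Real.sqrt_nonneg _) u).trans ?_
    refine (mul_le_mul_of_nonneg_left hsq (by positivity)).trans ?_
    have e : Ck d / ρ ^ d * (√M * ρ ^ d * √(D.En u ρ / ρ ^ d)) =
        Ck d * √M * √(D.En u ρ / ρ ^ d) := by field_simp
    rw [e]
    exact mul_le_mul_of_nonneg_right c5 hs0
  · have := hfin 1 (by norm_num) (by norm_num) (by linarith)
    rwa [one_mul] at this

theorem CV.av_j_av2 {D : CD d α H} {c : E d} {R δ M : ℝ} (h : CV D c R δ M)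
    {N : E d → ℕ} (hN : IsMult D.m D.x D.j N) {ρ : ℝ} (hρ : 0 < ρ) (u : E d) (n : ℕ) :
    |D.av ρ D.j u - n| ≤ Ck d / ρ ^ d * ∫ v in ball u ρ, |(N v : ℝ) - n| := by
  have hk : Measurable fun v => kr ρ (u - v) :=
    (kr_meas_av ρ).comp (measurable_const.sub measurable_id)
  obtain ⟨i1, i2⟩ := hN.integral h hk (B := Ck d / ρ ^ d) fun v => by
    rw [abs_of_nonneg (kr_nonneg hρ _)]; exact (kr_le hρ _).1
  have e : D.av ρ D.j u - n = ∫ v, kr ρ (u - v) * ((N v : ℝ) - n) := by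
    simp only [mul_sub]
    rw [integral_sub i1 ((kr_shift_av' hρ u).1.mul_const _), integral_mul_const,
      (kr_shift_av' hρ u).2, one_mul, ← i2]
    rfl
  have iB : IntegrableOn (fun v => |(N v : ℝ) - n|) (ball u ρ) :=
    ((hN.integrable h).integrableOn.sub (integrableOn_const measure_ball_lt_top.ne)).abs
  rw [e, ← Real.norm_eq_abs, ← integral_indicator measurableSet_ball, ← integral_const_mul]
  refine norm_integral_le_of_norm_le
    (((integrable_indicator_iff measurableSet_ball).2 iB).const_mul _)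
    (Eventually.of_forall fun v => ?_)
  by_cases hc : v ∈ ball u ρ
  · rw [indicator_of_mem hc, norm_mul, Real.norm_of_nonneg (kr_nonneg hρ _), Real.norm_eq_abs]
    exact mul_le_mul_of_nonneg_right (kr_le hρ _).1 (abs_nonneg _)
  · rw [indicator_of_notMem hc, kr_off_av hρ (by rwa [mem_ball_iff_norm] at hc)]
    simp

theorem ms_av_one (d : ℕ) {CI : ℝ} (hCI : 0 ≤ CI) : ∃ C : ℝ, 0 < C ∧
    ∀ (D : CD d α H) (R δ M lam ρ : ℝ) (Q : ℕ) (N : E d → ℕ) (u : E d),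
    MS D R δ M lam ρ CI Q N → δ ≤ 1 / 2 → ‖u‖ + 16 * ρ ≤ R →
    |D.av ρ (fun _ => (1 : ℝ)) u - Q| ≤ C * (D.En u (8 * ρ) / ρ ^ d) ∧
    |2 * (D.av ρ (fun _ => (1 : ℝ)) u - Q) - D.av ρ D.t u| ≤
      C * ((∫ a in D.cyl u (8 * ρ), (D.t a ^ 2 + ‖D.y a‖ ^ 2) ∂D.m) / ρ ^ d) := by
  have hk := one_le_Ck d
  have hd : (0 : ℝ) ≤ d := Nat.cast_nonneg d
  refine ⟨Ck d * (CI * d + d + 1 + 2 * CI), by positivity, ?_⟩
  intro D R δ M lam ρ Q N u hS hδ hR
  have h := hS.cv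
  have := h.fin
  have hρ := hS.ρ_pos
  have hp : 0 < ρ ^ d := pow_pos hρ d
  have hkp : 0 ≤ Ck d / ρ ^ d := by positivity
  have hn := hS.mq.near u ρ le_rfl (by rwa [sub_zero])
  obtain ⟨-, hT, hJ, hE0, hE, -, -, hT2⟩ := h.nonneg u (8 * ρ)
  have hsub : ‖u - u‖ + ρ ≤ 8 * ρ := by rw [sub_self, norm_zero]; linarith
  constructor
  · refine (h.av_one hδ hS.mq.mult hρ u Q).trans ?_
    have h1 : D.En u ρ ≤ D.En u (8 * ρ) := (h.cyl_mono hsub).2.2.2
    have h2 : CI * ∫ a in D.cyl u (8 * ρ), D.t a ^ 2 ∂D.m ≤ CI * (d * D.En u (8 * ρ)) :=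
      mul_le_mul_of_nonneg_left (hT2.trans (mul_le_mul_of_nonneg_left (by linarith) hd)) hCI
    have h3 : ((d : ℝ) + 1) * D.En u ρ ≤ (d + 1) * D.En u (8 * ρ) :=
      mul_le_mul_of_nonneg_left h1 (by linarith)
    have h4 : 0 ≤ CI * D.En u (8 * ρ) := mul_nonneg hCI hE0
    calc Ck d / ρ ^ d * ((∫ v in ball u ρ, |(N v : ℝ) - Q|) + (d + 1) * D.En u ρ)
        ≤ Ck d / ρ ^ d * ((CI * d + d + 1 + 2 * CI) * D.En u (8 * ρ)) :=
          mul_le_mul_of_nonneg_left (by linarith) hkp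
      _ = _ := by ring
  · obtain ⟨i1, i2, i3, -⟩ := h.integrable_t
    have ij := h.integrable_j_base2
    have i4 : Integrable (fun a => D.t a ^ 2 + ‖D.y a‖ ^ 2) D.m := i2.add i3
    have e : 2 * (D.av ρ (fun _ => (1 : ℝ)) u - Q) - D.av ρ D.t u =
        D.av ρ (fun a => 2 - D.t a - 2 * D.j a) u + 2 * (D.av ρ D.j u - Q) := by
      have a1 := h.int_av hρ (integrable_const (1 : ℝ)) u
      have a2 := h.int_av hρ i1 u
      have a3 := h.int_av hρ ij u
      have a4 : D.av ρ (fun a => 2 - D.t a - 2 * D.j a) u =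
          2 * D.av ρ (fun _ => (1 : ℝ)) u - D.av ρ D.t u - 2 * D.av ρ D.j u := by
        have a5 : Integrable (fun a => 2 * kr ρ (u - D.x a) • (1 : ℝ) - kr ρ (u - D.x a) • D.t a)
            D.m := (a1.const_mul 2).sub a2
        unfold CD.av
        rw [← integral_const_mul, ← integral_const_mul, ← integral_sub (a1.const_mul 2) a2,
          ← integral_sub a5 (a3.const_mul 2)]
        refine integral_congr_ae (Eventually.of_forall fun a => ?_)
        simp only [smul_eq_mul]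
        ring
      rw [a4]
      ring
    obtain ⟨b1, b2⟩ := h.norm_av_le hρ (f := fun a => 2 - D.t a - 2 * D.j a) i4 u
      (h.ae_pw.mono fun a ha _ => by
        have := mul_le_mul_of_nonneg_right (show δ ≤ 1 by linarith) (sq_nonneg ‖D.y a‖)
        rw [Real.norm_eq_abs]
        linarith [ha.j_t])
    have b3 := h.av_j_av2 hS.mq.mult hρ u Q
    set X := ∫ a in D.cyl u (8 * ρ), (D.t a ^ 2 + ‖D.y a‖ ^ 2) ∂D.m with hX
    have hX0 : 0 ≤ X := integral_nonneg fun a => by positivity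
    have b4 : ∫ a in D.cyl u ρ, (D.t a ^ 2 + ‖D.y a‖ ^ 2) ∂D.m ≤ X :=
      setIntegral_mono_set i4.integrableOn (Eventually.of_forall fun a => by positivity)
        (cyl_sub D hsub).eventuallyLE
    have b5 : ∫ a in D.cyl u (8 * ρ), D.t a ^ 2 ∂D.m ≤ X :=
      integral_mono i2.integrableOn i4.integrableOn fun a => le_add_of_nonneg_right (sq_nonneg _)
    have b6 := mul_le_mul_of_nonneg_left b4 hkp
    have b7 := mul_le_mul_of_nonneg_left (hn.trans (mul_le_mul_of_nonneg_left b5 hCI)) hkp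
    have b8 : 0 ≤ Ck d / ρ ^ d * ((CI * d + d) * X) := by positivity
    rw [Real.norm_eq_abs] at b1
    rw [e]
    refine (abs_add_le _ _).trans ?_
    rw [abs_mul, abs_two]
    have e2 : Ck d * (CI * d + d + 1 + 2 * CI) * (X / ρ ^ d) = Ck d / ρ ^ d * X +
        2 * (Ck d / ρ ^ d * (CI * X)) + Ck d / ρ ^ d * ((CI * d + d) * X) := by ring
    rw [e2]
    linarith

theorem wk_int_av2 {ρ : ℝ} (hρ : 0 < ρ) {κ : E d → ℝ} (hκ : Measurable κ) {B : ℝ}
    (hB : ∀ u, |κ u| ≤ B) (x : E d) : Integrable fun u => κ u * kr ρ (u - x) :=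
  (kr_shift_av hρ x).1.bdd_mul (c := B) hκ.aestronglyMeasurable (Eventually.of_forall hB)

theorem wk_near_av2 {ρ : ℝ} (hρ : 0 < ρ) {κ : E d → ℝ} (hκ : Measurable κ) {B : ℝ}
    (hB : ∀ u, |κ u| ≤ B) (x : E d) {s K : ℝ} (hK : ∀ u, ‖u - x‖ < ρ → |κ u - s| ≤ K) :
    |(∫ u, κ u * kr ρ (u - x)) - s| ≤ K := by
  obtain ⟨k1, k2⟩ := kr_shift_av hρ x
  have e : (∫ u, κ u * kr ρ (u - x)) - s = ∫ u, (κ u - s) * kr ρ (u - x) := by
    simp only [sub_mul]
    rw [integral_sub (wk_int_av2 hρ hκ hB x) (k1.const_mul s), integral_const_mul, k2, mul_one]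
  have e2 : K = ∫ u, K * kr ρ (u - x) := by rw [integral_const_mul, k2, mul_one]
  rw [e, e2, ← Real.norm_eq_abs]
  refine norm_integral_le_of_norm_le (k1.const_mul K) (Eventually.of_forall fun u => ?_)
  by_cases hu : ‖u - x‖ < ρ
  · rw [norm_mul, Real.norm_of_nonneg (kr_nonneg hρ _), Real.norm_eq_abs]
    exact mul_le_mul_of_nonneg_right (hK u hu) (kr_nonneg hρ _)
  · simp [(kr_zero hρ (not_lt.1 hu)).1]

theorem CV.wk_av2 {D : CD d α H} {c : E d} {R δ M : ℝ} (h : CV D c R δ M) {ρ : ℝ} (hρ : 0 < ρ)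
    {f : α → ℝ} (hf : Integrable f D.m) {κ : E d → ℝ} (hκ : Measurable κ) {B : ℝ}
    (hB : ∀ u, |κ u| ≤ B) :
    Integrable (fun a => (∫ u, κ u * kr ρ (u - D.x a)) * f a) D.m := by
  have hm : StronglyMeasurable fun x : E d => ∫ u, κ u * kr ρ (u - x) :=
    StronglyMeasurable.integral_prod_left (f := fun u x : E d => κ u * kr ρ (u - x))
      ((hκ.comp measurable_fst).mul
        ((kr_meas_av ρ).comp (measurable_fst.sub measurable_snd))).stronglyMeasurable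
  refine hf.bdd_mul (c := B) (hm.measurable.comp h.m_x).aestronglyMeasurable
    (Eventually.of_forall fun a => ?_)
  simpa using wk_near_av2 hρ hκ hB (D.x a) (s := 0) (K := B) fun u _ => by simpa using hB u

theorem CV.ball_av2 {D : CD d α H} {c : E d} {R δ M : ℝ} (h : CV D c R δ M) {ρ : ℝ} (hρ : 0 < ρ)
    {f : α → ℝ} (hf : Integrable f D.m) (u : E d) (σ : ℝ) :
    ∃ W : E d → ℝ, Integrable (fun a => W (D.x a) * f a) D.m ∧
      ∫ x in ball u σ, D.av ρ f x = ∫ a, W (D.x a) * f a ∂D.m ∧ (∀ x, 0 ≤ W x ∧ W x ≤ 1) ∧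
      (∀ x, σ + ρ ≤ ‖x - u‖ → W x = 0) ∧ ∀ x, ‖x - u‖ + ρ ≤ σ → W x = 1 := by
  have hκ : Measurable ((ball u σ).indicator fun _ : E d => (1 : ℝ)) :=
    measurable_const.indicator measurableSet_ball
  have hB : ∀ v, |(ball u σ).indicator (fun _ : E d => (1 : ℝ)) v| ≤ 1 := fun v => by
    by_cases hv : v ∈ ball u σ <;> simp [hv]
  refine ⟨fun x => ∫ v, (ball u σ).indicator (fun _ => (1 : ℝ)) v * kr ρ (v - x),
    h.wk_av2 hρ hf hκ hB, ?_, fun x => ?_, fun x hx => ?_, fun x hx => ?_⟩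
  · rw [← (h.integral_av hρ hf hκ hB).2, ← integral_indicator measurableSet_ball]
    refine integral_congr_ae (Eventually.of_forall fun v => ?_)
    by_cases hv : v ∈ ball u σ <;> simp [hv]
  · have := abs_le.1 (wk_near_av2 hρ hκ hB x (s := 1 / 2) (K := 1 / 2) fun v _ => by
      by_cases hv : v ∈ ball u σ
      · rw [indicator_of_mem hv]; norm_num [abs_of_pos]
      · rw [indicator_of_notMem hv]; norm_num [abs_of_pos])
    constructor <;> linarith [this.1, this.2]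
  · have := wk_near_av2 hρ hκ hB x (s := 0) (K := 0) fun v hv => by
      have h1 : ‖x - u‖ ≤ ‖x - v‖ + ‖v - u‖ := norm_sub_le_norm_sub_add_norm_sub _ _ _
      rw [norm_sub_rev] at hv
      rw [indicator_of_notMem (by rw [mem_ball_iff_norm]; linarith)]
      simp
    simpa using this
  · have := wk_near_av2 hρ hκ hB x (s := 1) (K := 0) fun v hv => by
      have h1 : ‖v - u‖ ≤ ‖v - x‖ + ‖x - u‖ := norm_sub_le_norm_sub_add_norm_sub _ _ _
      rw [indicator_of_mem (by rw [mem_ball_iff_norm]; linarith)]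
      simp
    exact sub_eq_zero.1 (abs_nonpos_iff.1 this)

/-- Comparison of cylinder integrals with averages. -/
theorem CV.cyl_av {D : CD d α H} {c : E d} {R δ M : ℝ} (h : CV D c R δ M) {ρ : ℝ} (hρ : 0 < ρ)
    {f : α → ℝ} (hf : Integrable f D.m) (h0 : ∀ᵐ a ∂D.m, 0 ≤ f a) (u : E d) :
    (∀ σ, ∫ x in ball u σ, D.av ρ f x ≤ ∫ a in D.cyl u (σ + ρ), f a ∂D.m) ∧
      (∀ σ, ∫ a in D.cyl u σ, f a ∂D.m ≤ ∫ x in ball u (σ + ρ), D.av ρ f x) ∧
      ∫ a in D.cyl u (ρ / 2), f a ∂D.m ≤ vb d * ρ ^ d * D.av ρ f u ∧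
      D.av ρ f u ≤ Ck d * vb d * 16 ^ d * D.av (16 * ρ) f u := by
  have hv := LG.vb_pos d
  have hk := one_le_Ck d
  have hp : 0 < ρ ^ d := pow_pos hρ d
  refine ⟨fun σ => ?_, fun σ => ?_, ?_, ?_⟩
  · obtain ⟨W, w1, w2, w3, w4, -⟩ := h.ball_av2 hρ hf u σ
    rw [w2, ← integral_indicator (h.meas_cyl _ _)]
    refine integral_mono_ae w1 (hf.indicator (h.meas_cyl _ _)) (h0.mono fun a ha => ?_)
    by_cases hc : a ∈ D.cyl u (σ + ρ)
    · simp only [indicator_of_mem hc]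
      exact mul_le_of_le_one_left ha (w3 _).2
    · simp only [indicator_of_notMem hc, w4 _ (not_lt.1 hc), zero_mul, le_refl]
  · obtain ⟨W, w1, w2, w3, -, w5⟩ := h.ball_av2 hρ hf u (σ + ρ)
    rw [w2, ← integral_indicator (h.meas_cyl _ _)]
    refine integral_mono_ae (hf.indicator (h.meas_cyl _ _)) w1 (h0.mono fun a ha => ?_)
    by_cases hc : a ∈ D.cyl u σ
    · have h1 : ‖D.x a - u‖ < σ := hc
      simp only [indicator_of_mem hc, w5 _ (by linarith), one_mul, le_refl]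
    · simp only [indicator_of_notMem hc]
      exact mul_nonneg (w3 _).1 ha
  · rw [← integral_indicator (h.meas_cyl _ _), CD.av, ← integral_const_mul]
    refine integral_mono_ae (hf.indicator (h.meas_cyl _ _)) ((h.int_av hρ hf u).const_mul _)
      (h0.mono fun a ha => ?_)
    by_cases hc : a ∈ D.cyl u (ρ / 2)
    · have h1 : ‖D.x a - u‖ < ρ / 2 := hc
      have h2 := kr_low hρ (u := u - D.x a) (by rw [norm_sub_rev]; exact h1.le)
      rw [div_le_iff₀ (by positivity)] at h2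
      simp only [indicator_of_mem hc, smul_eq_mul]
      nlinarith [mul_le_mul_of_nonneg_right h2 ha]
    · simp only [indicator_of_notMem hc, smul_eq_mul]
      exact mul_nonneg (by positivity) (mul_nonneg (kr_nonneg hρ _) ha)
  · have hρ' : 0 < 16 * ρ := by linarith
    unfold CD.av
    rw [← integral_const_mul]
    refine integral_mono_ae (h.int_av hρ hf u) ((h.int_av hρ' hf u).const_mul _)
      (h0.mono fun a ha => ?_)
    simp only [smul_eq_mul, ← mul_assoc]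
    refine mul_le_mul_of_nonneg_right ?_ ha
    by_cases hc : ‖u - D.x a‖ < ρ
    · have h2 := kr_low hρ' (u := u - D.x a) (by linarith)
      refine (kr_le hρ _).1.trans (le_trans (le_of_eq ?_)
        (mul_le_mul_of_nonneg_left h2 (by positivity)))
      rw [mul_pow]
      field_simp
    · rw [(kr_zero hρ (not_lt.1 hc)).1]
      exact mul_nonneg (by positivity) (kr_nonneg hρ' _)

/-- Moving a Lipschitz weight through the average. -/
theorem CV.weight_av {D : CD d α H} {c : E d} {R δ M : ℝ} (h : CV D c R δ M) {ρ : ℝ} (hρ : 0 < ρ)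
    {f : α → ℝ} (hf : Integrable f D.m) {ζ : E d → ℝ} {Λ B r : ℝ} (hB : ∀ u, |ζ u| ≤ B)
    (hΛ : 0 ≤ Λ) (hζ : ∀ u v, |ζ u - ζ v| ≤ Λ * ‖u - v‖) (hr : ∀ u, r ≤ ‖u‖ → ζ u = 0) :
    |(∫ u, ζ u * D.av ρ f u) - ∫ a, ζ (D.x a) * f a ∂D.m| ≤
      Λ * ρ * ∫ a in D.cyl 0 (r + ρ), |f a| ∂D.m := by
  have hc : Continuous ζ :=
    (LipschitzWith.of_dist_le_mul (K := ⟨Λ, hΛ⟩) fun u v => by
      rw [Real.dist_eq, dist_eq_norm]; exact hζ u v).continuous
  have hm := hc.measurable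
  have i1 := h.wk_av2 hρ hf hm hB
  have i2 : Integrable (fun a => ζ (D.x a) * f a) D.m :=
    hf.bdd_mul (c := B) (hm.comp h.m_x).aestronglyMeasurable (Eventually.of_forall fun a => hB _)
  rw [(h.integral_av hρ hf hm hB).2, ← integral_sub i1 i2, ← Real.norm_eq_abs,
    ← integral_indicator (h.meas_cyl _ _), ← integral_const_mul]
  refine norm_integral_le_of_norm_le ((hf.abs.indicator (h.meas_cyl _ _)).const_mul _)
    (Eventually.of_forall fun a => ?_)
  rw [← sub_mul, norm_mul, Real.norm_eq_abs, Real.norm_eq_abs]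
  by_cases ha : a ∈ D.cyl 0 (r + ρ)
  · rw [indicator_of_mem ha]
    refine mul_le_mul_of_nonneg_right (wk_near_av2 hρ hm hB _ fun u hu => ?_) (abs_nonneg _)
    exact (hζ _ _).trans (mul_le_mul_of_nonneg_left hu.le hΛ)
  · have h1 : r + ρ ≤ ‖D.x a‖ := by simpa [CD.cyl] using ha
    have h2 := wk_near_av2 hρ hm hB (D.x a) (s := ζ (D.x a)) (K := 0) fun u hu => by
      have h3 := norm_sub_norm_le (D.x a) u
      rw [norm_sub_rev] at hu
      rw [hr u (by linarith), hr (D.x a) (by linarith)]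
      simp
    rw [indicator_of_notMem ha, abs_nonpos_iff.1 h2]
    simp

end Pool.Agent.Lib.MP_8daebb_an.GM
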