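import Pool.Agent.Lib.MP_8daebb_an.GM.Df3
import Pool.Agent.Lib.MP_8daebb_an.GM.HB
import Pool.Agent.Lib.MP_8daebb_an.GM.Av2

/-! Auxiliary estimates for the first state. -/

set_option linter.unusedSectionVars false
set_option linter.unusedVariables false

open MeasureTheory Metric Filter Topology Set
open scoped RealInnerProductSpace ENNReal ContDiff

namespace Pool.Agent.Lib.MP_8daebb_an.GM

open LG (vb chi om trS)
open SV (ux)

variable {d : ℕ} {α : Type*} [MeasurableSpace α] {H : Type*} [NormedAddCommGroup H]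
  [InnerProductSpace ℝ H] [FiniteDimensional ℝ H] [MeasurableSpace H] [BorelSpace H]

theorem sm_startb {L c a a' : ℝ} {N : ℕ} (hL : 1 ≤ L) (hN : L ^ N * ux L (1 / 2) ≤ 1) (k : ℕ)
    (hc : c ≤ L) (hk : k + 1 ≤ N) (h : a + 1 / 2 ≤ a') : c * L ^ k * ux L a' ≤ ux L a := by
  have hL0 : 0 ≤ L := by linarith
  have h1 : ux L a' ≤ ux L a * ux L (1 / 2) := by
    rw [← ux_add]
    exact ux_anti hL0 h
  have h2 : c * L ^ k ≤ L ^ N := by
    calc c * L ^ k ≤ L * L ^ k := mul_le_mul_of_nonneg_right hc (pow_nonneg hL0 k)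
      _ = L ^ (k + 1) := by ring
      _ ≤ L ^ N := pow_le_pow_right₀ hL hk
  have h3 := ux_pos L a
  have h4 := ux_pos L a'
  calc c * L ^ k * ux L a' ≤ L ^ N * ux L a' := mul_le_mul_of_nonneg_right h2 h4.le
    _ ≤ L ^ N * (ux L a * ux L (1 / 2)) := mul_le_mul_of_nonneg_left h1 (pow_nonneg hL0 N)
    _ = ux L a * (L ^ N * ux L (1 / 2)) := by ring
    _ ≤ ux L a * 1 := mul_le_mul_of_nonneg_left hN h3.le
    _ = ux L a := mul_one _

theorem inv_startb {L c a a' : ℝ} {N : ℕ} (hL : 1 ≤ L) (hN : L ^ N * ux L (1 / 2) ≤ 1) (k : ℕ)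
    (h0 : 0 < c) (hc : c⁻¹ ≤ L) (hk : k + 1 ≤ N) (h : a + 1 / 2 ≤ a') :
    L ^ k * ux L a' ≤ c * ux L a := by
  have h1 := sm_startb hL hN k hc hk h
  rwa [mul_assoc, inv_mul_le_iff₀ h0] at h1

theorem mg_startb {L c W mg a : ℝ} {N : ℕ} (hL : 1 ≤ L) (hN : L ^ N * ux L (1 / 2) ≤ 1) (k : ℕ)
    (hmg : 0 < mg) (hm : mg * (W * L ^ 2) = 1) (h0 : 0 < c) (hc : c⁻¹ * W ≤ L) (hk : k + 3 ≤ N)
    (h : 1 / 2 ≤ a) : L ^ k * ux L a ≤ c * mg := by
  have h1 := sm_startb (a := 0) hL hN (k + 2) hc hk (by linarith : 0 + 1 / 2 ≤ a)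
  rw [ux_zero] at h1
  have h2 := mul_le_mul_of_nonneg_left h1 (mul_pos h0 hmg).le
  have h3 : c * mg * (c⁻¹ * W * L ^ (k + 2) * ux L a) =
      (c * c⁻¹) * (mg * (W * L ^ 2)) * (L ^ k * ux L a) := by ring
  rw [h3, hm, mul_inv_cancel₀ h0.ne'] at h2
  linarith

/-- The mean height in the integral sense. -/
theorem beta_startb {D : CD d α H} {R δ M ρ w σ R₀ : ℝ} (h : CV D 0 R δ M) (hρ : 0 < ρ)
    (hw : 0 < w) (hσ : σ + ρ ≤ R₀) (hE : D.En 0 R₀ ≤ 6 * w ^ 2) :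
    ∫ u in ball (0 : E d) σ, ‖D.av ρ D.y u‖ ≤ (3 + 3 ^ d * M) * w := by
  have := h.fin
  obtain ⟨-, -, i3, -⟩ := h.integrable_t
  have j1 : Integrable (fun a => (2 * w)⁻¹ * ‖D.y a‖ ^ 2) D.m := i3.const_mul _
  have j2 : Integrable (fun _ : α => w / 2) D.m := integrable_const _
  have hg : Integrable (fun a => (2 * w)⁻¹ * ‖D.y a‖ ^ 2 + w / 2) D.m := j1.add j2
  have hle : ∀ a, ‖D.y a‖ ≤ (2 * w)⁻¹ * ‖D.y a‖ ^ 2 + w / 2 := fun a => by
    have e : (2 * w)⁻¹ * ‖D.y a‖ ^ 2 + w / 2 - ‖D.y a‖ = (2 * w)⁻¹ * (‖D.y a‖ - w) ^ 2 := by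
      field_simp
      ring
    have : 0 ≤ (2 * w)⁻¹ * (‖D.y a‖ - w) ^ 2 := by positivity
    linarith
  have h1 := (h.cyl_av hρ hg (Eventually.of_forall fun a => (norm_nonneg _).trans (hle a)) 0).1 σ
  have h2 : ∫ u in ball (0 : E d) σ, ‖D.av ρ D.y u‖ ≤ ∫ u in ball (0 : E d) σ,
      D.av ρ (fun a => (2 * w)⁻¹ * ‖D.y a‖ ^ 2 + w / 2) u :=
    integral_mono_of_nonneg (Eventually.of_forall fun u => norm_nonneg _)
      (h.integral_av_one hρ hg).1.integrableOn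
      (Eventually.of_forall fun u => (h.norm_av_le hρ hg u
        (Eventually.of_forall fun a _ => hle a)).1)
  have h3 : ∫ a in D.cyl 0 (σ + ρ), ((2 * w)⁻¹ * ‖D.y a‖ ^ 2 + w / 2) ∂D.m =
      (2 * w)⁻¹ * D.J 0 (σ + ρ) + D.Ms 0 (σ + ρ) * (w / 2) := by
    rw [integral_add j1.integrableOn j2.integrableOn, integral_const_mul, setIntegral_const,
      smul_eq_mul]
    rfl
  have h4 : D.Ms 0 (σ + ρ) ≤ 3 ^ d * M :=
    (h.real_le (Eventually.of_forall fun a _ => mem_univ a)).trans h.mass_le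
  obtain ⟨-, a2, -, -, a5, -⟩ := h.nonneg 0 R₀
  have h5 : D.J 0 (σ + ρ) ≤ 6 * w ^ 2 := by
    have := (h.cyl_mono (u := 0) (v := 0) (r := σ + ρ) (s := R₀) (by simpa using hσ)).2.2.1
    linarith
  have h6 : (2 * w)⁻¹ * D.J 0 (σ + ρ) ≤ 3 * w := by
    rw [inv_mul_le_iff₀ (by positivity)]
    linarith
  have h7 := mul_le_mul_of_nonneg_right h4 (half_pos hw).le
  have h8 : 0 ≤ 3 ^ d * M * w := mul_nonneg (mul_nonneg (by positivity) h.M_nonneg) hw.le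
  linarith

/-- Upper bounds of the radial quantities by the total energy. -/
theorem up_startb {D : CD d α H} {R δ M r : ℝ} (h : CV D 0 R δ M) (hδ : δ ≤ 1 / 2)
    (hr : 1 / 2 ≤ r) : D.hh r ≤ 5 * 2 ^ d * ∫ a, D.en a ∂D.m ∧
      (r ≤ 1 → D.dr r ≤ 5 * 2 ^ d * ∫ a, D.en a ∂D.m) := by
  obtain ⟨b1, b2, -, b4, b5, -⟩ := hh_basic h hδ (show 0 < r by linarith)
  obtain ⟨-, a2, a3, -, a5, -⟩ := h.nonneg 0 r
  have h1 : D.En 0 r ≤ ∫ a, D.en a ∂D.m :=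
    setIntegral_le_integral h.integrable_t.2.2.2.1 (h.ae_pw.mono fun a ha => ha.facts_av.1)
  have h2 : (1 : ℝ) ≤ 2 ^ d * r ^ d := by
    rw [← mul_pow]
    exact one_le_pow₀ (by linarith)
  have h3 : (0 : ℝ) < 2 ^ d := by positivity
  refine ⟨?_, fun h4 => ?_⟩
  · have c1 := mul_le_mul_of_nonneg_right h2 b1
    have c2 : r ^ d * D.hh r ≤ 5 * ∫ a, D.en a ∂D.m := by linarith
    have c3 := mul_le_mul_of_nonneg_left c2 h3.le
    linarith
  · have c1 := mul_le_mul_of_nonneg_right h2 b2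
    have c0 : r ^ 2 * D.T 0 r ≤ 1 * D.T 0 r :=
      mul_le_mul_of_nonneg_right (pow_le_one₀ (by linarith) h4) a2
    have c2 : r ^ d * D.dr r ≤ 5 * ∫ a, D.en a ∂D.m := by linarith
    have c3 := mul_le_mul_of_nonneg_left c2 h3.le
    linarith

/-- The lower bound for the height function. -/
theorem low_startb {D : CD d α H} {R δ M r l Ca : ℝ} (h : CV D 0 R δ M) (hδ : δ ≤ 1 / 2)
    (hr : 0 < r) (hl : 0 < l) (h1 : r + 2 * l ≤ 1) (hC : 0 < Ca)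
    (h2 : D.En 0 r ≤ Ca / l ^ 2 * D.J 0 (r + l)) : l ^ 4 * D.En 0 r ≤ Ca * D.hh (r + 2 * l) := by
  have h0 : 0 < r + 2 * l := by linarith
  obtain ⟨b1, -, -, -, -, -, -, b8⟩ := hh_basic h hδ h0
  have h3 := (b8 (r + l) (by linarith) (by linarith)).1
  have h4 := (h.nonneg 0 (r + l)).2.2.1
  have a1 : l ≤ 1 - (r + l) / (r + 2 * l) := by
    rw [show 1 - (r + l) / (r + 2 * l) = l / (r + 2 * l) by field_simp; ring, le_div_iff₀ h0]
    nlinarith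
  have a2 : l ^ 2 * D.J 0 (r + l) ≤ D.hh (r + 2 * l) := by
    have c1 := mul_le_mul_of_nonneg_right (pow_le_pow_left₀ hl.le a1 2) h4
    have c2 : (r + 2 * l) ^ d * D.hh (r + 2 * l) ≤ 1 * D.hh (r + 2 * l) :=
      mul_le_mul_of_nonneg_right (pow_le_one₀ h0.le h1) b1
    linarith
  have a3 : l ^ 2 * D.En 0 r ≤ Ca * D.J 0 (r + l) := by
    have := mul_le_mul_of_nonneg_left h2 (sq_nonneg l)
    rwa [← mul_assoc, mul_div_cancel₀ _ (pow_pos hl 2).ne'] at this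
  calc l ^ 4 * D.En 0 r = l ^ 2 * (l ^ 2 * D.En 0 r) := by ring
    _ ≤ l ^ 2 * (Ca * D.J 0 (r + l)) := mul_le_mul_of_nonneg_left a3 (sq_nonneg l)
    _ = Ca * (l ^ 2 * D.J 0 (r + l)) := by ring
    _ ≤ Ca * D.hh (r + 2 * l) := mul_le_mul_of_nonneg_left a2 hC.le

/-- Sizes of the errors of the Newton step. -/
theorem num_startb {KN : ℕ} {A b g L W mg CN M : ℝ} (hP : Par d KN A b g) (hL : 1 ≤ L)
    (hN : L ^ (4 * KN + 13) * ux L (1 / 2) ≤ 1) (hW : 0 ≤ W) (hmg : 0 < mg)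
    (hm : mg * (W * L ^ 2) = 1) (hM : 0 ≤ M) (h1 : |CN| * (4 + 3 ^ d * M) * W ^ KN ≤ L) :
    CN * ((3 + 3 ^ d * M) * ux L (A / 2 + 1 / 4) + ux L (A / 2 - d - 2) * ux L b) / mg ^ KN ≤
        L ^ (2 * KN + 1) * ux L (A / 2 + 1 / 4) ∧
      CN * ux L b * (ux L (A / 2 - d - 2) + L ^ (2 * KN + 1) * ux L (A / 2 + 1 / 4)) / mg ^ KN ≤
        ux L (A / 2 + g) := by
  have hL0 : 0 ≤ L := by linarith
  have hd : (0 : ℝ) ≤ d := Nat.cast_nonneg d
  have hK : (0 : ℝ) ≤ KN := Nat.cast_nonneg KN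
  have hg := hP.g_ge
  have hb := hP.b_ge
  have e : ∀ x : ℝ, x / mg ^ KN = x * (W ^ KN * L ^ (2 * KN)) := fun x => by
    rw [div_eq_mul_inv, pow_mul, ← mul_pow, ← inv_pow, inv_eq_of_mul_eq_one_right hm]
  have hCN := le_abs_self CN
  have hCN0 := abs_nonneg CN
  have hM3 : 0 ≤ 3 ^ d * M := by positivity
  have hWL : 0 ≤ W ^ KN * L ^ (2 * KN) := by positivity
  have p1 := ux_pos L (A / 2 + 1 / 4)
  have p2 := ux_pos L (A / 2 - d - 2)
  have p3 := ux_pos L b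
  rw [e, e]
  constructor
  · have a1 : ux L (A / 2 - d - 2) * ux L b ≤ ux L (A / 2 + 1 / 4) := by
      rw [← ux_add]
      exact ux_anti hL0 (by linarith)
    calc _ ≤ |CN| * ((4 + 3 ^ d * M) * ux L (A / 2 + 1 / 4)) * (W ^ KN * L ^ (2 * KN)) :=
          mul_le_mul_of_nonneg_right (mul_le_mul hCN (by linarith) (by positivity) hCN0) hWL
      _ = |CN| * (4 + 3 ^ d * M) * W ^ KN * (L ^ (2 * KN) * ux L (A / 2 + 1 / 4)) := by ring
      _ ≤ L * (L ^ (2 * KN) * ux L (A / 2 + 1 / 4)) :=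
          mul_le_mul_of_nonneg_right h1 (by positivity)
      _ = _ := by ring
  · have a1 := sm_startb (c := 1) (a := A / 2 - d - 2) (a' := A / 2 + 1 / 4) hL hN (2 * KN + 1) hL
      (by omega) (by linarith)
    have a2 := sm_startb (a := A / 2 + g) (a' := b + (A / 2 - d - 2)) hL hN (2 * KN) h1
      (by omega) (by linarith)
    rw [ux_add L b] at a2
    calc _ ≤ |CN| * ux L b * ((4 + 3 ^ d * M) * ux L (A / 2 - d - 2)) *
          (W ^ KN * L ^ (2 * KN)) :=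
          mul_le_mul_of_nonneg_right (mul_le_mul (mul_le_mul_of_nonneg_right hCN p3.le)
            (by nlinarith [mul_nonneg hM3 p2.le]) (by positivity) (by positivity)) hWL
      _ = |CN| * (4 + 3 ^ d * M) * W ^ KN * L ^ (2 * KN) * (ux L b * ux L (A / 2 - d - 2)) := by
          ring
      _ ≤ _ := a2

end Pool.Agent.Lib.MP_8daebb_an.GM
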