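import Pool.Agent.Lib.MP_8daebb_an.GM.MsOf
import Pool.Agent.Lib.MP_8daebb_an.GM.CmpM
import Pool.Agent.Lib.MP_8daebb_an.GM.StartBX

/-! The start: the first state. -/

set_option linter.unusedSectionVars false
set_option linter.unusedVariables false

open MeasureTheory Metric Filter Topology Set
open scoped RealInnerProductSpace ENNReal ContDiff

namespace Pool.Agent.Lib.MP_8daebb_an.GM

open LG (vb chi om trS)
open SV (ux)

variable {d : ℕ} {α : Type*} [MeasurableSpace α] {H : Type*} [NormedAddCommGroup H]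
  [InnerProductSpace ℝ H] [FiniteDimensional ℝ H] [MeasurableSpace H] [BorelSpace H]

theorem start_b {C : Type*} (d : ℕ) (M θ : ℝ) {CI δg cg : ℝ} (hCI : 0 ≤ CI) (hδg : 0 < δg)
    (hcg : 0 < cg) (hcg1 : cg ≤ 1 / 2) (hG : GlobOK d α H M CI δg cg) : ∃ δ₀ : ℝ, 0 < δ₀ ∧
    ∀ (KN : ℕ) (A b g CN cN ε₁ Λ K₁ L₀ : ℝ), Par d KN A b g → 0 < cN → 0 < ε₁ → 1 ≤ Λ →
    ∃ l₁ : ℝ, 4 ≤ l₁ ∧
    ∀ (Adm : C → ℝ → ℝ → Prop) (ch : C → ℝ → CD d α H) (δ εB δ₂ : ℝ),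
    Sys Adm ch M θ δ ε₁ εB δ₂ ⌊θ + 1 / 2⌋₊ CN cN KN → δ ≤ δ₀ →
    ∀ (r l : ℝ) (c₁ : C) (R₁ : ℝ), 1 / 2 ≤ r → r ≤ 3 / 4 → l₁ ≤ l →
    Adm c₁ (ε₁ * (2 - r - (l ^ 2)⁻¹)) R₁ → r + (l ^ 2)⁻¹ ≤ R₁ → R₁ ≤ 2 →
    (ch c₁ R₁).En 0 (r + (l ^ 2)⁻¹) ≤ 6 * Real.exp (-l) →
    (∀ c R, r ≤ R → R ≤ 2 → Adm c (ε₁ * (2 - r)) R → Real.exp (-l) ≤ (ch c R).En 0 r) →
    ∃ (B L r₀ : ℝ) (c : C) (R : ℝ), L₀ ≤ L ∧ K₁ ≤ B ∧ Λ * B ≤ L ^ (2 * d + 4 * KN + 12) ∧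
      State Adm ch ε₁ A b g L r₀ (Λ * B) B c R := by
  obtain ⟨δ₁, hδ₁, hδt₁, hlev⟩ := lev_of_en (α := α) (H := H) (C := C) d M θ hCI hδg hcg hcg1 hG
  obtain ⟨Cc, hCc, hcm⟩ := cmp_m (α := α) (H := H) d M
  obtain ⟨Ca, hCa, hca⟩ := cacc (α := α) (H := H) d
  obtain ⟨Cq, hCq, hmq⟩ := mass_near_Q (α := α) (H := H) d hCI
  refine ⟨δ₁, hδ₁, fun KN A b g CN cN ε₁ Λ K₁ L₀ hP hcN hε₁ hΛ => ?_⟩
  obtain ⟨L₁, hlev⟩ := hlev KN A b g cN hP hcN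
  obtain ⟨L₂, hL₂, hsm⟩ := ux_small 1 (4 * KN + 13) (κ := 1 / 2) (by norm_num)
  have hd : (0 : ℝ) ≤ d := Nat.cast_nonneg d
  have hK : (0 : ℝ) ≤ KN := Nat.cast_nonneg KN
  have hA : 14 * (d : ℝ) + 40 ≤ A := by nlinarith only [hP.A_d, sq_nonneg (d : ℝ)]
  have hb : 3 * (d : ℝ) + 9 ≤ b := by linarith only [hP.g_ge, hP.b_ge, hK]
  have hbK : 0 ≤ b * KN := mul_nonneg (by linarith only [hb, hd]) hK
  have hAK := hP.A_K
  have hP1 : 1 ≤ A + 1 / 2 := by linarith only [hA, hd]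
  obtain ⟨W, hW⟩ : ∃ W : ℝ, W = 32 * (A + 1 / 2) ^ 2 := ⟨_, rfl⟩
  have hW1 : 1 ≤ W := by nlinarith only [hW, hP1]
  obtain ⟨T, hT⟩ : ∃ T : ℝ, T = 32 + |L₀| + |L₁| + L₂ + |K₁| + Λ + Cq + (24 + Cc) + 5 * 2 ^ d +
      Ca * W ^ 4 + 17 * W + cN⁻¹ * W + cN⁻¹ + ε₁⁻¹ * W + ε₁⁻¹ +
      |CN| * (4 + 3 ^ d * |M|) * W ^ KN := ⟨_, rfl⟩
  refine ⟨max 4 (T * (A + 1 / 2)), le_max_left _ _, ?_⟩
  intro Adm ch δ εB δ₂ hS hδ r l c₁ R₁ hr1 hr2 hl had1 hR1 hR2 hE hlow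
  have hδt : δ ≤ 1 / 10 := hδ.trans hδt₁
  have hδh : δ ≤ 1 / 2 := by linarith only [hδt]
  obtain ⟨L, hTL, rfl⟩ : ∃ L, T ≤ L ∧ l = L * (A + 1 / 2) :=
    ⟨l / (A + 1 / 2), (le_div_iff₀ (by linarith only [hP1])).2 ((le_max_right _ _).trans hl),
      (div_mul_cancel₀ _ (by linarith only [hP1])).symm⟩
  have i1 := inv_pos.2 hcN
  have i2 := inv_pos.2 hε₁
  have i3 : 0 ≤ |CN| * (4 + 3 ^ d * |M|) * W ^ KN := by positivity
  have i4 : (0 : ℝ) < 2 ^ d := by positivity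
  have i5 : 0 < Ca * W ^ 4 := by positivity
  have i6 : 0 < cN⁻¹ * W := by positivity
  have i7 : 0 < ε₁⁻¹ * W := by positivity
  have j0 := abs_nonneg L₀
  have j1 := abs_nonneg L₁
  have j2 := abs_nonneg K₁
  have tt : 32 ≤ L ∧ |L₀| ≤ L ∧ |L₁| ≤ L ∧ L₂ ≤ L ∧ |K₁| ≤ L ∧ Λ ≤ L ∧ Cq ≤ L ∧ 24 + Cc ≤ L ∧
      5 * 2 ^ d ≤ L ∧ Ca * W ^ 4 ≤ L ∧ 17 * W ≤ L ∧ cN⁻¹ * W ≤ L ∧ cN⁻¹ ≤ L ∧ ε₁⁻¹ * W ≤ L ∧
      ε₁⁻¹ ≤ L ∧ |CN| * (4 + 3 ^ d * |M|) * W ^ KN ≤ L := by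
    rw [hT] at hTL
    refine ⟨?_, ?_, ?_, ?_, ?_, ?_, ?_, ?_, ?_, ?_, ?_, ?_, ?_, ?_, ?_, ?_⟩ <;>
      linarith only [hTL, i1, i2, i3, i4, i5, i6, i7, j0, j1, j2, hCc, hCq, hΛ, hL₂, hW1]
  obtain ⟨t1, t2, t3, t4, t5, t6, t7, t8, t9, t10, t11, t12, t13, t14, t15, t16⟩ := tt
  have hN := hsm L t4
  rw [one_mul] at hN
  clear hT hTL hl hsm i3 i5 i6 i7 j0 j1 j2
  have hL : 1 ≤ L := by linarith only [t1]
  have hL0 : 0 ≤ L := by linarith only [t1]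
  have P := ux_pos L
  obtain ⟨mg, hmg, hm, hF⟩ : ∃ mg : ℝ, 0 < mg ∧ mg * (W * L ^ 2) = 1 ∧
      ((L * (A + 1 / 2)) ^ 2)⁻¹ = 32 * mg := by
    refine ⟨(W * L ^ 2)⁻¹, by positivity, inv_mul_cancel₀ (by positivity), ?_⟩
    rw [hW]
    field_simp
  have hw : Real.exp (-(L * (A + 1 / 2))) = ux L (A / 2 + 1 / 4) ^ 2 := by
    rw [ux_pow, ux]
    congr 1
    push_cast
    ring
  have hw' : ux L (A / 2 + 1 / 4) ^ 2 = ux L (A + 1 / 2) := by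
    rw [ux_pow]
    congr 1
    push_cast
    ring
  have hs2 : ux L (A / 4 - d / 2 - 1) ^ 2 = ux L (A / 2 - d - 2) := by
    rw [ux_pow]
    congr 1
    push_cast
    ring
  have hs4 : ux L (A / 4 - d / 2 - 1) ^ 4 = ux L (A - 2 * d - 4) := by
    rw [ux_pow]
    congr 1
    push_cast
    ring
  rw [hF] at had1 hR1 hE
  rw [hw] at hE hlow
  have S := fun {c a a' : ℝ} => sm_startb (c := c) (a := a) (a' := a') hL hN
  have I := fun {c a a' : ℝ} => inv_startb (c := c) (a := a) (a' := a') hL hN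
  have G := fun {c a : ℝ} (k : ℕ) => mg_startb (c := c) (a := a) hL hN k hmg hm
  -- lengths
  have l1 : 1024 * mg ≤ 1 := by
    have a1 : 1024 ≤ W * L ^ 2 := by nlinarith only [hW1, t1]
    have a2 := mul_le_mul_of_nonneg_left a1 hmg.le
    linarith only [a2, hm]
  have l0 : (1 : ℝ)⁻¹ * W ≤ L := by linarith only [t11, hW1]
  have l2 : ux L 2 ≤ mg := by simpa using G (a := 2) 0 one_pos l0 (by omega) (by norm_num)
  have l3 : 17 * ux L (A / 2 - 2 * d - 5) ≤ mg := by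
    have := G (c := 1 / 17) (a := A / 2 - 2 * d - 5) 0 (by norm_num) (by linarith only [t11])
      (by omega) (by linarith only [hA, hd])
    linarith only [this]
  have l4 : ux L b ≤ cN * mg := by
    simpa using G (a := b) 0 hcN t12 (by omega) (by linarith only [hb, hd])
  have l5 : ux L b ≤ mg := (ux_anti hL0 (by linarith only [hb, hd])).trans l2
  have l6 : L ^ (2 * KN + 1) * ux L (A / 2 + 1 / 4) ≤ mg := by
    simpa using G (a := A / 2 + 1 / 4) (2 * KN + 1) one_pos l0 (by omega)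
      (by linarith only [hA, hd])
  have l7 := G (a := A / 2 + 1 / 4) (2 * KN + 1) hε₁ t14 (by omega) (by linarith only [hA, hd])
  have l8 : L ^ (2 * KN + 1) * ux L (A / 2 + 1 / 4) ≤ cN * ux L b ^ KN := by
    rw [ux_pow]
    exact I (2 * KN + 1) hcN t13 (by omega) (by linarith only [hAK, hbK, hd])
  have l9 : ux L 1 ≤ ε₁ := by
    simpa [ux_zero] using I (a := 0) (a' := 1) 0 hε₁ t15 (by omega) (by norm_num)
  have l10 : 2 * ux L 1 ≤ 1 := by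
    simpa [ux_zero] using S (c := 2) (a := 0) (a' := 1) 0 (by linarith only [t1]) (by omega)
      (by norm_num)
  have l11 : ux L (A / 4 - d / 2 - 1) ≤ ux L b ^ KN := by
    rw [ux_pow]
    exact ux_anti hL0 (by linarith only [hAK])
  have l12 : 6 * ux L (A / 2 + 1 / 4) ^ 2 ≤ ux L (A - 2) := by
    rw [hw']
    simpa using S (c := 6) (a := A - 2) (a' := A + 1 / 2) 0 (by linarith only [t1]) (by omega)
      (by linarith only)
  have l13 : Cq * ux L (A - 2) ≤ ux L (A / 2 - d - 2) := by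
    simpa using S (a := A / 2 - d - 2) (a' := A - 2) 0 t7 (by omega) (by linarith only [hA, hd])
  have p2 := P 2
  have pb := P b
  have pr := P (A / 2 - 2 * d - 5)
  have pw := P (A / 2 + 1 / 4)
  have pJ : 0 < L ^ (2 * KN + 1) * ux L (A / 2 + 1 / 4) := by positivity
  have hε : ε₁ * (2 - r - 32 * mg) ≤ 3 * ε₁ := by nlinarith only [hε₁, hr1, hmg]
  have hcv := hS.cv c₁ _ R₁ had1 hε (by linarith only [hR1, hr1, hmg]) hR2
  have hM := hcv.M_nonneg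
  rw [abs_of_nonneg hM] at t16
  obtain ⟨g1, g2⟩ := num_startb hP hL hN (by linarith only [hW1]) hmg hm hM t16
  have mono : ∀ σ, σ ≤ r + 32 * mg → (ch c₁ R₁).En 0 σ ≤ 6 * ux L (A / 2 + 1 / 4) ^ 2 :=
    fun σ hσ => (hcv.cyl_mono (u := 0) (v := 0) (by simpa using hσ)).2.2.2.trans hE
  -- the first chart
  obtain ⟨⟨N, hN1⟩, -⟩ := hlev Adm ch δ ε₁ εB δ₂ _ CN hS hδ c₁ _ R₁ (r + 32 * mg) L
    ((le_abs_self L₁).trans t3) had1 hε hR2 hR1 (by linarith only [l10, hr1, hmg]) (hE.trans l12)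
  obtain ⟨R₂, hR₂⟩ : ∃ R₂, R₂ = r + 32 * mg - ux L 2 := ⟨_, rfl⟩
  rw [← hR₂] at hN1
  have n1 : R₂ ≤ R₁ := by linarith only [hR₂, hR1, p2]
  have hy : ∀ᵐ a ∂(ch c₁ R₁).m, a ∈ (ch c₁ R₁).cyl 0 R₂ →
      ‖(ch c₁ R₁).y a‖ ≤ ux L (A / 4 - d / 2 - 1) ^ 2 := by
    have a1 : ∀ᵐ a ∂(ch c₁ R₁).m.restrict ((ch c₁ R₁).cyl 0 R₂),
        ‖(ch c₁ R₁).y a‖ ≤ ux L (A / 2 - d - 2) := hN1.ms.ht
    rwa [ae_restrict_iff' (hcv.meas_cyl 0 R₂), ← hs2] at a1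
  have hQ : ∫ v in ball (0 : E d) (R₂ - mg), |(N v : ℝ) - (⌊θ + 1 / 2⌋₊ : ℕ)| ≤
      ux L (A / 4 - d / 2 - 1) ^ 2 := by
    have a1 := (hmq _ 0 R₂ δ M _ _ N hN1.ms.cv hδh pr hN1.ms.mq 0 (R₂ - mg)
      (by linarith only [hR₂, hr1, l2, hmg])
      (by rw [sub_self, norm_zero]; linarith only [l3])).1
    rw [(resB_eq hcv.m_x (by rw [sub_self, norm_zero]; linarith only [l3, pr])).2.2.2.2] at a1
    have a2 := (mono (R₂ - mg + 9 * ux L (A / 2 - 2 * d - 5))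
      (by linarith only [hR₂, l3, pr, p2])).trans l12
    rw [hs2]
    exact a1.trans ((mul_le_mul_of_nonneg_left a2 hCq.le).trans l13)
  obtain ⟨c', had, hcmp, hav⟩ := hS.newt c₁ _ R₁ R₂ mg _ _ _
    (L ^ (2 * KN + 1) * ux L (A / 2 + 1 / 4)) N had1 hε hR2 n1 (P _) pb hy
    (((mono R₂ (by linarith only [hR₂, p2])).trans l12).trans
      (by rw [hs4]; exact ux_anti hL0 (by linarith only [hd])))
    hN1.ms.mq.mult hQ l11 l4 (by linarith only [hR₂, l2, hr1, hmg])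
    (beta_startb hcv pb pw (by linarith only [hR₂, l5, p2, hmg]) hE) (by rw [hs2]; exact g1) l8
  rw [hs2] at hav
  obtain ⟨R', hR'⟩ : ∃ R', R' = R₂ - 8 * mg := ⟨_, rfl⟩
  rw [← hR'] at had hcmp hav
  have n2 : r + 23 * mg ≤ R' := by linarith only [hR', hR₂, l2]
  have n3 : R' ≤ 2 := by linarith only [hR', n1, hR2, hmg]
  have n4 : 1 / 2 ≤ r + 2 * mg := by linarith only [hr1, hmg]
  have n5 : r + 2 * mg ≤ 1 := by linarith only [hr2, l1]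
  have had2 : Adm c' (ε₁ * (2 - r)) R' :=
    hS.adm_mono c' _ _ R' had (by nlinarith only [l7, mul_pos hε₁ hmg])
  have had' : Adm c' (3 * ε₁ - ux L 1) R' :=
    hS.adm_mono c' _ _ R' had2 (by nlinarith only [l9, hr1, hε₁])
  have hcv' := hS.cv c' _ R' had' (sub_le_self _ (P 1).le) (by linarith only [n2, hr1, hmg]) n3
  -- the energy of the new chart
  obtain ⟨-, -, k1⟩ := hcm (ch c₁ R₁) (ch c' R') R₁ R' δ _ (r + 2 * mg)
    (6 * ux L (A / 2 + 1 / 4) ^ 2) hcv hcv' hδh hcmp pJ.le (by linarith only [l6, hr1, hmg]) n5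
    (by linarith only [n4]) (by linarith only [n2, l6, hmg]) (by linarith only [hR', n1, l6, hmg])
    (mono _ (by linarith only [hR', hR₂, l6, p2, hmg]))
    (l12.trans (ux_le_one hL0 (by linarith only [hA, hd])))
  obtain ⟨E', hE'⟩ : ∃ E', E' = ∫ a, (ch c' R').en a ∂(ch c' R').m := ⟨_, rfl⟩
  have k2 : E' ≤ L ^ (4 * KN + 3) * ux L (A + 1 / 2) := by
    have a1 : 1 ≤ L ^ (4 * KN + 2) := one_le_pow₀ hL
    have a2 : 0 < ux L (A / 2 + 1 / 4) ^ 2 := by positivity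
    have a3 := mul_le_mul_of_nonneg_right a1 a2.le
    have a4 := mul_le_mul_of_nonneg_right t8 (mul_pos (lt_of_lt_of_le one_pos a1) a2).le
    rw [hE', ← hw']
    calc _ ≤ _ := k1
      _ = 24 * ux L (A / 2 + 1 / 4) ^ 2 + Cc * (L ^ (4 * KN + 2) * ux L (A / 2 + 1 / 4) ^ 2) := by
          ring
      _ ≤ L * (L ^ (4 * KN + 2) * ux L (A / 2 + 1 / 4) ^ 2) := by linarith only [a3, a4]
      _ = _ := by ring
  -- the height function of the new chart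
  have k3 := low_startb hcv' hδh (by linarith only [hr1]) hmg n5 hCa
    (hca (ch c' R') 0 R' δ M hcv' hδt 0 r mg (by linarith only [hr1]) hmg
      (by rw [sub_self, norm_zero]; linarith only [n2, hmg]))
  have k4 := hlow c' R' (by linarith only [n2, hmg]) n3 had2
  have b1 := (hh_basic hcv' hδh (show 0 < r + 2 * mg by linarith only [n4])).1
  obtain ⟨h₀, hh₀⟩ : ∃ h₀, h₀ = (ch c' R').hh (r + 2 * mg) := ⟨_, rfl⟩
  rw [← hh₀] at k3 b1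
  have k5 : ux L (A + 1 / 2) ≤ L ^ 9 * h₀ := by
    have a1 := (mul_le_mul_of_nonneg_left k4 (pow_pos hmg 4).le).trans k3
    have a2 := mul_le_mul_of_nonneg_left a1 (show 0 ≤ (W * L ^ 2) ^ 4 by positivity)
    have a3 := mul_le_mul_of_nonneg_right t10 (show 0 ≤ L ^ 8 * h₀ by positivity)
    rw [← mul_assoc, ← mul_pow, mul_comm _ mg, hm, one_pow, one_mul, hw'] at a2
    calc _ ≤ _ := a2
      _ = Ca * W ^ 4 * (L ^ 8 * h₀) := by ring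
      _ ≤ _ := a3
      _ = _ := by ring
  have k6 : 5 * 2 ^ d * E' ≤ L ^ (4 * KN + 13) * h₀ := by
    have a1 := k2.trans (mul_le_mul_of_nonneg_left k5 (pow_nonneg hL0 _))
    calc _ ≤ 5 * 2 ^ d * (L ^ (4 * KN + 3) * (L ^ 9 * h₀)) :=
          mul_le_mul_of_nonneg_left a1 (by positivity)
      _ ≤ L * (L ^ (4 * KN + 3) * (L ^ 9 * h₀)) := mul_le_mul_of_nonneg_right t9 (by positivity)
      _ = _ := by ring
  have q1 : L ^ 3 ≤ L ^ (4 * KN + 13) := pow_le_pow_right₀ hL (by omega)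
  have q2 : L ≤ L ^ 3 := le_self_pow₀ hL (by norm_num)
  have q3 : 0 < L ^ (4 * KN + 13) := by positivity
  have q4 : L ^ (4 * KN + 13) ≤ Λ * L ^ (4 * KN + 13) := le_mul_of_one_le_left q3.le hΛ
  have q5 : 0 < Λ * L ^ (4 * KN + 13) := q3.trans_le q4
  obtain ⟨u1, u2⟩ := up_startb hcv' hδh n4
  rw [← hE', ← hh₀] at u1
  refine ⟨L ^ (4 * KN + 13), L, r + 2 * mg, c', R', (le_abs_self L₀).trans t2,
    (le_abs_self K₁).trans (t5.trans (q2.trans q1)), ?_, had', n3, ?_, ?_, n5,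
    by linarith only [l10, n4], ?_, ?_, ?_, ?_, fun v hv => ?_⟩
  · calc _ ≤ L * L ^ (4 * KN + 13) := mul_le_mul_of_nonneg_right t6 q3.le
      _ = L ^ (4 * KN + 14) := by ring
      _ ≤ _ := pow_le_pow_right₀ hL (by have := hcv.d_pos; omega)
  · have a1 : 5 / (4 * (Λ * L ^ (4 * KN + 13))) ≤ 21 * mg := by
      rw [div_le_iff₀ (by positivity)]
      have c1 : W * L ^ 2 ≤ L * L ^ 2 :=
        mul_le_mul_of_nonneg_right (by linarith only [t11, hW1]) (sq_nonneg L)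
      have c2 : W * L ^ 2 ≤ Λ * L ^ (4 * KN + 13) := by linarith only [c1, q1, q4]
      have c3 := mul_le_mul_of_nonneg_left c2 hmg.le
      linarith only [c3, hm]
    have a2 : (r + 2 * mg) * (5 / (4 * (Λ * L ^ (4 * KN + 13)))) ≤ 1 * (21 * mg) :=
      mul_le_mul n5 a1 (by positivity) zero_le_one
    linarith only [a2, n2]
  · have a1 := S (c := 1) (a := A - 2) (a' := A + 1 / 2) (4 * KN + 3) hL (by omega)
      (by linarith only)
    rw [← hE']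
    linarith only [a1, k2]
  · have a1 := S (c := 1) (a := A + 1 / 2) (a' := A + 1) 9 hL (by omega) (by linarith only)
    rw [← hh₀]
    exact le_of_mul_le_mul_left (a := L ^ 9) (by linarith only [a1, k5]) (by positivity)
  · have a1 := S (a := A) (a' := A + 1 / 2) (4 * KN + 3) t9 (by omega) le_rfl
    have a2 := mul_le_mul_of_nonneg_left k2 (show (0 : ℝ) ≤ 5 * 2 ^ d by positivity)
    rw [← hh₀]
    linarith only [a1, a2, u1]
  · rw [← hh₀]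
    exact (u2 n5).trans (hE' ▸ k6)
  · have a1 : r + 2 * mg ≤ (r + 2 * mg) * (1 + 1 / (Λ * L ^ (4 * KN + 13))) :=
      le_mul_of_one_le_right (by linarith only [n4]) (le_add_of_nonneg_right (by positivity))
    have a2 := (up_startb hcv' hδh (n4.trans a1)).1
    have a3 := mul_le_mul_of_nonneg_right q4 b1
    rw [← hE'] at a2
    rw [← hh₀]
    linarith only [a2, a3, k6]
  · exact (hav v (by linarith only [hv, hR₂, l2, hmg])).trans g2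

end Pool.Agent.Lib.MP_8daebb_an.GM
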