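import Pool.Agent.Lib.MP_8daebb_an.GM.AvD
import Pool.Agent.Lib.MP_8daebb_an.LG.Poin

/-! Change of the averaging scale. -/

set_option linter.unusedSectionVars false
set_option linter.unusedVariables false

open MeasureTheory Metric Filter Topology Set
open scoped RealInnerProductSpace ENNReal ContDiff

namespace Pool.Agent.Lib.MP_8daebb_an.GM

open LG (vb chi om trS)

variable {d : ℕ} {α : Type*} [MeasurableSpace α] {H : Type*} [NormedAddCommGroup H]
  [InnerProductSpace ℝ H] [FiniteDimensional ℝ H] [MeasurableSpace H] [BorelSpace H]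

/-- Cauchy-Schwarz for a finite measure. -/
theorem cs_avt {X : Type*} [MeasurableSpace X] {μ : Measure X} [IsFiniteMeasure μ] {g : X → ℝ}
    (h1 : Integrable g μ) (h2 : Integrable (fun x => g x ^ 2) μ) :
    (∫ x, g x ∂μ) ^ 2 ≤ μ.real univ * ∫ x, g x ^ 2 ∂μ := by
  have key : ∀ l : ℝ, 0 ≤ μ.real univ * (l * l) + (-2 * ∫ x, g x ∂μ) * l +
      ∫ x, g x ^ 2 ∂μ := fun l => by
    have j1 : Integrable (fun _ : X => l * l) μ := integrable_const _
    have j2 : Integrable (fun x => (-2 * l) * g x) μ := h1.const_mul _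
    have j3 : Integrable (fun x => l * l + (-2 * l) * g x) μ := j1.add j2
    have e : ∫ x, (l * l + (-2 * l) * g x) + g x ^ 2 ∂μ =
        μ.real univ * (l * l) + (-2 * ∫ x, g x ∂μ) * l + ∫ x, g x ^ 2 ∂μ := by
      rw [integral_add j3 h2, integral_add j1 j2, integral_const, integral_const_mul, smul_eq_mul]
      ring
    rw [← e]
    refine integral_nonneg fun x => ?_
    change 0 ≤ (l * l + (-2 * l) * g x) + g x ^ 2
    nlinarith [sq_nonneg (g x - l)]
  have h3 := discrim_le_zero key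
  rw [discrim] at h3
  nlinarith

/-- Cauchy-Schwarz on a ball, for a continuous function. -/
theorem cs_ball_avt {g : E d → ℝ} (hg : Continuous g) (c : E d) {r : ℝ} (hr : 0 < r) :
    (∫ x in ball c r, g x) ^ 2 ≤ vb d * r ^ d * ∫ x in ball c r, g x ^ 2 := by
  have : IsFiniteMeasure (volume.restrict (ball c r)) :=
    isFiniteMeasure_restrict.2 measure_ball_lt_top.ne
  have h := cs_avt (μ := volume.restrict (ball c r)) (LG.intOn_cont_poin hg c r)
    (LG.intOn_cont_poin (hg.pow 2) c r)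
  rwa [measureReal_restrict_apply_univ, LG.vol_ball c hr] at h

theorem conv_comm_avt (ρ ρ' : ℝ) (u x : E d) :
    ∫ v, kr ρ (u - v) * kr ρ' (v - x) = ∫ v, kr ρ' (u - v) * kr ρ (v - x) := by
  rw [← integral_sub_left_eq_self (fun v => kr ρ' (u - v) * kr ρ (v - x)) volume (u + x)]
  refine integral_congr_ae (Eventually.of_forall fun v => ?_)
  have e1 : u - (u + x - v) = v - x := by abel
  have e2 : u + x - v - x = u - v := by abel
  simp only [e1, e2]
  ring

theorem inner_av_avt {D : CD d α H} {c : E d} {R δ M : ℝ} (h : CV D c R δ M) {ρ : ℝ} (hρ : 0 < ρ)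
    (e : H) (v : E d) : ⟪e, D.av ρ D.y v⟫ = D.av ρ (fun a => ⟪e, D.y a⟫) v := by
  have iy := h.integrable_t.2.2.2.2.2.1
  rw [CD.av, ← integral_inner (h.int_av hρ iy v)]
  refine integral_congr_ae (Eventually.of_forall fun a => ?_)
  simp only [inner_smul_right, smul_eq_mul]

/-- The average at the small scale is controlled by the average at the large scale and the
oscillation. -/
theorem point_avt {D : CD d α H} {c : E d} {R δ M : ℝ} (h : CV D c R δ M) {ρ ρ' β : ℝ}
    (hρ' : 0 < ρ') (hρ : ρ' ≤ ρ) (hβ : 0 ≤ β) (u : E d)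
    (hb : ∀ v : E d, ‖v - u‖ < ρ → ‖D.av ρ D.y v‖ ≤ β) :
    ‖D.av ρ' D.y u‖ ≤ β + Ck d / ρ ^ d *
      ∫ z in ball (0 : E d) ρ, ‖D.av ρ' D.y (u + z) - D.av ρ' D.y u‖ := by
  have hρ0 : 0 < ρ := hρ'.trans_le hρ
  have iy := h.integrable_t.2.2.2.2.2.1
  set b := D.av ρ' D.y with hbdef
  have hbc : Continuous b := (h.av_smooth hρ' iy).1.continuous
  set e := b u with he
  set I := ∫ z in ball (0 : E d) ρ, ‖b (u + z) - e‖ with hI
  have hI0 : 0 ≤ I := integral_nonneg fun z => norm_nonneg _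
  have hK : 0 ≤ Ck d / ρ ^ d := div_nonneg (zero_le_one.trans (one_le_Ck d)) (by positivity)
  have ie : Integrable (fun a => ⟪e, D.y a⟫) D.m := iy.const_inner e
  have hk : ∀ {σ : ℝ}, 0 < σ → Measurable (fun v : E d => kr σ (u - v)) ∧
      ∀ v : E d, |kr σ (u - v)| ≤ Ck d / σ ^ d := fun hσ =>
    ⟨(kr_meas_av _).comp (measurable_const.sub measurable_id), fun v => by
      rw [abs_of_nonneg (kr_nonneg hσ _)]; exact (kr_le hσ _).1⟩
  obtain ⟨a1, a2⟩ := h.integral_av hρ' ie (hk hρ0).1 (hk hρ0).2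
  obtain ⟨b1, b2⟩ := h.integral_av hρ0 ie (hk hρ').1 (hk hρ').2
  simp only [← inner_av_avt h hρ'] at a1 a2
  simp only [← inner_av_avt h hρ0] at b1 b2
  have e1 : ∫ v, kr ρ (u - v) * ⟪e, b v⟫ = ∫ v, kr ρ' (u - v) * ⟪e, D.av ρ D.y v⟫ := by
    rw [b2]
    refine a2.trans (integral_congr_ae (Eventually.of_forall fun a => ?_))
    simp only [conv_comm_avt ρ ρ' u (D.x a)]
  have e2 : ∫ v, kr ρ' (u - v) * ⟪e, D.av ρ D.y v⟫ ≤ ‖e‖ * β := by
    calc ∫ v, kr ρ' (u - v) * ⟪e, D.av ρ D.y v⟫ ≤ ∫ v, kr ρ' (u - v) * (‖e‖ * β) := by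
          refine integral_mono b1 ((kr_shift_av' hρ' u).1.mul_const _) fun v => ?_
          by_cases hv : ‖v - u‖ < ρ'
          · refine mul_le_mul_of_nonneg_left ?_ (kr_nonneg hρ' _)
            exact (real_inner_le_norm _ _).trans
              (mul_le_mul_of_nonneg_left (hb v (hv.trans_le hρ)) (norm_nonneg _))
          · simp only [kr_off_av hρ' hv, zero_mul, le_refl]
      _ = ‖e‖ * β := by rw [integral_mul_const, (kr_shift_av' hρ' u).2, one_mul]
  have iz : IntegrableOn (fun z => ‖b (u + z) - e‖) (ball (0 : E d) ρ) :=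
    LG.intOn_cont_poin (by fun_prop) 0 ρ
  have iz' : Integrable ((ball (0 : E d) ρ).indicator fun z => ‖b (u + z) - e‖) :=
    (integrable_indicator_iff measurableSet_ball).2 iz
  have e3 : ∫ v, (ball (0 : E d) ρ).indicator (fun z => ‖b (u + z) - e‖) (v - u) = I := by
    rw [integral_sub_right_eq_self ((ball (0 : E d) ρ).indicator fun z => ‖b (u + z) - e‖) u,
      integral_indicator measurableSet_ball]
  have e4 : ‖e‖ ^ 2 ≤ (∫ v, kr ρ (u - v) * ⟪e, b v⟫) + ‖e‖ * (Ck d / ρ ^ d) * I := by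
    rw [← e3, ← integral_const_mul, ← integral_add a1 ((iz'.comp_sub_right u).const_mul _)]
    calc ‖e‖ ^ 2 = ∫ v, kr ρ (u - v) * ‖e‖ ^ 2 := by
          rw [integral_mul_const, (kr_shift_av' hρ0 u).2, one_mul]
      _ ≤ _ := by
          refine integral_mono ((kr_shift_av' hρ0 u).1.mul_const _)
            (a1.add ((iz'.comp_sub_right u).const_mul _)) fun v => ?_
          by_cases hv : ‖v - u‖ < ρ
          · have hm : v - u ∈ ball (0 : E d) ρ := mem_ball_zero_iff.2 hv
            simp only [indicator_of_mem hm, add_sub_cancel]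
            have h1 : ‖e‖ ^ 2 ≤ ⟪e, b v⟫ + ‖e‖ * ‖b v - e‖ := by
              have h2 : ⟪e, b v - e⟫ = ⟪e, b v⟫ - ‖e‖ ^ 2 := by
                rw [inner_sub_right, real_inner_self_eq_norm_sq]
              have h3 := abs_real_inner_le_norm e (b v - e)
              have h4 := neg_abs_le ⟪e, b v - e⟫
              linarith
            have h5 := mul_le_mul_of_nonneg_left h1 (kr_nonneg hρ0 (u - v))
            have h6 := mul_le_mul_of_nonneg_right (kr_le hρ0 (u - v)).1
              (mul_nonneg (norm_nonneg e) (norm_nonneg (b v - e)))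
            nlinarith
          · have hm : v - u ∉ ball (0 : E d) ρ := fun hh => hv (mem_ball_zero_iff.1 hh)
            simp only [kr_off_av hρ0 hv, zero_mul, indicator_of_notMem hm, mul_zero, add_zero,
              le_refl]
  rcases (norm_nonneg e).eq_or_lt with h0 | h0
  · rw [← h0]
    positivity
  · refine le_of_mul_le_mul_left ?_ h0
    nlinarith

/-- The translation estimate for vector valued maps. -/
theorem transl_avt {b : E d → H} (hb : ContDiff ℝ 1 b) (hc : HasCompactSupport b) (z : E d)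
    (r : ℝ) : ∫ x in ball (0 : E d) r, ‖b (x + z) - b x‖ ^ 2 ≤
      Module.finrank ℝ H * (‖z‖ ^ 2 * ∫ x in ball (0 : E d) (r + ‖z‖), ‖fderiv ℝ b x‖ ^ 2) := by
  have hbc := hb.continuous
  have hdc : Continuous (fderiv ℝ b) := hb.continuous_fderiv one_ne_zero
  let e := stdOrthonormalBasis ℝ H
  have h1 : ∀ i, ∫ x in ball (0 : E d) r, (⟪e i, b (x + z)⟫ - ⟪e i, b x⟫) ^ 2 ≤
      ‖z‖ ^ 2 * ∫ x in ball (0 : E d) (r + ‖z‖), ‖fderiv ℝ b x‖ ^ 2 := fun i => by
    have c1 : ContDiff ℝ 1 fun x => innerSL ℝ (e i) (b x) := (innerSL ℝ (e i)).contDiff.comp hb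
    have c2 : HasCompactSupport fun x => innerSL ℝ (e i) (b x) :=
      hc.comp_left (g := innerSL ℝ (e i)) (map_zero _)
    obtain ⟨K, hK⟩ := c1.lipschitzWith_of_hasCompactSupport c2 one_ne_zero
    refine (LG.transl_est hK 0 z r).trans (mul_le_mul_of_nonneg_left ?_ (sq_nonneg _))
    refine setIntegral_mono_on (LG.intOn_grad_poin hK _ _)
      (LG.intOn_cont_poin (by fun_prop) _ _) measurableSet_ball fun x _ => ?_
    refine pow_le_pow_left₀ (norm_nonneg _) ?_ 2
    have h2 : fderiv ℝ (fun x => innerSL ℝ (e i) (b x)) x =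
        (innerSL ℝ (e i)).comp (fderiv ℝ b x) :=
      ((innerSL ℝ (e i)).hasFDerivAt.comp x
        (hb.differentiable one_ne_zero x).hasFDerivAt).fderiv
    rw [LG.norm_grad_eq, h2]
    refine (ContinuousLinearMap.opNorm_comp_le _ _).trans ?_
    rw [innerSL_apply_norm, e.orthonormal.1 i, one_mul]
  have h2 : ∫ x in ball (0 : E d) r, ‖b (x + z) - b x‖ ^ 2 =
      ∑ i, ∫ x in ball (0 : E d) r, (⟪e i, b (x + z)⟫ - ⟪e i, b x⟫) ^ 2 := by
    rw [← integral_finsetSum _ fun i _ => LG.intOn_cont_poin (by fun_prop) 0 r]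
    refine integral_congr_ae (Eventually.of_forall fun x => ?_)
    simp only [← inner_sub_right]
    exact (e.sum_sq_inner_right _).symm
  rw [h2]
  refine (Finset.sum_le_sum fun i _ => h1 i).trans ?_
  rw [Finset.sum_const, Finset.card_univ, Fintype.card_fin, nsmul_eq_mul]

/-- Integration of a bound by local energies. -/
theorem loc_avt {D : CD d α H} {c : E d} {R δ M : ℝ} (h : CV D c R δ M) {G : E d → ℝ}
    (hG : Continuous G) (h0 : ∀ w, 0 ≤ G w) {σ ρ' s C : ℝ} (hρ' : 0 < ρ') (hC : 0 ≤ C)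
    (hs : σ + ρ' ≤ s) (hb : ∀ w : E d, ‖w‖ < σ → G w ≤ C * (D.En w ρ' / ρ' ^ d)) :
    ∫ w in ball (0 : E d) σ, G w ≤ C * vb d * D.En 0 s := by
  have := h.fin
  have ie := h.integrable_t.2.2.2.1
  have me : Measurable D.en := h.m_t.add (h.m_y.norm.pow_const 2)
  have e0 : ∀ᵐ a ∂D.m, 0 ≤ D.en a := h.ae_pw.mono fun a ha => add_nonneg ha.t_nonneg (sq_nonneg _)
  have hE : ∀ (w : E d) (t : ℝ), ENNReal.ofReal (D.En w t) =
      ∫⁻ a in D.cyl w t, ENNReal.ofReal (D.en a) ∂D.m := fun w t =>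
    ofReal_integral_eq_lintegral_ofReal ie.integrableOn (ae_restrict_of_ae e0)
  have hv := LG.vb_pos d
  have hE0 := (h.nonneg 0 s).2.2.2.1
  refine (ENNReal.ofReal_le_ofReal_iff (by positivity)).1 ?_
  rw [ofReal_integral_eq_lintegral_ofReal (LG.intOn_cont_poin hG 0 σ)
    (Eventually.of_forall fun w => h0 w)]
  have hsw := swap_ball (μ := D.m.restrict (D.cyl 0 s)) h.m_x me.ennreal_ofReal hρ'
  have hρd : 0 < ρ' ^ d := by positivity
  calc ∫⁻ w in ball (0 : E d) σ, ENNReal.ofReal (G w)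
      ≤ ∫⁻ w in ball (0 : E d) σ, ENNReal.ofReal (C / ρ' ^ d) *
          ∫⁻ a in {a | ‖D.x a - w‖ < ρ'}, ENNReal.ofReal (D.en a) ∂D.m.restrict (D.cyl 0 s) := by
        refine setLIntegral_mono' measurableSet_ball fun w hw => ?_
        rw [mem_ball_zero_iff] at hw
        have hsub : D.cyl w ρ' ⊆ D.cyl 0 s := cyl_sub D (by rw [sub_zero]; linarith)
        have e1 : (D.m.restrict (D.cyl 0 s)).restrict {a | ‖D.x a - w‖ < ρ'} =
            D.m.restrict (D.cyl w ρ') := Measure.restrict_restrict_of_subset hsub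
        rw [e1, ← hE, ← ENNReal.ofReal_mul (by positivity)]
        refine ENNReal.ofReal_le_ofReal ((hb w hw).trans_eq ?_)
        ring
    _ ≤ ∫⁻ w, ENNReal.ofReal (C / ρ' ^ d) *
          ∫⁻ a in {a | ‖D.x a - w‖ < ρ'}, ENNReal.ofReal (D.en a) ∂D.m.restrict (D.cyl 0 s) :=
        setLIntegral_le_lintegral _ _
    _ = ENNReal.ofReal (C * vb d * D.En 0 s) := by
        rw [lintegral_const_mul' _ _ ENNReal.ofReal_ne_top, hsw, ← hE,
          ← ENNReal.ofReal_mul (by positivity), ← ENNReal.ofReal_mul (by positivity)]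
        congr 1
        field_simp

theorem av_transfer (d : ℕ) (M : ℝ) : ∃ C : ℝ, 0 < C ∧ ∀ (D : CD d α H) (R δ lam ρ ρ' r β : ℝ),
    CV D 0 R δ M → δ ≤ 1 / 10 → Ht D lam → 0 < lam → 2 * lam ≤ ρ' → ρ' ≤ ρ → 0 ≤ r →
    r + 3 * ρ ≤ R → 0 ≤ β → (∀ v : E d, ‖v‖ ≤ r + ρ → ‖D.av ρ D.y v‖ ≤ β) →
    ∫ u in ball (0 : E d) r, (max (‖D.av ρ' D.y u‖ - β) 0) ^ 2 ≤ C * ρ ^ 2 * D.En 0 (r + 2 * ρ) ∧
      ∫ u in ball (0 : E d) r, ‖D.av ρ' D.y u‖ ≤
        C * (β * r ^ d + ρ * √(r ^ d * D.En 0 (r + 2 * ρ))) := by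
  obtain ⟨C1, hC1, hg⟩ := grad_av_y (α := α) (H := H) d M
  have hv := LG.vb_pos d
  have hk : 0 < Ck d := zero_lt_one.trans_le (one_le_Ck d)
  obtain ⟨C2, hC2⟩ : ∃ C2 : ℝ, C2 = Ck d ^ 2 * vb d ^ 3 * Module.finrank ℝ H * C1 := ⟨_, rfl⟩
  have hC20 : 0 ≤ C2 := by rw [hC2]; positivity
  refine ⟨C2 + vb d + √(vb d * C2), by positivity, ?_⟩
  intro D R δ lam ρ ρ' r β h hδ hs hl hl' hρ hr hR hβ hb
  have hρ' : 0 < ρ' := by linarith
  have hρ0 : 0 < ρ := by linarith
  have hE0 := (h.nonneg 0 (r + 2 * ρ)).2.2.2.1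
  have hsq := Real.sqrt_nonneg (vb d * C2)
  rcases hr.eq_or_lt with rfl | hr0
  · rw [ball_zero, Measure.restrict_empty, integral_zero_measure, integral_zero_measure]
    exact ⟨by positivity, by positivity⟩
  have iy := h.integrable_t.2.2.2.2.2.1
  obtain ⟨s1, s2, -⟩ := h.av_smooth hρ' iy
  set b := D.av ρ' D.y with hbdef
  set En := D.En 0 (r + 2 * ρ) with hEn
  have hb1 : ContDiff ℝ 1 b := s1.of_le (by norm_num)
  have hbc : Continuous b := hb1.continuous
  have hdc : Continuous (fderiv ℝ b) := hb1.continuous_fderiv one_ne_zero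
  have hG : ∫ w in ball (0 : E d) (r + ρ), ‖fderiv ℝ b w‖ ^ 2 ≤ C1 * vb d * En :=
    loc_avt h (by fun_prop) (fun w => sq_nonneg _) hρ' hC1.le (by linarith) fun w hw =>
      hg D R δ lam ρ' h hδ hs hl hl' w (by linarith)
  obtain ⟨B, hB⟩ := hbc.bounded_above_of_compact_support s2
  obtain ⟨w1, w2⟩ := LG.swap_poin (Φ := fun y z : E d => ‖b (y + z) - b y‖ ^ 2)
    (Continuous.measurable (by fun_prop)) (c := 0) (r := r) (ρ := ρ) (M := (2 * B) ^ 2)
    (N := Module.finrank ℝ H * (ρ ^ 2 * (C1 * vb d * En))) hρ0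
    (fun y _ z _ => by
      rw [abs_of_nonneg (sq_nonneg _)]
      refine pow_le_pow_left₀ (norm_nonneg _) ((norm_sub_le _ _).trans ?_) 2
      linarith [hB (y + z), hB y])
    (fun z hz => by
      rw [mem_ball_zero_iff] at hz
      refine (transl_avt hb1 s2 z r).trans (mul_le_mul_of_nonneg_left ?_ (Nat.cast_nonneg _))
      refine mul_le_mul (pow_le_pow_left₀ (norm_nonneg _) hz.le 2) (le_trans ?_ hG)
        (integral_nonneg fun x => sq_nonneg _) (sq_nonneg _)
      exact setIntegral_mono_set (LG.intOn_cont_poin (by fun_prop) _ _)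
        (Eventually.of_forall fun x => sq_nonneg _)
        (ball_subset_ball (by linarith)).eventuallyLE)
  have hρd : 0 < ρ ^ d := by positivity
  have hmc : Continuous fun u => max (‖b u‖ - β) 0 := by fun_prop
  have p1 : ∫ u in ball (0 : E d) r, (max (‖b u‖ - β) 0) ^ 2 ≤ C2 * ρ ^ 2 * En := by
    calc ∫ u in ball (0 : E d) r, (max (‖b u‖ - β) 0) ^ 2
        ≤ ∫ u in ball (0 : E d) r, Ck d ^ 2 * vb d / ρ ^ d *
            ∫ z in ball (0 : E d) ρ, ‖b (u + z) - b u‖ ^ 2 := by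
          refine setIntegral_mono_on (LG.intOn_cont_poin (hmc.pow 2) _ _) (w1.const_mul _)
            measurableSet_ball fun u hu => ?_
          rw [mem_ball_zero_iff] at hu
          have q1 := point_avt h hρ' hρ hβ u fun v hv => hb v (by
            linarith [norm_sub_norm_le v u])
          have q2 := cs_ball_avt (g := fun z => ‖b (u + z) - b u‖) (by fun_prop) (0 : E d) hρ0
          have q3 : 0 ≤ Ck d / ρ ^ d * ∫ z in ball (0 : E d) ρ, ‖b (u + z) - b u‖ :=
            mul_nonneg (by positivity) (integral_nonneg fun z => norm_nonneg _)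
          have q4 : max (‖b u‖ - β) 0 ≤
              Ck d / ρ ^ d * ∫ z in ball (0 : E d) ρ, ‖b (u + z) - b u‖ :=
            max_le (by linarith) q3
          refine (pow_le_pow_left₀ (le_max_right _ _) q4 2).trans ?_
          rw [mul_pow]
          refine (mul_le_mul_of_nonneg_left q2 (sq_nonneg _)).trans_eq ?_
          field_simp
      _ ≤ Ck d ^ 2 * vb d / ρ ^ d *
            (vb d * ρ ^ d * (Module.finrank ℝ H * (ρ ^ 2 * (C1 * vb d * En)))) := by
          rw [integral_const_mul]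
          exact mul_le_mul_of_nonneg_left w2 (by positivity)
      _ = C2 * ρ ^ 2 * En := by
          rw [hC2]
          field_simp
  have hrd : 0 < r ^ d := by positivity
  refine ⟨p1.trans ?_, ?_⟩
  · have : 0 ≤ (vb d + √(vb d * C2)) * ρ ^ 2 * En := by positivity
    nlinarith
  · have p2 : ∫ u in ball (0 : E d) r, max (‖b u‖ - β) 0 ≤ √(vb d * C2) * (ρ * √(r ^ d * En)) := by
      refine (abs_le_of_sq_le_sq' ?_ (by positivity)).2
      refine (cs_ball_avt hmc (0 : E d) hr0).trans ?_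
      rw [mul_pow, mul_pow, Real.sq_sqrt (by positivity), Real.sq_sqrt (by positivity)]
      refine (mul_le_mul_of_nonneg_left p1 (by positivity)).trans_eq ?_
      ring
    have p3 : ∫ u in ball (0 : E d) r, ‖b u‖ ≤
        vb d * r ^ d * β + ∫ u in ball (0 : E d) r, max (‖b u‖ - β) 0 := by
      rw [← LG.vol_ball (0 : E d) hr0, ← smul_eq_mul, ← setIntegral_const,
        ← integral_add (LG.intOn_cont_poin continuous_const _ _) (LG.intOn_cont_poin hmc _ _)]
      refine integral_mono (LG.intOn_cont_poin hbc.norm _ _)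
        ((LG.intOn_cont_poin continuous_const _ _).add (LG.intOn_cont_poin hmc _ _)) fun u => ?_
      have := le_max_left (‖b u‖ - β) 0
      change ‖b u‖ ≤ β + max (‖b u‖ - β) 0
      linarith
    have t1 : 0 ≤ β * r ^ d := by positivity
    have t2 : 0 ≤ ρ * √(r ^ d * En) := by positivity
    nlinarith [mul_nonneg hC20 t1, mul_nonneg hC20 t2, mul_nonneg hv.le t2, mul_nonneg hsq t1]

end Pool.Agent.Lib.MP_8daebb_an.GM
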