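import Pool.Agent.Lib.MP_8daebb_an.GM.Df3

/-! Numerical lemmas for the change of the centre. -/

set_option linter.unusedSectionVars false
set_option linter.unusedVariables false

open MeasureTheory Metric Filter Topology Set
open scoped RealInnerProductSpace ENNReal ContDiff

namespace Pool.Agent.Lib.MP_8daebb_an.GM

open LG (vb chi om trS)
open SV (ux)

variable {d : ℕ} {α : Type*} [MeasurableSpace α] {H : Type*} [NormedAddCommGroup H]
  [InnerProductSpace ℝ H] [FiniteDimensional ℝ H] [MeasurableSpace H] [BorelSpace H]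

theorem ux_div_switch (L a b : ℝ) : ux L a / ux L b = ux L (a - b) := by
  rw [div_eq_mul_inv, ux_inv, ← ux_add, sub_eq_add_neg]

theorem small_switch {L c a a' : ℝ} (hL : 0 ≤ L) (hc : c ≤ L) (h : a + 1 ≤ a') :
    c * ux L a' ≤ ux L a := by
  have h1 : ux L a' ≤ ux L a * ux L 1 := by
    rw [← ux_add]
    exact ux_anti hL h
  have h2 : L * ux L 1 ≤ 1 := by
    unfold ux
    rw [one_mul, Real.exp_neg, ← div_eq_mul_inv, div_le_one (Real.exp_pos L)]
    linarith [Real.add_one_le_exp L]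
  have h3 := ux_pos L a
  have h4 := ux_pos L a'
  calc c * ux L a' ≤ L * ux L a' := mul_le_mul_of_nonneg_right hc h4.le
    _ ≤ L * (ux L a * ux L 1) := mul_le_mul_of_nonneg_left h1 hL
    _ = ux L a * (L * ux L 1) := by ring
    _ ≤ ux L a * 1 := mul_le_mul_of_nonneg_left h2 h3.le
    _ = ux L a := mul_one _

theorem inv_switch {L c a a' : ℝ} (hL : 0 ≤ L) (hc : 0 < c) (h3 : c⁻¹ ≤ L) (h4 : a + 1 ≤ a') :
    ux L a' ≤ c * ux L a := by
  have h5 := small_switch hL h3 h4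
  rwa [inv_mul_le_iff₀ hc] at h5

theorem half_switch {L κ a a' : ℝ} (hL : 0 ≤ L) (h : 1 ≤ κ * L) (h' : a + κ ≤ a') :
    2 * ux L a' ≤ ux L a := by
  have h1 : 2 * ux L κ ≤ 1 := by
    unfold ux
    rw [Real.exp_neg, ← div_eq_mul_inv, div_le_one (Real.exp_pos _)]
    linarith [Real.add_one_le_exp (κ * L)]
  have h2 : ux L a' ≤ ux L a * ux L κ := by
    rw [← ux_add]
    exact ux_anti hL h'
  have h3 := mul_le_mul_of_nonneg_left h1 (ux_pos L a).le
  linarith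

/-- Linear consequences of the conditions on the exponents. -/
theorem par_switch {d KN : ℕ} {A b g κ : ℝ} (hP : Par d KN A b g) (hκ : 0 < κ) (hA : A * κ = 1) :
    (0 : ℝ) ≤ d ∧ (0 : ℝ) ≤ KN ∧ 14 * (d : ℝ) + 40 ≤ A ∧ 0 ≤ KN * b ∧ 36 * (KN : ℝ) ≤ 4 * (KN * b) ∧
      0 ≤ d * κ ∧ 0 ≤ KN * κ ∧ 0 ≤ g * κ ∧ 0 ≤ b * κ ∧ 0 ≤ KN * b * κ ∧ 14 * (d * κ) + 40 * κ ≤ 1 ∧
      4 * (b * κ) ≤ 1 ∧ 4 * (KN * b * κ) ≤ 1 ∧ 36 * (KN * κ) ≤ 1 ∧ 4 * (g * κ) ≤ 1 := by
  have h1 : (0 : ℝ) ≤ d := Nat.cast_nonneg d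
  have h2 : (0 : ℝ) ≤ KN := Nat.cast_nonneg KN
  obtain ⟨p1, p2, p3, p4, p5⟩ := hP
  have h3 : 14 * (d : ℝ) + 40 ≤ A := by nlinarith [sq_nonneg (d : ℝ)]
  have h4 : 9 ≤ b := by linarith
  have h5 : (KN : ℝ) * 9 ≤ KN * b := mul_le_mul_of_nonneg_left h4 h2
  have h6 := mul_le_mul_of_nonneg_right h3 hκ.le
  have h7 := mul_le_mul_of_nonneg_right p3 hκ.le
  have h8 := mul_le_mul_of_nonneg_right (show 4 * (KN * b) ≤ A by linarith) hκ.le
  have h9 := mul_le_mul_of_nonneg_right h5 hκ.le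
  have h10 := mul_le_mul_of_nonneg_right (show g ≤ b by linarith) hκ.le
  have h11 : 0 ≤ g := by linarith
  have h12 : 0 ≤ b := by linarith
  refine ⟨h1, h2, h3, by positivity, by linarith, by positivity, by positivity, by positivity,
    by positivity, by positivity, by linarith, by linarith, by linarith, by linarith, by linarith⟩

/-- Sizes of the lengths. -/
theorem numA_switch {d KN : ℕ} {A b g κ L cN Cq : ℝ} (hP : Par d KN A b g) (hκ : 0 < κ)
    (hA : A * κ = 1) (hL : 17 ≤ L) (hκL : 1 ≤ κ / 2 * L) (hcN : 0 < cN) (h2 : cN⁻¹ ≤ L)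
    (h3 : Cq ≤ L) :
    ux L 1 * ux L κ = ux (L * (1 + κ)) 1 ∧ ux L A ≤ ux (L * (1 + κ)) (A - 2) ∧
      2 * ux (L * (1 + κ)) (A / 2 - d - 2) ≤ ux (L * (1 + κ)) b ∧
      ux (L * (1 + κ)) b ≤ ux L b ∧ 3 * ux L b ≤ ux (L * (1 + κ)) 2 ∧
      17 * ux (L * (1 + κ)) (A / 2 - 2 * d - 5) ≤ ux (L * (1 + κ)) 2 ∧
      Cq * ux L A ≤ ux (L * (1 + κ)) (A / 2 - d - 2) ∧
      ux L A ≤ ux (L * (1 + κ)) (A / 4 - d / 2 - 1) ^ 4 ∧
      ux (L * (1 + κ)) (A / 4 - d / 2 - 1) ≤ ux (L * (1 + κ)) b ^ KN ∧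
      ux (L * (1 + κ)) b ≤ cN * ux (L * (1 + κ)) 2 ∧
      ux L (A / 2 + 2 * d + 5) ≤ cN * ux (L * (1 + κ)) b ^ KN ∧
      ux (L * (1 + κ)) 1 + ux L (A / 2 + 2 * d + 5) ≤ ux L 1 ∧
      ux L (A / 2 + 2 * d + 5) ≤ ux (L * (1 + κ)) 2 ∧ ux L A ≤ 1 ∧
      2 * ux (L * (1 + κ)) (A + 1) ≤ ux L (A + 2 + κ / 2) ∧
      2 * ux L (A + 3 / 2) ≤ ux (L * (1 + κ)) A ∧ ux (L * (1 + κ)) 1 ≤ ux L 1 := by
  have hL0 : 0 ≤ L := by linarith
  obtain ⟨q1, q2, q3, q4, q5, q6, q7, q8, q9, q10, q11, q12, q13, q14, q15⟩ := par_switch hP hκ hA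
  obtain ⟨p1, p2, p3, p4, -⟩ := hP
  simp only [ux_mul, ux_pow, ← ux_add]
  push_cast
  refine ⟨by rw [one_mul], ux_anti hL0 (by linarith), small_switch hL0 (by linarith) (by linarith),
    ux_anti hL0 (by linarith), small_switch hL0 (by linarith) (by linarith),
    small_switch hL0 hL (by linarith), small_switch hL0 h3 (by linarith),
    ux_anti hL0 (by linarith), ?_, inv_switch hL0 hcN h2 (by linarith),
    inv_switch hL0 hcN h2 (by linarith), ?_, ux_anti hL0 (by linarith),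
    ux_le_one hL0 (by linarith), half_switch hL0 hκL (by linarith),
    half_switch (κ := 1 / 2) hL0 (by linarith) (by linarith), ux_anti hL0 (by linarith)⟩
  · refine ux_anti hL0 ?_
    have := mul_le_mul_of_nonneg_right (show KN * b ≤ A / 4 - d / 2 - 1 by linarith)
      (show 0 ≤ 1 + κ by linarith)
    linarith
  · have h4 := half_switch (a := 1) (a' := 1 * (1 + κ)) hL0 hκL (by linarith)
    have h5 := small_switch (c := 2) (a := 1) (a' := A / 2 + 2 * d + 5) hL0 (by linarith)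
      (by linarith)
    linarith

/-- Sizes of the errors. -/
theorem numB_switch {d KN : ℕ} {A b g κ L Ct CN Cc : ℝ} (hP : Par d KN A b g) (hκ : 0 < κ)
    (hA : A * κ = 1) (hL : 8 ≤ L) (hCt : 0 < Ct) (h1 : |CN| * (2 * Ct + 1) * ux L (1 / 2) ≤ 1)
    (h2 : 2 * |CN| ≤ L) (hCc : 0 < Cc) (h3 : 2 * Cc ≤ L) :
    ux L b * √(ux L A) ≤ ux L (A / 2 + g) ∧
      CN * (2 * Ct * ux L (A / 2 + g) + ux (L * (1 + κ)) (A / 2 - d - 2) * ux (L * (1 + κ)) b) /
        ux (L * (1 + κ)) 2 ^ KN ≤ ux L (A / 2 + 2 * d + 5) ∧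
      4 * ux L A + Cc * ux L (A / 2 + 2 * d + 5) ^ 2 ≤ ux (L * (1 + κ)) (A - 2) ∧
      CN * ux (L * (1 + κ)) b * (ux (L * (1 + κ)) (A / 2 - d - 2) + ux L (A / 2 + 2 * d + 5)) /
        ux (L * (1 + κ)) 2 ^ KN ≤ ux (L * (1 + κ)) (A / 2 + g) ∧
      ∀ r, ux (L * (1 + κ)) 1 ≤ r →
        Cc * ux L (A / 2 + 2 * d + 5) * (√(ux L A) + ux L (A / 2 + 2 * d + 5)) / r ^ (d + 1) ≤
          2 * Cc * ux L 1 * ux L (A + 2 + κ / 2) := by
  have hL0 : 0 ≤ L := by linarith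
  obtain ⟨q1, q2, q3, q4, q5, q6, q7, q8, q9, q10, q11, q12, q13, q14, q15⟩ := par_switch hP hκ hA
  obtain ⟨p1, p2, p3, p4, -⟩ := hP
  have hCN := le_abs_self CN
  have hCN0 := abs_nonneg CN
  have P := ux_pos L
  simp only [ux_mul, ux_pow, ← ux_add, ux_sqrt]
  push_cast
  refine ⟨ux_anti hL0 (by linarith), ?_, ?_, ?_, fun r hr => ?_⟩
  · rw [div_le_iff₀ (P _), ← ux_add]
    have a1 : ux L ((A / 2 - d - 2) * (1 + κ) + b * (1 + κ)) ≤ ux L (A / 2 + g) :=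
      ux_anti hL0 (by linarith)
    have a2 : ux L (A / 2 + g) ≤
        ux L (1 / 2) * ux L (A / 2 + 2 * d + 5 + KN * (2 * (1 + κ))) := by
      rw [← ux_add]
      exact ux_anti hL0 (by linarith)
    have a3 := P ((A / 2 - d - 2) * (1 + κ) + b * (1 + κ))
    have a4 := P (A / 2 + g)
    have a5 := mul_le_mul_of_nonneg_right h1 (P (A / 2 + 2 * d + 5 + KN * (2 * (1 + κ)))).le
    calc _ ≤ |CN| * (2 * Ct * ux L (A / 2 + g) +
            ux L ((A / 2 - d - 2) * (1 + κ) + b * (1 + κ))) :=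
          mul_le_mul_of_nonneg_right hCN (by positivity)
      _ ≤ |CN| * ((2 * Ct + 1) * ux L (A / 2 + g)) := mul_le_mul_of_nonneg_left (by linarith) hCN0
      _ ≤ |CN| * ((2 * Ct + 1) *
            (ux L (1 / 2) * ux L (A / 2 + 2 * d + 5 + KN * (2 * (1 + κ))))) := by gcongr
      _ ≤ _ := by linarith
  · have a1 := small_switch (a := (A - 2) * (1 + κ)) (a' := A) hL0 hL (by linarith)
    have a2 := small_switch (a := (A - 2) * (1 + κ)) (a' := 2 * (A / 2 + 2 * d + 5)) hL0 h3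
      (by linarith)
    linarith
  · rw [div_le_iff₀ (P _), ← ux_add]
    have a1 : ux L (A / 2 + 2 * d + 5) ≤ ux L ((A / 2 - d - 2) * (1 + κ)) :=
      ux_anti hL0 (by linarith)
    have a0 := mul_le_mul_of_nonneg_right
      (show A / 2 + g + KN * 2 + 1 ≤ b + (A / 2 - d - 2) by linarith) (show 0 ≤ 1 + κ by linarith)
    have a2 := small_switch (a := (A / 2 + g) * (1 + κ) + KN * (2 * (1 + κ)))
      (a' := b * (1 + κ) + (A / 2 - d - 2) * (1 + κ)) hL0 h2 (by linarith)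
    rw [ux_add L (b * (1 + κ))] at a2
    have a3 := P ((A / 2 - d - 2) * (1 + κ))
    have a4 := P (A / 2 + 2 * d + 5)
    have a5 := P (b * (1 + κ))
    calc _ ≤ |CN| * ux L (b * (1 + κ)) *
            (ux L ((A / 2 - d - 2) * (1 + κ)) + ux L (A / 2 + 2 * d + 5)) :=
          mul_le_mul_of_nonneg_right (mul_le_mul_of_nonneg_right hCN a5.le) (by linarith)
      _ ≤ |CN| * ux L (b * (1 + κ)) * (2 * ux L ((A / 2 - d - 2) * (1 + κ))) :=
          mul_le_mul_of_nonneg_left (by linarith) (mul_nonneg hCN0 a5.le)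
      _ ≤ _ := by linarith
  · have a0 := P (1 * (1 + κ))
    have a1 : ux L (d + 2 - κ / 2) ≤ r ^ (d + 1) := by
      refine le_trans ?_ (pow_le_pow_left₀ a0.le hr (d + 1))
      rw [ux_pow]
      exact ux_anti hL0 (by push_cast; linarith)
    have a2 : ux L (A / 2 + 2 * d + 5) ≤ ux L (A / 2) := ux_anti hL0 (by linarith)
    have a3 : ux L (A / 2 + 2 * d + 5) * ux L (A / 2) ≤
        ux L 1 * ux L (A + 2 + κ / 2) * ux L (d + 2 - κ / 2) := by
      simp only [← ux_add]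
      exact ux_anti hL0 (by linarith)
    have a4 := P (A / 2 + 2 * d + 5)
    have a5 := P 1
    have a6 := P (A + 2 + κ / 2)
    rw [div_le_iff₀ ((P _).trans_le a1)]
    calc _ ≤ Cc * ux L (A / 2 + 2 * d + 5) * (2 * ux L (A / 2)) :=
          mul_le_mul_of_nonneg_left (by linarith) (mul_pos hCc a4).le
      _ ≤ 2 * Cc * ux L 1 * ux L (A + 2 + κ / 2) * ux L (d + 2 - κ / 2) := by
          have := mul_le_mul_of_nonneg_left a3 hCc.le
          linarith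
      _ ≤ _ := mul_le_mul_of_nonneg_left a1 (by positivity)

theorem freq_switch {t t' h h' e η B' L : ℝ} (hL : 1 ≤ L) (hB : 1 ≤ B') (hh : 0 < h)
    (hη : 0 ≤ η) (hs : 3 * η ≤ 1 / L) (he : e ≤ η * h) (h1 : h - e ≤ h')
    (h2 : t' ≤ t + e) (h3 : t ≤ B' * h) : t' ≤ B' * Real.exp (1 / L) * h' := by
  have hx : 1 / L ≤ 1 := by
    rw [div_le_one (by linarith)]
    exact hL
  have hx0 : 0 ≤ 1 / L := by positivity
  have a1 := Real.add_one_le_exp (1 / L)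
  have a2 : (1 - η) * h ≤ h' := by linarith
  have a3 : 0 ≤ (1 - η) * h := mul_nonneg (by linarith) hh.le
  have a4 : (1 / L + 1) * ((1 - η) * h) ≤ Real.exp (1 / L) * h' :=
    mul_le_mul a1 a2 a3 (Real.exp_pos _).le
  have a5 : 1 + η ≤ (1 / L + 1) * (1 - η) := by nlinarith
  have a6 : (1 + η) * h ≤ Real.exp (1 / L) * h' := by
    have := mul_le_mul_of_nonneg_right a5 hh.le
    linarith
  have a7 := mul_le_mul_of_nonneg_left a6 (by linarith : 0 ≤ B')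
  have a8 : 1 * (η * h) ≤ B' * (η * h) := mul_le_mul_of_nonneg_right hB (by positivity)
  linarith

end Pool.Agent.Lib.MP_8daebb_an.GM
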