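import Pool.Agent.Lib.MP_8daebb_an.GM.MsOf
import Pool.Agent.Lib.MP_8daebb_an.GM.CmpM
import Pool.Agent.Lib.MP_8daebb_an.GM.AvT
import Pool.Agent.Lib.MP_8daebb_an.GM.SwitchX

/-! The change of the centre at the end of a stage. -/

set_option linter.unusedSectionVars false
set_option linter.unusedVariables false

open MeasureTheory Metric Filter Topology Set
open scoped RealInnerProductSpace ENNReal ContDiff

namespace Pool.Agent.Lib.MP_8daebb_an.GM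

open LG (vb chi om trS)
open SV (ux)

variable {d : ℕ} {α : Type*} [MeasurableSpace α] {H : Type*} [NormedAddCommGroup H]
  [InnerProductSpace ℝ H] [FiniteDimensional ℝ H] [MeasurableSpace H] [BorelSpace H]

theorem rad_switch {r r' q R u u' l ρ ρ' ρM e R₁ R' : ℝ}
    (hρ : 0 < ρ') (hρM : 0 < ρM) (he : 0 < e) (h1 : 44 * l ≤ q) (h2 : q ≤ r') (h3 : r' + 2 * q ≤ r)
    (h4 : r ≤ 1) (h5 : r ≤ R) (h8 : ρ' ≤ ρ) (h9 : 3 * ρ ≤ l) (h10 : 17 * ρM ≤ l)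
    (h11 : u' + e ≤ u) (h12 : e ≤ l)
    (hR₁ : R₁ = r' + 3 / 2 * q - l) (hR' : R' = R₁ - 8 * l) :
    0 < R ∧ r' + 3 / 2 * q ≤ R ∧ R₁ ≤ R ∧ R₁ ≤ r' + 3 / 2 * q ∧ 0 < R₁ - l ∧ R₁ - l ≤ 1 ∧
      R₁ - l + 17 * ρM ≤ R₁ ∧ R₁ - l + 9 * ρM ≤ R₁ ∧ R₁ - l + 3 * ρ ≤ R₁ ∧ R₁ - l + 2 * ρ ≤ R₁ ∧
      (∀ x, x ≤ R₁ - l + ρ → x + ρ ≤ R₁ ∧ x ≤ r) ∧ (∀ x, x < R₁ - l → x + ρ' ≤ R₁) ∧
      16 * l ≤ R₁ ∧ (∀ x, x - u + e ≤ x - u') ∧ R' ≤ 2 ∧ 0 < R' ∧ e ≤ r' ∧ r' + q ≤ 1 ∧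
      r' + q + 2 * e ≤ R' ∧ R' + e ≤ R ∧ R' + e ≤ r' + 3 / 2 * q ∧ r' + 5 / 4 * q ≤ R' ∧
      r' ≤ R₁ - 9 * l := by
  subst hR' hR₁
  refine ⟨by linarith, by linarith, by linarith, by linarith, by linarith, by linarith,
    by linarith, by linarith, by linarith, by linarith, fun x hx => ⟨by linarith, by linarith⟩,
    fun x hx => by linarith, by linarith, fun x => by linarith, by linarith, by linarith,
    by linarith, by linarith, by linarith, by linarith, by linarith, by linarith, by linarith⟩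

theorem switch {C : Type*} (d : ℕ) (M θ : ℝ) {CI δg cg : ℝ} (hCI : 0 ≤ CI) (hδg : 0 < δg)
    (hcg : 0 < cg) (hcg1 : cg ≤ 1 / 2) (hG : GlobOK d α H M CI δg cg) : ∃ δ₀ : ℝ, 0 < δ₀ ∧
    ∀ (KN : ℕ) (A b g CN cN : ℝ) (p : ℕ), Par d KN A b g → 0 < cN → ∃ L₀ : ℝ,
    ∀ (Adm : C → ℝ → ℝ → Prop) (ch : C → ℝ → CD d α H) (δ ε₁ εB δ₂ : ℝ),
    Sys Adm ch M θ δ ε₁ εB δ₂ ⌊θ + 1 / 2⌋₊ CN cN KN → δ ≤ δ₀ →
    ∀ (K B B' L r r' : ℝ) (c : C) (R : ℝ), L₀ ≤ L → 1 ≤ K → K ≤ L ^ p → 1 ≤ B' →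
    State Adm ch ε₁ A b g L r K B c R → Out (ch c R) A L r K B' r' →
    ∃ c' R', State Adm ch ε₁ A b g (L * (1 + 1 / A)) r' K (B' * Real.exp (1 / L)) c' R' := by
  obtain ⟨δ₀, hδ₀, hδ₁, hlev⟩ := lev_of_en (α := α) (H := H) (C := C) d M θ hCI hδg hcg hcg1 hG
  obtain ⟨Ct, hCt, hat⟩ := av_transfer (α := α) (H := H) d M
  obtain ⟨Cc, hCc, hcm⟩ := cmp_m (α := α) (H := H) d M
  obtain ⟨Cq, hCq, hmq⟩ := mass_near_Q (α := α) (H := H) d hCI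
  refine ⟨δ₀, hδ₀, fun KN A b g CN cN p hP hcN => ?_⟩
  obtain ⟨L₁, hlev⟩ := hlev KN A b g cN hP hcN
  obtain ⟨L₂, -, hs2⟩ := ux_small 44 p (κ := 1) one_pos
  obtain ⟨L₃, -, hs3⟩ := ux_small (|CN| * (2 * Ct + 1)) 0 (κ := 1 / 2) one_half_pos
  obtain ⟨L₄, -, hs4⟩ := ux_small (6 * Cc) 1 (κ := 1) one_pos
  refine ⟨max (max (max L₁ L₂) (max L₃ L₄)) (2 * A + cN⁻¹ + Cq + 2 * |CN| + 2 * Cc), ?_⟩
  intro Adm ch δ ε₁ εB δ₂ hS hδ K B B' L r r' c R hL hK hKp hB' hst hout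
  obtain ⟨⟨⟨hL1, hL2⟩, hL3, hL4⟩, hL5⟩ :
      ((L₁ ≤ L ∧ L₂ ≤ L) ∧ L₃ ≤ L ∧ L₄ ≤ L) ∧ 2 * A + cN⁻¹ + Cq + 2 * |CN| + 2 * Cc ≤ L := by
    simpa only [max_le_iff] using hL
  have hδt : δ ≤ 1 / 10 := hδ.trans hδ₁
  have hδh : δ ≤ 1 / 2 := by linarith only [hδt]
  have i2 := inv_pos.2 hcN
  have i3 := abs_nonneg CN
  have hA40 : 40 ≤ A := by
    have h1 := hP.A_d
    have h2 : (0 : ℝ) ≤ d := Nat.cast_nonneg d
    nlinarith only [h1, h2]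
  have hA0 : 0 < A := by linarith only [hA40]
  have hlo := hout.lo
  have hhge := hout.h_ge
  obtain ⟨κ, hκd⟩ : ∃ κ, κ = 1 / A := ⟨_, rfl⟩
  rw [show 1 / (2 * A) = 1 / A / 2 by field_simp] at hhge
  rw [← hκd] at hlo hhge ⊢
  have hκ : 0 < κ := by
    rw [hκd]
    positivity
  have hA : A * κ = 1 := by
    rw [hκd]
    exact mul_one_div_cancel hA0.ne'
  have hL80 : 80 ≤ L := by linarith only [hL5, hA40, i2, i3, hCq, hCc]
  have hL0 : 0 ≤ L := by linarith only [hL80]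
  have hL6 : 1 ≤ L := by linarith only [hL80]
  have hκL : 1 ≤ κ / 2 * L := by
    have := mul_le_mul_of_nonneg_left (show 2 * A ≤ L by linarith only [hL5, i2, i3, hCq, hCc])
      hκ.le
    linarith only [this, hA]
  have hLL : L ≤ L * (1 + κ) := by linarith only [hκL]
  have hs3' := hs3 L hL3
  rw [pow_zero, mul_one] at hs3'
  obtain ⟨f1, f2, f3, f4, f5, f6, f7, f8, f9, f10, f11, f12, f13, f14, f15, f16, f17⟩ :=
    numA_switch (Cq := Cq) hP hκ hA (by linarith only [hL80]) hκL hcN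
      (by linarith only [hL5, hA0, i3, hCq, hCc]) (by linarith only [hL5, hA0, i2, i3, hCc])
  obtain ⟨g1, g2, g3, g4, g5⟩ := numB_switch (L := L) (CN := CN) hP hκ hA
    (by linarith only [hL80]) hCt hs3' (by linarith only [hL5, hA0, i2, hCq, hCc]) hCc
    (by linarith only [hL5, hA0, i2, i3, hCq])
  obtain ⟨L', hL'⟩ : ∃ L', L' = L * (1 + κ) := ⟨_, rfl⟩
  rw [← hL'] at hLL f1 f2 f3 f4 f5 f6 f7 f8 f9 f10 f11 f12 f13 f15 f16 f17 g2 g3 g4 g5 ⊢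
  have hsq : ux L' (A / 4 - d / 2 - 1) ^ 2 = ux L' (A / 2 - d - 2) := by
    rw [ux_pow]
    congr 1
    push_cast
    ring
  have pu := ux_pos L 1
  have pu' := ux_pos L' 1
  have pρ' := ux_pos L' b
  have pρ := ux_pos L b
  have pJ := ux_pos L (A / 2 + 2 * d + 5)
  have ph := ux_pos L (A + 2 + κ / 2)
  have pβ := ux_pos L (A / 2 + g)
  have pE := ux_pos L A
  have hK0 : 0 < K := one_pos.trans_le hK
  have hbeg := hst.beg
  -- the radii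
  have hr' : ux L' 1 ≤ r' := by
    refine le_trans ?_ hlo
    rw [← f1]
    exact mul_le_mul_of_nonneg_right hbeg.r_ge (ux_pos L κ).le
  have hr0 : 0 < r' := pu'.trans_le hr'
  obtain ⟨q, hq⟩ : ∃ q, q = r' / K := ⟨_, rfl⟩
  have hq0 : 0 < q := by rw [hq]; positivity
  have hq1 : 44 * ux L' 2 ≤ q := by
    rw [hq, le_div_iff₀ hK0, show (2 : ℝ) = 1 + 1 by norm_num, ux_add]
    have h1 : 44 * K * ux L' 1 ≤ 1 :=
      (mul_le_mul (by linarith only [hKp]) f17 pu'.le (by linarith only [hKp, hK])).trans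
        (hs2 L hL2)
    have h2 := mul_le_mul_of_nonneg_right h1 pu'.le
    linarith only [h2, hr']
  have hq2 : q ≤ r' := by rw [hq]; exact div_le_self hr0.le hK
  have e1 : r' * (1 + 1 / K) = r' + q := by rw [hq]; ring
  have e2 : r' * (1 + 2 / K) = r' + 2 * q := by rw [hq]; ring
  have e3 : r' * (1 + 3 / (2 * K)) = r' + 3 / 2 * q := by rw [hq]; field_simp
  have e4 : r' * (1 + 5 / (4 * K)) = r' + 5 / 4 * q := by rw [hq]; field_simp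
  have hi' := hout.hi'
  have hen := hout.en_le
  have hdb := hout.dbl
  rw [e2] at hi'
  rw [e3] at hen
  rw [e1] at hdb
  have hR2 := hst.R_le
  have hrR : r ≤ R := by
    refine le_trans ?_ hst.R_ge
    have : 0 ≤ r * (5 / (4 * K)) :=
      mul_nonneg (by linarith only [hi', hr0, hq0]) (by positivity)
    linarith only [this]
  obtain ⟨R₁, hR₁⟩ : ∃ R₁, R₁ = r' + 3 / 2 * q - ux L' 2 := ⟨_, rfl⟩
  obtain ⟨R', hR'⟩ : ∃ R', R' = R₁ - 8 * ux L' 2 := ⟨_, rfl⟩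
  obtain ⟨n1, n2, n3, n4, n5, n6, n7, n8, n9, n10, n11, n12, n13, n14, n15, n16, n17, n18, n19,
    n20, n21, n22, n23⟩ := rad_switch pρ' (ux_pos L' (A / 2 - 2 * d - 5)) pJ hq1 hq2 hi'
      hbeg.r_le hrR f4 f5 f6 f12 f13 hR₁ hR'
  have hε : 3 * ε₁ - ux L 1 ≤ 3 * ε₁ := sub_le_self _ pu.le
  have hcv := hS.cv c _ R hst.adm hε n1 hR2
  have mono : ∀ σ, σ ≤ r' + 3 / 2 * q → (ch c R).En 0 σ ≤ ux L A := fun σ h =>
    (hcv.cyl_mono (by rwa [sub_self, norm_zero, zero_add])).2.2.2.trans hen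
  -- the old chart at the new level
  obtain ⟨⟨N, hN⟩, -⟩ := hlev Adm ch δ ε₁ εB δ₂ _ CN hS hδ c _ R (r' + 3 / 2 * q) L'
    (hL1.trans hLL) hst.adm hε hR2 n2 (by linarith only [hr', hq0]) (hen.trans f2)
  rw [← hR₁] at hN
  have hms := hN.ms
  have mono' : ∀ σ, σ ≤ R₁ → ((ch c R).resB 0 R₁).En 0 σ ≤ ux L A := fun σ h => by
    rw [(resB_eq (D := ch c R) hcv.m_x (c := 0) (u := 0) (σ := R₁) (r := σ)
      (by rwa [sub_self, norm_zero, zero_add])).2.2.2.2]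
    exact mono σ (h.trans n4)
  have hy : ∀ᵐ a ∂(ch c R).m, a ∈ (ch c R).cyl 0 R₁ →
      ‖(ch c R).y a‖ ≤ ux L' (A / 4 - d / 2 - 1) ^ 2 := by
    have a1 : ∀ᵐ a ∂(ch c R).m.restrict ((ch c R).cyl 0 R₁),
        ‖(ch c R).y a‖ ≤ ux L' (A / 2 - d - 2) := hms.ht
    rwa [ae_restrict_iff' (hcv.meas_cyl 0 R₁), ← hsq] at a1
  have hNQ : ∫ v in ball (0 : E d) (R₁ - ux L' 2), |(N v : ℝ) - (⌊θ + 1 / 2⌋₊ : ℕ)| ≤
      ux L' (A / 4 - d / 2 - 1) ^ 2 := by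
    have a1 := (hmq _ 0 R₁ δ M _ _ N hms.cv hδh hms.ρ_pos hms.mq 0 _ n5
      (by rwa [sub_self, norm_zero, zero_add])).1
    rw [hsq]
    exact a1.trans ((mul_le_mul_of_nonneg_left (mono' _ n8) hCq.le).trans f7)
  have hβ : ∫ u in ball (0 : E d) (R₁ - ux L' 2), ‖(ch c R).av (ux L' b) (ch c R).y u‖ ≤
      2 * Ct * ux L (A / 2 + g) := by
    have a1 := (hat _ R₁ δ _ (ux L b) (ux L' b) (R₁ - ux L' 2) (ux L (A / 2 + g)) hms.cv hδt hms.ht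
      hms.lam_pos f3 f4 n5.le n9 pβ.le fun v hv => by
        have a3 := av_resB (D := ch c R) hcv.m_x (c := 0) (u := v) (R₁ := R₁) pρ
          (by rw [sub_zero]; exact (n11 _ hv).1) (ch c R).y
        exact a3 ▸ hbeg.avg v (n11 _ hv).2).2
    have a2 : ∫ u in ball (0 : E d) (R₁ - ux L' 2), ‖(ch c R).av (ux L' b) (ch c R).y u‖ =
        ∫ u in ball (0 : E d) (R₁ - ux L' 2),
          ‖((ch c R).resB 0 R₁).av (ux L' b) ((ch c R).resB 0 R₁).y u‖ :=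
      setIntegral_congr_fun measurableSet_ball fun u hu => congrArg norm
        (av_resB (D := ch c R) hcv.m_x (c := 0) (u := u) (R₁ := R₁) pρ'
          (by rw [sub_zero]; exact n12 _ (mem_ball_zero_iff.1 hu)) (ch c R).y).symm
    have a4 : (R₁ - ux L' 2) ^ d ≤ 1 := pow_le_one₀ n5.le n6
    have a5 : (R₁ - ux L' 2) ^ d * ((ch c R).resB 0 R₁).En 0 (R₁ - ux L' 2 + 2 * ux L b) ≤
        1 * ux L A := mul_le_mul a4 (mono' _ n10) (hms.cv.nonneg _ _).2.2.2.1 zero_le_one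
    rw [one_mul] at a5
    have a6 := (mul_le_mul_of_nonneg_left (Real.sqrt_le_sqrt a5) pρ.le).trans g1
    have a7 := mul_le_mul_of_nonneg_left a4 pβ.le
    rw [a2]
    refine a1.trans ?_
    rw [mul_comm 2 Ct, mul_assoc]
    exact mul_le_mul_of_nonneg_left (by linarith only [a6, a7]) hCt.le
  obtain ⟨c', had, hcmp, hav⟩ := hS.newt c _ R R₁ (ux L' 2) (ux L' (A / 4 - d / 2 - 1)) (ux L' b)
    _ (ux L (A / 2 + 2 * d + 5)) N hst.adm hε hR2 n3 (ux_pos _ _) pρ' hy ((mono _ n4).trans f8)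
    hms.mq.mult hNQ f9 f10 n13 hβ (by rw [hsq]; exact g2) f11
  rw [← hR'] at had hcmp hav
  rw [hsq] at hav
  have had' : Adm c' (3 * ε₁ - ux L' 1) R' := hS.adm_mono c' _ _ R' had (n14 _)
  have hε' : 3 * ε₁ - ux L' 1 ≤ 3 * ε₁ := sub_le_self _ pu'.le
  have hcv' := hS.cv c' _ R' had' hε' n16 n15
  -- comparison of the two charts
  obtain ⟨k1, k2, k3⟩ := hcm (ch c R) (ch c' R') R R' δ (ux L (A / 2 + 2 * d + 5)) r' (ux L A)
    hcv hcv' hδh hcmp pJ.le n17 (by linarith only [n18, hq0]) hr0 (by linarith only [n19, hq0]) n20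
    (mono _ n21) f14
  obtain ⟨m1, -, -⟩ := hcm (ch c R) (ch c' R') R R' δ (ux L (A / 2 + 2 * d + 5)) (r' + q) (ux L A)
    hcv hcv' hδh hcmp pJ.le (by linarith only [n17, hq0]) n18 (by linarith only [hr0, hq0]) n19 n20
    (mono _ n21) f14
  have hh1 := hhge r' le_rfl (by linarith only [hi', hq0])
  have hh0 := ph.trans_le hh1
  have pη : 0 ≤ 2 * Cc * ux L 1 := by positivity
  have k4 := (g5 r' hr').trans (mul_le_mul_of_nonneg_left hh1 pη)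
  have m4 := (g5 (r' + q) (by linarith only [hr', hq0])).trans (mul_le_mul_of_nonneg_left hh1 pη)
  have hη : 3 * (2 * Cc * ux L 1) ≤ 1 / L := by
    have := hs4 L hL4
    rw [pow_one] at this
    rw [le_div_iff₀ (by linarith only [hL80])]
    linarith only [this]
  have hx : 1 / L ≤ 1 / 80 := one_div_le_one_div_of_le (by norm_num) hL80
  have k7 : 2 * Cc * ux L 1 * (ch c R).hh r' ≤ 1 / 8 * (ch c R).hh r' :=
    mul_le_mul_of_nonneg_right (by linarith only [hη, hx]) hh0.le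
  obtain ⟨k5, k6⟩ := abs_le.1 k1
  have m6 := (abs_le.1 m1).2
  refine ⟨c', R', had', n15, e4 ▸ n22, k3.trans g3, by linarith only [n18, hq0], hr',
    by linarith only [k4, k5, k7, f15, hh1, hh0],
    by linarith only [k4, k6, k7, f16, hout.h_le, hh0],
    freq_switch hL6 hB' hh0 pη hη k4 (by linarith only [k5]) k2 hout.d_le, ?_,
    fun v hv => (hav v (hv.trans n23)).trans g4⟩
  rw [e1]
  have a1 : 1 * (ch c R).hh r' ≤ K * (ch c R).hh r' := mul_le_mul_of_nonneg_right hK hh0.le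
  have a2 : K * (1 / 2 * (ch c R).hh r') ≤ K * (ch c' R').hh r' :=
    mul_le_mul_of_nonneg_left (by linarith only [k4, k5, k7, hh0]) hK0.le
  linarith only [a1, a2, m4, m6, k7, hdb, hh0]

end Pool.Agent.Lib.MP_8daebb_an.GM
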