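import Pool.Agent.Lib.MP_8daebb_an.GM.StageA
import Pool.Agent.Lib.MP_8daebb_an.GM.StageZ
import Pool.Agent.Lib.MP_8daebb_an.GM.StSt
import Pool.Agent.Lib.MP_8daebb_an.GM.Switch
import Pool.Agent.Lib.MP_8daebb_an.GM.StartA
import Pool.Agent.Lib.MP_8daebb_an.GM.StartB

/-! The iteration: the infimum of the energy over centres is zero. -/

set_option linter.unusedSectionVars false
set_option linter.unusedVariables false

open MeasureTheory Metric Filter Topology Set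
open scoped RealInnerProductSpace ENNReal ContDiff

namespace Pool.Agent.Lib.MP_8daebb_an.GM

open LG (vb chi om trS)
open SV (ux)

variable {d : ℕ} {α : Type*} [MeasurableSpace α] {H : Type*} [NormedAddCommGroup H]
  [InnerProductSpace ℝ H] [FiniteDimensional ℝ H] [MeasurableSpace H] [BorelSpace H]

theorem rad_sysz {k i r r' : ℝ} (hk : 0 < k) (hi : 0 ≤ i) (hr' : 0 < r') (h : r' * (1 + k) ≤ r)
    (hr : r * (1 + i * k) ≤ 1) : r' * (1 + (i + 1) * k) ≤ 1 := by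
  have h5 : 0 ≤ i * k := by positivity
  have h6 := mul_le_mul_of_nonneg_right h (add_nonneg zero_le_one h5)
  nlinarith [mul_nonneg (mul_nonneg hr'.le hk.le) h5]

theorem fin_sysz {K i r σ : ℝ} (hK : 0 < K) (hσ : 0 < σ) (hr0 : 0 < r) (h : K / (2 * σ) ≤ i)
    (hr : r * (1 + i * (2 / K)) ≤ 1) : r ≤ σ := by
  have hi : 0 ≤ i := le_trans (by positivity) h
  have h5 : K ≤ i * (2 * σ) := (div_le_iff₀ (by positivity)).1 h
  have h6 : 1 ≤ i * (2 / K) * σ := by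
    rw [mul_div_assoc', div_mul_eq_mul_div, le_div_iff₀ hK]
    linarith
  have h7 : 0 ≤ i * (2 / K) := by positivity
  by_contra h8
  nlinarith

theorem grow_sysz {A L i : ℝ} (hA : 0 < A) (hL : 1 ≤ L) (hi : i / A ≤ L) :
    L ≤ L * (1 + 1 / A) ∧ (i + 1) / A ≤ L * (1 + 1 / A) := by
  have h1 : L * (1 + 1 / A) = L + L / A := by ring
  have h2 : 1 / A ≤ L / A := div_le_div_of_nonneg_right hL hA.le
  have h3 : 0 < 1 / A := by positivity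
  rw [h1, add_div]
  constructor <;> linarith

theorem par_sysz (d KN : ℕ) : ∃ A b g : ℝ, Par d KN A b g ∧ 0 < A := by
  obtain ⟨g, hg⟩ : ∃ g : ℝ, g = 2 * d + 2 * KN + 6 := ⟨_, rfl⟩
  obtain ⟨b, hb⟩ : ∃ b : ℝ, b = g + d + 2 * KN + 3 := ⟨_, rfl⟩
  refine ⟨max (4 * b) (max (4 * b * KN + 2 * d + 4) (2 * (d : ℝ) ^ 2 + 14 * d + 40)), b, g,
    ⟨hg.ge, hb.ge, le_max_left _ _, (le_max_left _ _).trans (le_max_right _ _),
      (le_max_right _ _).trans (le_max_right _ _)⟩, ?_⟩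
  exact lt_of_lt_of_le (by positivity) ((le_max_right _ _).trans (le_max_right _ _))

theorem cst_sysz {A γ : ℝ} (hA : 0 < A) (hγ : 0 < γ) (hγ1 : γ ≤ 1) : ∃ C₃ L₃ : ℝ, 1 ≤ C₃ ∧
    ∀ L, 1 ≤ L → (L₃ ≤ L → C₃ * L ^ (-γ) ≤ 1) ∧
      L ^ (-γ) + 1 / L + C₃ * (L * (1 + 1 / A)) ^ (-γ) ≤ C₃ * L ^ (-γ) := by
  have h1 : 1 < 1 + 1 / A := lt_add_of_pos_right _ (by positivity)
  obtain ⟨q, hq⟩ : ∃ q : ℝ, q = (1 + 1 / A) ^ (-γ) := ⟨_, rfl⟩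
  have q0 : 0 < q := hq ▸ Real.rpow_pos_of_pos (by linarith) _
  have q1 : q < 1 := hq ▸ Real.rpow_lt_one_of_one_lt_of_neg h1 (by linarith)
  have q2 : 0 < 1 - q := by linarith
  have c1 : 1 ≤ 2 / (1 - q) := by
    rw [le_div_iff₀ q2]
    linarith
  have c0 : 0 < 2 / (1 - q) := by linarith
  refine ⟨2 / (1 - q), (2 / (1 - q)) ^ γ⁻¹, c1, fun L hL => ⟨fun h => ?_, ?_⟩⟩
  · have L0 : 0 < L := by linarith
    have h2 : 2 / (1 - q) ≤ L ^ γ := by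
      have := Real.rpow_le_rpow (Real.rpow_nonneg c0.le _) h hγ.le
      rwa [Real.rpow_inv_rpow c0.le hγ.ne'] at this
    rw [Real.rpow_neg L0.le, ← div_eq_mul_inv, div_le_one (Real.rpow_pos_of_pos L0 _)]
    exact h2
  · have L0 : 0 < L := by linarith
    have h2 : 1 / L ≤ L ^ (-γ) := by
      rw [one_div, ← Real.rpow_neg_one]
      exact Real.rpow_le_rpow_of_exponent_le hL (by linarith)
    rw [Real.mul_rpow L0.le (by linarith), ← hq]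
    have h3 : 2 / (1 - q) * L ^ (-γ) = 2 * L ^ (-γ) + 2 / (1 - q) * (L ^ (-γ) * q) := by
      field_simp
      ring
    rw [h3]
    linarith

theorem sys_zero (hS : AS.SLemL (E d) (Fin (Module.finrank ℝ H))) {C : Type*} (M θ : ℝ) :
    ∃ (Q : ℕ) (δ : ℝ), 0 < δ ∧ (1 ≤ θ → 1 ≤ Q) ∧ ∀ (CN cN ε₁ : ℝ) (KN : ℕ), 0 < cN → 0 < ε₁ →
    ∃ εB δ₂ : ℝ, 0 < εB ∧ 0 < δ₂ ∧
    ∀ (Adm : C → ℝ → ℝ → Prop) (ch : C → ℝ → CD d α H), Sys Adm ch M θ δ ε₁ εB δ₂ Q CN cN KN →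
    ∀ η > 0, ∃ c R, 1 / 2 ≤ R ∧ R ≤ 2 ∧ Adm c (2 * ε₁) R ∧ (ch c R).En 0 (1 / 2) ≤ η := by
  obtain ⟨CI, hCI, δg, hδg, cg, hcg, hcg1, hG⟩ := glob (α := α) (H := H) d M
  obtain ⟨δa, hδa, HA⟩ := stage_a hS M hCI.le hδg hcg hcg1 hG ⌊θ + 1 / 2⌋₊
  obtain ⟨δz, hδz, HZ⟩ := stage_z (α := α) (H := H) d M hCI.le ⌊θ + 1 / 2⌋₊
  obtain ⟨δs, hδs, HS⟩ := state_stg (C := C) d M θ hCI.le hδg hcg hcg1 hG
  obtain ⟨δw, hδw, HW⟩ := switch (C := C) d M θ hCI.le hδg hcg hcg1 hG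
  obtain ⟨δb, hδb, HB⟩ := start_b (C := C) d M θ hCI.le hδg hcg hcg1 hG
  obtain ⟨δ, hδ, d1, d2, d3, d4, d5⟩ :
      ∃ δ : ℝ, 0 < δ ∧ δ ≤ δa ∧ δ ≤ δz ∧ δ ≤ δs ∧ δ ≤ δw ∧ δ ≤ δb :=
    ⟨min δa (min δz (min δs (min δw δb))), by positivity, by simp, by simp, by simp, by simp,
      by simp⟩
  refine ⟨⌊θ + 1 / 2⌋₊, δ, hδ, fun h => Nat.le_floor (by push_cast; linarith),
    fun CN cN ε₁ KN hcN hε₁ => ?_⟩
  obtain ⟨A, b, g, hP, hA⟩ := par_sysz d KN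
  obtain ⟨p, hp⟩ : ∃ p : ℕ, p = 2 * d + 4 * KN + 12 := ⟨_, rfl⟩
  obtain ⟨γ, C₁, K₁, εB, hγ, hγ1, hC₁, hK₁, hεB, HA⟩ := HA KN A b g hP p
  have hΛ : 1 ≤ Real.exp (C₁ + 1) := Real.one_le_exp (by linarith only [hC₁])
  obtain ⟨La, HA⟩ := HA _ hΛ
  obtain ⟨Ls, HS⟩ := HS KN A b g cN p hP hcN
  obtain ⟨Lw, HW⟩ := HW KN A b g CN cN p hP hcN
  obtain ⟨C₃, L₃, hC₃, H3⟩ := cst_sysz hA hγ hγ1
  obtain ⟨L₀, l1, l2, l3, l4, l5⟩ : ∃ L₀ : ℝ, La ≤ L₀ ∧ Ls ≤ L₀ ∧ Lw ≤ L₀ ∧ 1 ≤ L₀ ∧ L₃ ≤ L₀ :=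
    ⟨max La (max Ls (max Lw (max 1 L₃))), by simp, by simp, by simp, by simp, by simp⟩
  obtain ⟨l₁, hl₁, HB⟩ := HB KN A b g CN cN ε₁ (Real.exp (C₁ + 1)) K₁ L₀ hP hcN hε₁ hΛ
  obtain ⟨δ₂, hδ₂, HF⟩ := start_a (α := α) (H := H) (C := C) d M hl₁
  refine ⟨εB, δ₂, hεB, hδ₂, fun Adm ch hS η hη => ?_⟩
  by_contra hn
  obtain ⟨r₁, l, c₁, R₁, s1, s2, s3, s4, s5, s6, s7, s8⟩ :=
    HF Adm ch θ δ ε₁ εB _ CN cN KN hS hε₁ ⟨η, hη, fun c R h1 h2 h3 =>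
      not_le.1 fun h4 => hn ⟨c, R, h1, h2, h3, h4⟩⟩
  obtain ⟨B₀, L', r₀, c₀, R₀, t1, t2, t4, t3⟩ :=
    HB Adm ch δ εB δ₂ hS d5 r₁ l c₁ R₁ s1 s2 s3 s4 s5 s6 s7 s8
  rw [← hp] at t4
  obtain ⟨K, hKd⟩ : ∃ K, K = Real.exp (C₁ + 1) * B₀ := ⟨_, rfl⟩
  rw [← hKd] at t3 t4
  have hB₀ : 1 ≤ B₀ := hK₁.trans t2
  have hK : 1 ≤ K := hKd ▸ one_le_mul_of_one_le_of_one_le hΛ hB₀
  have hK0 : 0 < K := zero_lt_one.trans_le hK
  have hL₀ : 0 < L₀ := zero_lt_one.trans_le l4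
  have hB0 : 0 ≤ B₀ := zero_le_one.trans hB₀
  have h2K : 0 < 2 / K := div_pos two_pos hK0
  have rpos : ∀ {B L r : ℝ} {c : C} {R : ℝ}, State Adm ch ε₁ A b g L r K B c R → 0 < r :=
    fun {B L r c R} h => lt_of_lt_of_le (ux_pos _ _) h.beg.r_ge
  -- one stage
  have stage : ∀ {B L r : ℝ} {c : C} {R : ℝ}, State Adm ch ε₁ A b g L r K B c R →
      L₀ ≤ L → B₀ ≤ B → K ≤ L ^ p → B * Real.exp (C₁ * r + C₃ * L ^ (-γ)) ≤ K →
      ∃ r', Out ((ch c R).resB 0 (R - ux L 2)) A L r K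
        (B * Real.exp (C₁ * (r - r') + L ^ (-γ))) r' := by
    intro B L r c R h hL hB hKp hI
    obtain ⟨⟨N, hN⟩, h2, -, -⟩ :=
      HS Adm ch δ ε₁ εB δ₂ _ CN hS d3 K B L r c R (l2.trans hL) hK hKp h
    refine HA _ _ δ L r K B N d1 (l1.trans hL) hN (t2.trans hB)
      (hKd ▸ mul_le_mul_of_nonneg_left hB (Real.exp_pos _).le) hKp (le_trans ?_ hI) h2
    exact mul_le_mul_of_nonneg_left (Real.exp_le_exp.2 (add_le_add le_rfl
      (le_mul_of_one_le_left (Real.rpow_nonneg (hL₀.le.trans hL) _) hC₃))) (hB0.trans hB)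
  -- the recursion
  have iter : ∀ i : ℕ, ∃ (B L r : ℝ) (c : C) (R : ℝ),
      State Adm ch ε₁ A b g L r K B c R ∧ L₀ ≤ L ∧ B₀ ≤ B ∧ K ≤ L ^ p ∧
      B * Real.exp (C₁ * r + C₃ * L ^ (-γ)) ≤ K ∧ i / A ≤ L ∧ r * (1 + i * (2 / K)) ≤ 1 := by
    intro i
    induction i with
    | zero =>
      refine ⟨B₀, L', r₀, c₀, R₀, t3, t1, le_rfl, t4, ?_, ?_, ?_⟩
      · rw [hKd, mul_comm]
        exact mul_le_mul_of_nonneg_right (Real.exp_le_exp.2 (add_le_add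
          (mul_le_of_le_one_right hC₁.le t3.beg.r_le)
          ((H3 L' (l4.trans t1)).1 (l5.trans t1)))) hB0
      · rw [Nat.cast_zero, zero_div]
        exact (hL₀.trans_le t1).le
      · rw [Nat.cast_zero, zero_mul, add_zero, mul_one]
        exact t3.beg.r_le
    | succ i ih =>
      obtain ⟨B, L, r, c, R, h, hL, hB, hKp, hI, hi, hr⟩ := ih
      obtain ⟨r', ho⟩ := stage h hL hB hKp hI
      obtain ⟨-, -, -, h4⟩ := HS Adm ch δ ε₁ εB δ₂ _ CN hS d3 K B L r c R (l2.trans hL) hK hKp h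
      have hr' : 0 < r' := lt_of_lt_of_le (mul_pos (rpos h) (ux_pos _ _)) ho.lo
      have hL0 : 0 < L := hL₀.trans_le hL
      have hrr : r' ≤ r :=
        (le_mul_of_one_le_right hr'.le (le_add_of_nonneg_right h2K.le)).trans ho.hi'
      have hB' : B ≤ B * Real.exp (C₁ * (r - r') + L ^ (-γ)) :=
        le_mul_of_one_le_right (hB0.trans hB) (Real.one_le_exp (add_nonneg
          (mul_nonneg hC₁.le (sub_nonneg.2 hrr)) (Real.rpow_nonneg hL0.le _)))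
      obtain ⟨c', R', h'⟩ := HW Adm ch δ ε₁ εB δ₂ hS d4 K B _ L r r' c R (l3.trans hL) hK hKp
        (hB₀.trans (hB.trans hB')) h (h4 _ r' ho)
      obtain ⟨g1, g2⟩ := grow_sysz hA (l4.trans hL) hi
      refine ⟨_, _, r', c', R', h', hL.trans g1, ?_, hKp.trans (pow_le_pow_left₀ hL0.le g1 p),
        ?_, ?_, ?_⟩
      · exact hB.trans (hB'.trans (le_mul_of_one_le_right (hB0.trans (hB.trans hB'))
          (Real.one_le_exp (one_div_pos.2 hL0).le)))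
      · refine le_trans ?_ hI
        rw [mul_assoc, mul_assoc, ← Real.exp_add, ← Real.exp_add]
        refine mul_le_mul_of_nonneg_left (Real.exp_le_exp.2 ?_) (hB0.trans hB)
        have := (H3 L (l4.trans hL)).2
        linarith only [this]
      · rw [Nat.cast_succ]
        exact g2
      · rw [Nat.cast_succ]
        exact rad_sysz h2K (Nat.cast_nonneg i) hr' ho.hi' hr
  obtain ⟨η', L₁, hη', HZ⟩ := HZ KN A b g K hP hK
  obtain ⟨σ₀, hσ₀, hb0⟩ := hS.bad0 η' hη'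
  obtain ⟨i, hi⟩ := exists_nat_ge (max (L₁ * A) (K / (2 * σ₀)))
  obtain ⟨B, L, r, c, R, h, hL, hB, hKp, hI, hi', hr⟩ := iter i
  obtain ⟨r', ho⟩ := stage h hL hB hKp hI
  obtain ⟨⟨N, hN⟩, -, h3, -⟩ := HS Adm ch δ ε₁ εB δ₂ _ CN hS d3 K B L r c R (l2.trans hL) hK hKp h
  have hrσ : r ≤ σ₀ := fin_sysz hK0 hσ₀ (rpos h) ((le_max_right _ _).trans hi) hr
  have hrR : r ≤ R := (le_mul_of_one_le_right (rpos h).le
    (le_add_of_nonneg_right (by positivity))).trans h.R_ge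
  refine HZ _ _ δ L r B _ r' N d2 (le_trans ?_ hi') hN (fun σ h1 h2 => ?_) ho
  · exact (le_div_iff₀ hA).2 ((le_max_left _ _).trans hi)
  · exact (h3 σ h1 h2).2.trans (hb0 c _ R σ h.adm (sub_le_self _ (ux_pos _ _).le) h.R_le
      (lt_of_lt_of_le (ux_pos _ _) h1) (h2.trans hrR) (h2.trans hrσ) (h3 σ h1 h2).1)

end Pool.Agent.Lib.MP_8daebb_an.GM
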