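import Pool.Agent.Lib.MP_8daebb_an.GM.EvRegA
import Pool.Agent.Lib.MP_8daebb_an.GM.SysZ
import Pool.Agent.Lib.MP_8daebb_an.GM.TEV
import Pool.Agent.Lib.MP_8daebb_an.AS.Fin

/-! Assembly: a blown-up varifold that is close to a plane is a smooth graph near the origin. -/

open MeasureTheory Metric Filter Topology Set
open scoped RealInnerProductSpace ENNReal ContDiff

namespace Pool.Agent.Lib.MP_8daebb_an.GM

variable {d : ℕ} {H : Type*} [NormedAddCommGroup H] [InnerProductSpace ℝ H]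
  [FiniteDimensional ℝ H] [MeasurableSpace H] [BorelSpace H]

theorem ev_regular (hd : 1 ≤ d) (M θ : ℝ) : ∃ ε > 0,
    ∀ (W : Measure (H × (H →L[ℝ] H))) (ι : E d →ₗᵢ[ℝ] H),
    EV W ι M θ ε → GraphAt0 W.fst.support ι :=
  ev_regular_of hd (fun M θ => sys_zero (AS.slemL (by simpa using hd)) M θ) M θ

end Pool.Agent.Lib.MP_8daebb_an.GM
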