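import Pool.Agent.Lib.MP_8daebb_an.GM.ChCV

/-! The support lies on the limit of the centres. -/

open MeasureTheory Metric Set Filter Topology
open scoped RealInnerProductSpace ENNReal

namespace Pool.Agent.Lib.MP_8daebb_an.GM.Ch

variable {d : ℕ} {H : Type*} [NormedAddCommGroup H] [InnerProductSpace ℝ H] [FiniteDimensional ℝ H]
  [MeasurableSpace H] [BorelSpace H]

variable {V : Measure (H × (H →L[ℝ] H))} {ι : E d →ₗᵢ[ℝ] H} {M θ η ε : ℝ}

theorem tube_ChZ2 (hV : EV V ι M θ η) (hη : η ≤ 1 / 100) {F : E d → H} {o : E d} {R : ℝ}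
    (h : Pre ι F o ε R) (ho : Org F) (hR : 1 / 2 ≤ R) {p : H}
    (hp : p ∈ V.fst.support ∩ ball 0 (1 / 10)) : p ∈ tube F R ∧ ‖foot F R p‖ < 1 / 5 := by
  obtain ⟨v, hv⟩ := ev_supp_flat hV hp.1
  have h1 := mem_ball_zero_iff.1 hp.2
  exact h.ball_sub ho (by linarith) (by linarith [h.eps_le]) hv hη

omit [BorelSpace H] in
theorem en_ChZ2 {F : E d → H} {o : E d} {R : ℝ} (h : Pre ι F o ε R) {a : H × (H →L[ℝ] H)}
    (ha : a ∈ (chart V F R).G) : 0 ≤ (chart V F R).t a ∧ (chart V F R).en a ≤ d + 1 := by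
  have hd : a ∈ dom F R := ha.1
  have hj := h.jet_at hd
  have e1 : (chart V F R).t a = ft (j1 F R a.1) a.2 :=
    indicator_of_mem hd fun a => ft (j1 F R a.1) a.2
  have e2 : (chart V F R).y a = ht F R a.1 := indicator_of_mem hd fun a => ht F R a.1
  have h1 := hj.toJet0.ft_le ha.2.1
  have h2 := pow_le_one₀ (n := 2) (norm_nonneg _) hj.y1
  rw [CD.en, e1, e2]
  exact ⟨hj.toJet0.ft_nonneg ha.2.1, by linarith⟩

theorem int_ChZ2 (hV : EV V ι M θ η) (hη : η ≤ 1 / 100) {F : E d → H} {o : E d} {R b : ℝ}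
    (h : Pre ι F o ε R) (ho : Org F) (hR : 1 / 2 ≤ R) (hE : (chart V F R).En 0 (1 / 2) ≤ b) :
    ∫⁻ a in Prod.fst ⁻¹' (V.fst.support ∩ ball 0 (1 / 10)),
      ENNReal.ofReal (‖(chart V F R).y a‖ ^ 2) ∂V ≤ 2 * ENNReal.ofReal b := by
  have hS : MeasurableSet
      (Prod.fst ⁻¹' (V.fst.support ∩ ball 0 (1 / 10)) : Set (H × (H →L[ℝ] H))) :=
    measurable_fst (Measure.isClosed_support.measurableSet.inter measurableSet_ball)
  have := h.chart_finite hV
  obtain ⟨-, my, mt, -⟩ := h.meas_chart V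
  have hG := ae_restrict_of_ae (s := (chart V F R).cyl 0 (1 / 2)) (h.chart_ae_G hV)
  have h0 : 0 ≤ᵐ[(chart V F R).m.restrict ((chart V F R).cyl 0 (1 / 2))] (chart V F R).en := by
    filter_upwards [hG] with a ha
    exact add_nonneg (en_ChZ2 h ha).1 (sq_nonneg _)
  have hi : Integrable (chart V F R).en
      ((chart V F R).m.restrict ((chart V F R).cyl 0 (1 / 2))) := by
    refine Integrable.of_bound (mt.add (my.norm.pow_const 2)).aestronglyMeasurable (d + 1) ?_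
    filter_upwards [hG, h0] with a ha hb
    rw [Real.norm_of_nonneg hb]
    exact (en_ChZ2 h ha).2
  have h1 : V.restrict (Prod.fst ⁻¹' (V.fst.support ∩ ball 0 (1 / 10))) ≤
      ENNReal.ofReal (1 + cH H * ε / 100) • (chart V F R).m.restrict ((chart V F R).cyl 0 (1 / 2)) := by
    rw [← Measure.restrict_smul, ← inter_eq_left.2 (fun a ha => (tube_ChZ2 hV hη h ho hR ha).1 :
      Prod.fst ⁻¹' (V.fst.support ∩ ball 0 (1 / 10)) ⊆ dom F R), ← Measure.restrict_restrict hS]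
    refine Measure.restrict_mono (fun a ha => ?_) (h.chart_ge)
    have := (tube_ChZ2 hV hη h ho hR ha).2
    show ‖foot F R a.1 - 0‖ < 1 / 2
    rw [sub_zero]
    linarith
  refine (lintegral_mono' h1 le_rfl).trans ?_
  rw [lintegral_smul_measure, smul_eq_mul]
  refine mul_le_mul' ?_ ?_
  · rw [← ENNReal.ofReal_ofNat]
    exact ENNReal.ofReal_le_ofReal (by linarith [h.eps1])
  · refine le_trans (lintegral_mono_ae ?_) ((ofReal_integral_eq_lintegral_ofReal hi h0).ge.trans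
      (ENNReal.ofReal_le_ofReal hE))
    filter_upwards [hG] with a ha
    exact ENNReal.ofReal_le_ofReal (le_add_of_nonneg_left (en_ChZ2 h ha).1)

theorem supp_sub (hV : EV V ι M θ η) (hη : η ≤ 1 / 100) {F : ℕ → E d → H} {o : ℕ → E d}
    {R : ℕ → ℝ} (h : ∀ j, Pre ι (F j) (o j) ε (R j)) (ho : ∀ j, Org (F j))
    (hR : ∀ j, 1 / 2 ≤ R j)
    (hE : ∀ j, (chart V (F j) (R j)).En 0 (1 / 2) ≤ (1 / 2) ^ j) {F₀ : E d → H}
    (hF : ContinuousOn F₀ (closedBall 0 (1 / 4)))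
    (hlim : TendstoUniformlyOn F F₀ atTop (closedBall 0 (1 / 4))) :
    V.fst.support ∩ ball 0 (1 / 10) ⊆ F₀ '' closedBall 0 (1 / 5) := by
  have hS : MeasurableSet
      (Prod.fst ⁻¹' (V.fst.support ∩ ball 0 (1 / 10)) : Set (H × (H →L[ℝ] H))) :=
    measurable_fst (Measure.isClosed_support.measurableSet.inter measurableSet_ball)
  have hK : closedBall (0 : E d) (1 / 5) ⊆ closedBall 0 (1 / 4) :=
    closedBall_subset_closedBall (by norm_num)
  have hI : IsClosed (F₀ '' closedBall 0 (1 / 5)) :=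
    ((isCompact_closedBall _ _).image_of_continuousOn (hF.mono hK)).isClosed
  have hm : ∀ j, Measurable fun a => ENNReal.ofReal (‖(chart V (F j) (R j)).y a‖ ^ 2) := fun j =>
    (((h j).meas_chart V).2.1.norm.pow_const 2).ennreal_ofReal
  have hsum : ∫⁻ a in Prod.fst ⁻¹' (V.fst.support ∩ ball 0 (1 / 10)),
      ∑' j, ENNReal.ofReal (‖(chart V (F j) (R j)).y a‖ ^ 2) ∂V ≠ ⊤ := by
    rw [lintegral_tsum fun j => (hm j).aemeasurable]
    refine ne_top_of_le_ne_top ?_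
      (ENNReal.tsum_le_tsum fun j => int_ChZ2 hV hη (h j) (ho j) (hR j) (hE j))
    rw [ENNReal.tsum_mul_left]
    exact ENNReal.mul_ne_top (by simp) summable_geometric_two.tsum_ofReal_ne_top
  have hae : ∀ᵐ a ∂V, a.1 ∈ V.fst.support ∩ ball 0 (1 / 10) →
      a.1 ∈ F₀ '' closedBall 0 (1 / 5) := by
    filter_upwards [(ae_restrict_iff' hS).1 (ae_lt_top (Measurable.tsum hm) hsum)]
      with a ha hs
    have hu := fun j => tube_ChZ2 hV hη (h j) (ho j) (hR j) hs
    have h1 := ENNReal.tendsto_atTop_zero_of_tsum_ne_top (ha hs).ne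
    refine hI.closure_subset (Metric.mem_closure_iff.2 fun δ hδ => ?_)
    have h2 := (ENNReal.tendsto_nhds_zero.1 h1 (ENNReal.ofReal ((δ / 2) ^ 2))
      (ENNReal.ofReal_pos.2 (by positivity))).and
      (Metric.tendstoUniformlyOn_iff.1 hlim (δ / 2) (by positivity))
    obtain ⟨j, h3, h4⟩ := h2.exists
    have hx : foot (F j) (R j) a.1 ∈ closedBall (0 : E d) (1 / 5) :=
      mem_closedBall_zero_iff.2 (hu j).2.le
    have e : (chart V (F j) (R j)).y a = a.1 - F j (foot (F j) (R j) a.1) :=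
      indicator_of_mem (show a ∈ dom (F j) (R j) from (hu j).1) fun a => ht (F j) (R j) a.1
    rw [ENNReal.ofReal_le_ofReal_iff (by positivity), sq_le_sq₀ (norm_nonneg _) (by positivity),
      e, ← dist_eq_norm] at h3
    refine ⟨_, mem_image_of_mem _ hx, ?_⟩
    linarith [dist_triangle_right a.1 (F₀ (foot (F j) (R j) a.1)) (F j (foot (F j) (R j) a.1)),
      h4 _ (hK hx)]
  intro p hp
  by_contra hn
  have hU : IsOpen (ball (0 : H) (1 / 10) \ F₀ '' closedBall 0 (1 / 5)) := isOpen_ball.sdiff hI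
  refine ((Measure.mem_support_iff_forall p).1 hp.1 _ (hU.mem_nhds ⟨hp.2, hn⟩)).ne' ?_
  rw [Measure.fst_apply hU.measurableSet]
  refine measure_mono_null (fun a ha => ?_) (ae_iff.1 (hae.and (ev_ae_supp hV)))
  exact fun hb => ha.2 (hb.1 ⟨hb.2, ha.1⟩)

end Pool.Agent.Lib.MP_8daebb_an.GM.Ch
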