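import Pool.Agent.Lib.MP_8daebb_an.GM.ChCV

/-! Mass and bad set of a cylinder around the origin. -/

open MeasureTheory Metric Set Filter Topology
open scoped RealInnerProductSpace ENNReal

namespace Pool.Agent.Lib.MP_8daebb_an.GM.Ch

variable {d : ℕ} {H : Type*} [NormedAddCommGroup H] [InnerProductSpace ℝ H] [FiniteDimensional ℝ H]
  [MeasurableSpace H] [BorelSpace H]

variable {V : Measure (H × (H →L[ℝ] H))} {ι : E d →ₗᵢ[ℝ] H} {F : E d → H} {o : E d}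
  {ε R M θ η : ℝ}

theorem Pre.real_le (h : Pre ι F o ε R) (hV : EV V ι M θ η)
    (S : Set (H × (H →L[ℝ] H))) : (chart V F R).m.real S ≤ (1 + cH H * ε / 50) * V.real S := by
  have := hV.fin
  have he := h.ce_nonneg
  have h1 := Measure.le_iff'.1 (h.chart_le (V := V)) S
  rw [Measure.smul_apply, smul_eq_mul] at h1
  have h2 : (chart V F R).m S ≤ ENNReal.ofReal (1 + cH H * ε / 50) * V S :=
    h1.trans (mul_le_mul_right (Measure.restrict_apply_le _ _) _)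
  have h3 := ENNReal.toReal_mono (ENNReal.mul_ne_top ENNReal.ofReal_ne_top (measure_ne_top V S)) h2
  rwa [ENNReal.toReal_mul, ENNReal.toReal_ofReal (by linarith)] at h3

theorem Pre.real_ge (h : Pre ι F o ε R) (hV : EV V ι M θ η)
    (S : Set (H × (H →L[ℝ] H))) :
    V.real (S ∩ dom F R) ≤ (1 + cH H * ε / 100) * (chart V F R).m.real S := by
  have := h.chart_finite hV
  have he := h.ce_nonneg
  have h1 := Measure.le_iff'.1 (h.chart_ge (V := V)) S
  rw [Measure.smul_apply, smul_eq_mul, Measure.restrict_apply' (h.meas_dom)] at h1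
  have h3 := ENNReal.toReal_mono
    (ENNReal.mul_ne_top ENNReal.ofReal_ne_top (measure_ne_top (chart V F R).m S)) h1
  rwa [ENNReal.toReal_mul, ENNReal.toReal_ofReal (by linarith)] at h3

theorem Pre.ae_dom (h : Pre ι F o ε R) :
    ∀ᵐ a ∂(chart V F R).m, a ∈ dom F R :=
  (h.chart_ae).2 (Eventually.of_forall fun _ ha => ha)

theorem real_mono_ae_ChS {α : Type*} [MeasurableSpace α] {μ : Measure α} [IsFiniteMeasure μ]
    {S T : Set α} (h : ∀ᵐ a ∂μ, a ∈ S → a ∈ T) : μ.real S ≤ μ.real T :=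
  ENNReal.toReal_mono (measure_ne_top μ T) (measure_mono_ae h)

theorem fst_real_ChS (V : Measure (H × (H →L[ℝ] H))) (p : H) (s : ℝ) :
    V.fst.real (ball p s) = V.real (Prod.fst ⁻¹' ball p s) := by
  unfold Measure.real
  rw [Measure.fst_apply measurableSet_ball]

theorem mem_cyl_ChS (a : H × (H →L[ℝ] H)) (σ : ℝ) :
    a ∈ (chart V F R).cyl 0 σ ↔ ‖foot F R a.1‖ < σ := by
  change ‖foot F R a.1 - 0‖ < σ ↔ _
  rw [sub_zero]

omit [MeasurableSpace H] [BorelSpace H] in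
theorem Pre.zero_ChS (h : Pre ι F o ε R) (ho : Org F) (hR0 : 0 < R) :
    (0 : H) ∈ tube F R ∧ foot F R 0 = 0 ∧ ‖ht F R 0‖ = ‖F 0‖ := by
  have h0 := h.foot_zero ho hR0
  have h1 := h.foot_eq h0
  refine ⟨⟨0, h0⟩, h1, ?_⟩
  unfold ht
  rw [h1, zero_sub, norm_neg]

omit [MeasurableSpace H] [BorelSpace H] in
theorem Pre.d_cH (h : Pre ι F o ε R) (hR0 : 0 < R) : 4000 * (d : ℝ) ≤ cH H := by
  have h1 : (d : ℝ) ≤ Module.finrank ℝ H := by exact_mod_cast (h.jet0 (mem_ball_self hR0)).d_le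
  unfold cH
  nlinarith [sq_nonneg ((Module.finrank ℝ H : ℝ) - 1)]

theorem Pre.base_le (h : Pre ι F o ε R) (ho : Org F) (hV : EV V ι M θ η) (hω : η < omega d)
    {σ κ : ℝ} (hσ : 0 < σ) (hσR : σ ≤ R)
    (hy : ∀ᵐ a ∂(chart V F R).m, a ∈ (chart V F R).cyl 0 σ → ‖(chart V F R).y a‖ ≤ κ * σ) :
    ‖F 0‖ ≤ κ * σ := by
  by_contra hcon
  rw [not_le] at hcon
  obtain ⟨t0, f0, y0⟩ := h.zero_ChS ho (hσ.trans_le hσR)
  have e1 : ∀ᶠ p in 𝓝 (0 : H), p ∈ tube F R := h.isOpen_tube.mem_nhds t0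
  have e2 : ∀ᶠ p in 𝓝 (0 : H), ‖foot F R p‖ < σ :=
    (h.hasFDerivAt_foot t0).continuousAt.norm.eventually_lt continuousAt_const
      (by rw [f0, norm_zero]; exact hσ)
  have e3 : ∀ᶠ p in 𝓝 (0 : H), κ * σ < ‖ht F R p‖ :=
    continuousAt_const.eventually_lt (h.hasFDerivAt_ht t0).continuousAt.norm
      (by rw [y0]; exact hcon)
  obtain ⟨r, hr, hb⟩ := Metric.mem_nhds_iff.1 (e1.and (e2.and e3))
  have h1 := (Measure.mem_support_iff_forall _).1 (ev_zero_mem hV hω) _ (ball_mem_nhds 0 hr)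
  rw [Measure.fst_apply measurableSet_ball] at h1
  refine h1.ne' (measure_mono_null (fun a ha => ?_) (ae_iff.1 (h.chart_ae.1 hy)))
  obtain ⟨a1, a2, a3⟩ := hb ha
  intro hp
  have h2 := hp a1 ((mem_cyl_ChS a σ).2 a2)
  rw [chart_y (V := V) (show a ∈ dom F R from a1)] at h2
  exact absurd h2 (not_le.2 a3)

theorem Pre.cyl_sub (h : Pre ι F o ε R) (ho : Org F) (hV : EV V ι M θ η) (hω : η < omega d)
    {σ κ : ℝ} (hσ : 0 < σ) (hσR : σ ≤ R)
    (hy : ∀ᵐ a ∂(chart V F R).m, a ∈ (chart V F R).cyl 0 σ → ‖(chart V F R).y a‖ ≤ κ * σ) :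
    ∀ᵐ a ∂(chart V F R).m, a ∈ (chart V F R).cyl 0 σ → ‖a.1‖ < (1 + (10 * ε + 2 * κ)) * σ := by
  have hb := h.base_le ho hV hω hσ hσR hy
  have hκ0 : 0 ≤ κ := nonneg_of_mul_nonneg_left ((norm_nonneg _).trans hb) hσ
  have he := h.eps0
  obtain ⟨t0, f0, y0⟩ := h.zero_ChS ho (hσ.trans_le hσR)
  filter_upwards [hy, h.ae_dom (V := V)] with a ha hd hc
  have h1 := ha hc
  rw [chart_y (V := V) hd] at h1
  have h2 := (mem_cyl_ChS a σ).1 hc
  have h3 := (abs_le.1 (h.geo (p := a.1) hd t0)).2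
  rw [f0, sub_zero, sub_zero] at h3
  have h4 : ‖ht F R a.1 - ht F R 0‖ ≤ 2 * (κ * σ) := by
    have := norm_sub_le (ht F R a.1) (ht F R 0)
    linarith
  have h5 : ‖ht F R a.1 - ht F R 0‖ ^ 2 ≤ (2 * (κ * σ)) ^ 2 :=
    pow_le_pow_left₀ (norm_nonneg _) h4 2
  have h6 : ‖foot F R a.1‖ ^ 2 < σ ^ 2 := pow_lt_pow_left₀ h2 (norm_nonneg _) two_ne_zero
  have h7 : ε * ‖foot F R a.1‖ ^ 2 ≤ ε * σ ^ 2 := mul_le_mul_of_nonneg_left h6.le he
  refine lt_of_pow_lt_pow_left₀ 2 (by positivity) ?_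
  have h8 : (1 + 20 * ε + 4 * κ ^ 2) * σ ^ 2 ≤ (1 + (10 * ε + 2 * κ)) ^ 2 * σ ^ 2 :=
    mul_le_mul_of_nonneg_right (by nlinarith [mul_nonneg he hκ0]) (sq_nonneg σ)
  rw [mul_pow]
  nlinarith

theorem pow_le_ChS {x : ℝ} (n : ℕ) (hx : 0 ≤ x) (h : n * x ≤ 1) : (1 + x) ^ n ≤ 1 + 2 * (n * x) := by
  have h0 : 0 ≤ n * x := by positivity
  have h1 : (1 + x) ^ n ≤ Real.exp (n * x) := by
    rw [Real.exp_nat_mul]
    exact pow_le_pow_left₀ (by linarith) (by linarith [Real.add_one_le_exp x]) n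
  have h2 := (abs_le.1 (Real.abs_exp_sub_one_le (x := n * x) (by rwa [abs_of_nonneg h0]))).2
  rw [abs_of_nonneg h0] at h2
  linarith

/-- The mass of a cylinder around the origin. -/
theorem Pre.mass_near (h : Pre ι F o ε R) (ho : Org F) (hV : EV V ι M θ η) (hη : η ≤ 1 / 100)
    (hω : 80 * η ≤ omega d) (hθ : θ * (cH H * ε) ≤ 1) {σ κ : ℝ} (hκ : θ * (cH H * κ) ≤ 1)
    (hσ : 0 < σ) (hσR : σ ≤ R) (hσ1 : σ ≤ 1)
    (hy : ∀ᵐ a ∂(chart V F R).m, a ∈ (chart V F R).cyl 0 σ → ‖(chart V F R).y a‖ ≤ κ * σ) :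
    |(chart V F R).m.real ((chart V F R).cyl 0 σ) - θ * omega d * σ ^ d| ≤
      omega d * σ ^ d / 20 := by
  have := hV.fin
  have := h.chart_finite hV
  have hη0 := ev_eps_nonneg hV
  have w0 := omega_pos d
  have hω' : η < omega d := by linarith
  have hb := h.base_le ho hV hω' hσ hσR hy
  have hκ0 : 0 ≤ κ := nonneg_of_mul_nonneg_left ((norm_nonneg _).trans hb) hσ
  have he := h.eps0
  have he1 := h.eps_le
  have hθ1 := hV.θ_ge
  have hc := cH_ge (H := H)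
  have hd := h.d_cH (hσ.trans_le hσR)
  have hs2 : 0 < σ ^ d := by positivity
  obtain ⟨e, hee⟩ : ∃ e, e = cH H * ε := ⟨_, rfl⟩
  obtain ⟨k, hk⟩ : ∃ k, k = cH H * κ := ⟨_, rfl⟩
  have e0 : 0 ≤ e := by rw [hee]; positivity
  have k0 : 0 ≤ k := by rw [hk]; positivity
  have de : 4000 * (d * ε) ≤ e := by rw [hee, ← mul_assoc]; gcongr
  have dk : 4000 * (d * κ) ≤ k := by rw [hk, ← mul_assoc]; gcongr
  have k2 : 1000 * κ ≤ k := by rw [hk]; gcongr
  rw [← hee] at hθ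
  rw [← hk] at hκ
  have e1 : e ≤ 1 := by nlinarith
  have k1 : k ≤ 1 := by nlinarith
  have we : θ * omega d * e ≤ omega d := by nlinarith
  have wk : θ * omega d * k ≤ omega d := by nlinarith
  have tw : omega d ≤ θ * omega d := by nlinarith
  obtain ⟨T, hT⟩ : ∃ T, T = θ * omega d := ⟨_, rfl⟩
  rw [abs_le]
  constructor
  · have hs : 0 < (1 - 40 * ε) * σ := mul_pos (by linarith) hσ
    have h1 := (abs_le.1 (hV.mass _ hs (by nlinarith))).1
    have h2 : V.fst.real (ball 0 ((1 - 40 * ε) * σ)) ≤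
        V.real ((chart V F R).cyl 0 σ ∩ dom F R) := by
      rw [fst_real_ChS]
      refine real_mono_ae_ChS ?_
      filter_upwards [hV.flat] with a ha hm
      obtain ⟨v, hv⟩ := ha
      have h3 := h.ball_sub ho hσR (mem_ball_zero_iff.1 hm) hv hη
      exact ⟨(mem_cyl_ChS a σ).2 h3.2, h3.1⟩
    have h3 := h.real_ge hV ((chart V F R).cyl 0 σ)
    have u1 : 1 - e / 100 ≤ (1 - 40 * ε) ^ d := by
      have := one_add_mul_le_pow (a := -(40 * ε)) (by linarith) d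
      rw [← sub_eq_add_neg] at this
      linarith
    rw [mul_pow] at h1
    rw [← hee] at h3
    rw [← hT] at h1 we wk tw ⊢
    have h4 : (1 + e / 100) * (T - omega d / 20) ≤ (T - η) * (1 - 40 * ε) ^ d := by
      refine le_trans ?_ (mul_le_mul_of_nonneg_left u1 (by linarith))
      nlinarith [mul_nonneg e0 w0.le, mul_nonneg e0 hη0]
    have h5 := mul_le_mul_of_nonneg_right h4 hs2.le
    have h6 : (1 + e / 100) * ((T - omega d / 20) * σ ^ d) ≤
        (1 + e / 100) * (chart V F R).m.real ((chart V F R).cyl 0 σ) := by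
      nlinarith
    have h7 := le_of_mul_le_mul_left h6 (by linarith)
    linarith
  · have hs : 0 < (1 + (10 * ε + 2 * κ)) * σ := by positivity
    have h1 := (abs_le.1 (hV.mass _ hs (by nlinarith))).2
    have h2 : (chart V F R).m.real ((chart V F R).cyl 0 σ) ≤
        (chart V F R).m.real (Prod.fst ⁻¹' ball 0 ((1 + (10 * ε + 2 * κ)) * σ)) := by
      refine real_mono_ae_ChS ?_
      filter_upwards [h.cyl_sub ho hV hω' hσ hσR hy] with a ha hc
      exact mem_ball_zero_iff.2 (ha hc)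
    have h3 := h.real_le hV (Prod.fst ⁻¹' ball 0 ((1 + (10 * ε + 2 * κ)) * σ))
    rw [← fst_real_ChS V, ← hee] at h3
    have u1 := pow_le_ChS (x := 10 * ε + 2 * κ) d (by positivity) (by linarith)
    rw [mul_pow] at h1
    rw [← hT] at h1 we wk tw ⊢
    have u2 : (1 + e / 50) * (1 + (10 * ε + 2 * κ)) ^ d ≤ 1 + e / 35 + k / 500 := by
      have a1 : (1 + (10 * ε + 2 * κ)) ^ d ≤ 1 + e / 200 + k / 1000 := by linarith
      refine (mul_le_mul_of_nonneg_left a1 (by linarith)).trans ?_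
      nlinarith [mul_le_mul_of_nonneg_left e1 e0, mul_le_mul_of_nonneg_left e1 k0]
    have h5 : (T + η) * (1 + e / 35 + k / 500) ≤ T + omega d / 20 := by
      nlinarith [mul_le_mul_of_nonneg_left e1 hη0, mul_le_mul_of_nonneg_left k1 hη0]
    have h6 := mul_le_mul_of_nonneg_left u2 (by linarith : 0 ≤ T + η)
    have h7 := mul_le_mul_of_nonneg_right (h6.trans h5) hs2.le
    have h8 := mul_le_mul_of_nonneg_left h1 (by linarith : 0 ≤ 1 + e / 50)
    nlinarith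

theorem Pre.bad_le (h : Pre ι F o ε R) (ho : Org F) (hV : EV V ι M θ η) (hω : η < omega d)
    (hθ : θ * (cH H * ε) ≤ 1) {σ κ : ℝ} (hκ : κ ≤ 1 / 100) (hσ : 0 < σ) (hσR : σ ≤ R)
    (hy : ∀ᵐ a ∂(chart V F R).m, a ∈ (chart V F R).cyl 0 σ → ‖(chart V F R).y a‖ ≤ κ * σ) :
    (chart V F R).m.real
        {a | a ∈ (chart V F R).cyl 0 σ ∧ ¬(chart V F R).Den ((θ - 1 / 50) * omega d) a} ≤
      2 * V.real {z | ‖z.1‖ < 2 * σ ∧ ¬∃ᶠ r in 𝓝[>] (0 : ℝ),
        (θ - 1 / 100) * omega d * r ^ d ≤ V.fst.real (ball z.1 r)} := by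
  have := hV.fin
  have := h.chart_finite hV
  have he := h.ce_nonneg
  have he1 := h.eps1
  have he2 := h.eps_le
  have hϑ : (1 + cH H * ε / 100) * ((θ - 1 / 50) * omega d) ≤ (θ - 1 / 100) * omega d := by
    rw [← mul_assoc]
    exact mul_le_mul_of_nonneg_right (by nlinarith) (omega_pos d).le
  refine le_trans (real_mono_ae_ChS ?_) ((h.real_le hV _).trans
    (mul_le_mul_of_nonneg_right (by linarith) measureReal_nonneg))
  filter_upwards [h.cyl_sub ho hV hω hσ hσR hy, h.ae_dom (V := V)] with a ha hd hc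
  exact ⟨(ha hc.1).trans_le (mul_le_mul_of_nonneg_right (by linarith) hσ.le),
    fun hf => hc.2 (h.den hV hd hϑ hf)⟩

/-- The bad set of a cylinder around the origin. -/
theorem Pre.bad (h : Pre ι F o ε R) (ho : Org F) (hV : EV V ι M θ η) (hω : η < omega d)
    (hθ : θ * (cH H * ε) ≤ 1) {σ κ : ℝ} (hκ : κ ≤ 1 / 100) (hσ : 0 < σ) (hσR : σ ≤ R)
    (hσ1 : σ ≤ 1)
    (hy : ∀ᵐ a ∂(chart V F R).m, a ∈ (chart V F R).cyl 0 σ → ‖(chart V F R).y a‖ ≤ κ * σ) :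
    (chart V F R).m.real
        {a | a ∈ (chart V F R).cyl 0 σ ∧ ¬(chart V F R).Den ((θ - 1 / 50) * omega d) a} ≤
      2 ^ (d + 1) * η * σ ^ d := by
  refine (h.bad_le ho hV hω hθ hκ hσ hσR hy).trans ?_
  have h5 := hV.bad (2 * σ) (by linarith) (by linarith)
  rw [mul_pow] at h5
  rw [pow_succ]
  linarith

theorem bad_zero (hV : EV V ι M θ η) (hω : η < omega d) {η' : ℝ} (hη' : 0 < η') :
    ∃ σ₀ > 0, ∀ (F : E d → H) (o : E d) (ε R σ κ : ℝ), Pre ι F o ε R → Org F →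
      θ * (cH H * ε) ≤ 1 → κ ≤ 1 / 100 → 0 < σ → σ ≤ R → σ ≤ σ₀ →
      (∀ᵐ a ∂(chart V F R).m, a ∈ (chart V F R).cyl 0 σ → ‖(chart V F R).y a‖ ≤ κ * σ) →
      (chart V F R).m.real
        {a | a ∈ (chart V F R).cyl 0 σ ∧ ¬(chart V F R).Den ((θ - 1 / 50) * omega d) a} ≤
        η' * σ ^ d := by
  obtain ⟨σ₀, hσ₀, hb⟩ := hV.bad0 (η' / 2 ^ (d + 1)) (by positivity)
  refine ⟨σ₀ / 2, by positivity, fun F o ε R σ κ h ho hθ hκ hσ hσR hσ1 hy => ?_⟩
  refine (h.bad_le ho hV hω hθ hκ hσ hσR hy).trans ?_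
  have h5 := hb (2 * σ) (by linarith) (by linarith)
  have e : η' / 2 ^ (d + 1) * (2 * σ) ^ d = η' * σ ^ d / 2 := by
    rw [mul_pow, pow_succ]
    field_simp
  linarith

end Pool.Agent.Lib.MP_8daebb_an.GM.Ch
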