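import Pool.Agent.Lib.MP_8daebb_an.GM.ChC1
import Pool.Agent.Lib.MP_8daebb_an.GM.ChS

/-! The limit centre lies in the support. -/

open MeasureTheory Metric Set Filter Topology
open scoped RealInnerProductSpace ENNReal

namespace Pool.Agent.Lib.MP_8daebb_an.GM.Ch

variable {d : ℕ}

theorem fderiv_zero_ChZ3 {X : Type*} [NormedAddCommGroup X] [NormedSpace ℝ X] {ψ : X → ℝ}
    (h0 : ∀ u, 0 ≤ ψ u) {u : X} (hu : ψ u = 0) : fderiv ℝ ψ u = 0 :=
  IsLocalMin.fderiv_eq_zero (Eventually.of_forall fun v => hu ▸ h0 v)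

/-- A measure with vanishing derivative that avoids one ball avoids its translates. -/
theorem shift_ChZ3 {α : Type*} [MeasurableSpace α] {μ : Measure α} [IsFiniteMeasure μ]
    {x : α → E d} (hx : Measurable x) {r ρ : ℝ} {z : E d} (hρ : 0 < ρ) (hz : ‖z‖ + ρ ≤ r)
    (h : ∀ ψ : E d → ℝ, ContDiff ℝ 1 ψ → (∀ u, 0 ≤ ψ u) → (∀ u, r ≤ ‖u‖ → ψ u = 0) → ∀ v,
      ∫ a, fderiv ℝ ψ (x a) v ∂μ = 0)
    (h0 : ∀ᵐ a ∂μ, ρ ≤ ‖x a - z‖) : ∀ᵐ a ∂μ, ρ ≤ ‖x a‖ := by
  let b : ContDiffBump (0 : E d) := ⟨ρ / 2, ρ, by linarith, by linarith⟩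
  have b1 : ContDiff ℝ 1 b := b.contDiff
  have b0 : ∀ u, ρ ≤ ‖u‖ → b u = 0 := fun u hu => b.zero_of_le_dist (by simpa using hu)
  have c1 : Continuous (fderiv ℝ b) := b1.continuous_fderiv one_ne_zero
  obtain ⟨C, hC⟩ := c1.bounded_above_of_compact_support (b.hasCompactSupport.fderiv ℝ)
  have m0 : ∀ s : ℝ, Measurable fun a => b (x a - s • z) := fun s =>
    b.continuous.measurable.comp (hx.sub_const _)
  have i0 : ∀ s : ℝ, Integrable (fun a => b (x a - s • z)) μ := fun s =>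
    Integrable.of_bound (m0 s).aestronglyMeasurable 1 (Eventually.of_forall fun a => by
      rw [Real.norm_of_nonneg b.nonneg]
      exact b.le_one)
  have hd : ∀ s : ℝ, HasDerivAt (fun s : ℝ => ∫ a, b (x a - s • z) ∂μ)
      (∫ a, fderiv ℝ b (x a - s • z) (-z) ∂μ) s := fun s => by
    refine (hasDerivAt_integral_of_dominated_loc_of_deriv_le (bound := fun _ => C * ‖-z‖)
      (F' := fun s a => fderiv ℝ b (x a - s • z) (-z)) univ_mem
      (Eventually.of_forall fun s => (m0 s).aestronglyMeasurable) (i0 s)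
      (((c1.clm_apply continuous_const).measurable.comp (hx.sub_const _)).aestronglyMeasurable)
      (Eventually.of_forall fun a t _ => ?_) (integrable_const _)
      (Eventually.of_forall fun a t _ => ?_)).2
    · exact (ContinuousLinearMap.le_opNorm _ _).trans
        (mul_le_mul_of_nonneg_right (hC _) (norm_nonneg _))
    · have h1 : HasDerivAt (fun s : ℝ => x a - s • z) (-z) t := by
        simpa using ((hasDerivAt_id t).smul_const z).const_sub (x a)
      exact (b1.differentiable one_ne_zero _).hasFDerivAt.comp_hasDerivAt t h1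
  have hz0 : ∀ s ∈ Ico (0 : ℝ) 1, ∫ a, fderiv ℝ b (x a - s • z) (-z) ∂μ = 0 := fun s hs => by
    have h1 := h (fun u => b (u - s • z)) (b1.comp (contDiff_id.sub contDiff_const))
      (fun _ => b.nonneg) (fun u hu => b0 _ (by
        have h2 := norm_sub_norm_le u (s • z)
        rw [norm_smul, Real.norm_of_nonneg hs.1] at h2
        nlinarith [norm_nonneg z, hs.2])) (-z)
    simpa only [fderiv_comp_sub] using h1
  have h1 := constant_of_has_deriv_right_zero
    (fun s _ => (hd s).continuousAt.continuousWithinAt)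
    (fun s hs => (hz0 s hs ▸ hd s).hasDerivWithinAt) 1 ⟨zero_le_one, le_rfl⟩
  have h2 : ∫ a, b (x a - (1 : ℝ) • z) ∂μ = 0 :=
    integral_eq_zero_of_ae (h0.mono fun a ha => b0 _ (by rwa [one_smul]))
  rw [h2] at h1
  filter_upwards [(integral_eq_zero_iff_of_nonneg (fun _ => b.nonneg) (i0 0)).1 h1.symm] with a ha
  by_contra hc
  refine (b.pos_of_mem_ball (x := x a - (0 : ℝ) • z) ?_).ne' ha
  rw [zero_smul, sub_zero]
  exact mem_ball_zero_iff.2 (not_le.1 hc)

variable {H : Type*} [NormedAddCommGroup H] [InnerProductSpace ℝ H] [FiniteDimensional ℝ H]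
  [MeasurableSpace H] [BorelSpace H]

variable {V : Measure (H × (H →L[ℝ] H))} {ι : E d →ₗᵢ[ℝ] H} {F : E d → H} {o : E d}
  {ε R M θ η : ℝ}

omit [FiniteDimensional ℝ H] [MeasurableSpace H] [BorelSpace H] in
theorem test_ChZ3 {ψ : E d → ℝ} (hψ : ContDiff ℝ 1 ψ) {r : ℝ} (hr : r < R)
    (h0 : ∀ u, r ≤ ‖u‖ → ψ u = 0) : Test (H := H) 0 R fun u => ψ u.1 :=
  ⟨(hψ.comp contDiff_fst).contDiffOn, r, hr, fun u hu => h0 _ (by simpa using hu)⟩

omit [FiniteDimensional ℝ H] [MeasurableSpace H] [BorelSpace H] in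
theorem fderiv_fst_ChZ3 {ψ : E d → ℝ} (hψ : ContDiff ℝ 1 ψ) (p w : E d × H) :
    fderiv ℝ (fun u : E d × H => ψ u.1) p w = fderiv ℝ ψ p.1 w.1 := by
  have h2 : HasFDerivAt (fun u : E d × H => ψ u.1) _ p :=
    HasFDerivAt.comp (f := Prod.fst) p (hψ.differentiable one_ne_zero _).hasFDerivAt hasFDerivAt_fst
  rw [h2.fderiv]
  rfl

/-- Zero height forces zero tilt. -/
theorem tilt_zero_ChZ3 (h : Pre ι F o ε R) (hV : EV V ι M θ η) (hη : η ≤ 1 / 100) {r : ℝ}
    (hr : 0 < r) (hrR : r < R)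
    (hy : ∀ a ∈ (chart V F R).G, ‖foot F R a.1‖ < r → ht F R a.1 = 0) :
    ∀ᵐ a ∂(chart V F R).m, ‖foot F R a.1‖ < r → (chart V F R).t a = 0 := by
  have := hV.fin
  let b : ContDiffBump (0 : E d) := ⟨r / 2, r, by linarith, by linarith⟩
  have b1 : ContDiff ℝ 1 b := b.contDiff
  have b0 : ∀ u, r ≤ ‖u‖ → b u = 0 := fun u hu => b.zero_of_le_dist (by simpa using hu)
  have h1 := h.loc hV hη h.contDiffOn_ht (test_ChZ3 b1 hrR b0)
  have hG := h.chart_ae.1 (h.chart_ae_G hV)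
  have h2 : ∫ a in dom F R, b (foot F R a.1) * (chart V F R).t a ∂V = 0 := by
    rw [← h1]
    refine setIntegral_congr_ae h.meas_dom (hG.mono fun a ha hd => ?_)
    have hp : a.1 ∈ tube F R := hd
    rw [fderiv_fst_ChZ3 b1, chart_t (V := V) hd, (h.hasFDerivAt_ht hp).fderiv]
    by_cases hx : ‖foot F R a.1‖ < r
    · rw [hy a (ha hd) hx, (h.jet_at hp).toJet0.tr_dy_zero (ha hd).2.1]
      simp
    · simp [b0 _ (not_lt.1 hx), fderiv_zero_ChZ3 (ψ := b) (fun _ => b.nonneg) (b0 _ (not_lt.1 hx))]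
  have hb : ∀ᵐ a ∂V.restrict (dom F R), 0 ≤ (chart V F R).t a ∧ (chart V F R).t a ≤ d := by
    rw [ae_restrict_iff' h.meas_dom]
    filter_upwards [hG] with a ha hd
    rw [chart_t (V := V) hd]
    exact ⟨(h.jet_at hd).toJet0.ft_nonneg (ha hd).2.1, (h.jet_at hd).toJet0.ft_le (ha hd).2.1⟩
  have hm : Measurable fun a : H × (H →L[ℝ] H) => b (foot F R a.1) * (chart V F R).t a :=
    (b.continuous.measurable.comp (h.meas_foot.comp measurable_fst)).mul (h.meas_chart V).2.2.1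
  have hi : Integrable (fun a => b (foot F R a.1) * (chart V F R).t a) (V.restrict (dom F R)) := by
    refine Integrable.of_bound hm.aestronglyMeasurable (1 * d) (hb.mono fun a ha => ?_)
    rw [Real.norm_of_nonneg (mul_nonneg b.nonneg ha.1)]
    exact mul_le_mul b.le_one ha.2 ha.1 zero_le_one
  have h3 := (integral_eq_zero_iff_of_nonneg_ae
    (hb.mono fun a ha => mul_nonneg b.nonneg ha.1) hi).1 h2
  rw [h.chart_ae, ← ae_restrict_iff' h.meas_dom]
  filter_upwards [h3] with a ha hx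
  exact (mul_eq_zero.1 ha).resolve_left (b.pos_of_mem_ball (mem_ball_zero_iff.2 hx)).ne'

theorem hor_zero_ChZ3 (h : Pre ι F o ε R) (hR : R ≤ 2) (hV : EV V ι M θ η) (hη : η ≤ 1 / 100)
    {r : ℝ} (hr : 0 < r) (hrR : r < R)
    (hy : ∀ a ∈ (chart V F R).G, ‖foot F R a.1‖ < r → ht F R a.1 = 0) {ψ : E d → ℝ}
    (hψ : ContDiff ℝ 1 ψ) (h0 : ∀ u, 0 ≤ ψ u) (h1 : ∀ u, r ≤ ‖u‖ → ψ u = 0) (v : E d) :
    ∫ a, fderiv ℝ ψ ((chart V F R).x a) v ∂(chart V F R).m = 0 := by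
  rw [← h.hor hV hη (test_ChZ3 hψ hrR h1) v]
  refine integral_congr_ae ?_
  filter_upwards [h.chart_ae_G hV, tilt_zero_ChZ3 h hV hη hr hrR hy] with a ha ht0
  rw [fderiv_fst_ChZ3 hψ]
  by_cases hx : ‖foot F R a.1‖ < r
  · have p := h.pw hR hV hη le_rfl ha
    have y0 : (chart V F R).y a = 0 := (chart_y (V := V) ha.1).trans (hy a ha hx)
    have e1 : (chart V F R).τ a = 0 := by
      have := p.τ_le
      rw [ht0 hx, mul_zero] at this
      exact norm_le_zero_iff.1 this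
    have e2 : (chart V F R).eh a = 0 := by
      have := p.eh_le
      rw [ht0 hx, y0] at this
      simpa using this
    rw [e1, e2]
    simp
  · have k0 : ψ ((chart V F R).x a) = 0 := h1 _ (not_lt.1 hx)
    rw [fderiv_zero_ChZ3 h0 k0]
    simp [k0]

omit [MeasurableSpace H] [BorelSpace H] in
theorem foot_self {x : E d} (hx : x ∈ ball (0 : E d) R) : IsFoot F R (F x) x :=
  ⟨hx, by rw [sub_self, map_zero], by rw [sub_self, norm_zero]; exact one_pos⟩

theorem sub_supp (h : Pre ι F o ε (1 / 4)) (ho : Org F) (hV : EV V ι M θ η)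
    (hs : cH H * (ε + η) ≤ 1 / 2) (hω : η < omega d)
    (h0 : V.fst.support ∩ ball 0 (1 / 10) ⊆ F '' closedBall 0 (1 / 5)) :
    F 0 = 0 ∧ ∀ z : E d, ‖z‖ < 1 / 50 → F z ∈ V.fst.support := by
  have e0 := h.eps0
  have n0 := ev_eps_nonneg hV
  have hs' := (split_ChCV h hV hs).2
  have hη : η ≤ 1 / 100 := by linarith
  have hR0 : (0 : ℝ) < 1 / 4 := by norm_num
  have z0 := ev_zero_mem hV hω
  obtain ⟨t0, ft0, -⟩ := h.zero_ChS ho hR0
  have key : ∀ p ∈ V.fst.support, ‖p‖ < 1 / 10 → F (foot F (1 / 4) p) = p := by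
    intro p hp hp1
    obtain ⟨x, hx, rfl⟩ := h0 ⟨hp, mem_ball_zero_iff.2 hp1⟩
    rw [h.foot_eq (foot_self (closedBall_subset_ball (by norm_num) hx))]
  have F0 : F 0 = 0 := by simpa only [ft0] using key 0 z0 (by norm_num)
  refine ⟨F0, fun z hz => ?_⟩
  have hG : ∀ a ∈ (chart V F (1 / 4)).G, ‖foot F (1 / 4) a.1‖ < 2 / 25 →
      F (foot F (1 / 4) a.1) = a.1 := by
    intro a ha hx
    have hp : a.1 ∈ tube F (1 / 4) := ha.1
    have h1 := h.ht_le_supp hV hη hp ha.2.2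
    have hF := h.lipF (foot_spec hp).1 (mem_ball_self hR0)
    rw [F0, sub_zero, sub_zero] at hF
    refine key _ ha.2.2 ?_
    have e2 := norm_le_norm_add_norm_sub' a.1 (F (foot F (1 / 4) a.1))
    have e3 : (1 + ε) * ‖foot F (1 / 4) a.1‖ ≤ (1 + ε) * (2 / 25) :=
      mul_le_mul_of_nonneg_left hx.le (by linarith)
    unfold ht at h1
    linarith
  have hy : ∀ a ∈ (chart V F (1 / 4)).G, ‖foot F (1 / 4) a.1‖ < 2 / 25 → ht F (1 / 4) a.1 = 0 :=
    fun a ha hx => by rw [ht, hG a ha hx, sub_self]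
  have hpos : ∀ ρ : ℝ, 0 < ρ → ¬∀ᵐ a ∂(chart V F (1 / 4)).m, ρ ≤ ‖(chart V F (1 / 4)).x a‖ := by
    intro ρ hρ hcon
    have e1 : ∀ᶠ p in 𝓝 (0 : H), p ∈ tube F (1 / 4) := h.isOpen_tube.mem_nhds t0
    have e2 : ∀ᶠ p in 𝓝 (0 : H), ‖foot F (1 / 4) p‖ < ρ :=
      (h.hasFDerivAt_foot t0).continuousAt.norm.eventually_lt continuousAt_const
        (by rw [ft0, norm_zero]; exact hρ)
    obtain ⟨r, hr, hb⟩ := Metric.mem_nhds_iff.1 (e1.and e2)
    have h1 := (Measure.mem_support_iff_forall _).1 z0 (ball 0 r) (ball_mem_nhds _ hr)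
    rw [Measure.fst_apply measurableSet_ball] at h1
    refine h1.ne' (measure_eq_zero_iff_ae_notMem.2 ?_)
    filter_upwards [h.chart_ae.1 hcon] with a ha hm
    have h2 := hb hm
    have h3 : ρ ≤ ‖foot F (1 / 4) a.1‖ := ha h2.1
    linarith [h2.2]
  have hz1 : z ∈ ball (0 : E d) (1 / 4) := mem_ball_zero_iff.2 (by linarith)
  have hc : ContinuousAt F z := (h.hasFDerivAt hz1).continuousAt
  rw [← Measure.isClosed_support.closure_eq, Metric.mem_closure_iff]
  intro e he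
  obtain ⟨r, hr, hr1⟩ := Metric.continuousAt_iff.1 hc e he
  have hρ : 0 < min r (1 / 100) := lt_min hr (by norm_num)
  have hρ1 : min r (1 / 100) ≤ 1 / 100 := min_le_right _ _
  have := h.chart_finite hV
  obtain ⟨a, ha, hx⟩ : ∃ a ∈ (chart V F (1 / 4)).G, ‖foot F (1 / 4) a.1 - z‖ < min r (1 / 100) := by
    by_contra hcon
    refine hpos _ hρ (shift_ChZ3 (h.meas_chart V).1 (r := 2 / 25) (z := z) hρ (by linarith)
      (fun ψ a1 a2 a3 v => hor_zero_ChZ3 h (by norm_num) hV hη (by norm_num) (by norm_num) hy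
        a1 a2 a3 v) ?_)
    filter_upwards [h.chart_ae_G hV] with a ha
    exact not_lt.1 fun hx => hcon ⟨a, ha, hx⟩
  have hx2 : ‖foot F (1 / 4) a.1‖ < 2 / 25 := by
    have h2 := norm_sub_norm_le (foot F (1 / 4) a.1) z
    linarith
  refine ⟨a.1, ha.2.2, ?_⟩
  rw [← hG a ha hx2, dist_comm]
  refine hr1 ?_
  rw [dist_eq_norm]
  exact hx.trans_le (min_le_left _ _)

end Pool.Agent.Lib.MP_8daebb_an.GM.Ch
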