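import Pool.Agent.Lib.MP_8daebb_an.GM.Sy2

/-! The commutator with a cutoff. -/

open MeasureTheory Metric Set Filter Topology
open scoped RealInnerProductSpace ContDiff ENNReal

namespace Pool.Agent.Lib.MP_8daebb_an.GM.Ch

variable {d n : ℕ}

section aux
variable {X Y Z : Type*} [NormedAddCommGroup X] [NormedSpace ℝ X]

theorem d1_diff_Sy3 {F : E d → X} (h : ContDiff ℝ 2 F) (b : E d) :
    Differentiable ℝ fun z => d1 F z b :=
  ((h.fderiv_right (m := 1) (by norm_num)).clm_apply contDiff_const).differentiable one_ne_zero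

theorem d2_apply_Sy3 {F : E d → X} (h : ContDiff ℝ 2 F) (x a b : E d) :
    d2 F x a b = fderiv ℝ (fun z => d1 F z b) x a := by
  have h1 : Differentiable ℝ (fderiv ℝ F) :=
    (h.fderiv_right (m := 1) (by norm_num)).differentiable one_ne_zero
  have := fderiv_ell_Wi8 h1 (ContinuousLinearMap.apply ℝ X b) x
  exact (congrArg (fun M => M a) this).symm

variable [FiniteDimensional ℝ X] [NormedAddCommGroup Y] [NormedSpace ℝ Y] [FiniteDimensional ℝ Y]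
  [NormedAddCommGroup Z] [NormedSpace ℝ Z] [FiniteDimensional ℝ Z]

/-- `f` is an expression of order at most one in `v`. -/
def LoSy3 (m : ℕ) (f : E d → X) (v : E d → E n) (K : ℝ) : Prop :=
  Wv m f ∧ ∀ σ : ℤ, |σ| ≤ m → nv σ f ≤ K * nv (σ + 1) v

variable {m : ℕ} {f g : E d → X} {v : E d → E n} {K K' : ℝ}

theorem LoSy3.mono (h : LoSy3 m f v K) (hK : K ≤ K') : LoSy3 m f v K' :=
  ⟨h.1, fun σ hσ => (h.2 σ hσ).trans (mul_le_mul_of_nonneg_right hK (nv_nonneg _ _))⟩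

theorem LoSy3.add (h : LoSy3 m f v K) (h' : LoSy3 m g v K') :
    LoSy3 m (fun x => f x + g x) v (K + K') :=
  ⟨h.1.add h'.1, fun σ hσ => (nv_add_le h.1 h'.1 (le_of_abs_le hσ)).trans
    (by linarith [h.2 σ hσ, h'.2 σ hσ])⟩

theorem LoSy3.sub (h : LoSy3 m f v K) (h' : LoSy3 m g v K') :
    LoSy3 m (fun x => f x - g x) v (K + K') :=
  ⟨h.1.sub h'.1, fun σ hσ => (nv_sub_le h.1 h'.1 (le_of_abs_le hσ)).trans
    (by linarith [h.2 σ hσ, h'.2 σ hσ])⟩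

theorem LoSy3.smul (h : LoSy3 m f v K) {χ : E d → ℝ} (hχ : W m χ) {a : ℝ} (ha : nm m χ ≤ a) :
    LoSy3 m (fun x => χ x • f x) v (a * K) :=
  ⟨Wv.smul hχ h.1, fun σ hσ => (nv_smul_le hχ h.1 hσ).trans (by
    rw [mul_assoc]
    exact mul_le_mul ha (h.2 σ hσ) (nv_nonneg _ _) ((nm_nonneg _ _).trans ha))⟩

theorem lo_sum_Sy3 {ι : Type*} [Fintype ι] {F : ι → E d → X} (h : ∀ i, LoSy3 m (F i) v K) :
    LoSy3 m (fun x => ∑ i, F i x) v (Fintype.card ι * K) :=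
  ⟨Wv.finsum _ fun i _ => (h i).1, fun σ hσ =>
    (nv_finsum_le _ (fun i _ => (h i).1) (le_of_abs_le hσ)).trans
      ((Finset.sum_le_sum fun i _ => (h i).2 σ hσ).trans (by simp [mul_assoc]))⟩

theorem lo_self_Sy3 (h : Wv (m + 1) v) : LoSy3 m v v 1 :=
  ⟨h.mono (Nat.le_succ m), fun σ hσ => by
    rw [one_mul]
    exact h.nv_mono (by omega) (by have := le_of_abs_le hσ; push_cast; omega)⟩

theorem lo_bil_Sy3 (B : X →L[ℝ] Y →L[ℝ] Z) : ∃ C : ℝ, 0 < C ∧ ∀ (m : ℕ) (v : E d → E n)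
    (f : E d → X) (g : E d → Y) (a K : ℝ), Wv m f → nv m f ≤ a → LoSy3 m g v K →
    LoSy3 m (fun x => B (f x) (g x)) v (C * a * K) := by
  obtain ⟨C, hC, h⟩ := nv_bil (d := d) B
  refine ⟨C, hC, fun m v f g a K hf ha hg => ⟨hf.bil hg.1 B, fun σ hσ => ?_⟩⟩
  refine (h m σ f g hf hg.1 hσ).1.trans ?_
  rw [mul_assoc (C * a)]
  exact mul_le_mul (mul_le_mul_of_nonneg_left ha hC.le) (hg.2 σ hσ) (nv_nonneg _ _)
    (mul_nonneg hC.le ((nv_nonneg _ _).trans ha))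

end aux

theorem entry_Sy3 : ∃ C : ℝ, 0 < C ∧ ∀ (m : ℕ) (Pm : E d → E d →L[ℝ] E d) (i j : Fin d),
    Wv m Pm → W m (fun x => Pm x (eb i) j) ∧ nm m (fun x => Pm x (eb i) j) ≤ C * nv m Pm := by
  obtain ⟨C, hC, h⟩ := nm_le_nv (d := d) (X := E d →L[ℝ] E d)
  obtain ⟨K, hK, hb⟩ := bdd_Wi8 fun p : Fin d × Fin d =>
    ‖(EuclideanSpace.proj p.2 : E d →L[ℝ] ℝ).comp (ContinuousLinearMap.apply ℝ (E d) (eb p.1))‖
  refine ⟨C * K, by positivity, fun m Pm i j hP => ⟨hP ((EuclideanSpace.proj j : E d →L[ℝ] ℝ).comp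
    (ContinuousLinearMap.apply ℝ (E d) (eb i))), ?_⟩⟩
  have h1 := (h ((EuclideanSpace.proj j : E d →L[ℝ] ℝ).comp
    (ContinuousLinearMap.apply ℝ (E d) (eb i))) m m Pm hP le_rfl).trans (mul_le_mul_of_nonneg_right
    (mul_le_mul_of_nonneg_left ((le_abs_self _).trans (hb (i, j))) hC.le) (nv_nonneg _ _))
  exact h1

theorem lo_d1_Sy3 : ∃ C : ℝ, 0 < C ∧ ∀ (m : ℕ) (v : E d → E n) (j : Fin d), Wv (m + 1) v →
    LoSy3 m (fun x => d1 v x (eb j)) v C := by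
  obtain ⟨C, hC, h⟩ := nv_clm (d := d) (X := E d →L[ℝ] E n) (Y := E n)
  obtain ⟨C', hC', h'⟩ := nv_fderiv (d := d) (X := E n)
  obtain ⟨K, hK, hb⟩ := bdd_Wi8 fun j : Fin d => ‖ContinuousLinearMap.apply ℝ (E n) (eb j)‖
  refine ⟨C * K * C', by positivity, fun m v j hv =>
    ⟨hv.dif.clm (ContinuousLinearMap.apply ℝ (E n) (eb j)), fun σ hσ => ?_⟩⟩
  refine (h (ContinuousLinearMap.apply ℝ (E n) (eb j)) m σ _ hv.dif (le_of_abs_le hσ)).trans ?_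
  rw [mul_assoc (C * K)]
  exact mul_le_mul (mul_le_mul_of_nonneg_left ((le_abs_self _).trans (hb j)) hC.le)
    (h' m σ v hv (le_of_abs_le hσ)) (nv_nonneg _ _) (by positivity)

theorem pd_Sy3 {m : ℕ} {χ : E d → ℝ} (h : W (m + 2) χ) (i j : Fin d) :
    (W m (pd i χ) ∧ nm m (pd i χ) ≤ nm (m + 2) χ) ∧
      W m (pd i (pd j χ)) ∧ nm m (pd i (pd j χ)) ≤ nm (m + 2) χ := by
  have h1 : ∀ i, W (m + 1) (pd i χ) := fun i => W.dif (n := m + 1) h i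
  have h2 : ∀ i, nm (m + 1) (pd i χ) ≤ nm (m + 2) χ := fun i => by
    have := W.nm_pd (n := m + 1) h i (σ := m + 1) (by push_cast; omega)
    rwa [add_assoc, one_add_one_eq_two] at this
  exact ⟨⟨(h1 i).mono (Nat.le_succ m),
    ((h1 i).nm_mono (by omega) (by push_cast; omega)).trans (h2 i)⟩, (h1 j).dif i,
    ((h1 j).nm_pd i le_rfl).trans (h2 j)⟩

theorem lo_dchi_Sy3 : ∃ C : ℝ, 0 < C ∧ ∀ (m : ℕ) (χ : E d → ℝ), W (m + 2) χ →
    Wv m (d1 χ) ∧ nv m (d1 χ) ≤ C * nm (m + 2) χ := by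
  obtain ⟨C, hC, h⟩ := nv_fderiv (d := d) (X := ℝ)
  obtain ⟨C', hC', h'⟩ := nv_smul_const (d := d) (X := ℝ)
  refine ⟨C * C', by positivity, fun m χ hχ => ?_⟩
  have h1 : Wv (m + 1) χ := Wv_real.2 (hχ.mono (by omega))
  refine ⟨h1.dif, (h m m χ h1 le_rfl).trans ?_⟩
  have h2 := h' 1 (m + 1) χ
  simp only [smul_eq_mul, mul_one, norm_one] at h2
  rw [mul_assoc]
  exact mul_le_mul_of_nonneg_left (h2.trans (mul_le_mul_of_nonneg_left
    (hχ.nm_mono (by omega) (by push_cast; omega)) hC'.le)) hC.le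

theorem d12_smul {χ : E d → ℝ} {v : E d → E n} (hχ : ContDiff ℝ 2 χ) (hv : ContDiff ℝ 2 v)
    (x a b : E d) :
    d1 (fun z => χ z • v z) x a = χ x • d1 v x a + d1 χ x a • v x ∧
      d2 (fun z => χ z • v z) x a b = χ x • d2 v x a b + d1 χ x a • d1 v x b +
        d1 χ x b • d1 v x a + d2 χ x a b • v x := by
  have dχ := hχ.differentiable two_ne_zero
  have dv := hv.differentiable two_ne_zero
  have h1 : ∀ z b, d1 (fun z => χ z • v z) z b = χ z • d1 v z b + d1 χ z b • v z := fun z b => by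
    rw [d1, fderiv_fun_smul (dχ z) (dv z)]
    rfl
  refine ⟨h1 x a, ?_⟩
  rw [d2_apply_Sy3 (F := fun z => χ z • v z) (hχ.smul hv), d2_apply_Sy3 hχ, d2_apply_Sy3 hv]
  simp only [h1]
  rw [fderiv_fun_add ((dχ x).fun_smul (d1_diff_Sy3 hv b x)) ((d1_diff_Sy3 hχ b x).fun_smul (dv x)),
    fderiv_fun_smul (dχ x) (d1_diff_Sy3 hv b x), fderiv_fun_smul (d1_diff_Sy3 hχ b x) (dv x)]
  simp only [add_apply, smul_apply, ContinuousLinearMap.smulRight_apply]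
  abel

/-- The commutator of a second order operator without lower order terms. -/
theorem tr2_comm_W : ∃ C : ℝ, 0 < C ∧ ∀ (m : ℕ) (χ : E d → ℝ) (v : E d → E n)
    (Pm : E d → E d →L[ℝ] E d), W (m + 2) χ → Wv (m + 1) v → ContDiff ℝ 2 v → Wv m Pm →
    Wv m (fun x => tr2 (d2 (fun z => χ z • v z) x) (Pm x) - χ x • tr2 (d2 v x) (Pm x)) ∧
      ∀ σ : ℤ, |σ| ≤ m →
        nv σ (fun x => tr2 (d2 (fun z => χ z • v z) x) (Pm x) - χ x • tr2 (d2 v x) (Pm x)) ≤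
          C * nm (m + 2) χ * nv m Pm * nv (σ + 1) v := by
  obtain ⟨K₁, hK₁, h1⟩ := entry_Sy3 (d := d)
  obtain ⟨K₂, hK₂, h2⟩ := lo_d1_Sy3 (d := d) (n := n)
  refine ⟨(d * d + 1) * K₁ * (2 * K₂ + 1), by positivity, fun m χ v Pm hχ hv hc hP => ?_⟩
  have cχ : ContDiff ℝ 2 χ := (hχ.mono (Nat.le_add_left 2 m)).contDiff
  have e : (fun x => tr2 (d2 (fun z => χ z • v z) x) (Pm x) - χ x • tr2 (d2 v x) (Pm x)) =
      fun x => ∑ i, ∑ j, Pm x (eb i) j • (pd i χ x • d1 v x (eb j) + pd j χ x • d1 v x (eb i) +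
        pd i (pd j χ) x • v x) := by
    funext x
    rw [tr2, tr2, Finset.smul_sum, ← Finset.sum_sub_distrib]
    refine Finset.sum_congr rfl fun i _ => ?_
    rw [eb_exp_Wi8 (d2 (fun z => χ z • v z) x (eb i)), eb_exp_Wi8 (d2 v x (eb i)), Finset.smul_sum,
      ← Finset.sum_sub_distrib]
    refine Finset.sum_congr rfl fun j _ => ?_
    rw [(d12_smul cχ hc x _ _).2, d2_pd_Wi8 cχ, smul_comm (χ x), ← smul_sub]
    congr 1
    simp only [pd]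
    abel
  have h3 := lo_sum_Sy3 fun i => lo_sum_Sy3 fun j =>
    ((((h2 m v j hv).smul (pd_Sy3 hχ i j).1.1 (pd_Sy3 hχ i j).1.2).add
      ((h2 m v i hv).smul (pd_Sy3 hχ j i).1.1 (pd_Sy3 hχ j i).1.2)).add
      ((lo_self_Sy3 hv).smul (pd_Sy3 hχ i j).2.1 (pd_Sy3 hχ i j).2.2)).smul (h1 m Pm i j hP).1
      (h1 m Pm i j hP).2
  rw [e]
  refine h3.mono ?_
  have a1 := nm_nonneg (m + 2) χ
  have a2 := nv_nonneg m Pm
  have a3 : 0 ≤ K₁ * (2 * K₂ + 1) * nm (m + 2) χ * nv m Pm := by positivity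
  rw [Fintype.card_fin]
  linarith

theorem CM_le : ∃ ε₀ C : ℝ, 0 < ε₀ ∧ 0 < C ∧ ∀ (s : ℕ) (u v : E d → E n) (χ : E d → ℝ) (ε : ℝ),
    Sml s u ε → ε ≤ ε₀ → W (s + 2) χ → Wv (s + 2) v → Wv s (CM u χ v) ∧
      ∀ σ : ℤ, |σ| ≤ s → nv σ (CM u χ v) ≤ C * nm (s + 2) χ * nv (σ + 1) v := by
  obtain ⟨ε₀, Ci, hε₀, hCi, hi⟩ := iu_W (d := d) (n := n)
  obtain ⟨Cc, hCc, hc⟩ := tr2_comm_W (d := d) (n := n)
  obtain ⟨Cd, hCd, hd⟩ := nv_d12 (d := d) (n := n)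
  obtain ⟨Cχ, hCχ, hχ'⟩ := lo_dchi_Sy3 (d := d)
  obtain ⟨T, hT⟩ := exists_tr2L (d := d) (X := E n)
  obtain ⟨C0, hC0, h0⟩ := lo_bil_Sy3 (d := d) (n := n)
    (ContinuousLinearMap.smulRightL ℝ (E d) (E n))
  obtain ⟨B, hB⟩ : ∃ B : (E d →L[ℝ] E n) →L[ℝ] (E d →L[ℝ] E n) →L[ℝ] (E d →L[ℝ] E d),
      ∀ A A', B A A' = (ad A).comp A' :=
    ⟨(ContinuousLinearMap.compL ℝ (E d) (E n) (E d)).comp ad, fun _ _ => rfl⟩
  obtain ⟨C1, hC1, h1⟩ := lo_bil_Sy3 (d := d) (n := n) B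
  obtain ⟨C2, hC2, h2⟩ := lo_bil_Sy3 (d := d) (n := n) B.flip
  obtain ⟨C3, hC3, h3⟩ := lo_bil_Sy3 (d := d) (n := n)
    (ContinuousLinearMap.compL ℝ (E d) (E d) (E d))
  obtain ⟨C4, hC4, h4⟩ := lo_bil_Sy3 (d := d) (n := n)
    (ContinuousLinearMap.compL ℝ (E d) (E d) (E d)).flip
  obtain ⟨C5, hC5, h5⟩ := lo_bil_Sy3 (d := d) (n := n) (X := E d →L[ℝ] E d →L[ℝ] E n)
    (Y := E d →L[ℝ] E d) (Z := E n) T
  refine ⟨ε₀, Cc * Ci + C5 * (Cd * ε₀) * (C3 * Ci * (C4 * Ci * ((C2 + C1) * (Cd * ε₀) *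
    (C0 * Cχ)))), hε₀, by positivity, fun s u v χ ε hu hε hχ hv => ?_⟩
  obtain ⟨-, i1, -, -, i2⟩ := hi s u ε hu hε
  have i3 : Wv s (iu u) := i1.mono (Nat.le_succ s)
  have i4 : nv s (iu u) ≤ Ci := (i1.nv_mono (by omega) (by push_cast; omega)).trans i2
  obtain ⟨u1, u2, u3⟩ := hd s u hu.w
  have u4 : Cd * nv (s + 2) u ≤ Cd * ε₀ := mul_le_mul_of_nonneg_left (hu.le.trans hε) hCd.le
  have u5 : nv s (d1 u) ≤ Cd * ε₀ :=
    ((u1.nv_mono (by omega) (by push_cast; omega)).trans (u3 s le_rfl).1).trans u4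
  have u6 : nv s (d2 u) ≤ Cd * ε₀ := (u3 s le_rfl).2.2.trans u4
  have u7 : Wv s (d1 u) := u1.mono (Nat.le_succ s)
  have v1 : Wv (s + 1) v := hv.mono (by omega)
  have cχ : ContDiff ℝ 2 χ := (hχ.mono (Nat.le_add_left 2 s)).contDiff
  have a0 : LoSy3 s _ v _ := hc s χ v (iu u) hχ v1 hv.two_Wi8 i3
  have a1 := h0 s v _ _ _ _ (hχ' s χ hχ).1 (hχ' s χ hχ).2 (lo_self_Sy3 v1)
  have a2 := h5 s v _ _ _ _ u2 u6 (h3 s v _ _ _ _ i3 i4 (h4 s v _ _ _ _ i3 i4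
    ((h2 s v _ _ _ _ u7 u5 a1).add (h1 s v _ _ _ _ u7 u5 a1))))
  have a3 := (a0.mono (mul_le_mul_of_nonneg_left i4
    (mul_nonneg hCc.le (nm_nonneg _ _)))).sub a2
  have e : ∀ x, d1 (fun z => χ z • v z) x = χ x • d1 v x + (d1 χ x).smulRight (v x) := fun x =>
    fderiv_fun_smul (cχ.differentiable two_ne_zero x) (hv.two_Wi8.differentiable two_ne_zero x)
  change LoSy3 s (CM u χ v) v _
  convert a3 using 1
  · funext x
    simp only [CM, JJ_eq, dgu, e, ← hT, hB, ContinuousLinearMap.flip_apply,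
      ContinuousLinearMap.compL_apply, ContinuousLinearMap.smulRightL_apply_apply, map_add,
      map_smul, ContinuousLinearMap.add_comp, ContinuousLinearMap.comp_add,
      ContinuousLinearMap.smul_comp, ContinuousLinearMap.comp_smul, smul_sub, smul_add]
    abel
  · ring

theorem CM_congr (u : E d → E n) (χ : E d → ℝ) {v v' : E d → E n} {x : E d} (h : v =ᶠ[𝓝 x] v') :
    CM u χ v x = CM u χ v' x := by
  have h1 : (fun z => χ z • v z) =ᶠ[𝓝 x] fun z => χ z • v' z :=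
    h.mono fun z hz => by simp only [hz]
  rw [CM, CM, JJ_congr u h, JJ_congr u h1]

theorem CM_zero (u v : E d → E n) {χ : E d → ℝ} {x : E d} (h : χ =ᶠ[𝓝 x] fun _ => 0) :
    CM u χ v x = 0 ∧ JJ u (fun z => χ z • v z) x = 0 := by
  have h1 : (fun z => χ z • v z) =ᶠ[𝓝 x] fun _ => 0 := h.mono fun z hz => by
    simp only [hz, zero_smul]
  have h2 : JJ u (fun z => χ z • v z) x = 0 := by
    have e1 : fderiv ℝ (fun _ : E d => (0 : E n)) = fun _ => 0 := funext fun _ => by simp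
    rw [JJ_congr u h1, JJ_eq]
    simp [tr2, dgu, d2, d1, e1]
  have h3 : χ x = 0 := h.eq_of_nhds
  exact ⟨by rw [CM, h2, h3, zero_smul, sub_zero], h2⟩

end Pool.Agent.Lib.MP_8daebb_an.GM.Ch
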