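import Pool.Agent.Lib.MP_8daebb_an.GM.Sy7
import Pool.Agent.Lib.MP_8daebb_an.GM.Sy3

/-! Smoothness of small solutions. -/

open MeasureTheory Metric Set Filter Topology
open scoped RealInnerProductSpace ContDiff ENNReal

namespace Pool.Agent.Lib.MP_8daebb_an.GM.Ch

variable {d n : ℕ}

theorem half_dgu_Sy8 (u : E d → E n) (y : E d) :
    (1 / 2 : ℝ) • dgu u u y = (ad (d1 u y)).comp (d1 u y) := by
  rw [dgu, ← two_smul ℝ, smul_smul]
  norm_num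

theorem germ_step : ∃ ε₀ : ℝ, 0 < ε₀ ∧ ∀ (m : ℕ) (u g : E d → E n) (x : E d), Sml 0 u ε₀ →
    ‖x‖ < 5 / 2 → (∀ᶠ y in 𝓝 x, NN u y = 0) → Wv (m + 2) g → u =ᶠ[𝓝 x] g →
    ∃ g' : E d → E n, Wv (m + 3) g' ∧ u =ᶠ[𝓝 x] g' := by
  obtain ⟨ε₁, C₁, hε₁, hC₁, hinv⟩ := gain_inv (d := d)
  obtain ⟨ε₂, hε₂, htwo⟩ := gain_two (d := d) (n := n)
  obtain ⟨C, hC, hdg⟩ := dgu_le (d := d) (n := n)
  obtain ⟨C₃, -, hcm⟩ := tr2_comm_W (d := d) (n := n)
  obtain ⟨T, hT⟩ := exists_tr2L (d := d) (X := E n)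
  set δ : ℝ := min ε₁ (ε₂ / C₁) with hδ
  have hδ0 : 0 < δ := lt_min hε₁ (div_pos hε₂ hC₁)
  refine ⟨min 1 (δ / C), lt_min one_pos (div_pos hδ0 hC), fun m u g x hu hx hN hg he => ?_⟩
  have hu1 : Wv 1 u := hu.w.mono (by omega)
  have hn1 : nv 1 u ≤ min 1 (δ / C) := by
    refine le_trans (hu.w.nv_mono (τ := ((0 : ℕ) : ℤ) + 2) (by norm_num) (by norm_num)) hu.le
  obtain ⟨hW0, hb0⟩ := hdg 0 u u hu1 hu1
  have hb : nv 0 (dgu u u) ≤ δ := by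
    have h1 := hb0 0 (by simp)
    simp only [Nat.cast_zero, zero_add] at h1
    have h2 := nv_nonneg 1 u
    have h3 : nv 1 u ≤ 1 := hn1.trans (min_le_left _ _)
    have h4 : nv 1 u * C ≤ δ := (le_div_iff₀ hC).1 (hn1.trans (min_le_right _ _))
    nlinarith [mul_nonneg h2 hC.le]
  have hh : Wv 0 fun y => (1 / 2 : ℝ) • dgu u u y := hW0.const_smul _
  have hhn : nv 0 (fun y => (1 / 2 : ℝ) • dgu u u y) ≤ δ / 2 := by
    rw [nv_const_smul, abs_of_pos (by norm_num)]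
    linarith
  have hgg : Wv (m + 1) fun y => (1 / 2 : ℝ) • dgu g g y := (hdg (m + 1) g g hg hg).1.const_smul _
  have hee : (fun y => (1 / 2 : ℝ) • dgu u u y) =ᶠ[𝓝 x] fun y => (1 / 2 : ℝ) • dgu g g y := by
    filter_upwards [he.fderiv (𝕜 := ℝ)] with y hy
    rw [half_dgu_Sy8, half_dgu_Sy8, d1, d1, hy]
  obtain ⟨k, hk, hkn, hke⟩ := germ_small hx hh hgg hee (half_pos hδ0)
  have hkδ : nv 0 k ≤ δ := by linarith
  obtain ⟨hP, hPn⟩ := hinv (m + 1) k hk (hkδ.trans (min_le_left _ _))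
  set P : E d → E d →L[ℝ] E d := fun y => Ring.inverse (1 + k y) with hPd
  have hPn' : nv 0 (fun y => P y - 1) ≤ ε₂ := by
    refine hPn.trans ?_
    have h1 : nv 0 k * C₁ ≤ ε₂ := (le_div_iff₀ hC₁).1 (hkδ.trans (min_le_right _ _))
    linarith
  have hU : {y | (u =ᶠ[𝓝 y] g) ∧ P y = iu u y ∧ NN u y = 0} ∈ 𝓝 x := by
    filter_upwards [he.eventually_nhds, hke, hN] with y h1 h2 h3
    refine ⟨h1, ?_, h3⟩
    rw [hPd]
    beta_reduce
    rw [h2, half_dgu_Sy8, iu, gu]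
  obtain ⟨χ, r, -, hχ, hχ1, hsub, -, hχ0⟩ := exists_cut_pt hx hU
  have hg' : Wv (m + 2) fun y => χ y • g y := hg.smul (hχ _)
  have hg2 : ContDiff ℝ 2 g := (hg.mono (Nat.le_add_left 2 m)).contDiff
  have hF : Wv m fun y => χ y • tr2 (d2 g y) (P y) := by
    have h1 : Wv m (d2 g) := Wv.dif (Wv.dif (n := m + 1) hg)
    have h2 := h1.bil (hP.mono (Nat.le_succ m)) T
    simp only [hT] at h2
    exact h2.smul (hχ _)
  have hF0 : (fun y => χ y • tr2 (d2 g y) (P y)) = fun _ => 0 := by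
    refine hF.ext (Wv_const (n := 0) 0) fun y hy => ?_
    by_cases hyr : y ∈ closedBall x r
    · obtain ⟨h1, h2, h3⟩ := hsub hyr
      have h4 : d2 g y = d2 u y := (h1.fderiv (𝕜 := ℝ)).fderiv_eq.symm
      beta_reduce
      rw [h4, h2, ← NN, h3, smul_zero]
    · beta_reduce
      rw [hχ0 y hy hyr, zero_smul]
  have hc := (hcm (m + 1) χ g P (hχ _) hg hg2 hP).1
  have hc' : Wv (m + 1) fun y => tr2 (d2 (fun z => χ z • g z) y) (P y) := by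
    have e : (fun y => tr2 (d2 (fun z => χ z • g z) y) (P y)) =
        fun y => tr2 (d2 (fun z => χ z • g z) y) (P y) - χ y • tr2 (d2 g y) (P y) := by
      funext y
      rw [congrFun hF0 y, sub_zero]
    rw [e]
    exact hc
  refine ⟨fun y => χ y • g y,
    htwo (m + 1) P _ hP hPn' (hg'.mono (Nat.le_add_left 2 m)) hc', ?_⟩
  filter_upwards [he, hχ1] with y h1 h2
  rw [h1, h2, one_smul]

theorem NN_smooth : ∃ ε₀ : ℝ, 0 < ε₀ ∧ ∀ (u : E d → E n) (Ω : Set (E d)), Sml 0 u ε₀ → IsOpen Ω →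
    Ω ⊆ ball 0 (5 / 2) → (∀ x ∈ Ω, NN u x = 0) → ContDiffOn ℝ ∞ u Ω := by
  obtain ⟨ε₀, hε₀, h⟩ := germ_step (d := d) (n := n)
  refine ⟨ε₀, hε₀, fun u Ω hu hΩ hsub hN x hx => ContDiffAt.contDiffWithinAt ?_⟩
  have hx' : ‖x‖ < 5 / 2 := by simpa using hsub hx
  have hN' : ∀ᶠ y in 𝓝 x, NN u y = 0 := by
    filter_upwards [hΩ.mem_nhds hx] with y hy using hN y hy
  have key : ∀ m : ℕ, ∃ g : E d → E n, Wv (m + 2) g ∧ u =ᶠ[𝓝 x] g := by
    intro m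
    induction m with
    | zero => exact ⟨u, hu.w, EventuallyEq.rfl⟩
    | succ m ih =>
      obtain ⟨g, hg, he⟩ := ih
      exact h m u g x hu hx' hN' hg he
  refine contDiffAt_infty.2 fun m => ?_
  obtain ⟨g, hg, he⟩ := key m
  exact (hg.mono (Nat.le_add_right m 2)).contDiff.contDiffAt.congr_of_eventuallyEq he

end Pool.Agent.Lib.MP_8daebb_an.GM.Ch
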