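import Pool.Agent.Lib.MP_8daebb_an.GM.Ad2
import Pool.Agent.Lib.MP_8daebb_an.GM.Sy8

/-! The limit centre is a smooth graph. -/

open MeasureTheory Metric Set Filter Topology
open scoped RealInnerProductSpace ContDiff ENNReal

namespace Pool.Agent.Lib.MP_8daebb_an.GM.Ch

variable {d n : ℕ} {H : Type*} [NormedAddCommGroup H] [InnerProductSpace ℝ H]
  [FiniteDimensional ℝ H] {ι : E d →ₗᵢ[ℝ] H} {κ : E n →ₗᵢ[ℝ] H}

theorem norm_le_Z4 (h : Spl ι κ) (a : E d) (b : E n) : ‖a‖ ≤ ‖ι a + κ b‖ := by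
  refine (pow_le_pow_iff_left₀ (norm_nonneg _) (norm_nonneg _) two_ne_zero).1 ?_
  rw [h.norm_sq]
  exact le_add_of_nonneg_right (sq_nonneg _)

theorem smooth_Z4 {u : E d → E n} (hu : ContDiffOn ℝ ∞ u (ball 0 (1 / 5)))
    (χ : ContDiffBump (0 : E d)) (hχ : χ.rOut < 1 / 5) : ContDiff ℝ ∞ fun p => χ p • u p := by
  refine contDiff_iff_contDiffAt.2 fun p => ?_
  by_cases hp : ‖p‖ < 1 / 5
  · exact χ.contDiff.contDiffAt.smul
      (hu.contDiffAt (isOpen_ball.mem_nhds (mem_ball_zero_iff.2 hp)))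
  · have h1 : ∀ᶠ q in 𝓝 p, χ.rOut < ‖q‖ :=
      (isOpen_lt continuous_const continuous_norm).mem_nhds (hχ.trans_le (not_lt.1 hp))
    refine (contDiffAt_const (c := (0 : E n))).congr_of_eventuallyEq ?_
    filter_upwards [h1] with q hq
    rw [χ.zero_of_le_dist (by simpa using hq.le), zero_smul]

theorem graph_of_centre : ∃ ε₀ : ℝ, 0 < ε₀ ∧ ∀ (ι : E d →ₗᵢ[ℝ] H) (κ : E n →ₗᵢ[ℝ] H) (c : Cen d n)
    (ε r₁ r₂ : ℝ) (S : Set H), Spl ι κ → Adm ι κ c ε (1 / 4) → ε ≤ ε₀ → 0 < r₁ → 0 < r₂ →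
    c.F ι κ 0 = 0 → S ∩ ball 0 r₁ ⊆ range (c.F ι κ) → (∀ z : E d, ‖z‖ < r₂ → c.F ι κ z ∈ S) →
    GraphAt0 S ι := by
  obtain ⟨ε₁, hε₁, hsm⟩ := NN_smooth (d := d) (n := n)
  refine ⟨min ε₁ (1 / 10), lt_min hε₁ (by norm_num),
    fun ι κ c ε r₁ r₂ S hs ha hε hr₁ hr₂ h0 h1 h2 => ?_⟩
  have hε' : ε ≤ 1 / 10 := hε.trans (min_le_right _ _)
  have hfr := ha.fr hε'
  obtain ⟨-, i1, -, -, -, i2⟩ := hfr.inv
  have hx₀ : c.x₀ = 0 := by
    have h3 := hs.vx_gr c.u (c.x₀ + c.A 0)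
    have h4 : gr ι κ c.u (c.x₀ + c.A 0) = 0 := h0
    rw [h4, vx, map_zero, map_zero, add_zero] at h3
    exact h3.symm
  have hu : ContDiffOn ℝ ∞ c.u (ball 0 (1 / 5)) := by
    refine hsm c.u _ ((ha.sml.mono_s (Nat.zero_le _)).mono (hε.trans (min_le_left _ _)))
      isOpen_ball (ball_subset_ball (by norm_num)) fun x hx => ha.eqn_el hε' x ?_
    have h3 := (i2 x).2
    rw [mem_ball_zero_iff] at hx
    show ‖Ring.inverse c.A (x - c.x₀)‖ < 1 / 4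
    rw [hx₀, sub_zero]
    linarith
  let χ : ContDiffBump (0 : E d) := ⟨1 / 8, 1 / 6, by norm_num, by norm_num⟩
  have hχ : ∀ x : E d, ‖x‖ < 1 / 10 → χ x = 1 := fun x hx =>
    χ.one_of_mem_closedBall (mem_closedBall_zero_iff.2 (hx.le.trans (by norm_num [χ])))
  refine ⟨min r₁ (min (r₂ / 2) (1 / 10)), by positivity, fun p => κ (χ p • c.u p),
    κ.toContinuousLinearMap.contDiff.comp (smooth_Z4 hu χ (by norm_num [χ])),
    fun p q => by rw [real_inner_comm, hs.orth], ?_⟩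
  ext p
  constructor
  · rintro ⟨hp, hb⟩
    refine ⟨?_, hb⟩
    rw [mem_ball_zero_iff, lt_min_iff, lt_min_iff] at hb
    obtain ⟨z, hz⟩ := h1 ⟨hp, mem_ball_zero_iff.2 hb.1⟩
    have h3 : ι (c.x₀ + c.A z) + κ (c.u (c.x₀ + c.A z)) = p := hz
    have h4 := norm_le_Z4 hs (c.x₀ + c.A z) (c.u (c.x₀ + c.A z))
    rw [h3] at h4
    refine ⟨c.x₀ + c.A z, ?_⟩
    beta_reduce
    rw [hχ _ (h4.trans_lt hb.2.2), one_smul, h3]
  · rintro ⟨⟨x, hx⟩, hb⟩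
    refine ⟨?_, hb⟩
    rw [mem_ball_zero_iff, lt_min_iff, lt_min_iff] at hb
    beta_reduce at hx
    have h4 := norm_le_Z4 hs x (χ x • c.u x)
    rw [hx] at h4
    rw [hχ _ (h4.trans_lt hb.2.2), one_smul] at hx
    have h5 := (i2 x).2
    have h6 := h2 (Ring.inverse c.A x) (by linarith [hb.2.1, norm_nonneg p])
    have h7 : c.F ι κ (Ring.inverse c.A x) = p := by
      show gr ι κ c.u (c.x₀ + c.A (Ring.inverse c.A x)) = p
      rw [i1, hx₀, zero_add]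
      exact hx
    rwa [h7] at h6

end Pool.Agent.Lib.MP_8daebb_an.GM.Ch
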