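import Pool.Agent.Lib.MP_8daebb_an.GM.Z1
import Pool.Agent.Lib.MP_8daebb_an.GM.Z4
import Pool.Agent.Lib.MP_8daebb_an.GM.ChZ2
import Pool.Agent.Lib.MP_8daebb_an.GM.ChZ3

/-! The case of zero energy. -/

open MeasureTheory Metric Set Filter Topology
open scoped RealInnerProductSpace ContDiff ENNReal

namespace Pool.Agent.Lib.MP_8daebb_an.GM.Ch

variable {d n : ℕ} {H : Type*} [NormedAddCommGroup H] [InnerProductSpace ℝ H]
  [FiniteDimensional ℝ H] [MeasurableSpace H] [BorelSpace H]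

theorem sysB : ∃ e₀ : ℝ, 0 < e₀ ∧ ∀ (V : Measure (H × (H →L[ℝ] H))) (ι : E d →ₗᵢ[ℝ] H)
    (κ : E n →ₗᵢ[ℝ] H) (M θ η e₁ : ℝ), Spl ι κ → EV V ι M θ η → η ≤ e₀ → e₁ ≤ e₀ →
    (∀ τ > 0, ∃ (c : Cen d n) (R : ℝ), 1 / 2 ≤ R ∧ R ≤ 2 ∧ Adm ι κ c (2 * e₁) R ∧
      (chart V (c.F ι κ) R).En 0 (1 / 2) ≤ τ) → GraphAt0 V.fst.support ι := by
  obtain ⟨ε₁, hε₁, hm⟩ := montel (d := d) (n := n) (H := H)
  obtain ⟨ε₂, hε₂, hg⟩ := graph_of_centre (d := d) (n := n) (H := H)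
  obtain ⟨C, hC, hp⟩ := adm_pre (d := d) (n := n) (H := H)
  have hc := cH_ge (H := H)
  have hω := omega_pos d
  have hq : 0 < 1 / (8 * (cH H * C)) := by positivity
  refine ⟨min (min (ε₁ / 2) (ε₂ / 2)) (min (1 / (8 * (cH H * C))) (omega d / 2)), by positivity,
    fun V ι κ M θ η e₁ hs hV hη he h => ?_⟩
  simp only [le_min_iff] at hη he
  obtain ⟨-, n1, n2⟩ := hη
  obtain ⟨⟨e1, e2⟩, e3, -⟩ := he
  have hη0 := ev_eps_nonneg hV
  rw [le_div_iff₀ (by positivity)] at n1 e3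
  have k1 : cH H * (C * (2 * e₁)) ≤ 1 / 4 := by nlinarith
  have k2 : cH H * η ≤ 1 / 8 := by
    nlinarith [mul_nonneg (mul_nonneg hη0 (by linarith : (0 : ℝ) ≤ cH H)) (by linarith : (0 : ℝ) ≤ C - 1)]
  have hη' : η ≤ 1 / 100 := by nlinarith
  have h' : ∀ j : ℕ, ∃ (c : Cen d n) (R : ℝ), 1 / 2 ≤ R ∧ R ≤ 2 ∧ Adm ι κ c (2 * e₁) R ∧
      (chart V (c.F ι κ) R).En 0 (1 / 2) ≤ (1 / 2) ^ j := fun j => h _ (by positivity)
  choose c R h1 h2 h3 h4 using h'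
  obtain ⟨c₀, φ, hφ, hc₀, hcont, hlim⟩ :=
    hm ι κ (2 * e₁) c hs (by linarith) fun j => (h3 j).mono le_rfl (h1 j)
  have hsub := supp_sub hV hη' (F := fun j => (c (φ j)).F ι κ) (o := fun _ => 0)
    (R := fun j => R (φ j))
    (fun j => hp ι κ _ _ _ hs (h3 _) (by linarith) (by linarith [h2 (φ j)]))
    (fun j => (h3 _).org) (fun j => h1 _)
    (fun j => (h4 _).trans (pow_le_pow_of_le_one (by norm_num) (by norm_num) (hφ.id_le j)))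
    hcont.continuousOn hlim
  have hc₁ : Adm ι κ c₀ (2 * e₁) (1 / 4) := hc₀.mono le_rfl (by norm_num)
  obtain ⟨h0, hsup⟩ := sub_supp (hp ι κ _ _ _ hs hc₁ (by linarith) (by norm_num)) hc₁.org hV
    (by linarith [mul_add (cH H) (C * (2 * e₁)) η]) (by linarith) hsub
  exact hg ι κ c₀ _ (1 / 10) (1 / 50) _ hs hc₁ (by linarith) (by norm_num) (by norm_num) h0
    (hsub.trans (image_subset_range _ _)) hsup

end Pool.Agent.Lib.MP_8daebb_an.GM.Ch
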