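import Pool.Agent.Lib.MP_8daebb_an.GM.ChD0

/-! The metric of a centre; affine changes of the parameter. -/

open Metric Set Filter Topology
open scoped RealInnerProductSpace ContDiff

namespace Pool.Agent.Lib.MP_8daebb_an.GM.Ch

variable {d : ℕ} {H : Type*} [NormedAddCommGroup H] [InnerProductSpace ℝ H]
  [FiniteDimensional ℝ H]

variable {ι : E d →ₗᵢ[ℝ] H} {F : E d → H} {o : E d} {ε R : ℝ} {Ω : Set (E d)} {z : E d}

theorem Mn.sm_gm (h : Mn ι F ε Ω) : ContDiffOn ℝ 2 (fun z => gm (d1 F z)) Ω := by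
  exact (contDiff_gm.of_le (WithTop.coe_le_coe.2 (le_top (a := (2 : ℕ∞))))).comp_contDiffOn h.sm1

theorem Mn.sm_gi (h : Mn ι F ε Ω) (hε : cH H * ε ≤ 1) :
    ContDiffOn ℝ 2 (fun z => gi (d1 F z)) Ω := by
  exact fun z hz => ((h.jet0 hε hz).contDiffAt_gi.of_le
    (WithTop.coe_le_coe.2 (le_top (a := (2 : ℕ∞))))).comp_contDiffWithinAt z (h.sm1 z hz)

theorem Mn.sm_wt (h : Mn ι F ε Ω) (hε : cH H * ε ≤ 1) :
    ContDiffOn ℝ 2 (fun z => wt (d1 F z)) Ω := by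
  exact fun z hz => ((h.jet0 hε hz).contDiffAt_wt.of_le
    (WithTop.coe_le_coe.2 (le_top (a := (2 : ℕ∞))))).comp_contDiffWithinAt z (h.sm1 z hz)

theorem Mn.sm_am (h : Mn ι F ε Ω) (hε : cH H * ε ≤ 1) :
    ContDiffOn ℝ 2 (fun z => am (d1 F z)) Ω := by
  exact fun z hz => ((h.jet0 hε hz).contDiffAt_am.of_le
    (WithTop.coe_le_coe.2 (le_top (a := (2 : ℕ∞))))).comp_contDiffWithinAt z (h.sm1 z hz)

theorem Mn.der_gi (h : Mn ι F ε Ω) (hε : cH H * ε ≤ 1) (hz : z ∈ Ω) :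
    HasFDerivAt (fun z => gi (d1 F z)) ((dgiL (d1 F z)).comp (d2 F z)) z := by
  exact (h.jet0 hε hz).hasFDerivAt_gi.comp z (h.der1 hz)

theorem Mn.der_wt (h : Mn ι F ε Ω) (hε : cH H * ε ≤ 1) (hz : z ∈ Ω) :
    HasFDerivAt (fun z => wt (d1 F z)) (wt (d1 F z) • dlw (d1 F z) (d2 F z)) z := by
  exact (h.jet0 hε hz).hasFDerivAt_wt.comp z (h.der1 hz)

theorem Mn.der_am (h : Mn ι F ε Ω) (hε : cH H * ε ≤ 1) (hz : z ∈ Ω) :
    HasFDerivAt (fun z => am (d1 F z)) ((damL (d1 F z)).comp (d2 F z)) z := by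
  exact (h.jet0 hε hz).hasFDerivAt_am.comp z (h.der1 hz)

theorem Mn.fderiv_wt_le (h : Mn ι F ε Ω) (hε : cH H * ε ≤ 1) (hz : z ∈ Ω) :
    ‖fderiv ℝ (fun z => wt (d1 F z)) z‖ ≤ 3 * d * ε := by
  have hj := h.jet0 hε hz
  rw [(h.der_wt hε hz).fderiv, norm_smul, Real.norm_eq_abs, abs_of_pos hj.wt_pos]
  have h1 : ‖dlw (d1 F z) (d2 F z)‖ ≤ 2 * d * ε :=
    ((lwL (d1 F z)).opNorm_comp_le (d2 F z)).trans
      (mul_le_mul hj.norm_lwL (h.n1 z hz) (norm_nonneg _) (by positivity))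
  have h2 : 0 ≤ (d : ℝ) * ε := mul_nonneg (by positivity) hj.eps0
  calc _ ≤ 101 / 100 * (2 * d * ε) := mul_le_mul hj.wt_up h1 (norm_nonneg _) (by norm_num)
    _ ≤ _ := by linarith

theorem Mn.fderiv_am_le (h : Mn ι F ε Ω) (hε : cH H * ε ≤ 1) (hz : z ∈ Ω) :
    ‖fderiv ℝ (fun z => am (d1 F z)) z‖ ≤ 4 * (d + 1) * ε := by
  rw [(h.der_am hε hz).fderiv]
  exact ((damL (d1 F z)).opNorm_comp_le (d2 F z)).trans
    (mul_le_mul (h.jet0 hε hz).norm_damL (h.n1 z hz) (norm_nonneg _) (by positivity))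

theorem Mn.div_gi (h : Mn ι F ε Ω) (hε : cH H * ε ≤ 1) (hz : z ∈ Ω) (v : E d) :
    trH ((fderiv ℝ (fun z => gi (d1 F z)) z).flip v) =
      -dlw (d1 F z) (d2 F z) (gi (d1 F z) v) := by
  rw [(h.der_gi hε hz).fderiv]
  exact (h.jet0 hε hz).div_gi (h.symm2 hz) (h.har z hz) v

theorem Mn.div_am (h : Mn ι F ε Ω) (hε : cH H * ε ≤ 1) (hz : z ∈ Ω) (v : E d) :
    trH ((fderiv ℝ (fun z => am (d1 F z)) z).flip v) = 0 := by
  rw [(h.der_am hε hz).fderiv]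
  exact (h.jet0 hε hz).div_am (h.symm2 hz) (h.har z hz) v

/-- With the normalisation at the origin the metric is Euclidean up to `O(ε |z|)`. -/
theorem Pre.met_near (h : Pre ι F o ε R) (hn : Nrm F) (hz : z ∈ ball (0 : E d) R) :
    ‖gm (d1 F z) - 1‖ ≤ 3 * ε * ‖z‖ ∧ |wt (d1 F z) - 1| ≤ 3 * d * ε * ‖z‖ ∧
      ‖am (d1 F z) - 1‖ ≤ 4 * (d + 1) * ε * ‖z‖ := by
  have h0 : (0 : E d) ∈ ball (0 : E d) R := mem_ball_self (pos_of_mem_ball hz)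
  have hl := h.toMn.lip1 (convex_ball _ _) hz h0
  rw [sub_zero] at hl
  have e1 : gm (d1 F 0) = 1 := hn
  have e2 : wt (d1 F 0) = 1 := by rw [wt, e1, det_one, Real.sqrt_one]
  have e3 : am (d1 F 0) = 1 := by rw [am, e2, gi, e1, Ring.inverse_one, one_smul]
  have a1 := (h.jet0 hz).gm_sub (h.jet0 h0)
  have a2 := (h.jet0 hz).wt_sub' (h.jet0 h0)
  have a3 := (h.jet0 hz).am_sub' (h.jet0 h0)
  rw [e1] at a1
  rw [e2] at a2
  rw [e3] at a3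
  refine ⟨a1.trans ?_, a2.trans ?_, a3.trans ?_⟩
  · rw [mul_assoc]; gcongr
  · rw [mul_assoc _ ε]; gcongr
  · rw [mul_assoc _ ε]; gcongr

/-- The metric part of the chart. -/
theorem Pre.met [MeasurableSpace H] [BorelSpace H] (h : Pre ι F o ε R) (hn : Nrm F)
    (V : MeasureTheory.Measure (H × (H →L[ℝ] H))) : Met (chart V F R) 0 R (cH H * ε) := by
  classical
  have ew : EqOn (chart V F R).w (fun z => wt (d1 F z)) (ball 0 R) := fun u hu =>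
    if_pos hu
  have eg : EqOn (chart V F R).gm (fun z => gm (d1 F z)) (ball 0 R) := fun u hu =>
    if_pos hu
  have ea : EqOn (chart V F R).am (fun z => am (d1 F z)) (ball 0 R) := fun u hu =>
    if_pos hu
  have dw : ∀ u ∈ ball (0 : E d) R, fderiv ℝ (chart V F R).w u =
      fderiv ℝ (fun z => wt (d1 F z)) u := fun u hu =>
    (ew.eventuallyEq_of_mem (isOpen_ball.mem_nhds hu)).fderiv_eq
  have da : ∀ u ∈ ball (0 : E d) R, fderiv ℝ (chart V F R).am u =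
      fderiv ℝ (fun z => am (d1 F z)) u := fun u hu =>
    (ea.eventuallyEq_of_mem (isOpen_ball.mem_nhds hu)).fderiv_eq
  have hc : ∀ u ∈ ball (0 : E d) R, 3 * ε ≤ cH H * ε ∧ 3 * d * ε ≤ cH H * ε ∧
      4 * (d + 1) * ε ≤ cH H * ε := fun u hu => by
    have h1 := (h.jet0 hu).cH_d
    have h2 : (0 : ℝ) ≤ d := Nat.cast_nonneg d
    exact ⟨mul_le_mul_of_nonneg_right (by nlinarith) h.eps0,
      mul_le_mul_of_nonneg_right (by nlinarith) h.eps0,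
      mul_le_mul_of_nonneg_right (by nlinarith) h.eps0⟩
  refine ⟨((h.toMn.sm_wt h.eps1).of_le (by norm_num)).congr ew,
    ((h.toMn.sm_am h.eps1).of_le (by norm_num)).congr ea, fun u hu => ?_, fun u hu => ?_,
    fun u hu => ?_, fun u hu => ?_, fun u hu v z => ?_, fun u hu v z => ?_, fun u hu v => ?_,
    fun u hu v => ?_⟩
  · rw [ew hu, eg hu, ea hu]
    have h1 := (h.jet0 hu).cH_d
    have h2 : (0 : ℝ) ≤ d := Nat.cast_nonneg d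
    exact ⟨(h.jet0 hu).wt_near'.trans (mul_le_mul_of_nonneg_right (by nlinarith) h.eps0),
      (h.jet0 hu).g1.trans (hc u hu).1,
      (h.jet0 hu).am_near.trans (mul_le_mul_of_nonneg_right (by nlinarith) h.eps0)⟩
  · rw [ew hu, dw u hu]
    exact ⟨(h.met_near hn hu).2.1.trans (mul_le_mul_of_nonneg_right (hc u hu).2.1 (norm_nonneg _)),
      (h.toMn.fderiv_wt_le h.eps1 hu).trans (hc u hu).2.1⟩
  · rw [eg hu]
    exact (h.met_near hn hu).1.trans (mul_le_mul_of_nonneg_right (hc u hu).1 (norm_nonneg _))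
  · rw [ea hu, da u hu]
    exact ⟨(h.met_near hn hu).2.2.trans (mul_le_mul_of_nonneg_right (hc u hu).2.2 (norm_nonneg _)),
      (h.toMn.fderiv_am_le h.eps1 hu).trans (hc u hu).2.2⟩
  · rw [eg hu]
    exact gm_symm _ v z
  · rw [ea hu]
    exact (h.jet0 hu).am_symm v z
  · rw [ea hu, eg hu, ew hu]
    exact (h.jet0 hu).am_gm v
  · rw [da u hu]
    exact h.toMn.div_am h.eps1 hu v

section aff
variable {x₀ : E d} {Λ : E d →L[ℝ] E d}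

theorem der_lin_ChDa (x₀ : E d) (Λ : E d →L[ℝ] E d) (z : E d) :
    HasFDerivAt (fun z => x₀ + Λ z) Λ z := Λ.hasFDerivAt.const_add x₀

omit [FiniteDimensional ℝ H] in
theorem norm_c2_le_ChDa (A : E d →L[ℝ] E d →L[ℝ] H) (Λ : E d →L[ℝ] E d) :
    ‖c2 A Λ‖ ≤ ‖A‖ * ‖Λ‖ ^ 2 := by
  refine ContinuousLinearMap.opNorm_le_bound₂ _ (by positivity) fun v u => ?_
  rw [c2_apply]
  calc _ ≤ ‖A‖ * ‖Λ v‖ * ‖Λ u‖ := A.le_opNorm₂ _ _
    _ ≤ ‖A‖ * (‖Λ‖ * ‖v‖) * (‖Λ‖ * ‖u‖) := by gcongr <;> exact Λ.le_opNorm _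
    _ = _ := by ring

theorem norm_le_ChDa {Λ : E d →L[ℝ] E d} {κ : ℝ} (hΛ : ‖Λ - 1‖ ≤ κ) : ‖Λ‖ ≤ 1 + κ := by
  have h1 : ‖(1 : E d →L[ℝ] E d)‖ ≤ 1 := ContinuousLinearMap.norm_id_le
  have h2 := norm_add_le (Λ - 1) 1
  rw [sub_add_cancel] at h2
  linarith

theorem near_ChDa (h : Mn ι F ε Ω) (hz : x₀ + Λ z ∈ Ω) : ∀ᶠ w in 𝓝 z, x₀ + Λ w ∈ Ω :=
  (der_lin_ChDa x₀ Λ z).continuousAt.eventually_mem (h.op.mem_nhds hz)

theorem Mn.d1_aff (h : Mn ι F ε Ω) (hz : x₀ + Λ z ∈ Ω) :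
    d1 (aff F x₀ Λ) z = (d1 F (x₀ + Λ z)).comp Λ := by
  exact ((h.der0 hz).comp z (der_lin_ChDa x₀ Λ z)).fderiv

theorem Mn.d2_aff (h : Mn ι F ε Ω) (hz : x₀ + Λ z ∈ Ω) :
    d2 (aff F x₀ Λ) z = c2 (d2 F (x₀ + Λ z)) Λ := by
  have e : d1 (Ch.aff F x₀ Λ) =ᶠ[𝓝 z] fun w => (d1 F (x₀ + Λ w)).comp Λ :=
    (near_ChDa h hz).mono fun w hw => h.d1_aff hw
  have h1 := (((ContinuousLinearMap.compL ℝ (E d) (E d) H).flip Λ).hasFDerivAt.comp z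
    ((h.der1 hz).comp z (der_lin_ChDa x₀ Λ z))).fderiv
  refine e.fderiv_eq.trans (h1.trans ?_)
  ext1 v
  ext1 u
  rfl

theorem Mn.d3_aff (h : Mn ι F ε Ω) (hz : x₀ + Λ z ∈ Ω) (a : E d) :
    d3 (aff F x₀ Λ) z a = c2 (d3 F (x₀ + Λ z) (Λ a)) Λ := by
  have e : d2 (Ch.aff F x₀ Λ) =ᶠ[𝓝 z] fun w => c2 (d2 F (x₀ + Λ w)) Λ :=
    (near_ChDa h hz).mono fun w hw => h.d2_aff hw
  have h0 := HasFDerivAt.comp (G := E d →L[ℝ] E d →L[ℝ] H) z (h.der2 hz) (der_lin_ChDa x₀ Λ z)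
  have h1 := (HasFDerivAt.comp (F := E d →L[ℝ] E d →L[ℝ] H) (G := E d →L[ℝ] E d →L[ℝ] H) z
    ((ContinuousLinearMap.compL ℝ (E d) (E d →L[ℝ] H) (E d →L[ℝ] H)
      ((ContinuousLinearMap.compL ℝ (E d) (E d) H).flip Λ)).comp
    ((ContinuousLinearMap.compL ℝ (E d) (E d) (E d →L[ℝ] H)).flip Λ)).hasFDerivAt h0).fderiv
  have h2 := e.fderiv_eq.trans (Eq.trans (by congr 1) h1)
  rw [d3, h2]
  ext1 v
  ext1 u
  rfl

theorem Mn.aff (h : Mn ι F ε Ω) (hε : cH H * ε ≤ 1) {κ : ℝ} (hΛ : ‖Λ - 1‖ ≤ κ) (hκ : κ ≤ 1 / 4) :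
    Mn ι (aff F x₀ Λ) ((1 + κ) ^ 3 * ε + κ) ((fun z => x₀ + Λ z) ⁻¹' Ω) := by
  have hκ0 : 0 ≤ κ := (norm_nonneg _).trans hΛ
  have hn := norm_le_ChDa hΛ
  have hu := (inv_near hΛ (by linarith)).1
  have hp : ∀ z ∈ Ω, (1 + κ) * ε ≤ (1 + κ) ^ 3 * ε ∧ (1 + κ) ^ 2 * ε ≤ (1 + κ) ^ 3 * ε ∧ 0 ≤ ε :=
    fun z hz => by
    have h0 : 0 ≤ ε := (h.jet0 hε hz).eps0
    exact ⟨mul_le_mul_of_nonneg_right (le_self_pow₀ (by linarith) (by norm_num)) h0,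
      mul_le_mul_of_nonneg_right (pow_le_pow_right₀ (by linarith) (by norm_num)) h0, h0⟩
  refine ⟨h.op.preimage (by fun_prop), h.sm.comp (by fun_prop) fun z hz => hz, fun z hz => ?_,
    fun z hz => ?_, fun z hz a => ?_, fun z hz => ?_⟩
  · rw [h.d1_aff hz]
    have e : (d1 F (x₀ + Λ z)).comp Λ - ι.toContinuousLinearMap =
        (d1 F (x₀ + Λ z) - ι.toContinuousLinearMap).comp Λ +
          ι.toContinuousLinearMap.comp (Λ - 1) := by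
      ext1 v
      simp
    rw [e]
    have a1 : ‖(d1 F (x₀ + Λ z) - ι.toContinuousLinearMap).comp Λ‖ ≤ ε * (1 + κ) :=
      (ContinuousLinearMap.opNorm_comp_le _ _).trans
        (mul_le_mul (h.n0 _ hz) hn (norm_nonneg _) (hp _ hz).2.2)
    have a2 : ‖ι.toContinuousLinearMap.comp (Λ - 1)‖ ≤ 1 * κ :=
      (ContinuousLinearMap.opNorm_comp_le _ _).trans
        (mul_le_mul ι.norm_toContinuousLinearMap_le hΛ (norm_nonneg _) zero_le_one)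
    linarith [norm_add_le ((d1 F (x₀ + Λ z) - ι.toContinuousLinearMap).comp Λ)
      (ι.toContinuousLinearMap.comp (Λ - 1)), (hp _ hz).1]
  · rw [h.d2_aff hz]
    have a1 : ‖d2 F (x₀ + Λ z)‖ * ‖Λ‖ ^ 2 ≤ ε * (1 + κ) ^ 2 :=
      mul_le_mul (h.n1 _ hz) (by gcongr) (by positivity) (hp _ hz).2.2
    linarith [norm_c2_le_ChDa (d2 F (x₀ + Λ z)) Λ, (hp _ hz).2.1]
  · rw [h.d3_aff hz]
    have h0 := (hp _ hz).2.2
    have a1 : ‖Λ a‖ ≤ (1 + κ) * ‖a‖ := (Λ.le_opNorm a).trans (by gcongr)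
    calc _ ≤ ‖d3 F (x₀ + Λ z) (Λ a)‖ * ‖Λ‖ ^ 2 := norm_c2_le_ChDa _ _
      _ ≤ ε * ((1 + κ) * ‖a‖) * (1 + κ) ^ 2 :=
        mul_le_mul ((h.n2 _ hz _).trans (by gcongr)) (by gcongr) (by positivity) (by positivity)
      _ = (1 + κ) ^ 3 * ε * ‖a‖ := by ring
      _ ≤ _ := by gcongr; linarith
  · rw [h.d1_aff hz, h.d2_aff hz, trA_comp (h.jet0 hε hz).unit (Ring.mul_inverse_cancel Λ hu)
      (Ring.inverse_mul_cancel Λ hu)]
    exact h.har _ hz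

theorem Pre.aff (h : Pre ι F o ε R) {x₀ o' : E d} {C : E d →L[ℝ] E d} {a r ε' : ℝ}
    (hC : ‖C - 1‖ ≤ a) (ha : a ≤ 1 / 100) (hx : ‖x₀‖ + (1 + a) * r ≤ R) (hε : ε + 2 * a ≤ ε')
    (h1 : cH H * ε' ≤ 1) (hb : ‖F x₀ - ι o'‖ ≤ ε') (ho : ‖o'‖ + r ≤ 5 / 2) :
    Pre ι (aff F x₀ C) o' ε' r := by
  have ha0 : 0 ≤ a := (norm_nonneg _).trans hC
  have h0 := h.eps0
  have h2 := h.eps_le
  refine ⟨(h.toMn.aff h.eps1 hC (by linarith)).mono ?_ isOpen_ball fun z hz => ?_, by linarith, h1,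
    by simpa [Ch.aff] using hb, ho⟩
  · have b1 : (3 + 3 * a + a ^ 2) * ε ≤ 4 * (1 / 1000) :=
      mul_le_mul (by nlinarith) h2 h0 (by norm_num)
    have b2 := mul_le_mul_of_nonneg_left b1 ha0
    nlinarith
  · rw [mem_ball_zero_iff] at hz
    rw [mem_preimage, mem_ball_zero_iff]
    have b1 : ‖C z‖ ≤ (1 + a) * ‖z‖ :=
      (C.le_opNorm z).trans (mul_le_mul_of_nonneg_right (norm_le_ChDa hC) (norm_nonneg _))
    have b2 : (1 + a) * ‖z‖ < (1 + a) * r := mul_lt_mul_of_pos_left hz (by linarith)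
    linarith [norm_add_le x₀ (C z)]

/-- A linear change of the parameter that makes the metric Euclidean at `x₀`. -/
theorem Mn.exists_nrm (h : Mn ι F ε Ω) (hε : cH H * ε ≤ 1) (hx : x₀ ∈ Ω) {r : ℝ}
    (hr : ‖gm (d1 F x₀) - 1‖ ≤ r) (hr1 : r ≤ 1 / 4) :
    ∃ Λ Λi : E d →L[ℝ] E d, ‖Λ - 1‖ ≤ r ∧ ‖Λi - 1‖ ≤ r ∧ Λ * Λi = 1 ∧ Λi * Λ = 1 ∧
      Nrm (Ch.aff F x₀ Λ) := by
  obtain ⟨C, Ci, -, hs, hCC, h1, h2, h3, h4⟩ := exists_sqrt (gm_symm (d1 F x₀)) hr hr1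
  refine ⟨Ci, C, h4, h3, h2, h1, ?_⟩
  have hz : x₀ + Ci 0 ∈ Ω := by simpa using hx
  rw [Nrm, h.d1_aff hz, gm_comp, ad_of_symm hs, map_zero, add_zero, ← hCC]
  change Ci * (C * C * Ci) = 1
  rw [mul_assoc, h1, mul_one, h2]

end aff

end Pool.Agent.Lib.MP_8daebb_an.GM.Ch
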