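import Pool.Agent.Lib.MP_8daebb_an.GM.Wi7

/-! Norm inequalities with constants. -/

open MeasureTheory Metric Set Filter Topology
open scoped RealInnerProductSpace ContDiff ENNReal

namespace Pool.Agent.Lib.MP_8daebb_an.GM.Ch

variable {d : ℕ} {X Y Z : Type*} [NormedAddCommGroup X] [NormedSpace ℝ X] [FiniteDimensional ℝ X]
  [NormedAddCommGroup Y] [NormedSpace ℝ Y] [FiniteDimensional ℝ Y]
  [NormedAddCommGroup Z] [NormedSpace ℝ Z] [FiniteDimensional ℝ Z]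

theorem bdd_Wi8 {ι : Type*} [Fintype ι] (a : ι → ℝ) : ∃ K : ℝ, 0 < K ∧ ∀ i, |a i| ≤ K := by
  refine ⟨∑ i, |a i| + 1, by positivity, fun i => ?_⟩
  have := Finset.single_le_sum (f := fun i => |a i|) (fun i _ => abs_nonneg _) (Finset.mem_univ i)
  linarith

theorem wk_zpow_Wi8 (σ : ℤ) (k : Fin d → ℤ) : 0 ≤ wk k ^ σ :=
  zpow_nonneg (by linarith [one_le_wk k]) σ

theorem nwv_nonneg_Wi8 {ϖ : (Fin d → ℤ) → ℝ} (hϖ : ∀ k, 0 ≤ ϖ k) (f : E d → X) : 0 ≤ nwv ϖ f :=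
  Finset.sum_nonneg fun _ _ => nw_nonneg hϖ _

theorem nw_lin_Wi8 {ι : Type*} [Fintype ι] {c : ι → ℝ} {K : ℝ} (hc : ∀ i, |c i| ≤ K)
    {F : ι → E d → ℝ} {ϖ : (Fin d → ℤ) → ℝ} (hϖ : ∀ k, 0 ≤ ϖ k) (hF : ∀ i, Continuous (F i))
    (h : ∀ i, Summable fun k => ϖ k * ‖cf (F i) k‖) :
    nw ϖ (fun x => ∑ i, c i * F i x) ≤ K * ∑ i, nw ϖ (F i) := by
  refine (nw_finsum_le Finset.univ (F := fun i x => c i * F i x) hϖ
    (fun i _ => continuous_const.mul (hF i)) (fun i _ => ?_)).2.trans ?_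
  · refine ((h i).mul_left ‖(c i : ℂ)‖).congr (fun k => ?_)
    rw [cf_const_mul, norm_mul]; ring
  · rw [Finset.mul_sum]
    refine Finset.sum_le_sum (fun i _ => ?_)
    rw [nw_const_mul]
    exact mul_le_mul_of_nonneg_right (hc i) (nw_nonneg hϖ _)

theorem nwv_lin_Wi8 {ι : Type*} [Fintype ι] (e : ι → X) : ∃ C : ℝ, 0 < C ∧
    ∀ (F : ι → E d → ℝ) (ϖ : (Fin d → ℤ) → ℝ), (∀ k, 0 ≤ ϖ k) → (∀ i, Continuous (F i)) →
    (∀ i, Summable fun k => ϖ k * ‖cf (F i) k‖) →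
    nwv ϖ (fun x => ∑ i, F i x • e i) ≤ C * ∑ i, nw ϖ (F i) := by
  obtain ⟨K, hK, h⟩ := bdd_Wi8 (fun p : Fin (Module.finrank ℝ X) × ι => co X p.1 (e p.2))
  refine ⟨(Module.finrank ℝ X + 1) * K, by positivity, fun F ϖ hϖ hF hs => ?_⟩
  have h0 : 0 ≤ ∑ i, nw ϖ (F i) := Finset.sum_nonneg fun _ _ => nw_nonneg hϖ _
  have h1 : ∀ j, nw ϖ (fun x => co X j (∑ i, F i x • e i)) ≤ K * ∑ i, nw ϖ (F i) := fun j => by
    have := nw_lin_Wi8 (fun i => h (j, i)) hϖ hF hs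
    simpa only [map_sum, map_smul, smul_eq_mul, mul_comm] using this
  refine (Finset.sum_le_sum fun j _ => h1 j).trans ?_
  rw [Finset.sum_const, Finset.card_univ, Fintype.card_fin, nsmul_eq_mul]
  nlinarith [mul_nonneg hK.le h0]

theorem nw_ell_Wi8 : ∃ C : ℝ, 0 < C ∧ ∀ (ℓ : X →L[ℝ] ℝ) (ϖ : (Fin d → ℤ) → ℝ) (f : E d → X),
    (∀ k, 0 ≤ ϖ k) → Continuous f → (∀ i, Summable fun k => ϖ k * ‖cf (fun x => co X i (f x)) k‖) →
    nw ϖ (fun x => ℓ (f x)) ≤ C * ‖ℓ‖ * nwv ϖ f := by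
  obtain ⟨K, hK, h⟩ := bdd_Wi8 (fun i => ‖Module.finBasis ℝ X i‖)
  refine ⟨K, hK, fun ℓ ϖ f hϖ hf hs => ?_⟩
  have e : (fun x => ℓ (f x)) = fun x => ∑ i, ℓ (Module.finBasis ℝ X i) * co X i (f x) := by
    funext x
    conv_lhs => rw [← sum_co (f x)]
    simp only [map_sum, map_smul, smul_eq_mul, mul_comm]
  rw [e]
  refine nw_lin_Wi8 (fun i => ?_) hϖ (fun i => (co X i).continuous.comp hf) hs
  refine (ℓ.le_opNorm _).trans ?_
  rw [mul_comm]
  exact mul_le_mul_of_nonneg_right ((le_abs_self _).trans (h i)) (norm_nonneg _)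

theorem nwv_clm : ∃ C : ℝ, 0 < C ∧ ∀ (T : X →L[ℝ] Y) (ϖ : (Fin d → ℤ) → ℝ) (f : E d → X),
    (∀ k, 0 ≤ ϖ k) → Continuous f → (∀ i, Summable fun k => ϖ k * ‖cf (fun x => co X i (f x)) k‖) →
    nwv ϖ (fun x => T (f x)) ≤ C * ‖T‖ * nwv ϖ f := by
  obtain ⟨K, hK, h⟩ := nw_ell_Wi8 (d := d) (X := X)
  refine ⟨K * (∑ j, ‖co Y j‖ + 1), by positivity, fun T ϖ f hϖ hf hs => ?_⟩
  have h0 := nwv_nonneg_Wi8 hϖ f
  have h1 : ∀ j, nw ϖ (fun x => co Y j (T (f x))) ≤ ‖co Y j‖ * (K * ‖T‖ * nwv ϖ f) := fun j => by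
    refine (h ((co Y j).comp T) ϖ f hϖ hf hs).trans ?_
    calc K * ‖(co Y j).comp T‖ * nwv ϖ f ≤ K * (‖co Y j‖ * ‖T‖) * nwv ϖ f := by
          gcongr; exact ContinuousLinearMap.opNorm_comp_le _ _
      _ = _ := by ring
  refine (Finset.sum_le_sum fun j _ => h1 j).trans ?_
  rw [← Finset.sum_mul]
  have : 0 ≤ K * ‖T‖ * nwv ϖ f := by positivity
  nlinarith

theorem nv_clm : ∃ C : ℝ, 0 < C ∧ ∀ (T : X →L[ℝ] Y) (n : ℕ) (σ : ℤ) (f : E d → X), Wv n f → σ ≤ n →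
    nv σ (fun x => T (f x)) ≤ C * ‖T‖ * nv σ f := by
  obtain ⟨K, hK, h⟩ := nwv_clm (d := d) (X := X) (Y := Y)
  exact ⟨K, hK, fun T n σ f hf hσ =>
    h T _ f (wk_zpow_Wi8 σ) hf.continuous (fun i => (hf (co X i)).summable hσ)⟩

theorem nm_le_nv : ∃ C : ℝ, 0 < C ∧ ∀ (ℓ : X →L[ℝ] ℝ) (n : ℕ) (σ : ℤ) (f : E d → X), Wv n f → σ ≤ n →
    nm σ (fun x => ℓ (f x)) ≤ C * ‖ℓ‖ * nv σ f := by
  obtain ⟨K, hK, h⟩ := nw_ell_Wi8 (d := d) (X := X)
  exact ⟨K, hK, fun ℓ n σ f hf hσ =>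
    h ℓ _ f (wk_zpow_Wi8 σ) hf.continuous (fun i => (hf (co X i)).summable hσ)⟩

theorem nv_smul_const : ∃ C : ℝ, 0 < C ∧ ∀ (c : X) (σ : ℤ) (φ : E d → ℝ),
    nv σ (fun x => φ x • c) ≤ C * ‖c‖ * nm σ φ := by
  refine ⟨∑ j, ‖co X j‖ + 1, by positivity, fun c σ φ => ?_⟩
  have h0 := nm_nonneg σ φ
  have h1 : ∀ j, nw (fun k => wk k ^ σ) (fun x => co X j (φ x • c)) ≤ ‖co X j‖ * (‖c‖ * nm σ φ) :=
    fun j => by
      have e : (fun x => co X j (φ x • c)) = fun x => co X j c * φ x := by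
        funext x; rw [map_smul, smul_eq_mul, mul_comm]
      rw [e, nw_const_mul, ← mul_assoc]
      exact mul_le_mul_of_nonneg_right ((co X j).le_opNorm c) h0
  rw [nv, nwv]
  refine (Finset.sum_le_sum fun j _ => h1 j).trans ?_
  rw [← Finset.sum_mul]
  have : 0 ≤ ‖c‖ * nm σ φ := by positivity
  nlinarith

theorem nwv_bil_Wi8 (B : X →L[ℝ] Y →L[ℝ] Z) : ∃ C : ℝ, 0 < C ∧ ∀ (ϖ : (Fin d → ℤ) → ℝ)
    (f : E d → X) (g : E d → Y), (∀ k, 0 ≤ ϖ k) → Continuous f → Continuous g →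
    (∀ i j, Summable fun k => ϖ k * ‖cf (fun x => co X i (f x) * co Y j (g x)) k‖) →
    nwv ϖ (fun x => B (f x) (g x)) ≤
      C * ∑ i, ∑ j, nw ϖ (fun x => co X i (f x) * co Y j (g x)) := by
  obtain ⟨K, hK, h⟩ := nwv_lin_Wi8 (d := d)
    (fun p : Fin (Module.finrank ℝ X) × Fin (Module.finrank ℝ Y) =>
      B (Module.finBasis ℝ X p.1) (Module.finBasis ℝ Y p.2))
  refine ⟨K, hK, fun ϖ f g hϖ hf hg hs => ?_⟩
  have := h (fun p x => co X p.1 (f x) * co Y p.2 (g x)) ϖ hϖ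
    (fun p => ((co X p.1).continuous.comp hf).mul ((co Y p.2).continuous.comp hg))
    (fun p => hs p.1 p.2)
  rw [Fintype.sum_prod_type] at this
  convert this using 2
  funext x
  conv_lhs => rw [← sum_co (f x), ← sum_co (g x)]
  simp only [map_sum, map_smul, sum_apply, smul_apply,
    Fintype.sum_prod_type, Finset.smul_sum, smul_smul]
  rw [Finset.sum_comm]
  exact Finset.sum_congr rfl fun _ _ => Finset.sum_congr rfl fun _ _ => by rw [mul_comm]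

theorem nv_bil (B : X →L[ℝ] Y →L[ℝ] Z) : ∃ C : ℝ, 0 < C ∧ ∀ (n : ℕ) (σ : ℤ) (f : E d → X)
    (g : E d → Y), Wv n f → Wv n g → |σ| ≤ n →
    nv σ (fun x => B (f x) (g x)) ≤ C * nv n f * nv σ g ∧
      nv σ (fun x => B (f x) (g x)) ≤ C * nv σ f * nv n g := by
  obtain ⟨K, hK, h⟩ := nwv_bil_Wi8 (d := d) B
  refine ⟨K, hK, fun n σ f g hf hg hσ => ?_⟩
  have h1 := h _ f g (wk_zpow_Wi8 σ) hf.continuous hg.continuous
    (fun i j => ((hf (co X i)).mul (hg (co Y j))).summable (le_of_abs_le hσ))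
  constructor <;> refine h1.trans ?_ <;> rw [mul_assoc] <;>
    refine mul_le_mul_of_nonneg_left ?_ hK.le <;> rw [nv, nv, nwv, nwv, Finset.sum_mul_sum] <;>
    refine Finset.sum_le_sum fun i _ => Finset.sum_le_sum fun j _ => ?_
  · exact nm_mul_le (hf (co X i)) (hg (co Y j)) hσ
  · have := nm_mul_le (hg (co Y j)) (hf (co X i)) hσ
    rw [mul_comm] at this
    simpa only [nm, mul_comm (co Y j _)] using this

theorem nw_mul_left_Wi8 (c : ℝ) (ϖ : (Fin d → ℤ) → ℝ) (f : E d → ℝ) :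
    nw (fun k => c * ϖ k) f = c * nw ϖ f := by
  simp only [nw, mul_assoc, tsum_mul_left]

theorem nwv_bil_tame (B : X →L[ℝ] Y →L[ℝ] Z) : ∃ C : ℝ, 0 < C ∧ ∀ n : ℕ, ∃ C' : ℝ, 0 < C' ∧
    ∀ (N : ℕ) (f : E d → X) (g : E d → Y), Wv n f → Wv 0 g →
    nwv (fun k => (min (wk k) N) ^ n) (fun x => B (f x) (g x)) ≤
      C * nv 0 f * nwv (fun k => (min (wk k) N) ^ n) g + C' * nv n f * nv 0 g := by
  obtain ⟨K, hK, h⟩ := nwv_bil_Wi8 (d := d) B
  refine ⟨2 * K, by positivity, fun n => ?_⟩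
  obtain ⟨C, hC, ht⟩ := tame_wk (d := d) n
  refine ⟨K * C, by positivity, fun N f g hf hg => ?_⟩
  have hm : ∀ k : Fin d → ℤ, 0 ≤ min (wk k) N := fun k =>
    le_min (by linarith [one_le_wk k]) (Nat.cast_nonneg N)
  have hϖ : ∀ k : Fin d → ℤ, 0 ≤ (min (wk k) N) ^ n := fun k => pow_nonneg (hm k) n
  have key : ∀ i j, (Summable fun k => (min (wk k) N) ^ n *
      ‖cf (fun x => co X i (f x) * co Y j (g x)) k‖) ∧
      nw (fun k => (min (wk k) N) ^ n) (fun x => co X i (f x) * co Y j (g x)) ≤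
        2 * (nm 0 (fun x => co X i (f x)) * nw (fun k => (min (wk k) N) ^ n)
          (fun x => co Y j (g x))) + C * (nm n (fun x => co X i (f x)) *
          nm 0 (fun x => co Y j (g x))) := fun i j => by
    have := nw_mul ((hf (co X i)).mono (Nat.zero_le n)) (hg (co Y j)) (a := fun _ => 1)
      (b := fun k => 2 * (min (wk k) N) ^ n) (a' := fun k => C * wk k ^ n) (b' := fun _ => 1) hϖ
      (fun _ => zero_le_one) (fun k => mul_nonneg zero_le_two (hϖ k))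
      (fun k => mul_nonneg hC.le (pow_nonneg (by linarith [one_le_wk k]) n)) (fun _ => zero_le_one)
      (ht N) (by simpa using (hf (co X i)).summable_norm)
      ((hg (co Y j)).summable_bdd (B := 2 * (N : ℝ) ^ n) (fun k => by
        rw [abs_of_nonneg (mul_nonneg zero_le_two (hϖ k))]
        exact mul_le_mul_of_nonneg_left (pow_le_pow_left₀ (hm k) (min_le_right _ _) n) zero_le_two))
      (by simpa only [mul_assoc] using (hf (co X i)).sum.mul_left C)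
      (by simpa using (hg (co Y j)).summable_norm)
    refine ⟨this.1, this.2.trans (le_of_eq ?_)⟩
    rw [nw_mul_left_Wi8, nw_mul_left_Wi8]
    simp only [nm, zpow_zero, zpow_natCast]
    ring
  refine (h _ f g hϖ hf.continuous hg.continuous (fun i j => (key i j).1)).trans ?_
  refine (mul_le_mul_of_nonneg_left
    (Finset.sum_le_sum fun i _ => Finset.sum_le_sum fun j _ => (key i j).2) hK.le).trans
    (le_of_eq ?_)
  simp only [Finset.sum_add_distrib, ← Finset.mul_sum, ← Finset.sum_mul, nv, nwv, nm]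
  ring

theorem norm_le_nv : ∃ C : ℝ, 0 < C ∧ ∀ (f : E d → X), Wv 0 f → ∀ x, ‖f x‖ ≤ C * nv 0 f := by
  obtain ⟨K, hK, h⟩ := bdd_Wi8 (fun i => ‖Module.finBasis ℝ X i‖)
  refine ⟨K, hK, fun f hf x => ?_⟩
  rw [← sum_co (f x), nv, nwv, Finset.mul_sum]
  refine (norm_sum_le _ _).trans (Finset.sum_le_sum fun i _ => ?_)
  rw [norm_smul, mul_comm]
  exact mul_le_mul ((le_abs_self _).trans (h i)) ((hf (co X i)).abs_le x) (norm_nonneg _) hK.le

theorem eb_exp_Wi8 {F : Type*} [NormedAddCommGroup F] [NormedSpace ℝ F] (M : E d →L[ℝ] F)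
    (v : E d) : M v = ∑ a, v a • M (eb a) := by
  have e : v = ∑ a, v a • (eb a : E d) := by
    ext j; simp [Pi.single_apply]
  conv_lhs => rw [e]
  simp only [map_sum, map_smul]

theorem fderiv_ell_Wi8 {F G : Type*} [NormedAddCommGroup F] [NormedSpace ℝ F]
    [NormedAddCommGroup G] [NormedSpace ℝ G] {f : E d → F} (hf : Differentiable ℝ f)
    (ℓ : F →L[ℝ] G) (x : E d) : fderiv ℝ (fun z => ℓ (f z)) x = ℓ.comp (fderiv ℝ f x) :=
  (ℓ.hasFDerivAt.comp x (hf x).hasFDerivAt).fderiv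

omit [FiniteDimensional ℝ X] in
theorem d2_ell_Wi8 {f : E d → X} (h : ContDiff ℝ 2 f) (ℓ : X →L[ℝ] ℝ) (x v w : E d) :
    d2 (fun z => ℓ (f z)) x v w = ℓ (d2 f x v w) := by
  have h1 : Differentiable ℝ (fderiv ℝ f) :=
    (h.fderiv_right (m := 1) (by norm_num)).differentiable one_ne_zero
  have e : fderiv ℝ (fun z => ℓ (f z)) =
      fun z => ContinuousLinearMap.compL ℝ (E d) X ℝ ℓ (fderiv ℝ f z) :=
    funext fun z => fderiv_ell_Wi8 (h.differentiable two_ne_zero) ℓ z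
  rw [d2, e, fderiv_ell_Wi8 h1]
  rfl

theorem d2_pd_Wi8 {φ : E d → ℝ} (h : ContDiff ℝ 2 φ) (x : E d) (a b : Fin d) :
    d2 φ x (eb a) (eb b) = pd a (pd b φ) x := by
  have h1 : Differentiable ℝ (fderiv ℝ φ) :=
    (h.fderiv_right (m := 1) (by norm_num)).differentiable one_ne_zero
  have := fderiv_ell_Wi8 h1 (ContinuousLinearMap.apply ℝ ℝ (eb b : E d)) x
  exact (congrArg (fun M => M (eb a)) this).symm

theorem nv_fderiv : ∃ C : ℝ, 0 < C ∧ ∀ (n : ℕ) (σ : ℤ) (f : E d → X), Wv (n + 1) f → σ ≤ n →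
    nv σ (fderiv ℝ f) ≤ C * nv (σ + 1) f := by
  obtain ⟨K, hK, h⟩ := nwv_lin_Wi8 (d := d) (fun p : Fin d × Fin (Module.finrank ℝ X) =>
    (EuclideanSpace.proj p.1 : E d →L[ℝ] ℝ).smulRight (Module.finBasis ℝ X p.2))
  refine ⟨K * (d + 1), by positivity, fun n σ f hf hσ => ?_⟩
  have hd : Differentiable ℝ f := hf.contDiff.differentiable (by simp)
  have h1 := h (fun p => pd p.1 fun z => co X p.2 (f z)) _ (wk_zpow_Wi8 σ)
    (fun p => ((hf (co X p.2)).dif p.1).continuous)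
    (fun p => ((hf (co X p.2)).dif p.1).summable hσ)
  have e : fderiv ℝ f = fun x => ∑ p : Fin d × Fin (Module.finrank ℝ X),
      pd p.1 (fun z => co X p.2 (f z)) x •
        (EuclideanSpace.proj p.1 : E d →L[ℝ] ℝ).smulRight (Module.finBasis ℝ X p.2) := by
    funext x
    ext1 v
    rw [eb_exp_Wi8, sum_apply, Fintype.sum_prod_type]
    refine Finset.sum_congr rfl fun a _ => ?_
    rw [← sum_co (fderiv ℝ f x (eb a)), Finset.smul_sum]
    refine Finset.sum_congr rfl fun i _ => ?_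
    rw [pd, fderiv_ell_Wi8 hd, smul_comm]
    rfl
  rw [← e] at h1
  refine h1.trans ?_
  rw [mul_assoc, Fintype.sum_prod_type]
  refine mul_le_mul_of_nonneg_left ?_ hK.le
  refine (Finset.sum_le_sum (g := fun _ => nv (σ + 1) f) fun a _ =>
    Finset.sum_le_sum fun i _ => (hf (co X i)).nm_pd a hσ).trans ?_
  rw [Finset.sum_const, Finset.card_univ, Fintype.card_fin, nsmul_eq_mul]
  nlinarith [nv_nonneg (σ + 1) f]

theorem norm_fderiv_le_nv : ∃ C : ℝ, 0 < C ∧ ∀ (f : E d → X), Wv 1 f → ∀ x a,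
    ‖fderiv ℝ f x a‖ ≤ C * nv 1 f * ‖a‖ := by
  obtain ⟨K, hK, h⟩ := norm_le_nv (d := d) (X := E d →L[ℝ] X)
  obtain ⟨K', hK', h'⟩ := nv_fderiv (d := d) (X := X)
  refine ⟨K * K', by positivity, fun f hf x a => ((fderiv ℝ f x).le_opNorm a).trans ?_⟩
  refine mul_le_mul_of_nonneg_right ((h _ (Wv.dif (n := 0) hf) x).trans ?_) (norm_nonneg _)
  rw [mul_assoc]
  exact mul_le_mul_of_nonneg_left (by simpa using h' 0 0 f hf le_rfl) hK.le

theorem co_lapv {f : E d → X} (h : ContDiff ℝ 2 f) (ℓ : X →L[ℝ] ℝ) (x : E d) :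
    ℓ (lapv f x) = lapv (fun z => ℓ (f z)) x := by
  simp only [lapv, tr2, map_sum, d2_ell_Wi8 h]

theorem Wv.two_Wi8 {n : ℕ} {f : E d → X} (h : Wv (n + 2) f) : ContDiff ℝ 2 f :=
  (h.mono (Nat.le_add_left 2 n)).contDiff

theorem Wv.lap {n : ℕ} {f : E d → X} (h : Wv (n + 2) f) : Wv n (lapv f) ∧
    ∀ σ : ℤ, σ ≤ n → nv σ (lapv f) ≤ nv (σ + 2) f := by
  refine ⟨fun ℓ => ?_, fun σ hσ => ?_⟩
  · simpa only [co_lapv h.two_Wi8] using (h ℓ).lap.1
  · rw [nv, nv, nwv, nwv]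
    refine Finset.sum_le_sum fun i _ => ?_
    simp only [co_lapv h.two_Wi8]
    refine Summable.tsum_le_tsum (fun k => ?_) ((h (co X i)).lap.1.summable hσ)
      ((h (co X i)).summable (by push_cast; omega))
    have h1 := one_le_wk k
    beta_reduce
    rw [(h (co X i)).lap.2 k, norm_mul, norm_neg, Complex.norm_real, Real.norm_eq_abs,
      abs_of_nonneg (k2_le k).1, zpow_add₀ (by linarith), mul_assoc]
    refine mul_le_mul_of_nonneg_left (mul_le_mul_of_nonneg_right ?_ (norm_nonneg _))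
      (wk_zpow_Wi8 σ k)
    exact_mod_cast (k2_le k).2

theorem Wv.apriori {n : ℕ} {f : E d → X} (h : Wv (n + 2) f) {σ τ : ℤ} (hσ : σ ≤ n)
    (hτ : τ ≤ n + 2) : nv (σ + 2) f ≤ (d + 1) ^ 2 * nv σ (lapv f) + nv τ f := by
  rw [nv, nv, nv, nwv, nwv, nwv, Finset.mul_sum, ← Finset.sum_add_distrib]
  refine Finset.sum_le_sum fun i _ => ?_
  simp only [co_lapv h.two_Wi8]
  exact (h (co X i)).apriori hσ hτ

theorem nwv_d2_le : ∃ C : ℝ, 0 < C ∧ ∀ (ϖ : (Fin d → ℤ) → ℝ) (B : ℝ) (f : E d → X),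
    (∀ k, 0 ≤ ϖ k ∧ ϖ k ≤ B) → Wv 2 f → nwv ϖ (d2 f) ≤ C * nwv ϖ (lapv f) := by
  obtain ⟨K, hK, h⟩ := nwv_lin_Wi8 (d := d) (fun p : (Fin d × Fin d) × Fin (Module.finrank ℝ X) =>
    (EuclideanSpace.proj p.1.1 : E d →L[ℝ] ℝ).smulRight
      ((EuclideanSpace.proj p.1.2 : E d →L[ℝ] ℝ).smulRight (Module.finBasis ℝ X p.2)))
  refine ⟨K * (d * d + 1), by positivity, fun ϖ B f hϖ hf => ?_⟩
  have hd : ContDiff ℝ 2 f := hf.contDiff
  have hB : ∀ k, |ϖ k| ≤ B := fun k => by rw [abs_of_nonneg (hϖ k).1]; exact (hϖ k).2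
  have hW : ∀ a b i, W 0 (pd a (pd b fun z => co X i (f z))) := fun a b i =>
    W.dif (n := 0) (W.dif (n := 1) (hf (co X i)) b) a
  have h1 := h (fun p => pd p.1.1 (pd p.1.2 fun z => co X p.2 (f z))) ϖ (fun k => (hϖ k).1)
    (fun p => (hW _ _ _).continuous) (fun p => (hW _ _ _).summable_bdd hB)
  have e : d2 f = fun x => ∑ p : (Fin d × Fin d) × Fin (Module.finrank ℝ X),
      pd p.1.1 (pd p.1.2 fun z => co X p.2 (f z)) x •
        (EuclideanSpace.proj p.1.1 : E d →L[ℝ] ℝ).smulRight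
          ((EuclideanSpace.proj p.1.2 : E d →L[ℝ] ℝ).smulRight (Module.finBasis ℝ X p.2)) := by
    funext x
    ext v w
    rw [eb_exp_Wi8 (d2 f x) v, sum_apply, sum_apply,
      sum_apply, Fintype.sum_prod_type, Fintype.sum_prod_type]
    refine Finset.sum_congr rfl fun a _ => ?_
    rw [smul_apply, eb_exp_Wi8 _ w, Finset.smul_sum]
    refine Finset.sum_congr rfl fun b _ => ?_
    rw [← sum_co (d2 f x (eb a) (eb b)), Finset.smul_sum, Finset.smul_sum]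
    refine Finset.sum_congr rfl fun i _ => ?_
    rw [← d2_ell_Wi8 hd, d2_pd_Wi8 (φ := fun z => co X i (f z)) ((co X i).contDiff.comp hd),
      smul_comm (w b), smul_comm (v a)]
    rfl
  rw [← e] at h1
  refine h1.trans ?_
  rw [mul_assoc, Fintype.sum_prod_type]
  refine mul_le_mul_of_nonneg_left ?_ hK.le
  refine (Finset.sum_le_sum (g := fun _ => nwv ϖ (lapv f)) fun a _ =>
    Finset.sum_le_sum fun i _ => ?_).trans ?_
  · simp only [co_lapv hd]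
    exact Summable.tsum_le_tsum
      (fun k => mul_le_mul_of_nonneg_left ((hf (co X i)).cf_pd_pd _ _ k) (hϖ k).1)
      ((hW _ _ _).summable_bdd hB) ((W.lap (n := 0) (hf (co X i))).1.summable_bdd hB)
  · rw [Finset.sum_const, Finset.card_univ, Fintype.card_prod, Fintype.card_fin, nsmul_eq_mul]
    push_cast
    nlinarith [nwv_nonneg_Wi8 (fun k => (hϖ k).1) (lapv f)]

theorem Wv_of_lap {n : ℕ} {f : E d → X} (h : Wv 2 f) (hl : Wv n (lapv f)) : Wv (n + 2) f :=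
  fun ℓ => W_of_lap (h ℓ) (by simpa only [co_lapv h.contDiff] using hl ℓ)

theorem Wv_of_bdd {n : ℕ} {f : E d → X} (h : Wv 0 f) {B : ℝ}
    (hB : ∀ N : ℕ, nwv (fun k => (min (wk k) N) ^ n) f ≤ B) : Wv n f := by
  refine Wv_of_co fun i => (W_of_bdd (h (co X i)) (B := B) fun N => le_trans ?_ (hB N)).1
  exact Finset.single_le_sum (f := fun i => nw (fun k => (min (wk k) N) ^ n) fun x => co X i (f x))
    (fun _ _ => nw_nonneg (fun k =>
      pow_nonneg (le_min (by linarith [one_le_wk k]) (Nat.cast_nonneg N)) n) _) (Finset.mem_univ i)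

theorem integral_div {f : E d → E d} (h : Wv 1 f) :
    ∫ x in cube d, ∑ i, fderiv ℝ f x (eb i) i = 0 := by
  have hd : Differentiable ℝ f := h.contDiff.differentiable (by simp)
  have e : ∀ x i, fderiv ℝ f x (eb i) i =
      pd i (fun z => (EuclideanSpace.proj i : E d →L[ℝ] ℝ) (f z)) x := fun x i => by
    rw [pd, fderiv_ell_Wi8 hd]; rfl
  simp only [e]
  rw [integral_finsetSum _ fun i _ => integrableOn_cube (W.dif (n := 0) (h _) i).continuous]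
  exact Finset.sum_eq_zero fun i _ => W.integral_pd (n := 0) (h _) i

omit [FiniteDimensional ℝ X] in
theorem exists_sum_Wi8 (U V : Type*) [NormedAddCommGroup U] [NormedSpace ℝ U]
    [NormedAddCommGroup V] [NormedSpace ℝ V] (p : Fin d → U →L[ℝ] E d →L[ℝ] X)
    (q : Fin d → V →L[ℝ] E d) : ∃ T : U →L[ℝ] V →L[ℝ] X, ∀ A M, T A M = ∑ i, p i A (q i M) := by
  refine ⟨∑ i, ((ContinuousLinearMap.compL ℝ V (E d) X).flip (q i)).comp (p i), fun A M => ?_⟩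
  rw [sum_apply, sum_apply]
  rfl

theorem exists_tr2L : ∃ T : (E d →L[ℝ] E d →L[ℝ] X) →L[ℝ] (E d →L[ℝ] E d) →L[ℝ] X,
    ∀ A M, T A M = tr2 A M := by
  obtain ⟨T, hT⟩ := exists_sum_Wi8 (X := X) (E d →L[ℝ] E d →L[ℝ] X) (E d →L[ℝ] E d)
    (fun i => ContinuousLinearMap.apply ℝ (E d →L[ℝ] X) (eb i))
    (fun i => ContinuousLinearMap.apply ℝ (E d) (eb i))
  exact ⟨T, hT⟩

end Pool.Agent.Lib.MP_8daebb_an.GM.Ch
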