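import Pool.Agent.Lib.MP_8daebb_an.GM.VDef
import Pool.Agent.Lib.MP_8daebb_an.GM.ChDa
import Pool.Agent.Lib.MP_8daebb_an.GM.Wi8

/-! Graphs over the base plane. -/

open MeasureTheory Metric Set Filter Topology
open scoped RealInnerProductSpace ContDiff ENNReal

namespace Pool.Agent.Lib.MP_8daebb_an.GM.Ch

variable {d n : ℕ} {H : Type*} [NormedAddCommGroup H] [InnerProductSpace ℝ H]
  [FiniteDimensional ℝ H] {ι : E d →ₗᵢ[ℝ] H} {κ : E n →ₗᵢ[ℝ] H} {u : E d → E n} {ε : ℝ}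
  {L : E d →L[ℝ] E n}

theorem ad_iso_Ad1 (ι : E d →ₗᵢ[ℝ] H) (a : E d) : ad ι.toContinuousLinearMap (ι a) = a := by
  refine ext_inner_left ℝ fun v => ?_
  rw [inner_ad_right]
  exact ι.inner_map_map v a

theorem Spl.ad_ik_Ad1 (h : Spl ι κ) (b : E n) : ad ι.toContinuousLinearMap (κ b) = 0 := by
  refine ext_inner_left ℝ fun v => ?_
  rw [inner_ad_right, inner_zero_right]
  exact h.orth v b

theorem Spl.ad_ki_Ad1 (h : Spl ι κ) (a : E d) : ad κ.toContinuousLinearMap (ι a) = 0 := by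
  refine ext_inner_right ℝ fun v => ?_
  rw [inner_ad_left, inner_zero_left]
  exact h.orth a v

theorem Spl.ad_comb (h : Spl ι κ) (a : E d) (b : E n) :
    ad ι.toContinuousLinearMap (ι a + κ b) = a ∧ ad κ.toContinuousLinearMap (ι a + κ b) = b := by
  rw [map_add, map_add, ad_iso_Ad1, ad_iso_Ad1, h.ad_ik_Ad1, h.ad_ki_Ad1, add_zero, zero_add]
  exact ⟨rfl, rfl⟩

theorem Spl.norm_sq (h : Spl ι κ) (a : E d) (b : E n) : ‖ι a + κ b‖ ^ 2 = ‖a‖ ^ 2 + ‖b‖ ^ 2 := by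
  rw [norm_add_sq_real, h.orth, ι.norm_map, κ.norm_map]
  ring

theorem norm_ad_iso (ι : E d →ₗᵢ[ℝ] H) (p : H) : ‖ad ι.toContinuousLinearMap p‖ ≤ ‖p‖ := by
  refine ((ad ι.toContinuousLinearMap).le_opNorm p).trans ?_
  rw [norm_ad]
  exact mul_le_of_le_one_left (norm_nonneg _) ι.norm_toContinuousLinearMap_le

theorem Spl.vx_gr (h : Spl ι κ) (u : E d → E n) (x : E d) : vx ι (gr ι κ u x) = x := by
  exact (h.ad_comb x (u x)).1

theorem DD_apply (L : E d →L[ℝ] E n) (v : E d) : DD ι κ L v = ι v + κ (L v) := by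
  rfl

theorem nf_apply (L : E d →L[ℝ] E n) (b : E n) : nf ι κ L b = κ b - ι (ad L b) := by
  rfl

theorem ad_DD (L : E d →L[ℝ] E n) (p : H) : ad (DD ι κ L) p =
    ad ι.toContinuousLinearMap p + ad L (ad κ.toContinuousLinearMap p) := by
  rw [DD, map_add, ad_comp]
  rfl

theorem ad_nf (L : E d →L[ℝ] E n) (p : H) : ad (nf ι κ L) p =
    ad κ.toContinuousLinearMap p - L (ad ι.toContinuousLinearMap p) := by
  rw [nf, map_sub, ad_comp, ad_ad]
  rfl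

theorem Spl.frames (h : Spl ι κ) (L : E d →L[ℝ] E n) (v : E d) (b : E n) :
    ad (DD ι κ L) (nf ι κ L b) = 0 ∧ ad (nf ι κ L) (DD ι κ L v) = 0 ∧ ad (DD ι κ L) (ι v) = v ∧
      ad (nf ι κ L) (κ b) = b ∧ ad ι.toContinuousLinearMap (DD ι κ L v) = v ∧
      ad (DD ι κ L) (κ b) = ad L b := by
  simp only [ad_DD, ad_nf, DD_apply, nf_apply, map_add, map_sub, ad_iso_Ad1, h.ad_ik_Ad1,
    h.ad_ki_Ad1, map_zero]
  simp

theorem Spl.gm_DD (h : Spl ι κ) (L : E d →L[ℝ] E n) : gm (DD ι κ L) = 1 + (ad L).comp L := by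
  ext1 v
  rw [gm_apply, ad_DD, DD_apply, (h.ad_comb _ _).1, (h.ad_comb _ _).2]
  rfl

theorem Spl.gi_DD (h : Spl ι κ) (u : E d → E n) (x : E d) :
    gm (DD ι κ (d1 u x)) = gu u x ∧ gi (DD ι κ (d1 u x)) = iu u x := by
  have e : gm (DD ι κ (d1 u x)) = gu u x := h.gm_DD _
  exact ⟨e, by rw [gi, e, iu]⟩

theorem Spl.norm_le (h : Spl ι κ) (L : E d →L[ℝ] E n) (p : H) :
    ‖p‖ ≤ ‖ad (DD ι κ L) p‖ + ‖ad (nf ι κ L) p‖ := by
  rw [ad_DD, ad_nf]
  have e := h.norm_sq (ad ι.toContinuousLinearMap p) (ad κ.toContinuousLinearMap p)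
  rw [h.sum p] at e
  generalize ad ι.toContinuousLinearMap p = a at e ⊢
  generalize ad κ.toContinuousLinearMap p = b at e ⊢
  have e1 := norm_add_sq_real a (ad L b)
  have e2 := norm_sub_sq_real b (L a)
  rw [inner_ad_right, real_inner_comm] at e1
  refine le_of_sq_le_sq_ChB1 (by positivity) ?_
  have e3 := mul_nonneg (norm_nonneg (a + ad L b)) (norm_nonneg (b - L a))
  have e4 := sq_nonneg ‖ad L b‖
  have e5 := sq_nonneg ‖L a‖
  rw [add_sq]
  linarith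

theorem DD_sub (L L' : E d →L[ℝ] E n) : ‖DD ι κ L - DD ι κ L'‖ ≤ ‖L - L'‖ ∧
    ‖nf ι κ L - nf ι κ L'‖ ≤ ‖L - L'‖ ∧ ‖DD ι κ L‖ ≤ 1 + ‖L‖ ∧ ‖nf ι κ L‖ ≤ 1 + ‖L‖ ∧
    ‖DD ι κ L - ι.toContinuousLinearMap‖ ≤ ‖L‖ := by
  refine ⟨?_, ?_, ?_, ?_, ?_⟩
  · refine ContinuousLinearMap.opNorm_le_bound _ (norm_nonneg _) fun v => ?_
    rw [sub_apply, DD_apply, DD_apply, add_sub_add_left_eq_sub, ← map_sub, κ.norm_map]
    exact (L - L').le_opNorm v
  · refine ContinuousLinearMap.opNorm_le_bound _ (norm_nonneg _) fun v => ?_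
    rw [sub_apply, nf_apply, nf_apply, sub_sub_sub_cancel_left, ← map_sub, ι.norm_map,
      norm_sub_rev, ← norm_ad (L - L'), map_sub]
    exact (ad L - ad L').le_opNorm v
  · refine ContinuousLinearMap.opNorm_le_bound _ (by positivity) fun v => ?_
    rw [DD_apply, add_mul, one_mul]
    refine (norm_add_le _ _).trans ?_
    rw [ι.norm_map, κ.norm_map]
    exact add_le_add le_rfl (L.le_opNorm v)
  · refine ContinuousLinearMap.opNorm_le_bound _ (by positivity) fun v => ?_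
    rw [nf_apply, add_mul, one_mul]
    refine (norm_sub_le _ _).trans ?_
    rw [ι.norm_map, κ.norm_map, ← norm_ad L]
    exact add_le_add le_rfl ((ad L).le_opNorm v)
  · refine ContinuousLinearMap.opNorm_le_bound _ (norm_nonneg _) fun v => ?_
    have e : (DD ι κ L - ι.toContinuousLinearMap) v = κ (L v) := by
      rw [sub_apply, DD_apply]
      exact add_sub_cancel_left _ _
    rw [e, κ.norm_map]
    exact L.le_opNorm v

theorem kA_apply (A : E d →L[ℝ] E d →L[ℝ] E n) (a b : E d) : kA κ A a b = κ (A a b) := by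
  rfl

theorem norm_kA (A : E d →L[ℝ] E d →L[ℝ] E n) : ‖kA κ A‖ ≤ ‖A‖ := by
  refine ContinuousLinearMap.opNorm_le_bound₂ _ A.opNorm_nonneg fun a b => ?_
  rw [kA_apply, κ.norm_map]
  exact A.le_opNorm₂ a b

theorem d_gr (hu : ContDiff ℝ 3 u) (x : E d) : ContDiff ℝ 3 (gr ι κ u) ∧
    d1 (gr ι κ u) x = DD ι κ (d1 u x) ∧ d2 (gr ι κ u) x = kA κ (d2 u x) ∧
    ∀ a, d3 (gr ι κ u) x a = kA κ (d3 u x a) := by
  have h1 : Differentiable ℝ u := hu.differentiable (by norm_num)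
  have hu1 : ContDiff ℝ 2 (fderiv ℝ u) := hu.fderiv_right (m := 2) (by norm_num)
  have h2 : Differentiable ℝ (fderiv ℝ u) := hu1.differentiable (by norm_num)
  have h3 : Differentiable ℝ (fderiv ℝ (fderiv ℝ u)) :=
    (hu1.fderiv_right (m := 1) (by norm_num)).differentiable (by norm_num)
  have e1 : fderiv ℝ (gr ι κ u) = fun x => ι.toContinuousLinearMap +
      ContinuousLinearMap.compL ℝ (E d) (E n) H κ.toContinuousLinearMap (fderiv ℝ u x) :=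
    funext fun x => (ι.toContinuousLinearMap.hasFDerivAt.add
      (κ.toContinuousLinearMap.hasFDerivAt.comp x (h1 x).hasFDerivAt)).fderiv
  have e2 : fderiv ℝ (fderiv ℝ (gr ι κ u)) = fun x =>
      ContinuousLinearMap.compL ℝ (E d) (E d →L[ℝ] E n) (E d →L[ℝ] H)
        (ContinuousLinearMap.compL ℝ (E d) (E n) H κ.toContinuousLinearMap)
        (fderiv ℝ (fderiv ℝ u) x) := by
    funext x
    rw [e1, fderiv_const_add, fderiv_ell_Wi8 h2]
    rfl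
  refine ⟨ι.toContinuousLinearMap.contDiff.add (κ.toContinuousLinearMap.contDiff.comp hu),
    congrFun e1 x, congrFun e2 x, fun a => ?_⟩
  show fderiv ℝ (fderiv ℝ (fderiv ℝ (gr ι κ u))) x a = _
  rw [e2]
  exact DFunLike.congr_fun (fderiv_ell_Wi8 (F := E d →L[ℝ] E d →L[ℝ] E n)
    (G := E d →L[ℝ] E d →L[ℝ] H) h3
    (ContinuousLinearMap.compL ℝ (E d) (E d →L[ℝ] E n) (E d →L[ℝ] H)
      (ContinuousLinearMap.compL ℝ (E d) (E n) H κ.toContinuousLinearMap)) x) a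

theorem d1_aff_gr (hu : ContDiff ℝ 3 u) (x₀ z : E d) (A : E d →L[ℝ] E d) :
    d1 (aff (gr ι κ u) x₀ A) z = (DD ι κ (d1 u (x₀ + A z))).comp A := by
  obtain ⟨h1, h2, -⟩ := d_gr (ι := ι) (κ := κ) hu (x₀ + A z)
  rw [← h2]
  exact (((h1.differentiable (by norm_num)) (x₀ + A z)).hasFDerivAt.comp z
    (A.hasFDerivAt.const_add x₀)).fderiv

theorem Spl.trA_gr (h : Spl ι κ) (u : E d → E n) (x : E d) :
    trA (DD ι κ (d1 u x)) (kA κ (d2 u x)) = κ (NN u x) := by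
  rw [trA, (h.gi_DD u x).2, NN, tr2, map_sum]
  rfl

theorem Pw.mono (h : Pw u ε) {ε' : ℝ} (hε : ε ≤ ε') : Pw u ε' := by
  exact ⟨h.sm, fun x => (h.n0 x).trans hε, fun x => (h.n1 x).trans hε, fun x => (h.n2 x).trans hε,
    fun x a => (h.n3 x a).trans (mul_le_mul_of_nonneg_right hε (norm_nonneg _))⟩

theorem fderiv_add_Ad1 {F : Type*} [NormedAddCommGroup F] [NormedSpace ℝ F] {f g : E d → F}
    (hf : Differentiable ℝ f) (hg : Differentiable ℝ g) (x a : E d) :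
    fderiv ℝ (fun x => f x + g x) x a = fderiv ℝ f x a + fderiv ℝ g x a := by
  rw [fderiv_fun_add (hf x) (hg x)]
  rfl

theorem diff_Ad1 (hu : ContDiff ℝ 3 u) : Differentiable ℝ u ∧ Differentiable ℝ (fderiv ℝ u) ∧
    Differentiable ℝ (fderiv ℝ (fderiv ℝ u)) := by
  have hu1 : ContDiff ℝ 2 (fderiv ℝ u) := hu.fderiv_right (m := 2) (by norm_num)
  exact ⟨hu.differentiable (by norm_num), hu1.differentiable (by norm_num),
    (hu1.fderiv_right (m := 1) (by norm_num)).differentiable (by norm_num)⟩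

theorem Pw.add (h : Pw u ε) {v : E d → E n} {γ : ℝ} (hv : Pw v γ) :
    Pw (fun x => u x + v x) (ε + γ) := by
  obtain ⟨a1, a2, a3⟩ := diff_Ad1 h.sm
  obtain ⟨b1, b2, b3⟩ := diff_Ad1 hv.sm
  have e1 : fderiv ℝ (fun x => u x + v x) = fun x => fderiv ℝ u x + fderiv ℝ v x :=
    funext fun x => fderiv_fun_add (a1 x) (b1 x)
  have e2 : fderiv ℝ (fderiv ℝ fun x => u x + v x) =
      fun x => fderiv ℝ (fderiv ℝ u) x + fderiv ℝ (fderiv ℝ v) x := by
    rw [e1]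
    exact funext fun x => fderiv_fun_add (a2 x) (b2 x)
  refine ⟨h.sm.add hv.sm, fun x => (norm_add_le _ _).trans (add_le_add (h.n0 x) (hv.n0 x)),
    fun x => ?_, fun x => ?_, fun x a => ?_⟩
  · show ‖fderiv ℝ (fun x => u x + v x) x‖ ≤ _
    rw [e1]
    exact (norm_add_le _ _).trans (add_le_add (h.n1 x) (hv.n1 x))
  · show ‖fderiv ℝ (fderiv ℝ fun x => u x + v x) x‖ ≤ _
    rw [e2]
    exact (ContinuousLinearMap.opNorm_add_le _ _).trans (add_le_add (h.n2 x) (hv.n2 x))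
  · show ‖fderiv ℝ (fderiv ℝ (fderiv ℝ fun x => u x + v x)) x a‖ ≤ _
    have e3 : fderiv ℝ (fun x => fderiv ℝ (fderiv ℝ u) x + fderiv ℝ (fderiv ℝ v) x) x a =
        d3 u x a + d3 v x a :=
      fderiv_add_Ad1 (F := E d →L[ℝ] E d →L[ℝ] E n) a3 b3 x a
    rw [e2, e3, add_mul]
    exact (ContinuousLinearMap.opNorm_add_le _ _).trans (add_le_add (h.n3 x a) (hv.n3 x a))

theorem Pw.jet0 (h : Pw u ε) (hε : cH H * ε ≤ 1) (x : E d) : Jet0 ε (DD ι κ (d1 u x)) := by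
  exact jet0_of_near ι ((DD_sub (d1 u x) (d1 u x)).2.2.2.2.trans (h.n1 x)) hε

theorem Pw.lip (h : Pw u ε) (x x' : E d) : ‖u x - u x'‖ ≤ ε * ‖x - x'‖ ∧
    ‖d1 u x - d1 u x'‖ ≤ ε * ‖x - x'‖ ∧ ‖u x - u x' - d1 u x' (x - x')‖ ≤ ε * ‖x - x'‖ ^ 2 := by
  obtain ⟨a1, a2, -⟩ := diff_Ad1 h.sm
  have h2 : ∀ y y', ‖d1 u y - d1 u y'‖ ≤ ε * ‖y - y'‖ := fun y y' =>
    convex_univ.norm_image_sub_le_of_norm_fderiv_le (fun z _ => a2 z) (fun z _ => h.n2 z)
      (mem_univ y') (mem_univ y)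
  have h0 : 0 ≤ ε := (norm_nonneg _).trans (h.n0 x)
  refine ⟨convex_univ.norm_image_sub_le_of_norm_fderiv_le (fun z _ => a1 z) (fun z _ => h.n1 z)
    (mem_univ x') (mem_univ x), h2 x x', ?_⟩
  have h3 := (convex_closedBall x' ‖x - x'‖).norm_image_sub_le_of_norm_fderiv_le'
    (f := u) (φ := d1 u x') (C := ε * ‖x - x'‖) (fun z _ => a1 z)
    (fun z hz => (h2 z x').trans (mul_le_mul_of_nonneg_left (mem_closedBall_iff_norm.1 hz) h0))
    (mem_closedBall_self (norm_nonneg _)) (mem_closedBall_iff_norm.2 le_rfl)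
  rw [pow_two, ← mul_assoc]
  exact h3

theorem Pw.symm (h : Pw u ε) (x a b : E d) : d2 u x a b = d2 u x b a := by
  exact (h.sm.contDiffAt.isSymmSndFDerivAt (by simp; norm_num)).eq a b

theorem Pw.mn (hs : Spl ι κ) (h : Pw u ε) {Ω : Set (E d)} (hΩ : IsOpen Ω)
    (hN : ∀ x ∈ Ω, NN u x = 0) : Mn ι (gr ι κ u) ε Ω := by
  refine ⟨hΩ, (d_gr h.sm 0).1.contDiffOn, fun z _ => ?_, fun z _ => ?_, fun z _ a => ?_,
    fun z hz => ?_⟩
  · rw [(d_gr h.sm z).2.1]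
    exact (DD_sub (d1 u z) (d1 u z)).2.2.2.2.trans (h.n1 z)
  · rw [(d_gr h.sm z).2.2.1]
    exact (norm_kA _).trans (h.n2 z)
  · rw [(d_gr h.sm z).2.2.2 a]
    exact (norm_kA _).trans (h.n3 z a)
  · rw [(d_gr h.sm z).2.1, (d_gr h.sm z).2.2.1, hs.trA_gr, hN z hz, map_zero]

theorem exists_pw : ∃ C : ℝ, 0 < C ∧ ∀ (s : ℕ) (u : E d → E n) (ε : ℝ), 1 ≤ s → Sml s u ε →
    Pw u (C * ε) := by
  obtain ⟨C0, hC0, h0⟩ := norm_le_nv (d := d) (X := E n)
  obtain ⟨C1, hC1, h1⟩ := norm_fderiv_le_nv (d := d) (X := E n)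
  obtain ⟨C2, hC2, h2⟩ := norm_fderiv_le_nv (d := d) (X := E d →L[ℝ] E n)
  obtain ⟨C3, hC3, h3⟩ := norm_fderiv_le_nv (d := d) (X := E d →L[ℝ] E d →L[ℝ] E n)
  obtain ⟨K1, hK1, k1⟩ := nv_fderiv (d := d) (X := E n)
  obtain ⟨K2, hK2, k2⟩ := nv_fderiv (d := d) (X := E d →L[ℝ] E n)
  refine ⟨C0 + C1 + C2 * K1 + C3 * (K2 * K1), by positivity, fun s u ε hs hu => ?_⟩
  have w3 : Wv 3 u := hu.w.mono (by omega)
  have w2 : Wv 2 (fderiv ℝ u) := Wv.dif w3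
  have w1 : Wv 1 (fderiv ℝ (fderiv ℝ u)) := Wv.dif w2
  have hm : ∀ σ : ℤ, σ ≤ 3 → nv σ u ≤ ε := fun σ hσ =>
    (hu.w.nv_mono (τ := s + 2) (by omega) (by omega)).trans hu.le
  have hε : 0 ≤ ε := (nv_nonneg _ _).trans hu.le
  have m1 : ∀ σ : ℤ, σ ≤ 2 → nv σ (fderiv ℝ u) ≤ K1 * ε := fun σ hσ =>
    (k1 2 σ u w3 (by omega)).trans (mul_le_mul_of_nonneg_left (hm _ (by omega)) hK1.le)
  have m2 : nv 1 (fderiv ℝ (fderiv ℝ u)) ≤ K2 * (K1 * ε) :=
    (k2 1 1 _ w2 (by omega)).trans (mul_le_mul_of_nonneg_left (m1 _ (by omega)) hK2.le)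
  have p0 : 0 ≤ C0 * ε := by positivity
  have p1 : 0 ≤ C1 * ε := by positivity
  have p2 : 0 ≤ C2 * (K1 * ε) := by positivity
  have p3 : 0 ≤ C3 * (K2 * (K1 * ε)) := by positivity
  have pe : (C0 + C1 + C2 * K1 + C3 * (K2 * K1)) * ε
      = C0 * ε + C1 * ε + C2 * (K1 * ε) + C3 * (K2 * (K1 * ε)) := by ring
  rw [pe]
  refine ⟨w3.contDiff, fun x => ?_, fun x => ?_, fun x => ?_, fun x a => ?_⟩
  · have e1 := h0 u (w3.mono (by omega)) x
    have e2 := mul_le_mul_of_nonneg_left (hm 0 (by omega)) hC0.le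
    linarith
  · refine ContinuousLinearMap.opNorm_le_bound _ (by linarith) fun a => ?_
    refine (h1 u (w3.mono (by omega)) x a).trans (mul_le_mul_of_nonneg_right ?_ (norm_nonneg _))
    have e2 := mul_le_mul_of_nonneg_left (hm 1 (by omega)) hC1.le
    linarith
  · refine ContinuousLinearMap.opNorm_le_bound _ (by linarith) fun a => ?_
    refine (h2 _ (w2.mono (by omega)) x a).trans (mul_le_mul_of_nonneg_right ?_ (norm_nonneg _))
    have e2 := mul_le_mul_of_nonneg_left (m1 1 (by omega)) hC2.le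
    linarith
  · refine (h3 _ w1 x a).trans (mul_le_mul_of_nonneg_right ?_ (norm_nonneg _))
    have e2 := mul_le_mul_of_nonneg_left m2 hC3.le
    linarith

theorem lip_of_W {X : Type*} [NormedAddCommGroup X] [NormedSpace ℝ X] [FiniteDimensional ℝ X] :
    ∃ C : ℝ, 0 < C ∧ ∀ f : E d → X, Wv 1 f → (∀ x, ‖f x‖ ≤ C * nv 1 f) ∧
      ∀ x x', ‖f x - f x'‖ ≤ C * nv 1 f * ‖x - x'‖ := by
  obtain ⟨C0, hC0, h0⟩ := norm_le_nv (d := d) (X := X)
  obtain ⟨C1, hC1, h1⟩ := norm_fderiv_le_nv (d := d) (X := X)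
  refine ⟨C0 + C1, by positivity, fun f hf => ?_⟩
  have hn := nv_nonneg 1 f
  have p0 : 0 ≤ C0 * nv 1 f := by positivity
  have p1 : 0 ≤ C1 * nv 1 f := by positivity
  rw [add_mul]
  refine ⟨fun x => ?_, fun x x' => ?_⟩
  · have e1 := h0 f (hf.mono (by omega)) x
    have e2 := mul_le_mul_of_nonneg_left (hf.nv_mono (σ := 0) (τ := 1) (by omega) (by omega)) hC0.le
    linarith
  · have hd : Differentiable ℝ f := hf.contDiff.differentiable (by norm_num)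
    refine convex_univ.norm_image_sub_le_of_norm_fderiv_le (fun z _ => hd z) (fun z _ => ?_)
      (mem_univ x') (mem_univ x)
    refine ContinuousLinearMap.opNorm_le_bound _ (by linarith) fun a => ?_
    exact (h1 f hf z a).trans (mul_le_mul_of_nonneg_right (by linarith) (norm_nonneg _))

end Pool.Agent.Lib.MP_8daebb_an.GM.Ch
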