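import Pool.Agent.Lib.MP_8daebb_an.GM.ChD0

/-! Existence and uniqueness of the foot. -/

open Metric Set Filter Topology
open scoped RealInnerProductSpace ContDiff

namespace Pool.Agent.Lib.MP_8daebb_an.GM.Ch

variable {d : ℕ} {H : Type*} [NormedAddCommGroup H] [InnerProductSpace ℝ H]
  [FiniteDimensional ℝ H]

variable {ι : E d →ₗᵢ[ℝ] H} {F : E d → H} {o : E d} {ε R : ℝ}

theorem Pre.norm_ad_ChD1 (h : Pre ι F o ε R) {z : E d} (hz : z ∈ ball (0 : E d) R) (u : H) :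
    ‖ad (d1 F z) u‖ ≤ (1 + 2 * ε) * ‖u‖ :=
  (ad (d1 F z)).le_of_opNorm_le ((norm_ad _).trans_le (h.jet0 hz).norm_D_le) u

theorem Pre.norm_F_ChD1 (h : Pre ι F o ε R) {z : E d} (hz : z ∈ ball (0 : E d) R) :
    ‖F z‖ < 5 / 2 + 4 * ε := by
  have h1 := h.norm_F_le hz
  have h2 := mem_ball_zero_iff.1 hz
  linarith [h.off]

theorem Pre.T_lip (h : Pre ι F o ε R) {p : H} (hp : ‖p‖ ≤ 4) {z w : E d}
    (hz : z ∈ ball (0 : E d) R) (hw : w ∈ ball (0 : E d) R) :
    ‖(z + ad (d1 F z) (p - F z)) - (w + ad (d1 F w) (p - F w))‖ ≤ 30 * ε * ‖z - w‖ := by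
  have e0 := h.eps0
  have e1 := h.eps_le
  have hz' := mem_ball_zero_iff.1 hz
  have hw' := mem_ball_zero_iff.1 hw
  have d0 := norm_nonneg (z - w)
  have d4 : ‖z - w‖ ≤ 5 := (norm_sub_le z w).trans (by linarith [h.R_le])
  have e : (z + ad (d1 F z) (p - F z)) - (w + ad (d1 F w) (p - F w)) =
      -(gm (d1 F w) - 1) (z - w) - ad (d1 F w) (F z - F w - d1 F w (z - w)) +
        ad (d1 F z - d1 F w) (p - F z) := by
    simp only [map_sub, sub_apply, one_apply_eq_self, gm_apply]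
    abel
  have h1 : ‖-(gm (d1 F w) - 1) (z - w)‖ ≤ 3 * ε * ‖z - w‖ := by
    rw [norm_neg]
    exact (gm (d1 F w) - 1).le_of_opNorm_le (h.jet0 hw).g1 _
  have h2 := (h.norm_ad_ChD1 hw _).trans (mul_le_mul (by linarith : 1 + 2 * ε ≤ 2)
    (h.toMn.taylor (convex_ball _ _) hz hw) (norm_nonneg _) (by norm_num))
  have h3 : ‖p - F z‖ ≤ 7 := by
    have := h.norm_F_ChD1 hz
    have := norm_sub_le p (F z)
    linarith
  have h4 := ((ad (d1 F z - d1 F w)).le_opNorm (p - F z)).trans (mul_le_mul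
    ((norm_ad _).trans_le (h.toMn.lip1 (convex_ball _ _) hz hw)) h3 (norm_nonneg _) (by positivity))
  have h5 : ε * ‖z - w‖ * ‖z - w‖ ≤ ε * ‖z - w‖ * 5 :=
    mul_le_mul_of_nonneg_left d4 (by positivity)
  rw [e]
  refine (norm_add_le _ _).trans ((add_le_add (norm_sub_le _ _) le_rfl).trans ?_)
  nlinarith [mul_nonneg e0 d0]

theorem Pre.exists_foot (h : Pre ι F o ε R) {p : H} (hp : ‖p‖ ≤ 4) {x₀ : E d} {r : ℝ}
    (hr : 0 ≤ r) (hx : ‖x₀‖ + r < R) (h0 : ‖ad (d1 F x₀) (p - F x₀)‖ ≤ (1 - 30 * ε) * r) :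
    ∃ x, ‖x - x₀‖ ≤ r ∧ ad (d1 F x) (p - F x) = 0 := by
  have e0 := h.eps0
  have e1 := h.eps_le
  have hs : closedBall x₀ r ⊆ ball (0 : E d) R := fun z hz => by
    rw [mem_closedBall, dist_eq_norm] at hz
    have := norm_add_le x₀ (z - x₀)
    rw [add_sub_cancel] at this
    exact mem_ball_zero_iff.2 (by linarith)
  have hm : MapsTo (fun z => z + ad (d1 F z) (p - F z)) (closedBall x₀ r) (closedBall x₀ r) := by
    intro z hz
    have h1 := h.T_lip hp (hs hz) (hs (mem_closedBall_self hr))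
    rw [mem_closedBall, dist_eq_norm] at hz ⊢
    have h2 := norm_add_le (z + ad (d1 F z) (p - F z) - (x₀ + ad (d1 F x₀) (p - F x₀)))
      (ad (d1 F x₀) (p - F x₀))
    rw [show ∀ a b c : E d, a - (b + c) + c = a - b from fun a b c => by abel] at h2
    nlinarith [mul_le_mul_of_nonneg_left hz e0]
  have hc : ContractingWith ⟨30 * ε, by positivity⟩ (hm.restrict _ _ _) := by
    refine ⟨?_, LipschitzWith.of_dist_le_mul fun z w => ?_⟩
    · rw [← NNReal.coe_lt_coe]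
      show 30 * ε < 1
      linarith
    · have := h.T_lip hp (hs z.2) (hs w.2)
      rw [← dist_eq_norm, ← dist_eq_norm] at this
      exact this
  obtain ⟨x, h1, h2, -⟩ := hc.exists_fixedPoint' isClosed_closedBall.isComplete hm
    (mem_closedBall_self hr) (edist_ne_top _ _)
  exact ⟨x, by rwa [mem_closedBall, dist_eq_norm] at h1, add_eq_left.1 h2⟩

theorem Pre.foot_norm_lt (h : Pre ι F o ε R) {p : H} {x : E d} (hx : IsFoot F R p x) :
    ‖p‖ < 18 / 5 := by
  have h1 := h.norm_F_ChD1 hx.1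
  have h3 := norm_add_le (p - F x) (F x)
  rw [sub_add_cancel] at h3
  linarith [hx.2.2, h.eps_le]

theorem Pre.foot_lip' (h : Pre ι F o ε R) {p p' : H} {x x' : E d} (hx : IsFoot F R p x)
    (hx' : IsFoot F R p' x') : ‖x - x'‖ ≤ 11 / 10 * ‖p - p'‖ := by
  have h1 := h.T_lip (p := p) (by linarith [h.foot_norm_lt hx]) hx.1 hx'.1
  have e : ad (d1 F x') (p - F x') = ad (d1 F x') (p - p') := by
    rw [← sub_add_sub_cancel p p', map_add, hx'.2.1, add_zero]
  rw [hx.2.1, add_zero, e] at h1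
  have h2 := h.norm_ad_ChD1 hx'.1 (p - p')
  have h3 := norm_add_le (x - (x' + ad (d1 F x') (p - p'))) (ad (d1 F x') (p - p'))
  rw [show ∀ a b c : E d, a - (b + c) + c = a - b from fun a b c => by abel] at h3
  nlinarith [norm_nonneg (x - x'), norm_nonneg (p - p'), h.eps_le]

theorem foot_spec {p : H} (hp : p ∈ tube F R) : IsFoot F R p (foot F R p) := by
  rw [foot, dif_pos (show ∃ x, IsFoot F R p x from hp)]
  exact Exists.choose_spec hp

theorem foot_of_notMem {p : H} (hp : p ∉ tube F R) : foot F R p = 0 := dif_neg hp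

theorem Pre.foot_eq (h : Pre ι F o ε R) {p : H} {x : E d} (hx : IsFoot F R p x) :
    foot F R p = x := by
  have := h.foot_lip' (foot_spec ⟨x, hx⟩) hx
  rw [sub_self, norm_zero, mul_zero] at this
  exact sub_eq_zero.1 (norm_le_zero_iff.1 this)

theorem Pre.F_lip (h : Pre ι F o ε R) {z w : E d} (hz : z ∈ ball (0 : E d) R)
    (hw : w ∈ ball (0 : E d) R) : |‖F z - F w‖ - ‖z - w‖| ≤ ε * ‖z - w‖ := by
  have := (abs_norm_sub_norm_le _ _).trans (h.toMn.near_iso (convex_ball _ _) hz hw)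
  rwa [ι.norm_map] at this

theorem Pre.isOpen_tube (h : Pre ι F o ε R) : IsOpen (tube F R) := by
  have e0 := h.eps0
  have e1 := h.eps_le
  rw [Metric.isOpen_iff]
  rintro p ⟨x, hx⟩
  have h1 := mem_ball_zero_iff.1 hx.1
  have h2 := hx.2.2
  have h3 := h.norm_F_ChD1 hx.1
  have h8 := norm_add_le (p - F x) (F x)
  rw [sub_add_cancel] at h8
  refine ⟨min ((R - ‖x‖) / 2) ((1 - ‖p - F x‖) / 4), lt_min (by linarith) (by linarith),
    fun q hq => ?_⟩
  rw [mem_ball, dist_eq_norm, lt_min_iff] at hq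
  have d0 := norm_nonneg (q - p)
  have h4 := norm_add_le (q - p) p
  rw [sub_add_cancel] at h4
  obtain ⟨z, z1, z2⟩ := h.exists_foot (p := q) (by linarith [norm_nonneg (p - F x)])
    (x₀ := x) (r := 2 * ‖q - p‖) (by positivity) (by linarith) (by
      rw [← sub_add_sub_cancel q p, map_add, hx.2.1, add_zero]
      exact (h.norm_ad_ChD1 hx.1 _).trans (by nlinarith))
  have h5 := norm_add_le x (z - x)
  rw [add_sub_cancel] at h5
  have hz : z ∈ ball (0 : E d) R := mem_ball_zero_iff.2 (by linarith)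
  refine ⟨z, hz, z2, ?_⟩
  have h6 := (abs_le.1 (h.F_lip hz hx.1)).2
  have h7 : ‖q - F z‖ ≤ ‖q - p‖ + ‖p - F x‖ + ‖F z - F x‖ := by
    rw [show q - F z = q - p + (p - F x) - (F z - F x) by abel]
    exact (norm_sub_le _ _).trans (add_le_add (norm_add_le _ _) le_rfl)
  nlinarith [norm_nonneg (z - x)]

theorem Pre.tube_subset (h : Pre ι F o ε R) : tube F R ⊆ ball 0 (18 / 5) :=
  fun _ ⟨_, hx⟩ => mem_ball_zero_iff.2 (h.foot_norm_lt hx)

theorem Pre.jet_at (h : Pre ι F o ε R) {p : H} (hp : p ∈ tube F R) :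
    Jet ε (j1 F R p) (j2 F R p) (j3 F R p) (ht F R p) :=
  h.toMn.jet h.eps1 (foot_spec hp).1 (foot_spec hp).2.2.le (foot_spec hp).2.1

/-- Points of the tube at bounded base radius and height form a compact set. -/
theorem Pre.isCompact_tube (h : Pre ι F o ε R) {r η : ℝ} (hr : r < R) (hη : η < 1) :
    IsCompact {p | p ∈ tube F R ∧ ‖foot F R p‖ ≤ r ∧ ‖ht F R p‖ ≤ η} := by
  have hs : ∀ a ∈ closedBall (0 : E d) r ×ˢ closedBall (0 : H) η, a.1 ∈ ball (0 : E d) R :=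
    fun a ha => closedBall_subset_ball hr ha.1
  have c1 : ContinuousOn (fun a : E d × H => ad (d1 F a.1) a.2)
      (closedBall (0 : E d) r ×ˢ closedBall (0 : H) η) :=
    (ad.continuous.comp_continuousOn (h.toMn.sm1.continuousOn.comp continuousOn_fst hs)).clm_apply
      continuousOn_snd
  have c2 : ContinuousOn (fun a : E d × H => F a.1 + a.2)
      (closedBall (0 : E d) r ×ˢ closedBall (0 : H) η) :=
    (h.sm.continuousOn.comp continuousOn_fst hs).add continuousOn_snd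
  have hK := (isCompact_closedBall (0 : E d) r).prod (isCompact_closedBall (0 : H) η)
  have hK' := hK.of_isClosed_subset
    (c1.preimage_isClosed_of_isClosed hK.isClosed (isClosed_singleton (x := 0))) inter_subset_left
  have hI := hK'.image_of_continuousOn (c2.mono inter_subset_left)
  have key : ∀ (x : E d) (y : H), x ∈ ball (0 : E d) R → ‖x‖ ≤ r → ‖y‖ ≤ η →
      ad (d1 F x) y = 0 →
      (F x + y ∈ tube F R ∧ ‖foot F R (F x + y)‖ ≤ r ∧ ‖ht F R (F x + y)‖ ≤ η) := by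
    intro x y hx h1 h3 h5
    have h4 : IsFoot F R (F x + y) x :=
      ⟨hx, by rw [add_sub_cancel_left]; exact h5,
        by rw [add_sub_cancel_left]; exact h3.trans_lt hη⟩
    have h6 : foot F R (F x + y) = x := h.foot_eq h4
    refine ⟨⟨x, h4⟩, h6.symm ▸ h1, ?_⟩
    rw [ht, h6, add_sub_cancel_left]
    exact h3
  convert hI using 1
  ext p
  constructor
  · rintro ⟨h1, h2, h3⟩
    exact ⟨(foot F R p, ht F R p), ⟨⟨mem_closedBall_zero_iff.2 h2, mem_closedBall_zero_iff.2 h3⟩,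
      mem_preimage.2 (mem_singleton_iff.2 (foot_spec h1).2.1)⟩, add_sub_cancel _ _⟩
  · rintro ⟨a, ⟨h1, h2⟩, hp⟩
    have := key a.1 a.2 (hs _ h1) (mem_closedBall_zero_iff.1 h1.1)
      (mem_closedBall_zero_iff.1 h1.2) (mem_singleton_iff.1 (mem_preimage.1 h2))
    have hp' : F a.1 + a.2 = p := hp
    rw [hp'] at this
    exact this

theorem Pre.inner_le_ChD1 (h : Pre ι F o ε R) {z w : E d} (hz : z ∈ ball (0 : E d) R)
    (hw : w ∈ ball (0 : E d) R) {y : H} (h1 : ad (d1 F w) y = 0) (h2 : ‖y‖ ≤ 1) :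
    |⟪F z - F w, y⟫| ≤ ε * ‖z - w‖ ^ 2 := by
  have e : ⟪F z - F w, y⟫ = ⟪F z - F w - d1 F w (z - w), y⟫ := by
    rw [inner_sub_left _ (d1 F w _), ← inner_ad_right, h1, inner_zero_right, sub_zero]
  rw [e]
  exact (abs_real_inner_le_norm _ _).trans
    ((mul_le_of_le_one_right (norm_nonneg _) h2).trans (h.toMn.taylor (convex_ball _ _) hz hw))

/-- Almost Pythagoras. -/
theorem Pre.geo (h : Pre ι F o ε R) {p p' : H} (hp : p ∈ tube F R) (hp' : p' ∈ tube F R) :
    |‖p - p'‖ ^ 2 - ‖foot F R p - foot F R p'‖ ^ 2 - ‖ht F R p - ht F R p'‖ ^ 2| ≤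
      20 * ε * ‖foot F R p - foot F R p'‖ ^ 2 := by
  have e0 := h.eps0
  have e1 := h.eps_le
  obtain ⟨a1, a2, a3⟩ := foot_spec hp
  obtain ⟨b1, b2, b3⟩ := foot_spec hp'
  have h1 := abs_le.1 (h.inner_le_ChD1 a1 b1 b2 b3.le)
  have h2 := abs_le.1 (h.inner_le_ChD1 b1 a1 a2 a3.le)
  have h3 := abs_le.1 (h.F_lip a1 b1)
  rw [← neg_sub (F (foot F R p)), inner_neg_left, norm_sub_rev] at h2
  simp only [ht]
  generalize foot F R p = x at *
  generalize foot F R p' = x' at *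
  have e := norm_add_sq_real (F x - F x') (p - F x - (p' - F x'))
  rw [show F x - F x' + (p - F x - (p' - F x')) = p - p' by abel, inner_sub_right] at e
  have d0 := norm_nonneg (x - x')
  have n0 := norm_nonneg (F x - F x')
  generalize ‖x - x'‖ = t at *
  generalize ‖F x - F x'‖ = n at *
  have k0 : 0 ≤ ε * t := mul_nonneg e0 d0
  have k1 : ε * t ≤ t / 100 := by nlinarith
  have k2 : n ^ 2 ≤ t ^ 2 + 5 * ε * t ^ 2 := by nlinarith
  have k3 : t ^ 2 - 5 * ε * t ^ 2 ≤ n ^ 2 := by nlinarith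
  have k4 : 0 ≤ ε * t ^ 2 := by positivity
  rw [abs_le]
  constructor <;> linarith [h1.1, h1.2, h2.1, h2.2]

theorem Pre.ht_le' (h : Pre ι F o ε R) {p : H} (hp : ‖p‖ ≤ 4) {x : E d}
    (hx : x ∈ ball (0 : E d) R) (hn : ad (d1 F x) (p - F x) = 0) {η : ℝ} {v : E d}
    (hv : ‖p - ι v‖ ≤ η) (hη : η ≤ 1) : ‖p - F x‖ ≤ 20 * (ε + η) := by
  have e0 := h.eps0
  have e1 := (norm_nonneg _).trans hv
  have hx' := mem_ball_zero_iff.1 hx
  have h1 : ‖v - (o + x)‖ ≤ 8 := by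
    have := norm_sub_le p (p - ι v)
    rw [sub_sub_cancel, ι.norm_map] at this
    linarith [norm_sub_le v (o + x), norm_add_le o x, h.off]
  have h2 : ‖F x - ι (o + x)‖ ≤ 4 * ε := by
    have := h.near_plane hx
    nlinarith [h.R_le]
  have h3 := ((d1 F x - ι.toContinuousLinearMap).le_opNorm (v - (o + x))).trans (mul_le_mul
    (h.n0 x hx) h1 (norm_nonneg _) e0)
  have e : p - F x = p - ι v - (F x - ι (o + x)) -
      (d1 F x - ι.toContinuousLinearMap) (v - (o + x)) + d1 F x (v - (o + x)) := by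
    rw [sub_apply, LinearIsometry.coe_toContinuousLinearMap, map_sub ι]
    abel
  have h4 : ‖p - ι v - (F x - ι (o + x)) - (d1 F x - ι.toContinuousLinearMap) (v - (o + x))‖ ≤
      20 * (ε + η) := by
    refine (norm_sub_le _ _).trans ((add_le_add (norm_sub_le _ _) le_rfl).trans ?_)
    linarith
  have h5 : ‖p - F x‖ * ‖p - F x‖ ≤ 20 * (ε + η) * ‖p - F x‖ := by
    rw [← real_inner_self_eq_norm_mul_norm]
    nth_rewrite 1 [e]
    rw [inner_add_left, ← inner_ad_right, hn, inner_zero_right, add_zero]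
    exact (real_inner_le_norm _ _).trans (mul_le_mul_of_nonneg_right h4 (norm_nonneg _))
  by_contra h6
  nlinarith

theorem Pre.ht_le (h : Pre ι F o ε R) {p : H} (hp : p ∈ tube F R) {η : ℝ} {v : E d}
    (hv : ‖p - ι v‖ ≤ η) (hη : η ≤ 1) : ‖ht F R p‖ ≤ 20 * (ε + η) :=
  h.ht_le' (by linarith [h.foot_norm_lt (foot_spec hp)]) (foot_spec hp).1 (foot_spec hp).2.1 hv hη

theorem Pre.norm_F0 (h : Pre ι F o ε R) (hO : Org F) (hR : 0 < R) : ‖F 0‖ ≤ 20 * ε := by
  have := h.ht_le' (p := 0) (by simp) (mem_ball_self hR)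
    (by rw [zero_sub, map_neg, show ad (d1 F 0) (F 0) = 0 from hO, neg_zero]) (η := 0) (v := 0)
    (by simp) zero_le_one
  rwa [zero_sub, norm_neg, add_zero] at this

/-- With the gauge, the origin has foot `0`. -/
theorem Pre.foot_zero (h : Pre ι F o ε R) (hO : Org F) (hR : 0 < R) : IsFoot F R 0 0 :=
  ⟨mem_ball_self hR, by rw [zero_sub, map_neg, show ad (d1 F 0) (F 0) = 0 from hO, neg_zero],
    by rw [zero_sub, norm_neg]; linarith [h.norm_F0 hO hR, h.eps_le]⟩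

/-- With the gauge, a small ambient ball lies over a ball of almost the same radius. -/
theorem Pre.ball_sub {p : H} (h : Pre ι F o ε R) (hO : Org F) {σ : ℝ} (hσ : σ ≤ R)
    (hp : ‖p‖ < (1 - 40 * ε) * σ) {η : ℝ} {v : E d} (hv : ‖p - ι v‖ ≤ η) (hη : η ≤ 1 / 100) :
    p ∈ tube F R ∧ ‖foot F R p‖ < σ := by
  have e0 := h.eps0
  have e1 := h.eps_le
  have p0 := norm_nonneg p
  have s0 : 0 < σ := (pos_iff_pos_of_mul_pos (p0.trans_lt hp)).1 (by linarith)
  have h0 : (0 : E d) ∈ ball (0 : E d) R := mem_ball_self (by linarith)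
  have k0 : 0 < 1 - 30 * ε := by linarith
  have p4 : ‖p‖ ≤ 4 := by nlinarith [h.R_le]
  have h1 : (1 + 2 * ε) * ‖p‖ / (1 - 30 * ε) < σ := by
    rw [div_lt_iff₀ k0]
    nlinarith [mul_nonneg e0 s0.le, mul_nonneg (mul_nonneg e0 e0) s0.le]
  obtain ⟨x, x1, x2⟩ := h.exists_foot p4 (x₀ := 0)
    (r := (1 + 2 * ε) * ‖p‖ / (1 - 30 * ε)) (by positivity) (by rw [norm_zero]; linarith)
    (by
      rw [map_sub, show ad (d1 F 0) (F 0) = 0 from hO, sub_zero, mul_div_cancel₀ _ k0.ne']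
      exact h.norm_ad_ChD1 h0 p)
  rw [sub_zero] at x1
  have hx : x ∈ ball (0 : E d) R := mem_ball_zero_iff.2 (by linarith)
  have h3 : IsFoot F R p x :=
    ⟨hx, x2, by linarith [h.ht_le' p4 hx x2 hv (by linarith)]⟩
  exact ⟨⟨x, h3⟩, by rw [h.foot_eq h3]; linarith⟩

end Pool.Agent.Lib.MP_8daebb_an.GM.Ch
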