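import Pool.Agent.Lib.MP_8daebb_an.GM.Wi9

/-! The inverse metric in the Wiener algebra. -/

open MeasureTheory Metric Set Filter Topology
open scoped RealInnerProductSpace ContDiff ENNReal

namespace Pool.Agent.Lib.MP_8daebb_an.GM.Ch

variable {d n : ℕ}

theorem Sml.mono {s : ℕ} {u : E d → E n} {ε ε' : ℝ} (h : Sml s u ε) (hε : ε ≤ ε') : Sml s u ε' := by
  exact ⟨h.w, h.le.trans hε⟩

theorem Sml.mono_s {s s' : ℕ} {u : E d → E n} {ε : ℝ} (h : Sml s u ε) (hs : s' ≤ s) : Sml s' u ε := by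
  exact ⟨h.w.mono (by omega), (h.w.nv_mono (by omega) (by push_cast; omega)).trans h.le⟩

theorem Sml.nonneg {s : ℕ} {u : E d → E n} {ε : ℝ} (h : Sml s u ε) : 0 ≤ ε := by
  exact (nv_nonneg _ _).trans h.le

theorem Sml.add {s : ℕ} {u z : E d → E n} {ε γ : ℝ} (h : Sml s u ε) (hz : Sml s z γ) :
    Sml s (fun x => u x + z x) (ε + γ) := by
  exact ⟨h.w.add hz.w, (nv_add_le h.w hz.w (by push_cast; omega)).trans (add_le_add h.le hz.le)⟩

theorem d1_add {X : Type*} [NormedAddCommGroup X] [NormedSpace ℝ X] {v v' : E d → X}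
    (hv : ContDiff ℝ 2 v) (hv' : ContDiff ℝ 2 v') :
    d1 (fun x => v x + v' x) = (fun x => d1 v x + d1 v' x) ∧
      d2 (fun x => v x + v' x) = (fun x => d2 v x + d2 v' x) ∧
      d1 (fun x => v x - v' x) = (fun x => d1 v x - d1 v' x) ∧
      d2 (fun x => v x - v' x) = fun x => d2 v x - d2 v' x := by
  have a := hv.differentiable two_ne_zero
  have a' := hv'.differentiable two_ne_zero
  have b : Differentiable ℝ (fderiv ℝ v) :=
    (hv.fderiv_right (m := 1) (by norm_num)).differentiable one_ne_zero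
  have b' : Differentiable ℝ (fderiv ℝ v') :=
    (hv'.fderiv_right (m := 1) (by norm_num)).differentiable one_ne_zero
  have e1 : d1 (fun x => v x + v' x) = fun x => d1 v x + d1 v' x :=
    funext fun x => ((a x).hasFDerivAt.add (a' x).hasFDerivAt).fderiv
  have e2 : d1 (fun x => v x - v' x) = fun x => d1 v x - d1 v' x :=
    funext fun x => ((a x).hasFDerivAt.sub (a' x).hasFDerivAt).fderiv
  refine ⟨e1, ?_, e2, ?_⟩
  · show fderiv ℝ (d1 fun x => v x + v' x) = _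
    rw [e1]
    exact funext fun x => ((b x).hasFDerivAt.add (b' x).hasFDerivAt).fderiv
  · show fderiv ℝ (d1 fun x => v x - v' x) = _
    rw [e2]
    exact funext fun x => ((b x).hasFDerivAt.sub (b' x).hasFDerivAt).fderiv

theorem nv_d12 : ∃ C : ℝ, 0 < C ∧ ∀ (s : ℕ) (v : E d → E n), Wv (s + 2) v →
    Wv (s + 1) (d1 v) ∧ Wv s (d2 v) ∧ ∀ σ : ℤ, σ ≤ s →
      nv (σ + 1) (d1 v) ≤ C * nv (σ + 2) v ∧ nv σ (d1 v) ≤ C * nv (σ + 1) v ∧
        nv σ (d2 v) ≤ C * nv (σ + 2) v := by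
  obtain ⟨A, hA, a⟩ := nv_fderiv (d := d) (X := E n)
  obtain ⟨B, hB, b⟩ := nv_fderiv (d := d) (X := E d →L[ℝ] E n)
  refine ⟨A + B * A, by positivity, fun s v hv => ?_⟩
  have h1 : Wv (s + 1) (d1 v) := Wv.dif (n := s + 1) hv
  refine ⟨h1, Wv.dif (n := s) h1, fun σ hσ => ?_⟩
  have k1 := a (s + 1) (σ + 1) v hv (by push_cast; omega)
  have k2 := a (s + 1) σ v hv (by push_cast; omega)
  have k3 := b s σ (d1 v) h1 hσ
  rw [add_assoc, one_add_one_eq_two] at k1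
  have p1 := mul_nonneg (mul_pos hB hA).le (nv_nonneg (σ + 2) v)
  have p2 := mul_nonneg (mul_pos hB hA).le (nv_nonneg (σ + 1) v)
  have p3 := mul_nonneg hA.le (nv_nonneg (σ + 2) v)
  have k4 := mul_le_mul_of_nonneg_left k1 hB.le
  refine ⟨by linarith, by linarith, k3.trans (by linarith)⟩

theorem abs_cast_Sy1 (m : ℕ) : |(m : ℤ)| ≤ m := (Nat.abs_cast m).le

theorem cast_Sy1 (s : ℕ) : ((s + 1 : ℕ) : ℤ) + 1 = s + 2 := by push_cast; ring

theorem exists_T_Sy1 : ∃ T : (E d →L[ℝ] E n) →L[ℝ] (E d →L[ℝ] E n) →L[ℝ] (E d →L[ℝ] E d),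
    ∀ A B, T A B = (ad A).comp B :=
  ⟨(ContinuousLinearMap.compL ℝ (E d) (E n) (E d)).comp ad, fun _ _ => rfl⟩

theorem pair_Sy1 : ∃ C : ℝ, 0 < C ∧ ∀ (m : ℕ) (u v : E d → E n), Wv (m + 1) u → Wv (m + 1) v →
    Wv m (fun x => (ad (d1 u x)).comp (d1 v x)) ∧ ∀ σ : ℤ, |σ| ≤ m →
      nv σ (fun x => (ad (d1 u x)).comp (d1 v x)) ≤ C * nv (m + 1) u * nv (σ + 1) v ∧
      nv σ (fun x => (ad (d1 u x)).comp (d1 v x)) ≤ C * nv (σ + 1) u * nv (m + 1) v := by
  obtain ⟨T, hT⟩ := exists_T_Sy1 (d := d) (n := n)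
  obtain ⟨A, hA, a⟩ := nv_fderiv (d := d) (X := E n)
  obtain ⟨B, hB, b⟩ := nv_bil (d := d) T
  refine ⟨B * A * A, by positivity, fun m u v hu hv => ?_⟩
  simp only [← hT]
  refine ⟨hu.dif.bil hv.dif T, fun σ hσ => ?_⟩
  obtain ⟨b1, b2⟩ := b m σ _ _ hu.dif hv.dif hσ
  have c1 := mul_le_mul (a m m u hu le_rfl) (a m σ v hv (le_of_abs_le hσ)) (nv_nonneg _ _)
    (mul_nonneg hA.le (nv_nonneg _ _))
  have c2 := mul_le_mul (a m σ u hu (le_of_abs_le hσ)) (a m m v hv le_rfl) (nv_nonneg _ _)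
    (mul_nonneg hA.le (nv_nonneg _ _))
  constructor
  · linarith [mul_le_mul_of_nonneg_left c1 hB.le]
  · linarith [mul_le_mul_of_nonneg_left c2 hB.le]

theorem nv_const_Sy1 {X : Type*} [NormedAddCommGroup X] [NormedSpace ℝ X] [FiniteDimensional ℝ X]
    (σ : ℤ) (c : X) : nv σ (fun _ : E d => c) = nv 0 fun _ : E d => c := by
  rw [nv, nv, nwv, nwv]
  refine Finset.sum_congr rfl fun i _ => ?_
  exact ((W_const (d := d) (n := 0) _).2 σ).trans ((W_const (d := d) (n := 0) _).2 0).symm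

theorem mul3_Sy1 : ∃ C : ℝ, 0 < C ∧ ∀ (s : ℕ) (f g k : E d → E d →L[ℝ] E d), Wv (s + 1) f →
    Wv (s + 1) g → Wv (s + 1) k → Wv (s + 1) (fun x => f x * g x * k x) ∧ ∀ a b c : ℝ,
      nv (s + 1) f ≤ a → nv (s + 1) g ≤ b → nv (s + 1) k ≤ c →
      nv (s + 1) (fun x => f x * g x * k x) ≤ C * a * b * c := by
  obtain ⟨B, hB, h⟩ := nv_bil (d := d) (ContinuousLinearMap.compL ℝ (E d) (E d) (E d))
  refine ⟨B * B, by positivity, fun s f g k hf hg hk => ?_⟩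
  have w : Wv (s + 1) fun x => f x * g x := hf.bil hg (ContinuousLinearMap.compL ℝ (E d) (E d) (E d))
  refine ⟨w.bil hk (ContinuousLinearMap.compL ℝ (E d) (E d) (E d)), fun a b c ha hb hc => ?_⟩
  have h1 : nv (s + 1) (fun x => f x * g x) ≤ B * nv (s + 1) f * nv (s + 1) g :=
    (h (s + 1) _ f g hf hg (abs_cast_Sy1 _)).1
  have h2 : nv (s + 1) (fun x => f x * g x * k x)
      ≤ B * nv (s + 1) (fun x => f x * g x) * nv (s + 1) k :=
    (h (s + 1) _ _ k w hk (abs_cast_Sy1 _)).1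
  have a0 := (nv_nonneg _ _).trans ha
  have b0 := (nv_nonneg _ _).trans hb
  have h3 := mul_le_mul_of_nonneg_left (mul_le_mul ha hb (nv_nonneg _ _) a0) hB.le
  have h4 : nv (s + 1) (fun x => f x * g x) ≤ B * (a * b) := by linarith
  have h5 := mul_le_mul_of_nonneg_left (mul_le_mul h4 hc (nv_nonneg _ _) (by positivity)) hB.le
  linarith

theorem quad_Sy1 {R : Type*} [Ring R] {g i j p q : R} (h : g * i = 1) (h' : j * (g + p + q) = 1) :
    j - i + i * (p * i) = -((j - i) * p * i + j * q * i) := by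
  have e : j * (g + p + q) * i = j * (g * i) + j * p * i + j * q * i := by noncomm_ring
  rw [h', h, one_mul, mul_one] at e
  calc j - i + i * (p * i) = j - (j + j * p * i + j * q * i) + i * (p * i) := by rw [← e]
    _ = _ := by noncomm_ring

theorem dgu_le : ∃ C : ℝ, 0 < C ∧ ∀ (m : ℕ) (u v : E d → E n), Wv (m + 1) u → Wv (m + 1) v →
    Wv m (dgu u v) ∧ ∀ σ : ℤ, |σ| ≤ m → nv σ (dgu u v) ≤ C * nv (m + 1) u * nv (σ + 1) v := by
  obtain ⟨C, hC, h⟩ := pair_Sy1 (d := d) (n := n)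
  refine ⟨2 * C, by positivity, fun m u v hu hv => ?_⟩
  obtain ⟨w1, b1⟩ := h m v u hv hu
  obtain ⟨w2, b2⟩ := h m u v hu hv
  refine ⟨w1.add w2, fun σ hσ => (nv_add_le w1 w2 (le_of_abs_le hσ)).trans ?_⟩
  linarith [(b1 σ hσ).2, (b2 σ hσ).1]

theorem iu_W : ∃ ε₀ C : ℝ, 0 < ε₀ ∧ 0 < C ∧ ∀ (s : ℕ) (u : E d → E n) (ε : ℝ), Sml s u ε → ε ≤ ε₀ →
    (∀ x, IsUnit (gu u x)) ∧ Wv (s + 1) (iu u) ∧ Wv (s + 1) (fun x => iu u x - 1) ∧
      nv (s + 1) (fun x => iu u x - 1) ≤ C * ε ∧ nv (s + 1) (iu u) ≤ C := by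
  obtain ⟨A, hA, a⟩ := pair_Sy1 (d := d) (n := n)
  obtain ⟨e, B, he, hB, b⟩ := neumann (d := d)
  have K0 := nv_nonneg 0 fun _ : E d => (1 : E d →L[ℝ] E d)
  refine ⟨min 1 (e / A), B * A + nv 0 fun _ : E d => (1 : E d →L[ℝ] E d), by positivity,
    by positivity, fun s u ε h hε => ?_⟩
  obtain ⟨w, k⟩ := a (s + 1) u u h.w h.w
  have e0 := h.nonneg
  have e1 : ε ≤ 1 := hε.trans (min_le_left _ _)
  have e2 : A * ε ≤ e := by
    have := (le_div_iff₀ hA).1 (hε.trans (min_le_right _ _))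
    linarith
  have k1 : nv ((s + 1 : ℕ) : ℤ) (fun x => (ad (d1 u x)).comp (d1 u x)) ≤ A * ε := by
    refine (k _ (abs_cast_Sy1 _)).1.trans ?_
    rw [cast_Sy1, mul_assoc]
    exact mul_le_mul_of_nonneg_left ((mul_le_mul h.le h.le (nv_nonneg _ _) e0).trans
      (mul_le_of_le_one_left e0 e1)) hA.le
  obtain ⟨u1, w1, k2⟩ := b (s + 1) _ w (k1.trans e2)
  have k3 : nv (s + 1) (fun x => iu u x - 1) ≤ B * A * ε := by
    rw [mul_assoc]
    exact k2.trans (mul_le_mul_of_nonneg_left k1 hB.le)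
  have e : iu u = fun x => (iu u x - 1) + 1 := by funext x; rw [sub_add_cancel]
  have w1' : Wv (s + 1) fun x => iu u x - 1 := w1
  have p := mul_nonneg K0 e0
  refine ⟨u1, by rw [e]; exact w1'.add (Wv_const _), w1', by linarith, ?_⟩
  rw [e]
  refine (nv_add_le w1' (Wv_const _) (by push_cast; omega)).trans ?_
  rw [nv_const_Sy1]
  have := mul_le_of_le_one_right (mul_pos hB hA).le e1
  linarith

theorem iu_symm {u : E d → E n} {x : E d} (h : IsUnit (gu u x)) (a b : E d) :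
    ⟪iu u x a, b⟫ = ⟪a, iu u x b⟫ := by
  have g : ∀ v w : E d, ⟪gu u x v, w⟫ = ⟪v, gu u x w⟫ := fun v w => by
    simp only [gu, add_apply, one_apply_eq_self, ContinuousLinearMap.comp_apply, ad_apply,
      inner_add_left, inner_add_right, ContinuousLinearMap.adjoint_inner_left,
      ContinuousLinearMap.adjoint_inner_right]
  have k : ∀ v : E d, gu u x (iu u x v) = v := fun v =>
    congrArg (fun M : E d →L[ℝ] E d => M v) (Ring.mul_inverse_cancel _ h)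
  calc ⟪iu u x a, b⟫ = ⟪iu u x a, gu u x (iu u x b)⟫ := by rw [k]
    _ = ⟪a, iu u x b⟫ := by rw [← g, k]

theorem iu_sub : ∃ ε₀ C : ℝ, 0 < ε₀ ∧ 0 < C ∧ ∀ (s : ℕ) (u u' : E d → E n) (ε : ℝ), Sml s u ε →
    Sml s u' ε → ε ≤ ε₀ →
    nv (s + 1) (fun x => iu u x - iu u' x) ≤ C * ε * nv (s + 2) fun x => u x - u' x := by
  obtain ⟨A, hA, a⟩ := pair_Sy1 (d := d) (n := n)
  obtain ⟨e, B, he, hB, b⟩ := iu_W (d := d) (n := n)
  obtain ⟨M, hM, m⟩ := mul3_Sy1 (d := d)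
  refine ⟨e, M * B * (2 * A) * B, he, by positivity, fun s u u' ε h h' hε => ?_⟩
  obtain ⟨u1, w1, -, -, k1⟩ := b s u ε h hε
  obtain ⟨u2, w2, -, -, k2⟩ := b s u' ε h' hε
  have wz := h'.w.sub h.w
  have ez := (d1_add h'.w.two_Wi8 h.w.two_Wi8).2.2.1
  obtain ⟨p1, q1⟩ := a (s + 1) u' _ h'.w wz
  obtain ⟨p2, q2⟩ := a (s + 1) _ u wz h.w
  have r1 := (q1 _ (abs_cast_Sy1 _)).1
  have r2 := (q2 _ (abs_cast_Sy1 _)).1
  rw [cast_Sy1, nv_sub_comm] at r1 r2
  have N0 := nv_nonneg (s + 2) fun x => u x - u' x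
  have r3 : nv (s + 1) (fun x => (ad (d1 u' x)).comp (d1 (fun x => u' x - u x) x) +
      (ad (d1 (fun x => u' x - u x) x)).comp (d1 u x))
      ≤ 2 * A * ε * nv (s + 2) fun x => u x - u' x := by
    refine (nv_add_le p1 p2 (σ := ((s + 1 : ℕ) : ℤ)) le_rfl).trans ?_
    have t1 := mul_le_mul_of_nonneg_left h.le (mul_nonneg hA.le N0)
    have t2 := mul_le_mul_of_nonneg_left h'.le (mul_nonneg hA.le N0)
    linarith
  have e1 : (fun x => iu u x - iu u' x) = fun x => iu u x *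
      ((ad (d1 u' x)).comp (d1 (fun x => u' x - u x) x) +
        (ad (d1 (fun x => u' x - u x) x)).comp (d1 u x)) * iu u' x := by
    funext x
    have : (ad (d1 u' x)).comp (d1 (fun x => u' x - u x) x) +
        (ad (d1 (fun x => u' x - u x) x)).comp (d1 u x) = gu u' x - gu u x := by
      rw [ez]
      simp only [gu, map_sub, ContinuousLinearMap.comp_sub, ContinuousLinearMap.sub_comp]
      abel
    rw [this, mul_sub, sub_mul, mul_assoc, iu, iu, Ring.mul_inverse_cancel _ (u2 x),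
      Ring.inverse_mul_cancel _ (u1 x), mul_one, one_mul]
  rw [e1]
  refine ((m s _ _ _ w1 (p1.add p2) w2).2 _ _ _ k1 r3 k2).trans (le_of_eq ?_)
  ring

theorem iu_quad : ∃ ε₀ C : ℝ, 0 < ε₀ ∧ 0 < C ∧ ∀ (s : ℕ) (u z : E d → E n) (ε γ : ℝ), Sml s u ε →
    Sml s z γ → ε ≤ ε₀ → γ ≤ ε₀ →
    nv (s + 1) (fun x => iu (fun y => u y + z y) x - iu u x +
      (iu u x).comp ((dgu u z x).comp (iu u x))) ≤ C * γ ^ 2 := by
  obtain ⟨A, hA, a⟩ := pair_Sy1 (d := d) (n := n)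
  obtain ⟨e, B, he, hB, b⟩ := iu_W (d := d) (n := n)
  obtain ⟨e', S, he', hS, c⟩ := iu_sub (d := d) (n := n)
  obtain ⟨G, hG, g⟩ := dgu_le (d := d) (n := n)
  obtain ⟨M, hM, m⟩ := mul3_Sy1 (d := d)
  refine ⟨min 1 (min e e') / 2, M * S * G * B + M * B * A * B, by positivity, by positivity,
    fun s u z ε γ h hz hε hγ => ?_⟩
  have e0 := h.nonneg
  have g0 := hz.nonneg
  have l : ε + γ ≤ min 1 (min e e') := by linarith
  have l1 : ε + γ ≤ 1 := l.trans (min_le_left _ _)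
  have l2 : ε + γ ≤ e := l.trans ((min_le_right _ _).trans (min_le_left _ _))
  have l3 : ε + γ ≤ e' := l.trans ((min_le_right _ _).trans (min_le_right _ _))
  have h' := h.add hz
  obtain ⟨u1, w1, -, -, k1⟩ := b s u ε h (by linarith)
  obtain ⟨u2, w2, -, -, k2⟩ := b s _ _ h' l2
  have k3 := c s _ u _ h' (h.mono (by linarith)) l3
  simp only [add_sub_cancel_left] at k3
  have k4 : nv (s + 1) (fun x => iu (fun y => u y + z y) x - iu u x) ≤ S * γ := by
    refine k3.trans ?_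
    rw [mul_assoc]
    exact mul_le_mul_of_nonneg_left ((mul_le_mul l1 hz.le (nv_nonneg _ _) zero_le_one).trans
      (one_mul _).le) hS.le
  obtain ⟨p1, q1⟩ := g (s + 1) u z h.w hz.w
  obtain ⟨p2, q2⟩ := a (s + 1) z z hz.w hz.w
  have r1 := q1 _ (abs_cast_Sy1 _)
  have r2 := (q2 _ (abs_cast_Sy1 _)).1
  rw [cast_Sy1] at r1 r2
  have r3 : nv (s + 1) (dgu u z) ≤ G * γ := by
    refine r1.trans ?_
    rw [mul_assoc]
    exact mul_le_mul_of_nonneg_left ((mul_le_mul (h.le.trans (by linarith)) hz.le (nv_nonneg _ _)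
      zero_le_one).trans (one_mul _).le) hG.le
  have r4 : nv (s + 1) (fun x => (ad (d1 z x)).comp (d1 z x)) ≤ A * γ ^ 2 := by
    refine r2.trans ?_
    rw [mul_assoc, sq]
    exact mul_le_mul_of_nonneg_left (mul_le_mul hz.le hz.le (nv_nonneg _ _) g0) hA.le
  have ez := (d1_add h.w.two_Wi8 hz.w.two_Wi8).1
  have e1 : (fun x => iu (fun y => u y + z y) x - iu u x +
      (iu u x).comp ((dgu u z x).comp (iu u x))) = fun x =>
      -((iu (fun y => u y + z y) x - iu u x) * dgu u z x * iu u x +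
        iu (fun y => u y + z y) x * (ad (d1 z x)).comp (d1 z x) * iu u x) := by
    funext x
    have t : gu (fun y => u y + z y) x = gu u x + dgu u z x + (ad (d1 z x)).comp (d1 z x) := by
      rw [gu, ez]
      simp only [gu, dgu, map_add, ContinuousLinearMap.comp_add, ContinuousLinearMap.add_comp]
      abel
    exact quad_Sy1 (Ring.mul_inverse_cancel _ (u1 x))
      (by rw [← t]; exact Ring.inverse_mul_cancel _ (u2 x))
  obtain ⟨x1, y1⟩ := m s _ _ _ (w2.sub w1) p1 w1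
  obtain ⟨x2, y2⟩ := m s _ _ _ w2 p2 w1
  rw [e1, nv_neg]
  refine (nv_add_le x1 x2 (by push_cast; omega)).trans ?_
  linarith [y1 _ _ _ k4 r3 k1, y2 _ _ _ k2 r4 k1]

end Pool.Agent.Lib.MP_8daebb_an.GM.Ch
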