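import Pool.Agent.Lib.MP_8daebb_an.GM.Wi5

/-! Ellipsoids and cutoffs. -/

open MeasureTheory Metric Set Filter Topology
open scoped RealInnerProductSpace ContDiff ENNReal

namespace Pool.Agent.Lib.MP_8daebb_an.GM.Ch

variable {d : ℕ} {x₀ : E d} {A : E d →L[ℝ] E d}

theorem Fr.inv (h : Fr x₀ A) : IsUnit A ∧ (∀ v, A (Ring.inverse A v) = v) ∧
    (∀ v, Ring.inverse A (A v) = v) ∧ ‖Ring.inverse A - 1‖ ≤ 2 * ‖A - 1‖ ∧
    (∀ v, 9 / 10 * ‖v‖ ≤ ‖A v‖ ∧ ‖A v‖ ≤ 11 / 10 * ‖v‖) ∧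
    ∀ v, 9 / 10 * ‖v‖ ≤ ‖Ring.inverse A v‖ ∧ ‖Ring.inverse A v‖ ≤ 6 / 5 * ‖v‖ := by
  have hA := h.A_le
  have hu : IsUnit A := by
    have h1 : ‖(1 : E d →L[ℝ] E d) - A‖ < 1 := by rw [norm_sub_rev]; linarith
    have h2 := (Units.oneSub _ h1).isUnit
    simpa using h2
  have h1 : ∀ v, A (Ring.inverse A v) = v := fun v => by
    have := congrArg (fun T : E d →L[ℝ] E d => T v) (Ring.mul_inverse_cancel A hu)
    simpa using this
  have h2 : ∀ v, Ring.inverse A (A v) = v := fun v => by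
    have := congrArg (fun T : E d →L[ℝ] E d => T v) (Ring.inverse_mul_cancel A hu)
    simpa using this
  have h3 : ∀ v, ‖A v - v‖ ≤ ‖A - 1‖ * ‖v‖ := fun v => by
    simpa using (A - 1).le_opNorm v
  have h4 : ∀ v, 9 / 10 * ‖v‖ ≤ ‖A v‖ ∧ ‖A v‖ ≤ 11 / 10 * ‖v‖ := fun v => by
    have a1 : ‖A v - v‖ ≤ 1 / 10 * ‖v‖ :=
      (h3 v).trans (mul_le_mul_of_nonneg_right hA (norm_nonneg _))
    have a2 := abs_norm_sub_norm_le (A v) v
    rw [abs_le] at a2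
    constructor <;> linarith [a2.1, a2.2]
  have h5 : ∀ v, 9 / 10 * ‖v‖ ≤ ‖Ring.inverse A v‖ ∧ ‖Ring.inverse A v‖ ≤ 6 / 5 * ‖v‖ :=
    fun v => by
      have a1 := h4 (Ring.inverse A v)
      rw [h1] at a1
      have a2 := norm_nonneg v
      constructor <;> linarith [a1.1, a1.2]
  refine ⟨hu, h1, h2, ?_, h4, h5⟩
  refine ContinuousLinearMap.opNorm_le_bound _ (by positivity) fun v => ?_
  have a1 : (Ring.inverse A - 1) v = -Ring.inverse A (A v - v) := by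
    rw [map_sub, h2]; simp
  rw [a1, norm_neg]
  have a2 := (h5 (A v - v)).2
  have a3 := h3 v
  have a4 : 0 ≤ ‖A - 1‖ * ‖v‖ := by positivity
  linarith

theorem isOpen_el (x₀ : E d) (A : E d →L[ℝ] E d) (r : ℝ) : IsOpen (el x₀ A r) :=
  isOpen_lt (by fun_prop) continuous_const

theorem el_mono {r r' : ℝ} (h : r ≤ r') : el x₀ A r ⊆ el x₀ A r' :=
  fun _ hx => lt_of_lt_of_le hx h

theorem Fr.mem_el (h : Fr x₀ A) {r : ℝ} {z : E d} : x₀ + A z ∈ el x₀ A r ↔ z ∈ ball (0 : E d) r := by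
  unfold el
  rw [mem_ofPred_eq, add_sub_cancel_left, h.inv.2.2.1, mem_ball_zero_iff]

theorem Fr.el_eq (h : Fr x₀ A) (r : ℝ) :
    el x₀ A r = {x | ∃ z ∈ ball (0 : E d) r, x = x₀ + A z} := by
  ext x
  constructor
  · intro hx
    refine ⟨Ring.inverse A (x - x₀), mem_ball_zero_iff.mpr hx, ?_⟩
    rw [h.inv.2.1]; abel
  · rintro ⟨z, hz, rfl⟩
    exact h.mem_el.mpr hz

theorem Fr.el_subset (h : Fr x₀ A) {r : ℝ} (hr : r ≤ 9 / 4) : el x₀ A r ⊆ ball 0 (13 / 5) := by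
  rw [h.el_eq]
  rintro x ⟨z, hz, rfl⟩
  rw [mem_ball_zero_iff] at hz ⊢
  have a1 := norm_add_le x₀ (A z)
  have a2 := (h.inv.2.2.2.2.1 z).2
  have a3 := h.x_le
  linarith

theorem Fr.ball_subset_el (h : Fr x₀ A) {r l : ℝ} {x : E d} (hx : x ∈ el x₀ A r) :
    ball x (l / 2) ⊆ el x₀ A (r + l) := by
  intro y hy
  rw [mem_ball, dist_eq_norm] at hy
  unfold el at hx ⊢
  rw [mem_ofPred_eq] at hx ⊢
  have a1 : Ring.inverse A (y - x₀) = Ring.inverse A (x - x₀) + Ring.inverse A (y - x) := by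
    rw [← map_add]; congr 1; abel
  have a2 := (h.inv.2.2.2.2.2 (y - x)).2
  have a3 := norm_add_le (Ring.inverse A (x - x₀)) (Ring.inverse A (y - x))
  have a4 := norm_nonneg (y - x)
  rw [a1]
  linarith

theorem Fr.integral_comp (h : Fr x₀ A) {F : Type*} [NormedAddCommGroup F] [NormedSpace ℝ F]
    (f : E d → F) : ∫ x, f x = |A.det| • ∫ z, f (x₀ + A z) := by
  have h1 := integral_image_eq_integral_abs_det_fderiv_smul (volume : Measure (E d))
    (s := univ) (f := fun z => x₀ + A z) (f' := fun _ => A) MeasurableSet.univ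
    (fun z _ => (A.hasFDerivAt.const_add x₀).hasFDerivWithinAt)
    (fun z _ z' _ hz => by
      have := congrArg (fun v => Ring.inverse A v) (add_left_cancel hz)
      rwa [h.inv.2.2.1, h.inv.2.2.1] at this) f
  have h2 : (fun z => x₀ + A z) '' univ = univ := by
    refine eq_univ_of_forall fun x => ⟨Ring.inverse A (x - x₀), mem_univ _, ?_⟩
    simp only
    rw [h.inv.2.1]; abel
  rw [h2, Measure.restrict_univ] at h1
  rw [h1, integral_smul]

section aux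
variable {X Y : Type*} [NormedAddCommGroup X] [NormedSpace ℝ X] [NormedAddCommGroup Y]
  [NormedSpace ℝ Y]

theorem aff_Wi6 {g : Y → ℝ} (hg : ContDiff ℝ ∞ g) (B : X →L[ℝ] Y) (c : Y) (j : ℕ) (x : X) :
    ‖iteratedFDeriv ℝ j (fun x => g (c + B x)) x‖ ≤
      ‖iteratedFDeriv ℝ j g (c + B x)‖ * ‖B‖ ^ j := by
  have h1 : ContDiff ℝ ∞ fun y => g (c + y) := hg.comp (contDiff_const.add contDiff_id)
  have h2 := B.iteratedFDeriv_comp_right h1 x (i := j) (by exact_mod_cast le_top)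
  have h3 : (fun x => g (c + B x)) = (fun y => g (c + y)) ∘ B := rfl
  rw [h3, h2, iteratedFDeriv_comp_add_left]
  refine (ContinuousMultilinearMap.norm_compContinuousLinearMap_le _ _).trans (le_of_eq ?_)
  simp

theorem cpt_Wi6 {g : Y → ℝ} (hg : ContDiff ℝ ∞ g) {K : Set Y} (hK : IsCompact K) (N : ℕ) :
    ∃ C : ℝ, 1 ≤ C ∧ ∀ i ≤ N, ∀ y ∈ K, ‖iteratedFDeriv ℝ i g y‖ ≤ C := by
  have h1 : ∀ i : ℕ, ∃ C : ℝ, ∀ y ∈ K, ‖iteratedFDeriv ℝ i g y‖ ≤ C := fun i =>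
    hK.exists_bound_of_continuousOn
      (hg.continuous_iteratedFDeriv (m := i) (by exact_mod_cast le_top)).continuousOn
  choose C hC using h1
  have h2 : 0 ≤ ∑ i ∈ Finset.range (N + 1), |C i| := Finset.sum_nonneg fun i _ => abs_nonneg _
  refine ⟨1 + ∑ i ∈ Finset.range (N + 1), |C i|, by linarith, fun i hi y hy => ?_⟩
  have h3 : |C i| ≤ ∑ i ∈ Finset.range (N + 1), |C i| :=
    Finset.single_le_sum (f := fun i => |C i|) (fun i _ => abs_nonneg _)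
      (Finset.mem_range.mpr (Nat.lt_succ_of_le hi))
  linarith [hC i y hy, le_abs_self (C i)]

theorem loc_Wi6 {g : Y → ℝ} {y : Y} {c : ℝ} (h : g =ᶠ[𝓝 y] fun _ => c) (i : ℕ) :
    ‖iteratedFDeriv ℝ i g y‖ ≤ |c| := by
  rw [(h.iteratedFDeriv ℝ i).eq_of_nhds]
  rcases eq_or_ne i 0 with rfl | hi
  · rw [norm_iteratedFDeriv_zero, Real.norm_eq_abs]
  · rw [iteratedFDeriv_const_of_ne hi]
    simp

end aux

theorem st_Wi6 (N : ℕ) : ∃ C : ℝ, 1 ≤ C ∧ ∀ i ≤ N, ∀ t : ℝ,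
    ‖iteratedFDeriv ℝ i Real.smoothTransition t‖ ≤ C := by
  obtain ⟨C, h1, hC⟩ := cpt_Wi6 (Real.smoothTransition.contDiff (n := ⊤))
    (isCompact_Icc (a := (0 : ℝ)) (b := 1)) N
  refine ⟨C, h1, fun i hi t => ?_⟩
  rcases lt_or_ge t 0 with h | h
  · refine (loc_Wi6 (c := 0) ?_ i).trans (by rw [abs_zero]; linarith)
    filter_upwards [Iio_mem_nhds h] with s hs
    exact Real.smoothTransition.zero_of_nonpos (le_of_lt hs)
  rcases lt_or_ge 1 t with h' | h'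
  · refine (loc_Wi6 (c := 1) ?_ i).trans (by rw [abs_one]; exact h1)
    filter_upwards [Ioi_mem_nhds h'] with s hs
    exact Real.smoothTransition.one_of_one_le (le_of_lt hs)
  exact hC i hi t ⟨h, h'⟩

theorem pow_Wi6 {l : ℝ} (hl : 0 < l) (hl' : l ≤ 3) {i N : ℕ} (hi : i ≤ N) :
    (1 / l ^ 2) ^ i ≤ 9 ^ N / l ^ (2 * N) := by
  have h1 : (1 : ℝ) ≤ 9 / l ^ 2 := by
    rw [le_div_iff₀ (by positivity)]; nlinarith
  calc (1 / l ^ 2) ^ i ≤ (9 / l ^ 2) ^ i := by gcongr; norm_num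
    _ ≤ (9 / l ^ 2) ^ N := pow_le_pow_right₀ h1 hi
    _ = _ := by rw [div_pow, ← pow_mul]

theorem norm_inv_Wi6 (h : Fr x₀ A) : ‖Ring.inverse A‖ ≤ 2 :=
  ContinuousLinearMap.opNorm_le_bound _ (by norm_num) fun v => by
    have := (h.inv.2.2.2.2.2 v).2
    have := norm_nonneg v
    linarith

theorem exists_cut0 (N : ℕ) : ∃ C : ℝ, 0 < C ∧ ∀ (x₀ : E d) (A : E d →L[ℝ] E d) (r l : ℝ), Fr x₀ A →
    0 ≤ r → 0 < l → r + l ≤ 9 / 4 → ∃ φ : E d → ℝ, ContDiff ℝ ∞ φ ∧ (∀ x, 0 ≤ φ x ∧ φ x ≤ 1) ∧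
      (∀ x ∈ el x₀ A r, φ x = 1) ∧ (∀ x, x ∉ el x₀ A (r + l) → φ x = 0) ∧
      ∀ j ≤ N, ∀ x, ‖iteratedFDeriv ℝ j φ x‖ ≤ C / l ^ (2 * N) := by
  obtain ⟨C0, hC0, hst⟩ := st_Wi6 N
  have hs : ContDiff ℝ ∞ fun z : E d => ‖z‖ ^ 2 := contDiff_norm_sq ℝ
  obtain ⟨K, hK, hKs⟩ := cpt_Wi6 hs (isCompact_closedBall (0 : E d) 3) N
  refine ⟨(N.factorial : ℝ) * (C0 * 9 ^ N) * K ^ N * 2 ^ N, by positivity, ?_⟩
  intro x₀ A r l h hr hl hrl
  set D := (r + l) ^ 2 - r ^ 2 with hD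
  have hDl : l ^ 2 ≤ D := by rw [hD]; nlinarith
  have hD0 : 0 < D := lt_of_lt_of_le (by positivity) hDl
  let T : ℝ →L[ℝ] ℝ := (-(1 / D)) • ContinuousLinearMap.id ℝ ℝ
  have hT : ‖T‖ ≤ 1 / l ^ 2 := by
    refine ContinuousLinearMap.opNorm_le_bound _ (by positivity) fun v => ?_
    simp only [T, smul_apply, ContinuousLinearMap.id_apply, norm_smul, norm_neg]
    rw [Real.norm_of_nonneg (by positivity)]
    gcongr
  let ψ : ℝ → ℝ := fun t => Real.smoothTransition ((r + l) ^ 2 / D + T t)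
  have hψe : ∀ t, ψ t = Real.smoothTransition (((r + l) ^ 2 - t) / D) := fun t => by
    simp only [ψ, T, smul_apply, ContinuousLinearMap.id_apply, smul_eq_mul]
    congr 1
    ring
  have hψ : ContDiff ℝ ∞ ψ :=
    (Real.smoothTransition.contDiff (n := ⊤)).comp (contDiff_const.add T.contDiff)
  have hψb : ∀ i ≤ N, ∀ t, ‖iteratedFDeriv ℝ i ψ t‖ ≤ C0 * 9 ^ N / l ^ (2 * N) := by
    intro i hi t
    refine (aff_Wi6 (Real.smoothTransition.contDiff (n := ⊤)) T _ i t).trans ?_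
    rw [mul_div_assoc]
    refine mul_le_mul (hst i hi _) ?_ (by positivity) (by linarith)
    exact (pow_le_pow_left₀ (norm_nonneg _) hT i).trans (pow_Wi6 hl (by linarith) hi)
  let g : E d → ℝ := ψ ∘ fun z => ‖z‖ ^ 2
  have hg : ContDiff ℝ ∞ g := hψ.comp hs
  have hg0 : ∀ z : E d, r + l ≤ ‖z‖ → g z = 0 := fun z hz => by
    simp only [g, Function.comp_apply]
    rw [hψe]
    refine Real.smoothTransition.zero_of_nonpos (div_nonpos_of_nonpos_of_nonneg ?_ hD0.le)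
    have : (r + l) ^ 2 ≤ ‖z‖ ^ 2 := by gcongr
    linarith
  have hgb : ∀ j ≤ N, ∀ z, ‖iteratedFDeriv ℝ j g z‖ ≤
      (N.factorial : ℝ) * (C0 * 9 ^ N / l ^ (2 * N)) * K ^ N := by
    intro j hj z
    by_cases hz : z ∈ closedBall (0 : E d) 3
    · refine (norm_iteratedFDeriv_comp_le hψ hs (n := j) (by exact_mod_cast le_top) z
        (C := C0 * 9 ^ N / l ^ (2 * N)) (D := K) (fun i hi => hψb i (hi.trans hj) _)
        (fun i h1 hi => (hKs i (hi.trans hj) z hz).trans (le_self_pow₀ hK (by omega)))).trans ?_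
      have a1 : (j.factorial : ℝ) ≤ N.factorial := by exact_mod_cast Nat.factorial_le hj
      have a2 : K ^ j ≤ K ^ N := pow_le_pow_right₀ hK hj
      gcongr
    · refine (loc_Wi6 (c := 0) ?_ j).trans (by rw [abs_zero]; positivity)
      filter_upwards [isClosed_closedBall.isOpen_compl.mem_nhds hz] with y hy
      rw [mem_compl_iff, mem_closedBall_zero_iff, not_le] at hy
      exact hg0 y (by linarith)
  have he : ∀ x, -Ring.inverse A x₀ + Ring.inverse A x = Ring.inverse A (x - x₀) := fun x => by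
    rw [map_sub]; abel
  refine ⟨fun x => g (-Ring.inverse A x₀ + Ring.inverse A x),
    hg.comp (contDiff_const.add (Ring.inverse A).contDiff), fun x => ?_, fun x hx => ?_,
    fun x hx => ?_, fun j hj x => ?_⟩
  · exact ⟨Real.smoothTransition.nonneg _, Real.smoothTransition.le_one _⟩
  · simp only [g, Function.comp_apply]
    rw [he, hψe]
    refine Real.smoothTransition.one_of_one_le ?_
    rw [le_div_iff₀ hD0, hD]
    have a1 : ‖Ring.inverse A (x - x₀)‖ < r := hx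
    have a2 : ‖Ring.inverse A (x - x₀)‖ ^ 2 ≤ r ^ 2 := by gcongr
    linarith
  · simp only
    rw [he]
    exact hg0 _ (not_lt.mp hx)
  · refine (aff_Wi6 hg _ _ j x).trans ?_
    have a1 : ‖Ring.inverse A‖ ^ j ≤ 2 ^ N :=
      (pow_le_pow_left₀ (norm_nonneg _) (norm_inv_Wi6 h) j).trans
        (pow_le_pow_right₀ (by norm_num) hj)
    refine (mul_le_mul (hgb j hj _) a1 (by positivity) (by positivity)).trans (le_of_eq ?_)
    ring

theorem exists_cut (n : ℕ) : ∃ C : ℝ, 0 < C ∧ ∀ (x₀ : E d) (A : E d →L[ℝ] E d) (r l : ℝ), Fr x₀ A →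
    0 ≤ r → 0 < l → r + l ≤ 9 / 4 → ∃ χ : E d → ℝ, Cut χ (el x₀ A r) (el x₀ A (r + l)) ∧
      nm n χ ≤ C / l ^ (2 * (n + d + 1)) := by
  obtain ⟨C0, hC0, h0⟩ := exists_cut0 (d := d) (n + d + 1)
  obtain ⟨C1, hC1, h1⟩ := W_per (d := d) n
  refine ⟨C1 * C0, by positivity, fun x₀ A r l h hr hl hrl => ?_⟩
  obtain ⟨φ, p1, p2, p3, p4, p5⟩ := h0 x₀ A r l h hr hl hrl
  have hs : ∀ x, x ∉ ball (0 : E d) (14 / 5) → φ x = 0 := fun x hx =>
    p4 x fun hx' => hx (ball_subset_ball (by norm_num) (h.el_subset hrl hx'))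
  obtain ⟨-, q2, q3⟩ := h1 φ _ (p1.of_le (by exact_mod_cast le_top)) hs p5
  refine ⟨per φ, ⟨(W_per_smooth p1 hs).1, fun x hx => ?_, fun x hx hx' => ?_, fun x hx => ?_⟩, ?_⟩
  · rw [q3 x (ball_subset_ocube (ball_subset_ball (by norm_num)
      (h.el_subset (r := r) (by linarith) hx))), p3 x hx]
  · rw [q3 x hx, p4 x hx']
  · rw [q3 x hx]; exact p2 x
  · rw [mul_div_assoc]; exact q2

theorem kr_aff (N : ℕ) : ∃ C : ℝ, 0 < C ∧ ∀ (x₀ u : E d) (A : E d →L[ℝ] E d) (ρ : ℝ), Fr x₀ A →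
    0 < ρ → ρ ≤ 1 → ContDiff ℝ ∞ (fun x => kr ρ (u - Ring.inverse A (x - x₀))) ∧
      (∀ x, ρ ≤ ‖u - Ring.inverse A (x - x₀)‖ → kr ρ (u - Ring.inverse A (x - x₀)) = 0) ∧
      (∀ x, 0 ≤ kr ρ (u - Ring.inverse A (x - x₀))) ∧
      ∀ j ≤ N, ∀ x, ‖iteratedFDeriv ℝ j (fun x => kr ρ (u - Ring.inverse A (x - x₀))) x‖ ≤
        C / ρ ^ (d + N) := by
  obtain ⟨b, hkr, hb1⟩ : ∃ b : ContDiffBump (0 : E d), (∀ (ρ : ℝ) (u : E d),
      kr ρ u = (ρ ^ d)⁻¹ * b.normed volume ((ρ⁻¹ : ℝ) • u)) ∧ b.rOut = 1 :=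
    ⟨_, fun _ _ => rfl, rfl⟩
  have hb : ContDiff ℝ ∞ (b.normed volume) := b.contDiff_normed
  have hb0 : ∀ y : E d, 1 ≤ ‖y‖ → b.normed volume y = 0 := fun y hy => by
    by_contra hc
    have h1 : y ∈ Function.support (b.normed volume) := hc
    rw [ContDiffBump.support_normed_eq, mem_ball_zero_iff, hb1] at h1
    exact absurd h1 (not_lt.mpr hy)
  obtain ⟨K, hK, hKs⟩ := cpt_Wi6 hb (isCompact_closedBall (0 : E d) 1) N
  have hKa : ∀ i ≤ N, ∀ y, ‖iteratedFDeriv ℝ i (b.normed volume) y‖ ≤ K := by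
    intro i hi y
    by_cases hy : y ∈ closedBall (0 : E d) 1
    · exact hKs i hi y hy
    · refine (loc_Wi6 (c := 0) ?_ i).trans (by rw [abs_zero]; linarith)
      filter_upwards [isClosed_closedBall.isOpen_compl.mem_nhds hy] with z hz
      rw [mem_compl_iff, mem_closedBall_zero_iff, not_le] at hz
      exact hb0 z hz.le
  refine ⟨K * 2 ^ N, by positivity, fun x₀ u A ρ h hρ hρ1 => ?_⟩
  let B : E d →L[ℝ] E d := (-ρ⁻¹) • Ring.inverse A
  have hB : ‖B‖ ≤ 2 / ρ := by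
    simp only [B]
    rw [norm_smul, norm_neg, Real.norm_of_nonneg (by positivity), div_eq_inv_mul]
    exact mul_le_mul_of_nonneg_left (norm_inv_Wi6 h) (by positivity)
  have he : (fun x => kr ρ (u - Ring.inverse A (x - x₀))) = fun x =>
      (ρ ^ d)⁻¹ • b.normed volume (ρ⁻¹ • (u + Ring.inverse A x₀) + B x) := by
    funext x
    rw [hkr, smul_eq_mul]
    congr 2
    simp only [B, map_sub, smul_apply]
    module
  have hc : ContDiff ℝ ∞ fun x =>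
      b.normed volume (ρ⁻¹ • (u + Ring.inverse A x₀) + B x) :=
    hb.comp (contDiff_const.add B.contDiff)
  refine ⟨?_, fun x hx => ?_, fun x => ?_, fun j hj x => ?_⟩
  · rw [he]; exact hc.const_smul _
  · rw [hkr, hb0, mul_zero]
    rw [norm_smul, Real.norm_of_nonneg (by positivity), ← div_eq_inv_mul, le_div_iff₀ hρ]
    linarith
  · rw [hkr]
    exact mul_nonneg (by positivity) (b.nonneg_normed _)
  · rw [he, iteratedFDeriv_const_smul_apply' (hc.of_le (by exact_mod_cast le_top)).contDiffAt,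
      norm_smul, Real.norm_of_nonneg (by positivity)]
    have a0 : (1 : ℝ) ≤ 2 / ρ := by rw [le_div_iff₀ hρ]; linarith
    have a1 : ‖B‖ ^ j ≤ (2 / ρ) ^ N :=
      (pow_le_pow_left₀ (norm_nonneg _) hB j).trans (pow_le_pow_right₀ a0 hj)
    have a2 := (aff_Wi6 hb B (ρ⁻¹ • (u + Ring.inverse A x₀)) j x).trans
      (mul_le_mul (hKa j hj _) a1 (by positivity) (by linarith))
    refine (mul_le_mul_of_nonneg_left a2 (by positivity)).trans (le_of_eq ?_)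
    rw [div_pow, pow_add]
    field_simp

end Pool.Agent.Lib.MP_8daebb_an.GM.Ch
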