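import Pool.Agent.Lib.MP_8daebb_an.GM.Ad1
import Pool.Agent.Lib.MP_8daebb_an.GM.Wi6
import Pool.Agent.Lib.MP_8daebb_an.GM.Sy1
import Pool.Agent.Lib.MP_8daebb_an.GM.ChD1

/-! Admissible centres. -/

open MeasureTheory Metric Set Filter Topology
open scoped RealInnerProductSpace ContDiff ENNReal

namespace Pool.Agent.Lib.MP_8daebb_an.GM.Ch

variable {d n : ℕ} {H : Type*} [NormedAddCommGroup H] [InnerProductSpace ℝ H]
  [FiniteDimensional ℝ H] {ι : E d →ₗᵢ[ℝ] H} {κ : E n →ₗᵢ[ℝ] H} {c : Cen d n} {ε R : ℝ}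

theorem Adm.mono (h : Adm ι κ c ε R) {ε' R' : ℝ} (hε : ε ≤ ε') (hR : R' ≤ R) : Adm ι κ c ε' R' := by
  exact ⟨h.sml.mono hε, h.x_le.trans hε, h.A_le.trans hε,
    fun z hz => h.eqn z (ball_subset_ball hR hz), h.nrm, h.org⟩

theorem Adm.fr (h : Adm ι κ c ε R) (hε : ε ≤ 1 / 10) : Fr c.x₀ c.A := by
  exact ⟨h.x_le.trans hε, h.A_le.trans hε⟩

theorem Adm.eqn_el (h : Adm ι κ c ε R) (hε : ε ≤ 1 / 10) : ∀ x ∈ el c.x₀ c.A R, NN c.u x = 0 := by
  intro x hx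
  rw [(h.fr hε).el_eq] at hx
  obtain ⟨z, hz, rfl⟩ := hx
  exact h.eqn z hz

theorem adm_pre : ∃ C : ℝ, 1 ≤ C ∧ ∀ (ι : E d →ₗᵢ[ℝ] H) (κ : E n →ₗᵢ[ℝ] H) (c : Cen d n) (ε R : ℝ),
    Spl ι κ → Adm ι κ c ε R → cH H * (C * ε) ≤ 1 → R ≤ 5 / 2 → Pre ι (c.F ι κ) 0 (C * ε) R := by
  obtain ⟨C₀, hC₀, hpw⟩ := exists_pw (d := d) (n := n)
  refine ⟨2 * C₀ + 2, by linarith, fun ι κ c ε R hs h hε hR => ?_⟩
  have hε0 : 0 ≤ ε := h.sml.nonneg
  have hH : 1000 ≤ cH H := cH_ge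
  have hCε : 0 ≤ C₀ * ε := mul_nonneg hC₀.le hε0
  have h1 : (2 * C₀ + 2) * ε ≤ 1 / 1000 := by
    have h0 : 0 ≤ (2 * C₀ + 2) * ε := by positivity
    nlinarith
  have h2 : ε ≤ 1 / 10 := by nlinarith
  have hp : Pw c.u (C₀ * ε) := hpw (d + 4) c.u ε (by omega) h.sml
  have hfr := h.fr h2
  have hm : Mn ι (gr ι κ c.u) (C₀ * ε) (el c.x₀ c.A R) :=
    hp.mn hs (isOpen_el _ _ _) (h.eqn_el h2)
  have h3 : cH H * (C₀ * ε) ≤ 1 :=
    (mul_le_mul_of_nonneg_left (by nlinarith) (by linarith)).trans hε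
  have hm' := Mn.aff (x₀ := c.x₀) hm h3 h.A_le (by linarith)
  have h4 : (1 + ε) ^ 3 ≤ 2 := by
    have : (1 + ε) ^ 3 ≤ (1 + 1 / 10) ^ 3 := pow_le_pow_left₀ (by linarith) (by linarith) 3
    linarith [show ((1 : ℝ) + 1 / 10) ^ 3 ≤ 2 by norm_num]
  refine ⟨hm'.mono (by nlinarith) isOpen_ball fun z hz => hfr.mem_el.2 hz, by positivity, hε, ?_,
    by simpa using hR⟩
  have e : c.F ι κ 0 - ι 0 = ι c.x₀ + κ (c.u c.x₀) := by
    simp [Cen.F, aff, gr]
  rw [e]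
  have a1 := norm_add_le (ι c.x₀) (κ (c.u c.x₀))
  rw [ι.norm_map, κ.norm_map] at a1
  have a2 := h.x_le
  have a3 := hp.n0 c.x₀
  nlinarith

theorem exists_spl (ι : E d →ₗᵢ[ℝ] H) :
    ∃ κ : E (Module.finrank ℝ H - d) →ₗᵢ[ℝ] H, Spl ι κ := by
  set K : Submodule ℝ H := (LinearMap.range ι.toLinearMap)ᗮ with hK
  have hr : Module.finrank ℝ (LinearMap.range ι.toLinearMap) = d := by
    rw [LinearMap.finrank_range_of_inj ι.injective]
    simp
  have hd : Module.finrank ℝ K = Module.finrank ℝ H - d := by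
    have := (LinearMap.range ι.toLinearMap).finrank_add_finrank_orthogonal
    rw [hr] at this
    rw [hK]
    omega
  let b : OrthonormalBasis (Fin (Module.finrank ℝ H - d)) ℝ K :=
    (stdOrthonormalBasis ℝ K).reindex (finCongr hd)
  let κ : E (Module.finrank ℝ H - d) →ₗᵢ[ℝ] H := K.subtypeₗᵢ.comp b.repr.symm.toLinearIsometry
  have hκ : ∀ e, κ e = (b.repr.symm e : H) := fun _ => rfl
  have ho : ∀ a e, ⟪ι a, κ e⟫ = 0 := fun a e => by
    rw [hκ]
    exact Submodule.inner_right_of_mem_orthogonal (K := LinearMap.range ι.toLinearMap) ⟨a, rfl⟩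
      (b.repr.symm e).2
  refine ⟨κ, ho, fun p => ?_⟩
  have hm : p - ι (ad ι.toContinuousLinearMap p) ∈ K := by
    rw [hK, Submodule.mem_orthogonal]
    rintro _ ⟨a, rfl⟩
    have := inner_ad_right ι.toContinuousLinearMap a p
    rw [LinearIsometry.coe_toLinearMap, inner_sub_right, ι.inner_map_map, this]
    simp
  have he : κ (b.repr ⟨_, hm⟩) = p - ι (ad ι.toContinuousLinearMap p) := by
    rw [hκ, LinearIsometryEquiv.symm_apply_apply]
  have hq : ad κ.toContinuousLinearMap p = b.repr ⟨_, hm⟩ := by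
    refine ext_inner_left ℝ fun f => ?_
    rw [inner_ad_right, ← κ.inner_map_map, he, inner_sub_right,
      real_inner_comm (ι _) (κ f), ho]
    simp
  rw [hq, he]
  abel

theorem adm_flat (ι : E d →ₗᵢ[ℝ] H) (κ : E n →ₗᵢ[ℝ] H) (R : ℝ) :
    Adm ι κ ⟨fun _ => 0, 0, 1⟩ 0 R := by
  have hd : d1 (Cen.F ⟨fun _ => 0, 0, 1⟩ ι κ) 0 = ι.toContinuousLinearMap := by
    have e : Cen.F ⟨fun _ => 0, 0, 1⟩ ι κ = ι.toContinuousLinearMap := by
      funext z
      simp [Cen.F, aff, gr]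
    rw [e]
    exact ι.toContinuousLinearMap.fderiv
  refine ⟨⟨Wv_const 0, (nv_zero _).le⟩, by simp, by simp, fun z _ => ?_, ?_, ?_⟩
  · simp [NN, tr2, d2]
  · rw [Nrm, hd, gm]
    ext1 v
    refine ext_inner_left ℝ fun f => ?_
    rw [ContinuousLinearMap.comp_apply, inner_ad_right]
    simp
  · rw [Org]
    simp [Cen.F, aff, gr]

theorem fr_det : ∃ C : ℝ, 0 < C ∧ ∀ (x₀ : E d) (A : E d →L[ℝ] E d), Fr x₀ A →
    |A.det| ≤ C ∧ 1 ≤ C * |A.det| := by
  have hc : IsCompact (closedBall (1 : E d →L[ℝ] E d) (1 / 10)) := isCompact_closedBall _ _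
  have hf : Continuous fun A : E d →L[ℝ] E d => |A.det| := ContinuousLinearMap.continuous_det.abs
  have hne : (closedBall (1 : E d →L[ℝ] E d) (1 / 10)).Nonempty := nonempty_closedBall.2 (by norm_num)
  obtain ⟨A₀, hA₀, hmin⟩ := hc.exists_isMinOn hne hf.continuousOn
  obtain ⟨A₁, -, hmax⟩ := hc.exists_isMaxOn hne hf.continuousOn
  have hfr : Fr (0 : E d) A₀ := ⟨by simp, by rwa [mem_closedBall, dist_eq_norm] at hA₀⟩
  have h0 : 0 < |A₀.det| := by
    refine abs_pos.2 fun h0 => ?_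
    have hi : Function.Injective (A₀ : E d →ₗ[ℝ] E d) :=
      Function.LeftInverse.injective hfr.inv.2.2.1
    have hk := LinearMap.ker_eq_bot.2 hi
    exact (LinearMap.bot_lt_ker_of_det_eq_zero h0).ne' hk
  have h1 : 0 ≤ |A₁.det| := abs_nonneg _
  have h2 : 0 < |A₀.det|⁻¹ := inv_pos.2 h0
  refine ⟨|A₁.det| + |A₀.det|⁻¹, by linarith, fun x₀ A h => ?_⟩
  have hA : A ∈ closedBall (1 : E d →L[ℝ] E d) (1 / 10) := by
    rw [mem_closedBall, dist_eq_norm]; exact h.A_le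
  have a1 : |A₀.det| ≤ |A.det| := hmin hA
  have a2 : |A.det| ≤ |A₁.det| := hmax hA
  have a3 : |A₀.det|⁻¹ * |A₀.det| = 1 := inv_mul_cancel₀ h0.ne'
  refine ⟨by linarith, ?_⟩
  have a4 := mul_le_mul_of_nonneg_left a1 h2.le
  have a5 := mul_nonneg h1 (abs_nonneg A.det)
  nlinarith

theorem Fr.ad_comp {x₀ : E d} {A : E d →L[ℝ] E d} (h : Fr x₀ A) {D : E d →L[ℝ] H} {y : H} :
    ad (D.comp A) y = 0 ↔ ad D y = 0 := by
  constructor
  · intro h0
    refine ext_inner_left ℝ fun v => ?_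
    have := inner_ad_right (D.comp A) (Ring.inverse A v) y
    rw [h0, ContinuousLinearMap.comp_apply, h.inv.2.1] at this
    rw [inner_ad_right, ← this]
    simp
  · intro h0
    rw [Ch.ad_comp, ContinuousLinearMap.comp_apply, h0, map_zero]

theorem lk_chart [MeasurableSpace H] [BorelSpace H] (V : Measure (H × (H →L[ℝ] H))) (F : E d → H)
    (R : ℝ) : Lk (chart V F R) F := by
  refine ⟨fun a ha => ?_, fun a ha => ?_, fun a ha => ?_, fun a ha => ?_⟩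
  · have h1 : a ∈ dom F R := ha.1
    show a.1 = F (foot F R a.1) + (dom F R).indicator (fun a => ht F R a.1) a
    rw [indicator_of_mem h1, ht]
    abel
  · have h1 : a ∈ dom F R := ha.1
    show ad (d1 F (foot F R a.1)) ((dom F R).indicator (fun a => ht F R a.1) a) = 0
    rw [indicator_of_mem h1]
    exact (foot_spec (p := a.1) h1).2.1
  · have h1 : a ∈ dom F R := ha.1
    show (dom F R).indicator (fun a => ft (j1 F R a.1) a.2) a = ft (d1 F (foot F R a.1)) a.2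
    rw [indicator_of_mem h1, j1]
  · have h1 : a ∈ dom F R := ha.1
    have h2 := (foot_spec (p := a.1) h1).1
    simp only [chart, Set.piecewise]
    exact if_pos h2

end Pool.Agent.Lib.MP_8daebb_an.GM.Ch
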