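import Pool.Agent.Lib.MP_8daebb_an.GM.Base2

/-! Weighted multiplicity bound. -/

set_option linter.unusedSectionVars false
set_option linter.unusedVariables false

open MeasureTheory Metric Filter Topology Set
open scoped RealInnerProductSpace ENNReal ContDiff

namespace Pool.Agent.Lib.MP_8daebb_an.GM

open LG (vb chi om trS Sym)

variable {α : Type*} [MeasurableSpace α] {m : ℕ} {H : Type*} [NormedAddCommGroup H]
  [InnerProductSpace ℝ H] [FiniteDimensional ℝ H] [MeasurableSpace H] [BorelSpace H]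

theorem swap_ball {β : Type*} [MeasurableSpace β] {μ : Measure β} [SFinite μ] {X : β → E m}
    (hX : Measurable X) {g : β → ℝ≥0∞} (hg : Measurable g) {r : ℝ} (hr : 0 < r) :
    ∫⁻ u : E m, ∫⁻ a in {a | ‖X a - u‖ < r}, g a ∂μ =
      ENNReal.ofReal (vb m * r ^ m) * ∫⁻ a, g a ∂μ := by
  have h1 : MeasurableSet {p : E m × β | ‖X p.2 - p.1‖ < r} :=
    measurableSet_lt ((hX.comp measurable_snd).sub measurable_fst).norm measurable_const
  have h2 : ∀ u : E m, ∫⁻ a in {a | ‖X a - u‖ < r}, g a ∂μ =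
      ∫⁻ a, {p : E m × β | ‖X p.2 - p.1‖ < r}.indicator (fun p => g p.2) (u, a) ∂μ := fun u => by
    rw [← lintegral_indicator (measurableSet_lt (hX.sub_const u).norm measurable_const)]
    rfl
  simp only [h2]
  rw [lintegral_lintegral_swap (f := fun u a =>
      {p : E m × β | ‖X p.2 - p.1‖ < r}.indicator (fun p => g p.2) (u, a))
    ((hg.comp measurable_snd).indicator h1).aemeasurable, ← lintegral_const_mul _ hg]
  refine lintegral_congr fun a => ?_
  have h3 : ∀ u : E m, {p : E m × β | ‖X p.2 - p.1‖ < r}.indicator (fun p => g p.2) (u, a) =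
      (ball (X a) r).indicator (fun _ => g a) u := fun u => by
    simp only [indicator, mem_ofPred_eq, mem_ball', dist_eq_norm]
  simp only [h3]
  rw [lintegral_indicator_const measurableSet_ball, mul_comm, ← LG.vol_ball (X a) hr,
    ofReal_measureReal measure_ball_lt_top.ne]

theorem MQ.weight {D : CD m α H} {c : E m} {R δ M ρ CI : ℝ} {Q : ℕ} {N : E m → ℕ}
    (hQ : MQ D c R ρ CI Q N) (h : CV D c R δ M) (hρ : 0 < ρ) (hCI : 0 ≤ CI) {f F : E m → ℝ}
    (hf : Measurable f) (hF : Measurable F) {B : ℝ} (hF0 : ∀ u, 0 ≤ F u) (hFB : ∀ u, F u ≤ B)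
    (hs : ∀ v, f v ≠ 0 → ‖v - c‖ + 17 * ρ ≤ R)
    (hfF : ∀ v v', ‖v - v'‖ < 9 * ρ → |f v| ≤ F v') :
    Integrable (fun v => f v * ((N v : ℝ) - Q)) ∧
    ∫ v, |f v| * |(N v : ℝ) - Q| ≤ 8 ^ m * CI * ∫ a, F (D.x a) * D.t a ^ 2 ∂D.m := by
  have := h.fin
  have hvb := LG.vb_pos m
  have hfB : ∀ v, |f v| ≤ B := fun v =>
    (hfF v v (by rw [sub_self, norm_zero]; positivity)).trans (hFB v)
  have mN : Measurable fun v => (N v : ℝ) := measurable_from_top.comp hQ.mult.1
  have iN : Integrable fun v => (N v : ℝ) := by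
    simpa using (hQ.mult.integral h (f := fun _ => 1) measurable_const (B := 1) (by simp)).1
  have i0 : Integrable f := by
    refine (integrableOn_iff_integrable_of_support_subset (s := ball c (R + 1)) fun v hv => ?_).1
      (Measure.integrableOn_of_bounded measure_ball_lt_top.ne hf.aestronglyMeasurable
        (M := B) (Eventually.of_forall hfB))
    have := hs v hv
    rw [mem_ball, dist_eq_norm]
    linarith
  have i1 : Integrable fun v => f v * ((N v : ℝ) - Q) := by
    simp only [mul_sub]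
    exact (hQ.mult.integral h hf hfB).1.sub (i0.mul_const (Q : ℝ))
  have i2 : Integrable fun v => |f v| * |(N v : ℝ) - Q| := by
    simpa only [abs_mul] using i1.abs
  have i3 := h.integrable_t.2.1
  have i4 : Integrable (fun a => F (D.x a) * D.t a ^ 2) D.m :=
    i3.bdd_mul (hF.comp h.m_x).aestronglyMeasurable (c := B) (Eventually.of_forall fun a => by
      rw [Real.norm_of_nonneg (hF0 _)]; exact hFB _)
  have p2 : ∀ v, 0 ≤ |f v| * |(N v : ℝ) - Q| := fun v => by positivity
  have p4 : ∀ a, 0 ≤ F (D.x a) * D.t a ^ 2 := fun a => mul_nonneg (hF0 _) (sq_nonneg _)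
  refine ⟨i1, ?_⟩
  have key : ∀ u : E m, ∫ v in ball u ρ, |f v| * |(N v : ℝ) - Q| ≤
      CI * ∫ a in D.cyl u (8 * ρ), F (D.x a) * D.t a ^ 2 ∂D.m := fun u => by
    by_cases h0 : ∀ v ∈ ball u ρ, f v = 0
    · rw [setIntegral_eq_zero_of_forall_eq_zero fun v hv => by rw [h0 v hv, abs_zero, zero_mul]]
      exact mul_nonneg hCI (integral_nonneg p4)
    push Not at h0
    obtain ⟨v₀, h1, h2⟩ := h0
    have h3 : ‖u - c‖ + 16 * ρ ≤ R := by
      have := hs v₀ h2
      have := norm_sub_le_norm_sub_add_norm_sub u v₀ c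
      rw [mem_ball', dist_eq_norm] at h1
      linarith
    set S := sSup ((fun v => |f v|) '' ball u ρ) with hS
    have h4 : ∀ v ∈ ball u ρ, |f v| ≤ S := fun v hv =>
      le_csSup ⟨B, by rintro _ ⟨w, -, rfl⟩; exact hfB w⟩ ⟨v, hv, rfl⟩
    have h5 : ∀ a ∈ D.cyl u (8 * ρ), S ≤ F (D.x a) := fun a ha => by
      refine csSup_le ⟨_, v₀, h1, rfl⟩ ?_
      rintro _ ⟨w, hw, rfl⟩
      refine hfF w _ ?_
      have := norm_sub_le_norm_sub_add_norm_sub w u (D.x a)
      rw [mem_ball, dist_eq_norm] at hw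
      have h6 : ‖D.x a - u‖ < 8 * ρ := ha
      rw [norm_sub_rev] at h6
      linarith
    have i5 : IntegrableOn (fun v => |(N v : ℝ) - Q|) (ball u ρ) :=
      (iN.integrableOn.sub (integrableOn_const measure_ball_lt_top.ne)).abs
    calc ∫ v in ball u ρ, |f v| * |(N v : ℝ) - Q| ≤ ∫ v in ball u ρ, S * |(N v : ℝ) - Q| :=
          setIntegral_mono_on i2.integrableOn (i5.const_mul S) measurableSet_ball fun v hv =>
            mul_le_mul_of_nonneg_right (h4 v hv) (abs_nonneg _)
      _ ≤ S * (CI * ∫ a in D.cyl u (8 * ρ), D.t a ^ 2 ∂D.m) := by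
          rw [integral_const_mul]
          exact mul_le_mul_of_nonneg_left (hQ.near u ρ le_rfl h3) ((abs_nonneg _).trans (h4 v₀ h1))
      _ ≤ _ := by
          rw [mul_left_comm, ← integral_const_mul]
          exact mul_le_mul_of_nonneg_left (setIntegral_mono_on (i3.integrableOn.const_mul S)
            i4.integrableOn (h.meas_cyl u _) fun a ha =>
              mul_le_mul_of_nonneg_right (h5 a ha) (sq_nonneg _)) hCI
  have e1 := swap_ball (μ := volume) measurable_id
    (g := fun v => ENNReal.ofReal (|f v| * |(N v : ℝ) - Q|))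
    (hf.abs.mul (mN.sub_const _).abs).ennreal_ofReal hρ
  have e2 := swap_ball (μ := D.m) h.m_x (g := fun a => ENNReal.ofReal (F (D.x a) * D.t a ^ 2))
    ((hF.comp h.m_x).mul (h.m_t.pow_const 2)).ennreal_ofReal (r := 8 * ρ) (by positivity)
  rw [← ofReal_integral_eq_lintegral_ofReal i2 (Eventually.of_forall p2),
    ← ENNReal.ofReal_mul (by positivity)] at e1
  rw [← ofReal_integral_eq_lintegral_ofReal i4 (Eventually.of_forall p4),
    ← ENNReal.ofReal_mul (by positivity)] at e2
  have p5 : 0 ≤ ∫ a, F (D.x a) * D.t a ^ 2 ∂D.m := integral_nonneg p4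
  have e3 : ENNReal.ofReal (vb m * ρ ^ m * ∫ v, |f v| * |(N v : ℝ) - Q|) ≤
      ENNReal.ofReal (CI * (vb m * (8 * ρ) ^ m * ∫ a, F (D.x a) * D.t a ^ 2 ∂D.m)) := by
    rw [ENNReal.ofReal_mul hCI, ← e1, ← e2, ← lintegral_const_mul' _ _ ENNReal.ofReal_ne_top]
    refine lintegral_mono fun u => ?_
    have e4 : {v : E m | ‖id v - u‖ < ρ} = ball u ρ := by
      ext v; simp [dist_eq_norm]
    rw [e4, ← ofReal_integral_eq_lintegral_ofReal i2.integrableOn (Eventually.of_forall p2),
      ← ofReal_integral_eq_lintegral_ofReal i4.integrableOn (Eventually.of_forall p4),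
      ← ENNReal.ofReal_mul hCI]
    exact ENNReal.ofReal_le_ofReal (key u)
  rw [ENNReal.ofReal_le_ofReal_iff (by positivity)] at e3
  refine le_of_mul_le_mul_left (e3.trans_eq ?_) (show 0 < vb m * ρ ^ m by positivity)
  rw [mul_pow]
  ring

end Pool.Agent.Lib.MP_8daebb_an.GM
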