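import Pool.Agent.Lib.MP_8daebb_an.GM.Base

/-! The horizontal identity for vector fields. -/

set_option linter.unusedSectionVars false
set_option linter.unusedVariables false

open MeasureTheory Metric Filter Topology Set
open scoped RealInnerProductSpace ENNReal ContDiff

namespace Pool.Agent.Lib.MP_8daebb_an.GM

open LG (vb chi om trS Sym)

variable {α : Type*} [MeasurableSpace α] {m : ℕ} {H : Type*} [NormedAddCommGroup H]
  [InnerProductSpace ℝ H] [FiniteDimensional ℝ H] [MeasurableSpace H] [BorelSpace H]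

theorem PW.bounds {D : CD m α H} {δ : ℝ} {a : α} (h : PW D δ a) (hδ : 0 ≤ δ) :
    ‖D.τ a‖ ≤ 2 * m ∧ ‖D.b a‖ ≤ 2 * √m + 2 * δ ∧ ‖D.eh a‖ ≤ δ * (m + 4) ∧
      |1 - D.j a| ≤ (m + 1) / 2 * D.t a + δ / 2 * ‖D.y a‖ ^ 2 := by
  have hy := h.y_two
  have hy0 := norm_nonneg (D.y a)
  have ht := h.t_le
  have ht0 := h.t_nonneg
  have hs : √(D.t a) ≤ √m := Real.sqrt_le_sqrt ht
  have hyy : δ * ‖D.y a‖ ≤ δ * 2 := mul_le_mul_of_nonneg_left hy hδ
  have hy2 : ‖D.y a‖ ^ 2 ≤ 4 := by nlinarith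
  refine ⟨by linarith [h.τ_le], by linarith [h.b_le], ?_, ?_⟩
  · exact h.eh_le.trans (mul_le_mul_of_nonneg_left (by linarith) hδ)
  · have h1 := abs_le.mp h.j_t
    have h2 : D.t a ^ 2 ≤ m * D.t a := by nlinarith
    rw [abs_le]
    constructor <;> nlinarith [h1.1, h1.2]

theorem CV.integrable_cont {D : CD m α H} {c : E m} {R δ M : ℝ} (h : CV D c R δ M)
    (F : (E m × H) × (E m →L[ℝ] E m) × (E m →L[ℝ] H) × E m × ℝ → ℝ) (hF : Continuous F) :
    Integrable (fun a => F ((D.x a, D.y a), D.τ a, D.b a, D.eh a, D.t a)) D.m := by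
  have hδ := h.δ_nonneg
  set B : ℝ := 2 + 2 * m + (2 * √m + 2 * δ) + δ * (m + 4) with hB
  obtain ⟨C, hC⟩ := (isCompact_closedBall
    (0 : (E m × H) × (E m →L[ℝ] E m) × (E m →L[ℝ] H) × E m × ℝ)
      B).exists_bound_of_continuousOn hF.continuousOn
  refine h.integrable ?_ C fun a ha _ => hC _ ?_
  · exact (hF.comp_stronglyMeasurable
      ((h.m_x.stronglyMeasurable.prodMk h.m_y.stronglyMeasurable).prodMk
        (h.m_τ.stronglyMeasurable.prodMk (h.m_b.stronglyMeasurable.prodMk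
          (h.m_eh.stronglyMeasurable.prodMk h.m_t.stronglyMeasurable))))).aestronglyMeasurable
  · have hp := h.pw a ha
    obtain ⟨h1, h2, h3, -⟩ := hp.bounds hδ
    have h6 := hp.x_le
    have h7 := hp.y_two
    have h8 : ‖D.t a‖ ≤ m := by
      rw [Real.norm_of_nonneg hp.t_nonneg]
      exact hp.t_le
    have e1 : (0 : ℝ) ≤ m := Nat.cast_nonneg m
    have e2 : 0 ≤ √(m : ℝ) := Real.sqrt_nonneg _
    have e3 : 0 ≤ δ * (m + 4) := by positivity
    rw [mem_closedBall_zero_iff]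
    simp only [Prod.norm_def, max_le_iff]
    refine ⟨⟨?_, ?_⟩, ?_, ?_, ?_, ?_⟩ <;> linarith

theorem Test.mul {c : E m} {R : ℝ} {ψ f : E m × H → ℝ} (hψ : Test c R ψ)
    (hf : ContDiffOn ℝ 1 f (ball c R ×ˢ univ)) : Test c R fun u => ψ u * f u := by
  obtain ⟨h1, R', hR, h0⟩ := hψ
  exact ⟨h1.mul hf, R', hR, fun u hu => by simp [h0 u hu]⟩

theorem CV.integrable_hor_id {D : CD m α H} {c : E m} {R δ M : ℝ} (h : CV D c R δ M)
    {φ : E m × H → ℝ} (hφ : Test c R φ) (v : E m) :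
    Integrable (fun a => fderiv ℝ φ (D.x a, D.y a) (v - D.τ a v, D.b a v) +
      φ (D.x a, D.y a) * ⟪D.eh a, v⟫) D.m := by
  have h1 : Continuous φ := hφ.contDiff.continuous
  have h2 : Continuous (fderiv ℝ φ) := hφ.contDiff.continuous_fderiv one_ne_zero
  exact h.integrable_cont
    (fun p => fderiv ℝ φ p.1 (v - p.2.1 v, p.2.2.1 v) + φ p.1 * ⟪p.2.2.2.1, v⟫)
    (by fun_prop)

theorem sum_eb_id (v : E m) : v = ∑ k, ⟪v, LG.eb k⟫ • LG.eb k := by
  ext i
  simp [LG.eb, EuclideanSpace.inner_single_right, Pi.single_apply]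

theorem trS_id_id : trS (ContinuousLinearMap.id ℝ (E m)) = m := by
  simp [trS, LG.eb]

theorem CV.hor_gen {D : CD m α H} {c : E m} {R δ M : ℝ} (h : CV D c R δ M) {ψ : E m × H → ℝ}
    (hψ : Test c R ψ) {W : E m → E m} (hW : ContDiffOn ℝ 1 W (ball c R)) :
    ∫ a, (fderiv ℝ ψ (D.x a, D.y a) (W (D.x a) - D.τ a (W (D.x a)), D.b a (W (D.x a))) +
      ψ (D.x a, D.y a) * (trS (fderiv ℝ W (D.x a)) - trS ((fderiv ℝ W (D.x a)).comp (D.τ a))) +
      ψ (D.x a, D.y a) * ⟪D.eh a, W (D.x a)⟫) ∂D.m = 0 := by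
  have hW' : ContDiffOn ℝ 1 (fun u : E m × H => W u.1) (ball c R ×ˢ univ) :=
    hW.comp contDiff_fst.contDiffOn fun u hu => hu.1
  have key : ∀ k : Fin m, Test c R fun u : E m × H => ψ u * ⟪LG.eb k, W u.1⟫ := fun k =>
    hψ.mul ((innerSL ℝ (LG.eb k)).contDiff.comp_contDiffOn hW')
  have hd : ∀ (k : Fin m) (x : E m) (y : H), x ∈ ball c R → ∀ p : E m × H,
      fderiv ℝ (fun u : E m × H => ψ u * ⟪LG.eb k, W u.1⟫) (x, y) p =
        ψ (x, y) * ⟪LG.eb k, fderiv ℝ W x p.1⟫ + ⟪LG.eb k, W x⟫ * fderiv ℝ ψ (x, y) p := by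
    intro k x y hx p
    have h1 : HasFDerivAt W (fderiv ℝ W x) x :=
      ((hW.contDiffAt (isOpen_ball.mem_nhds hx)).differentiableAt one_ne_zero).hasFDerivAt
    have h2 : HasFDerivAt ψ (fderiv ℝ ψ (x, y)) (x, y) :=
      (hψ.contDiff.differentiable one_ne_zero _).hasFDerivAt
    have h3 : HasFDerivAt (fun u : E m × H => ⟪LG.eb k, W u.1⟫)
        ((innerSL ℝ (LG.eb k)).comp
          ((fderiv ℝ W x).comp (ContinuousLinearMap.fst ℝ (E m) H))) (x, y) :=
      (innerSL ℝ (LG.eb k)).hasFDerivAt.comp (x, y) (HasFDerivAt.comp (x, y) h1 hasFDerivAt_fst)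
    rw [(h2.fun_mul h3).fderiv]
    simp
  have e3 := integral_finsetSum (μ := D.m) Finset.univ
    fun k _ => h.integrable_hor_id (key k) (LG.eb k)
  rw [Finset.sum_eq_zero fun k _ => h.hor _ (key k) (LG.eb k)] at e3
  rw [← e3]
  refine integral_congr_ae ?_
  filter_upwards [h.car] with a ha
  have hw : W (D.x a) = ∑ k, ⟪W (D.x a), LG.eb k⟫ • LG.eb k := sum_eb_id _
  have hv : (W (D.x a) - D.τ a (W (D.x a)), D.b a (W (D.x a))) =
      ∑ k, ⟪W (D.x a), LG.eb k⟫ • (LG.eb k - D.τ a (LG.eb k), D.b a (LG.eb k)) := by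
    have := congrArg ((ContinuousLinearMap.id ℝ (E m) - D.τ a).prod (D.b a)) hw
    rw [map_sum] at this
    simpa only [map_smul, ContinuousLinearMap.prod_apply, ContinuousLinearMap.sub_apply,
      ContinuousLinearMap.id_apply] using this
  have hi : ⟪D.eh a, W (D.x a)⟫ = ∑ k, ⟪W (D.x a), LG.eb k⟫ * ⟪D.eh a, LG.eb k⟫ := by
    conv_lhs => rw [hw]
    rw [inner_sum]
    simp only [real_inner_smul_right]
  simp only [hd _ _ _ ha]
  rw [hv, hi, map_sum, trS, trS, ← Finset.sum_sub_distrib, Finset.mul_sum, Finset.mul_sum,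
    ← Finset.sum_add_distrib, ← Finset.sum_add_distrib]
  refine Finset.sum_congr rfl fun k _ => ?_
  rw [map_smul, smul_eq_mul, map_sub, inner_sub_right, ContinuousLinearMap.comp_apply,
    real_inner_comm (W (D.x a)), real_inner_comm (fderiv ℝ W (D.x a) (LG.eb k)),
    real_inner_comm (fderiv ℝ W (D.x a) (D.τ a (LG.eb k)))]
  ring

theorem CV.hor_pos {D : CD m α H} {c : E m} {R δ M : ℝ} (h : CV D c R δ M) {ψ : E m × H → ℝ}
    (hψ : Test c R ψ) (x₀ : E m) :
    ∫ a, (fderiv ℝ ψ (D.x a, D.y a) ((D.x a - x₀) - D.τ a (D.x a - x₀), D.b a (D.x a - x₀)) +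
      ψ (D.x a, D.y a) * (m - D.t a) + ψ (D.x a, D.y a) * ⟪D.eh a, D.x a - x₀⟫) ∂D.m = 0 := by
  have e := h.hor_gen hψ (W := fun u => u - x₀) (by fun_prop)
  rw [← e]
  refine integral_congr_ae ?_
  filter_upwards [h.ae_G] with a ha
  have h1 : fderiv ℝ (fun u : E m => u - x₀) (D.x a) = ContinuousLinearMap.id ℝ (E m) :=
    ((hasFDerivAt_id (D.x a)).sub_const x₀).fderiv
  rw [h1, trS_id_id, ContinuousLinearMap.id_comp, (h.pw a ha).tr_τ']

theorem CV.hor_field {D : CD m α H} {c : E m} {R δ M : ℝ} (h : CV D c R δ M) {W : E m → E m}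
    (hW : ContDiffOn ℝ 1 W (ball c R)) {R' : ℝ} (hR : R' < R)
    (h0 : ∀ u, R' ≤ ‖u - c‖ → W u = 0) :
    ∫ a, (trS (fderiv ℝ W (D.x a)) - trS ((fderiv ℝ W (D.x a)).comp (D.τ a)) +
      ⟪D.eh a, W (D.x a)⟫) ∂D.m = 0 := by
  have hRp := h.R_pos
  set r : ℝ := max R' 0 with hr
  have hr0 : 0 ≤ r := le_max_right _ _
  have hr1 : R' ≤ r := le_max_left _ _
  have hr2 : r < R := max_lt hR hRp
  let f : ContDiffBump c := ⟨(2 * r + R) / 3, (r + 2 * R) / 3, by linarith, by linarith⟩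
  have hT : Test c R fun u : E m × H => f u.1 := by
    refine ⟨(f.contDiff.comp contDiff_fst).contDiffOn, (r + 2 * R) / 3, by linarith,
      fun u hu => f.zero_of_le_dist ?_⟩
    rw [dist_eq_norm]
    exact hu
  have e := h.hor_gen hT hW
  rw [← e]
  refine integral_congr_ae (Eventually.of_forall fun a => ?_)
  by_cases hx : ‖D.x a - c‖ < (2 * r + R) / 3
  · have hev : (fun u : E m × H => f u.1) =ᶠ[𝓝 (D.x a, D.y a)] fun _ => (1 : ℝ) := by
      have : ∀ᶠ u : E m × H in 𝓝 (D.x a, D.y a), u.1 ∈ ball c ((2 * r + R) / 3) :=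
        continuous_fst.continuousAt.eventually
          (isOpen_ball.mem_nhds (by rwa [mem_ball, dist_eq_norm]))
      filter_upwards [this] with u hu
      exact f.one_of_mem_closedBall (ball_subset_closedBall hu)
    have h1 : f (D.x a) = 1 := hev.eq_of_nhds
    simp only [hev.fderiv_eq, h1]
    simp
  · have hev : W =ᶠ[𝓝 (D.x a)] fun _ => (0 : E m) := by
      have : ∀ᶠ u : E m in 𝓝 (D.x a), r < ‖u - c‖ :=
        (by fun_prop : Continuous fun u : E m => ‖u - c‖).continuousAt.eventually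
          (lt_mem_nhds (by simp only [not_lt] at hx; linarith))
      filter_upwards [this] with u hu
      exact h0 u (by linarith)
    have h1 : W (D.x a) = 0 := hev.eq_of_nhds
    simp only [hev.fderiv_eq, h1]
    simp [trS, show ((0 : E m), (0 : H)) = 0 from rfl]

end Pool.Agent.Lib.MP_8daebb_an.GM
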