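import Pool.Agent.Lib.MP_8daebb_an.GM.Ker
import Pool.Agent.Lib.MP_8daebb_an.GM.Base3
import Pool.Agent.Lib.MP_8daebb_an.GM.Id
import Pool.Agent.Lib.MP_8daebb_an.SV.Conv

/-! Local averages. -/

set_option linter.unusedSectionVars false
set_option linter.unusedVariables false

open MeasureTheory Metric Filter Topology Set
open scoped RealInnerProductSpace ENNReal ContDiff

namespace Pool.Agent.Lib.MP_8daebb_an.GM

open LG (vb chi om trS Sym)

variable {α : Type*} [MeasurableSpace α] {m : ℕ} {H : Type*} [NormedAddCommGroup H]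
  [InnerProductSpace ℝ H] [FiniteDimensional ℝ H] [MeasurableSpace H] [BorelSpace H]

theorem CV.x_le_av {D : CD m α H} {c : E m} {R δ M : ℝ} (h : CV D c R δ M) :
    ∀ᵐ a ∂D.m, ‖D.x a‖ ≤ 2 := h.ae_G.mono fun a ha => (h.pw a ha).x_le

theorem CV.pw_av {D : CD m α H} {c : E m} {R δ M : ℝ} (h : CV D c R δ M) :
    ∀ᵐ a ∂D.m, PW D δ a := h.ae_G.mono fun a ha => h.pw a ha

theorem kr_meas_av (ρ : ℝ) : Measurable (kr ρ : E m → ℝ) := (kr_contDiff ρ).continuous.measurable

theorem kr_shift_av {ρ : ℝ} (hρ : 0 < ρ) (x : E m) :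
    Integrable (fun u => kr ρ (u - x)) ∧ ∫ u, kr ρ (u - x) = 1 :=
  ⟨(kr_integral hρ).1.comp_sub_right x, by
    rw [integral_sub_right_eq_self (kr ρ) x, (kr_integral hρ).2]⟩

theorem kr_shift_av' {ρ : ℝ} (hρ : 0 < ρ) (u : E m) :
    Integrable (fun v => kr ρ (u - v)) ∧ ∫ v, kr ρ (u - v) = 1 := by
  have : (fun v => kr ρ (u - v)) = fun v => kr ρ (v - u) := by
    funext v
    rw [← kr_neg, neg_sub]
  rw [this]
  exact kr_shift_av hρ u

theorem kr_off_av {ρ : ℝ} (hρ : 0 < ρ) {u v : E m} (h : ¬ ‖v - u‖ < ρ) : kr ρ (u - v) = 0 :=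
  (kr_zero hρ (by rw [norm_sub_rev]; exact not_lt.1 h)).1

theorem CV.int_av {F : Type*} [NormedAddCommGroup F] [NormedSpace ℝ F] {D : CD m α H} {c : E m}
    {R δ M : ℝ} (h : CV D c R δ M) {ρ : ℝ} (hρ : 0 < ρ) {f : α → F} (hf : Integrable f D.m)
    (u : E m) : Integrable (fun a => kr ρ (u - D.x a) • f a) D.m :=
  hf.bdd_smul (Ck m / ρ ^ m)
    ((kr_meas_av ρ).comp (measurable_const.sub h.m_x)).aestronglyMeasurable
    (Eventually.of_forall fun a => by
      rw [Real.norm_of_nonneg (kr_nonneg hρ _)]; exact (kr_le hρ _).1)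

theorem CV.av_smooth {F : Type*} [NormedAddCommGroup F] [NormedSpace ℝ F] [CompleteSpace F]
    {D : CD m α H} {c : E m} {R δ M : ℝ} (h : CV D c R δ M) {ρ : ℝ} (hρ : 0 < ρ) {f : α → F}
    (hf : Integrable f D.m) :
    ContDiff ℝ 2 (D.av ρ f) ∧ HasCompactSupport (D.av ρ f) ∧
      (∀ u, Integrable (fun a => kr ρ (u - D.x a) • f a) D.m) ∧
      (∀ u v, fderiv ℝ (D.av ρ f) u v = ∫ a, fderiv ℝ (kr ρ) (u - D.x a) v • f a ∂D.m) ∧
      ∀ u v v', fderiv ℝ (fderiv ℝ (D.av ρ f)) u v v' =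
        ∫ a, fderiv ℝ (fderiv ℝ (kr ρ)) (u - D.x a) v v' • f a ∂D.m := by
  have h1 : ContDiff ℝ 1 (kr ρ : E m → ℝ) := (kr_contDiff ρ).of_le (by exact_mod_cast le_top)
  have h2 : ContDiff ℝ 2 (kr ρ : E m → ℝ) := contDiff_infty.1 (kr_contDiff ρ) 2
  refine ⟨SV.conv_contDiff h.m_x h.x_le_av hf 2 h2, ?_, h.int_av hρ hf,
    fun u v => (SV.conv_hasFDerivAt h.m_x h.x_le_av hf h1 u).2.2.2 v,
    fun u v v' => SV.conv_fderiv2 h.m_x h.x_le_av hf h2 u v v'⟩
  refine HasCompactSupport.intro (isCompact_closedBall (0 : E m) (2 + ρ)) fun u hu => ?_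
  rw [mem_closedBall_zero_iff, not_le] at hu
  refine integral_eq_zero_of_ae (h.x_le_av.mono fun a ha => ?_)
  have : ρ ≤ ‖u - D.x a‖ := by linarith [norm_sub_norm_le u (D.x a)]
  simp only [(kr_zero hρ this).1, zero_smul, Pi.zero_apply]

/-- Fubini for averages. -/
theorem CV.integral_av {D : CD m α H} {c : E m} {R δ M : ℝ} (h : CV D c R δ M) {ρ : ℝ} (hρ : 0 < ρ)
    {f : α → ℝ} (hf : Integrable f D.m) {κ : E m → ℝ} (hκ : Measurable κ) {B : ℝ}
    (hB : ∀ u, |κ u| ≤ B) :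
    Integrable (fun u => κ u * D.av ρ f u) ∧
      ∫ u, κ u * D.av ρ f u = ∫ a, (∫ u, κ u * kr ρ (u - D.x a)) * f a ∂D.m := by
  have := h.fin
  have hm : AEStronglyMeasurable (fun p : E m × α => kr ρ (p.1 - D.x p.2) * f p.2)
      ((volume : Measure (E m)).prod D.m) :=
    ((kr_meas_av ρ).comp (measurable_fst.sub (h.m_x.comp measurable_snd))).aestronglyMeasurable.mul
      hf.1.comp_snd
  have h0 : Integrable (fun p : E m × α => kr ρ (p.1 - D.x p.2) * f p.2)
      ((volume : Measure (E m)).prod D.m) := by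
    refine (integrable_prod_iff' hm).2 ⟨Eventually.of_forall fun a =>
      (kr_shift_av hρ (D.x a)).1.mul_const (f a), ?_⟩
    have e : (fun a => ∫ u : E m, ‖kr ρ (u - D.x a) * f a‖) = fun a => ‖f a‖ := by
      funext a
      simp only [norm_mul, Real.norm_of_nonneg (kr_nonneg hρ _)]
      rw [integral_mul_const, (kr_shift_av hρ (D.x a)).2, one_mul]
    rw [e]
    exact hf.norm
  have h1 : Integrable (fun p : E m × α => κ p.1 * (kr ρ (p.1 - D.x p.2) * f p.2))
      ((volume : Measure (E m)).prod D.m) :=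
    h0.bdd_mul (c := B) (hκ.comp measurable_fst).aestronglyMeasurable
      (Eventually.of_forall fun p => hB p.1)
  have e : (fun u => κ u * D.av ρ f u) =
      fun u => ∫ a, κ u * (kr ρ (u - D.x a) * f a) ∂D.m := by
    funext u
    rw [integral_const_mul]
    rfl
  rw [e]
  refine ⟨h1.integral_prod_left, ?_⟩
  rw [integral_integral_swap (f := fun u a => κ u * (kr ρ (u - D.x a) * f a)) h1]
  refine integral_congr_ae (Eventually.of_forall fun a => ?_)
  simp only [← mul_assoc, integral_mul_const]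

theorem CV.integral_av_one {D : CD m α H} {c : E m} {R δ M : ℝ} (h : CV D c R δ M) {ρ : ℝ}
    (hρ : 0 < ρ) {f : α → ℝ} (hf : Integrable f D.m) :
    Integrable (D.av ρ f) ∧ ∫ u, D.av ρ f u = ∫ a, f a ∂D.m := by
  have := h.integral_av hρ hf (κ := fun _ => 1) measurable_const (B := 1) (fun _ => by simp)
  simp only [one_mul, (kr_shift_av hρ _).2] at this
  exact this

theorem CV.norm_av_le {F : Type*} [NormedAddCommGroup F] [NormedSpace ℝ F] {D : CD m α H} {c : E m}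
    {R δ M : ℝ} (h : CV D c R δ M) {ρ : ℝ} (hρ : 0 < ρ) {f : α → F} {g : α → ℝ}
    (hg : Integrable g D.m) (u : E m) (hfg : ∀ᵐ a ∂D.m, a ∈ D.cyl u ρ → ‖f a‖ ≤ g a) :
    ‖D.av ρ f u‖ ≤ D.av ρ g u ∧ D.av ρ g u ≤ Ck m / ρ ^ m * ∫ a in D.cyl u ρ, g a ∂D.m := by
  constructor
  · refine norm_integral_le_of_norm_le (h.int_av hρ hg u) (hfg.mono fun a ha => ?_)
    by_cases hc : a ∈ D.cyl u ρ
    · rw [norm_smul, Real.norm_of_nonneg (kr_nonneg hρ _), smul_eq_mul]
      exact mul_le_mul_of_nonneg_left (ha hc) (kr_nonneg hρ _)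
    · simp only [kr_off_av hρ hc, zero_smul, norm_zero, le_refl]
  · rw [← integral_indicator (h.meas_cyl u ρ), ← integral_const_mul]
    refine integral_mono_ae (h.int_av hρ hg u) ((hg.indicator (h.meas_cyl u ρ)).const_mul _)
      (hfg.mono fun a ha => ?_)
    by_cases hc : a ∈ D.cyl u ρ
    · simp only [indicator_of_mem hc, smul_eq_mul]
      exact mul_le_mul_of_nonneg_right (kr_le hρ _).1 ((norm_nonneg _).trans (ha hc))
    · simp only [kr_off_av hρ hc, zero_smul, indicator_of_notMem hc, mul_zero, le_refl]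

theorem PW.facts_av {D : CD m α H} {δ : ℝ} {a : α} (h : PW D δ a) :
    0 ≤ D.en a ∧ D.t a ^ 2 ≤ m * D.en a ∧ (δ ≤ 1 / 2 → |1 - D.j a| ≤ (m + 1) * D.en a) := by
  have h1 := h.t_nonneg
  have h2 := h.t_le
  have h3 := sq_nonneg ‖D.y a‖
  have h4 := abs_le.1 h.j_t
  have h7 : (0 : ℝ) ≤ m := Nat.cast_nonneg m
  have h6 : D.t a ^ 2 ≤ m * D.t a := by nlinarith
  have h8 := mul_nonneg h7 h3
  have h9 := mul_nonneg h7 h1
  unfold CD.en
  refine ⟨by linarith, by nlinarith, fun hδ => ?_⟩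
  have h5 : δ * ‖D.y a‖ ^ 2 ≤ 1 / 2 * ‖D.y a‖ ^ 2 := mul_le_mul_of_nonneg_right hδ h3
  rw [abs_le]
  constructor <;> nlinarith [h4.1, h4.2]

/-- The averaged mass is close to an integer when the multiplicity is. -/
theorem CV.av_one {D : CD m α H} {c : E m} {R δ M : ℝ} (h : CV D c R δ M) (hδ : δ ≤ 1 / 2)
    {N : E m → ℕ} (hN : IsMult D.m D.x D.j N) {ρ : ℝ} (hρ : 0 < ρ) (u : E m) (n : ℕ) :
    |D.av ρ (fun _ => (1 : ℝ)) u - n| ≤
      Ck m / ρ ^ m * ((∫ v in ball u ρ, |(N v : ℝ) - n|) + (m + 1) * D.En u ρ) := by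
  have := h.fin
  have hen := h.integrable_t.2.2.2.1
  have hj : Integrable D.j D.m := h.integrable h.m_j.aestronglyMeasurable 2 fun a ha _ => by
    rw [Real.norm_of_nonneg (h.pw a ha).j_nonneg]; exact (h.pw a ha).j_le
  have hk : Measurable fun v => kr ρ (u - v) := (kr_meas_av ρ).comp (measurable_const.sub measurable_id)
  obtain ⟨i1, i2⟩ := hN.integral h hk (B := Ck m / ρ ^ m) fun v => by
    rw [abs_of_nonneg (kr_nonneg hρ _)]; exact (kr_le hρ _).1
  have iN : Integrable fun v => (N v : ℝ) := by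
    simpa using (hN.integral h (f := fun _ => 1) measurable_const (B := 1) fun _ => by simp).1
  have e1 : D.av ρ (fun _ => (1 : ℝ)) u - n =
      D.av ρ (fun a => 1 - D.j a) u + ∫ v, kr ρ (u - v) * ((N v : ℝ) - n) := by
    have a1 : D.av ρ (fun a => 1 - D.j a) u =
        D.av ρ (fun _ => (1 : ℝ)) u - ∫ a, kr ρ (u - D.x a) * D.j a ∂D.m := by
      have := integral_sub (h.int_av hρ (integrable_const (1 : ℝ)) u) (h.int_av hρ hj u)
      unfold CD.av
      simpa only [smul_eq_mul, mul_sub] using this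
    have a2 : ∫ v, kr ρ (u - v) * ((N v : ℝ) - n) = (∫ v, kr ρ (u - v) * (N v : ℝ)) - n := by
      simp only [mul_sub]
      rw [integral_sub i1 ((kr_shift_av' hρ u).1.mul_const _), integral_mul_const,
        (kr_shift_av' hρ u).2, one_mul]
    rw [a1, a2, i2]
    ring
  obtain ⟨b1, b2⟩ := h.norm_av_le hρ (f := fun a => 1 - D.j a) (hen.const_mul (m + 1)) u
    (h.pw_av.mono fun a ha _ => ha.facts_av.2.2 hδ)
  rw [integral_const_mul] at b2
  have iB : IntegrableOn (fun v => |(N v : ℝ) - n|) (ball u ρ) :=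
    (iN.integrableOn.sub (integrableOn_const measure_ball_lt_top.ne)).abs
  have b3 : ‖∫ v, kr ρ (u - v) * ((N v : ℝ) - n)‖ ≤
      Ck m / ρ ^ m * ∫ v in ball u ρ, |(N v : ℝ) - n| := by
    rw [← integral_indicator measurableSet_ball, ← integral_const_mul]
    refine norm_integral_le_of_norm_le
      (((integrable_indicator_iff measurableSet_ball).2 iB).const_mul _)
      (Eventually.of_forall fun v => ?_)
    by_cases hc : v ∈ ball u ρ
    · rw [indicator_of_mem hc, norm_mul, Real.norm_of_nonneg (kr_nonneg hρ _), Real.norm_eq_abs]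
      exact mul_le_mul_of_nonneg_right (kr_le hρ _).1 (abs_nonneg _)
    · rw [indicator_of_notMem hc, kr_off_av hρ (by rwa [mem_ball_iff_norm] at hc)]
      simp
  rw [e1, mul_add]
  refine (abs_add_le _ _).trans ?_
  rw [Real.norm_eq_abs] at b1 b3
  unfold CD.En
  linarith

end Pool.Agent.Lib.MP_8daebb_an.GM
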