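import Pool.Agent.Lib.MP_8daebb_an.GM.MetF

/-! Integration by parts and the Hessian. -/

set_option linter.unusedVariables false

open MeasureTheory Metric Filter Topology Set
open scoped RealInnerProductSpace ENNReal ContDiff

namespace Pool.Agent.Lib.MP_8daebb_an.GM

open LG (vb chi om trS)

variable {d : ℕ}

theorem integral_fderiv_zero {F : Type*} [NormedAddCommGroup F] [NormedSpace ℝ F]
    [CompleteSpace F] {f : E d → F} (hf : ContDiff ℝ 1 f) (hc : HasCompactSupport f) (v : E d) :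
    Integrable (fun u => fderiv ℝ f u v) ∧ ∫ u, fderiv ℝ f u v = 0 := by
  have hi : Integrable (fun u => fderiv ℝ f u v) :=
    ((hf.continuous_fderiv one_ne_zero).clm_apply continuous_const).integrable_of_hasCompactSupport
      (hc.fderiv_apply ℝ v)
  refine ⟨hi, ?_⟩
  have := integral_smul_fderiv_eq_neg_fderiv_smul_of_integrable (μ := volume)
    (f := fun _ : E d => (1 : ℝ)) (g := f) (v := v) (by simp) (by simpa using hi)
    (by simpa using hf.continuous.integrable_of_hasCompactSupport hc)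
    (fun _ _ => differentiableAt_const _) fun x _ => hf.differentiable one_ne_zero x
  simpa using this

theorem trH_sum_ibp (A : E d →L[ℝ] E d) : trH A = ∑ i, ⟪LG.eb i, A (LG.eb i)⟫ := by
  rw [← trS_eq, trS]
  exact Finset.sum_congr rfl fun i _ => real_inner_comm _ _

theorem integral_tr_zero {W : E d → E d} (hW : ContDiff ℝ 1 W) (hc : HasCompactSupport W) :
    Integrable (fun u => trH (fderiv ℝ W u)) ∧ ∫ u, trH (fderiv ℝ W u) = 0 := by
  have h := fun i : Fin d => integral_fderiv_zero hW hc (LG.eb i)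
  have hi : ∀ i : Fin d, Integrable fun u => ⟪LG.eb i, fderiv ℝ W u (LG.eb i)⟫ := fun i =>
    (h i).1.const_inner _
  simp only [trH_sum_ibp]
  refine ⟨integrable_finsetSum _ fun i _ => hi i, ?_⟩
  rw [integral_finsetSum _ fun i _ => hi i]
  refine Finset.sum_eq_zero fun i _ => ?_
  rw [integral_inner (h i).1, (h i).2, inner_zero_right]

theorem sum_smul_ibp (v : E d) : ∑ i, ⟪v, LG.eb i⟫ • LG.eb i = v := by
  have := (EuclideanSpace.basisFun (Fin d) ℝ).sum_repr' v
  simp only [EuclideanSpace.basisFun_apply] at this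
  refine Eq.trans (Finset.sum_congr rfl fun i _ => ?_) this
  rw [real_inner_comm]
  rfl

theorem sum_lin_ibp (φ : E d →L[ℝ] ℝ) (v : E d) :
    ∑ i, ⟪v, LG.eb i⟫ * φ (LG.eb i) = φ v := by
  conv_rhs => rw [← sum_smul_ibp v]
  simp only [map_sum, map_smul, smul_eq_mul]

theorem tr_smul_ibp {κ : E d → ℝ} {W : E d → E d} {u : E d} (hκ : DifferentiableAt ℝ κ u)
    (hW : DifferentiableAt ℝ W u) : trH (fderiv ℝ (κ • W) u) =
      κ u * trH (fderiv ℝ W u) + fderiv ℝ κ u (W u) := by
  rw [fderiv_smul hκ hW, ← sum_lin_ibp (fderiv ℝ κ u) (W u), trH_sum_ibp, trH_sum_ibp,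
    Finset.mul_sum, ← Finset.sum_add_distrib]
  refine Finset.sum_congr rfl fun i _ => ?_
  simp only [add_apply, smul_apply,
    ContinuousLinearMap.smulRight_apply, inner_add_right, real_inner_smul_right]
  rw [real_inner_comm (LG.eb i) (W u)]
  ring

theorem integral_div {κ : E d → ℝ} (hκ : ContDiff ℝ 1 κ) (hc : HasCompactSupport κ)
    {W : E d → E d} (hW : ContDiff ℝ 1 W) :
    ∫ u, κ u * trH (fderiv ℝ W u) = -∫ u, fderiv ℝ κ u (W u) := by
  obtain ⟨i1, e1⟩ := integral_tr_zero (hκ.smul hW) hc.smul_right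
  have i2 : Integrable fun u => fderiv ℝ κ u (W u) :=
    ((hκ.continuous_fderiv one_ne_zero).clm_apply hW.continuous).integrable_of_hasCompactSupport
      ((hc.fderiv ℝ).mono fun u hu e => hu (by simp [e]))
  have key : ∀ u, κ u * trH (fderiv ℝ W u) =
      trH (fderiv ℝ (κ • W) u) - fderiv ℝ κ u (W u) := fun u => by
    rw [tr_smul_ibp (hκ.differentiable one_ne_zero u) (hW.differentiable one_ne_zero u)]
    ring
  simp only [key]
  rw [integral_sub i1 i2, e1, zero_sub]

theorem inner_grad (f : E d → ℝ) (u v : E d) : ⟪gradient f u, v⟫ = fderiv ℝ f u v := by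
  rw [gradient, InnerProductSpace.toDual_symm_apply]

theorem inner_hess {f : E d → ℝ} (hf : ContDiff ℝ 2 f) (u v v' : E d) :
    ⟪hess f u v, v'⟫ = fderiv ℝ (fderiv ℝ f) u v v' := by
  have hd := ((hf.fderiv_right (m := 1) (by norm_num)).differentiable one_ne_zero u).hasFDerivAt
  let L : (E d →L[ℝ] ℝ) →L[ℝ] E d :=
    ∑ i, (ContinuousLinearMap.apply ℝ ℝ (LG.eb i)).smulRight (LG.eb i)
  have hL : ∀ (φ : E d →L[ℝ] ℝ) (z : E d), ⟪L φ, z⟫ = φ z := fun φ z => by
    rw [← sum_lin_ibp φ z]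
    simp only [L, sum_apply, ContinuousLinearMap.smulRight_apply,
      ContinuousLinearMap.apply_apply, sum_inner, real_inner_smul_left]
    refine Finset.sum_congr rfl fun i _ => ?_
    rw [real_inner_comm z]
    ring
  have e : gradient f = L ∘ fderiv ℝ f := funext fun x =>
    ext_inner_right ℝ fun z => by rw [inner_grad, Function.comp_apply, hL]
  rw [hess, e, (L.hasFDerivAt.comp u hd).fderiv, ContinuousLinearMap.comp_apply, hL]

theorem tr_comp_hess {f : E d → ℝ} (hf : ContDiff ℝ 2 f) {B : E d →L[ℝ] E d}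
    (hB : ∀ v z, ⟪B v, z⟫ = ⟪v, B z⟫) (u : E d) :
    trH (B.comp (hess f u)) = ∑ i, fderiv ℝ (fderiv ℝ f) u (LG.eb i) (B (LG.eb i)) := by
  rw [← trS_eq, trS]
  refine Finset.sum_congr rfl fun i _ => ?_
  rw [ContinuousLinearMap.comp_apply, hB, inner_hess hf]

theorem sum_eb (φ : E d →L[ℝ] ℝ) (v : E d) : ∑ i, ⟪v, LG.eb i⟫ * φ (LG.eb i) = φ v :=
  sum_lin_ibp φ v

end Pool.Agent.Lib.MP_8daebb_an.GM
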