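import Pool.Agent.Lib.MP_8daebb_an.GM.Av2
import Pool.Agent.Lib.MP_8daebb_an.GM.IBP

/-! Derivatives of averages. -/

set_option linter.unusedSectionVars false
set_option linter.unusedVariables false

open MeasureTheory Metric Filter Topology Set
open scoped RealInnerProductSpace ENNReal ContDiff

namespace Pool.Agent.Lib.MP_8daebb_an.GM

open LG (vb chi om trS)

variable {d : ℕ} {α : Type*} [MeasurableSpace α] {H : Type*} [NormedAddCommGroup H]
  [InnerProductSpace ℝ H] [FiniteDimensional ℝ H] [MeasurableSpace H] [BorelSpace H]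

theorem test_avd {κ : E d → ℝ} {f : H → ℝ} (hκ : ContDiff ℝ 1 κ) (hf : ContDiff ℝ 1 f) {ρ R : ℝ}
    (hρ : 0 < ρ) (h0 : ∀ v : E d, ρ ≤ ‖v‖ → κ v = 0) {u : E d} (hu : ‖u‖ + 2 * ρ ≤ R) :
    Test 0 R (fun w : E d × H => κ (u - w.1) * f w.2) ∧ ∀ (x : E d) (y : H) (v : E d) (h : H),
      fderiv ℝ (fun w : E d × H => κ (u - w.1) * f w.2) (x, y) (v, h) =
        -(fderiv ℝ κ (u - x) v * f y) + κ (u - x) * fderiv ℝ f y h := by
  refine ⟨⟨((hκ.comp (contDiff_const.sub contDiff_fst)).mul (hf.comp contDiff_snd)).contDiffOn,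
    ‖u‖ + ρ, by linarith, fun w hw => ?_⟩, fun x y v h => ?_⟩
  · rw [sub_zero] at hw
    have : ‖w.1‖ ≤ ‖u‖ + ‖u - w.1‖ := by
      have := norm_sub_le u (u - w.1)
      rwa [sub_sub_cancel] at this
    show κ (u - w.1) * f w.2 = 0
    rw [h0 _ (by linarith), zero_mul]
  · have a1 : HasFDerivAt (fun w : E d × H => κ (u - w.1))
        ((fderiv ℝ κ (u - x)).comp (-ContinuousLinearMap.fst ℝ (E d) H)) (x, y) :=
      ((hκ.differentiable one_ne_zero) (u - x)).hasFDerivAt.comp (x, y)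
        (hasFDerivAt_fst.const_sub u)
    have a2 : HasFDerivAt (fun w : E d × H => f w.2)
        ((fderiv ℝ f y).comp (ContinuousLinearMap.snd ℝ (E d) H)) (x, y) :=
      ((hf.differentiable one_ne_zero) y).hasFDerivAt.comp (x, y) hasFDerivAt_snd
    rw [(a1.fun_mul a2).fderiv]
    simp
    ring

theorem b_le_avd {D : CD d α H} {δ : ℝ} {a : α} (p : PW D δ a) (hδ : δ ≤ 1) (v : E d) :
    ‖D.b a v‖ ≤ 3 * √(D.en a) * ‖v‖ := by
  have h1 : √(D.t a) ≤ √(D.en a) := Real.sqrt_le_sqrt (le_add_of_nonneg_right (sq_nonneg _))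
  have h2 : ‖D.y a‖ ≤ √(D.en a) :=
    Real.le_sqrt_of_sq_le (le_add_of_nonneg_left p.t_nonneg)
  have h3 : δ * ‖D.y a‖ ≤ ‖D.y a‖ := mul_le_of_le_one_left (norm_nonneg _) hδ
  exact ((D.b a).le_opNorm v).trans
    (mul_le_mul_of_nonneg_right (by linarith [p.b_le]) (norm_nonneg v))

theorem cs_avd {D : CD d α H} {c : E d} {R δ M : ℝ} (h : CV D c R δ M) {ρ : ℝ} (h0 : 0 < ρ)
    (u : E d) : Integrable (fun a => ‖D.y a‖ * √(D.en a)) D.m ∧
      D.av ρ (fun a => ‖D.y a‖ * √(D.en a)) u ≤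
        √(D.av ρ (fun a => ‖D.y a‖ ^ 2) u * D.av ρ D.en u) := by
  have hi : Integrable (fun a => ‖D.y a‖ * √(D.en a)) D.m :=
    h.integrable_t.2.2.2.2.1.bdd_mul (c := 2) h.m_y.norm.aestronglyMeasurable
      (h.pw_av.mono fun a ha => by rw [norm_norm]; exact ha.y_two)
  refine ⟨hi, Real.le_sqrt_of_sq_le ?_⟩
  have i1 := h.int_av h0 h.integrable_t.2.2.1 u
  have i2 := h.int_av h0 hi u
  have i3 := h.int_av h0 h.integrable_t.2.2.2.1 u
  have hd := discrim_le_zero (a := D.av ρ (fun a => ‖D.y a‖ ^ 2) u)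
    (b := -2 * D.av ρ (fun a => ‖D.y a‖ * √(D.en a)) u) (c := D.av ρ D.en u) fun l => by
      have e : D.av ρ (fun a => ‖D.y a‖ ^ 2) u * (l * l) +
          -2 * D.av ρ (fun a => ‖D.y a‖ * √(D.en a)) u * l + D.av ρ D.en u =
          ∫ a, (kr ρ (u - D.x a) • ‖D.y a‖ ^ 2 * (l * l) +
            kr ρ (u - D.x a) • (‖D.y a‖ * √(D.en a)) * (-2 * l) +
            kr ρ (u - D.x a) • D.en a) ∂D.m := by
        have i4 : Integrable (fun a => kr ρ (u - D.x a) • ‖D.y a‖ ^ 2 * (l * l) +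
            kr ρ (u - D.x a) • (‖D.y a‖ * √(D.en a)) * (-2 * l)) D.m :=
          (i1.mul_const _).add (i2.mul_const _)
        rw [integral_add i4 i3,
          integral_add (i1.mul_const _) (i2.mul_const _), integral_mul_const, integral_mul_const]
        unfold CD.av
        ring
      rw [e]
      refine integral_nonneg_of_ae (h.pw_av.mono fun a ha => ?_)
      have e2 := Real.sq_sqrt ha.facts_av.1
      have e3 := mul_nonneg (kr_nonneg h0 (u - D.x a)) (sq_nonneg (‖D.y a‖ * l - √(D.en a)))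
      simp only [smul_eq_mul, Pi.zero_apply]
      calc (0 : ℝ) ≤ _ := e3
        _ = _ := by rw [sub_sq, e2]; ring
  rw [discrim] at hd
  nlinarith

/-- The derivative of the average of a function of the height. -/
theorem core_avd {D : CD d α H} {R δ M ρ A : ℝ} (h : CV D 0 R δ M) (hδ : δ ≤ 1) (h0 : 0 < ρ)
    {u : E d} (hu : ‖u‖ + 2 * ρ ≤ R) {f : H → ℝ} (hf : ContDiff ℝ 1 f)
    (hi : Integrable (fun a => f (D.y a)) D.m) (hA0 : 0 ≤ A) (hA : ∀ᵐ a ∂D.m, |f (D.y a)| ≤ A)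
    {g : α → ℝ} (hg : Integrable g D.m) (v : E d)
    (hb : ∀ᵐ a ∂D.m, |fderiv ℝ f (D.y a) (D.b a v)| ≤ g a * ‖v‖) :
    ‖∫ a, fderiv ℝ (kr ρ) (u - D.x a) v • f (D.y a) ∂D.m‖ ≤
      (3 * Ck d * A / ρ * (D.En u ρ / ρ ^ d) + D.av ρ g u) * ‖v‖ := by
  have hC : 0 < Ck d := zero_lt_one.trans_le (one_le_Ck d)
  have := h.fin
  have hρ : ρ ≤ 1 := by linarith [norm_nonneg u, h.R_le]
  obtain ⟨t1, t2⟩ := test_avd (H := H) ((kr_contDiff ρ).of_le (by simp)) hf h0
    (fun v hv => (kr_zero h0 hv).1) hu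
  have hen := h.integrable_t.2.2.2.1.indicator (h.meas_cyl u ρ)
  have r3 : ρ ^ (d + 1) ≤ ρ ^ d := pow_le_pow_of_le_one h0.le hρ (Nat.le_succ d)
  have i1 : Integrable (fun a => fderiv ℝ (kr ρ) (u - D.x a) v • f (D.y a)) D.m :=
    SV.integrable_conv h.m_x h.x_le_av hi (g := fun w => fderiv ℝ (kr ρ) w v)
      (((kr_contDiff ρ).continuous_fderiv (by simp)).clm_apply continuous_const) u
  have i3 := h.int_av h0 hg u
  rw [← add_zero (∫ a, _ ∂D.m), ← h.hor _ t1 v, ← integral_add i1 (h.integrable_hor_id t1 v)]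
  refine (norm_integral_le_of_norm_le
    (g := fun a => 3 * Ck d / ρ ^ (d + 1) * A * ‖v‖ * (D.cyl u ρ).indicator D.en a +
      ‖v‖ * (kr ρ (u - D.x a) • g a)) ((hen.const_mul _).add (i3.const_mul _)) ?_).trans ?_
  · filter_upwards [h.pw_av, hA, hb] with a p hy b1
    rw [t2, map_sub]
    by_cases hc : a ∈ D.cyl u ρ
    swap
    · have hc' : ρ ≤ ‖u - D.x a‖ := by rw [norm_sub_rev]; exact not_lt.1 hc
      obtain ⟨z1, z2, -⟩ := kr_zero h0 hc'
      simp [z1, z2, indicator_of_notMem hc]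
    rw [indicator_of_mem hc]
    obtain ⟨k1, k2, -⟩ := kr_le h0 (u - D.x a)
    have k0 := kr_nonneg h0 (u - D.x a)
    have t0 := p.t_nonneg
    have en1 : D.t a ≤ D.en a := le_add_of_nonneg_right (sq_nonneg _)
    have en0 := t0.trans en1
    have eh1 : ‖D.eh a‖ ≤ D.en a := p.eh_le.trans (mul_le_of_le_one_left en0 hδ)
    have τ1 : ‖D.τ a v‖ ≤ 2 * D.t a * ‖v‖ :=
      ((D.τ a).le_opNorm v).trans (mul_le_mul_of_nonneg_right p.τ_le (norm_nonneg v))
    have e : fderiv ℝ (kr ρ) (u - D.x a) v • f (D.y a) +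
        (-((fderiv ℝ (kr ρ) (u - D.x a) v - fderiv ℝ (kr ρ) (u - D.x a) (D.τ a v)) * f (D.y a)) +
          kr ρ (u - D.x a) * fderiv ℝ f (D.y a) (D.b a v) +
          kr ρ (u - D.x a) * f (D.y a) * ⟪D.eh a, v⟫) =
        fderiv ℝ (kr ρ) (u - D.x a) (D.τ a v) * f (D.y a) +
          kr ρ (u - D.x a) * f (D.y a) * ⟪D.eh a, v⟫ +
          kr ρ (u - D.x a) * fderiv ℝ f (D.y a) (D.b a v) := by
      rw [smul_eq_mul]; ring
    rw [e]
    have f1 : ‖fderiv ℝ (kr ρ) (u - D.x a) (D.τ a v) * f (D.y a)‖ ≤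
        Ck d / ρ ^ (d + 1) * (2 * D.en a * ‖v‖) * A := by
      rw [norm_mul]
      refine mul_le_mul (((fderiv ℝ (kr ρ) _).le_opNorm _).trans (mul_le_mul k2 (τ1.trans ?_)
        (norm_nonneg _) (by positivity))) hy (norm_nonneg _) (by positivity)
      gcongr
    have f2 : ‖kr ρ (u - D.x a) * f (D.y a) * ⟪D.eh a, v⟫‖ ≤
        Ck d / ρ ^ (d + 1) * A * (D.en a * ‖v‖) := by
      rw [norm_mul, norm_mul, Real.norm_of_nonneg k0]
      refine mul_le_mul (mul_le_mul (k1.trans ?_) hy (norm_nonneg _) (by positivity))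
        ((abs_real_inner_le_norm _ _).trans (mul_le_mul_of_nonneg_right eh1 (norm_nonneg v)))
        (norm_nonneg _) (by positivity)
      gcongr
    have f3 : ‖kr ρ (u - D.x a) * fderiv ℝ f (D.y a) (D.b a v)‖ ≤
        kr ρ (u - D.x a) * (g a * ‖v‖) := by
      rw [norm_mul, Real.norm_of_nonneg k0]
      exact mul_le_mul_of_nonneg_left b1 k0
    refine (norm_add₃_le.trans (add_le_add (add_le_add f1 f2) f3)).trans (le_of_eq ?_)
    rw [smul_eq_mul]; ring
  · rw [integral_add (hen.const_mul _) (i3.const_mul _), integral_const_mul, integral_const_mul,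
      integral_indicator (h.meas_cyl u ρ)]
    refine le_of_eq ?_
    unfold CD.av CD.En
    rw [pow_succ]
    field_simp

theorem grad_av_sq (d : ℕ) (M : ℝ) : ∃ C : ℝ, 0 < C ∧ ∀ (D : CD d α H) (R δ lam ρ : ℝ),
    CV D 0 R δ M → δ ≤ 1 / 10 → Ht D lam → 0 < lam → 2 * lam ≤ ρ → ∀ u : E d, ‖u‖ + 2 * ρ ≤ R →
    ‖fderiv ℝ (D.av ρ fun a => ‖D.y a‖ ^ 2) u‖ ≤
      C * √(D.av ρ (fun a => ‖D.y a‖ ^ 2) u * D.av ρ D.en u) +
        C * lam ^ 2 / ρ * (D.En u ρ / ρ ^ d) := by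
  have hC : 0 < Ck d := zero_lt_one.trans_le (one_le_Ck d)
  refine ⟨3 * Ck d + 6, by positivity, fun D R δ lam ρ h hδ hs s0 hρ u hu => ?_⟩
  have h0 : 0 < ρ := by linarith
  obtain ⟨ci, cs⟩ := cs_avd h h0 u
  have hy2 := h.integrable_t.2.2.1
  have hE := (h.nonneg u ρ).2.2.2.1
  refine ContinuousLinearMap.opNorm_le_bound _ (by positivity) fun v => ?_
  rw [(h.av_smooth h0 hy2).2.2.2.1]
  refine (core_avd h (by linarith) h0 hu (f := fun y => ‖y‖ ^ 2) (contDiff_norm_sq ℝ) hy2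
    (sq_nonneg lam) ?_ (ci.const_mul 6) v ?_).trans
    (mul_le_mul_of_nonneg_right ?_ (norm_nonneg v))
  · filter_upwards [hs] with a ha
    rw [abs_of_nonneg (sq_nonneg _)]
    exact pow_le_pow_left₀ (norm_nonneg _) ha 2
  · filter_upwards [h.pw_av] with a p
    have hd : fderiv ℝ (fun y : H => ‖y‖ ^ 2) (D.y a) (D.b a v) = 2 * ⟪D.y a, D.b a v⟫ := by
      rw [(hasStrictFDerivAt_norm_sq (D.y a)).hasFDerivAt.fderiv]
      simp
    have b1 := (abs_real_inner_le_norm (D.y a) (D.b a v)).trans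
      (mul_le_mul_of_nonneg_left (b_le_avd p (by linarith) v) (norm_nonneg _))
    rw [hd, abs_mul, abs_two]
    linarith
  · have e1 : D.av ρ (fun a => 6 * (‖D.y a‖ * √(D.en a))) u =
        6 * D.av ρ (fun a => ‖D.y a‖ * √(D.en a)) u := by
      unfold CD.av
      rw [← integral_const_mul]
      refine integral_congr_ae (Eventually.of_forall fun a => ?_)
      simp only [smul_eq_mul]
      ring
    have e2 : (3 * Ck d + 6) * lam ^ 2 / ρ * (D.En u ρ / ρ ^ d) =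
        3 * Ck d * lam ^ 2 / ρ * (D.En u ρ / ρ ^ d) + 6 * lam ^ 2 / ρ * (D.En u ρ / ρ ^ d) := by
      ring
    have e3 : 0 ≤ 6 * lam ^ 2 / ρ * (D.En u ρ / ρ ^ d) := by positivity
    have e4 : 0 ≤ Ck d * √(D.av ρ (fun a => ‖D.y a‖ ^ 2) u * D.av ρ D.en u) := by positivity
    rw [e1, e2]
    linarith

theorem grad_av_y (d : ℕ) (M : ℝ) : ∃ C : ℝ, 0 < C ∧ ∀ (D : CD d α H) (R δ lam ρ : ℝ),
    CV D 0 R δ M → δ ≤ 1 / 10 → Ht D lam → 0 < lam → 2 * lam ≤ ρ → ∀ u : E d, ‖u‖ + 2 * ρ ≤ R →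
    ‖fderiv ℝ (D.av ρ D.y) u‖ ^ 2 ≤ C * (D.En u ρ / ρ ^ d) := by
  have hC : 0 < Ck d := zero_lt_one.trans_le (one_le_Ck d)
  obtain ⟨C, hC1, hav⟩ := av_le (α := α) (H := H) d M
  have hC0 : 0 < C := by linarith
  refine ⟨(3 * Ck d * C + 3 * C) ^ 2, by positivity, fun D R δ lam ρ h hδ hs s0 hρ u hu => ?_⟩
  have h0 : 0 < ρ := by linarith
  obtain ⟨-, -, -, -, -, -, a1, -, a2, -⟩ := hav D 0 R δ lam ρ u h hδ hs s0 hρ
  rw [sub_zero] at a2
  have hE : 0 ≤ D.En u ρ / ρ ^ d := div_nonneg (h.nonneg u ρ).2.2.2.1 (by positivity)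
  have hl : lam / ρ ≤ 1 := (div_le_one h0).2 (by linarith)
  have hl0 : 0 ≤ lam / ρ := by positivity
  have a3 : D.En u ρ / ρ ^ d ≤ C ^ 2 := by
    have h1 := a2 hu
    rw [← div_pow] at h1
    have h2 : (lam / ρ) ^ 2 ≤ 1 := pow_le_one₀ hl0 hl
    nlinarith
  set E1 := D.En u ρ / ρ ^ d with hE1
  have a4 : E1 ≤ C * √E1 := by
    have h1 : √E1 ≤ C := Real.sqrt_le_iff.2 ⟨hC0.le, a3⟩
    nlinarith [Real.mul_self_sqrt hE, Real.sqrt_nonneg E1]
  have hy := h.integrable_t.2.2.2.2.2.1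
  have hsq := h.integrable_t.2.2.2.2.1
  have key : ‖fderiv ℝ (D.av ρ D.y) u‖ ≤ (3 * Ck d * C + 3 * C) * √E1 := by
    refine ContinuousLinearMap.opNorm_le_bound _ (by positivity) fun v => ?_
    rw [(h.av_smooth h0 hy).2.2.2.1]
    have i1 : Integrable (fun a => fderiv ℝ (kr ρ) (u - D.x a) v • D.y a) D.m :=
      SV.integrable_conv h.m_x h.x_le_av hy (g := fun w => fderiv ℝ (kr ρ) w v)
        (((kr_contDiff ρ).continuous_fderiv (by simp)).clm_apply continuous_const) u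
    set e := ∫ a, fderiv ℝ (kr ρ) (u - D.x a) v • D.y a ∂D.m with he
    have e1 : ‖e‖ * ‖e‖ = ∫ a, fderiv ℝ (kr ρ) (u - D.x a) v • ⟪e, D.y a⟫ ∂D.m := by
      rw [← real_inner_self_eq_norm_mul_norm]
      have := integral_inner (𝕜 := ℝ) i1 e
      simp only [inner_smul_right] at this
      exact this.symm
    have hf : ∀ y k : H, fderiv ℝ (fun y : H => ⟪e, y⟫) y k = ⟪e, k⟫ := fun y k => by
      have := (innerSL ℝ e).hasFDerivAt (x := y) |>.fderiv
      exact congrArg (fun L : H →L[ℝ] ℝ => L k) this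
    have e2 := core_avd h (by linarith) h0 hu (f := fun y => ⟪e, y⟫) (A := ‖e‖ * lam)
      (contDiff_const.inner ℝ contDiff_id) (hy.const_inner e) (by positivity)
      (Eventually.mono hs fun a ha => (abs_real_inner_le_norm _ _).trans
        (mul_le_mul_of_nonneg_left ha (norm_nonneg e))) (hsq.const_mul (3 * ‖e‖)) v
      (h.pw_av.mono fun a p => by
        rw [hf]
        refine (abs_real_inner_le_norm _ _).trans ?_
        have := mul_le_mul_of_nonneg_left (b_le_avd p (by linarith) v) (norm_nonneg e)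
        linarith)
    have e3 : D.av ρ (fun a => 3 * ‖e‖ * √(D.en a)) u =
        3 * ‖e‖ * D.av ρ (fun a => √(D.en a)) u := by
      unfold CD.av
      rw [← integral_const_mul]
      refine integral_congr_ae (Eventually.of_forall fun a => ?_)
      simp only [smul_eq_mul]
      ring
    rw [← e1, e3, ← hE1, Real.norm_of_nonneg (by positivity)] at e2
    have e4 : lam / ρ * E1 ≤ C * √E1 := (mul_le_of_le_one_left hE hl).trans a4
    have e5 : 3 * Ck d * (‖e‖ * lam) / ρ * E1 + 3 * ‖e‖ * D.av ρ (fun a => √(D.en a)) u ≤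
        ‖e‖ * ((3 * Ck d * C + 3 * C) * √E1) := by
      have h1 := mul_le_mul_of_nonneg_left e4 (by positivity : 0 ≤ 3 * Ck d * ‖e‖)
      have h2 := mul_le_mul_of_nonneg_left a1 (by positivity : 0 ≤ 3 * ‖e‖)
      have h3 : 3 * Ck d * (‖e‖ * lam) / ρ * E1 = 3 * Ck d * ‖e‖ * (lam / ρ * E1) := by ring
      rw [h3]
      linarith
    have e6 := e2.trans (mul_le_mul_of_nonneg_right e5 (norm_nonneg v))
    rcases (norm_nonneg e).eq_or_lt with h1 | h1
    · rw [← h1]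
      positivity
    · rw [mul_assoc] at e6
      exact le_of_mul_le_mul_left e6 h1
  refine (pow_le_pow_left₀ (norm_nonneg _) key 2).trans (le_of_eq ?_)
  rw [mul_pow, Real.sq_sqrt hE]

end Pool.Agent.Lib.MP_8daebb_an.GM
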