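import Pool.Agent.Lib.MP_8daebb_an.GM.Base1

/-! Multiplicity. -/

set_option linter.unusedSectionVars false
set_option linter.unusedVariables false

open MeasureTheory Metric Filter Topology Set
open scoped RealInnerProductSpace ENNReal ContDiff

namespace Pool.Agent.Lib.MP_8daebb_an.GM

open LG (vb chi om trS Sym)

variable {α : Type*} [MeasurableSpace α] {m : ℕ} {H : Type*} [NormedAddCommGroup H]
  [InnerProductSpace ℝ H] [FiniteDimensional ℝ H] [MeasurableSpace H] [BorelSpace H]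

theorem CV.integrable_j_base2 {D : CD m α H} {c : E m} {R δ M : ℝ} (h : CV D c R δ M) :
    Integrable D.j D.m := by
  refine h.integrable h.m_j.aestronglyMeasurable 2 fun a ha _ => ?_
  rw [Real.norm_eq_abs, abs_of_nonneg (h.pw a ha).j_nonneg]
  exact (h.pw a ha).j_le

theorem IsMult.meas_base2 {μ : Measure α} {x : α → E m} {j : α → ℝ} {N : E m → ℕ}
    (hN : IsMult μ x j N) : Measurable fun u => (N u : ℝ) :=
  (measurable_from_top (f := fun n : ℕ => (n : ℝ))).comp hN.1

theorem IsMult.meas'_base2 {μ : Measure α} {x : α → E m} {j : α → ℝ} {N : E m → ℕ}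
    (hN : IsMult μ x j N) : Measurable fun u => (N u : ℝ≥0∞) :=
  (measurable_from_top (f := fun n : ℕ => (n : ℝ≥0∞))).comp hN.1

theorem IsMult.integral_nonneg_base2 {D : CD m α H} {c : E m} {R δ M : ℝ} {N : E m → ℕ}
    (hN : IsMult D.m D.x D.j N) (h : CV D c R δ M) {f : E m → ℝ} (hf : Measurable f)
    (h0 : ∀ u, 0 ≤ f u) : ∫ a, f (D.x a) * D.j a ∂D.m = ∫ u, f u * (N u : ℝ) := by
  rw [integral_eq_lintegral_of_nonneg_ae, integral_eq_lintegral_of_nonneg_ae]
  · congr 1
    have h1 := hN.2 (fun u => ENNReal.ofReal (f u)) hf.ennreal_ofReal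
    calc ∫⁻ a, ENNReal.ofReal (f (D.x a) * D.j a) ∂D.m
        = ∫⁻ a, ENNReal.ofReal (f (D.x a)) * ENNReal.ofReal (D.j a) ∂D.m :=
          lintegral_congr fun a => ENNReal.ofReal_mul (h0 _)
      _ = ∫⁻ u, ENNReal.ofReal (f u) * (N u : ℝ≥0∞) := h1
      _ = ∫⁻ u, ENNReal.ofReal (f u * (N u : ℝ)) := by
          refine lintegral_congr fun u => ?_
          rw [ENNReal.ofReal_mul (h0 _), ENNReal.ofReal_natCast]
  · exact Eventually.of_forall fun u => mul_nonneg (h0 u) (Nat.cast_nonneg _)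
  · exact (hf.mul hN.meas_base2).aestronglyMeasurable
  · filter_upwards [h.ae_G] with a ha
    exact mul_nonneg (h0 _) (h.pw a ha).j_nonneg
  · exact ((hf.comp h.m_x).mul h.m_j).aestronglyMeasurable

theorem kr_zero_base2 {ρ : ℝ} (hρ : 0 < ρ) {u : E m} (hu : ρ ≤ ‖u‖) : kr ρ u = 0 := by
  have h1 : (ρ⁻¹ : ℝ) • u ∉ Function.support ((bump0 (d := m)).normed volume) := by
    rw [(bump0 (d := m)).support_normed_eq]
    have h2 : (bump0 (d := m)).rOut = 1 := rfl
    rw [h2, mem_ball_zero_iff, norm_smul, Real.norm_eq_abs, abs_of_pos (inv_pos.2 hρ), not_lt,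
      ← div_eq_inv_mul, one_le_div hρ]
    exact hu
  unfold kr
  rw [Function.notMem_support.1 h1, mul_zero]

theorem mem_cyl_base2 (D : CD m α H) (c : E m) (σ : ℝ) (a : α) :
    a ∈ D.cyl c σ ↔ D.x a ∈ ball c σ := by
  rw [mem_ball, dist_eq_norm]
  rfl

theorem IsMult.integrable {D : CD m α H} {c : E m} {R δ M : ℝ} {N : E m → ℕ}
    (hN : IsMult D.m D.x D.j N) (h : CV D c R δ M) : Integrable fun u => (N u : ℝ) := by
  refine ⟨hN.meas_base2.aestronglyMeasurable, ?_⟩
  have h1 := hN.2 (fun _ => 1) measurable_const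
  simp only [one_mul] at h1
  have h2 : ∫⁻ a, ENNReal.ofReal (D.j a) ∂D.m < ⊤ := h.integrable_j_base2.lintegral_lt_top
  rw [h1] at h2
  rw [hasFiniteIntegral_iff_ofReal (Eventually.of_forall fun u => Nat.cast_nonneg (N u))]
  simpa only [ENNReal.ofReal_natCast] using h2

theorem IsMult.integral {D : CD m α H} {c : E m} {R δ M : ℝ} {N : E m → ℕ}
    (hN : IsMult D.m D.x D.j N) (h : CV D c R δ M) {f : E m → ℝ} (hf : Measurable f) {B : ℝ}
    (hB : ∀ u, |f u| ≤ B) :
    Integrable (fun u => f u * (N u : ℝ)) ∧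
      ∫ a, f (D.x a) * D.j a ∂D.m = ∫ u, f u * (N u : ℝ) := by
  have hI := hN.integrable h
  have hj := h.integrable_j_base2
  have key : ∀ g : E m → ℝ, Measurable g → (∀ u, |g u| ≤ B) →
      Integrable (fun u => g u * (N u : ℝ)) ∧ Integrable (fun a => g (D.x a) * D.j a) D.m := by
    intro g hg hgB
    exact ⟨hI.bdd_mul hg.aestronglyMeasurable (Eventually.of_forall fun u => hgB u),
      hj.bdd_mul (hg.comp h.m_x).aestronglyMeasurable (Eventually.of_forall fun a => hgB _)⟩
  refine ⟨(key f hf hB).1, ?_⟩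
  have hp : Measurable fun u => max (f u) 0 := hf.max measurable_const
  have hm : Measurable fun u => max (-f u) 0 := hf.neg.max measurable_const
  have bp : ∀ u, |max (f u) 0| ≤ B := fun u => by
    rw [abs_of_nonneg (le_max_right _ _)]
    exact max_le ((le_abs_self _).trans (hB u)) ((abs_nonneg _).trans (hB u))
  have bm : ∀ u, |max (-f u) 0| ≤ B := fun u => by
    rw [abs_of_nonneg (le_max_right _ _)]
    exact max_le ((neg_le_abs _).trans (hB u)) ((abs_nonneg _).trans (hB u))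
  have e : ∀ u, f u = max (f u) 0 - max (-f u) 0 := fun u =>
    (max_zero_sub_max_neg_zero_eq_self _).symm
  have h1 := hN.integral_nonneg_base2 h hp fun u => le_max_right _ _
  have h2 := hN.integral_nonneg_base2 h hm fun u => le_max_right _ _
  calc ∫ a, f (D.x a) * D.j a ∂D.m
      = ∫ a, (max (f (D.x a)) 0 * D.j a - max (-f (D.x a)) 0 * D.j a) ∂D.m := by
        refine integral_congr_ae (Eventually.of_forall fun a => ?_)
        simp only
        rw [← sub_mul, ← e]
    _ = (∫ u, max (f u) 0 * (N u : ℝ)) - ∫ u, max (-f u) 0 * (N u : ℝ) := by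
        rw [integral_sub (key _ hp bp).2 (key _ hm bm).2, h1, h2]
    _ = ∫ u, f u * (N u : ℝ) := by
        rw [← integral_sub (key _ hp bp).1 (key _ hm bm).1]
        refine integral_congr_ae (Eventually.of_forall fun a => ?_)
        simp only
        rw [← sub_mul, ← e]

theorem IsMult.setIntegral {D : CD m α H} {c : E m} {R δ M : ℝ} {N : E m → ℕ}
    (hN : IsMult D.m D.x D.j N) (h : CV D c R δ M) {S : Set (E m)} (hS : MeasurableSet S) :
    ∫ a in D.x ⁻¹' S, D.j a ∂D.m = ∫ v in S, (N v : ℝ) := by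
  have hm : Measurable (S.indicator fun _ : E m => (1 : ℝ)) := measurable_const.indicator hS
  have h1 := hN.integral_nonneg_base2 h hm
    (fun v => indicator_nonneg (fun _ _ => zero_le_one) v)
  rw [← integral_indicator (h.m_x hS), ← integral_indicator hS]
  refine Eq.trans ?_ (h1.trans ?_)
  · refine integral_congr_ae (Eventually.of_forall fun a => ?_)
    by_cases ha : D.x a ∈ S
    · simp only [indicator_of_mem (show a ∈ D.x ⁻¹' S from ha), indicator_of_mem ha, one_mul]
    · simp only [indicator_of_notMem (show a ∉ D.x ⁻¹' S from ha), indicator_of_notMem ha,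
        zero_mul]
  · refine integral_congr_ae (Eventually.of_forall fun v => ?_)
    by_cases hv : v ∈ S
    · simp only [indicator_of_mem hv, one_mul]
    · simp only [indicator_of_notMem hv, zero_mul]

theorem IsMult.mass_near {D : CD m α H} {c : E m} {R δ M : ℝ} {N : E m → ℕ}
    (hN : IsMult D.m D.x D.j N) (h : CV D c R δ M) (u : E m) (σ : ℝ) :
    |D.Ms u σ - ∫ v in ball u σ, (N v : ℝ)| ≤ (m + 1) * D.T u σ + δ * D.J u σ := by
  have := h.fin
  obtain ⟨it, -, iy, -⟩ := h.integrable_t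
  have ij := h.integrable_j_base2
  have e1 : D.Ms u σ = ∫ _ in D.cyl u σ, (1 : ℝ) ∂D.m := by
    rw [setIntegral_const, smul_eq_mul, mul_one]
    rfl
  have i1 : Integrable (fun _ : α => (1 : ℝ)) D.m := integrable_const _
  rw [← hN.setIntegral h measurableSet_ball, ← cyl_eq, e1,
    ← integral_sub i1.integrableOn ij.integrableOn]
  unfold CD.T CD.J
  rw [← integral_const_mul, ← integral_const_mul,
    ← integral_add (it.const_mul _).integrableOn (iy.const_mul δ).integrableOn]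
  refine (abs_integral_le_integral_abs).trans ?_
  refine integral_mono_ae (i1.sub ij).abs.integrableOn
    ((it.const_mul _).add (iy.const_mul δ)).integrableOn ?_
  refine ae_restrict_of_ae ?_
  filter_upwards [h.ae_G] with a ha
  have p := h.pw a ha
  have h1 := abs_le.1 p.j_t
  have h2 := p.t_nonneg
  have h3 := p.t_le
  have h4 : D.t a ^ 2 ≤ m * D.t a := by nlinarith
  have h5 : 0 ≤ δ * ‖D.y a‖ ^ 2 := mul_nonneg h.δ_nonneg (sq_nonneg _)
  have h6 : 0 ≤ m * D.t a := mul_nonneg (Nat.cast_nonneg _) h2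
  rw [abs_le]
  constructor <;> nlinarith [h1.1, h1.2]

theorem CV.exists_mult {D : CD m α H} {c : E m} {R δ M : ℝ} (h : CV D c R δ M) :
    ∃ N, IsMult D.m D.x D.j N := by
  have h1 := h.area univ MeasurableSet.univ
  rwa [Measure.restrict_univ] at h1

theorem IsMult.ae_eq {D : CD m α H} {c : E m} {R δ M : ℝ} {N N' : E m → ℕ}
    (hN : IsMult D.m D.x D.j N) (hN' : IsMult D.m D.x D.j N') (h : CV D c R δ M) :
    ∀ᵐ u, N u = N' u := by
  have key : ∀ {N₀ : E m → ℕ}, IsMult D.m D.x D.j N₀ → ∀ S : Set (E m), MeasurableSet S →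
      ∫⁻ u in S, (N₀ u : ℝ≥0∞) = ∫⁻ a, S.indicator (fun _ => (1 : ℝ≥0∞)) (D.x a) *
        ENNReal.ofReal (D.j a) ∂D.m := by
    intro N₀ h₀ S hS
    rw [h₀.2 _ (measurable_const.indicator hS), ← lintegral_indicator hS]
    refine lintegral_congr fun u => ?_
    by_cases hu : u ∈ S
    · rw [indicator_of_mem hu, indicator_of_mem hu, one_mul]
    · rw [indicator_of_notMem hu, indicator_of_notMem hu, zero_mul]
  have h1 := ae_eq_of_forall_setLIntegral_eq_of_sigmaFinite (μ := (volume : Measure (E m)))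
    hN.meas'_base2 hN'.meas'_base2 fun S hS _ => by rw [key hN S hS, key hN' S hS]
  filter_upwards [h1] with u hu
  exact_mod_cast hu

theorem IsMult.add {D : CD m α H} {c : E m} {R δ M : ℝ} (h : CV D c R δ M) {Z Z' : Set α}
    (hZ : MeasurableSet Z) (hZ' : MeasurableSet Z') (hd : Disjoint Z Z')
    (hu : ∀ᵐ a ∂D.m, a ∈ Z ∪ Z') {N N' : E m → ℕ} (hN : IsMult (D.m.restrict Z) D.x D.j N)
    (hN' : IsMult (D.m.restrict Z') D.x D.j N') : IsMult D.m D.x D.j fun u => N u + N' u := by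
  refine ⟨hN.1.add hN'.1, fun f hf => ?_⟩
  have e : D.m = D.m.restrict Z + D.m.restrict Z' := by
    rw [← Measure.restrict_union hd hZ', Measure.restrict_eq_self_of_ae_mem hu]
  have hm : Measurable fun u => f u * (N u : ℝ≥0∞) := hf.mul hN.meas'_base2
  rw [e, lintegral_add_measure, hN.2 f hf, hN'.2 f hf, ← lintegral_add_left hm]
  refine lintegral_congr fun u => ?_
  rw [Nat.cast_add, mul_add]

theorem IsMult.le {D : CD m α H} {c : E m} {R δ M : ℝ} (h : CV D c R δ M) {Z : Set α}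
    (hZ : MeasurableSet Z) {N N' : E m → ℕ} (hN : IsMult D.m D.x D.j N)
    (hN' : IsMult (D.m.restrict Z) D.x D.j N') : ∀ᵐ u, N' u ≤ N u := by
  obtain ⟨N'', hN''⟩ := h.area Zᶜ hZ.compl
  have h1 := IsMult.add h hZ hZ.compl disjoint_compl_right
    (Eventually.of_forall fun a => by rw [union_compl_self]; exact mem_univ a) hN' hN''
  filter_upwards [hN.ae_eq h1 h] with u hu
  rw [hu]
  exact Nat.le_add_right _ _

theorem IsMult.resB {D : CD m α H} {N : E m → ℕ} (hN : IsMult D.m D.x D.j N)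
    (hx : Measurable D.x) (c : E m) (σ : ℝ) :
    IsMult (D.resB c σ).m D.x D.j ((ball c σ).indicator N) := by
  refine ⟨hN.1.indicator measurableSet_ball, fun f hf => ?_⟩
  have h2 := hN.2 ((ball c σ).indicator f) (hf.indicator measurableSet_ball)
  have hm : MeasurableSet (D.cyl c σ) := by
    rw [cyl_eq]
    exact hx measurableSet_ball
  change ∫⁻ a in D.cyl c σ, f (D.x a) * ENNReal.ofReal (D.j a) ∂D.m = _
  rw [← lintegral_indicator hm]
  convert h2 using 2
  · funext a
    by_cases ha : a ∈ D.cyl c σ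
    · rw [indicator_of_mem ha, indicator_of_mem ((mem_cyl_base2 D c σ a).1 ha)]
    · rw [indicator_of_notMem ha,
        indicator_of_notMem fun hb => ha ((mem_cyl_base2 D c σ a).2 hb), zero_mul]
  · funext v
    by_cases hv : v ∈ ball c σ
    · rw [indicator_of_mem hv, indicator_of_mem hv]
    · rw [indicator_of_notMem hv, indicator_of_notMem hv, zero_mul, Nat.cast_zero, mul_zero]

theorem MS.resB {D : CD m α H} {R δ M lam ρ CI : ℝ} {Q : ℕ} {N : E m → ℕ}
    (h : MS D R δ M lam ρ CI Q N) (hδ : δ ≤ 1 / 2) {R₁ : ℝ} (h0 : 0 < R₁) (h1 : R₁ ≤ R) :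
    MS (D.resB 0 R₁) R₁ δ M lam ρ CI Q ((ball (0 : E m) R₁).indicator N) := by
  have hρ := h.ρ_pos
  refine ⟨h.cv.resB hδ h0 (by simpa using h1), h.ht.res _, h.lam_pos, h.lam_le,
    ⟨h.mq.mult.resB h.cv.m_x 0 R₁, fun u σ hσ hu => ?_⟩, h.Q_pos⟩
  have h2 := h.mq.near u σ hσ (hu.trans h1)
  have hs : D.cyl u (8 * σ) ⊆ D.cyl 0 R₁ := cyl_sub D (by linarith)
  change _ ≤ CI * ∫ a in D.cyl u (8 * σ), D.t a ^ 2 ∂(D.m.restrict (D.cyl 0 R₁))
  rw [Measure.restrict_restrict_of_subset hs]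
  refine le_of_eq_of_le ?_ h2
  refine setIntegral_congr_fun measurableSet_ball fun v hv => ?_
  have hb : v ∈ ball (0 : E m) R₁ := by
    rw [mem_ball, dist_eq_norm] at hv ⊢
    have h4 : ‖v - 0‖ ≤ ‖v - u‖ + ‖u - 0‖ := norm_sub_le_norm_sub_add_norm_sub _ _ _
    linarith
  simp only [indicator_of_mem hb]

theorem av_resB {F : Type*} [NormedAddCommGroup F] [NormedSpace ℝ F] {D : CD m α H}
    (hx : Measurable D.x) {c u : E m} {R₁ ρ : ℝ} (hρ : 0 < ρ) (hu : ‖u - c‖ + ρ ≤ R₁)
    (f : α → F) : (D.resB c R₁).av ρ f u = D.av ρ f u := by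
  change ∫ a in D.cyl c R₁, kr ρ (u - D.x a) • f a ∂D.m = ∫ a, kr ρ (u - D.x a) • f a ∂D.m
  refine setIntegral_eq_integral_of_forall_compl_eq_zero fun a ha => ?_
  have h2 : ¬‖D.x a - c‖ < R₁ := ha
  have h3 : ‖D.x a - c‖ ≤ ‖D.x a - u‖ + ‖u - c‖ := norm_sub_le_norm_sub_add_norm_sub _ _ _
  have h4 : ρ ≤ ‖u - D.x a‖ := by
    rw [norm_sub_rev]
    linarith [not_lt.1 h2]
  rw [kr_zero_base2 hρ h4, zero_smul]

end Pool.Agent.Lib.MP_8daebb_an.GM
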