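import Pool.Agent.Lib.MP_8daebb_an.GM.Cyl
import Pool.Agent.Lib.MP_8daebb_an.GM.Base2

/-! Covering the points of large tilt. -/

set_option linter.unusedSectionVars false
set_option linter.unusedVariables false

open MeasureTheory Metric Filter Topology Set
open scoped RealInnerProductSpace ENNReal ContDiff

namespace Pool.Agent.Lib.MP_8daebb_an.GM

open LG (vb chi om trS Sym)

variable {α : Type*} [MeasurableSpace α] {m : ℕ} {H : Type*} [NormedAddCommGroup H]
  [InnerProductSpace ℝ H] [FiniteDimensional ℝ H] [MeasurableSpace H] [BorelSpace H]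

theorem vitali_meas {μ : Measure α} {x : α → E m} (hx : Measurable x) {F : E m → ℝ} {G : α → ℝ}
    {S W : Set (E m)} {T : Set α} {r₀ : ℝ} (hF0 : ∀ y, 0 ≤ F y) (hG0 : ∀ a, 0 ≤ G a)
    (hF : IntegrableOn F W) (hG : IntegrableOn G T μ)
    (h : ∀ v ∈ S, ∃ r, 0 < r ∧ r ≤ r₀ ∧ ball v (6 * r) ⊆ W ∧ x ⁻¹' ball v r ⊆ T ∧
      ∫ y in ball v (6 * r), F y ≤ ∫ a in x ⁻¹' ball v r, G a ∂μ) :
    ∃ B : Set (E m), MeasurableSet B ∧ S ⊆ B ∧ B ⊆ W ∧ ∫ y in B, F y ≤ ∫ a in T, G a ∂μ := by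
  classical
  choose! r hr0 hr1 hrW hrT hrI using h
  obtain ⟨u, huS, hud, hcov⟩ :=
    Vitali.exists_disjoint_subfamily_covering_enlargement_closedBall S (fun x => x) r r₀ hr1 5
      (by norm_num)
  have hud' : u.PairwiseDisjoint fun a => ball a (r a) :=
    hud.mono fun _ => ball_subset_closedBall
  have hud'' : u.PairwiseDisjoint fun a => x ⁻¹' ball a (r a) :=
    fun a ha b hb hab => (hud' ha hb hab).preimage x
  have huc : u.Countable :=
    hud'.countable_of_isOpen (fun _ _ => isOpen_ball) fun a ha => nonempty_ball.2 (hr0 a (huS ha))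
  have : Countable u := huc.to_subtype
  have hsub : S ⊆ ⋃ b : u, ball (b : E m) (6 * r b) := by
    intro a ha
    obtain ⟨b, hb, hab⟩ := hcov a ha
    refine mem_iUnion.2 ⟨⟨b, hb⟩, ?_⟩
    have h1 : a ∈ closedBall b (5 * r b) := hab (mem_closedBall_self (hr0 a ha).le)
    exact closedBall_subset_ball (by linarith [hr0 b (huS hb)]) h1
  have hBW : (⋃ b : u, ball (b : E m) (6 * r b)) ⊆ W :=
    iUnion_subset fun b => hrW b (huS b.2)
  refine ⟨⋃ b : u, ball (b : E m) (6 * r b), (isOpen_iUnion fun _ => isOpen_ball).measurableSet,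
    hsub, hBW, ?_⟩
  have key : ∫⁻ y in ⋃ b : u, ball (b : E m) (6 * r b), ENNReal.ofReal (F y) ≤
      ∫⁻ a in T, ENNReal.ofReal (G a) ∂μ := by
    calc ∫⁻ y in ⋃ b : u, ball (b : E m) (6 * r b), ENNReal.ofReal (F y)
        ≤ ∑' b : u, ∫⁻ y in ball (b : E m) (6 * r b), ENNReal.ofReal (F y) :=
          lintegral_iUnion_le _ _
      _ ≤ ∑' b : u, ∫⁻ a in x ⁻¹' ball (b : E m) (r b), ENNReal.ofReal (G a) ∂μ := by
          refine ENNReal.tsum_le_tsum fun b => ?_
          have hFi : IntegrableOn F (ball (b : E m) (6 * r b)) := hF.mono_set (hrW b (huS b.2))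
          have hGi : IntegrableOn G (x ⁻¹' ball (b : E m) (r b)) μ := hG.mono_set (hrT b (huS b.2))
          rw [← ofReal_integral_eq_lintegral_ofReal hFi (Eventually.of_forall hF0),
            ← ofReal_integral_eq_lintegral_ofReal hGi (Eventually.of_forall hG0)]
          exact ENNReal.ofReal_le_ofReal (hrI b (huS b.2))
      _ = ∫⁻ a in ⋃ b ∈ u, x ⁻¹' ball b (r b), ENNReal.ofReal (G a) ∂μ :=
          (lintegral_biUnion huc (fun _ _ => hx measurableSet_ball) hud'' _).symm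
      _ ≤ ∫⁻ a in T, ENNReal.ofReal (G a) ∂μ :=
          lintegral_mono_set (iUnion₂_subset fun b hb => hrT b (huS hb))
  rw [integral_eq_lintegral_of_nonneg_ae (Eventually.of_forall hF0)
      (hF.mono_set hBW).aestronglyMeasurable,
    integral_eq_lintegral_of_nonneg_ae (Eventually.of_forall hG0) hG.aestronglyMeasurable]
  refine ENNReal.toReal_mono ?_ key
  rw [← ofReal_integral_eq_lintegral_ofReal hG (Eventually.of_forall hG0)]
  exact ENNReal.ofReal_ne_top

theorem T_le_bc {D : CD m α H} {c : E m} {R δ M : ℝ} (h : CV D c R δ M) (v : E m) (r : ℝ)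
    {ε : ℝ} (hε : 0 < ε) :
    D.T v r ≤ ε * D.Ms v r + (∫ a in D.cyl v r, D.t a ^ 2 ∂D.m) / (4 * ε) := by
  have := h.fin
  have h2 : IntegrableOn (fun a => D.t a ^ 2) (D.cyl v r) D.m := h.integrable_t.2.1.integrableOn
  have h1 : D.T v r ≤ ∫ a in D.cyl v r, (ε + D.t a ^ 2 / (4 * ε)) ∂D.m := by
    refine integral_mono h.integrable_t.1.integrableOn
      ((integrable_const ε).add (h2.div_const _)) fun a => ?_
    have e : ε + D.t a ^ 2 / (4 * ε) - D.t a = (D.t a - 2 * ε) ^ 2 / (4 * ε) := by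
      field_simp; ring
    have : 0 ≤ (D.t a - 2 * ε) ^ 2 / (4 * ε) := by positivity
    show D.t a ≤ ε + D.t a ^ 2 / (4 * ε)
    linarith
  rw [integral_add (integrable_const ε) (h2.div_const _), integral_div, setIntegral_const,
    smul_eq_mul, mul_comm] at h1
  exact h1

theorem ballN_bc {D : CD m α H} {c : E m} {R δ M : ℝ} {N : E m → ℕ}
    (hN : IsMult D.m D.x D.j N) (h : CV D c R δ M) (v : E m) {r : ℝ} (hr : 0 < r) :
    ∫ y in ball v r, ((N y : ℝ) + 1) ≤ 2 * D.Ms v r + vb m * r ^ m := by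
  have := h.fin
  have : IsFiniteMeasure ((volume : Measure (E m)).restrict (ball v r)) :=
    ⟨by rw [Measure.restrict_apply_univ]; exact measure_ball_lt_top⟩
  have hj : Integrable D.j D.m := h.integrable h.m_j.aestronglyMeasurable 2 fun a ha _ => by
    rw [Real.norm_eq_abs, abs_of_nonneg (h.pw a ha).j_nonneg]; exact (h.pw a ha).j_le
  have h1 : ∫ a in D.cyl v r, D.j a ∂D.m ≤ ∫ _ in D.cyl v r, (2 : ℝ) ∂D.m := by
    refine integral_mono_ae hj.integrableOn (integrable_const _) (ae_restrict_of_ae ?_)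
    filter_upwards [h.ae_G] with a ha using (h.pw a ha).j_le
  rw [setIntegral_const, smul_eq_mul] at h1
  rw [integral_add (hN.integrable h).integrableOn (integrable_const _),
    ← hN.setIntegral h measurableSet_ball, ← cyl_eq, setIntegral_const, smul_eq_mul, mul_one,
    LG.vol_ball v hr]
  have e : D.Ms v r = D.m.real (D.cyl v r) := rfl
  linarith

theorem bad_cover (m : ℕ) (hm : 1 ≤ m) (M A : ℝ) :
    ∃ lam₀ : ℝ, 0 < lam₀ ∧ ∃ δ₀ : ℝ, 0 < δ₀ ∧
    ∃ C : ℝ, 0 < C ∧ ∀ (D : CD m α H) (c : E m) (R δ : ℝ), CV D c R δ M → δ ≤ δ₀ →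
    ∀ (N : E m → ℕ) (u : E m) (σ lam : ℝ),
    IsMult D.m D.x D.j N → 0 < σ → 0 < lam → lam ≤ lam₀ → ‖u - c‖ + 8 * σ ≤ R →
    D.T u (8 * σ) ≤ lam * σ ^ m / 10 ^ m → D.Ms u (8 * σ) ≤ A * σ ^ m →
    ∃ B : Set (E m), MeasurableSet B ∧
      (∀ v ∈ ball u σ, v ∉ B → ∀ r, 0 < r → r ≤ 4 * σ → D.T v r ≤ lam * r ^ m) ∧
      IntegrableOn (fun v => (N v : ℝ) + 1) B ∧
      ∫ v in B, ((N v : ℝ) + 1) ≤ C / lam ^ 2 * ∫ a in D.cyl u (8 * σ), D.t a ^ 2 ∂D.m := by
  obtain ⟨lam₀, hlam₀, δ₀, hδ₀, hmono⟩ :=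
    cyl_mono (α := α) (H := H) m hm (κ := 1 / 2) (by norm_num) le_rfl M A
  have hvb := LG.vb_pos m
  obtain ⟨K, hK⟩ : ∃ K : ℝ, K = 3 / 2 * |A| + 1 / 2 := ⟨_, rfl⟩
  have hK0 : 0 < K := by rw [hK]; positivity
  obtain ⟨P, hP⟩ : ∃ P : ℝ, P = 6 ^ m * K := ⟨_, rfl⟩
  have hP0 : 0 < P := by rw [hP]; positivity
  obtain ⟨Q, hQ⟩ : ∃ Q : ℝ, Q = 2 * P + vb m * 6 ^ m := ⟨_, rfl⟩
  have hQ0 : 0 < Q := by rw [hQ]; positivity
  refine ⟨lam₀, hlam₀, δ₀, hδ₀, Q * P, by positivity, ?_⟩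
  intro D c R δ h hδ N u σ lam hN hσ hlam hlam1 hR hT hA
  have := h.fin
  have : IsFiniteMeasure ((volume : Measure (E m)).restrict (ball u (2 * σ))) :=
    ⟨by rw [Measure.restrict_apply_univ]; exact measure_ball_lt_top⟩
  have hF : IntegrableOn (fun v => (N v : ℝ) + 1) (ball u (2 * σ)) :=
    (hN.integrable h).integrableOn.add (integrable_const _)
  have hC0 : 0 ≤ Q * P / lam ^ 2 := by positivity
  have hG : IntegrableOn (fun a => Q * P / lam ^ 2 * D.t a ^ 2)
      (D.cyl u (8 * σ)) D.m := (h.integrable_t.2.1.const_mul _).integrableOn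
  obtain ⟨B, hBm, hSB, hBW, hI⟩ := vitali_meas (μ := D.m) h.m_x
    (S := {v | v ∈ ball u σ ∧ ∃ r, 0 < r ∧ r ≤ 4 * σ ∧ lam * r ^ m < D.T v r}) (r₀ := σ)
    (fun y => by positivity) (fun a => by positivity) hF hG (by
      rintro v ⟨hv, r₁, hr₁⟩
      have hvu : ‖v - u‖ < σ := by rwa [mem_ball, dist_eq_norm] at hv
      set S : Set ℝ := {r | 0 < r ∧ r ≤ 4 * σ ∧ lam * r ^ m < D.T v r} with hS
      have hne : S.Nonempty := ⟨r₁, hr₁⟩
      have hbd : BddAbove S := ⟨4 * σ, fun r hr => hr.2.1⟩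
      have hs0 : 0 < sSup S := hr₁.1.trans_le (le_csSup hbd hr₁)
      obtain ⟨r, ⟨hr0, hr4, hrT⟩, hrs⟩ := exists_lt_of_lt_csSup hne (half_lt_self hs0)
      have hr10 : 10 * r < σ := by
        have h1 : D.T v r ≤ D.T u (8 * σ) := (h.cyl_mono (by linarith)).2.1
        have h3 : lam * r ^ m < lam * σ ^ m / 10 ^ m := by linarith
        rw [lt_div_iff₀ (by positivity)] at h3
        have h2 : lam * (10 * r) ^ m < lam * σ ^ m := by
          rw [mul_pow]; linarith
        exact lt_of_pow_lt_pow_left₀ m hσ.le (lt_of_mul_lt_mul_left h2 hlam.le)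
      have hgood : ∀ s, 6 * r ≤ s → s ≤ 4 * σ → D.T v s ≤ lam₀ * s ^ m := by
        intro s h6 h4
        have hs : 0 < s := by linarith
        have h1 : D.T v s ≤ lam * s ^ m := by
          by_contra hc
          have : s ≤ sSup S := le_csSup hbd ⟨hs, h4, not_le.1 hc⟩
          linarith
        exact h1.trans (mul_le_mul_of_nonneg_right hlam1 (by positivity))
      have hvc : ‖v - c‖ ≤ ‖v - u‖ + ‖u - c‖ := norm_sub_le_norm_sub_add_norm_sub _ _ _
      have hm' : ∀ s, s ≤ 4 * σ → D.Ms v s ≤ A * σ ^ m := fun s hs =>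
        (h.cyl_mono (by linarith)).1.trans hA
      have hc := hmono D c R δ h hδ v (6 * r) σ (by linarith) (by linarith) (by linarith) hgood
        (hm' _ le_rfl)
      have hm6 : D.Ms v (6 * r) ≤ P * r ^ m := by
        have h1 : (1 + 1 / 2) * D.Ms v ((1 + 1 / 2) * σ) / σ ^ m ≤ 3 / 2 * |A| := by
          rw [div_le_iff₀ (by positivity)]
          have h2 := hm' ((1 + 1 / 2) * σ) (by linarith)
          have h3 : A * σ ^ m ≤ |A| * σ ^ m :=
            mul_le_mul_of_nonneg_right (le_abs_self A) (by positivity)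
          linarith
        have h4 : D.Ms v (6 * r) / (6 * r) ^ m ≤ K := by rw [hK]; linarith
        rw [div_le_iff₀ (by positivity), mul_pow] at h4
        rw [hP]
        linarith
      have hm1 : D.Ms v r ≤ P * r ^ m :=
        (h.cyl_mono (by rw [sub_self, norm_zero]; linarith)).1.trans hm6
      refine ⟨r, hr0, by linarith, ?_, ?_, ?_⟩
      · refine ball_subset_ball' ?_
        rw [dist_eq_norm]; linarith
      · rw [← cyl_eq]
        exact cyl_sub D (by linarith)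
      · rw [← cyl_eq, integral_const_mul]
        set I := ∫ a in D.cyl v r, D.t a ^ 2 ∂D.m with hI
        have h1 := T_le_bc h v r (ε := lam / (2 * P)) (by positivity)
        rw [← hI] at h1
        have h2 : lam / (2 * P) * D.Ms v r ≤ lam * r ^ m / 2 := by
          calc lam / (2 * P) * D.Ms v r ≤ lam / (2 * P) * (P * r ^ m) :=
                mul_le_mul_of_nonneg_left hm1 (by positivity)
            _ = lam * r ^ m / 2 := by field_simp
        have h3 : I / (4 * (lam / (2 * P))) = P * I / 2 / lam := by field_simp; ring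
        have h4 : lam * r ^ m / 2 ≤ P * I / 2 / lam := by linarith
        rw [le_div_iff₀ hlam] at h4
        have h5 : r ^ m ≤ P / lam ^ 2 * I := by
          rw [div_mul_eq_mul_div, le_div_iff₀ (by positivity)]
          linarith
        have h6 := ballN_bc hN h v (r := 6 * r) (by linarith)
        rw [mul_pow] at h6
        calc ∫ y in ball v (6 * r), ((N y : ℝ) + 1) ≤ Q * r ^ m := by rw [hQ]; linarith
          _ ≤ Q * (P / lam ^ 2 * I) := mul_le_mul_of_nonneg_left h5 hQ0.le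
          _ = Q * P / lam ^ 2 * I := by ring)
  refine ⟨B, hBm, fun v hv hvB r hr0 hr4 => ?_, hF.mono_set hBW, ?_⟩
  · by_contra hc
    exact hvB (hSB ⟨hv, r, hr0, hr4, not_le.1 hc⟩)
  · rwa [integral_const_mul] at hI

end Pool.Agent.Lib.MP_8daebb_an.GM
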