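import Pool.Agent.Lib.MP_8daebb_an.GM.Df

/-! Basic facts. -/

set_option linter.unusedSectionVars false
set_option linter.unusedVariables false

open MeasureTheory Metric Filter Topology Set
open scoped RealInnerProductSpace ENNReal ContDiff

namespace Pool.Agent.Lib.MP_8daebb_an.GM

open LG (vb chi om trS Sym)

variable {α : Type*} [MeasurableSpace α] {m : ℕ} {H : Type*} [NormedAddCommGroup H]
  [InnerProductSpace ℝ H] [FiniteDimensional ℝ H] [MeasurableSpace H] [BorelSpace H]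

theorem Test.contDiff {c : E m} {R : ℝ} {φ : E m × H → ℝ} (h : Test c R φ) : ContDiff ℝ 1 φ := by
  obtain ⟨h1, R', hR, h2⟩ := h
  refine contDiff_iff_contDiffAt.2 fun u => ?_
  rcases lt_or_ge ‖u.1 - c‖ R with hu | hu
  · exact h1.contDiffAt ((isOpen_ball.prod isOpen_univ).mem_nhds
      ⟨mem_ball_iff_norm.2 hu, mem_univ _⟩)
  · have ho : IsOpen {v : E m × H | R' < ‖v.1 - c‖} := isOpen_lt continuous_const (by fun_prop)
    refine (contDiffAt_const (c := (0 : ℝ))).congr_of_eventuallyEq ?_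
    filter_upwards [ho.mem_nhds (hR.trans_le hu)] with v hv using h2 v (le_of_lt hv)

theorem CV.M_nonneg {D : CD m α H} {c : E m} {R δ M : ℝ} (h : CV D c R δ M) : 0 ≤ M := by
  have := le_trans measureReal_nonneg (h.ub 0 0 1 one_pos)
  simpa using this

theorem CV.meas_cyl {D : CD m α H} {c : E m} {R δ M : ℝ} (h : CV D c R δ M) (u : E m) (σ : ℝ) :
    MeasurableSet (D.cyl u σ) := by
  exact measurableSet_lt (h.m_x.sub_const u).norm measurable_const

theorem CV.meas_box {D : CD m α H} {c : E m} {R δ M : ℝ} (h : CV D c R δ M) (u : E m) (y₀ : H)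
    (σ η : ℝ) : MeasurableSet (D.box u y₀ σ η) := by
  exact (measurableSet_lt (h.m_x.sub_const u).norm measurable_const).inter
    (measurableSet_lt (h.m_y.sub_const y₀).norm measurable_const)

theorem CV.meas_pb {D : CD m α H} {c : E m} {R δ M : ℝ} (h : CV D c R δ M) (p : H) (σ : ℝ) :
    MeasurableSet (D.pb p σ) := by
  exact measurableSet_lt (h.m_pos.sub_const p).norm measurable_const

theorem CV.meas_z {D : CD m α H} {c : E m} {R δ M : ℝ} (h : CV D c R δ M) (e : H) :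
    Measurable (D.z e) ∧ Measurable D.en := by
  exact ⟨h.m_y.inner measurable_const, h.m_t.add (h.m_y.norm.pow_const 2)⟩

theorem CV.ae_pw {D : CD m α H} {c : E m} {R δ M : ℝ} (h : CV D c R δ M) :
    ∀ᵐ a ∂D.m, PW D δ a := by
  filter_upwards [h.ae_G] with a ha using h.pw a ha

theorem CV.ae_den {D : CD m α H} {c : E m} {R δ M : ℝ} (h : CV D c R δ M) :
    ∀ᵐ a ∂D.m, D.Den (2 / 5 * vb m) a := by
  exact h.ld

theorem CV.integrable {F : Type*} [NormedAddCommGroup F] {D : CD m α H} {c : E m} {R δ M : ℝ}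
    (h : CV D c R δ M) {f : α → F} (hf : AEStronglyMeasurable f D.m) (B : ℝ)
    (hB : ∀ a ∈ D.G, D.x a ∈ ball c R → ‖f a‖ ≤ B) : Integrable f D.m := by
  have := h.fin
  refine Integrable.of_bound hf B ?_
  filter_upwards [h.ae_G, h.car] with a h1 h2 using hB a h1 h2

theorem CV.integrable_t {D : CD m α H} {c : E m} {R δ M : ℝ} (h : CV D c R δ M) :
    Integrable D.t D.m ∧ Integrable (fun a => D.t a ^ 2) D.m ∧
      Integrable (fun a => ‖D.y a‖ ^ 2) D.m ∧ Integrable D.en D.m ∧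
      Integrable (fun a => √(D.en a)) D.m ∧ Integrable D.y D.m ∧
      Integrable (fun a => √(D.t a)) D.m := by
  have h1 : Integrable D.t D.m := h.integrable h.m_t.aestronglyMeasurable m fun a ha _ => by
    rw [Real.norm_of_nonneg (h.pw a ha).t_nonneg]
    exact (h.pw a ha).t_le
  have h2 : Integrable (fun a => ‖D.y a‖ ^ 2) D.m :=
    h.integrable (h.m_y.norm.pow_const 2).aestronglyMeasurable (2 ^ 2) fun a ha _ => by
      rw [Real.norm_of_nonneg (sq_nonneg _)]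
      exact pow_le_pow_left₀ (norm_nonneg _) (h.pw a ha).y_two 2
  have h3 : Measurable D.en := h.m_t.add (h.m_y.norm.pow_const 2)
  refine ⟨h1, ?_, h2, h1.add h2, ?_, ?_, ?_⟩
  · refine h.integrable (h.m_t.pow_const 2).aestronglyMeasurable (m ^ 2) fun a ha _ => ?_
    rw [Real.norm_of_nonneg (sq_nonneg _)]
    exact pow_le_pow_left₀ (h.pw a ha).t_nonneg (h.pw a ha).t_le 2
  · refine h.integrable h3.sqrt.aestronglyMeasurable √(m + 2 ^ 2) fun a ha _ => ?_
    rw [Real.norm_of_nonneg (Real.sqrt_nonneg _)]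
    exact Real.sqrt_le_sqrt (add_le_add (h.pw a ha).t_le
      (pow_le_pow_left₀ (norm_nonneg _) (h.pw a ha).y_two 2))
  · exact h.integrable h.m_y.aestronglyMeasurable 2 fun a ha _ => (h.pw a ha).y_two
  · refine h.integrable h.m_t.sqrt.aestronglyMeasurable √m fun a ha _ => ?_
    rw [Real.norm_of_nonneg (Real.sqrt_nonneg _)]
    exact Real.sqrt_le_sqrt (h.pw a ha).t_le

theorem CV.real_le {D : CD m α H} {c : E m} {R δ M : ℝ} (h : CV D c R δ M) {A B : Set α}
    (hAB : ∀ᵐ a ∂D.m, a ∈ A → a ∈ B) : D.m.real A ≤ D.m.real B := by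
  have := h.fin
  exact ENNReal.toReal_mono (measure_ne_top _ _) (measure_mono_ae hAB)

theorem CV.mass_le {D : CD m α H} {c : E m} {R δ M : ℝ} (h : CV D c R δ M) :
    D.m.real univ ≤ 3 ^ m * M := by
  have h1 : D.m.real univ ≤ D.m.real (D.box 0 0 3 3) := h.real_le (by
    filter_upwards [h.ae_G] with a ha _
    have h2 := (h.pw a ha).x_le
    have h3 := (h.pw a ha).y_two
    exact ⟨by rw [sub_zero]; linarith, by rw [sub_zero]; linarith⟩)
  have h2 := h.ub 0 0 3 (by norm_num)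
  linarith

theorem CV.cyl_le {D : CD m α H} {c : E m} {R δ M : ℝ} (h : CV D c R δ M) {u : E m} {σ : ℝ}
    (hσ : 0 < σ) (hy : ∀ᵐ a ∂D.m, a ∈ D.cyl u σ → ‖D.y a‖ < σ) : D.Ms u σ ≤ M * σ ^ m := by
  refine le_trans (h.real_le ?_) (h.ub u 0 σ hσ)
  filter_upwards [hy] with a ha h1
  exact ⟨h1, by rw [sub_zero]; exact ha h1⟩

theorem Ht.cyl_le {D : CD m α H} {c : E m} {R δ M lam : ℝ} (hs : Ht D lam) (h : CV D c R δ M)
    (u : E m) {σ : ℝ} (h0 : 0 < σ) (hσ : lam < σ) : D.Ms u σ ≤ M * σ ^ m := by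
  refine h.cyl_le h0 ?_
  filter_upwards [hs] with a ha _ using ha.trans_lt hσ

theorem Ht.mono {D : CD m α H} {lam lam' : ℝ} (hs : Ht D lam) (h : lam ≤ lam') : Ht D lam' := by
  filter_upwards [hs] with a ha using ha.trans h

theorem MS.mono {D : CD m α H} {R δ M lam ρ ρ' CI : ℝ} {Q : ℕ} {N : E m → ℕ}
    (h : MS D R δ M lam ρ CI Q N) (hρ : ρ ≤ ρ') : MS D R δ M lam ρ' CI Q N :=
  ⟨h.cv, h.ht, h.lam_pos, h.lam_le.trans hρ,
    ⟨h.mq.mult, fun u σ hσ hu => h.mq.near u σ (hρ.trans hσ) hu⟩, h.Q_pos⟩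

theorem MS.ρ_pos {D : CD m α H} {R δ M lam ρ CI : ℝ} {Q : ℕ} {N : E m → ℕ}
    (h : MS D R δ M lam ρ CI Q N) : 0 < ρ := by
  linarith [h.lam_pos, h.lam_le]

theorem CV.ae_met {D : CD m α H} {c : E m} {R δ M : ℝ} (h : CV D c R δ M) :
    ∀ᵐ a ∂D.m, PW D δ a ∧ D.x a ∈ ball c R ∧ |D.w (D.x a) - 1| ≤ δ ∧ ‖D.gm (D.x a) - 1‖ ≤ δ ∧
      ‖D.am (D.x a) - 1‖ ≤ δ := by
  filter_upwards [h.ae_pw, h.car] with a ha hx using ⟨ha, hx, h.met.one _ hx⟩

theorem cyl_sub (D : CD m α H) {u v : E m} {r s : ℝ} (h : ‖v - u‖ + r ≤ s) :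
    D.cyl v r ⊆ D.cyl u s := by
  intro a ha
  have h1 : ‖D.x a - v‖ < r := ha
  have h2 : ‖D.x a - u‖ ≤ ‖D.x a - v‖ + ‖v - u‖ := norm_sub_le_norm_sub_add_norm_sub _ _ _
  change ‖D.x a - u‖ < s
  linarith

theorem cyl_eq (D : CD m α H) (v : E m) (r : ℝ) : D.cyl v r = D.x ⁻¹' ball v r := by
  ext a
  exact mem_ball_iff_norm.symm

theorem CV.nonneg {D : CD m α H} {c : E m} {R δ M : ℝ} (h : CV D c R δ M) (u : E m) (s : ℝ) :
    0 ≤ D.Ms u s ∧ 0 ≤ D.T u s ∧ 0 ≤ D.J u s ∧ 0 ≤ D.En u s ∧ D.En u s = D.T u s + D.J u s ∧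
      D.J u s ≤ 4 * D.Ms u s ∧ D.T u s ≤ m * D.Ms u s ∧
      ∫ a in D.cyl u s, D.t a ^ 2 ∂D.m ≤ m * D.T u s := by
  have := h.fin
  obtain ⟨i1, i2, i3, i4, -, -, -⟩ := h.integrable_t
  have hp : ∀ᵐ a ∂D.m.restrict (D.cyl u s), PW D δ a := ae_restrict_of_ae h.ae_pw
  have hT : 0 ≤ D.T u s := integral_nonneg_of_ae (hp.mono fun a ha => ha.t_nonneg)
  have hJ : 0 ≤ D.J u s := integral_nonneg fun a => sq_nonneg _
  have hE : D.En u s = D.T u s + D.J u s := integral_add i1.integrableOn i3.integrableOn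
  have hc : ∀ k : ℝ, ∫ _a in D.cyl u s, k ∂D.m = k * D.Ms u s := fun k => by
    rw [setIntegral_const, smul_eq_mul, mul_comm]
    rfl
  refine ⟨measureReal_nonneg, hT, hJ, by linarith, hE, ?_, ?_, ?_⟩
  · rw [← hc]
    refine integral_mono_ae i3.integrableOn (integrable_const _) (hp.mono fun a ha => ?_)
    have := pow_le_pow_left₀ (norm_nonneg _) ha.y_two 2
    change ‖D.y a‖ ^ 2 ≤ 4
    linarith
  · rw [← hc]
    exact integral_mono_ae i1.integrableOn (integrable_const _) (hp.mono fun a ha => ha.t_le)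
  · rw [CD.T, ← integral_const_mul]
    refine integral_mono_ae i2.integrableOn (i1.const_mul _).integrableOn (hp.mono fun a ha => ?_)
    change D.t a ^ 2 ≤ m * D.t a
    rw [sq]
    exact mul_le_mul_of_nonneg_right ha.t_le ha.t_nonneg

theorem CV.cyl_mono {D : CD m α H} {c : E m} {R δ M : ℝ} (h : CV D c R δ M) {u v : E m} {r s : ℝ}
    (hs : ‖v - u‖ + r ≤ s) :
    D.Ms v r ≤ D.Ms u s ∧ D.T v r ≤ D.T u s ∧ D.J v r ≤ D.J u s ∧ D.En v r ≤ D.En u s := by
  obtain ⟨i1, -, i3, i4, -, -, -⟩ := h.integrable_t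
  have h1 := cyl_sub D hs
  have hp : ∀ᵐ a ∂D.m.restrict (D.cyl u s), PW D δ a := ae_restrict_of_ae h.ae_pw
  refine ⟨h.real_le (Eventually.of_forall fun a ha => h1 ha), ?_, ?_, ?_⟩
  · exact setIntegral_mono_set i1.integrableOn (hp.mono fun a ha => ha.t_nonneg) h1.eventuallyLE
  · exact setIntegral_mono_set i3.integrableOn (Eventually.of_forall fun a => sq_nonneg _)
      h1.eventuallyLE
  · exact setIntegral_mono_set i4.integrableOn
      (hp.mono fun a ha => add_nonneg ha.t_nonneg (sq_nonneg _)) h1.eventuallyLE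

/-- Cauchy-Schwarz for the square root of the tilt. -/
theorem CV.sqrt_t_le {D : CD m α H} {c : E m} {R δ M : ℝ} (h : CV D c R δ M) (Z : Set α) :
    ∫ a in Z, √(D.t a) ∂D.m ≤ √(D.m.real Z * ∫ a in Z, D.t a ∂D.m) := by
  have := h.fin
  obtain ⟨i1, -, -, -, -, -, i7⟩ := h.integrable_t
  have hp : ∀ᵐ a ∂D.m.restrict Z, PW D δ a := ae_restrict_of_ae h.ae_pw
  have key : ∀ l : ℝ, 0 ≤ D.m.real Z * (l * l) + (-2 * ∫ a in Z, √(D.t a) ∂D.m) * l +
      ∫ a in Z, D.t a ∂D.m := fun l => by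
    have j1 : Integrable (fun _ : α => l * l) (D.m.restrict Z) := integrable_const _
    have j2 : Integrable (fun a => (-2 * l) * √(D.t a)) (D.m.restrict Z) :=
      (i7.const_mul _).integrableOn
    have j3 : Integrable (fun a => l * l + (-2 * l) * √(D.t a)) (D.m.restrict Z) := j1.add j2
    have e : ∫ a in Z, (l * l + (-2 * l) * √(D.t a)) + D.t a ∂D.m =
        D.m.real Z * (l * l) + (-2 * ∫ a in Z, √(D.t a) ∂D.m) * l + ∫ a in Z, D.t a ∂D.m := by
      rw [integral_add j3 i1.integrableOn, integral_add j1 j2, setIntegral_const,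
        integral_const_mul, smul_eq_mul]
      ring
    rw [← e]
    refine integral_nonneg_of_ae (hp.mono fun a ha => ?_)
    have h1 := Real.sq_sqrt ha.t_nonneg
    change 0 ≤ (l * l + (-2 * l) * √(D.t a)) + D.t a
    nlinarith [sq_nonneg (√(D.t a) - l)]
  have h2 := discrim_le_zero key
  rw [discrim] at h2
  refine Real.le_sqrt_of_sq_le ?_
  nlinarith

end Pool.Agent.Lib.MP_8daebb_an.GM
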