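import Pool.Agent.Lib.MP_8daebb_an.GM.Base

/-! Restrictions. -/

set_option linter.unusedSectionVars false
set_option linter.unusedVariables false

open MeasureTheory Metric Filter Topology Set
open scoped RealInnerProductSpace ENNReal ContDiff

namespace Pool.Agent.Lib.MP_8daebb_an.GM

open LG (vb chi om trS Sym)

variable {α : Type*} [MeasurableSpace α] {m : ℕ} {H : Type*} [NormedAddCommGroup H]
  [InnerProductSpace ℝ H] [FiniteDimensional ℝ H] [MeasurableSpace H] [BorelSpace H]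

theorem CV.geo1 {D : CD m α H} {c : E m} {R δ M : ℝ} (h : CV D c R δ M) (hδ : δ ≤ 1 / 2)
    {a a' : α} (ha : a ∈ D.G) (ha' : a' ∈ D.G) :
    ‖D.x a' - D.x a‖ ≤ 2 * ‖D.pos a' - D.pos a‖ ∧ ‖D.y a' - D.y a‖ ≤ ‖D.pos a' - D.pos a‖ := by
  have h1 := (abs_le.1 (h.geo a' ha' a ha)).1
  have hx := sq_nonneg ‖D.x a' - D.x a‖
  have hy := sq_nonneg ‖D.y a' - D.y a‖
  have hp := norm_nonneg (D.pos a' - D.pos a)
  have h2 : δ * ‖D.x a' - D.x a‖ ^ 2 ≤ 1 / 2 * ‖D.x a' - D.x a‖ ^ 2 :=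
    mul_le_mul_of_nonneg_right hδ hx
  constructor
  · refine abs_le_of_sq_le_sq' ?_ (by positivity) |>.2
    nlinarith [sq_nonneg ‖D.pos a' - D.pos a‖]
  · refine abs_le_of_sq_le_sq' ?_ hp |>.2
    nlinarith

theorem CV.den_res {D : CD m α H} {c : E m} {R δ M : ℝ} (h : CV D c R δ M) {Z : Set α}
    (hZ : MeasurableSet Z) {a : α} {r : ℝ} (hr : 0 < r)
    (hin : ∀ᵐ a' ∂D.m, ‖D.pos a' - D.pos a‖ < r → a' ∈ Z) (ϑ : ℝ) :
    (D.res Z).Den ϑ a ↔ D.Den ϑ a := by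
  unfold CD.Den
  refine frequently_congr ?_
  have hev : ∀ᶠ σ in 𝓝[>] (0 : ℝ), σ < r := nhdsWithin_le_nhds (Iio_mem_nhds hr)
  filter_upwards [hev] with σ hσ
  have e : (D.res Z).m.real ((D.res Z).pb ((D.res Z).pos a) σ) = D.m.real (D.pb (D.pos a) σ) := by
    change (D.m.restrict Z).real (D.pb (D.pos a) σ) = _
    rw [measureReal_def, measureReal_def, Measure.restrict_apply' hZ]
    congr 1
    refine measure_congr ?_
    filter_upwards [hin] with a' ha'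
    refine propext ⟨fun hh => hh.1, fun hh => ⟨hh, ha' (lt_trans hh hσ)⟩⟩
  rw [e]

/-- Test functions for the restricted data come from test functions for the original data. -/
def CutBase1 (D : CD m α H) (Z : Set α) (c : E m) (R : ℝ) (c' : E m) (σ : ℝ) : Prop :=
  ∀ φ : E m × H → ℝ, Test c' σ φ → ∃ φ' : E m × H → ℝ, Test c R φ' ∧ ∀ᵐ a ∂D.m,
    (a ∈ Z → φ' =ᶠ[𝓝 (D.x a, D.y a)] φ) ∧ (a ∉ Z → φ' =ᶠ[𝓝 (D.x a, D.y a)] fun _ => 0)

theorem res_res_base1 (D : CD m α H) (Z : Set α) {Z' : Set α} (hZ' : MeasurableSet Z') :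
    (D.res Z).res Z' = D.res (Z' ∩ Z) := by
  change ({ D with m := (D.m.restrict Z).restrict Z' } : CD m α H) =
    { D with m := D.m.restrict (Z' ∩ Z) }
  rw [Measure.restrict_restrict hZ']

theorem CV.res_gen_base1 {D : CD m α H} {c : E m} {R δ M : ℝ} (h : CV D c R δ M) {Z : Set α}
    (hZ : MeasurableSet Z) {c' : E m} {σ : ℝ} (hσ : 0 < σ) (hσ2 : σ ≤ 2)
    (hsub : ball c' σ ⊆ ball c R) (hcar : ∀ᵐ a ∂D.m, a ∈ Z → D.x a ∈ ball c' σ)
    (htest : CutBase1 D Z c R c' σ)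
    (hden : ∀ a ∈ D.G, a ∈ Z → ∃ r > 0, ∀ a' ∈ D.G, ‖D.pos a' - D.pos a‖ < r → a' ∈ Z) :
    CV (D.res Z) c' σ δ M := by
  haveI := h.fin
  refine
    { d_pos := h.d_pos
      fin := inferInstanceAs (IsFiniteMeasure (D.m.restrict Z))
      m_x := h.m_x, m_y := h.m_y, m_pos := h.m_pos, m_Pl := h.m_Pl, m_t := h.m_t, m_j := h.m_j
      m_τ := h.m_τ, m_b := h.m_b, m_eh := h.m_eh, m_T0 := h.m_T0, m_q := h.m_q, m_g := h.m_g
      m_L := h.m_L, m_gm := h.m_gm, m_am := h.m_am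
      m_w := h.m_w, R_pos := hσ, R_le := hσ2, δ_nonneg := h.δ_nonneg
      car := (ae_restrict_iff' hZ).2 hcar
      ae_G := ae_restrict_of_ae h.ae_G
      pw := fun a ha => { h.pw a ha with }
      geo := h.geo
      met := ⟨h.met.w_diff.mono hsub, h.met.am_diff.mono hsub, fun u hu => h.met.one u (hsub hu),
        fun u hu => h.met.w_le u (hsub hu), fun u hu => h.met.gm_le u (hsub hu),
        fun u hu => h.met.am_le u (hsub hu), fun u hu => h.met.gm_symm u (hsub hu),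
        fun u hu => h.met.am_symm u (hsub hu), fun u hu => h.met.am_gm u (hsub hu),
        fun u hu => h.met.div_am u (hsub hu)⟩
      hor := ?_, ver := ?_, amb := ?_, area := ?_, ld := ?_, ub := ?_ }
  · intro φ hφ v
    obtain ⟨φ', hφ', hae⟩ := htest φ hφ
    change ∫ a in Z, (fderiv ℝ φ (D.x a, D.y a) (v - D.τ a v, D.b a v) +
      φ (D.x a, D.y a) * ⟪D.eh a, v⟫) ∂D.m = 0
    rw [← integral_indicator hZ, ← h.hor φ' hφ' v]
    refine integral_congr_ae ?_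
    filter_upwards [hae] with a ha
    by_cases hz : a ∈ Z
    · rw [indicator_of_mem hz, (ha.1 hz).fderiv_eq, (ha.1 hz).eq_of_nhds]
    · rw [indicator_of_notMem hz, (ha.2 hz).fderiv_eq, (ha.2 hz).eq_of_nhds]
      simp
  · intro φ hφ e
    obtain ⟨φ', hφ', hae⟩ := htest φ hφ
    change ∫ a in Z, (fderiv ℝ φ (D.x a, D.y a) (D.q a e, D.g a e) +
      φ (D.x a, D.y a) * ⟪D.L a, e⟫) ∂D.m = 0
    rw [← integral_indicator hZ, ← h.ver φ' hφ' e]
    refine integral_congr_ae ?_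
    filter_upwards [hae] with a ha
    by_cases hz : a ∈ Z
    · rw [indicator_of_mem hz, (ha.1 hz).fderiv_eq, (ha.1 hz).eq_of_nhds]
    · rw [indicator_of_notMem hz, (ha.2 hz).fderiv_eq, (ha.2 hz).eq_of_nhds]
      simp
  · intro φ hφ X hX hX0
    obtain ⟨φ', hφ', hae⟩ := htest φ hφ
    have hX1 : ∀ᵐ a ∂D.m, a ∈ Z → X (D.pos a) ≠ 0 → fderiv ℝ φ (D.x a, D.y a) = 0 :=
      (ae_restrict_iff' hZ).1 hX0
    have hX2 : ∀ᵐ a ∂D.m, X (D.pos a) ≠ 0 → fderiv ℝ φ' (D.x a, D.y a) = 0 := by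
      filter_upwards [hae, hX1] with a ha ha1 hne
      by_cases hz : a ∈ Z
      · rw [(ha.1 hz).fderiv_eq]
        exact ha1 hz hne
      · rw [(ha.2 hz).fderiv_eq]
        simp
    change ∫ a in Z, φ (D.x a, D.y a) * D.w (D.x a) * tanDiv X (D.pos a, D.Pl a) ∂D.m = 0
    rw [← integral_indicator hZ, ← h.amb φ' hφ' X hX hX2]
    refine integral_congr_ae ?_
    filter_upwards [hae] with a ha
    by_cases hz : a ∈ Z
    · rw [indicator_of_mem hz, (ha.1 hz).eq_of_nhds]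
    · rw [indicator_of_notMem hz, (ha.2 hz).eq_of_nhds]
      simp
  · intro Z' hZ'
    obtain ⟨N, hN⟩ := h.area (Z' ∩ Z) (hZ'.inter hZ)
    refine ⟨N, ?_⟩
    change IsMult ((D.m.restrict Z).restrict Z') D.x D.j N
    rw [Measure.restrict_restrict hZ']
    exact hN
  · refine (ae_restrict_iff' hZ).2 ?_
    filter_upwards [h.ae_G, h.ld] with a ha hl hz
    obtain ⟨r, hr, hin⟩ := hden a ha hz
    refine (h.den_res hZ hr ?_ _).2 hl
    filter_upwards [h.ae_G] with a' ha' using hin a' ha'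
  · intro u y₀ σ' hσ'
    refine le_trans ?_ (h.ub u y₀ σ' hσ')
    change (D.m.restrict Z).real (D.box u y₀ σ' σ') ≤ _
    exact ENNReal.toReal_mono (measure_ne_top _ _) (Measure.restrict_apply_le _ _)

theorem cut_cyl_base1 (D : CD m α H) {c c' : E m} {R σ : ℝ} (hc : ‖c' - c‖ + σ ≤ R) :
    CutBase1 D (D.cyl c' σ) c R c' σ := by
  intro φ hφ
  have hsm := hφ.contDiff
  obtain ⟨R', hR', hz⟩ := hφ.2
  refine ⟨φ, ⟨hsm.contDiffOn, ‖c' - c‖ + R', by linarith, fun u hu => hz u ?_⟩,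
    Eventually.of_forall fun a => ⟨fun _ => EventuallyEq.rfl, fun ha => ?_⟩⟩
  · have h2 : ‖u.1 - c‖ ≤ ‖u.1 - c'‖ + ‖c' - c‖ := norm_sub_le_norm_sub_add_norm_sub _ _ _
    linarith
  · have ha' : σ ≤ ‖D.x a - c'‖ := not_lt.1 ha
    have hc : Continuous fun u : E m × H => ‖u.1 - c'‖ := by fun_prop
    have hev : ∀ᶠ u in 𝓝 (D.x a, D.y a), R' < ‖u.1 - c'‖ :=
      hc.continuousAt.eventually (lt_mem_nhds (lt_of_lt_of_le hR' ha'))
    filter_upwards [hev] with u hu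
    exact hz u hu.le

theorem cut_step_base1 (D : CD m α H) (c : E m) (R : ℝ) (e : H) {Z : Set α} {ψ : ℝ → ℝ}
    (hψ : ContDiff ℝ 1 ψ)
    (hloc : ∀ᵐ a ∂D.m, (a ∈ Z → ψ =ᶠ[𝓝 (D.z e a)] fun _ => 1) ∧
      (a ∉ Z → ψ =ᶠ[𝓝 (D.z e a)] fun _ => 0)) : CutBase1 D Z c R c R := by
  have hp : ContDiff ℝ 1 fun u : E m × H => ⟪u.2, e⟫ := contDiff_snd.inner ℝ contDiff_const
  intro φ hφ
  obtain ⟨R', hR', hz0⟩ := hφ.2
  refine ⟨fun u => ψ ⟪u.2, e⟫ * φ u, ⟨(hψ.comp hp).contDiffOn.mul hφ.1, R', hR', fun u hu => ?_⟩,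
    ?_⟩
  · simp [hz0 u hu]
  · filter_upwards [hloc] with a ha
    have ht : Tendsto (fun u : E m × H => ⟪u.2, e⟫) (𝓝 (D.x a, D.y a)) (𝓝 (D.z e a)) :=
      hp.continuous.continuousAt
    obtain ⟨l1, l0⟩ := ha
    refine ⟨fun hm => ?_, fun hm => ?_⟩
    · filter_upwards [ht.eventually (l1 hm)] with u hu
      rw [hu, one_mul]
    · filter_upwards [ht.eventually (l0 hm)] with u hu
      rw [hu, zero_mul]

theorem CV.cyl_loc_base1 {D : CD m α H} {c : E m} {R δ M : ℝ} (h : CV D c R δ M) (hδ : δ ≤ 1 / 2)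
    {c' : E m} {σ : ℝ} {a : α} (ha : a ∈ D.G) (hx : a ∈ D.cyl c' σ) :
    ∃ r > 0, ∀ a' ∈ D.G, ‖D.pos a' - D.pos a‖ < r → a' ∈ D.cyl c' σ := by
  have hx' : ‖D.x a - c'‖ < σ := hx
  refine ⟨(σ - ‖D.x a - c'‖) / 2, by linarith, fun a' ha' hp => ?_⟩
  have h1 := (h.geo1 hδ ha ha').1
  have h2 : ‖D.x a' - c'‖ ≤ ‖D.x a' - D.x a‖ + ‖D.x a - c'‖ := norm_sub_le_norm_sub_add_norm_sub _ _ _
  change ‖D.x a' - c'‖ < σ
  linarith

theorem CV.resB {D : CD m α H} {c : E m} {R δ M : ℝ} (h : CV D c R δ M) (hδ : δ ≤ 1 / 2)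
    {c' : E m} {σ : ℝ} (hσ : 0 < σ) (hc : ‖c' - c‖ + σ ≤ R) : CV (D.resB c' σ) c' σ δ M := by
  refine h.res_gen_base1 (h.meas_cyl c' σ) hσ ?_ ?_ ?_ (cut_cyl_base1 D hc)
    fun a ha hx => h.cyl_loc_base1 hδ ha hx
  · linarith [h.R_le, norm_nonneg (c' - c)]
  · exact ball_subset_ball' (by rw [dist_eq_norm]; linarith)
  · exact Eventually.of_forall fun a ha => mem_ball_iff_norm.2 ha

theorem CV.den_resB {D : CD m α H} {c : E m} {R δ M : ℝ} (h : CV D c R δ M) (hδ : δ ≤ 1 / 2)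
    {c' : E m} {σ : ℝ} {a : α} (ha : a ∈ D.G) (hx : a ∈ D.cyl c' σ) (ϑ : ℝ) :
    (D.resB c' σ).Den ϑ a ↔ D.Den ϑ a := by
  obtain ⟨r, hr, hin⟩ := h.cyl_loc_base1 hδ ha hx
  refine h.den_res (h.meas_cyl c' σ) hr ?_ ϑ
  filter_upwards [h.ae_G] with a' ha' using hin a' ha'

theorem resB_resB {D : CD m α H} (hx : Measurable D.x) {σ σ' : ℝ} (h : σ' ≤ σ) (c : E m) :
    (D.resB c σ).resB c σ' = D.resB c σ' := by
  have hm : MeasurableSet (D.cyl c σ') :=
    measurableSet_lt (hx.sub_const c).norm measurable_const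
  have e : (D.m.restrict (D.cyl c σ)).restrict (D.cyl c σ') = D.m.restrict (D.cyl c σ') := by
    rw [Measure.restrict_restrict hm, inter_eq_left.2]
    intro a ha
    exact lt_of_lt_of_le ha h
  change ({ D with m := (D.m.restrict (D.cyl c σ)).restrict (D.cyl c σ') } : CD m α H) =
    { D with m := D.m.restrict (D.cyl c σ') }
  rw [e]

theorem CV.resB_self {D : CD m α H} {c : E m} {R δ M : ℝ} (h : CV D c R δ M) :
    D.resB c R = D := by
  have e : D.m.restrict (D.cyl c R) = D.m := by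
    refine Measure.restrict_eq_self_of_ae_mem ?_
    filter_upwards [h.car] with a ha
    exact mem_ball_iff_norm.1 ha
  change ({ D with m := D.m.restrict (D.cyl c R) } : CD m α H) = D
  rw [e]

theorem resB_eq {D : CD m α H} (hx : Measurable D.x) {c u : E m} {σ r : ℝ}
    (h : ‖u - c‖ + r ≤ σ) :
    (D.resB c σ).m.restrict (D.cyl u r) = D.m.restrict (D.cyl u r) ∧
      (D.resB c σ).Ms u r = D.Ms u r ∧ (D.resB c σ).T u r = D.T u r ∧
      (D.resB c σ).J u r = D.J u r ∧ (D.resB c σ).En u r = D.En u r := by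
  have hm : MeasurableSet (D.cyl u r) :=
    measurableSet_lt (hx.sub_const u).norm measurable_const
  have hs : D.cyl u r ∩ D.cyl c σ = D.cyl u r := inter_eq_left.2 (cyl_sub D h)
  have e : (D.m.restrict (D.cyl c σ)).restrict (D.cyl u r) = D.m.restrict (D.cyl u r) := by
    rw [Measure.restrict_restrict hm, hs]
  refine ⟨e, ?_, ?_, ?_, ?_⟩
  · change (D.m.restrict (D.cyl c σ)).real (D.cyl u r) = D.m.real (D.cyl u r)
    rw [measureReal_def, measureReal_def, Measure.restrict_apply hm, hs]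
  · change ∫ a, D.t a ∂((D.m.restrict (D.cyl c σ)).restrict (D.cyl u r)) =
      ∫ a, D.t a ∂(D.m.restrict (D.cyl u r))
    rw [e]
  · change ∫ a, ‖D.y a‖ ^ 2 ∂((D.m.restrict (D.cyl c σ)).restrict (D.cyl u r)) =
      ∫ a, ‖D.y a‖ ^ 2 ∂(D.m.restrict (D.cyl u r))
    rw [e]
  · change ∫ a, D.en a ∂((D.m.restrict (D.cyl c σ)).restrict (D.cyl u r)) =
      ∫ a, D.en a ∂(D.m.restrict (D.cyl u r))
    rw [e]

theorem slab_cut_base1 (h₁ h₂ : ℝ) {η : ℝ} (hη : 0 < η) : ∃ ψ : ℝ → ℝ, ContDiff ℝ 1 ψ ∧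
    ∀ s : ℝ, η ≤ |s - h₁| → η ≤ |s - h₂| →
      (h₁ < s ∧ s < h₂ → ψ =ᶠ[𝓝 s] fun _ => 1) ∧ (¬(h₁ < s ∧ s < h₂) → ψ =ᶠ[𝓝 s] fun _ => 0) := by
  refine ⟨fun s => Real.smoothTransition ((s - (h₁ - η / 2)) / η) *
    Real.smoothTransition ((h₂ + η / 2 - s) / η), ?_, fun s hs1 hs2 => ⟨fun hs => ?_, fun hs => ?_⟩⟩
  · refine ContDiff.mul (Real.smoothTransition.contDiff.comp ?_)
      (Real.smoothTransition.contDiff.comp ?_)
    · exact (contDiff_id.sub contDiff_const).div_const _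
    · exact (contDiff_const.sub contDiff_id).div_const _
  · rw [abs_of_pos (by linarith [hs.1])] at hs1
    rw [abs_of_neg (by linarith [hs.2])] at hs2
    have e1 : ∀ᶠ r in 𝓝 s, h₁ + η / 2 < r := lt_mem_nhds (by linarith)
    have e2 : ∀ᶠ r in 𝓝 s, r < h₂ - η / 2 := gt_mem_nhds (by linarith)
    filter_upwards [e1, e2] with r hr1 hr2
    rw [Real.smoothTransition.one_of_one_le, Real.smoothTransition.one_of_one_le, mul_one]
    · rw [le_div_iff₀ hη]
      linarith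
    · rw [le_div_iff₀ hη]
      linarith
  · rw [not_and_or, not_lt, not_lt] at hs
    rcases hs with hs | hs
    · rw [abs_of_nonpos (by linarith)] at hs1
      have e1 : ∀ᶠ r in 𝓝 s, r < h₁ - η / 2 := gt_mem_nhds (by linarith)
      filter_upwards [e1] with r hr
      rw [Real.smoothTransition.zero_of_nonpos (x := (r - (h₁ - η / 2)) / η), zero_mul]
      exact div_nonpos_of_nonpos_of_nonneg (by linarith) hη.le
    · rw [abs_of_nonneg (by linarith)] at hs2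
      have e1 : ∀ᶠ r in 𝓝 s, h₂ + η / 2 < r := lt_mem_nhds (by linarith)
      filter_upwards [e1] with r hr
      rw [Real.smoothTransition.zero_of_nonpos (x := (h₂ + η / 2 - r) / η), mul_zero]
      exact div_nonpos_of_nonpos_of_nonneg (by linarith) hη.le

theorem CV.res_slab {D : CD m α H} {c : E m} {R δ M : ℝ} (h : CV D c R δ M) (hδ : δ ≤ 1 / 2)
    {e : H} (he : ‖e‖ = 1) {h₁ h₂ η : ℝ} (hη : 0 < η)
    (h0 : ∀ᵐ a ∂D.m, η ≤ |D.z e a - h₁| ∧ η ≤ |D.z e a - h₂|) :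
    CV (D.res {a | h₁ < D.z e a ∧ D.z e a < h₂}) c R δ M := by
  have hz : Measurable (D.z e) := (h.meas_z e).1
  have hZ : MeasurableSet {a | h₁ < D.z e a ∧ D.z e a < h₂} :=
    (measurableSet_lt measurable_const hz).inter (measurableSet_lt hz measurable_const)
  obtain ⟨ψ, hψ, hloc⟩ := slab_cut_base1 h₁ h₂ hη
  refine h.res_gen_base1 hZ h.R_pos h.R_le Subset.rfl ?_ (cut_step_base1 D c R e hψ ?_) ?_
  · filter_upwards [h.car] with a ha _
    exact ha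
  · filter_upwards [h0] with a ha
    exact hloc (D.z e a) ha.1 ha.2
  · intro a ha hm
    obtain ⟨hm1, hm2⟩ := hm
    refine ⟨min (D.z e a - h₁) (h₂ - D.z e a), lt_min (by linarith) (by linarith),
      fun a' ha' hp' => ?_⟩
    have h1 := (h.geo1 hδ ha ha').2
    have h2 : |D.z e a' - D.z e a| ≤ ‖D.y a' - D.y a‖ := by
      have := abs_real_inner_le_norm (D.y a' - D.y a) e
      rw [he, mul_one, inner_sub_left] at this
      exact this
    have h3 := min_le_left (D.z e a - h₁) (h₂ - D.z e a)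
    have h4 := min_le_right (D.z e a - h₁) (h₂ - D.z e a)
    have h5 := abs_le.1 h2
    exact ⟨by linarith [h5.1], by linarith [h5.2]⟩

theorem Ht.res {D : CD m α H} {lam : ℝ} (hs : Ht D lam) (Z : Set α) : Ht (D.res Z) lam :=
  ae_restrict_of_ae hs

end Pool.Agent.Lib.MP_8daebb_an.GM
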