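import Pool.Agent.Lib.MP_8daebb_an.GM.EV
import Pool.Agent.Lib.MP_8daebb_an.AS.LDef

/-! The coarse-grained functions of a chart varifold, as an abstract global setting. -/

open MeasureTheory Metric Set Module
open scoped RealInnerProductSpace

namespace Pool.Agent.Lib.MP_8daebb_an.GM

/-- Averages of the excess, the tilt tensors, the tilt and the squared height; the error, the
potentials and the metric. -/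
structure GD (d : ℕ) (ι : Type*) where
  ε : E d → ℝ
  τ : E d → E d →L[ℝ] E d
  T0 : E d → E d →L[ℝ] E d
  t : E d → ℝ
  cc : E d → ℝ
  ee : E d → ℝ
  U : ι → ℕ → E d → ℝ
  gm : E d → E d →L[ℝ] E d

variable {d : ℕ} {ι : Type*} [Fintype ι]

/-- The local energy at the scale `ρ`. -/
noncomputable def GD.tb (D : GD d ι) (C ρ : ℝ) (u : E d) : ℝ :=
  (ρ ^ d)⁻¹ * ∫ x in ball u (C * ρ), (D.t x + D.cc x)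

/-- The quadratic form of the gradients of the sheets. -/
noncomputable def GD.qf (D : GD d ι) (Q : ℕ) (u v : E d) : ℝ :=
  ∑ i, ∑ j ∈ Finset.range Q, fderiv ℝ (fun y => D.U i (j + 1) y - D.U i j y) u v ^ 2

/-- The global hypotheses over `ball 0 R`: heights of size `lam`, resolution `ρ`, cells of size
`R₀ = ρ exp (3 L)`. -/
structure Glb (D : GD d ι) (Q : ℕ) (C L : ℝ) (A : ℕ) (R R₀ ρ lam : ℝ) : Prop where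
  R₀_pos : 0 < R₀
  R₀_le : R₀ ≤ 1
  ρ_eq : ρ = R₀ * Real.exp (-3 * L)
  lam_pos : 0 < lam
  c_ε : Continuous D.ε
  c_τ : Continuous D.τ
  c_T0 : Continuous D.T0
  c_t : Continuous D.t
  c_cc : Continuous D.cc
  c_ee : Continuous D.ee
  c_U : ∀ i j, ContDiff ℝ 2 (D.U i j)
  t_nonneg : ∀ u, 0 ≤ D.t u
  cc_nonneg : ∀ u, 0 ≤ D.cc u
  ee_nonneg : ∀ u, 0 ≤ D.ee u
  T0_symm : ∀ u v z, ⟪D.T0 u v, z⟫ = ⟪v, D.T0 u z⟫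
  T0_pos : ∀ u v, 0 ≤ ⟪D.T0 u v, v⟫
  tr_τ : ∀ u, AS.tr (D.τ u) = D.t u
  gm_symm : ∀ u ∈ ball (0 : E d) R, ∀ v z, ⟪D.gm u v, z⟫ = ⟪v, D.gm u z⟫
  gm_one : ∀ u ∈ ball (0 : E d) R, ‖D.gm u - 1‖ ≤ 1 / 10
  t_le : ∀ u ∈ ball (0 : E d) R, D.t u ≤ C * (lam ^ 2 / ρ ^ 2)
  cc_le : ∀ u ∈ ball (0 : E d) R, D.cc u ≤ C * lam ^ 2
  ee_le : ∀ u ∈ ball (0 : E d) R, D.ee u ≤ Real.exp (2 * L) * (lam ^ 2 / ρ ^ 2)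
  frz : ∀ x₀ ∈ ball (0 : E d) R, ∀ u ∈ ball (0 : E d) R, ‖u - x₀‖ ≤ 10 * R₀ →
    ‖(D.gm x₀).comp (D.τ u) - D.T0 u‖ ≤ Real.exp (-8 * L) * D.t u
  s1 : ∀ Y : E d → E d, ContDiff ℝ 1 Y → tsupport Y ⊆ ball 0 R →
    |∫ u, AS.pair (D.ε u) (D.τ u) (fderiv ℝ Y u)| ≤
      Real.exp (-2 * L) * (lam ^ 2 / R₀ ^ 3) * ∫ u, ‖Y u‖
  s2 : ∀ u ∈ ball (0 : E d) R, |D.ε u| + D.t u + D.cc u ≤ C * D.tb C ρ u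
  s3 : ∀ u ∈ ball (0 : E d) R, ∀ s, ρ ≤ s → s ≤ 30 * R₀ →
    ∫ x in ball u s, D.t x ≤ C * lam ^ 2 * (s ^ d / s ^ 2)
  s4 : ∀ u ∈ ball (0 : E d) R, ∀ v, D.qf Q u v ≤ ⟪D.T0 u v, v⟫ +
    ((L ^ (d + 5))⁻¹ * D.tb C ρ u + Real.exp (-2 * L) * (lam ^ 2 / R₀ ^ 2)) * ‖v‖ ^ 2
  U_zero : ∀ i u, D.U i 0 u = 0
  U_le : ∀ i, ∀ j ≤ Q, ∀ u ∈ ball (0 : E d) R, |D.U i j u| ≤ C * lam
  s5 : ∀ i, ∀ j ≤ Q, ∀ x₀ ∈ ball (0 : E d) R, ∀ u ∈ ball (0 : E d) R, ‖u - x₀‖ ≤ 10 * R₀ →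
    ∀ B : E d →L[ℝ] E d, B.comp (D.gm x₀) = 1 → (D.gm x₀).comp B = 1 →
    (∀ v z, ⟪B v, z⟫ = ⟪v, B z⟫) → (∀ v, 0 ≤ ⟪B v, v⟫) → ‖B‖ ≤ 5 / 4 →
    0 ≤ AS.tr (B.comp (fderiv ℝ (gradient (D.U i j)) u)) +
      ((L ^ (d + 5))⁻¹ * D.tb C ρ u / lam + Real.exp (-2 * L) * (lam / R₀ ^ 2))
  s6 : ∀ u ∈ ball (0 : E d) R,
    ∫ x in ball u (C * ρ), (D.t x + D.cc x) ≤ (L ^ A)⁻¹ * lam ^ 2 * (ρ ^ d / ρ ^ 2) →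
    |2 * D.ε u - D.t u| ≤ D.ee u ∧ ∀ v, |⟪D.T0 u v, v⟫ - D.qf Q u v| ≤ D.ee u * ‖v‖ ^ 2

/-- The summed form of the one-sided stress lemma. -/
def CellSum (d : ℕ) (ι : Type*) [Fintype ι] : Prop :=
  ∀ (Q : ℕ) (C : ℝ) (A : ℕ), 1 ≤ C → ∃ γ > (0 : ℝ), ∃ C' L₀ : ℝ, 0 ≤ C' ∧ ∀ L, L₀ ≤ L →
    ∀ (D : GD d ι) (R R₀ ρ lam : ℝ), Glb D Q C L A R R₀ ρ lam → ∀ (φ : E d → ℝ) (r : ℝ),
    (∀ x, 0 ≤ φ x ∧ φ x ≤ 1) → (∀ x y, |φ x - φ y| ≤ ‖x - y‖ / R₀) → (∀ x, r ≤ ‖x‖ → φ x = 0) →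
    0 ≤ r → r + 40 * R₀ ≤ R →
    ∫ x, φ x * (2 * D.ε x - D.t x) ≤ L ^ (-(1 + γ)) * (∫ x, φ x * D.t x) +
      C' * (∫ x, φ x * (D.ee x + D.cc x)) +
      C' * Real.exp (-L / 2) * (∫ x in ball (0 : E d) (r + 4 * R₀), (D.t x + D.cc x + D.ee x)) +
      C' * Real.exp (-L ^ 2) * (lam ^ 2 / R₀ ^ 2) * (r + R₀) ^ d

end Pool.Agent.Lib.MP_8daebb_an.GM
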