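import Mathlib

/-! The inverse square root of a symmetric operator close to the identity. -/

open Finset
open scoped RealInnerProductSpace

namespace Pool.Agent.Lib.MP_8daebb_an.GM.Sq

variable {X : Type*} [NormedAddCommGroup X] [InnerProductSpace ℝ X] [FiniteDimensional ℝ X]

/-- A symmetric operator has an orthonormal basis of eigenvectors. -/
theorem exists_eig {n : ℕ} (hn : Module.finrank ℝ X = n) {M : X →L[ℝ] X}
    (h : ∀ v u, ⟪M v, u⟫ = ⟪v, M u⟫) :
    ∃ (b : OrthonormalBasis (Fin n) ℝ X) (μ : Fin n → ℝ), ∀ i, M (b i) = μ i • b i := by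
  have hs : (M : X →ₗ[ℝ] X).IsSymmetric := h
  exact ⟨hs.eigenvectorBasis hn, hs.eigenvalues hn, fun i => hs.apply_eigenvectorBasis hn i⟩

section diag
variable {ι : Type*} [Fintype ι] {b : OrthonormalBasis ι ℝ X} {M N : X →L[ℝ] X} {μ : ι → ℝ}

omit [FiniteDimensional ℝ X] in
theorem diag_apply (h : ∀ i, M (b i) = μ i • b i) (v : X) :
    M v = ∑ i, (μ i * ⟪b i, v⟫) • b i := by
  conv_lhs => rw [← b.sum_repr' v]
  simp [map_sum, h, smul_smul, mul_comm]

omit [FiniteDimensional ℝ X] in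
theorem diag_inner (h : ∀ i, M (b i) = μ i • b i) (v u : X) :
    ⟪M v, u⟫ = ∑ i, μ i * (⟪b i, v⟫ * ⟪b i, u⟫) := by
  rw [diag_apply h, sum_inner]
  exact sum_congr rfl fun i _ => by rw [real_inner_smul_left]; ring

omit [FiniteDimensional ℝ X] in
theorem diag_symm (h : ∀ i, M (b i) = μ i • b i) (v u : X) : ⟪M v, u⟫ = ⟪v, M u⟫ := by
  rw [diag_inner h, real_inner_comm, diag_inner h]
  exact sum_congr rfl fun i _ => by ring

omit [FiniteDimensional ℝ X] in
theorem diag_eig (h : ∀ i, M (b i) = μ i • b i) (i : ι) : μ i = ⟪M (b i), b i⟫ := by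
  rw [h, real_inner_smul_left, real_inner_self_eq_norm_sq, b.norm_eq_one]
  ring

omit [FiniteDimensional ℝ X] in
theorem diag_abs_le (h : ∀ i, M (b i) = μ i • b i) (i : ι) : |μ i| ≤ ‖M‖ := by
  have h1 := M.le_opNorm (b i)
  rwa [h, norm_smul, b.norm_eq_one, mul_one, mul_one, Real.norm_eq_abs] at h1

omit [FiniteDimensional ℝ X] in
theorem diag_norm_le (h : ∀ i, M (b i) = μ i • b i) {K : ℝ} (hK : 0 ≤ K) (hμ : ∀ i, |μ i| ≤ K) :
    ‖M‖ ≤ K := by
  refine M.opNorm_le_bound hK fun v => ?_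
  have h1 : ‖M v‖ ^ 2 ≤ (K * ‖v‖) ^ 2 := by
    rw [← b.sum_sq_inner_right (M v), mul_pow, ← b.sum_sq_inner_right v, mul_sum]
    refine sum_le_sum fun i _ => ?_
    rw [← diag_symm h, h, real_inner_smul_left, mul_pow]
    refine mul_le_mul_of_nonneg_right ?_ (sq_nonneg _)
    exact sq_le_sq' (abs_le.1 (hμ i)).1 (abs_le.1 (hμ i)).2
  exact (pow_le_pow_iff_left₀ (norm_nonneg _) (by positivity) two_ne_zero).1 h1

omit [FiniteDimensional ℝ X] in
theorem diag_ext (h : ∀ i, M (b i) = N (b i)) : M = N := by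
  ext v
  rw [← b.sum_repr' v]
  simp [map_sum, h]

theorem exists_diag (b : OrthonormalBasis ι ℝ X) (μ : ι → ℝ) :
    ∃ M : X →L[ℝ] X, ∀ i, M (b i) = μ i • b i :=
  ⟨LinearMap.toContinuousLinearMap (b.toBasis.constr ℝ fun i => μ i • b i), fun i => by
    simpa using b.toBasis.constr_basis ℝ (fun i => μ i • b i) i⟩

end diag

/-- The inverse square root of a symmetric operator close to the identity. -/
theorem exists_isqrt {G : X →L[ℝ] X} {ε : ℝ} (h : ∀ v u, ⟪G v, u⟫ = ⟪v, G u⟫)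
    (hG : ‖G - 1‖ ≤ ε) (hε : ε ≤ 1 / 2) :
    ∃ R : X →L[ℝ] X, (∀ v u, ⟪R v, u⟫ = ⟪v, R u⟫) ∧ R * G * R = 1 ∧ G * R * R = 1 ∧
      R * R * G = 1 ∧ ‖R - 1‖ ≤ ε := by
  obtain ⟨b, μ, hb⟩ := exists_eig rfl h
  have hε0 : 0 ≤ ε := (norm_nonneg _).trans hG
  have h1 : ∀ i, |μ i - 1| ≤ ε := fun i =>
    (diag_abs_le (M := G - 1) (b := b) (μ := fun i => μ i - 1)
      (fun i => by simp [hb, sub_smul]) i).trans hG
  have h2 : ∀ i, 1 / 2 ≤ μ i := fun i => by linarith [(abs_le.1 (h1 i)).1]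
  obtain ⟨R, hR⟩ := exists_diag b fun i => (√(μ i))⁻¹
  have h3 : ∀ i, (√(μ i))⁻¹ * (√(μ i))⁻¹ * μ i = 1 := fun i => by
    have := h2 i
    rw [← mul_inv, Real.mul_self_sqrt (by linarith), inv_mul_cancel₀ (by linarith)]
  refine ⟨R, diag_symm hR, diag_ext (b := b) fun i => ?_, diag_ext (b := b) fun i => ?_,
    diag_ext (b := b) fun i => ?_, ?_⟩
  · simp only [mul_apply_eq_comp, hR, hb, map_smul, smul_smul,
      one_apply_eq_self]
    rw [show (√(μ i))⁻¹ * (μ i * (√(μ i))⁻¹) = 1 by rw [← h3 i]; ring, one_smul]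
  · simp only [mul_apply_eq_comp, hR, hb, map_smul, smul_smul,
      one_apply_eq_self]
    rw [show (√(μ i))⁻¹ * ((√(μ i))⁻¹ * μ i) = 1 by rw [← h3 i]; ring, one_smul]
  · simp only [mul_apply_eq_comp, hR, hb, map_smul, smul_smul,
      one_apply_eq_self]
    rw [show μ i * ((√(μ i))⁻¹ * (√(μ i))⁻¹) = 1 by rw [← h3 i]; ring, one_smul]
  · refine diag_norm_le (M := R - 1) (b := b) (μ := fun i => (√(μ i))⁻¹ - 1)
      (fun i => by simp [hR, sub_smul]) hε0 fun i => ?_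
    have h4 := h2 i
    have h5 := abs_le.1 (h1 i)
    set s := √(μ i) with hs
    have hs0 : 0 < s := Real.sqrt_pos.2 (by linarith)
    have hs2 : s * s = μ i := Real.mul_self_sqrt (by linarith)
    have hs7 : 7 / 10 ≤ s := by
      by_contra hh
      nlinarith
    have e : s⁻¹ - 1 = (1 - μ i) / (s * (1 + s)) := by
      rw [← hs2]; field_simp; ring
    have h6 : 1 ≤ s * (1 + s) := by nlinarith
    rw [e, abs_div, abs_of_pos (by linarith : 0 < s * (1 + s)), abs_sub_comm]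
    exact (div_le_self (abs_nonneg _) h6).trans (h1 i)

end Pool.Agent.Lib.MP_8daebb_an.GM.Sq
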