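import Pool.Agent.Lib.MP_8daebb_an.GM.CellAvg
import Pool.Agent.Lib.MP_8daebb_an.GM.Glb
import Pool.Agent.Lib.MP_8daebb_an.GM.Sqrt

/-! The frame of a cell and the data in the units of the cell. -/

set_option linter.unusedSectionVars false

open MeasureTheory Metric Set Module Filter
open scoped RealInnerProductSpace

namespace Pool.Agent.Lib.MP_8daebb_an.GM

open AS

variable {d : ℕ} {ι : Type*} [Fintype ι]

/-- `A` is the inverse square root of `G` and `B = R₀ A`. -/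
structure Frm (G A : E d →L[ℝ] E d) (R₀ : ℝ) (B : E d ≃L[ℝ] E d) : Prop where
  pos : 0 < R₀
  app : ∀ v, B v = R₀ • A v
  inv : ∀ v, B.symm v = R₀⁻¹ • A (G v)
  symm : ∀ v u, ⟪A v, u⟫ = ⟪v, A u⟫
  l : (A.comp A).comp G = 1
  r : G.comp (A.comp A) = 1
  near : ‖A - 1‖ ≤ 1 / 10

theorem exists_frm {G : E d →L[ℝ] E d} (hs : ∀ v z, ⟪G v, z⟫ = ⟪v, G z⟫) (h1 : ‖G - 1‖ ≤ 1 / 10)
    {R₀ : ℝ} (hR : 0 < R₀) : ∃ A B, Frm G A R₀ B := by
  obtain ⟨A, a1, a2, a3, a4, a5⟩ := Sq.exists_isqrt hs h1 (by norm_num)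
  have e2 : ∀ v, A (G (A v)) = v := fun v => congrArg (fun M : E d →L[ℝ] E d => M v) a2
  have e4 : ∀ v, A (A (G v)) = v := fun v => congrArg (fun M : E d →L[ℝ] E d => M v) a4
  refine ⟨A, ContinuousLinearEquiv.equivOfInverse (R₀ • A) (R₀⁻¹ • A.comp G) (fun v => ?_)
    (fun v => ?_), hR, fun v => rfl, fun v => rfl, a1, a4, a3, a5⟩
  · simp [smul_smul, hR.ne', e2]
  · simp [smul_smul, hR.ne', e4]

namespace Frm

variable {G A : E d →L[ℝ] E d} {R₀ : ℝ} {B : E d ≃L[ℝ] E d} (h : Frm G A R₀ B)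
include h

theorem sub_le (v : E d) : ‖A v - v‖ ≤ 1 / 10 * ‖v‖ :=
  ((A - 1).le_opNorm v).trans (mul_le_mul_of_nonneg_right h.near (norm_nonneg _))

theorem A_le (v : E d) : ‖A v‖ ≤ 11 / 10 * ‖v‖ := by
  linarith [h.sub_le v, norm_sub_norm_le (A v) v]

theorem le_A (v : E d) : 9 / 10 * ‖v‖ ≤ ‖A v‖ := by
  have := norm_sub_norm_le v (A v)
  rw [norm_sub_rev] at this
  linarith [h.sub_le v]

theorem normA : ‖A‖ ≤ 11 / 10 := A.opNorm_le_bound (by norm_num) h.A_le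

theorem sq_le (v : E d) : ‖A v‖ ^ 2 ≤ 2 * ‖v‖ ^ 2 := by
  nlinarith [h.A_le v, norm_nonneg (A v), norm_nonneg v]

theorem normAA : ‖A.comp A‖ ≤ 5 / 4 := by
  refine (A.opNorm_comp_le A).trans ?_
  nlinarith [h.normA, norm_nonneg A]

theorem normB (v : E d) : ‖B v‖ = R₀ * ‖A v‖ := by
  rw [h.app, norm_smul, Real.norm_of_nonneg h.pos.le]

theorem B_le (v : E d) : ‖B v‖ ≤ 11 / 10 * R₀ * ‖v‖ := by
  rw [h.normB]
  nlinarith [h.A_le v, h.pos]

theorem le_B (v : E d) : 9 / 10 * R₀ * ‖v‖ ≤ ‖B v‖ := by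
  rw [h.normB]
  nlinarith [h.le_A v, h.pos]

theorem Bsymm (v u : E d) : ⟪B v, u⟫ = ⟪v, B u⟫ := by
  rw [h.app, h.app, real_inner_smul_left, real_inner_smul_right, h.symm]

theorem dist_le (x₀ z z' : E d) : ‖afm x₀ B z - afm x₀ B z'‖ ≤ 11 / 10 * R₀ * ‖z - z'‖ := by
  rw [afm_sub]; exact h.B_le _

theorem le_dist (x₀ z z' : E d) : 9 / 10 * R₀ * ‖z - z'‖ ≤ ‖afm x₀ B z - afm x₀ B z'‖ := by
  rw [afm_sub]; exact h.le_B _

theorem cen_le (x₀ z : E d) : ‖afm x₀ B z - x₀‖ ≤ 11 / 10 * R₀ * ‖z‖ := by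
  rw [afm, add_sub_cancel_left]; exact h.B_le _

theorem le_cen (x₀ z : E d) : 9 / 10 * R₀ * ‖z‖ ≤ ‖afm x₀ B z - x₀‖ := by
  rw [afm, add_sub_cancel_left]; exact h.le_B _

theorem vf_le : vf B ≤ (2 * R₀) ^ d := by
  have hR := h.pos
  have h1 := setIntegral_afm_le (x₀ := 0) (B := B) (f := fun _ => (1 : ℝ)) continuous_const
    (S := ball 0 (2 * R₀)) (T := ball 0 1) measurableSet_ball isBounded_ball
    (fun _ _ => zero_le_one) fun z hz => by
      have h2 := h.cen_le 0 z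
      have h3 := mem_ball_zero_iff.1 hz
      rw [mem_ball_iff_norm]
      nlinarith
  rw [setIntegral_const, setIntegral_const, real_ball_eq _ one_pos, real_ball_eq _ (by positivity),
    finrank_euclideanSpace_fin, one_pow, smul_eq_mul, smul_eq_mul, mul_one, mul_one, ← mul_assoc,
    mul_le_mul_iff_left₀ vu_pos, le_inv_mul_iff₀ (vf_pos B), mul_one] at h1
  exact h1

theorem le_vf : (vf B)⁻¹ * (R₀ / 2) ^ d ≤ 1 := by
  have hR := h.pos
  have h1 := le_setIntegral_afm (x₀ := 0) (B := B) (f := fun _ => (1 : ℝ)) continuous_const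
    (S := ball 0 (R₀ / 2)) (T := ball 0 1) measurableSet_ball measurableSet_ball isBounded_ball
    (fun _ _ => zero_le_one) fun z hz => by
      have h2 := h.le_cen 0 z
      have h3 := mem_ball_iff_norm.1 hz
      rw [mem_ball_zero_iff]
      nlinarith
  rw [setIntegral_const, setIntegral_const, real_ball_eq _ one_pos, real_ball_eq _ (by positivity),
    finrank_euclideanSpace_fin, one_pow, smul_eq_mul, smul_eq_mul, mul_one, mul_one, ← mul_assoc,
    mul_le_mul_iff_left₀ vu_pos] at h1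
  exact h1

theorem conj (τ : E d →L[ℝ] E d) :
    (B.symm : E d →L[ℝ] E d).comp (τ.comp (B : E d →L[ℝ] E d)) = A.comp ((G.comp τ).comp A) := by
  ext1 v
  show B.symm (τ (B v)) = A (G (τ (A v)))
  rw [h.inv, h.app, map_smul, map_smul, map_smul, smul_smul, inv_mul_cancel₀ h.pos.ne', one_smul]

theorem BB : (B : E d →L[ℝ] E d).comp (B : E d →L[ℝ] E d) = R₀ ^ 2 • A.comp A := by
  ext1 v
  show B (B v) = R₀ ^ 2 • A (A v)
  rw [h.app, h.app, map_smul, smul_smul, sq]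

theorem tr_near (τ T : E d →L[ℝ] E d) :
    |tr τ - tr (A.comp (T.comp A))| ≤ 2 * d * ‖G.comp τ - T‖ := by
  have e1 : tr τ = tr ((A.comp A).comp (G.comp τ)) := by
    rw [← ContinuousLinearMap.comp_assoc, h.l]
    rfl
  have e2 : tr (A.comp (T.comp A)) = tr ((A.comp A).comp T) := by
    rw [← ContinuousLinearMap.comp_assoc, tr_comm]
    rfl
  rw [e1, e2, ← tr_sub', ← ContinuousLinearMap.comp_sub]
  refine (abs_tr_le _).trans ?_
  rw [finrank_euclideanSpace_fin, mul_comm 2, mul_assoc]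
  refine mul_le_mul_of_nonneg_left ((ContinuousLinearMap.opNorm_comp_le _ _).trans
    (mul_le_mul_of_nonneg_right (h.normAA.trans (by norm_num)) (norm_nonneg _))) (by positivity)

theorem pair_near (ε : ℝ) (S T M : E d →L[ℝ] E d) :
    |pair ε (A.comp (T.comp A)) M - pair ε (A.comp (S.comp A)) M| ≤ 2 * d * ‖S - T‖ * ‖M‖ := by
  have e : pair ε (A.comp (T.comp A)) M - pair ε (A.comp (S.comp A)) M =
      tr ((A.comp ((S - T).comp A)).comp M) := by
    rw [ContinuousLinearMap.sub_comp, ContinuousLinearMap.comp_sub, ContinuousLinearMap.sub_comp,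
      tr_sub', pair, pair]
    ring
  have h1 : ‖A.comp ((S - T).comp A)‖ ≤ 2 * ‖S - T‖ := by
    refine (A.opNorm_comp_le _).trans ((mul_le_mul h.normA ((ContinuousLinearMap.opNorm_comp_le _
      _).trans (mul_le_mul_of_nonneg_left h.normA (norm_nonneg _))) (norm_nonneg _)
      (by norm_num)).trans ?_)
    nlinarith [norm_nonneg (S - T)]
  rw [e]
  refine (abs_tr_le _).trans ?_
  rw [finrank_euclideanSpace_fin, mul_comm 2, mul_assoc, mul_assoc]
  refine mul_le_mul_of_nonneg_left ((ContinuousLinearMap.opNorm_comp_le _ _).trans ?_)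
    (by positivity)
  rw [← mul_assoc]
  exact mul_le_mul_of_nonneg_right h1 (norm_nonneg _)

end Frm

/-- The data in the units of the cell. -/
noncomputable def GD.cell (D : GD d ι) (L R₀ lam : ℝ) (x₀ : E d) (A : E d →L[ℝ] E d)
    (B : E d ≃L[ℝ] E d) : Dat (E d) ι where
  ε z := R₀ ^ 2 / lam ^ 2 * (D.ε (afm x₀ B z) + D.cc (afm x₀ B z))
  T z := (R₀ ^ 2 / lam ^ 2) • (A.comp ((D.T0 (afm x₀ B z)).comp A) + D.cc (afm x₀ B z) • 1)
  ee z := R₀ ^ 2 / lam ^ 2 * (2 * D.ee (afm x₀ B z) +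
    2 * d * Real.exp (-8 * L) * D.t (afm x₀ B z) + (d + 2) * D.cc (afm x₀ B z))
  U i j z := lam⁻¹ * D.U i j (afm x₀ B z)

variable {D : GD d ι} {L R₀ lam : ℝ} {x₀ : E d} {A : E d →L[ℝ] E d} {B : E d ≃L[ℝ] E d}

theorem cell_τ (z : E d) : (D.cell L R₀ lam x₀ A B).τ z = R₀ ^ 2 / lam ^ 2 *
    (tr (A.comp ((D.T0 (afm x₀ B z)).comp A)) + d * D.cc (afm x₀ B z)) := by
  show tr (_ • _) = _
  rw [tr_smul', tr_add', tr_smul', tr_one', finrank_euclideanSpace_fin, mul_comm (D.cc _)]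

theorem cell_inner (hA : ∀ v u, ⟪A v, u⟫ = ⟪v, A u⟫) (z v w : E d) :
    ⟪(D.cell L R₀ lam x₀ A B).T z v, w⟫ = R₀ ^ 2 / lam ^ 2 *
      (⟪D.T0 (afm x₀ B z) (A v), A w⟫ + D.cc (afm x₀ B z) * ⟪v, w⟫) := by
  show ⟪(R₀ ^ 2 / lam ^ 2) • (A (D.T0 (afm x₀ B z) (A v)) + D.cc (afm x₀ B z) • v), w⟫ = _
  rw [real_inner_smul_left, inner_add_left, real_inner_smul_left, hA]

theorem cell_pair (z : E d) (M : E d →L[ℝ] E d) :
    pair ((D.cell L R₀ lam x₀ A B).ε z) ((D.cell L R₀ lam x₀ A B).T z) M = R₀ ^ 2 / lam ^ 2 *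
      pair (D.ε (afm x₀ B z)) (A.comp ((D.T0 (afm x₀ B z)).comp A)) M := by
  show _ * _ * tr M - tr ((_ • _ : E d →L[ℝ] E d).comp M) = _
  rw [ContinuousLinearMap.smul_comp, ContinuousLinearMap.add_comp, ContinuousLinearMap.smul_comp,
    tr_smul', tr_add', tr_smul', pair, ContinuousLinearMap.one_def, ContinuousLinearMap.id_comp]
  ring

theorem cell_qf {G : E d →L[ℝ] E d} (h : Frm G A R₀ B) (hU : ∀ i j, ContDiff ℝ 2 (D.U i j))
    (Q : ℕ) (z v : E d) :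
    (D.cell L R₀ lam x₀ A B).qf Q z v = R₀ ^ 2 / lam ^ 2 * D.qf Q (afm x₀ B z) (A v) := by
  rw [Dat.qf, GD.qf, Finset.mul_sum]
  refine Finset.sum_congr rfl fun i _ => ?_
  rw [Finset.mul_sum]
  refine Finset.sum_congr rfl fun j _ => ?_
  have h1 : Differentiable ℝ fun y => D.U i (j + 1) y - D.U i j y :=
    ((hU i (j + 1)).sub (hU i j)).differentiable (by norm_num)
  have h2 : (D.cell L R₀ lam x₀ A B).u i j = fun z => lam⁻¹ *
      (fun y => D.U i (j + 1) y - D.U i j y) (afm x₀ B z) := funext fun z => (mul_sub _ _ _).symm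
  have h3 := (((h1 _).hasFDerivAt.comp z (hasFDerivAt_afm (x₀ := x₀) (B := B) z)).const_mul
    lam⁻¹).fderiv
  rw [h2]
  erw [h3]
  show (lam⁻¹ • fderiv ℝ (fun y => D.U i (j + 1) y - D.U i j y) (afm x₀ B z) (B v)) ^ 2 = _
  rw [h.app, map_smul, smul_eq_mul, smul_eq_mul]
  ring

theorem cell_lap {G : E d →L[ℝ] E d} (h : Frm G A R₀ B) (hU : ∀ i j, ContDiff ℝ 2 (D.U i j))
    (i : ι) (j : ℕ) (z : E d) : lap ((D.cell L R₀ lam x₀ A B).U i j) z = R₀ ^ 2 / lam *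
      tr ((A.comp A).comp (fderiv ℝ (gradient (D.U i j)) (afm x₀ B z))) := by
  have h1 := lap_afm (x₀ := x₀) h.Bsymm (f := fun x => lam⁻¹ * D.U i j x)
    (contDiff_const.mul (hU i j)) z
  have h2 : gradient (fun x => lam⁻¹ * D.U i j x) = fun x => lam⁻¹ • gradient (D.U i j) x := by
    funext x
    rw [gradient, gradient, ← map_smul,
      fderiv_const_mul ((hU i j).differentiable (by norm_num) x)]
  rw [h2, fderiv_fun_const_smul (differentiable_gradient (hU i j) _), h.BB,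
    ContinuousLinearMap.smul_comp, ContinuousLinearMap.comp_smul, tr_smul', tr_smul'] at h1
  refine h1.trans ?_
  ring

end Pool.Agent.Lib.MP_8daebb_an.GM
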