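import Pool.Agent.Lib.MP_8daebb_an.GM.Pull

/-! Averaging a local inequality over the centres of the cells. -/

set_option linter.unusedSectionVars false

open MeasureTheory Metric Set Module Filter
open scoped RealInnerProductSpace

namespace Pool.Agent.Lib.MP_8daebb_an.GM

variable {X : Type*} [NormedAddCommGroup X] [InnerProductSpace ℝ X] [FiniteDimensional ℝ X]
  [MeasurableSpace X] [BorelSpace X]

/-- The tent function. -/
noncomputable def tent (σ : ℝ) (x : X) : ℝ := max (σ - ‖x‖) 0

/-- The volume of the unit ball. -/
noncomputable def vu (X : Type*) [NormedAddCommGroup X] [InnerProductSpace ℝ X]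
    [FiniteDimensional ℝ X] [MeasurableSpace X] [BorelSpace X] : ℝ :=
  (volume : Measure X).real (ball 0 1)

theorem vu_pos : 0 < vu X :=
  ENNReal.toReal_pos (measure_ball_pos _ _ one_pos).ne' measure_ball_lt_top.ne

theorem real_ball_eq (c : X) {s : ℝ} (hs : 0 < s) :
    (volume : Measure X).real (ball c s) = s ^ finrank ℝ X * vu X := by
  rw [Measure.real, Measure.addHaar_ball_of_pos _ _ hs, ENNReal.toReal_mul,
    ENNReal.toReal_ofReal (by positivity)]
  rfl

theorem continuous_tent (σ : ℝ) : Continuous (tent σ : X → ℝ) := by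
  unfold tent
  fun_prop

theorem tent_nonneg (σ : ℝ) (x : X) : 0 ≤ tent σ x := le_max_right _ _

theorem tent_le {σ : ℝ} (hσ : 0 ≤ σ) (x : X) : tent σ x ≤ σ :=
  max_le (by linarith [norm_nonneg x]) hσ

theorem tent_zero {σ : ℝ} {x : X} (h : σ ≤ ‖x‖) : tent σ x = 0 := max_eq_right (by linarith)

theorem tent_sub (σ : ℝ) (x y : X) : |tent σ x - tent σ y| ≤ ‖x - y‖ := by
  refine (abs_max_sub_max_le_abs _ _ _).trans ?_
  rw [show σ - ‖x‖ - (σ - ‖y‖) = -(‖x‖ - ‖y‖) by ring, abs_neg]
  exact abs_norm_sub_norm_le _ _

theorem integrable_tent (σ : ℝ) : Integrable (tent σ : X → ℝ) :=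
  (continuous_tent σ).integrable_of_hasCompactSupport
    (HasCompactSupport.intro (isCompact_closedBall (0 : X) σ) fun _ hs =>
      tent_zero (not_le.1 fun h1 => hs (mem_closedBall_zero_iff.2 h1)).le)

theorem integral_tent_ge {σ : ℝ} (hσ : 0 < σ) :
    σ / 2 * ((σ / 2) ^ finrank ℝ X * vu X) ≤ ∫ x : X, tent σ x := by
  rw [← real_ball_eq (0 : X) (half_pos hσ), mul_comm, ← smul_eq_mul, ← setIntegral_const]
  refine le_trans (setIntegral_mono_on (integrableOn_const measure_ball_lt_top.ne)
    (integrable_tent σ).integrableOn measurableSet_ball fun x hx => ?_)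
    (setIntegral_le_integral (integrable_tent σ) (Eventually.of_forall (tent_nonneg σ)))
  have := mem_ball_zero_iff.1 hx
  exact le_max_of_le_left (by linarith)

theorem integrable_conv {k f : X → ℝ} (hk : Integrable k) (hf : Integrable f) :
    Integrable (fun p : X × X => k (p.2 - p.1) * f p.2) (volume.prod volume) := by
  have h1 : Integrable (fun p : X × X => f p.1 * k p.2) (volume.prod volume) := hf.mul_prod hk
  have h2 : MeasurePreserving (fun p : X × X => (p.2, p.2 - p.1)) (volume.prod volume)
      (volume.prod volume) := by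
    have h3 := (measurePreserving_prod_sub_swap (volume : Measure X) volume)
    have h4 : MeasurePreserving (Prod.map (id : X → X) (Neg.neg : X → X)) (volume.prod volume)
        (volume.prod volume) := (MeasurePreserving.id _).prod (Measure.measurePreserving_neg _)
    have h5 := h4.comp ((measurePreserving_prod_sub (volume : Measure X) volume).comp
      Measure.measurePreserving_swap)
    convert h5 using 1
    funext p
    simp
  simpa [Function.comp_def, mul_comm] using h2.integrable_comp_of_integrable h1

theorem integral_conv {k f : X → ℝ} (hk : Integrable k) (hf : Integrable f) :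
    ∫ c : X, ∫ x, k (x - c) * f x = (∫ x, k x) * ∫ x, f x := by
  rw [integral_integral_swap (integrable_conv hk hf)]
  simp only [integral_mul_const]
  rw [← integral_const_mul]
  refine integral_congr_ae (Eventually.of_forall fun x => ?_)
  simp only
  rw [integral_sub_left_eq_self k volume x]

/-- averaging over the centres -/
theorem avg_cells {f g : X → ℝ} (hf : Continuous f) (hg : Continuous g) {r σ s a b : ℝ}
    (hr : 0 ≤ r) (hσ : 0 < σ) (hs : 0 < s) (ha : 0 ≤ a)
    (hf0 : ∀ x, r ≤ ‖x‖ → f x = 0) (hg0 : ∀ x ∈ ball (0 : X) (r + σ + s), 0 ≤ g x)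
    (h : ∀ c ∈ ball (0 : X) (r + σ), ∫ x, tent σ (x - c) * f x ≤ a * (∫ x in ball c s, g x) + b) :
    (∫ x : X, tent σ x) * ∫ x, f x ≤ a * (s ^ finrank ℝ X * vu X) *
      (∫ x in ball (0 : X) (r + σ + s), g x) + b * ((r + σ) ^ finrank ℝ X * vu X) := by
  have fi : Integrable f := hf.integrable_of_hasCompactSupport
    (HasCompactSupport.intro (isCompact_closedBall (0 : X) r) fun _ hx =>
      hf0 _ (not_le.1 fun h1 => hx (mem_closedBall_zero_iff.2 h1)).le)
  set g' := (ball (0 : X) (r + σ + s)).indicator g with hg'
  set k := (ball (0 : X) s).indicator (fun _ => (1 : ℝ)) with hk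
  have gi : Integrable g' :=
    (integrableOn_bdd hg isBounded_ball).integrable_indicator measurableSet_ball
  have ki : Integrable k :=
    (integrableOn_const measure_ball_lt_top.ne).integrable_indicator measurableSet_ball
  have g0 : ∀ x, 0 ≤ g' x := indicator_nonneg hg0
  have k0 : ∀ x, 0 ≤ k x := indicator_nonneg fun _ _ => zero_le_one
  have i1 := (integrable_conv (integrable_tent σ) fi).integral_prod_left
  have i2 := (integrable_conv ki gi).integral_prod_left
  have i3 : Integrable ((ball (0 : X) (r + σ)).indicator fun _ => b) :=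
    (integrableOn_const measure_ball_lt_top.ne).integrable_indicator measurableSet_ball
  have e1 : ∫ x, k x = s ^ finrank ℝ X * vu X := by
    rw [hk, integral_indicator measurableSet_ball, setIntegral_const, real_ball_eq _ hs, smul_eq_mul,
      mul_one]
  have e2 : ∫ x, (ball (0 : X) (r + σ)).indicator (fun _ => b) x =
      b * ((r + σ) ^ finrank ℝ X * vu X) := by
    rw [integral_indicator measurableSet_ball, setIntegral_const, real_ball_eq _ (by linarith),
      smul_eq_mul, mul_comm]
  rw [← integral_conv (integrable_tent σ) fi, ← e1, ← e2, ← integral_indicator measurableSet_ball,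
    mul_assoc, ← integral_conv ki gi, ← integral_const_mul, ← integral_add (i2.const_mul a) i3]
  refine integral_mono i1 ((i2.const_mul a).add i3) fun c => ?_
  simp only
  by_cases hc : c ∈ ball (0 : X) (r + σ)
  · rw [indicator_of_mem hc]
    refine (h c hc).trans (add_le_add (le_of_eq ?_) le_rfl)
    congr 1
    rw [← integral_indicator measurableSet_ball]
    refine integral_congr_ae (Eventually.of_forall fun x => ?_)
    simp only
    by_cases hx : x ∈ ball c s
    · have h1 : x - c ∈ ball (0 : X) s := mem_ball_zero_iff.2 (mem_ball_iff_norm.1 hx)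
      have h2 : x ∈ ball (0 : X) (r + σ + s) := ball_subset_ball' (by
        have := mem_ball.1 hc
        linarith) hx
      rw [indicator_of_mem hx, hk, hg', indicator_of_mem h1, indicator_of_mem h2, one_mul]
    · have h1 : x - c ∉ ball (0 : X) s := fun h1 =>
        hx (mem_ball_iff_norm.2 (mem_ball_zero_iff.1 h1))
      rw [indicator_of_notMem hx, hk, indicator_of_notMem h1, zero_mul]
  · rw [indicator_of_notMem hc, add_zero]
    have h1 : ∀ x, tent σ (x - c) * f x = 0 := fun x => by
      rcases le_or_gt r ‖x‖ with h2 | h2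
      · rw [hf0 x h2, mul_zero]
      · have h3 := not_lt.1 fun h3 => hc (mem_ball_zero_iff.2 h3)
        have h4 := norm_sub_norm_le c x
        rw [norm_sub_rev] at h4
        rw [tent_zero (by linarith), zero_mul]
    simp only [h1, integral_zero]
    exact mul_nonneg ha (integral_nonneg fun x => mul_nonneg (k0 _) (g0 _))

end Pool.Agent.Lib.MP_8daebb_an.GM
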