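import Pool.Agent.Lib.MP_8daebb_an.GM.CellA

/-! Bounds for the data of a cell. -/

set_option linter.unusedSectionVars false

open MeasureTheory Metric Set Module Filter
open scoped RealInnerProductSpace

namespace Pool.Agent.Lib.MP_8daebb_an.GM

open AS

variable {d : ℕ} {ι : Type*} [Fintype ι]

/-- The standing assumptions for one cell. -/
structure CH (D : GD d ι) (Q : ℕ) (C K L : ℝ) (A₁ : ℕ) (R R₀ ρ lam : ℝ) (x₀ : E d)
    (A : E d →L[ℝ] E d) (B : E d ≃L[ℝ] E d) : Prop where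
  g : Glb D Q C L A₁ R R₀ ρ lam
  f : Frm (D.gm x₀) A R₀ B
  x_le : ‖x₀‖ + 10 * R₀ ≤ R
  d_pos : 1 ≤ d
  C_ge : 1 ≤ C
  K4 : 4 ≤ K
  K1 : (d + 2) * 2 ^ (d + 1) ≤ K
  K2 : 6 ^ d * (1 + 100 * d * vu (E d)) ≤ K
  big : 2 ^ (d + 2) + (d + 3) * (C * K) + 4 ≤ L

namespace CH

variable {D : GD d ι} {Q : ℕ} {C K L : ℝ} {A₁ : ℕ} {R R₀ ρ lam : ℝ} {x₀ : E d}
  {A : E d →L[ℝ] E d} {B : E d ≃L[ℝ] E d} (h : CH D Q C K L A₁ R R₀ ρ lam x₀ A B)
include h

theorem CK : 4 * C ≤ C * K := by nlinarith [h.C_ge, h.K4]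

theorem L_ge : 2 ^ (d + 2) ≤ L ∧ (d + 3) * (C * K) + 4 ≤ L ∧ 1 ≤ L ∧ C * K ≤ L := by
  have h1 := h.big
  have h2 := h.CK
  have h3 := h.C_ge
  have h4 : (0 : ℝ) < 2 ^ (d + 2) := by positivity
  have h5 : (0 : ℝ) ≤ d * (C * K) := mul_nonneg (by positivity) (by linarith)
  refine ⟨?_, ?_, ?_, ?_⟩ <;> nlinarith

theorem exp_le {a : ℝ} (ha : a ≤ L) {n : ℝ} (hn : 1 ≤ n) : a * Real.exp (-n * L) ≤ 1 := by
  have h1 := h.L_ge.2.2.1
  have h2 := Real.add_one_le_exp (n * L)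
  rw [neg_mul, Real.exp_neg, ← div_eq_mul_inv, div_le_one (Real.exp_pos _)]
  nlinarith

theorem ρ_pos : 0 < ρ := by
  rw [h.g.ρ_eq]; exact mul_pos h.g.R₀_pos (Real.exp_pos _)

theorem ρ_le : ρ ≤ 1 := by
  have h1 := h.exp_le h.L_ge.2.2.1 (n := 3) (by norm_num)
  have h2 := h.g.R₀_le
  have h3 := Real.exp_pos (-3 * L)
  rw [h.g.ρ_eq]
  nlinarith

theorem s_pos : 0 < R₀ ^ 2 / lam ^ 2 := by
  have := h.g.R₀_pos
  have := h.g.lam_pos
  positivity

theorem s_mul : R₀ ^ 2 / lam ^ 2 * (lam ^ 2 / ρ ^ 2) = Real.exp (6 * L) := by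
  have h1 := h.g.R₀_pos
  have h2 := h.g.lam_pos
  have h3 : Real.exp (6 * L) * Real.exp (-3 * L) ^ 2 = 1 := by
    rw [sq, ← Real.exp_add, ← Real.exp_add, ← Real.exp_zero]
    congr 1
    ring
  have h4 := Real.exp_pos (-3 * L)
  rw [h.g.ρ_eq]
  generalize Real.exp (-3 * L) = a at *
  generalize Real.exp (6 * L) = b at *
  field_simp
  linarith

theorem μ_le : 2 * d * Real.exp (-8 * L) ≤ 1 / 2 := by
  have h1 := h.exp_le (a := 4 * d) (n := 8) (by
    have h2 := h.L_ge.2.1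
    have h3 := h.CK
    have h4 := h.C_ge
    have h5 : (0 : ℝ) ≤ d := by positivity
    nlinarith) (by norm_num)
  linarith

theorem x₀_mem : x₀ ∈ ball (0 : E d) R :=
  mem_ball_zero_iff.2 (by linarith [h.x_le, h.g.R₀_pos])

theorem near {z : E d} (hz : z ∈ ball (0 : E d) 5) : ‖afm x₀ B z - x₀‖ ≤ 6 * R₀ := by
  have h1 := h.f.cen_le x₀ z
  have h2 := mem_ball_zero_iff.1 hz
  have h3 := h.g.R₀_pos
  nlinarith

theorem mem {z : E d} (hz : z ∈ ball (0 : E d) 5) : afm x₀ B z ∈ ball (0 : E d) R := by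
  have h1 := h.near hz
  have h2 := norm_sub_norm_le (afm x₀ B z) x₀
  rw [mem_ball_zero_iff]
  linarith [h.x_le, h.g.R₀_pos]

theorem frz {z : E d} (hz : z ∈ ball (0 : E d) 5) :
    ‖(D.gm x₀).comp (D.τ (afm x₀ B z)) - D.T0 (afm x₀ B z)‖ ≤
      Real.exp (-8 * L) * D.t (afm x₀ B z) :=
  h.g.frz x₀ h.x₀_mem _ (h.mem hz) ((h.near hz).trans (by linarith [h.g.R₀_pos]))

theorem tr_near {z : E d} (hz : z ∈ ball (0 : E d) 5) :
    |D.t (afm x₀ B z) - tr (A.comp ((D.T0 (afm x₀ B z)).comp A))| ≤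
      2 * d * Real.exp (-8 * L) * D.t (afm x₀ B z) := by
  have h1 := h.f.tr_near (D.τ (afm x₀ B z)) (D.T0 (afm x₀ B z))
  rw [h.g.tr_τ] at h1
  rw [mul_assoc (2 * (d : ℝ))]
  exact h1.trans (mul_le_mul_of_nonneg_left (h.frz hz) (by positivity))

theorem τ_ge {z : E d} (hz : z ∈ ball (0 : E d) 5) :
    R₀ ^ 2 / lam ^ 2 / 2 * (D.t (afm x₀ B z) + D.cc (afm x₀ B z)) ≤
      (D.cell L R₀ lam x₀ A B).τ z := by
  have h1 := (abs_le.1 (h.tr_near hz)).2
  have h2 := mul_le_mul_of_nonneg_right h.μ_le (h.g.t_nonneg (afm x₀ B z))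
  have h3 : (1 : ℝ) ≤ d := by exact_mod_cast h.d_pos
  have h4 := h.g.cc_nonneg (afm x₀ B z)
  rw [cell_τ, div_mul_eq_mul_div, mul_div_assoc]
  refine mul_le_mul_of_nonneg_left ?_ h.s_pos.le
  nlinarith

theorem τ_le {z : E d} (hz : z ∈ ball (0 : E d) 5) : (D.cell L R₀ lam x₀ A B).τ z ≤
    R₀ ^ 2 / lam ^ 2 * (2 * D.t (afm x₀ B z) + d * D.cc (afm x₀ B z)) := by
  have h1 := (abs_le.1 (h.tr_near hz)).1
  have h2 := mul_le_mul_of_nonneg_right h.μ_le (h.g.t_nonneg (afm x₀ B z))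
  have h3 := h.g.t_nonneg (afm x₀ B z)
  rw [cell_τ]
  refine mul_le_mul_of_nonneg_left ?_ h.s_pos.le
  linarith

theorem c_T : Continuous (D.cell L R₀ lam x₀ A B).T := by
  have h1 := h.g.c_T0.comp (continuous_afm (x₀ := x₀) (B := B))
  have h2 := h.g.c_cc.comp (continuous_afm (x₀ := x₀) (B := B))
  have h3 : Continuous fun z => A.comp ((D.T0 (afm x₀ B z)).comp A) :=
    continuous_const.clm_comp (h1.clm_comp continuous_const)
  have h4 : Continuous fun z => D.cc (afm x₀ B z) • (1 : E d →L[ℝ] E d) := h2.smul continuous_const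
  exact (h3.add h4).const_smul (R₀ ^ 2 / lam ^ 2)

theorem c_τ : Continuous (D.cell L R₀ lam x₀ A B).τ := by
  have h1 : Continuous fun A : E d →L[ℝ] E d => tr A := by
    simp only [tr_eq_sum']
    fun_prop
  exact h1.comp h.c_T

/-- the local energy of the cell controls the global local energy -/
theorem low {z : E d} (hz : z ∈ ball (0 : E d) 4) :
    R₀ ^ 2 / lam ^ 2 * ∫ x in ball (afm x₀ B z) (C * ρ), (D.t x + D.cc x) ≤
      2 ^ (d + 1) * R₀ ^ d *
        ∫ y in ball z (C * K * Real.exp (-3 * L)), (D.cell L R₀ lam x₀ A B).τ y := by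
  have hR := h.g.R₀_pos
  have he := Real.exp_pos (-3 * L)
  have h1 := h.exp_le h.L_ge.2.2.2 (n := 3) (by norm_num)
  have h5 : ∀ y ∈ ball z (C * K * Real.exp (-3 * L)), y ∈ ball (0 : E d) 5 := fun y hy =>
    ball_subset_ball' (by linarith [mem_ball.1 hz]) hy
  have n0 : ∀ x, 0 ≤ D.t x + D.cc x := fun x => add_nonneg (h.g.t_nonneg x) (h.g.cc_nonneg x)
  have c0 := h.g.c_t.add h.g.c_cc
  have h2 := le_setIntegral_afm (x₀ := x₀) (B := B) (f := fun x => D.t x + D.cc x) c0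
    (S := ball (afm x₀ B z) (C * ρ)) (T := ball z (C * K * Real.exp (-3 * L))) measurableSet_ball
    measurableSet_ball isBounded_ball (fun y _ => n0 _) fun y hy => by
      have h3 := (h.f.le_dist x₀ y z).trans_lt (mem_ball_iff_norm.1 hy)
      rw [h.g.ρ_eq] at h3
      have h4 : 9 / 10 * ‖y - z‖ < C * Real.exp (-3 * L) :=
        lt_of_mul_lt_mul_left (a := R₀) (by linarith) hR.le
      have h6 := mul_le_mul_of_nonneg_right h.CK he.le
      have h7 := mul_pos (zero_lt_one.trans_le h.C_ge) he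
      rw [mem_ball_iff_norm]
      linarith
  have h3 : ∫ y in ball z (C * K * Real.exp (-3 * L)), R₀ ^ 2 / lam ^ 2 / 2 *
      (D.t (afm x₀ B y) + D.cc (afm x₀ B y)) ≤
      ∫ y in ball z (C * K * Real.exp (-3 * L)), (D.cell L R₀ lam x₀ A B).τ y :=
    setIntegral_mono_on (integrableOn_bdd (continuous_const.mul (c0.comp continuous_afm))
      isBounded_ball) (integrableOn_bdd h.c_τ isBounded_ball) measurableSet_ball
      fun y hy => h.τ_ge (h5 y hy)
  rw [integral_const_mul] at h3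
  have h4 : 0 ≤ ∫ x in ball (afm x₀ B z) (C * ρ), (D.t x + D.cc x) :=
    setIntegral_nonneg measurableSet_ball fun x _ => n0 x
  have h6 := (mul_le_mul_of_nonneg_left h2 (half_pos h.s_pos).le).trans h3
  have h7 := h.f.vf_le
  have h8 := vf_pos B
  have hs := h.s_pos
  generalize ∫ x in ball (afm x₀ B z) (C * ρ), (D.t x + D.cc x) = a at *
  calc R₀ ^ 2 / lam ^ 2 * a = 2 * vf B * (R₀ ^ 2 / lam ^ 2 / 2 * ((vf B)⁻¹ * a)) := by field_simp
    _ ≤ 2 * (2 * R₀) ^ d * (R₀ ^ 2 / lam ^ 2 / 2 * ((vf B)⁻¹ * a)) := by gcongr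
    _ ≤ 2 * (2 * R₀) ^ d * _ := mul_le_mul_of_nonneg_left h6 (by positivity)
    _ = _ := by rw [mul_pow, pow_succ]; ring

theorem tb_nonneg (x : E d) : 0 ≤ D.tb C ρ x :=
  mul_nonneg (inv_nonneg.2 (pow_pos h.ρ_pos _).le) (setIntegral_nonneg measurableSet_ball
    fun x _ => add_nonneg (h.g.t_nonneg x) (h.g.cc_nonneg x))

theorem tb_le {z : E d} (hz : z ∈ ball (0 : E d) 4) :
    R₀ ^ 2 / lam ^ 2 * D.tb C ρ (afm x₀ B z) ≤
      2 ^ (d + 1) * (D.cell L R₀ lam x₀ A B).avτ (C * K) (Real.exp (-3 * L)) z := by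
  have h1 := mul_le_mul_of_nonneg_left (h.low hz) (inv_nonneg.2 (pow_pos h.ρ_pos d).le)
  have hR := h.g.R₀_pos
  have he := Real.exp_pos (-3 * L)
  rw [GD.tb, mul_left_comm, Dat.avτ, finrank_euclideanSpace_fin]
  refine h1.trans_eq ?_
  rw [h.g.ρ_eq, mul_pow]
  field_simp

theorem gam_ge {z : E d} (hz : z ∈ ball (0 : E d) 4) :
    2 * ((L ^ (d + 5))⁻¹ * (R₀ ^ 2 / lam ^ 2 * D.tb C ρ (afm x₀ B z)) + Real.exp (-2 * L)) ≤
      (D.cell L R₀ lam x₀ A B).gam (C * K) L (L ^ (d + 4))⁻¹ z := by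
  have h1 := h.tb_le hz
  have h2 := mul_nonneg h.s_pos.le (h.tb_nonneg (afm x₀ B z))
  obtain ⟨h3, h4, h5, h6⟩ := h.L_ge
  have h7 : 2 * Real.exp (-2 * L) ≤ Real.exp (-L) := by
    have h8 := h.exp_le (a := 2) (n := 1) (by nlinarith [h.CK, h.C_ge]) le_rfl
    rw [show -2 * L = -1 * L + -L by ring, Real.exp_add, ← mul_assoc]
    exact mul_le_of_le_one_left (Real.exp_pos _).le h8
  rw [mul_add, Dat.gam]
  refine add_le_add ?_ h7
  generalize (D.cell L R₀ lam x₀ A B).avτ (C * K) (Real.exp (-3 * L)) z = a at *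
  generalize R₀ ^ 2 / lam ^ 2 * D.tb C ρ (afm x₀ B z) = b at *
  have h8 : 0 ≤ a := nonneg_of_mul_nonneg_right (h2.trans h1) (by positivity)
  calc 2 * ((L ^ (d + 5))⁻¹ * b) ≤ 2 * ((L ^ (d + 5))⁻¹ * (2 ^ (d + 1) * a)) := by gcongr
    _ = (L ^ (d + 5))⁻¹ * 2 ^ (d + 2) * a := by ring
    _ ≤ (L ^ (d + 5))⁻¹ * L * a := by gcongr
    _ = _ := by field_simp; ring

theorem s3 (y : E d) {s : ℝ} (hs : Real.exp (-3 * L) ≤ s) (hs1 : s ≤ 10) :
    ∫ x in ball y s ∩ ball 0 5, (D.cell L R₀ lam x₀ A B).τ x ≤ C * K * (s ^ d / s ^ 2) := by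
  have he := Real.exp_pos (-3 * L)
  have hs0 : 0 < s := he.trans_le hs
  have hR := h.g.R₀_pos
  have hl := h.g.lam_pos
  have hC : 0 < C := zero_lt_one.trans_le h.C_ge
  have hK := h.K4
  rcases (ball y s ∩ ball (0 : E d) 5).eq_empty_or_nonempty with h0 | ⟨z, hz1, hz2⟩
  · rw [h0, setIntegral_empty]
    positivity
  have c0 : Continuous fun x => 2 * D.t x + d * (C * lam ^ 2) := by
    have := h.g.c_t
    fun_prop
  have h1 := setIntegral_afm_le (x₀ := x₀) (B := B) c0 (S := ball (afm x₀ B z) (3 * s * R₀))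
    (T := ball y s ∩ ball 0 5) measurableSet_ball isBounded_ball
    (fun x _ => by have := h.g.t_nonneg x; positivity) fun x hx => by
      have h2 := h.f.dist_le x₀ x z
      have h3 : ‖x - z‖ < 2 * s := by
        linarith [mem_ball.1 hx.1, mem_ball.1 hz1, dist_triangle_right x z y, dist_eq_norm x z]
      rw [mem_ball_iff_norm]
      nlinarith
  have h2 : ∫ x in ball y s ∩ ball 0 5, (D.cell L R₀ lam x₀ A B).τ x ≤
      ∫ x in ball y s ∩ ball 0 5, R₀ ^ 2 / lam ^ 2 * (2 * D.t (afm x₀ B x) + d * (C * lam ^ 2)) := by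
    have hb : Bornology.IsBounded (ball y s ∩ ball (0 : E d) 5) :=
      isBounded_ball.subset inter_subset_left
    refine setIntegral_mono_on (integrableOn_bdd h.c_τ hb) (integrableOn_bdd
      (continuous_const.mul (c0.comp continuous_afm)) hb)
      (measurableSet_ball.inter measurableSet_ball) fun x hx => (h.τ_le hx.2).trans ?_
    have := h.g.cc_le _ (h.mem hx.2)
    have := h.s_pos
    gcongr
  have h3 := h.g.s3 _ (h.mem hz2) (3 * s * R₀) (by rw [h.g.ρ_eq]; nlinarith) (by nlinarith)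
  rw [integral_add (f := fun x => 2 * D.t x) (g := fun _ => d * (C * lam ^ 2))
    (integrableOn_bdd (continuous_const.mul h.g.c_t) isBounded_ball)
    (integrableOn_const measure_ball_lt_top.ne), integral_const_mul, setIntegral_const,
    real_ball_eq _ (by positivity), finrank_euclideanSpace_fin, smul_eq_mul] at h1
  rw [integral_const_mul] at h2
  have h4 : (vf B)⁻¹ ≤ (2 / R₀) ^ d := by
    have h5 := h.f.le_vf
    rw [← le_div_iff₀ (by positivity), one_div, ← inv_pow, inv_div] at h5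
    exact h5
  have hv := vu_pos (X := E d)
  have h5 : s ^ 2 * R₀ ^ 2 ≤ 100 := by
    have := h.g.R₀_le
    rw [← mul_pow]
    nlinarith [mul_pos hs0 hR, mul_le_mul hs1 this hR.le (by norm_num)]
  have h6 : 0 ≤ ∫ x in ball (afm x₀ B z) (3 * s * R₀), D.t x :=
    setIntegral_nonneg measurableSet_ball fun x _ => h.g.t_nonneg x
  refine h2.trans ((mul_le_mul_of_nonneg_left h1 h.s_pos.le).trans ?_)
  calc _ ≤ R₀ ^ 2 / lam ^ 2 * ((2 / R₀) ^ d * (2 * (C * lam ^ 2 * ((3 * s * R₀) ^ d /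
          (3 * s * R₀) ^ 2)) + (3 * s * R₀) ^ d * vu (E d) * (d * (C * lam ^ 2)))) := by gcongr
    _ = C * (6 ^ d * (2 / 9 + s ^ 2 * R₀ ^ 2 * d * vu (E d))) * (s ^ d / s ^ 2) := by
        rw [show (6 : ℝ) = 2 * 3 by norm_num]
        simp only [mul_pow, div_pow]
        field_simp
        ring
    _ ≤ C * (6 ^ d * (1 + 100 * d * vu (E d))) * (s ^ d / s ^ 2) := by
        gcongr
        norm_num
    _ ≤ _ := by
        have := h.K2
        gcongr

end CH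

end Pool.Agent.Lib.MP_8daebb_an.GM
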