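import Pool.Agent.Lib.MP_8daebb_an.GM.CellB

/-! The data of a cell satisfy the hypotheses of the one-sided stress lemma. -/

set_option linter.unusedSectionVars false

open MeasureTheory Metric Set Module Filter
open scoped RealInnerProductSpace

namespace Pool.Agent.Lib.MP_8daebb_an.GM

open AS

variable {d : ℕ} {ι : Type*} [Fintype ι]

theorem continuous_tr : Continuous fun A : E d →L[ℝ] E d => tr A := by
  simp only [tr_eq_sum']
  fun_prop

theorem integrable_pair {ε : E d → ℝ} {T : E d → E d →L[ℝ] E d} {Y : E d → E d}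
    (hε : Continuous ε) (hT : Continuous T) (hY : ContDiff ℝ 1 Y) (hc : HasCompactSupport Y) :
    Integrable fun z => pair (ε z) (T z) (fderiv ℝ Y z) := by
  have h1 : Continuous (fderiv ℝ Y) := hY.continuous_fderiv one_ne_zero
  refine Continuous.integrable_of_hasCompactSupport ((hε.mul (continuous_tr.comp h1)).sub
    (continuous_tr.comp (hT.clm_comp h1))) ((hc.fderiv ℝ).mono fun z hz h0 => hz ?_)
  simp [pair, h0, tr]

namespace CH

variable {D : GD d ι} {Q : ℕ} {C K L : ℝ} {A₁ : ℕ} {R R₀ ρ lam : ℝ} {x₀ : E d}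
  {A : E d →L[ℝ] E d} {B : E d ≃L[ℝ] E d} (h : CH D Q C K L A₁ R R₀ ρ lam x₀ A B)
include h

theorem c_ε : Continuous (D.cell L R₀ lam x₀ A B).ε :=
  continuous_const.mul ((h.g.c_ε.add h.g.c_cc).comp continuous_afm)

theorem c_ee : Continuous (D.cell L R₀ lam x₀ A B).ee :=
  continuous_const.mul ((((continuous_const.mul h.g.c_ee).add (continuous_const.mul h.g.c_t)).add
    (continuous_const.mul h.g.c_cc)).comp continuous_afm)

theorem ee_le {z : E d} (hz : z ∈ ball (0 : E d) 5) :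
    (D.cell L R₀ lam x₀ A B).ee z ≤ Real.exp (9 * L) := by
  have h1 := h.g.ee_le _ (h.mem hz)
  have h2 := h.g.t_le _ (h.mem hz)
  have h3 := h.g.cc_le _ (h.mem hz)
  have hC := h.C_ge
  have hρ := h.ρ_pos
  have h4 : lam ^ 2 ≤ lam ^ 2 / ρ ^ 2 :=
    le_div_self (sq_nonneg _) (by positivity) (pow_le_one₀ hρ.le h.ρ_le)
  have h5 := mul_le_mul_of_nonneg_right h.μ_le (h.g.t_nonneg (afm x₀ B z))
  have h6 : 1 ≤ Real.exp (2 * L) := Real.one_le_exp (by linarith [h.L_ge.2.2.1])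
  have h7 : 2 + (d + 3) * C ≤ Real.exp L := by
    have h8 := h.L_ge.2.1
    have h9 := mul_le_mul_of_nonneg_left (show C ≤ C * K by linarith [h.CK])
      (show (0 : ℝ) ≤ d + 3 by positivity)
    linarith [Real.add_one_le_exp L]
  have h8 : (0 : ℝ) ≤ lam ^ 2 / ρ ^ 2 := by positivity
  have h9 : Real.exp (9 * L) = Real.exp (6 * L) * (Real.exp L * Real.exp (2 * L)) := by
    rw [← Real.exp_add, ← Real.exp_add]
    congr 1
    ring
  rw [h9, ← h.s_mul, mul_assoc]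
  refine mul_le_mul_of_nonneg_left ?_ h.s_pos.le
  have h10 : D.cc (afm x₀ B z) ≤ C * (lam ^ 2 / ρ ^ 2) :=
    h3.trans (mul_le_mul_of_nonneg_left h4 (by linarith))
  generalize lam ^ 2 / ρ ^ 2 = a at *
  have h11 := mul_le_mul_of_nonneg_left h10 (show (0 : ℝ) ≤ d + 2 by positivity)
  have h12 : C * a ≤ C * a * Real.exp (2 * L) := le_mul_of_one_le_right (by positivity) h6
  have h13 := mul_le_mul_of_nonneg_left h12 (show (0 : ℝ) ≤ d + 3 by positivity)
  have h14 := mul_le_mul_of_nonneg_right h7 (show 0 ≤ a * Real.exp (2 * L) by positivity)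
  have h15 : 0 ≤ C * a := by positivity
  nlinarith

theorem s1 (Y : E d → E d) (hY : ContDiff ℝ 1 Y) (hs : tsupport Y ⊆ ball 0 4) :
    |∫ y, pair ((D.cell L R₀ lam x₀ A B).ε y) ((D.cell L R₀ lam x₀ A B).T y) (fderiv ℝ Y y)| ≤
      Real.exp (-L) * ∫ y, (‖fderiv ℝ Y y‖ + ‖Y y‖) := by
  have hR := h.g.R₀_pos
  have hl := h.g.lam_pos
  have hv := vf_pos B
  have b45 : ball (0 : E d) 4 ⊆ ball 0 5 := ball_subset_ball (by norm_num)
  have hc : HasCompactSupport Y := (isCompact_closedBall (0 : E d) 4).of_isClosed_subset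
    (isClosed_tsupport Y) (hs.trans ball_subset_closedBall)
  have h1 := h.g.s1 (pf x₀ B Y) (contDiff_pf hY) fun x hx => by
    have h2 := h.mem (b45 (hs (tsupport_pf hx)))
    rwa [afm_afi] at h2
  have h2 := integral_afm (x₀ := x₀) (B := B) fun u => pair (D.ε u) (D.τ u) (fderiv ℝ (pf x₀ B Y) u)
  have h3 := integral_afm (x₀ := x₀) (B := B) fun u => ‖pf x₀ B Y u‖
  simp only [fderiv_pf hY, pair_conj, h.f.conj] at h2
  simp only [pf_afm] at h3
  have iY : Integrable fun z => ‖Y z‖ := (hY.continuous.integrable_of_hasCompactSupport hc).norm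
  have iD : Integrable fun z => ‖fderiv ℝ Y z‖ :=
    ((hY.continuous_fderiv one_ne_zero).integrable_of_hasCompactSupport (hc.fderiv ℝ)).norm
  have h4 : ∫ z, ‖B (Y z)‖ ≤ 11 / 10 * R₀ * ∫ z, ‖Y z‖ := by
    rw [← integral_const_mul]
    exact integral_mono_of_nonneg (Eventually.of_forall fun z => norm_nonneg _) (iY.const_mul _)
      (Eventually.of_forall fun z => h.f.B_le _)
  have ca : Continuous (afm x₀ B) := continuous_afm
  have c1 : Continuous fun z => A.comp ((D.T0 (afm x₀ B z)).comp A) :=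
    continuous_const.clm_comp ((h.g.c_T0.comp ca).clm_comp continuous_const)
  have c2 : Continuous fun z => A.comp (((D.gm x₀).comp (D.τ (afm x₀ B z))).comp A) :=
    continuous_const.clm_comp ((continuous_const.clm_comp (h.g.c_τ.comp ca)).clm_comp
      continuous_const)
  have i1 := integrable_pair (ε := fun z => D.ε (afm x₀ B z)) (h.g.c_ε.comp ca) c1 hY hc
  have i2 := integrable_pair (ε := fun z => D.ε (afm x₀ B z)) (h.g.c_ε.comp ca) c2 hY hc
  have e2 : Real.exp (-2 * L) = Real.exp (-1 * L) * Real.exp (-L) := by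
    rw [← Real.exp_add]
    congr 1
    ring
  have h5 : ∀ z, R₀ ^ 2 / lam ^ 2 * |pair (D.ε (afm x₀ B z)) (A.comp ((D.T0 (afm x₀ B z)).comp A))
      (fderiv ℝ Y z) - pair (D.ε (afm x₀ B z)) (A.comp (((D.gm x₀).comp (D.τ (afm x₀ B z))).comp A))
      (fderiv ℝ Y z)| ≤ Real.exp (-L) * ‖fderiv ℝ Y z‖ := fun z => by
    by_cases hz : z ∈ tsupport Y
    · refine (mul_le_mul_of_nonneg_left (h.f.pair_near _ _ _ _) h.s_pos.le).trans ?_
      rw [← mul_assoc]
      refine mul_le_mul_of_nonneg_right ?_ (norm_nonneg _)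
      have h6 := (h.frz (b45 (hs hz))).trans (mul_le_mul_of_nonneg_left
        (h.g.t_le _ (h.mem (b45 (hs hz)))) (Real.exp_pos _).le)
      have h7 := h.exp_le (a := 2 * d * C) (n := 1) (by
        have h8 := mul_le_mul_of_nonneg_left h.CK (show (0 : ℝ) ≤ d by positivity)
        have h9 := mul_nonneg (show (0 : ℝ) ≤ d by positivity) (zero_le_one.trans h.C_ge)
        nlinarith [h.L_ge.2.1, h.CK, h.C_ge]) le_rfl
      have e1 : Real.exp (6 * L) * Real.exp (-8 * L) = Real.exp (-2 * L) := by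
        rw [← Real.exp_add]
        congr 1
        ring
      calc _ ≤ R₀ ^ 2 / lam ^ 2 * (2 * d * (Real.exp (-8 * L) * (C * (lam ^ 2 / ρ ^ 2)))) := by
            gcongr
        _ = 2 * d * C * (R₀ ^ 2 / lam ^ 2 * (lam ^ 2 / ρ ^ 2) * Real.exp (-8 * L)) := by ring
        _ = 2 * d * C * Real.exp (-1 * L) * Real.exp (-L) := by
            rw [h.s_mul, e1, e2, mul_assoc _ _ (Real.exp (-L))]
        _ ≤ _ := mul_le_of_le_one_left (Real.exp_pos _).le h7
    · simp [fderiv_of_notMem_tsupport ℝ hz, pair, tr]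
  have h6 := (abs_integral_le_integral_abs).trans (le_of_eq rfl : ∫ z, |pair (D.ε (afm x₀ B z))
    (A.comp ((D.T0 (afm x₀ B z)).comp A)) (fderiv ℝ Y z) - pair (D.ε (afm x₀ B z))
    (A.comp (((D.gm x₀).comp (D.τ (afm x₀ B z))).comp A)) (fderiv ℝ Y z)| ≤ _)
  have h7 := integral_mono ((i1.sub i2).abs.const_mul (R₀ ^ 2 / lam ^ 2)) (iD.const_mul _) h5
  rw [integral_const_mul, integral_const_mul] at h7
  rw [integral_sub i1 i2, h2] at h6
  have h8 := (mul_le_mul_of_nonneg_left h6 h.s_pos.le).trans h7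
  simp only [cell_pair]
  rw [integral_const_mul, integral_add iD iY, abs_mul, abs_of_pos h.s_pos, mul_add]
  have h9 : R₀ ^ 2 / lam ^ 2 * |(vf B)⁻¹ * ∫ u, pair (D.ε u) (D.τ u) (fderiv ℝ (pf x₀ B Y) u)| ≤
      Real.exp (-L) * ∫ z, ‖Y z‖ := by
    have h10 := h.exp_le (a := 11 / 10) (n := 1) (by nlinarith [h.L_ge.2.1, h.CK, h.C_ge]) le_rfl
    have h11 : 0 ≤ ∫ z, ‖Y z‖ := integral_nonneg fun z => norm_nonneg _
    rw [abs_mul, abs_of_pos (inv_pos.2 hv)]
    calc _ ≤ R₀ ^ 2 / lam ^ 2 * ((vf B)⁻¹ * (Real.exp (-2 * L) * (lam ^ 2 / R₀ ^ 3) *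
          ∫ u, ‖pf x₀ B Y u‖)) := by gcongr
      _ = Real.exp (-2 * L) / R₀ * ∫ z, ‖B (Y z)‖ := by rw [h3]; field_simp
      _ ≤ Real.exp (-2 * L) / R₀ * (11 / 10 * R₀ * ∫ z, ‖Y z‖) := by gcongr
      _ = 11 / 10 * Real.exp (-1 * L) * (Real.exp (-L) * ∫ z, ‖Y z‖) := by rw [e2]; field_simp
      _ ≤ _ := mul_le_of_le_one_left (by positivity) h10
  refine le_trans ?_ (add_le_add h8 h9)
  rw [← mul_add]
  refine mul_le_mul_of_nonneg_left ?_ h.s_pos.le
  refine le_trans (le_of_eq ?_) (abs_add_le _ _)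
  rw [sub_add_cancel]

theorem s2 {z : E d} (hz : z ∈ ball (0 : E d) 4) :
    |(D.cell L R₀ lam x₀ A B).ε z| + (D.cell L R₀ lam x₀ A B).τ z ≤
      C * K * (D.cell L R₀ lam x₀ A B).avτ (C * K) (Real.exp (-3 * L)) z := by
  have hz5 : z ∈ ball (0 : E d) 5 := ball_subset_ball (by norm_num) hz
  have h1 := h.τ_le hz5
  have h2 := h.g.s2 _ (h.mem hz5)
  have h3 := h.tb_le hz
  have h4 := mul_nonneg h.s_pos.le (h.tb_nonneg (afm x₀ B z))
  have h5 : |(D.cell L R₀ lam x₀ A B).ε z| ≤ R₀ ^ 2 / lam ^ 2 *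
      (|D.ε (afm x₀ B z)| + D.cc (afm x₀ B z)) := by
    show |_ * _| ≤ _
    rw [abs_mul, abs_of_pos h.s_pos]
    refine mul_le_mul_of_nonneg_left ((abs_add_le _ _).trans_eq ?_) h.s_pos.le
    rw [abs_of_nonneg (h.g.cc_nonneg _)]
  have h6 : 0 ≤ (D.cell L R₀ lam x₀ A B).avτ (C * K) (Real.exp (-3 * L)) z :=
    nonneg_of_mul_nonneg_right (h4.trans h3) (by positivity)
  have hC : 0 ≤ C := zero_le_one.trans h.C_ge
  have h7 := h.g.t_nonneg (afm x₀ B z)
  have h8 := h.g.cc_nonneg (afm x₀ B z)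
  have h9 := abs_nonneg (D.ε (afm x₀ B z))
  have hs := h.s_pos
  have hK := h.K1
  generalize (D.cell L R₀ lam x₀ A B).avτ (C * K) (Real.exp (-3 * L)) z = a at *
  calc _ ≤ R₀ ^ 2 / lam ^ 2 * ((d + 2) * (|D.ε (afm x₀ B z)| + D.t (afm x₀ B z) +
        D.cc (afm x₀ B z))) := by
        refine (add_le_add h5 h1).trans ?_
        rw [← mul_add]
        refine mul_le_mul_of_nonneg_left ?_ hs.le
        have : (0 : ℝ) ≤ d := by positivity
        nlinarith [mul_nonneg this h7, mul_nonneg this h9]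
    _ ≤ R₀ ^ 2 / lam ^ 2 * ((d + 2) * (C * D.tb C ρ (afm x₀ B z))) := by gcongr
    _ = C * ((d + 2) * (R₀ ^ 2 / lam ^ 2 * D.tb C ρ (afm x₀ B z))) := by ring
    _ ≤ C * ((d + 2) * (2 ^ (d + 1) * a)) := by gcongr
    _ = C * ((d + 2) * 2 ^ (d + 1)) * a := by ring
    _ ≤ _ := by gcongr

theorem gam_aux (x : E d) :
    0 ≤ (L ^ (d + 5))⁻¹ * (R₀ ^ 2 / lam ^ 2 * D.tb C ρ x) + Real.exp (-2 * L) := by
  have h1 := h.L_ge.2.2.1
  have h2 := h.s_pos
  have h3 := h.tb_nonneg x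
  positivity

theorem s4 {z : E d} (hz : z ∈ ball (0 : E d) 4) (v : E d) :
    (D.cell L R₀ lam x₀ A B).qf Q z v ≤ ⟪(D.cell L R₀ lam x₀ A B).T z v, v⟫ +
      (D.cell L R₀ lam x₀ A B).gam (C * K) L (L ^ (d + 4))⁻¹ z * ‖v‖ ^ 2 := by
  have hR := h.g.R₀_pos
  have hl := h.g.lam_pos
  have h1 := mul_le_mul_of_nonneg_left
    (h.g.s4 _ (h.mem (ball_subset_ball (by norm_num) hz)) (A v)) h.s_pos.le
  have h2 := mul_le_mul_of_nonneg_right (h.gam_ge hz) (sq_nonneg ‖v‖)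
  have h3 := mul_le_mul_of_nonneg_left (h.f.sq_le v) (h.gam_aux (afm x₀ B z))
  have h4 : 0 ≤ R₀ ^ 2 / lam ^ 2 * (D.cc (afm x₀ B z) * ⟪v, v⟫) :=
    mul_nonneg h.s_pos.le (mul_nonneg (h.g.cc_nonneg _) real_inner_self_nonneg)
  have e : R₀ ^ 2 / lam ^ 2 * (((L ^ (d + 5))⁻¹ * D.tb C ρ (afm x₀ B z) + Real.exp (-2 * L) *
      (lam ^ 2 / R₀ ^ 2)) * ‖A v‖ ^ 2) = ((L ^ (d + 5))⁻¹ * (R₀ ^ 2 / lam ^ 2 *
      D.tb C ρ (afm x₀ B z)) + Real.exp (-2 * L)) * ‖A v‖ ^ 2 := by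
    generalize (L ^ (d + 5))⁻¹ = a
    field_simp
  rw [mul_add, e] at h1
  rw [cell_qf h.f h.g.c_U, cell_inner h.f.symm, mul_add]
  linarith

theorem s5 (i : ι) {j : ℕ} (hj : j ≤ Q) {z : E d} (hz : z ∈ ball (0 : E d) 4) :
    0 ≤ lap ((D.cell L R₀ lam x₀ A B).U i j) z +
      (D.cell L R₀ lam x₀ A B).gam (C * K) L (L ^ (d + 4))⁻¹ z := by
  have hR := h.g.R₀_pos
  have hl := h.g.lam_pos
  have hz5 : z ∈ ball (0 : E d) 5 := ball_subset_ball (by norm_num) hz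
  have h1 := mul_nonneg (show 0 ≤ R₀ ^ 2 / lam by positivity) (h.g.s5 i j hj x₀ h.x₀_mem _
    (h.mem hz5) ((h.near hz5).trans (by linarith)) (A.comp A) h.f.l h.f.r
    (fun v z => (h.f.symm _ _).trans (h.f.symm _ _))
    (fun v => (h.f.symm (A v) v).symm ▸ real_inner_self_nonneg) h.f.normAA)
  have e : R₀ ^ 2 / lam * ((L ^ (d + 5))⁻¹ * D.tb C ρ (afm x₀ B z) / lam + Real.exp (-2 * L) *
      (lam / R₀ ^ 2)) = (L ^ (d + 5))⁻¹ * (R₀ ^ 2 / lam ^ 2 * D.tb C ρ (afm x₀ B z)) +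
      Real.exp (-2 * L) := by
    generalize (L ^ (d + 5))⁻¹ = a
    field_simp
  rw [mul_add, e] at h1
  rw [cell_lap h.f h.g.c_U]
  linarith [h.gam_ge hz, h.gam_aux (afm x₀ B z)]

theorem β_eq (z : E d) : (D.cell L R₀ lam x₀ A B).β z = R₀ ^ 2 / lam ^ 2 *
    (2 * D.ε (afm x₀ B z) - D.t (afm x₀ B z) + (D.t (afm x₀ B z) -
      tr (A.comp ((D.T0 (afm x₀ B z)).comp A))) + (2 - d) * D.cc (afm x₀ B z)) := by
  rw [Dat.β, cell_τ]
  show 2 * (_ * _) - _ = _
  ring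

theorem s6 {z : E d} (hz : z ∈ ball (0 : E d) 4)
    (hs : ∫ x in ball z (C * K * Real.exp (-3 * L)), (D.cell L R₀ lam x₀ A B).τ x ≤
      (L ^ (A₁ + 1))⁻¹ * (Real.exp (-3 * L) ^ d / Real.exp (-3 * L) ^ 2)) :
    |(D.cell L R₀ lam x₀ A B).β z| ≤ (D.cell L R₀ lam x₀ A B).ee z ∧ ∀ v,
      |⟪(D.cell L R₀ lam x₀ A B).T z v, v⟫ - (D.cell L R₀ lam x₀ A B).qf Q z v| ≤
        (D.cell L R₀ lam x₀ A B).ee z * ‖v‖ ^ 2 := by
  have hR := h.g.R₀_pos
  have hl := h.g.lam_pos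
  have he := Real.exp_pos (-3 * L)
  have hz5 : z ∈ ball (0 : E d) 5 := ball_subset_ball (by norm_num) hz
  obtain ⟨l1, -, l2, -⟩ := h.L_ge
  have hs0 := h.s_pos
  obtain ⟨h1, h2⟩ := h.g.s6 _ (h.mem hz5) (by
    refine le_of_mul_le_mul_left ((h.low hz).trans ?_) hs0
    have h3 : (2 : ℝ) ^ (d + 1) ≤ L := (pow_le_pow_right₀ one_le_two (by omega)).trans l1
    calc _ ≤ L * R₀ ^ d * ((L ^ (A₁ + 1))⁻¹ * (Real.exp (-3 * L) ^ d / Real.exp (-3 * L) ^ 2)) := by
          refine (mul_le_mul_of_nonneg_left hs (by positivity)).trans ?_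
          gcongr
      _ = _ := by
          rw [h.g.ρ_eq, mul_pow, mul_pow, pow_succ L]
          field_simp)
  have h3 := h.g.t_nonneg (afm x₀ B z)
  have h4 := h.g.cc_nonneg (afm x₀ B z)
  have h5 := h.g.ee_nonneg (afm x₀ B z)
  have h6 := h.tr_near hz5
  have hd : (0 : ℝ) ≤ d := by positivity
  refine ⟨?_, fun v => ?_⟩
  · rw [h.β_eq, abs_mul, abs_of_pos hs0]
    refine mul_le_mul_of_nonneg_left ?_ hs0.le
    have h7 := abs_le.1 h1
    have h8 := abs_le.1 h6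
    have h9 := mul_nonneg hd h4
    rw [abs_le]
    constructor <;> nlinarith
  · rw [cell_qf h.f h.g.c_U, cell_inner h.f.symm, ← mul_sub, abs_mul, abs_of_pos hs0]
    show _ ≤ _ * _ * _
    rw [mul_assoc, real_inner_self_eq_norm_sq]
    refine mul_le_mul_of_nonneg_left ?_ hs0.le
    have h7 := abs_le.1 ((h2 (A v)).trans (mul_le_mul_of_nonneg_left (h.f.sq_le v) h5))
    have h8 := mul_nonneg h4 (sq_nonneg ‖v‖)
    have h9 := mul_nonneg hd h8
    have h10 := mul_nonneg ((abs_nonneg _).trans h6) (sq_nonneg ‖v‖)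
    rw [abs_le]
    constructor <;> nlinarith

theorem locW : LocW (D.cell L R₀ lam x₀ A B) Q (C * K) L (L ^ (A₁ + 1))⁻¹
    (L ^ (finrank ℝ (E d) + 4))⁻¹ where
  c_ε := h.c_ε
  c_T := h.c_T
  c_ee := h.c_ee
  c_U i j := contDiff_const.mul ((h.g.c_U i j).comp contDiff_afm)
  ee_nonneg z := by
    have h3 := h.g.t_nonneg (afm x₀ B z)
    have h4 := h.g.cc_nonneg (afm x₀ B z)
    have h5 := h.g.ee_nonneg (afm x₀ B z)
    exact mul_nonneg h.s_pos.le (by positivity)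
  ee_le z hz := h.ee_le (ball_subset_ball (by norm_num) hz)
  symm z _ v w := by
    rw [real_inner_comm _ v, cell_inner h.f.symm, cell_inner h.f.symm, h.g.T0_symm,
      real_inner_comm (A v), real_inner_comm v]
  psd z _ v := by
    rw [cell_inner h.f.symm]
    exact mul_nonneg h.s_pos.le (add_nonneg (h.g.T0_pos _ _)
      (mul_nonneg (h.g.cc_nonneg _) real_inner_self_nonneg))
  s1 := h.s1
  s2 z hz := h.s2 hz
  s3 y s hs hs1 := by
    rw [finrank_euclideanSpace_fin]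
    exact h.s3 y hs hs1
  s4 z hz v := by
    rw [finrank_euclideanSpace_fin]
    exact h.s4 hz v
  U_zero i z := by
    show _ * D.U i 0 _ = 0
    rw [h.g.U_zero, mul_zero]
  U_le i j hj z hz := by
    have hl := h.g.lam_pos
    have h1 := h.g.U_le i j hj _ (h.mem (ball_subset_ball (by norm_num) hz))
    show |_ * _| ≤ _
    rw [abs_mul, abs_of_pos (inv_pos.2 hl), inv_mul_le_iff₀ hl]
    nlinarith [h.CK, h.C_ge]
  s5 i j hj z hz := by
    rw [finrank_euclideanSpace_fin]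
    exact h.s5 i hj hz
  s6 z hz := by
    rw [finrank_euclideanSpace_fin]
    exact h.s6 hz

end CH

end Pool.Agent.Lib.MP_8daebb_an.GM
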