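import Pool.Agent.Lib.MP_8daebb_an.GM.CellC

/-! The one-sided stress lemma summed over the cells. -/

set_option linter.unusedSectionVars false

open MeasureTheory Metric Set Module Filter
open scoped RealInnerProductSpace

namespace Pool.Agent.Lib.MP_8daebb_an.GM

open AS

variable {d : ℕ} {ι : Type*} [Fintype ι]

theorem continuous_of_abs_le {φ : E d → ℝ} {R₀ : ℝ} (hR : 0 < R₀)
    (hφ : ∀ x y, |φ x - φ y| ≤ ‖x - y‖ / R₀) : Continuous φ :=
  (LipschitzWith.of_dist_le_mul (K := ⟨R₀⁻¹, by positivity⟩) fun x y => by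
    rw [Real.dist_eq, dist_eq_norm]
    exact (hφ x y).trans_eq (div_eq_inv_mul _ _)).continuous

theorem integral_three {f g k : E d → ℝ} (hf : Integrable f) (hg : Integrable g)
    (hk : Integrable k) (a b : ℝ) :
    ∫ z, (f z - a * g z - b * k z) = (∫ z, f z) - a * (∫ z, g z) - b * ∫ z, k z := by
  rw [integral_sub (f := fun z => f z - a * g z) (hf.sub (hg.const_mul a)) (hk.const_mul b),
    integral_sub hf (hg.const_mul a), integral_const_mul, integral_const_mul]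

namespace CH

variable {D : GD d ι} {Q : ℕ} {C K L : ℝ} {A₁ : ℕ} {R R₀ ρ lam : ℝ} {x₀ : E d}
  {A : E d →L[ℝ] E d} {B : E d ≃L[ℝ] E d} (h : CH D Q C K L A₁ R R₀ ρ lam x₀ A B)
include h

theorem lip {φ : E d → ℝ} (h0 : ∀ x, 0 ≤ φ x ∧ φ x ≤ 1)
    (hφ : ∀ x y, |φ x - φ y| ≤ ‖x - y‖ / R₀) : LipschitzWith 1 fun z =>
      (2 * R₀)⁻¹ * (tent (R₀ / 4) (afm x₀ B z - x₀) * φ (afm x₀ B z)) := by
  have hR := h.g.R₀_pos
  refine LipschitzWith.of_dist_le_mul fun z z' => ?_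
  have h1 := h.f.dist_le x₀ z z'
  have h2 := tent_sub (R₀ / 4) (afm x₀ B z - x₀) (afm x₀ B z' - x₀)
  rw [sub_sub_sub_cancel_right] at h2
  have h3 := (hφ (afm x₀ B z) (afm x₀ B z')).trans (div_le_div_of_nonneg_right h1 hR.le)
  rw [show 11 / 10 * R₀ * ‖z - z'‖ / R₀ = 11 / 10 * ‖z - z'‖ by field_simp] at h3
  have h4 := tent_le (show 0 ≤ R₀ / 4 by positivity) (afm x₀ B z' - x₀)
  have h5 := tent_nonneg (R₀ / 4) (afm x₀ B z' - x₀)
  rw [Real.dist_eq, dist_eq_norm, ← mul_sub, abs_mul, abs_of_pos (by positivity),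
    inv_mul_le_iff₀ (by positivity), NNReal.coe_one, one_mul]
  obtain ⟨h6, h7⟩ := h0 (afm x₀ B z)
  generalize tent (R₀ / 4) (afm x₀ B z - x₀) = a at *
  generalize tent (R₀ / 4) (afm x₀ B z' - x₀) = a' at *
  generalize φ (afm x₀ B z) = b at *
  generalize φ (afm x₀ B z') = b' at *
  rw [show a * b - a' * b' = (a - a') * b + a' * (b - b') by ring]
  refine (abs_add_le _ _).trans ?_
  rw [abs_mul, abs_mul, abs_of_nonneg h5, abs_of_nonneg h6]
  have h8 := mul_le_mul (h2.trans h1) h7 h6 (by positivity)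
  have h9 := mul_le_mul h4 h3 (abs_nonneg _) (by positivity)
  nlinarith [mul_nonneg hR.le (norm_nonneg (z - z'))]

theorem one {φ : E d → ℝ} (h0 : ∀ x, 0 ≤ φ x ∧ φ x ≤ 1)
    (hφ : ∀ x y, |φ x - φ y| ≤ ‖x - y‖ / R₀) {l C₁ : ℝ} (hl0 : 0 ≤ l) (hl1 : l ≤ 1) (hC₁ : 0 ≤ C₁)
    (hS : ∀ ψ : E d → ℝ, (∀ y, 0 ≤ ψ y) → LipschitzWith 1 ψ → (∀ y, 1 / 2 ≤ ‖y‖ → ψ y = 0) →
      ∫ y, ψ y * (D.cell L R₀ lam x₀ A B).β y ≤ l * (∫ y, ψ y * (D.cell L R₀ lam x₀ A B).τ y) +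
        C₁ * (∫ y, ψ y * (D.cell L R₀ lam x₀ A B).ee y) + C₁ * Real.exp (-L / 2) *
        (∫ y in ball (0 : E d) 2, ((D.cell L R₀ lam x₀ A B).τ y + (D.cell L R₀ lam x₀ A B).ee y)) +
        C₁ * Real.exp (-L ^ 2)) :
    ∫ x, tent (R₀ / 4) (x - x₀) * (φ x * (2 * D.ε x - D.t x - 2 * l * D.t x -
      (2 * d + C₁ * (d + 2)) * (D.ee x + D.cc x))) ≤
      2 * R₀ * ((2 * d + C₁ * (4 * d + 3)) * Real.exp (-L / 2)) *
        (∫ x in ball x₀ (3 * R₀), (D.t x + D.cc x + D.ee x)) +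
      2 * R₀ * (2 * R₀) ^ d * (C₁ * Real.exp (-L ^ 2) * (lam ^ 2 / R₀ ^ 2)) := by
  have hR := h.g.R₀_pos
  have hl := h.g.lam_pos
  have hs := h.s_pos
  have hv := vf_pos B
  have hd : (0 : ℝ) ≤ d := by positivity
  have ca : Continuous (afm x₀ B) := continuous_afm
  have hL := h.lip h0 hφ
  set ψ : E d → ℝ := fun z =>
    (2 * R₀)⁻¹ * (tent (R₀ / 4) (afm x₀ B z - x₀) * φ (afm x₀ B z)) with hψ
  have p0 : ∀ z, 0 ≤ ψ z := fun z =>
    mul_nonneg (by positivity) (mul_nonneg (tent_nonneg _ _) (h0 _).1)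
  have p1 : ∀ z, ψ z ≤ 1 := fun z => by
    have h1 := mul_le_mul (tent_le (show 0 ≤ R₀ / 4 by positivity) (afm x₀ B z - x₀))
      (h0 (afm x₀ B z)).2 (h0 _).1 (by positivity)
    rw [hψ]
    simp only
    rw [inv_mul_le_iff₀ (by positivity)]
    linarith
  have p2 : ∀ z, 1 / 2 ≤ ‖z‖ → ψ z = 0 := fun z hz => by
    have h1 := h.f.le_cen x₀ z
    rw [hψ]
    simp only
    rw [tent_zero (by nlinarith), zero_mul, mul_zero]
  have H := hS ψ p0 hL p2
  have iψ : ∀ {f : E d → ℝ}, Continuous f → Integrable fun z => ψ z * f z := fun hf =>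
    (hL.continuous.mul hf).integrable_of_hasCompactSupport
      (HasCompactSupport.intro (isCompact_closedBall (0 : E d) (1 / 2)) fun z hz => by
        have := p2 z (not_le.1 fun h1 => hz (mem_closedBall_zero_iff.2 h1)).le
        simp [this])
  have cg : Continuous fun x => D.t x + D.cc x + D.ee x := (h.g.c_t.add h.g.c_cc).add h.g.c_ee
  have g0 : ∀ x, 0 ≤ D.t x + D.cc x + D.ee x := fun x =>
    add_nonneg (add_nonneg (h.g.t_nonneg x) (h.g.cc_nonneg x)) (h.g.ee_nonneg x)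
  have b25 : ball (0 : E d) 2 ⊆ ball 0 5 := ball_subset_ball (by norm_num)
  have ig : IntegrableOn (fun z => D.t (afm x₀ B z) + D.cc (afm x₀ B z) + D.ee (afm x₀ B z))
      (ball (0 : E d) 2) := integrableOn_bdd (cg.comp ca) isBounded_ball
  have it := iψ (f := fun z => D.t (afm x₀ B z)) (h.g.c_t.comp ca)
  have H1 : ∫ z, ψ z * D.t (afm x₀ B z) ≤ ∫ z in ball (0 : E d) 2,
      (D.t (afm x₀ B z) + D.cc (afm x₀ B z) + D.ee (afm x₀ B z)) := by
    rw [← integral_indicator measurableSet_ball]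
    refine integral_mono it (ig.integrable_indicator measurableSet_ball) fun z => ?_
    simp only
    by_cases hz : z ∈ ball (0 : E d) 2
    · rw [indicator_of_mem hz]
      linarith [mul_le_of_le_one_left (h.g.t_nonneg (afm x₀ B z)) (p1 z),
        h.g.cc_nonneg (afm x₀ B z), h.g.ee_nonneg (afm x₀ B z)]
    · rw [indicator_of_notMem hz, p2 z (by
        linarith [not_lt.1 fun h1 => hz (mem_ball_zero_iff.2 h1)]), zero_mul]
  have H2 : ∫ y in ball (0 : E d) 2, ((D.cell L R₀ lam x₀ A B).τ y + (D.cell L R₀ lam x₀ A B).ee y) ≤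
      R₀ ^ 2 / lam ^ 2 * (2 * d + 3) * ∫ z in ball (0 : E d) 2,
        (D.t (afm x₀ B z) + D.cc (afm x₀ B z) + D.ee (afm x₀ B z)) := by
    rw [← integral_const_mul]
    refine setIntegral_mono_on (integrableOn_bdd (h.c_τ.add h.c_ee) isBounded_ball)
      (ig.const_mul _) measurableSet_ball fun z hz => (add_le_add (h.τ_le (b25 hz)) le_rfl).trans ?_
    show _ + _ * _ ≤ _
    rw [← mul_add, mul_assoc (R₀ ^ 2 / lam ^ 2)]
    refine mul_le_mul_of_nonneg_left ?_ hs.le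
    have h1 := h.g.t_nonneg (afm x₀ B z)
    have h2 := h.g.cc_nonneg (afm x₀ B z)
    have h3 := h.g.ee_nonneg (afm x₀ B z)
    nlinarith [mul_le_mul_of_nonneg_right h.μ_le h1, mul_nonneg hd h1, mul_nonneg hd h3]
  have H3 := setIntegral_afm_le (x₀ := x₀) (B := B) cg (S := ball x₀ (3 * R₀)) (T := ball 0 2)
    measurableSet_ball isBounded_ball (fun x _ => g0 x) fun z hz => by
      have h1 := h.f.cen_le x₀ z
      have h2 := mem_ball_zero_iff.1 hz
      rw [mem_ball_iff_norm]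
      nlinarith
  have cβ : Continuous (D.cell L R₀ lam x₀ A B).β := (continuous_const.mul h.c_ε).sub h.c_τ
  have H4 : ∫ z, R₀ ^ 2 / lam ^ 2 * (ψ z * (2 * D.ε (afm x₀ B z) - D.t (afm x₀ B z) -
      2 * l * D.t (afm x₀ B z) - (2 * d + C₁ * (d + 2)) * (D.ee (afm x₀ B z) +
      D.cc (afm x₀ B z)))) ≤ ∫ z, (ψ z * (D.cell L R₀ lam x₀ A B).β z -
      l * (ψ z * (D.cell L R₀ lam x₀ A B).τ z) - C₁ * (ψ z * (D.cell L R₀ lam x₀ A B).ee z) +
      R₀ ^ 2 / lam ^ 2 * ((1 + C₁) * (2 * d * Real.exp (-8 * L))) * (ψ z * D.t (afm x₀ B z))) := by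
    refine integral_mono ((iψ ?_).const_mul _) ((((iψ cβ).sub ((iψ h.c_τ).const_mul _)).sub
      ((iψ h.c_ee).const_mul _)).add (it.const_mul _)) fun z => ?_
    · have := h.g.c_ε
      have := h.g.c_t
      have := h.g.c_ee
      have := h.g.c_cc
      fun_prop
    simp only
    by_cases hz : z ∈ ball (0 : E d) 5
    · have h1 := mul_le_mul_of_nonneg_left (h.τ_le hz) hl0
      have h2 := (abs_le.1 (h.tr_near hz)).1
      have h3 := h.g.cc_nonneg (afm x₀ B z)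
      have h4 := h.g.ee_nonneg (afm x₀ B z)
      have h5 : R₀ ^ 2 / lam ^ 2 * (2 * D.ε (afm x₀ B z) - D.t (afm x₀ B z) -
          2 * l * D.t (afm x₀ B z) - (2 * d + C₁ * (d + 2)) * (D.ee (afm x₀ B z) +
          D.cc (afm x₀ B z))) ≤ (D.cell L R₀ lam x₀ A B).β z - l * (R₀ ^ 2 / lam ^ 2 *
          (2 * D.t (afm x₀ B z) + d * D.cc (afm x₀ B z))) - C₁ * (D.cell L R₀ lam x₀ A B).ee z +
          R₀ ^ 2 / lam ^ 2 * ((1 + C₁) * (2 * d * Real.exp (-8 * L))) * D.t (afm x₀ B z) := by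
        rw [h.β_eq]
        show _ ≤ _ - _ - C₁ * (_ * _) + _
        rw [mul_left_comm l, mul_left_comm C₁, mul_assoc (R₀ ^ 2 / lam ^ 2), ← mul_sub, ← mul_sub,
          ← mul_add]
        refine mul_le_mul_of_nonneg_left ?_ hs.le
        nlinarith [mul_nonneg hd h4, mul_nonneg (mul_nonneg hC₁ hd) h4,
          mul_le_of_le_one_left (mul_nonneg hd h3) hl1]
      nlinarith [mul_le_mul_of_nonneg_left h5 (p0 z), mul_le_mul_of_nonneg_left h1 (p0 z)]
    · rw [p2 z (by linarith [not_lt.1 fun h1 => hz (mem_ball_zero_iff.2 h1)])]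
      simp
  rw [integral_add (f := fun z => ψ z * (D.cell L R₀ lam x₀ A B).β z -
      l * (ψ z * (D.cell L R₀ lam x₀ A B).τ z) - C₁ * (ψ z * (D.cell L R₀ lam x₀ A B).ee z))
    (((iψ cβ).sub ((iψ h.c_τ).const_mul _)).sub ((iψ h.c_ee).const_mul _))
    (it.const_mul _), integral_three (iψ cβ) (iψ h.c_τ) (iψ h.c_ee),
    integral_const_mul, integral_const_mul] at H4
  have H5 := integral_afm (x₀ := x₀) (B := B) fun x => (2 * R₀)⁻¹ * (tent (R₀ / 4) (x - x₀) *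
    (φ x * (2 * D.ε x - D.t x - 2 * l * D.t x - (2 * d + C₁ * (d + 2)) * (D.ee x + D.cc x))))
  rw [integral_const_mul (2 * R₀)⁻¹ fun x => tent (R₀ / 4) (x - x₀) * _] at H5
  simp only [hψ, mul_assoc (2 * R₀)⁻¹, mul_assoc (tent _ _)] at H4
  rw [H5] at H4
  simp only [hψ, mul_assoc (2 * R₀)⁻¹, mul_assoc (tent _ _)] at H H1
  have H6 : Real.exp (-8 * L) ≤ Real.exp (-L / 2) :=
    Real.exp_le_exp.2 (by linarith [h.L_ge.2.2.1])
  have H7 : 0 ≤ ∫ z in ball (0 : E d) 2,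
      (D.t (afm x₀ B z) + D.cc (afm x₀ B z) + D.ee (afm x₀ B z)) :=
    setIntegral_nonneg measurableSet_ball fun z _ => g0 _
  have H8 := h.f.vf_le
  generalize ∫ x, tent (R₀ / 4) (x - x₀) * (φ x * (2 * D.ε x - D.t x - 2 * l * D.t x -
      (2 * d + C₁ * (d + 2)) * (D.ee x + D.cc x))) = I at *
  generalize ∫ x in ball x₀ (3 * R₀), (D.t x + D.cc x + D.ee x) = J at *
  generalize ∫ z in ball (0 : E d) 2,
      (D.t (afm x₀ B z) + D.cc (afm x₀ B z) + D.ee (afm x₀ B z)) = J' at *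
  have H9 : R₀ ^ 2 / lam ^ 2 * ((vf B)⁻¹ * ((2 * R₀)⁻¹ * I)) ≤ R₀ ^ 2 / lam ^ 2 *
      ((2 * d + C₁ * (4 * d + 3)) * Real.exp (-L / 2)) * ((vf B)⁻¹ * J) +
      C₁ * Real.exp (-L ^ 2) := by
    have a1 := mul_le_mul_of_nonneg_left H2 (show 0 ≤ C₁ * Real.exp (-L / 2) by positivity)
    have a2 := mul_le_mul (show R₀ ^ 2 / lam ^ 2 * ((1 + C₁) * (2 * d * Real.exp (-8 * L))) ≤
      R₀ ^ 2 / lam ^ 2 * ((1 + C₁) * (2 * d * Real.exp (-L / 2))) by gcongr) le_rfl H7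
      (by positivity)
    have a3 := mul_le_mul_of_nonneg_left H1 (show 0 ≤ R₀ ^ 2 / lam ^ 2 * ((1 + C₁) *
      (2 * d * Real.exp (-8 * L))) by positivity)
    have a4 := mul_le_mul_of_nonneg_left H3 (show 0 ≤ R₀ ^ 2 / lam ^ 2 *
      ((2 * d + C₁ * (4 * d + 3)) * Real.exp (-L / 2)) by positivity)
    linarith
  calc I = vf B * (2 * R₀) * (lam ^ 2 / R₀ ^ 2) *
        (R₀ ^ 2 / lam ^ 2 * ((vf B)⁻¹ * ((2 * R₀)⁻¹ * I))) := by field_simp
    _ ≤ vf B * (2 * R₀) * (lam ^ 2 / R₀ ^ 2) * _ := mul_le_mul_of_nonneg_left H9 (by positivity)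
    _ = 2 * R₀ * ((2 * d + C₁ * (4 * d + 3)) * Real.exp (-L / 2)) * J +
        2 * R₀ * vf B * (C₁ * Real.exp (-L ^ 2) * (lam ^ 2 / R₀ ^ 2)) := by field_simp
    _ ≤ _ := by gcongr

end CH

theorem cell_sum (hd : 1 ≤ d) (hS : SLemL (E d) ι) : CellSum d ι := by
  intro Q C A hC
  have hv := vu_pos (X := E d)
  set K : ℝ := 6 ^ d * (1 + 100 * d * vu (E d)) + (d + 2) * 2 ^ (d + 1) + 4 with hK
  have k1 : (0 : ℝ) ≤ 6 ^ d * (1 + 100 * d * vu (E d)) := by positivity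
  have k2 : (0 : ℝ) ≤ (d + 2) * 2 ^ (d + 1) := by positivity
  obtain ⟨γ, hγ, C₁, L₀, hC₁, H⟩ := hS Q (C * K) (A + 1) (by nlinarith)
  refine ⟨γ / 2, half_pos hγ, 16 * 24 ^ d * (2 * d + C₁ * (4 * d + 3)), max (max L₀ (2 ^ (2 / γ)))
    (2 ^ (d + 2) + (d + 3) * (C * K) + 4), by positivity, fun L hL D R R₀ ρ lam g φ r h0 hφ hr hr0
    hR => ?_⟩
  have l0 : L₀ ≤ L := (le_max_left _ _).trans ((le_max_left _ _).trans hL)
  have l1 : 2 ^ (2 / γ) ≤ L := (le_max_right _ _).trans ((le_max_left _ _).trans hL)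
  have l2 := (le_max_right _ _).trans hL
  have l3 : 1 ≤ L := (Real.one_le_rpow one_le_two (by positivity)).trans l1
  have l4 : 2 * L ^ (-(1 + γ)) ≤ L ^ (-(1 + γ / 2)) := by
    have h1 := Real.rpow_le_rpow (by positivity) l1 (half_pos hγ).le
    rw [← Real.rpow_mul zero_le_two, show 2 / γ * (γ / 2) = 1 by field_simp, Real.rpow_one] at h1
    rw [show -(1 + γ / 2) = γ / 2 + -(1 + γ) by ring, Real.rpow_add (by linarith)]
    exact mul_le_mul_of_nonneg_right h1 (by positivity)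
  have hR₀ := g.R₀_pos
  have hl := g.lam_pos
  have cφ := continuous_of_abs_le hR₀ hφ
  have c1 := g.c_ε
  have c2 := g.c_t
  have c3 := g.c_ee
  have c4 := g.c_cc
  have g0 : ∀ x, 0 ≤ D.t x + D.cc x + D.ee x := fun x =>
    add_nonneg (add_nonneg (g.t_nonneg x) (g.cc_nonneg x)) (g.ee_nonneg x)
  have h1 := avg_cells (f := fun x => φ x * (2 * D.ε x - D.t x - 2 * L ^ (-(1 + γ)) * D.t x -
    (2 * d + C₁ * (d + 2)) * (D.ee x + D.cc x))) (g := fun x => D.t x + D.cc x + D.ee x)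
    (σ := R₀ / 4) (s := 3 * R₀)
    (a := 2 * R₀ * ((2 * d + C₁ * (4 * d + 3)) * Real.exp (-L / 2)))
    (b := 2 * R₀ * (2 * R₀) ^ d * (C₁ * Real.exp (-L ^ 2) * (lam ^ 2 / R₀ ^ 2)))
    (by fun_prop) (by fun_prop) hr0 (by positivity) (by positivity) (by positivity)
    (fun x hx => by rw [hr x hx, zero_mul]) (fun x _ => g0 x) fun c hc => by
      have h2 := mem_ball_zero_iff.1 hc
      have h3 : c ∈ ball (0 : E d) R := mem_ball_zero_iff.2 (by linarith)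
      obtain ⟨A', B, f⟩ := exists_frm (g.gm_symm c h3) (g.gm_one c h3) hR₀
      have ch : CH D Q C K L A R R₀ ρ lam c A' B :=
        ⟨g, f, by linarith, hd, hC, by linarith, by linarith, by linarith, l2⟩
      exact ch.one h0 hφ (by positivity) (Real.rpow_le_one_of_one_le_of_nonpos l3 (by linarith))
        hC₁ (H L l0 _ ch.locW)
  have h2 := integral_tent_ge (X := E d) (show 0 < R₀ / 4 by positivity)
  rw [finrank_euclideanSpace_fin] at h1 h2
  have iφ : ∀ {f : E d → ℝ}, Continuous f → Integrable fun z => φ z * f z := fun hf =>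
    (cφ.mul hf).integrable_of_hasCompactSupport
      (HasCompactSupport.intro (isCompact_closedBall (0 : E d) r) fun z hz => by
        have := hr z (not_le.1 fun h1 => hz (mem_closedBall_zero_iff.2 h1)).le
        simp [this])
  have i1 := iφ (f := fun x => 2 * D.ε x - D.t x) (by fun_prop)
  have i3 := iφ (f := fun x => D.ee x + D.cc x) (by fun_prop)
  have e1 : ∫ x, φ x * (2 * D.ε x - D.t x - 2 * L ^ (-(1 + γ)) * D.t x -
      (2 * d + C₁ * (d + 2)) * (D.ee x + D.cc x)) = (∫ x, φ x * (2 * D.ε x - D.t x)) -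
      2 * L ^ (-(1 + γ)) * (∫ x, φ x * D.t x) -
      (2 * d + C₁ * (d + 2)) * ∫ x, φ x * (D.ee x + D.cc x) := by
    rw [← integral_three i1 (iφ c2) i3]
    exact integral_congr_ae (Eventually.of_forall fun x => by simp only; ring)
  have h3 : ∫ x in ball (0 : E d) (r + R₀ / 4 + 3 * R₀), (D.t x + D.cc x + D.ee x) ≤
      ∫ x in ball (0 : E d) (r + 4 * R₀), (D.t x + D.cc x + D.ee x) :=
    setIntegral_mono_set (integrableOn_bdd (by fun_prop) isBounded_ball) (Eventually.of_forall g0)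
      (LE.le.eventuallyLE (ball_subset_ball (by linarith)))
  have h4 : 0 ≤ ∫ x in ball (0 : E d) (r + R₀ / 4 + 3 * R₀), (D.t x + D.cc x + D.ee x) :=
    setIntegral_nonneg measurableSet_ball fun x _ => g0 x
  have h5 : 0 ≤ ∫ x, φ x * D.t x := integral_nonneg fun x => mul_nonneg (h0 x).1 (g.t_nonneg x)
  have h6 : 0 ≤ ∫ x, φ x * (D.ee x + D.cc x) :=
    integral_nonneg fun x => mul_nonneg (h0 x).1 (add_nonneg (g.ee_nonneg x) (g.cc_nonneg x))
  have h7 : (1 : ℝ) ≤ 24 ^ d := one_le_pow₀ (by norm_num)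
  have h8 : 2 * d + C₁ * (d + 2) ≤ 16 * 24 ^ d * (2 * d + C₁ * (4 * d + 3)) :=
    le_trans (by nlinarith [mul_nonneg hC₁ (show (0 : ℝ) ≤ d by positivity)])
      (le_mul_of_one_le_left (by positivity) (by linarith))
  have h9 := mul_le_mul_of_nonneg_right l4 h5
  have h10 := mul_le_mul_of_nonneg_right h8 h6
  generalize ∫ x, φ x * (2 * D.ε x - D.t x - 2 * L ^ (-(1 + γ)) * D.t x -
      (2 * d + C₁ * (d + 2)) * (D.ee x + D.cc x)) = I at *
  generalize ∫ x in ball (0 : E d) (r + R₀ / 4 + 3 * R₀), (D.t x + D.cc x + D.ee x) = J at *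
  generalize ∫ x in ball (0 : E d) (r + 4 * R₀), (D.t x + D.cc x + D.ee x) = J' at *
  have h11 : I ≤ 16 * 24 ^ d * (2 * d + C₁ * (4 * d + 3)) * Real.exp (-L / 2) * J' +
      16 * 24 ^ d * (2 * d + C₁ * (4 * d + 3)) * Real.exp (-L ^ 2) * (lam ^ 2 / R₀ ^ 2) *
        (r + R₀) ^ d := by
    have hJ := h4.trans h3
    rcases le_or_gt I 0 with hI | hI
    · exact hI.trans (by positivity)
    refine le_of_mul_le_mul_left (((mul_le_mul_of_nonneg_right h2 hI.le).trans h1).trans ?_)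
      (by positivity)
    have a1 : (2 * R₀) ^ d * C₁ ≤ (3 * R₀) ^ d * (2 * d + C₁ * (4 * d + 3)) :=
      mul_le_mul (pow_le_pow_left₀ (by positivity) (by linarith) d)
        (by nlinarith [mul_nonneg hC₁ (show (0 : ℝ) ≤ d by positivity)]) hC₁ (by positivity)
    have a2 : (3 * R₀) ^ d = 24 ^ d * (R₀ / 4 / 2) ^ d := by
      rw [← mul_pow]
      congr 1
      ring
    calc _ = 2 * R₀ * ((2 * d + C₁ * (4 * d + 3)) * Real.exp (-L / 2)) *
          ((3 * R₀) ^ d * vu (E d)) * J + 2 * R₀ * ((2 * R₀) ^ d * C₁) * (Real.exp (-L ^ 2) *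
          (lam ^ 2 / R₀ ^ 2)) * ((r + R₀ / 4) ^ d * vu (E d)) := by ring
      _ ≤ 2 * R₀ * ((2 * d + C₁ * (4 * d + 3)) * Real.exp (-L / 2)) *
          ((3 * R₀) ^ d * vu (E d)) * J' + 2 * R₀ * ((3 * R₀) ^ d * (2 * d + C₁ * (4 * d + 3))) *
          (Real.exp (-L ^ 2) * (lam ^ 2 / R₀ ^ 2)) * ((r + R₀) ^ d * vu (E d)) := by
          gcongr
          linarith
      _ = _ := by rw [a2]; ring
  linarith

end Pool.Agent.Lib.MP_8daebb_an.GM
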