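import Pool.Agent.Lib.MP_8daebb_an.GM.ChLin

/-! First jets: the metric, its inverse, the volume element and the tangential projection. -/

open Finset
open scoped RealInnerProductSpace

namespace Pool.Agent.Lib.MP_8daebb_an.GM.Ch

variable {d : ℕ} {H : Type*} [NormedAddCommGroup H] [InnerProductSpace ℝ H]
  [FiniteDimensional ℝ H]

section ops
variable {X Y Z : Type*} [NormedAddCommGroup X] [InnerProductSpace ℝ X] [FiniteDimensional ℝ X]
  [NormedAddCommGroup Y] [InnerProductSpace ℝ Y] [FiniteDimensional ℝ Y]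
  [NormedAddCommGroup Z] [InnerProductSpace ℝ Z] [FiniteDimensional ℝ Z]

theorem inner_ad_left (A : X →L[ℝ] Y) (y : Y) (x : X) : ⟪ad A y, x⟫ = ⟪y, A x⟫ := by
  rw [ad_apply, ContinuousLinearMap.adjoint_inner_left]

theorem inner_ad_right (A : X →L[ℝ] Y) (x : X) (y : Y) : ⟪x, ad A y⟫ = ⟪A x, y⟫ := by
  rw [ad_apply, ContinuousLinearMap.adjoint_inner_right]

theorem norm_ad (A : X →L[ℝ] Y) : ‖ad A‖ = ‖A‖ := by
  rw [ad_apply]
  exact LinearIsometryEquiv.norm_map _ _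

theorem ad_ad (A : X →L[ℝ] Y) : ad (ad A) = A := by
  rw [ad_apply, ad_apply, ContinuousLinearMap.adjoint_adjoint]

theorem ad_comp (A : Y →L[ℝ] Z) (B : X →L[ℝ] Y) : ad (A.comp B) = (ad B).comp (ad A) := by
  rw [ad_apply, ad_apply, ad_apply, ContinuousLinearMap.adjoint_comp]

theorem ad_of_symm {M : X →L[ℝ] X} (h : ∀ v u, ⟪M v, u⟫ = ⟪v, M u⟫) : ad M = M := by
  ext1 v
  refine ext_inner_right ℝ fun u => ?_
  rw [inner_ad_left, h]

theorem trH_ad (M : X →L[ℝ] X) : trH (ad M) = trH M := by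
  rw [ad_apply, trH_adjoint]

theorem inner_shL (A : X →L[ℝ] X →L[ℝ] Y) (y : Y) (v u : X) : ⟪shL A y v, u⟫ = ⟪y, A v u⟫ := by
  rw [shL_apply, inner_ad_left]

theorem norm_shL_le (A : X →L[ℝ] X →L[ℝ] Y) (y : Y) : ‖shL A y‖ ≤ ‖A‖ * ‖y‖ := by
  refine ContinuousLinearMap.opNorm_le_bound _ (by positivity) fun v => ?_
  rw [shL_apply]
  have h1 := (ad (A v)).le_opNorm y
  rw [norm_ad] at h1
  have h2 := mul_le_mul_of_nonneg_right (A.le_opNorm v) (norm_nonneg y)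
  linarith

theorem shL_symm {A : X →L[ℝ] X →L[ℝ] Y} (h : ∀ v u, A v u = A u v) (y : Y) (v u : X) :
    ⟪shL A y v, u⟫ = ⟪v, shL A y u⟫ := by
  rw [inner_shL, real_inner_comm (shL A y u) v, inner_shL, h]

theorem inv_near {M : X →L[ℝ] X} {η : ℝ} (h : ‖M - 1‖ ≤ η) (hη : η ≤ 1 / 2) :
    IsUnit M ∧ ‖Ring.inverse M - 1‖ ≤ η * (1 + 2 * η) ∧ ‖Ring.inverse M‖ ≤ 1 + 2 * η := by
  have hη0 : 0 ≤ η := (norm_nonneg _).trans h
  have h1 : ‖1 - M‖ ≤ η := by rwa [norm_sub_rev]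
  have hu : IsUnit M := by
    have := (Units.oneSub (1 - M) (by linarith)).isUnit
    simpa using this
  have h2 : Ring.inverse M - 1 = Ring.inverse M * (1 - M) := by
    rw [mul_sub, mul_one, Ring.inverse_mul_cancel _ hu]
  have h3 : ‖Ring.inverse M - 1‖ ≤ ‖Ring.inverse M‖ * η := by
    rw [h2]
    exact (norm_mul_le _ _).trans (mul_le_mul_of_nonneg_left h1 (norm_nonneg _))
  have h4 : ‖(1 : X →L[ℝ] X)‖ ≤ 1 := ContinuousLinearMap.norm_id_le
  have h5 : ‖Ring.inverse M‖ ≤ ‖Ring.inverse M - 1‖ + 1 := by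
    have := norm_add_le (Ring.inverse M - 1) 1
    rw [sub_add_cancel] at this
    linarith
  have h0 := norm_nonneg (Ring.inverse M)
  have h6 : ‖Ring.inverse M‖ ≤ 2 := by nlinarith
  have h7 : ‖Ring.inverse M‖ ≤ 1 + 2 * η := by nlinarith
  exact ⟨hu, by nlinarith, h7⟩

theorem inv_symm {M : X →L[ℝ] X} (hM : IsUnit M) (h : ∀ v u, ⟪M v, u⟫ = ⟪v, M u⟫) (v u : X) :
    ⟪Ring.inverse M v, u⟫ = ⟪v, Ring.inverse M u⟫ := by
  have e : ∀ z, M (Ring.inverse M z) = z := fun z => by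
    rw [← mul_apply_eq_comp, Ring.mul_inverse_cancel _ hM, one_apply_eq_self]
  conv_lhs => rw [← e u, ← h, e]

end ops

omit [FiniteDimensional ℝ H] in
theorem cH_ge : 1000 ≤ cH H := by
  have h0 : (0 : ℝ) ≤ Module.finrank ℝ H := Nat.cast_nonneg _
  rw [cH]
  nlinarith

variable {ε : ℝ} {D : E d →L[ℝ] H}

theorem gm_apply (D : E d →L[ℝ] H) (v : E d) : gm D v = ad D (D v) := rfl

theorem inner_gm (D : E d →L[ℝ] H) (v u : E d) : ⟪gm D v, u⟫ = ⟪D v, D u⟫ := by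
  rw [gm_apply, inner_ad_left]

theorem gm_symm (D : E d →L[ℝ] H) (v u : E d) : ⟪gm D v, u⟫ = ⟪v, gm D u⟫ := by
  rw [inner_gm, gm_apply, inner_ad_right]

theorem pT_apply (D : E d →L[ℝ] H) (u : H) : pT D u = D (gi D (ad D u)) := rfl

theorem am_apply (D : E d →L[ℝ] H) (v : E d) : am D v = wt D • gi D v := rfl

/-- A map close to an isometry is a first jet. -/
theorem jet0_of_near (ι : E d →ₗᵢ[ℝ] H) (h : ‖D - ι.toContinuousLinearMap‖ ≤ ε)
    (hε : cH H * ε ≤ 1) : Jet0 ε D := by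
  have hε0 : 0 ≤ ε := (norm_nonneg _).trans h
  have hε1 : ε ≤ 1 := by nlinarith [cH_ge (H := H)]
  refine ⟨hε0, hε, ?_⟩
  set J := ι.toContinuousLinearMap with hJ
  have hJ1 : ‖J‖ ≤ 1 := ι.norm_toContinuousLinearMap_le
  have e1 : (ad J).comp J = 1 := by
    ext1 v
    refine ext_inner_right ℝ fun u => ?_
    rw [ContinuousLinearMap.comp_apply, inner_ad_left, one_apply_eq_self]
    exact ι.inner_map_map v u
  have e2 : gm D - 1 = (ad J).comp (D - J) + (ad (D - J)).comp J + (ad (D - J)).comp (D - J) := by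
    rw [← e1, gm]
    simp only [map_sub, ContinuousLinearMap.comp_sub, ContinuousLinearMap.sub_comp]
    abel
  have n1 := (ad J).opNorm_comp_le (D - J)
  have n2 := (ad (D - J)).opNorm_comp_le J
  have n3 := (ad (D - J)).opNorm_comp_le (D - J)
  rw [norm_ad] at n1 n2 n3
  have n4 := norm_add₃_le (a := (ad J).comp (D - J)) (b := (ad (D - J)).comp J)
    (c := (ad (D - J)).comp (D - J))
  have n0 := norm_nonneg (D - J)
  have n5 := norm_nonneg J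
  rw [e2]
  nlinarith

theorem Jet0.mono (h : Jet0 ε D) {ε' : ℝ} (h1 : ε ≤ ε') (h2 : cH H * ε' ≤ 1) : Jet0 ε' D := by
  exact ⟨h.eps0.trans h1, h2, h.g1.trans (by linarith)⟩

theorem Jet0.eps_le (h : Jet0 ε D) : ε ≤ 1 / 1000 := by
  nlinarith [h.eps0, h.eps1, cH_ge (H := H)]

theorem le_of_sq_le_sq_ChB1 {a b : ℝ} (hb : 0 ≤ b) (h : a ^ 2 ≤ b ^ 2) : a ≤ b :=
  (abs_le_of_sq_le_sq' h hb).2

theorem Jet0.sq_ChB1 (h : Jet0 ε D) (v : E d) :
    (1 - 3 * ε) * ‖v‖ ^ 2 ≤ ‖D v‖ ^ 2 ∧ ‖D v‖ ^ 2 ≤ (1 + 3 * ε) * ‖v‖ ^ 2 := by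
  have h1 : ⟪(gm D - 1) v, v⟫ = ‖D v‖ ^ 2 - ‖v‖ ^ 2 := by
    rw [sub_apply, inner_sub_left, inner_gm, one_apply_eq_self, real_inner_self_eq_norm_sq,
      real_inner_self_eq_norm_sq]
  have h2 := abs_real_inner_le_norm ((gm D - 1) v) v
  have h3 := mul_le_mul_of_nonneg_right ((gm D - 1).le_of_opNorm_le h.g1 v) (norm_nonneg v)
  rw [h1] at h2
  have h4 := abs_le.1 (h2.trans h3)
  constructor <;> nlinarith [h4.1, h4.2]

theorem Jet0.d_le (h : Jet0 ε D) : d ≤ Module.finrank ℝ H := by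
  have hi : Function.Injective (D : E d →ₗ[ℝ] H) := by
    rw [injective_iff_map_eq_zero]
    intro v hv
    have h1 := (h.sq_ChB1 v).1
    have h2 := h.eps_le
    rw [ContinuousLinearMap.coe_coe] at hv
    rw [hv, norm_zero] at h1
    have h3 : ‖v‖ ^ 2 ≤ 0 := by nlinarith [sq_nonneg ‖v‖]
    exact norm_eq_zero.1 (pow_eq_zero_iff two_ne_zero |>.1 (le_antisymm h3 (sq_nonneg _)))
  simpa using LinearMap.finrank_le_finrank_of_injective hi

theorem Jet0.cH_d (h : Jet0 ε D) : 1000 * ((d : ℝ) + 1) ^ 2 ≤ cH H := by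
  have h1 : (d : ℝ) ≤ Module.finrank ℝ H := Nat.cast_le.2 h.d_le
  have h0 : (0 : ℝ) ≤ d := Nat.cast_nonneg _
  rw [cH]
  nlinarith

theorem Jet0.dd_eps (h : Jet0 ε D) : ((d : ℝ) + 1) ^ 2 * ε ≤ 1 / 1000 := by
  nlinarith [mul_le_mul_of_nonneg_right h.cH_d h.eps0, h.eps1]

theorem Jet0.d_eps (h : Jet0 ε D) : (d : ℝ) * ε ≤ 1 / 1000 := by
  have h0 : (0 : ℝ) ≤ d := Nat.cast_nonneg _
  have h1 : (d : ℝ) ≤ ((d : ℝ) + 1) ^ 2 := by nlinarith
  exact (mul_le_mul_of_nonneg_right h1 h.eps0).trans h.dd_eps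

theorem Jet0.unit (h : Jet0 ε D) : IsUnit (gm D) := by
  exact (inv_near h.g1 (by linarith [h.eps_le])).1

theorem Jet0.gm_gi (h : Jet0 ε D) (v : E d) : gm D (gi D v) = v := by
  rw [gi, ← mul_apply_eq_comp, Ring.mul_inverse_cancel _ h.unit, one_apply_eq_self]

theorem Jet0.gi_gm (h : Jet0 ε D) (v : E d) : gi D (gm D v) = v := by
  rw [gi, ← mul_apply_eq_comp, Ring.inverse_mul_cancel _ h.unit, one_apply_eq_self]

theorem Jet0.gi_symm (h : Jet0 ε D) (v u : E d) : ⟪gi D v, u⟫ = ⟪v, gi D u⟫ := by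
  exact inv_symm h.unit (gm_symm D) v u

theorem Jet0.gi_near (h : Jet0 ε D) : ‖gi D - 1‖ ≤ 4 * ε := by
  refine (inv_near h.g1 (by linarith [h.eps_le])).2.1.trans ?_
  nlinarith [h.eps_le, h.eps0]

theorem Jet0.norm_gi (h : Jet0 ε D) : ‖gi D‖ ≤ 101 / 100 := by
  refine (inv_near h.g1 (by linarith [h.eps_le])).2.2.trans ?_
  linarith [h.eps_le]

theorem Jet0.norm_gm (h : Jet0 ε D) : ‖gm D‖ ≤ 101 / 100 := by
  have h4 : ‖(1 : E d →L[ℝ] E d)‖ ≤ 1 := ContinuousLinearMap.norm_id_le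
  have h5 := norm_add_le (gm D - 1) 1
  rw [sub_add_cancel] at h5
  linarith [h.g1, h.eps_le]

theorem Jet0.norm_D_le (h : Jet0 ε D) : ‖D‖ ≤ 1 + 2 * ε := by
  have h0 := h.eps0
  refine ContinuousLinearMap.opNorm_le_bound _ (by positivity) fun v => ?_
  refine (pow_le_pow_iff_left₀ (norm_nonneg _) (by positivity) two_ne_zero).1 ?_
  refine (h.sq_ChB1 v).2.trans ?_
  rw [mul_pow]
  exact mul_le_mul_of_nonneg_right (by nlinarith) (sq_nonneg _)

theorem Jet0.norm_D (h : Jet0 ε D) : ‖D‖ ≤ 101 / 100 := by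
  linarith [h.norm_D_le, h.eps_le]

theorem Jet0.norm_D_low (h : Jet0 ε D) (v : E d) : (1 - 3 * ε) * ‖v‖ ≤ ‖D v‖ := by
  have h0 := h.eps0
  have h1 := h.eps_le
  refine le_of_sq_le_sq_ChB1 (norm_nonneg _) (le_trans ?_ (h.sq_ChB1 v).1)
  rw [mul_pow]
  exact mul_le_mul_of_nonneg_right (by nlinarith) (sq_nonneg _)

theorem Jet0.det_near (h : Jet0 ε D) : |(gm D).det - 1| ≤ 4 * d * ε := by
  have h0 : (0 : ℝ) ≤ d := Nat.cast_nonneg _
  have h1 : d * ‖gm D - 1‖ ≤ 3 * (d * ε) := by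
    nlinarith [mul_le_mul_of_nonneg_left h.g1 h0]
  have h2 := h.d_eps
  have h3 : 0 ≤ d * ‖gm D - 1‖ := by positivity
  have h4 := det_one_add (M := gm D - 1) (fun v u => by
    rw [sub_apply, sub_apply, inner_sub_left, inner_sub_right, gm_symm, one_apply_eq_self,
      one_apply_eq_self]) (by linarith)
  rw [add_sub_cancel] at h4
  have h5 := abs_trH_le (gm D - 1)
  have h6 := abs_add_le ((gm D).det - 1 - trH (gm D - 1)) (trH (gm D - 1))
  rw [sub_add_cancel] at h6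
  have h7 : 0 ≤ d * ε := mul_nonneg h0 h.eps0
  nlinarith

theorem Jet0.wt_sq (h : Jet0 ε D) : wt D ^ 2 = (gm D).det := by
  have h1 := (abs_le.1 h.det_near).1
  rw [wt, Real.sq_sqrt (by linarith [h.d_eps])]

theorem Jet0.wt_near' (h : Jet0 ε D) : |wt D - 1| ≤ 4 * d * ε := by
  refine le_trans ?_ h.det_near
  have h0 : 0 ≤ wt D := Real.sqrt_nonneg _
  rw [← h.wt_sq, show wt D ^ 2 - 1 = (wt D - 1) * (wt D + 1) by ring, abs_mul,
    abs_of_nonneg (by linarith : 0 ≤ wt D + 1)]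
  exact le_mul_of_one_le_right (abs_nonneg _) (by linarith)

theorem Jet0.wt_low (h : Jet0 ε D) : 99 / 100 ≤ wt D := by
  linarith [(abs_le.1 h.wt_near').1, h.d_eps]

theorem Jet0.wt_up (h : Jet0 ε D) : wt D ≤ 101 / 100 := by
  linarith [(abs_le.1 h.wt_near').2, h.d_eps]

theorem Jet0.wt_pos (h : Jet0 ε D) : 0 < wt D := by
  linarith [h.wt_low]

theorem Jet0.am_symm (h : Jet0 ε D) (v u : E d) : ⟪am D v, u⟫ = ⟪v, am D u⟫ := by
  rw [am_apply, am_apply, real_inner_smul_left, real_inner_smul_right, h.gi_symm]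

theorem Jet0.am_gm (h : Jet0 ε D) (v : E d) :
    am D (gm D v) = wt D • v ∧ gm D (am D v) = wt D • v := by
  rw [am_apply, am_apply, map_smul, h.gi_gm, h.gm_gi]
  exact ⟨rfl, rfl⟩

theorem Jet0.am_near (h : Jet0 ε D) : ‖am D - 1‖ ≤ 5 * (d + 1) * ε := by
  have e : am D - 1 = (wt D - 1) • gi D + (gi D - 1) := by
    ext1 v
    simp only [sub_apply, add_apply, smul_apply, am_apply, sub_smul, one_smul]
    abel
  have h0 : (0 : ℝ) ≤ d := Nat.cast_nonneg _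
  have h7 : 0 ≤ d * ε := mul_nonneg h0 h.eps0
  have h1 : ‖(wt D - 1) • gi D‖ ≤ 4 * d * ε * (101 / 100) := by
    rw [norm_smul, Real.norm_eq_abs]
    exact mul_le_mul h.wt_near' h.norm_gi (norm_nonneg _) (by linarith)
  rw [e]
  refine (norm_add_le _ _).trans ?_
  nlinarith [h.gi_near, h.eps0]

theorem Jet0.norm_am (h : Jet0 ε D) : ‖am D‖ ≤ 103 / 100 := by
  rw [am, norm_smul, Real.norm_eq_abs, abs_of_pos h.wt_pos]
  exact (mul_le_mul h.wt_up h.norm_gi (norm_nonneg _) (by norm_num)).trans (by norm_num)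

theorem Jet0.pT_symm (h : Jet0 ε D) (v u : H) : ⟪pT D v, u⟫ = ⟪v, pT D u⟫ := by
  rw [pT_apply, pT_apply, ← inner_ad_right, h.gi_symm, inner_ad_left]

theorem Jet0.pT_D (h : Jet0 ε D) (v : E d) : pT D (D v) = D v := by
  rw [pT_apply, ← gm_apply, h.gi_gm]

theorem Jet0.ad_pT (h : Jet0 ε D) (u : H) : ad D (pT D u) = ad D u := by
  rw [pT_apply, ← gm_apply, h.gm_gi]

theorem Jet0.pT_idem (h : Jet0 ε D) (u : H) : pT D (pT D u) = pT D u := by
  rw [pT_apply D u, h.pT_D]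

theorem Jet0.pyth (h : Jet0 ε D) (u : H) : ‖u‖ ^ 2 = ‖pT D u‖ ^ 2 + ‖u - pT D u‖ ^ 2 := by
  have h1 : ⟪pT D u, u - pT D u⟫ = 0 := by
    rw [h.pT_symm, map_sub, h.pT_idem, sub_self, inner_zero_right]
  have h2 := norm_add_sq_real (pT D u) (u - pT D u)
  rw [add_sub_cancel, h1] at h2
  linarith

theorem Jet0.norm_pT_le (h : Jet0 ε D) (u : H) : ‖pT D u‖ ≤ ‖u‖ := by
  refine le_of_sq_le_sq_ChB1 (norm_nonneg _) ?_
  linarith [h.pyth u, sq_nonneg ‖u - pT D u‖]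

theorem Jet0.norm_pn_le (h : Jet0 ε D) (u : H) : ‖u - pT D u‖ ≤ ‖u‖ := by
  refine le_of_sq_le_sq_ChB1 (norm_nonneg _) ?_
  linarith [h.pyth u, sq_nonneg ‖pT D u‖]

theorem Jet0.norm_pT_ad (h : Jet0 ε D) (u : H) : ‖pT D u‖ ≤ 103 / 100 * ‖ad D u‖ := by
  rw [pT_apply]
  have h1 := D.le_of_opNorm_le h.norm_D (gi D (ad D u))
  have h2 := (gi D).le_of_opNorm_le h.norm_gi (ad D u)
  have h3 := norm_nonneg (ad D u)
  linarith

theorem Jet0.tr_pT (h : Jet0 ε D) : trH (pT D) = d := by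
  have e : ((gi D).comp (ad D)).comp D = 1 := by
    ext1 v
    exact h.gi_gm v
  rw [pT, trH_comm, e, trH_one]

theorem Jet0.plane (h : Jet0 ε D) : IsPlane d (pT D) := by
  refine ⟨h.pT_symm, h.pT_idem, ?_⟩
  have hi : Function.Injective (D : E d →ₗ[ℝ] H) := by
    intro v u hv
    rw [ContinuousLinearMap.coe_coe] at hv
    rw [← h.gi_gm v, ← h.gi_gm u, gm_apply, gm_apply, hv]
  have e : LinearMap.range (pT D : H →ₗ[ℝ] H) = LinearMap.range (D : E d →ₗ[ℝ] H) := by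
    refine le_antisymm ?_ ?_
    · rintro _ ⟨u, rfl⟩
      exact ⟨_, (pT_apply D u).symm⟩
    · rintro _ ⟨v, rfl⟩
      exact ⟨D v, h.pT_D v⟩
  rw [e, LinearMap.finrank_range_of_inj hi, finrank_euclideanSpace_fin]

end Pool.Agent.Lib.MP_8daebb_an.GM.Ch
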