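import Pool.Agent.Lib.MP_8daebb_an.GM.ChB1

/-! Jets with a normal height: the derivatives of the base point and of the height. -/

open Finset
open scoped RealInnerProductSpace

namespace Pool.Agent.Lib.MP_8daebb_an.GM.Ch

variable {d : ℕ} {H : Type*} [NormedAddCommGroup H] [InnerProductSpace ℝ H]
  [FiniteDimensional ℝ H]

variable {ε : ℝ} {D : E d →L[ℝ] H} {A : E d →L[ℝ] E d →L[ℝ] H}
  {B : E d →L[ℝ] E d →L[ℝ] E d →L[ℝ] H} {y : H} {P : H →L[ℝ] H}

theorem tr_shL_ChB2 {M : E d →L[ℝ] E d} (hM : ∀ v u, ⟪M v, u⟫ = ⟪v, M u⟫)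
    (A : E d →L[ℝ] E d →L[ℝ] H) (e : H) :
    trH (M.comp (shL A e)) = ∑ i, ⟪e, A (eb i) (M (eb i))⟫ := by
  rw [trH_eq_sum (EuclideanSpace.basisFun (Fin d) ℝ)]
  refine sum_congr rfl fun i _ => ?_
  rw [EuclideanSpace.basisFun_apply, ContinuousLinearMap.comp_apply, ← hM, real_inner_comm,
    inner_shL]

theorem kk_apply_ChB2 (D : E d →L[ℝ] H) (A : E d →L[ℝ] E d →L[ℝ] H) (y : H) (v : E d) :
    kk D A y v = gm D v - shL A y v := rfl

theorem inner_trA (D : E d →L[ℝ] H) (A : E d →L[ℝ] E d →L[ℝ] H) (hD : ∀ v u, ⟪gi D v, u⟫ = ⟪v, gi D u⟫)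
    (e : H) : ⟪e, trA D A⟫ = trH ((gi D).comp (shL A e)) := by
  rw [tr_shL_ChB2 hD, trA, inner_sum]

theorem dG_apply (D : E d →L[ℝ] H) (A : E d →L[ℝ] E d →L[ℝ] H) (a v : E d) :
    dG D A a v = ad D (A a v) + ad (A a) (D v) := rfl

theorem dG_symm (D : E d →L[ℝ] H) (A : E d →L[ℝ] E d →L[ℝ] H) (a v u : E d) :
    ⟪dG D A a v, u⟫ = ⟪v, dG D A a u⟫ := by
  rw [dG_apply, dG_apply, inner_add_left, inner_add_right, inner_ad_left, inner_ad_left,
    inner_ad_right, inner_ad_right, add_comm]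

theorem dlw_apply (D : E d →L[ℝ] H) (A : E d →L[ℝ] E d →L[ℝ] H) (a : E d) :
    dlw D A a = trH (((gi D).comp (ad D)).comp (A a)) := rfl

theorem dx_apply (D : E d →L[ℝ] H) (A : E d →L[ℝ] E d →L[ℝ] H) (y u : H) :
    dx D A y u = ki D A y (ad D u) := rfl

theorem dy_apply (D : E d →L[ℝ] H) (A : E d →L[ℝ] E d →L[ℝ] H) (y u : H) :
    dy D A y u = u - D (dx D A y u) := rfl

theorem xi_apply (D : E d →L[ℝ] H) (A : E d →L[ℝ] E d →L[ℝ] H) (y : H) (v : E d) :
    xi D A y v = D (gi D (kk D A y v)) := rfl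

theorem Jet0.tr_dG (h : Jet0 ε D) (A : E d →L[ℝ] E d →L[ℝ] H) (a : E d) :
    trH ((gi D).comp (dG D A a)) = 2 * dlw D A a := by
  have h1 : trH ((gi D).comp ((ad (A a)).comp D)) = dlw D A a := by
    rw [← trH_ad, ad_comp, ad_comp, ad_ad, ad_of_symm h.gi_symm, trH_comm, dlw_apply]
    rfl
  rw [dG, ContinuousLinearMap.comp_add, trH_add, h1, two_mul]
  rfl

theorem Jet0.norm_dG (h : Jet0 ε D) (A : E d →L[ℝ] E d →L[ℝ] H) (a : E d) :
    ‖dG D A a‖ ≤ 3 * ‖A a‖ := by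
  have h1 := h.norm_D
  have h2 := norm_nonneg (A a)
  have h3 := ((ad D).opNorm_comp_le (A a))
  have h4 := ((ad (A a)).opNorm_comp_le D)
  rw [norm_ad] at h3 h4
  refine (norm_add_le _ _).trans ?_
  nlinarith

theorem Jet0.abs_dlw (h : Jet0 ε D) (A : E d →L[ℝ] E d →L[ℝ] H) (a : E d) :
    |dlw D A a| ≤ 2 * d * ‖A a‖ := by
  rw [dlw_apply]
  refine (abs_trH_le _).trans ?_
  have h1 : ‖(gi D).comp (ad D)‖ ≤ 2 := by
    refine ((gi D).opNorm_comp_le _).trans ?_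
    rw [norm_ad]
    have := mul_le_mul h.norm_gi h.norm_D (norm_nonneg _) (by norm_num)
    linarith
  have h2 : ‖((gi D).comp (ad D)).comp (A a)‖ ≤ 2 * ‖A a‖ :=
    (ContinuousLinearMap.opNorm_comp_le _ _).trans
      (mul_le_mul_of_nonneg_right h1 (norm_nonneg _))
  calc (d : ℝ) * ‖((gi D).comp (ad D)).comp (A a)‖ ≤ d * (2 * ‖A a‖) :=
        mul_le_mul_of_nonneg_left h2 (Nat.cast_nonneg d)
    _ = _ := by ring

theorem Jet.mono (h : Jet ε D A B y) {ε' : ℝ} (h1 : ε ≤ ε') (h2 : cH H * ε' ≤ 1) :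
    Jet ε' D A B y := by
  exact ⟨h.toJet0.mono h1 h2, h.n1.trans h1,
    fun a => (h.n2 a).trans (mul_le_mul_of_nonneg_right h1 (norm_nonneg a)),
    h.sA, h.sB, h.sB', h.har, h.har1, h.y1, h.nor⟩

theorem Jet.norm_A (h : Jet ε D A B y) (a : E d) : ‖A a‖ ≤ ε * ‖a‖ := by
  exact (A.le_opNorm a).trans (mul_le_mul_of_nonneg_right h.n1 (norm_nonneg a))

theorem Jet.norm_sh (h : Jet ε D A B y) (e : H) : ‖shL A e‖ ≤ ε * ‖e‖ := by
  exact (norm_shL_le A e).trans (mul_le_mul_of_nonneg_right h.n1 (norm_nonneg e))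

theorem Jet.norm_shB (h : Jet ε D A B y) (a : E d) (e : H) : ‖shL (B a) e‖ ≤ ε * ‖a‖ * ‖e‖ := by
  exact (norm_shL_le (B a) e).trans (mul_le_mul_of_nonneg_right (h.n2 a) (norm_nonneg e))

theorem Jet.sh_small (h : Jet ε D A B y) : ‖shL A y‖ ≤ 1 / 1000 := by
  refine (h.norm_sh y).trans ?_
  have h1 := h.toJet0.eps_le
  have h2 := mul_le_mul_of_nonneg_left h.y1 h.eps0
  linarith

theorem Jet.tr_sh (h : Jet ε D A B y) (e : H) : trH ((gi D).comp (shL A e)) = 0 := by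
  rw [← inner_trA D A h.toJet0.gi_symm, h.har, inner_zero_right]

theorem Jet.tr_shB (h : Jet ε D A B y) (a : E d) (e : H) : trH ((gi D).comp (shL (B a) e)) =
    trH ((gi D).comp ((dG D A a).comp ((gi D).comp (shL A e)))) := by
  have hs : ∀ v u, ⟪((gi D).comp ((dG D A a).comp (gi D))) v, u⟫ =
      ⟪v, ((gi D).comp ((dG D A a).comp (gi D))) u⟫ := fun v u => by
    simp only [ContinuousLinearMap.comp_apply]
    rw [h.toJet0.gi_symm, dG_symm, h.toJet0.gi_symm]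
  have h1 := tr_shL_ChB2 hs A e
  have h2 := tr_shL_ChB2 h.toJet0.gi_symm (B a) e
  have h3 : ⟪e, dtrA D A B a⟫ = 0 := by rw [h.har1, inner_zero_right]
  rw [dtrA, inner_sum] at h3
  simp only [inner_sub_right, sum_sub_distrib] at h3
  rw [h2]
  refine Eq.trans ?_ h1.symm
  exact sub_eq_zero.1 h3

theorem Jet.inner_D_y (h : Jet ε D A B y) (v : E d) : ⟪D v, y⟫ = 0 := by
  rw [← inner_ad_right, h.nor, inner_zero_right]

theorem Jet.pT_y (h : Jet ε D A B y) : pT D y = 0 := by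
  rw [pT_apply, h.nor, map_zero, map_zero]

theorem Jet.kk_symm (h : Jet ε D A B y) (v u : E d) : ⟪kk D A y v, u⟫ = ⟪v, kk D A y u⟫ := by
  rw [kk_apply_ChB2, kk_apply_ChB2, inner_sub_left, inner_sub_right, gm_symm, shL_symm h.sA]

theorem Jet.kk_near (h : Jet ε D A B y) : ‖kk D A y - 1‖ ≤ 4 * ε := by
  have h1 : kk D A y - 1 = (gm D - 1) - shL A y := by rw [kk]; abel
  have h2 := h.norm_sh y
  have h3 := mul_le_mul_of_nonneg_left h.y1 h.eps0
  have h4 := h.g1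
  rw [h1]
  refine (norm_sub_le _ _).trans ?_
  linarith

theorem Jet.kk_unit (h : Jet ε D A B y) : IsUnit (kk D A y) := by
  exact (inv_near h.kk_near (by linarith [h.toJet0.eps_le])).1

theorem Jet.kk_ki (h : Jet ε D A B y) (v : E d) : kk D A y (ki D A y v) = v := by
  exact DFunLike.congr_fun (Ring.mul_inverse_cancel _ h.kk_unit) v

theorem Jet.ki_kk (h : Jet ε D A B y) (v : E d) : ki D A y (kk D A y v) = v := by
  exact DFunLike.congr_fun (Ring.inverse_mul_cancel _ h.kk_unit) v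

theorem Jet.ki_symm (h : Jet ε D A B y) (v u : E d) : ⟪ki D A y v, u⟫ = ⟪v, ki D A y u⟫ := by
  exact inv_symm h.kk_unit h.kk_symm v u

theorem Jet.norm_ki (h : Jet ε D A B y) : ‖ki D A y‖ ≤ 101 / 100 := by
  have h1 := (inv_near h.kk_near (by linarith [h.toJet0.eps_le])).2.2
  have h2 := h.toJet0.eps_le
  unfold ki
  linarith

theorem Jet.ki_eq (h : Jet ε D A B y) (v : E d) :
    ki D A y v = gi D v + gi D (shL A y (ki D A y v)) := by
  have h1 := congrArg (gi D) (h.kk_ki v)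
  rw [kk_apply_ChB2, map_sub, h.toJet0.gi_gm] at h1
  exact sub_eq_iff_eq_add.1 h1

theorem Jet.ki_eq' (h : Jet ε D A B y) (v : E d) :
    ki D A y v = gi D v + ki D A y (shL A y (gi D v)) := by
  have h1 := h.ki_kk (gi D v)
  rw [kk_apply_ChB2, map_sub, h.toJet0.gm_gi] at h1
  exact sub_eq_iff_eq_add.1 h1

theorem Jet.ki_sub_gi (h : Jet ε D A B y) : ‖ki D A y - gi D‖ ≤ 103 / 100 * (ε * ‖y‖) := by
  have h0 : 0 ≤ ε * ‖y‖ := mul_nonneg h.eps0 (norm_nonneg y)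
  have h1 : ki D A y - gi D = (gi D).comp ((shL A y).comp (ki D A y)) := by
    ext1 v
    exact sub_eq_iff_eq_add'.2 (h.ki_eq v)
  rw [h1]
  calc _ ≤ ‖gi D‖ * (‖shL A y‖ * ‖ki D A y‖) :=
        ((gi D).opNorm_comp_le _).trans
          (mul_le_mul_of_nonneg_left ((shL A y).opNorm_comp_le _) (norm_nonneg _))
    _ ≤ 101 / 100 * (ε * ‖y‖ * (101 / 100)) := by
        gcongr
        · exact h.toJet0.norm_gi
        · exact h.norm_sh y
        · exact h.norm_ki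
    _ ≤ _ := by nlinarith

theorem Jet.gi_kk (h : Jet ε D A B y) (v : E d) : gi D (kk D A y v) = v - gi D (shL A y v) := by
  rw [kk_apply_ChB2, map_sub, h.toJet0.gi_gm]

theorem Jet.norm_dx (h : Jet ε D A B y) : ‖dx D A y‖ ≤ 103 / 100 := by
  refine ((ki D A y).opNorm_comp_le _).trans ?_
  rw [norm_ad]
  have := mul_le_mul h.norm_ki h.toJet0.norm_D (norm_nonneg _) (by norm_num)
  linarith

theorem Jet.dx_y (h : Jet ε D A B y) : dx D A y y = 0 := by
  rw [dx_apply, h.nor, map_zero]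

theorem Jet.dy_y (h : Jet ε D A B y) : dy D A y y = y := by
  rw [dy_apply, h.dx_y, map_zero, sub_zero]

theorem Jet.dx_xi (h : Jet ε D A B y) (v : E d) : dx D A y (xi D A y v) = v := by
  rw [dx_apply, xi_apply, ← gm_apply, h.toJet0.gm_gi, h.ki_kk]

theorem Jet.dy_symm (h : Jet ε D A B y) (v u : H) : ⟪dy D A y v, u⟫ = ⟪v, dy D A y u⟫ := by
  rw [dy_apply, dy_apply, inner_sub_left, inner_sub_right, ← inner_ad_right D _ u,
    ← inner_ad_left D v, dx_apply, dx_apply, h.ki_symm]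

theorem Jet.dy_eq (h : Jet ε D A B y) (u : H) :
    dy D A y u = (u - pT D u) - D (gi D (shL A y (dx D A y u))) := by
  have h1 : dx D A y u = gi D (ad D u) + gi D (shL A y (dx D A y u)) := h.ki_eq (ad D u)
  rw [dy_apply, pT_apply, sub_sub, ← map_add, ← h1]

theorem Jet.dy_near (h : Jet ε D A B y) (u : H) :
    ‖dy D A y u - (u - pT D u)‖ ≤ 11 / 10 * (ε * ‖y‖) * ‖u‖ := by
  have h0 : 0 ≤ ε * ‖y‖ := mul_nonneg h.eps0 (norm_nonneg y)
  have hu := norm_nonneg u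
  rw [h.dy_eq, sub_sub_cancel_left, norm_neg]
  calc _ ≤ ‖D‖ * (‖gi D‖ * (‖shL A y‖ * (‖dx D A y‖ * ‖u‖))) := by
        refine (D.le_opNorm _).trans (mul_le_mul_of_nonneg_left ?_ (norm_nonneg _))
        refine ((gi D).le_opNorm _).trans (mul_le_mul_of_nonneg_left ?_ (norm_nonneg _))
        refine ((shL A y).le_opNorm _).trans (mul_le_mul_of_nonneg_left ?_ (norm_nonneg _))
        exact (dx D A y).le_opNorm u
    _ ≤ 101 / 100 * (101 / 100 * (ε * ‖y‖ * (103 / 100 * ‖u‖))) := by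
        gcongr
        · exact h.toJet0.norm_D
        · exact h.toJet0.norm_gi
        · exact h.norm_sh y
        · exact h.norm_dx
    _ ≤ _ := by nlinarith [mul_nonneg h0 hu]

theorem Jet.inner_dy_dy (h : Jet ε D A B y) (u v : H) : ⟪dy D A y u, dy D A y v⟫ =
    ⟪u - pT D u, v - pT D v⟫ + ⟪gi D (shL A y (dx D A y u)), shL A y (dx D A y v)⟫ := by
  have h1 : ∀ (z : H) (a : E d), ⟪z - pT D z, D a⟫ = 0 := fun z a => by
    rw [← inner_ad_left, map_sub, h.toJet0.ad_pT, sub_self, inner_zero_left]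
  have h2 : ∀ (z : H) (a : E d), ⟪D a, z - pT D z⟫ = 0 := fun z a => by
    rw [real_inner_comm, h1]
  rw [h.dy_eq u, h.dy_eq v, inner_sub_left (u - pT D u), inner_sub_right (u - pT D u) (v - pT D v),
    inner_sub_right (D _) (v - pT D v), h1, h2, ← inner_gm, gm_symm, h.toJet0.gm_gi]
  ring

theorem Jet.norm_dy (h : Jet ε D A B y) : ‖dy D A y‖ ≤ 101 / 100 := by
  refine ContinuousLinearMap.opNorm_le_bound _ (by norm_num) fun u => ?_
  have h1 := h.dy_near u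
  have h2 := h.toJet0.norm_pn_le u
  have h3 := h.toJet0.eps_le
  have h4 := mul_le_mul_of_nonneg_left h.y1 h.eps0
  have h5 := norm_le_insert' (dy D A y u) (u - pT D u)
  have h6 : ε * ‖y‖ * ‖u‖ ≤ 1 / 1000 * ‖u‖ :=
    mul_le_mul_of_nonneg_right (by linarith) (norm_nonneg u)
  have h7 := norm_nonneg u
  linarith

theorem Jet.norm_xi (h : Jet ε D A B y) : ‖xi D A y‖ ≤ 103 / 100 := by
  have h1 : ‖kk D A y‖ ≤ 1004 / 1000 := by
    have h2 := norm_le_insert' (kk D A y) 1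
    have h3 : ‖(1 : E d →L[ℝ] E d)‖ ≤ 1 := ContinuousLinearMap.norm_id_le
    have h4 := h.kk_near
    have h5 := h.toJet0.eps_le
    linarith
  calc _ ≤ ‖D‖ * (‖gi D‖ * ‖kk D A y‖) :=
        (D.opNorm_comp_le _).trans
          (mul_le_mul_of_nonneg_left ((gi D).opNorm_comp_le _) (norm_nonneg _))
    _ ≤ 101 / 100 * (101 / 100 * (1004 / 1000)) := by
        gcongr
        · exact h.toJet0.norm_D
        · exact h.toJet0.norm_gi
    _ ≤ _ := by norm_num

end Pool.Agent.Lib.MP_8daebb_an.GM.Ch
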