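import Pool.Agent.Lib.MP_8daebb_an.GM.ChB2
import Pool.Agent.Lib.MP_8daebb_an.Trace

/-! The tilt of a plane with respect to a first jet. -/

open Finset
open scoped RealInnerProductSpace

namespace Pool.Agent.Lib.MP_8daebb_an.GM.Ch

variable {d : ℕ} {H : Type*} [NormedAddCommGroup H] [InnerProductSpace ℝ H]
  [FiniteDimensional ℝ H]

variable {ε : ℝ} {D : E d →L[ℝ] H} {A : E d →L[ℝ] E d →L[ℝ] H}
  {B : E d →L[ℝ] E d →L[ℝ] E d →L[ℝ] H} {y : H} {P : H →L[ℝ] H}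

/-- Orthogonal projections. -/
def Pr_ChB3 (S : H →L[ℝ] H) : Prop := (∀ x y, ⟪S x, y⟫ = ⟪x, S y⟫) ∧ ∀ x, S (S x) = S x

omit [FiniteDimensional ℝ H] in
theorem Pr_ChB3.one_sub {S : H →L[ℝ] H} (h : Pr_ChB3 S) : Pr_ChB3 (1 - S) := by
  refine ⟨fun x y => ?_, fun x => ?_⟩
  · show ⟪x - S x, y⟫ = ⟪x, y - S y⟫
    rw [inner_sub_left, inner_sub_right, h.1]
  · show x - S x - S (x - S x) = x - S x
    rw [map_sub, h.2, sub_self, sub_zero]

theorem sand_ChB3 {S R : H →L[ℝ] H} (hS : Pr_ChB3 S) (hR : Pr_ChB3 R) :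
    0 ≤ trH (R.comp S) ∧ (∀ e, ‖S (R (S e))‖ ≤ trH (R.comp S) * ‖e‖) ∧
      ∀ e, ‖R (S e)‖ ≤ √(trH (R.comp S)) * ‖e‖ := by
  have hq : ∀ v, ⟪(S.comp (R.comp S)) v, v⟫ = ‖R (S v)‖ ^ 2 := fun v => by
    show ⟪S (R (S v)), v⟫ = _
    rw [hS.1, ← real_inner_self_eq_norm_sq, hR.1 (S v) (R (S v)), hR.2, hR.1]
  have hs : ∀ v u, ⟪(S.comp (R.comp S)) v, u⟫ = ⟪v, (S.comp (R.comp S)) u⟫ := fun v u => by
    show ⟪S (R (S v)), u⟫ = ⟪v, S (R (S u))⟫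
    rw [hS.1, hR.1, hS.1]
  have hp : ∀ v, 0 ≤ ⟪(S.comp (R.comp S)) v, v⟫ := fun v => by rw [hq]; positivity
  have ht : trH (S.comp (R.comp S)) = trH (R.comp S) := by
    rw [trH_comm]
    congr 1
    ext v
    show R (S (S v)) = R (S v)
    rw [hS.2]
  have h0 := psd_tr_nonneg hp
  have h1 := psd_norm_le hs hp
  rw [ht] at h0 h1
  have h2 : ∀ e, ‖S (R (S e))‖ ≤ trH (R.comp S) * ‖e‖ := fun e =>
    ((S.comp (R.comp S)).le_opNorm e).trans (mul_le_mul_of_nonneg_right h1 (norm_nonneg e))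
  refine ⟨h0, h2, fun e => ?_⟩
  refine abs_le_of_sq_le_sq' ?_ (by positivity) |>.2
  rw [← hq, mul_pow, Real.sq_sqrt h0]
  refine (real_inner_le_norm _ _).trans ?_
  calc _ ≤ trH (R.comp S) * ‖e‖ * ‖e‖ := mul_le_mul_of_nonneg_right (h2 e) (norm_nonneg e)
    _ = _ := by ring

omit [FiniteDimensional ℝ H] in
theorem pr_plane_ChB3 (hP : IsPlane d P) : Pr_ChB3 P := ⟨hP.1, hP.2.1⟩

theorem pr_pT_ChB3 (h : Jet0 ε D) : Pr_ChB3 (pT D) := ⟨h.pT_symm, h.pT_idem⟩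

theorem ft_eq_ChB3 (D : E d →L[ℝ] H) (P : H →L[ℝ] H) : ft D P = trH ((1 - P).comp (pT D)) :=
  (trH_comm (gi D) (fT D P)).trans
    (trH_comm (ad D) (((1 - P).comp D).comp (gi D)))

omit [FiniteDimensional ℝ H] in
theorem plane_inner (hP : IsPlane d P) (u v : H) : ⟪P u, v⟫ = ⟪P u, P v⟫ := by
  rw [← hP.1 (P u) v, hP.2.1]

omit [FiniteDimensional ℝ H] in
theorem plane_pyth (hP : IsPlane d P) (u : H) : ‖u‖ ^ 2 = ‖P u‖ ^ 2 + ‖u - P u‖ ^ 2 := by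
  have h0 : ⟪P u, u - P u⟫ = 0 := by rw [inner_sub_right, plane_inner hP u u, sub_self]
  have h1 := norm_add_sq_real (P u) (u - P u)
  rw [add_sub_cancel, h0] at h1
  linarith

omit [FiniteDimensional ℝ H] in
theorem plane_norm_le (hP : IsPlane d P) (u : H) : ‖P u‖ ≤ ‖u‖ := by
  refine (abs_le_of_sq_le_sq' ?_ (norm_nonneg u)).2
  rw [plane_pyth hP u]
  exact le_add_of_nonneg_right (sq_nonneg _)

omit [FiniteDimensional ℝ H] in
theorem plane_opNorm (hP : IsPlane d P) : ‖P‖ ≤ 1 := by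
  exact P.opNorm_le_bound zero_le_one fun u => by rw [one_mul]; exact plane_norm_le hP u

theorem plane_tr (hP : IsPlane d P) : trH P = d := by
  obtain ⟨e, he, ht⟩ := hP.exists_frame
  have h1 : trH (P.comp (ContinuousLinearMap.id ℝ H)) = _ := ht _
  rw [ContinuousLinearMap.comp_id] at h1
  rw [h1]
  simp [he.1]

theorem plane_abs_tr (hP : IsPlane d P) (M : H →L[ℝ] H) : |trH (P.comp M)| ≤ d * ‖M‖ := by
  obtain ⟨e, he, ht⟩ := hP.exists_frame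
  have h1 : trH (P.comp M) = _ := ht M
  rw [h1]
  refine (abs_sum_le_sum_abs _ _).trans ?_
  have key : ∀ i ∈ (univ : Finset (Fin d)), |⟪e i, M (e i)⟫| ≤ ‖M‖ := fun i _ => by
    refine (abs_real_inner_le_norm _ _).trans ?_
    have := M.le_opNorm (e i)
    rw [he.1 i] at this ⊢
    linarith
  refine (sum_le_sum key).trans (le_of_eq ?_)
  simp

theorem fT_apply (D : E d →L[ℝ] H) (P : H →L[ℝ] H) (v : E d) : fT D P v = ad D (D v - P (D v)) := rfl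

theorem inner_fT (D : E d →L[ℝ] H) (hP : IsPlane d P) (v u : E d) :
    ⟪fT D P v, u⟫ = ⟪D v - P (D v), D u - P (D u)⟫ := by
  rw [fT_apply, inner_ad_left]
  have h := (pr_plane_ChB3 hP).one_sub
  show ⟪(1 - P) (D v), D u⟫ = ⟪(1 - P) (D v), (1 - P) (D u)⟫
  rw [← h.1 ((1 - P) (D v)) (D u), h.2]

theorem fT_symm (D : E d →L[ℝ] H) (hP : IsPlane d P) (v u : E d) :
    ⟪fT D P v, u⟫ = ⟪v, fT D P u⟫ := by
  rw [inner_fT D hP, real_inner_comm (fT D P u) v, inner_fT D hP, real_inner_comm]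

theorem fT_pos (D : E d →L[ℝ] H) (hP : IsPlane d P) (v : E d) : 0 ≤ ⟪fT D P v, v⟫ := by
  rw [inner_fT D hP]
  exact real_inner_self_nonneg

theorem ad_P_D (D : E d →L[ℝ] H) (P : H →L[ℝ] H) (v : E d) :
    ad D (P (D v)) = gm D v - fT D P v := by
  rw [fT_apply, gm_apply, map_sub, sub_sub_cancel]

theorem ft_eq (h : Jet0 ε D) (hP : IsPlane d P) : ft D P = trH (P.comp (1 - pT D)) := by
  rw [ft_eq_ChB3, ContinuousLinearMap.sub_comp, ContinuousLinearMap.comp_sub, trH_sub, trH_sub]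
  have e1 : (1 : H →L[ℝ] H).comp (pT D) = pT D := ContinuousLinearMap.id_comp _
  have e2 : P.comp (1 : H →L[ℝ] H) = P := ContinuousLinearMap.comp_id _
  rw [e1, e2, h.tr_pT, plane_tr hP]

theorem ft_nonneg (h : Jet0 ε D) (hP : IsPlane d P) : 0 ≤ ft D P := by
  rw [ft_eq_ChB3]
  exact (sand_ChB3 (pr_pT_ChB3 h) (pr_plane_ChB3 hP).one_sub).1

theorem ft_le (h : Jet0 ε D) (hP : IsPlane d P) : ft D P ≤ d := by
  rw [ft_eq_ChB3, ContinuousLinearMap.sub_comp, trH_sub]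
  have e1 : (1 : H →L[ℝ] H).comp (pT D) = pT D := ContinuousLinearMap.id_comp _
  rw [e1, h.tr_pT]
  linarith [(sand_ChB3 (pr_pT_ChB3 h) (pr_plane_ChB3 hP)).1]

theorem ft_le_sqrt (h : Jet0 ε D) (hP : IsPlane d P) : ft D P ≤ (d + 1) * √(ft D P) := by
  have h0 := ft_nonneg h hP
  have h1 := ft_le h hP
  have hd : (0 : ℝ) ≤ d := Nat.cast_nonneg d
  have h2 : √(ft D P) ≤ d + 1 := Real.sqrt_le_iff.2 ⟨by linarith, by nlinarith⟩
  calc ft D P = √(ft D P) * √(ft D P) := (Real.mul_self_sqrt h0).symm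
    _ ≤ _ := mul_le_mul_of_nonneg_right h2 (Real.sqrt_nonneg _)

theorem norm_P_pn (h : Jet0 ε D) (hP : IsPlane d P) (e : H) :
    ‖P (e - pT D e)‖ ≤ √(ft D P) * ‖e‖ := by
  rw [ft_eq h hP]
  exact (sand_ChB3 (pr_pT_ChB3 h).one_sub (pr_plane_ChB3 hP)).2.2 e

theorem norm_pn_P (h : Jet0 ε D) (hP : IsPlane d P) (e : H) :
    ‖P e - pT D (P e)‖ ≤ √(ft D P) * ‖e‖ := by
  rw [ft_eq h hP, trH_comm]
  exact (sand_ChB3 (pr_plane_ChB3 hP) (pr_pT_ChB3 h).one_sub).2.2 e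

theorem norm_pT_Q (h : Jet0 ε D) (hP : IsPlane d P) (v : E d) :
    ‖pT D (D v - P (D v))‖ ≤ ft D P * ‖D v‖ := by
  have := (sand_ChB3 (pr_pT_ChB3 h) (pr_plane_ChB3 hP).one_sub).2.1 (D v)
  rw [h.pT_D, ← ft_eq_ChB3] at this
  exact this

theorem norm_Q_D (h : Jet0 ε D) (hP : IsPlane d P) (v : E d) :
    ‖D v - P (D v)‖ ≤ √(ft D P) * ‖D v‖ := by
  have := (sand_ChB3 (pr_pT_ChB3 h) (pr_plane_ChB3 hP).one_sub).2.2 (D v)
  rw [h.pT_D, ← ft_eq_ChB3] at this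
  exact this

theorem fT_le' (h : Jet0 ε D) (hP : IsPlane d P) : ‖fT D P‖ ≤ 103 / 100 * ft D P := by
  have h0 := ft_nonneg h hP
  refine ContinuousLinearMap.opNorm_le_bound _ (by positivity) fun v => ?_
  rw [fT_apply, ← h.ad_pT]
  have h1 := (ad D).le_opNorm (pT D (D v - P (D v)))
  rw [norm_ad] at h1
  have h2 := norm_pT_Q h hP v
  have h3 : ‖D v‖ ≤ 101 / 100 * ‖v‖ :=
    (D.le_opNorm v).trans (mul_le_mul_of_nonneg_right h.norm_D (norm_nonneg v))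
  have h4 := mul_nonneg h0 (norm_nonneg v)
  calc _ ≤ 101 / 100 * (ft D P * (101 / 100 * ‖v‖)) :=
        h1.trans (mul_le_mul h.norm_D (h2.trans (mul_le_mul_of_nonneg_left h3 h0))
          (norm_nonneg _) (by norm_num))
    _ ≤ _ := by nlinarith

theorem fT_le (h : Jet0 ε D) (hP : IsPlane d P) : ‖fT D P‖ ≤ 2 * ft D P := by
  linarith [fT_le' h hP, ft_nonneg h hP]

theorem norm_P_dy (h : Jet ε D A B y) (hP : IsPlane d P) (e : H) :
    ‖P (dy D A y e)‖ ≤ (√(ft D P) + 11 / 10 * (ε * ‖y‖)) * ‖e‖ := by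
  have e1 : P (dy D A y e) = P (e - pT D e) + P (dy D A y e - (e - pT D e)) := by
    rw [← map_add, add_sub_cancel]
  rw [e1, add_mul]
  exact (norm_add_le _ _).trans (add_le_add (norm_P_pn h.toJet0 hP e)
    ((plane_norm_le hP _).trans (h.dy_near e)))

theorem norm_dy_P (h : Jet ε D A B y) (hP : IsPlane d P) (e : H) :
    ‖dy D A y (P e)‖ ≤ (√(ft D P) + 11 / 10 * (ε * ‖y‖)) * ‖e‖ := by
  have e1 : dy D A y (P e) = (P e - pT D (P e)) + (dy D A y (P e) - (P e - pT D (P e))) := by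
    rw [add_sub_cancel]
  rw [e1, add_mul]
  refine (norm_add_le _ _).trans (add_le_add (norm_pn_P h.toJet0 hP e)
    ((h.dy_near (P e)).trans (mul_le_mul_of_nonneg_left (plane_norm_le hP e) ?_)))
  have := h.eps0
  positivity

end Pool.Agent.Lib.MP_8daebb_an.GM.Ch
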