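import Pool.Agent.Lib.MP_8daebb_an.GM.ChB3

/-! Lipschitz dependence on the first jet; linear changes of the parameter. -/

open Finset
open scoped RealInnerProductSpace

namespace Pool.Agent.Lib.MP_8daebb_an.GM.Ch

variable {d : ℕ} {H : Type*} [NormedAddCommGroup H] [InnerProductSpace ℝ H]
  [FiniteDimensional ℝ H]

variable {ε ε' : ℝ} {D D' : E d →L[ℝ] H} {P : H →L[ℝ] H}

/-- Square root of a symmetric operator close to the identity. -/
theorem exists_sqrt {M : E d →L[ℝ] E d} {r : ℝ} (h : ∀ v u, ⟪M v, u⟫ = ⟪v, M u⟫)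
    (hM : ‖M - 1‖ ≤ r) (hr : r ≤ 1 / 4) :
    ∃ C Ci : E d →L[ℝ] E d, (∀ v u, ⟪C v, u⟫ = ⟪v, C u⟫) ∧ (∀ v u, ⟪Ci v, u⟫ = ⟪v, Ci u⟫) ∧
      C * C = M ∧ C * Ci = 1 ∧ Ci * C = 1 ∧ ‖C - 1‖ ≤ r ∧ ‖Ci - 1‖ ≤ r := by
  obtain ⟨b, μ, hb⟩ := exists_eig rfl h
  have hr0 : 0 ≤ r := (norm_nonneg _).trans hM
  have h1 : ∀ i, |μ i - 1| ≤ r := fun i =>
    (diag_abs_le (M := M - 1) (b := b) (μ := fun i => μ i - 1)
      (fun i => by simp [hb, sub_smul]) i).trans hM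
  have h2 : ∀ i, 1 / 2 ≤ μ i := fun i => by linarith [(abs_le.1 (h1 i)).1]
  obtain ⟨C, hC⟩ := exists_diag b fun i => √(μ i)
  obtain ⟨R, hR⟩ := exists_diag b fun i => (√(μ i))⁻¹
  have h0 : ∀ i, 0 < √(μ i) := fun i => Real.sqrt_pos.2 (by linarith [h2 i])
  have h3 : ∀ i, √(μ i) * √(μ i) = μ i := fun i => Real.mul_self_sqrt (by linarith [h2 i])
  have h7 : ∀ i, 7 / 10 ≤ √(μ i) := fun i => by
    by_contra hh
    nlinarith [h2 i, h3 i, h0 i]
  refine ⟨C, R, diag_symm hC, diag_symm hR, diag_ext (b := b) fun i => ?_,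
    diag_ext (b := b) fun i => ?_, diag_ext (b := b) fun i => ?_, ?_, ?_⟩
  · simp only [mul_apply_eq_comp, hC, hb, map_smul, smul_smul, h3]
  · simp only [mul_apply_eq_comp, hR, hC, map_smul, smul_smul, one_apply_eq_self]
    rw [inv_mul_cancel₀ (h0 i).ne', one_smul]
  · simp only [mul_apply_eq_comp, hR, hC, map_smul, smul_smul, one_apply_eq_self]
    rw [mul_inv_cancel₀ (h0 i).ne', one_smul]
  · refine diag_norm_le (M := C - 1) (b := b) (μ := fun i => √(μ i) - 1)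
      (fun i => by simp [hC, sub_smul]) hr0 fun i => ?_
    have e : √(μ i) - 1 = (μ i - 1) / (√(μ i) + 1) := by
      have := h0 i
      rw [eq_div_iff (by linarith)]
      linear_combination h3 i
    have h6 : 1 ≤ √(μ i) + 1 := by linarith [h0 i]
    rw [e, abs_div, abs_of_pos (by linarith : 0 < √(μ i) + 1)]
    exact (div_le_self (abs_nonneg _) h6).trans (h1 i)
  · refine diag_norm_le (M := R - 1) (b := b) (μ := fun i => (√(μ i))⁻¹ - 1)
      (fun i => by simp [hR, sub_smul]) hr0 fun i => ?_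
    have hs0 := h0 i
    have hs2 := h3 i
    have hs7 := h7 i
    set s := √(μ i) with hs
    have e : s⁻¹ - 1 = (1 - μ i) / (s * (1 + s)) := by
      rw [← hs2]; field_simp; ring
    have h6 : 1 ≤ s * (1 + s) := by nlinarith
    rw [e, abs_div, abs_of_pos (by linarith : 0 < s * (1 + s)), abs_sub_comm]
    exact (div_le_self (abs_nonneg _) h6).trans (h1 i)

theorem gm_sub_ChB4 (h : Jet0 ε D) (h' : Jet0 ε' D') :
    ‖gm D - gm D'‖ ≤ 202 / 100 * ‖D - D'‖ := by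
  have e : gm D - gm D' = (ad D).comp (D - D') + (ad (D - D')).comp D' := by
    simp only [gm, map_sub, ContinuousLinearMap.comp_sub, ContinuousLinearMap.sub_comp]
    abel
  have h1 := (ad D).opNorm_comp_le (D - D')
  have h2 := (ad (D - D')).opNorm_comp_le D'
  rw [norm_ad] at h1 h2
  have h3 := mul_le_mul_of_nonneg_right h.norm_D (norm_nonneg (D - D'))
  have h4 := mul_le_mul_of_nonneg_left h'.norm_D (norm_nonneg (D - D'))
  rw [e]
  refine (norm_add_le _ _).trans ?_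
  linarith

theorem norm3_ChB4 {X Y Z W : Type*} [NormedAddCommGroup X] [NormedSpace ℝ X]
    [NormedAddCommGroup Y] [NormedSpace ℝ Y] [NormedAddCommGroup Z] [NormedSpace ℝ Z]
    [NormedAddCommGroup W] [NormedSpace ℝ W] {a : Z →L[ℝ] W} {b : Y →L[ℝ] Z} {c : X →L[ℝ] Y}
    {α β γ : ℝ} (ha : ‖a‖ ≤ α) (hb : ‖b‖ ≤ β) (hc : ‖c‖ ≤ γ) :
    ‖a.comp (b.comp c)‖ ≤ α * (β * γ) :=
  (a.opNorm_comp_le _).trans (mul_le_mul ha ((b.opNorm_comp_le c).trans
    (mul_le_mul hb hc (norm_nonneg _) ((norm_nonneg _).trans hb))) (norm_nonneg _)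
    ((norm_nonneg _).trans ha))

theorem Jet0.gm_sub (h : Jet0 ε D) (h' : Jet0 ε' D') : ‖gm D - gm D'‖ ≤ 3 * ‖D - D'‖ := by
  linarith [gm_sub_ChB4 h h', norm_nonneg (D - D')]

theorem Jet0.gi_sub (h : Jet0 ε D) (h' : Jet0 ε' D') : ‖gi D - gi D'‖ ≤ 3 * ‖D - D'‖ := by
  have e : gi D - gi D' = (gi D).comp ((gm D' - gm D).comp (gi D')) := by
    ext1 v
    simp only [sub_apply, ContinuousLinearMap.comp_apply, map_sub, h'.gm_gi, h.gi_gm]
  have h1 := gm_sub_ChB4 h h'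
  rw [norm_sub_rev] at h1
  have h2 := norm3_ChB4 h.norm_gi h1 h'.norm_gi
  rw [e]
  linarith [norm_nonneg (D - D')]

theorem Jet0.wt_sub' (h : Jet0 ε D) (h' : Jet0 ε' D') : |wt D - wt D'| ≤ 3 * d * ‖D - D'‖ := by
  have hε := h.eps_le
  have hε' := h'.eps_le
  have hd0 : (0 : ℝ) ≤ d := Nat.cast_nonneg d
  obtain ⟨R, hs, h1, -, -, hR⟩ := exists_isqrt (gm_symm D') h'.g1 (by linarith)
  have hR1 : ‖R‖ ≤ 101 / 100 := by
    have h2 : ‖R‖ ≤ ‖R - 1‖ + ‖(1 : E d →L[ℝ] E d)‖ := by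
      simpa using norm_add_le (R - 1) 1
    have h3 : ‖(1 : E d →L[ℝ] E d)‖ ≤ 1 := ContinuousLinearMap.norm_id_le
    linarith
  set M : E d →L[ℝ] E d := R.comp ((gm D - gm D').comp R) with hM
  have hMs : ∀ v u, ⟪M v, u⟫ = ⟪v, M u⟫ := fun v u => by
    simp only [hM, ContinuousLinearMap.comp_apply, sub_apply]
    rw [hs, inner_sub_left, gm_symm, gm_symm, ← inner_sub_right, hs]
  have h2 : ‖gm D - gm D'‖ ≤ 3 * ε + 3 * ε' := by
    have := norm_sub_le (gm D - 1) (gm D' - 1)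
    rw [sub_sub_sub_cancel_right] at this
    linarith [h.g1, h'.g1]
  have h3 : d * ‖M‖ ≤ 1 / 100 := by
    have := mul_le_mul_of_nonneg_left (norm3_ChB4 hR1 h2 hR1) hd0
    linarith [h.d_eps, h'.d_eps]
  have h4 : d * ‖M‖ ≤ 21 / 10 * (d * ‖D - D'‖) := by
    have := mul_le_mul_of_nonneg_left (norm3_ChB4 hR1 (gm_sub_ChB4 h h') hR1) hd0
    nlinarith [mul_nonneg hd0 (norm_nonneg (D - D'))]
  have h5 := det_one_add hMs (by linarith)
  have h6 := abs_trH_le M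
  have h7 : 1 + M = R.comp ((gm D).comp R) := by
    rw [← h1, hM]
    ext1 v
    simp only [add_apply, mul_apply_eq_comp, ContinuousLinearMap.comp_apply, sub_apply, map_sub]
    abel
  have h8 : R.det * ((gm D').det * R.det) = 1 := by
    rw [← det_comp, ← det_comp, ← det_one (d := d), ← h1]
    rfl
  have h9 : wt D ^ 2 - wt D' ^ 2 = wt D' ^ 2 * ((1 + M).det - 1) := by
    rw [h7, det_comp, det_comp, h.wt_sq, h'.wt_sq]
    linear_combination -(gm D).det * h8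
  have h0 : 0 ≤ d * ‖M‖ := mul_nonneg hd0 (norm_nonneg _)
  have h10 : |(1 + M).det - 1| ≤ 101 / 100 * (d * ‖M‖) := by
    have := abs_add_le ((1 + M).det - 1 - trH M) (trH M)
    rw [sub_add_cancel] at this
    nlinarith
  have h11 : wt D' ^ 2 ≤ 103 / 100 := by nlinarith [h'.wt_up, h'.wt_low]
  have h12 : |wt D - wt D'| * (wt D + wt D') = wt D' ^ 2 * |(1 + M).det - 1| := by
    rw [← abs_of_pos (add_pos h.wt_pos h'.wt_pos), ← abs_mul, ← abs_of_nonneg (sq_nonneg (wt D')),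
      ← abs_mul, ← h9]
    congr 1
    ring
  have h13 : |wt D - wt D'| ≤ |wt D - wt D'| * (wt D + wt D') :=
    le_mul_of_one_le_right (abs_nonneg _) (by linarith [h.wt_low, h'.wt_low])
  have h14 := mul_le_mul h11 h10 (abs_nonneg _) (by norm_num)
  nlinarith [mul_nonneg hd0 (norm_nonneg (D - D'))]

theorem Jet0.am_sub' (h : Jet0 ε D) (h' : Jet0 ε' D') :
    ‖am D - am D'‖ ≤ 4 * (d + 1) * ‖D - D'‖ := by
  have e : am D - am D' = (wt D - wt D') • gi D + wt D' • (gi D - gi D') := by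
    ext1 v
    simp only [am_apply, add_apply, sub_apply, smul_apply]
    module
  have h1 := mul_le_mul (h.wt_sub' h') h.norm_gi (norm_nonneg _) (by positivity)
  have h2 := mul_le_mul h'.wt_up (h.gi_sub h') (norm_nonneg _) (by norm_num)
  rw [e]
  refine (norm_add_le _ _).trans ?_
  rw [norm_smul, norm_smul, Real.norm_eq_abs, Real.norm_eq_abs, abs_of_pos h'.wt_pos]
  nlinarith [norm_nonneg (D - D'), mul_nonneg (Nat.cast_nonneg (α := ℝ) d) (norm_nonneg (D - D'))]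

theorem Jet0.pT_sub' (h : Jet0 ε D) (h' : Jet0 ε' D') : ‖pT D - pT D'‖ ≤ 6 * ‖D - D'‖ := by
  have e : pT D - pT D' = (D - D').comp ((gi D).comp (ad D)) +
      D'.comp ((gi D - gi D').comp (ad D)) + D'.comp ((gi D').comp (ad (D - D'))) := by
    simp only [pT, map_sub, ContinuousLinearMap.comp_sub, ContinuousLinearMap.sub_comp]
    abel
  have ha : ‖ad D‖ ≤ 101 / 100 := (norm_ad D).trans_le h.norm_D
  have h1 := norm3_ChB4 (le_refl ‖D - D'‖) h.norm_gi ha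
  have h2 := norm3_ChB4 h'.norm_D (h.gi_sub h') ha
  have h3 := norm3_ChB4 h'.norm_D h'.norm_gi (norm_ad (D - D')).le
  rw [e]
  refine norm_add₃_le.trans ?_
  linarith [norm_nonneg (D - D')]

theorem Jet0.sqrt_ft_sub' (h : Jet0 ε D) (h' : Jet0 ε' D') (hP : IsPlane d P) :
    |√(ft D P) - √(ft D' P)| ≤ 6 * (d + 1) * ‖D - D'‖ := by
  obtain ⟨e, he, ht⟩ := hP.exists_frame
  have key : ∀ {ε : ℝ} {D : E d →L[ℝ] H}, Jet0 ε D →
      √(ft D P) = ‖(WithLp.toLp 2 fun i => ‖e i - pT D (e i)‖ : E d)‖ := by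
    intro ε D h
    rw [EuclideanSpace.norm_eq, ft_eq h hP, trH, ht]
    congr 1
    refine sum_congr rfl fun i _ => ?_
    have h1 := h.pyth (e i)
    have h2 : ⟪e i, pT D (e i)⟫ = ‖pT D (e i)‖ ^ 2 := by
      rw [← real_inner_self_eq_norm_sq, h.pT_symm, h.pT_idem]
    simp only [sub_apply, one_apply_eq_self, inner_sub_right, real_inner_self_eq_norm_sq, h2,
      norm_norm]
    linarith
  rw [key h, key h']
  refine (abs_norm_sub_norm_le _ _).trans ?_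
  have hc := h.pT_sub' h'
  have hc0 : 0 ≤ 6 * ‖D - D'‖ := by positivity
  have hd0 : (0 : ℝ) ≤ d := Nat.cast_nonneg d
  rw [EuclideanSpace.norm_eq]
  refine Real.sqrt_le_iff.2 ⟨by positivity, ?_⟩
  have h1 : ∀ i ∈ (univ : Finset (Fin d)),
      ‖((WithLp.toLp 2 fun i => ‖e i - pT D (e i)‖ : E d) -
        (WithLp.toLp 2 fun i => ‖e i - pT D' (e i)‖ : E d)) i‖ ^ 2 ≤ (6 * ‖D - D'‖) ^ 2 := by
    intro i _
    refine pow_le_pow_left₀ (norm_nonneg _) ?_ 2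
    simp only [PiLp.sub_apply, Real.norm_eq_abs]
    refine (abs_norm_sub_norm_le _ _).trans ?_
    have h2 := (pT D - pT D').le_opNorm (e i)
    rw [he.1 i, mul_one, sub_apply] at h2
    rw [sub_sub_sub_cancel_left, norm_sub_rev]
    linarith
  have h2 := sum_le_card_nsmul _ _ _ h1
  rw [card_univ, Fintype.card_fin, nsmul_eq_mul] at h2
  refine h2.trans ?_
  nlinarith [sq_nonneg (6 * ‖D - D'‖), mul_nonneg hd0 (sq_nonneg (6 * ‖D - D'‖)),
    mul_nonneg (mul_nonneg hd0 hd0) (sq_nonneg (6 * ‖D - D'‖))]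

section lin
variable {Λ Λi : E d →L[ℝ] E d} {A : E d →L[ℝ] E d →L[ℝ] H} {y : H}

/-- The second derivative after the linear change of parameter `Λ`. -/
noncomputable def c2 (A : E d →L[ℝ] E d →L[ℝ] H) (Λ : E d →L[ℝ] E d) : E d →L[ℝ] E d →L[ℝ] H :=
  A.bilinearComp Λ Λ

omit [FiniteDimensional ℝ H] in
theorem c2_apply (A : E d →L[ℝ] E d →L[ℝ] H) (Λ : E d →L[ℝ] E d) (v u : E d) :
    c2 A Λ v u = A (Λ v) (Λ u) := rfl

theorem ad_cancel_ChB4 (h2 : Λi * Λ = 1) (v : E d) : ad Λ (ad Λi v) = v := by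
  refine ext_inner_right ℝ fun u => ?_
  rw [inner_ad_left, inner_ad_left, ← mul_apply_eq_comp, h2, one_apply_eq_self]

theorem cancel_ChB4 (h2 : Λi * Λ = 1) (v : E d) : Λi (Λ v) = v := by
  rw [← mul_apply_eq_comp, h2, one_apply_eq_self]

theorem inv_conj_ChB4 {M : E d →L[ℝ] E d} (hM : IsUnit M) (h1 : Λ * Λi = 1) (h2 : Λi * Λ = 1) :
    Ring.inverse ((ad Λ).comp (M.comp Λ)) = Λi.comp ((Ring.inverse M).comp (ad Λi)) := by
  have e1 : ∀ v, M (Ring.inverse M v) = v := fun v => by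
    rw [← mul_apply_eq_comp, Ring.mul_inverse_cancel M hM, one_apply_eq_self]
  have e2 : ∀ v, Ring.inverse M (M v) = v := fun v => by
    rw [← mul_apply_eq_comp, Ring.inverse_mul_cancel M hM, one_apply_eq_self]
  refine Ring.inverse_unit (⟨(ad Λ).comp (M.comp Λ), Λi.comp ((Ring.inverse M).comp (ad Λi)),
    ?_, ?_⟩ : (E d →L[ℝ] E d)ˣ)
  · ext1 v
    simp only [mul_apply_eq_comp, ContinuousLinearMap.comp_apply, cancel_ChB4 h1, e1,
      ad_cancel_ChB4 h2, one_apply_eq_self]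
  · ext1 v
    simp only [mul_apply_eq_comp, ContinuousLinearMap.comp_apply, cancel_ChB4 h2, e2,
      ad_cancel_ChB4 h1, one_apply_eq_self]

theorem tr_conj_ChB4 (N S : E d →L[ℝ] E d) (h1 : Λ * Λi = 1) :
    trH ((Λi.comp (N.comp (ad Λi))).comp ((ad Λ).comp (S.comp Λ))) = trH (N.comp S) := by
  have e : (Λi.comp (N.comp (ad Λi))).comp ((ad Λ).comp (S.comp Λ)) =
      Λi.comp ((N.comp S).comp Λ) := by
    ext1 v
    simp only [ContinuousLinearMap.comp_apply, ad_cancel_ChB4 h1]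
  rw [e, trH_comm]
  congr 1
  ext1 v
  simp only [ContinuousLinearMap.comp_apply, cancel_ChB4 h1]

theorem shL_c2_ChB4 (A : E d →L[ℝ] E d →L[ℝ] H) (Λ : E d →L[ℝ] E d) (y : H) :
    shL (c2 A Λ) y = (ad Λ).comp ((shL A y).comp Λ) := by
  ext1 v
  refine ext_inner_right ℝ fun u => ?_
  simp only [ContinuousLinearMap.comp_apply]
  rw [inner_shL, inner_ad_left, inner_shL, c2_apply]

theorem sqrt_conj_ChB4 (a g : ℝ) : √(a * (g * a)) = |a| * √g := by
  rw [show a * (g * a) = a ^ 2 * g by ring, Real.sqrt_mul (sq_nonneg a), Real.sqrt_sq_eq_abs]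

theorem gm_comp (D : E d →L[ℝ] H) (Λ : E d →L[ℝ] E d) :
    gm (D.comp Λ) = (ad Λ).comp ((gm D).comp Λ) := by
  rw [gm, gm, ad_comp]
  rfl

theorem gi_comp (hD : IsUnit (gm D)) (h1 : Λ * Λi = 1) (h2 : Λi * Λ = 1) :
    gi (D.comp Λ) = Λi.comp ((gi D).comp (ad Λi)) := by
  rw [gi, gm_comp, inv_conj_ChB4 hD h1 h2]
  rfl

theorem wt_comp (D : E d →L[ℝ] H) (Λ : E d →L[ℝ] E d) : wt (D.comp Λ) = |Λ.det| * wt D := by
  rw [wt, gm_comp, det_comp, det_comp, det_ad, sqrt_conj_ChB4]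
  rfl

theorem pT_comp (hD : IsUnit (gm D)) (h1 : Λ * Λi = 1) (h2 : Λi * Λ = 1) :
    pT (D.comp Λ) = pT D := by
  ext1 v
  rw [pT_apply, pT_apply, gi_comp hD h1 h2, ad_comp]
  simp only [ContinuousLinearMap.comp_apply, cancel_ChB4 h1, ad_cancel_ChB4 h1]

theorem trA_comp (hD : IsUnit (gm D)) (h1 : Λ * Λi = 1) (h2 : Λi * Λ = 1) :
    trA (D.comp Λ) (c2 A Λ) = trA D A := by
  have hs : ∀ v u, ⟪gi D v, u⟫ = ⟪v, gi D u⟫ := inv_symm hD (gm_symm D)
  have hs' : ∀ v u, ⟪gi (D.comp Λ) v, u⟫ = ⟪v, gi (D.comp Λ) u⟫ := fun v u => by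
    rw [gi_comp hD h1 h2]
    simp only [ContinuousLinearMap.comp_apply]
    rw [← inner_ad_right, hs, inner_ad_left]
  refine ext_inner_left ℝ fun e => ?_
  rw [inner_trA _ _ hs', inner_trA _ _ hs, gi_comp hD h1 h2, shL_c2_ChB4, tr_conj_ChB4 _ _ h1]

theorem ft_comp (hD : IsUnit (gm D)) (h1 : Λ * Λi = 1) (h2 : Λi * Λ = 1) (P : H →L[ℝ] H) :
    ft (D.comp Λ) P = ft D P := by
  have e : fT (D.comp Λ) P = (ad Λ).comp ((fT D P).comp Λ) := by
    rw [fT, fT, ad_comp]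
    rfl
  rw [ft, ft, e, gi_comp hD h1 h2, tr_conj_ChB4 _ _ h1]

theorem dx_comp (hK : IsUnit (kk D A y)) (h1 : Λ * Λi = 1) (h2 : Λi * Λ = 1) :
    dx (D.comp Λ) (c2 A Λ) y = Λi.comp (dx D A y) := by
  have e : kk (D.comp Λ) (c2 A Λ) y = (ad Λ).comp ((kk D A y).comp Λ) := by
    rw [kk, kk, gm_comp, shL_c2_ChB4, ContinuousLinearMap.sub_comp, ContinuousLinearMap.comp_sub]
  ext1 v
  rw [dx_apply, ki, e, inv_conj_ChB4 hK h1 h2, ad_comp]
  simp only [ContinuousLinearMap.comp_apply, ad_cancel_ChB4 h1]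
  rfl

theorem fj_comp (hK : IsUnit (kk D A y)) (h1 : Λ * Λi = 1) (h2 : Λi * Λ = 1) (P : H →L[ℝ] H) :
    fj (D.comp Λ) (c2 A Λ) y P = fj D A y P := by
  have e : (Λi.comp (dx D A y)).comp (P.comp (ad (Λi.comp (dx D A y)))) =
      Λi.comp (((dx D A y).comp (P.comp (ad (dx D A y)))).comp (ad Λi)) := by
    rw [ad_comp]
    rfl
  have e2 : |Λ.det| * |Λi.det| = 1 := by
    rw [← abs_mul, ← det_comp, ← ContinuousLinearMap.mul_def, h1, det_one, abs_one]
  rw [fj, fj, dx_comp hK h1 h2, wt_comp, jac_eq, jac_eq, e, det_comp, det_comp _ (ad Λi), det_ad,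
    sqrt_conj_ChB4]
  linear_combination (wt D * √((dx D A y).comp (P.comp (ad (dx D A y)))).det) * e2

end lin

end Pool.Agent.Lib.MP_8daebb_an.GM.Ch
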