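import Pool.Agent.Lib.MP_8daebb_an.GM.ChN87

/-! Two centres: pointwise comparison. -/

open MeasureTheory Metric Set Filter Topology
open scoped RealInnerProductSpace ENNReal

namespace Pool.Agent.Lib.MP_8daebb_an.GM.Ch

variable {d : ℕ} {H : Type*} [NormedAddCommGroup H] [InnerProductSpace ℝ H] [FiniteDimensional ℝ H]

variable {ι : E d →ₗᵢ[ℝ] H} {F F' : E d → H} {o o' : E d} {ε ε' R R' κ : ℝ}

theorem Pre.lipF (h : Pre ι F o ε R) {z w : E d} (hz : z ∈ ball (0 : E d) R)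
    (hw : w ∈ ball (0 : E d) R) : ‖F z - F w‖ ≤ (1 + ε) * ‖z - w‖ := by
  have h1 := h.near_iso hz hw
  have h2 := norm_le_norm_add_norm_sub' (F z - F w) (ι (z - w))
  rw [ι.norm_map] at h2
  linarith

theorem norm_ad_ChC1 (D : E d →L[ℝ] H) (u : H) : ‖ad D u‖ ≤ ‖D‖ * ‖u‖ := by
  refine (ContinuousLinearMap.le_opNorm _ _).trans (le_of_eq ?_)
  rw [ad_apply, ContinuousLinearMap.adjoint.norm_map]

theorem ad_diff_ChC1 {D D' : E d →L[ℝ] H} {u : H} (hu : ad D' u = 0) {a : ℝ} (ha : ‖D - D'‖ ≤ a) :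
    ‖ad D u‖ ≤ a * ‖u‖ := by
  have h1 : ad D u = ad (D - D') u := by
    rw [map_sub, sub_apply, hu, sub_zero]
  rw [h1]
  exact (norm_ad_ChC1 _ _).trans (by gcongr)

theorem pn_apply (D : E d →L[ℝ] H) (u : H) : (1 - pT D) u = u - pT D u := rfl

theorem Jet0.pn_le' {D : E d →L[ℝ] H} (h : Jet0 ε D) (u : H) : ‖(1 - pT D) u‖ ≤ ‖u‖ := h.pn_le u

theorem Jet0.pn_D {D : E d →L[ℝ] H} (h : Jet0 ε D) (v : E d) : (1 - pT D) (D v) = 0 := by
  rw [pn_apply, h.pT_D, sub_self]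

theorem core_ChC1 (h : Pre ι F o ε R) (h' : Pre ι F' o' ε' R') (hκ0 : 0 ≤ κ) (hκ : κ ≤ 1 / 100)
    {p : H} {x' : E d} (hx' : IsFoot F' R' p x') (hy : ‖p - F' x'‖ ≤ 1 / 2)
    (hF : ‖F' x' - F x'‖ ≤ κ) (hΦ : ‖d1 F x' - d1 F' x'‖ ≤ κ) (hroom : ‖x'‖ + 4 * κ < R) :
    ∃ x, IsFoot F R p x ∧ ‖x - x'‖ ≤ 4 * κ := by
  have hb : x' ∈ ball (0 : E d) R := mem_ball_zero_iff.2 (by linarith)
  have hp := h'.foot_norm_lt hx'
  have hε := h.eps_le
  have e0 := h.eps0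
  have e : p - F x' = (p - F' x') + (F' x' - F x') := by abel
  obtain ⟨x, h1, h2⟩ := h.exists_foot (p := p) (by linarith) (x₀ := x') (r := 4 * κ)
    (by linarith) hroom (by
      have g1 := ad_diff_ChC1 hx'.2.1 hΦ
      have g2 := norm_ad_ChC1 (d1 F x') (F' x' - F x')
      have g3 := mul_le_mul (h.jet0 hb).norm_le hF (norm_nonneg _) (by linarith)
      rw [e, map_add]
      refine (norm_add_le _ _).trans ?_
      nlinarith)
  have hx : x ∈ ball (0 : E d) R := by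
    have := norm_le_norm_add_norm_sub' x x'
    exact mem_ball_zero_iff.2 (by linarith)
  refine ⟨x, ⟨hx, h2, ?_⟩, h1⟩
  have g1 := h.lipF hb hx
  rw [norm_sub_rev x'] at g1
  have g2 : p - F x = (p - F' x') + (F' x' - F x') + (F x' - F x) := by abel
  have g3 := mul_le_mul (by linarith : 1 + ε ≤ 2) h1 (norm_nonneg _) zero_le_two
  rw [g2]
  refine norm_add₃_le.trans_lt ?_
  linarith

theorem cmp_back (h : Pre ι F o ε R) (h' : Pre ι F' o' ε' R') (hc : Close F F' κ R') (hκ0 : 0 ≤ κ)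
    (hκ : κ ≤ 1 / 100) (hroom : R' + 4 * κ ≤ R) {p : H} (hp : p ∈ tube F' R')
    (hy : ‖ht F' R' p‖ ≤ 1 / 2) : p ∈ tube F R ∧ ‖foot F' R' p - foot F R p‖ ≤ 4 * κ := by
  have hx' := foot_spec hp
  have g := hc _ hx'.1
  obtain ⟨x, h1, h2⟩ := core_ChC1 h h' hκ0 hκ hx' hy g.1
    (by rw [norm_sub_rev]; exact g.2) (by linarith [mem_ball_zero_iff.1 hx'.1])
  exact ⟨⟨x, h1⟩, by rwa [h.foot_eq h1, norm_sub_rev]⟩

theorem cmp_fwd (h : Pre ι F o ε R) (h' : Pre ι F' o' ε' R') (hc : Close F F' κ R') (hκ0 : 0 ≤ κ)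
    (hκ : κ ≤ 1 / 100) {p : H} (hp : p ∈ tube F R) (hy : ‖ht F R p‖ ≤ 1 / 2)
    (hx : ‖foot F R p‖ + 4 * κ < R') : p ∈ tube F' R' ∧ ‖foot F' R' p - foot F R p‖ ≤ 4 * κ := by
  have g := hc (foot F R p) (mem_ball_zero_iff.2 (by linarith))
  obtain ⟨x, h1, h2⟩ := core_ChC1 h' h hκ0 hκ (foot_spec hp) hy
    (by rw [norm_sub_rev]; exact g.1) g.2 hx
  exact ⟨⟨x, h1⟩, by rwa [h'.foot_eq h1]⟩

theorem cmp_near (h : Pre ι F o ε R) (hRR : R' ≤ R) (hc : Close F F' κ R') (hκ0 : 0 ≤ κ)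
    {p : H} (hp : p ∈ tube F R) (hp' : p ∈ tube F' R')
    (hx : ‖foot F' R' p - foot F R p‖ ≤ 4 * κ) :
    ‖ht F' R' p - ht F R p‖ ≤ 6 * κ ∧ ‖j1 F' R' p - j1 F R p‖ ≤ 2 * κ ∧
      ‖ht F' R' p - ht F R p +
        (1 - pT (d1 F (foot F' R' p))) (F' (foot F' R' p) - F (foot F' R' p))‖ ≤
        20 * κ * (κ + ‖ht F R p‖) := by
  have hf := foot_spec hp
  have hf' := foot_spec hp'
  simp only [ht, j1]
  generalize foot F R p = x at *
  generalize foot F' R' p = x' at *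
  have hb : x' ∈ ball (0 : E d) R := ball_subset_ball hRR hf'.1
  have g := hc x' hf'.1
  have h0 := h.eps0
  have hε := h.eps_le
  have cf := h.jet0 hb
  have a1 : ‖p - F' x' - (p - F x)‖ ≤ 6 * κ := by
    have g1 := h.lipF hb hf.1
    have g3 := mul_le_mul (by linarith : 1 + ε ≤ 5 / 4) hx (norm_nonneg _) (by norm_num)
    rw [show p - F' x' - (p - F x) = -((F' x' - F x') + (F x' - F x)) by abel, norm_neg]
    refine (norm_add_le _ _).trans ?_
    linarith [g.1]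
  have a0 : ‖d1 F x' - d1 F x‖ ≤ κ / 25 := by
    refine (h.lip0 hb hf.1).trans ?_
    nlinarith [norm_nonneg (x' - x)]
  have a2 : ‖d1 F' x' - d1 F x‖ ≤ 2 * κ := by
    have := norm_sub_le_norm_sub_add_norm_sub (d1 F' x') (d1 F x') (d1 F x)
    linarith [g.2]
  refine ⟨a1, a2, ?_⟩
  have b1 := ad_diff_ChC1 (D := d1 F x') (a := κ) hf'.2.1 (by rw [norm_sub_rev]; exact g.2)
  have b2 := ad_diff_ChC1 hf.2.1 a0
  have b3 := cf.pT_le (p - F' x')
  have b4 := cf.pT_le (p - F x)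
  have b5 := (cf.pn_le' _).trans (h.taylor hf.1 hb)
  have b6 := norm_le_norm_add_norm_sub' (p - F' x') (p - F x)
  have b7 : ‖x - x'‖ ^ 2 ≤ (4 * κ) ^ 2 := by
    rw [norm_sub_rev]
    gcongr
  have e : p - F' x' - (p - F x) + (1 - pT (d1 F x')) (F' x' - F x') =
      pT (d1 F x') (p - F' x') + -pT (d1 F x') (p - F x) +
        (1 - pT (d1 F x')) (F x - F x' - d1 F x' (x - x')) := by
    rw [map_sub _ _ (d1 F x' _), cf.pn_D]
    simp only [pn_apply, map_sub]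
    abel
  rw [e]
  refine norm_add₃_le.trans ?_
  rw [norm_neg]
  have b8 : κ * ‖p - F' x'‖ ≤ κ * (‖p - F x‖ + 6 * κ) :=
    mul_le_mul_of_nonneg_left (by linarith) hκ0
  have b9 : ε * ‖x - x'‖ ^ 2 ≤ 1 / 1000 * (4 * κ) ^ 2 := by gcongr
  nlinarith [mul_nonneg hκ0 (norm_nonneg (p - F x)), sq_nonneg κ]

/-- The normal part of the displacement is Lipschitz. -/
theorem cmp_lip (h : Pre ι F o ε R) (h' : Pre ι F' o' ε' R') (hRR : R' ≤ R)
    (hc : Close F F' κ R') {z w : E d} (hz : z ∈ ball (0 : E d) R') (hw : w ∈ ball (0 : E d) R') :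
    ‖(1 - pT (d1 F z)) (F' z - F z) - (1 - pT (d1 F w)) (F' w - F w)‖ ≤ 3 * κ * ‖z - w‖ := by
  have hzR := ball_subset_ball hRR hz
  have hwR := ball_subset_ball hRR hw
  have hκ0 : 0 ≤ κ := (norm_nonneg _).trans (hc z hz).1
  have a1 : ‖(F' z - F z) - (F' w - F w)‖ ≤ κ * ‖z - w‖ :=
    (convex_ball (0 : E d) R').norm_image_sub_le_of_norm_hasFDerivWithin_le
      (f := fun u => F' u - F u) (f' := fun u => d1 F' u - d1 F u)
      (fun u hu => ((h'.hasFDerivAt hu).sub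
        (h.hasFDerivAt (ball_subset_ball hRR hu))).hasFDerivWithinAt)
      (fun u hu => (hc u hu).2) hw hz
  have a2 := ((h.jet0 hzR).pn_le' _).trans a1
  have a3 : ‖pT (d1 F w) - pT (d1 F z)‖ ≤ ‖z - w‖ := by
    have := h.lip0 hzR hwR
    rw [norm_sub_rev]
    refine ((h.jet0 hzR).pT_sub (h.jet0 hwR)).trans ?_
    nlinarith [norm_nonneg (z - w), h.eps_le]
  have a4 : ‖(pT (d1 F w) - pT (d1 F z)) (F' w - F w)‖ ≤ ‖z - w‖ * κ :=
    (ContinuousLinearMap.le_opNorm _ _).trans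
      (mul_le_mul a3 (hc w hw).1 (norm_nonneg _) (norm_nonneg _))
  have e : (1 - pT (d1 F z)) (F' z - F z) - (1 - pT (d1 F w)) (F' w - F w) =
      (1 - pT (d1 F z)) ((F' z - F z) - (F' w - F w)) +
        (pT (d1 F w) - pT (d1 F z)) (F' w - F w) := by
    rw [map_sub _ (F' z - F z), sub_apply (pT (d1 F w))]
    simp only [pn_apply]
    abel
  rw [e]
  refine (norm_add_le _ _).trans ?_
  nlinarith [mul_nonneg hκ0 (norm_nonneg (z - w))]

theorem Pre.d1_aff (h : Pre ι F o ε R) {x₀ z : E d} {C : E d →L[ℝ] E d}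
    (hz : x₀ + C z ∈ ball (0 : E d) R) : d1 (Ch.aff F x₀ C) z = (d1 F (x₀ + C z)).comp C :=
  (HasFDerivAt.comp (f := fun z => x₀ + C z) z (h.hasFDerivAt hz)
    (C.hasFDerivAt.const_add x₀)).fderiv

/-- Restoring the gauge by an affine change of the parameter. -/
theorem gauge_pre (h : Pre ι F o ε R) (hn : Nrm F) (ho : Org F) (h' : Pre ι F' o' ε' R')
    (hRR : R' ≤ R) (hc : Close F F' κ R') (hκ0 : 0 ≤ κ) (h1 : cH H * (ε' + 10 * κ) ≤ 1)
    (hroom : 15 * κ < R') :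
    ∃ (x₀ : E d) (C : E d →L[ℝ] E d), ‖x₀‖ ≤ 4 * κ ∧ ‖C - 1‖ ≤ 4 * κ ∧
      Pre ι (aff F' x₀ C) o' (ε' + 10 * κ) (R' - 15 * κ) ∧ Nrm (aff F' x₀ C) ∧
      Org (aff F' x₀ C) ∧ Close F (aff F' x₀ C) (20 * κ) (R' - 15 * κ) ∧
      ∀ z ∈ ball (0 : E d) (R' - 15 * κ), ‖x₀ + C z - z‖ ≤ 14 * κ ∧
        ‖(1 - pT (d1 F z)) (aff F' x₀ C z - F' z)‖ ≤ 20 * κ ^ 2 := by
  have hR0 : 0 < R' := by linarith
  have z0 : (0 : E d) ∈ ball (0 : E d) R' := mem_ball_self hR0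
  have g0 := hc 0 z0
  have e0 := h'.eps0
  have e1 := h'.eps_le
  have hκ : κ ≤ 1 / 10000 := by
    have : (0 : ℝ) ≤ Module.finrank ℝ H := Nat.cast_nonneg _
    have h2 : 1000 ≤ cH H := by unfold cH; nlinarith
    nlinarith
  have hR5 := h'.R_le
  obtain ⟨x, h1x, h2⟩ := core_ChC1 h' h hκ0 (by linarith) (h.foot_zero ho (by linarith))
    (by rw [zero_sub, norm_neg]; linarith [h.norm_F0 ho (by linarith), h.eps_le])
    (by rw [norm_sub_rev]; exact g0.1) g0.2 (by rw [norm_zero]; linarith)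
  rw [sub_zero] at h2
  have ex : ε' * ‖x‖ ≤ 1 / 1000 * (4 * κ) := by gcongr
  have hG : ‖gm (d1 F' x) - 1‖ ≤ 4 * κ := by
    have a1 := (h'.jet0 h1x.1).gm_sub (h.jet0 (ball_subset_ball hRR z0))
    have a2 := h'.lip0 h1x.1 z0
    have a3 := norm_sub_le_norm_sub_add_norm_sub (d1 F' x) (d1 F' 0) (d1 F 0)
    rw [sub_zero] at a2
    rw [show gm (d1 F 0) = 1 from hn] at a1
    linarith [g0.2]
  obtain ⟨C, hC, hC1⟩ := (h'.jet0 h1x.1).exists_nrm hG (by linarith)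
  have m1 : ∀ z ∈ ball (0 : E d) (R' - 15 * κ), z ∈ ball (0 : E d) R' ∧
      x + C z ∈ ball (0 : E d) R' ∧ ‖x + C z - z‖ ≤ 14 * κ := by
    intro z hz
    rw [mem_ball_zero_iff] at hz
    have a1 : ‖(C - 1) z‖ ≤ 4 * κ * (5 / 2) := (ContinuousLinearMap.le_opNorm _ _).trans
      (mul_le_mul hC (by linarith) (norm_nonneg _) (by linarith))
    have a2 : ‖x + C z - z‖ ≤ 14 * κ := by
      rw [add_sub_assoc]
      exact (norm_add_le x ((C - 1) z)).trans (by linarith)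
    have a3 := norm_le_norm_add_norm_sub' (x + C z) z
    exact ⟨mem_ball_zero_iff.2 (by linarith), mem_ball_zero_iff.2 (by linarith), a2⟩
  have ed : d1 (aff F' x C) 0 = (d1 F' x).comp C := by
    rw [h'.d1_aff (by rw [map_zero, add_zero]; exact h1x.1), map_zero, add_zero]
  refine ⟨x, C, h2, hC, h'.aff hC (by linarith) (by nlinarith) (by linarith) h1 ?_
    (by linarith [h'.off]), ?_, ?_, fun z hz => ?_, fun z hz => ⟨(m1 z hz).2.2, ?_⟩⟩
  · have a1 := h'.lipF h1x.1 z0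
    have a2 := norm_sub_le_norm_sub_add_norm_sub (F' x) (F' 0) (ι o')
    rw [sub_zero] at a1
    linarith [h'.base]
  · rw [Nrm, ed, hC1]
  · have a1 := h1x.2.1
    rw [zero_sub, map_neg, neg_eq_zero] at a1
    rw [Org, ed, ad_apply, ContinuousLinearMap.adjoint_comp, ContinuousLinearMap.comp_apply, aff,
      map_zero, add_zero, ← ad_apply (d1 F' x), a1, map_zero]
  · obtain ⟨m2, m3, m4⟩ := m1 z hz
    have g := hc z m2
    have a1 := h'.lipF m3 m2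
    have a2 := h'.lip0 m3 m2
    have a3 := norm_sub_le_norm_sub_add_norm_sub (F' (x + C z)) (F' z) (F z)
    have a4 := norm_sub_le_norm_sub_add_norm_sub (d1 F' (x + C z)) (d1 F' z) (d1 F z)
    have a5 : ε' * ‖x + C z - z‖ ≤ 1 / 1000 * (14 * κ) := by gcongr
    have a6 : ‖(d1 F' (x + C z)).comp (C - 1)‖ ≤ 2 * (4 * κ) :=
      (ContinuousLinearMap.opNorm_comp_le _ _).trans (mul_le_mul
        ((h'.jet0 m3).norm_le.trans (by linarith)) hC (norm_nonneg _) zero_le_two)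
    have a7 := norm_sub_le_norm_sub_add_norm_sub ((d1 F' (x + C z)).comp C) (d1 F' (x + C z)) (d1 F z)
    rw [ContinuousLinearMap.comp_sub] at a6
    rw [h'.d1_aff m3]
    exact ⟨a3.trans (by linarith [g.1]), a7.trans (add_le_add a6 a4 |>.trans (by linarith [g.2]))⟩
  · obtain ⟨m2, m3, m4⟩ := m1 z hz
    have cf := h.jet0 (ball_subset_ball hRR m2)
    have a1 := h'.taylor m3 m2
    have a2 : ‖(d1 F' z - d1 F z) (x + C z - z)‖ ≤ κ * (14 * κ) :=
      (ContinuousLinearMap.le_opNorm _ _).trans (mul_le_mul (hc z m2).2 m4 (norm_nonneg _) hκ0)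
    have a3 : ε' * ‖x + C z - z‖ ^ 2 ≤ 1 / 1000 * (14 * κ) ^ 2 := by gcongr
    have e : (1 - pT (d1 F z)) (aff F' x C z - F' z) = (1 - pT (d1 F z))
        ((F' (x + C z) - F' z - d1 F' z (x + C z - z)) + (d1 F' z - d1 F z) (x + C z - z)) := by
      rw [sub_apply (d1 F' z), ← add_sub_assoc, sub_add_cancel, map_sub _ _ (d1 F z _), cf.pn_D,
        sub_zero]
      rfl
    rw [e]
    refine (cf.pn_le' _).trans ((norm_add_le _ _).trans ?_)
    nlinarith [sq_nonneg κ]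

end Pool.Agent.Lib.MP_8daebb_an.GM.Ch
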