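import Pool.Agent.Lib.MP_8daebb_an.GM.ChC1
import Pool.Agent.Lib.MP_8daebb_an.GM.ChS

/-! Two centres: comparison of the charts. -/

open MeasureTheory Metric Set Filter Topology
open scoped RealInnerProductSpace ENNReal

namespace Pool.Agent.Lib.MP_8daebb_an.GM.Ch

variable {d : ℕ} {H : Type*} [NormedAddCommGroup H] [InnerProductSpace ℝ H] [FiniteDimensional ℝ H]
  [MeasurableSpace H] [BorelSpace H]

variable {V : Measure (H × (H →L[ℝ] H))} {ι : E d →ₗᵢ[ℝ] H} {F F' : E d → H} {o o' : E d}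
  {ε ε' R R' κ M θ η : ℝ}

theorem dens_le_ChC2 {α : Type*} [MeasurableSpace α] {μ : Measure α} {S S' : Set α}
    (hS' : MeasurableSet S') {f f' : α → ℝ≥0∞} {k : ℝ≥0∞} (hk : k ≠ ⊤)
    (h : ∀ᵐ a ∂μ, a ∈ S' → a ∈ S ∧ f' a ≤ k * f a) :
    (μ.restrict S').withDensity f' ≤ k • (μ.restrict S).withDensity f := by
  refine Measure.le_iff.2 fun s hs => ?_
  rw [Measure.smul_apply, smul_eq_mul, withDensity_apply _ hs, withDensity_apply _ hs,
    Measure.restrict_restrict hs, Measure.restrict_restrict hs, ← lintegral_const_mul' _ _ hk]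
  refine (setLIntegral_mono_ae' (hs.inter hS') ?_).trans (lintegral_mono_set' ?_)
  · filter_upwards [h] with a ha h1 using (ha h1.2).2
  · filter_upwards [h] with a ha h1 using ⟨h1.1, (ha h1.2).1⟩

theorem inv_le_ChC2 {w w' e : ℝ} (hw : 99 / 100 ≤ w) (hw' : 99 / 100 ≤ w') (he : 0 ≤ e)
    (h : w - w' ≤ e / 2) :
    ENNReal.ofReal w'⁻¹ ≤ ENNReal.ofReal (1 + e) * ENNReal.ofReal w⁻¹ := by
  rw [← ENNReal.ofReal_mul (by linarith)]
  refine ENNReal.ofReal_le_ofReal ?_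
  rw [← div_eq_mul_inv, inv_eq_one_div, div_le_div_iff₀ (by linarith) (by linarith)]
  nlinarith

theorem Pre.ht_half (h : Pre ι F o ε R) (hV : EV V ι M θ η) (hη : η ≤ 1 / 100) {p : H}
    (hp : p ∈ tube F R) (hs : p ∈ V.fst.support) : ‖ht F R p‖ ≤ 1 / 2 :=
  (h.ht_le_supp hV hη hp hs).trans (by linarith [h.eps_le])

omit [MeasurableSpace H] [BorelSpace H] in
theorem mul_le_ChC2 {D D' : E d →L[ℝ] H} (h : ‖D - D'‖ ≤ 2 * κ) :
    cH H / 100 * ‖D - D'‖ ≤ cH H * κ / 50 := by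
  have := cH_ge (H := H)
  nlinarith

/-- Charts of close centres are close. -/
theorem cmp_chart (h : Pre ι F o ε R) (h' : Pre ι F' o' ε' R') (hc : Close F F' κ R') (hκ0 : 0 ≤ κ)
    (hκ : κ ≤ 1 / 100) (hroom : R' + 4 * κ ≤ R) (hV : EV V ι M θ η) (hη : η ≤ 1 / 100) {εJ : ℝ}
    (hJ : cH H * κ ≤ εJ) : Cmp (chart V F R) (chart V F' R') R' εJ := by
  classical
  have hRR : R' ≤ R := by linarith
  have hJ' : 1000 * κ ≤ εJ := le_trans (mul_le_mul_of_nonneg_right cH_ge hκ0) hJ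
  have hb := fun (p : H) (hs : p ∈ V.fst.support) (hp : p ∈ tube F' R') =>
    cmp_back h h' hc hκ0 hκ hroom hp (h'.ht_half hV hη hp hs)
  have hn := fun (p : H) => cmp_near h hRR hc hκ0 (p := p)
  have hw : ∀ p ∈ tube F R, p ∈ tube F' R' → ‖foot F' R' p - foot F R p‖ ≤ 4 * κ →
      |wt (j1 F' R' p) - wt (j1 F R p)| ≤ εJ / 50 := fun p h1 h2 h3 =>
    ((h'.jet_at h2).toJet0.wt_sub (h.jet_at h1).toJet0).trans
      ((mul_le_ChC2 (hn p h1 h2 h3).2.1).trans (by linarith))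
  refine ⟨dens_le_ChC2 h'.meas_dom ENNReal.ofReal_ne_top ?_, ?_, ?_⟩
  · filter_upwards [ev_ae_supp hV] with a hs ha
    obtain ⟨h1, h2⟩ := hb _ hs ha
    refine ⟨h1, inv_le_ChC2 (h.jet_at h1).toJet0.wt_low (h'.jet_at ha).toJet0.wt_low
      (by linarith) ?_⟩
    linarith [(abs_le.1 (hw _ h1 ha h2)).1]
  · have hZ : MeasurableSet ((chart V F R).cyl 0 (R' - εJ)) :=
      measurableSet_lt ((h.meas_chart V).1.sub_const _).norm measurable_const
    change ((V.restrict _).withDensity _).restrict _ ≤ _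
    rw [restrict_withDensity hZ, Measure.restrict_restrict hZ]
    refine dens_le_ChC2 (hZ.inter h.meas_dom) ENNReal.ofReal_ne_top ?_
    filter_upwards [ev_ae_supp hV] with a hs ha
    have h0 := (mem_cyl_ChS a _).1 ha.1
    obtain ⟨h1, h2⟩ := cmp_fwd h h' hc hκ0 hκ ha.2 (h.ht_half hV hη ha.2 hs) (by linarith)
    refine ⟨h1, inv_le_ChC2 (h'.jet_at h1).toJet0.wt_low (h.jet_at ha.2).toJet0.wt_low
      (by linarith) ?_⟩
    linarith [(abs_le.1 (hw _ ha.2 h1 h2)).2]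
  · rw [h'.chart_ae]
    filter_upwards [ev_ae_supp hV, hV.car] with a hs hP ha
    have ha' : a.1 ∈ tube F' R' := ha
    obtain ⟨h1, h2⟩ := hb _ hs ha
    obtain ⟨h3, h4, -⟩ := hn _ h1 ha h2
    have ha1 : a ∈ dom F R := h1
    have h5 := hw _ h1 ha h2
    have h6 := (h'.jet_at ha').toJet0.sqrt_ft_sub (h.jet_at h1).toJet0 hP.2
    have h7 := (h'.jet_at ha').toJet0.am_sub (h.jet_at h1).toJet0
    have h8 := mul_le_ChC2 h4
    rw [chart_y (V := V) ha, chart_y (V := V) ha1, chart_t (V := V) ha, chart_t (V := V) ha1]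
    refine ⟨h2.trans (by linarith), by linarith, by linarith, ?_, ?_⟩
    · exact (congrArg₂ (fun a b => |a - b|) (chart_w (V := V) (foot_spec ha').1)
        (chart_w (V := V) (foot_spec h1).1)).le.trans (h5.trans (by linarith))
    · exact (congrArg₂ (fun a b => ‖a - b‖) (chart_am (V := V) (foot_spec ha').1)
        (chart_am (V := V) (foot_spec h1).1)).le.trans (h7.trans (by linarith))

/-- The kernel of a tested integral with respect to `V`. -/
noncomputable def kerV_ChC2 (F : E d → H) (R : ℝ) (k : E d → ℝ) : H × (H →L[ℝ] H) → ℝ :=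
  (dom F R).indicator fun a => (wt (j1 F R a.1))⁻¹ * k (foot F R a.1)

theorem int_eq_ChC2 (h : Pre ι F o ε R) {Y : Type*} [NormedAddCommGroup Y] [NormedSpace ℝ Y]
    (f : H × (H →L[ℝ] H) → Y) (k : E d → ℝ) :
    ∫ a, k ((chart V F R).x a) • f a ∂(chart V F R).m = ∫ a, kerV_ChC2 F R k a • f a ∂V := by
  rw [h.chart_integral, ← integral_indicator h.meas_dom]
  refine integral_congr_ae (Eventually.of_forall fun a => ?_)
  by_cases ha : a ∈ dom F R
  · simp only [kerV_ChC2, indicator_of_mem ha, mul_smul]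
    rfl
  · simp only [kerV_ChC2, indicator_of_notMem ha, zero_smul]

theorem ker_meas_ChC2 (h : Pre ι F o ε R) {k : E d → ℝ} (hk : Continuous k) :
    AEStronglyMeasurable (kerV_ChC2 F R k) V :=
  (aestronglyMeasurable_indicator_iff h.meas_dom).2
    ((h.cont_wtinv.aestronglyMeasurable h.meas_dom).mul
      (hk.measurable.comp (h.meas_foot.comp measurable_fst)).aestronglyMeasurable)

omit [MeasurableSpace H] [BorelSpace H] in
theorem ker_le_ChC2 (h : Pre ι F o ε R) {k : E d → ℝ} {T : ℝ} (hk : ∀ z, |k z| ≤ T)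
    (a : H × (H →L[ℝ] H)) : |kerV_ChC2 F R k a| ≤ 2 * T := by
  have h0 : 0 ≤ T := (abs_nonneg _).trans (hk 0)
  by_cases ha : a ∈ dom F R
  · have h1 := (h.jet_at ha).toJet0.wt_low
    have h2 : (wt (j1 F R a.1))⁻¹ ≤ 2 := inv_le_of_inv_le₀ two_pos (by linarith)
    rw [kerV_ChC2, indicator_of_mem ha, abs_mul, abs_of_nonneg (inv_nonneg.2 (by linarith))]
    exact mul_le_mul h2 (hk _) (abs_nonneg _) zero_le_two
  · rw [kerV_ChC2, indicator_of_notMem ha, abs_zero]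
    linarith

omit [MeasurableSpace H] [BorelSpace H] in
theorem ker_zero_ChC2 {k : E d → ℝ} {a : H × (H →L[ℝ] H)}
    (h : a ∈ dom F R → k (foot F R a.1) = 0) : kerV_ChC2 F R k a = 0 := by
  by_cases ha : a ∈ dom F R
  · rw [kerV_ChC2, indicator_of_mem ha, h ha, mul_zero]
  · rw [kerV_ChC2, indicator_of_notMem ha]

theorem num_ChC2 {w w' k k' a b T : ℝ} (hw : 99 / 100 ≤ w) (hw' : 99 / 100 ≤ w')
    (h1 : |w' - w| ≤ a) (hk : |k| ≤ T) (h2 : |k' - k| ≤ b) :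
    |w'⁻¹ * k' - w⁻¹ * k| ≤ 10 / 9 * b + 2 * (a * T) := by
  have h3 : w⁻¹ ≤ 10 / 9 := inv_le_of_inv_le₀ (by norm_num) (by linarith)
  have h4 : w'⁻¹ ≤ 10 / 9 := inv_le_of_inv_le₀ (by norm_num) (by linarith)
  have h5 : 0 ≤ w⁻¹ := inv_nonneg.2 (by linarith)
  have h6 : 0 ≤ w'⁻¹ := inv_nonneg.2 (by linarith)
  have e : w'⁻¹ * k' - w⁻¹ * k = w'⁻¹ * (k' - k) - w'⁻¹ * w⁻¹ * ((w' - w) * k) := by
    have : w ≠ 0 := by linarith
    have : w' ≠ 0 := by linarith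
    field_simp
    ring
  rw [e]
  refine (abs_sub _ _).trans ?_
  rw [abs_mul, abs_mul, abs_mul (w' - w), abs_of_nonneg h6, abs_of_nonneg (mul_nonneg h6 h5)]
  have a0 := (abs_nonneg _).trans h1
  have h7 := mul_le_mul h4 h2 (abs_nonneg _) (by norm_num)
  have h8 := mul_le_mul (mul_le_mul h4 h3 h5 (by norm_num)) (mul_le_mul h1 hk (abs_nonneg _) a0)
    (mul_nonneg (abs_nonneg _) (abs_nonneg _)) (by norm_num)
  nlinarith [mul_nonneg a0 ((abs_nonneg _).trans hk)]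

theorem cont_ChC2 {k : E d → ℝ} {T₁ : ℝ} (hk1 : ∀ z w, |k z - k w| ≤ T₁ * ‖z - w‖) : Continuous k :=
  (LipschitzWith.of_dist_le' (K := T₁) fun z w => by
    rw [Real.dist_eq, dist_eq_norm]; exact hk1 z w).continuous

/-- A tested integral in the two charts. -/
theorem cmp_intF (h : Pre ι F o ε R) (h' : Pre ι F' o' ε' R') (hc : Close F F' κ R') (hκ0 : 0 ≤ κ)
    (hκ : κ ≤ 1 / 100) (hroom : R' + 4 * κ ≤ R) (hV : EV V ι M θ η) (hη : η ≤ 1 / 100) {Y : Type*}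
    [NormedAddCommGroup Y] [NormedSpace ℝ Y] {f : H × (H →L[ℝ] H) → Y}
    (hf : AEStronglyMeasurable f V) {k : E d → ℝ} {T T₁ ρ A : ℝ} {u : E d} (hk : ∀ z, |k z| ≤ T)
    (hT₁ : 0 ≤ T₁) (hk1 : ∀ z w, |k z - k w| ≤ T₁ * ‖z - w‖) (hk0 : ∀ z, ρ ≤ ‖z - u‖ → k z = 0)
    (hu : ‖u‖ + ρ + 4 * κ ≤ R') (hA0 : 0 ≤ A)
    (hA : ∀ᵐ a ∂(chart V F R).m, a ∈ (chart V F R).cyl u (ρ + 4 * κ) → ‖f a‖ ≤ A) :
    ‖∫ a, k ((chart V F' R').x a) • f a ∂(chart V F' R').m -
        ∫ a, k ((chart V F R).x a) • f a ∂(chart V F R).m‖ ≤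
      (cH H * T + 5 * T₁) * κ * A * (chart V F R).m.real ((chart V F R).cyl u (ρ + 4 * κ)) := by
  have hRR : R' ≤ R := by linarith
  have := hV.fin
  have hC := cH_ge (H := H)
  have hT : 0 ≤ T := (abs_nonneg _).trans (hk 0)
  have hb := fun (p : H) (hs : p ∈ V.fst.support) (hp : p ∈ tube F' R') =>
    cmp_back h h' hc hκ0 hκ hroom hp (h'.ht_half hV hη hp hs)
  obtain ⟨Z, hZ⟩ : ∃ Z, Z = (chart V F R).cyl u (ρ + 4 * κ) := ⟨_, rfl⟩
  have hZm : MeasurableSet Z := hZ ▸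
    measurableSet_lt ((h.meas_chart V).1.sub_const _).norm measurable_const
  have hS := hZm.inter h.meas_dom
  have hmem : ∀ a, a ∈ Z ↔ ‖foot F R a.1 - u‖ < ρ + 4 * κ := fun a => by
    rw [hZ]
    rfl
  rw [← hZ] at hA ⊢
  rw [h.chart_ae] at hA
  have h0 : ∀ᵐ a ∂V, a ∉ Z ∩ dom F R → kerV_ChC2 F R k a = 0 ∧ kerV_ChC2 F' R' k a = 0 := by
    filter_upwards [ev_ae_supp hV] with a hs ha
    have h1 : a ∈ dom F R → ρ + 4 * κ ≤ ‖foot F R a.1 - u‖ := fun h1 =>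
      not_lt.1 fun h2 => ha ⟨(hmem a).2 h2, h1⟩
    refine ⟨ker_zero_ChC2 fun h2 => hk0 _ (by linarith [h1 h2]),
      ker_zero_ChC2 fun h2 => hk0 _ ?_⟩
    obtain ⟨h3, h4⟩ := hb _ hs h2
    rw [norm_sub_rev] at h4
    linarith [h1 h3, norm_sub_le_norm_sub_add_norm_sub (foot F R a.1) (foot F' R' a.1) u]
  have h1 : ∀ᵐ a ∂V, |kerV_ChC2 F' R' k a - kerV_ChC2 F R k a| ≤
      10 / 9 * (T₁ * (4 * κ)) + 2 * (cH H * κ / 50 * T) := by
    filter_upwards [ev_ae_supp hV] with a hs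
    by_cases ha : a ∈ dom F' R'
    · obtain ⟨h3, h4⟩ := hb _ hs ha
      have h5 : a ∈ dom F R := h3
      rw [kerV_ChC2, kerV_ChC2, indicator_of_mem ha, indicator_of_mem h5]
      exact num_ChC2 (h.jet_at h3).toJet0.wt_low (h'.jet_at ha).toJet0.wt_low
        (((h'.jet_at ha).toJet0.wt_sub (h.jet_at h3).toJet0).trans
          (mul_le_ChC2 (cmp_near h hRR hc hκ0 h3 ha h4).2.1)) (hk _)
        ((hk1 _ _).trans (mul_le_mul_of_nonneg_left h4 hT₁))
    · rw [ker_zero_ChC2 fun h2 => absurd h2 ha, ker_zero_ChC2 fun h2 => hk0 _ ?_, sub_zero,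
        abs_zero]
      · positivity
      by_contra h3
      refine ha (cmp_fwd h h' hc hκ0 hκ h2 (h.ht_half hV hη h2 hs) ?_).1
      linarith [norm_le_norm_add_norm_sub' (foot F R a.1) u]
  have h2 : ∀ {g : H × (H →L[ℝ] H) → ℝ} {T : ℝ}, (∀ᵐ a ∂V, |g a| ≤ T) →
      (∀ᵐ a ∂V, a ∉ Z ∩ dom F R → g a = 0) →
      ∀ᵐ a ∂V, ‖g a • f a‖ ≤ (Z ∩ dom F R).indicator (fun _ => T * A) a := by
    intro g T hg hg0
    filter_upwards [hg, hg0, hA] with a a1 a2 a3
    by_cases ha : a ∈ Z ∩ dom F R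
    · rw [indicator_of_mem ha, norm_smul]
      exact mul_le_mul a1 (a3 ha.2 ha.1) (norm_nonneg _) ((abs_nonneg _).trans a1)
    · rw [indicator_of_notMem ha, a2 ha, zero_smul, norm_zero]
  have i1 : Integrable (fun a => kerV_ChC2 F R k a • f a) V :=
    ((integrable_const _).indicator hS).mono' ((ker_meas_ChC2 h (cont_ChC2 hk1)).smul hf)
      (h2 (Eventually.of_forall (ker_le_ChC2 h hk)) (h0.mono fun a ha h3 => (ha h3).1))
  have i2 : Integrable (fun a => kerV_ChC2 F' R' k a • f a) V :=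
    ((integrable_const _).indicator hS).mono' ((ker_meas_ChC2 h' (cont_ChC2 hk1)).smul hf)
      (h2 (Eventually.of_forall (ker_le_ChC2 h' hk)) (h0.mono fun a ha h3 => (ha h3).2))
  rw [int_eq_ChC2 h, int_eq_ChC2 h', ← integral_sub i2 i1]
  simp only [← sub_smul]
  refine (norm_integral_le_of_norm_le ((integrable_const _).indicator hS)
    (h2 h1 (h0.mono fun a ha h3 => by rw [(ha h3).1, (ha h3).2, sub_zero]))).trans ?_
  rw [integral_indicator_const _ hS, smul_eq_mul]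
  have h4 : V.real (Z ∩ dom F R) ≤ 101 / 100 * (chart V F R).m.real Z :=
    (h.real_ge hV Z).trans (mul_le_mul_of_nonneg_right (by linarith [h.eps1]) measureReal_nonneg)
  refine (mul_le_mul_of_nonneg_right h4 (by positivity)).trans ?_
  have m0 : 0 ≤ (chart V F R).m.real Z := measureReal_nonneg
  have p1 : 0 ≤ cH H * T * κ * A * (chart V F R).m.real Z := by positivity
  have p2 : 0 ≤ T₁ * κ * A * (chart V F R).m.real Z := by positivity
  nlinarith

end Pool.Agent.Lib.MP_8daebb_an.GM.Ch
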