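import Pool.Agent.Lib.MP_8daebb_an.GM.ChI2
import Pool.Agent.Lib.MP_8daebb_an.GM.ChA

/-! The chart of a centre is a chart varifold. -/

open MeasureTheory Metric Set Filter Topology
open scoped RealInnerProductSpace ENNReal

namespace Pool.Agent.Lib.MP_8daebb_an.GM.Ch

variable {d : ℕ} {H : Type*} [NormedAddCommGroup H] [InnerProductSpace ℝ H] [FiniteDimensional ℝ H]

theorem JW.mono {δ δ' : ℝ} {D : E d →L[ℝ] H} {A : E d →L[ℝ] E d →L[ℝ] H}
    {B : E d →L[ℝ] E d →L[ℝ] E d →L[ℝ] H} {y : H} {P : H →L[ℝ] H} (h : JW δ D A B y P)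
    (hδ : δ ≤ δ') : JW δ' D A B y P := by
  have t0 := h.t_nonneg
  refine ⟨t0, h.t_le, h.tr_τ, h.τ_le, h.T0_symm, h.T0_pos, h.T0_le, h.T0_τ.trans ?_,
    fun v u => (h.hopf v u).trans ?_, fun v => (h.b_sq v).trans ?_, fun v => (h.rad v).trans ?_,
    fun e => (h.qb e).trans ?_, h.b_le.trans ?_, h.g_pos, fun e => (h.bg e).trans ?_, h.g_le,
    h.g_norm, fun e => (h.sq e).trans ?_, h.trg.trans ?_, h.L_le.trans ?_, h.eh_le.trans ?_,
    h.j_nonneg, h.j_le, h.j_t.trans ?_⟩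
  all_goals first
    | gcongr
    | (have := h.g_pos e; gcongr)
  all_goals exact h.g_pos _

variable [MeasurableSpace H] [BorelSpace H]

theorem met_mono {α : Type*} [MeasurableSpace α] {D : CD d α H} {c : E d} {R δ δ' : ℝ}
    (h : Met D c R δ) (hδ : δ ≤ δ') : Met D c R δ' :=
  ⟨h.w_diff, h.am_diff,
    fun u hu => ⟨(h.one u hu).1.trans hδ, (h.one u hu).2.1.trans hδ, (h.one u hu).2.2.trans hδ⟩,
    fun u hu => ⟨(h.w_le u hu).1.trans (by gcongr), (h.w_le u hu).2.trans hδ⟩,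
    fun u hu => (h.gm_le u hu).trans (by gcongr),
    fun u hu => ⟨(h.am_le u hu).1.trans (by gcongr), (h.am_le u hu).2.trans hδ⟩,
    h.gm_symm, h.am_symm, h.am_gm, h.div_am⟩

variable {V : Measure (H × (H →L[ℝ] H))} {ι : E d →ₗᵢ[ℝ] H} {F : E d → H} {o : E d}
  {ε R M θ η : ℝ}

theorem chart_y {a : H × (H →L[ℝ] H)} (ha : a ∈ dom F R) : (chart V F R).y a = ht F R a.1 :=
  indicator_of_mem ha fun a : H × (H →L[ℝ] H) => ht F R a.1

theorem chart_t {a : H × (H →L[ℝ] H)} (ha : a ∈ dom F R) :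
    (chart V F R).t a = ft (j1 F R a.1) a.2 :=
  indicator_of_mem ha fun a : H × (H →L[ℝ] H) => ft (j1 F R a.1) a.2

theorem chart_j {a : H × (H →L[ℝ] H)} (ha : a ∈ dom F R) :
    (chart V F R).j a = fj (j1 F R a.1) (j2 F R a.1) (ht F R a.1) a.2 :=
  indicator_of_mem ha fun a : H × (H →L[ℝ] H) => fj (j1 F R a.1) (j2 F R a.1) (ht F R a.1) a.2

theorem chart_w {u : E d} (hu : u ∈ ball (0 : E d) R) : (chart V F R).w u = wt (d1 F u) :=
  if_pos hu

theorem chart_gm {u : E d} (hu : u ∈ ball (0 : E d) R) : (chart V F R).gm u = gm (d1 F u) :=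
  if_pos hu

theorem chart_am {u : E d} (hu : u ∈ ball (0 : E d) R) : (chart V F R).am u = am (d1 F u) :=
  if_pos hu

theorem split_ChCV (h : Pre ι F o ε R) (hV : EV V ι M θ η) {δ : ℝ} (hδ : cH H * (ε + η) ≤ δ) :
    cH H * ε ≤ δ ∧ 1000 * (ε + η) ≤ δ := by
  have e0 := h.eps0
  have η0 := ev_eps_nonneg hV
  have c := cH_ge (H := H)
  constructor <;> nlinarith

theorem Pre.pw (h : Pre ι F o ε R) (hR : R ≤ 2) (hV : EV V ι M θ η) (hη : η ≤ 1 / 100) {δ : ℝ}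
    (hδ : cH H * (ε + η) ≤ δ) {a : H × (H →L[ℝ] H)} (ha : a ∈ (chart V F R).G) :
    PW (chart V F R) δ a := by
  obtain ⟨hd, hP, hs⟩ := ha
  have hp : a.1 ∈ tube F R := hd
  obtain ⟨d1, d2⟩ := split_ChCV h hV hδ
  have J := ((h.jet_at hp).jw hP).mono d1
  have e0 := h.eps0
  have η0 := ev_eps_nonneg hV
  have hx := (foot_spec hp).1
  have ey := chart_y (V := V) hd
  have et := chart_t (V := V) hd
  have ej := chart_j (V := V) hd
  have eτ : (chart V F R).τ a = fτ (j1 F R a.1) (j2 F R a.1) (ht F R a.1) a.2 := by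
    simp only [chart, indicator_of_mem hd]
  have eT : (chart V F R).T0 a = fT (j1 F R a.1) a.2 := by simp only [chart, indicator_of_mem hd]
  have eb : (chart V F R).b a = fb (j1 F R a.1) (j2 F R a.1) (ht F R a.1) a.2 := by
    simp only [chart, indicator_of_mem hd]
  have eq : (chart V F R).q a = fq (j1 F R a.1) (j2 F R a.1) (ht F R a.1) a.2 := by
    simp only [chart, indicator_of_mem hd]
  have eg : (chart V F R).g a = fg (j1 F R a.1) (j2 F R a.1) (ht F R a.1) a.2 := by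
    simp only [chart, indicator_of_mem hd]
  have eL : (chart V F R).L a = fL (j1 F R a.1) (j2 F R a.1) (j3 F R a.1) (ht F R a.1) a.2 := by
    simp only [chart, indicator_of_mem hd]
  have ee : (chart V F R).eh a = feh (j1 F R a.1) (j2 F R a.1) (j3 F R a.1) (ht F R a.1) a.2 := by
    simp only [chart, indicator_of_mem hd]
  have ew : (chart V F R).w ((chart V F R).x a) = wt (j1 F R a.1) := chart_w hx
  have eG : (chart V F R).gm ((chart V F R).x a) = gm (j1 F R a.1) := chart_gm hx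
  have eA : (chart V F R).am ((chart V F R).x a) = am (j1 F R a.1) := chart_am hx
  refine ⟨(mem_ball_zero_iff.1 hx).le.trans hR, ?_, ?_,
    (h.foot_norm_lt (foot_spec hp)).le.trans (by norm_num), ?_, ?_, hP, ?_, ?_, ?_, ?_, ?_, ?_, ?_,
    ?_, ?_, ?_, ?_, ?_, ?_, ?_, ?_, ?_, ?_, ?_, ?_, ?_, ?_⟩ <;>
    simp only [CD.p, ey, et, ej, eτ, eT, eb, eq, eg, eL, ee, ew, eG, eA]
  · exact (h.ht_le_supp hV hη hp hs).trans (by linarith)
  · exact (h.jet_at hp).y1.trans one_le_two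
  exacts [J.t_nonneg, J.t_le, J.tr_τ, J.τ_le, J.T0_symm, J.T0_pos, J.T0_le, J.T0_τ, J.hopf, J.b_sq,
    J.rad, J.qb, J.b_le, J.bg, J.g_le, J.g_norm, fun e => J.sq e, J.trg, J.L_le, J.eh_le,
    J.j_nonneg, J.j_le, J.j_t]

theorem Pre.cv (h : Pre ι F o ε R) (hn : Nrm F) (hd : 1 ≤ d) (hR : R ≤ 2) (hR0 : 0 < R) (hV : EV V ι M θ η)
    (hη : η ≤ 1 / 100) {δ : ℝ} (hδ : cH H * (ε + η) ≤ δ) :
    CV (chart V F R) 0 R δ (2 * 3 ^ d * M) := by
  obtain ⟨m1, m2, m3, m4, m5, m6, m7, m8, m9, m10, m11, m12, m13, m14⟩ := h.meas_chart V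
  have e0 := h.eps0
  have η0 := ev_eps_nonneg hV
  obtain ⟨d1, d2⟩ := split_ChCV h hV hδ
  refine ⟨hd, h.chart_finite hV, m1, m2, measurable_fst, measurable_snd, m3, m4, m5, m6, m7, m8,
    m9, m10, m11, m12, m13, m14, hR0, hR, by linarith, ?_, h.chart_ae_G hV,
    fun a ha => h.pw hR hV hη hδ ha, fun a ha a' ha' => ?_, met_mono (h.met hn V) d1,
    fun φ hφ v => h.hor hV hη hφ v, fun φ hφ e => h.ver hV hη hφ e,
    fun φ hφ X hX h0 => h.amb hV hη hφ hX h0, fun Z hZ => h.area hV hZ,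
    h.ld hV, fun u y₀ σ hσ => h.ub hV u y₀ hσ⟩
  · exact h.chart_ae.2 (Eventually.of_forall fun a ha =>
      (foot_spec (show a.1 ∈ tube F R from ha)).1)
  · rw [chart_y (V := V) ha.1, chart_y (V := V) ha'.1]
    exact (h.geo ha.1 ha'.1).trans (mul_le_mul_of_nonneg_right (by linarith) (sq_nonneg _))

end Pool.Agent.Lib.MP_8daebb_an.GM.Ch
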