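import Pool.Agent.Lib.MP_8daebb_an.GM.ChDm
import Pool.Agent.Lib.MP_8daebb_an.GM.ChB4

/-! Calculus on a centre. -/

open Metric Set Filter Topology
open scoped RealInnerProductSpace ContDiff

namespace Pool.Agent.Lib.MP_8daebb_an.GM.Ch

variable {d : ℕ} {H : Type*} [NormedAddCommGroup H] [InnerProductSpace ℝ H]
  [FiniteDimensional ℝ H]

variable {ι : E d →ₗᵢ[ℝ] H} {F : E d → H} {o : E d} {ε R : ℝ} {Ω : Set (E d)} {z : E d}

theorem Mn.mono (h : Mn ι F ε Ω) {ε' : ℝ} {Ω' : Set (E d)} (hε : ε ≤ ε') (ho : IsOpen Ω')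
    (hΩ : Ω' ⊆ Ω) : Mn ι F ε' Ω' := by
  exact ⟨ho, h.sm.mono hΩ, fun z hz => (h.n0 z (hΩ hz)).trans hε,
    fun z hz => (h.n1 z (hΩ hz)).trans hε, fun z hz a => (h.n2 z (hΩ hz) a).trans
      (mul_le_mul_of_nonneg_right hε (norm_nonneg _)), fun z hz => h.har z (hΩ hz)⟩

theorem Mn.sm1 (h : Mn ι F ε Ω) : ContDiffOn ℝ 2 (d1 F) Ω := by
  exact h.sm.fderiv_of_isOpen h.op (by norm_num)

theorem Mn.sm2 (h : Mn ι F ε Ω) : ContDiffOn ℝ 1 (d2 F) Ω := by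
  exact h.sm1.fderiv_of_isOpen h.op (by norm_num)

theorem Mn.cont3 (h : Mn ι F ε Ω) : ContinuousOn (d3 F) Ω := by
  exact h.sm2.continuousOn_fderiv_of_isOpen h.op le_rfl

theorem Mn.der0 (h : Mn ι F ε Ω) (hz : z ∈ Ω) : HasFDerivAt F (d1 F z) z := by
  exact ((h.sm.contDiffAt (h.op.mem_nhds hz)).differentiableAt (by norm_num)).hasFDerivAt

theorem Mn.der1 (h : Mn ι F ε Ω) (hz : z ∈ Ω) : HasFDerivAt (d1 F) (d2 F z) z := by
  exact ((h.sm1.contDiffAt (h.op.mem_nhds hz)).differentiableAt (by norm_num)).hasFDerivAt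

theorem Mn.der2 (h : Mn ι F ε Ω) (hz : z ∈ Ω) : HasFDerivAt (d2 F) (d3 F z) z := by
  exact ((h.sm2.contDiffAt (h.op.mem_nhds hz)).differentiableAt (by norm_num)).hasFDerivAt

theorem Mn.symm2 (h : Mn ι F ε Ω) (hz : z ∈ Ω) (v u : E d) : d2 F z v u = d2 F z u v := by
  exact ((h.sm.contDiffAt (h.op.mem_nhds hz)).isSymmSndFDerivAt (by
    rw [minSmoothness_of_isRCLikeNormedField]; norm_num)).eq v u

theorem Mn.symm3 (h : Mn ι F ε Ω) (hz : z ∈ Ω) (a v u : E d) : d3 F z a v u = d3 F z v a u := by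
  have := ((h.sm1.contDiffAt (h.op.mem_nhds hz)).isSymmSndFDerivAt (by
    rw [minSmoothness_of_isRCLikeNormedField])).eq a v
  exact congrArg (fun L : E d →L[ℝ] H => L u) this

theorem Mn.symm3' (h : Mn ι F ε Ω) (hz : z ∈ Ω) (a v u : E d) : d3 F z a v u = d3 F z a u v := by
  have k : ∀ v u : E d, HasFDerivAt (fun w => d2 F w v u)
      ((((d3 F z).flip v).flip u)) z := fun v u => by
    have := ((h.der2 hz).clm_apply (hasFDerivAt_const v z)).clm_apply (hasFDerivAt_const u z)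
    simpa using this
  have e : (fun w => d2 F w v u) =ᶠ[𝓝 z] fun w => d2 F w u v :=
    mem_of_superset (h.op.mem_nhds hz) fun w hw => h.symm2 hw v u
  have := (k v u).unique ((k u v).congr_of_eventuallyEq e)
  exact congrArg (fun L : E d →L[ℝ] H => L a) this

theorem Mn.jet0 (h : Mn ι F ε Ω) (hε : cH H * ε ≤ 1) (hz : z ∈ Ω) : Jet0 ε (d1 F z) := by
  exact jet0_of_near ι (h.n0 z hz) hε

theorem Mn.har1 (h : Mn ι F ε Ω) (hε : cH H * ε ≤ 1) (hz : z ∈ Ω) (a : E d) :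
    dtrA (d1 F z) (d2 F z) (d3 F z) a = 0 := by
  have g : HasFDerivAt (fun w => gi (d1 F w)) ((dgiL (d1 F z)).comp (d2 F z)) z :=
    (h.jet0 hε hz).hasFDerivAt_gi.comp z (h.der1 hz)
  have k := HasFDerivAt.fun_sum (u := Finset.univ) fun (i : Fin d) _ =>
    ((h.der2 hz).clm_apply (hasFDerivAt_const (eb i) z)).clm_apply
      (g.clm_apply (hasFDerivAt_const (eb i) z))
  have e : (fun w => ∑ i : Fin d, d2 F w (eb i) (gi (d1 F w) (eb i))) =ᶠ[𝓝 z] fun _ => (0 : H) :=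
    mem_of_superset (h.op.mem_nhds hz) fun w hw => h.har w hw
  have := congrArg (fun L : E d →L[ℝ] H => L a)
    (k.unique ((hasFDerivAt_const (0 : H) z).congr_of_eventuallyEq e))
  simp only [sum_apply, add_apply,
    ContinuousLinearMap.comp_apply, ContinuousLinearMap.flip_apply, zero_apply,
    map_zero, zero_add, dgiL_apply, dGL_dG, map_neg] at this
  rw [dtrA, ← this]
  exact Finset.sum_congr rfl fun i _ => by abel

theorem Mn.jet (h : Mn ι F ε Ω) (hε : cH H * ε ≤ 1) (hz : z ∈ Ω) {y : H} (hy : ‖y‖ ≤ 1)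
    (hn : ad (d1 F z) y = 0) : Jet ε (d1 F z) (d2 F z) (d3 F z) y := by
  exact ⟨h.jet0 hε hz, h.n1 z hz, h.n2 z hz, h.symm2 hz, h.symm3 hz, h.symm3' hz, h.har z hz,
    h.har1 hε hz, hy, hn⟩

theorem lip_ChD0 {X Y : Type*} [NormedAddCommGroup X] [NormedSpace ℝ X] [NormedAddCommGroup Y]
    [NormedSpace ℝ Y] {f : X → Y} {f' : X → X →L[ℝ] Y} {s : Set X} {C : ℝ} (hc : Convex ℝ s)
    (h0 : 0 ≤ C) (hf : ∀ x ∈ s, HasFDerivAt f (f' x) x) (hb : ∀ x ∈ s, ∀ a, ‖f' x a‖ ≤ C * ‖a‖)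
    {z w : X} (hz : z ∈ s) (hw : w ∈ s) : ‖f z - f w‖ ≤ C * ‖z - w‖ :=
  hc.norm_image_sub_le_of_norm_hasFDerivWithin_le (fun x hx => (hf x hx).hasFDerivWithinAt)
    (fun x hx => (f' x).opNorm_le_bound h0 (hb x hx)) hw hz

theorem Mn.lip1 (h : Mn ι F ε Ω) (hc : Convex ℝ Ω) {z w : E d} (hz : z ∈ Ω) (hw : w ∈ Ω) :
    ‖d1 F z - d1 F w‖ ≤ ε * ‖z - w‖ := by
  exact hc.norm_image_sub_le_of_norm_hasFDerivWithin_le
    (fun x hx => (h.der1 hx).hasFDerivWithinAt) h.n1 hw hz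

theorem Mn.lip2 (h : Mn ι F ε Ω) (hc : Convex ℝ Ω) {z w : E d} (hz : z ∈ Ω) (hw : w ∈ Ω) :
    ‖d2 F z - d2 F w‖ ≤ ε * ‖z - w‖ := by
  have := lip_ChD0 (Y := E d →L[ℝ] E d →L[ℝ] H) (f := d2 F) (f' := d3 F) hc
    ((norm_nonneg _).trans (h.n0 z hz)) (fun x hx => h.der2 hx) (fun x hx a => h.n2 x hx a) hz hw
  exact this

theorem Mn.taylor (h : Mn ι F ε Ω) (hc : Convex ℝ Ω) {z w : E d} (hz : z ∈ Ω) (hw : w ∈ Ω) :
    ‖F z - F w - d1 F w (z - w)‖ ≤ ε * ‖z - w‖ ^ 2 := by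
  have h0 : 0 ≤ ε := (norm_nonneg _).trans (h.n0 z hz)
  have := (hc.inter (convex_closedBall w ‖z - w‖)).norm_image_sub_le_of_norm_hasFDerivWithin_le'
    (f := F) (f' := d1 F) (φ := d1 F w) (C := ε * ‖z - w‖)
    (fun x hx => (h.der0 hx.1).hasFDerivWithinAt) (fun x hx =>
      (h.lip1 hc hx.1 hw).trans (mul_le_mul_of_nonneg_left (mem_closedBall_iff_norm.1 hx.2) h0))
    ⟨hw, mem_closedBall_self (norm_nonneg _)⟩ ⟨hz, mem_closedBall_iff_norm.2 le_rfl⟩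
  rwa [mul_assoc, ← sq] at this

theorem Mn.near_iso (h : Mn ι F ε Ω) (hc : Convex ℝ Ω) {z w : E d} (hz : z ∈ Ω) (hw : w ∈ Ω) :
    ‖F z - F w - ι (z - w)‖ ≤ ε * ‖z - w‖ := by
  exact hc.norm_image_sub_le_of_norm_hasFDerivWithin_le'
    (f := F) (f' := d1 F) (φ := ι.toContinuousLinearMap) (C := ε)
    (fun x hx => (h.der0 hx).hasFDerivWithinAt) h.n0 hw hz

theorem Pre.mono (h : Pre ι F o ε R) {ε' R' : ℝ} (hε : ε ≤ ε') (h1 : cH H * ε' ≤ 1)
    (hR : R' ≤ R) : Pre ι F o ε' R' := by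
  exact ⟨h.toMn.mono hε isOpen_ball (ball_subset_ball hR), h.eps0.trans hε, h1, h.base.trans hε,
    by linarith [h.off]⟩

theorem Pre.eps_le (h : Pre ι F o ε R) : ε ≤ 1 / 1000 := by
  have := mul_le_mul_of_nonneg_right (cH_ge (H := H)) h.eps0
  linarith [h.eps1]

theorem Pre.R_le (h : Pre ι F o ε R) : R ≤ 5 / 2 := by
  linarith [h.off, norm_nonneg o]

theorem Pre.jet0 (h : Pre ι F o ε R) (hz : z ∈ ball (0 : E d) R) : Jet0 ε (d1 F z) :=
  h.toMn.jet0 h.eps1 hz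

theorem Pre.near_plane (h : Pre ι F o ε R) (hz : z ∈ ball (0 : E d) R) :
    ‖F z - ι (o + z)‖ ≤ ε + ε * ‖z‖ := by
  have h1 := h.toMn.near_iso (convex_ball 0 R) hz (mem_ball_self (pos_of_mem_ball hz))
  have h2 := norm_add_le (F z - F 0 - ι (z - 0)) (F 0 - ι o)
  rw [show F z - F 0 - ι (z - 0) + (F 0 - ι o) = F z - ι (o + z) by
    rw [sub_zero, map_add]; abel] at h2
  rw [sub_zero] at h1 h2
  linarith [h.base]

theorem Pre.norm_F_le (h : Pre ι F o ε R) (hz : z ∈ ball (0 : E d) R) :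
    ‖F z‖ ≤ ‖o‖ + ‖z‖ + 4 * ε := by
  have h1 := h.near_plane hz
  have h2 := norm_add_le (F z - ι (o + z)) (ι (o + z))
  rw [sub_add_cancel, ι.norm_map] at h2
  have h3 : ‖z‖ ≤ 5 / 2 := (mem_ball_zero_iff.1 hz).le.trans h.R_le
  have h4 := mul_le_mul_of_nonneg_left h3 h.eps0
  linarith [norm_add_le o z, h.eps0]

/-- The flat centre. -/
theorem pre_flat (ι : E d →ₗᵢ[ℝ] H) {R : ℝ} (hR : R ≤ 5 / 2) :
    Pre ι (fun z => ι z) 0 0 R ∧ Nrm (fun z : E d => ι z) ∧ Org (fun z : E d => ι z) := by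
  have e1 : d1 (fun z : E d => ι z) = fun _ => ι.toContinuousLinearMap :=
    funext fun z => ι.toContinuousLinearMap.hasFDerivAt.fderiv
  have e2 : d2 (fun z : E d => ι z) = fun _ => 0 := by
    show fderiv ℝ (d1 fun z : E d => ι z) = _
    rw [e1]; funext z; simp
  have e3 : d3 (fun z : E d => ι z) = fun _ => 0 := by
    show fderiv ℝ (d2 fun z : E d => ι z) = _
    rw [e2]; funext z; simp
  refine ⟨⟨⟨isOpen_ball, ι.toContinuousLinearMap.contDiff.contDiffOn, fun z _ => by simp [e1],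
    fun z _ => by rw [e2]; exact ContinuousLinearMap.opNorm_zero.le, fun z _ a => by
      rw [e3, zero_mul]; exact ContinuousLinearMap.opNorm_zero.le,
    fun z _ => by simp [e2, trA]⟩, le_rfl,
    by simp, by simp, by simpa using hR⟩, ?_, by simp [Org]⟩
  have := (jet0_of_near (ε := 0) (D := ι.toContinuousLinearMap) ι (by simp) (by simp)).g1
  rw [Nrm, e1]
  simpa [sub_eq_zero] using this

end Pool.Agent.Lib.MP_8daebb_an.GM.Ch
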