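import Pool.Agent.Lib.MP_8daebb_an.GM.ChD1

/-! The chart is `C^1`. -/

open Metric Set Filter Topology
open scoped RealInnerProductSpace ContDiff

namespace Pool.Agent.Lib.MP_8daebb_an.GM.Ch

variable {d : ℕ} {H : Type*} [NormedAddCommGroup H] [InnerProductSpace ℝ H]
  [FiniteDimensional ℝ H]

variable {ι : E d →ₗᵢ[ℝ] H} {F : E d → H} {o : E d} {ε R : ℝ} {p : H}

theorem mapsTo_foot : MapsTo (foot F R) (tube F R) (ball (0 : E d) R) :=
  fun _ hp => (foot_spec hp).1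

theorem solve_ChD2 {D : E d →L[ℝ] H} {A : E d →L[ℝ] E d →L[ℝ] H}
    {B : E d →L[ℝ] E d →L[ℝ] E d →L[ℝ] H} {y : H} (J : Jet ε D A B y) (v : E d) (u : H) :
    ki D A y (ad D (u - D v) + ad (A v) y) = dx D A y u - v := by
  have e : ad D (u - D v) + ad (A v) y = ad D u - kk D A y v := by
    rw [map_sub, kk, sub_apply, gm_apply, shL_apply]
    abel
  rw [e, map_sub, J.ki_kk, dx_apply]

theorem contDiffOn_one_ChD2 {X Y : Type*} [NormedAddCommGroup X] [NormedSpace ℝ X]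
    [NormedAddCommGroup Y] [NormedSpace ℝ Y] {f : X → Y} {f' : X → X →L[ℝ] Y} {s : Set X}
    (hs : IsOpen s) (hd : ∀ p ∈ s, HasFDerivAt f (f' p) p) (hc : ContinuousOn f' s) :
    ContDiffOn ℝ 1 f s := by
  have e : (1 : WithTop ℕ∞) = 0 + 1 := by simp
  rw [e, contDiffOn_succ_iff_fderiv_of_isOpen hs]
  refine ⟨fun p hp => (hd p hp).differentiableAt.differentiableWithinAt, by simp, ?_⟩
  rw [contDiffOn_zero]
  exact hc.congr fun p hp => (hd p hp).fderiv

section gen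
variable {n : WithTop ℕ∞} {s : Set H} {D : H → E d →L[ℝ] H} {A : H → E d →L[ℝ] E d →L[ℝ] H}
  {y : H → H}

theorem cd_ad_ChD2 (hD : ContDiffOn ℝ n D s) : ContDiffOn ℝ n (fun q => ad (D q)) s :=
  (ad : (E d →L[ℝ] H) →L[ℝ] (H →L[ℝ] E d)).contDiff.comp_contDiffOn hD

theorem cd_kk_ChD2 (hD : ContDiffOn ℝ n D s) (hA : ContDiffOn ℝ n A s)
    (hy : ContDiffOn ℝ n y s) : ContDiffOn ℝ n (fun q => kk (D q) (A q) (y q)) s := by
  have h1 : ContDiffOn ℝ n (fun q => gm (D q)) s := (cd_ad_ChD2 hD).clm_comp hD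
  have h2 : ContDiffOn ℝ n (fun q => shL (A q) (y q)) s := by
    refine contDiffOn_clm_apply.2 fun v => ?_
    exact (cd_ad_ChD2 (hA.clm_apply contDiffOn_const)).clm_apply hy
  exact h1.sub h2

omit [FiniteDimensional ℝ H] in
theorem cd_inv_ChD2 {M : H → E d →L[ℝ] E d} (hM : ContDiffOn ℝ n M s)
    (hu : ∀ q ∈ s, IsUnit (M q)) : ContDiffOn ℝ n (fun q => Ring.inverse (M q)) s := by
  intro q hq
  obtain ⟨u, e⟩ := hu q hq
  have h1 : ContDiffAt ℝ n Ring.inverse (M q) := e ▸ contDiffAt_ringInverse ℝ u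
  exact h1.comp_contDiffWithinAt q (hM q hq)

end gen

theorem Pre.hasFDerivAt_foot (h : Pre ι F o ε R) (hp : p ∈ tube F R) :
    HasFDerivAt (foot F R) (dx (j1 F R p) (j2 F R p) (ht F R p)) p := by
  have hf := foot_spec hp
  have J := h.jet_at hp
  have hop := h.isOpen_tube.mem_nhds hp
  have h1 : HasFDerivAt (fun z : E d × H => ad (d1 F z.1))
      ((ad : (E d →L[ℝ] H) →L[ℝ] (H →L[ℝ] E d)).comp
        ((j2 F R p).comp (ContinuousLinearMap.fst ℝ (E d) H))) (foot F R p, p) :=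
    (ad : (E d →L[ℝ] H) →L[ℝ] (H →L[ℝ] E d)).hasFDerivAt.comp _
      (HasFDerivAt.comp (f := Prod.fst) (foot F R p, p) (h.toMn.der1 hf.1) hasFDerivAt_fst)
  have h2 : HasFDerivAt (fun z : E d × H => z.2 - F z.1)
      (ContinuousLinearMap.snd ℝ (E d) H - (j1 F R p).comp (ContinuousLinearMap.fst ℝ (E d) H))
      (foot F R p, p) :=
    hasFDerivAt_snd.sub
      (HasFDerivAt.comp (f := Prod.fst) (foot F R p, p) (h.toMn.der0 hf.1) hasFDerivAt_fst)
  have hG := h1.clm_apply h2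
  have hlip : ∀ᶠ q in 𝓝 p, ‖foot F R q - foot F R p‖ ≤ 11 / 10 * ‖q - p‖ := by
    filter_upwards [hop] with q hq
    exact h.foot_lip' (foot_spec hq) hf
  have hO1 : (fun q => foot F R q - foot F R p) =O[𝓝 p] fun q => q - p :=
    Asymptotics.IsBigO.of_bound (11 / 10) hlip
  have hO : (fun q => ((foot F R q, q) : E d × H) - (foot F R p, p)) =O[𝓝 p] fun q => q - p :=
    hO1.prod_left (Asymptotics.isBigO_refl _ _)
  have ht' : Tendsto (fun q => ((foot F R q, q) : E d × H)) (𝓝 p) (𝓝 (foot F R p, p)) := by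
    rw [← tendsto_sub_nhds_zero_iff]
    exact hO.trans_tendsto (tendsto_sub_nhds_zero_iff.2 tendsto_id)
  have h3 := (hG.isLittleO.comp_tendsto ht').trans_isBigO hO
  have h4 := (ContinuousLinearMap.isBigO_comp
    (ki (j1 F R p) (j2 F R p) (ht F R p)) _ _).trans_isLittleO h3
  refine HasFDerivAt.of_isLittleO (h4.congr' ?_ EventuallyEq.rfl)
  filter_upwards [hop] with q hq
  have hq0 := (foot_spec hq).2.1
  have := solve_ChD2 J (foot F R q - foot F R p) (q - p)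
  simp only [Function.comp_apply, hq0, hf.2.1, sub_self, zero_sub, map_neg]
  rw [← neg_sub (dx _ _ _ _), ← this]
  rfl

theorem Pre.hasFDerivAt_ht (h : Pre ι F o ε R) (hp : p ∈ tube F R) :
    HasFDerivAt (ht F R) (dy (j1 F R p) (j2 F R p) (ht F R p)) p := by
  exact (hasFDerivAt_id p).sub ((h.toMn.der0 (foot_spec hp).1).comp p (h.hasFDerivAt_foot hp))

theorem Pre.hasFDerivAt_j1 (h : Pre ι F o ε R) (hp : p ∈ tube F R) :
    HasFDerivAt (j1 F R) ((j2 F R p).comp (dx (j1 F R p) (j2 F R p) (ht F R p))) p := by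
  exact (h.toMn.der1 (foot_spec hp).1).comp p (h.hasFDerivAt_foot hp)

theorem Pre.hasFDerivAt_j2 (h : Pre ι F o ε R) (hp : p ∈ tube F R) :
    HasFDerivAt (j2 F R) ((j3 F R p).comp (dx (j1 F R p) (j2 F R p) (ht F R p))) p := by
  exact HasFDerivAt.comp (G := E d →L[ℝ] E d →L[ℝ] H) (g := d2 F) (f := foot F R) p
    (h.toMn.der2 (foot_spec hp).1) (h.hasFDerivAt_foot hp)

theorem Pre.contDiffOn_foot (h : Pre ι F o ε R) : ContDiffOn ℝ 1 (foot F R) (tube F R) := by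
  refine contDiffOn_one_ChD2 h.isOpen_tube (fun p hp => h.hasFDerivAt_foot hp) ?_
  have c1 : ContDiffOn ℝ 0 (j1 F R) (tube F R) := contDiffOn_zero.2 fun p hp =>
    (h.hasFDerivAt_j1 hp).continuousAt.continuousWithinAt
  have c2 : ContDiffOn ℝ 0 (j2 F R) (tube F R) := contDiffOn_zero.2 fun p hp =>
    (h.hasFDerivAt_j2 hp).continuousAt.continuousWithinAt
  have c3 : ContDiffOn ℝ 0 (ht F R) (tube F R) := contDiffOn_zero.2 fun p hp =>
    (h.hasFDerivAt_ht hp).continuousAt.continuousWithinAt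
  exact ((cd_inv_ChD2 (cd_kk_ChD2 c1 c2 c3) fun q hq => (h.jet_at hq).kk_unit).clm_comp
    (cd_ad_ChD2 c1)).continuousOn

theorem Pre.contDiffOn_ht (h : Pre ι F o ε R) : ContDiffOn ℝ 1 (ht F R) (tube F R) := by
  exact contDiffOn_id.sub ((h.sm.of_le (by norm_num)).comp h.contDiffOn_foot mapsTo_foot)

theorem Pre.contDiffOn_j1 (h : Pre ι F o ε R) : ContDiffOn ℝ 1 (j1 F R) (tube F R) := by
  exact (h.toMn.sm1.of_le (by norm_num)).comp h.contDiffOn_foot mapsTo_foot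

theorem Pre.contDiffOn_j2 (h : Pre ι F o ε R) : ContDiffOn ℝ 1 (j2 F R) (tube F R) := by
  exact h.toMn.sm2.comp h.contDiffOn_foot mapsTo_foot

theorem Pre.continuousOn_j3 (h : Pre ι F o ε R) : ContinuousOn (j3 F R) (tube F R) := by
  exact h.toMn.cont3.comp h.contDiffOn_foot.continuousOn mapsTo_foot

theorem Pre.contDiffOn_gi (h : Pre ι F o ε R) :
    ContDiffOn ℝ 1 (fun q => gi (j1 F R q)) (tube F R) := by
  intro q hq
  exact ((h.jet_at hq).toJet0.contDiffAt_gi.of_le (by simp)).comp_contDiffWithinAt q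
    (h.contDiffOn_j1 q hq)

theorem Pre.contDiffOn_wt (h : Pre ι F o ε R) :
    ContDiffOn ℝ 1 (fun q => wt (j1 F R q)) (tube F R) := by
  intro q hq
  exact ((h.jet_at hq).toJet0.contDiffAt_wt.of_le (by simp)).comp_contDiffWithinAt q
    (h.contDiffOn_j1 q hq)

theorem Pre.contDiffOn_wtinv (h : Pre ι F o ε R) :
    ContDiffOn ℝ 1 (fun q => (wt (j1 F R q))⁻¹) (tube F R) := by
  exact h.contDiffOn_wt.inv fun q hq => (h.jet_at hq).toJet0.wt_pos.ne'

theorem Pre.contDiffOn_kk (h : Pre ι F o ε R) :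
    ContDiffOn ℝ 1 (fun q => kk (j1 F R q) (j2 F R q) (ht F R q)) (tube F R) := by
  exact cd_kk_ChD2 h.contDiffOn_j1 h.contDiffOn_j2 h.contDiffOn_ht

theorem Pre.contDiffOn_ki (h : Pre ι F o ε R) :
    ContDiffOn ℝ 1 (fun q => ki (j1 F R q) (j2 F R q) (ht F R q)) (tube F R) := by
  exact cd_inv_ChD2 h.contDiffOn_kk fun q hq => (h.jet_at hq).kk_unit

theorem Pre.contDiffOn_dx (h : Pre ι F o ε R) :
    ContDiffOn ℝ 1 (fun q => dx (j1 F R q) (j2 F R q) (ht F R q)) (tube F R) := by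
  exact h.contDiffOn_ki.clm_comp (cd_ad_ChD2 h.contDiffOn_j1)

theorem Pre.contDiffOn_dy' (h : Pre ι F o ε R) :
    ContDiffOn ℝ 1 (fun q => dy (j1 F R q) (j2 F R q) (ht F R q)) (tube F R) := by
  exact contDiffOn_const.sub (h.contDiffOn_j1.clm_comp h.contDiffOn_dx)

theorem Pre.contDiffOn_xi' (h : Pre ι F o ε R) :
    ContDiffOn ℝ 1 (fun q => xi (j1 F R q) (j2 F R q) (ht F R q)) (tube F R) := by
  exact h.contDiffOn_j1.clm_comp (h.contDiffOn_gi.clm_comp h.contDiffOn_kk)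

end Pool.Agent.Lib.MP_8daebb_an.GM.Ch
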