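import Pool.Agent.Lib.MP_8daebb_an.GM.ChD2

/-! Derivatives of the test fields. -/

open Metric Set Filter Topology
open scoped RealInnerProductSpace ContDiff

namespace Pool.Agent.Lib.MP_8daebb_an.GM.Ch

variable {d : ℕ} {H : Type*} [NormedAddCommGroup H] [InnerProductSpace ℝ H]
  [FiniteDimensional ℝ H]

variable {ι : E d →ₗᵢ[ℝ] H} {F : E d → H} {o : E d} {ε R : ℝ} {p : H}

theorem Pre.hasFDerivAt_wtinv (h : Pre ι F o ε R) (hp : p ∈ tube F R) :
    HasFDerivAt (fun q => (wt (j1 F R q))⁻¹) (-(wt (j1 F R p))⁻¹ •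
      (dlw (j1 F R p) (j2 F R p)).comp (dx (j1 F R p) (j2 F R p) (ht F R p))) p := by
  have hJ := (h.jet_at hp).toJet0
  have hw := hJ.wt_pos.ne'
  have h1 := hJ.hasFDerivAt_wt.comp p (h.hasFDerivAt_j1 hp)
  refine ((hasDerivAt_inv hw).comp_hasFDerivAt p h1).congr_fderiv ?_
  ext u
  simp only [smul_apply, ContinuousLinearMap.comp_apply, smul_eq_mul, lwL_dlw]
  field_simp

section gen_ChD3
variable {X Y Z : Type*} [NormedAddCommGroup X] [InnerProductSpace ℝ X] [FiniteDimensional ℝ X]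
  [NormedAddCommGroup Y] [InnerProductSpace ℝ Y] [FiniteDimensional ℝ Y]
  [NormedAddCommGroup Z] [NormedSpace ℝ Z]

/-- The map `shL` is continuous and linear in the second jet. -/
theorem exists_shL_ChD3 : ∃ Φ : (X →L[ℝ] X →L[ℝ] Y) →L[ℝ] Y →L[ℝ] X →L[ℝ] X,
    ∀ A, Φ A = shL A :=
  ⟨LinearMap.toContinuousLinearMap
    { toFun := shL
      map_add' := fun a b => by
        ext1 y
        ext1 v
        simp only [shL_apply, add_apply, map_add]
      map_smul' := fun c a => by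
        ext1 y
        ext1 v
        simp only [shL_apply, smul_apply, map_smul, RingHom.id_apply] }, fun _ => rfl⟩

theorem shL_ChD3 {A : Z → X →L[ℝ] X →L[ℝ] Y} {A' : Z →L[ℝ] X →L[ℝ] X →L[ℝ] Y} {y : Z → Y}
    {y' : Z →L[ℝ] Y} {z : Z} (hA : HasFDerivAt A A' z) (hy : HasFDerivAt y y' z) :
    ∃ L : Z →L[ℝ] X →L[ℝ] X, HasFDerivAt (fun q => shL (A q) (y q)) L z ∧
      ∀ u, L u = shL (A z) (y' u) + shL (A' u) (y z) := by
  obtain ⟨Φ, hΦ⟩ := exists_shL_ChD3 (X := X) (Y := Y)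
  have h0 : HasFDerivAt Φ Φ (A z) := Φ.hasFDerivAt
  have h1 : HasFDerivAt (fun q => Φ (A q)) (Φ.comp A') z :=
    @HasFDerivAt.comp ℝ _ Z _ _ (X →L[ℝ] X →L[ℝ] Y) inferInstance inferInstance
      (Y →L[ℝ] X →L[ℝ] X) inferInstance inferInstance A A' z Φ Φ h0 hA
  have h2 := h1.clm_apply hy
  simp only [hΦ] at h2
  refine ⟨_, h2, fun u => ?_⟩
  simp only [add_apply, ContinuousLinearMap.comp_apply, ContinuousLinearMap.flip_apply, hΦ]

end gen_ChD3

/-- Derivative of the inverse of a family of invertible elements. -/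
theorem inv_ChD3 {M Z : Type*} [NormedRing M] [NormedAlgebra ℝ M] [HasSummableGeomSeries M]
    [NormedAddCommGroup Z] [NormedSpace ℝ Z] {K : Z → M} {L : Z →L[ℝ] M} {z : Z}
    (hK : HasFDerivAt K L z) (hu : IsUnit (K z)) :
    ∃ L' : Z →L[ℝ] M, HasFDerivAt (fun q => Ring.inverse (K q)) L' z ∧
      ∀ u, L' u = -(Ring.inverse (K z) * L u * Ring.inverse (K z)) := by
  obtain ⟨x, hx⟩ := hu
  have h1 := hasFDerivAt_ringInverse (𝕜 := ℝ) x
  rw [hx] at h1
  refine ⟨_, h1.comp z hK, fun u => ?_⟩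
  rw [← hx, Ring.inverse_unit]
  rfl

theorem Pre.hasFDerivAt_kk (h : Pre ι F o ε R) (hp : p ∈ tube F R) :
    ∃ L : H →L[ℝ] E d →L[ℝ] E d, HasFDerivAt (fun q => kk (j1 F R q) (j2 F R q) (ht F R q)) L p ∧
      ∀ u, L u = dK (j1 F R p) (j2 F R p) (j3 F R p) (ht F R p) u := by
  have h1 := (hasFDerivAt_gm (j1 F R p)).comp p (h.hasFDerivAt_j1 hp)
  obtain ⟨L, h2, hL⟩ := shL_ChD3 (X := E d) (A := j2 F R) (y := ht F R)
    (A' := (j3 F R p).comp (dx (j1 F R p) (j2 F R p) (ht F R p))) (h.hasFDerivAt_j2 hp)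
    (h.hasFDerivAt_ht hp)
  refine ⟨_, h1.sub h2, fun u => ?_⟩
  simp only [dK, sub_apply, ContinuousLinearMap.comp_apply, hL, dGL_dG, sub_sub]

theorem Pre.hasFDerivAt_xi (h : Pre ι F o ε R) (hp : p ∈ tube F R) (v : E d) :
    HasFDerivAt (fun q => xi (j1 F R q) (j2 F R q) (ht F R q) v)
      (Dxi (j1 F R p) (j2 F R p) (j3 F R p) (ht F R p) v) p := by
  obtain ⟨L, hL, hL'⟩ := h.hasFDerivAt_kk hp
  have h0 := h.hasFDerivAt_j1 hp
  have h1 := (h.jet_at hp).toJet0.hasFDerivAt_gi.comp p h0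
  have h2 := h0.clm_apply (h1.clm_apply (hL.clm_apply (hasFDerivAt_const v p)))
  refine h2.congr_fderiv ?_
  ext u
  simp only [Dxi_apply, add_apply, ContinuousLinearMap.comp_apply, ContinuousLinearMap.flip_apply,
    Function.comp_apply, zero_apply, map_zero, zero_add, hL', dgiL_apply, dGL_dG, map_add,
    map_neg]
  abel

theorem Pre.hasFDerivAt_dy (h : Pre ι F o ε R) (hp : p ∈ tube F R) (e : H) :
    HasFDerivAt (fun q => dy (j1 F R q) (j2 F R q) (ht F R q) e)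
      (Ddy (j1 F R p) (j2 F R p) (j3 F R p) (ht F R p) e) p := by
  obtain ⟨L, hL, hL'⟩ := h.hasFDerivAt_kk hp
  obtain ⟨L', hK, hK'⟩ := inv_ChD3 hL (h.jet_at hp).kk_unit
  have h0 := h.hasFDerivAt_j1 hp
  have h1 := (ad.hasFDerivAt.comp p h0).clm_apply (hasFDerivAt_const e p)
  have h2 := (h0.clm_apply (hK.clm_apply h1)).const_sub e
  refine h2.congr_fderiv ?_
  ext u
  simp only [Ddy_apply, add_apply, neg_apply, ContinuousLinearMap.comp_apply,
    ContinuousLinearMap.flip_apply, Function.comp_apply, zero_apply, map_zero, zero_add, hK', hL',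
    mul_apply_eq_comp, map_add, map_neg, dx_apply, ki]
  abel

end Pool.Agent.Lib.MP_8daebb_an.GM.Ch
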