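import Pool.Agent.Lib.MP_8daebb_an.GM.CV

/-! Centres (minimal immersions in harmonic coordinates), their nearest-point charts and the
chart data, in every dimension. -/

open MeasureTheory Metric Set
open scoped RealInnerProductSpace

namespace Pool.Agent.Lib.MP_8daebb_an.GM.Ch

section ops
variable {X Y : Type*} [NormedAddCommGroup X] [InnerProductSpace ℝ X] [FiniteDimensional ℝ X]
  [NormedAddCommGroup Y] [InnerProductSpace ℝ Y] [FiniteDimensional ℝ Y]

/-- The transpose, as a real linear map. -/
noncomputable def ad : (X →L[ℝ] Y) →L[ℝ] (Y →L[ℝ] X) :=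
  LinearMap.toContinuousLinearMap
    { toFun := fun A => ContinuousLinearMap.adjoint A
      map_add' := fun a b => by simp
      map_smul' := fun c a => by simp }

theorem ad_apply (A : X →L[ℝ] Y) : ad A = ContinuousLinearMap.adjoint A := rfl

/-- The trace, as a real linear map. -/
noncomputable def trL : (X →L[ℝ] X) →L[ℝ] ℝ :=
  LinearMap.toContinuousLinearMap
    { toFun := fun A => trH A
      map_add' := fun a b => by simp [trH]
      map_smul' := fun c a => by simp [trH] }

theorem trL_apply (A : X →L[ℝ] X) : trL A = trH A := rfl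

/-- `shL A y` is the endomorphism with `⟪shL A y v, u⟫ = ⟪y, A v u⟫`. -/
noncomputable def shL (A : X →L[ℝ] X →L[ℝ] Y) : Y →L[ℝ] X →L[ℝ] X := (ad.comp A).flip

theorem shL_apply (A : X →L[ℝ] X →L[ℝ] Y) (y : Y) (v : X) : shL A y v = ad (A v) y := rfl

end ops

variable {d : ℕ} {H : Type*} [NormedAddCommGroup H] [InnerProductSpace ℝ H]
  [FiniteDimensional ℝ H]

/-- The fixed orthonormal basis of `H`. -/
noncomputable abbrev ob (H : Type*) [NormedAddCommGroup H] [InnerProductSpace ℝ H]
    [FiniteDimensional ℝ H] := stdOrthonormalBasis ℝ H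

/-- The standard basis of the base. -/
noncomputable abbrev eb (i : Fin d) : E d := EuclideanSpace.single i 1

/-- The dimensional constant of the chart layer. -/
noncomputable def cH (H : Type*) [NormedAddCommGroup H] [InnerProductSpace ℝ H] : ℝ :=
  1000 * ((Module.finrank ℝ H : ℝ) + 1) ^ 2

section jets
variable (D : E d →L[ℝ] H) (A : E d →L[ℝ] E d →L[ℝ] H) (B : E d →L[ℝ] E d →L[ℝ] E d →L[ℝ] H)
  (y : H) (P : H →L[ℝ] H)

/-- The metric. -/
noncomputable def gm : E d →L[ℝ] E d := (ad D).comp D

/-- The inverse metric. -/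
noncomputable def gi : E d →L[ℝ] E d := Ring.inverse (gm D)

/-- The volume element. -/
noncomputable def wt : ℝ := √(gm D).det

/-- The divergence-free coefficient matrix. -/
noncomputable def am : E d →L[ℝ] E d := wt D • gi D

/-- The tangential projection. -/
noncomputable def pT : H →L[ℝ] H := D.comp ((gi D).comp (ad D))

/-- The trace of the second derivative with respect to the metric. -/
noncomputable def trA : H := ∑ i, A (eb i) (gi D (eb i))

/-- The derivative of the metric in the direction `h`. -/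
noncomputable def dG (h : E d) : E d →L[ℝ] E d := (ad D).comp (A h) + (ad (A h)).comp D

/-- The derivative of `trA` in the direction `h`. -/
noncomputable def dtrA (h : E d) : H :=
  ∑ i, (B h (eb i) (gi D (eb i)) - A (eb i) (gi D (dG D A h (gi D (eb i)))))

/-- The derivative of the logarithm of the volume element. -/
noncomputable def dlw : E d →L[ℝ] ℝ :=
  trL.comp (((ContinuousLinearMap.compL ℝ (E d) H (E d)) ((gi D).comp (ad D))).comp A)

noncomputable def kk : E d →L[ℝ] E d := gm D - shL A y

noncomputable def ki : E d →L[ℝ] E d := Ring.inverse (kk D A y)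

/-- Derivative of the base point. -/
noncomputable def dx : H →L[ℝ] E d := (ki D A y).comp (ad D)

/-- Derivative of the height vector; also the vertical fields. -/
noncomputable def dy : H →L[ℝ] H := 1 - D.comp (dx D A y)

/-- Horizontal fields. -/
noncomputable def xi : E d →L[ℝ] H := D.comp ((gi D).comp (kk D A y))

/-- Derivative of `kk` along the tube in the direction `u`. -/
noncomputable def dK (u : H) : E d →L[ℝ] E d :=
  dG D A (dx D A y u) - shL A (dy D A y u) - shL (B (dx D A y u)) y

theorem dG_add (a b : E d) : dG D A (a + b) = dG D A a + dG D A b := by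
  simp only [dG, map_add, ContinuousLinearMap.comp_add, ContinuousLinearMap.add_comp]; abel

theorem dG_smul (c : ℝ) (a : E d) : dG D A (c • a) = c • dG D A a := by
  simp only [dG, map_smul, ContinuousLinearMap.comp_smul, ContinuousLinearMap.smul_comp, smul_add]

theorem dK_add (a b : H) : dK D A B y (a + b) = dK D A B y a + dK D A B y b := by
  ext1 v
  simp only [dK, map_add, dG_add, sub_apply, add_apply,
    shL_apply]
  abel

theorem dK_smul (c : ℝ) (a : H) : dK D A B y (c • a) = c • dK D A B y a := by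
  ext1 v
  simp only [dK, map_smul, dG_smul, sub_apply, smul_apply,
    shL_apply, smul_sub]

/-- Derivative of the horizontal field `xi · v`. -/
noncomputable def Dxi (v : E d) : H →L[ℝ] H :=
  LinearMap.toContinuousLinearMap
    { toFun := fun u => A (dx D A y u) (gi D (kk D A y v)) -
        D (gi D (dG D A (dx D A y u) (gi D (kk D A y v)))) + D (gi D (dK D A B y u v))
      map_add' := fun a b => by
        simp only [map_add, dG_add, dK_add, add_apply]; abel
      map_smul' := fun c a => by
        simp only [map_smul, dG_smul, dK_smul, smul_apply, RingHom.id_apply,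
          smul_add, smul_sub] }

/-- Derivative of the vertical field `dy · e`. -/
noncomputable def Ddy (e : H) : H →L[ℝ] H :=
  LinearMap.toContinuousLinearMap
    { toFun := fun u => D (ki D A y (dK D A B y u (dx D A y e))) - A (dx D A y u) (dx D A y e) -
        D (ki D A y (ad (A (dx D A y u)) e))
      map_add' := fun a b => by
        simp only [map_add, dK_add, add_apply]; abel
      map_smul' := fun c a => by
        simp only [map_smul, dK_smul, smul_apply, RingHom.id_apply, smul_sub] }

theorem Dxi_apply (v : E d) (u : H) : Dxi D A B y v u = A (dx D A y u) (gi D (kk D A y v)) -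
    D (gi D (dG D A (dx D A y u) (gi D (kk D A y v)))) + D (gi D (dK D A B y u v)) := rfl

theorem Ddy_apply (e u : H) : Ddy D A B y e u = D (ki D A y (dK D A B y u (dx D A y e))) -
    A (dx D A y u) (dx D A y e) - D (ki D A y (ad (A (dx D A y u)) e)) := rfl

/-- The symmetric tilt form. -/
noncomputable def fT : E d →L[ℝ] E d := (ad D).comp ((1 - P).comp D)

noncomputable def ft : ℝ := trH ((gi D).comp (fT D P))

noncomputable def fτ : E d →L[ℝ] E d := (dx D A y).comp ((1 - P).comp (xi D A y))

noncomputable def fb : E d →L[ℝ] H := (dy D A y).comp (P.comp (xi D A y))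

noncomputable def fq : H →L[ℝ] E d := wt D • (dx D A y).comp (P.comp (dy D A y))

noncomputable def fg : H →L[ℝ] H := wt D • (dy D A y).comp (P.comp (dy D A y))

/-- The horizontal error as a function of the direction. -/
noncomputable def fE (v : E d) : ℝ :=
  trH (P.comp (Dxi D A B y v)) - dlw D A (dx D A y (P (xi D A y v)))

noncomputable def feh : E d := ∑ i, fE D A B y P (eb i) • eb i

noncomputable def fL : H := ∑ k, (wt D * trH (P.comp (Ddy D A B y (ob H k)))) • ob H k

noncomputable def fj : ℝ := wt D * jac (dx D A y) P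

end jets

/-- A first jet whose metric is close to the Euclidean one. -/
structure Jet0 (ε : ℝ) (D : E d →L[ℝ] H) : Prop where
  eps0 : 0 ≤ ε
  eps1 : cH H * ε ≤ 1
  g1 : ‖gm D - 1‖ ≤ 3 * ε

/-- A jet of a centre together with a normal height. -/
structure Jet (ε : ℝ) (D : E d →L[ℝ] H) (A : E d →L[ℝ] E d →L[ℝ] H)
    (B : E d →L[ℝ] E d →L[ℝ] E d →L[ℝ] H) (y : H) : Prop extends Jet0 ε D where
  n1 : ‖A‖ ≤ ε
  n2 : ∀ a, ‖B a‖ ≤ ε * ‖a‖
  sA : ∀ v u, A v u = A u v
  sB : ∀ a v u, B a v u = B v a u
  sB' : ∀ a v u, B a v u = B a u v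
  har : trA D A = 0
  har1 : ∀ h, dtrA D A B h = 0
  y1 : ‖y‖ ≤ 1
  nor : ad D y = 0

/-- The first three derivatives of a map. -/
noncomputable abbrev d1 {Y : Type*} [NormedAddCommGroup Y] [NormedSpace ℝ Y] (F : E d → Y) :
    E d → E d →L[ℝ] Y := fderiv ℝ F

noncomputable abbrev d2 {Y : Type*} [NormedAddCommGroup Y] [NormedSpace ℝ Y] (F : E d → Y) :
    E d → E d →L[ℝ] E d →L[ℝ] Y := fderiv ℝ (fderiv ℝ F)

noncomputable abbrev d3 {Y : Type*} [NormedAddCommGroup Y] [NormedSpace ℝ Y] (F : E d → Y) :
    E d → E d →L[ℝ] E d →L[ℝ] E d →L[ℝ] Y := fderiv ℝ (fderiv ℝ (fderiv ℝ F))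

/-- `F` is a minimal immersion of the open set `Ω` in harmonic coordinates, `ε`-close to `ι`. -/
structure Mn (ι : E d →ₗᵢ[ℝ] H) (F : E d → H) (ε : ℝ) (Ω : Set (E d)) : Prop where
  op : IsOpen Ω
  sm : ContDiffOn ℝ 3 F Ω
  n0 : ∀ z ∈ Ω, ‖d1 F z - ι.toContinuousLinearMap‖ ≤ ε
  n1 : ∀ z ∈ Ω, ‖d2 F z‖ ≤ ε
  n2 : ∀ z ∈ Ω, ∀ a, ‖d3 F z a‖ ≤ ε * ‖a‖
  har : ∀ z ∈ Ω, trA (d1 F z) (d2 F z) = 0

/-- A centre over `ball 0 R` that lies over the ball with centre `o` of the plane `ι`. -/
structure Pre (ι : E d →ₗᵢ[ℝ] H) (F : E d → H) (o : E d) (ε R : ℝ) : Prop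
    extends Mn ι F ε (ball 0 R) where
  eps0 : 0 ≤ ε
  eps1 : cH H * ε ≤ 1
  base : ‖F 0 - ι o‖ ≤ ε
  off : ‖o‖ + R ≤ 5 / 2

/-- The metric is Euclidean at the origin. -/
def Nrm (F : E d → H) : Prop := gm (d1 F 0) = 1

/-- The foot of the origin of `H` is the origin of the base. -/
def Org (F : E d → H) : Prop := ad (d1 F 0) (F 0) = 0

/-- `x` is a foot of `p`. -/
def IsFoot (F : E d → H) (R : ℝ) (p : H) (x : E d) : Prop :=
  x ∈ ball (0 : E d) R ∧ ad (d1 F x) (p - F x) = 0 ∧ ‖p - F x‖ < 1

/-- The tube around the centre. -/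
def tube (F : E d → H) (R : ℝ) : Set H := {p | ∃ x, IsFoot F R p x}

open Classical in
/-- The base point. -/
noncomputable def foot (F : E d → H) (R : ℝ) (p : H) : E d :=
  if h : ∃ x, IsFoot F R p x then h.choose else 0

/-- The height vector. -/
noncomputable def ht (F : E d → H) (R : ℝ) (p : H) : H := p - F (foot F R p)

noncomputable def j1 (F : E d → H) (R : ℝ) (p : H) : E d →L[ℝ] H := d1 F (foot F R p)

noncomputable def j2 (F : E d → H) (R : ℝ) (p : H) : E d →L[ℝ] E d →L[ℝ] H := d2 F (foot F R p)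

noncomputable def j3 (F : E d → H) (R : ℝ) (p : H) : E d →L[ℝ] E d →L[ℝ] E d →L[ℝ] H :=
  d3 F (foot F R p)

/-- The tube in the space of pairs (point, plane). -/
def dom (F : E d → H) (R : ℝ) : Set (H × (H →L[ℝ] H)) := Prod.fst ⁻¹' tube F R

/-- Affine change of the parameter. -/
def aff (F : E d → H) (x₀ : E d) (A : E d →L[ℝ] E d) : E d → H := fun z => F (x₀ + A z)

/-- Two centres are `κ`-close over `ball 0 R`. -/
def Close (F F' : E d → H) (κ R : ℝ) : Prop :=
  ∀ z ∈ ball (0 : E d) R, ‖F' z - F z‖ ≤ κ ∧ ‖d1 F' z - d1 F z‖ ≤ κ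

variable [MeasurableSpace H] [BorelSpace H]

open Classical in
/-- The chart varifold of `V` for the centre `F`. -/
noncomputable def chart (V : Measure (H × (H →L[ℝ] H))) (F : E d → H) (R : ℝ) :
    CD d (H × (H →L[ℝ] H)) H where
  m := (V.restrict (dom F R)).withDensity fun a => ENNReal.ofReal (wt (j1 F R a.1))⁻¹
  G := {a | a ∈ dom F R ∧ IsPlane d a.2 ∧ a.1 ∈ V.fst.support}
  x := fun a => foot F R a.1
  y := (dom F R).indicator fun a => ht F R a.1
  pos := fun a => a.1
  Pl := fun a => a.2
  t := (dom F R).indicator fun a => ft (j1 F R a.1) a.2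
  j := (dom F R).indicator fun a => fj (j1 F R a.1) (j2 F R a.1) (ht F R a.1) a.2
  τ := (dom F R).indicator fun a => fτ (j1 F R a.1) (j2 F R a.1) (ht F R a.1) a.2
  T0 := (dom F R).indicator fun a => fT (j1 F R a.1) a.2
  b := (dom F R).indicator fun a => fb (j1 F R a.1) (j2 F R a.1) (ht F R a.1) a.2
  q := (dom F R).indicator fun a => fq (j1 F R a.1) (j2 F R a.1) (ht F R a.1) a.2
  g := (dom F R).indicator fun a => fg (j1 F R a.1) (j2 F R a.1) (ht F R a.1) a.2
  L := (dom F R).indicator fun a => fL (j1 F R a.1) (j2 F R a.1) (j3 F R a.1) (ht F R a.1) a.2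
  eh := (dom F R).indicator fun a => feh (j1 F R a.1) (j2 F R a.1) (j3 F R a.1) (ht F R a.1) a.2
  w := (ball (0 : E d) R).piecewise (fun z => wt (d1 F z)) fun _ => 1
  gm := (ball (0 : E d) R).piecewise (fun z => gm (d1 F z)) fun _ => 1
  am := (ball (0 : E d) R).piecewise (fun z => am (d1 F z)) fun _ => 1

end Pool.Agent.Lib.MP_8daebb_an.GM.Ch
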