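import Pool.Agent.Lib.MP_8daebb_an.GM.ChB2

/-! The metric, its inverse and the volume element as functions of the first jet. -/

open Metric Set Filter Topology
open scoped RealInnerProductSpace ContDiff

namespace Pool.Agent.Lib.MP_8daebb_an.GM.Ch

variable {d : ℕ} {H : Type*} [NormedAddCommGroup H] [InnerProductSpace ℝ H]
  [FiniteDimensional ℝ H]

variable {ε : ℝ} {D : E d →L[ℝ] H}

/-- Derivative of `gm` at `D`. -/
noncomputable def dGL (D : E d →L[ℝ] H) : (E d →L[ℝ] H) →L[ℝ] (E d →L[ℝ] E d) :=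
  ContinuousLinearMap.compL ℝ (E d) H (E d) (ad D) +
    ((ContinuousLinearMap.compL ℝ (E d) H (E d)).flip D).comp ad

theorem dGL_apply (D Δ : E d →L[ℝ] H) : dGL D Δ = (ad D).comp Δ + (ad Δ).comp D := rfl

theorem dGL_dG (D : E d →L[ℝ] H) (A : E d →L[ℝ] E d →L[ℝ] H) (a : E d) :
    dGL D (A a) = dG D A a := rfl

/-- Derivative of `gi` at `D`. -/
noncomputable def dgiL (D : E d →L[ℝ] H) : (E d →L[ℝ] H) →L[ℝ] (E d →L[ℝ] E d) :=
  -((ContinuousLinearMap.compL ℝ (E d) (E d) (E d) (gi D)).comp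
    (((ContinuousLinearMap.compL ℝ (E d) (E d) (E d)).flip (gi D)).comp (dGL D)))

theorem dgiL_apply (D Δ : E d →L[ℝ] H) (v : E d) : dgiL D Δ v = -gi D (dGL D Δ (gi D v)) := rfl

/-- Derivative of the logarithm of `wt` at `D`. -/
noncomputable def lwL (D : E d →L[ℝ] H) : (E d →L[ℝ] H) →L[ℝ] ℝ :=
  trL.comp ((ContinuousLinearMap.compL ℝ (E d) H (E d)) ((gi D).comp (ad D)))

theorem lwL_apply (D Δ : E d →L[ℝ] H) : lwL D Δ = trH (((gi D).comp (ad D)).comp Δ) := rfl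

theorem lwL_dlw (D : E d →L[ℝ] H) (A : E d →L[ℝ] E d →L[ℝ] H) (a : E d) :
    lwL D (A a) = dlw D A a := rfl

/-- Derivative of `am` at `D`. -/
noncomputable def damL (D : E d →L[ℝ] H) : (E d →L[ℝ] H) →L[ℝ] (E d →L[ℝ] E d) :=
  wt D • dgiL D + (wt D • lwL D).smulRight (gi D)

theorem damL_apply (D Δ : E d →L[ℝ] H) (v : E d) :
    damL D Δ v = wt D • dgiL D Δ v + (wt D * lwL D Δ) • gi D v := rfl

/-- The matrix of an endomorphism in the standard basis. -/
noncomputable def mat_ChDm (M : E d →L[ℝ] E d) : Matrix (Fin d) (Fin d) ℝ :=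
  LinearMap.toMatrix (EuclideanSpace.basisFun (Fin d) ℝ).toBasis
    (EuclideanSpace.basisFun (Fin d) ℝ).toBasis (M : E d →ₗ[ℝ] E d)

theorem mat_apply_ChDm (M : E d →L[ℝ] E d) (i j : Fin d) : mat_ChDm M i j = M (eb j) i := by
  simp [mat_ChDm, LinearMap.toMatrix_apply]

theorem det_mat_ChDm (M : E d →L[ℝ] E d) : M.det = (mat_ChDm M).det :=
  (LinearMap.det_toMatrix _ _).symm

theorem tr_mat_ChDm (M : E d →L[ℝ] E d) : trH M = (mat_ChDm M).trace :=
  LinearMap.trace_eq_matrix_trace ℝ _ _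

theorem mat_line_ChDm (M : E d →L[ℝ] E d) (t : ℝ) :
    mat_ChDm (1 + t • M) = 1 + t • mat_ChDm M := by
  rw [mat_ChDm, mat_ChDm, ContinuousLinearMap.toLinearMap_add,
    ContinuousLinearMap.toLinearMap_smul, map_add,
    map_smul, ContinuousLinearMap.one_def, ContinuousLinearMap.coe_id, LinearMap.toMatrix_id]

theorem Jet0.det_ne_ChDm (h : Jet0 ε D) : (gm D).det ≠ 0 := by
  rw [← h.wt_sq]
  exact pow_ne_zero 2 h.wt_pos.ne'

theorem inverse_ChDm {G : E d →L[ℝ] E d} (hG : IsUnit G) :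
    HasFDerivAt (Ring.inverse : (E d →L[ℝ] E d) → E d →L[ℝ] E d)
      (-((ContinuousLinearMap.compL ℝ (E d) (E d) (E d) (Ring.inverse G)).comp
        ((ContinuousLinearMap.compL ℝ (E d) (E d) (E d)).flip (Ring.inverse G)))) G := by
  obtain ⟨u, rfl⟩ := hG
  refine (hasFDerivAt_ringInverse (𝕜 := ℝ) u).congr_fderiv ?_
  ext1 M
  rw [Ring.inverse_unit]
  rfl

theorem contDiff_det : ContDiff ℝ ∞ fun M : E d →L[ℝ] E d => M.det := by
  have e : (fun M : E d →L[ℝ] E d => M.det) = fun M : E d →L[ℝ] E d =>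
      ∑ σ : Equiv.Perm (Fin d), ((Equiv.Perm.sign σ : ℤ) : ℝ) * ∏ i, M (eb i) (σ i) := by
    funext M
    rw [det_mat_ChDm, Matrix.det_apply']
    simp only [mat_apply_ChDm]
  rw [e]
  refine ContDiff.sum fun σ _ => contDiff_const.mul (contDiff_prod fun i _ => ?_)
  exact ((EuclideanSpace.proj (σ i) : E d →L[ℝ] ℝ).comp
    (ContinuousLinearMap.apply ℝ (E d) (eb i))).contDiff

theorem det_one_deriv_ChDm :
    HasFDerivAt (fun M : E d →L[ℝ] E d => M.det) (trL : (E d →L[ℝ] E d) →L[ℝ] ℝ) 1 := by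
  have h1 := ((contDiff_det (d := d)).differentiable (by simp) 1).hasFDerivAt
  refine h1.congr_fderiv ?_
  ext1 M
  have h2 : HasDerivAt (fun t : ℝ => (1 : E d →L[ℝ] E d) + t • M) M 0 := by
    simpa using ((hasDerivAt_id (0 : ℝ)).smul_const M).const_add (1 : E d →L[ℝ] E d)
  have h3 := HasFDerivAt.comp_hasDerivAt_of_eq 0 h1 h2 (by ext1 v; simp)
  obtain ⟨q, hq⟩ : ∃ q : Polynomial ℝ, ∀ t : ℝ, ((1 : E d →L[ℝ] E d) + t • M).det =
      1 + trH M * t + q.eval t * t ^ 2 :=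
    ⟨_, fun t => by rw [det_mat_ChDm, mat_line_ChDm, Matrix.det_one_add_smul, tr_mat_ChDm]⟩
  have h4 := (((hasDerivAt_id (0 : ℝ)).const_mul (trH M)).const_add 1).add
    ((q.hasDerivAt 0).mul (hasDerivAt_pow 2 (0 : ℝ)))
  have h5 : HasDerivAt (fun t : ℝ => ((1 : E d →L[ℝ] E d) + t • M).det) (trH M) 0 := by
    simp only [hq]
    exact HasDerivAt.congr_deriv h4 (by simp)
  exact h3.unique h5

theorem det_deriv_ChDm {G R : E d →L[ℝ] E d} (h1 : G.comp R = 1) (h2 : R.comp G = 1) :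
    HasFDerivAt (fun M : E d →L[ℝ] E d => M.det)
      (G.det • trL.comp (ContinuousLinearMap.compL ℝ (E d) (E d) (E d) R)) G := by
  have h3 : HasFDerivAt (fun M : E d →L[ℝ] E d => M.det) (trL : (E d →L[ℝ] E d) →L[ℝ] ℝ)
      (ContinuousLinearMap.compL ℝ (E d) (E d) (E d) R G) := by
    rw [ContinuousLinearMap.compL_apply, h2]
    exact det_one_deriv_ChDm
  have h4 := (h3.comp G (ContinuousLinearMap.compL ℝ (E d) (E d) (E d) R).hasFDerivAt).const_mul
    G.det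
  have e : (fun M : E d →L[ℝ] E d => M.det) = fun M : E d →L[ℝ] E d => G.det * (R.comp M).det := by
    funext M
    rw [det_comp, ← mul_assoc, ← det_comp, h1, det_one, one_mul]
  rw [e]
  exact h4

theorem Jet0.norm_dGL_ChDm (h : Jet0 ε D) : ‖dGL D‖ ≤ 101 / 50 := by
  refine ContinuousLinearMap.opNorm_le_bound _ (by norm_num) fun Δ => ?_
  have h1 := ((ad D).opNorm_comp_le Δ).trans
    (mul_le_mul_of_nonneg_right ((norm_ad D).trans_le h.norm_D) (norm_nonneg _))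
  have h2 := ((ad Δ).opNorm_comp_le D).trans
    (mul_le_mul (norm_ad Δ).le h.norm_D (norm_nonneg _) (norm_nonneg _))
  rw [dGL_apply]
  refine (norm_add_le _ _).trans ?_
  linarith

theorem contDiff_gm : ContDiff ℝ ∞ (gm : (E d →L[ℝ] H) → E d →L[ℝ] E d) := by
  exact (ad : (E d →L[ℝ] H) →L[ℝ] (H →L[ℝ] E d)).contDiff.clm_comp contDiff_id

theorem hasFDerivAt_gm (D : E d →L[ℝ] H) : HasFDerivAt gm (dGL D) D := by
  have h := (ad : (E d →L[ℝ] H) →L[ℝ] (H →L[ℝ] E d)).hasFDerivAt.clm_comp (hasFDerivAt_id D)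
  exact h.congr_fderiv (by ext1 Δ; rfl)

theorem Jet0.contDiffAt_gi (h : Jet0 ε D) : ContDiffAt ℝ ∞ gi D := by
  have h1 : ContDiffAt ℝ ∞ (Ring.inverse : (E d →L[ℝ] E d) → E d →L[ℝ] E d) (gm D) :=
    contDiffAt_ringInverse ℝ h.unit.unit
  exact h1.comp D contDiff_gm.contDiffAt

theorem Jet0.contDiffAt_wt (h : Jet0 ε D) : ContDiffAt ℝ ∞ wt D := by
  exact (contDiff_det.comp contDiff_gm).contDiffAt.sqrt h.det_ne_ChDm

theorem Jet0.contDiffAt_am (h : Jet0 ε D) : ContDiffAt ℝ ∞ am D := by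
  exact h.contDiffAt_wt.smul h.contDiffAt_gi

theorem Jet0.contDiffAt_pT (h : Jet0 ε D) : ContDiffAt ℝ ∞ pT D := by
  exact contDiffAt_id.clm_comp (h.contDiffAt_gi.clm_comp
    (ad : (E d →L[ℝ] H) →L[ℝ] (H →L[ℝ] E d)).contDiff.contDiffAt)

theorem Jet0.hasFDerivAt_gi (h : Jet0 ε D) : HasFDerivAt gi (dgiL D) D := by
  have h1 := (inverse_ChDm h.unit).comp D (hasFDerivAt_gm D)
  exact h1.congr_fderiv (by ext1 Δ; rfl)

theorem Jet0.hasFDerivAt_wt (h : Jet0 ε D) : HasFDerivAt wt (wt D • lwL D) D := by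
  have e1 : (gm D).comp (gi D) = 1 := by ext1 v; exact h.gm_gi v
  have e2 : (gi D).comp (gm D) = 1 := by ext1 v; exact h.gi_gm v
  have h1 := ((det_deriv_ChDm e1 e2).comp D (hasFDerivAt_gm D)).sqrt h.det_ne_ChDm
  refine h1.congr_fderiv ?_
  ext1 Δ
  have h2 : trH ((gi D).comp (dGL D Δ)) = 2 * lwL D Δ := by
    rw [dGL_apply, ContinuousLinearMap.comp_add, trH_add, lwL_apply,
      ← trH_ad ((gi D).comp ((ad Δ).comp D)), ad_comp, ad_comp, ad_ad, ad_of_symm h.gi_symm,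
      trH_comm ((ad D).comp Δ) (gi D), ContinuousLinearMap.comp_assoc, two_mul]
  change 1 / (2 * wt D) * ((gm D).det * trH ((gi D).comp (dGL D Δ))) = wt D * lwL D Δ
  have h3 := h.wt_pos
  rw [h2, ← h.wt_sq]
  field_simp

theorem Jet0.hasFDerivAt_am (h : Jet0 ε D) : HasFDerivAt am (damL D) D := by
  exact h.hasFDerivAt_wt.smul h.hasFDerivAt_gi

theorem Jet0.norm_dGL (h : Jet0 ε D) : ‖dGL D‖ ≤ 3 := by
  exact h.norm_dGL_ChDm.trans (by norm_num)

theorem Jet0.norm_dgiL (h : Jet0 ε D) : ‖dgiL D‖ ≤ 3 := by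
  refine ContinuousLinearMap.opNorm_le_bound _ (by norm_num) fun Δ => ?_
  have e : dgiL D Δ = -((gi D).comp ((dGL D Δ).comp (gi D))) := rfl
  have h1 := ((dGL D).le_opNorm Δ).trans
    (mul_le_mul_of_nonneg_right h.norm_dGL_ChDm (norm_nonneg _))
  have h2 := ((dGL D Δ).opNorm_comp_le (gi D)).trans
    (mul_le_mul h1 h.norm_gi (norm_nonneg _) (by positivity))
  have h3 := ((gi D).opNorm_comp_le _).trans
    (mul_le_mul h.norm_gi h2 (norm_nonneg _) (by positivity))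
  rw [e, norm_neg]
  linarith [norm_nonneg Δ]

theorem Jet0.norm_lwL (h : Jet0 ε D) : ‖lwL D‖ ≤ 2 * d := by
  refine ContinuousLinearMap.opNorm_le_bound _ (by positivity) fun Δ => ?_
  have h1 := ((gi D).opNorm_comp_le (ad D)).trans
    (mul_le_mul h.norm_gi ((norm_ad D).trans_le h.norm_D) (norm_nonneg _) (by positivity))
  have h2 := (((gi D).comp (ad D)).opNorm_comp_le Δ).trans
    (mul_le_mul_of_nonneg_right h1 (norm_nonneg _))
  rw [lwL_apply, Real.norm_eq_abs]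
  refine (abs_trH_le _).trans ((mul_le_mul_of_nonneg_left h2 (Nat.cast_nonneg d)).trans ?_)
  nlinarith [mul_nonneg (Nat.cast_nonneg (α := ℝ) d) (norm_nonneg Δ)]

theorem Jet0.norm_damL (h : Jet0 ε D) : ‖damL D‖ ≤ 4 * (d + 1) := by
  have w0 := h.wt_pos
  have w1 := h.wt_up
  have d0 : (0 : ℝ) ≤ d := Nat.cast_nonneg d
  refine ContinuousLinearMap.opNorm_le_bound _ (by positivity) fun Δ => ?_
  have e : damL D Δ = wt D • dgiL D Δ + (wt D * lwL D Δ) • gi D := rfl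
  have n0 := norm_nonneg Δ
  have a1 := ((dgiL D).le_opNorm Δ).trans (mul_le_mul_of_nonneg_right h.norm_dgiL n0)
  have a2 := ((lwL D).le_opNorm Δ).trans (mul_le_mul_of_nonneg_right h.norm_lwL n0)
  have h1 : ‖wt D • dgiL D Δ‖ ≤ 101 / 100 * (3 * ‖Δ‖) := by
    rw [norm_smul, Real.norm_of_nonneg w0.le]
    exact mul_le_mul w1 a1 (norm_nonneg _) (by norm_num)
  have h2 : ‖(wt D * lwL D Δ) • gi D‖ ≤ 101 / 100 * (2 * d * ‖Δ‖) * (101 / 100) := by
    rw [norm_smul, norm_mul, Real.norm_of_nonneg w0.le]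
    exact mul_le_mul (mul_le_mul w1 a2 (norm_nonneg _) (by norm_num)) h.norm_gi (norm_nonneg _)
      (by positivity)
  rw [e]
  refine (norm_add_le _ _).trans ?_
  nlinarith [mul_nonneg d0 n0]

/-- The divergence of the inverse metric in harmonic coordinates. -/
theorem Jet0.div_gi (h : Jet0 ε D) {A : E d →L[ℝ] E d →L[ℝ] H} (sA : ∀ v u, A v u = A u v)
    (har : trA D A = 0) (v : E d) :
    trH (((dgiL D).comp A).flip v) = -dlw D A (gi D v) := by
  have e : ((dgiL D).comp A).flip v = -(((gi D).comp (ad D)).comp (A (gi D v)) +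
      (gi D).comp (shL A (D (gi D v)))) := by
    ext1 u
    change -gi D (ad D (A u (gi D v)) + ad (A u) (D (gi D v))) =
      -(gi D (ad D (A (gi D v) u)) + gi D (ad (A u) (D (gi D v))))
    rw [map_add, sA u]
  rw [e, trH_neg, trH_add, ← inner_trA D A h.gi_symm, har, inner_zero_right, add_zero, dlw_apply]

/-- The coefficient matrix is divergence free in harmonic coordinates. -/
theorem Jet0.div_am (h : Jet0 ε D) {A : E d →L[ℝ] E d →L[ℝ] H} (sA : ∀ v u, A v u = A u v)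
    (har : trA D A = 0) (v : E d) : trH (((damL D).comp A).flip v) = 0 := by
  have e : ((damL D).comp A).flip v = wt D • (((dgiL D).comp A).flip v +
      (dlw D A).smulRight (gi D v)) := by
    ext1 u
    change wt D • dgiL D (A u) v + (wt D * dlw D A u) • gi D v =
      wt D • (dgiL D (A u) v + dlw D A u • gi D v)
    rw [smul_add, mul_smul]
  have e2 : trH ((dlw D A).smulRight (gi D v)) = dlw D A (gi D v) :=
    LinearMap.trace_smulRight ((dlw D A : E d →L[ℝ] ℝ) : E d →ₗ[ℝ] ℝ) (gi D v)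
  rw [e, trH_smul, trH_add, h.div_gi sA har, e2, neg_add_cancel, mul_zero]

end Pool.Agent.Lib.MP_8daebb_an.GM.Ch
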