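import Pool.Agent.Lib.MP_8daebb_an.GM.ChDef

/-! Traces, determinants and square roots of symmetric operators. -/

open Finset
open scoped RealInnerProductSpace

namespace Pool.Agent.Lib.MP_8daebb_an.GM.Ch

variable {X Y : Type*} [NormedAddCommGroup X] [InnerProductSpace ℝ X] [FiniteDimensional ℝ X]
  [NormedAddCommGroup Y] [InnerProductSpace ℝ Y] [FiniteDimensional ℝ Y] {d : ℕ}

omit [FiniteDimensional ℝ X] in
theorem trH_eq_sum {ι : Type*} [Fintype ι] (b : OrthonormalBasis ι ℝ X) (M : X →L[ℝ] X) :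
    trH M = ∑ i, ⟪b i, M (b i)⟫ := LinearMap.trace_eq_sum_inner _ b

omit [FiniteDimensional ℝ X] in
theorem trH_add (M N : X →L[ℝ] X) : trH (M + N) = trH M + trH N := by
  simp [trH]

omit [FiniteDimensional ℝ X] in
theorem trH_sub (M N : X →L[ℝ] X) : trH (M - N) = trH M - trH N := by
  simp [trH]

omit [FiniteDimensional ℝ X] in
theorem trH_neg (M : X →L[ℝ] X) : trH (-M) = -trH M := by
  simp [trH]

omit [FiniteDimensional ℝ X] in
theorem trH_smul (c : ℝ) (M : X →L[ℝ] X) : trH (c • M) = c * trH M := by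
  simp [trH]

omit [FiniteDimensional ℝ X] in
theorem trH_zero : trH (0 : X →L[ℝ] X) = 0 := by
  simp [trH]

theorem trH_one : trH (1 : E d →L[ℝ] E d) = d := by
  simp [trH, ContinuousLinearMap.one_def]

theorem trH_comm (A : Y →L[ℝ] X) (B : X →L[ℝ] Y) : trH (A.comp B) = trH (B.comp A) :=
  LinearMap.trace_comp_comm' (B : X →ₗ[ℝ] Y) (A : Y →ₗ[ℝ] X)

theorem trH_adjoint (M : X →L[ℝ] X) : trH (ContinuousLinearMap.adjoint M) = trH M := by
  rw [trH_eq_sum (stdOrthonormalBasis ℝ X), trH_eq_sum (stdOrthonormalBasis ℝ X)]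
  refine sum_congr rfl fun i _ => ?_
  rw [ContinuousLinearMap.adjoint_inner_right, real_inner_comm]

theorem abs_trH_le (M : E d →L[ℝ] E d) : |trH M| ≤ d * ‖M‖ := by
  rw [trH_eq_sum (EuclideanSpace.basisFun (Fin d) ℝ)]
  refine (abs_sum_le_sum_abs _ _).trans ?_
  have : ∀ i ∈ (univ : Finset (Fin d)), |⟪EuclideanSpace.basisFun (Fin d) ℝ i,
      M (EuclideanSpace.basisFun (Fin d) ℝ i)⟫| ≤ ‖M‖ := fun i _ => by
    refine (abs_real_inner_le_norm _ _).trans ?_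
    have h := M.le_opNorm (EuclideanSpace.basisFun (Fin d) ℝ i)
    rw [(EuclideanSpace.basisFun (Fin d) ℝ).norm_eq_one i] at h ⊢
    linarith
  simpa using sum_le_card_nsmul _ _ _ this

/-- A symmetric operator has an orthonormal basis of eigenvectors. -/
theorem exists_eig {n : ℕ} (hn : Module.finrank ℝ X = n) {M : X →L[ℝ] X}
    (h : ∀ v u, ⟪M v, u⟫ = ⟪v, M u⟫) :
    ∃ (b : OrthonormalBasis (Fin n) ℝ X) (μ : Fin n → ℝ), ∀ i, M (b i) = μ i • b i := by
  have hs : (M : X →ₗ[ℝ] X).IsSymmetric := h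
  exact ⟨hs.eigenvectorBasis hn, hs.eigenvalues hn, fun i => hs.apply_eigenvectorBasis hn i⟩

section diag
variable {ι : Type*} [Fintype ι] {b : OrthonormalBasis ι ℝ X} {M N : X →L[ℝ] X} {μ : ι → ℝ}

omit [FiniteDimensional ℝ X] in
theorem diag_apply (h : ∀ i, M (b i) = μ i • b i) (v : X) :
    M v = ∑ i, (μ i * ⟪b i, v⟫) • b i := by
  conv_lhs => rw [← b.sum_repr' v]
  simp [map_sum, h, smul_smul, mul_comm]

omit [FiniteDimensional ℝ X] in
theorem diag_inner (h : ∀ i, M (b i) = μ i • b i) (v u : X) :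
    ⟪M v, u⟫ = ∑ i, μ i * (⟪b i, v⟫ * ⟪b i, u⟫) := by
  rw [diag_apply h, sum_inner]
  exact sum_congr rfl fun i _ => by rw [real_inner_smul_left]; ring

omit [FiniteDimensional ℝ X] in
theorem diag_symm (h : ∀ i, M (b i) = μ i • b i) (v u : X) : ⟪M v, u⟫ = ⟪v, M u⟫ := by
  rw [diag_inner h, real_inner_comm, diag_inner h]
  exact sum_congr rfl fun i _ => by ring

omit [FiniteDimensional ℝ X] in
theorem diag_eig (h : ∀ i, M (b i) = μ i • b i) (i : ι) : μ i = ⟪M (b i), b i⟫ := by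
  rw [h, real_inner_smul_left, real_inner_self_eq_norm_sq, b.norm_eq_one]
  ring

omit [FiniteDimensional ℝ X] in
theorem diag_abs_le (h : ∀ i, M (b i) = μ i • b i) (i : ι) : |μ i| ≤ ‖M‖ := by
  have h1 := M.le_opNorm (b i)
  rwa [h, norm_smul, b.norm_eq_one, mul_one, mul_one, Real.norm_eq_abs] at h1

omit [FiniteDimensional ℝ X] in
theorem diag_norm_le (h : ∀ i, M (b i) = μ i • b i) {K : ℝ} (hK : 0 ≤ K) (hμ : ∀ i, |μ i| ≤ K) :
    ‖M‖ ≤ K := by
  refine M.opNorm_le_bound hK fun v => ?_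
  have h1 : ‖M v‖ ^ 2 ≤ (K * ‖v‖) ^ 2 := by
    rw [← b.sum_sq_inner_right (M v), mul_pow, ← b.sum_sq_inner_right v, mul_sum]
    refine sum_le_sum fun i _ => ?_
    rw [← diag_symm h, h, real_inner_smul_left, mul_pow]
    refine mul_le_mul_of_nonneg_right ?_ (sq_nonneg _)
    exact sq_le_sq' (abs_le.1 (hμ i)).1 (abs_le.1 (hμ i)).2
  exact (pow_le_pow_iff_left₀ (norm_nonneg _) (by positivity) two_ne_zero).1 h1

omit [FiniteDimensional ℝ X] in
theorem diag_tr (h : ∀ i, M (b i) = μ i • b i) : trH M = ∑ i, μ i := by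
  rw [trH_eq_sum b]
  exact sum_congr rfl fun i _ => by rw [real_inner_comm, ← diag_eig h]

omit [FiniteDimensional ℝ X] in
theorem diag_det (h : ∀ i, M (b i) = μ i • b i) : M.det = ∏ i, μ i := by
  classical
  have : LinearMap.toMatrix b.toBasis b.toBasis (M : X →ₗ[ℝ] X) = Matrix.diagonal μ := by
    ext i j
    rw [LinearMap.toMatrix_apply, OrthonormalBasis.coe_toBasis_repr_apply,
      OrthonormalBasis.repr_apply_apply, OrthonormalBasis.coe_toBasis, ContinuousLinearMap.coe_coe,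
      h, real_inner_smul_right, b.inner_eq_ite, Matrix.diagonal_apply]
    split_ifs with hij
    · rw [hij, mul_one]
    · rw [mul_zero]
  rw [ContinuousLinearMap.det, ← LinearMap.det_toMatrix b.toBasis, this, Matrix.det_diagonal]

omit [FiniteDimensional ℝ X] in
theorem diag_ext (h : ∀ i, M (b i) = N (b i)) : M = N := by
  ext v
  rw [← b.sum_repr' v]
  simp [map_sum, h]

theorem exists_diag (b : OrthonormalBasis ι ℝ X) (μ : ι → ℝ) :
    ∃ M : X →L[ℝ] X, ∀ i, M (b i) = μ i • b i :=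
  ⟨LinearMap.toContinuousLinearMap (b.toBasis.constr ℝ fun i => μ i • b i), fun i => by
    simpa using b.toBasis.constr_basis ℝ (fun i => μ i • b i) i⟩

end diag

section psd
variable {M : X →L[ℝ] X}

theorem psd_tr_nonneg (hp : ∀ v, 0 ≤ ⟪M v, v⟫) : 0 ≤ trH M := by
  rw [trH_eq_sum (stdOrthonormalBasis ℝ X)]
  exact sum_nonneg fun i _ => by rw [real_inner_comm]; exact hp _

theorem psd_norm_le (h : ∀ v u, ⟪M v, u⟫ = ⟪v, M u⟫) (hp : ∀ v, 0 ≤ ⟪M v, v⟫) : ‖M‖ ≤ trH M := by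
  obtain ⟨b, μ, hb⟩ := exists_eig rfl h
  have h0 : ∀ i, 0 ≤ μ i := fun i => by rw [diag_eig hb]; exact hp _
  refine diag_norm_le hb (psd_tr_nonneg hp) fun i => ?_
  rw [abs_of_nonneg (h0 i), diag_tr hb]
  exact single_le_sum (fun j _ => h0 j) (mem_univ i)

end psd

/-- The inverse square root of a symmetric operator close to the identity. -/
theorem exists_isqrt {G : X →L[ℝ] X} {ε : ℝ} (h : ∀ v u, ⟪G v, u⟫ = ⟪v, G u⟫)
    (hG : ‖G - 1‖ ≤ ε) (hε : ε ≤ 1 / 2) :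
    ∃ R : X →L[ℝ] X, (∀ v u, ⟪R v, u⟫ = ⟪v, R u⟫) ∧ R * G * R = 1 ∧ G * R * R = 1 ∧
      R * R * G = 1 ∧ ‖R - 1‖ ≤ ε := by
  obtain ⟨b, μ, hb⟩ := exists_eig rfl h
  have hε0 : 0 ≤ ε := (norm_nonneg _).trans hG
  have h1 : ∀ i, |μ i - 1| ≤ ε := fun i =>
    (diag_abs_le (M := G - 1) (b := b) (μ := fun i => μ i - 1)
      (fun i => by simp [hb, sub_smul]) i).trans hG
  have h2 : ∀ i, 1 / 2 ≤ μ i := fun i => by linarith [(abs_le.1 (h1 i)).1]
  obtain ⟨R, hR⟩ := exists_diag b fun i => (√(μ i))⁻¹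
  have h3 : ∀ i, (√(μ i))⁻¹ * (√(μ i))⁻¹ * μ i = 1 := fun i => by
    have := h2 i
    rw [← mul_inv, Real.mul_self_sqrt (by linarith), inv_mul_cancel₀ (by linarith)]
  refine ⟨R, diag_symm hR, diag_ext (b := b) fun i => ?_, diag_ext (b := b) fun i => ?_,
    diag_ext (b := b) fun i => ?_, ?_⟩
  · simp only [mul_apply_eq_comp, hR, hb, map_smul, smul_smul,
      one_apply_eq_self]
    rw [show (√(μ i))⁻¹ * (μ i * (√(μ i))⁻¹) = 1 by rw [← h3 i]; ring, one_smul]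
  · simp only [mul_apply_eq_comp, hR, hb, map_smul, smul_smul,
      one_apply_eq_self]
    rw [show (√(μ i))⁻¹ * ((√(μ i))⁻¹ * μ i) = 1 by rw [← h3 i]; ring, one_smul]
  · simp only [mul_apply_eq_comp, hR, hb, map_smul, smul_smul,
      one_apply_eq_self]
    rw [show μ i * ((√(μ i))⁻¹ * (√(μ i))⁻¹) = 1 by rw [← h3 i]; ring, one_smul]
  · refine diag_norm_le (M := R - 1) (b := b) (μ := fun i => (√(μ i))⁻¹ - 1)
      (fun i => by simp [hR, sub_smul]) hε0 fun i => ?_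
    have h4 := h2 i
    have h5 := abs_le.1 (h1 i)
    set s := √(μ i) with hs
    have hs0 : 0 < s := Real.sqrt_pos.2 (by linarith)
    have hs2 : s * s = μ i := Real.mul_self_sqrt (by linarith)
    have hs7 : 7 / 10 ≤ s := by
      by_contra hh
      nlinarith
    have e : s⁻¹ - 1 = (1 - μ i) / (s * (1 + s)) := by
      rw [← hs2]; field_simp; ring
    have h6 : 1 ≤ s * (1 + s) := by nlinarith
    rw [e, abs_div, abs_of_pos (by linarith : 0 < s * (1 + s)), abs_sub_comm]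
    exact (div_le_self (abs_nonneg _) h6).trans (h1 i)

section prod
variable {ι : Type*}

theorem prod_second (s : Finset ι) (μ : ι → ℝ) (h : ∑ i ∈ s, |μ i| ≤ 1) :
    |∏ i ∈ s, (1 + μ i) - 1 - ∑ i ∈ s, μ i| ≤ (∑ i ∈ s, |μ i|) ^ 2 := by
  classical
  induction s using Finset.induction_on with
  | empty => simp
  | insert a s ha ih =>
    rw [sum_insert ha] at h
    rw [prod_insert ha, sum_insert ha, sum_insert ha]
    have h0 : 0 ≤ ∑ i ∈ s, |μ i| := sum_nonneg fun i _ => abs_nonneg _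
    have ha0 := abs_nonneg (μ a)
    have h1 := ih (by linarith)
    have h2 : |∑ i ∈ s, μ i| ≤ ∑ i ∈ s, |μ i| := abs_sum_le_sum_abs _ _
    set P := ∏ i ∈ s, (1 + μ i)
    set S := ∑ i ∈ s, μ i
    set T := ∑ i ∈ s, |μ i|
    have e : (1 + μ a) * P - 1 - (μ a + S) = (P - 1 - S) + μ a * ((P - 1 - S) + S) := by ring
    rw [e]
    have h3 : |(P - 1 - S) + S| ≤ 2 * T := by
      refine (abs_add_le _ _).trans ?_
      nlinarith
    refine (abs_add_le _ _).trans ?_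
    rw [abs_mul]
    nlinarith [mul_le_mul_of_nonneg_left h3 ha0, sq_nonneg |μ a|]

theorem one_sub_sum_le (s : Finset ι) (μ : ι → ℝ) (h0 : ∀ i, 0 ≤ μ i) (h1 : ∀ i, μ i ≤ 1) :
    1 - ∑ i ∈ s, μ i ≤ ∏ i ∈ s, (1 - μ i) := by
  classical
  induction s using Finset.induction_on with
  | empty => simp
  | insert a s ha ih =>
    rw [prod_insert ha, sum_insert ha]
    have h2 : 0 ≤ ∑ i ∈ s, μ i := sum_nonneg fun i _ => h0 i
    nlinarith [mul_le_mul_of_nonneg_left ih (sub_nonneg.2 (h1 a)), mul_nonneg (h0 a) h2]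

theorem sqrt_prod_near (s : Finset ι) (μ : ι → ℝ) (h0 : ∀ i, 0 ≤ μ i) (h1 : ∀ i, μ i ≤ 1) :
    √(∏ i ∈ s, (1 - μ i)) ≤ 1 ∧
    |2 - ∑ i ∈ s, μ i - 2 * √(∏ i ∈ s, (1 - μ i))| ≤ (∑ i ∈ s, μ i) ^ 2 := by
  have hl := one_sub_sum_le s μ h0 h1
  have hu : ∏ i ∈ s, (1 - μ i) ≤ Real.exp (-∑ i ∈ s, μ i) := by
    rw [← sum_neg_distrib, Real.exp_sum]
    refine prod_le_prod (fun i _ => sub_nonneg.2 (h1 i)) fun i _ => ?_
    linarith [Real.add_one_le_exp (-μ i)]
  have t0 : 0 ≤ ∑ i ∈ s, μ i := sum_nonneg fun i _ => h0 i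
  set t := ∑ i ∈ s, μ i
  set P := ∏ i ∈ s, (1 - μ i)
  have h2 : √P ≤ Real.exp (-(t / 2)) := by
    rw [Real.sqrt_le_left (Real.exp_pos _).le, ← Real.exp_nat_mul]
    convert hu using 2
    push_cast
    ring
  have h3 : Real.exp (-(t / 2)) ≤ 1 - t / 2 + t ^ 2 / 4 := by
    have h4 : 1 + t / 2 ≤ Real.exp (t / 2) := by linarith [Real.add_one_le_exp (t / 2)]
    rw [Real.exp_neg, inv_le_iff_one_le_mul₀ (Real.exp_pos _)]
    have h5 : 0 ≤ 1 - t / 2 + t ^ 2 / 4 := by nlinarith [sq_nonneg (t - 1)]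
    nlinarith [mul_le_mul_of_nonneg_left h4 h5, pow_nonneg t0 3]
  have h6 : Real.exp (-(t / 2)) ≤ 1 := Real.exp_le_one_iff.2 (by linarith)
  refine ⟨h2.trans h6, abs_le.2 ⟨by nlinarith, ?_⟩⟩
  have h7 := Real.sqrt_nonneg P
  by_cases ht : 1 ≤ t
  · nlinarith
  · have h8 : 1 - t / 2 - t ^ 2 / 2 ≤ √P := by
      refine Real.le_sqrt_of_sq_le (le_trans ?_ hl)
      have h9 : 0 ≤ t ^ 2 * (1 - t) := mul_nonneg (sq_nonneg t) (by linarith)
      have h10 : 0 ≤ t ^ 2 * (1 - t) * t := mul_nonneg h9 t0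
      nlinarith
    linarith

end prod

/-- Second-order expansion of the determinant at the identity, for symmetric operators. -/
theorem det_one_add {M : E d →L[ℝ] E d} (h : ∀ v u, ⟪M v, u⟫ = ⟪v, M u⟫)
    (hM : d * ‖M‖ ≤ 1) : |(1 + M).det - 1 - trH M| ≤ (d * ‖M‖) ^ 2 := by
  obtain ⟨b, μ, hb⟩ := exists_eig (finrank_euclideanSpace_fin (n := d)) h
  have h1 : ∑ i, |μ i| ≤ d * ‖M‖ := by
    simpa using sum_le_card_nsmul univ (fun i => |μ i|) ‖M‖ fun i _ => diag_abs_le hb i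
  rw [diag_det (M := 1 + M) (b := b) (μ := fun i => 1 + μ i) (fun i => by simp [hb, add_smul]),
    diag_tr hb]
  refine (prod_second univ μ (h1.trans hM)).trans ?_
  exact pow_le_pow_left₀ (sum_nonneg fun i _ => abs_nonneg _) h1 2

/-- The square root of the determinant of `1 - M` for `0 ≤ M ≤ 1`. -/
theorem sqrt_det_one_sub {M : E d →L[ℝ] E d} (h : ∀ v u, ⟪M v, u⟫ = ⟪v, M u⟫)
    (h0 : ∀ v, 0 ≤ ⟪M v, v⟫) (h1 : ∀ v, ⟪M v, v⟫ ≤ ‖v‖ ^ 2) :
    √((1 - M).det) ≤ 1 ∧ |2 - trH M - 2 * √((1 - M).det)| ≤ trH M ^ 2 := by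
  obtain ⟨b, μ, hb⟩ := exists_eig (finrank_euclideanSpace_fin (n := d)) h
  rw [diag_det (M := 1 - M) (b := b) (μ := fun i => 1 - μ i) (fun i => by simp [hb, sub_smul]),
    diag_tr hb]
  refine sqrt_prod_near univ μ (fun i => ?_) fun i => ?_
  · rw [diag_eig hb]; exact h0 _
  · rw [diag_eig hb]
    simpa [b.norm_eq_one] using h1 (b i)

theorem det_ad (M : E d →L[ℝ] E d) : (ad M).det = M.det := by
  have b := EuclideanSpace.basisFun (Fin d) ℝ
  rw [ad_apply, ContinuousLinearMap.det, ContinuousLinearMap.det,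
    ← ContinuousLinearMap.adjoint_toLinearMap, ← LinearMap.det_toMatrix b.toBasis,
    ← LinearMap.det_toMatrix b.toBasis (M : E d →ₗ[ℝ] E d), LinearMap.toMatrix_adjoint,
    Matrix.det_conjTranspose, star_trivial]

theorem det_comp (M N : E d →L[ℝ] E d) : (M.comp N).det = M.det * N.det :=
  LinearMap.det_comp (M : E d →ₗ[ℝ] E d) (N : E d →ₗ[ℝ] E d)

theorem det_one : (1 : E d →L[ℝ] E d).det = 1 := by
  simp [ContinuousLinearMap.det, ContinuousLinearMap.one_def]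

theorem jac_eq (L : X →L[ℝ] E d) (P : X →L[ℝ] X) :
    jac L P = √((L.comp (P.comp (ad L))).det) := by
  rw [jac, ad_apply, ContinuousLinearMap.det, ContinuousLinearMap.adjoint_toLinearMap]
  rfl

end Pool.Agent.Lib.MP_8daebb_an.GM.Ch
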