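import Pool.Agent.Lib.MP_8daebb_an.GM.ChN87

/-! Measurability of the chart data. -/

open MeasureTheory Metric Set Filter Topology
open scoped RealInnerProductSpace ENNReal

namespace Pool.Agent.Lib.MP_8daebb_an.GM.Ch

variable {d : ℕ} {H : Type*} [NormedAddCommGroup H] [InnerProductSpace ℝ H]
  [FiniteDimensional ℝ H]

section aux

variable {X : Type*} [TopologicalSpace X] {D : X → E d →L[ℝ] H} {A : X → E d →L[ℝ] E d →L[ℝ] H}
  {B : X → E d →L[ℝ] E d →L[ℝ] E d →L[ℝ] H} {y e : X → H} {P : X → H →L[ℝ] H}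

theorem ad_ChM1 (h : Continuous D) : Continuous fun a => ad (D a) := ad.continuous.comp h

theorem inv_ChM1 {G : X → E d →L[ℝ] E d} (h : Continuous G) (hu : ∀ a, IsUnit (G a)) :
    Continuous fun a => Ring.inverse (G a) :=
  continuous_iff_continuousAt.2 fun a => by
    obtain ⟨u, hu'⟩ := hu a
    exact ContinuousAt.comp (g := Ring.inverse) (hu' ▸ NormedRing.inverse_continuousAt u)
      h.continuousAt

theorem gm_ChM1 (h : Continuous D) : Continuous fun a => gm (D a) := (ad_ChM1 h).clm_comp h

theorem wt_ChM1 (h : Continuous D) : Continuous fun a => wt (D a) :=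
  (ContinuousLinearMap.continuous_det.comp (gm_ChM1 h)).sqrt

theorem shL_ChM1 (h : Continuous A) (hy : Continuous y) : Continuous fun a => shL (A a) (y a) :=
  continuous_clm_apply.2 fun _ => (ad_ChM1 (h.clm_apply continuous_const)).clm_apply hy

theorem trH_ChM1 {Y : Type*} [NormedAddCommGroup Y] [InnerProductSpace ℝ Y] [FiniteDimensional ℝ Y]
    {Q : X → Y →L[ℝ] Y} (h : Continuous Q) : Continuous fun a => trH (Q a) :=
  trL.continuous.comp h

theorem jac_ChM1 [MeasurableSpace H] [BorelSpace H] {L : X → H →L[ℝ] E d} (hL : Continuous L)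
    (hP : Continuous P) : Continuous fun a => jac (L a) (P a) := by
  have h1 : Continuous fun a =>
      ((L a).comp ((P a).comp (ContinuousLinearMap.adjoint (L a)))).det :=
    ContinuousLinearMap.continuous_det.comp
      (hL.clm_comp (hP.clm_comp (ContinuousLinearMap.adjoint.continuous.comp hL)))
  exact h1.sqrt

/-- A continuous family of jets. -/
structure CJ_ChM1 (D : X → E d →L[ℝ] H) (A : X → E d →L[ℝ] E d →L[ℝ] H)
    (B : X → E d →L[ℝ] E d →L[ℝ] E d →L[ℝ] H) (y : X → H) : Prop where
  c0 : Continuous D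
  c1 : Continuous A
  c2 : Continuous B
  cy : Continuous y
  ug : ∀ a, IsUnit (gm (D a))
  uk : ∀ a, IsUnit (kk (D a) (A a) (y a))

namespace CJ_ChM1

variable (h : CJ_ChM1 D A B y)
include h

theorem gi : Continuous fun a => gi (D a) := inv_ChM1 (gm_ChM1 h.c0) h.ug

theorem kk : Continuous fun a => kk (D a) (A a) (y a) := (gm_ChM1 h.c0).sub (shL_ChM1 h.c1 h.cy)

theorem ki : Continuous fun a => ki (D a) (A a) (y a) := inv_ChM1 h.kk h.uk

theorem dx : Continuous fun a => dx (D a) (A a) (y a) := h.ki.clm_comp (ad_ChM1 h.c0)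

theorem dy : Continuous fun a => dy (D a) (A a) (y a) := continuous_const.sub (h.c0.clm_comp h.dx)

theorem xi : Continuous fun a => xi (D a) (A a) (y a) := h.c0.clm_comp (h.gi.clm_comp h.kk)

theorem dG {v : X → E d} (hv : Continuous v) : Continuous fun a => dG (D a) (A a) (v a) :=
  ((ad_ChM1 h.c0).clm_comp (h.c1.clm_apply hv)).add ((ad_ChM1 (h.c1.clm_apply hv)).clm_comp h.c0)

theorem dlw : Continuous fun a => dlw (D a) (A a) :=
  continuous_const.clm_comp ((((ContinuousLinearMap.compL ℝ (E d) H (E d))).continuous.comp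
    (h.gi.clm_comp (ad_ChM1 h.c0))).clm_comp h.c1)

theorem dK (u : H) : Continuous fun a => dK (D a) (A a) (B a) (y a) u :=
  ((h.dG (h.dx.clm_apply continuous_const)).sub
    (shL_ChM1 h.c1 (h.dy.clm_apply continuous_const))).sub
    (shL_ChM1 (Continuous.clm_apply (𝕜 := ℝ) (E := E d) (F := E d →L[ℝ] E d →L[ℝ] H) h.c2
      (h.dx.clm_apply continuous_const)) h.cy)

theorem Dxi (v : E d) : Continuous fun a => Dxi (D a) (A a) (B a) (y a) v :=
  continuous_clm_apply.2 fun u => by
    have h1 := h.dx.clm_apply (continuous_const (y := u))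
    have h2 := h.gi.clm_apply (h.kk.clm_apply (continuous_const (y := v)))
    exact (((h.c1.clm_apply h1).clm_apply h2).sub
      (h.c0.clm_apply (h.gi.clm_apply ((h.dG h1).clm_apply h2)))).add
      (h.c0.clm_apply (h.gi.clm_apply ((h.dK u).clm_apply continuous_const)))

theorem Ddy (e : H) : Continuous fun a => Ddy (D a) (A a) (B a) (y a) e :=
  continuous_clm_apply.2 fun u => by
    have h1 := h.dx.clm_apply (continuous_const (y := u))
    have h2 := h.dx.clm_apply (continuous_const (y := e))
    exact ((h.c0.clm_apply (h.ki.clm_apply ((h.dK u).clm_apply h2))).sub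
      ((h.c1.clm_apply h1).clm_apply h2)).sub
      (h.c0.clm_apply (h.ki.clm_apply ((ad_ChM1 (h.c1.clm_apply h1)).clm_apply continuous_const)))

variable (hP : Continuous P)
include hP

theorem fT : Continuous fun a => fT (D a) (P a) :=
  (ad_ChM1 h.c0).clm_comp ((continuous_const.sub hP).clm_comp h.c0)

theorem ft : Continuous fun a => ft (D a) (P a) := trH_ChM1 (h.gi.clm_comp (h.fT hP))

theorem fτ : Continuous fun a => fτ (D a) (A a) (y a) (P a) :=
  h.dx.clm_comp ((continuous_const.sub hP).clm_comp h.xi)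

theorem fb : Continuous fun a => fb (D a) (A a) (y a) (P a) :=
  h.dy.clm_comp (hP.clm_comp h.xi)

theorem fq : Continuous fun a => fq (D a) (A a) (y a) (P a) :=
  (wt_ChM1 h.c0).smul (h.dx.clm_comp (hP.clm_comp h.dy))

theorem fg : Continuous fun a => fg (D a) (A a) (y a) (P a) :=
  (wt_ChM1 h.c0).smul (h.dy.clm_comp (hP.clm_comp h.dy))

theorem fE (v : E d) : Continuous fun a => fE (D a) (A a) (B a) (y a) (P a) v :=
  (trH_ChM1 (hP.clm_comp (h.Dxi v))).sub
    (h.dlw.clm_apply (h.dx.clm_apply (hP.clm_apply (h.xi.clm_apply continuous_const))))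

theorem feh : Continuous fun a => feh (D a) (A a) (B a) (y a) (P a) :=
  continuous_finsetSum _ fun _ _ => (h.fE hP _).smul continuous_const

theorem fL : Continuous fun a => fL (D a) (A a) (B a) (y a) (P a) :=
  continuous_finsetSum _ fun _ _ =>
    ((wt_ChM1 h.c0).mul (trH_ChM1 (hP.clm_comp (h.Ddy _)))).smul continuous_const

end CJ_ChM1

end aux

theorem ind_ChM1 {α β : Type*} [TopologicalSpace α] [MeasurableSpace α] [OpensMeasurableSpace α]
    [TopologicalSpace β] [MeasurableSpace β] [BorelSpace β] [Zero β] {s : Set α}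
    (hs : MeasurableSet s) {f : α → β} (hf : Continuous fun a : s => f a) :
    Measurable (s.indicator f) := by
  classical
  rw [← Set.piecewise_eq_indicator]
  exact (continuousOn_iff_continuous_domRestrict.2 hf).measurable_piecewise continuousOn_const hs

variable {ι : E d →ₗᵢ[ℝ] H} {F : E d → H} {o : E d} {ε R : ℝ}

theorem Jet0.wt_bd {D : E d →L[ℝ] H} (h : Jet0 ε D) :
    1 - cH H * ε / 100 ≤ wt D ∧ wt D ≤ 1 + cH H * ε / 100 := by
  have := abs_le.1 h.wt_near
  constructor <;> linarith [this.1, this.2]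

theorem Pre.cj_ChM1 (h : Pre ι F o ε R) :
    CJ_ChM1 (fun a : dom F R => j1 F R a.1.1) (fun a => j2 F R a.1.1) (fun a => j3 F R a.1.1)
      fun a => ht F R a.1.1 := by
  have h1 : Continuous fun a : dom F R => a.1.1 := continuous_subtype_val.fst
  exact ⟨h.contDiffOn_j1.continuousOn.comp_continuous h1 fun a => a.2,
    h.contDiffOn_j2.continuousOn.comp_continuous h1 fun a => a.2,
    h.continuousOn_j3.comp_continuous h1 fun a => a.2,
    h.contDiffOn_ht.continuousOn.comp_continuous h1 fun a => a.2,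
    fun a => (h.jet_at a.2).toJet0.unit_gm, fun a => (h.jet_at a.2).unit_kk⟩

theorem Pre.cont_wtinv (h : Pre ι F o ε R) :
    ContinuousOn (fun a : H × (H →L[ℝ] H) => (wt (j1 F R a.1))⁻¹) (dom F R) :=
  h.contDiffOn_wtinv.continuousOn.comp continuousOn_fst fun _ ha => ha

theorem Pre.cont_d1 (h : Pre ι F o ε R) : Continuous fun z : ball (0 : E d) R => d1 F z :=
  continuousOn_iff_continuous_domRestrict.1
    (h.sm.continuousOn_fderiv_of_isOpen isOpen_ball (by norm_num))

variable [MeasurableSpace H] [BorelSpace H]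

theorem Pre.meas_dom (h : Pre ι F o ε R) : MeasurableSet (dom F R) :=
  measurable_fst h.isOpen_tube.measurableSet

theorem Pre.meas_foot (h : Pre ι F o ε R) : Measurable (foot F R) := by
  have e : foot F R = (tube F R).indicator (foot F R) := by
    funext p
    by_cases hp : p ∈ tube F R
    · rw [indicator_of_mem hp]
    · rw [indicator_of_notMem hp, foot_of_notMem hp]
  rw [e]
  exact ind_ChM1 h.isOpen_tube.measurableSet
    (continuousOn_iff_continuous_domRestrict.1 h.contDiffOn_foot.continuousOn)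

theorem Pre.meas_chart (h : Pre ι F o ε R) (V : Measure (H × (H →L[ℝ] H))) :
    Measurable (chart V F R).x ∧ Measurable (chart V F R).y ∧ Measurable (chart V F R).t ∧
      Measurable (chart V F R).j ∧ Measurable (chart V F R).τ ∧ Measurable (chart V F R).T0 ∧
      Measurable (chart V F R).b ∧ Measurable (chart V F R).q ∧ Measurable (chart V F R).g ∧
      Measurable (chart V F R).L ∧ Measurable (chart V F R).eh ∧ Measurable (chart V F R).w ∧
      Measurable (chart V F R).gm ∧ Measurable (chart V F R).am := by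
  classical
  have h1 := h.cj_ChM1
  have h2 := h.meas_dom
  have hP : Continuous fun a : dom F R => a.1.2 := continuous_subtype_val.snd
  have c1 := h.cont_d1
  have pw : ∀ {β : Type} [TopologicalSpace β] [MeasurableSpace β] [BorelSpace β] {f : E d → β}
      (b : β), (Continuous fun z : ball (0 : E d) R => f z) →
      Measurable ((ball (0 : E d) R).piecewise f fun _ => b) := fun b hf =>
    (continuousOn_iff_continuous_domRestrict.2 hf).measurable_piecewise continuousOn_const
      measurableSet_ball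
  exact ⟨h.meas_foot.comp measurable_fst, ind_ChM1 h2 h1.cy, ind_ChM1 h2 (h1.ft hP),
    ind_ChM1 h2 ((wt_ChM1 h1.c0).mul (jac_ChM1 h1.dx hP)), ind_ChM1 h2 (h1.fτ hP),
    ind_ChM1 h2 (h1.fT hP), ind_ChM1 h2 (h1.fb hP), ind_ChM1 h2 (h1.fq hP),
    ind_ChM1 h2 (h1.fg hP), ind_ChM1 h2 (h1.fL hP), ind_ChM1 h2 (h1.feh hP),
    pw _ (wt_ChM1 c1), pw _ (gm_ChM1 c1),
    pw _ ((wt_ChM1 c1).smul (inv_ChM1 (gm_ChM1 c1) fun z => (h.jet0 z.2).unit_gm))⟩

end Pool.Agent.Lib.MP_8daebb_an.GM.Ch
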