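import Pool.Agent.Lib.MP_8daebb_an.GM.ChM1

/-! The chart measure. -/

open MeasureTheory Metric Set Filter Topology
open scoped RealInnerProductSpace ENNReal

namespace Pool.Agent.Lib.MP_8daebb_an.GM.Ch

variable {d : ℕ} {H : Type*} [NormedAddCommGroup H] [InnerProductSpace ℝ H] [FiniteDimensional ℝ H]
  [MeasurableSpace H] [BorelSpace H]

variable {V : Measure (H × (H →L[ℝ] H))} {ι : E d →ₗᵢ[ℝ] H} {F : E d → H} {o : E d}
  {ε R M θ η : ℝ}

omit [MeasurableSpace H] [BorelSpace H] in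
theorem Pre.wt_bd (h : Pre ι F o ε R) {p : H} (hp : p ∈ tube F R) :
    1 - cH H * ε / 100 ≤ wt (j1 F R p) ∧ wt (j1 F R p) ≤ 1 + cH H * ε / 100 :=
  (h.jet_at hp).toJet0.wt_bd

omit [MeasurableSpace H] [BorelSpace H] in
theorem Pre.wt_pos (h : Pre ι F o ε R) {p : H} (hp : p ∈ tube F R) : 0 < wt (j1 F R p) :=
  (h.jet_at hp).toJet0.wt_pos

omit [MeasurableSpace H] [BorelSpace H] in
theorem Pre.ce_nonneg (h : Pre ι F o ε R) : 0 ≤ cH H * ε :=
  mul_nonneg (by linarith [cH_ge (H := H)]) h.eps0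

theorem omega_pos (d : ℕ) : 0 < omega d :=
  ENNReal.toReal_pos (measure_ball_pos _ _ one_pos).ne' measure_ball_lt_top.ne

theorem dens_meas_ChM2 (h : Pre ι F o ε R) :
    AEMeasurable (fun a : H × (H →L[ℝ] H) => ENNReal.ofReal (wt (j1 F R a.1))⁻¹)
      (V.restrict (dom F R)) :=
  ((h.cont_wtinv).aemeasurable (h.meas_dom)).ennreal_ofReal

theorem chart_m_ChM2 : (chart V F R).m =
    (V.restrict (dom F R)).withDensity fun a => ENNReal.ofReal (wt (j1 F R a.1))⁻¹ := rfl

theorem Pre.chart_integral (h : Pre ι F o ε R) {Y : Type*}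
    [NormedAddCommGroup Y] [NormedSpace ℝ Y] (f : H × (H →L[ℝ] H) → Y) :
    ∫ a, f a ∂(chart V F R).m = ∫ a in dom F R, (wt (j1 F R a.1))⁻¹ • f a ∂V := by
  rw [chart_m_ChM2, integral_withDensity_eq_integral_toReal_smul₀ (dens_meas_ChM2 h)
    (Eventually.of_forall fun _ => ENNReal.ofReal_lt_top)]
  refine setIntegral_congr_fun (h.meas_dom) fun a ha => ?_
  rw [ENNReal.toReal_ofReal (inv_nonneg.mpr (h.wt_pos ha).le)]

theorem Pre.chart_lintegral (h : Pre ι F o ε R) {f : H × (H →L[ℝ] H) → ℝ≥0∞}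
    (hf : Measurable f) : ∫⁻ a, f a ∂(chart V F R).m =
      ∫⁻ a in dom F R, ENNReal.ofReal (wt (j1 F R a.1))⁻¹ * f a ∂V := by
  rw [chart_m_ChM2, lintegral_withDensity_eq_lintegral_mul₀ (dens_meas_ChM2 h)
    hf.aemeasurable]
  rfl

theorem Pre.chart_le (h : Pre ι F o ε R) :
    (chart V F R).m ≤ ENNReal.ofReal (1 + cH H * ε / 50) • V.restrict (dom F R) := by
  rw [chart_m_ChM2, ← withDensity_const]
  refine withDensity_mono ?_
  filter_upwards [ae_restrict_mem (h.meas_dom)] with a ha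
  have h1 := (h.wt_bd ha).1
  have h0 := h.ce_nonneg
  have h2 := h.eps1
  refine ENNReal.ofReal_le_ofReal ?_
  rw [inv_le_iff_one_le_mul₀ (by linarith)]
  nlinarith

theorem Pre.chart_ge (h : Pre ι F o ε R) :
    V.restrict (dom F R) ≤ ENNReal.ofReal (1 + cH H * ε / 100) • (chart V F R).m := by
  rw [chart_m_ChM2, ← withDensity_smul' _ _ ENNReal.ofReal_ne_top]
  conv_lhs => rw [← withDensity_one (μ := V.restrict (dom F R))]
  refine withDensity_mono ?_
  filter_upwards [ae_restrict_mem (h.meas_dom)] with a ha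
  obtain ⟨h1, h2⟩ := h.wt_bd ha
  have h0 := h.ce_nonneg
  have h3 := h.eps1
  rw [Pi.one_apply, Pi.smul_apply, smul_eq_mul, ← ENNReal.ofReal_mul (by linarith),
    ← ENNReal.ofReal_one]
  refine ENNReal.ofReal_le_ofReal ?_
  rw [← div_eq_mul_inv, le_div_iff₀ (by linarith)]
  linarith

theorem Pre.chart_ae (h : Pre ι F o ε R) {p : H × (H →L[ℝ] H) → Prop} :
    (∀ᵐ a ∂(chart V F R).m, p a) ↔ ∀ᵐ a ∂V, a ∈ dom F R → p a := by
  rw [← ae_restrict_iff' (h.meas_dom)]
  constructor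
  · intro hp
    exact ((Measure.absolutelyContinuous_of_le (h.chart_ge)).trans
      (Measure.smul_absolutelyContinuous)).ae_le hp
  · intro hp
    exact (withDensity_absolutelyContinuous _ _).ae_le hp

theorem Pre.chart_finite (h : Pre ι F o ε R) (hV : EV V ι M θ η) :
    IsFiniteMeasure (chart V F R).m := by
  have := hV.fin
  refine ⟨lt_of_le_of_lt (h.chart_le univ) ?_⟩
  rw [Measure.smul_apply, smul_eq_mul]
  exact ENNReal.mul_lt_top ENNReal.ofReal_lt_top (measure_lt_top _ _)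

theorem ev_eps_nonneg (hV : EV V ι M θ η) : 0 ≤ η := by
  have h1 := (abs_nonneg _).trans (hV.mass 1 one_pos (by norm_num))
  simpa using h1

theorem ev_M_nonneg (hV : EV V ι M θ η) : 0 ≤ M := by
  have h1 := measureReal_nonneg.trans (hV.ub 0 1 one_pos)
  simpa using h1

theorem ev_ae_supp (hV : EV V ι M θ η) : ∀ᵐ a ∂V, a.1 ∈ V.fst.support :=
  ae_of_ae_map (p := fun x => x ∈ V.fst.support) measurable_fst.aemeasurable
    Measure.support_mem_ae

theorem ev_supp_flat (hV : EV V ι M θ η) {p : H} (hp : p ∈ V.fst.support) :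
    ∃ v : E d, ‖p - ι v‖ ≤ η := by
  have hcl : IsClosed (range ι) := ι.isometry.isClosedEmbedding.isClosed_range
  have hS : IsClosed {x : H | infDist x (range ι) ≤ η} :=
    isClosed_le (continuous_infDist_pt _) continuous_const
  have hae : {x : H | infDist x (range ι) ≤ η} ∈ ae V.fst := by
    refine (ae_map_iff (p := fun x => infDist x (range ι) ≤ η) measurable_fst.aemeasurable
      hS.measurableSet).mpr ?_
    filter_upwards [hV.flat] with a ⟨v, hv⟩
    exact (infDist_le_dist_of_mem (mem_range_self v)).trans (by rwa [dist_eq_norm])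
  have h1 : infDist p (range ι) ≤ η := Measure.support_subset_of_isClosed hS hae hp
  obtain ⟨_, ⟨v, rfl⟩, hv⟩ := hcl.exists_infDist_eq_dist (range_nonempty ι) p
  exact ⟨v, by rwa [hv, dist_eq_norm] at h1⟩

theorem ev_zero_mem (hV : EV V ι M θ η) (hω : η < omega d) : (0 : H) ∈ V.fst.support := by
  rw [Measure.mem_support_iff_forall]
  intro U hU
  obtain ⟨r, hr, hrU⟩ := Metric.mem_nhds_iff.mp hU
  have hσ : 0 < min r 3 := lt_min hr (by norm_num)
  have h1 := (abs_le.mp (hV.mass _ hσ (min_le_right _ _))).1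
  have h2 := hV.θ_ge
  have h3 := omega_pos d
  have h4 : 0 < V.fst.real (ball 0 (min r 3)) := by
    have h5 : 0 < (θ * omega d - η) * min r 3 ^ d := mul_pos (by nlinarith) (by positivity)
    linarith
  refine lt_of_lt_of_le ?_ (measure_mono ((ball_subset_ball (min_le_left r 3)).trans hrU))
  rw [pos_iff_ne_zero]
  intro h0
  rw [Measure.real, h0] at h4
  simp at h4

theorem Pre.chart_ae_G (h : Pre ι F o ε R) (hV : EV V ι M θ η) :
    ∀ᵐ a ∂(chart V F R).m, a ∈ (chart V F R).G := by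
  rw [h.chart_ae]
  filter_upwards [hV.car, ev_ae_supp hV] with a h1 h2 ha
  exact ⟨ha, h1.2, h2⟩

theorem Pre.ht_le_supp (h : Pre ι F o ε R) (hV : EV V ι M θ η) (hη : η ≤ 1 / 100) {p : H}
    (hp : p ∈ tube F R) (hs : p ∈ V.fst.support) : ‖ht F R p‖ ≤ 20 * (ε + η) := by
  obtain ⟨v, hv⟩ := ev_supp_flat hV hs
  exact h.ht_le hp hv (by linarith)

/-- The mass of a small ambient ball inside the tube. -/
theorem Pre.ball_mass (h : Pre ι F o ε R) (hV : EV V ι M θ η) {p : H} {σ : ℝ}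
    (hp : ball p σ ⊆ tube F R) :
    V.fst.real (ball p σ) ≤ (1 + cH H * ε / 100) * (chart V F R).m.real ((chart V F R).pb p σ) := by
  have hfin := h.chart_finite hV
  have h0 := h.ce_nonneg
  have hpb : (chart V F R).pb p σ = Prod.fst ⁻¹' ball p σ := by
    ext a
    simp only [CD.pb, mem_preimage, mem_ball, dist_eq_norm]
    rfl
  have hm : MeasurableSet (Prod.fst ⁻¹' ball p σ : Set (H × (H →L[ℝ] H))) :=
    measurable_fst measurableSet_ball
  have h1 := h.chart_ge (V := V) (Prod.fst ⁻¹' ball p σ)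
  have hsub : (Prod.fst ⁻¹' ball p σ : Set (H × (H →L[ℝ] H))) ⊆ dom F R := preimage_mono hp
  rw [Measure.restrict_apply hm, inter_eq_left.mpr hsub, Measure.smul_apply, smul_eq_mul] at h1
  rw [hpb, Measure.real, Measure.fst_apply measurableSet_ball, Measure.real,
    ← ENNReal.toReal_ofReal (by linarith : 0 ≤ 1 + cH H * ε / 100), ← ENNReal.toReal_mul]
  exact ENNReal.toReal_mono (ENNReal.mul_ne_top ENNReal.ofReal_ne_top (measure_ne_top _ _)) h1

end Pool.Agent.Lib.MP_8daebb_an.GM.Ch
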