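import Pool.Agent.Lib.MP_8daebb_an.GM.ChB3

/-! The Jacobian of the base point. -/

open Finset
open scoped RealInnerProductSpace

namespace Pool.Agent.Lib.MP_8daebb_an.GM.Ch

variable {d : ℕ} {H : Type*} [NormedAddCommGroup H] [InnerProductSpace ℝ H]
  [FiniteDimensional ℝ H]

variable {ε : ℝ} {D : E d →L[ℝ] H} {A : E d →L[ℝ] E d →L[ℝ] H}
  {B : E d →L[ℝ] E d →L[ℝ] E d →L[ℝ] H} {y : H} {P : H →L[ℝ] H}

theorem det_mul_ChP3 (M N : E d →L[ℝ] E d) : (M * N).det = M.det * N.det := det_comp M N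

theorem conj_symm_ChP3 {R M : E d →L[ℝ] E d} (hR : ∀ v u, ⟪R v, u⟫ = ⟪v, R u⟫)
    (hM : ∀ v u, ⟪M v, u⟫ = ⟪v, M u⟫) (v u : E d) : ⟪(R * M * R) v, u⟫ = ⟪v, (R * M * R) u⟫ := by
  show ⟪R (M (R v)), u⟫ = ⟪v, R (M (R u))⟫
  rw [hR, hM, hR]

theorem conj_tr_ChP3 (R M : E d →L[ℝ] E d) : trH (R * M * R) = trH ((R * R).comp M) := by
  have h1 : R * M * R = (R * M).comp R := rfl
  rw [h1, trH_comm]
  rfl

theorem alg_ChP3 {r g x k ki j b : ℝ} (hg : 0 < g) (hb : 0 < b) (h1 : r * g * r = 1)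
    (h2 : r * x * r = j) (h3 : r * k * r = b) (h4 : k * ki = 1) :
    √g * √(ki * x * ki) = √j / b := by
  have hx : x = g * j := by rw [← h2]; linear_combination (-x) * h1
  have hk : k = g * b := by rw [← h3]; linear_combination (-k) * h1
  have hki : ki = (g * b)⁻¹ := by
    rw [hk] at h4
    exact (eq_inv_of_mul_eq_one_right h4)
  have e : g * (ki * x * ki) = j / b ^ 2 := by
    rw [hx, hki]; field_simp
  rw [← Real.sqrt_mul hg.le, e, Real.sqrt_div' _ (sq_nonneg b), Real.sqrt_sq hb.le]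

theorem jac_dx_ChP3 (h : Jet ε D A B y) (P : H →L[ℝ] H) :
    jac (dx D A y) P = √((ki D A y).det * (gm D - fT D P).det * (ki D A y).det) := by
  rw [jac_eq, ← det_mul_ChP3, ← det_mul_ChP3]
  congr 2
  have h1 : ad (dx D A y) = D.comp (ki D A y) := by
    rw [dx, ad_comp, ad_ad, ad_of_symm h.ki_symm]
  rw [h1]
  ext1 v
  show ki D A y (ad D (P (D (ki D A y v)))) = ki D A y ((gm D - fT D P) (ki D A y v))
  rw [ad_P_D]
  rfl

theorem key_ChP3 (h : Jet ε D A B y) (hP : IsPlane d P) :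
    ∃ J b : ℝ, 0 ≤ J ∧ J ≤ 1 ∧ |2 - ft D P - 2 * J| ≤ ft D P ^ 2 ∧
      |b - 1| ≤ ε * ‖y‖ ^ 2 ∧ fj D A y P = J / b := by
  have he := h.toJet0.eps_le
  have he0 := h.eps0
  obtain ⟨R, hR, h1, -, h3, h4⟩ := exists_isqrt (gm_symm D) h.g1 (by linarith)
  have hRR : R * R = gi D := by
    ext1 v
    have : (R * R * gm D) (gi D v) = gi D v := by rw [h3]; rfl
    rw [← this]
    show R (R v) = R (R (gm D (gi D v)))
    rw [h.toJet0.gm_gi]
  have hRn : ‖R‖ ≤ 1003 / 1000 := by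
    have h5 : ‖R‖ ≤ ‖R - 1‖ + ‖(1 : E d →L[ℝ] E d)‖ := by
      simpa using norm_add_le (R - 1) 1
    have h6 : ‖(1 : E d →L[ℝ] E d)‖ ≤ 1 := ContinuousLinearMap.norm_id_le
    linarith
  -- the tilt
  have hT := sqrt_det_one_sub (M := R * fT D P * R) (conj_symm_ChP3 hR (fT_symm D hP))
    (fun v => by
      show 0 ≤ ⟪R (fT D P (R v)), v⟫
      rw [hR]
      exact fT_pos D hP _)
    (fun v => by
      show ⟪R (fT D P (R v)), v⟫ ≤ ‖v‖ ^ 2
      rw [hR, inner_fT D hP, real_inner_self_eq_norm_sq]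
      have h5 := plane_pyth hP (D (R v))
      have h6 : ‖D (R v)‖ ^ 2 = ‖v‖ ^ 2 := by
        rw [← real_inner_self_eq_norm_sq, ← inner_gm, ← hR, ← real_inner_self_eq_norm_sq]
        have : R (gm D (R v)) = v := by
          show (R * gm D * R) v = v
          rw [h1]; rfl
        rw [this]
      nlinarith [sq_nonneg ‖P (D (R v))‖])
  have htr : trH (R * fT D P * R) = ft D P := by rw [conj_tr_ChP3, hRR]; rfl
  rw [htr] at hT
  -- the shape operator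
  have hy := h.y1
  have hy0 := norm_nonneg y
  have hd0 : (0 : ℝ) ≤ d := Nat.cast_nonneg d
  have hS : ‖-(R * shL A y * R)‖ ≤ 101 / 100 * (ε * ‖y‖) := by
    rw [norm_neg]
    have h5 : ‖R * shL A y * R‖ ≤ ‖R‖ * ‖shL A y‖ * ‖R‖ :=
      (norm_mul_le _ _).trans (mul_le_mul_of_nonneg_right (norm_mul_le _ _) (norm_nonneg _))
    have h6 := h.norm_sh y
    have h7 : ‖R‖ * ‖R‖ ≤ 101 / 100 := by nlinarith [norm_nonneg R]
    have h8 : ‖R‖ * ‖shL A y‖ * ‖R‖ = ‖R‖ * ‖R‖ * ‖shL A y‖ := by ring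
    rw [h8] at h5
    exact h5.trans (mul_le_mul h7 h6 (norm_nonneg _) (by norm_num))
  have hde := h.toJet0.d_eps
  have hdd := h.toJet0.dd_eps
  have hS1 : (d : ℝ) * ‖-(R * shL A y * R)‖ ≤ 101 / 100 * (d * ε * ‖y‖) := by
    have := mul_le_mul_of_nonneg_left hS hd0
    linarith
  have hS2 : (d : ℝ) * ε * ‖y‖ ≤ 1 / 1000 := by
    have := mul_le_mul hde hy hy0 (by norm_num)
    linarith
  have hb := det_one_add (M := -(R * shL A y * R))
    (fun v u => by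
      have := conj_symm_ChP3 hR (shL_symm h.sA y) v u
      simpa only [neg_apply, inner_neg_left, inner_neg_right, neg_inj]
        using this)
    (by linarith)
  have htr2 : trH (-(R * shL A y * R)) = 0 := by
    rw [trH_neg, conj_tr_ChP3, hRR, h.tr_sh, neg_zero]
  rw [htr2, sub_zero] at hb
  have hb1 : |(1 + -(R * shL A y * R)).det - 1| ≤ ε * ‖y‖ ^ 2 := by
    refine hb.trans ((pow_le_pow_left₀ (by positivity) hS1 2).trans ?_)
    have h5 : (d : ℝ) ^ 2 * ε ≤ 1 / 1000 := by nlinarith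
    have h6 : 0 ≤ ε * ‖y‖ ^ 2 := by positivity
    have h7 : (101 / 100 * (d * ε * ‖y‖)) ^ 2 =
        (101 / 100) ^ 2 * ((d : ℝ) ^ 2 * ε) * (ε * ‖y‖ ^ 2) := by ring
    rw [h7]
    nlinarith
  have hb2 : ε * ‖y‖ ^ 2 ≤ 1 / 1000 := by
    have : ‖y‖ ^ 2 ≤ 1 := by nlinarith
    nlinarith
  refine ⟨√((1 - R * fT D P * R).det), (1 + -(R * shL A y * R)).det, Real.sqrt_nonneg _, hT.1,
    hT.2, hb1, ?_⟩
  have hg : 0 < (gm D).det := by
    rw [← h.toJet0.wt_sq]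
    exact pow_pos h.toJet0.wt_pos 2
  rw [fj, jac_dx_ChP3 h, wt]
  refine alg_ChP3 (r := R.det) (k := (kk D A y).det) hg (by linarith [(abs_le.1 hb1).1]) ?_ ?_ ?_ ?_
  · rw [← det_mul_ChP3, ← det_mul_ChP3, h1, det_one]
  · rw [← det_mul_ChP3, ← det_mul_ChP3, mul_sub, sub_mul, h1]
  · rw [← det_mul_ChP3, ← det_mul_ChP3, kk, mul_sub, sub_mul, h1, sub_eq_add_neg]
  · have : kk D A y * ki D A y = 1 := by
      ext1 v
      exact h.kk_ki v
    rw [← det_mul_ChP3, this, det_one]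

theorem fj_nonneg (D : E d →L[ℝ] H) (A : E d →L[ℝ] E d →L[ℝ] H) (y : H) (P : H →L[ℝ] H) :
    0 ≤ fj D A y P := by
  rw [fj, jac_eq, wt]
  exact mul_nonneg (Real.sqrt_nonneg _) (Real.sqrt_nonneg _)

theorem small_ChP3 (h : Jet ε D A B y) : ε * ‖y‖ ^ 2 ≤ 1 / 1000 := by
  have he := h.toJet0.eps_le
  have he0 := h.eps0
  have hy := h.y1
  have hy0 := norm_nonneg y
  have : ‖y‖ ^ 2 ≤ 1 := by nlinarith
  nlinarith

theorem fj_le (h : Jet ε D A B y) (hP : IsPlane d P) : fj D A y P ≤ 2 := by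
  obtain ⟨J, b, -, hJ1, -, hb, e⟩ := key_ChP3 h hP
  have hs := small_ChP3 h
  have h1 := (abs_le.1 hb).1
  rw [e, div_le_iff₀ (by linarith)]
  linarith

theorem fj_t (h : Jet ε D A B y) (hP : IsPlane d P) :
    |2 - ft D P - 2 * fj D A y P| ≤ ft D P ^ 2 + cH H * ε * ‖y‖ ^ 2 := by
  obtain ⟨J, b, hJ0, hJ1, hJ, hb, e⟩ := key_ChP3 h hP
  have hs := small_ChP3 h
  have h1 := (abs_le.1 hb).1
  have hb0 : 0 < b := by linarith
  have hη : 0 ≤ ε * ‖y‖ ^ 2 := (abs_nonneg _).trans hb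
  have h2 : |J - J / b| ≤ 2 * (ε * ‖y‖ ^ 2) := by
    have e2 : J - J / b = J * (b - 1) / b := by field_simp
    rw [e2, abs_div, abs_mul, abs_of_nonneg hJ0, abs_of_pos hb0, div_le_iff₀ hb0]
    have h3 : J * |b - 1| ≤ 1 * (ε * ‖y‖ ^ 2) := mul_le_mul hJ1 hb (abs_nonneg _) zero_le_one
    nlinarith
  have h3 : 2 - ft D P - 2 * fj D A y P = (2 - ft D P - 2 * J) + 2 * (J - J / b) := by
    rw [e]; ring
  have h4 : 1000 * (ε * ‖y‖ ^ 2) ≤ cH H * (ε * ‖y‖ ^ 2) :=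
    mul_le_mul_of_nonneg_right cH_ge hη
  rw [h3, mul_assoc]
  refine (abs_add_le _ _).trans ?_
  rw [abs_mul, abs_two]
  linarith

end Pool.Agent.Lib.MP_8daebb_an.GM.Ch
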