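import Pool.Agent.Lib.MP_8daebb_an.GM.ChP1

/-! The error of the horizontal identity. -/

open Finset
open scoped RealInnerProductSpace

namespace Pool.Agent.Lib.MP_8daebb_an.GM.Ch

variable {d : ℕ} {H : Type*} [NormedAddCommGroup H] [InnerProductSpace ℝ H]
  [FiniteDimensional ℝ H]

variable {ε : ℝ} {D : E d →L[ℝ] H} {A : E d →L[ℝ] E d →L[ℝ] H}
  {B : E d →L[ℝ] E d →L[ℝ] E d →L[ℝ] H} {y : H} {P : H →L[ℝ] H}

theorem nm_ChP4 {X Y Z : Type*} [NormedAddCommGroup X] [NormedSpace ℝ X] [NormedAddCommGroup Y]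
    [NormedSpace ℝ Y] [NormedAddCommGroup Z] [NormedSpace ℝ Z] {M : Y →L[ℝ] Z} {N : X →L[ℝ] Y}
    {a b : ℝ} (h1 : ‖M‖ ≤ a) (h2 : ‖N‖ ≤ b) : ‖M.comp N‖ ≤ a * b :=
  (M.opNorm_comp_le N).trans (mul_le_mul h1 h2 (norm_nonneg _) ((norm_nonneg _).trans h1))

theorem atr_ChP4 {M : E d →L[ℝ] E d} {a : ℝ} (h : ‖M‖ ≤ a) : |trH M| ≤ d * a :=
  (abs_trH_le M).trans (mul_le_mul_of_nonneg_left h (Nat.cast_nonneg d))

theorem inner_feh (v : E d) : ⟪feh D A B y P, v⟫ = fE D A B y P v := by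
  let L : E d →ₗ[ℝ] ℝ :=
    { toFun := fun v => fE D A B y P v
      map_add' := fun a b => by
        have e : P.comp (Dxi D A B y (a + b)) = P.comp (Dxi D A B y a) + P.comp (Dxi D A B y b) := by
          ext u
          simp only [Dxi_apply, map_add, add_apply, ContinuousLinearMap.comp_apply, map_sub]
          abel
        simp only [fE, e, trH_add, map_add]
        ring
      map_smul' := fun c a => by
        have e : P.comp (Dxi D A B y (c • a)) = c • P.comp (Dxi D A B y a) := by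
          ext u
          simp only [Dxi_apply, map_smul, smul_apply, ContinuousLinearMap.comp_apply, map_sub,
            map_add, smul_sub, smul_add]
        simp only [fE, e, trH_smul, map_smul, RingHom.id_apply, smul_eq_mul]
        ring }
  let b := EuclideanSpace.basisFun (Fin d) ℝ
  have hb : ∀ i, b i = eb i := fun i => EuclideanSpace.basisFun_apply _ _ i
  change ⟪∑ k, L (eb k) • eb k, v⟫ = L v
  conv_rhs => rw [← b.sum_repr' v, map_sum]
  rw [sum_inner]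
  refine sum_congr rfl fun k _ => ?_
  rw [real_inner_smul_left, map_smul, smul_eq_mul, mul_comm, hb]

/-- the mixed part of the plane -/
noncomputable def mx_ChP4 (D : E d →L[ℝ] H) (P : H →L[ℝ] H) : H →L[ℝ] E d :=
  (ad D).comp (P.comp (1 - pT D))

theorem mx_le_ChP4 (h : Jet0 ε D) (hP : IsPlane d P) :
    ‖mx_ChP4 D P‖ ≤ 101 / 100 * √(ft D P) :=
  nm_ChP4 ((norm_ad D).trans_le h.norm_D)
    (ContinuousLinearMap.opNorm_le_bound _ (Real.sqrt_nonneg _) (norm_P_pn h hP))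

theorem adP_ChP4 (h : Jet0 ε D) (P : H →L[ℝ] H) (u : H) :
    ad D (P u) = ad D u - fT D P (gi D (ad D u)) + mx_ChP4 D P u := by
  have e : mx_ChP4 D P u = ad D (P (u - D (gi D (ad D u)))) := rfl
  rw [e, map_sub, map_sub, ad_P_D, h.gm_gi]
  abel

theorem trX_ChP4 (M : E d →L[ℝ] H) : trH (P.comp (M.comp (dx D A y))) =
    trH ((ki D A y).comp ((ad D).comp (P.comp M))) := by
  rw [← ContinuousLinearMap.comp_assoc, trH_comm]
  rfl

theorem Dxi_eq_ChP4 (h : Jet ε D A B y) (v : E d) : P.comp (Dxi D A B y v) =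
    P.comp ((A (v - gi D (shL A y v))).comp (dx D A y)) +
      P.comp ((D.comp ((gi D).comp ((ad D).comp (A (gi D (shL A y v)))))).comp (dx D A y)) +
      P.comp ((D.comp ((gi D).comp (shL A (D (gi D (shL A y v)))))).comp (dx D A y)) -
      P.comp (D.comp ((gi D).comp ((ad (A v)).comp (dy D A y)))) -
      P.comp ((D.comp ((gi D).comp (shL (B v) y))).comp (dx D A y)) := by
  ext u
  have e1 : B (dx D A y u) v = B v (dx D A y u) := ContinuousLinearMap.ext fun z => h.sB _ _ z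
  simp only [ContinuousLinearMap.comp_apply, sub_apply, add_apply, Dxi_apply, dK, dG_apply, h.gi_kk]
  generalize gi D (shL A y v) = k
  simp only [shL_apply, e1, map_sub, map_add, sub_apply, h.sA (dx D A y u)]
  abel

theorem T4_ChP4 (h : Jet ε D A B y) (hP : IsPlane d P) (v : E d) :
    trH (P.comp (D.comp ((gi D).comp ((ad (A v)).comp (dy D A y))))) =
      trH ((gi D).comp ((mx_ChP4 D P).comp (A v))) -
      trH ((gi D).comp ((shL A y).comp ((ki D A y).comp ((ad D).comp (A v))))) +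
      trH ((gi D).comp ((fT D P).comp ((gi D).comp ((shL A y).comp ((ki D A y).comp
        ((ad D).comp (A v))))))) := by
  rw [← trH_ad, ad_comp, ad_comp, ad_comp, ad_comp, ad_ad, ad_of_symm h.dy_symm,
    ad_of_symm h.gi_symm, ad_of_symm hP.1, ContinuousLinearMap.comp_assoc,
    ContinuousLinearMap.comp_assoc, trH_comm, ← trH_sub, ← trH_add]
  congr 1
  ext1 z
  have e : mx_ChP4 D P (A v z) = ad D (P (A v z - pT D (A v z))) := rfl
  simp only [ContinuousLinearMap.comp_apply, sub_apply, add_apply, h.dy_eq, e, dx_apply]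
  rw [map_sub P (A v z - _), map_sub (ad D), ad_P_D, h.gm_gi]
  simp only [map_sub]
  abel

theorem trB_ChP4 (h : Jet ε D A B y) (v : E d) : trH ((gi D).comp (shL (B v) y)) =
    2 * trH ((gi D).comp ((shL A y).comp ((gi D).comp ((ad D).comp (A v))))) := by
  have e1 : (gi D).comp ((dG D A v).comp ((gi D).comp (shL A y))) =
      ((gi D).comp ((ad D).comp (A v))).comp ((gi D).comp (shL A y)) +
      (gi D).comp ((ad (A v)).comp (D.comp ((gi D).comp (shL A y)))) := by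
    ext1 z
    simp only [ContinuousLinearMap.comp_apply, add_apply, dG_apply, map_add]
  rw [h.tr_shB, e1, trH_add, trH_comm, ← trH_ad ((gi D).comp ((ad (A v)).comp _)), ad_comp, ad_comp,
    ad_comp, ad_comp, ad_ad, ad_of_symm h.gi_symm, ad_of_symm (shL_symm h.sA y), trH_comm _ (gi D),
    two_mul]
  rfl

theorem fE_eq_ChP4 (h : Jet ε D A B y) (hP : IsPlane d P) (v : E d) : fE D A B y P v =
    2 * trH ((gi D).comp ((shL A y).comp ((ki D A y - gi D).comp ((ad D).comp (A v))))) +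
    trH ((ki D A y - gi D).comp (shL A (D (gi D (shL A y v))))) -
    trH ((ki D A y - gi D).comp (shL (B v) y)) +
    trH ((ki D A y - gi D).comp ((mx_ChP4 D P).comp (A (v - gi D (shL A y v))))) -
    trH ((gi D).comp ((mx_ChP4 D P).comp (A (gi D (shL A y v))))) -
    trH ((ki D A y).comp ((fT D P).comp ((gi D).comp ((ad D).comp (A v))))) -
    trH ((ki D A y).comp ((fT D P).comp ((gi D).comp (shL A (D (gi D (shL A y v))))))) -
    trH ((gi D).comp ((fT D P).comp ((gi D).comp ((shL A y).comp ((ki D A y).comp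
      ((ad D).comp (A v))))))) +
    trH ((ki D A y).comp ((fT D P).comp ((gi D).comp (shL (B v) y)))) +
    dlw D A (fτ D A y P v) := by
  have hN : ∀ N : E d →L[ℝ] E d,
      trH ((ki D A y).comp ((ad D).comp (P.comp (D.comp ((gi D).comp N))))) =
        trH ((ki D A y).comp N) - trH ((ki D A y).comp ((fT D P).comp ((gi D).comp N))) := by
    intro N
    rw [← trH_sub]
    congr 1
    ext1 z
    simp only [ContinuousLinearMap.comp_apply, sub_apply, ad_P_D, h.gm_gi, map_sub]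
  have h1 : ∀ b : E d, trH ((ki D A y).comp ((ad D).comp (P.comp (A b)))) =
      trH ((ki D A y).comp ((ad D).comp (A b))) -
      trH ((ki D A y).comp ((fT D P).comp ((gi D).comp ((ad D).comp (A b))))) +
      trH ((ki D A y).comp ((mx_ChP4 D P).comp (A b))) := by
    intro b
    rw [← trH_sub, ← trH_add]
    congr 1
    ext1 z
    simp only [ContinuousLinearMap.comp_apply, sub_apply, add_apply, adP_ChP4 h.toJet0 P, map_sub,
      map_add]
  have h2 : trH ((ki D A y).comp ((ad D).comp (A v))) = dlw D A v +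
      trH ((gi D).comp ((shL A y).comp ((ki D A y).comp ((ad D).comp (A v))))) := by
    rw [dlw_apply, ← trH_add]
    congr 1
    ext1 z
    simp only [ContinuousLinearMap.comp_apply, add_apply]
    exact h.ki_eq _
  have h3 := trB_ChP4 h v
  have h4 := h.tr_sh (D (gi D (shL A y v)))
  rw [fE, dx_P_xi h, Dxi_eq_ChP4 h, trH_sub, trH_sub, trH_add, trH_add, trX_ChP4, trX_ChP4,
    trX_ChP4, trX_ChP4, T4_ChP4 h hP, hN, hN, hN, h1]
  simp only [map_sub, ContinuousLinearMap.comp_sub, ContinuousLinearMap.sub_comp, trH_sub]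
  linarith

theorem fE_le (h : Jet ε D A B y) (hP : IsPlane d P) (v : E d) :
    |fE D A B y P v| ≤ cH H * ε * (ft D P + ‖y‖ ^ 2) * ‖v‖ := by
  have e0 := h.eps0
  have e1 := h.eps_le
  have t0 := ft_nonneg h.toJet0 hP
  have y0 := norm_nonneg y
  have y1 := h.y1
  have v0 := norm_nonneg v
  have d0 : (0 : ℝ) ≤ d := Nat.cast_nonneg d
  have hσ : ε * ‖y‖ ≤ ‖y‖ / 1000 := by nlinarith
  have hS : ‖shL A y‖ ≤ ‖y‖ := (h.norm_sh y).trans (by linarith)
  have hS1 : ‖shL A y‖ ≤ 1 := hS.trans y1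
  have hKG : ‖ki D A y - gi D‖ ≤ ‖y‖ := h.ki_sub_gi.trans (by linarith)
  have hG : ‖gi D‖ ≤ 11 / 10 := h.norm_gi.trans (by norm_num)
  have hK : ‖ki D A y‖ ≤ 11 / 10 := h.norm_ki.trans (by norm_num)
  have hT : ‖fT D P‖ ≤ 2 * ft D P := fT_le h.toJet0 hP
  have hW := mx_le_ChP4 h.toJet0 hP
  have hk : ‖gi D (shL A y v)‖ ≤ ‖y‖ * ‖v‖ / 2 := by
    have := ((gi D).comp (shL A y)).le_of_opNorm_le (nm_ChP4 hG (h.norm_sh y)) v
    refine this.trans ?_
    nlinarith [mul_le_mul_of_nonneg_right hσ v0, mul_nonneg y0 v0]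
  have hk1 : ‖y‖ * ‖v‖ ≤ ‖v‖ := mul_le_of_le_one_left v0 y1
  have hDk : ‖D (gi D (shL A y v))‖ ≤ ‖y‖ * ‖v‖ := by
    refine (D.le_of_opNorm_le h.norm_D _).trans ?_
    nlinarith [mul_nonneg y0 v0]
  have hM : ‖(ad D).comp (A v)‖ ≤ 101 / 100 * (ε * ‖v‖) :=
    nm_ChP4 ((norm_ad D).trans_le h.norm_D) (h.norm_A v)
  have hSk : ‖shL A (D (gi D (shL A y v)))‖ ≤ ε * (‖y‖ * ‖v‖) :=
    (h.norm_sh _).trans (mul_le_mul_of_nonneg_left hDk e0)
  have hSk1 : ‖shL A (D (gi D (shL A y v)))‖ ≤ ε * ‖v‖ :=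
    hSk.trans (mul_le_mul_of_nonneg_left hk1 e0)
  have hB := h.norm_shB v y
  have hB1 : ‖shL (B v) y‖ ≤ ε * ‖v‖ := hB.trans (mul_le_of_le_one_right (by positivity) y1)
  have hAb : ‖A (v - gi D (shL A y v))‖ ≤ ε * (2 * ‖v‖) :=
    (h.norm_A _).trans (mul_le_mul_of_nonneg_left ((norm_sub_le _ _).trans (by linarith)) e0)
  have hAk : ‖A (gi D (shL A y v))‖ ≤ ε * (‖y‖ * ‖v‖ / 2) :=
    (h.norm_A _).trans (mul_le_mul_of_nonneg_left hk e0)
  have b1 := atr_ChP4 (nm_ChP4 hG (nm_ChP4 hS (nm_ChP4 hKG hM)))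
  have b2 := atr_ChP4 (nm_ChP4 hKG hSk)
  have b3 := atr_ChP4 (nm_ChP4 hKG hB)
  have b4 := atr_ChP4 (nm_ChP4 hKG (nm_ChP4 hW hAb))
  have b5 := atr_ChP4 (nm_ChP4 hG (nm_ChP4 hW hAk))
  have b6 := atr_ChP4 (nm_ChP4 hK (nm_ChP4 hT (nm_ChP4 hG hM)))
  have b7 := atr_ChP4 (nm_ChP4 hK (nm_ChP4 hT (nm_ChP4 hG hSk1)))
  have b8 := atr_ChP4 (nm_ChP4 hG (nm_ChP4 hT (nm_ChP4 hG (nm_ChP4 hS1 (nm_ChP4 hK hM)))))
  have b9 := atr_ChP4 (nm_ChP4 hK (nm_ChP4 hT (nm_ChP4 hG hB1)))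
  have b10 : |dlw D A (fτ D A y P v)| ≤ 2 * d * (ε * (2 * ft D P * ‖v‖)) :=
    (h.abs_dlw A _).trans (mul_le_mul_of_nonneg_left ((h.norm_A _).trans
      (mul_le_mul_of_nonneg_left ((fτ D A y P).le_of_opNorm_le (fτ_le h hP) v) e0))
      (by positivity))
  have hs : √(ft D P) * ‖y‖ ≤ ft D P + ‖y‖ ^ 2 := by
    nlinarith [Real.sq_sqrt t0, sq_nonneg (√(ft D P) - ‖y‖)]
  have c0 : 0 ≤ d * ε * ‖v‖ := by positivity
  have k1 := mul_le_mul_of_nonneg_left hs c0
  have k2 : 0 ≤ d * ε * ‖v‖ * ft D P := by positivity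
  have k3 : 0 ≤ d * ε * ‖v‖ * ‖y‖ ^ 2 := by positivity
  have k4 : 30 * (d : ℝ) ≤ cH H := by nlinarith [h.cH_d]
  have k5 := mul_le_mul_of_nonneg_right k4 (by positivity : 0 ≤ ε * (ft D P + ‖y‖ ^ 2) * ‖v‖)
  rw [fE_eq_ChP4 h hP]
  rw [abs_le] at b1 b2 b3 b4 b5 b6 b7 b8 b9 b10 ⊢
  constructor <;> linarith [b1.1, b1.2, b2.1, b2.2, b3.1, b3.2, b4.1, b4.2, b5.1, b5.2, b6.1, b6.2,
    b7.1, b7.2, b8.1, b8.2, b9.1, b9.2, b10.1, b10.2]

theorem feh_le (h : Jet ε D A B y) (hP : IsPlane d P) :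
    ‖feh D A B y P‖ ≤ cH H * ε * (ft D P + ‖y‖ ^ 2) := by
  have h1 := fE_le h hP (feh D A B y P)
  rw [← inner_feh, real_inner_self_eq_norm_mul_norm] at h1
  rcases (norm_nonneg (feh D A B y P)).eq_or_lt with h0 | h0
  · have := h.eps0
    have := ft_nonneg h.toJet0 hP
    have := cH_ge (H := H)
    rw [← h0]
    positivity
  · exact le_of_mul_le_mul_right ((le_abs_self _).trans h1) h0

end Pool.Agent.Lib.MP_8daebb_an.GM.Ch
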