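import Pool.Agent.Lib.MP_8daebb_an.GM.ChP2

/-! The error of the vertical identity. -/

open Finset
open scoped RealInnerProductSpace

namespace Pool.Agent.Lib.MP_8daebb_an.GM.Ch

variable {d : ℕ} {H : Type*} [NormedAddCommGroup H] [InnerProductSpace ℝ H]
  [FiniteDimensional ℝ H]

variable {ε : ℝ} {D : E d →L[ℝ] H} {A : E d →L[ℝ] E d →L[ℝ] H}
  {B : E d →L[ℝ] E d →L[ℝ] E d →L[ℝ] H} {y : H} {P : H →L[ℝ] H}

theorem nm_ChP5 {X Y Z : Type*} [NormedAddCommGroup X] [NormedSpace ℝ X] [NormedAddCommGroup Y]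
    [NormedSpace ℝ Y] [NormedAddCommGroup Z] [NormedSpace ℝ Z] {M : Y →L[ℝ] Z} {N : X →L[ℝ] Y}
    {a b : ℝ} (h1 : ‖M‖ ≤ a) (h2 : ‖N‖ ≤ b) : ‖M.comp N‖ ≤ a * b :=
  (M.opNorm_comp_le N).trans (mul_le_mul h1 h2 (norm_nonneg _) ((norm_nonneg _).trans h1))

theorem atr_ChP5 {M : E d →L[ℝ] E d} {a : ℝ} (h : ‖M‖ ≤ a) : |trH M| ≤ d * a :=
  (abs_trH_le M).trans (mul_le_mul_of_nonneg_left h (Nat.cast_nonneg d))

theorem trl_ChP5 (hP : IsPlane d P) {M : H →L[ℝ] H} {a : ℝ} (h : ‖P.comp M‖ ≤ a) :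
    |trH (P.comp M)| ≤ d * a := by
  have e : P.comp M = P.comp (P.comp M) := by
    ext u
    exact (hP.2.1 _).symm
  rw [e]
  exact (plane_abs_tr hP _).trans (mul_le_mul_of_nonneg_left h (Nat.cast_nonneg d))

theorem trr_ChP5 (hP : IsPlane d P) {M : H →L[ℝ] H} {a : ℝ} (h : ‖M.comp P‖ ≤ a) :
    |trH (P.comp M)| ≤ d * a := by
  have e : M.comp P = (M.comp P).comp P := by
    ext u
    exact congrArg M (hP.2.1 _).symm
  rw [trH_comm, e, trH_comm]
  exact (plane_abs_tr hP _).trans (mul_le_mul_of_nonneg_left h (Nat.cast_nonneg d))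

theorem opP_dy_ChP5 (h : Jet ε D A B y) (hP : IsPlane d P) :
    ‖P.comp (dy D A y)‖ ≤ √(ft D P) + 11 / 10 * (ε * ‖y‖) :=
  ContinuousLinearMap.opNorm_le_bound _ (by have := h.eps0; positivity) (norm_P_dy h hP)

theorem opdy_P_ChP5 (h : Jet ε D A B y) (hP : IsPlane d P) :
    ‖(dy D A y).comp P‖ ≤ √(ft D P) + 11 / 10 * (ε * ‖y‖) :=
  ContinuousLinearMap.opNorm_le_bound _ (by have := h.eps0; positivity) (norm_dy_P h hP)

theorem gm_ki_ChP5 (h : Jet ε D A B y) (v : E d) :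
    gm D (ki D A y v) = v + shL A y (ki D A y v) := by
  have := h.kk_ki v
  rw [kk, sub_apply] at this
  exact sub_eq_iff_eq_add.1 this

theorem inner_fL (e : H) : ⟪fL D A B y P, e⟫ = wt D * trH (P.comp (Ddy D A B y e)) := by
  let L : H →ₗ[ℝ] ℝ :=
    { toFun := fun e => wt D * trH (P.comp (Ddy D A B y e))
      map_add' := fun a b => by
        rw [← mul_add, ← trH_add]
        congr 2
        ext u
        simp only [Ddy_apply, map_add, add_apply, ContinuousLinearMap.comp_apply, map_sub]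
        abel
      map_smul' := fun c a => by
        rw [RingHom.id_apply, smul_eq_mul, mul_left_comm c, ← trH_smul c]
        refine congrArg (fun M : H →L[ℝ] H => wt D * trH M) ?_
        ext u
        simp only [Ddy_apply, map_smul, smul_apply, ContinuousLinearMap.comp_apply, map_sub,
          smul_sub] }
  change ⟪∑ k, L (ob H k) • ob H k, e⟫ = L e
  conv_rhs => rw [← (ob H).sum_repr' e, map_sum]
  rw [sum_inner]
  refine sum_congr rfl fun k _ => ?_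
  rw [real_inner_smul_left, map_smul, smul_eq_mul, mul_comm]

theorem Ddy_eq_ChP5 (h : Jet ε D A B y) (e : H) : P.comp (Ddy D A B y e) =
    -P.comp ((dy D A y).comp ((A (dx D A y e)).comp (dx D A y))) -
      P.comp (D.comp ((ki D A y).comp ((shL A (dy D A y e)).comp (dx D A y)))) -
      P.comp ((D.comp ((ki D A y).comp (ad (A (dx D A y e))))).comp (dy D A y)) -
      P.comp (D.comp ((ki D A y).comp ((shL (B (dx D A y e)) y).comp (dx D A y)))) := by
  ext u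
  have e1 : B (dx D A y u) (dx D A y e) = B (dx D A y e) (dx D A y u) :=
    ContinuousLinearMap.ext fun z => h.sB _ _ z
  simp only [ContinuousLinearMap.comp_apply, sub_apply, neg_apply, Ddy_apply, dK, dG_apply,
    shL_apply, e1, h.sA (dx D A y u) (dx D A y e)]
  rw [dy_apply D A y e, dy_apply D A y (A _ _), dx_apply D A y (A _ _)]
  simp only [map_sub, map_add]
  abel

/-- the term that uses the minimality of the centre -/
theorem tr_min_ChP5 (h : Jet ε D A B y) (hP : IsPlane d P) (e : H) :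
    |trH (P.comp (D.comp ((ki D A y).comp ((shL A e).comp (dx D A y)))))| ≤
      d * (ε * ‖e‖) * (3 * (ε * ‖y‖) + 2 * ft D P) := by
  have e1 : trH (P.comp (D.comp ((ki D A y).comp ((shL A e).comp (dx D A y))))) =
      trH ((gi D).comp (shL A e)) +
      trH ((shL A e).comp ((ki D A y).comp ((shL A y).comp (gi D)))) +
      trH ((shL A y).comp ((ki D A y).comp ((shL A e).comp (ki D A y)))) -
      trH ((fT D P).comp ((ki D A y).comp ((shL A e).comp (ki D A y)))) := by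
    have e2 : P.comp (D.comp ((ki D A y).comp ((shL A e).comp (dx D A y)))) =
        (P.comp (D.comp ((ki D A y).comp ((shL A e).comp (ki D A y))))).comp (ad D) := rfl
    rw [e2, trH_comm, trH_comm (gi D), ← trH_add, ← trH_add, ← trH_sub]
    congr 1
    ext1 v
    simp only [ContinuousLinearMap.comp_apply, sub_apply, add_apply, ad_P_D, gm_ki_ChP5 h]
    rw [← map_add, ← h.ki_eq']
  have e0 := h.eps0
  have t0 := ft_nonneg h.toJet0 hP
  have b1 := atr_ChP5 (nm_ChP5 (h.norm_sh e) (nm_ChP5 h.norm_ki (nm_ChP5 (h.norm_sh y) h.norm_gi)))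
  have b2 := atr_ChP5 (nm_ChP5 (h.norm_sh y) (nm_ChP5 h.norm_ki (nm_ChP5 (h.norm_sh e) h.norm_ki)))
  have b3 := atr_ChP5 (nm_ChP5 (fT_le' h.toJet0 hP)
    (nm_ChP5 h.norm_ki (nm_ChP5 (h.norm_sh e) h.norm_ki)))
  rw [e1, h.tr_sh, zero_add]
  refine (abs_sub _ _).trans ((add_le_add (abs_add_le _ _) le_rfl).trans ?_)
  have k1 : 0 ≤ d * (ε * ‖e‖) * (ε * ‖y‖) := by positivity
  have k2 : 0 ≤ d * (ε * ‖e‖) * ft D P := by positivity
  linarith

theorem tr_Ddy_ChP5 (h : Jet ε D A B y) (hP : IsPlane d P) (e : H) :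
    |trH (P.comp (Ddy D A B y e))| ≤ 10 * (d + 1) ^ 2 * ε * (√(ft D P) + ‖y‖) * ‖e‖ := by
  have e0 := h.eps0
  have e1 := h.eps_le
  have hk : ‖dx D A y e‖ ≤ 103 / 100 * ‖e‖ := (dx D A y).le_of_opNorm_le h.norm_dx e
  have hk' : ‖dy D A y e‖ ≤ 101 / 100 * ‖e‖ := (dy D A y).le_of_opNorm_le h.norm_dy e
  have hA : ‖A (dx D A y e)‖ ≤ ε * (103 / 100 * ‖e‖) :=
    (h.norm_A _).trans (mul_le_mul_of_nonneg_left hk e0)
  have hB : ‖shL (B (dx D A y e)) y‖ ≤ ε * (103 / 100 * ‖e‖) * ‖y‖ :=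
    (h.norm_shB _ _).trans
      (mul_le_mul_of_nonneg_right (mul_le_mul_of_nonneg_left hk e0) (norm_nonneg _))
  have b1 := trl_ChP5 hP (M := (dy D A y).comp ((A (dx D A y e)).comp (dx D A y)))
    ((congrArg norm (ContinuousLinearMap.comp_assoc _ _ _).symm).trans_le
      (nm_ChP5 (opP_dy_ChP5 h hP) (nm_ChP5 hA h.norm_dx)))
  have b2 := tr_min_ChP5 h hP (dy D A y e)
  have b3 := trr_ChP5 hP (M := (D.comp ((ki D A y).comp (ad (A (dx D A y e))))).comp (dy D A y))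
    ((congrArg norm (ContinuousLinearMap.comp_assoc _ _ _)).trans_le
      (nm_ChP5 (nm_ChP5 h.norm_D (nm_ChP5 h.norm_ki ((norm_ad _).trans_le hA)))
        (opdy_P_ChP5 h hP)))
  have b4 := trl_ChP5 hP (nm_ChP5 (plane_opNorm hP) (nm_ChP5 h.norm_D (nm_ChP5 h.norm_ki
    (nm_ChP5 hB h.norm_dx))))
  have t1 := ft_le_sqrt h.toJet0 hP
  have t0 := ft_nonneg h.toJet0 hP
  rw [Ddy_eq_ChP5 h, trH_sub, trH_sub, trH_sub, trH_neg]
  set s := √(ft D P)
  have s0 : 0 ≤ s := Real.sqrt_nonneg _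
  have d0 : (0 : ℝ) ≤ d := Nat.cast_nonneg d
  have y0 := norm_nonneg y
  have n0 := norm_nonneg e
  have hσ : ε * ‖y‖ ≤ ‖y‖ / 1000 := by nlinarith
  have c0 : 0 ≤ d * ε * ‖e‖ := by positivity
  have b2' : (d : ℝ) * (ε * ‖dy D A y e‖) * (3 * (ε * ‖y‖) + 2 * ft D P) ≤
      d * (ε * (101 / 100 * ‖e‖)) * (‖y‖ + 2 * ((d + 1) * s)) :=
    mul_le_mul (by gcongr) (by linarith) (by positivity) (by positivity)
  have k1 := mul_le_mul_of_nonneg_left hσ c0
  have k2 : 0 ≤ d * ε * ‖e‖ * s := by positivity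
  have k3 : 0 ≤ d * ε * ‖e‖ * ‖y‖ := by positivity
  have k4 : 0 ≤ d * (d * ε * ‖e‖ * s) := by positivity
  have k5 : 0 ≤ d * (d * ε * ‖e‖ * ‖y‖) := by positivity
  have k6 : 0 ≤ ε * ‖e‖ * s := by positivity
  have k7 : 0 ≤ ε * ‖e‖ * ‖y‖ := by positivity
  rw [abs_le] at b1 b2 b3 b4 ⊢
  constructor <;> linarith [b1.1, b1.2, b2.1, b2.2, b3.1, b3.2, b4.1, b4.2]

theorem fL_le (h : Jet ε D A B y) (hP : IsPlane d P) :
    ‖fL D A B y P‖ ≤ cH H * ε * (√(ft D P) + ‖y‖) := by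
  have e0 := h.eps0
  have h1 := tr_Ddy_ChP5 h hP (fL D A B y P)
  have h2 := inner_fL (D := D) (A := A) (B := B) (y := y) (P := P) (fL D A B y P)
  rw [real_inner_self_eq_norm_mul_norm] at h2
  have h3 : wt D * trH (P.comp (Ddy D A B y (fL D A B y P))) ≤
      101 / 100 * (10 * (d + 1) ^ 2 * ε * (√(ft D P) + ‖y‖) * ‖fL D A B y P‖) :=
    (mul_le_mul_of_nonneg_left (le_abs_self _) h.wt_pos.le).trans
      (mul_le_mul h.wt_up h1 (abs_nonneg _) (by norm_num))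
  have h4 : 0 ≤ ε * (√(ft D P) + ‖y‖) := by positivity
  have h5 := mul_le_mul_of_nonneg_right h.cH_d h4
  have h6 : 0 ≤ ((d : ℝ) + 1) ^ 2 * (ε * (√(ft D P) + ‖y‖)) := by positivity
  rcases (norm_nonneg (fL D A B y P)).eq_or_lt with h0 | h0
  · rw [← h0]
    nlinarith
  · refine le_of_mul_le_mul_right ?_ h0
    nlinarith [mul_le_mul_of_nonneg_right h5 h0.le, mul_nonneg h6 h0.le]

theorem fL_y (h : Jet ε D A B y) (hP : IsPlane d P) :
    |⟪fL D A B y P, y⟫| ≤ 10 * d * ε * (‖y‖ ^ 2 + ‖y‖ * ft D P) := by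
  have e0 := h.eps0
  have e1 := h.eps_le
  have t0 := ft_nonneg h.toJet0 hP
  have b := tr_min_ChP5 h hP y
  rw [inner_fL, Ddy_eq_ChP5 h, h.dx_y, h.dy_y]
  simp only [map_zero, ContinuousLinearMap.zero_comp, ContinuousLinearMap.comp_zero, neg_zero,
    zero_sub, sub_zero]
  have e : shL (0 : E d →L[ℝ] E d →L[ℝ] H) y = 0 := by
    ext1 v
    simp [shL_apply]
  rw [e]
  simp only [ContinuousLinearMap.zero_comp, ContinuousLinearMap.comp_zero, sub_zero]
  rw [trH_neg, abs_mul, abs_neg, abs_of_pos h.wt_pos]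
  refine (mul_le_mul h.wt_up b (abs_nonneg _) (by norm_num)).trans ?_
  have k1 : 0 ≤ d * ε * ‖y‖ ^ 2 := by positivity
  have k2 : 0 ≤ d * ε * (‖y‖ * ft D P) := by positivity
  nlinarith [mul_le_mul_of_nonneg_left e1 k1]

theorem fg_fL (h : Jet ε D A B y) (hP : IsPlane d P) :
    |trH (fg D A y P) + ⟪fL D A B y P, y⟫ - wt D * ft D P| ≤
      cH H * ε * (‖y‖ ^ 2 + ‖y‖ * ft D P) := by
  have e0 := h.eps0
  have e1 := h.eps_le
  have t0 := ft_nonneg h.toJet0 hP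
  have h1 := trH_fg h hP
  have h2 := fL_y h hP
  have d0 : (0 : ℝ) ≤ d := Nat.cast_nonneg d
  have h3 : 11 * (d : ℝ) ≤ cH H := by nlinarith [h.cH_d]
  have k1 : 0 ≤ d * ε * ‖y‖ ^ 2 := by positivity
  have k2 : 0 ≤ d * ε * (‖y‖ * ft D P) := by positivity
  have k3 : 0 ≤ ε * (‖y‖ ^ 2 + ‖y‖ * ft D P) := by positivity
  rw [add_sub_right_comm]
  refine (abs_add_le _ _).trans ?_
  nlinarith [mul_le_mul_of_nonneg_left e1 k1, mul_le_mul_of_nonneg_right h3 k3]

end Pool.Agent.Lib.MP_8daebb_an.GM.Ch
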