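import Pool.Agent.Lib.MP_8daebb_an.GM.ChP1
import Pool.Agent.Lib.MP_8daebb_an.GM.ChP3
import Pool.Agent.Lib.MP_8daebb_an.GM.ChP4
import Pool.Agent.Lib.MP_8daebb_an.GM.ChP5
import Pool.Agent.Lib.MP_8daebb_an.GM.ChDa
import Pool.Agent.Lib.MP_8daebb_an.GM.ChD3

/-! The statements of the jet and foot layer in the form used by the measure layer. -/

open MeasureTheory Metric Set Filter Topology
open scoped RealInnerProductSpace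

namespace Pool.Agent.Lib.MP_8daebb_an.GM.Ch

variable {d : ℕ} {H : Type*} [NormedAddCommGroup H] [InnerProductSpace ℝ H]
  [FiniteDimensional ℝ H]

section jets
variable {ε ε' : ℝ} {D D' : E d →L[ℝ] H} {A : E d →L[ℝ] E d →L[ℝ] H}
  {B : E d →L[ℝ] E d →L[ℝ] E d →L[ℝ] H} {y : H} {P : H →L[ℝ] H}

theorem Jet0.lin_le (h : Jet0 ε D) : 10 * ((d : ℝ) + 1) ≤ cH H / 100 := by
  have h1 := h.cH_d
  have h2 : (0 : ℝ) ≤ d := Nat.cast_nonneg d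
  nlinarith

theorem Jet0.unit_gm (h : Jet0 ε D) : IsUnit (gm D) := h.unit

theorem Jet.unit_kk (h : Jet ε D A B y) : IsUnit (kk D A y) := h.kk_unit

theorem Jet0.wt_near (h : Jet0 ε D) : |wt D - 1| ≤ cH H * ε / 100 := by
  have h1 := mul_le_mul_of_nonneg_right h.lin_le h.eps0
  have h2 := h.wt_near'
  have h3 := h.eps0
  have h4 : (0 : ℝ) ≤ d * ε := by positivity
  nlinarith

theorem Jet0.norm_le (h : Jet0 ε D) : ‖D‖ ≤ 1 + 2 * ε := h.norm_D_le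

theorem Jet0.pn_le (h : Jet0 ε D) (u : H) : ‖u - pT D u‖ ≤ ‖u‖ := h.norm_pn_le u

theorem Jet0.pT_le (h : Jet0 ε D) (u : H) : ‖pT D u‖ ≤ 6 / 5 * ‖ad D u‖ :=
  (h.norm_pT_ad u).trans (mul_le_mul_of_nonneg_right (by norm_num) (norm_nonneg _))

theorem Jet0.pT_sub (h : Jet0 ε D) (h' : Jet0 ε' D') : ‖pT D - pT D'‖ ≤ 10 * ‖D - D'‖ :=
  (h.pT_sub' h').trans (mul_le_mul_of_nonneg_right (by norm_num) (norm_nonneg _))

theorem Jet0.wt_sub (h : Jet0 ε D) (h' : Jet0 ε' D') :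
    |wt D - wt D'| ≤ cH H / 100 * ‖D - D'‖ :=
  (h.wt_sub' h').trans (mul_le_mul_of_nonneg_right
    (by linarith [h.lin_le, (Nat.cast_nonneg d : (0 : ℝ) ≤ d)]) (norm_nonneg _))

theorem Jet0.am_sub (h : Jet0 ε D) (h' : Jet0 ε' D') :
    ‖am D - am D'‖ ≤ cH H / 100 * ‖D - D'‖ :=
  (h.am_sub' h').trans (mul_le_mul_of_nonneg_right
    (by linarith [h.lin_le, (Nat.cast_nonneg d : (0 : ℝ) ≤ d)]) (norm_nonneg _))

theorem Jet0.sqrt_ft_sub (h : Jet0 ε D) (h' : Jet0 ε' D') (hP : IsPlane d P) :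
    |√(ft D P) - √(ft D' P)| ≤ cH H / 100 * ‖D - D'‖ :=
  (h.sqrt_ft_sub' h' hP).trans (mul_le_mul_of_nonneg_right
    (by linarith [h.lin_le, (Nat.cast_nonneg d : (0 : ℝ) ≤ d)]) (norm_nonneg _))

theorem Jet0.ft_nonneg (h : Jet0 ε D) (hP : IsPlane d P) : 0 ≤ ft D P := Ch.ft_nonneg h hP

theorem Jet0.ft_le (h : Jet0 ε D) (hP : IsPlane d P) : ft D P ≤ d := Ch.ft_le h hP

/-- at height zero the divergence of the height field is the tilt -/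
theorem Jet0.tr_dy_zero (h : Jet0 ε D) (hP : IsPlane d P) :
    trH (P.comp (dy D A 0)) = ft D P := by
  have e : dy D A 0 = 1 - pT D := by
    simp only [dy, dx, ki, kk, map_zero, sub_zero, pT, gi]
  rw [e, ft_eq h hP]

theorem Jet.dx_P_xi (h : Jet ε D A B y) (v : E d) :
    dx D A y (P (xi D A y v)) = v - fτ D A y P v := Ch.dx_P_xi h P v

/-- symmetric inverse square root -/
theorem Jet0.exists_nrm (_h : Jet0 ε D) {r : ℝ} (hr : ‖gm D - 1‖ ≤ r) (hr1 : r ≤ 1 / 4) :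
    ∃ C : E d →L[ℝ] E d, ‖C - 1‖ ≤ r ∧ gm (D.comp C) = 1 := by
  obtain ⟨R, h1, h2, -, -, h3⟩ := exists_isqrt (gm_symm D) hr (by linarith)
  refine ⟨R, h3, ?_⟩
  rw [gm_comp, ad_of_symm h1]
  exact h2

/-- The pointwise inequalities of a jet and a plane. -/
structure JW (δ : ℝ) (D : E d →L[ℝ] H) (A : E d →L[ℝ] E d →L[ℝ] H)
    (B : E d →L[ℝ] E d →L[ℝ] E d →L[ℝ] H) (y : H) (P : H →L[ℝ] H) : Prop where
  t_nonneg : 0 ≤ ft D P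
  t_le : ft D P ≤ d
  tr_τ : trH (fτ D A y P) = ft D P
  τ_le : ‖fτ D A y P‖ ≤ 2 * ft D P
  T0_symm : ∀ v u, ⟪fT D P v, u⟫ = ⟪v, fT D P u⟫
  T0_pos : ∀ v, 0 ≤ ⟪fT D P v, v⟫
  T0_le : ‖fT D P‖ ≤ 2 * ft D P
  T0_τ : ‖(gm D).comp (fτ D A y P) - fT D P‖ ≤ δ * ‖y‖ * ft D P
  hopf : ∀ v u, |⟪fT D P v, u⟫ - ⟪fb D A y P v, fb D A y P u⟫| ≤
    (2 * ft D P ^ 2 + δ * (‖y‖ * ft D P + ‖y‖ ^ 2)) * ‖v‖ * ‖u‖
  b_sq : ∀ v, ‖fb D A y P v‖ ^ 2 ≤ ⟪fT D P v, v⟫ + δ * (‖y‖ * ft D P + ‖y‖ ^ 2) * ‖v‖ ^ 2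
  rad : ∀ v, ⟪y, fb D A y P v⟫ ^ 2 ≤ ‖y‖ ^ 2 * (⟪fT D P v, v⟫ + δ * ‖y‖ * ft D P * ‖v‖ ^ 2)
  qb : ∀ e : H, ‖fq D A y P e - am D (ContinuousLinearMap.adjoint (fb D A y P) e)‖ ≤
    δ * ‖y‖ * (√(ft D P) + ‖y‖) * ‖e‖
  b_le : ‖fb D A y P‖ ≤ 2 * √(ft D P) + δ * ‖y‖
  g_pos : ∀ e : H, 0 ≤ ⟪fg D A y P e, e⟫
  bg : ∀ e : H, ⟪am D (ContinuousLinearMap.adjoint (fb D A y P) e),
    ContinuousLinearMap.adjoint (fb D A y P) e⟫ ≤ (1 + δ * ‖y‖) * ⟪fg D A y P e, e⟫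
  g_le : ∀ e : H, ⟪fg D A y P e, e⟫ ≤ 4 * (ft D P + ‖y‖ ^ 2) * ‖e‖ ^ 2
  g_norm : ‖fg D A y P‖ ≤ 4
  sq : ∀ {ι : Type} [Fintype ι] (e : OrthonormalBasis ι ℝ H),
    ft D P ^ 2 ≤ 2 * Module.finrank ℝ H * ∑ i, ((1 + δ * ‖y‖) * ⟪fg D A y P (e i), e i⟫ -
      ⟪am D (ContinuousLinearMap.adjoint (fb D A y P) (e i)),
        ContinuousLinearMap.adjoint (fb D A y P) (e i)⟫)
  trg : |trH (fg D A y P) + ⟪fL D A B y P, y⟫ - wt D * ft D P| ≤ δ * (‖y‖ ^ 2 + ‖y‖ * ft D P)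
  L_le : ‖fL D A B y P‖ ≤ δ * (√(ft D P) + ‖y‖)
  eh_le : ‖feh D A B y P‖ ≤ δ * (ft D P + ‖y‖ ^ 2)
  j_nonneg : 0 ≤ fj D A y P
  j_le : fj D A y P ≤ 2
  j_t : |2 - ft D P - 2 * fj D A y P| ≤ ft D P ^ 2 + δ * ‖y‖ ^ 2

theorem Jet.jw (h : Jet ε D A B y) (hP : IsPlane d P) : JW (cH H * ε) D A B y P :=
  ⟨Ch.ft_nonneg h.toJet0 hP, Ch.ft_le h.toJet0 hP, tr_fτ h P, fτ_le h hP, fT_symm D hP, fT_pos D hP,
    fT_le h.toJet0 hP, fT_fτ h hP, fb_hopf h hP, fb_sq h hP, fb_rad h hP, fq_fb h hP, fb_le h hP,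
    fun e => by rw [inner_fg h hP]; exact mul_nonneg h.wt_pos.le (sq_nonneg _), fb_fg h hP,
    fg_le h hP, fg_norm h hP, fun e => fg_sq h hP e, fg_fL h hP, fL_le h hP, feh_le h hP,
    fj_nonneg D A y P, fj_le h hP, fj_t h hP⟩

end jets

variable {ι : E d →ₗᵢ[ℝ] H} {F : E d → H} {o : E d} {ε R : ℝ} {z w x x' : E d} {p p' : H}

theorem Pre.hasFDerivAt (h : Pre ι F o ε R) (hz : z ∈ ball (0 : E d) R) :
    HasFDerivAt F (d1 F z) z := h.toMn.der0 hz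

theorem Pre.lip0 (h : Pre ι F o ε R) (hz : z ∈ ball (0 : E d) R) (hw : w ∈ ball (0 : E d) R) :
    ‖d1 F z - d1 F w‖ ≤ ε * ‖z - w‖ := h.toMn.lip1 (convex_ball _ _) hz hw

theorem Pre.taylor (h : Pre ι F o ε R) (hz : z ∈ ball (0 : E d) R) (hw : w ∈ ball (0 : E d) R) :
    ‖F z - F w - d1 F w (z - w)‖ ≤ ε * ‖z - w‖ ^ 2 := h.toMn.taylor (convex_ball _ _) hz hw

theorem Pre.near_iso (h : Pre ι F o ε R) (hz : z ∈ ball (0 : E d) R) (hw : w ∈ ball (0 : E d) R) :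
    ‖F z - F w - ι (z - w)‖ ≤ ε * ‖z - w‖ := h.toMn.near_iso (convex_ball _ _) hz hw

theorem Pre.foot_lip (h : Pre ι F o ε R) (hx : IsFoot F R p x) (hx' : IsFoot F R p' x') :
    ‖x - x'‖ ≤ 2 * ‖p - p'‖ :=
  (h.foot_lip' hx hx').trans (mul_le_mul_of_nonneg_right (by norm_num) (norm_nonneg _))

theorem Pre.contDiffOn_xi (h : Pre ι F o ε R) (v : E d) :
    ContDiffOn ℝ 1 (fun q => xi (j1 F R q) (j2 F R q) (ht F R q) v) (tube F R) :=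
  h.contDiffOn_xi'.clm_apply contDiffOn_const

theorem Pre.contDiffOn_dy (h : Pre ι F o ε R) (e : H) :
    ContDiffOn ℝ 1 (fun q => dy (j1 F R q) (j2 F R q) (ht F R q) e) (tube F R) :=
  h.contDiffOn_dy'.clm_apply contDiffOn_const

end Pool.Agent.Lib.MP_8daebb_an.GM.Ch
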