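import Pool.Agent.Lib.MP_8daebb_an.GM.Ad2
import Pool.Agent.Lib.MP_8daebb_an.GM.ChN87

/-! The gauge of the new centre. -/

open MeasureTheory Metric Set Filter Topology
open scoped RealInnerProductSpace ContDiff ENNReal

namespace Pool.Agent.Lib.MP_8daebb_an.GM.Ch

variable {d n : ℕ} {H : Type*} [NormedAddCommGroup H] [InnerProductSpace ℝ H]
  [FiniteDimensional ℝ H] {ι : E d →ₗᵢ[ℝ] H} {κ : E n →ₗᵢ[ℝ] H}

theorem ad_bil_Nw3 (L L' : E d →L[ℝ] E n) (a a' : E n) :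
    ‖ad L a - ad L' a'‖ ≤ ‖L - L'‖ * ‖a‖ + ‖L'‖ * ‖a - a'‖ := by
  have e : ad L a - ad L' a' = ad (L - L') a + ad L' (a - a') := by
    simp only [map_sub, sub_apply]
    abel
  rw [e]
  refine (norm_add_le _ _).trans (add_le_add ?_ ?_)
  · exact ((ad (L - L')).le_opNorm a).trans_eq (by rw [norm_ad])
  · exact ((ad L').le_opNorm _).trans_eq (by rw [norm_ad])

theorem d1_add_Nw3 {u du : E d → E n} {ε γ : ℝ} (hu : Pw u ε) (hd : Pw du γ) (x : E d) :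
    d1 (fun y => u y + du y) x = d1 u x + d1 du x :=
  congrFun (d1_add (hu.sm.of_le (by norm_num)) (hd.sm.of_le (by norm_num))).1 x

theorem d1_sub_Nw3 {u du : E d → E n} {ε γ : ℝ} (hu : Pw u ε) (hd : Pw du γ) (x x' : E d) :
    ‖d1 (fun y => u y + du y) x' - d1 u x‖ ≤ ε * ‖x' - x‖ + γ := by
  rw [d1_add_Nw3 hu hd, add_sub_right_comm]
  exact (norm_add_le _ _).trans (add_le_add (hu.lip x' x).2.1 (hd.n1 x'))

theorem gauge_pt {u du : E d → E n} {ε γ : ℝ} (hu : Pw u ε) (hd : Pw du γ) (hε : ε ≤ 1 / 10)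
    (hγ : γ ≤ 1 / 10) {x₀ : E d} (h : x₀ + ad (d1 u x₀) (u x₀) = 0) :
    ∃ x₁ : E d, ‖x₁ - x₀‖ ≤ γ ∧
      x₁ + ad (d1 (fun x => u x + du x) x₁) (u x₁ + du x₁) = 0 := by
  have hp := hu.add hd
  have hε0 : 0 ≤ ε := (norm_nonneg _).trans (hu.n0 0)
  have hγ0 : 0 ≤ γ := (norm_nonneg _).trans (hd.n0 0)
  obtain ⟨T, hT⟩ : ∃ T : E d → E d,
      T = fun x => -ad (d1 (fun x => u x + du x) x) (u x + du x) := ⟨_, rfl⟩
  have hL : ∀ x x', ‖T x - T x'‖ ≤ 1 / 2 * ‖x - x'‖ := fun x x' => by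
    simp only [hT]
    rw [neg_sub_neg, norm_sub_rev]
    refine (ad_bil_Nw3 _ _ _ _).trans ?_
    obtain ⟨a1, a2, -⟩ := hp.lip x x'
    have b1 := mul_le_mul a2 (hp.n0 x) (norm_nonneg _) (by positivity)
    have b2 := mul_le_mul (hp.n1 x') a1 (norm_nonneg _) (by positivity)
    have b3 : (ε + γ) * (ε + γ) ≤ 1 / 5 * (1 / 5) :=
      mul_le_mul (by linarith) (by linarith) (by positivity) (by norm_num)
    have b4 := mul_le_mul_of_nonneg_right b3 (norm_nonneg (x - x'))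
    linarith [norm_nonneg (x - x')]
  have hc : ContractingWith (1 / 2) T :=
    ⟨by norm_num, LipschitzWith.of_dist_le_mul fun x x' => by
      rw [dist_eq_norm, dist_eq_norm]
      simpa using hL x x'⟩
  have hf : T (hc.fixedPoint T) = hc.fixedPoint T := hc.fixedPoint_isFixedPt
  refine ⟨hc.fixedPoint T, ?_, ?_⟩
  · have a1 := hL (hc.fixedPoint T) x₀
    rw [hf] at a1
    have a2 : ‖T x₀ - x₀‖ ≤ γ / 2 := by
      have e : T x₀ - x₀ = -(ad (d1 (fun x => u x + du x) x₀) (u x₀ + du x₀) -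
          ad (d1 u x₀) (u x₀)) := by
        rw [hT]
        linear_combination (norm := module) -h
      rw [e, norm_neg]
      refine (ad_bil_Nw3 _ _ _ _).trans ?_
      have b0 := d1_sub_Nw3 hu hd x₀ x₀
      rw [sub_self, norm_zero, mul_zero, zero_add] at b0
      have b1 := mul_le_mul b0 (hp.n0 x₀) (norm_nonneg _) hγ0
      have b2 := mul_le_mul (hu.n1 x₀) (hd.n0 x₀) (norm_nonneg _) hε0
      rw [add_sub_cancel_left]
      nlinarith
    linarith [norm_sub_le_norm_sub_add_norm_sub (hc.fixedPoint T) (T x₀) x₀]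
  · have : hc.fixedPoint T = -ad (d1 (fun x => u x + du x) (hc.fixedPoint T))
        (u (hc.fixedPoint T) + du (hc.fixedPoint T)) := hf.symm.trans (congrFun hT _)
    exact add_eq_zero_iff_eq_neg.2 this

theorem org_iff (hs : Spl ι κ) {c : Cen d n} (hu : ContDiff ℝ 3 c.u) (hA : Fr c.x₀ c.A) :
    Org (c.F ι κ) ↔ c.x₀ + ad (d1 c.u c.x₀) (c.u c.x₀) = 0 := by
  obtain ⟨-, -, a1, -, -, a2⟩ := hs.frames (d1 c.u c.x₀) c.x₀ (c.u c.x₀)
  rw [Org, Cen.F, d1_aff_gr hu, hA.ad_comp]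
  simp only [aff, gr, map_zero, add_zero, map_add]
  rw [a1, a2]

theorem comp_le_Nw3 {X Y Z : Type*} [NormedAddCommGroup X] [NormedSpace ℝ X]
    [NormedAddCommGroup Y] [NormedSpace ℝ Y] [NormedAddCommGroup Z] [NormedSpace ℝ Z]
    {a : Y →L[ℝ] Z} {b : X →L[ℝ] Y} {α β : ℝ} (ha : ‖a‖ ≤ α) (hb : ‖b‖ ≤ β) :
    ‖a.comp b‖ ≤ α * β :=
  (a.opNorm_comp_le b).trans (mul_le_mul ha hb (norm_nonneg _) ((norm_nonneg _).trans ha))

theorem gm_sub_Nw3 {D D' : E d →L[ℝ] H} {a b : ℝ} (h : ‖D‖ ≤ a) (h' : ‖D'‖ ≤ a)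
    (hb : ‖D' - D‖ ≤ b) : ‖gm D' - gm D‖ ≤ 2 * (a * b) := by
  have e : gm D' - gm D = (ad D').comp (D' - D) + (ad (D' - D)).comp D := by
    simp only [gm, map_sub, ContinuousLinearMap.comp_sub, ContinuousLinearMap.sub_comp]
    abel
  have h1 := comp_le_Nw3 ((norm_ad D').trans_le h') hb
  have h2 := comp_le_Nw3 ((norm_ad (D' - D)).trans_le hb) h
  rw [e]
  refine (norm_add_le _ _).trans ?_
  linarith

/-- The new frame. -/
theorem frame_Nw3 {L L' : E d →L[ℝ] E n} {A : E d →L[ℝ] E d} {g : ℝ} (hg : g ≤ 1 / 100)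
    (hL : ‖L‖ ≤ 1 / 50) (hL' : ‖L'‖ ≤ 1 / 50) (hLL : ‖L' - L‖ ≤ 2 * g) (hA : ‖A‖ ≤ 11 / 10)
    (h : gm ((DD ι κ L).comp A) = 1) :
    ∃ A' : E d →L[ℝ] E d, ‖A' - A‖ ≤ 7 * g ∧ gm ((DD ι κ L').comp A') = 1 := by
  have g0 : 0 ≤ g := by linarith [norm_nonneg (L' - L)]
  have a1 : ‖(DD ι κ L).comp A‖ ≤ 51 / 50 * (11 / 10) :=
    comp_le_Nw3 ((DD_sub L L).2.2.1.trans (by linarith)) hA
  have a2 : ‖(DD ι κ L').comp A‖ ≤ 51 / 50 * (11 / 10) :=
    comp_le_Nw3 ((DD_sub L' L).2.2.1.trans (by linarith)) hA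
  have a3 : ‖(DD ι κ L').comp A - (DD ι κ L).comp A‖ ≤ 2 * g * (11 / 10) := by
    rw [← ContinuousLinearMap.sub_comp]
    exact comp_le_Nw3 ((DD_sub L' L).1.trans hLL) hA
  have a4 := gm_sub_Nw3 a1 a2 a3
  rw [h] at a4
  obtain ⟨S, s1, s2, -, -, s3⟩ := exists_isqrt (gm_symm ((DD ι κ L').comp A)) (ε := 6 * g)
    (by linarith) (by linarith)
  refine ⟨A.comp S, ?_, ?_⟩
  · have e : A.comp S - A = A.comp (S - 1) := by
      ext1 v
      simp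
    rw [e]
    linarith [comp_le_Nw3 hA s3]
  · rw [← ContinuousLinearMap.comp_assoc, gm_comp, ad_of_symm s1]
    exact s2

omit [FiniteDimensional ℝ H] in
theorem gr_sub_Nw3 {u du : E d → E n} {ε γ : ℝ} (hu : Pw u ε) (hd : Pw du γ) (x x' : E d) :
    ‖gr ι κ (fun y => u y + du y) x' - gr ι κ u x‖ ≤ ‖x' - x‖ + (ε * ‖x' - x‖ + γ) := by
  have e : gr ι κ (fun y => u y + du y) x' - gr ι κ u x =
      ι (x' - x) + κ (u x' - u x + du x') := by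
    simp only [gr, map_add, map_sub]
    abel
  rw [e]
  refine (norm_add_le _ _).trans ?_
  rw [ι.norm_map, κ.norm_map]
  exact add_le_add le_rfl ((norm_add_le _ _).trans (add_le_add (hu.lip x' x).1 (hd.n0 x')))

theorem gauge : ∃ ε₀ C : ℝ, 0 < ε₀ ∧ 1 ≤ C ∧ ∀ (ι : E d →ₗᵢ[ℝ] H) (κ : E n →ₗᵢ[ℝ] H) (c : Cen d n)
    (du : E d → E n) (ε γ R R' : ℝ), Spl ι κ → Adm ι κ c ε R → Sml (d + 4) du γ → ε ≤ ε₀ → γ ≤ ε₀ →
    R' ≤ 2 → (∀ x ∈ el c.x₀ c.A (R' + C * γ), NN (fun y => c.u y + du y) x = 0) →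
    ∃ c' : Cen d n, (c'.u = fun y => c.u y + du y) ∧ Adm ι κ c' (ε + C * γ) R' ∧
      ‖c'.x₀ - c.x₀‖ ≤ C * γ ∧ ‖c'.A - c.A‖ ≤ C * γ ∧ Close (c.F ι κ) (c'.F ι κ) (C * γ) R' := by
  obtain ⟨P, hP, hpw⟩ := exists_pw (d := d) (n := n)
  refine ⟨1 / (100 * (P + 1)), 18 * P + 1, by positivity, by linarith, ?_⟩
  intro ι κ c du ε γ R R' hs hc hd hε hγ hR hN
  have hε0 := hc.sml.nonneg
  have hγ0 := hd.nonneg
  rw [le_div_iff₀ (by positivity)] at hε hγ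
  have hu := hpw _ _ _ (by omega) hc.sml
  have hv := hpw _ _ _ (by omega) hd
  obtain ⟨e, he⟩ : ∃ e, e = P * ε := ⟨_, rfl⟩
  obtain ⟨g, hg⟩ : ∃ g, g = P * γ := ⟨_, rfl⟩
  have e0 : 0 ≤ e := by rw [he]; positivity
  have g0 : 0 ≤ g := by rw [hg]; positivity
  have e1 : e + ε ≤ 1 / 100 := by rw [he]; linarith
  have g1 : g + γ ≤ 1 / 100 := by rw [hg]; linarith
  have hC : (18 * P + 1) * γ = 18 * g + γ := by rw [hg]; ring
  rw [← he] at hu
  rw [← hg] at hv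
  rw [hC] at hN ⊢
  have hp := hu.add hv
  have hF := hc.fr (by linarith)
  have hA : ‖c.A‖ ≤ 11 / 10 := by linarith [norm_le_ChDa hF.A_le]
  obtain ⟨x₁, hx, ho⟩ := gauge_pt hu hv (by linarith) (by linarith)
    ((org_iff hs hu.sm hF).1 hc.org)
  have hsl : ∀ x x' : E d, ‖x' - x‖ ≤ 15 * g → e * ‖x' - x‖ + g ≤ 2 * g := fun x x' h => by
    have := mul_le_mul (show e ≤ 1 / 100 by linarith) h (norm_nonneg _) (by norm_num)
    linarith
  have hn : gm ((DD ι κ (d1 c.u c.x₀)).comp c.A) = 1 := by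
    have := hc.nrm
    rwa [Nrm, Cen.F, d1_aff_gr hu.sm, map_zero, add_zero] at this
  obtain ⟨A', hA1, hA2⟩ := frame_Nw3 (L' := d1 (fun y => c.u y + du y) x₁) (g := g) (by linarith)
    ((hu.n1 _).trans (by linarith)) ((hp.n1 _).trans (by linarith))
    ((d1_sub_Nw3 hu hv _ _).trans (hsl _ _ (by linarith))) hA hn
  have hx1 : ‖x₁‖ ≤ ε + g := by
    linarith [norm_le_norm_sub_add x₁ c.x₀, hc.x_le]
  have hA3 : ‖A' - 1‖ ≤ ε + 7 * g := by
    linarith [norm_sub_le_norm_sub_add_norm_sub A' c.A 1, hc.A_le]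
  have hF' : Fr x₁ A' := ⟨by linarith, by linarith⟩
  have hpt : ∀ z ∈ ball (0 : E d) R', ‖x₁ + A' z - (c.x₀ + c.A z)‖ ≤ 15 * g := fun z hz => by
    rw [mem_ball_zero_iff] at hz
    have e2 : x₁ + A' z - (c.x₀ + c.A z) = x₁ - c.x₀ + (A' - c.A) z := by
      rw [sub_apply]
      abel
    have a1 := ((A' - c.A).le_opNorm z).trans
      (mul_le_mul hA1 (show ‖z‖ ≤ 2 by linarith) (norm_nonneg _) (by linarith))
    rw [e2]
    linarith [norm_add_le (x₁ - c.x₀) ((A' - c.A) z)]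
  refine ⟨⟨fun y => c.u y + du y, x₁, A'⟩, rfl, ⟨(hc.sml.add hd).mono (by linarith),
    hx1.trans (by linarith), hA3.trans (by linarith), fun z hz => hN _ ?_, ?_,
    (org_iff hs hp.sm hF').2 ho⟩, hx.trans (by linarith), hA1.trans (by linarith),
    fun z hz => ⟨?_, ?_⟩⟩
  · have e2 : Ring.inverse c.A (x₁ + A' z - c.x₀) =
        z + Ring.inverse c.A (x₁ + A' z - (c.x₀ + c.A z)) := by
      rw [← sub_sub, map_sub _ _ (c.A z), hF.inv.2.2.1]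
      abel
    have a1 := (hF.inv.2.2.2.2.2 (x₁ + A' z - (c.x₀ + c.A z))).2
    have a2 := hpt z hz
    rw [mem_ball_zero_iff] at hz
    show ‖Ring.inverse c.A (x₁ + A' z - c.x₀)‖ < R' + (18 * g + γ)
    rw [e2]
    linarith [norm_add_le z (Ring.inverse c.A (x₁ + A' z - (c.x₀ + c.A z)))]
  · rw [Nrm, Cen.F, d1_aff_gr hp.sm, map_zero, add_zero]
    exact hA2
  · have a1 := gr_sub_Nw3 (ι := ι) (κ := κ) hu hv (c.x₀ + c.A z) (x₁ + A' z)
    have a2 := hpt z hz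
    have a3 := hsl _ _ a2
    show ‖gr ι κ (fun y => c.u y + du y) (x₁ + A' z) - gr ι κ c.u (c.x₀ + c.A z)‖ ≤ _
    linarith
  · rw [Cen.F, Cen.F, d1_aff_gr hp.sm, d1_aff_gr hu.sm]
    have a1 := (d1_sub_Nw3 hu hv _ _).trans (hsl _ _ (hpt z hz))
    dsimp only
    generalize d1 (fun y => c.u y + du y) (x₁ + A' z) = L' at a1 ⊢
    have a2 := hu.n1 (c.x₀ + c.A z)
    generalize d1 c.u (c.x₀ + c.A z) = L at a1 a2 ⊢
    have e2 : (DD ι κ L').comp A' - (DD ι κ L).comp c.A =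
        (DD ι κ L' - DD ι κ L).comp A' + (DD ι κ L).comp (A' - c.A) := by
      simp only [ContinuousLinearMap.comp_sub, ContinuousLinearMap.sub_comp]
      abel
    have a3 := comp_le_Nw3 ((DD_sub (ι := ι) (κ := κ) L' L).1.trans a1)
      (norm_le_ChDa hF'.A_le)
    have a4 := comp_le_Nw3 ((DD_sub (ι := ι) (κ := κ) L L).2.2.1.trans
      (show 1 + ‖L‖ ≤ 101 / 100 by linarith)) hA1
    rw [e2]
    refine (norm_add_le _ _).trans ?_
    linarith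

end Pool.Agent.Lib.MP_8daebb_an.GM.Ch
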