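import Pool.Agent.Lib.MP_8daebb_an.GM.Wi2

/-! Fourier inversion and decay for compactly supported functions. -/

open MeasureTheory Metric Set Filter Topology
open scoped RealInnerProductSpace ContDiff ENNReal

namespace Pool.Agent.Lib.MP_8daebb_an.GM.Ch

variable {d : ℕ} {φ : E d → ℝ}

/-- Continuous functions orthogonal to all characters. -/
def Orth_Wi5 (h : E d → ℝ) : Prop :=
  Continuous h ∧ ∀ k : Fin d → ℤ, ∫ x in cube d, ek k x * (h x : ℂ) = 0

theorem int_Wi5 {h : E d → ℝ} (hc : Continuous h) (k : Fin d → ℤ) :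
    IntegrableOn (fun x => ek k x * (h x : ℂ)) (cube d) :=
  integrableOn_cube ((contDiff_ek k).continuous.mul (Complex.continuous_ofReal.comp hc))

theorem Orth_add_Wi5 {h g : E d → ℝ} (hh : Orth_Wi5 h) (hg : Orth_Wi5 g) :
    Orth_Wi5 fun x => h x + g x := by
  refine ⟨hh.1.add hg.1, fun k => ?_⟩
  have e : (fun x => ek k x * ((h x + g x : ℝ) : ℂ)) =
      fun x => ek k x * (h x : ℂ) + ek k x * (g x : ℂ) := by
    funext x; push_cast; ring
  rw [e, integral_add (int_Wi5 hh.1 k) (int_Wi5 hg.1 k), hh.2, hg.2, add_zero]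

theorem Orth_smul_Wi5 {h : E d → ℝ} (hh : Orth_Wi5 h) (c : ℝ) :
    Orth_Wi5 fun x => c * h x := by
  refine ⟨continuous_const.mul hh.1, fun k => ?_⟩
  have e : (fun x => ek k x * ((c * h x : ℝ) : ℂ)) =
      fun x => (c : ℂ) * (ek k x * (h x : ℂ)) := by
    funext x; push_cast; ring
  rw [e, integral_const_mul, hh.2, mul_zero]

theorem Orth_sum_Wi5 {ι : Type*} (s : Finset ι) {F : ι → E d → ℝ}
    (h : ∀ i ∈ s, Orth_Wi5 (F i)) : Orth_Wi5 fun x => ∑ i ∈ s, F i x := by
  classical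
  induction s using Finset.induction_on with
  | empty => exact ⟨by simpa using continuous_const, fun k => by simp⟩
  | insert a s ha ih =>
    simp only [Finset.sum_insert ha]
    exact Orth_add_Wi5 (h a (Finset.mem_insert_self _ _))
      (ih fun i hi => h i (Finset.mem_insert_of_mem hi))

theorem ek_single_Wi5 (i : Fin d) (x : E d) :
    ek (Pi.single i 1) x = Complex.exp (x i * Complex.I) := by
  have : kx (Pi.single i 1) x = x i := by
    unfold kx
    rw [Finset.sum_eq_single i]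
    · simp
    · intro j _ hj
      simp [Pi.single_eq_of_ne hj]
    · simp
  rw [ek, this]

theorem Orth_cos_Wi5 {h : E d → ℝ} (hh : Orth_Wi5 h) (i : Fin d) (t : ℝ) :
    Orth_Wi5 fun x => Real.cos (x i - t) * h x := by
  refine ⟨(Real.continuous_cos.comp (by fun_prop)).mul hh.1, fun k => ?_⟩
  have e : (fun x : E d => ek k x * ((Real.cos (x i - t) * h x : ℝ) : ℂ)) =
      fun x => (Complex.exp (-(t * Complex.I)) / 2) * (ek (k + Pi.single i 1) x * (h x : ℂ)) +
        (Complex.exp (t * Complex.I) / 2) * (ek (k + -Pi.single i 1) x * (h x : ℂ)) := by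
    funext x
    have h1 : ek (-Pi.single i 1) x = Complex.exp (-(x i * Complex.I)) := by
      rw [ek_neg, ek_single_Wi5, ← Complex.exp_conj]
      simp
    have h2 : ((Real.cos (x i - t) : ℝ) : ℂ) =
        (Complex.exp (x i * Complex.I) * Complex.exp (-(t * Complex.I)) +
          Complex.exp (-(x i * Complex.I)) * Complex.exp (t * Complex.I)) / 2 := by
      rw [Complex.ofReal_cos, Complex.cos, ← Complex.exp_add, ← Complex.exp_add]
      push_cast
      congr 3 <;> ring
    rw [ek_add, ek_add, h1, ek_single_Wi5, Complex.ofReal_mul, h2]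
    ring
  rw [e, integral_add ((int_Wi5 hh.1 _).const_mul _) ((int_Wi5 hh.1 _).const_mul _),
    integral_const_mul, integral_const_mul, hh.2, hh.2]
  simp

/-- The peak kernel. -/
noncomputable def pk_Wi5 (a x : E d) : ℝ := (d + 1) + ∑ i, Real.cos (x i - a i)

theorem Orth_pk_Wi5 {h : E d → ℝ} (hh : Orth_Wi5 h) (a : E d) (N : ℕ) :
    Orth_Wi5 fun x => pk_Wi5 a x ^ N * h x := by
  induction N with
  | zero => simpa using hh
  | succ N ih =>
    have := Orth_add_Wi5 (Orth_smul_Wi5 ih (d + 1))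
      (Orth_sum_Wi5 Finset.univ fun i _ => Orth_cos_Wi5 ih i (a i))
    convert this using 2 with x
    rw [← Finset.sum_mul, pow_succ, pk_Wi5]
    ring

theorem Orth_int_Wi5 {h : E d → ℝ} (hh : Orth_Wi5 h) : ∫ x in cube d, h x = 0 := by
  have := hh.2 0
  simp only [ek_zero, one_mul] at this
  rw [integral_complex_ofReal] at this
  exact_mod_cast this

theorem convex_ocube_Wi5 : Convex ℝ (ocube d) := by
  intro x hx y hy a b ha hb hab i
  have := convex_Ioo (-Real.pi) Real.pi (hx i) (hy i) ha hb hab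
  simpa using this

theorem closure_ocube_Wi5 : IsCompact (closure (ocube d)) ∧
    ∀ x ∈ closure (ocube d), ∀ i, x i ∈ Icc (-Real.pi) Real.pi := by
  have hK : IsCompact ((WithLp.toLp 2 : (Fin d → ℝ) → E d) ''
      Set.pi univ fun _ => Icc (-Real.pi) Real.pi) :=
    (isCompact_univ_pi fun _ => isCompact_Icc).image (PiLp.continuous_toLp 2 _)
  have hs : closure (ocube d) ⊆ (WithLp.toLp 2 : (Fin d → ℝ) → E d) ''
      Set.pi univ fun _ => Icc (-Real.pi) Real.pi := by
    refine closure_minimal (fun x hx => ?_) hK.isClosed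
    exact ⟨x.ofLp, fun i _ => Ioo_subset_Icc_self (hx i), rfl⟩
  refine ⟨hK.of_isClosed_subset isClosed_closure hs, fun x hx i => ?_⟩
  obtain ⟨y, hy, rfl⟩ := hs hx
  exact hy i (mem_univ _)

theorem Orth_zero_Wi5 {h : E d → ℝ} (hh : Orth_Wi5 h) : ∀ a ∈ ocube d, h a = 0 := by
  intro a ha
  have hae : closure (ocube d) =ᵐ[volume] cube d :=
    (closure_ae_eq_of_null_frontier (convex_ocube_Wi5.addHaar_frontier volume)).trans
      ocube_ae_eq_cube
  have hc : Continuous (pk_Wi5 a) := by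
    unfold pk_Wi5
    fun_prop
  have hpa : pk_Wi5 a a = (d + 1) + ∑ _i : Fin d, (1 : ℝ) := by simp [pk_Wi5]
  have hlim := tendsto_setIntegral_pow_smul_of_unique_maximum_of_isCompact_of_continuousOn
    (μ := (volume : Measure (E d))) (g := h) (x₀ := a) (c := pk_Wi5 a) closure_ocube_Wi5.1
    hc.continuousOn ?_ ?_ ?_ ?_ hh.1.continuousOn
  · have h0 : (fun n : ℕ => (∫ x in closure (ocube d), pk_Wi5 a x ^ n)⁻¹ •
        ∫ x in closure (ocube d), pk_Wi5 a x ^ n • h x) = fun _ => 0 := by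
      funext n
      have := Orth_int_Wi5 (Orth_pk_Wi5 hh a n)
      rw [← setIntegral_congr_set hae] at this
      simp only [smul_eq_mul]
      rw [this, mul_zero]
    rw [h0] at hlim
    exact (tendsto_nhds_unique tendsto_const_nhds hlim).symm
  · intro y hy hya
    obtain ⟨i, hi⟩ : ∃ i, y i ≠ a i := by
      by_contra hcon
      push Not at hcon
      exact hya (by ext i; exact hcon i)
    rw [hpa, pk_Wi5]
    refine add_lt_add_right (Finset.sum_lt_sum (fun j _ => Real.cos_le_one _)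
      ⟨i, Finset.mem_univ _, ?_⟩) _
    refine lt_of_le_of_ne (Real.cos_le_one _) fun h1 => hi ?_
    have hy' := closure_ocube_Wi5.2 y hy i
    have ha' := ha i
    have := (Real.cos_eq_one_iff_of_lt_of_lt (x := y i - a i) (by linarith [hy'.1, ha'.2])
      (by linarith [hy'.2, ha'.1])).1 h1
    linarith
  · intro x _
    have : ∑ _i : Fin d, (-1 : ℝ) ≤ ∑ i, Real.cos (x i - a i) :=
      Finset.sum_le_sum fun j _ => Real.neg_one_le_cos _
    simp only [Finset.sum_const, Finset.card_univ, Fintype.card_fin, nsmul_eq_mul] at this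
    unfold pk_Wi5
    linarith
  · rw [hpa]
    positivity
  · exact subset_closure (interior_mono subset_closure (by rwa [isOpen_ocube.interior_eq]))

theorem cf_per_Wi5 (h : Summable fun k => ‖cf φ k‖) : cf (per φ) = cf φ := by
  funext k
  rw [per, cf_ev h, cf_neg_conj]
  simp

theorem per_eq (hφ : Continuous φ) (hs : ∀ x, x ∉ ball (0 : E d) 3 → φ x = 0)
    (h : Summable fun k => ‖cf φ k‖) : ∀ x ∈ ocube d, per φ x = φ x := by
  have hW : W 0 (per φ) := W_ev (by simpa using h)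
  have hc : Continuous fun x => (-1) * φ x := continuous_const.mul hφ
  have hO : Orth_Wi5 fun x => per φ x + (-1) * φ x := by
    refine ⟨hW.continuous.add hc, fun k => ?_⟩
    have h1 := cf_add hW.continuous hc (-k)
    rw [cf_const_mul, cf_per_Wi5 h, cf, neg_neg] at h1
    have h2 : ((((2 * Real.pi) ^ d)⁻¹ : ℝ) : ℂ) ≠ 0 := by
      have := Real.pi_pos
      exact Complex.ofReal_ne_zero.2 (by positivity)
    refine (mul_eq_zero.1 (h1.trans ?_)).resolve_left h2
    push_cast
    ring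
  intro x hx
  have := Orth_zero_Wi5 hO x hx
  linarith

theorem cf_per (h : Summable fun k => ‖cf φ k‖) : cf (per φ) = cf φ := cf_per_Wi5 h

theorem cf_eq_integral (hs : ∀ x, x ∉ ball (0 : E d) 3 → φ x = 0) (k : Fin d → ℤ) :
    cf φ k = (((2 * Real.pi) ^ d)⁻¹ : ℝ) * ∫ x, ek (-k) x * φ x := by
  rw [cf, setIntegral_eq_integral_of_forall_compl_eq_zero]
  intro x hx
  rw [hs x fun h => hx (ocube_subset_cube (ball_subset_ocube h))]
  simp

theorem pd_zero_Wi5 {r : ℝ} (hs : ∀ x, x ∉ closedBall (0 : E d) r → φ x = 0) (i : Fin d) :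
    ∀ x, x ∉ closedBall (0 : E d) r → pd i φ x = 0 := by
  intro x hx
  have h : φ =ᶠ[𝓝 x] fun _ => 0 := by
    filter_upwards [isClosed_closedBall.isOpen_compl.mem_nhds hx] with y hy using hs y hy
  rw [pd, h.fderiv_eq]
  simp

theorem integrable_Wi5 {r : ℝ} {g : E d → ℂ} (hg : Continuous g) {ψ : E d → ℝ}
    (hψ : Continuous ψ) (hs : ∀ x, x ∉ closedBall (0 : E d) r → ψ x = 0) :
    Integrable fun x => g x * (ψ x : ℂ) := by
  refine (hg.mul (Complex.continuous_ofReal.comp hψ)).integrable_of_hasCompactSupport ?_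
  refine HasCompactSupport.intro (isCompact_closedBall (0 : E d) r) fun x hx => ?_
  simp [hs x hx]

theorem continuous_pd_Wi5 (hφ : ContDiff ℝ 1 φ) (i : Fin d) : Continuous (pd i φ) :=
  (hφ.continuous_fderiv one_ne_zero).clm_apply continuous_const

theorem cf_pd_cs (hφ : ContDiff ℝ 1 φ) (hs : ∀ x, x ∉ ball (0 : E d) (29 / 10) → φ x = 0)
    (i : Fin d) (k : Fin d → ℤ) : cf (pd i φ) k = Complex.I * (k i : ℝ) * cf φ k := by
  have hs' : ∀ x, x ∉ closedBall (0 : E d) (29 / 10) → φ x = 0 := fun x hx =>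
    hs x fun h => hx (ball_subset_closedBall h)
  have hsub : closedBall (0 : E d) (29 / 10) ⊆ ball 0 3 := closedBall_subset_ball (by norm_num)
  have hp := pd_zero_Wi5 hs' i
  have hd : Differentiable ℝ φ := hφ.differentiable one_ne_zero
  have hek : Differentiable ℝ (ek (-k)) := (contDiff_ek (-k)).differentiable (by simp)
  have hf : ∀ x, fderiv ℝ (fun y => (φ y : ℂ)) x (eb i) = (pd i φ x : ℂ) := by
    intro x
    have := (Complex.ofRealCLM.hasFDerivAt.comp x (hd x).hasFDerivAt).fderiv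
    change fderiv ℝ (Complex.ofRealCLM ∘ φ) x (eb i) = _
    rw [this]
    rfl
  have he : ∀ x, fderiv ℝ (ek (-k)) x (eb i) = (-(Complex.I * (k i : ℝ))) * ek (-k) x := by
    intro x
    rw [fderiv_ek, kx_eb]
    simp only [Pi.neg_apply]
    push_cast
    ring
  have hce : Continuous (ek (-k)) := (contDiff_ek (-k)).continuous
  have key := integral_mul_fderiv_eq_neg_fderiv_mul_of_integrable (μ := (volume : Measure (E d)))
    (f := ek (-k)) (g := fun y => (φ y : ℂ)) (v := eb i) ?_ ?_ ?_ (fun x _ => hek x)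
    (fun x _ => (Complex.ofRealCLM.differentiable.comp hd) x)
  · rw [cf_eq_integral (fun x hx => hp x fun h => hx (hsub h)),
      cf_eq_integral (fun x hx => hs' x fun h => hx (hsub h))]
    simp only [hf, he, mul_assoc] at key
    rw [key, integral_const_mul]
    ring
  · simp only [he]
    exact integrable_Wi5 (continuous_const.mul hce) hφ.continuous hs'
  · simp only [hf]
    exact integrable_Wi5 hce (continuous_pd_Wi5 hφ i) hp
  · exact integrable_Wi5 hce hφ.continuous hs'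

theorem cf_decay_Wi5 (N : ℕ) : ∀ {φ : E d → ℝ}, ContDiff ℝ N φ →
    (∀ x, x ∉ closedBall (0 : E d) (14 / 5) → φ x = 0) → ∀ {Λ : ℝ},
    (∀ j ≤ N, ∀ x, ‖iteratedFDeriv ℝ j φ x‖ ≤ Λ) → ∀ k : Fin d → ℤ,
    wk k ^ N * ‖cf φ k‖ ≤ (d + 1) ^ N * Λ := by
  induction N with
  | zero =>
    intro φ _ _ Λ h k
    simp only [pow_zero, one_mul]
    refine norm_cf_le (fun x _ => ?_) k
    have := h 0 le_rfl x
    rwa [norm_iteratedFDeriv_zero] at this
  | succ N ih =>
    intro φ hφ hs Λ h k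
    have hφ' : ContDiff ℝ (N + 1) φ := by exact_mod_cast hφ
    have h1 : ContDiff ℝ 1 φ := hφ'.of_le le_add_self
    have hD : ContDiff ℝ N (fderiv ℝ φ) := hφ'.fderiv_right le_rfl
    have hsub : closedBall (0 : E d) (14 / 5) ⊆ ball 0 (29 / 10) :=
      closedBall_subset_ball (by norm_num)
    have h0 := ih (hφ'.of_le le_self_add) hs (fun j hj => h j (by omega)) k
    have hi : ∀ i : Fin d, wk k ^ N * (|(k i : ℝ)| * ‖cf φ k‖) ≤ (d + 1) ^ N * Λ := by
      intro i
      have := ih (φ := pd i φ) (hD.clm_apply contDiff_const) (pd_zero_Wi5 hs i) (Λ := Λ)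
        (fun j hj x => ?_) k
      · rw [cf_pd_cs h1 (fun x hx => hs x fun h => hx (hsub h))] at this
        simpa using this
      · have h2 := norm_iteratedFDeriv_clm_apply_const (c := eb i) (n := j) (x := x)
          hD.contDiffAt (by exact_mod_cast hj)
        rw [norm_iteratedFDeriv_fderiv] at h2
        have h3 : ‖(eb i : E d)‖ = 1 := by simp [eb]
        rw [h3, one_mul] at h2
        exact h2.trans (h (j + 1) (by omega) x)
    have e : wk k ^ (N + 1) * ‖cf φ k‖ =
        wk k ^ N * ‖cf φ k‖ + ∑ i, wk k ^ N * (|(k i : ℝ)| * ‖cf φ k‖) := by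
      rw [← Finset.mul_sum, ← Finset.sum_mul, pow_succ]
      nth_rewrite 2 [wk]
      ring
    have hsum := Finset.sum_le_sum fun i (_ : i ∈ Finset.univ) => hi i
    simp only [Finset.sum_const, Finset.card_univ, Fintype.card_fin, nsmul_eq_mul] at hsum
    rw [e, pow_succ]
    linarith

theorem cf_decay {N : ℕ} (hφ : ContDiff ℝ N φ) (hs : ∀ x, x ∉ ball (0 : E d) (14 / 5) → φ x = 0)
    {Λ : ℝ} (h : ∀ j ≤ N, ∀ x, ‖iteratedFDeriv ℝ j φ x‖ ≤ Λ) (k : Fin d → ℤ) :
    wk k ^ N * ‖cf φ k‖ ≤ (d + 1) ^ N * Λ :=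
  cf_decay_Wi5 N hφ (fun x hx => hs x fun h => hx (ball_subset_closedBall h)) h k

theorem W_per (n : ℕ) : ∃ C : ℝ, 0 < C ∧ ∀ (φ : E d → ℝ) (Λ : ℝ), ContDiff ℝ (n + d + 1 : ℕ) φ →
    (∀ x, x ∉ ball (0 : E d) (14 / 5) → φ x = 0) →
    (∀ j ≤ n + d + 1, ∀ x, ‖iteratedFDeriv ℝ j φ x‖ ≤ Λ) →
    W n (per φ) ∧ nm n (per φ) ≤ C * Λ ∧ ∀ x ∈ ocube d, per φ x = φ x := by
  have hw : ∀ k : Fin d → ℤ, 0 < wk k := fun k => lt_of_lt_of_le one_pos (one_le_wk k)
  set S : ℝ := ∑' k : Fin d → ℤ, wk k ^ (-((d : ℤ) + 1)) with hS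
  have hS0 : 0 ≤ S := tsum_nonneg fun k => zpow_nonneg (hw k).le _
  refine ⟨(d + 1) ^ (n + d + 1) * S + 1, by positivity, fun φ Λ hφ hs h => ?_⟩
  have hΛ : 0 ≤ Λ := (norm_nonneg _).trans (h 0 (Nat.zero_le _) 0)
  have hb : ∀ k : Fin d → ℤ, wk k ^ n * ‖cf φ k‖ ≤
      (d + 1) ^ (n + d + 1) * Λ * wk k ^ (-((d : ℤ) + 1)) := by
    intro k
    have h1 := cf_decay hφ hs h k
    have h2 : wk k ^ (-((d : ℤ) + 1)) = (wk k ^ (d + 1))⁻¹ := by
      rw [zpow_neg]
      norm_cast
    have h3 : 0 < wk k ^ (d + 1) := pow_pos (hw k) _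
    rw [h2, ← div_eq_mul_inv, le_div_iff₀ h3]
    calc wk k ^ n * ‖cf φ k‖ * wk k ^ (d + 1) = wk k ^ (n + d + 1) * ‖cf φ k‖ := by ring
      _ ≤ _ := h1
  have hsm := (summable_wk (d := d)).mul_left ((d + 1) ^ (n + d + 1) * Λ)
  have hsum : Summable fun k => wk k ^ n * ‖cf φ k‖ :=
    Summable.of_nonneg_of_le (fun k => mul_nonneg (pow_pos (hw k) _).le (norm_nonneg _)) hb hsm
  refine ⟨W_ev hsum, ?_, per_eq hφ.continuous (fun x hx => hs x fun h => hx ?_) ?_⟩
  · refine (nm_ev_le hsum le_rfl).trans ?_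
    simp only [zpow_natCast]
    refine (hsum.tsum_le_tsum hb hsm).trans ?_
    rw [tsum_mul_left, ← hS]
    nlinarith
  · exact ball_subset_ball (by norm_num) h
  · refine Summable.of_nonneg_of_le (fun k => norm_nonneg _) (fun k => ?_) hsum
    exact le_mul_of_one_le_left (norm_nonneg _) (one_le_pow₀ (one_le_wk k))

theorem W_per_smooth (hφ : ContDiff ℝ ∞ φ) (hs : ∀ x, x ∉ ball (0 : E d) (14 / 5) → φ x = 0) :
    (∀ n, W n (per φ)) ∧ ∀ x ∈ ocube d, per φ x = φ x := by
  have hcs : HasCompactSupport φ :=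
    HasCompactSupport.intro (isCompact_closedBall (0 : E d) (14 / 5)) fun x hx =>
      hs x fun h => hx (ball_subset_closedBall h)
  have hb : ∀ j : ℕ, ∃ B : ℝ, ∀ x, ‖iteratedFDeriv ℝ j φ x‖ ≤ B := fun j =>
    (hφ.continuous_iteratedFDeriv (by exact_mod_cast le_top)).bounded_above_of_compact_support
      (hcs.iteratedFDeriv j)
  choose B hB using hb
  have key : ∀ n, W n (per φ) ∧ ∀ x ∈ ocube d, per φ x = φ x := by
    intro n
    obtain ⟨C, -, hC⟩ := W_per (d := d) n
    have := hC φ (∑ j ∈ Finset.range (n + d + 2), B j) (hφ.of_le (by exact_mod_cast le_top)) hs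
      fun j hj x => (hB j x).trans (Finset.single_le_sum (f := B)
        (fun i _ => (norm_nonneg _).trans (hB i 0)) (Finset.mem_range.2 (by omega)))
    exact ⟨this.1, this.2.2⟩
  exact ⟨fun n => (key n).1, (key 0).2⟩

end Pool.Agent.Lib.MP_8daebb_an.GM.Ch
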