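import Pool.Agent.Lib.MP_8daebb_an.GM.Wi8
import Pool.Agent.Lib.MP_8daebb_an.GM.Wi5

/-! The right inverse of the Laplacian. -/

open MeasureTheory Metric Set Filter Topology
open scoped RealInnerProductSpace ContDiff ENNReal

namespace Pool.Agent.Lib.MP_8daebb_an.GM.Ch

variable {d : ℕ} {X Y Z : Type*} [NormedAddCommGroup X] [NormedSpace ℝ X] [FiniteDimensional ℝ X]
  [NormedAddCommGroup Y] [NormedSpace ℝ Y] [FiniteDimensional ℝ Y]
  [NormedAddCommGroup Z] [NormedSpace ℝ Z] [FiniteDimensional ℝ Z]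

theorem k2_zero_WiR : k2 (0 : Fin d → ℤ) = 0 := by simp [k2]

theorem k2_neg_WiR (k : Fin d → ℤ) : k2 (-k) = k2 k := by simp [k2]

theorem term_WiR (f : E d → ℝ) (σ : ℤ) (k : Fin d → ℤ) :
    wk k ^ (σ + 2) * ‖-cf f k / (k2 k : ℝ)‖ ≤ (d + 1) ^ 2 * (wk k ^ σ * ‖cf f k‖) := by
  have hw : 0 < wk k := one_pos.trans_le (one_le_wk k)
  by_cases hk : k = 0
  · subst hk
    rw [k2_zero_WiR]
    simp only [Complex.ofReal_zero, div_zero, norm_zero, mul_zero]
    positivity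
  · obtain ⟨h1, h2⟩ := wk_sq_le hk
    have h0 : 0 < k2 k := one_pos.trans_le h1
    rw [norm_div, norm_neg, Complex.norm_real, Real.norm_eq_abs, abs_of_pos h0,
      zpow_add₀ hw.ne', mul_div_assoc', div_le_iff₀ h0, zpow_ofNat]
    have h3 : 0 ≤ wk k ^ σ * ‖cf f k‖ := by positivity
    calc wk k ^ σ * wk k ^ 2 * ‖cf f k‖ = wk k ^ σ * ‖cf f k‖ * wk k ^ 2 := by ring
      _ ≤ wk k ^ σ * ‖cf f k‖ * ((d + 1) ^ 2 * k2 k) := mul_le_mul_of_nonneg_left h2 h3
      _ = _ := by ring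

theorem summ_WiR {f : E d → ℝ} {n : ℕ} (h : W n f) {σ : ℤ} (hσ : σ ≤ n) :
    Summable fun k => wk k ^ (σ + 2) * ‖-cf f k / (k2 k : ℝ)‖ :=
  Summable.of_nonneg_of_le
    (fun k => mul_nonneg (zpow_nonneg (zero_le_one.trans (one_le_wk k)) _) (norm_nonneg _))
    (term_WiR f σ) ((h.summable hσ).mul_left _)

theorem summ_nat_WiR {f : E d → ℝ} {n : ℕ} (h : W n f) :
    Summable fun k => wk k ^ (n + 2) * ‖-cf f k / (k2 k : ℝ)‖ := by
  have := summ_WiR h (σ := n) le_rfl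
  refine this.congr fun k => ?_
  rw [← zpow_natCast]
  norm_cast

theorem summ_norm_WiR {f : E d → ℝ} {n : ℕ} (h : W n f) :
    Summable fun k => ‖-cf f k / (k2 k : ℝ)‖ := by
  have := summ_WiR h (σ := -2) (by omega)
  simpa using this

theorem nm_add_le_WiR {f g : E d → ℝ} {n : ℕ} (hf : W n f) (hg : W n g) {σ : ℤ} (hσ : σ ≤ n) :
    nm σ (fun x => f x + g x) ≤ nm σ f + nm σ g := by
  unfold nm nw
  rw [← (hf.summable hσ).tsum_add (hg.summable hσ)]
  refine ((hf.add hg).summable hσ).tsum_le_tsum (fun k => ?_)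
    ((hf.summable hσ).add (hg.summable hσ))
  rw [cf_add hf.continuous hg.continuous, ← mul_add]
  exact mul_le_mul_of_nonneg_left (norm_add_le _ _)
    (zpow_nonneg (zero_le_one.trans (one_le_wk k)) _)

theorem lap_add_WiR {u q : E d → ℝ} (hu : W 2 u) (hq : W 2 q) (a : ℝ) (x : E d) :
    lapv (fun y => u y + a * q y) x = lapv u x + a * lapv q x := by
  obtain ⟨h1, h2⟩ := W.lap (n := 0) (hu.add (hq.const_mul a))
  obtain ⟨h3, h4⟩ := W.lap (n := 0) hu
  obtain ⟨h5, h6⟩ := W.lap (n := 0) hq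
  have h7 := (h3.rep x).add ((h5.rep x).mul_left (a : ℂ))
  have h8 := h1.rep x
  have h9 : (fun k => cf (lapv fun y => u y + a * q y) k * ek k x) =
      fun k => cf (lapv u) k * ek k x + a * (cf (lapv q) k * ek k x) := by
    funext k
    rw [h2, h4, h6, cf_add hu.continuous (hq.const_mul a).continuous, cf_const_mul]
    ring
  rw [h9] at h8
  exact_mod_cast h8.unique h7

theorem lap_ev_WiR {f : E d → ℝ} (h : W 0 f) (x : E d) :
    lapv (ev fun k => -cf f k / (k2 k : ℝ)) x = f x - (cf f 0).re := by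
  classical
  obtain ⟨h1, h2⟩ := W.lap (n := 0) (W_ev (summ_nat_WiR h))
  have h3 := h1.rep x
  have h4 : (fun k => cf (lapv (ev fun k => -cf f k / (k2 k : ℝ))) k * ek k x) =
      fun k => cf f k * ek k x - if k = 0 then cf f 0 else 0 := by
    funext k
    rw [h2, cf_ev (summ_norm_WiR h)]
    simp only [k2_neg_WiR, cf_neg_conj, map_div₀, map_neg, Complex.conj_conj, Complex.conj_ofReal]
    by_cases hk : k = 0
    · subst hk
      simp [k2_zero_WiR, ek_zero]
    · have h0 : ((k2 k : ℝ) : ℂ) ≠ 0 := by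
        exact_mod_cast (one_pos.trans_le (wk_sq_le hk).1).ne'
      rw [if_neg hk]
      field_simp
      ring
  rw [h4] at h3
  have h5 := h3.unique ((h.rep x).sub (hasSum_ite_eq 0 (cf f 0)))
  simpa using congrArg Complex.re h5

theorem lap_sq_WiR (hd : 1 ≤ d) (x : E d) :
    lapv (fun z : E d => ‖z‖ ^ 2 / (2 * d : ℝ)) x = 1 := by
  have hd0 : (d : ℝ) ≠ 0 := by
    have : (0 : ℝ) < d := by exact_mod_cast hd
    exact this.ne'
  rw [lapv_eq ((contDiff_norm_sq ℝ).div_const _)]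
  have h1 : ∀ i : Fin d, pd i (fun z : E d => ‖z‖ ^ 2 / (2 * d : ℝ)) =
      fun z => ((d : ℝ)⁻¹ • (EuclideanSpace.proj i : E d →L[ℝ] ℝ)) z := by
    intro i
    funext z
    have := ((hasStrictFDerivAt_norm_sq z).hasFDerivAt.mul_const (2 * d : ℝ)⁻¹).fderiv
    simp only [pd, div_eq_mul_inv]
    rw [this]
    simp [EuclideanSpace.inner_single_right]
    field_simp
  have h2 : ∀ i : Fin d, pd i (pd i (fun z : E d => ‖z‖ ^ 2 / (2 * d : ℝ))) x = (d : ℝ)⁻¹ := by
    intro i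
    rw [h1, pd, ContinuousLinearMap.fderiv]
    simp
  simp [h2, hd0]

theorem bump_WiR : (∀ n, W n (per fun z : E d => bumpR d z * (‖z‖ ^ 2 / (2 * d)))) ∧
    ∀ x ∈ ocube d, per (fun z : E d => bumpR d z * (‖z‖ ^ 2 / (2 * d))) x =
      bumpR d x * (‖x‖ ^ 2 / (2 * d)) := by
  refine W_per_smooth ((bumpR d).contDiff.mul ((contDiff_norm_sq ℝ).div_const _)) fun x hx => ?_
  rw [(bumpR d).zero_of_le_dist (by simpa [bumpR] using hx), zero_mul]

theorem lap_bump_WiR (hd : 1 ≤ d) {x : E d} (hx : x ∈ ball (0 : E d) (13 / 5)) :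
    lapv (per fun z : E d => bumpR d z * (‖z‖ ^ 2 / (2 * d))) x = 1 := by
  have h : (per fun z : E d => bumpR d z * (‖z‖ ^ 2 / (2 * d))) =ᶠ[𝓝 x]
      fun z : E d => ‖z‖ ^ 2 / (2 * d : ℝ) := by
    filter_upwards [isOpen_ball.mem_nhds hx] with z hz
    rw [bump_WiR.2 z (ball_subset_ocube (ball_subset_ball (by norm_num) hz)),
      (bumpR d).one_of_mem_closedBall (ball_subset_closedBall hz), one_mul]
  rw [← lap_sq_WiR hd x]
  unfold lapv d2
  rw [h.fderiv.fderiv_eq]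

theorem R0_spec (hd : 1 ≤ d) (n : ℕ) : ∃ C : ℝ, 0 < C ∧ ∀ f : E d → ℝ, W n f →
    W (n + 2) (R0 f) ∧ (∀ σ : ℤ, σ ≤ n → nm (σ + 2) (R0 f) ≤ C * nm σ f) ∧
      ∀ x ∈ ball (0 : E d) (13 / 5), lapv (R0 f) x = f x := by
  set q : E d → ℝ := per fun z : E d => bumpR d z * (‖z‖ ^ 2 / (2 * d)) with hq
  have hW : ∀ n, W n q := bump_WiR.1
  have hq0 := nm_nonneg (n + 2 : ℕ) q
  refine ⟨(d + 1) ^ 2 + nm (n + 2 : ℕ) q, by positivity, fun f hf => ?_⟩
  have hu : W (n + 2) (ev fun k => -cf f k / (k2 k : ℝ)) := W_ev (summ_nat_WiR hf)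
  have hR : R0 f = fun x => ev (fun k => -cf f k / (k2 k : ℝ)) x + (cf f 0).re * q x := rfl
  rw [hR]
  refine ⟨hu.add ((hW _).const_mul _), fun σ hσ => ?_, fun x hx => ?_⟩
  · have hσ' : σ + 2 ≤ (n + 2 : ℕ) := by push_cast; omega
    refine (nm_add_le_WiR hu ((hW _).const_mul _) hσ').trans ?_
    have h1 : nm (σ + 2) (ev fun k => -cf f k / (k2 k : ℝ)) ≤ (d + 1) ^ 2 * nm σ f := by
      refine (nm_ev_le (summ_nat_WiR hf) hσ').trans ?_
      unfold nm nw
      rw [← tsum_mul_left]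
      exact (summ_WiR hf hσ).tsum_le_tsum (term_WiR f σ) ((hf.summable hσ).mul_left _)
    have h2 : |(cf f 0).re| ≤ nm σ f := by
      have := hf.term_le hσ 0
      rw [wk_zero, one_zpow, one_mul] at this
      exact (Complex.abs_re_le_norm _).trans this
    have h3 : nm (σ + 2) (fun x => (cf f 0).re * q x) ≤ nm σ f * nm (n + 2 : ℕ) q := by
      unfold nm
      rw [nw_const_mul]
      exact mul_le_mul h2 ((hW (n + 2)).nm_mono hσ' le_rfl) (nm_nonneg _ _) (nm_nonneg _ _)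
    linarith
  · rw [lap_add_WiR (hu.mono (by omega)) (hW 2), lap_ev_WiR (hf.mono (Nat.zero_le _)),
      lap_bump_WiR hd hx]
    ring

theorem R0_sub {f g : E d → ℝ} (hf : W 0 f) (hg : W 0 g) :
    R0 (fun x => f x - g x) = fun x => R0 f x - R0 g x := by
  have hc : ∀ k, cf (fun x => f x - g x) k = cf f k - cf g k := fun k => by
    have h : (fun x => f x - g x) = fun x => f x + (-1) * g x := by funext x; ring
    rw [h, cf_add hf.continuous (hg.const_mul _).continuous, cf_const_mul]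
    push_cast
    ring
  have hs : ∀ {f : E d → ℝ}, W 0 f → ∀ x, Summable fun k => -cf f k / (k2 k : ℝ) * ek k x :=
    fun hf x => Summable.of_norm (by
      simpa only [norm_mul, norm_ek, mul_one] using summ_norm_WiR hf)
  funext x
  have h1 : ev (fun k => -cf (fun x => f x - g x) k / (k2 k : ℝ)) x =
      ev (fun k => -cf f k / (k2 k : ℝ)) x - ev (fun k => -cf g k / (k2 k : ℝ)) x := by
    unfold ev
    rw [← Complex.sub_re, ← (hs hf x).tsum_sub (hs hg x)]
    congr 2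
    funext k
    simp only [hc]
    ring
  unfold R0
  rw [h1, hc, Complex.sub_re]
  ring

theorem co_Rv (f : E d → X) (i : Fin (Module.finrank ℝ X)) (x : E d) :
    co X i (Rv f x) = R0 (fun z => co X i (f z)) x := by
  have h : ∀ j, co X i (Module.finBasis ℝ X j) = if j = i then 1 else 0 := fun j => by
    simp [co, Finsupp.single_apply]
  unfold Rv
  simp only [map_sum, map_smul, h, smul_eq_mul, mul_ite, mul_one, mul_zero,
    Finset.sum_ite_eq', Finset.mem_univ, if_true]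

theorem Rv_spec (hd : 1 ≤ d) (n : ℕ) : ∃ C : ℝ, 0 < C ∧ ∀ f : E d → X, Wv n f →
    Wv (n + 2) (Rv f) ∧ (∀ σ : ℤ, σ ≤ n → nv (σ + 2) (Rv f) ≤ C * nv σ f) ∧
      ∀ x ∈ ball (0 : E d) (13 / 5), lapv (Rv f) x = f x := by
  obtain ⟨C, C0, hC⟩ := R0_spec hd n
  refine ⟨C, C0, fun f hf => ?_⟩
  have he : ∀ i, (fun x => co X i (Rv f x)) = R0 fun z => co X i (f z) :=
    fun i => funext (co_Rv f i)
  have hW : Wv (n + 2) (Rv f) := Wv_of_co fun i => by
    rw [he]
    exact (hC _ (hf _)).1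
  refine ⟨hW, fun σ hσ => ?_, fun x hx => ?_⟩
  · unfold nv nwv
    rw [Finset.mul_sum]
    refine Finset.sum_le_sum fun i _ => ?_
    rw [he]
    exact (hC _ (hf _)).2.1 σ hσ
  · have h2 : ContDiff ℝ 2 (Rv f) := by
      simpa using (hW.mono (n' := 2) (by omega)).contDiff
    rw [← sum_co (lapv (Rv f) x), ← sum_co (f x)]
    refine Finset.sum_congr rfl fun i _ => ?_
    rw [co_lapv h2, he, (hC _ (hf _)).2.2 x hx]

theorem Rv_sub {f g : E d → X} (hf : Wv 0 f) (hg : Wv 0 g) :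
    Rv (fun x => f x - g x) = fun x => Rv f x - Rv g x := by
  funext x
  unfold Rv
  rw [← Finset.sum_sub_distrib]
  refine Finset.sum_congr rfl fun i _ => ?_
  simp only [map_sub]
  rw [R0_sub (hf _) (hg _), sub_smul]

end Pool.Agent.Lib.MP_8daebb_an.GM.Ch
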