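import Pool.Agent.Lib.MP_8daebb_an.GM.Sy2
import Pool.Agent.Lib.MP_8daebb_an.GM.WiR

/-! The linear and the nonlinear solver. -/

open MeasureTheory Metric Set Filter Topology
open scoped RealInnerProductSpace ContDiff ENNReal

namespace Pool.Agent.Lib.MP_8daebb_an.GM.Ch

variable {d n : ℕ}

theorem apriori_J : ∃ ε₀ C : ℝ, 0 < ε₀ ∧ 0 < C ∧ ∀ (s : ℕ) (u v : E d → E n) (ε : ℝ), Sml s u ε →
    ε ≤ ε₀ → Wv (s + 2) v → ∀ σ τ : ℤ, |σ| ≤ s → τ ≤ s + 2 →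
    nv (σ + 2) v ≤ C * (nv σ (JJ u v) + nv τ v) := by
  obtain ⟨ε₁, C₁, e1, c1, H⟩ := PL_le (d := d) (n := n)
  have hD : (0 : ℝ) < ((d : ℝ) + 1) ^ 2 := by positivity
  refine ⟨min ε₁ (1 / (2 * ((d : ℝ) + 1) ^ 2 * C₁)), 2 * ((d : ℝ) + 1) ^ 2 + 2,
    lt_min e1 (by positivity), by positivity, fun s u v ε hu hε hv σ τ hσ hτ => ?_⟩
  obtain ⟨w1, w2, w3⟩ := H s u v ε hu (hε.trans (min_le_left _ _)) hv
  have hσ' : σ ≤ s := (le_abs_self σ).trans hσ
  have a := hv.apriori hσ' hτ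
  have e : lapv v = fun x => JJ u v x - PL u v x := by
    funext x
    rw [JJ, add_sub_cancel_right]
  have b := nv_sub_le w2 w1 hσ'
  rw [← e] at b
  have c := w3 σ hσ
  have h2 := hε.trans (min_le_right _ _)
  rw [le_div_iff₀ (by positivity)] at h2
  have n1 := nv_nonneg (σ + 2) v
  have n2 := nv_nonneg σ (JJ u v)
  have n3 := nv_nonneg τ v
  have k1 := mul_le_mul_of_nonneg_left (b.trans (add_le_add le_rfl c)) hD.le
  have k2 := mul_le_mul_of_nonneg_right h2 n1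
  have k3 := mul_nonneg hD.le n3
  nlinarith

theorem lin_solve (hd : 1 ≤ d) (s : ℕ) : ∃ ε₀ C : ℝ, 0 < ε₀ ∧ 0 < C ∧
    ∀ (u h : E d → E n) (ε : ℝ), Sml s u ε → ε ≤ ε₀ → Wv s h → ∃ w : E d → E n, Wv (s + 2) w ∧
      (∀ x ∈ ball (0 : E d) (13 / 5), JJ u w x = h x) ∧
      ∀ σ : ℤ, |σ| ≤ s → nv (σ + 2) w ≤ C * nv σ h := by
  obtain ⟨ε₁, C₁, e1, c1, H⟩ := PL_le (d := d) (n := n)
  obtain ⟨R, r0, HR⟩ := Rv_spec (X := E n) hd s
  refine ⟨min ε₁ (1 / (2 * R * C₁)), 2 * R, lt_min e1 (by positivity), by positivity,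
    fun u h ε hu hε hh => ?_⟩
  have h1 := hε.trans (min_le_left _ _)
  have h2 := hε.trans (min_le_right _ _)
  rw [le_div_iff₀ (by positivity)] at h2
  have key : ∀ f : E d → E n, Wv s f → Wv s (PL u (Rv f)) ∧
      ∀ σ : ℤ, |σ| ≤ s → nv σ (PL u (Rv f)) ≤ 1 / 2 * nv σ f := fun f hf => by
    obtain ⟨a1, a2, -⟩ := HR f hf
    obtain ⟨w1, -, w3⟩ := H s u (Rv f) ε hu h1 a1
    refine ⟨w1, fun σ hσ => (w3 σ hσ).trans ?_⟩
    have k1 := mul_le_mul_of_nonneg_left (a2 σ ((le_abs_self σ).trans hσ))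
      (mul_nonneg c1.le hu.nonneg)
    have k2 := mul_le_mul_of_nonneg_right h2 (nv_nonneg σ f)
    nlinarith
  have hs : |(s : ℤ)| ≤ s := (abs_of_nonneg (Int.natCast_nonneg s)).le
  obtain ⟨f, f1, -, f3⟩ := exists_fix (n := s) (γ := 2 * nv s h)
    (by have := nv_nonneg s h; positivity) (fun f x => h x - PL u (Rv f) x)
    (fun f hf hγ => ⟨hh.sub (key f hf).1, by
      have a := nv_sub_le hh (key f hf).1 (σ := s) le_rfl
      have b := (key f hf).2 s hs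
      linarith⟩)
    (fun f f' hf _ hf' _ => by
      have a := (key _ (hf'.sub hf)).2 s hs
      rw [Rv_sub (hf'.mono (Nat.zero_le _)) (hf.mono (Nat.zero_le _)),
        (PL_sub u (HR f' hf').1.two_Wi8 (HR f hf).1.two_Wi8).1, nv_sub_comm s f' f] at a
      simpa only [sub_sub_sub_cancel_left] using a)
  obtain ⟨a1, a2, a3⟩ := HR f f1
  refine ⟨Rv f, a1, fun x hx => ?_, fun σ hσ => ?_⟩
  · rw [JJ, a3 x hx, ← congrFun f3 x, sub_add_cancel]
  · have hσ' : σ ≤ s := (le_abs_self σ).trans hσ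
    have a := nv_sub_le hh (key f f1).1 hσ'
    rw [f3] at a
    have b := (key f f1).2 σ hσ
    have c := mul_le_mul_of_nonneg_left (show nv σ f ≤ 2 * nv σ h by linarith) r0.le
    linarith [a2 σ hσ']

theorem nonlin_solve (hd : 1 ≤ d) (s : ℕ) : ∃ ε₀ C : ℝ, 0 < ε₀ ∧ 0 < C ∧
    ∀ (u z : E d → E n) (ε γ : ℝ), Sml s u ε → Sml s z γ → ε ≤ ε₀ → γ ≤ ε₀ →
    ∃ r : E d → E n, Sml s r (C * γ ^ 2) ∧ ∀ x ∈ ball (0 : E d) (13 / 5), NN u x = 0 →
      JJ u z x = 0 → NN (fun y => u y + z y + r y) x = 0 := by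
  obtain ⟨ε₁, C₁, e1, -, H⟩ := PL_le (d := d) (n := n)
  obtain ⟨ε₂, C₂, e2, c2, HL⟩ := PP_lip (d := d) (n := n)
  obtain ⟨ε₃, C₃, e3, c3, HQ⟩ := PP_quad (d := d) (n := n)
  obtain ⟨R, r0, HR⟩ := Rv_spec (X := E n) hd s
  obtain ⟨ε₀, p0, p1, p2, p3, p4, p5⟩ : ∃ ε₀ : ℝ, 0 < ε₀ ∧ ε₀ ≤ ε₁ ∧ ε₀ ≤ ε₂ / 3 ∧ ε₀ ≤ ε₃ ∧
      ε₀ ≤ 1 / (2 * R * C₃) ∧ ε₀ ≤ 1 / (6 * R * C₂) :=
    ⟨min ε₁ (min (ε₂ / 3) (min ε₃ (min (1 / (2 * R * C₃)) (1 / (6 * R * C₂))))),
      by positivity, by simp, by simp, by simp, by simp, by simp⟩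
  rw [le_div_iff₀ (by positivity)] at p4 p5
  refine ⟨ε₀, 2 * R * C₃, p0, by positivity, fun u z ε γ hu hz hε hγ => ?_⟩
  have g0 := hz.nonneg
  have q := HQ s u z ε γ hu hz (hε.trans p3) (hγ.trans p3)
  have wl := (H s u z ε hu (hε.trans p1) hz.w).1
  have h3 : 3 * ε₀ ≤ ε₂ := by linarith
  have hu' : Sml s u (3 * ε₀) := hu.mono (by linarith)
  have huz : Sml s (fun x => u x + z x) (3 * ε₀) := (hu.add hz).mono (by linarith)
  have wu := (HL s u u _ hu' hu' h3).1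
  have wuz := (HL s _ _ _ huz huz h3).1
  have sr : ∀ f : E d → E n, Wv s f → nv s f ≤ 2 * C₃ * γ ^ 2 →
      Sml s (Rv f) (2 * R * C₃ * γ ^ 2) := fun f hf hb =>
    ⟨(HR f hf).1, ((HR f hf).2.1 s le_rfl).trans
      ((mul_le_mul_of_nonneg_left hb r0.le).trans (le_of_eq (by ring)))⟩
  have sm : ∀ f : E d → E n, Wv s f → nv s f ≤ 2 * C₃ * γ ^ 2 →
      Sml s (fun x => u x + z x + Rv f x) (3 * ε₀) := fun f hf hb => by
    refine ((hu.add hz).add (sr f hf hb)).mono ?_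
    have k1 : γ ^ 2 ≤ ε₀ ^ 2 := pow_le_pow_left₀ g0 hγ 2
    have k2 := mul_le_mul_of_nonneg_left k1 (show 0 ≤ 2 * R * C₃ by positivity)
    have k3 := mul_le_mul_of_nonneg_right p4 p0.le
    nlinarith
  have half : ∀ g : E d → E n, Wv s g →
      C₂ * (3 * ε₀) * nv (s + 2) (Rv g) ≤ 1 / 2 * nv s g := fun g hg => by
    have k1 := mul_le_mul_of_nonneg_left ((HR g hg).2.1 s le_rfl)
      (show 0 ≤ C₂ * (3 * ε₀) by positivity)
    have k2 := mul_le_mul_of_nonneg_right p5 (nv_nonneg s g)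
    nlinarith
  obtain ⟨f, f1, f2, f3⟩ := exists_fix (n := s) (γ := 2 * C₃ * γ ^ 2) (by positivity)
    (fun f x => -(PP (fun y => u y + z y + Rv f y) x - PP u x - PL u z x))
    (fun f hf hb => by
      obtain ⟨w, a⟩ := HL s _ _ _ (sm f hf hb) huz h3
      refine ⟨((w.sub wu).sub wl).neg, ?_⟩
      simp only [add_sub_cancel_left] at a
      have b := nv_add_le (w.sub wuz) ((wuz.sub wu).sub wl) (σ := s) le_rfl
      have e : (fun x => PP (fun y => u y + z y + Rv f y) x - PP (fun y => u y + z y) x +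
          (PP (fun y => u y + z y) x - PP u x - PL u z x)) =
          fun x => PP (fun y => u y + z y + Rv f y) x - PP u x - PL u z x := by
        funext x
        abel
      rw [e] at b
      rw [nv_neg]
      linarith [half f hf])
    (fun f f' hf hb hf' hb' => by
      have a := (HL s _ _ _ (sm f' hf' hb') (sm f hf hb) h3).2
      simp only [add_sub_add_left_eq_sub] at a
      have b := half _ (hf'.sub hf)
      rw [Rv_sub (hf'.mono (Nat.zero_le _)) (hf.mono (Nat.zero_le _)), nv_sub_comm s f' f] at b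
      have e : (fun x => -(PP (fun y => u y + z y + Rv f y) x - PP u x - PL u z x) -
          -(PP (fun y => u y + z y + Rv f' y) x - PP u x - PL u z x)) =
          fun x => PP (fun y => u y + z y + Rv f' y) x - PP (fun y => u y + z y + Rv f y) x := by
        funext x
        abel
      rw [e]
      exact a.trans b)
  refine ⟨Rv f, sr f f1 f2, fun x hx h1 h2 => ?_⟩
  rw [NN_eq] at h1
  rw [JJ] at h2
  rw [NN_eq, lapv_add huz.w.two_Wi8 (HR f f1).1.two_Wi8, lapv_add hu.w.two_Wi8 hz.w.two_Wi8,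
    (HR f f1).2.2 x hx, ← congrFun f3 x]
  calc _ = (lapv u x + PP u x) + (lapv z x + PL u z x) := by abel
    _ = 0 := by rw [h1, h2, add_zero]

end Pool.Agent.Lib.MP_8daebb_an.GM.Ch
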