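import Pool.Agent.Lib.MP_8daebb_an.GM.Sy3
import Pool.Agent.Lib.MP_8daebb_an.GM.Sy4
import Pool.Agent.Lib.MP_8daebb_an.GM.Wi6

/-! The interior estimate. -/

open MeasureTheory Metric Set Filter Topology
open scoped RealInnerProductSpace ContDiff ENNReal

namespace Pool.Agent.Lib.MP_8daebb_an.GM.Ch

variable {d n : ℕ}

theorem comm_eq_Sy5 {u v : E d → E n} {x₀ : E d} {A : E d →L[ℝ] E d} {r₀ r₁ r₂ r₃ : ℝ}
    {χ₁ χ₂ : E d → ℝ} (h₁ : Cut χ₁ (el x₀ A r₀) (el x₀ A r₁))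
    (h₂ : Cut χ₂ (el x₀ A r₂) (el x₀ A r₃)) (h12 : r₁ < r₂) (h23 : r₂ ≤ r₃)
    (hJ : ∀ x ∈ el x₀ A r₃, JJ u v x = 0) :
    EqOn (JJ u fun x => χ₁ x • v x) (CM u χ₁ fun x => χ₂ x • v x) (ocube d) := by
  intro x hx
  by_cases h : x ∈ el x₀ A r₂
  · have e : (fun x => χ₂ x • v x) =ᶠ[𝓝 x] v := by
      filter_upwards [(isOpen_el x₀ A r₂).mem_nhds h] with y hy
      rw [h₂.one y hy, one_smul]
    rw [CM_congr u χ₁ e, CM, hJ x (el_mono h23 h), smul_zero, sub_zero]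
  · have ho : IsOpen {y : E d | r₁ < ‖Ring.inverse A (y - x₀)‖} :=
      isOpen_lt continuous_const (by fun_prop)
    have hx' : x ∈ {y : E d | r₁ < ‖Ring.inverse A (y - x₀)‖} :=
      lt_of_lt_of_le h12 (not_lt.1 h)
    have e : χ₁ =ᶠ[𝓝 x] fun _ => 0 := by
      filter_upwards [ho.mem_nhds hx', isOpen_ocube.mem_nhds hx] with y hy hy'
      exact h₁.zero y hy' (not_lt.2 (le_of_lt hy))
    rw [(CM_zero u v e).2, (CM_zero u _ e).1]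

theorem num_Sy5 {a m c C l N : ℝ} {K₀ K : ℕ} (ha : 0 < a) (hc : 0 < c)
    (hl : 0 < l) (hl1 : l ≤ 1) (hN : 0 ≤ N) :
    a * (m * (c / (l / 3) ^ K₀) * (C / (l / 3) ^ K * N) + c / (l / 3) ^ K₀ * N) ≤
      a * c * 3 ^ K₀ * (m * C * 3 ^ K + 1) / l ^ (K₀ + K) * N := by
  have h1 : l ^ K ≤ 1 := pow_le_one₀ hl.le hl1
  have e1 : a * (m * (c / (l / 3) ^ K₀) * (C / (l / 3) ^ K * N) + c / (l / 3) ^ K₀ * N) =
      a * c * 3 ^ K₀ * (m * C * 3 ^ K + l ^ K) / l ^ (K₀ + K) * N := by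
    rw [div_pow, div_pow, pow_add]
    field_simp
  rw [e1]
  gcongr

theorem interior_step (s : ℕ) : ∃ ε₀ : ℝ, 0 < ε₀ ∧ ∀ j : ℕ, j ≤ 2 * s → ∃ (C : ℝ) (K : ℕ), 0 < C ∧
    ∀ (u v : E d → E n) (ε : ℝ) (x₀ : E d) (A : E d →L[ℝ] E d) (r l : ℝ), Sml s u ε → ε ≤ ε₀ →
    Wv (s + 2) v → Fr x₀ A → 0 ≤ r → 0 < l → l ≤ 1 → r + l ≤ 9 / 4 →
    (∀ x ∈ el x₀ A (r + l), JJ u v x = 0) →
    ∃ χ : E d → ℝ, Cut χ (el x₀ A r) (el x₀ A (r + l)) ∧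
      nv (2 - s + j) (fun x => χ x • v x) ≤ C / l ^ K * nv (2 - s) v := by
  obtain ⟨ε₁, a, hε₁, ha, hapr⟩ := apriori_J (d := d) (n := n)
  obtain ⟨ε₂, m, hε₂, hm, hcm⟩ := CM_le (d := d) (n := n)
  obtain ⟨ε₃, p, hε₃, -, hpl⟩ := PL_le (d := d) (n := n)
  obtain ⟨c, hc, hcut⟩ := exists_cut (d := d) (s + 2)
  have hτ : |(2 - s : ℤ)| ≤ (s + 2 : ℕ) := by
    push_cast
    exact abs_le.2 ⟨by omega, by omega⟩
  refine ⟨min ε₁ (min ε₂ ε₃), lt_min hε₁ (lt_min hε₂ hε₃), fun j => ?_⟩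
  induction j with
  | zero =>
    refine fun _ => ⟨c, 2 * (s + 2 + d + 1), hc, fun u v ε x₀ A r l _ _ hv hA hr hl _ hrl _ => ?_⟩
    obtain ⟨χ, hχ, hχn⟩ := hcut x₀ A r l hA hr hl hrl
    refine ⟨χ, hχ, ?_⟩
    rw [Nat.cast_zero, add_zero]
    exact (nv_smul_le (hχ.sm _) hv hτ).trans (mul_le_mul_of_nonneg_right hχn (nv_nonneg _ _))
  | succ j ih =>
    intro hj
    obtain ⟨C, K, hC, hIH⟩ := ih (by omega)
    refine ⟨a * c * 3 ^ (2 * (s + 2 + d + 1)) * (m * C * 3 ^ K + 1), 2 * (s + 2 + d + 1) + K,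
      by positivity, fun u v ε x₀ A r l hu hε hv hA hr hl hl1 hrl hJ => ?_⟩
    have e3 : r + 2 * l / 3 + l / 3 = r + l := by ring
    obtain ⟨χ₁, hχ₁, hχ₁n⟩ := hcut x₀ A r (l / 3) hA hr (by linarith) (by linarith)
    obtain ⟨χ₂, hχ₂, hχ₂n⟩ := hIH u v ε x₀ A (r + 2 * l / 3) (l / 3) hu hε hv hA (by linarith)
      (by linarith) (by linarith) (by linarith) (by rwa [e3])
    rw [e3] at hχ₂
    have hε1 : ε ≤ ε₁ := hε.trans (min_le_left _ _)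
    have hε2 : ε ≤ ε₂ := hε.trans ((min_le_right _ _).trans (min_le_left _ _))
    have hε3 : ε ≤ ε₃ := hε.trans ((min_le_right _ _).trans (min_le_right _ _))
    have w1 : Wv (s + 2) fun x => χ₁ x • v x := Wv.smul (hχ₁.sm _) hv
    have w2 : Wv (s + 2) fun x => χ₂ x • v x := Wv.smul (hχ₂.sm _) hv
    have hσ : |(1 - s + j : ℤ)| ≤ s := abs_le.2 ⟨by omega, by omega⟩
    obtain ⟨k1, k2⟩ := hcm s u _ χ₁ ε hu hε2 (hχ₁.sm _) w2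
    have e : (JJ u fun x => χ₁ x • v x) = CM u χ₁ fun x => χ₂ x • v x :=
      (hpl s u _ ε hu hε3 w1).2.1.ext k1
        (comm_eq_Sy5 hχ₁ hχ₂ (by linarith) (by linarith) hJ)
    have k3 := hapr s u _ ε hu hε1 w1 (1 - s + j) (2 - s) hσ (by omega)
    have k4 := k2 _ hσ
    have k5 := (nv_smul_le (hχ₁.sm _) hv hτ).trans
      (mul_le_mul_of_nonneg_right hχ₁n (nv_nonneg _ _))
    have e1 : (1 - s + j + 2 : ℤ) = 2 - s + (j + 1 : ℕ) := by push_cast; ring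
    have e2 : (1 - s + j + 1 : ℤ) = 2 - s + j := by ring
    rw [e, e1] at k3
    rw [e2] at k4
    refine ⟨χ₁, ⟨hχ₁.sm, hχ₁.one, fun x hx hx' => hχ₁.zero x hx fun h => hx'
      (el_mono (by linarith) h), hχ₁.mem⟩, k3.trans (le_trans ?_
        (num_Sy5 (m := m) (C := C) ha hc hl hl1 (nv_nonneg (2 - s) v)))⟩
    refine mul_le_mul_of_nonneg_left (add_le_add (k4.trans ?_) k5) ha.le
    have hχ₁n' : nm ((s : ℤ) + 2) χ₁ ≤ c / (l / 3) ^ (2 * (s + 2 + d + 1)) := by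
      exact_mod_cast hχ₁n
    exact mul_le_mul (mul_le_mul_of_nonneg_left hχ₁n' hm.le) hχ₂n (nv_nonneg _ _) (by positivity)

theorem interior (s : ℕ) : ∃ (ε₀ C : ℝ) (K : ℕ), 0 < ε₀ ∧ 0 < C ∧
    ∀ (u v : E d → E n) (ε : ℝ) (x₀ : E d) (A : E d →L[ℝ] E d) (r l : ℝ), Sml s u ε → ε ≤ ε₀ →
    Wv (s + 2) v → Fr x₀ A → 0 ≤ r → 0 < l → l ≤ 1 → r + l ≤ 9 / 4 →
    (∀ x ∈ el x₀ A (r + l), JJ u v x = 0) →
    ∃ z : E d → E n, Sml s z (C / l ^ K * nv (2 - s) v) ∧ (∀ x ∈ el x₀ A r, z x = v x) ∧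
      ∀ x ∈ el x₀ A r, JJ u z x = 0 := by
  obtain ⟨ε₀, hε₀, h⟩ := interior_step (d := d) (n := n) s
  obtain ⟨C, K, hC, h⟩ := h (2 * s) le_rfl
  refine ⟨ε₀, C, K, hε₀, hC, fun u v ε x₀ A r l hu hε hv hA hr hl hl1 hrl hJ => ?_⟩
  obtain ⟨χ, hχ, hn⟩ := h u v ε x₀ A r l hu hε hv hA hr hl hl1 hrl hJ
  have e : (2 - s + (2 * s : ℕ) : ℤ) = s + 2 := by push_cast; ring
  rw [e] at hn
  refine ⟨fun x => χ x • v x, ⟨Wv.smul (hχ.sm _) hv, hn⟩,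
    fun x hx => by simp only [hχ.one x hx, one_smul], fun x hx => ?_⟩
  have e' : (fun x => χ x • v x) =ᶠ[𝓝 x] v := by
    filter_upwards [(isOpen_el x₀ A r).mem_nhds hx] with y hy
    rw [hχ.one y hy, one_smul]
  rw [JJ_congr u e', hJ x (el_mono (by linarith) hx)]

end Pool.Agent.Lib.MP_8daebb_an.GM.Ch
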