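import Pool.Agent.Lib.MP_8daebb_an.GM.Nw1
import Pool.Agent.Lib.MP_8daebb_an.GM.Sy5

/-! The Newton step for periodic functions. -/

open MeasureTheory Metric Set Filter Topology
open scoped RealInnerProductSpace ContDiff ENNReal

namespace Pool.Agent.Lib.MP_8daebb_an.GM.Ch

variable {d n : ℕ}

theorem newton_W (hd : 1 ≤ d) : ∃ (ε₀ C : ℝ) (K : ℕ), 0 < ε₀ ∧ 0 < C ∧
    ∀ (u b : E d → E n) (ε k₀ k₁ : ℝ) (x₀ : E d) (A : E d →L[ℝ] E d) (r l : ℝ),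
    Sml (d + 4) u ε → ε ≤ ε₀ → Fr x₀ A → 0 < l → l ≤ 1 → 2 * l ≤ r → r ≤ 9 / 4 → 0 ≤ k₀ → 0 ≤ k₁ →
    (∀ x ∈ el x₀ A r, NN u x = 0) → Wv (d + 6) b →
    (∀ f : E d → ℝ, W 1 f → ‖∫ x in cube d, f x • b x‖ ≤ k₀ * nm 1 f) →
    (∀ ψ : E d → E n, Wv 3 ψ → (∀ x ∈ ocube d, x ∉ el x₀ A r → ψ x = 0) →
      |∫ x in cube d, ⟪JT u ψ x, b x⟫| ≤ k₁ * nv 3 ψ) →
    C * (k₀ + k₁) / l ^ K ≤ ε₀ →
    ∃ du : E d → E n, Sml (d + 4) du (C * (k₀ + k₁) / l ^ K) ∧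
      (∀ x ∈ el x₀ A (r - 2 * l), NN (fun y => u y + du y) x = 0) ∧
      ∀ (k : E d → ℝ) (Λ : ℝ), ContDiff ℝ ∞ k → (∀ x, x ∉ el x₀ A (r - 2 * l) → k x = 0) →
        (∀ j ≤ d + 2, ∀ x, ‖iteratedFDeriv ℝ j k x‖ ≤ Λ) →
        ‖∫ x in cube d, k x • (b x - du x)‖ ≤
          C * Λ * (k₁ / l ^ K + (C * (k₀ + k₁) / l ^ K) ^ 2) := by
  obtain ⟨ε1, C1, hε1, hC1, h1⟩ := neg_norm_JJ (d := d) (n := n)
  obtain ⟨C2, hC2, h2⟩ := exists_cut (d := d) 3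
  obtain ⟨ε3, C3, hε3, hC3, h3⟩ := lin_solve (n := n) hd (d + 4)
  obtain ⟨C4, hC4, h4⟩ := neg_norm_one (d := d) (n := n)
  obtain ⟨ε5, C5, K5, hε5, hC5, h5⟩ := interior (d := d) (n := n) (d + 4)
  obtain ⟨ε6, C6, hε6, hC6, h6⟩ := nonlin_solve (n := n) hd (d + 4)
  obtain ⟨C7, hC7, h7⟩ := pair_test (d := d) (n := n)
  obtain ⟨K1, hK1⟩ : ∃ K1, K1 = 2 * (3 + d + 1) := ⟨_, rfl⟩
  rw [← hK1] at h2
  obtain ⟨a, ha⟩ : ∃ a, a = C3 * C1 * C2 := ⟨_, rfl⟩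
  have ha0 : 0 < a := by rw [ha]; positivity
  obtain ⟨C0, hC0⟩ : ∃ C0, C0 = C5 * (C4 + a) := ⟨_, rfl⟩
  have hC00 : 0 < C0 := by rw [hC0]; positivity
  obtain ⟨C, hC⟩ : ∃ C, C = 2 * C0 + C7 * a + C7 * C6 := ⟨_, rfl⟩
  have hp1 : 0 < C7 * a := by positivity
  have hp2 : 0 < C7 * C6 := by positivity
  refine ⟨min (min ε1 ε3) (min (min ε5 ε6) (1 / C6)), C, K1 + K5, by positivity,
    by rw [hC]; positivity, ?_⟩
  intro u b ε k₀ k₁ x₀ A r l hu hε hF hl hl1 hlr hr hk₀ hk₁ hN hb hb0 hb1 hδ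
  simp only [le_min_iff] at hε hδ
  obtain ⟨⟨e1, e3⟩, ⟨e5, e6⟩, -⟩ := hε
  obtain ⟨-, ⟨-, d6⟩, d7⟩ := hδ
  have hq1 : 0 < l ^ K1 := by positivity
  have hq5 : 0 < l ^ K5 := by positivity
  have hq : 0 < l ^ (K1 + K5) := by positivity
  have hq1' : l ^ K1 ≤ 1 := pow_le_one₀ hl.le hl1
  have hqq : l ^ (K1 + K5) ≤ l ^ K1 := pow_le_pow_of_le_one hl.le hl1 (Nat.le_add_right _ _)
  obtain ⟨χ, hχ, hχn⟩ := h2 x₀ A (r - l) l hF (by linarith) hl (by linarith)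
  rw [sub_add_cancel] at hχ
  obtain ⟨hW, hn⟩ := h1 u b χ ε k₁ (el x₀ A r) hu e1 hb (hχ.sm _) hk₁ hχ.zero hb1
  obtain ⟨w, hw, hwe, hwn⟩ := h3 u _ ε hu e3 hW
  have hwn' : nv (-((d : ℤ) + 2)) w ≤ a * k₁ / l ^ K1 := by
    have t1 := hwn (-((d : ℤ) + 4)) (by rw [abs_neg, abs_of_nonneg (by positivity)]; push_cast; rfl)
    rw [show -((d : ℤ) + 4) + 2 = -((d : ℤ) + 2) by ring] at t1
    have t2 : nm 3 χ ≤ C2 / l ^ K1 := by exact_mod_cast hχn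
    calc _ ≤ C3 * (C1 * k₁ * nm 3 χ) := t1.trans (mul_le_mul_of_nonneg_left hn hC3.le)
      _ ≤ C3 * (C1 * k₁ * (C2 / l ^ K1)) := by gcongr
      _ = _ := by rw [ha]; ring
  have hb2 : ContDiff ℝ 2 b := by simpa using (hb.mono (n' := 2) (by omega)).contDiff
  have hw2 : ContDiff ℝ 2 w := by simpa using (hw.mono (n' := 2) (by omega)).contDiff
  have hv : Wv (d + 4 + 2) fun x => b x - w x := Wv.sub hb hw
  have hJ : ∀ x ∈ el x₀ A (r - 2 * l + l), JJ u (fun x => b x - w x) x = 0 := fun x hx => by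
    rw [show r - 2 * l + l = r - l by ring] at hx
    rw [(PL_sub u hb2 hw2).2]
    beta_reduce
    rw [hwe x (hF.el_subset (by linarith) hx), hχ.one x hx, one_smul, sub_self]
  obtain ⟨z, hz, hze, hzJ⟩ := h5 u _ ε x₀ A (r - 2 * l) l hu e5 hv hF (by linarith) hl hl1
    (by linarith) hJ
  obtain ⟨γ, hγ⟩ : ∃ γ, γ = C0 * (k₀ + k₁) / l ^ (K1 + K5) := ⟨_, rfl⟩
  obtain ⟨δ, hδ⟩ : ∃ δ, δ = C * (k₀ + k₁) / l ^ (K1 + K5) := ⟨_, rfl⟩
  rw [← hδ] at d6 d7 ⊢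
  have hγ0 : 0 ≤ γ := by rw [hγ]; positivity
  have hγδ : 2 * γ ≤ δ := by
    rw [hγ, hδ, ← mul_div_assoc, ← mul_assoc]
    gcongr
    linarith
  have hz' : Sml (d + 4) z γ := by
    refine hz.mono ?_
    rw [show (2 : ℤ) - ((d + 4 : ℕ) : ℤ) = -((d : ℤ) + 2) by push_cast; ring]
    have t1 := nv_sub_le hb hw (σ := -((d : ℤ) + 2)) (by push_cast; omega)
    have t2 := h4 b k₀ (hb.mono (Nat.zero_le _)) hb0
    have t3 : C4 * k₀ ≤ C4 * k₀ / l ^ K1 := le_div_self (by positivity) hq1 hq1'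
    have t4 : C4 * k₀ / l ^ K1 + a * k₁ / l ^ K1 ≤ (C4 + a) * (k₀ + k₁) / l ^ K1 := by
      rw [← add_div]
      gcongr
      nlinarith [mul_nonneg hC4.le hk₁, mul_nonneg ha0.le hk₀]
    calc _ ≤ C5 / l ^ K5 * ((C4 + a) * (k₀ + k₁) / l ^ K1) :=
          mul_le_mul_of_nonneg_left (by linarith) (by positivity)
      _ = γ := by rw [hγ, hC0, pow_add]; field_simp
  obtain ⟨q, hq', hqe⟩ := h6 u z ε γ hu hz' e6 (by linarith)
  have hγ1 : C6 * γ ≤ 1 := by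
    rw [le_div_iff₀ hC6] at d7
    nlinarith
  refine ⟨fun y => z y + q y, (hz'.add hq').mono (by nlinarith), fun x hx => ?_,
    fun k Λ hk hk0 hkΛ => ?_⟩
  · have t1 := hqe x (hF.el_subset (by linarith) hx) (hN x (el_mono (by linarith) hx)) (hzJ x hx)
    simpa only [add_assoc] using t1
  · have hk0' : ∀ x, x ∉ ball (0 : E d) (14 / 5) → k x = 0 := fun x hx =>
      hk0 x fun hx' => hx (ball_subset_ball (by norm_num) (hF.el_subset (by linarith) hx'))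
    have hΛ : 0 ≤ Λ := (norm_nonneg _).trans (hkΛ 0 (Nat.zero_le _) 0)
    have t1 := (h7 w k Λ (hw.mono (Nat.zero_le _)) hk hk0' hkΛ).1
    have t2 := (h7 q k Λ (hq'.w.mono (Nat.zero_le _)) hk hk0' hkΛ).2
    have t3 : nv 0 q ≤ C6 * γ ^ 2 :=
      (hq'.w.nv_mono (by positivity) (by push_cast; rfl)).trans hq'.le
    have t4 : (fun x => k x • (b x - (z x + q x))) = fun x => k x • w x - k x • q x := by
      funext x
      by_cases hx : x ∈ el x₀ A (r - 2 * l)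
      · rw [hze x hx, ← smul_sub]
        congr 1
        abel
      · simp [hk0 x hx]
    rw [t4, integral_sub (f := fun x => k x • w x) (g := fun x => k x • q x)
      (integrableOn_cube (hk.continuous.smul hw.continuous))
      (integrableOn_cube (hk.continuous.smul hq'.w.continuous))]
    refine (norm_sub_le _ _).trans ?_
    have t5 : C7 * Λ * nv (-((d : ℤ) + 2)) w ≤ C * Λ * (k₁ / l ^ (K1 + K5)) := by
      calc _ ≤ C7 * Λ * (a * k₁ / l ^ K1) := mul_le_mul_of_nonneg_left hwn' (by positivity)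
        _ = C7 * a * Λ * (k₁ / l ^ K1) := by ring
        _ ≤ _ := by
          gcongr
          · rw [hC]; positivity
          · linarith
    have t6 : C7 * Λ * nv 0 q ≤ C * Λ * δ ^ 2 := by
      calc _ ≤ C7 * Λ * (C6 * γ ^ 2) := mul_le_mul_of_nonneg_left t3 (by positivity)
        _ = C7 * C6 * Λ * γ ^ 2 := by ring
        _ ≤ _ := by
          gcongr
          · rw [hC]; positivity
          · linarith
          · linarith
    linarith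

end Pool.Agent.Lib.MP_8daebb_an.GM.Ch
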