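import Pool.Agent.Lib.MP_8daebb_an.GM.Nw4
import Pool.Agent.Lib.MP_8daebb_an.GM.Nw2

/-! The new function. -/

open MeasureTheory Metric Set Filter Topology
open scoped RealInnerProductSpace ContDiff ENNReal

namespace Pool.Agent.Lib.MP_8daebb_an.GM.Ch

variable {d n : ℕ} {α : Type*} [MeasurableSpace α] {H : Type*} [NormedAddCommGroup H]
  [InnerProductSpace ℝ H] [FiniteDimensional ℝ H] [MeasurableSpace H] [BorelSpace H]

theorem alg_Nw5 {X : Type*} [NormedAddCommGroup X] [NormedSpace ℝ X] {I1 I2 J1 J2 J : X}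
    {a Q c e1 e2 e3 : ℝ} (ha : 0 < a) (hQ : 0 < Q) (hc : 1 ≤ c * a) (hJ : J2 = a • J)
    (h1 : ‖J1 - (a / Q) • I1‖ ≤ e1) (h2 : ‖J1 - J2‖ ≤ e2) (h3 : ‖I2 - Q • J‖ ≤ e3) :
    ‖I1 - I2‖ ≤ Q * c * e1 + Q * c * e2 + e3 := by
  have e : I1 - I2 = (Q / a) • (J1 - J2) - (Q / a) • (J1 - (a / Q) • I1) - (I2 - Q • J) := by
    have t1 : Q / a * (a / Q) = 1 := by field_simp
    have t2 : Q / a * a = Q := by field_simp
    rw [hJ, smul_sub, smul_sub, smul_smul, smul_smul, t1, t2, one_smul]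
    abel
  have hq : Q / a ≤ Q * c := by
    rw [div_le_iff₀ ha]
    nlinarith
  have hq0 : 0 ≤ Q / a := by positivity
  have n1 : ‖(Q / a) • (J1 - J2)‖ ≤ Q * c * e2 := by
    rw [norm_smul, Real.norm_of_nonneg hq0]
    exact mul_le_mul hq h2 (norm_nonneg _) (hq0.trans hq)
  have n2 : ‖(Q / a) • (J1 - (a / Q) • I1)‖ ≤ Q * c * e1 := by
    rw [norm_smul, Real.norm_of_nonneg hq0]
    exact mul_le_mul hq h1 (norm_nonneg _) (hq0.trans hq)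
  rw [e]
  have n3 := norm_sub_le ((Q / a) • (J1 - J2) - (Q / a) • (J1 - (a / Q) • I1)) (I2 - Q • J)
  have n4 := norm_sub_le ((Q / a) • (J1 - J2)) ((Q / a) • (J1 - (a / Q) • I1))
  linarith

theorem pw_Nw5 {ρ x y : ℝ} {i K : ℕ} (hρ : 0 < ρ) (hρ1 : ρ ≤ 1) (hi : i + 1 ≤ K) (hx : x ≤ ρ ^ K)
    (hy : 0 ≤ y) : x * y / ρ ^ i ≤ ρ * y := by
  have h1 : ρ ^ K ≤ ρ ^ (i + 1) := pow_le_pow_of_le_one hρ.le hρ1 hi
  rw [div_le_iff₀ (by positivity)]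
  calc x * y ≤ ρ ^ (i + 1) * y := mul_le_mul_of_nonneg_right (hx.trans h1) hy
    _ = _ := by ring

theorem arith_Nw5 {ρ s γ γ' l En q a1 a2 a3 a4 a5 : ℝ} {K Kn : ℕ} (d : ℕ) (hρ : 0 < ρ)
    (hρl : ρ ≤ l) (hl : l ≤ 1) (hs : 0 < s) (hγ' : 0 ≤ γ') (hγ : γ' ≤ γ) (hK : 2 * d + 3 ≤ K)
    (hKn : Kn ≤ K) (hsK : s ≤ ρ ^ K) (hγK : γ ≤ ρ ^ K) (hE : En ≤ s ^ 4)
    (hq : 0 ≤ q) (h1 : 0 ≤ a1) (h2 : 0 ≤ a2) (h3 : 0 ≤ a3) (h4 : 0 ≤ a4) (h5 : 0 ≤ a5) :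
    q * (s ^ 4 * (a1 / ρ ^ (d + 1) * 2)) +
      q * (a2 * (a3 / ρ ^ (d + (d + 2))) * (a4 * s ^ 4 / l ^ Kn + γ' ^ 2)) +
      a1 / ρ ^ d * (a5 * γ) * (s ^ 2 + (d + 1) * En) ≤
    (q * a1 * 2 + q * a2 * a3 * (a4 + 1) + a1 * a5 * (d + 2)) * ρ * (s ^ 2 + γ) / l ^ K := by
  have hρ1 : ρ ≤ 1 := hρl.trans hl
  have hl0 : 0 < l := hρ.trans_le hρl
  have hγ0 : 0 ≤ γ := hγ'.trans hγ
  have hs1 : s ≤ 1 := hsK.trans (pow_le_one₀ hρ.le hρ1)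
  have hs2 : s ^ 2 ≤ ρ ^ K := by nlinarith
  have hs4 : s ^ 4 ≤ s ^ 2 := pow_le_pow_of_le_one hs.le hs1 (by norm_num)
  have hL : 0 < l ^ K := by positivity
  have hL1 : l ^ K ≤ 1 := pow_le_one₀ hl0.le hl
  have hLn : l ^ K ≤ l ^ Kn := pow_le_pow_of_le_one hl0.le hl hKn
  obtain ⟨Z, hZ⟩ : ∃ Z, Z = ρ * (s ^ 2 + γ) / l ^ K := ⟨_, rfl⟩
  have z0 : ρ * (s ^ 2 + γ) ≤ Z := by rw [hZ]; exact le_div_self (by positivity) hL hL1
  have z1 : ρ * s ^ 2 ≤ Z := le_trans (by nlinarith [mul_nonneg hρ.le hγ0]) z0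
  have z2 : ρ * γ ≤ Z := le_trans (by nlinarith [mul_nonneg hρ.le (sq_nonneg s)]) z0
  have z3 : ρ * s ^ 2 / l ^ Kn ≤ Z := by
    rw [hZ]
    gcongr
    linarith
  have t1 : s ^ 2 * s ^ 2 / ρ ^ (d + 1) ≤ Z :=
    (pw_Nw5 hρ hρ1 (by omega) hs2 (sq_nonneg s)).trans z1
  have t2 : s ^ 2 * (s ^ 2 / l ^ Kn) / ρ ^ (d + (d + 2)) ≤ Z := by
    refine (pw_Nw5 hρ hρ1 (by omega) hs2 (by positivity)).trans ?_
    rwa [← mul_div_assoc]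
  have t3 : γ' ^ 2 / ρ ^ (d + (d + 2)) ≤ Z := by
    refine le_trans ?_ ((pw_Nw5 (i := d + (d + 2)) hρ hρ1 (by omega) hγK hγ0).trans z2)
    rw [← sq]
    gcongr
  have t4 : γ * s ^ 2 / ρ ^ d ≤ Z := (pw_Nw5 hρ hρ1 (by omega) hγK (sq_nonneg s)).trans z1
  have t5 : s ^ 2 + (d + 1) * En ≤ (d + 2) * s ^ 2 := by
    have : ((d : ℝ) + 1) * En ≤ (d + 1) * s ^ 2 :=
      mul_le_mul_of_nonneg_left (hE.trans hs4) (by positivity)
    linarith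
  have u1 : q * (s ^ 4 * (a1 / ρ ^ (d + 1) * 2)) ≤ q * a1 * 2 * Z := by
    calc _ = q * a1 * 2 * (s ^ 2 * s ^ 2 / ρ ^ (d + 1)) := by ring
      _ ≤ _ := mul_le_mul_of_nonneg_left t1 (by positivity)
  have u2 : q * (a2 * (a3 / ρ ^ (d + (d + 2))) * (a4 * s ^ 4 / l ^ Kn + γ' ^ 2)) ≤
      q * a2 * a3 * (a4 + 1) * Z := by
    calc _ = q * a2 * a3 * (a4 * (s ^ 2 * (s ^ 2 / l ^ Kn) / ρ ^ (d + (d + 2))) +
          γ' ^ 2 / ρ ^ (d + (d + 2))) := by ring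
      _ ≤ q * a2 * a3 * (a4 * Z + Z) := by gcongr
      _ = _ := by ring
  have u3 : a1 / ρ ^ d * (a5 * γ) * (s ^ 2 + (d + 1) * En) ≤ a1 * a5 * (d + 2) * Z := by
    calc _ ≤ a1 / ρ ^ d * (a5 * γ) * ((d + 2) * s ^ 2) :=
          mul_le_mul_of_nonneg_left t5 (by positivity)
      _ = a1 * a5 * (d + 2) * (γ * s ^ 2 / ρ ^ d) := by ring
      _ ≤ _ := mul_le_mul_of_nonneg_left t4 (by positivity)
  calc _ ≤ (q * a1 * 2 + q * a2 * a3 * (a4 + 1) + a1 * a5 * (d + 2)) * Z := by linarith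
    _ = _ := by rw [hZ]; ring

theorem gam_Nw5 {a b C B s ρ β l : ℝ} {K Kn : ℕ} (ha : 0 ≤ a) (hb : 0 ≤ b) (hC : 2 * a * b ≤ C)
    (hβ : 0 ≤ β) (hρ : s ^ 2 ≤ ρ) (hl : 0 < l) (hl1 : l ≤ 1) (hK : Kn + 2 ≤ K)
    (h : C * (β + s ^ 2 * ρ) / l ^ K ≤ B) :
    a * (b * (β + s ^ 2 * ρ) / l ^ 2 + b * s ^ 4) / l ^ Kn ≤ B := by
  have h0 : 0 ≤ ρ := (sq_nonneg s).trans hρ
  have h1 : s ^ 4 ≤ (β + s ^ 2 * ρ) / l ^ 2 := by
    refine le_trans ?_ (le_div_self (by positivity) (by positivity) (pow_le_one₀ hl.le hl1))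
    nlinarith [mul_le_mul_of_nonneg_left hρ (sq_nonneg s)]
  have h2 : l ^ K ≤ l ^ (Kn + 2) := pow_le_pow_of_le_one hl.le hl1 hK
  have h3 : 0 ≤ C := le_trans (by positivity) hC
  calc _ ≤ a * (b * (β + s ^ 2 * ρ) / l ^ 2 + b * ((β + s ^ 2 * ρ) / l ^ 2)) / l ^ Kn := by gcongr
    _ = 2 * a * b * (β + s ^ 2 * ρ) / l ^ (Kn + 2) := by rw [pow_add]; field_simp; ring
    _ ≤ C * (β + s ^ 2 * ρ) / l ^ K := by gcongr
    _ ≤ B := h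

theorem solve_step (M : ℝ) {Q : ℕ} (hQ : 1 ≤ Q) : ∃ (ε₀ C : ℝ) (K : ℕ), 0 < ε₀ ∧ 0 < C ∧ ∀ (ι : E d →ₗᵢ[ℝ] H)
    (κ : E n →ₗᵢ[ℝ] H) (c : Cen d n) (D : CD d α H) (ε R δ R₁ l s ρ β : ℝ) (γ : ℝ) (N : E d → ℕ), Spl ι κ →
    Sml (d + 4) c.u ε → ε ≤ ε₀ → Fr c.x₀ c.A → CV D 0 R δ M → Lk D (c.F ι κ) → R₁ ≤ R → 0 < s →
    0 < ρ → s ^ 2 ≤ ρ → ρ ≤ l → 16 * l ≤ R₁ → (∀ x ∈ el c.x₀ c.A R₁, NN c.u x = 0) →
    (∀ᵐ a ∂D.m, a ∈ D.cyl 0 R₁ → ‖D.y a‖ ≤ s ^ 2) → D.En 0 R₁ ≤ s ^ 4 →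
    ∫ u in ball (0 : E d) (R₁ - l), ‖D.av ρ D.y u‖ ≤ β →
    δ ≤ 1 → IsMult (D.resB 0 R₁).m D.x D.j N →
    ∫ v in ball (0 : E d) (R₁ - l), |(N v : ℝ) - Q| ≤ s ^ 2 →
    C * (β + s ^ 2 * ρ) / l ^ K ≤ γ → γ ≤ ε₀ → s ≤ ρ ^ K → γ ≤ ρ ^ K →
    ∃ du : E d → E n, Sml (d + 4) du γ ∧
      (∀ x ∈ el c.x₀ c.A (R₁ - 6 * l), NN (fun y => c.u y + du y) x = 0) ∧
      ∀ v : E d, ‖v‖ ≤ R₁ - 7 * l →
        ‖∫ a, kr ρ (v - D.x a) • (vh ι κ c D a - du (c.pt (D.x a))) ∂D.m‖ ≤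
          C * ρ * (s ^ 2 + γ) / l ^ K := by
  by_cases hd : 1 ≤ d
  swap
  · refine ⟨1, 1, 0, one_pos, one_pos, ?_⟩
    intro ι κ c D ε R δ R₁ l s ρ β γ N _ _ _ _ hCV
    exact absurd hCV.d_pos hd
  obtain ⟨εb, Cb, hεb, hCb, hb⟩ := exists_b (d := d) (n := n) (α := α) (H := H) M hQ
  obtain ⟨εn, Cn, Kn, hεn, hCn, hn⟩ := newton_W (n := n) hd
  obtain ⟨Ck, hCk, hk⟩ := kr_facts (d := d)
  obtain ⟨Ca, hCa, ha⟩ := kr_aff (d := d) (d + 2)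
  obtain ⟨Cd, hCd, hdet⟩ := fr_det (d := d)
  obtain ⟨Cp, hCp, hp⟩ := exists_pw (d := d) (n := n)
  have hQ0 : (0 : ℝ) < Q := by exact_mod_cast hQ
  obtain ⟨C1, hC1⟩ : ∃ C1 : ℝ, C1 = Q * Cd * Ck * 2 + Q * Cd * Cn * Ca * (Cb + 1) +
    Ck * Cp * (d + 2) := ⟨_, rfl⟩
  have hC10 : 0 < C1 := by rw [hC1]; positivity
  have hC2 : 0 < 2 * Cn * Cb := by positivity
  refine ⟨min (min εb εn) (1 / Cp), C1 + 2 * Cn * Cb, Kn + 2 * d + 3, by positivity,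
    by positivity, ?_⟩
  intro ι κ c D ε R δ R₁ l s ρ β γ N hs hu hε hF hCV hL hR hs0 hρ hsρ hρl hlR hN hy hE hβ hδ hM
    hNQ hγ hγε hsK hγK
  simp only [le_min_iff] at hε hγε
  obtain ⟨⟨e1, e2⟩, e3⟩ := hε
  have hR2 := hCV.R_le
  have hl : 0 < l := hρ.trans_le hρl
  have hl1 : l ≤ 1 := by linarith
  have hβ0 : 0 ≤ β := le_trans (integral_nonneg fun _ => norm_nonneg _) hβ
  obtain ⟨b, hbW, hb1, hb2, hb3⟩ := hb ι κ c D ε R δ R₁ l s ρ β hs hu e1 hF hCV hL hR hs0 hρ hsρ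
    hρl hlR hN hy hE hβ
  have hg := gam_Nw5 (Kn := Kn) hCn.le hCb.le (by linarith) hβ0 hsρ hl hl1 (by omega) hγ
  obtain ⟨du, hdu, hdN, hdk⟩ := hn c.u b ε (Cb * (β + s ^ 2 * ρ) / l ^ 2) (Cb * s ^ 4) c.x₀ c.A
    (R₁ - 4 * l) l hu e2 hF hl hl1 (by linarith) (by linarith) (by positivity) (by positivity)
    (fun x hx => hN x (el_mono (by linarith) hx)) hbW hb1 hb2 (hg.trans hγε.1.2)
  rw [show R₁ - 4 * l - 2 * l = R₁ - 6 * l by ring] at hdN hdk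
  have hdu' := hdu.mono hg
  refine ⟨du, hdu', hdN, fun v hv => ?_⟩
  obtain ⟨k1, k2, k3, k4, -⟩ := hk ρ hρ
  obtain ⟨a1, a2, -, a4⟩ := ha c.x₀ v c.A ρ hF hρ (hρl.trans hl1)
  obtain ⟨k, hkk⟩ : ∃ k : E d → ℝ, k = fun x => kr ρ (v - Ring.inverse c.A (x - c.x₀)) := ⟨_, rfl⟩
  have hk0 : ∀ x, x ∉ el c.x₀ c.A (R₁ - 6 * l) → k x = 0 := fun x hx => by
    rw [hkk]
    refine a2 x ?_
    have t1 : R₁ - 6 * l ≤ ‖Ring.inverse c.A (x - c.x₀)‖ := not_lt.1 hx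
    have t2 := norm_sub_norm_le (Ring.inverse c.A (x - c.x₀)) v
    rw [norm_sub_rev] at t2
    linarith
  have hkp : ∀ z, k (c.pt z) = kr ρ (v - z) := fun z => by
    rw [hkk]
    beta_reduce
    rw [Cen.pt, add_sub_cancel_left, hF.inv.2.2.1]
  have hkl : ∀ x x', |k x - k x'| ≤ Ck / ρ ^ (d + 1) * 2 * ‖x - x'‖ := fun x x' => by
    rw [hkk]
    refine (k4 _ _).trans ?_
    rw [mul_assoc]
    refine mul_le_mul_of_nonneg_left ?_ (by positivity)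
    have t1 : v - Ring.inverse c.A (x - c.x₀) - (v - Ring.inverse c.A (x' - c.x₀)) =
        Ring.inverse c.A (x' - x) := by
      rw [sub_sub_sub_cancel_left, ← map_sub, sub_sub_sub_cancel_right]
    have t2 := (hF.inv.2.2.2.2.2 (x' - x)).2
    rw [norm_sub_rev x' x] at t2
    rw [t1]
    linarith [norm_nonneg (x - x')]
  rw [← hkk] at a1 a4
  have B1 := hb3 k _ (by positivity) hkl fun x hx => hk0 x fun hx' => hx (el_mono (by linarith) hx')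
  have B2 := hdk k _ a1 hk0 a4
  have hpd := hp _ du γ (by omega) hdu'
  have hpu := hp _ c.u ε (by omega) hu
  have hdc : Continuous du := hdu'.w.continuous
  have hptc : Continuous c.pt := continuous_const.add c.A.continuous
  obtain ⟨f, hf⟩ : ∃ f : E d → E n, f = fun z => kr ρ (v - z) • du (c.pt z) := ⟨_, rfl⟩
  have hfc : Continuous f := by
    rw [hf]
    exact (k1.comp (continuous_const.sub continuous_id)).smul (hdc.comp hptc)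
  have hfb : ∀ z, ‖f z‖ ≤ Ck / ρ ^ d * (Cp * γ) := fun z => by
    rw [hf]
    beta_reduce
    rw [norm_smul, Real.norm_of_nonneg (k2 _).1]
    exact mul_le_mul (k2 _).2 (hpd.n0 _) (norm_nonneg _) (by positivity)
  have hf0 : ∀ z, R₁ - l ≤ ‖z‖ → f z = 0 := fun z hz => by
    rw [hf]
    beta_reduce
    have t2 := norm_sub_norm_le z v
    rw [norm_sub_rev] at t2
    rw [k3 _ (by linarith), zero_smul]
  have B3 := mult_int hCV hδ hfc hfb (by linarith) hf0 hM hNQ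
  have hJ : ∫ x in cube d, k x • du x = |c.A.det| • ∫ z, f z := by
    rw [setIntegral_eq_integral_of_forall_compl_eq_zero fun x hx => by
      rw [hk0 x fun hx' => hx (ocube_subset_cube (ball_subset_ocube (ball_subset_ball
        (by norm_num) (hF.el_subset (by linarith) hx')))), zero_smul], hF.integral_comp, hf]
    congr 1
    refine integral_congr_ae (Eventually.of_forall fun z => ?_)
    beta_reduce
    rw [← hkp z, Cen.pt]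
  have hsub : ∫ x in cube d, k x • (b x - du x) =
      (∫ x in cube d, k x • b x) - ∫ x in cube d, k x • du x := by
    simp only [smul_sub]
    exact integral_sub (integrableOn_cube (a1.continuous.smul hbW.continuous))
      (integrableOn_cube (a1.continuous.smul hdc))
  rw [hsub] at B2
  have := hCV.fin
  obtain ⟨v1, v2, -⟩ := vh_meas (ι := ι) (κ := κ) hCV hpu (by
    rw [le_div_iff₀ hCp] at e3
    linarith)
  have i1 : Integrable (fun a => kr ρ (v - D.x a) • vh ι κ c D a) D.m := by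
    refine Integrable.of_bound (C := Ck / ρ ^ d * 4) ?_ ?_
    · exact ((k1.measurable.comp (measurable_const.sub hCV.m_x)).smul v1).aestronglyMeasurable
    · filter_upwards [hCV.ae_G] with a haG
      rw [norm_smul, Real.norm_of_nonneg (k2 _).1]
      refine mul_le_mul (k2 _).2 ?_ (norm_nonneg _) (by positivity)
      linarith [v2 a, (hCV.pw a haG).y_two]
  have i2 : Integrable (fun a => f (D.x a)) D.m :=
    Integrable.of_bound (hfc.measurable.comp hCV.m_x).aestronglyMeasurable _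
      (Eventually.of_forall fun a => hfb _)
  have hI : ∫ a, kr ρ (v - D.x a) • (vh ι κ c D a - du (c.pt (D.x a))) ∂D.m =
      (∫ a, kr ρ (v - D.x a) • vh ι κ c D a ∂D.m) - ∫ a, f (D.x a) ∂D.m := by
    rw [← integral_sub i1 i2, hf]
    simp only [smul_sub]
  simp only [hkp] at B1
  have hd1 := (hdet c.x₀ c.A hF).2
  have hd0 : 0 < |c.A.det| := by
    by_contra h
    nlinarith [abs_nonneg c.A.det]
  rw [hI]
  refine (alg_Nw5 hd0 hQ0 hd1 hJ B1 B2 B3).trans ?_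
  refine (arith_Nw5 d hρ hρl hl1 hs0 hdu.nonneg hg (by omega) (by omega) hsK hγK hE
    (by positivity) hCk.le hCn.le hCa.le hCb.le hCp.le).trans ?_
  rw [← hC1]
  have hγ0 : 0 ≤ γ := hdu'.nonneg
  gcongr
  linarith

end Pool.Agent.Lib.MP_8daebb_an.GM.Ch
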