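import Pool.Agent.Lib.MP_8daebb_an.GM.V6

/-! Integrals in two close charts. -/

open MeasureTheory Metric Set Filter Topology
open scoped RealInnerProductSpace ContDiff ENNReal

namespace Pool.Agent.Lib.MP_8daebb_an.GM.Ch

variable {d n : ℕ} {α : Type*} [MeasurableSpace α] {H : Type*} [NormedAddCommGroup H]
  [InnerProductSpace ℝ H] [FiniteDimensional ℝ H] [MeasurableSpace H] [BorelSpace H]

theorem real_le_V8 {μ μ' : Measure α} [IsFiniteMeasure μ] {c : ℝ} (hc : 0 ≤ c)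
    (h : μ' ≤ ENNReal.ofReal c • μ) : μ'.real univ ≤ c * μ.real univ := by
  have h1 := h univ
  rw [Measure.smul_apply, smul_eq_mul] at h1
  have h2 := ENNReal.toReal_mono
    (ENNReal.mul_ne_top ENNReal.ofReal_ne_top (measure_ne_top μ univ)) h1
  rwa [ENNReal.toReal_mul, ENNReal.toReal_ofReal hc] at h2

theorem ac_V8 {μ μ' : Measure α} {c : ℝ≥0∞} (h : μ' ≤ c • μ) : μ' ≪ μ :=
  (Measure.absolutelyContinuous_of_le h).trans Measure.smul_absolutelyContinuous

theorem meas_cmp {μ μ' : Measure α} [IsFiniteMeasure μ] [IsFiniteMeasure μ'] {e B : ℝ}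
    (he : 0 ≤ e) (h1 : μ' ≤ ENNReal.ofReal (1 + e) • μ) (h2 : μ ≤ ENNReal.ofReal (1 + e) • μ')
    {X : Type*} [NormedAddCommGroup X] [NormedSpace ℝ X] [CompleteSpace X] {g : α → X}
    (hg : AEStronglyMeasurable g μ) (hB : ∀ᵐ a ∂μ, ‖g a‖ ≤ B) (hB0 : 0 ≤ B) :
    ‖∫ a, g a ∂μ' - ∫ a, g a ∂μ‖ ≤ 3 * e * B * μ.real univ := by
  have e1 : 0 ≤ 1 + e := by linarith
  set ν := ENNReal.ofReal (1 + e) • μ - μ' with hν
  have hs : ν + μ' = ENNReal.ofReal (1 + e) • μ := Measure.sub_add_cancel_of_le h1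
  have hle : ν ≤ ENNReal.ofReal (1 + e) • μ := Measure.sub_le
  have : IsFiniteMeasure (ENNReal.ofReal (1 + e) • μ) := μ.smul_finite ENNReal.ofReal_ne_top
  have : IsFiniteMeasure ν := isFiniteMeasure_of_le _ hle
  have a1 := ac_V8 hle
  have a2 := ac_V8 h1
  have i1 : Integrable g ν := Integrable.of_bound (hg.mono_ac a1) B (a1 hB)
  have i2 : Integrable g μ' := Integrable.of_bound (hg.mono_ac a2) B (a2 hB)
  have q1 : ∫ a, g a ∂ν + ∫ a, g a ∂μ' = (1 + e) • ∫ a, g a ∂μ := by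
    rw [← integral_add_measure i1 i2, hs, integral_smul_measure, ENNReal.toReal_ofReal e1]
  have q2 : ν.real univ + μ'.real univ = (1 + e) * μ.real univ := by
    rw [← measureReal_add_apply, hs, measureReal_ennreal_smul_apply, ENNReal.toReal_ofReal e1]
  have q3 := real_le_V8 e1 h2
  have m0 : 0 ≤ μ.real univ := measureReal_nonneg
  have m1 : 0 ≤ μ'.real univ := measureReal_nonneg
  have q4 : ν.real univ ≤ 2 * e * μ.real univ := by
    refine le_of_mul_le_mul_left ?_ (show 0 < 1 + e by linarith)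
    have := mul_nonneg (mul_nonneg he he) m0
    nlinarith
  have q5 : ∫ a, g a ∂μ' - ∫ a, g a ∂μ = e • ∫ a, g a ∂μ - ∫ a, g a ∂ν := by
    rw [eq_sub_of_add_eq' q1, add_smul, one_smul]
    abel
  rw [q5]
  refine (norm_sub_le _ _).trans ?_
  rw [norm_smul, Real.norm_of_nonneg he]
  have q6 := mul_le_mul_of_nonneg_left (norm_integral_le_of_norm_le_const hB) he
  have q7 := norm_integral_le_of_norm_le_const (a1 hB)
  have q8 := mul_le_mul_of_nonneg_left q4 hB0
  linarith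

theorem cmp_int {D D' : CD d α H} {R R' δ δ' M M' e ρ T T₁ B m₀ : ℝ} (h : CV D 0 R δ M)
    (h' : CV D' 0 R' δ' M') (hc : Cmp D D' R' e) (he0 : 0 ≤ e) (he1 : e ≤ 1) (heρ : e ≤ ρ)
    {k : E d → ℝ} {v : E d} (hT : ∀ x, |k x| ≤ T) (hT₁ : 0 ≤ T₁)
    (hL : ∀ x x', |k x - k x'| ≤ T₁ * ‖x - x'‖) (h0 : ∀ x, ρ ≤ ‖x - v‖ → k x = 0)
    (hv : ‖v‖ + 2 * ρ ≤ R' - e) {X : Type*} [NormedAddCommGroup X] [NormedSpace ℝ X]
    [CompleteSpace X] {f : α → X} (hf : AEStronglyMeasurable f D.m) (hB0 : 0 ≤ B)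
    (hB : ∀ᵐ a ∂D.m, a ∈ D.cyl v (2 * ρ) → ‖f a‖ ≤ B)
    (hm : D.m.real (D.cyl v (2 * ρ)) ≤ m₀) :
    ‖∫ a, k (D'.x a) • f a ∂D'.m - ∫ a, k (D.x a) • f a ∂D.m‖ ≤ (2 * T₁ + 3 * T) * e * B * m₀ := by
  have := h.fin
  have := h'.fin
  set Z := D.cyl v (2 * ρ) with hZ
  have mZ : MeasurableSet Z := measurableSet_lt (h.m_x.sub_const v).norm measurable_const
  have T0 : 0 ≤ T := (abs_nonneg _).trans (hT 0)
  have kc : Continuous k :=
    (LipschitzWith.of_dist_le' (K := T₁) fun x x' => by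
      rw [Real.dist_eq, dist_eq_norm]
      exact hL x x').continuous
  have out : ∀ a, a ∉ Z → 2 * ρ ≤ ‖D.x a - v‖ := fun a ha => not_lt.1 ha
  have e1 : ∫ a, k (D'.x a) • f a ∂D'.m = ∫ a in Z, k (D'.x a) • f a ∂D'.m := by
    refine (setIntegral_eq_integral_of_ae_compl_eq_zero ?_).symm
    filter_upwards [hc.near] with a ha hz
    have h1 := norm_sub_le_norm_sub_add_norm_sub (D.x a) (D'.x a) v
    rw [norm_sub_rev (D.x a) (D'.x a)] at h1
    rw [h0 _ (by linarith [out a hz, ha.1]), zero_smul]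
  have e2 : ∫ a, k (D.x a) • f a ∂D.m = ∫ a in Z, k (D.x a) • f a ∂D.m := by
    refine (setIntegral_eq_integral_of_ae_compl_eq_zero (Eventually.of_forall fun a hz => ?_)).symm
    rw [h0 _ (by linarith [out a hz]), zero_smul]
  have l1 : D'.m.restrict Z ≤ ENNReal.ofReal (1 + e) • D.m.restrict Z := by
    rw [← Measure.restrict_smul]
    exact Measure.restrict_mono subset_rfl hc.le
  have l2 : D.m.restrict Z ≤ ENNReal.ofReal (1 + e) • D'.m.restrict Z := by
    have sub : Z ⊆ D.cyl 0 (R' - e) := fun a ha => by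
      have h1 : ‖D.x a - v‖ < 2 * ρ := ha
      have h2 := norm_le_norm_sub_add (D.x a) v
      change ‖D.x a - 0‖ < R' - e
      rw [sub_zero]
      linarith
    have h1 := Measure.restrict_mono (subset_refl Z) hc.ge
    rwa [Measure.restrict_smul, Measure.restrict_restrict mZ, inter_eq_left.2 sub] at h1
  have a1 := ac_V8 l1
  have f1 : AEStronglyMeasurable f (D.m.restrict Z) := hf.restrict
  have b1 : ∀ᵐ a ∂D.m.restrict Z, ‖f a‖ ≤ B := (ae_restrict_iff' mZ).2 hB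
  have b2 : ∀ x : α → E d, ∀ᵐ a ∂D.m.restrict Z, ‖k (x a) • f a‖ ≤ T * B := fun x =>
    b1.mono fun a ha => by
      rw [norm_smul]
      exact mul_le_mul (hT _) ha (norm_nonneg _) T0
  have g1 : AEStronglyMeasurable (fun a => k (D.x a) • f a) (D.m.restrict Z) :=
    (kc.measurable.comp h.m_x).aestronglyMeasurable.smul f1
  have g2 : AEStronglyMeasurable (fun a => k (D'.x a) • f a) (D.m.restrict Z) :=
    (kc.measurable.comp h'.m_x).aestronglyMeasurable.smul f1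
  have q1 := meas_cmp he0 l1 l2 g1 (b2 _) (mul_nonneg T0 hB0)
  have q2 : ‖∫ a in Z, k (D'.x a) • f a ∂D'.m - ∫ a in Z, k (D.x a) • f a ∂D'.m‖ ≤
      T₁ * e * B * (D'.m.restrict Z).real univ := by
    rw [← integral_sub (Integrable.of_bound (g2.mono_ac a1) _ (a1 (b2 _)))
      (Integrable.of_bound (g1.mono_ac a1) _ (a1 (b2 _)))]
    refine norm_integral_le_of_norm_le_const ?_
    filter_upwards [a1 b1, ae_restrict_of_ae hc.near] with a h1 h2
    rw [← sub_smul, norm_smul]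
    exact mul_le_mul ((hL _ _).trans (mul_le_mul_of_nonneg_left h2.1 hT₁)) h1 (norm_nonneg _)
      (mul_nonneg hT₁ he0)
  have q3 := real_le_V8 (by linarith) l1
  rw [measureReal_restrict_apply_univ (μ := D.m)] at q1 q3
  have m0 : 0 ≤ D.m.real Z := measureReal_nonneg
  have q4 : (D'.m.restrict Z).real univ ≤ 2 * m₀ := by nlinarith
  have q5 := mul_le_mul_of_nonneg_left q4 (show 0 ≤ T₁ * e * B by positivity)
  have q6 := mul_le_mul_of_nonneg_left hm (show 0 ≤ 3 * e * (T * B) by positivity)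
  rw [e1, e2]
  refine (norm_sub_le_norm_sub_add_norm_sub _ (∫ a in Z, k (D.x a) • f a ∂D'.m) _).trans ?_
  linarith

end Pool.Agent.Lib.MP_8daebb_an.GM.Ch
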