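import Pool.Agent.Lib.MP_8daebb_an.GM.V9
import Pool.Agent.Lib.MP_8daebb_an.GM.V8

/-! The new average. -/

open MeasureTheory Metric Set Filter Topology
open scoped RealInnerProductSpace ContDiff ENNReal

namespace Pool.Agent.Lib.MP_8daebb_an.GM.Ch

variable {d n : ℕ} {α : Type*} [MeasurableSpace α] {H : Type*} [NormedAddCommGroup H]
  [InnerProductSpace ℝ H] [FiniteDimensional ℝ H] [MeasurableSpace H] [BorelSpace H]

omit [MeasurableSpace H] [BorelSpace H] in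
theorem pt_Nw6 {ι : E d →ₗᵢ[ℝ] H} {κ : E n →ₗᵢ[ℝ] H} (hs : Spl ι κ) {u du : E d → E n}
    {e K ρ σ : ℝ} (hu : Pw u 1) (hd : Pw du (K * e)) (hK : 0 ≤ K) (he : 0 ≤ e) (hσ : 0 ≤ σ)
    (hρ : σ + e ≤ ρ) {p x x' : E d} {y y' : H}
    (h : gr ι κ u x + y = gr ι κ (fun z => u z + du z) x' + y')
    (hn : ad (DD ι κ (d1 (fun z => u z + du z) x')) y' = 0) (h1 : ‖x - x'‖ ≤ 5 * e)
    (h2 : ‖p - x‖ ≤ 3 * ρ) (hy : ‖y'‖ ≤ σ + e) :
    ‖ad (DD ι κ (d1 u p)) y'‖ ≤ (8 + K) * ρ * (σ + e) ∧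
      ‖ad (nf ι κ (d1 u p)) y' - (ad (nf ι κ (d1 u x)) y - du x)‖ ≤
        (28 + 5 * K) * ρ * (σ + e) := by
  have a1 := (hu.lip p x).2.1
  have a2 := (hu.lip x x').2.1
  have a3 : d1 (fun z => u z + du z) x' = d1 u x' + d1 du x' :=
    fderiv_fun_add (hu.sm.differentiable (by norm_num) x') (hd.sm.differentiable (by norm_num) x')
  have a4 := hd.n1 x'
  have eρ : e ≤ ρ := by linarith
  have a5 := mul_le_mul_of_nonneg_left eρ hK
  have ap : ∀ {X : Type} [NormedAddCommGroup X] [InnerProductSpace ℝ X] [FiniteDimensional ℝ X]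
      (A B : X →L[ℝ] H) (c : ℝ), ‖A - B‖ ≤ c → ‖ad A y' - ad B y'‖ ≤ c * (σ + e) := by
    intro X _ _ _ A B c hc
    rw [← sub_apply, ← map_sub]
    refine ((ad (A - B)).le_opNorm y').trans ?_
    rw [norm_ad]
    exact mul_le_mul hc hy (norm_nonneg _) ((norm_nonneg _).trans hc)
  constructor
  · have b1 : ‖d1 u p - d1 (fun z => u z + du z) x'‖ ≤ (8 + K) * ρ := by
      have b2 : d1 u p - d1 (fun z => u z + du z) x' =
          (d1 u p - d1 u x) + (d1 u x - d1 u x') - d1 du x' := by rw [a3]; abel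
      rw [b2]
      have b3 := norm_sub_le ((d1 u p - d1 u x) + (d1 u x - d1 u x')) (d1 du x')
      have b4 := norm_add_le (d1 u p - d1 u x) (d1 u x - d1 u x')
      linarith
    have := ap _ _ _ ((DD_sub (ι := ι) (κ := κ) _ _).1.trans b1)
    rwa [hn, sub_zero] at this
  · have b1 := ap _ _ (3 * ρ) ((DD_sub (ι := ι) (κ := κ) (d1 u p) (d1 u x)).2.1.trans
      (by linarith))
    have b2 := new_pt hs hu hd h h1
    have b3 := norm_sub_le_norm_sub_add_norm_sub (ad (nf ι κ (d1 u p)) y')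
      (ad (nf ι κ (d1 u x)) y') (ad (nf ι κ (d1 u x)) y - du x)
    have b4 : e * e ≤ ρ * (σ + e) := mul_le_mul eρ (by linarith) he (by linarith)
    have b5 := mul_le_mul_of_nonneg_left b4 hK
    linarith

theorem ind_Nw6 {X : Type*} [NormedAddCommGroup X] [NormedSpace ℝ X] {μ : Measure α}
    [IsFiniteMeasure μ] {Z : Set α} (hZ : MeasurableSet Z) {k : α → ℝ} {g : α → X} {T c : ℝ}
    (hc : 0 ≤ c) (hk : ∀ a, |k a| ≤ T) (h : ∀ᵐ a ∂μ, k a ≠ 0 → a ∈ Z ∧ ‖g a‖ ≤ c) :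
    ‖∫ a, k a • g a ∂μ‖ ≤ T * c * μ.real Z := by
  refine (norm_integral_le_of_norm_le ((integrable_const (T * c)).indicator hZ) ?_).trans ?_
  · refine h.mono fun a ha => ?_
    by_cases h0 : k a = 0
    · rw [h0, zero_smul, norm_zero]
      exact indicator_nonneg (fun _ _ => mul_nonneg ((abs_nonneg _).trans (hk a)) hc) a
    · rw [indicator_of_mem (ha h0).1, norm_smul]
      exact mul_le_mul (hk a) (ha h0).2 (norm_nonneg _) ((abs_nonneg _).trans (hk a))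
  · rw [integral_indicator hZ, setIntegral_const, smul_eq_mul, mul_comm]

theorem new_av (M : ℝ) : ∃ ε₀ C : ℝ, 0 < ε₀ ∧ 0 < C ∧ ∀ (ι : E d →ₗᵢ[ℝ] H) (κ : E n →ₗᵢ[ℝ] H)
    (c c' : Cen d n) (du : E d → E n) (D D' : CD d α H) (ε e R R' δ ρ σ : ℝ) (v : E d), Spl ι κ →
    Sml (d + 4) c.u ε → ε ≤ ε₀ → Sml (d + 4) du e → e ≤ ε₀ → (c'.u = fun y => c.u y + du y) →
    Fr c.x₀ c.A → Fr c'.x₀ c'.A → ‖c'.x₀ - c.x₀‖ ≤ e → ‖c'.A - c.A‖ ≤ e → CV D 0 R δ M →
    CV D' 0 R' δ M → Lk D (c.F ι κ) → Lk D' (c'.F ι κ) → D'.pos = D.pos → Cmp D D' R' e →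
    0 < ρ → ρ ≤ 1 → 0 ≤ σ → σ + e ≤ ρ → e ≤ ρ ^ 2 → ‖v‖ + 3 * ρ ≤ R' →
    (∀ᵐ a ∂D.m, a ∈ D.cyl v (2 * ρ) → ‖D.y a‖ ≤ σ) →
    ‖D'.av ρ D'.y v‖ ≤ ‖∫ a, kr ρ (v - D.x a) • (vh ι κ c D a - du (c.pt (D.x a))) ∂D.m‖ +
      C * ρ * (σ + e) := by
  obtain ⟨K, K0, hK⟩ := exists_pw (d := d) (n := n)
  obtain ⟨Ck, k0, hk⟩ := kr_facts (d := d)
  refine ⟨1 / (2 * K), (36 + 6 * K) * (2 * 2 ^ d * Ck * |M|) + 5 * Ck * (2 + K) * |M| * 2 ^ d + 1,
    by positivity, by positivity, ?_⟩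
  intro ι κ c c' du D D' ε e R R' δ ρ σ v hs hε hε0 hdu he0 hu' hA hA' hx0 hAA h h' hl hl' hpos
    hc ρ0 ρ1 σ0 hσ heρ hv hy
  have := h.fin
  have := h'.fin
  have e0 : 0 ≤ e := (norm_nonneg _).trans hx0
  have eρ : e ≤ ρ := by linarith
  have half : ∀ t, t ≤ 1 / (2 * K) → K * t ≤ 1 / 2 := fun t ht => by
    rw [le_div_iff₀ (by positivity)] at ht
    linarith
  have pu2 : Pw c.u (1 / 2) := (hK _ _ _ (by omega) hε).mono (half _ hε0)
  have pu : Pw c.u 1 := pu2.mono (by norm_num)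
  have pd : Pw du (K * e) := hK _ _ _ (by omega) hdu
  have pu' := pu.add pd
  obtain ⟨kc, kb, kz, kl, -⟩ := hk ρ ρ0
  have kb' : ∀ x : E d, |kr ρ x| ≤ Ck / ρ ^ d := fun x => by
    rw [abs_of_nonneg (kb x).1]; exact (kb x).2
  obtain ⟨mv, vle, mpt⟩ := vh_meas (ι := ι) (κ := κ) h pu le_rfl
  have ac : D'.m ≪ D.m := Measure.absolutelyContinuous_of_le_smul hc.le
  have hZ := (en_facts h).2.2.1 v (2 * ρ)
  have M0 := (mass_le h).2
  have m0 : D.m.real (D.cyl v (2 * ρ)) ≤ M * (2 * ρ) ^ d :=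
    cyl_mass h (by positivity) (hy.mono fun a ha hz => by linarith [ha hz])
  have m1 : D'.m.real (D.cyl v (2 * ρ)) ≤ 2 * (M * (2 * ρ) ^ d) := by
    have b1 := ENNReal.toReal_mono (by simp [ENNReal.mul_eq_top])
      (Measure.le_iff'.1 hc.le (D.cyl v (2 * ρ)))
    rw [Measure.smul_apply, smul_eq_mul, ENNReal.toReal_mul,
      ENNReal.toReal_ofReal (by positivity)] at b1
    exact b1.trans (mul_le_mul (by linarith) m0 ENNReal.toReal_nonneg (by norm_num))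
  have nA : ∀ z, ‖c.A z‖ ≤ 11 / 10 * ‖z‖ := fun z => by
    have b1 := ((c.A - 1).le_opNorm z).trans (mul_le_mul_of_nonneg_right hA.A_le (norm_nonneg _))
    rw [sub_apply, one_apply_eq_self] at b1
    linarith [norm_sub_norm_le (c.A z) z]
  have key : ∀ᵐ a ∂D'.m, kr ρ (v - D'.x a) ≠ 0 → a ∈ D.cyl v (2 * ρ) ∧
      ‖ad (DD ι κ (d1 c.u (c.pt v))) (D'.y a)‖ ≤ (8 + K) * ρ * (σ + e) ∧
      ‖ad (nf ι κ (d1 c.u (c.pt v))) (D'.y a) - (vh ι κ c D a - du (c.pt (D.x a)))‖ ≤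
        (28 + 5 * K) * ρ * (σ + e) := by
    filter_upwards [h'.ae_G, ac.ae_le h.ae_G, ac.ae_le hy, hc.near] with a g' g ya na hne
    have b1 : ‖v - D'.x a‖ < ρ := not_le.1 fun hh => hne (kz _ hh)
    have b2 : ‖D.x a - v‖ < 2 * ρ := by
      have := norm_add_le (v - D'.x a) (D'.x a - D.x a)
      rw [sub_add_sub_cancel, norm_sub_rev] at this
      linarith [na.1]
    refine ⟨b2, pt_Nw6 (x' := c'.pt (D'.x a)) hs pu pd K0.le e0 σ0 hσ ?_ ?_ ?_ ?_ ?_⟩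
    · have b3 := hl.pos a g
      have b4 := hl'.pos a g'
      rw [hpos, b3, Cen.F, Cen.F, hu'] at b4
      exact b4
    · have b3 := hl'.nor a g'
      rw [Cen.F, hu', d1_aff_gr pu'.sm, hA'.ad_comp] at b3
      exact b3
    · have b3 : c.pt (D.x a) - c'.pt (D'.x a) =
          -((c'.x₀ - c.x₀) + c.A (D'.x a - D.x a) + (c'.A - c.A) (D'.x a)) := by
        simp only [Cen.pt, map_sub, sub_apply]
        abel
      have b4 := ((c'.A - c.A).le_opNorm (D'.x a)).trans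
        (mul_le_mul hAA (h'.pw a g').x_le (norm_nonneg _) e0)
      have b5 := nA (D'.x a - D.x a)
      rw [b3, norm_neg]
      linarith [norm_add₃_le (a := c'.x₀ - c.x₀) (b := c.A (D'.x a - D.x a))
        (c := (c'.A - c.A) (D'.x a)), na.1]
    · have b3 : c.pt v - c.pt (D.x a) = -c.A (D.x a - v) := by
        simp only [Cen.pt, map_sub]
        abel
      rw [b3, norm_neg]
      linarith [nA (D.x a - v)]
    · linarith [norm_sub_norm_le (D'.y a) (D.y a), na.2.1, ya b2]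
  have mk : Measurable fun a => kr ρ (v - D'.x a) :=
    kc.measurable.comp (measurable_const.sub h'.m_x)
  have mf : Measurable fun a => vh ι κ c D a - du (c.pt (D.x a)) :=
    mv.sub (pd.sm.continuous.measurable.comp mpt)
  have fle : ∀ a, ‖vh ι κ c D a - du (c.pt (D.x a))‖ ≤ 2 * ‖D.y a‖ + K * e := fun a =>
    (norm_sub_le _ _).trans (add_le_add (vle a) (pd.n0 _))
  have iy : Integrable (fun a => kr ρ (v - D'.x a) • D'.y a) D'.m :=
    (integrable_const (Ck / ρ ^ d * 2)).mono' (mk.smul h'.m_y).aestronglyMeasurable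
      (h'.ae_G.mono fun a ha => by
        rw [norm_smul]
        exact mul_le_mul (kb' _) (h'.pw a ha).y_two (norm_nonneg _) (by positivity))
  have iF : Integrable (fun a => kr ρ (v - D'.x a) • (vh ι κ c D a - du (c.pt (D.x a)))) D'.m :=
    (integrable_const (Ck / ρ ^ d * (2 * 2 + K * e))).mono' (mk.smul mf).aestronglyMeasurable (by
      filter_upwards [ac.ae_le h.ae_G] with a ha
      rw [norm_smul]
      exact mul_le_mul (kb' _) ((fle a).trans (by linarith [(h.pw a ha).y_two])) (norm_nonneg _)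
        (by positivity))
  have t1 := ind_Nw6 hZ (by positivity) (fun a => kb' (v - D'.x a))
    (key.mono fun a ha hne => ⟨(ha hne).1, (ha hne).2.1⟩)
  have t2 := ind_Nw6 hZ (by positivity) (fun a => kb' (v - D'.x a))
    (key.mono fun a ha hne => ⟨(ha hne).1, (ha hne).2.2⟩)
  have t3 := cmp_int h h' hc e0 (eρ.trans ρ1) eρ (k := fun x => kr ρ (v - x)) (v := v)
    (T₁ := Ck / ρ ^ (d + 1)) (fun x => kb' _) (by positivity)
    (fun x x' => by
      have := kl (v - x) (v - x')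
      rwa [sub_sub_sub_cancel_left, norm_sub_rev x' x] at this)
    (fun x hx => kz _ (by rwa [norm_sub_rev])) (by linarith) mf.aestronglyMeasurable
    (B := (2 + K) * (σ + e)) (by positivity)
    (hy.mono fun a ha hz => (fle a).trans (by nlinarith [ha hz, mul_nonneg K0.le σ0])) m0
  have e1 : ad (DD ι κ (d1 c.u (c.pt v))) (D'.av ρ D'.y v) =
      ∫ a, kr ρ (v - D'.x a) • ad (DD ι κ (d1 c.u (c.pt v))) (D'.y a) ∂D'.m := by
    rw [CD.av, ← ContinuousLinearMap.integral_comp_comm _ iy]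
    simp only [map_smul]
  have e2 : ad (nf ι κ (d1 c.u (c.pt v))) (D'.av ρ D'.y v) -
      ∫ a, kr ρ (v - D'.x a) • (vh ι κ c D a - du (c.pt (D.x a))) ∂D'.m =
      ∫ a, kr ρ (v - D'.x a) • (ad (nf ι κ (d1 c.u (c.pt v))) (D'.y a) -
        (vh ι κ c D a - du (c.pt (D.x a)))) ∂D'.m := by
    rw [CD.av, ← ContinuousLinearMap.integral_comp_comm _ iy,
      ← integral_sub (ContinuousLinearMap.integrable_comp _ iy) iF]
    simp only [map_smul, ← smul_sub]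
  rw [← e1] at t1
  rw [← e2] at t2
  have s1 : ∀ b : ℝ, 0 ≤ b → Ck / ρ ^ d * (b * ρ * (σ + e)) * D'.m.real (D.cyl v (2 * ρ)) ≤
      b * (2 * 2 ^ d * Ck * M) * ρ * (σ + e) := fun b hb =>
    (mul_le_mul_of_nonneg_left m1 (by positivity)).trans (le_of_eq (by rw [mul_pow]; field_simp))
  have s2 : (2 * (Ck / ρ ^ (d + 1)) + 3 * (Ck / ρ ^ d)) * e * ((2 + K) * (σ + e)) *
      (M * (2 * ρ) ^ d) ≤ 5 * Ck * (2 + K) * M * 2 ^ d * ρ * (σ + e) := by
    have b1 : 2 * (e / ρ) + 3 * e ≤ 5 * ρ := by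
      have : e / ρ ≤ ρ := by rw [div_le_iff₀ ρ0]; linarith
      linarith
    calc _ = Ck * (2 + K) * M * 2 ^ d * (σ + e) * (2 * (e / ρ) + 3 * e) := by
          rw [mul_pow, pow_succ]; field_simp
      _ ≤ Ck * (2 + K) * M * 2 ^ d * (σ + e) * (5 * ρ) :=
          mul_le_mul_of_nonneg_left b1 (by positivity)
      _ = _ := by ring
  have s3 := hs.norm_le (d1 c.u (c.pt v)) (D'.av ρ D'.y v)
  have s4 := (norm_sub_norm_le _ _).trans t2
  have s5 := (norm_sub_norm_le _ _).trans t3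
  have s6 : 0 ≤ ρ * (σ + e) := by positivity
  rw [abs_of_nonneg M0]
  linarith [s1 (8 + K) (by positivity), s1 (28 + 5 * K) (by positivity)]

end Pool.Agent.Lib.MP_8daebb_an.GM.Ch
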