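import Pool.Agent.Lib.MP_8daebb_an.GM.ChSysA
import Pool.Agent.Lib.MP_8daebb_an.GM.ChC2
import Pool.Agent.Lib.MP_8daebb_an.GM.Nw3
import Pool.Agent.Lib.MP_8daebb_an.GM.Nw5
import Pool.Agent.Lib.MP_8daebb_an.GM.Nw6

/-! The Newton step and the system of charts. -/

open MeasureTheory Metric Set Filter Topology
open scoped RealInnerProductSpace ContDiff ENNReal

namespace Pool.Agent.Lib.MP_8daebb_an.GM.Ch

variable {d n : ℕ} {H : Type*} [NormedAddCommGroup H] [InnerProductSpace ℝ H]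
  [FiniteDimensional ℝ H] [MeasurableSpace H] [BorelSpace H]

theorem newt_main (hd : 1 ≤ d) (M : ℝ) {Q : ℕ} (hQ : 1 ≤ Q) : ∃ (CN e : ℝ) (KN : ℕ), 0 < e ∧
    ∀ (V : Measure (H × (H →L[ℝ] H))) (ι : E d →ₗᵢ[ℝ] H) (κ : E n →ₗᵢ[ℝ] H) (θ η cN e' : ℝ),
    Spl ι κ → EV V ι M θ η → η ≤ e → 0 < cN → cN ≤ e → e' ≤ e →
    NewtAt V ι κ Q CN cN e' KN := by
  obtain ⟨ε₅, C₅, K, hε₅, hC₅, h5⟩ :=
    solve_step (d := d) (n := n) (α := H × (H →L[ℝ] H)) (H := H) (2 * 3 ^ d * M) hQ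
  obtain ⟨ε₃, C₃, hε₃, hC₃, h3⟩ := gauge (d := d) (n := n) (H := H)
  obtain ⟨ε₆, C₆, hε₆, hC₆, h6⟩ :=
    new_av (d := d) (n := n) (α := H × (H →L[ℝ] H)) (H := H) (2 * 3 ^ d * M)
  obtain ⟨C, hC, hp⟩ := adm_pre (d := d) (n := n) (H := H)
  have hc := cH_ge (H := H)
  have hP : 0 < cH H * C := by positivity
  have hG : 1000 ≤ cH H * C₃ := by nlinarith
  refine ⟨C₅ * (cH H * C₃) + C₅ + C₆, min (min ε₅ (min ε₃ ε₆)) (1 / (4 * (cH H * C))), K + 2,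
    by positivity, fun V ι κ θ η cN e' hs hV hη c0 hcN he' => ?_⟩
  intro c ε R R₁ l s ρ β εJ N h hε hR hR₁ hs0 hρ hy hE hN hNQ hsρ hρl hl hβ hJ hJ'
  replace hε := hε.trans he'
  simp only [le_min_iff] at hη hcN hε
  obtain ⟨-, n1⟩ := hη
  obtain ⟨⟨c5, c3, c6⟩, c1⟩ := hcN
  obtain ⟨⟨e5, e3, e6⟩, e1⟩ := hε
  rw [le_div_iff₀ (by positivity)] at n1 c1 e1
  have hη0 := ev_eps_nonneg hV
  have hε0 : 0 ≤ ε := (norm_nonneg _).trans h.x_le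
  have hPc : 1000 ≤ cH H * C := by nlinarith
  have hβ0 : 0 ≤ β := (integral_nonneg fun u => norm_nonneg _).trans hβ
  have hl0 : 0 < l := (pos_iff_pos_of_mul_pos (hρ.trans_le hρl)).1 c0
  have hcs : cN ≤ 1 / 4000 := by nlinarith
  have hεs : ε ≤ 1 / 4000 := by nlinarith
  have hηs : η ≤ 1 / 100 := by nlinarith
  have hl8 : l ≤ 1 / 8 := by linarith
  have hρl' : ρ ≤ l / 4000 := by nlinarith
  have hρ1 : ρ ≤ 1 := by linarith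
  have hK2 : ρ ^ (K + 2) ≤ ρ ^ 2 := pow_le_pow_of_le_one hρ.le hρ1 (by omega)
  have hKK : ρ ^ (K + 2) ≤ ρ ^ K := pow_le_pow_of_le_one hρ.le hρ1 (by omega)
  have hρ2 : ρ ^ 2 ≤ ρ / 4000 := by nlinarith
  have hρK : 0 < ρ ^ (K + 2) := by positivity
  have hlK : l ^ (K + 2) ≤ l ^ K := pow_le_pow_of_le_one hl0.le (by linarith) (by omega)
  have hlK0 : 0 < l ^ (K + 2) := by positivity
  have hlK1 : l ^ (K + 2) ≤ 1 := pow_le_one₀ hl0.le (by linarith)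
  have hX : 0 ≤ β + s ^ 2 * ρ := by positivity
  have hJ0 : 0 ≤ εJ := le_trans (by positivity) hJ
  have hJc : εJ ≤ cN := by nlinarith
  have hJK : εJ ≤ ρ ^ (K + 2) := by nlinarith
  have hs2 : s ^ 2 ≤ ρ / 2 := by nlinarith
  obtain ⟨γ, hγ⟩ : ∃ γ, γ = εJ / (cH H * C₃) := ⟨_, rfl⟩
  have hγ0 : 0 ≤ γ := by rw [hγ]; positivity
  have hγe : cH H * (C₃ * γ) = εJ := by rw [hγ]; field_simp
  have hγ1 : 0 ≤ C₃ * γ := by positivity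
  have hγ2 : C₃ * γ ≤ εJ / 1000 := by nlinarith
  have hγ3 : γ ≤ εJ := by nlinarith
  have hcv : ∀ (c : Cen d n) (ε R : ℝ), Adm ι κ c ε R → ε * (cH H * C) ≤ 1 / 2 → 0 < R → R ≤ 2 →
      Pre ι (c.F ι κ) 0 (C * ε) R ∧ CV (chart V (c.F ι κ) R) 0 R 1 (2 * 3 ^ d * M) :=
    fun c ε R h hε hR0 hR => by
      have p := hp ι κ c ε R hs h (by nlinarith) (by linarith)
      refine ⟨p, p.cv h.nrm hd hR hR0 hV hηs ?_⟩
      nlinarith [mul_nonneg (mul_nonneg hη0 (by linarith : (0 : ℝ) ≤ cH H))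
        (by linarith : (0 : ℝ) ≤ C - 1)]
  obtain ⟨p, cv⟩ := hcv c ε R h (by linarith) (by linarith) hR
  have fr := h.fr (by linarith)
  obtain ⟨du, d1', d2', d3'⟩ := h5 ι κ c (chart V (c.F ι κ) R) ε R 1 R₁ l s ρ β γ N hs h.sml e5 fr cv
    (lk_chart V _ R) hR₁ hs0 hρ (by linarith) (by linarith) hl
    (fun x hx => h.eqn_el (by linarith) x (el_mono hR₁ hx)) hy hE hβ le_rfl hN hNQ
    (by
      rw [hγ, le_div_iff₀ (by positivity)]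
      refine le_trans ?_ hJ
      rw [div_mul_eq_mul_div]
      refine div_le_div₀ (by positivity) ?_ hlK0 hlK
      nlinarith [mul_nonneg hC₅.le hX, mul_nonneg hC₆.le hX])
    (by linarith) (hsρ.trans hKK) (by linarith)
  obtain ⟨c', g1, g2, g3, g4, g5⟩ := h3 ι κ c du ε γ R (R₁ - 8 * l) hs h d1' e3 (by linarith)
    (by linarith) fun x hx => d2' x (el_mono (by linarith) hx)
  have g2' : Adm ι κ c' (ε + εJ) (R₁ - 8 * l) := g2.mono (by linarith) le_rfl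
  obtain ⟨p', cv'⟩ := hcv c' (ε + εJ) (R₁ - 8 * l) g2'
    (by nlinarith [mul_le_mul_of_nonneg_right hJc hP.le]) (by linarith) (by linarith)
  have cmp := cmp_chart p p' g5 hγ1 (by linarith) (by linarith) hV hηs hγe.le
  refine ⟨c', g2', cmp, fun v hv => ?_⟩
  have hcyl : (chart V (c.F ι κ) R).cyl v (2 * ρ) ⊆ (chart V (c.F ι κ) R).cyl 0 R₁ := fun a ha => by
    have e := norm_le_norm_add_norm_sub' ((chart V (c.F ι κ) R).x a) v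
    have ha' : ‖(chart V (c.F ι κ) R).x a - v‖ < 2 * ρ := ha
    change ‖(chart V (c.F ι κ) R).x a - 0‖ < R₁
    rw [sub_zero]
    linarith
  refine (h6 ι κ c c' du _ _ ε εJ R (R₁ - 8 * l) 1 ρ (s ^ 2) v hs h.sml e6 (d1'.mono hγ3)
    (by linarith) g1 fr (g2'.fr (by linarith)) (by linarith) (by linarith) cv cv' (lk_chart V _ R)
    (lk_chart V _ _) rfl cmp hρ hρ1 (sq_nonneg s) (by linarith) (by linarith) (by linarith)
    (hy.mono fun a ha h1 => ha (hcyl h1))).trans ?_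
  have hY : 0 ≤ ρ * (s ^ 2 + εJ) := by positivity
  have k1 : C₅ * ρ * (s ^ 2 + γ) / l ^ K ≤ C₅ * (ρ * (s ^ 2 + εJ)) / l ^ (K + 2) := by
    refine div_le_div₀ (by positivity) ?_ hlK0 hlK
    rw [mul_assoc]
    gcongr
  have k2 : C₆ * ρ * (s ^ 2 + εJ) ≤ C₆ * (ρ * (s ^ 2 + εJ)) / l ^ (K + 2) := by
    rw [le_div_iff₀ hlK0, mul_assoc C₆]
    exact mul_le_of_le_one_right (by positivity) hlK1
  refine (add_le_add ((d3' v (by linarith)).trans k1) k2).trans ?_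
  rw [← add_div]
  refine div_le_div_of_nonneg_right ?_ hlK0.le
  nlinarith [mul_nonneg (mul_nonneg hC₅.le (by linarith : (0 : ℝ) ≤ cH H * C₃)) hY]

theorem sysA (hd : 1 ≤ d) (M θ : ℝ) : ∃ M₁ : ℝ, ∀ Q : ℕ, 1 ≤ Q → ∃ (CN cN : ℝ) (KN : ℕ), 0 < cN ∧
    ∀ δ > 0, ∃ e₀ > 0, ∀ e₁, 0 < e₁ → e₁ ≤ e₀ → ∀ εB > 0, ∀ δ₂ > 0, ∃ η₀ > 0, ∀ η ≤ η₀,
    ∀ (V : Measure (H × (H →L[ℝ] H))) (ι : E d →ₗᵢ[ℝ] H) (κ : E n →ₗᵢ[ℝ] H), Spl ι κ →
      EV V ι M θ η →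
      Sys (Adm ι κ) (fun c R => chart V (c.F ι κ) R) M₁ θ δ e₁ εB δ₂ Q CN cN KN := by
  refine ⟨2 * 3 ^ d * M, fun Q hQ => ?_⟩
  obtain ⟨CN, e, KN, he, hN⟩ := newt_main (d := d) (n := n) (H := H) hd M hQ
  obtain ⟨c₁, hc₁, hA⟩ := sysA_of (d := d) (n := n) (H := H) hd M θ
  refine ⟨CN, min c₁ e, KN, by positivity, fun δ hδ => ?_⟩
  obtain ⟨e₀, he₀, hA⟩ := hA δ hδ
  refine ⟨min e₀ (e / 3), by positivity, fun e₁ h0 h1 εB hεB δ₂ hδ₂ => ?_⟩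
  rw [le_min_iff] at h1
  obtain ⟨η₀, hη₀, hA⟩ := hA e₁ h0 h1.1 εB hεB δ₂ hδ₂
  refine ⟨min η₀ e, by positivity, fun η hη V ι κ hs hV => ?_⟩
  rw [le_min_iff] at hη
  exact hA η hη.1 V ι κ Q KN CN _ hs hV (min_le_left _ _)
    (hN V ι κ θ η _ _ hs hV hη.2 (by positivity) (min_le_right _ _) (by linarith [h1.2]))

end Pool.Agent.Lib.MP_8daebb_an.GM.Ch
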