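import Pool.Agent.Lib.MP_8daebb_an.GM.ChB3

/-! Pointwise bounds for the horizontal fields. -/

open Finset
open scoped RealInnerProductSpace

namespace Pool.Agent.Lib.MP_8daebb_an.GM.Ch

variable {d : ℕ} {H : Type*} [NormedAddCommGroup H] [InnerProductSpace ℝ H]
  [FiniteDimensional ℝ H]

variable {ε : ℝ} {D : E d →L[ℝ] H} {A : E d →L[ℝ] E d →L[ℝ] H}
  {B : E d →L[ℝ] E d →L[ℝ] E d →L[ℝ] H} {y : H} {P : H →L[ℝ] H}

theorem s_le_ChP1 (h : Jet ε D A B y) : 0 ≤ ε * ‖y‖ ∧ ε * ‖y‖ ≤ 1 / 1000 :=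
  ⟨mul_nonneg h.eps0 (norm_nonneg _),
    (mul_le_of_le_one_right h.eps0 h.y1).trans h.toJet0.eps_le⟩

theorem op_le_ChP1 {X Y : Type*} [NormedAddCommGroup X] [NormedSpace ℝ X] [NormedAddCommGroup Y]
    [NormedSpace ℝ Y] {M : X →L[ℝ] Y} {c r : ℝ} {v : X} (h : ‖M‖ ≤ c) (hv : ‖v‖ ≤ r) :
    ‖M v‖ ≤ c * r :=
  (M.le_opNorm v).trans (mul_le_mul h hv (norm_nonneg _) ((norm_nonneg _).trans h))

theorem sub_le_ChP1 (h : Jet ε D A B y) (v : E d) :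
    ‖gi D (kk D A y v) - v‖ ≤ 101 / 100 * (ε * ‖y‖ * ‖v‖) := by
  rw [h.gi_kk, sub_sub_cancel_left, norm_neg]
  exact op_le_ChP1 h.toJet0.norm_gi (op_le_ChP1 (h.norm_sh y) le_rfl)

theorem nrm_le_ChP1 (h : Jet ε D A B y) (v : E d) :
    ‖gi D (kk D A y v)‖ ≤ 101 / 100 * ‖v‖ := by
  have h1 := sub_le_ChP1 h v
  have h2 := norm_le_insert' (gi D (kk D A y v)) v
  have h3 := mul_le_mul_of_nonneg_right (s_le_ChP1 h).2 (norm_nonneg v)
  have h4 := norm_nonneg v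
  linarith

theorem dx_P_xi (h : Jet ε D A B y) (P : H →L[ℝ] H) (v : E d) :
    dx D A y (P (xi D A y v)) = v - fτ D A y P v := by
  have e : fτ D A y P v = dx D A y (xi D A y v - P (xi D A y v)) := rfl
  rw [e, map_sub, h.dx_xi, sub_sub_cancel]

theorem fτ_apply (h : Jet ε D A B y) (P : H →L[ℝ] H) (v : E d) :
    fτ D A y P v = ki D A y (fT D P (gi D (kk D A y v))) := by
  have _ := h.eps0
  rfl

theorem tr_fτ (h : Jet ε D A B y) (P : H →L[ℝ] H) : trH (fτ D A y P) = ft D P := by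
  have e1 : fτ D A y P = (ki D A y).comp ((fT D P).comp ((gi D).comp (kk D A y))) :=
    ContinuousLinearMap.ext fun v => fτ_apply h P v
  have e2 : ((fT D P).comp ((gi D).comp (kk D A y))).comp (ki D A y) = (fT D P).comp (gi D) :=
    ContinuousLinearMap.ext fun v => by
      change fT D P (gi D (kk D A y (ki D A y v))) = fT D P (gi D v)
      rw [h.kk_ki]
  rw [e1, trH_comm, e2, trH_comm]
  rfl

theorem fτ_le (h : Jet ε D A B y) (hP : IsPlane d P) : ‖fτ D A y P‖ ≤ 2 * ft D P := by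
  have t0 := ft_nonneg h.toJet0 hP
  refine ContinuousLinearMap.opNorm_le_bound _ (by positivity) fun v => ?_
  rw [fτ_apply h]
  have h1 := op_le_ChP1 h.norm_ki (op_le_ChP1 (fT_le' h.toJet0 hP) (nrm_le_ChP1 h v))
  have h2 := mul_nonneg t0 (norm_nonneg v)
  linarith

theorem fT_fτ (h : Jet ε D A B y) (hP : IsPlane d P) :
    ‖(gm D).comp (fτ D A y P) - fT D P‖ ≤ cH H * ε * ‖y‖ * ft D P := by
  have t0 := ft_nonneg h.toJet0 hP
  have c0 := cH_ge (H := H)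
  have s0 := (s_le_ChP1 h).1
  have e0 := h.eps0
  refine ContinuousLinearMap.opNorm_le_bound _ (by positivity) fun v => ?_
  have e1 : ∀ w, gm D (ki D A y w) = w + shL A y (ki D A y w) := fun w => by
    have := h.kk_ki w
    rw [kk, sub_apply] at this
    exact eq_add_of_sub_eq this
  have e2 : ((gm D).comp (fτ D A y P) - fT D P) v = fT D P (gi D (kk D A y v) - v) +
      shL A y (ki D A y (fT D P (gi D (kk D A y v)))) := by
    rw [sub_apply, ContinuousLinearMap.comp_apply, fτ_apply h, e1, map_sub]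
    abel
  rw [e2]
  have h1 := op_le_ChP1 (fT_le' h.toJet0 hP) (sub_le_ChP1 h v)
  have h2 := op_le_ChP1 (h.norm_sh y)
    (op_le_ChP1 h.norm_ki (op_le_ChP1 (fT_le' h.toJet0 hP) (nrm_le_ChP1 h v)))
  have h3 : 0 ≤ ε * ‖y‖ * ft D P * ‖v‖ := by positivity
  have h4 := mul_le_mul_of_nonneg_right c0 h3
  refine (norm_add_le _ _).trans ?_
  linarith

theorem pn_P_ChP1 (h : Jet0 ε D) (P : H →L[ℝ] H) (v : E d) :
    P (D v) - pT D (P (D v)) = -((D v - P (D v)) - pT D (D v - P (D v))) := by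
  rw [map_sub, h.pT_D]
  abel

theorem inner_pn_ChP1 (h : Jet0 ε D) (a b : H) :
    ⟪a - pT D a, b - pT D b⟫ = ⟪a, b⟫ - ⟪pT D a, pT D b⟫ := by
  have e1 : ⟪pT D a, pT D b⟫ = ⟪a, pT D b⟫ := by rw [h.pT_symm, h.pT_idem]
  rw [inner_sub_left, inner_sub_right, inner_sub_right, e1, h.pT_symm]
  ring

theorem fT_diff_ChP1 (h : Jet ε D A B y) (hP : IsPlane d P) (v u : E d) :
    |⟪fT D P (gi D (kk D A y v)), gi D (kk D A y u)⟫ - ⟪fT D P v, u⟫| ≤
      3 * (ε * ‖y‖ * ft D P * (‖v‖ * ‖u‖)) := by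
  have t0 := ft_nonneg h.toJet0 hP
  have s0 := (s_le_ChP1 h).1
  have e : ⟪fT D P (gi D (kk D A y v)), gi D (kk D A y u)⟫ - ⟪fT D P v, u⟫ =
      ⟪fT D P (gi D (kk D A y v) - v), gi D (kk D A y u)⟫ + ⟪fT D P v, gi D (kk D A y u) - u⟫ := by
    rw [map_sub, inner_sub_left, inner_sub_right]
    ring
  rw [e]
  have h1 := (abs_real_inner_le_norm _ _).trans (mul_le_mul
    (op_le_ChP1 (fT_le' h.toJet0 hP) (sub_le_ChP1 h v)) (nrm_le_ChP1 h u) (norm_nonneg _)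
    (by positivity))
  have h2 := (abs_real_inner_le_norm _ _).trans (mul_le_mul
    (op_le_ChP1 (fT_le' h.toJet0 hP) (le_refl ‖v‖)) (sub_le_ChP1 h u) (norm_nonneg _)
    (by positivity))
  have h3 : 0 ≤ ε * ‖y‖ * ft D P * (‖v‖ * ‖u‖) := by positivity
  refine (abs_add_le _ _).trans ?_
  linarith

theorem key_ChP1 (h : Jet ε D A B y) (hP : IsPlane d P) (v u : E d) :
    |⟪fT D P v, u⟫ - ⟪fb D A y P v, fb D A y P u⟫ -
      ⟪pT D (xi D A y v - P (xi D A y v)), pT D (xi D A y u - P (xi D A y u))⟫| ≤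
      cH H * ε * (‖y‖ * ft D P + ‖y‖ ^ 2) * (‖v‖ * ‖u‖) := by
  have t0 := ft_nonneg h.toJet0 hP
  have c0 := cH_ge (H := H)
  have s0 := (s_le_ChP1 h).1
  have e0 := h.eps0
  have e1 := h.toJet0.eps_le
  have b1 : ∀ w, ‖shL A y (dx D A y (P (xi D A y w)))‖ ≤
      ε * ‖y‖ * (103 / 100 * (1 * (103 / 100 * ‖w‖))) := fun w =>
    op_le_ChP1 (h.norm_sh y) (op_le_ChP1 h.norm_dx (op_le_ChP1 (plane_opNorm hP)
      (op_le_ChP1 h.norm_xi le_rfl)))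
  have h1 := (abs_real_inner_le_norm _ _).trans (mul_le_mul
    (op_le_ChP1 h.toJet0.norm_gi (b1 v)) (b1 u) (norm_nonneg _) (by positivity))
  have h2 := fT_diff_ChP1 h hP v u
  have e : ⟪fb D A y P v, fb D A y P u⟫ =
      ⟪fT D P (gi D (kk D A y v)), gi D (kk D A y u)⟫ -
        ⟪pT D (xi D A y v - P (xi D A y v)), pT D (xi D A y u - P (xi D A y u))⟫ +
        ⟪gi D (shL A y (dx D A y (P (xi D A y v)))), shL A y (dx D A y (P (xi D A y u)))⟫ := by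
    change ⟪dy D A y (P (xi D A y v)), dy D A y (P (xi D A y u))⟫ = _
    rw [h.inner_dy_dy, inner_fT D hP, xi_apply, xi_apply, pn_P_ChP1 h.toJet0, pn_P_ChP1 h.toJet0,
      inner_neg_neg, inner_pn_ChP1 h.toJet0]
  rw [e]
  have h3 : 0 ≤ ε * ‖y‖ * ft D P * (‖v‖ * ‖u‖) := by positivity
  have h4 : 0 ≤ ε * ‖y‖ ^ 2 * (‖v‖ * ‖u‖) := by positivity
  have h5 := mul_le_mul_of_nonneg_right c0 h3
  have h6 := mul_le_mul_of_nonneg_right c0 h4
  have h7 := mul_le_mul_of_nonneg_right e1 h4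
  rw [abs_le] at h1 h2 ⊢
  constructor <;> nlinarith [h1.1, h1.2, h2.1, h2.2]

theorem fb_hopf (h : Jet ε D A B y) (hP : IsPlane d P) (v u : E d) :
    |⟪fT D P v, u⟫ - ⟪fb D A y P v, fb D A y P u⟫| ≤
      (2 * ft D P ^ 2 + cH H * ε * (‖y‖ * ft D P + ‖y‖ ^ 2)) * ‖v‖ * ‖u‖ := by
  have t0 := ft_nonneg h.toJet0 hP
  have b1 : ∀ w, ‖pT D (xi D A y w - P (xi D A y w))‖ ≤ ft D P * (103 / 100 * ‖w‖) := fun w =>
    (norm_pT_Q h.toJet0 hP _).trans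
      (mul_le_mul_of_nonneg_left (op_le_ChP1 (M := xi D A y) h.norm_xi (le_refl ‖w‖)) t0)
  have h1 := (abs_real_inner_le_norm _ _).trans (mul_le_mul (b1 v) (b1 u) (norm_nonneg _)
    (by positivity))
  have h2 := key_ChP1 h hP v u
  have h3 : 0 ≤ ft D P ^ 2 * (‖v‖ * ‖u‖) := by positivity
  rw [abs_le] at h1 h2 ⊢
  constructor <;> linarith [h1.1, h1.2, h2.1, h2.2]

theorem fb_sq (h : Jet ε D A B y) (hP : IsPlane d P) (v : E d) :
    ‖fb D A y P v‖ ^ 2 ≤ ⟪fT D P v, v⟫ + cH H * ε * (‖y‖ * ft D P + ‖y‖ ^ 2) * ‖v‖ ^ 2 := by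
  have h1 := (abs_le.1 (key_ChP1 h hP v v)).1
  have h2 := real_inner_self_nonneg (x := pT D (xi D A y v - P (xi D A y v)))
  rw [real_inner_self_eq_norm_sq (fb D A y P v), ← sq] at h1
  linarith

theorem fb_rad (h : Jet ε D A B y) (hP : IsPlane d P) (v : E d) :
    ⟪y, fb D A y P v⟫ ^ 2 ≤ ‖y‖ ^ 2 * (⟪fT D P v, v⟫ + cH H * ε * ‖y‖ * ft D P * ‖v‖ ^ 2) := by
  have t0 := ft_nonneg h.toJet0 hP
  have c0 := cH_ge (H := H)
  have s0 := (s_le_ChP1 h).1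
  set a := D (gi D (kk D A y v)) - P (D (gi D (kk D A y v))) with ha
  have e1 : ⟪y, fb D A y P v⟫ = -⟪y, a⟫ := by
    change ⟪y, dy D A y (P (D (gi D (kk D A y v))))⟫ = _
    rw [← h.dy_symm, h.dy_y, ha, inner_sub_right, real_inner_comm (D _) y, h.inner_D_y]
    ring
  have e2 : ‖a‖ ^ 2 = ⟪fT D P (gi D (kk D A y v)), gi D (kk D A y v)⟫ := by
    rw [inner_fT D hP, real_inner_self_eq_norm_sq]
  have h1 := (abs_le.1 (fT_diff_ChP1 h hP v v)).2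
  have h3 : 0 ≤ ε * ‖y‖ * ft D P * (‖v‖ * ‖v‖) := by positivity
  have h4 := mul_le_mul_of_nonneg_right c0 h3
  have h5 : ‖a‖ ^ 2 ≤ ⟪fT D P v, v⟫ + cH H * ε * ‖y‖ * ft D P * ‖v‖ ^ 2 := by
    rw [e2]
    linarith
  rw [e1, neg_sq]
  refine le_trans ?_ (mul_le_mul_of_nonneg_left h5 (sq_nonneg _))
  rw [← mul_pow, ← sq_abs]
  exact pow_le_pow_left₀ (abs_nonneg _) (abs_real_inner_le_norm _ _) 2

theorem fb_le (h : Jet ε D A B y) (hP : IsPlane d P) :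
    ‖fb D A y P‖ ≤ 2 * √(ft D P) + cH H * ε * ‖y‖ := by
  have c0 := cH_ge (H := H)
  have s0 := (s_le_ChP1 h).1
  have e0 := h.eps0
  have r0 := Real.sqrt_nonneg (ft D P)
  refine ContinuousLinearMap.opNorm_le_bound _ (by positivity) fun v => ?_
  have h1 := (norm_dy_P h hP (xi D A y v)).trans (mul_le_mul_of_nonneg_left
    (op_le_ChP1 (M := xi D A y) h.norm_xi (le_refl ‖v‖)) (by positivity))
  have h2 : 0 ≤ ε * ‖y‖ * ‖v‖ := by positivity
  have h3 := mul_le_mul_of_nonneg_right c0 h2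
  have h4 := mul_nonneg r0 (norm_nonneg v)
  change ‖dy D A y (P (xi D A y v))‖ ≤ _
  linarith

end Pool.Agent.Lib.MP_8daebb_an.GM.Ch
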