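import Pool.Agent.Lib.MP_8daebb_an.GM.ChB3

/-! Pointwise bounds for the vertical fields. -/

open Finset
open scoped RealInnerProductSpace

namespace Pool.Agent.Lib.MP_8daebb_an.GM.Ch

variable {d : ℕ} {H : Type*} [NormedAddCommGroup H] [InnerProductSpace ℝ H]
  [FiniteDimensional ℝ H]

variable {ε : ℝ} {D : E d →L[ℝ] H} {A : E d →L[ℝ] E d →L[ℝ] H}
  {B : E d →L[ℝ] E d →L[ℝ] E d →L[ℝ] H} {y : H} {P : H →L[ℝ] H}

theorem app_ChP2 {X Y : Type*} [NormedAddCommGroup X] [NormedSpace ℝ X] [NormedAddCommGroup Y]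
    [NormedSpace ℝ Y] {M : X →L[ℝ] Y} {a b : ℝ} {v : X} (hM : ‖M‖ ≤ a) (hv : ‖v‖ ≤ b) :
    ‖M v‖ ≤ a * b :=
  (M.le_opNorm v).trans (mul_le_mul hM hv (norm_nonneg _) ((norm_nonneg _).trans hM))

theorem s_ChP2 (h : Jet ε D A B y) :
    0 ≤ ε * ‖y‖ ∧ ε * ‖y‖ ≤ ‖y‖ / 1000 ∧ ε * ‖y‖ ≤ 1 / 1000 := by
  have h1 := mul_le_mul_of_nonneg_right h.toJet0.eps_le (norm_nonneg y)
  have h2 := h.y1
  exact ⟨mul_nonneg h.eps0 (norm_nonneg _), by linarith, by linarith⟩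

theorem nad_ChP2 (h : Jet0 ε D) : ‖ad D‖ ≤ 101 / 100 := by
  rw [norm_ad]; exact h.norm_D

theorem kk_ChP2 (D : E d →L[ℝ] H) (A : E d →L[ℝ] E d →L[ℝ] H) (y : H) (v : E d) :
    kk D A y v = gm D v - shL A y v := rfl

theorem fq_ChP2 (D : E d →L[ℝ] H) (A : E d →L[ℝ] E d →L[ℝ] H) (y : H) (P : H →L[ℝ] H) (e : H) :
    fq D A y P e = wt D • ki D A y (ad D (P (dy D A y e))) := rfl

theorem fg_ChP2 (D : E d →L[ℝ] H) (A : E d →L[ℝ] E d →L[ℝ] H) (y : H) (P : H →L[ℝ] H) (e : H) :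
    fg D A y P e = wt D • dy D A y (P (dy D A y e)) := rfl

theorem nw_ChP2 (h : Jet0 ε D) {X : Type*} [NormedAddCommGroup X] [NormedSpace ℝ X] {v : X}
    {b : ℝ} (hv : ‖v‖ ≤ b) : ‖wt D • v‖ ≤ 101 / 100 * b := by
  rw [norm_smul, Real.norm_eq_abs, abs_of_pos h.wt_pos]
  exact mul_le_mul h.wt_up hv (norm_nonneg _) (by norm_num)

theorem dy_pn_ChP2 (h : Jet ε D A B y) (u : H) : dy D A y (u - pT D u) = u - pT D u := by
  rw [dy_apply, dx_apply, map_sub (ad D), h.toJet0.ad_pT, sub_self, map_zero, map_zero, sub_zero]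

theorem pn_ChP2 (h : Jet0 ε D) (u : H) : ⟪u, u - pT D u⟫ = ⟪u - pT D u, u - pT D u⟫ := by
  have : ⟪pT D u, u - pT D u⟫ = 0 := by
    rw [h.pT_symm, map_sub, h.pT_idem, sub_self, inner_zero_right]
  rw [inner_sub_left u, this, sub_zero]

theorem ad_fb (h : Jet ε D A B y) (hP : IsPlane d P) (e : H) :
    ContinuousLinearMap.adjoint (fb D A y P) e = kk D A y (gi D (ad D (P (dy D A y e)))) := by
  refine ext_inner_right ℝ fun v => ?_
  rw [ContinuousLinearMap.adjoint_inner_left, h.kk_symm, h.toJet0.gi_symm, inner_ad_left, hP.1,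
    h.dy_symm]
  rfl

theorem fq_fb (h : Jet ε D A B y) (hP : IsPlane d P) (e : H) :
    ‖fq D A y P e - am D (ContinuousLinearMap.adjoint (fb D A y P) e)‖ ≤
      cH H * ε * ‖y‖ * (√(ft D P) + ‖y‖) * ‖e‖ := by
  have j := h.toJet0
  obtain ⟨s0, s1, s2⟩ := s_ChP2 h
  have e0 := norm_nonneg e
  have y0 := norm_nonneg y
  have t0 := Real.sqrt_nonneg (ft D P)
  rw [ad_fb h hP, fq_ChP2, am_apply, h.gi_kk, ← smul_sub]
  have z1 : ‖P (dy D A y e)‖ ≤ (√(ft D P) + ‖y‖) * ‖e‖ :=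
    (norm_P_dy h hP e).trans (mul_le_mul_of_nonneg_right (by linarith) e0)
  have g1 := app_ChP2 (nad_ChP2 j) z1
  generalize ad D (P (dy D A y e)) = g at g1 ⊢
  have a1 := app_ChP2 h.ki_sub_gi g1
  have a2 := app_ChP2 j.norm_gi (app_ChP2 (h.norm_sh y) (app_ChP2 j.norm_gi g1))
  have e1 : ki D A y g - (gi D g - gi D (shL A y (gi D g))) =
      (ki D A y - gi D) g + gi D (shL A y (gi D g)) := by
    rw [sub_apply]; abel
  rw [e1]
  refine (nw_ChP2 j ((norm_add_le _ _).trans (add_le_add a1 a2))).trans ?_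
  have c := cH_ge (H := H)
  have m : 0 ≤ ε * ‖y‖ * ((√(ft D P) + ‖y‖) * ‖e‖) := by positivity
  nlinarith [mul_le_mul_of_nonneg_right c m]

theorem inner_fg (h : Jet ε D A B y) (hP : IsPlane d P) (e : H) :
    ⟪fg D A y P e, e⟫ = wt D * ‖P (dy D A y e)‖ ^ 2 := by
  rw [fg_ChP2, real_inner_smul_left, h.dy_symm, plane_inner hP, real_inner_self_eq_norm_sq]

theorem fb_fg' (h : Jet ε D A B y) (hP : IsPlane d P) (e : H) :
    ⟪am D (ContinuousLinearMap.adjoint (fb D A y P) e), ContinuousLinearMap.adjoint (fb D A y P) e⟫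
      ≤ (1 + 3 * (ε * ‖y‖)) * (wt D * ‖pT D (P (dy D A y e))‖ ^ 2) := by
  have j := h.toJet0
  obtain ⟨s0, s1, s2⟩ := s_ChP2 h
  rw [ad_fb h hP, am_apply, h.gi_kk, pT_apply, real_inner_smul_left]
  generalize gi D (ad D (P (dy D A y e))) = k
  have a1 : ⟪k, gm D k⟫ = ‖D k‖ ^ 2 := by
    rw [← gm_symm, inner_gm, real_inner_self_eq_norm_sq]
  have a2 : ⟪gi D (shL A y k), gm D k⟫ = ⟪k, shL A y k⟫ := by
    rw [j.gi_symm, j.gi_gm, real_inner_comm]
  have k0 := norm_nonneg k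
  have b0 := app_ChP2 (h.norm_sh y) (le_refl ‖k‖)
  have b1 : -(‖k‖ * (ε * ‖y‖ * ‖k‖)) ≤ ⟪k, shL A y k⟫ := by
    have := (abs_real_inner_le_norm k (shL A y k)).trans (mul_le_mul_of_nonneg_left b0 k0)
    linarith [(abs_le.1 this).1]
  have b2 : ⟪gi D (shL A y k), shL A y k⟫ ≤
      101 / 100 * (ε * ‖y‖ * ‖k‖) * (ε * ‖y‖ * ‖k‖) :=
    (real_inner_le_norm _ _).trans
      (mul_le_mul (app_ChP2 j.norm_gi b0) b0 (norm_nonneg _) (by positivity))
  have b3 : 997 / 1000 * ‖k‖ ≤ ‖D k‖ :=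
    le_trans (mul_le_mul_of_nonneg_right (by linarith [j.eps_le]) k0) (j.norm_D_low k)
  have b4 : (997 / 1000 * ‖k‖) ^ 2 ≤ ‖D k‖ ^ 2 := pow_le_pow_left₀ (by positivity) b3 2
  have b5 := mul_le_mul_of_nonneg_left b4 s0
  have b6 := mul_le_mul_of_nonneg_right s2 (mul_nonneg s0 (sq_nonneg ‖k‖))
  have b7 := mul_nonneg s0 (sq_nonneg ‖k‖)
  have key : ⟪k - gi D (shL A y k), kk D A y k⟫ ≤ (1 + 3 * (ε * ‖y‖)) * ‖D k‖ ^ 2 := by
    rw [kk_ChP2, inner_sub_left, inner_sub_right, inner_sub_right, a1, a2]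
    linarith
  have := mul_le_mul_of_nonneg_left key j.wt_pos.le
  linarith

theorem fb_fg (h : Jet ε D A B y) (hP : IsPlane d P) (e : H) :
    ⟪am D (ContinuousLinearMap.adjoint (fb D A y P) e), ContinuousLinearMap.adjoint (fb D A y P) e⟫
      ≤ (1 + cH H * ε * ‖y‖) * ⟪fg D A y P e, e⟫ := by
  have j := h.toJet0
  obtain ⟨s0, s1, s2⟩ := s_ChP2 h
  refine (fb_fg' h hP e).trans ?_
  rw [inner_fg h hP]
  have c := mul_le_mul_of_nonneg_right (cH_ge (H := H)) s0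
  have w := j.wt_pos
  refine mul_le_mul (by linarith) (mul_le_mul_of_nonneg_left
    (pow_le_pow_left₀ (norm_nonneg _) (j.norm_pT_le _) 2) w.le) (by positivity) (by linarith)

theorem fg_le (h : Jet ε D A B y) (hP : IsPlane d P) (e : H) :
    ⟪fg D A y P e, e⟫ ≤ 4 * (ft D P + ‖y‖ ^ 2) * ‖e‖ ^ 2 := by
  have j := h.toJet0
  obtain ⟨s0, s1, s2⟩ := s_ChP2 h
  have y0 := norm_nonneg y
  have t0 := ft_nonneg j hP
  have z1 : ‖P (dy D A y e)‖ ≤ (√(ft D P) + ‖y‖) * ‖e‖ :=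
    (norm_P_dy h hP e).trans (mul_le_mul_of_nonneg_right (by linarith) (norm_nonneg e))
  have z2 := pow_le_pow_left₀ (norm_nonneg _) z1 2
  have z3 : (√(ft D P) + ‖y‖) ^ 2 ≤ 2 * (ft D P + ‖y‖ ^ 2) := by
    nlinarith [Real.sq_sqrt t0, sq_nonneg (√(ft D P) - ‖y‖)]
  have z4 := mul_le_mul_of_nonneg_right z3 (sq_nonneg ‖e‖)
  have z5 := mul_le_mul_of_nonneg_right j.wt_up (sq_nonneg ‖P (dy D A y e)‖)
  have z6 : 0 ≤ (ft D P + ‖y‖ ^ 2) * ‖e‖ ^ 2 := by positivity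
  rw [mul_pow] at z2
  rw [inner_fg h hP]
  linarith

theorem fg_norm (h : Jet ε D A B y) (hP : IsPlane d P) : ‖fg D A y P‖ ≤ 4 := by
  refine ContinuousLinearMap.opNorm_le_bound _ (by norm_num) fun e => ?_
  rw [fg_ChP2]
  refine (nw_ChP2 h.toJet0 (app_ChP2 h.norm_dy (app_ChP2 (plane_opNorm hP)
    (app_ChP2 h.norm_dy (le_refl ‖e‖))))).trans ?_
  linarith [norm_nonneg e]

theorem fg_sq (h : Jet ε D A B y) (hP : IsPlane d P) {ι : Type} [Fintype ι]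
    (e : OrthonormalBasis ι ℝ H) :
    ft D P ^ 2 ≤ 2 * Module.finrank ℝ H * ∑ i, ((1 + cH H * ε * ‖y‖) * ⟪fg D A y P (e i), e i⟫ -
      ⟪am D (ContinuousLinearMap.adjoint (fb D A y P) (e i)),
        ContinuousLinearMap.adjoint (fb D A y P) (e i)⟫) := by
  have j := h.toJet0
  obtain ⟨s0, s1, s2⟩ := s_ChP2 h
  have c := mul_le_mul_of_nonneg_right (cH_ge (H := H)) s0
  have w := j.wt_pos
  have e1 : (dy D A y).comp (1 - pT D) = 1 - pT D := by
    ext1 u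
    exact dy_pn_ChP2 h u
  have e2 : ft D P = ∑ i, ⟪e i, P (dy D A y (e i)) - pT D (P (dy D A y (e i)))⟫ := by
    rw [ft_eq j hP, ← e1, ← ContinuousLinearMap.comp_assoc, trH_comm, trH_eq_sum e]
    rfl
  have a1 : ft D P ≤ ∑ i, ‖P (dy D A y (e i)) - pT D (P (dy D A y (e i)))‖ := by
    rw [e2]
    refine sum_le_sum fun i _ => (real_inner_le_norm _ _).trans ?_
    rw [e.norm_eq_one, one_mul]
  have a2 := (pow_le_pow_left₀ (ft_nonneg j hP) a1 2).trans sq_sum_le_card_mul_sum_sq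
  have a3 : (univ : Finset ι).card = Module.finrank ℝ H := by
    rw [card_univ, Module.finrank_eq_card_basis e.toBasis]
  rw [a3] at a2
  refine a2.trans ?_
  rw [mul_comm 2, mul_assoc]
  refine mul_le_mul_of_nonneg_left ?_ (Nat.cast_nonneg _)
  rw [mul_sum]
  refine sum_le_sum fun i _ => ?_
  have b1 := fb_fg' h hP (e i)
  rw [inner_fg h hP]
  have b2 := j.pyth (P (dy D A y (e i)))
  have b3 := mul_le_mul_of_nonneg_right j.wt_low
    (sq_nonneg ‖P (dy D A y (e i)) - pT D (P (dy D A y (e i)))‖)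
  have b4 : (1 + 3 * (ε * ‖y‖)) * (wt D * ‖P (dy D A y (e i))‖ ^ 2) ≤
      (1 + cH H * ε * ‖y‖) * (wt D * ‖P (dy D A y (e i))‖ ^ 2) :=
    mul_le_mul_of_nonneg_right (by linarith) (by positivity)
  have b5 : 0 ≤ ε * ‖y‖ * (wt D * ‖P (dy D A y (e i)) - pT D (P (dy D A y (e i)))‖ ^ 2) := by
    positivity
  have b6 := sq_nonneg ‖P (dy D A y (e i)) - pT D (P (dy D A y (e i)))‖
  rw [b2] at b4
  rw [b2]
  linarith

theorem trH_fg (h : Jet ε D A B y) (hP : IsPlane d P) :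
    |trH (fg D A y P) - wt D * ft D P| ≤ 2 * d * ε ^ 2 * ‖y‖ ^ 2 := by
  have j := h.toJet0
  obtain ⟨s0, s1, s2⟩ := s_ChP2 h
  obtain ⟨u, hu, htr⟩ := hP.exists_frame
  have e1 : trH (fg D A y P) = wt D * ∑ a, ⟪dy D A y (u a), dy D A y (u a)⟫ := by
    rw [fg, trH_smul, trH_comm, ContinuousLinearMap.comp_assoc, trH, htr]
    congr 1
    exact sum_congr rfl fun a _ => (h.dy_symm _ _).symm
  have e2 : ft D P = ∑ a, ⟪u a - pT D (u a), u a - pT D (u a)⟫ := by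
    rw [ft_eq j hP, trH, htr]
    exact sum_congr rfl fun a _ => pn_ChP2 j (u a)
  have e3 : trH (fg D A y P) - wt D * ft D P =
      wt D * ∑ a, ⟪gi D (shL A y (dx D A y (u a))), shL A y (dx D A y (u a))⟫ := by
    rw [e1, e2, ← mul_sub, ← sum_sub_distrib]
    congr 1
    exact sum_congr rfl fun a _ => by rw [h.inner_dy_dy, add_sub_cancel_left]
  have a1 : ∀ a ∈ (univ : Finset (Fin d)),
      |⟪gi D (shL A y (dx D A y (u a))), shL A y (dx D A y (u a))⟫| ≤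
        11 / 10 * (ε * ‖y‖) ^ 2 := fun a _ => by
    have b0 := app_ChP2 (h.norm_sh y) (app_ChP2 h.norm_dx (hu.1 a).le)
    refine ((abs_real_inner_le_norm _ _).trans
      (mul_le_mul (app_ChP2 j.norm_gi b0) b0 (norm_nonneg _) (by positivity))).trans ?_
    nlinarith [sq_nonneg (ε * ‖y‖)]
  have a2 := (abs_sum_le_sum_abs _ _).trans (sum_le_card_nsmul _ _ _ a1)
  rw [card_univ, Fintype.card_fin, nsmul_eq_mul] at a2
  rw [e3, abs_mul, abs_of_pos j.wt_pos]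
  refine (mul_le_mul j.wt_up a2 (abs_nonneg _) (by norm_num)).trans ?_
  have : 0 ≤ (d : ℝ) * (ε * ‖y‖) ^ 2 := by positivity
  nlinarith

/-- The base component of a constant field. -/
theorem dx_P_const (h : Jet ε D A B y) (hP : IsPlane d P) (e : H) :
    ‖wt D • dx D A y (P e) - (fq D A y P e + am D (ad D e) +
      (2 : ℝ) • am D (shL A y (gi D (ad D e))))‖ ≤ 10 * (ft D P + ‖y‖ ^ 2) * ‖e‖ := by
  have j := h.toJet0
  obtain ⟨s0, s1, s2⟩ := s_ChP2 h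
  have e0 := norm_nonneg e
  have y0 := norm_nonneg y
  have t0 := ft_nonneg j hP
  have e1 : P e = P (dy D A y e) + P (D (ki D A y (ad D e))) := by
    rw [← map_add, dy_apply, dx_apply, sub_add_cancel]
  have g1 := app_ChP2 (nad_ChP2 j) (le_refl ‖e‖)
  rw [e1, fq_ChP2, am_apply, am_apply, dx_apply, map_add, map_add, ad_P_D]
  generalize ad D e = g at g1 ⊢
  generalize ki D A y (ad D (P (dy D A y e))) = r
  have k1 := app_ChP2 h.norm_ki g1
  have k2 := app_ChP2 h.ki_sub_gi g1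
  have e2 : gm D (ki D A y g) = g + shL A y (ki D A y g) := by
    have := h.kk_ki g
    rw [kk_ChP2] at this
    exact sub_eq_iff_eq_add.1 this
  have e3 := h.ki_eq g
  have e4 : wt D • (r + ki D A y (gm D (ki D A y g) - fT D P (ki D A y g))) -
      (wt D • r + wt D • gi D g + (2 : ℝ) • wt D • gi D (shL A y (gi D g))) =
      wt D • (gi D (shL A y ((ki D A y - gi D) g)) + gi D (shL A y ((ki D A y - gi D) g)) +
        (ki D A y - gi D) (shL A y (ki D A y g)) - ki D A y (fT D P (ki D A y g))) := by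
    rw [e2]
    simp only [sub_apply, map_sub, map_add]
    linear_combination (norm := module) wt D • e3
  rw [e4]
  have a1 := app_ChP2 j.norm_gi (app_ChP2 (h.norm_sh y) k2)
  have a2 := app_ChP2 h.ki_sub_gi (app_ChP2 (h.norm_sh y) k1)
  have a3 := app_ChP2 h.norm_ki (app_ChP2 (fT_le' j hP) k1)
  refine (nw_ChP2 j ((norm_sub_le _ _).trans (add_le_add ((norm_add_le _ _).trans
    (add_le_add ((norm_add_le _ _).trans (add_le_add a1 a1)) a2)) a3))).trans ?_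
  have b1 : (ε * ‖y‖) ^ 2 ≤ ‖y‖ ^ 2 := pow_le_pow_left₀ s0 (by linarith) 2
  have b2 := mul_le_mul_of_nonneg_right b1 e0
  have b3 := mul_nonneg t0 e0
  have b4 := mul_nonneg (sq_nonneg ‖y‖) e0
  linarith

end Pool.Agent.Lib.MP_8daebb_an.GM.Ch
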