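import Pool.Agent.Lib.MP_8daebb_an.GM.Ad2
import Pool.Agent.Lib.MP_8daebb_an.GM.ChCV
import Pool.Agent.Lib.MP_8daebb_an.GM.ChS

/-! The system of charts, given the Newton step. -/

open MeasureTheory Metric Set Filter Topology
open scoped RealInnerProductSpace ContDiff ENNReal

namespace Pool.Agent.Lib.MP_8daebb_an.GM.Ch

variable {d n : ℕ} {H : Type*} [NormedAddCommGroup H] [InnerProductSpace ℝ H]
  [FiniteDimensional ℝ H] [MeasurableSpace H] [BorelSpace H]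

/-- The Newton step for the charts of the varifold `V` and the centres with `ε ≤ e`. -/
def NewtAt (V : Measure (H × (H →L[ℝ] H))) (ι : E d →ₗᵢ[ℝ] H) (κ : E n →ₗᵢ[ℝ] H) (Q : ℕ)
    (CN cN e : ℝ) (KN : ℕ) : Prop :=
  ∀ (c : Cen d n) (ε R R₁ l s ρ β εJ : ℝ) (N : E d → ℕ), Adm ι κ c ε R → ε ≤ e → R ≤ 2 → R₁ ≤ R →
    0 < s → 0 < ρ →
    (∀ᵐ a ∂(chart V (c.F ι κ) R).m, a ∈ (chart V (c.F ι κ) R).cyl 0 R₁ →
      ‖(chart V (c.F ι κ) R).y a‖ ≤ s ^ 2) →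
    (chart V (c.F ι κ) R).En 0 R₁ ≤ s ^ 4 →
    IsMult ((chart V (c.F ι κ) R).resB 0 R₁).m (chart V (c.F ι κ) R).x (chart V (c.F ι κ) R).j N →
    ∫ v in ball (0 : E d) (R₁ - l), |(N v : ℝ) - Q| ≤ s ^ 2 →
    s ≤ ρ ^ KN → ρ ≤ cN * l → 16 * l ≤ R₁ →
    ∫ u in ball (0 : E d) (R₁ - l), ‖(chart V (c.F ι κ) R).av ρ (chart V (c.F ι κ) R).y u‖ ≤ β →
    CN * (β + s ^ 2 * ρ) / l ^ KN ≤ εJ → εJ ≤ cN * ρ ^ KN →
    ∃ c' : Cen d n, Adm ι κ c' (ε + εJ) (R₁ - 8 * l) ∧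
      Cmp (chart V (c.F ι κ) R) (chart V (c'.F ι κ) (R₁ - 8 * l)) (R₁ - 8 * l) εJ ∧
      ∀ u : E d, ‖u‖ ≤ R₁ - 9 * l →
        ‖(chart V (c'.F ι κ) (R₁ - 8 * l)).av ρ (chart V (c'.F ι κ) (R₁ - 8 * l)).y u‖ ≤
          CN * ρ * (s ^ 2 + εJ) / l ^ KN

theorem sysA_of (hd : 1 ≤ d) (M θ : ℝ) : ∃ c₁ : ℝ, 0 < c₁ ∧ ∀ δ > 0, ∃ e₀ > 0, ∀ e₁, 0 < e₁ →
    e₁ ≤ e₀ → ∀ εB > 0, ∀ δ₂ > 0, ∃ η₀ > 0, ∀ η ≤ η₀, ∀ (V : Measure (H × (H →L[ℝ] H)))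
    (ι : E d →ₗᵢ[ℝ] H) (κ : E n →ₗᵢ[ℝ] H) (Q KN : ℕ) (CN cN : ℝ), Spl ι κ → EV V ι M θ η →
    cN ≤ c₁ → NewtAt V ι κ Q CN cN (3 * e₁) KN →
    Sys (Adm ι κ) (fun c R => chart V (c.F ι κ) R) (2 * 3 ^ d * M) θ δ e₁ εB δ₂ Q CN cN KN := by
  obtain ⟨C, hC, hp⟩ := adm_pre (d := d) (n := n) (H := H)
  have hc := cH_ge (H := H)
  have hω := omega_pos d
  have hT : 0 < |θ| + 1 := by positivity
  refine ⟨1 / (cH H * (|θ| + 1)), by positivity, fun δ hδ => ?_⟩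
  refine ⟨min (δ / (6 * (cH H * C))) (1 / (3 * (cH H * C) * (|θ| + 1))), by positivity,
    fun e₁ he0 he1 εB hεB δ₂ hδ₂ => ?_⟩
  refine ⟨min (min (δ / (2 * cH H)) (δ₂ / cH H)) (min (εB / 2 ^ (d + 1))
    (min (1 / 100) (omega d / 80))), by positivity, fun η hη V ι κ Q KN CN cN hs hV hcN hN => ?_⟩
  simp only [le_min_iff] at he1 hη
  obtain ⟨e1, e2⟩ := he1
  obtain ⟨⟨n1, n2⟩, n3, n4, n5⟩ := hη
  have hη0 := ev_eps_nonneg hV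
  have hθ := hV.θ_ge
  have hθa : |θ| = θ := abs_of_pos (by linarith)
  rw [hθa] at e2 hcN
  rw [le_div_iff₀ (by positivity)] at e1 e2 n1 n2 n3 hcN
  have hP : 0 < cH H * C := by positivity
  have t0 : ∀ ε : ℝ, ε ≤ 3 * e₁ → cH H * (C * ε) ≤ 3 * e₁ * (cH H * C) := fun ε hε => by
    nlinarith [mul_le_mul_of_nonneg_right hε hP.le]
  have hE : 0 ≤ 3 * e₁ * (cH H * C) := by positivity
  have t1 : ∀ ε : ℝ, ε ≤ 3 * e₁ → θ * (cH H * (C * ε)) ≤ 1 := fun ε hε => by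
    have := mul_le_mul_of_nonneg_left (t0 ε hε) (by linarith : (0 : ℝ) ≤ θ)
    nlinarith
  have t2 : ∀ ε : ℝ, ε ≤ 3 * e₁ → cH H * (C * ε) ≤ 1 := fun ε hε => by
    have := t0 ε hε
    nlinarith [mul_nonneg hE (by linarith : (0 : ℝ) ≤ θ)]
  have t3 : ∀ ε : ℝ, ε ≤ 3 * e₁ → cH H * (C * ε + η) ≤ δ := fun ε hε => by
    have := t0 ε hε
    nlinarith
  have c1 : θ * (cH H * cN) ≤ 1 := by
    rcases le_total cN 0 with h | h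
    · have : θ * (cH H * cN) ≤ 0 :=
        mul_nonpos_of_nonneg_of_nonpos (by linarith) (mul_nonpos_of_nonneg_of_nonpos (by linarith) h)
      linarith
    · nlinarith [mul_nonneg h (by linarith : (0 : ℝ) ≤ cH H)]
  have c2 : cN ≤ 1 / 100 := by
    rcases le_total cN 0 with h | h
    · linarith
    · nlinarith [mul_nonneg (mul_nonneg h (by linarith : (0 : ℝ) ≤ cH H)) (by linarith : (0 : ℝ) ≤ θ),
        mul_nonneg h (by linarith : (0 : ℝ) ≤ cH H - 1000)]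
  have hω' : η < omega d := by linarith
  have pre : ∀ (c : Cen d n) (ε R : ℝ), Adm ι κ c ε R → ε ≤ 3 * e₁ → R ≤ 2 →
      Pre ι (c.F ι κ) 0 (C * ε) R := fun c ε R h hε hR =>
    hp ι κ c ε R hs h (t2 ε hε) (by linarith)
  refine ⟨by linarith, fun c ε ε' R h hε => h.mono hε le_rfl,
    fun c ε R h hε hR0 hR => (pre c ε R h hε hR).cv h.nrm hd hR hR0 hV n4 (t3 ε hε),
    ⟨_, adm_flat ι κ 2, (pre _ 0 2 (adm_flat ι κ 2) (by linarith) le_rfl).cv (adm_flat ι κ 2).nrm hd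
      le_rfl (by norm_num) hV n4 (by rw [mul_zero, zero_add]; linarith)⟩,
    fun c ε R σ h hε hR hσ hσR hσ1 hy => ?_, fun c ε R σ h hε hR hσ hσR hσ1 hy => ?_,
    fun η' hη' => ?_, hN⟩
  · exact (pre c ε R h hε hR).mass_near h.org hV n4 (by linarith) (t1 ε hε) c1 hσ hσR hσ1 hy
  · refine ((pre c ε R h hε hR).bad h.org hV hω' (t1 ε hε) c2 hσ hσR hσ1 hy).trans ?_
    exact mul_le_mul_of_nonneg_right (by linarith) (by positivity)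
  · obtain ⟨σ₀, hσ₀, hb⟩ := bad_zero hV hω' hη'
    exact ⟨σ₀, hσ₀, fun c ε R σ h hε hR hσ hσR hσ1 hy =>
      hb _ _ _ _ _ _ (pre c ε R h hε hR) h.org (t1 ε hε) c2 hσ hσR hσ1 hy⟩

end Pool.Agent.Lib.MP_8daebb_an.GM.Ch
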