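import Pool.Agent.Lib.MP_8daebb_an.GM.Base3

/-! Local integrals. -/

set_option linter.unusedSectionVars false
set_option linter.unusedVariables false

open MeasureTheory Metric Filter Topology Set
open scoped RealInnerProductSpace ENNReal ContDiff

namespace Pool.Agent.Lib.MP_8daebb_an.GM

open LG (vb chi om trS)

variable {d : ℕ} {α : Type*} [MeasurableSpace α] {H : Type*} [NormedAddCommGroup H]
  [InnerProductSpace ℝ H] [FiniteDimensional ℝ H] [MeasurableSpace H] [BorelSpace H]

theorem cyl_clus {x : α → E d} (hx : Measurable x) (u : E d) (r : ℝ) :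
    MeasurableSet {a | ‖x a - u‖ < r} :=
  measurableSet_lt (hx.sub_const u).norm measurable_const

theorem cyl2_clus {x : α → E d} (hx : Measurable x) (r : ℝ) :
    MeasurableSet {p : E d × α | ‖x p.2 - p.1‖ < r} :=
  measurableSet_lt ((hx.comp measurable_snd).sub measurable_fst).norm measurable_const

theorem meas_local {μ : Measure α} [IsFiniteMeasure μ] {x : α → E d} (hx : Measurable x)
    {f : α → ℝ} (hf : Integrable f μ) (r₀ : ℝ) :
    Measurable fun u : E d => ∫ a in {a | ‖x a - u‖ < r₀}, f a ∂μ := by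
  have h1 : StronglyMeasurable
      ({p : E d × α | ‖x p.2 - p.1‖ < r₀}.indicator fun p => hf.1.mk f p.2) :=
    (hf.1.stronglyMeasurable_mk.comp_measurable measurable_snd).indicator (cyl2_clus hx r₀)
  have h2 := (h1.integral_prod_right' (ν := μ)).measurable
  convert h2 using 2 with u
  rw [integral_congr_ae (ae_restrict_of_ae hf.1.ae_eq_mk), ← integral_indicator (cyl_clus hx u r₀)]
  rfl

/-- Chebyshev inequality for local integrals. -/
theorem vol_local {μ : Measure α} [IsFiniteMeasure μ] {x : α → E d} (hx : Measurable x)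
    {f : α → ℝ} (hf : Integrable f μ) (h0 : ∀ᵐ a ∂μ, 0 ≤ f a) {r₀ η₁ : ℝ} (hr : 0 < r₀)
    (hη : 0 < η₁) :
    volume {u : E d | η₁ < ∫ a in {a | ‖x a - u‖ < r₀}, f a ∂μ} ≤
      ENNReal.ofReal (vb d * r₀ ^ d * (∫ a, f a ∂μ) / η₁) := by
  obtain ⟨g, hg, hfg⟩ := hf.1.aemeasurable
  have e1 : ∀ u : E d, ENNReal.ofReal (∫ a in {a | ‖x a - u‖ < r₀}, f a ∂μ) =
      ∫⁻ a in {a | ‖x a - u‖ < r₀}, ENNReal.ofReal (g a) ∂μ := by
    intro u
    rw [ofReal_integral_eq_lintegral_ofReal hf.integrableOn (ae_restrict_of_ae h0),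
      lintegral_congr_ae (g := fun a => ENNReal.ofReal (g a))
        (ae_restrict_of_ae (hfg.mono fun a ha => by rw [ha]))]
  have hv : 0 ≤ vb d * r₀ ^ d := mul_nonneg (LG.vb_pos d).le (by positivity)
  have e3 : ∫⁻ u : E d, ENNReal.ofReal (∫ a in {a | ‖x a - u‖ < r₀}, f a ∂μ) =
      ENNReal.ofReal (vb d * r₀ ^ d * ∫ a, f a ∂μ) := by
    simp only [e1]
    rw [swap_ball hx hg.ennreal_ofReal hr, ENNReal.ofReal_mul hv,
      ofReal_integral_eq_lintegral_ofReal hf h0]
    congr 1
    exact lintegral_congr_ae (hfg.mono fun a ha => by simp only [ha])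
  have h1 := meas_ge_le_lintegral_div (μ := volume)
    (meas_local hx hf r₀).ennreal_ofReal.aemeasurable (ENNReal.ofReal_pos.2 hη).ne'
    ENNReal.ofReal_ne_top
  rw [e3, ← ENNReal.ofReal_div_of_pos hη] at h1
  exact (measure_mono fun u hu => ENNReal.ofReal_le_ofReal (le_of_lt hu)).trans h1

end Pool.Agent.Lib.MP_8daebb_an.GM
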