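import Pool.Agent.Lib.MP_8daebb_an.GM.Df
import Pool.Agent.Lib.MP_8daebb_an.LG.Poin

/-! Poincare inequality. -/

set_option linter.unusedVariables false

open MeasureTheory Metric Filter Topology Set
open scoped RealInnerProductSpace ENNReal ContDiff

namespace Pool.Agent.Lib.MP_8daebb_an.GM

open LG (vb chi om trS)

variable {d : ℕ}

theorem grad_le_poinc {G : E d → ℝ} (hG : ContDiff ℝ 1 G) (c₀ : ℝ) (x : E d) :
    ‖gradient (fun z => max (G z - c₀) 0) x‖ ≤ ‖fderiv ℝ G x‖ := by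
  rw [gradient, LinearIsometryEquiv.norm_map]
  rcases lt_or_ge c₀ (G x) with h | h
  · have h1 : HasFDerivAt (fun z => G z - c₀) (fderiv ℝ G x) x :=
      (hG.differentiable one_ne_zero _).hasFDerivAt.sub_const c₀
    have h2 : (fun z => max (G z - c₀) 0) =ᶠ[𝓝 x] fun z => G z - c₀ := by
      filter_upwards [continuousAt_const.eventually_lt hG.continuous.continuousAt h] with z hz
      exact max_eq_left (sub_nonneg.2 (le_of_lt hz))
    rw [(h1.congr_of_eventuallyEq h2).fderiv]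
  · have h1 : IsLocalMin (fun z => max (G z - c₀) 0) x := Eventually.of_forall fun z => by
      simp only [max_eq_right (sub_nonpos.2 h)]
      exact le_max_right _ _
    rw [h1.fderiv_eq_zero, norm_zero]
    exact norm_nonneg _

theorem poin_c (d : ℕ) {κ : ℝ} (hκ : 0 < κ) : ∃ η : ℝ, 0 < η ∧ ∀ (G : E d → ℝ) (K c₀ r : ℝ),
    ContDiff ℝ 1 G → (∀ u, ‖fderiv ℝ G u‖ ≤ K) → (∀ u, 0 ≤ G u) → 0 ≤ c₀ → 0 < r →
    volume ({u | c₀ < G u} ∩ ball 0 (2 * r)) ≤ ENNReal.ofReal (η * r ^ d) →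
    ∫ u in ball (0 : E d) (3 / 2 * r), G u ^ 2 ≤
      κ * r ^ 2 * (∫ u in ball (0 : E d) (2 * r), ‖fderiv ℝ G u‖ ^ 2) +
        2 * 2 ^ d * vb d * c₀ ^ 2 * r ^ d := by
  obtain ⟨η, hη, H⟩ := LG.poincare_small d (half_pos hκ)
  refine ⟨η, hη, fun G K c₀ r hG hK h0 hc hr hv => ?_⟩
  have hK0 : 0 ≤ K := (norm_nonneg _).trans (hK 0)
  have hL : LipschitzWith ⟨K, hK0⟩ G :=
    lipschitzWith_of_nnnorm_fderiv_le (hG.differentiable one_ne_zero) fun u => hK u
  have hL' : LipschitzWith ⟨K, hK0⟩ fun z => max (G z - c₀) 0 := by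
    refine LipschitzWith.max_const (LipschitzWith.of_dist_le_mul fun x y => ?_) 0
    rw [dist_sub_right]
    exact hL.dist_le_mul _ _
  have h1 := H _ _ hL' 0 r hr (by
    have e1 : {x | max (G x - c₀) 0 ≠ 0} = {u | c₀ < G u} := by
      ext x
      simp
    rw [e1, measureReal_def]
    exact ENNReal.toReal_le_of_le_ofReal (by positivity) hv)
  have cG := hG.continuous
  have cD : Continuous fun u => ‖fderiv ℝ G u‖ ^ 2 := (hG.continuous_fderiv one_ne_zero).norm.pow 2
  have h2 : ∫ x in ball (0 : E d) (2 * r), ‖gradient (fun z => max (G z - c₀) 0) x‖ ^ 2 ≤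
      ∫ u in ball (0 : E d) (2 * r), ‖fderiv ℝ G u‖ ^ 2 :=
    integral_mono_of_nonneg (Eventually.of_forall fun x => sq_nonneg _)
      (LG.intOn_cont_poin cD _ _) (Eventually.of_forall fun x =>
        pow_le_pow_left₀ (norm_nonneg _) (grad_le_poinc hG c₀ x) 2)
  have cf : Continuous fun u => max (G u - c₀) 0 ^ 2 := by fun_prop
  have h3 : ∫ u in ball (0 : E d) (3 / 2 * r), G u ^ 2 ≤
      ∫ u in ball (0 : E d) (3 / 2 * r), (2 * max (G u - c₀) 0 ^ 2 + 2 * c₀ ^ 2) := by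
    refine integral_mono (LG.intOn_cont_poin (cG.pow 2) _ _)
      (LG.intOn_cont_poin (by fun_prop) _ _) fun u => ?_
    have h4 := le_max_left (G u - c₀) 0
    have h5 := le_max_right (G u - c₀) 0
    have h6 := h0 u
    nlinarith [sq_nonneg (max (G u - c₀) 0 - c₀)]
  rw [integral_add ((LG.intOn_cont_poin cf _ _).const_mul 2)
    (LG.intOn_cont_poin continuous_const _ _), integral_const_mul, setIntegral_const,
    LG.vol_ball _ (by positivity), smul_eq_mul] at h3
  have h4 := mul_le_mul_of_nonneg_left h2 (show 0 ≤ κ / 2 * r ^ 2 by positivity)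
  have h5 : (3 / 2 * r) ^ d ≤ 2 ^ d * r ^ d := by
    rw [← mul_pow]
    exact pow_le_pow_left₀ (by positivity) (by linarith) d
  have h6 := mul_le_mul_of_nonneg_left h5
    (show 0 ≤ 2 * vb d * c₀ ^ 2 by have := LG.vb_pos d; positivity)
  nlinarith

end Pool.Agent.Lib.MP_8daebb_an.GM
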