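import Pool.Agent.Lib.MP_8daebb_an.GM.Integ
import Pool.Agent.Lib.MP_8daebb_an.GM.Base3
import Pool.Agent.Lib.MP_8daebb_an.GM.Cacc

/-! One multiplicity for the whole ball. -/

set_option linter.unusedSectionVars false
set_option linter.unusedVariables false

open MeasureTheory Metric Filter Topology Set
open scoped RealInnerProductSpace ENNReal ContDiff

namespace Pool.Agent.Lib.MP_8daebb_an.GM

open LG (vb chi om trS)

variable {d : ℕ} {α : Type*} [MeasurableSpace α] {H : Type*} [NormedAddCommGroup H]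
  [InnerProductSpace ℝ H] [FiniteDimensional ℝ H] [MeasurableSpace H] [BorelSpace H]

/-- Two integers that approximate `N` on balls with a large common part agree. -/
theorem same_glob {N : E d → ℕ} (hN : Integrable (fun u => (N u : ℝ))) {u u' w : E d}
    {σ σ' r ε : ℝ} (hr : 0 < r) (s1 : ball w r ⊆ ball u σ) (s2 : ball w r ⊆ ball u' σ')
    {n n' : ℕ} (h1 : ∫ v in ball u σ, |(N v : ℝ) - n| ≤ ε * r ^ d)
    (h2 : ∫ v in ball u' σ', |(N v : ℝ) - n'| ≤ ε * r ^ d) (hε : 2 * ε < vb d) : n = n' := by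
  by_contra hne
  have hI : ∀ (z : E d) (s : ℝ) (k : ℕ), IntegrableOn (fun v => |(N v : ℝ) - k|) (ball z s) :=
    fun z s k => (hN.integrableOn.sub (integrableOn_const measure_ball_lt_top.ne)).abs
  have hone : (1 : ℝ) ≤ |(n : ℝ) - n'| := by
    have h3 : (1 : ℤ) ≤ |(n : ℤ) - n'| := Int.one_le_abs (sub_ne_zero.2 (by exact_mod_cast hne))
    exact_mod_cast h3
  have b1 : ∫ v in ball w r, |(N v : ℝ) - n| ≤ ε * r ^ d :=
    (setIntegral_mono_set (hI u σ n) (Eventually.of_forall fun v => abs_nonneg _)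
      s1.eventuallyLE).trans h1
  have b2 : ∫ v in ball w r, |(N v : ℝ) - n'| ≤ ε * r ^ d :=
    (setIntegral_mono_set (hI u' σ' n') (Eventually.of_forall fun v => abs_nonneg _)
      s2.eventuallyLE).trans h2
  have b3 : ∫ _ in ball w r, (1 : ℝ) ≤
      ∫ v in ball w r, (|(N v : ℝ) - n| + |(N v : ℝ) - n'|) := by
    refine integral_mono (integrableOn_const measure_ball_lt_top.ne)
      ((hI w _ n).add (hI w _ n')) fun v => ?_
    have h4 : |(n : ℝ) - n'| ≤ |(N v : ℝ) - n| + |(N v : ℝ) - n'| := by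
      have h5 := abs_sub_le (n : ℝ) (N v) n'
      rwa [abs_sub_comm (n : ℝ) (N v)] at h5
    exact hone.trans h4
  rw [integral_add (hI w _ n) (hI w _ n'), setIntegral_const, smul_eq_mul, mul_one,
    LG.vol_ball w hr] at b3
  have h6 := mul_lt_mul_of_pos_right hε (pow_pos hr d)
  linarith

/-- A property of admissible balls that passes between comparable overlapping balls spreads
from one ball to all of them. -/
theorem spread_glob {c : E d} {R ρ : ℝ} (hρ : 0 < ρ) {P : E d → ℝ → Prop} (h0 : P c ρ)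
    (hP : ∀ (u u' w : E d) (σ σ' r : ℝ), ρ ≤ σ → ‖u - c‖ + 16 * σ ≤ R → ρ ≤ σ' →
      ‖u' - c‖ + 16 * σ' ≤ R → 0 < r → σ ≤ 2 * r → σ' ≤ 2 * r → ball w r ⊆ ball u σ →
      ball w r ⊆ ball u' σ' → P u' σ' → P u σ)
    (u : E d) (σ : ℝ) (hσ : ρ ≤ σ) (hu : ‖u - c‖ + 16 * σ ≤ R) : P u σ := by
  have hσ0 : 0 < σ := hρ.trans_le hσ
  have key1 : ∀ k : ℕ, ∀ s : ℝ, ρ ≤ s → s ≤ (k + 1) * ρ → 16 * s ≤ R → P c s := by
    intro k
    induction k with
    | zero =>
      intro s h1 h2 _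
      rw [show s = ρ by push_cast at h2; linarith]
      exact h0
    | succ k ih =>
      intro s h1 h2 h3
      push_cast at h2
      have hk0 : (0 : ℝ) ≤ k * ρ := by positivity
      have m1 := le_max_left ρ (s - ρ)
      have m2 := le_max_right ρ (s - ρ)
      have m3 : max ρ (s - ρ) ≤ s := max_le h1 (by linarith)
      have m4 : max ρ (s - ρ) ≤ (k + 1) * ρ := max_le (by linarith) (by linarith)
      exact hP c c c s (max ρ (s - ρ)) (max ρ (s - ρ)) h1 (by simpa using h3) m1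
        (by rw [sub_self, norm_zero]; linarith) (by linarith) (by linarith) (by linarith)
        (ball_subset_ball m3) Subset.rfl (ih _ m1 m4 (by linarith))
  have hc : P c σ := by
    obtain ⟨k, hk⟩ := exists_nat_ge (σ / ρ)
    refine key1 k σ hσ ?_ (by linarith [norm_nonneg (u - c)])
    rw [div_le_iff₀ hρ] at hk
    linarith
  have key2 : ∀ k : ℕ, ∀ v : E d, ‖v - c‖ ≤ k * (σ / 2) → ‖v - c‖ + 16 * σ ≤ R → P v σ := by
    intro k
    induction k with
    | zero =>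
      intro v hv _
      rw [Nat.cast_zero, zero_mul] at hv
      rw [sub_eq_zero.1 (norm_le_zero_iff.1 hv)]
      exact hc
    | succ k ih =>
      intro v hv hv'
      have hk : (0 : ℝ) < k + 1 := by positivity
      push_cast at hv
      set v' : E d := c + ((k : ℝ) / (k + 1)) • (v - c) with hv'd
      have e1 : ‖v' - c‖ = (k : ℝ) / (k + 1) * ‖v - c‖ := by
        rw [hv'd, add_sub_cancel_left, norm_smul, Real.norm_of_nonneg (by positivity)]
      have e2 : ‖v - v'‖ = 1 / (k + 1) * ‖v - c‖ := by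
        have e3 : v - v' = ((1 : ℝ) / (k + 1)) • (v - c) := by
          have e4 : (1 : ℝ) / (k + 1) = 1 - (k : ℝ) / (k + 1) := by
            field_simp
            ring
          rw [hv'd, e4, sub_smul, one_smul]
          abel
        rw [e3, norm_smul, Real.norm_of_nonneg (by positivity)]
      have l1 : ‖v' - c‖ ≤ k * (σ / 2) := by
        rw [e1]
        calc (k : ℝ) / (k + 1) * ‖v - c‖ ≤ (k : ℝ) / (k + 1) * ((k + 1) * (σ / 2)) :=
              mul_le_mul_of_nonneg_left hv (by positivity)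
          _ = k * (σ / 2) := by field_simp
      have l2 : ‖v' - c‖ ≤ ‖v - c‖ := by
        rw [e1]
        exact mul_le_of_le_one_left (norm_nonneg _) ((div_le_one hk).2 (by linarith))
      have l3 : ‖v - v'‖ ≤ σ / 2 := by
        rw [e2]
        calc 1 / ((k : ℝ) + 1) * ‖v - c‖ ≤ 1 / ((k : ℝ) + 1) * ((k + 1) * (σ / 2)) :=
              mul_le_mul_of_nonneg_left hv (by positivity)
          _ = σ / 2 := by field_simp
      exact hP v v' v σ σ (σ / 2) hσ hv' hσ (by linarith) (by linarith) (by linarith)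
        (by linarith) (ball_subset_ball (by linarith))
        (ball_subset_ball' (by rw [dist_eq_norm]; linarith)) (ih v' l1 (by linarith))
  obtain ⟨k, hk⟩ := exists_nat_ge (‖u - c‖ / (σ / 2))
  exact key2 k u ((div_le_iff₀ (by positivity)).1 hk) hu

theorem pos_of_mul_pos_of_pos_glob {a b : ℝ} (ha : 0 < a) (h : 0 < a * b) : 0 < b :=
  (mul_pos_iff_of_pos_left ha).1 h

theorem glob (d : ℕ) (M : ℝ) : ∃ CI : ℝ, 0 < CI ∧ ∃ δ₀ : ℝ, 0 < δ₀ ∧ ∃ c₀ : ℝ, 0 < c₀ ∧
    c₀ ≤ 1 / 2 ∧ GlobOK d α H M CI δ₀ c₀ := by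
  rcases Nat.eq_zero_or_pos d with hd | hd
  · refine ⟨1, one_pos, 1, one_pos, 1 / 2, by norm_num, le_rfl, ?_⟩
    intro D c R δ lam ρ h
    exact absurd h.d_pos (by omega)
  have hV := LG.vb_pos d
  obtain ⟨lI, hlI, δ₀, hδ₀, CI, hCI, hint⟩ := integ (α := α) (H := H) d hd M (8 ^ d * M)
  obtain ⟨C, hC, hen⟩ := en_le (α := α) (H := H) d M
  have hK : (0 : ℝ) < 4 * 2 ^ d * (CI * d) + 1 := by positivity
  obtain ⟨τ, hτ, hτ1, hτ2⟩ : ∃ τ : ℝ, 0 < τ ∧ τ ≤ lI ∧ 2 * (2 ^ d * (CI * d) * τ) < vb d := by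
    refine ⟨min lI (vb d / (4 * 2 ^ d * (CI * d) + 1)), by positivity, min_le_left _ _, ?_⟩
    have h1 := (le_div_iff₀ hK).1 (min_le_right lI (vb d / (4 * 2 ^ d * (CI * d) + 1)))
    have h2 : 0 < min lI (vb d / (4 * 2 ^ d * (CI * d) + 1)) := by positivity
    have h3 : 0 ≤ 2 ^ d * (CI * d) * min lI (vb d / (4 * 2 ^ d * (CI * d) + 1)) := by positivity
    nlinarith
  refine ⟨CI, hCI, min δ₀ (1 / 10), by positivity, min (1 / 2) (τ / (C * 16 ^ d)), by positivity,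
    min_le_left _ _, ?_⟩
  intro D c R δ lam ρ h hδ hs hlam hl
  have c1 := min_le_left (1 / 2 : ℝ) (τ / (C * 16 ^ d))
  have c2 := (le_div_iff₀ (by positivity)).1 (min_le_right (1 / 2 : ℝ) (τ / (C * 16 ^ d)))
  have c0 : 0 < min (1 / 2 : ℝ) (τ / (C * 16 ^ d)) := by positivity
  generalize min (1 / 2 : ℝ) (τ / (C * 16 ^ d)) = c₀ at hl c0 c1 c2
  have hρ : 0 < ρ := pos_of_mul_pos_of_pos_glob c0 (hlam.trans_le hl)
  obtain ⟨N, hN⟩ := h.exists_mult
  have hNi := hN.integrable h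
  have hT : ∀ (u : E d) (σ : ℝ), ρ ≤ σ → ‖u - c‖ + 16 * σ ≤ R → D.T u (8 * σ) ≤ τ * σ ^ d := by
    intro u σ hσ hu
    have hσ0 : 0 < σ := hρ.trans_le hσ
    have l1 : lam ≤ c₀ * σ := hl.trans (mul_le_mul_of_nonneg_left hσ c0.le)
    have l2 : lam ^ 2 ≤ c₀ * (8 * σ) ^ 2 := by
      refine (pow_le_pow_left₀ hlam.le l1 2).trans ?_
      have : 0 ≤ c₀ * σ ^ 2 := by positivity
      nlinarith
    obtain ⟨-, -, n3, -, n5, -⟩ := h.nonneg u (8 * σ)
    have e1 := hen D c R δ lam h (hδ.trans (min_le_right _ _)) hs hlam u (8 * σ) (8 * σ)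
      (by positivity) (by nlinarith) (by linarith)
    calc D.T u (8 * σ) ≤ C * lam ^ 2 * ((8 * σ + 8 * σ) ^ d / (8 * σ) ^ 2) := by linarith
      _ ≤ C * (c₀ * (8 * σ) ^ 2) * ((8 * σ + 8 * σ) ^ d / (8 * σ) ^ 2) := by gcongr
      _ = c₀ * (C * 16 ^ d) * σ ^ d := by
          rw [show 8 * σ + 8 * σ = 16 * σ by ring, mul_pow 16]
          field_simp
      _ ≤ τ * σ ^ d := by gcongr
  have hex : ∀ (u : E d) (σ : ℝ), ρ ≤ σ → ‖u - c‖ + 16 * σ ≤ R →
      ∃ n : ℕ, ∫ v in ball u σ, |(N v : ℝ) - n| ≤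
        CI * ∫ a in D.cyl u (8 * σ), D.t a ^ 2 ∂D.m := by
    intro u σ hσ hu
    have hσ0 : 0 < σ := hρ.trans_le hσ
    refine hint D c R δ h (hδ.trans (min_le_left _ _)) N u σ hN hσ0 (by linarith)
      ((hT u σ hσ hu).trans (by gcongr)) ?_
    calc D.Ms u (8 * σ) ≤ M * (8 * σ) ^ d := hs.cyl_le h u (by positivity) (by nlinarith)
      _ = 8 ^ d * M * σ ^ d := by ring
  have hsm : ∀ (u : E d) (σ r : ℝ), ρ ≤ σ → ‖u - c‖ + 16 * σ ≤ R → σ ≤ 2 * r →
      CI * ∫ a in D.cyl u (8 * σ), D.t a ^ 2 ∂D.m ≤ 2 ^ d * (CI * d) * τ * r ^ d := by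
    intro u σ r hσ hu hr
    have hσ0 : 0 < σ := hρ.trans_le hσ
    calc CI * ∫ a in D.cyl u (8 * σ), D.t a ^ 2 ∂D.m ≤ CI * (d * D.T u (8 * σ)) :=
          mul_le_mul_of_nonneg_left (h.nonneg u (8 * σ)).2.2.2.2.2.2.2 hCI.le
      _ ≤ CI * (d * (τ * σ ^ d)) := by gcongr; exact hT u σ hσ hu
      _ ≤ CI * (d * (τ * (2 * r) ^ d)) := by gcongr
      _ = 2 ^ d * (CI * d) * τ * r ^ d := by ring
  by_cases hR : 16 * ρ ≤ R
  · obtain ⟨Q, hQ⟩ := hex c ρ le_rfl (by simpa using hR)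
    refine ⟨Q, N, hN, spread_glob hρ (P := fun u σ => ∫ v in ball u σ, |(N v : ℝ) - Q| ≤
      CI * ∫ a in D.cyl u (8 * σ), D.t a ^ 2 ∂D.m) hQ ?_⟩
    intro u u' w σ σ' r a1 a2 a3 a4 hr r1 r2 s1 s2 hq
    obtain ⟨n, hn⟩ := hex u σ a1 a2
    have : n = Q := same_glob hNi hr s1 s2 (hn.trans (hsm u σ r a1 a2 r1))
      (hq.trans (hsm u' σ' r a3 a4 r2)) hτ2
    rw [← this]
    exact hn
  · refine ⟨0, N, hN, fun u σ hσ hu => ?_⟩
    have := norm_nonneg (u - c)
    exact absurd (by linarith) hR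

theorem mass_near_Q (d : ℕ) {CI : ℝ} (hCI : 0 ≤ CI) : ∃ C : ℝ, 0 < C ∧
    ∀ (D : CD d α H) (c : E d) (R δ M ρ : ℝ) (Q : ℕ) (N : E d → ℕ), CV D c R δ M → δ ≤ 1 / 2 →
    0 < ρ → MQ D c R ρ CI Q N → ∀ (u : E d) (σ : ℝ), 0 < σ → ‖u - c‖ + σ + 17 * ρ ≤ R →
    ∫ v in ball u σ, |(N v : ℝ) - Q| ≤ C * D.En u (σ + 9 * ρ) ∧
      |D.Ms u σ - Q * vb d * σ ^ d| ≤ C * D.En u (σ + 9 * ρ) := by
  refine ⟨8 ^ d * CI * d + (d + 1), by positivity, ?_⟩
  intro D c R δ M ρ Q N h hδ hρ hQ u σ hσ hu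
  have hNi := hQ.mult.integrable h
  have m1 := hQ.mult.mass_near h u σ
  obtain ⟨-, n2, n3, -, n5, -⟩ := h.nonneg u σ
  obtain ⟨-, -, k3, k4, k5, -, -, k8⟩ := h.nonneg u (σ + 9 * ρ)
  have m2 : D.En u σ ≤ D.En u (σ + 9 * ρ) :=
    (h.cyl_mono (by rw [sub_self, norm_zero]; linarith)).2.2.2
  have hd0 : (0 : ℝ) ≤ d := Nat.cast_nonneg d
  have m3 : (d + 1) * D.T u σ + δ * D.J u σ ≤ (d + 1) * D.En u (σ + 9 * ρ) := by
    have := mul_le_mul_of_nonneg_left m2 (by positivity : (0 : ℝ) ≤ d + 1)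
    rw [n5] at this
    nlinarith [mul_nonneg hd0 n3]
  obtain ⟨-, w2⟩ := hQ.weight h hρ hCI (f := (ball u σ).indicator fun _ => (1 : ℝ))
    (F := (ball u (σ + 9 * ρ)).indicator fun _ => (1 : ℝ))
    (measurable_const.indicator measurableSet_ball) (measurable_const.indicator measurableSet_ball)
    (B := 1) (fun v => indicator_nonneg (fun _ _ => zero_le_one) v)
    (fun v => indicator_le' (fun _ _ => le_rfl) (fun _ _ => zero_le_one) v)
    (fun v hv => by
      have hv' : v ∈ ball u σ := by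
        by_contra hn
        exact hv (indicator_of_notMem hn _)
      rw [mem_ball, dist_eq_norm] at hv'
      linarith [norm_sub_le_norm_sub_add_norm_sub v u c])
    (fun v v' hv => by
      by_cases hv1 : v ∈ ball u σ
      · have hv2 : v' ∈ ball u (σ + 9 * ρ) := by
          rw [mem_ball, dist_eq_norm] at hv1 ⊢
          rw [norm_sub_rev] at hv
          linarith [norm_sub_le_norm_sub_add_norm_sub v' v u]
        rw [indicator_of_mem hv1, indicator_of_mem hv2, abs_one]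
      · rw [indicator_of_notMem hv1, abs_zero]
        exact indicator_nonneg (fun _ _ => zero_le_one) v')
  have w3 : ∫ v in ball u σ, |(N v : ℝ) - Q| ≤ 8 ^ d * CI * d * D.En u (σ + 9 * ρ) := by
    have e1 : ∫ v in ball u σ, |(N v : ℝ) - Q| =
        ∫ v, |(ball u σ).indicator (fun _ => (1 : ℝ)) v| * |(N v : ℝ) - Q| := by
      rw [← integral_indicator measurableSet_ball]
      refine integral_congr_ae (Eventually.of_forall fun v => ?_)
      by_cases hv : v ∈ ball u σ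
      · simp [indicator_of_mem hv]
      · simp [indicator_of_notMem hv]
    have e2 : ∫ a, (ball u (σ + 9 * ρ)).indicator (fun _ => (1 : ℝ)) (D.x a) * D.t a ^ 2 ∂D.m =
        ∫ a in D.cyl u (σ + 9 * ρ), D.t a ^ 2 ∂D.m := by
      rw [← integral_indicator (h.meas_cyl u _)]
      refine integral_congr_ae (Eventually.of_forall fun a => ?_)
      by_cases ha : a ∈ D.cyl u (σ + 9 * ρ)
      · simp [indicator_of_mem ha, indicator_of_mem ((mem_cyl_base2 D u _ a).1 ha)]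
      · simp [indicator_of_notMem ha, indicator_of_notMem (mt (mem_cyl_base2 D u _ a).2 ha)]
    rw [e1]
    refine w2.trans ?_
    rw [e2, mul_assoc (8 ^ d * CI)]
    refine mul_le_mul_of_nonneg_left (k8.trans ?_) (by positivity)
    exact mul_le_mul_of_nonneg_left (by linarith) hd0
  have w4 : |(∫ v in ball u σ, (N v : ℝ)) - Q * vb d * σ ^ d| ≤
      8 ^ d * CI * d * D.En u (σ + 9 * ρ) := by
    have e2 : (∫ v in ball u σ, (N v : ℝ)) - Q * vb d * σ ^ d =
        ∫ v in ball u σ, ((N v : ℝ) - Q) := by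
      rw [integral_sub hNi.integrableOn (integrableOn_const measure_ball_lt_top.ne),
        setIntegral_const, smul_eq_mul, LG.vol_ball u hσ]
      ring
    rw [e2]
    exact abs_integral_le_integral_abs.trans w3
  have tri := abs_sub_le (D.Ms u σ) (∫ v in ball u σ, (N v : ℝ)) (Q * vb d * σ ^ d)
  have m4 : 0 ≤ (d + 1) * D.En u (σ + 9 * ρ) := by positivity
  constructor
  · linarith
  · linarith

end Pool.Agent.Lib.MP_8daebb_an.GM
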