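import Pool.Agent.Lib.MP_8daebb_an.GM.NeckX
import Pool.Agent.Lib.MP_8daebb_an.GM.Glob

/-! A point of full density forces one group. -/

set_option linter.unusedSectionVars false
set_option linter.unusedVariables false

open MeasureTheory Metric Filter Topology Set
open scoped RealInnerProductSpace ENNReal ContDiff

namespace Pool.Agent.Lib.MP_8daebb_an.GM

open LG (vb chi om trS)

variable {d : ℕ} {α : Type*} [MeasurableSpace α] {H : Type*} [NormedAddCommGroup H]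
  [InnerProductSpace ℝ H] [FiniteDimensional ℝ H] [MeasurableSpace H] [BorelSpace H]

theorem en_single {D : CD d α H} {c : E d} {R δ M : ℝ} (h : CV D c R δ M) (hδ : δ ≤ 1)
    {Z : Set α} {u : E d} {σ : ℝ} (hZ : Z ⊆ D.cyl u σ) :
    ∫ a in Z, (D.t a + δ * ‖D.y a‖ ^ 2) ∂D.m ≤ D.En u σ := by
  obtain ⟨it, -, iy, ien, -, -⟩ := h.integrable_t
  have hen : 0 ≤ᵐ[D.m] D.en := by
    filter_upwards [h.ae_G] with a ha
    exact add_nonneg (h.pw a ha).t_nonneg (sq_nonneg _)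
  refine le_trans ?_ (setIntegral_mono_set ien.integrableOn (ae_restrict_of_ae hen)
    hZ.eventuallyLE)
  refine integral_mono (it.add (iy.const_mul δ)).integrableOn ien.integrableOn fun a' => ?_
  have := mul_le_of_le_one_left (sq_nonneg ‖D.y a'‖) hδ
  simp only [CD.en]
  linarith

theorem num_single (d : ℕ) (Q : ℝ) {w : ℝ} (hw : 0 < w) : ∃ κ : ℝ, 0 < κ ∧ κ ≤ 1 ∧
    Q * w * (1 + 2 * κ) ^ d + κ <
      ((1 - κ) * ((Q - 1 / 3) * w) - κ) + ((1 - κ) * (2 / 5 * w) - κ) := by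
  have h1 : ∀ᶠ κ in 𝓝 (0 : ℝ), Q * w * (1 + 2 * κ) ^ d + κ <
      ((1 - κ) * ((Q - 1 / 3) * w) - κ) + ((1 - κ) * (2 / 5 * w) - κ) := by
    refine ContinuousAt.eventually_lt (by fun_prop) (by fun_prop) ?_
    simp only [mul_zero, add_zero, one_pow, sub_zero]
    linarith
  have h2 : ∀ᶠ κ in 𝓝 (0 : ℝ), κ ≤ 1 := eventually_le_nhds one_pos
  obtain ⟨κ, hκ, h3⟩ := (((h2.and h1).filter_mono nhdsWithin_le_nhds).and
    (self_mem_nhdsWithin (a := (0 : ℝ)) (s := Ioi 0))).exists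
  exact ⟨κ, h3, hκ⟩

theorem single (d : ℕ) (M : ℝ) {CI : ℝ} (hCI : 0 ≤ CI) (Q : ℕ) : ∃ L : ℝ, 1 ≤ L ∧
    ∃ c₀ : ℝ, 0 < c₀ ∧ ∃ δ₀ : ℝ, 0 < δ₀ ∧
    ∀ (D : CD d α H) (R δ lam ρ η : ℝ) (N : E d → ℕ) (u : E d), MS D R δ M lam ρ CI Q N →
    δ ≤ δ₀ → 0 < η → η ≤ ρ → ‖u‖ + L * ρ ≤ R → D.En u (L * ρ) * ρ ^ 2 ≤ c₀ * η ^ (d + 2) →
    ∀ a ∈ D.G, ∀ a' ∈ D.G, a ∈ D.cyl u ρ → a' ∈ D.cyl u ρ → D.Den ((Q - 1 / 3) * omega d) a →
    D.Den (2 / 5 * omega d) a' → ‖D.y a - D.y a'‖ < 2 * η := by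
  have hQ : (0 : ℝ) ≤ Q := Nat.cast_nonneg Q
  have hw : 0 < omega d := LG.vb_pos d
  obtain ⟨κ, hκ, κ1, hnum⟩ := num_single d Q hw
  obtain ⟨K, hK⟩ : ∃ K : ℝ, K = κ⁻¹ := ⟨_, rfl⟩
  have K1 : 1 ≤ K := hK ▸ (one_le_inv₀ hκ).2 κ1
  have K0 : 0 < K := by linarith
  have hκK : κ * K = 1 := hK ▸ mul_inv_cancel₀ hκ.ne'
  obtain ⟨c₁, hc₁, δ₁, hδ₁, hn⟩ := neck (α := α) (H := H) d hκ κ1 M
  obtain ⟨C, hC, hm⟩ := mass_near_Q (α := α) (H := H) d hCI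
  refine ⟨2 * K + 19, by linarith, min (c₁ / K ^ 2) (κ / C), by positivity, min δ₁ (1 / 2),
    lt_min hδ₁ (by norm_num), ?_⟩
  intro D R δ lam ρ η N u hD hδ hη hηρ hR hE a ha a' ha' hu hu' hd hd'
  have h := hD.cv
  have := h.fin
  have ρ0 : 0 < ρ := hη.trans_le hηρ
  have δ2 : δ ≤ 1 / 2 := hδ.trans (min_le_right _ _)
  have Kρ : ρ ≤ K * ρ := le_mul_of_one_le_left ρ0.le K1
  have hηd : 0 < η ^ (d + 2) := by positivity
  have hE1 : D.En u ((2 * K + 19) * ρ) * ρ ^ 2 ≤ c₁ / K ^ 2 * η ^ (d + 2) :=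
    hE.trans (mul_le_mul_of_nonneg_right (min_le_left _ _) hηd.le)
  have hE2 : D.En u ((2 * K + 19) * ρ) * ρ ^ 2 ≤ κ / C * η ^ (d + 2) :=
    hE.trans (mul_le_mul_of_nonneg_right (min_le_right _ _) hηd.le)
  have e1 : (1 + κ) * (K * ρ) = K * ρ + ρ := by
    rw [add_mul, one_mul, ← mul_assoc, hκK, one_mul]
  have tri : ∀ {b b' : α} {r : ℝ}, b ∈ D.cyl u ρ → ‖D.x b' - D.x b‖ < r →
      b' ∈ D.cyl u (r + ρ) := fun {b b' r} hb hb' => by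
    have t := norm_sub_le_norm_sub_add_norm_sub (D.x b') (D.x b) u
    have hb1 : ‖D.x b - u‖ < ρ := hb
    show ‖D.x b' - u‖ < r + ρ
    linarith
  have key : ∀ b ∈ D.G, b ∈ D.cyl u ρ → ∀ ϑ : ℝ, 0 ≤ ϑ → D.Den ϑ b →
      ((1 - κ) * ϑ - κ) * (K * ρ) ^ d ≤
        D.m.real (D.box (D.x b) (D.y b) (K * ρ + ρ) η) := fun b hb hbu ϑ hϑ hden => by
    have hb1 : ‖D.x b - u‖ < ρ := hbu
    have E1 := en_single h (by linarith) (Z := D.box (D.x b) (D.y b) (2 * (K * ρ)) η)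
      (u := u) (σ := (2 * K + 19) * ρ) fun b' hb' => by
        have t : ‖D.x b' - u‖ < 2 * (K * ρ) + ρ := tri hbu hb'.1
        show ‖D.x b' - u‖ < (2 * K + 19) * ρ
        linarith
    rw [← e1]
    refine hn D 0 R δ h (hδ.trans (min_le_left _ _)) b hb ϑ (K * ρ) η _ hϑ hden hη
      (hηρ.trans Kρ) ?_ E1 ?_
    · have t := norm_sub_le_norm_sub_add_norm_sub (D.x b) u 0
      rw [sub_zero u] at t
      linarith
    · rw [div_mul_eq_mul_div, le_div_iff₀ (by positivity)] at hE1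
      calc _ = D.En u ((2 * K + 19) * ρ) * ρ ^ 2 * K ^ 2 := by ring
        _ ≤ _ := hE1
  have Q1 : (1 : ℝ) ≤ Q := by exact_mod_cast hD.Q_pos
  have k1 := key a ha hu _ (mul_nonneg (by linarith) hw.le) hd
  have k2 := key a' ha' hu' _ (by positivity) hd'
  by_contra hy
  rw [not_lt] at hy
  have dj : Disjoint (D.box (D.x a) (D.y a) (K * ρ + ρ) η)
      (D.box (D.x a') (D.y a') (K * ρ + ρ) η) := Set.disjoint_left.2 fun b hb hb' => by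
    have t := norm_sub_le_norm_sub_add_norm_sub (D.y a) (D.y b) (D.y a')
    rw [norm_sub_rev (D.y a) (D.y b)] at t
    linarith [hb.2, hb'.2]
  have m1 : D.m.real (D.box (D.x a) (D.y a) (K * ρ + ρ) η) +
      D.m.real (D.box (D.x a') (D.y a') (K * ρ + ρ) η) ≤ D.Ms u (K * ρ + ρ + ρ) := by
    rw [← measureReal_union dj (h.meas_box _ _ _ _)]
    exact measureReal_mono (union_subset (fun b hb => tri hu hb.1) fun b hb => tri hu' hb.1)
  have m2 := (abs_le.1 (hm D 0 R δ M ρ Q N h δ2 ρ0 hD.mq u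
    (K * ρ + ρ + ρ) (by positivity) (by rw [sub_zero]; linarith)).2).2
  have m3 : D.En u (K * ρ + ρ + ρ + 9 * ρ) ≤ D.En u ((2 * K + 19) * ρ) :=
    (h.cyl_mono (by rw [sub_self, norm_zero]; linarith)).2.2.2
  have e2 : K * ρ + ρ + ρ = (1 + 2 * κ) * (K * ρ) := by
    rw [add_mul, one_mul, mul_assoc, ← mul_assoc κ, hκK]
    ring
  have e3 : C * D.En u ((2 * K + 19) * ρ) ≤ κ * (K * ρ) ^ d := by
    have t1 : η ^ (d + 2) ≤ ρ ^ d * ρ ^ 2 := by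
      rw [← pow_add]
      exact pow_le_pow_left₀ hη.le hηρ _
    have t2 : ρ ^ d ≤ (K * ρ) ^ d := pow_le_pow_left₀ ρ0.le Kρ d
    have t3 : D.En u ((2 * K + 19) * ρ) * ρ ^ 2 ≤ κ / C * (K * ρ) ^ d * ρ ^ 2 := by
      refine hE2.trans ?_
      rw [mul_assoc]
      exact mul_le_mul_of_nonneg_left (t1.trans (mul_le_mul_of_nonneg_right t2 (sq_nonneg _)))
        (by positivity)
    have t4 := le_of_mul_le_mul_right t3 (by positivity : 0 < ρ ^ 2)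
    calc _ ≤ C * (κ / C * (K * ρ) ^ d) := mul_le_mul_of_nonneg_left t4 hC.le
      _ = _ := by field_simp
  have n1 := mul_lt_mul_of_pos_right hnum (show 0 < (K * ρ) ^ d by positivity)
  have e4 : (Q : ℝ) * vb d * (K * ρ + ρ + ρ) ^ d =
      Q * omega d * (1 + 2 * κ) ^ d * (K * ρ) ^ d := by
    rw [e2, mul_pow, vb_eq]; ring
  rw [e4] at m2
  have m4 := mul_le_mul_of_nonneg_left m3 hC.le
  linarith

end Pool.Agent.Lib.MP_8daebb_an.GM
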