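import Pool.Agent.Lib.MP_8daebb_an.GM.Df3
import Pool.Agent.Lib.MP_8daebb_an.GM.Single
import Pool.Agent.Lib.MP_8daebb_an.GM.Clus
import Pool.Agent.Lib.MP_8daebb_an.GM.PoinC
import Pool.Agent.Lib.MP_8daebb_an.GM.AvD
import Pool.Agent.Lib.MP_8daebb_an.GM.Av2

/-! One step of the decay of the height. -/

set_option linter.unusedSectionVars false
set_option linter.unusedVariables false

open MeasureTheory Metric Filter Topology Set
open scoped RealInnerProductSpace ENNReal ContDiff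

namespace Pool.Agent.Lib.MP_8daebb_an.GM

open LG (vb chi om trS)
open SV (ux)

variable {d : ℕ} {α : Type*} [MeasurableSpace α] {H : Type*} [NormedAddCommGroup H]
  [InnerProductSpace ℝ H] [FiniteDimensional ℝ H] [MeasurableSpace H] [BorelSpace H]

lemma av_const_deca {F : Type*} [NormedAddCommGroup F] [NormedSpace ℝ F] [CompleteSpace F]
    (D : CD d α H) (ρ : ℝ) (v : F) (u : E d) :
    D.av ρ (fun _ => v) u = D.av ρ (fun _ => (1 : ℝ)) u • v := by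
  simp only [CD.av, integral_smul_const, smul_eq_mul, mul_one]

lemma good_deca {D : CD d α H} {c : E d} {R δ M : ℝ} (h : CV D c R δ M) {ρ : ℝ} (hρ : 0 < ρ)
    {u : E d} {y₀ : H} {η β A : ℝ} (h1 : 1 / 2 ≤ D.av ρ (fun _ => (1 : ℝ)) u)
    (h2 : D.av ρ (fun _ => (1 : ℝ)) u ≤ A) (h3 : ‖D.av ρ D.y u‖ ≤ β)
    (h4 : ∀ᵐ a ∂D.m, a ∈ D.cyl u ρ → ‖D.y a - y₀‖ ≤ η) :
    D.av ρ (fun a => ‖D.y a‖ ^ 2) u ≤ A * (2 * β + 2 * η) ^ 2 := by
  have := h.fin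
  have := FiniteDimensional.complete ℝ H
  have iy := h.integrable_t.2.2.2.2.2.1
  have g1 := (h.norm_av_le hρ (integrable_const η) u h4).1
  have g2 : D.av ρ (fun a => D.y a - y₀) u = D.av ρ D.y u - D.av ρ (fun _ => y₀) u := by
    simp only [CD.av, smul_sub]
    exact integral_sub (h.int_av hρ iy u) (h.int_av hρ (integrable_const y₀) u)
  rw [g2, av_const_deca D ρ y₀, av_const_deca D ρ η, norm_sub_rev, smul_eq_mul] at g1
  have g3 := norm_sub_norm_le (D.av ρ (fun _ => (1 : ℝ)) u • y₀) (D.av ρ D.y u)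
  rw [norm_smul, Real.norm_of_nonneg (by linarith)] at g3
  have g4 : ‖y₀‖ ≤ 2 * β + η := by
    have hβ : 0 ≤ β := (norm_nonneg _).trans h3
    by_contra q
    nlinarith
  have g5 := (h.norm_av_le hρ (f := fun a => ‖D.y a‖ ^ 2) (integrable_const ((2 * β + 2 * η) ^ 2))
    u (h4.mono fun a ha hc => by
      have q1 := ha hc
      have q2 := norm_sub_norm_le (D.y a) y₀
      rw [Real.norm_of_nonneg (sq_nonneg _)]
      exact pow_le_pow_left₀ (norm_nonneg _) (by linarith) 2)).1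
  rw [av_const_deca, smul_eq_mul] at g5
  exact (le_abs_self _).trans (g5.trans (mul_le_mul_of_nonneg_right h2 (sq_nonneg _)))

lemma pick_deca {D : CD d α H} {c : E d} {R δ M : ℝ} (h : CV D c R δ M) {ρ : ℝ} (hρ : 0 < ρ)
    {u : E d} {B : Set α} (hB : MeasurableSet B) (h1 : 1 / 2 ≤ D.av ρ (fun _ => (1 : ℝ)) u)
    (h2 : ∫ a in D.cyl u ρ, B.indicator (fun _ => (1 : ℝ)) a ∂D.m ≤ ρ ^ d / (4 * Ck d)) :
    ∃ a ∈ D.G, a ∈ D.cyl u ρ ∧ a ∉ B := by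
  have := h.fin
  have hk := one_le_Ck d
  by_contra hn
  obtain ⟨g1, g2⟩ := h.norm_av_le hρ (f := fun _ => (1 : ℝ))
    ((integrable_const (1 : ℝ)).indicator hB) u (h.ae_G.mono fun a ha hc => by
      have q : a ∈ B := by
        by_contra q
        exact hn ⟨a, ha, hc, q⟩
      simp [q])
  have g3 := mul_le_mul_of_nonneg_left h2 (by positivity : 0 ≤ Ck d / ρ ^ d)
  have g4 : Ck d / ρ ^ d * (ρ ^ d / (4 * Ck d)) = 1 / 4 := by field_simp
  have g5 := le_abs_self (D.av ρ (fun _ => (1 : ℝ)) u)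
  rw [Real.norm_eq_abs] at g1
  linarith

lemma sqrt_deca {A : E d → ℝ} (hA : ContDiff ℝ 1 A) (h0 : ∀ u, 0 ≤ A u) {η : ℝ} (hη : 0 < η)
    (u : E d) :
    ‖fderiv ℝ (fun u => √(A u + η ^ 2)) u‖ = ‖fderiv ℝ A u‖ / (2 * √(A u + η ^ 2)) := by
  have := h0 u
  have g := ((hA.differentiable one_ne_zero u).hasFDerivAt.add_const (η ^ 2)).sqrt (by positivity)
  rw [g.fderiv, norm_smul, Real.norm_of_nonneg (by positivity)]
  ring

lemma grad_deca {A T C η S X : ℝ} (hA : 0 ≤ A) (hT : 0 ≤ T) (hC : 0 ≤ C) (hη : 0 < η)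
    (hS : 0 ≤ S) (hX0 : 0 ≤ X) (hX : X ≤ C * √(A * T) + C * (η * S)) :
    (X / (2 * √(A + η ^ 2))) ^ 2 ≤ C ^ 2 * (T + S ^ 2) := by
  have g1 : √A ≤ √(A + η ^ 2) := Real.sqrt_le_sqrt (by linarith [sq_nonneg η])
  have g2 : η ≤ √(A + η ^ 2) := Real.le_sqrt_of_sq_le (by linarith)
  have g3 : X / (2 * √(A + η ^ 2)) ≤ C * ((√T + S) / 2) := by
    rw [div_le_iff₀ (by positivity)]
    rw [Real.sqrt_mul hA] at hX
    have q1 := mul_le_mul_of_nonneg_left g1 (by positivity : 0 ≤ C * √T)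
    have q2 := mul_le_mul_of_nonneg_left g2 (by positivity : 0 ≤ C * S)
    nlinarith
  refine (pow_le_pow_left₀ (by positivity) g3 2).trans ?_
  rw [mul_pow]
  refine mul_le_mul_of_nonneg_left ?_ (sq_nonneg C)
  have q := Real.sq_sqrt hT
  nlinarith [sq_nonneg (√T - S), sq_nonneg S]

lemma markov_deca {f : E d → ℝ} (hf : Continuous f) (h0 : ∀ u, 0 ≤ f u) {m r : ℝ} (hm : 0 < m) :
    volume ({u | m < f u} ∩ ball 0 r) ≤ ENNReal.ofReal ((∫ u in ball (0 : E d) r, f u) / m) := by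
  have h1 := mul_meas_ge_le_integral_of_nonneg (μ := volume.restrict (ball (0 : E d) r))
    (f := f) (ae_of_all _ h0) (LG.intOn_cont_poin hf _ _) m
  have h2 : volume ({u | m < f u} ∩ ball 0 r) ≤
      volume.restrict (ball (0 : E d) r) {u | m ≤ f u} := by
    rw [Measure.restrict_apply' measurableSet_ball]
    exact measure_mono (inter_subset_inter_left _ fun u (hu : m < f u) => hu.le)
  refine h2.trans ?_
  have : IsFiniteMeasure (volume.restrict (ball (0 : E d) r)) :=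
    isFiniteMeasure_restrict.2 measure_ball_lt_top.ne
  rw [← ENNReal.ofReal_toReal (measure_ne_top (volume.restrict (ball (0 : E d) r)) _)]
  refine ENNReal.ofReal_le_ofReal ?_
  rw [le_div_iff₀ hm, mul_comm]
  exact h1

lemma sq_deca {lam ρ η E1 Ca : ℝ} (hl : 0 < lam) (hρ : 0 < ρ) (hη : 0 < η) (hE : 0 ≤ E1)
    (hC : 0 ≤ Ca) (h1 : lam ^ 3 ≤ ρ ^ 2 * η) (h2 : E1 ≤ Ca * (lam ^ 2 / ρ ^ 2)) :
    (lam ^ 2 / (ρ * η) * E1) ^ 2 ≤ Ca * E1 := by
  have h3 : lam ^ 3 / (ρ ^ 2 * η) ≤ 1 := (div_le_one (by positivity)).2 h1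
  have h4 : (lam ^ 3 / (ρ ^ 2 * η)) ^ 2 ≤ 1 := pow_le_one₀ (by positivity) h3
  calc (lam ^ 2 / (ρ * η) * E1) ^ 2 = (lam ^ 2 / (ρ * η)) ^ 2 * E1 * E1 := by ring
    _ ≤ (lam ^ 2 / (ρ * η)) ^ 2 * E1 * (Ca * (lam ^ 2 / ρ ^ 2)) :=
        mul_le_mul_of_nonneg_left h2 (by positivity)
    _ = (lam ^ 3 / (ρ ^ 2 * η)) ^ 2 * (Ca * E1) := by field_simp
    _ ≤ Ca * E1 := mul_le_of_le_one_left (by positivity) h4

theorem dec_step (d : ℕ) (M : ℝ) {CI : ℝ} (hCI : 0 ≤ CI) (Q : ℕ) : ∃ δ₀ : ℝ, 0 < δ₀ ∧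
    ∀ ξ : ℝ, 0 < ξ → ∃ εB : ℝ, 0 < εB ∧ ∃ c : ℝ, 0 < c ∧ ∃ C : ℝ, 0 < C ∧
    ∀ (D : CD d α H) (R δ lam ρ η σ E₀ : ℝ) (N : E d → ℕ), MS D R δ M lam ρ CI Q N → δ ≤ δ₀ →
    0 < η → η ≤ ρ → lam ^ 3 ≤ ρ ^ 2 * η → ρ ≤ c * σ → 5 * σ ≤ R → ∫ a, D.en a ∂D.m ≤ E₀ →
    ρ ^ (d + 2) * E₀ ≤ c * η ^ (d + 2) * σ ^ d → D.bad Q (4 * σ) ≤ εB * σ ^ d →
    ∫ v in ball (0 : E d) (2 * σ), ‖D.av ρ D.y v‖ ≤ εB * η * σ ^ d →
    D.J 0 σ ≤ ξ * D.J 0 (4 * σ) + C * η ^ 2 * σ ^ d := by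
  obtain ⟨L₁, hL₁, c₁, hc₁, δs, hδs, Hs⟩ := single (α := α) (H := H) d M hCI Q
  obtain ⟨Cg, hCg, Hg⟩ := grad_av_sq (α := α) (H := H) d M
  obtain ⟨Cc, hCc, Hc⟩ := cacc (α := α) (H := H) d
  obtain ⟨Ca, hCa, Ha⟩ := av_le (α := α) (H := H) d M
  obtain ⟨Co, hCo, Ho⟩ := ms_av_one (α := α) (H := H) d hCI
  have hk := one_le_Ck d
  have hv := LG.vb_pos d
  obtain ⟨L, hL, hL8⟩ : ∃ L : ℝ, L₁ ≤ L ∧ 8 ≤ L := ⟨_, le_max_left _ _, le_max_right _ _⟩
  obtain ⟨c₀, hc₀, c01, c02⟩ : ∃ c₀ : ℝ, 0 < c₀ ∧ c₀ ≤ c₁ ∧ c₀ ≤ 1 / (2 * Co) :=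
    ⟨min _ _, by positivity, min_le_left _ _, min_le_right _ _⟩
  rw [le_div_iff₀ (by positivity)] at c02
  refine ⟨min δs (1 / 10), lt_min hδs (by norm_num), fun ξ hξ => ?_⟩
  obtain ⟨κ, hκ, hκe⟩ : ∃ κ : ℝ, 0 < κ ∧ κ * (Cg ^ 2 * (2 * Ca) * (vb d * 2 ^ d) * Cc) = ξ :=
    ⟨_ / _, by positivity, div_mul_cancel₀ _ (by positivity)⟩
  obtain ⟨ep, hep, Hp⟩ := poin_c d hκ
  obtain ⟨c, hc, c1, c2⟩ : ∃ c : ℝ, 0 < c ∧ c ≤ 1 / (8 * L) ∧ c ≤ ep / 3 * c₀ / (vb d * L ^ d) :=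
    ⟨min _ _, by positivity, min_le_left _ _, min_le_right _ _⟩
  obtain ⟨εB, hεB, b1, b2⟩ : ∃ εB : ℝ, 0 < εB ∧ εB ≤ ep / 3 / (vb d * (4 * Ck d)) ∧ εB ≤ ep / 3 :=
    ⟨min _ _, by positivity, min_le_left _ _, min_le_right _ _⟩
  rw [le_div_iff₀ (by positivity)] at c1 c2 b1
  refine ⟨εB, hεB, c, hc, 2 * 2 ^ d * vb d * (36 * Ca + 1), by positivity, ?_⟩
  intro D R δ lam ρ η σ E₀ N hms hδ hη0 hηρ hlam hρσ hR hE₀ hsm hbad hav
  have h := hms.cv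
  have := h.fin
  have := FiniteDimensional.complete ℝ H
  obtain ⟨hδ1, hδ2⟩ := le_min_iff.1 hδ
  have hl := hms.lam_pos
  have hl2 := hms.lam_le
  have hρ0 : 0 < ρ := by linarith
  have hσ : 0 < σ := (mul_pos_iff_of_pos_left hc).1 (hρ0.trans_le hρσ)
  have r3 : L * ρ ≤ σ / 8 := by
    have q1 := mul_le_mul_of_nonneg_left hρσ (by linarith : 0 ≤ L)
    have q2 := mul_le_mul_of_nonneg_right c1 hσ.le
    linarith
  have r4 : 8 * ρ ≤ L * ρ := mul_le_mul_of_nonneg_right hL8 hρ0.le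
  have r6 : L₁ * ρ ≤ L * ρ := mul_le_mul_of_nonneg_right hL hρ0.le
  obtain ⟨-, -, iy2, ien, -, iy, -⟩ := h.integrable_t
  have en0 : ∀ᵐ a ∂D.m, 0 ≤ D.en a := h.pw_av.mono fun a ha => (PW.facts_av ha).1
  have y0 : ∀ᵐ a ∂D.m, 0 ≤ ‖D.y a‖ ^ 2 := ae_of_all _ fun a => sq_nonneg _
  obtain ⟨a1, a2, -⟩ := h.av_smooth hρ0 iy2
  have a0 := av_nonneg_av2 D hρ0 y0
  have hA : ContDiff ℝ 1 (D.av ρ fun a => ‖D.y a‖ ^ 2) := a1.of_le (by norm_num)
  obtain ⟨A, hAe⟩ : ∃ A, A = D.av ρ fun a => ‖D.y a‖ ^ 2 := ⟨_, rfl⟩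
  have hJ1 : D.J 0 σ ≤ _ := ((h.cyl_mono (u := 0) (v := 0) (r := σ) (s := 3 / 2 * σ - ρ)
    (by simp; linarith)).2.2.1).trans ((h.cyl_av hρ0 iy2 y0 0).2.1 _)
  rw [sub_add_cancel] at hJ1
  have hE3 := Hc D 0 R δ M h hδ2 0 (3 * σ) σ (by positivity) hσ (by simp; linarith)
  rw [show 3 * σ + σ = 4 * σ by ring] at hE3
  have hg := Hg D R δ lam ρ h hδ2 hms.ht hl hl2
  have ha := fun u => Ha D 0 R δ lam ρ u h hδ2 hms.ht hl hl2
  have hgood := fun u y₀ => good_deca h hρ0 (u := u) (y₀ := y₀) (η := 2 * η) (β := η) (A := Ca)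
  rw [← hAe] at a0 a2 hA hJ1 hg hgood
  have hG : ContDiff ℝ 1 fun u => √(A u + η ^ 2) :=
    (hA.add contDiff_const).sqrt fun u => by
      have := a0 u
      positivity
  obtain ⟨K, hK⟩ := (a2.fderiv ℝ).exists_bound_of_continuous (hA.continuous_fderiv one_ne_zero)
  obtain ⟨B, hBm, hB1, hB2⟩ : ∃ B : Set α, MeasurableSet B ∧ D.m.real B = D.bad Q (4 * σ) ∧
      ∀ a ∉ B, a ∈ D.cyl 0 (4 * σ) → D.Den ((Q - 1 / 3) * omega d) a := by
    refine ⟨toMeasurable D.m {a | a ∈ D.cyl 0 (4 * σ) ∧ ¬D.Den ((Q - 1 / 3) * omega d) a},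
      measurableSet_toMeasurable _ _, by rw [CD.bad, Measure.real, measure_toMeasurable]; rfl,
      fun a ha hc => ?_⟩
    by_contra q
    exact ha (subset_toMeasurable _ _ ⟨hc, q⟩)
  have hsub : {u | √(Ca * (2 * η + 2 * (2 * η)) ^ 2 + η ^ 2) < √(A u + η ^ 2)} ∩
      ball 0 (2 * σ) ⊆ ({u : E d | c₀ * η ^ (d + 2) / ρ ^ 2 <
        ∫ a in {a | ‖D.x a - u‖ < L * ρ}, D.en a ∂D.m} ∪
        {u : E d | ρ ^ d / (4 * Ck d) <
        ∫ a in {a | ‖D.x a - u‖ < ρ}, B.indicator (fun _ => (1 : ℝ)) a ∂D.m}) ∪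
        ({u | η < ‖D.av ρ D.y u‖} ∩ ball 0 (2 * σ)) := by
    rintro u ⟨u1, u2⟩
    have u3 := mem_ball_zero_iff.1 u2
    by_contra q
    have q0 : D.En u (L * ρ) ≤ c₀ * η ^ (d + 2) / ρ ^ 2 :=
      not_lt.1 fun g => q (Or.inl (Or.inl g))
    rw [le_div_iff₀ (by positivity)] at q0
    have q2 : ∫ a in D.cyl u ρ, B.indicator (fun _ => (1 : ℝ)) a ∂D.m ≤ ρ ^ d / (4 * Ck d) :=
      not_lt.1 fun g => q (Or.inl (Or.inr g))
    have q6 : ‖D.av ρ D.y u‖ ≤ η := not_lt.1 fun g => q (Or.inr ⟨g, u2⟩)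
    have q3 : 1 / 2 ≤ D.av ρ (fun _ => (1 : ℝ)) u := by
      have p1 := (abs_le.1 (Ho D R δ M lam ρ Q N u hms (by linarith) (by linarith)).1).1
      have p2 : (1 : ℝ) ≤ Q := by exact_mod_cast hms.Q_pos
      have p3 : D.En u (8 * ρ) / ρ ^ d ≤ c₀ := by
        have p4 := (h.cyl_mono (u := u) (v := u) (by simpa using r4)).2.2.2
        have p5 := mul_le_mul_of_nonneg_left (pow_le_pow_left₀ hη0.le hηρ (d + 2)) hc₀.le
        rw [div_le_iff₀ (by positivity)]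
        refine le_of_mul_le_mul_right ?_ (pow_pos hρ0 2)
        rw [mul_assoc, ← pow_add]
        exact (mul_le_mul_of_nonneg_right p4 (by positivity)).trans (q0.trans p5)
      linarith [mul_le_mul_of_nonneg_left p3 hCo.le]
    obtain ⟨a, b1, b2, b3⟩ := pick_deca h hρ0 hBm q3 q2
    have b4 : a ∈ D.cyl 0 (4 * σ) := cyl_sub D (by simp; linarith) b2
    have q4 : D.En u (L₁ * ρ) * ρ ^ 2 ≤ c₁ * η ^ (d + 2) :=
      (mul_le_mul_of_nonneg_right (h.cyl_mono (u := u) (v := u) (by simpa using r6)).2.2.2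
        (by positivity)).trans (q0.trans (mul_le_mul_of_nonneg_right c01 (by positivity)))
    have q5 := hgood u (D.y a) q3 (ha u).2.2.1 q6 (by
      filter_upwards [h.ae_G, h.ld] with a' p1 p2 p3
      rw [norm_sub_rev]
      exact (Hs D R δ lam ρ η N u hms hδ1 hη0 hηρ (by linarith) q4 a b1 a' p1 b2 p3
        (hB2 a b3 b4) p2).le)
    exact absurd (Real.sqrt_le_sqrt (add_le_add q5 le_rfl)) (not_le.2 u1)
  have v1 := vol_local (μ := D.m) h.m_x ien en0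
    (r₀ := L * ρ) (η₁ := c₀ * η ^ (d + 2) / ρ ^ 2) (by positivity) (by positivity)
  have v2 := vol_local (μ := D.m) h.m_x ((integrable_const (1 : ℝ)).indicator hBm)
    (ae_of_all _ fun a => indicator_nonneg (fun _ _ => zero_le_one) a)
    (r₀ := ρ) (η₁ := ρ ^ d / (4 * Ck d)) hρ0 (by positivity)
  have v3 := markov_deca (f := fun u => ‖D.av ρ D.y u‖) (r := 2 * σ)
    (h.av_smooth hρ0 iy).1.continuous.norm (fun _ => norm_nonneg _) hη0
  have w1 : vb d * (L * ρ) ^ d * (∫ a, D.en a ∂D.m) / (c₀ * η ^ (d + 2) / ρ ^ 2) ≤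
      ep / 3 * σ ^ d := by
    rw [div_le_iff₀ (by positivity)]
    calc _ ≤ vb d * (L * ρ) ^ d * E₀ := mul_le_mul_of_nonneg_left hE₀ (by positivity)
      _ = vb d * L ^ d * (ρ ^ (d + 2) * E₀) / ρ ^ 2 := by
          rw [mul_pow, pow_add]
          field_simp
      _ ≤ vb d * L ^ d * (c * η ^ (d + 2) * σ ^ d) / ρ ^ 2 := by gcongr
      _ = c * (vb d * L ^ d) * (η ^ (d + 2) * σ ^ d / ρ ^ 2) := by ring
      _ ≤ ep / 3 * c₀ * (η ^ (d + 2) * σ ^ d / ρ ^ 2) :=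
          mul_le_mul_of_nonneg_right c2 (by positivity)
      _ = _ := by ring
  have w2 : vb d * ρ ^ d * (∫ a, B.indicator (fun _ => (1 : ℝ)) a ∂D.m) / (ρ ^ d / (4 * Ck d)) ≤
      ep / 3 * σ ^ d := by
    rw [integral_indicator_const _ hBm, smul_eq_mul, mul_one, hB1, div_le_iff₀ (by positivity)]
    calc _ ≤ vb d * ρ ^ d * (εB * σ ^ d) := mul_le_mul_of_nonneg_left hbad (by positivity)
      _ = εB * (vb d * (4 * Ck d)) * (σ ^ d * (ρ ^ d / (4 * Ck d))) := by field_simp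
      _ ≤ ep / 3 * (σ ^ d * (ρ ^ d / (4 * Ck d))) := mul_le_mul_of_nonneg_right b1 (by positivity)
      _ = _ := by ring
  have w3 : (∫ u in ball (0 : E d) (2 * σ), ‖D.av ρ D.y u‖) / η ≤ ep / 3 * σ ^ d := by
    rw [div_le_iff₀ hη0]
    refine hav.trans ?_
    rw [mul_right_comm]
    gcongr
  have hp := Hp (fun u => √(A u + η ^ 2)) (K / (2 * η)) _ σ hG (fun u => by
      rw [sqrt_deca hA a0 hη0]
      have p1 : η ≤ √(A u + η ^ 2) := Real.le_sqrt_of_sq_le (by linarith [a0 u])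
      exact div_le_div₀ ((norm_nonneg _).trans (hK u)) (hK u) (by positivity) (by linarith))
    (fun u => Real.sqrt_nonneg _) (Real.sqrt_nonneg _) hσ ((measure_mono hsub).trans
      ((measure_union_le _ _).trans ((add_le_add ((measure_union_le _ _).trans (add_le_add
        (v1.trans (ENNReal.ofReal_le_ofReal w1)) (v2.trans (ENNReal.ofReal_le_ofReal w2))))
        (v3.trans (ENNReal.ofReal_le_ofReal w3))).trans (le_of_eq (by
          rw [← ENNReal.ofReal_add (by positivity) (by positivity),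
            ← ENNReal.ofReal_add (by positivity) (by positivity)]
          congr 1
          ring)))))
  rw [Real.sq_sqrt (by positivity)] at hp
  have f1 : ∫ u in ball (0 : E d) (3 / 2 * σ), A u ≤
      ∫ u in ball (0 : E d) (3 / 2 * σ), √(A u + η ^ 2) ^ 2 :=
    integral_mono (LG.intOn_cont_poin hA.continuous _ _)
      (LG.intOn_cont_poin (hG.continuous.pow 2) _ _) fun u => by
      have := a0 u
      show A u ≤ √(A u + η ^ 2) ^ 2
      rw [Real.sq_sqrt (by positivity)]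
      linarith [sq_nonneg η]
  have hρ2 : 0 < 2 * ρ := by positivity
  have tc := (h.av_smooth hρ2 ien).1.continuous
  have f2 : ∫ u in ball (0 : E d) (2 * σ), ‖fderiv ℝ (fun u => √(A u + η ^ 2)) u‖ ^ 2 ≤
      ∫ u in ball (0 : E d) (2 * σ), Cg ^ 2 * (2 * Ca) * (vb d * 2 ^ d) * D.av (2 * ρ) D.en u :=
    setIntegral_mono_on (LG.intOn_cont_poin ((hG.continuous_fderiv one_ne_zero).norm.pow 2) _ _)
      (LG.intOn_cont_poin (by fun_prop) _ _) measurableSet_ball fun u hu => by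
        rw [sqrt_deca hA a0 hη0]
        have hu' := mem_ball_zero_iff.1 hu
        obtain ⟨-, -, -, p1, p2, -, -, -, p3, -⟩ := ha u
        have p4 := p3 (by simp; linarith)
        have p5 : D.En u ρ / ρ ^ d ≤ vb d * 2 ^ d * D.av (2 * ρ) D.en u := by
          have p6 := (h.cyl_av hρ2 ien en0 u).2.2.1
          rw [mul_div_cancel_left₀ _ two_ne_zero, mul_pow] at p6
          rw [div_le_iff₀ (by positivity)]
          exact le_of_le_of_eq p6 (by ring)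
        have p6 : 0 ≤ D.En u ρ / ρ ^ d := div_nonneg (h.nonneg u _).2.2.2.1 (by positivity)
        have p8 := hg u (by linarith)
        rw [show Cg * lam ^ 2 / ρ * (D.En u ρ / ρ ^ d) =
          Cg * (η * (lam ^ 2 / (ρ * η) * (D.En u ρ / ρ ^ d))) by field_simp] at p8
        refine (grad_deca (a0 u) p1 hCg.le hη0 (by positivity) (norm_nonneg _) p8).trans ?_
        rw [mul_assoc, mul_assoc]
        refine mul_le_mul_of_nonneg_left ?_ (sq_nonneg _)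
        have p9 := sq_deca hl hρ0 hη0 p6 (by linarith) hlam p4
        have p10 := mul_le_mul_of_nonneg_left p5 (by linarith : 0 ≤ 2 * Ca)
        linarith
  rw [integral_const_mul] at f2
  have f4 := (((h.cyl_av hρ2 ien en0 0).1 (2 * σ)).trans
    (h.cyl_mono (u := 0) (v := 0) (s := 3 * σ) (by simp; linarith)).2.2.2).trans hE3
  have f5 := mul_le_mul_of_nonneg_left (f2.trans (mul_le_mul_of_nonneg_left f4 (by positivity)))
    (by positivity : 0 ≤ κ * σ ^ 2)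
  have f6 : κ * σ ^ 2 * (Cg ^ 2 * (2 * Ca) * (vb d * 2 ^ d) * (Cc / σ ^ 2 * D.J 0 (4 * σ))) =
      ξ * D.J 0 (4 * σ) := by
    rw [← hκe]
    field_simp
  refine (hJ1.trans (f1.trans hp)).trans ?_
  rw [f6] at f5
  linarith

end Pool.Agent.Lib.MP_8daebb_an.GM
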