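import Pool.Agent.Lib.MP_8daebb_an.GM.DecA
import Pool.Agent.Lib.MP_8daebb_an.GM.HB
import Pool.Agent.Lib.MP_8daebb_an.GM.AvT

/-! Decay of the height function. -/

set_option linter.unusedSectionVars false
set_option linter.unusedVariables false

open MeasureTheory Metric Filter Topology Set
open scoped RealInnerProductSpace ENNReal ContDiff

namespace Pool.Agent.Lib.MP_8daebb_an.GM

open LG (vb chi om trS)
open SV (ux)

variable {d : ℕ} {α : Type*} [MeasurableSpace α] {H : Type*} [NormedAddCommGroup H]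
  [InnerProductSpace ℝ H] [FiniteDimensional ℝ H] [MeasurableSpace H] [BorelSpace H]

theorem dec_iter (d : ℕ) (M : ℝ) {CI : ℝ} (hCI : 0 ≤ CI) (Q : ℕ) : ∃ δ₀ : ℝ, 0 < δ₀ ∧
    ∀ k : ℝ, 0 ≤ k → ∃ εB : ℝ, 0 < εB ∧ ∃ c : ℝ, 0 < c ∧ ∃ C : ℝ, 0 < C ∧
    ∀ (D : CD d α H) (R δ lam ρ η ϱ r E₀ : ℝ) (N : E d → ℕ), MS D R δ M lam ρ CI Q N → δ ≤ δ₀ →
    0 < η → η ≤ ρ → lam ^ 3 ≤ ρ ^ 2 * η → ρ ≤ c * ϱ → ϱ ≤ r → r ≤ R → ∫ a, D.en a ∂D.m ≤ E₀ →
    ρ ^ (d + 2) * E₀ ≤ c * η ^ (d + 2) * ϱ ^ d →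
    (∀ σ, ϱ ≤ σ → σ ≤ r → D.bad Q σ ≤ εB * σ ^ d) →
    ∫ v in ball (0 : E d) (r / 2), ‖D.av ρ D.y v‖ ≤ εB * η * ϱ ^ d →
    D.hh ϱ ≤ C * Real.exp (-(k * Real.log (r / ϱ))) * D.hh r + C * η ^ 2 := by
  obtain ⟨δ₀, hδ₀, hstep⟩ := dec_step (α := α) (H := H) d M hCI Q
  refine ⟨min δ₀ (1 / 2), by positivity, fun k hk => ?_⟩
  have hl4 : 0 < Real.log 4 := Real.log_pos (by norm_num)
  set θ := Real.exp (-(k * Real.log 4)) with hθ
  have hθ0 : 0 < θ := Real.exp_pos _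
  have hθ1 : θ ≤ 1 := Real.exp_le_one_iff.2 (neg_nonpos.2 (by positivity))
  obtain ⟨εB, hεB, c, hc, C, hC, hst⟩ := hstep (θ / 2 / 4 ^ d) (by positivity)
  set A := Real.exp (2 * (k * Real.log 4)) with hA
  have hA0 : 0 < A := Real.exp_pos _
  refine ⟨εB / 4 ^ d, by positivity, c, hc, 20 * 8 ^ d * A + 10 * C, by positivity,
    fun D R δ lam ρ η ϱ r E₀ N hMS hδ hη hηρ hlam hρ hϱr hrR hE₀ hsm hbad hav => ?_⟩
  have hρ0 : 0 < ρ := hMS.ρ_pos
  have := FiniteDimensional.complete ℝ H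
  have hcont := (hMS.cv.av_smooth hρ0 hMS.cv.integrable_t.2.2.2.2.2.1).1.continuous.norm
  have hϱ : 0 < ϱ := (mul_pos_iff_of_pos_left hc).1 (hρ0.trans_le hρ)
  have hr : 0 < r := hϱ.trans_le hϱr
  have hδ2 : δ ≤ 1 / 2 := hδ.trans (min_le_right _ _)
  set F := η ^ 2 with hE
  have hE0 : 0 ≤ F := by positivity
  have hJ0 : ∀ σ, 0 ≤ D.J 0 σ := fun σ => integral_nonneg fun a => by positivity
  obtain ⟨b1, -, -, -, -, b5, -, b6⟩ := hh_basic hMS.cv hδ2 hr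
  obtain ⟨-, -, -, a3, -⟩ := hh_basic hMS.cv hδ2 hϱ
  have hiter : ∀ n : ℕ, ∀ σ, ϱ ≤ σ → 4 ^ n * σ ≤ r / 2 →
      D.J 0 σ / σ ^ d ≤ θ ^ n * (D.J 0 (4 ^ n * σ) / (4 ^ n * σ) ^ d) + 2 * C * F := by
    intro n
    induction n with
    | zero =>
      intro σ _ _
      simp only [pow_zero, one_mul]
      have : 0 ≤ 2 * C * F := by positivity
      linarith
    | succ n ih =>
      intro σ h1 h2
      have hσ : 0 < σ := hϱ.trans_le h1
      have e : (4 : ℝ) ^ (n + 1) * σ = 4 ^ n * (4 * σ) := by ring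
      rw [e] at h2 ⊢
      have h3 : 4 * σ ≤ r / 2 :=
        (le_mul_of_one_le_left (by positivity) (one_le_pow₀ (by norm_num))).trans h2
      have h4 := ih (4 * σ) (by linarith) h2
      have h5 := hst D R δ lam ρ η σ E₀ N hMS (hδ.trans (min_le_left _ _)) hη hηρ hlam
        (hρ.trans (mul_le_mul_of_nonneg_left h1 hc.le)) (by linarith) hE₀ (hsm.trans (by gcongr))
        ((hbad (4 * σ) (by linarith) (by linarith)).trans_eq (by rw [mul_pow]; field_simp))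
        ((setIntegral_mono_set (LG.intOn_cont_poin hcont _ _)
          (ae_of_all _ fun v => norm_nonneg _)
          (ball_subset_ball (by linarith)).eventuallyLE).trans (hav.trans (by
            gcongr
            exact div_le_self hεB.le (one_le_pow₀ (by norm_num)))))
      have h6 : D.J 0 σ / σ ^ d ≤ θ / 2 * (D.J 0 (4 * σ) / (4 * σ) ^ d) + C * F := by
        rw [div_le_iff₀ (by positivity)]
        refine h5.trans_eq ?_
        rw [mul_pow, ← hE]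
        field_simp
      set X := D.J 0 (4 ^ n * (4 * σ)) / (4 ^ n * (4 * σ)) ^ d
      have hX : 0 ≤ X := div_nonneg (hJ0 _) (by positivity)
      have h7 : 0 ≤ θ * (θ ^ n * X) := by positivity
      have h8 : θ * (C * F) ≤ C * F := mul_le_of_le_one_left (by positivity) hθ1
      calc _ ≤ _ := h6
        _ ≤ θ / 2 * (θ ^ n * X + 2 * C * F) + C * F := by gcongr
        _ = θ * (θ ^ n * X) / 2 + θ * (C * F) + C * F := by ring
        _ ≤ θ * (θ ^ n * X) + 2 * C * F := by linarith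
        _ = _ := by ring
  set W := Real.exp (-(k * Real.log (r / ϱ))) with hW
  have hW0 : 0 < W := Real.exp_pos _
  have hpow : ∀ n : ℕ, r / ϱ ≤ 4 ^ (n + 2) → θ ^ n ≤ A * W := fun n hn => by
    have h1 : Real.log (r / ϱ) ≤ ((n : ℝ) + 2) * Real.log 4 := by
      have := Real.log_le_log (by positivity) hn
      rwa [Real.log_pow, Nat.cast_add, Nat.cast_ofNat] at this
    rw [hθ, hA, hW, ← Real.exp_nat_mul, ← Real.exp_add]
    apply Real.exp_le_exp.2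
    linarith [mul_le_mul_of_nonneg_left h1 hk]
  have hfin : D.hh ϱ ≤ 5 * (A * W * (4 * 8 ^ d * D.hh r)) + 10 * C * F := by
    have hCE : 0 ≤ C * F := by positivity
    rcases le_or_gt ϱ (r / 2) with h1 | h1
    · obtain ⟨n, hn1, hn2⟩ := exists_nat_pow_near (x := r / 2 / ϱ) (y := (4 : ℝ))
        ((one_le_div hϱ).2 h1) (by norm_num)
      rw [le_div_iff₀ hϱ] at hn1
      rw [div_lt_iff₀ hϱ] at hn2
      have h2 := hiter n ϱ le_rfl hn1
      set σ := 4 ^ n * ϱ with hσ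
      have hσ0 : 0 < σ := by positivity
      have h3 : r ≤ 8 * σ := by
        have : (4 : ℝ) ^ (n + 1) * ϱ = 4 * σ := by rw [hσ]; ring
        linarith
      have h4 := hpow n (by
        rw [div_le_iff₀ hϱ]
        have : (4 : ℝ) ^ (n + 2) * ϱ = 16 * σ := by rw [hσ]; ring
        linarith)
      have h5 := (b6 σ hσ0 (by linarith)).1
      have h6 : (1 / 2 : ℝ) ≤ 1 - σ / r := by
        have : σ / r ≤ 1 / 2 := by rw [div_le_iff₀ hr]; linarith
        linarith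
      have h7 : D.J 0 σ / σ ^ d ≤ 4 * 8 ^ d * D.hh r := by
        rw [div_le_iff₀ (by positivity)]
        have h8 : (1 / 2 : ℝ) ^ 2 * D.J 0 σ ≤ (1 - σ / r) ^ 2 * D.J 0 σ := by
          have := hJ0 σ
          gcongr
        have h9 : r ^ d * D.hh r ≤ (8 * σ) ^ d * D.hh r := by gcongr
        rw [mul_pow] at h9
        linarith
      have h10 : D.hh ϱ ≤ 5 * (D.J 0 ϱ / ϱ ^ d) := by
        rw [← mul_div_assoc, le_div_iff₀ (by positivity)]
        linarith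
      have h11 : θ ^ n * (D.J 0 σ / σ ^ d) ≤ A * W * (4 * 8 ^ d * D.hh r) :=
        mul_le_mul h4 h7 (div_nonneg (hJ0 _) (by positivity)) (by positivity)
      linarith
    · have h2 := hpow 0 (by rw [div_le_iff₀ hϱ]; norm_num; linarith)
      rw [pow_zero] at h2
      have h3 := b5 ϱ hϱ hϱr
      have h4 : r ^ d * D.hh r ≤ (8 * ϱ) ^ d * D.hh r := by
        gcongr
        linarith
      rw [mul_pow] at h4
      have h5 : D.hh ϱ ≤ 8 ^ d * D.hh r := by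
        refine le_of_mul_le_mul_left ?_ (pow_pos hϱ d)
        linarith
      have h6 : 0 ≤ 8 ^ d * D.hh r := by positivity
      nlinarith [mul_le_mul_of_nonneg_right h2 h6]
  have h1 : 0 ≤ C * (W * D.hh r) := by positivity
  have h2 : 0 ≤ 8 ^ d * A * F := by positivity
  linarith

theorem dec_u (d : ℕ) (M : ℝ) {CI : ℝ} (hCI : 0 ≤ CI) (Q : ℕ) : ∃ δ₀ : ℝ, 0 < δ₀ ∧
    ∀ (KN : ℕ) (A b g : ℝ), Par d KN A b g → ∀ k : ℝ, 0 ≤ k → ∃ εB C L₀ : ℝ, 0 < εB ∧ 0 < C ∧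
    ∀ (D : CD d α H) (R δ L r K B ϱ : ℝ) (N : E d → ℕ), δ ≤ δ₀ → L₀ ≤ L → 1 ≤ K →
    Stg D R δ M CI Q N A b g L r K B → (∀ σ, ux L 2 ≤ σ → σ ≤ r → D.bad Q σ ≤ εB * σ ^ d) →
    ux L 2 ≤ ϱ → ϱ ≤ r →
    D.hh ϱ ≤ C * Real.exp (-(k * Real.log (r / ϱ))) * ux L A + ux L (A + 5) := by
  obtain ⟨δ₀, hδ₀, Hi⟩ := dec_iter (α := α) (H := H) d M hCI Q
  obtain ⟨Ct, hCt, Hat⟩ := av_transfer (α := α) (H := H) d M
  refine ⟨min δ₀ (1 / 10), by positivity, fun KN A b g hP k hk => ?_⟩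
  obtain ⟨εB, hεB, c, hc, C, hC, Hd⟩ := Hi k hk
  obtain ⟨L₀, hL₀, HL⟩ := ux_small (1 / c + 6 + 2 * Ct / εB + C) 0 one_pos
  refine ⟨εB, C, L₀, hεB, hC, fun D R δ L r K B ϱ N hδ hL hK hS hbad hϱ hϱr => ?_⟩
  obtain ⟨hδ1, hδ2⟩ := le_min_iff.1 hδ
  have L0 : 0 ≤ L := by linarith
  have hv := HL L hL
  rw [pow_zero, mul_one] at hv
  have v0 := ux_pos L 1
  have v1 : 0 ≤ 1 / c * ux L 1 := by positivity
  have v2 : 0 ≤ 2 * Ct / εB * ux L 1 := by positivity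
  have v3 : 0 ≤ C * ux L 1 := by positivity
  have w1 : ux L 1 ≤ c := by
    have : 1 / c * ux L 1 ≤ 1 := by linarith
    rwa [one_div, inv_mul_le_iff₀ hc, mul_one] at this
  have w2 : 6 * ux L 1 ≤ 1 := by linarith
  have w3 : 2 * Ct * ux L 1 ≤ εB := by
    have : 2 * Ct / εB * ux L 1 ≤ 1 := by linarith
    rwa [div_mul_eq_mul_div, div_le_one hεB] at this
  have w4 : C * ux L 1 ≤ 1 := by linarith
  obtain ⟨p1, p2, p3, -, p5⟩ := hP
  have d0 : (0 : ℝ) ≤ d := Nat.cast_nonneg d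
  have k0 : (0 : ℝ) ≤ KN := Nat.cast_nonneg KN
  have dd : (0 : ℝ) ≤ (d : ℝ) ^ 2 := sq_nonneg _
  have hms := hS.lev.ms
  have h := hms.cv
  have r1 := hS.beg.r_le
  have r2 := hS.beg.r_ge
  have r0 : 0 < r := v0.trans_le r2
  have rR : r ≤ R := by
    have q1 := hS.r_add
    have q2 : 0 ≤ r * (1 / K) := by positivity
    linarith [ux_pos L 2]
  have ϱd : ux L (d * 2) ≤ ϱ ^ d := by
    rw [← ux_pow]
    exact pow_le_pow_left₀ (ux_pos _ _).le hϱ d
  have b1 : 6 * ux L b ≤ r := by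
    have q1 : ux L b ≤ ux L 1 * ux L 1 := by
      rw [← ux_add]
      exact ux_anti L0 (by linarith)
    nlinarith
  have b0 := ux_pos L b
  have en0 : ∀ᵐ a ∂D.m, 0 ≤ D.en a := h.pw_av.mono fun a ha => (PW.facts_av ha).1
  have hav := (Hat D R δ _ (ux L b) _ (r / 2) (ux L (A / 2 + g)) h hδ2 hms.ht hms.lam_pos
    hms.lam_le (ux_anti L0 (by linarith)) (by positivity) (by linarith) (ux_pos _ _).le
    fun v hv => hS.beg.avg v (by linarith)).2
  have hrd : (r / 2) ^ d ≤ 1 := pow_le_one₀ (by positivity) (by linarith)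
  have hE : D.En 0 (r / 2 + 2 * ux L b) ≤ ux L (A - 2) :=
    (setIntegral_le_integral h.integrable_t.2.2.2.1 en0).trans hS.lev.en_le
  have hs : √((r / 2) ^ d * D.En 0 (r / 2 + 2 * ux L b)) ≤ ux L ((A - 2) / 2) := by
    rw [← ux_sqrt]
    exact Real.sqrt_le_sqrt ((mul_le_mul hrd hE (h.nonneg _ _).2.2.2.1 zero_le_one).trans_eq
      (one_mul _))
  have e1 : ux L (A / 2 + g) * (r / 2) ^ d ≤ ux L (1 + (A / 2 + 3) + d * 2) :=
    (mul_le_of_le_one_right (ux_pos _ _).le hrd).trans (ux_anti L0 (by linarith))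
  have e2 : ux L b * √((r / 2) ^ d * D.En 0 (r / 2 + 2 * ux L b)) ≤
      ux L (1 + (A / 2 + 3) + d * 2) := by
    refine (mul_le_mul_of_nonneg_left hs b0.le).trans ?_
    rw [← ux_add]
    exact ux_anti L0 (by linarith)
  have η0 := ux_pos L (A / 2 + 3)
  have hd := Hd D R δ _ _ (ux L (A / 2 + 3)) ϱ r _ N hms hδ1 η0 (ux_anti L0 (by linarith))
    (by
      rw [ux_pow, ux_pow, ← ux_add]
      exact ux_anti L0 (by push_cast; linarith))
    (by
      refine (ux_anti L0 (show 1 + 2 ≤ A / 2 - 2 * d - 5 by linarith)).trans ?_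
      rw [ux_add]
      exact mul_le_mul w1 hϱ (ux_pos _ _).le hc.le)
    hϱr rR hS.lev.en_le
    (by
      rw [ux_pow, ux_pow, ← ux_add]
      refine (ux_anti L0 (show 1 + ((d + 2 : ℕ) : ℝ) * (A / 2 + 3) + d * 2 ≤ _ by
        push_cast; nlinarith)).trans ?_
      rw [ux_add, ux_add]
      have := ux_pos L (((d + 2 : ℕ) : ℝ) * (A / 2 + 3))
      exact mul_le_mul (mul_le_mul_of_nonneg_right w1 this.le) ϱd (ux_pos _ _).le (by positivity))
    (fun σ s1 s2 => hbad σ (hϱ.trans s1) s2)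
    (by
      refine (hav.trans (mul_le_mul_of_nonneg_left (add_le_add e1 e2) hCt.le)).trans ?_
      rw [ux_add, ux_add]
      have q := mul_le_mul (mul_le_mul_of_nonneg_right w3 η0.le) ϱd (ux_pos _ _).le (by positivity)
      linarith)
  refine hd.trans (add_le_add (mul_le_mul_of_nonneg_left hS.beg.h_le (by positivity)) ?_)
  rw [ux_pow, show ((2 : ℕ) : ℝ) * (A / 2 + 3) = 1 + (A + 5) by push_cast; ring, ux_add,
    ← mul_assoc]
  exact mul_le_of_le_one_left (ux_pos _ _).le w4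

end Pool.Agent.Lib.MP_8daebb_an.GM
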