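import Pool.Agent.Lib.MP_8daebb_an.GM.CV
import Pool.Agent.Lib.MP_8daebb_an.SV.Df2
import Pool.Agent.Lib.MP_8daebb_an.LG.Cut
import Pool.Agent.Lib.MP_8daebb_an.LG.Vit

/-! Further definitions used inside the proof in dimension `d`. -/

open MeasureTheory Metric Filter Topology Set
open scoped RealInnerProductSpace ENNReal ContDiff

namespace Pool.Agent.Lib.MP_8daebb_an.GM

open LG (vb chi om trS)

variable {d : ℕ} {α : Type*} [MeasurableSpace α] {H : Type*} [NormedAddCommGroup H]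
  [InnerProductSpace ℝ H] [FiniteDimensional ℝ H] [MeasurableSpace H] [BorelSpace H]

/-- The Hessian, as an endomorphism. -/
noncomputable def hess (v : E d → ℝ) (u : E d) : E d →L[ℝ] E d := fderiv ℝ (gradient v) u

/-- Symmetric and positive semidefinite. -/
def Psd (B : E d →L[ℝ] E d) : Prop := (∀ v z, ⟪B v, z⟫ = ⟪v, B z⟫) ∧ ∀ v, 0 ≤ ⟪B v, v⟫

namespace CD

/-- The height in direction `e`. -/
noncomputable def z (D : CD d α H) (e : H) (a : α) : ℝ := ⟪D.y a, e⟫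

/-- The defect in direction `e`. -/
noncomputable def dd (D : CD d α H) (e : H) (a : α) : ℝ :=
  (1 + ‖D.y a‖) * ⟪D.g a e, e⟫ - ⟪D.am (D.x a) (D.p e a), D.p e a⟫

/-- The two-point functional. -/
noncomputable def two (D : CD d α H) (e : H) (ρ Δ : ℝ) (u : E d) : ℝ :=
  ∫ a, ∫ a', kr ρ (u - D.x a) * kr ρ (u - D.x a') * (1 + ((D.z e a - D.z e a') / Δ) ^ 2)⁻¹ *
    (‖D.p e a - D.p e a'‖ ^ 2 + D.dd e a + D.dd e a') ∂D.m ∂D.m

/-- Mass of a cylinder. -/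
noncomputable def Ms (D : CD d α H) (c : E d) (σ : ℝ) : ℝ := D.m.real (D.cyl c σ)

/-- Squared height in a cylinder. -/
noncomputable def J (D : CD d α H) (c : E d) (σ : ℝ) : ℝ := ∫ a in D.cyl c σ, ‖D.y a‖ ^ 2 ∂D.m

/-- The radial component of the coefficient matrix. -/
noncomputable def mu (D : CD d α H) (u : E d) : ℝ := 1 + ⟪D.am u u - u, u⟫ / ‖u‖ ^ 2

/-- The height function. -/
noncomputable def hh (D : CD d α H) (r : ℝ) : ℝ :=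
  (r ^ d)⁻¹ * ∫ a, om 0 r (D.x a) * D.mu (D.x a) * ‖D.y a‖ ^ 2 ∂D.m

/-- The tilt function. -/
noncomputable def dr (D : CD d α H) (r : ℝ) : ℝ :=
  r ^ 2 / r ^ d * ∫ a, chi 0 r (D.x a) * D.w (D.x a) * D.t a ∂D.m

/-- The mass excess function. -/
noncomputable def EE (D : CD d α H) (Q : ℕ) (r : ℝ) : ℝ :=
  r ^ 2 / r ^ d * ((∫ a, chi 0 r (D.x a) * D.w (D.x a) ∂D.m) - Q * ∫ u, chi 0 r u * D.w u)

/-- The boundary term of the height function. -/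
noncomputable def UU (D : CD d α H) (r : ℝ) : ℝ :=
  2 / r ^ d * ∫ a, om 0 r (D.x a) * ⟪D.y a, D.b a (D.am (D.x a) (D.x a))⟫ ∂D.m

/-- The radial part of the tilt. -/
noncomputable def RR (D : CD d α H) (r : ℝ) : ℝ :=
  2 / r ^ d * ∫ a, om 0 r (D.x a) *
    (⟪D.T0 a (D.am (D.x a) (D.x a)), D.am (D.x a) (D.x a)⟫ / D.mu (D.x a)) ∂D.m

/-- The defect measure tested with a function. -/
noncomputable def Sd (D : CD d α H) (Q : ℕ) (ζ : E d → ℝ) : ℝ :=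
  (∫ a, ζ (D.x a) * (2 - D.t a) ∂D.m) - 2 * Q * ∫ u, ζ u

/-- Mass over `ball 0 σ` of the points of density below `Q - 1/3`. -/
noncomputable def bad (D : CD d α H) (Q : ℕ) (σ : ℝ) : ℝ :=
  D.m.real {a | a ∈ D.cyl 0 σ ∧ ¬D.Den ((Q - 1 / 3) * omega d) a}

/-- The averaged positive part of the height above the level `w.2`. -/
noncomputable def Phi (D : CD d α H) (e : H) (ρ : ℝ) (Ψ : ℝ → ℝ) (w : E d × ℝ) : ℝ :=
  ∫ a, kr ρ (w.1 - D.x a) * Ψ (D.z e a - w.2) ∂D.m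

end CD

/-- All heights are at most `lam`. -/
def Ht (D : CD d α H) (lam : ℝ) : Prop := ∀ᵐ a ∂D.m, ‖D.y a‖ ≤ lam

/-- The multiplicity is `Q` up to the fourth power of the tilt angle, at all scales above `ρ`. -/
structure MQ (D : CD d α H) (c : E d) (R ρ CI : ℝ) (Q : ℕ) (N : E d → ℕ) : Prop where
  mult : IsMult D.m D.x D.j N
  near : ∀ (u : E d) (σ : ℝ), ρ ≤ σ → ‖u - c‖ + 16 * σ ≤ R →
    ∫ v in ball u σ, |(N v : ℝ) - Q| ≤ CI * ∫ a in D.cyl u (8 * σ), D.t a ^ 2 ∂D.m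

/-- All the standing assumptions of the coarse-grained analysis over `ball 0 R`. -/
structure MS (D : CD d α H) (R δ M lam ρ CI : ℝ) (Q : ℕ) (N : E d → ℕ) : Prop where
  cv : CV D 0 R δ M
  ht : Ht D lam
  lam_pos : 0 < lam
  lam_le : 2 * lam ≤ ρ
  mq : MQ D 0 R ρ CI Q N
  Q_pos : 1 ≤ Q

/-- The conclusion of the global multiplicity theorem. -/
def GlobOK (d : ℕ) (α : Type*) [MeasurableSpace α] (H : Type*) [NormedAddCommGroup H]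
    [InnerProductSpace ℝ H] [FiniteDimensional ℝ H] [MeasurableSpace H] [BorelSpace H]
    (M CI δ₀ c₀ : ℝ) : Prop :=
  ∀ (D : CD d α H) (c : E d) (R δ lam ρ : ℝ), CV D c R δ M → δ ≤ δ₀ → Ht D lam → 0 < lam →
    lam ≤ c₀ * ρ → ∃ (Q : ℕ) (N : E d → ℕ), MQ D c R ρ CI Q N

/-- Groups of heights at the point `u`. -/
structure Grp (D : CD d α H) (e : H) (ρ η : ℝ) (u : E d) (Q : ℕ) (ε : ℝ) (Cs : Finset ℝ) (wd : ℝ)
    (Qc : ℝ → ℕ) : Prop where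
  wd_pos : 0 < wd
  cover : ∀ᵐ a ∂D.m, a ∈ D.cyl u ρ → ∃ c ∈ Cs, |D.z e a - c| ≤ wd
  gap : ∀ c ∈ Cs, ∀ c' ∈ Cs, c ≠ c' → 2 * wd + 4 * η ≤ |c - c'|
  one_le : ∀ c ∈ Cs, 1 ≤ Qc c
  sum : ∑ c ∈ Cs, Qc c = Q
  mass : ∀ c ∈ Cs,
    |D.av ρ (fun a => if |D.z e a - c| ≤ wd then (1 : ℝ) else 0) u - Qc c| ≤ ε

/-- The family of coarse-grained sums of top sheets in direction `e`. -/
structure UF (D : CD d α H) (e : H) (R lam ρ η : ℝ) (Q : ℕ) (C : ℝ) (U : ℕ → E d → ℝ)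
    (f : ℝ → ℝ) (lv : ℕ → E d → ℝ) : Prop where
  zero : U 0 = 0
  smooth : ∀ j, ContDiff ℝ 2 (U j)
  f_cont : Continuous f
  f_mono : Monotone f
  f_mem : ∀ r, 0 ≤ f r ∧ f r ≤ 1
  f_zero : ∀ r, r ≤ -η → f r = 0
  f_one : ∀ r, η ≤ r → f r = 1
  anti : ∀ j u, lv (j + 1) u ≤ lv j u
  size : ∀ j ≤ Q, ∀ u : E d, ‖u‖ + 16 * ρ ≤ R → |U j u| ≤ C * lam
  sub : ∀ j ≤ Q, ∀ u : E d, ‖u‖ + 16 * ρ ≤ R → ∀ (B : E d →L[ℝ] E d) (μ₀ : ℝ), Psd B →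
    ‖B‖ ≤ 2 → 0 ≤ μ₀ → (∀ x ∈ ball u ρ, ‖B - D.am x‖ ≤ μ₀) →
    -(C * (lam / ρ ^ 2 * (D.En u ρ / ρ ^ d) + (μ₀ + ρ) * lam ^ 2 / (ρ ^ 2 * η))) ≤
      trH (B.comp (hess (U j) u))
  gr : ∀ j ≤ Q, ∀ u : E d, ‖u‖ + 16 * ρ ≤ R →
    ‖gradient (U j) u - D.av ρ (fun a => f (D.z e a - lv j u) • D.p e a) u‖ ≤
      C * (lam / ρ * (D.En u ρ / ρ ^ d))
  lev : ∀ j ≤ Q, ∀ u : E d, ‖u‖ + 16 * ρ ≤ R →
    |D.av ρ (fun a => f (D.z e a - lv j u)) u - j| ≤ C * (lam / ρ)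

theorem vb_eq (d : ℕ) : vb d = omega d := rfl

theorem trS_eq (A : E d →L[ℝ] E d) : trS A = trH A := by
  rw [trH, LinearMap.trace_eq_sum_inner _ (EuclideanSpace.basisFun (Fin d) ℝ), trS]
  refine Finset.sum_congr rfl fun b _ => ?_
  rw [real_inner_comm]
  simp [LG.eb]

theorem PW.tr_τ' {D : CD d α H} {δ : ℝ} {a : α} (h : PW D δ a) : trS (D.τ a) = D.t a := by
  rw [trS_eq, h.tr_τ]

end Pool.Agent.Lib.MP_8daebb_an.GM
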