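import Mathlib

/-! The frequency function with a one-sided defect bound: pointwise inequalities. -/

open Set

namespace Pool.Agent.Lib.MP_8daebb_an.GM

/-- The first variation identities at the radius `r`, with absolute error `e`. -/
def IdAt (h E d : ℝ → ℝ) (e C r : ℝ) : Prop :=
  0 ≤ h r ∧ 0 ≤ d r ∧ ∃ h' E' U V : ℝ, HasDerivAt h h' r ∧ HasDerivAt E E' r ∧
    |r * h' - U| ≤ e + C * r * h r ∧ |d r - U| ≤ e + C * r * h r ∧
    2 * E r - d r + V - C * r * (d r + h r) - e ≤ r * E' ∧ 0 ≤ V + e ∧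
    U ^ 2 ≤ 2 * h r * (V + e) ∧ -E r ≤ C * (d r + h r) + e

theorem amgm_odea {U h W μ : ℝ} (hh : 0 ≤ h) (hW : 0 ≤ W) (H : U ^ 2 ≤ 2 * h * W) :
    2 * μ * U ≤ μ ^ 2 * h + 2 * W := by
  have h1 : (2 * μ * U) ^ 2 ≤ (μ ^ 2 * h + 2 * W) ^ 2 := by
    nlinarith [sq_nonneg (μ ^ 2 * h - 2 * W), mul_le_mul_of_nonneg_left H (sq_nonneg μ)]
  exact (le_abs_self _).trans (abs_le_of_sq_le_sq' h1 (by positivity) |> abs_le.2)

/-- A differential inequality in the logarithm of the radius. -/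
theorem grow_odea {f : ℝ → ℝ} {c x y : ℝ} (hx : 0 < x) (hxy : x ≤ y)
    (H : ∀ s, x ≤ s → s ≤ y → ∃ f', HasDerivAt f f' s ∧ s * f' ≤ c * f s) :
    f y ≤ Real.exp (c * Real.log (y / x)) * f x := by
  choose! f' g1 g2 using fun (s : ℝ) (hs : s ∈ Icc x y) => H s hs.1 hs.2
  have g3 : ∀ s ∈ Icc x y, HasDerivAt (fun s => f s * Real.exp (-(c * Real.log s)))
      (f' s * Real.exp (-(c * Real.log s)) + f s * (Real.exp (-(c * Real.log s)) * -(c * s⁻¹))) s :=
    fun s hs => (g1 s hs).mul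
      (((Real.hasDerivAt_log (hx.trans_le hs.1).ne').const_mul c).neg.exp)
  have hm := antitoneOn_of_deriv_nonpos (convex_Icc x y)
    (fun s hs => (g3 s hs).continuousAt.continuousWithinAt)
    (fun s hs => (g3 s (interior_subset hs)).differentiableAt.differentiableWithinAt)
    (fun s hs => by
      have hs' := interior_subset hs
      have s0 : 0 < s := hx.trans_le hs'.1
      rw [(g3 s hs').deriv]
      have e1 : f' s * Real.exp (-(c * Real.log s)) +
          f s * (Real.exp (-(c * Real.log s)) * -(c * s⁻¹)) =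
          (s * f' s - c * f s) * (s⁻¹ * Real.exp (-(c * Real.log s))) := by
        field_simp
        ring
      rw [e1]
      exact mul_nonpos_of_nonpos_of_nonneg (sub_nonpos.2 (g2 s hs')) (by positivity))
    ⟨le_rfl, hxy⟩ ⟨hxy, le_rfl⟩ hxy
  simp only at hm
  have e2 := mul_le_mul_of_nonneg_right hm (Real.exp_pos (c * Real.log y)).le
  rw [mul_assoc, mul_assoc, ← Real.exp_add, ← Real.exp_add, neg_add_cancel, Real.exp_zero,
    mul_one] at e2
  rw [Real.log_div (hx.trans_le hxy).ne' hx.ne', mul_comm (Real.exp _)]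
  refine e2.trans_eq ?_
  congr 2
  ring

/-- The last radius at which a continuous function is below a level. -/
theorem last_odea {f : ℝ → ℝ} {a b v : ℝ} (hab : a ≤ b) (hf : ContinuousOn f (Icc a b))
    (ha : f a ≤ v) (hb : v ≤ f b) :
    ∃ c, a ≤ c ∧ c ≤ b ∧ f c = v ∧ ∀ x, c ≤ x → x ≤ b → v ≤ f x := by
  obtain ⟨c, ⟨c1, c2⟩, c3⟩ := (isCompact_Icc.of_isClosed_subset
    (hf.preimage_isClosed_of_isClosed isClosed_Icc (isClosed_Iic (a := v)))
    inter_subset_left).exists_isGreatest ⟨a, ⟨le_rfl, hab⟩, ha⟩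
  obtain ⟨x, x1, x2⟩ := intermediate_value_Icc c1.2 (hf.mono (Icc_subset_Icc_left c1.1)) ⟨c2, hb⟩
  have e : x = c := le_antisymm (c3 ⟨⟨c1.1.trans x1.1, x1.2⟩, x2.le⟩) x1.1
  rw [e] at x2
  refine ⟨c, c1.1, c1.2, x2, fun y y1 y2 => ?_⟩
  by_contra hy
  have : y = c := le_antisymm (c3 ⟨⟨c1.1.trans y1, y2⟩, (not_le.1 hy).le⟩) y1
  exact hy (by rw [this, x2])

/-- The first radius at which a continuous function is above a level. -/
theorem first_odea {f : ℝ → ℝ} {a b v : ℝ} (hab : a ≤ b) (hf : ContinuousOn f (Icc a b))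
    (ha : f a ≤ v) (hb : v ≤ f b) :
    ∃ c, a ≤ c ∧ c ≤ b ∧ f c = v ∧ ∀ x, a ≤ x → x ≤ c → f x ≤ v := by
  obtain ⟨c, ⟨c1, c2⟩, c3⟩ := (isCompact_Icc.of_isClosed_subset
    (hf.preimage_isClosed_of_isClosed isClosed_Icc (isClosed_Ici (a := v)))
    inter_subset_left).exists_isLeast ⟨b, ⟨hab, le_rfl⟩, hb⟩
  obtain ⟨x, x1, x2⟩ := intermediate_value_Icc c1.1 (hf.mono (Icc_subset_Icc_right c1.2)) ⟨ha, c2⟩
  have e : x = c := le_antisymm x1.2 (c3 ⟨⟨x1.1, x1.2.trans c1.2⟩, x2.ge⟩)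
  rw [e] at x2
  refine ⟨c, c1.1, c1.2, x2, fun y y1 y2 => ?_⟩
  by_contra hy
  have : y = c := le_antisymm y2 (c3 ⟨⟨y1, y2.trans c1.2⟩, (not_le.1 hy).le⟩)
  exact hy (by rw [this, x2])

variable {h E d : ℝ → ℝ} {e C r : ℝ}

theorem IdAt.cont (H : IdAt h E d e C r) : ContinuousAt h r ∧ ContinuousAt E r := by
  obtain ⟨-, -, h', E', U, V, d1, d2, -⟩ := H
  exact ⟨d1.continuousAt, d2.continuousAt⟩

/-- Growth of `h - E / K` when the frequency is at most `K`. -/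
theorem IdAt.xgrow {K : ℝ} (H : IdAt h E d e C r) (hC : 0 ≤ C) (he : 0 ≤ e) (hr : 0 < r)
    (hr1 : r ≤ 1) (hK : 6 + 6 * C ≤ K) (hN : 2 * E r ≤ K * h r) (hX : e ≤ h r - E r / K) :
    ∃ f', HasDerivAt (fun s => h s - E s / K) f' r ∧ r * f' ≤ 3 * K * (h r - E r / K) := by
  obtain ⟨h0, d0, h', E', U, V, d1, d2, a1, a2, a3, a4, a5, -⟩ := H
  have K0 : 0 < K := by linarith
  refine ⟨_, d1.sub (d2.div_const K), ?_⟩
  obtain ⟨X, hXd⟩ : ∃ X, X = h r - E r / K := ⟨_, rfl⟩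
  rw [← hXd] at hX ⊢
  have e1 : E r = K * (h r - X) := by rw [hXd]; field_simp; ring
  have e2 : h r ≤ 2 * X := by
    rw [e1] at hN
    have : K * h r ≤ K * (2 * X) := by linarith
    exact le_of_mul_le_mul_left this K0
  obtain ⟨y, hy⟩ : ∃ y, y = C * r := ⟨_, rfl⟩
  rw [← hy] at a1 a2 a3
  have y0 : 0 ≤ y := by rw [hy]; positivity
  have y1 : y ≤ C := hy ▸ mul_le_of_le_one_right hC hr1
  have b1 := amgm_odea (μ := K + 1 + y) h0 a4 a5
  have b2 := (abs_le.1 a1).2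
  have b3 := (abs_le.1 a2).2
  have b4 : K * (r * h') ≤ K * (U + e + y * h r) := mul_le_mul_of_nonneg_left (by linarith) K0.le
  have b5 : (1 + y) * d r ≤ (1 + y) * (U + e + y * h r) :=
    mul_le_mul_of_nonneg_left (by linarith) (by linarith)
  have b6 : (K + 1 + y) ^ 2 / 2 + (K + 2 + y) * y ≤ K ^ 2 := by
    have k1 : 6 + 6 * y ≤ K := by linarith only [hK, y1]
    nlinarith only [k1, y0, mul_nonneg y0 y0, mul_le_mul_of_nonneg_right k1 y0,
      mul_le_mul_of_nonneg_right k1 K0.le]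
  have b7 := mul_le_mul_of_nonneg_right b6 h0
  have b8 : K ^ 2 * h r ≤ K ^ 2 * (2 * X) := mul_le_mul_of_nonneg_left e2 (sq_nonneg _)
  have b9 : (K + 3 + y) * e ≤ (2 * K) * X := mul_le_mul (by linarith) hX he (by linarith)
  have b10 : 0 ≤ K * h r := mul_nonneg K0.le h0
  have b11 : 4 * K * X ≤ K ^ 2 * X := mul_le_mul_of_nonneg_right
    (by nlinarith only [hK, hC, K0]) (by linarith only [hX, he])
  have : K * (r * (h' - E' / K)) ≤ K * (3 * K * X) := by
    have e3 : K * (r * (h' - E' / K)) = K * (r * h') - r * E' := by field_simp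
    rw [e3]
    rw [e1] at a3
    linarith only [a3, b1, b4, b5, b7, b8, b9, b10, b11]
  exact le_of_mul_le_mul_left this K0

/-- Growth of `κ h - 2 E` and of `h` when `d / h` is above `κ`. -/
theorem IdAt.ygrow {κ : ℝ} (H : IdAt h E d e C r) (hC : 0 ≤ C) (he : 0 ≤ e) (hr : 0 < r)
    (hr1 : r ≤ 1) (hκ : 6 + 10 * C ≤ κ) (hd : (κ + (5 * C + 1) * r) * h r ≤ d r)
    (hY : 5 * κ * e ≤ κ * h r - 2 * E r) :
    (∃ f', HasDerivAt (fun s => κ * h s - 2 * E s) f' r ∧ r * f' ≤ 3 * (κ * h r - 2 * E r)) ∧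
    ∃ f', HasDerivAt (fun s => 2 * e / κ - h s) f' r ∧ r * f' ≤ κ * (2 * e / κ - h r) := by
  obtain ⟨h0, d0, h', E', U, V, d1, d2, a1, a2, a3, a4, a5, -⟩ := H
  have κ0 : 0 < κ := by linarith
  obtain ⟨y, hy⟩ : ∃ y, y = C * r := ⟨_, rfl⟩
  have hd' : (κ + 5 * y + r) * h r ≤ d r := by rw [hy]; linarith
  rw [← hy] at a1 a2 a3
  have y0 : 0 ≤ y := by rw [hy]; positivity
  have y1 : y ≤ C := hy ▸ mul_le_of_le_one_right hC hr1
  have y2 : y ≤ C * r := hy.le
  have b2 := abs_le.1 a1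
  have b3 := (abs_le.1 a2).2
  have c1 : 0 ≤ y * h r := mul_nonneg y0 h0
  have c2 : 0 ≤ r * h r := mul_nonneg hr.le h0
  constructor
  · refine ⟨_, (d1.const_mul κ).sub (d2.const_mul 2), ?_⟩
    obtain ⟨μ, hμ⟩ : ∃ μ, μ = κ + 4 * y + r := ⟨_, rfl⟩
    have b1 := amgm_odea (μ := μ) h0 a4 a5
    have b4 : κ * (r * h') ≤ κ * (U + e + y * h r) :=
      mul_le_mul_of_nonneg_left (by linarith [b2.2]) κ0.le
    have b5 : (1 + y) * d r ≤ (1 + y) * (U + e + y * h r) :=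
      mul_le_mul_of_nonneg_left (by linarith) (by linarith)
    have b6 : μ * h r - e ≤ U := by rw [hμ]; linarith only [hd', b3]
    have b7 : (2 * μ - (κ + 2 + 2 * y)) * (μ * h r - e) ≤ (2 * μ - (κ + 2 + 2 * y)) * U :=
      mul_le_mul_of_nonneg_left b6 (by linarith)
    have b8 : μ * (κ + 2 + 2 * y - μ) - 2 * κ + (κ + 4 + 2 * y) * y ≤ 0 := by
      rw [hμ]
      nlinarith only [mul_nonneg y0 hr.le, mul_nonneg y0 y0, mul_nonneg hr.le hr.le, y0, hr, y2,
        mul_le_mul_of_nonneg_right hκ hr.le, mul_le_mul_of_nonneg_right hκ y0, mul_nonneg hC y0]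
    have b9 := mul_nonpos_of_nonpos_of_nonneg b8 h0
    have b10 : (2 * μ + 4) * e ≤ 5 * κ * e :=
      mul_le_mul_of_nonneg_right (by rw [hμ]; linarith) he
    linarith only [a3, b1, b4, b5, b7, b9, b10, hY]
  · refine ⟨_, (hasDerivAt_const r (2 * e / κ)).sub d1, ?_⟩
    have e1 : κ * (2 * e / κ - h r) = 2 * e - κ * h r := by field_simp
    rw [e1]
    linarith only [b2.1, hd', b3, c1, c2]

/-- Almost monotonicity of `h`. -/
theorem IdAt.hmono (H : IdAt h E d e C r) (hC : 0 ≤ C) (he : 0 ≤ e) (hr : 0 < r) (hr1 : r ≤ 1) :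
    ∃ f', HasDerivAt (fun s => h s * Real.exp (2 * C * s) + 2 * e * Real.exp (2 * C) * Real.log s)
      f' r ∧ 0 ≤ f' := by
  obtain ⟨h0, d0, h', E', U, V, d1, d2, a1, a2, -⟩ := H
  refine ⟨_, (d1.mul ((hasDerivAt_id r).const_mul (2 * C)).exp).add
    ((Real.hasDerivAt_log hr.ne').const_mul _), ?_⟩
  simp only [id, mul_one]
  have b1 : -(2 * e) ≤ r * h' + 2 * C * r * h r := by
    linarith [(abs_le.1 a1).1, (abs_le.1 a2).2]
  have b2 : Real.exp (2 * C * r) ≤ Real.exp (2 * C) := Real.exp_le_exp.2 (by nlinarith only [hC, hr1])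
  have b3 := mul_le_mul_of_nonneg_right b1 (Real.exp_pos (2 * C * r)).le
  have b4 := mul_le_mul_of_nonneg_left b2 (by linarith : 0 ≤ 2 * e)
  have e1 : h' * Real.exp (2 * C * r) + h r * (Real.exp (2 * C * r) * (2 * C)) +
      2 * e * Real.exp (2 * C) * r⁻¹ = r⁻¹ * ((r * h' + 2 * C * r * h r) * Real.exp (2 * C * r) +
        2 * e * Real.exp (2 * C)) := by
    field_simp
  rw [e1]
  exact mul_nonneg (inv_pos.2 hr).le (by linarith)

theorem alg_odea {w y N a n v η g dl C : ℝ} (hw : 0 ≤ w) (hw1 : w ≤ 1) (hy : 0 ≤ y) (hy1 : y ≤ C)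
    (hdl : 0 ≤ dl) (hdl1 : dl ≤ 1 / 2) (hN : 6 + 6 * C ≤ N) (h1 : η - a ≤ w + y)
    (h2 : n - a ≤ w + y) (h3 : N - n + v - y * (n + 1) - w ≤ g) (h4 : a ^ 2 ≤ 2 * (v + w))
    (h5 : N - n ≤ dl * n + (w + y)) : 0 ≤ 2 * g + N * ((dl - 1) * η + (4 * w + 6 * y)) := by
  have hC : 0 ≤ C := hy.trans hy1
  have N0 : 0 ≤ N := by linarith
  obtain ⟨z, hz⟩ : ∃ z, z = (1 - dl) * N := ⟨_, rfl⟩
  have z1 : N / 2 ≤ z := by rw [hz]; nlinarith only [hdl1, N0]
  have z2 : z ≤ N := by rw [hz]; nlinarith only [hdl, N0]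
  have k1 : N ≤ (1 + dl) * (a + (w + y)) + (w + y) := by nlinarith only [h5, h2, hdl]
  have k2 : 0 ≤ a + (w + y) := by
    by_contra k
    nlinarith only [k, k1, hdl, hN, hw1, hy1, hC]
  have k3 : z - 2 * (w + y) ≤ a := by
    have := mul_le_mul_of_nonneg_left k1 (by linarith : 0 ≤ 1 - dl)
    linarith only [this, hz, hw, hy, mul_nonneg (mul_nonneg hdl hdl) k2,
      mul_nonneg hdl (add_nonneg hw hy)]
  have k4 : z * η ≤ z * (a + (w + y)) := mul_le_mul_of_nonneg_left (by linarith) (by linarith)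
  have k5 : y * n ≤ y * (a + (w + y)) := mul_le_mul_of_nonneg_left (by linarith) hy
  have k6 : 0 ≤ (z - 2 - 2 * y) * (a - z + 2 * (w + y)) := mul_nonneg (by linarith) (by linarith)
  have k7 : z * (w + y) ≤ N * (w + y) := mul_le_mul_of_nonneg_right z2 (by linarith)
  have k8 : z * y ≤ N * y := mul_le_mul_of_nonneg_right z2 hy
  have k9 : 6 * w ≤ N * w := mul_le_mul_of_nonneg_right (by linarith) hw
  have k10 : (6 + 2 * C) * y ≤ N * y := mul_le_mul_of_nonneg_right (by linarith) hy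
  have k11 : y * (w + y) ≤ y * (1 + C) := mul_le_mul_of_nonneg_left (by linarith) hy
  have k12 : 0 ≤ y * (w + y) := mul_nonneg hy (by linarith)
  have e1 : N * ((dl - 1) * η + (4 * w + 6 * y)) = -(z * η) + N * (4 * w + 6 * y) := by
    rw [hz]; ring
  rw [e1]
  linarith [sq_nonneg (a - z)]

/-- The corrected frequency increases. -/
theorem IdAt.freq {w dl : ℝ} (H : IdAt h E d e C r) (hC : 0 ≤ C) (hr : 0 < r) (hr1 : r ≤ 1)
    (hw : 0 ≤ w) (hw1 : w ≤ 1) (hdl : 0 ≤ dl) (hdl1 : dl ≤ 1 / 2) (h0 : 0 < h r)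
    (he : e ≤ w * h r) (hN : (6 + 6 * C) * h r ≤ 2 * E r)
    (hS : 2 * E r - d r ≤ dl * d r + (w + C * r) * h r) :
    ∃ f', HasDerivAt (fun s => 2 * E s * Real.exp ((dl - 1) * Real.log (h s) +
      (4 * w * Real.log s + 6 * C * s))) f' r ∧ 0 ≤ f' := by
  obtain ⟨-, d0, h', E', U, V, d1, d2, a1, a2, a3, a4, a5, -⟩ := H
  refine ⟨_, (d2.const_mul 2).mul ((((d1.log h0.ne').const_mul (dl - 1)).add
    (((Real.hasDerivAt_log hr.ne').const_mul (4 * w)).add
      ((hasDerivAt_id r).const_mul (6 * C)))).exp), ?_⟩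
  have k := alg_odea (w := w) (y := C * r) (N := 2 * E r / h r) (a := U / h r) (n := d r / h r)
    (v := V / h r) (η := r * h' / h r) (g := r * E' / h r) (dl := dl) (C := C) hw hw1
    (by positivity) (mul_le_of_le_one_right hC hr1) hdl hdl1 ((le_div_iff₀ h0).2 hN)
    (by rw [← sub_div, div_le_iff₀ h0]; linarith [(abs_le.1 a1).2])
    (by rw [← sub_div, div_le_iff₀ h0]; linarith [(abs_le.1 a2).2])
    (by
      rw [le_div_iff₀ h0]
      have : (2 * E r / h r - d r / h r + V / h r - C * r * (d r / h r + 1) - w) * h r =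
          2 * E r - d r + V - C * r * (d r + h r) - w * h r := by field_simp
      linarith)
    (by
      rw [div_pow, div_le_iff₀ (by positivity)]
      have : 2 * (V / h r + w) * h r ^ 2 = 2 * h r * (V + w * h r) := by field_simp
      rw [this]
      exact a5.trans (mul_le_mul_of_nonneg_left (by linarith) (by positivity)))
    (by
      rw [← sub_div, div_le_iff₀ h0]
      have : (dl * (d r / h r) + (w + C * r)) * h r = dl * d r + (w + C * r) * h r := by field_simp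
      linarith)
  have k2 := mul_nonneg (mul_nonneg k (div_pos h0 hr).le)
    (Real.exp_pos ((dl - 1) * Real.log (h r) + (4 * w * Real.log r + 6 * C * r))).le
  refine k2.trans (le_of_eq ?_)
  simp only [Pi.add_apply, id]
  field_simp

end Pool.Agent.Lib.MP_8daebb_an.GM
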