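import Pool.Agent.Lib.MP_8daebb_an.GM.Df
import Pool.Agent.Lib.MP_8daebb_an.GM.OdeA

/-! Definitions for the iteration in dimension `d`. Here `u = exp (-L)` and `ux L k = u ^ k`. -/

open MeasureTheory Metric Filter Topology Set
open scoped RealInnerProductSpace ENNReal ContDiff

namespace Pool.Agent.Lib.MP_8daebb_an.GM

open SV (ux)

variable {d : ℕ} {α : Type*} [MeasurableSpace α] {H : Type*} [NormedAddCommGroup H]
  [InnerProductSpace ℝ H] [FiniteDimensional ℝ H] [MeasurableSpace H] [BorelSpace H]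

/-- The exponents: `u ^ A` is the level of the squared height, `u ^ b` the resolution of the
Newton step, `u ^ (A / 2 + g)` the size of the average height. -/
structure Par (d KN : ℕ) (A b g : ℝ) : Prop where
  g_ge : 2 * d + 2 * KN + 6 ≤ g
  b_ge : g + d + 2 * KN + 3 ≤ b
  A_b : 4 * b ≤ A
  A_K : 4 * b * KN + 2 * d + 4 ≤ A
  A_d : 2 * (d : ℝ) ^ 2 + 14 * d + 40 ≤ A

/-- Smallness in a fixed chart at the level `L`. -/
structure Lev (D : CD d α H) (R δ M CI : ℝ) (Q : ℕ) (N : E d → ℕ) (A L : ℝ) : Prop where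
  ms : MS D R δ M (ux L (A / 2 - d - 2)) (ux L (A / 2 - 2 * d - 5)) CI Q N
  en_le : ∫ a, D.en a ∂D.m ≤ ux L (A - 2)

/-- The situation at the radius `r` at the beginning of a stage. -/
structure Beg (D : CD d α H) (A b g L r K B : ℝ) : Prop where
  r_le : r ≤ 1
  r_ge : ux L 1 ≤ r
  h_ge : ux L (A + 1) ≤ D.hh r
  h_le : D.hh r ≤ ux L A
  d_le : D.dr r ≤ B * D.hh r
  dbl : D.hh (r * (1 + 1 / K)) ≤ K * D.hh r
  avg : ∀ v : E d, ‖v‖ ≤ r → ‖D.av (ux L b) D.y v‖ ≤ ux L (A / 2 + g)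

/-- The hypotheses of one stage in a fixed chart. -/
structure Stg (D : CD d α H) (R δ M CI : ℝ) (Q : ℕ) (N : E d → ℕ) (A b g L r K B : ℝ) : Prop where
  lev : Lev D R δ M CI Q N A L
  beg : Beg D A b g L r K B
  r_add : r * (1 + 1 / K) + ux L 2 ≤ R

/-- The state at the beginning of a stage. -/
structure State {C : Type*} (Adm : C → ℝ → ℝ → Prop) (ch : C → ℝ → CD d α H) (ε₁ : ℝ)
    (A b g L r K B : ℝ) (c : C) (R : ℝ) : Prop where
  adm : Adm c (3 * ε₁ - ux L 1) R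
  R_le : R ≤ 2
  R_ge : r * (1 + 5 / (4 * K)) ≤ R
  en_le : ∫ a, (ch c R).en a ∂(ch c R).m ≤ ux L (A - 2)
  beg : Beg (ch c R) A b g L r K B

/-- What one stage in a fixed chart produces. -/
structure Out (D : CD d α H) (A L r K B' r' : ℝ) : Prop where
  lo : r * ux L (1 / A) ≤ r'
  hi : r' * Real.exp (L / (12 * K)) ≤ r
  hi' : r' * (1 + 2 / K) ≤ r
  h_le : D.hh r' ≤ ux L (A + 3 / 2)
  h_ge : ∀ ϱ, r' ≤ ϱ → ϱ ≤ r → ux L (A + 2 + 1 / (2 * A)) ≤ D.hh ϱ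
  d_le : D.dr r' ≤ B' * D.hh r'
  dbl : 4 * D.hh (r' * (1 + 1 / K)) ≤ K * D.hh r'
  en_le : D.En 0 (r' * (1 + 3 / (2 * K))) ≤ ux L A

theorem ux_pos (L k : ℝ) : 0 < ux L k := Real.exp_pos _

theorem ux_add (L a b : ℝ) : ux L (a + b) = ux L a * ux L b := by
  rw [ux, ux, ux, ← Real.exp_add]
  congr 1
  ring

theorem ux_anti {L a b : ℝ} (hL : 0 ≤ L) (h : a ≤ b) : ux L b ≤ ux L a :=
  Real.exp_le_exp.2 (neg_le_neg (mul_le_mul_of_nonneg_right h hL))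

theorem ux_pow (L a : ℝ) (n : ℕ) : ux L a ^ n = ux L (n * a) := by
  rw [ux, ux, ← Real.exp_nat_mul]
  congr 1
  ring

theorem ux_zero (L : ℝ) : ux L 0 = 1 := by simp [ux]

theorem ux_inv (L a : ℝ) : (ux L a)⁻¹ = ux L (-a) := by
  rw [ux, ux, ← Real.exp_neg]
  congr 1
  ring

theorem ux_sqrt (L a : ℝ) : √(ux L a) = ux L (a / 2) := by
  rw [show ux L a = ux L (a / 2) ^ 2 by rw [ux_pow]; congr 1; push_cast; ring,
    Real.sqrt_sq (ux_pos _ _).le]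

theorem ux_mul (L t a : ℝ) : ux (L * t) a = ux L (a * t) := by
  rw [ux, ux]
  congr 1
  ring

theorem ux_le_one {L a : ℝ} (hL : 0 ≤ L) (ha : 0 ≤ a) : ux L a ≤ 1 :=
  (ux_anti hL ha).trans_eq (ux_zero L)

/-- Constants and powers of `L` are beaten by any positive power of `u`. -/
theorem ux_small (C : ℝ) (n : ℕ) {κ : ℝ} (hκ : 0 < κ) :
    ∃ L₀ : ℝ, 1 ≤ L₀ ∧ ∀ L, L₀ ≤ L → C * L ^ n * ux L κ ≤ 1 := by
  have h1 := (tendsto_rpow_mul_exp_neg_mul_atTop_nhds_zero n κ hκ).const_mul C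
  rw [mul_zero] at h1
  obtain ⟨L₁, h2⟩ := eventually_atTop.1 (h1.eventually (eventually_le_nhds zero_lt_one))
  refine ⟨max 1 L₁, le_max_left _ _, fun L hL => ?_⟩
  have h3 := h2 L ((le_max_right _ _).trans hL)
  rw [Real.rpow_natCast] at h3
  rw [mul_assoc, ux, ← neg_mul]
  exact h3

end Pool.Agent.Lib.MP_8daebb_an.GM
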