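import Pool.Agent.Lib.MP_8daebb_an.SV.EV

/-! The package of facts (`EV`) that a blow-up of a stationary integral `m`-varifold at a flat
point satisfies. -/

open MeasureTheory Metric Filter Topology Set
open scoped RealInnerProductSpace ENNReal ContDiff

namespace Pool.Agent.Lib.MP_8daebb_an.GM

/-- Euclidean space `ℝ^m`. -/
abbrev E (m : ℕ) : Type := EuclideanSpace ℝ (Fin m)

variable {H : Type*} [NormedAddCommGroup H] [InnerProductSpace ℝ H] [FiniteDimensional ℝ H]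
  [MeasurableSpace H] [BorelSpace H] {m : ℕ}

/-- The Jacobian of `A : H → ℝ^m` restricted to the plane with orthogonal projection `P`. -/
noncomputable def jac (A : H →L[ℝ] E m) (P : H →L[ℝ] H) : ℝ :=
  Real.sqrt (LinearMap.det
    ((A : H →ₗ[ℝ] E m) ∘ₗ (P : H →ₗ[ℝ] H) ∘ₗ LinearMap.adjoint (A : H →ₗ[ℝ] E m)))

/-- The facts about a blown-up varifold in the ball of radius `4`. -/
structure EV (V : Measure (H × (H →L[ℝ] H))) (ι : E m →ₗᵢ[ℝ] H) (M θ ε : ℝ) : Prop where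
  fin : IsFiniteMeasure V
  car : ∀ᵐ z ∂V, ‖z.1‖ < 4 ∧ IsPlane m z.2
  stat : ∀ X : H → H, ContDiff ℝ 1 X → HasCompactSupport X → tsupport X ⊆ ball 0 4 →
    ∫ z, tanDiv X z ∂V = 0
  area : ∀ O : Set H, IsOpen O → ∀ Φ : H → E m, ContDiffOn ℝ 1 Φ O →
    ∀ Z : Set (H × (H →L[ℝ] H)), MeasurableSet Z → Z ⊆ Prod.fst ⁻¹' O →
    ∃ N : E m → ℝ≥0∞, Measurable N ∧ (∀ y, N y = ⊤ ∨ ∃ k : ℕ, N y = k) ∧
      ∀ f : E m → ℝ≥0∞, Measurable f →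
        ∫⁻ z in Z, f (Φ z.1) * ENNReal.ofReal (jac (fderiv ℝ Φ z.1) z.2) ∂V = ∫⁻ y, f y * N y
  ld : ∀ᵐ z ∂V, ∃ᶠ σ in 𝓝[>] (0 : ℝ), 99 / 100 * omega m * σ ^ m ≤ V.fst.real (ball z.1 σ)
  ub : ∀ (p : H) (σ : ℝ), 0 < σ → V.fst.real (ball p σ) ≤ M * σ ^ m
  flat : ∀ᵐ z ∂V, ∃ v : E m, ‖z.1 - ι v‖ ≤ ε
  mass : ∀ σ : ℝ, 0 < σ → σ ≤ 3 →
    |V.fst.real (ball 0 σ) - θ * omega m * σ ^ m| ≤ ε * σ ^ m
  bad : ∀ σ : ℝ, 0 < σ → σ ≤ 3 → V.real {z | ‖z.1‖ < σ ∧ ¬∃ᶠ r in 𝓝[>] (0 : ℝ),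
    (θ - 1 / 100) * omega m * r ^ m ≤ V.fst.real (ball z.1 r)} ≤ ε * σ ^ m
  bad0 : ∀ η > 0, ∃ σ₀ > 0, ∀ σ : ℝ, 0 < σ → σ ≤ σ₀ → V.real {z | ‖z.1‖ < σ ∧
    ¬∃ᶠ r in 𝓝[>] (0 : ℝ), (θ - 1 / 100) * omega m * r ^ m ≤ V.fst.real (ball z.1 r)} ≤ η * σ ^ m
  θ_ge : 1 ≤ θ

/-- The conclusion for the blown-up varifold. -/
def GraphAt0 (S : Set H) (ι : E m →ₗᵢ[ℝ] H) : Prop :=
  ∃ r > 0, ∃ f : E m → H, ContDiff ℝ ∞ f ∧ (∀ p q, ⟪f p, ι q⟫ = 0) ∧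
    S ∩ ball 0 r = (range fun p => ι p + f p) ∩ ball 0 r

end Pool.Agent.Lib.MP_8daebb_an.GM
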