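import Pool.Agent.Lib.MP_8daebb_an.GM.ChNewt
import Pool.Agent.Lib.MP_8daebb_an.GM.ChSysB

/-! A blown-up varifold that is close to a plane is a smooth graph near the origin, given the
vanishing of the energy in a system of charts. -/

open MeasureTheory Metric Filter Topology Set
open scoped RealInnerProductSpace ENNReal ContDiff

namespace Pool.Agent.Lib.MP_8daebb_an.GM

variable {d : ℕ} {H : Type*} [NormedAddCommGroup H] [InnerProductSpace ℝ H]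
  [FiniteDimensional ℝ H] [MeasurableSpace H] [BorelSpace H]

theorem ev_regular_of (hd : 1 ≤ d)
    (hZ : ∀ M θ : ℝ, ∃ (Q : ℕ) (δ : ℝ), 0 < δ ∧ (1 ≤ θ → 1 ≤ Q) ∧
      ∀ (CN cN ε₁ : ℝ) (KN : ℕ), 0 < cN → 0 < ε₁ → ∃ εB δ₂ : ℝ, 0 < εB ∧ 0 < δ₂ ∧
      ∀ (Adm : Ch.Cen d (Module.finrank ℝ H - d) → ℝ → ℝ → Prop)
        (ch : Ch.Cen d (Module.finrank ℝ H - d) → ℝ → CD d (H × (H →L[ℝ] H)) H),
        Sys Adm ch M θ δ ε₁ εB δ₂ Q CN cN KN →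
        ∀ η > 0, ∃ c R, 1 / 2 ≤ R ∧ R ≤ 2 ∧ Adm c (2 * ε₁) R ∧ (ch c R).En 0 (1 / 2) ≤ η)
    (M θ : ℝ) : ∃ ε > 0, ∀ (W : Measure (H × (H →L[ℝ] H))) (ι : E d →ₗᵢ[ℝ] H),
    EV W ι M θ ε → GraphAt0 W.fst.support ι := by
  by_cases hθ : 1 ≤ θ
  swap
  · exact ⟨1, one_pos, fun W ι hW => absurd hW.θ_ge hθ⟩
  obtain ⟨M₁, hA⟩ := Ch.sysA (d := d) (n := Module.finrank ℝ H - d) (H := H) hd M θ
  obtain ⟨e, he, hB⟩ := Ch.sysB (d := d) (n := Module.finrank ℝ H - d) (H := H)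
  obtain ⟨Q, δ, hδ, hQ, hZ⟩ := hZ M₁ θ
  obtain ⟨CN, cN, KN, hcN, hA⟩ := hA Q (hQ hθ)
  obtain ⟨e₀, he₀, hA⟩ := hA δ hδ
  have he₁ : 0 < min e₀ e := lt_min he₀ he
  obtain ⟨εB, δ₂, hεB, hδ₂, hZ⟩ := hZ CN cN _ KN hcN he₁
  obtain ⟨η₀, hη₀, hA⟩ := hA _ he₁ (min_le_left _ _) εB hεB δ₂ hδ₂
  refine ⟨min η₀ e, lt_min hη₀ he, fun W ι hW => ?_⟩
  obtain ⟨κ, hκ⟩ := Ch.exists_spl ι
  exact hB W ι κ M θ _ _ hκ hW (min_le_right _ _) (min_le_right _ _)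
    (hZ _ _ (hA _ (min_le_left _ _) W ι κ hκ hW))

end Pool.Agent.Lib.MP_8daebb_an.GM
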