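import Pool.Agent.Lib.MP_8daebb_an.GM.GLX
import Pool.Agent.Lib.MP_8daebb_an.GM.Base

/-! Bounded measurable functions on a chart varifold. -/

set_option linter.unusedSectionVars false

open MeasureTheory Metric Filter Topology Set
open scoped RealInnerProductSpace ENNReal ContDiff

namespace Pool.Agent.Lib.MP_8daebb_an.GM

open LG (vb chi om trS)

variable {d : ℕ} {α : Type*} [MeasurableSpace α] {H : Type*} [NormedAddCommGroup H]
  [InnerProductSpace ℝ H] [FiniteDimensional ℝ H] [MeasurableSpace H] [BorelSpace H]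

/-- Bounded and measurable. -/
def BMk {X : Type*} [NormedAddCommGroup X] (μ : Measure α) (f : α → X) : Prop :=
  AEStronglyMeasurable f μ ∧ ∃ B, ∀ᵐ a ∂μ, ‖f a‖ ≤ B

theorem BMk.prod {X Y : Type*} [NormedAddCommGroup X] [NormedAddCommGroup Y] {μ : Measure α}
    {f : α → X} {g : α → Y} (hf : BMk μ f) (hg : BMk μ g) : BMk μ fun a => (f a, g a) := by
  obtain ⟨h1, B, h2⟩ := hf
  obtain ⟨h3, B', h4⟩ := hg
  refine ⟨h1.prodMk h3, max B B', ?_⟩
  filter_upwards [h2, h4] with a p q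
  rw [Prod.norm_def]
  exact max_le_max p q

theorem BMk.cont {X Y : Type*} [NormedAddCommGroup X] [NormedAddCommGroup Y] [ProperSpace X]
    {μ : Measure α} {f : α → X} (hf : BMk μ f) (F : X → Y) (hF : Continuous F) :
    BMk μ fun a => F (f a) := by
  obtain ⟨h1, B, h2⟩ := hf
  obtain ⟨C, hC⟩ := (isCompact_closedBall (0 : X) B).exists_bound_of_continuousOn hF.continuousOn
  exact ⟨hF.comp_aestronglyMeasurable h1, C, h2.mono fun a ha => hC _ (mem_closedBall_zero_iff.2 ha)⟩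

theorem BMk.int {X Y : Type*} [NormedAddCommGroup X] [NormedAddCommGroup Y] [ProperSpace X]
    {μ : Measure α} [IsFiniteMeasure μ] {f : α → X} (hf : BMk μ f) (F : X → Y)
    (hF : Continuous F) : Integrable (fun a => F (f a)) μ := by
  obtain ⟨h1, B, h2⟩ := hf.cont F hF
  exact Integrable.of_bound h1 B h2

theorem cont_trS_key : Continuous (trS : (E d →L[ℝ] E d) → ℝ) := by
  unfold trS
  fun_prop

omit [MeasurableSpace H] [BorelSpace H] in
theorem cont_trH_key : Continuous (trH : (H →L[ℝ] H) → ℝ) :=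
  ((LinearMap.trace ℝ H).comp (ContinuousLinearMap.coeLM ℝ)).continuous_of_finiteDimensional

omit [MeasurableSpace H] [BorelSpace H] in
theorem PW.q_le_key {D : CD d α H} {δ : ℝ} {a : α} (h : PW D δ a) (h0 : 0 ≤ δ) (hδ : δ ≤ 1 / 2)
    (ha : ‖D.am (D.x a) - 1‖ ≤ δ) (e : H) :
    ‖D.q a e‖ ≤ (4 * √(D.t a) + 2 * ‖D.y a‖) * ‖e‖ := by
  have hY0 := norm_nonneg (D.y a)
  have hs0 := Real.sqrt_nonneg (D.t a)
  have he := norm_nonneg e
  have h1 : ‖D.p e a‖ ≤ (2 * √(D.t a) + δ * ‖D.y a‖) * ‖e‖ := by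
    refine (ContinuousLinearMap.le_opNorm _ _).trans (mul_le_mul_of_nonneg_right ?_ he)
    rw [LinearIsometryEquiv.norm_map]
    exact h.b_le
  have h2 : ‖D.am (D.x a) (D.p e a) - D.p e a‖ ≤ δ * ‖D.p e a‖ :=
    ((D.am (D.x a) - 1).le_opNorm _).trans (mul_le_mul_of_nonneg_right ha (norm_nonneg _))
  have h3 := norm_sub_norm_le (D.am (D.x a) (D.p e a)) (D.p e a)
  have h4 := norm_sub_norm_le (D.q a e) (D.am (D.x a) (D.p e a))
  have h5 := h.qb e
  have h6 : δ * ‖D.y a‖ ≤ 1 := by nlinarith [h.y_two]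
  have h7 : δ * ‖D.y a‖ * (√(D.t a) + ‖D.y a‖) * ‖e‖ ≤ 1 * (√(D.t a) + ‖D.y a‖) * ‖e‖ := by
    gcongr
  have h8 : δ * ‖D.p e a‖ ≤ 1 / 2 * ‖D.p e a‖ := mul_le_mul_of_nonneg_right hδ (norm_nonneg _)
  have h9 : δ * ‖D.y a‖ * ‖e‖ ≤ 1 / 2 * ‖D.y a‖ * ‖e‖ := by gcongr
  nlinarith [mul_nonneg hY0 he]

theorem CV.bm_key {D : CD d α H} {c : E d} {R δ M : ℝ} (h : CV D c R δ M) (hδ : δ ≤ 1 / 2) :
    BMk D.m D.x ∧ BMk D.m D.y ∧ BMk D.m D.t ∧ BMk D.m D.j ∧ BMk D.m D.τ ∧ BMk D.m D.T0 ∧ BMk D.m D.b ∧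
      BMk D.m D.q ∧ BMk D.m D.g ∧ BMk D.m D.L ∧ BMk D.m D.eh := by
  have h0 := h.δ_nonneg
  have p := h.ae_pw
  have sq : ∀ a, PW D δ a → √(D.t a) ≤ √d := fun a ha => Real.sqrt_le_sqrt ha.t_le
  refine ⟨⟨h.m_x.aestronglyMeasurable, 2, p.mono fun a ha => ha.x_le⟩,
    ⟨h.m_y.aestronglyMeasurable, 2, p.mono fun a ha => ha.y_two⟩,
    ⟨h.m_t.aestronglyMeasurable, d, p.mono fun a ha => ?_⟩,
    ⟨h.m_j.aestronglyMeasurable, 2, p.mono fun a ha => ?_⟩,
    ⟨h.m_τ.aestronglyMeasurable, 2 * d, p.mono fun a ha => by linarith [ha.τ_le, ha.t_le]⟩,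
    ⟨h.m_T0.aestronglyMeasurable, 2 * d, p.mono fun a ha => by linarith [ha.T0_le, ha.t_le]⟩,
    ⟨h.m_b.aestronglyMeasurable, 2 * √d + δ * 2, p.mono fun a ha => ?_⟩,
    ⟨h.m_q.aestronglyMeasurable, 4 * √d + 2 * 2, ?_⟩,
    ⟨h.m_g.aestronglyMeasurable, 4, p.mono fun a ha => ha.g_norm⟩,
    ⟨h.m_L.aestronglyMeasurable, δ * (√d + 2), p.mono fun a ha => ?_⟩,
    ⟨h.m_eh.aestronglyMeasurable, δ * (d + 2 ^ 2), p.mono fun a ha => ?_⟩⟩
  · rw [Real.norm_of_nonneg ha.t_nonneg]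
    exact ha.t_le
  · rw [Real.norm_of_nonneg ha.j_nonneg]
    exact ha.j_le
  · refine ha.b_le.trans ?_
    gcongr
    exacts [ha.t_le, ha.y_two]
  · filter_upwards [p, h.car] with a ha hx
    refine ContinuousLinearMap.opNorm_le_bound _ (by positivity) fun e => ?_
    refine (ha.q_le_key h0 hδ (h.met.one _ hx).2.2 e).trans ?_
    gcongr
    exacts [ha.t_le, ha.y_two]
  · refine ha.L_le.trans ?_
    gcongr
    exacts [ha.t_le, ha.y_two]
  · refine ha.eh_le.trans ?_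
    gcongr
    exacts [ha.t_le, ha.y_two]

theorem near_one_key {X : Type*} [NormedAddCommGroup X] {A e : X} {k : ℝ} (h : ‖A - e‖ ≤ k) :
    ‖A‖ ≤ k + ‖e‖ := by
  linarith [norm_sub_norm_le A e]

theorem CV.bm_met_key {D : CD d α H} {c : E d} {R δ M : ℝ} (h : CV D c R δ M) (hδ : δ ≤ 1 / 2) :
    BMk D.m (fun a => D.w (D.x a)) ∧ BMk D.m (fun a => D.mu (D.x a)) ∧
      BMk D.m (fun a => (D.mu (D.x a))⁻¹) ∧ BMk D.m (fun a => D.am (D.x a)) ∧
      BMk D.m (fun a => fderiv ℝ D.w (D.x a)) ∧ BMk D.m (fun a => fderiv ℝ D.Wf (D.x a)) ∧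
      BMk D.m (fun a => D.gm (D.x a)) := by
  have h0 := h.δ_nonneg
  have mm := D.meas_mu_glx h.m_am
  have c := h.car
  refine ⟨⟨(h.m_w.comp h.m_x).aestronglyMeasurable, δ + ‖(1 : ℝ)‖,
      c.mono fun a ha => near_one_key (h.met.one _ ha).1⟩,
    ⟨(mm.comp h.m_x).aestronglyMeasurable, δ + ‖(1 : ℝ)‖,
      c.mono fun a ha => near_one_key (h.met.mu_le_glx ha).2⟩,
    ⟨(mm.comp h.m_x).inv.aestronglyMeasurable, 2, c.mono fun a ha => ?_⟩,
    ⟨(h.m_am.comp h.m_x).aestronglyMeasurable, _,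
      c.mono fun a ha => near_one_key (h.met.one _ ha).2.2⟩,
    ⟨((measurable_fderiv ℝ _).comp h.m_x).aestronglyMeasurable, δ,
      c.mono fun a ha => (h.met.w_le _ ha).2⟩,
    ⟨((measurable_fderiv ℝ _).comp h.m_x).aestronglyMeasurable,
      2 * δ * 2 + ‖(1 : E d →L[ℝ] E d)‖, ?_⟩,
    ⟨(h.m_gm.comp h.m_x).aestronglyMeasurable, _,
      c.mono fun a ha => near_one_key (h.met.one _ ha).2.1⟩⟩
  · obtain ⟨m1, -⟩ := h.met.mu_mem_glx hδ ha
    have m0 : 0 < D.mu (D.x a) := by linarith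
    rw [Real.norm_of_nonneg (inv_pos.2 m0).le, inv_le_comm₀ m0 two_pos]
    linarith
  · filter_upwards [c, h.ae_pw] with a ha hp
    exact near_one_key ((h.met.Wf_props.2 _ ha).1.trans (by gcongr; exact hp.x_le))

theorem CV.bm_glx_key {D : CD d α H} {c : E d} {R δ M : ℝ} (h : CV D c R δ M) (hδ : δ ≤ 1 / 10) :
    BMk D.m (fun a => fderiv ℝ D.glx (D.x a)) := by
  have h0 := h.δ_nonneg
  refine ⟨((measurable_fderiv ℝ _).comp h.m_x).aestronglyMeasurable,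
    20 * δ * 2 + ‖(1 : E d →L[ℝ] E d)‖, ?_⟩
  filter_upwards [h.car, h.ae_pw] with a ha hp
  exact near_one_key (((h.met.glx_props hδ).2 _ ha).trans (by gcongr; exact hp.x_le))

/-- Integral of a function bounded by a multiple of the tilt over a cylinder. -/
theorem CV.le_T_key {D : CD d α H} {c : E d} {R δ M : ℝ} (h : CV D c R δ M) (hδ : δ ≤ 1 / 2)
    {f g : α → ℝ} (hg : Integrable g D.m) {K σ : ℝ} (u : E d)
    (h1 : ∀ᵐ a ∂D.m, |f a| ≤ g a + K * (D.cyl u σ).indicator D.t a) :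
    |∫ a, f a ∂D.m| ≤ ∫ a, g a ∂D.m + K * D.T u σ := by
  have := h.fin
  have it : Integrable D.t D.m := (h.bm_key hδ).2.2.1.int id continuous_id
  have i1 := (it.indicator (h.meas_cyl u σ)).const_mul K
  rw [CD.T, ← integral_indicator (h.meas_cyl u σ), ← integral_const_mul, ← integral_add hg i1]
  exact norm_integral_le_of_norm_le (f := f) (hg.add i1) h1

/-- Integral of a function bounded by a multiple of the energy over a cylinder. -/
theorem CV.le_En_key {D : CD d α H} {c : E d} {R δ M : ℝ} (h : CV D c R δ M)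
    {f g : α → ℝ} (hg : Integrable g D.m) {K σ : ℝ} (u : E d)
    (h1 : ∀ᵐ a ∂D.m, |f a| ≤ g a + K * (D.cyl u σ).indicator D.en a) :
    |∫ a, f a ∂D.m| ≤ ∫ a, g a ∂D.m + K * D.En u σ := by
  have i1 := (h.integrable_t.2.2.2.1.indicator (h.meas_cyl u σ)).const_mul K
  rw [CD.En, ← integral_indicator (h.meas_cyl u σ), ← integral_const_mul, ← integral_add hg i1]
  exact norm_integral_le_of_norm_le (f := f) (hg.add i1) h1

/-- Derivative in the radius of an integral against a power of the profile. -/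
theorem der_pr_key {β : Type*} [MeasurableSpace β] (μ : Measure β) {X : β → E d}
    (hX : Measurable X) {g : β → ℝ} (hg : AEStronglyMeasurable g μ) (n : ℕ) {r R : ℝ} (hr : 0 < r)
    (hR : r < R) (hi : Integrable ({b | ‖X b‖ < R}.indicator g) μ) :
    HasDerivAt (fun ϱ => ∫ b, LG.pr 0 ϱ (X b) ^ (n + 2) * g b ∂μ)
      (∫ b, (n + 2 : ℝ) * LG.pr 0 r (X b) ^ (n + 1) * (2 * (‖X b‖ ^ 2 / r ^ 2) / r) * g b ∂μ) r := by
  have hp : ∀ ϱ, Measurable fun b => LG.pr 0 ϱ (X b) := fun ϱ =>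
    (LG.continuous_pr 0 ϱ).measurable.comp hX
  have hm : ∀ ϱ, AEStronglyMeasurable (fun b => LG.pr 0 ϱ (X b) ^ (n + 2) * g b) μ := fun ϱ =>
    ((hp ϱ).pow_const _).aestronglyMeasurable.mul hg
  have z : ∀ ϱ, 0 < ϱ → ∀ u : E d, ϱ ≤ ‖u‖ → LG.pr 0 ϱ u = 0 := fun ϱ h0 u hu =>
    LG.pr_eq_zero h0 (by rwa [mem_ball_zero_iff, not_lt])
  have p1 : ∀ ϱ (u : E d) k, 0 ≤ LG.pr 0 ϱ u ^ k ∧ LG.pr 0 ϱ u ^ k ≤ 1 := fun ϱ u k =>
    ⟨pow_nonneg (LG.pr_nonneg _ _ _) _, pow_le_one₀ (LG.pr_nonneg _ _ _) (LG.pr_le_one _ _ _)⟩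
  refine (hasDerivAt_integral_of_dominated_loc_of_deriv_le (s := Ioo (r / 2) R)
    (F := fun ϱ b => LG.pr 0 ϱ (X b) ^ (n + 2) * g b)
    (F' := fun ϱ b => (n + 2 : ℝ) * LG.pr 0 ϱ (X b) ^ (n + 1) *
      (2 * (‖X b‖ ^ 2 / ϱ ^ 2) / ϱ) * g b)
    (bound := fun b => (n + 2 : ℝ) * (4 / r) * ‖{b | ‖X b‖ < R}.indicator g b‖)
    (Ioo_mem_nhds (by linarith) hR) (Eventually.of_forall hm) ?_ ?_ ?_
    (hi.norm.const_mul _) ?_).2
  · refine hi.norm.mono' (hm r) (Eventually.of_forall fun b => ?_)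
    by_cases hb : ‖X b‖ < R
    · rw [indicator_of_mem (show b ∈ {b | ‖X b‖ < R} from hb), norm_mul,
        Real.norm_of_nonneg (p1 _ _ _).1]
      exact mul_le_of_le_one_left (norm_nonneg _) (p1 _ _ _).2
    · rw [z r hr _ (by linarith [not_lt.1 hb])]
      simp
  · exact ((measurable_const.mul ((hp r).pow_const _)).mul
      ((measurable_const.mul ((hX.norm.pow_const 2).div_const _)).div_const
        _)).aestronglyMeasurable.mul hg
  · refine Eventually.of_forall fun b ϱ hϱ => ?_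
    have h0 : 0 < ϱ := by linarith [hϱ.1]
    rcases le_or_gt ϱ ‖X b‖ with hb | hb
    · rw [z ϱ h0 _ hb, zero_pow (by omega), mul_zero, zero_mul, zero_mul, norm_zero]
      positivity
    · rw [indicator_of_mem (show b ∈ {b | ‖X b‖ < R} from hb.trans hϱ.2), norm_mul]
      refine mul_le_mul_of_nonneg_right ?_ (norm_nonneg _)
      have c3 := p1 ϱ (X b) (n + 1)
      rw [Real.norm_of_nonneg (by have := c3.1; positivity)]
      have c4 : ‖X b‖ ^ 2 / ϱ ^ 2 ≤ 1 := by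
        rw [div_le_one (by positivity)]
        gcongr
      calc _ ≤ (n + 2 : ℝ) * 1 * (2 * 1 / (r / 2)) := by
            gcongr
            exacts [c3.2, hϱ.1.le]
        _ = _ := by field_simp; norm_num
  · refine Eventually.of_forall fun b ϱ hϱ => ?_
    have := (LG.der_pow_cut (0 : E d) n (X b) (show 0 < ϱ by linarith [hϱ.1])).mul_const (g b)
    rwa [sub_zero] at this

end Pool.Agent.Lib.MP_8daebb_an.GM
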