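import Pool.Agent.Lib.MP_8daebb_an.GM.Id2
import Pool.Agent.Lib.MP_8daebb_an.GM.Ker2
import Pool.Agent.Lib.MP_8daebb_an.GM.KeyI
import Pool.Agent.Lib.MP_8daebb_an.SV.Key1

/-! The derivative of the height function. -/

set_option linter.unusedSectionVars false

open MeasureTheory Metric Filter Topology Set
open scoped RealInnerProductSpace ENNReal ContDiff

namespace Pool.Agent.Lib.MP_8daebb_an.GM

open LG (vb chi om trS)

variable {d : ℕ} {α : Type*} [MeasurableSpace α] {H : Type*} [NormedAddCommGroup H]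
  [InnerProductSpace ℝ H] [FiniteDimensional ℝ H] [MeasurableSpace H] [BorelSpace H]

theorem ind_key1 (D : CD d α H) {r : ℝ} {a : α} (g : ‖D.x a‖ < r) :
    (D.cyl 0 r).indicator D.t a = D.t a :=
  indicator_of_mem (show a ∈ D.cyl 0 r from show ‖D.x a - 0‖ < r by rwa [sub_zero]) _

theorem ind0_key1 {D : CD d α H} {δ : ℝ} {a : α} (h : PW D δ a) (c : E d) (r : ℝ) :
    0 ≤ (D.cyl c r).indicator D.t a :=
  indicator_apply_nonneg fun _ => h.t_nonneg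

theorem zero_key1 {r : ℝ} (hr : 0 < r) {u : E d} (g : r ≤ ‖u‖) :
    LG.pr 0 r u = 0 ∧ chi 0 r u = 0 ∧ om 0 r u = 0 := by
  have h : LG.pr 0 r u = 0 := LG.pr_eq_zero hr (by rwa [mem_ball_zero_iff, not_lt])
  simp [chi, om, h]

theorem pw1_key1 {D : CD d α H} {R δ lam r : ℝ} {a : α} (h : PW D δ a) (hm : Met D 0 R δ)
    (hx : D.x a ∈ ball (0 : E d) R) (h0 : 0 ≤ δ) (hδ : δ ≤ 1 / 2) (hr : 0 < r) (hr2 : r ≤ 2)
    (hy : ‖D.y a‖ ≤ lam) :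
    |om 0 r (D.x a) * ‖D.y a‖ ^ 2 * (trS (D.am (D.x a)) - d * D.mu (D.x a)) +
      12 / r ^ 2 * LG.pr 0 r (D.x a) * ⟪D.x a, D.τ a (D.Wf (D.x a))⟫ * ‖D.y a‖ ^ 2 -
      om 0 r (D.x a) * ‖D.y a‖ ^ 2 * trS ((fderiv ℝ D.Wf (D.x a)).comp (D.τ a)) +
      om 0 r (D.x a) * ‖D.y a‖ ^ 2 * ⟪D.eh a, D.Wf (D.x a)⟫| ≤
      (4 * d + 12) * δ * r * (om 0 r (D.x a) * D.mu (D.x a) * ‖D.y a‖ ^ 2) +
        (18 * d + 41) * lam ^ 2 * (D.cyl 0 r).indicator D.t a := by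
  have i0 := ind0_key1 h 0 r
  rcases le_or_gt r ‖D.x a‖ with g | g
  · simp only [zero_key1 hr g, zero_mul, mul_zero, add_zero, sub_zero, abs_zero, zero_add]
    positivity
  rw [ind_key1 D g]
  have ht := h.t_nonneg
  have hY : ‖D.y a‖ ^ 2 ≤ lam ^ 2 := pow_le_pow_left₀ (norm_nonneg _) hy 2
  have hY4 : ‖D.y a‖ ^ 2 ≤ 4 := by nlinarith [h.y_two, norm_nonneg (D.y a)]
  have hY0 : 0 ≤ ‖D.y a‖ ^ 2 := sq_nonneg _
  have o0 := LG.om_nonneg 0 r (D.x a)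
  have o3 := LG.om_le 0 r (D.x a)
  have p0 := LG.pr_nonneg 0 r (D.x a)
  have p1 := LG.pr_le_one 0 r (D.x a)
  have m1 := (hm.mu_mem_glx hδ hx).1
  have x0 := norm_nonneg (D.x a)
  have hW : ‖D.Wf (D.x a)‖ ≤ 3 / 2 * r := (hm.Wf_le hδ hx).1.trans (by linarith)
  have d0 : (0 : ℝ) ≤ d := Nat.cast_nonneg d
  have e1 : |trS (D.am (D.x a)) - d * D.mu (D.x a)| ≤ 4 * d * δ * r * D.mu (D.x a) := by
    have b1 := (trS_near_glx (D.am (D.x a))).trans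
      (mul_le_mul_of_nonneg_left (hm.am_le _ hx).1 d0)
    have b2 := mul_le_mul_of_nonneg_left (hm.mu_le_glx hx).1 d0
    have b3 : d * (δ * ‖D.x a‖) ≤ d * (δ * r) := by gcongr
    have b4 : d * (δ * r) * (1 / 2) ≤ d * (δ * r) * D.mu (D.x a) := by gcongr
    rw [show trS (D.am (D.x a)) - d * D.mu (D.x a) =
      (trS (D.am (D.x a)) - d) - d * (D.mu (D.x a) - 1) by ring]
    refine (abs_sub _ _).trans ?_
    rw [abs_mul, abs_of_nonneg d0]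
    linarith
  have e2 : |⟪D.x a, D.τ a (D.Wf (D.x a))⟫| ≤ r * (2 * D.t a * (3 / 2 * r)) :=
    (abs_real_inner_le_norm _ _).trans (mul_le_mul g.le (((D.τ a).le_opNorm _).trans
      (mul_le_mul h.τ_le hW (norm_nonneg _) (by positivity))) (norm_nonneg _) hr.le)
  have e3 : |trS ((fderiv ℝ D.Wf (D.x a)).comp (D.τ a))| ≤ d * (3 * (2 * D.t a)) := by
    refine (trS_le_glx _).trans (mul_le_mul_of_nonneg_left
      ((ContinuousLinearMap.opNorm_comp_le _ _).trans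
        (mul_le_mul ?_ h.τ_le (norm_nonneg _) (by norm_num))) d0)
    have b1 := near_one_key (hm.Wf_props.2 _ hx).1
    have b2 : ‖(1 : E d →L[ℝ] E d)‖ ≤ 1 := ContinuousLinearMap.norm_id_le
    have b3 : 2 * δ * ‖D.x a‖ ≤ 2 * (1 / 2) * 2 := by gcongr; exact h.x_le
    linarith
  have e4 : |⟪D.eh a, D.Wf (D.x a)⟫| ≤ δ * (D.t a + ‖D.y a‖ ^ 2) * (3 / 2 * r) :=
    (abs_real_inner_le_norm _ _).trans (mul_le_mul h.eh_le hW (norm_nonneg _) (by positivity))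
  have f1 : |om 0 r (D.x a) * ‖D.y a‖ ^ 2 * (trS (D.am (D.x a)) - d * D.mu (D.x a))| ≤
      om 0 r (D.x a) * ‖D.y a‖ ^ 2 * (4 * d * δ * r * D.mu (D.x a)) := by
    rw [abs_mul, abs_of_nonneg (by positivity)]
    gcongr
  have f2 : |12 / r ^ 2 * LG.pr 0 r (D.x a) * ⟪D.x a, D.τ a (D.Wf (D.x a))⟫ * ‖D.y a‖ ^ 2| ≤
      36 * lam ^ 2 * D.t a := by
    rw [abs_mul, abs_mul, abs_of_nonneg hY0, abs_of_nonneg (by positivity)]
    calc _ ≤ 12 / r ^ 2 * 1 * (r * (2 * D.t a * (3 / 2 * r))) * lam ^ 2 := by gcongr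
      _ = _ := by field_simp; ring
  have f3 : |om 0 r (D.x a) * ‖D.y a‖ ^ 2 * trS ((fderiv ℝ D.Wf (D.x a)).comp (D.τ a))| ≤
      3 * lam ^ 2 * (d * (3 * (2 * D.t a))) := by
    rw [abs_mul, abs_of_nonneg (by positivity)]
    gcongr
  have f4 : |om 0 r (D.x a) * ‖D.y a‖ ^ 2 * ⟪D.eh a, D.Wf (D.x a)⟫| ≤
      5 * lam ^ 2 * D.t a + 12 * δ * r * (om 0 r (D.x a) * D.mu (D.x a) * ‖D.y a‖ ^ 2) := by
    rw [abs_mul, abs_of_nonneg (by positivity)]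
    refine (mul_le_mul_of_nonneg_left e4 (by positivity)).trans ?_
    have b1 : om 0 r (D.x a) * ‖D.y a‖ ^ 2 * (δ * D.t a * (3 / 2 * r)) ≤
        3 * lam ^ 2 * (1 / 2 * D.t a * (3 / 2 * 2)) := by gcongr
    have b2 : om 0 r (D.x a) * ‖D.y a‖ ^ 2 * (δ * ‖D.y a‖ ^ 2 * (3 / 2 * r)) * 1 ≤
        om 0 r (D.x a) * ‖D.y a‖ ^ 2 * (δ * 4 * (3 / 2 * r)) * (2 * D.mu (D.x a)) := by
      gcongr
      linarith
    have b3 : 0 ≤ lam ^ 2 * D.t a := by positivity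
    nlinarith
  refine (abs_add_le _ _).trans ((add_le_add_left ((abs_sub _ _).trans
    (add_le_add_left (abs_add_le _ _) _)) _).trans ?_)
  nlinarith

theorem hh_int_key1 {D : CD d α H} {R δ M : ℝ} (h : CV D 0 R δ M) (hδ : δ ≤ 1 / 2) (r : ℝ) :
    Integrable (fun a => om 0 r (D.x a) * D.mu (D.x a) * ‖D.y a‖ ^ 2) D.m ∧
    Integrable (fun a => om 0 r (D.x a) * ⟪D.y a, D.b a (D.am (D.x a) (D.x a))⟫) D.m ∧
    0 ≤ ∫ a, om 0 r (D.x a) * D.mu (D.x a) * ‖D.y a‖ ^ 2 ∂D.m := by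
  have := h.fin
  obtain ⟨bx, bY, -, -, -, -, bb, -⟩ := h.bm_key hδ
  obtain ⟨-, bm, -, ba, -⟩ := h.bm_met_key hδ
  have co := (LG.contDiff_om (0 : E d) r).continuous
  refine ⟨(bx.prod (bm.prod bY)).int (fun p => om 0 r p.1 * p.2.1 * ‖p.2.2‖ ^ 2) (by fun_prop),
    (bx.prod (bY.prod (bb.prod ba))).int
      (fun p => om 0 r p.1 * ⟪p.2.1, p.2.2.1 (p.2.2.2 p.1)⟫) (by fun_prop),
    integral_nonneg_of_ae (h.car.mono fun a ha => ?_)⟩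
  have m1 := (h.met.mu_mem_glx hδ ha).1
  have o0 := LG.om_nonneg 0 r (D.x a)
  positivity

theorem fin_key1 {P n A1 A2 A3 A4 K L T : ℝ} (hP : 0 < P)
    (e : -1 * A1 + n * A2 + 2 * A3 + 1 * A4 = 0) (h : |A4| ≤ K * A2 + L * T) :
    |-n / P * A2 + P⁻¹ * A1 - 2 / P * A3| ≤ K * (P⁻¹ * A2) + L * T / P := by
  rw [show -n / P * A2 + P⁻¹ * A1 - 2 / P * A3 = A4 / P by
    rw [show A4 = A1 - n * A2 - 2 * A3 by linarith]
    ring, abs_div, abs_of_pos hP]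
  exact (div_le_div_of_nonneg_right h hP.le).trans_eq (by ring)

theorem key1_a {D : CD d α H} {R δ M lam r : ℝ} (h : CV D 0 R δ M) (hδ : δ ≤ 1 / 2)
    (hl : Ht D lam) (hr : 0 < r) (hR : r < R) :
    ∃ h' : ℝ, HasDerivAt D.hh h' r ∧ |r * h' - D.UU r| ≤
      (4 * d + 12) * δ * r * D.hh r + (18 * d + 41) * lam ^ 2 * D.T 0 r / r ^ d := by
  have := h.fin
  have h0 := h.δ_nonneg
  obtain ⟨bx, bY, -, -, bτ, -, bb, -, -, -, be⟩ := h.bm_key hδ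
  obtain ⟨-, bm, -, ba, -, bW, -⟩ := h.bm_met_key hδ
  obtain ⟨i2, i3, a2⟩ := hh_int_key1 h hδ r
  obtain ⟨-, -, -, p4, -⟩ := chi_props (0 : E d) hr
  have p2 := LG.contDiff_om (0 : E d) r
  have co := p2.continuous
  have cp := LG.continuous_pr (0 : E d) r
  have ct := cont_trS_key (d := d)
  have rd : 0 < r ^ d := by positivity
  have ig : Integrable (fun a => 3 * D.mu (D.x a) * ‖D.y a‖ ^ 2) D.m :=
    (bm.prod bY).int (fun p => 3 * p.1 * ‖p.2‖ ^ 2) (by fun_prop)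
  have d1 := der_pr_key D.m h.m_x ig.1 0 hr hR
    (ig.indicator (measurableSet_lt h.m_x.norm measurable_const))
  have d2 : HasDerivAt (fun ϱ : ℝ => (ϱ ^ d)⁻¹) (-(d * r ^ (d - 1)) / (r ^ d) ^ 2) r :=
    (hasDerivAt_pow d r).fun_inv rd.ne'
  have e0 : ∀ ϱ, ∫ a, LG.pr 0 ϱ (D.x a) ^ (0 + 2) * (3 * D.mu (D.x a) * ‖D.y a‖ ^ 2) ∂D.m =
      ∫ a, om 0 ϱ (D.x a) * D.mu (D.x a) * ‖D.y a‖ ^ 2 ∂D.m := fun ϱ =>
    integral_congr_ae (Eventually.of_forall fun a => by simp only [om]; ring)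
  simp only [e0] at d1
  refine ⟨_, d2.mul d1, ?_⟩
  have i1 : Integrable (fun a => 12 / r ^ 2 * LG.pr 0 r (D.x a) * ‖D.x a‖ ^ 2 * D.mu (D.x a) *
      ‖D.y a‖ ^ 2) D.m :=
    (bx.prod (bm.prod bY)).int
      (fun p => 12 / r ^ 2 * LG.pr 0 r p.1 * ‖p.1‖ ^ 2 * p.2.1 * ‖p.2.2‖ ^ 2) (by fun_prop)
  have i4 : Integrable (fun a =>
      om 0 r (D.x a) * ‖D.y a‖ ^ 2 * (trS (D.am (D.x a)) - d * D.mu (D.x a)) +
      12 / r ^ 2 * LG.pr 0 r (D.x a) * ⟪D.x a, D.τ a (D.Wf (D.x a))⟫ * ‖D.y a‖ ^ 2 -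
      om 0 r (D.x a) * ‖D.y a‖ ^ 2 * trS ((fderiv ℝ D.Wf (D.x a)).comp (D.τ a)) +
      om 0 r (D.x a) * ‖D.y a‖ ^ 2 * ⟪D.eh a, D.Wf (D.x a)⟫) D.m :=
    ((bx.prod bY).prod ((ba.prod bm).prod (bτ.prod (bW.prod be)))).int (fun p =>
      om 0 r p.1.1 * ‖p.1.2‖ ^ 2 * (trS p.2.1.1 - d * p.2.1.2) +
      12 / r ^ 2 * LG.pr 0 r p.1.1 * ⟪p.1.1, p.2.2.1 (p.2.1.1 p.1.1)⟫ * ‖p.1.2‖ ^ 2 -
      om 0 r p.1.1 * ‖p.1.2‖ ^ 2 * trS (p.2.2.2.1.comp p.2.2.1) +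
      om 0 r p.1.1 * ‖p.1.2‖ ^ 2 * ⟪p.2.2.2.2, p.2.1.1 p.1.1⟫) (by fun_prop)
  have T1 : Test (H := H) 0 R fun u => om 0 r u.1 * ‖u.2‖ ^ 2 :=
    ⟨((p2.comp contDiff_fst).mul ((contDiff_norm_sq ℝ).comp contDiff_snd)).contDiffOn, r, hR,
      fun u hu => mul_eq_zero_of_left (zero_key1 hr (by simpa using hu)).2.2 _⟩
  have f1 : ∀ (x v : E d) (y k : H),
      fderiv ℝ (fun u : E d × H => om 0 r u.1 * ‖u.2‖ ^ 2) (x, y) (v, k)
      = fderiv ℝ (om 0 r) x v * ‖y‖ ^ 2 + 2 * (om 0 r x * ⟪y, k⟫) := by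
    intro x v y k
    have f2 : HasFDerivAt (fun u : E d × H => om 0 r u.1)
        ((fderiv ℝ (om 0 r) x).comp (ContinuousLinearMap.fst ℝ (E d) H)) (x, y) :=
      HasFDerivAt.comp (f := Prod.fst) (x, y) (p2.differentiable one_ne_zero x).hasFDerivAt
        hasFDerivAt_fst
    have f3 : HasFDerivAt (fun u : E d × H => ‖u.2‖ ^ 2)
        ((2 • innerSL ℝ y).comp (ContinuousLinearMap.snd ℝ (E d) H)) (x, y) :=
      HasFDerivAt.comp (f := Prod.snd) (x, y) (hasStrictFDerivAt_norm_sq y).hasFDerivAt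
        hasFDerivAt_snd
    rw [(f2.fun_mul f3).fderiv]
    simp
    ring
  have e1 := h.hor_gen T1 h.met.Wf_props.1
  have e3 := h.le_T_key hδ (i2.const_mul ((4 * d + 12) * δ * r)) (K := (18 * d + 41) * lam ^ 2)
    (σ := r) 0 (by
      filter_upwards [h.ae_pw, h.car, hl] with a h1 h2 h3
      exact pw1_key1 h1 h.met h2 h0 hδ hr (hR.le.trans h.R_le) h3)
  rw [integral_const_mul] at e3
  rw [integral_congr_ae (g := fun a => -1 * (12 / r ^ 2 * LG.pr 0 r (D.x a) * ‖D.x a‖ ^ 2 *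
      D.mu (D.x a) * ‖D.y a‖ ^ 2) + d * (om 0 r (D.x a) * D.mu (D.x a) * ‖D.y a‖ ^ 2) +
      2 * (om 0 r (D.x a) * ⟪D.y a, D.b a (D.am (D.x a) (D.x a))⟫) + 1 *
      (om 0 r (D.x a) * ‖D.y a‖ ^ 2 * (trS (D.am (D.x a)) - d * D.mu (D.x a)) +
      12 / r ^ 2 * LG.pr 0 r (D.x a) * ⟪D.x a, D.τ a (D.Wf (D.x a))⟫ * ‖D.y a‖ ^ 2 -
      om 0 r (D.x a) * ‖D.y a‖ ^ 2 * trS ((fderiv ℝ D.Wf (D.x a)).comp (D.τ a)) +
      om 0 r (D.x a) * ‖D.y a‖ ^ 2 * ⟪D.eh a, D.Wf (D.x a)⟫)) (h.car.mono fun a ha => by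
        have m1 : ⟪D.x a, D.am (D.x a) (D.x a)⟫ = D.mu (D.x a) * ‖D.x a‖ ^ 2 := by
          rw [D.mu_mul_glx, real_inner_comm]
        simp only [f1, p4, sub_zero, inner_sub_right, (h.met.Wf_props.2 _ ha).2]
        simp only [CD.Wf, m1]
        ring), SV.lin4_key1 i1 i2 i3 i4 _ _ _ _ fun a => rfl] at e1
  have e4 : r * ∫ a, (((0 : ℕ) : ℝ) + 2) * LG.pr 0 r (D.x a) ^ (0 + 1) *
      (2 * (‖D.x a‖ ^ 2 / r ^ 2) / r) * (3 * D.mu (D.x a) * ‖D.y a‖ ^ 2) ∂D.m =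
      ∫ a, 12 / r ^ 2 * LG.pr 0 r (D.x a) * ‖D.x a‖ ^ 2 * D.mu (D.x a) * ‖D.y a‖ ^ 2 ∂D.m := by
    rw [← integral_const_mul]
    refine integral_congr_ae (Eventually.of_forall fun a => ?_)
    simp only [Nat.cast_zero]
    field_simp
    ring
  have e5 : r * (-(d * r ^ (d - 1)) / (r ^ d) ^ 2) = -d / r ^ d := by
    rw [← mul_div_assoc, mul_neg, mul_left_comm, mul_pow_sub_one (by have := h.d_pos; omega)]
    field_simp
  rw [mul_add, ← mul_assoc, e5, mul_left_comm, e4, CD.UU, CD.hh]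
  exact fin_key1 rd e1 e3

theorem pw2_key1 {D : CD d α H} {R δ lam r : ℝ} {a : α} (h : PW D δ a) (hm : Met D 0 R δ)
    (hx : D.x a ∈ ball (0 : E d) R) (h0 : 0 ≤ δ) (hδ : δ ≤ 1 / 2) (hr : 0 < r) (hr2 : r ≤ 2)
    (hy : ‖D.y a‖ ≤ lam) :
    |r ^ 2 * (chi 0 r (D.x a) * (D.w (D.x a) * D.t a - (trH (D.g a) + ⟪D.L a, D.y a⟫))) +
      2 * (om 0 r (D.x a) * (⟪D.x a, D.q a (D.y a)⟫ -
        ⟪D.y a, D.b a (D.am (D.x a) (D.x a))⟫))| ≤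
      r ^ 2 * (om 0 r (D.x a) * D.mu (D.x a) * ‖D.y a‖ ^ 2) +
        6 * lam * r * (D.cyl 0 r).indicator D.en a := by
  have y0 := norm_nonneg (D.y a)
  have l0 := y0.trans hy
  have ht := h.t_nonneg
  have e0 : 0 ≤ D.en a := add_nonneg ht (sq_nonneg _)
  rcases le_or_gt r ‖D.x a‖ with g | g
  · have i0 : 0 ≤ (D.cyl 0 r).indicator D.en a := indicator_apply_nonneg fun _ => e0
    simp only [zero_key1 hr g, zero_mul, mul_zero, add_zero, abs_zero, zero_add]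
    positivity
  rw [indicator_of_mem (show a ∈ D.cyl 0 r from show ‖D.x a - 0‖ < r by rwa [sub_zero])]
  have o0 := LG.om_nonneg 0 r (D.x a)
  have c0 := LG.chi_nonneg 0 r (D.x a)
  have c1 := LG.chi_le_one 0 r (D.x a)
  have c3 := (chi_props (0 : E d) hr).1 (D.x a)
  have m1 := (hm.mu_mem_glx hδ hx).1
  have e1 : ⟪D.y a, D.b a (D.am (D.x a) (D.x a))⟫ = ⟪D.x a, D.am (D.x a) (D.p (D.y a) a)⟫ := by
    rw [← hm.am_symm _ hx, CD.p, ContinuousLinearMap.adjoint_inner_right, real_inner_comm]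
  have e2 : |⟪D.x a, D.q a (D.y a)⟫ - ⟪D.y a, D.b a (D.am (D.x a) (D.x a))⟫| ≤
      r * (1 / 2 * lam * (3 / 2 * D.en a)) := by
    rw [e1, ← inner_sub_right]
    refine (abs_real_inner_le_norm _ _).trans
      (mul_le_mul g.le ((h.qb _).trans ?_) (norm_nonneg _) hr.le)
    have b1 : (√(D.t a) + ‖D.y a‖) * ‖D.y a‖ ≤ 3 / 2 * D.en a := by
      have := Real.sq_sqrt ht
      unfold CD.en
      nlinarith [sq_nonneg (√(D.t a) - ‖D.y a‖)]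
    rw [mul_assoc]
    gcongr
  have f1 : |r ^ 2 * (chi 0 r (D.x a) * (D.w (D.x a) * D.t a -
      (trH (D.g a) + ⟪D.L a, D.y a⟫)))| ≤
      r ^ 2 * (chi 0 r (D.x a) * (δ * (‖D.y a‖ ^ 2 + ‖D.y a‖ * D.t a))) := by
    rw [abs_mul, abs_mul, abs_of_nonneg c0, abs_of_nonneg (sq_nonneg r), abs_sub_comm]
    gcongr
    exact h.trg
  have f2 : |2 * (om 0 r (D.x a) * (⟪D.x a, D.q a (D.y a)⟫ -
      ⟪D.y a, D.b a (D.am (D.x a) (D.x a))⟫))| ≤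
      2 * (3 * (r * (1 / 2 * lam * (3 / 2 * D.en a)))) := by
    rw [abs_mul, abs_mul, abs_of_nonneg o0, abs_two]
    gcongr
    exact LG.om_le _ _ _
  have b1 : r * (r * (chi 0 r (D.x a) * (δ * (‖D.y a‖ * D.t a)))) ≤
      r * (2 * (1 * (1 / 2 * (lam * D.en a)))) := by
    gcongr
    unfold CD.en
    linarith [sq_nonneg ‖D.y a‖]
  have b2 : chi 0 r (D.x a) * δ * (r ^ 2 * ‖D.y a‖ ^ 2) ≤
      om 0 r (D.x a) * D.mu (D.x a) * (r ^ 2 * ‖D.y a‖ ^ 2) := by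
    gcongr
    · linarith
    · linarith
  have b4 : 0 ≤ lam * r * D.en a := by positivity
  refine (abs_add_le _ _).trans ?_
  nlinarith

theorem key1_b {D : CD d α H} {R δ M lam r : ℝ} (h : CV D 0 R δ M) (hδ : δ ≤ 1 / 2)
    (hl : Ht D lam) (hr : 0 < r) (hR : r < R) :
    |D.dr r - D.UU r| ≤ r ^ 2 * D.hh r + 6 * lam * r * D.En 0 r / r ^ d := by
  have := h.fin
  have h0 := h.δ_nonneg
  obtain ⟨bx, bY, bt, -, -, -, bb, bq, bg, bL, -⟩ := h.bm_key hδ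
  obtain ⟨bw, -, -, ba, -⟩ := h.bm_met_key hδ
  obtain ⟨i2, i3, a2⟩ := hh_int_key1 h hδ r
  obtain ⟨-, -, p3, -⟩ := chi_props (0 : E d) hr
  have p1 := LG.contDiff_chi (0 : E d) r
  have co := (LG.contDiff_om (0 : E d) r).continuous
  have cc := p1.continuous
  have ct := cont_trH_key (H := H)
  have rd : 0 < r ^ d := by positivity
  have i1 : Integrable (fun a => chi 0 r (D.x a) * D.w (D.x a) * D.t a) D.m :=
    (bx.prod (bw.prod bt)).int (fun p => chi 0 r p.1 * p.2.1 * p.2.2) (by fun_prop)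
  have i4 : Integrable (fun a =>
      r ^ 2 * (chi 0 r (D.x a) * (D.w (D.x a) * D.t a - (trH (D.g a) + ⟪D.L a, D.y a⟫))) +
      2 * (om 0 r (D.x a) * (⟪D.x a, D.q a (D.y a)⟫ -
        ⟪D.y a, D.b a (D.am (D.x a) (D.x a))⟫))) D.m :=
    ((bx.prod bY).prod ((bw.prod bt).prod ((bg.prod bL).prod (bq.prod (bb.prod ba))))).int
      (fun p => r ^ 2 * (chi 0 r p.1.1 * (p.2.1.1 * p.2.1.2 -
        (trH p.2.2.1.1 + ⟪p.2.2.1.2, p.1.2⟫))) + 2 * (om 0 r p.1.1 * (⟪p.1.1, p.2.2.2.1 p.1.2⟫ -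
        ⟪p.1.2, p.2.2.2.2.1 (p.2.2.2.2.2 p.1.1)⟫))) (by fun_prop)
  have T1 : Test (H := H) 0 R fun u => chi 0 r u.1 :=
    ⟨(p1.comp contDiff_fst).contDiffOn, r, hR, fun u hu => (zero_key1 hr (by simpa using hu)).2.1⟩
  have f1 : ∀ (x v : E d) (y k : H),
      fderiv ℝ (fun u : E d × H => chi 0 r u.1) (x, y) (v, k) = fderiv ℝ (chi 0 r) x v := by
    intro x v y k
    have f2 : HasFDerivAt (fun u : E d × H => chi 0 r u.1)
        ((fderiv ℝ (chi 0 r) x).comp (ContinuousLinearMap.fst ℝ (E d) H)) (x, y) :=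
      HasFDerivAt.comp (f := Prod.fst) (x, y) (p1.differentiable one_ne_zero x).hasFDerivAt
        hasFDerivAt_fst
    rw [f2.fderiv]
    rfl
  have e1 := h.ver_rad T1
  have e3 := h.le_En_key (i2.const_mul (r ^ 2)) (K := 6 * lam * r) (σ := r) 0 (by
    filter_upwards [h.ae_pw, h.car, hl] with a h1 h2 h3
    exact pw2_key1 h1 h.met h2 h0 hδ hr (hR.le.trans h.R_le) h3)
  rw [integral_const_mul] at e3
  rw [SV.lin4_key1 i1 i2 i3 i4 1 0 (-2 / r ^ 2) (-1 / r ^ 2) fun a => by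
    simp only [f1, p3, sub_zero]
    field_simp
    ring] at e1
  rw [CD.dr, CD.UU, CD.hh]
  refine le_of_eq_of_le ?_ (fin_key1 (n := 0)
    (A1 := r ^ 2 * ∫ a, chi 0 r (D.x a) * D.w (D.x a) * D.t a ∂D.m)
    (A3 := ∫ a, om 0 r (D.x a) * ⟪D.y a, D.b a (D.am (D.x a) (D.x a))⟫ ∂D.m) rd ?_ e3)
  · congr 2
    ring
  · have k1 : r ^ 2 * (-2 / r ^ 2) = -2 := by field_simp
    have k2 : r ^ 2 * (-1 / r ^ 2) = -1 := by field_simp
    have e2 := congrArg (r ^ 2 * ·) e1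
    simp only [mul_add (r ^ 2), ← mul_assoc (r ^ 2) (_ / _), k1, k2] at e2
    linarith

theorem key1_c {D : CD d α H} {R δ M lam r : ℝ} (h : CV D 0 R δ M) (hδ : δ ≤ 1 / 2)
    (hl : Ht D lam) (hr : 0 < r) :
    0 ≤ D.RR r ∧ D.UU r ^ 2 ≤ 2 * D.hh r * (D.RR r + 14 * lam * r ^ 2 * D.T 0 r / r ^ d) := by
  have := h.fin
  have h0 := h.δ_nonneg
  obtain ⟨bx, bY, bt, -, -, bT, -⟩ := h.bm_key hδ
  obtain ⟨-, -, bi, ba, -⟩ := h.bm_met_key hδ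
  obtain ⟨i2, i3, a2⟩ := hh_int_key1 h hδ r
  have co := (LG.contDiff_om (0 : E d) r).continuous
  have rd : 0 < r ^ d := by positivity
  have i8 : Integrable (fun a => om 0 r (D.x a) *
      (⟪D.T0 a (D.am (D.x a) (D.x a)), D.am (D.x a) (D.x a)⟫ / D.mu (D.x a))) D.m :=
    ((bx.prod bT).prod (ba.prod bi)).int
      (fun p => om 0 r p.1.1 * (⟪p.1.2 (p.2.1 p.1.1), p.2.1 p.1.1⟫ * p.2.2)) (by fun_prop)
  have i9 : Integrable (fun a => om 0 r (D.x a) *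
      (δ * ‖D.y a‖ * D.t a * ‖D.am (D.x a) (D.x a)‖ ^ 2 / D.mu (D.x a))) D.m :=
    ((bx.prod bY).prod (bt.prod (ba.prod bi))).int
      (fun p => om 0 r p.1.1 * (δ * ‖p.1.2‖ * p.2.1 * ‖p.2.2.1 p.1.1‖ ^ 2 * p.2.2.2)) (by fun_prop)
  have q0 : 0 ≤ ∫ a, om 0 r (D.x a) *
      (⟪D.T0 a (D.am (D.x a) (D.x a)), D.am (D.x a) (D.x a)⟫ / D.mu (D.x a)) ∂D.m := by
    refine integral_nonneg_of_ae ?_
    filter_upwards [h.ae_pw, h.car] with a ha hx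
    have m1 := (h.met.mu_mem_glx hδ hx).1
    exact mul_nonneg (LG.om_nonneg _ _ _) (div_nonneg (ha.T0_pos _) (by linarith))
  refine ⟨mul_nonneg (by positivity) q0, ?_⟩
  have q5 := h.le_T_key hδ (integrable_zero α ℝ D.m) (K := 7 * lam * r ^ 2) (σ := r) 0
    (f := fun a => om 0 r (D.x a) *
      (δ * ‖D.y a‖ * D.t a * ‖D.am (D.x a) (D.x a)‖ ^ 2 / D.mu (D.x a))) (by
    filter_upwards [h.ae_pw, h.car, hl] with a ha hx hy
    have i0 := ind0_key1 ha 0 r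
    have l0 := (norm_nonneg _).trans hy
    have t0 := ha.t_nonneg
    have m1 := (h.met.mu_mem_glx hδ hx).1
    have o0 := LG.om_nonneg 0 r (D.x a)
    rw [Pi.zero_apply, zero_add]
    rcases le_or_gt r ‖D.x a‖ with g | g
    · rw [(zero_key1 hr g).2.2, zero_mul, abs_zero]
      positivity
    · have hW : ‖D.am (D.x a) (D.x a)‖ ≤ 3 / 2 * r := (h.met.Wf_le hδ hx).1.trans (by linarith)
      rw [ind_key1 D g, abs_of_nonneg (by positivity)]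
      calc _ ≤ 3 * (1 / 2 * lam * D.t a * (3 / 2 * r) ^ 2 / (1 / 2)) := by
            gcongr
            exact LG.om_le _ _ _
        _ = 27 / 4 * (lam * r ^ 2 * D.t a) := by ring
        _ ≤ 7 * (lam * r ^ 2 * D.t a) := by gcongr; norm_num
        _ = _ := by ring)
  rw [CD.UU, CD.hh, CD.RR]
  have q1 := fun l : ℝ => integral_nonneg_of_ae (μ := D.m) (f := fun a =>
    l * l * (om 0 r (D.x a) * D.mu (D.x a) * ‖D.y a‖ ^ 2) +
      -2 * l * (om 0 r (D.x a) * ⟪D.y a, D.b a (D.am (D.x a) (D.x a))⟫) + 1 * (om 0 r (D.x a) *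
      (⟪D.T0 a (D.am (D.x a) (D.x a)), D.am (D.x a) (D.x a)⟫ / D.mu (D.x a))) +
      1 * (om 0 r (D.x a) *
      (δ * ‖D.y a‖ * D.t a * ‖D.am (D.x a) (D.x a)‖ ^ 2 / D.mu (D.x a)))) (by
    filter_upwards [h.ae_pw, h.car] with a ha hx
    have m1 := (h.met.mu_mem_glx hδ hx).1
    have m0 : 0 < D.mu (D.x a) := by linarith
    have t0 := ha.t_nonneg
    have t1 := ha.T0_pos (D.am (D.x a) (D.x a))
    have q3 := mul_nonneg (LG.om_nonneg 0 r (D.x a)) (SV.quad_key1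
      (p := D.mu (D.x a) * ‖D.y a‖ ^ 2)
      (A := (⟪D.T0 a (D.am (D.x a) (D.x a)), D.am (D.x a) (D.x a)⟫ +
        δ * ‖D.y a‖ * D.t a * ‖D.am (D.x a) (D.x a)‖ ^ 2) / D.mu (D.x a)) (by positivity)
      (by positivity) ((ha.rad _).trans_eq (by field_simp)) l)
    refine q3.trans_eq ?_
    ring)
  simp only [SV.lin4_key1 i2 i3 i8 i9 _ _ _ _ fun a => rfl] at q1
  simp only [Pi.zero_apply, integral_zero, zero_add] at q5
  generalize ∫ a, om 0 r (D.x a) * D.mu (D.x a) * ‖D.y a‖ ^ 2 ∂D.m = A2 at *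
  generalize ∫ a, om 0 r (D.x a) * ⟪D.y a, D.b a (D.am (D.x a) (D.x a))⟫ ∂D.m = A3 at *
  generalize ∫ a, om 0 r (D.x a) *
    (⟪D.T0 a (D.am (D.x a) (D.x a)), D.am (D.x a) (D.x a)⟫ / D.mu (D.x a)) ∂D.m = B1 at *
  generalize ∫ a, om 0 r (D.x a) *
    (δ * ‖D.y a‖ * D.t a * ‖D.am (D.x a) (D.x a)‖ ^ 2 / D.mu (D.x a)) ∂D.m = B2 at *
  have q4 := discrim_le_zero (a := A2) (b := -2 * A3) (c := B1 + B2) fun l => by linarith [q1 l]
  rw [discrim] at q4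
  have q7 : A3 ^ 2 ≤ A2 * (B1 + 7 * lam * r ^ 2 * D.T 0 r) := by
    have := mul_le_mul_of_nonneg_left ((le_abs_self _).trans q5) a2
    nlinarith
  calc (2 / r ^ d * A3) ^ 2 = (2 / r ^ d) ^ 2 * A3 ^ 2 := mul_pow _ _ _
    _ ≤ (2 / r ^ d) ^ 2 * (A2 * (B1 + 7 * lam * r ^ 2 * D.T 0 r)) := by gcongr
    _ = _ := by field_simp; ring

theorem key_one (d : ℕ) : ∃ C : ℝ, 0 < C ∧ ∀ (D : CD d α H) (R δ M lam r : ℝ), CV D 0 R δ M →
    δ ≤ 1 / 10 → Ht D lam → 0 ≤ lam → 0 < r → r < R →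
    ∃ h' : ℝ, HasDerivAt D.hh h' r ∧
      |r * h' - D.UU r| ≤ C * r * D.hh r + C * lam ^ 2 * (D.En 0 r / r ^ d) ∧
      |D.dr r - D.UU r| ≤ C * r ^ 2 * D.hh r + C * lam * r * (D.En 0 r / r ^ d) ∧
      D.UU r ^ 2 ≤ 2 * D.hh r * (D.RR r + C * lam * r ^ 2 * (D.En 0 r / r ^ d)) := by
  refine ⟨18 * d + 41, by positivity, fun D R δ M lam r h hδ hl l0 hr hR => ?_⟩
  have hδ' : δ ≤ 1 / 2 := by linarith
  obtain ⟨h', k1, k2⟩ := key1_a h hδ' hl hr hR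
  have k3 := key1_b h hδ' hl hr hR
  have k4 := (key1_c h hδ' hl hr).2
  obtain ⟨-, t0, j0, e0, e1, -⟩ := h.nonneg 0 r
  have t1 : D.T 0 r ≤ D.En 0 r := by linarith
  have h0 : 0 ≤ D.hh r := mul_nonneg (by positivity) (hh_int_key1 h hδ' r).2.2
  have d0 : (0 : ℝ) ≤ d := Nat.cast_nonneg d
  have δ0 := h.δ_nonneg
  refine ⟨h', k1, k2.trans ?_, k3.trans ?_, k4.trans ?_⟩
  · rw [mul_div_assoc]
    gcongr
    nlinarith
  · rw [mul_div_assoc, ← one_mul (r ^ 2)]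
    gcongr <;> linarith
  · rw [mul_div_assoc]
    gcongr
    linarith

end Pool.Agent.Lib.MP_8daebb_an.GM
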