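import Pool.Agent.Lib.MP_8daebb_an.GM.Key2X

/-! The derivative of the mass excess. -/

set_option linter.unusedSectionVars false
set_option linter.unusedVariables false

open MeasureTheory Metric Filter Topology Set
open scoped RealInnerProductSpace ENNReal ContDiff

namespace Pool.Agent.Lib.MP_8daebb_an.GM

open LG (vb chi om trS)

variable {d : ℕ} {α : Type*} [MeasurableSpace α] {H : Type*} [NormedAddCommGroup H]
  [InnerProductSpace ℝ H] [FiniteDimensional ℝ H] [MeasurableSpace H] [BorelSpace H]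

theorem key_two (d : ℕ) {CI : ℝ} (hCI : 0 ≤ CI) (Q : ℕ) : ∃ C : ℝ, 0 < C ∧
    ∀ (D : CD d α H) (R δ M lam ρ r : ℝ) (N : E d → ℕ), MS D R δ M lam ρ CI Q N → δ ≤ 1 / 10 →
    ρ ≤ r → r + 17 * ρ ≤ R →
    (∃ E' : ℝ, HasDerivAt (D.EE Q) E' r ∧
      2 * D.EE Q r - D.dr r + D.RR r - C * r * (D.dr r + D.hh r) -
        C * ρ * r ^ 2 * (D.En 0 (r + 9 * ρ) / r ^ d) ≤ r * E') ∧
    |D.EE Q r| ≤ C * (D.dr r + r ^ 2 * D.hh r) + C * ρ * r * (D.En 0 (r + 9 * ρ) / r ^ d) := by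
  set K1 : ℝ := d + 1 + 2 * (d * (8 ^ d * CI)) with hK1
  set K2 : ℝ := 54 * (d * (8 ^ d * CI)) with hK2
  have k1 : 0 ≤ K1 := by positivity
  have k2 : 0 ≤ K2 := by positivity
  have v1 : 0 ≤ 4 + 2 * K1 + (3 * d + 3) * (K2 + 4) := by positivity
  have v2 : 0 ≤ 4 * d + 10 + (3 * d + 3) * (K1 + K2) := by positivity
  have v3 : 0 ≤ 4 * d + 4 + 2 * K2 + (3 * d + 3) * (K1 + 4) := by positivity
  have v4 : 0 ≤ 4 * d + 6 + (3 * d + 1) * K1 + (3 * d + 3) * (K2 + 4) := by positivity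
  have v5 : 0 ≤ 4 * d + 4 + (3 * d + 3) * (K1 + K2 + 4) := by positivity
  have v6 : 0 ≤ 4 * d + 6 + (3 * d + 1) * K2 + (3 * d + 3) * (K1 + 4) := by positivity
  refine ⟨4 * d + 6 + (3 * d + 3) * (K1 + K2 + 4), by positivity,
    fun D R δ M lam ρ r N hS hδ hρ hR => ?_⟩
  have h := hS.cv
  have hfin := h.fin
  have hρ0 := hS.ρ_pos
  have hr : 0 < r := by linarith
  have hrR : r < R := by linarith
  have hr2 : r ≤ 2 := hrR.le.trans h.R_le
  have hδ0 := h.δ_nonneg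
  have hδ2 : δ ≤ 1 / 2 := by linarith
  have c0 := LG.chi_nonneg (0 : E d) r
  have hw : ∀ u ∈ ball (0 : E d) R, 1 / 2 ≤ D.w u ∧ D.w u ≤ 3 / 2 := fun u hu =>
    ⟨(h.met.psd hδ2 hu).2.2.2.2.1, (h.met.psd hδ2 hu).2.2.2.2.2.1⟩
  obtain ⟨p1, q1, p2, q2⟩ := phi_key2 h hr hrR
  obtain ⟨x1, x2⟩ := h.met.glx hδ0 hδ h.R_le
  have wt := fun {g : E d → ℝ} (hg : Continuous g) {A : ℝ} (hA : 0 ≤ A) =>
    weight_key2 hS hCI hδ hr hR hg hA
  rw [← hK1, ← hK2] at wt
  set φ : E d → ℝ := fun u => chi 0 r u * D.w u with hφ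
  set ϖ : E d → ℝ := fun u => om 0 r u * D.w u with hϖ
  have pz : ∀ u, r ≤ ‖u‖ → φ u = 0 := fun u hu => by
    simp only [hφ, (zero_key2 hr hu).1, zero_mul]
  obtain ⟨w1, w2⟩ := smul_c1_key2 p1 pz hrR x1
  set W : E d → E d := fun u => φ u • D.glx u with hW
  have wz : ∀ u, r ≤ ‖u‖ → W u = 0 := fun u hu => by simp only [hW, pz u hu, zero_smul]
  have pc : Continuous φ := p1.continuous
  have qc : Continuous ϖ := q1.continuous
  have wc : Continuous W := w1.continuous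
  have wd : Continuous (fderiv ℝ W) := w1.continuous_fderiv one_ne_zero
  have tc : Continuous (trH : (E d →L[ℝ] E d) → ℝ) := (trH_lin 0 0 0).2.2.2.2.2
  have hD : ∀ u ∈ ball (0 : E d) R, ∀ τ : E d →L[ℝ] E d, trH ((fderiv ℝ W u).comp τ) =
      φ u * trH ((fderiv ℝ D.glx u).comp τ) + (chi 0 r u * fderiv ℝ D.w u (τ (D.glx u)) -
        2 / r ^ 2 * ϖ u * ⟪u, τ (D.glx u)⟫) := fun u hu τ => by
    have d1 : DifferentiableAt ℝ D.w u :=
      (h.met.w_diff.contDiffAt (isOpen_ball.mem_nhds hu)).differentiableAt one_ne_zero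
    have d2 : DifferentiableAt ℝ D.glx u :=
      (x1.contDiffAt (isOpen_ball.mem_nhds hu)).differentiableAt one_ne_zero
    rw [hW, fderiv_fun_smul (p1.differentiable one_ne_zero u) d2, tr_key2, hφ,
      fderiv_fun_mul ((LG.contDiff_chi 0 r).differentiable one_ne_zero u) d1]
    simp only [add_apply, smul_apply, smul_eq_mul,
      (chi_props (0 : E d) hr).2.2.1, hϖ, sub_zero]
    ring
  set f : E d → ℝ := fun u => trH (fderiv ℝ W u) - d * φ u + 2 / r ^ 2 * ϖ u * ‖u‖ ^ 2 with hf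
  have fc : Continuous f := by
    rw [hf]
    fun_prop
  have fb : ∀ u, |f u| ≤ (3 * d + 1) * r * chi 0 r u := fun u => by
    rcases lt_or_ge r ‖u‖ with hu | hu
    · simp [hf, w2 u hu, pz u hu.le, hϖ, zero_key2 hr hu.le, trH]
    have hu' : u ∈ ball (0 : E d) R := mem_ball_zero_iff.2 (by linarith)
    obtain ⟨g1, g2, g3⟩ := x2 u hu'
    have e0 := hD u hu' (ContinuousLinearMap.id ℝ _)
    simp only [ContinuousLinearMap.comp_id, ContinuousLinearMap.id_apply, g3] at e0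
    have e : f u = chi 0 r u * (D.w u * trH (fderiv ℝ D.glx u - 1) + fderiv ℝ D.w u (D.glx u)) := by
      rw [(trH_lin _ _ 0).2.1, (trH_lin (0 : E d →L[ℝ] E d) 0 0).2.2.2.2.1]
      simp only [hf, e0, hφ]
      ring
    have b1 : |trH (fderiv ℝ D.glx u - 1)| ≤ d * (20 * (1 / 10) * r) :=
      (abs_trH_le _).trans (by gcongr; exact g1.trans (by gcongr))
    have b2 : |fderiv ℝ D.w u (D.glx u)| ≤ 1 / 2 * (2 * r) :=
      ((fderiv ℝ D.w u).le_opNorm _).trans
        (by gcongr; exacts [(h.met.w_le _ hu').2.trans hδ2, by linarith])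
    have b3 : |D.w u * trH (fderiv ℝ D.glx u - 1)| ≤ 3 / 2 * (d * (20 * (1 / 10) * r)) := by
      rw [abs_mul, abs_of_nonneg (by linarith [(hw u hu').1])]
      gcongr
      exact (hw u hu').2
    rw [e, abs_mul, abs_of_nonneg (c0 u), mul_comm]
    refine mul_le_mul_of_nonneg_right ((abs_add_le _ _).trans ?_) (c0 u)
    linarith
  have fs : HasCompactSupport f := supp_key2 fun u hu => by
    have := fb u
    rwa [(zero_key2 hr hu.le).1, mul_zero, abs_nonpos_iff] at this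
  have fi : Integrable f := fc.integrable_of_hasCompactSupport fs
  have pi : Integrable φ := pc.integrable_of_hasCompactSupport p2
  have pb : ∀ u, |φ u| ≤ 2 * chi 0 r u := fun u => by
    rcases le_or_gt r ‖u‖ with hu | hu
    · rw [pz u hu, abs_zero]
      linarith [c0 u]
    · have := hw u (mem_ball_zero_iff.2 (by linarith))
      rw [hφ, abs_mul, abs_of_nonneg (c0 u), abs_of_nonneg (by linarith), mul_comm]
      exact mul_le_mul_of_nonneg_right (by linarith) (c0 u)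
  have e1 := int_deriv_key2 D.m h.m_x (h.m_w.comp h.m_x) hr hrR
    (h.integrable ((h.m_w.comp h.m_x).indicator
      (measurableSet_lt h.m_x.norm measurable_const)).aestronglyMeasurable (3 / 2)
      fun a _ ha => by
        rw [indicator_of_mem (show a ∈ {b | ‖D.x b‖ < R} from mem_ball_zero_iff.1 ha),
          Function.comp_apply, Real.norm_of_nonneg (by linarith [(hw _ ha).1])]
        exact (hw _ ha).2)
  have hball : {b : E d | ‖id b‖ < R} = ball 0 R := by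
    ext b
    simp
  have e2 := int_deriv_key2 (volume : Measure (E d)) measurable_id h.m_w hr hrR (by
    rw [hball, integrable_indicator_iff measurableSet_ball]
    refine Measure.integrableOn_of_bounded measure_ball_lt_top.ne h.m_w.aestronglyMeasurable
      (M := 3 / 2) ?_
    filter_upwards [ae_restrict_mem measurableSet_ball] with u hu
    rw [Real.norm_of_nonneg (by linarith [(hw _ hu).1])]
    exact (hw _ hu).2)
  have r1 : ∫ a, 2 / r ^ 3 * om 0 r (D.x a) * ‖D.x a‖ ^ 2 * (D.w ∘ D.x) a ∂D.m =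
      (∫ a, 2 / r ^ 2 * ϖ (D.x a) * ‖D.x a‖ ^ 2 ∂D.m) / r := by
    rw [← MeasureTheory.integral_div]
    refine integral_congr_ae (Eventually.of_forall fun a => ?_)
    simp only [hϖ, Function.comp_apply]
    field_simp
  have r2 : ∫ u : E d, 2 / r ^ 3 * om 0 r (id u) * ‖id u‖ ^ 2 * D.w u =
      (∫ u : E d, 2 / r ^ 2 * ϖ u * ‖u‖ ^ 2) / r := by
    rw [← MeasureTheory.integral_div]
    refine integral_congr_ae (Eventually.of_forall fun a => ?_)
    simp only [hϖ, id]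
    field_simp
  have pl : ∫ u : E d, 2 / r ^ 2 * ϖ u * ‖u‖ ^ 2 = d * (∫ u, φ u) + ∫ u, f u := by
    obtain ⟨i1, z1⟩ := integral_tr_zero w1 (supp_key2 fun u hu => wz u hu.le)
    have k1 : ∀ u : E d, 2 / r ^ 2 * ϖ u * ‖u‖ ^ 2 = d * φ u + f u - trH (fderiv ℝ W u) :=
      fun u => by simp only [hf]; ring
    simp only [k1]
    have i2 : Integrable fun u => d * φ u + f u := (pi.const_mul _).add fi
    rw [integral_sub i2 i1, integral_add (pi.const_mul _) fi, z1, integral_const_mul, sub_zero]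
  have z0 := h.hor_field w1.contDiffOn hrR fun u hu => wz u (by rwa [sub_zero] at hu)
  simp only [trS_eq] at z0
  obtain ⟨it, -, iy, ien, -⟩ := h.integrable_t
  have i0 : Integrable (fun a => trH (fderiv ℝ W (D.x a)) -
      trH ((fderiv ℝ W (D.x a)).comp (D.τ a)) + ⟪D.eh a, W (D.x a)⟫) D.m :=
    h.integrable_cont (fun p => trH (fderiv ℝ W p.1.1) - trH ((fderiv ℝ W p.1.1).comp p.2.1) +
      ⟪p.2.2.2.1, W p.1.1⟫) (by fun_prop)
  have i2 : Integrable (fun a => φ (D.x a) * D.t a) D.m := bd_key2 h.m_x pc p2 it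
  have i3 : Integrable (fun a => 2 / r ^ 2 * ϖ (D.x a) * ‖D.x a‖ ^ 2) D.m :=
    h.integrable_cont (fun p => 2 / r ^ 2 * ϖ p.1.1 * ‖p.1.1‖ ^ 2) (by fun_prop)
  have i4 : Integrable (fun a => φ (D.x a)) D.m :=
    h.integrable_cont (fun p => φ p.1.1) (by fun_prop)
  have i5 := bd_key2 h.m_x (LG.contDiff_om 0 r).continuous
    (supp_key2 fun u hu => (zero_key2 hr hu.le).2) (intR_key2 h hδ2)
  have i6 : Integrable (fun a => f (D.x a)) D.m :=
    h.integrable_cont (fun p => f p.1.1) (by fun_prop)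
  have i7 : Integrable (fun a => φ (D.x a) * ‖D.y a‖ ^ 2) D.m := bd_key2 h.m_x pc p2 iy
  have i8 := ien.indicator (h.meas_cyl 0 (r + 9 * ρ))
  have j1 := i6.add (i4.const_mul d)
  have j2 := j1.sub i2
  have j3 := j2.add (i5.const_mul (2 / r ^ 2))
  have j4 := j3.sub (i2.const_mul ((4 * d + 2) * r))
  have j5 := j4.sub (i7.const_mul r)
  have j6 := j5.sub (i8.const_mul (2 * ρ))
  have k0 := integral_mono_ae j6 (i3.add i0) (by
    filter_upwards [h.ae_met, hS.ht] with a ⟨pw, hx, _⟩ hy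
    have hWx : W (D.x a) = φ (D.x a) • D.glx (D.x a) := rfl
    simp only [Pi.add_apply, Pi.sub_apply, hD _ hx, hf, hWx, real_inner_smul_right]
    rcases le_or_gt r ‖D.x a‖ with hu | hu
    · have b0 : 0 ≤ 2 * ρ * (D.cyl 0 (r + 9 * ρ)).indicator D.en a := by
        refine mul_nonneg (by positivity) ?_
        by_cases hx : a ∈ D.cyl 0 (r + 9 * ρ)
        · rw [indicator_of_mem hx, CD.en]
          have := pw.t_nonneg
          positivity
        · rw [indicator_of_notMem hx]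
      simp only [hφ, hϖ, zero_key2 hr hu, zero_mul, mul_zero]
      linarith
    obtain ⟨b1, b2, b3, b4⟩ := err_key2 h hδ hS.lam_le pw hx hy hu
    have key := alg_key2 (c0 (D.x a)) (LG.om_nonneg 0 r (D.x a)) (LG.om_le 0 r (D.x a))
      (hw _ hx).1 pw.t_nonneg (sq_nonneg ‖D.y a‖) hr hρ0.le b1 b2 b3 b4
    rw [indicator_of_mem ((mem_cyl_base2 D _ _ a).2 (mem_ball_zero_iff.2 (by linarith))), CD.en]
    simp only [hφ, hϖ]
    linarith)
  rw [integral_add' i3 i0, z0, add_zero, integral_sub' j5 (i8.const_mul _),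
    integral_sub' j4 (i7.const_mul _), integral_sub' j3 (i2.const_mul _),
    integral_add' j2 (i5.const_mul _), integral_sub' j1 i2, integral_add' i6 (i4.const_mul _),
    integral_const_mul, integral_const_mul, integral_const_mul, integral_const_mul,
    integral_const_mul, integral_indicator (h.meas_cyl 0 _)] at k0
  obtain ⟨h0, d0, -, -, -, -, hY, -⟩ := hh_basic h hδ2 hr
  have n0 := (h.nonneg 0 (r + 9 * ρ)).2.2.2.1
  have s1 := (abs_le.1 (wt fc (by positivity) fb)).1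
  have s2 := wt pc (by norm_num) pb
  have hk : 0 < r ^ 2 / r ^ d := by positivity
  have hE : D.EE Q r = r ^ 2 / r ^ d * ((∫ a, φ (D.x a) ∂D.m) - Q * ∫ u, φ u) := rfl
  have hdr : D.dr r = r ^ 2 / r ^ d * ∫ a, φ (D.x a) * D.t a ∂D.m := rfl
  have hRR : D.RR r = r ^ 2 / r ^ d * (2 / r ^ 2 * ∫ a, om 0 r (D.x a) *
      (⟪D.T0 a (D.am (D.x a) (D.x a)), D.am (D.x a) (D.x a)⟫ / D.mu (D.x a)) ∂D.m) := by
    rw [CD.RR]
    field_simp
  have hY' : r ^ 2 / r ^ d * ∫ a, φ (D.x a) * ‖D.y a‖ ^ 2 ∂D.m ≤ r ^ 2 * D.hh r :=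
    (mul_le_mul_of_nonneg_left hY hk.le).trans_eq (by field_simp)
  have hEn : r ^ 2 / r ^ d * (ρ / r * D.En 0 (r + 9 * ρ)) =
      ρ * r * (D.En 0 (r + 9 * ρ) / r ^ d) := by field_simp
  have hn : 0 ≤ D.En 0 (r + 9 * ρ) / r ^ d := div_nonneg n0 (pow_pos hr d).le
  have hd : (0 : ℝ) ≤ d := Nat.cast_nonneg d
  refine ⟨⟨_, (pow_deriv_key2 d hr).mul (e1.sub (e2.const_mul (Q : ℝ))), ?_⟩, ?_⟩
  · have t1 := mul_le_mul_of_nonneg_left k0 hk.le
    have t2 := mul_le_mul_of_nonneg_left s1 hk.le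
    have t3 : r ^ 2 * D.hh r ≤ 4 * D.hh r := mul_le_mul_of_nonneg_right
      ((pow_le_pow_left₀ hr.le hr2 2).trans_eq (by norm_num)) h0
    have t4 := mul_le_mul_of_nonneg_left (hY'.trans t3) (show 0 ≤ (3 * d + 2) * r by positivity)
    have t5 : r ^ 2 / r ^ d * (2 * ρ * D.En 0 (r + 9 * ρ)) =
        2 * (ρ * r ^ 2 * (D.En 0 (r + 9 * ρ) / r ^ d)) := by field_simp
    have t6 : r * ((2 - d) * (r ^ 2 / r ^ d) / r * ((∫ a, φ (D.x a) ∂D.m) - Q * ∫ u, φ u) +
        r ^ 2 / r ^ d * ((∫ a, 2 / r ^ 2 * ϖ (D.x a) * ‖D.x a‖ ^ 2 ∂D.m) / r -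
          Q * ((d * (∫ u, φ u) + ∫ u, f u) / r))) =
        (2 - d) * (r ^ 2 / r ^ d * ((∫ a, φ (D.x a) ∂D.m) - Q * ∫ u, φ u)) +
        r ^ 2 / r ^ d * ((∫ a, 2 / r ^ 2 * ϖ (D.x a) * ‖D.x a‖ ^ 2 ∂D.m) -
          Q * (d * (∫ u, φ u) + ∫ u, f u)) := by field_simp
    have t7 := congrArg (fun z => (3 * d + 1) * r * K2 * z) hEn
    have u1 := mul_nonneg v1 (mul_nonneg hr.le d0)
    have u2 := mul_nonneg v2 (mul_nonneg hr.le h0)
    have u3 := mul_nonneg v3 (mul_nonneg (mul_nonneg hρ0.le (sq_nonneg r)) hn)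
    rw [r1, r2, pl]
    refine le_trans ?_ t6.ge
    rw [hdr] at u1
    rw [hE, hRR, hdr]
    simp only [CD.En] at t1 t2 t5 t7 u3 ⊢
    linarith
  · have t2 := mul_le_mul_of_nonneg_left s2 hk.le
    have u1 := mul_nonneg v4 d0
    have u2 := mul_nonneg v5 (mul_nonneg (sq_nonneg r) h0)
    have u3 := mul_nonneg v6 (mul_nonneg (mul_nonneg hρ0.le hr.le) hn)
    have t7 := congrArg (fun z => 2 * K2 * z) hEn
    rw [hE, abs_mul, abs_of_pos hk]
    rw [hdr] at u1 ⊢
    linarith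

end Pool.Agent.Lib.MP_8daebb_an.GM
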