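import Pool.Agent.Lib.MP_8daebb_an.GM.Df3
import Pool.Agent.Lib.MP_8daebb_an.GM.Key1
import Pool.Agent.Lib.MP_8daebb_an.GM.Key2
import Pool.Agent.Lib.MP_8daebb_an.GM.Cacc
import Pool.Agent.Lib.MP_8daebb_an.GM.HB

/-! The first variation identities at the level `L`. -/

set_option linter.unusedSectionVars false
set_option linter.unusedVariables false

open MeasureTheory Metric Filter Topology Set
open scoped RealInnerProductSpace ENNReal ContDiff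

namespace Pool.Agent.Lib.MP_8daebb_an.GM

open LG (vb chi om trS)
open SV (ux)

variable {d : ℕ} {α : Type*} [MeasurableSpace α] {H : Type*} [NormedAddCommGroup H]
  [InnerProductSpace ℝ H] [FiniteDimensional ℝ H] [MeasurableSpace H] [BorelSpace H]

theorem ux_const_frequ {L C a b : ℝ} (hL : 0 ≤ L) (hC : C ≤ L) (h : a + 1 ≤ b) :
    C * ux L b ≤ ux L a := by
  have h1 : ux L b ≤ ux L (a + 1) := ux_anti hL h
  have h2 : C ≤ Real.exp L := by have := Real.add_one_le_exp L; linarith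
  have h3 : Real.exp L * ux L (a + 1) = ux L a := by
    unfold ux
    rw [← Real.exp_add]
    congr 1
    ring
  calc C * ux L b ≤ Real.exp L * ux L b := mul_le_mul_of_nonneg_right h2 (ux_pos _ _).le
    _ ≤ Real.exp L * ux L (a + 1) := mul_le_mul_of_nonneg_left h1 (Real.exp_pos _).le
    _ = ux L a := h3

theorem J_le_frequ {D : CD d α H} {R δ M : ℝ} (h : CV D 0 R δ M) (hδ : δ ≤ 1 / 2)
    {ϱ K s t c : ℝ} (hϱ : 0 < ϱ) (hK : 1 ≤ K) (hs : 0 ≤ s) (hst : s + 1 / 4 ≤ t)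
    (hc : 1 + t ≤ c) :
    D.J 0 (ϱ * (1 + s / K)) ≤ 16 * c ^ 2 * c ^ d * K ^ 2 * ϱ ^ d * D.hh (ϱ * (1 + t / K)) := by
  have K0 : 0 < K := by linarith
  have t0 : 0 ≤ t := by linarith
  have c0 : 0 < c := by linarith
  have hr : 0 < ϱ * (1 + t / K) := by positivity
  have hσ : 0 < ϱ * (1 + s / K) := by positivity
  have hle : ϱ * (1 + s / K) ≤ ϱ * (1 + t / K) :=
    mul_le_mul_of_nonneg_left (by gcongr; linarith) hϱ.le
  obtain ⟨h0, -, -, -, -, -, -, h1⟩ := hh_basic h hδ hr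
  have h2 := (h1 _ hσ hle).1
  have hJ := (h.nonneg 0 (ϱ * (1 + s / K))).2.2.1
  have e1 : 1 - ϱ * (1 + s / K) / (ϱ * (1 + t / K)) = (t - s) / (K + t) := by
    field_simp
    ring
  have e2 : 1 / (4 * c * K) ≤ (t - s) / (K + t) := by
    rw [div_le_div_iff₀ (by positivity) (by positivity)]
    have a1 : K + t ≤ c * K := by nlinarith
    have a2 : 1 / 4 * (4 * c * K) ≤ (t - s) * (4 * c * K) :=
      mul_le_mul_of_nonneg_right (by linarith) (by positivity)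
    linarith
  have e3 : (ϱ * (1 + t / K)) ^ d ≤ c ^ d * ϱ ^ d := by
    rw [← mul_pow]
    refine pow_le_pow_left₀ hr.le ?_ d
    have : t / K ≤ t := div_le_self t0 hK
    nlinarith
  rw [e1] at h2
  have h3 : (1 / (4 * c * K)) ^ 2 * D.J 0 (ϱ * (1 + s / K)) ≤
      c ^ d * ϱ ^ d * D.hh (ϱ * (1 + t / K)) :=
    ((mul_le_mul_of_nonneg_right (pow_le_pow_left₀ (by positivity) e2 2) hJ).trans h2).trans
      (mul_le_mul_of_nonneg_right e3 h0)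
  calc D.J 0 (ϱ * (1 + s / K))
      = (4 * c * K) ^ 2 * ((1 / (4 * c * K)) ^ 2 * D.J 0 (ϱ * (1 + s / K))) := by field_simp
    _ ≤ (4 * c * K) ^ 2 * (c ^ d * ϱ ^ d * D.hh (ϱ * (1 + t / K))) :=
        mul_le_mul_of_nonneg_left h3 (by positivity)
    _ = _ := by ring

theorem pow_le_two_frequ {K : ℝ} (hK : 1 ≤ K) (h : 2 * d ≤ K) : (1 + 1 / K) ^ d ≤ 2 := by
  have K0 : 0 < K := by linarith
  have h1 : 1 + 1 / K ≤ Real.exp (1 / K) := by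
    have := Real.add_one_le_exp (1 / K)
    linarith
  have h2 : (d : ℝ) * (1 / K) ≤ 1 / 2 := by
    rw [mul_one_div, div_le_div_iff₀ K0 (by norm_num)]
    linarith
  have h3 : Real.exp (1 / 2) ≤ 2 := by
    have e : Real.exp (1 / 2) ^ 2 = Real.exp 1 := by
      rw [← Real.exp_nat_mul]
      norm_num
    have := Real.exp_one_lt_d9
    nlinarith [Real.exp_pos (1 / 2)]
  calc (1 + 1 / K) ^ d ≤ Real.exp (1 / K) ^ d := pow_le_pow_left₀ (by positivity) h1 d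
    _ = Real.exp (d * (1 / K)) := (Real.exp_nat_mul _ _).symm
    _ ≤ Real.exp (1 / 2) := Real.exp_le_exp.2 h2
    _ ≤ 2 := h3

theorem En_le_frequ {D : CD d α H} {R δ M : ℝ} (h : CV D 0 R δ M) (s : ℝ) :
    D.En 0 s ≤ ∫ a, D.en a ∂D.m := by
  obtain ⟨-, -, -, i4, -, -, -⟩ := h.integrable_t
  exact setIntegral_le_integral i4
    (h.ae_pw.mono fun a ha => add_nonneg ha.t_nonneg (sq_nonneg _))

theorem hh_K (d : ℕ) : ∃ C : ℝ, 1 ≤ C ∧ ∀ (D : CD d α H) (R δ M K ϱ : ℝ), CV D 0 R δ M →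
    δ ≤ 1 / 10 → 1 ≤ K → 0 < ϱ →
    (ϱ * (1 + 1 / K) ≤ R → D.dr ϱ ≤ C * K ^ 4 * D.hh (ϱ * (1 + 1 / K)) ∧
      D.J 0 (ϱ * (1 + 3 / (4 * K))) ≤ C * K ^ 2 * ϱ ^ d * D.hh (ϱ * (1 + 1 / K))) ∧
    (ϱ * (1 + 2 / K) ≤ R → ϱ ≤ 1 →
      D.En 0 (ϱ * (1 + 3 / (2 * K))) ≤ C * K ^ 4 * D.hh (ϱ * (1 + 2 / K)) / ϱ) ∧
    (2 * d ≤ K → ∀ ϱ', ϱ ≤ ϱ' → ϱ' ≤ ϱ * (1 + 1 / K) → D.hh ϱ ≤ 2 * D.hh ϱ') := by
  obtain ⟨C, hC, cc⟩ := cacc (α := α) (H := H) d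
  have p3 : (1 : ℝ) ≤ 3 ^ d := one_le_pow₀ (by norm_num)
  refine ⟨2304 * (C + 1) * 3 ^ d, by nlinarith, fun D R δ M K ϱ h hδ hK hϱ => ?_⟩
  have hδ2 : δ ≤ 1 / 2 := by linarith
  have K0 : 0 < K := by linarith
  have pd : 0 < ϱ ^ d := pow_pos hϱ d
  refine ⟨fun hR => ?_, fun hR h1 => ?_, fun hd ϱ' h1 h2 => ?_⟩
  · have hJ := J_le_frequ h hδ2 hϱ hK (s := 3 / 4) (t := 1) (c := 3) (by norm_num) (by norm_num)
      (by norm_num)
    rw [show (3 / 4 : ℝ) / K = 3 / (4 * K) by rw [div_div]] at hJ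
    have h0 : 0 ≤ D.hh (ϱ * (1 + 1 / K)) := (hh_basic h hδ2 (by positivity)).1
    obtain ⟨X, hX⟩ : ∃ X, X = 3 ^ d * D.hh (ϱ * (1 + 1 / K)) := ⟨_, rfl⟩
    have X0 : 0 ≤ X := by rw [hX]; positivity
    have hJ' : D.J 0 (ϱ * (1 + 3 / (4 * K))) ≤ 144 * (K ^ 2 * ϱ ^ d * X) := by
      rw [hX]
      exact hJ.trans_eq (by ring)
    constructor
    · have a1 := (hh_basic h hδ2 hϱ).2.2.2.2.1
      obtain ⟨-, -, b1, -, b2, -⟩ := h.nonneg 0 ϱ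
      have a2 := cc D 0 R δ M h hδ 0 ϱ (ϱ * (3 / (4 * K))) hϱ.le (by positivity) (by
        have : 3 / (4 * K) ≤ 1 / K := by
          rw [div_le_div_iff₀ (by positivity) K0]
          linarith
        have := mul_le_mul_of_nonneg_left this hϱ.le
        rw [sub_self, norm_zero]
        linarith)
      rw [show ϱ + ϱ * (3 / (4 * K)) = ϱ * (1 + 3 / (4 * K)) by ring] at a2
      have a3 : ϱ ^ d * D.dr ϱ ≤ ϱ ^ d * (512 * C * (K ^ 4 * X)) :=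
        calc ϱ ^ d * D.dr ϱ ≤ 2 * ϱ ^ 2 * D.En 0 ϱ :=
              a1.trans (mul_le_mul_of_nonneg_left (by linarith) (by positivity))
          _ ≤ 2 * ϱ ^ 2 * (C / (ϱ * (3 / (4 * K))) ^ 2 * (144 * (K ^ 2 * ϱ ^ d * X))) :=
              mul_le_mul_of_nonneg_left (a2.trans
                (mul_le_mul_of_nonneg_left hJ' (by positivity))) (by positivity)
          _ = _ := by field_simp; ring
      have a4 := le_of_mul_le_mul_left a3 pd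
      have a5 : 0 ≤ K ^ 4 * X := by positivity
      calc D.dr ϱ ≤ 2304 * (C + 1) * (K ^ 4 * X) :=
            a4.trans (mul_le_mul_of_nonneg_right (by linarith) a5)
        _ = _ := by rw [hX]; ring
    · have a5 : 0 ≤ K ^ 2 * ϱ ^ d * X := by positivity
      calc D.J 0 (ϱ * (1 + 3 / (4 * K))) ≤ 2304 * (C + 1) * (K ^ 2 * ϱ ^ d * X) :=
            hJ'.trans (mul_le_mul_of_nonneg_right (by linarith) a5)
        _ = _ := by rw [hX]; ring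
  · have hJ := J_le_frequ h hδ2 hϱ hK (s := 7 / 4) (t := 2) (c := 3) (by norm_num) (by norm_num)
      (by norm_num)
    have h0 : 0 ≤ D.hh (ϱ * (1 + 2 / K)) := (hh_basic h hδ2 (by positivity)).1
    obtain ⟨X, hX⟩ : ∃ X, X = 3 ^ d * D.hh (ϱ * (1 + 2 / K)) := ⟨_, rfl⟩
    have X0 : 0 ≤ X := by rw [hX]; positivity
    have hJ' : D.J 0 (ϱ * (1 + 7 / 4 / K)) ≤ 144 * (K ^ 2 * ϱ ^ d * X) := by
      rw [hX]
      exact hJ.trans_eq (by ring)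
    have e1 : ϱ * (1 + 3 / (2 * K)) + ϱ / (4 * K) = ϱ * (1 + 7 / 4 / K) := by
      field_simp
      ring
    have a2 := cc D 0 R δ M h hδ 0 (ϱ * (1 + 3 / (2 * K))) (ϱ / (4 * K)) (by positivity)
      (by positivity) (by
        have : 7 / 4 / K ≤ 2 / K := by gcongr; norm_num
        have := mul_le_mul_of_nonneg_left this hϱ.le
        rw [sub_self, norm_zero, zero_add, e1]
        linarith)
    rw [e1] at a2
    have a3 : ϱ ^ d ≤ ϱ := pow_le_of_le_one hϱ.le h1 (by have := h.d_pos; omega)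
    calc D.En 0 (ϱ * (1 + 3 / (2 * K)))
        ≤ C / (ϱ / (4 * K)) ^ 2 * (144 * (K ^ 2 * ϱ * X)) :=
          a2.trans (mul_le_mul_of_nonneg_left (hJ'.trans (by gcongr)) (by positivity))
      _ = 2304 * C * (K ^ 4 * X / ϱ) := by field_simp; ring
      _ ≤ 2304 * (C + 1) * (K ^ 4 * X / ϱ) :=
          mul_le_mul_of_nonneg_right (by linarith) (by positivity)
      _ = _ := by rw [hX]; ring
  · have hp : 0 < ϱ' := hϱ.trans_le h1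
    obtain ⟨h0, -, -, -, -, a1, -⟩ := hh_basic h hδ2 hp
    have a2 : ϱ' ^ d ≤ ϱ ^ d * 2 :=
      (pow_le_pow_left₀ hp.le h2 d).trans (by
        rw [mul_pow]
        exact mul_le_mul_of_nonneg_left (pow_le_two_frequ hK hd) pd.le)
    have a3 : ϱ ^ d * D.hh ϱ ≤ ϱ ^ d * (2 * D.hh ϱ') :=
      (a1 ϱ hϱ h1).trans ((mul_le_mul_of_nonneg_right a2 h0).trans_eq (by ring))
    exact le_of_mul_le_mul_left a3 pd

theorem freq_u (d : ℕ) (M : ℝ) {CI : ℝ} (hCI : 0 ≤ CI) (Q : ℕ) : ∃ C : ℝ, 0 < C ∧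
    ∀ (KN : ℕ) (A b g : ℝ), Par d KN A b g → ∃ L₀ : ℝ,
    ∀ (D : CD d α H) (R δ L ϱ : ℝ) (N : E d → ℕ), δ ≤ 1 / 10 → L₀ ≤ L →
    Lev D R δ M CI Q N A L → ux L 2 ≤ ϱ → ϱ ≤ 1 → ϱ + ux L 2 ≤ R →
    IdAt D.hh (D.EE Q) D.dr (ux L (A + 3)) C ϱ ∧ D.hh ϱ ≤ ux L (A - 2 * d - 5) := by
  obtain ⟨C₁, hC₁, k1⟩ := key_one (α := α) (H := H) d
  obtain ⟨C₂, hC₂, k2⟩ := key_two (α := α) (H := H) d hCI Q
  refine ⟨C₁ + C₂, by positivity, fun KN A b g hP => ⟨C₁ + C₂ + 17, ?_⟩⟩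
  intro D R δ L ϱ N hδ hL hl h1 h2 h3
  have hA := hP.A_d
  have d0 : (0 : ℝ) ≤ d := Nat.cast_nonneg d
  have d2 : (0 : ℝ) ≤ (d : ℝ) ^ 2 := sq_nonneg _
  have L0 : 0 ≤ L := by linarith
  have hδ2 : δ ≤ 1 / 2 := by linarith
  have h := hl.ms.cv
  have u2 := ux_pos L 2
  have hϱ : 0 < ϱ := u2.trans_le h1
  have pd : 0 < ϱ ^ d := pow_pos hϱ d
  obtain ⟨lam, hlam⟩ : ∃ lam, lam = ux L (A / 2 - d - 2) := ⟨_, rfl⟩
  obtain ⟨ρ, hρ⟩ : ∃ ρ, ρ = ux L (A / 2 - 2 * d - 5) := ⟨_, rfl⟩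
  obtain ⟨X, hX⟩ : ∃ X, X = ux L (A - 2 - 2 * d) := ⟨_, rfl⟩
  obtain ⟨e, he⟩ : ∃ e, e = ux L (A + 3) := ⟨_, rfl⟩
  have hms := hl.ms
  rw [← hlam, ← hρ] at hms
  have lam0 : 0 < lam := hms.lam_pos
  have lamρ : lam ≤ ρ := by linarith [hms.lam_le]
  have ρ0 : 0 < ρ := by linarith
  have e0 : 0 < e := he ▸ ux_pos _ _
  have ρ17 : 17 * ρ ≤ ux L 2 := hρ ▸ ux_const_frequ L0 (by linarith) (by linarith)
  have hE : ∀ s, 0 ≤ D.En 0 s / ϱ ^ d ∧ D.En 0 s / ϱ ^ d ≤ X := by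
    intro s
    refine ⟨div_nonneg (h.nonneg 0 s).2.2.2.1 pd.le, ?_⟩
    rw [div_le_iff₀ pd]
    calc D.En 0 s ≤ ux L (A - 2) := (En_le_frequ h s).trans hl.en_le
      _ = X * ux L 2 ^ d := by
          rw [hX, ux_pow, ← ux_add]
          congr 1
          ring
      _ ≤ X * ϱ ^ d := mul_le_mul_of_nonneg_left (pow_le_pow_left₀ u2.le h1 d)
          (hX ▸ (ux_pos _ _).le)
  have hM : ∀ c t s : ℝ, 0 ≤ c → c ≤ C₁ + C₂ → 0 ≤ t → t ≤ ρ →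
      c * t * (D.En 0 s / ϱ ^ d) ≤ e := by
    intro c t s c0 c1 t0 t1
    have : c * (ρ * X) ≤ e := by
      rw [hρ, hX, he, ← ux_add]
      exact ux_const_frequ L0 (by linarith) (by linarith)
    calc c * t * (D.En 0 s / ϱ ^ d) = c * (t * (D.En 0 s / ϱ ^ d)) := by ring
      _ ≤ c * (ρ * X) :=
          mul_le_mul_of_nonneg_left (mul_le_mul t1 (hE s).2 (hE s).1 ρ0.le) c0
      _ ≤ e := this
  obtain ⟨h', d1, a1, a2, a3⟩ := k1 D R δ M lam ϱ h hδ hms.ht lam0.le hϱ (by linarith)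
  obtain ⟨⟨E', d3, a4⟩, a5⟩ := k2 D R δ M lam ρ ϱ N hms hδ (by linarith) (by linarith)
  obtain ⟨h0, r0, R0, j0, -⟩ := hh_basic h hδ2 hϱ
  have ϱ2 : ϱ ^ 2 ≤ ϱ := pow_le_of_le_one hϱ.le h2 two_ne_zero
  have ϱ3 : ϱ ^ 2 ≤ 1 := ϱ2.trans h2
  have lam1 : lam ≤ 1 := by linarith
  have s1 : C₁ ≤ C₁ + C₂ := by linarith
  have s2 : C₂ ≤ C₁ + C₂ := by linarith
  have b1 := hM C₁ (lam ^ 2) ϱ hC₁.le s1 (sq_nonneg _)
    ((pow_le_of_le_one lam0.le lam1 two_ne_zero).trans lamρ)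
  have b2 := hM C₁ (lam * ϱ) ϱ hC₁.le s1 (mul_pos lam0 hϱ).le
    ((mul_le_of_le_one_right lam0.le h2).trans lamρ)
  have b3 := hM C₁ (lam * ϱ ^ 2) ϱ hC₁.le s1 (mul_nonneg lam0.le (sq_nonneg _))
    ((mul_le_of_le_one_right lam0.le ϱ3).trans lamρ)
  have b4 := hM C₂ (ρ * ϱ ^ 2) (ϱ + 9 * ρ) hC₂.le s2 (mul_nonneg ρ0.le (sq_nonneg _))
    (mul_le_of_le_one_right ρ0.le ϱ3)
  have b5 := hM C₂ (ρ * ϱ) (ϱ + 9 * ρ) hC₂.le s2 (mul_pos ρ0 hϱ).le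
    (mul_le_of_le_one_right ρ0.le h2)
  rw [← mul_assoc] at b2 b3 b4 b5
  have c1 : 0 ≤ C₂ * (ϱ * D.hh ϱ) := by positivity
  have c2 : C₁ * (ϱ ^ 2 * D.hh ϱ) ≤ C₁ * (ϱ * D.hh ϱ) := by gcongr
  have c3 : 0 ≤ C₁ * (ϱ * (D.dr ϱ + D.hh ϱ)) := by positivity
  have c4 : 0 ≤ C₁ * (D.dr ϱ + D.hh ϱ) := by positivity
  have c5 : C₂ * (ϱ ^ 2 * D.hh ϱ) ≤ C₂ * D.hh ϱ :=
    mul_le_mul_of_nonneg_left (mul_le_of_le_one_left h0 (by linarith)) hC₂.le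
  rw [← he]
  refine ⟨⟨h0, r0, h', E', D.UU ϱ, D.RR ϱ, d1, d3, a1.trans (by linarith), a2.trans (by linarith),
    by linarith, by linarith, a3.trans (mul_le_mul_of_nonneg_left (by linarith) (by positivity)),
    by linarith [(abs_le.1 a5).1]⟩, ?_⟩
  obtain ⟨-, b6, -, -, b7, -⟩ := h.nonneg 0 ϱ
  have b8 := (hE ϱ).2
  rw [div_le_iff₀ pd] at b8
  have b9 : ϱ ^ d * D.hh ϱ ≤ ϱ ^ d * (5 * X) := by linarith
  refine (le_of_mul_le_mul_left b9 pd).trans ?_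
  rw [hX]
  exact ux_const_frequ L0 (by linarith) (by linarith)

end Pool.Agent.Lib.MP_8daebb_an.GM
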