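import Pool.Agent.Lib.MP_8daebb_an.GM.MetF

/-! The radial field of Garofalo and Lin. -/

set_option linter.unusedSectionVars false
set_option linter.unusedVariables false

open MeasureTheory Metric Filter Topology Set
open scoped RealInnerProductSpace ENNReal ContDiff

namespace Pool.Agent.Lib.MP_8daebb_an.GM

open LG (vb chi om trS)

variable {d : ℕ} {α : Type*} [MeasurableSpace α] {H : Type*} [NormedAddCommGroup H]
  [InnerProductSpace ℝ H] [FiniteDimensional ℝ H] [MeasurableSpace H] [BorelSpace H]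

/-- The field `am x x`. -/
noncomputable def CD.Wf (D : CD d α H) (u : E d) : E d := D.am u u

/-- The field `am u u / mu u`. -/
noncomputable def CD.glx (D : CD d α H) (u : E d) : E d := (D.mu u)⁻¹ • D.am u u

theorem CD.mu_mul_glx (D : CD d α H) (u : E d) : D.mu u * ‖u‖ ^ 2 = ⟪D.am u u, u⟫ := by
  rcases eq_or_ne u 0 with rfl | hu
  · simp
  · have h : ‖u‖ ^ 2 ≠ 0 := pow_ne_zero 2 (norm_ne_zero_iff.2 hu)
    rw [CD.mu, add_mul, div_mul_cancel₀ _ h, inner_sub_left, real_inner_self_eq_norm_sq]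
    ring

theorem CD.meas_mu_glx (D : CD d α H) (h : Measurable D.am) : Measurable D.mu := by
  have h1 : Measurable fun u => D.am u u :=
    (show Continuous fun p : (E d →L[ℝ] E d) × E d => p.1 p.2 by fun_prop).measurable.comp
      (h.prodMk measurable_id)
  unfold CD.mu
  exact measurable_const.add (((h1.sub measurable_id).inner measurable_id).div
    (measurable_id.norm.pow_const 2))

theorem mu_aux_glx (D : CD d α H) (u : E d) {k : ℝ} (hk : ‖D.am u - 1‖ ≤ k) :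
    |D.mu u - 1| ≤ k := by
  have k0 : 0 ≤ k := (norm_nonneg _).trans hk
  rw [CD.mu, add_sub_cancel_left, abs_div, abs_of_nonneg (sq_nonneg ‖u‖)]
  refine div_le_of_le_mul₀ (sq_nonneg _) k0 ((abs_real_inner_le_norm _ _).trans ?_)
  have h1 : ‖D.am u u - u‖ ≤ k * ‖u‖ :=
    ((D.am u - 1).le_opNorm u).trans (mul_le_mul_of_nonneg_right hk (norm_nonneg _))
  nlinarith [norm_nonneg u]

theorem Met.mu_le_glx {D : CD d α H} {c : E d} {R δ : ℝ} (h : Met D c R δ) {u : E d}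
    (hu : u ∈ ball c R) : |D.mu u - 1| ≤ δ * ‖u‖ ∧ |D.mu u - 1| ≤ δ :=
  ⟨mu_aux_glx D u (h.am_le u hu).1, mu_aux_glx D u (h.one u hu).2.2⟩

theorem Met.Wf_le {D : CD d α H} {c : E d} {R δ : ℝ} (h : Met D c R δ) (hδ : δ ≤ 1 / 2) {u : E d}
    (hu : u ∈ ball c R) : ‖D.am u u‖ ≤ 3 / 2 * ‖u‖ ∧ ‖D.am u u - u‖ ≤ δ * ‖u‖ ^ 2 := by
  have h1 : ‖D.am u u - u‖ ≤ δ * ‖u‖ :=
    ((D.am u - 1).le_opNorm u).trans (mul_le_mul_of_nonneg_right (h.one u hu).2.2 (norm_nonneg _))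
  have h2 : ‖D.am u u - u‖ ≤ δ * ‖u‖ * ‖u‖ :=
    ((D.am u - 1).le_opNorm u).trans (mul_le_mul_of_nonneg_right (h.am_le u hu).1 (norm_nonneg _))
  have h3 := norm_sub_norm_le (D.am u u) u
  have h4 := mul_le_mul_of_nonneg_right hδ (norm_nonneg u)
  exact ⟨by linarith, by nlinarith⟩

theorem Met.Wf_deriv {D : CD d α H} {c : E d} {R δ : ℝ} (h : Met D c R δ) {u : E d}
    (hu : u ∈ ball c R) : HasFDerivAt D.Wf (D.am u + (fderiv ℝ D.am u).flip u) u := by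
  have h1 : HasFDerivAt D.am (fderiv ℝ D.am u) u :=
    ((h.am_diff.contDiffAt (isOpen_ball.mem_nhds hu)).differentiableAt one_ne_zero).hasFDerivAt
  refine (h1.clm_apply (hasFDerivAt_id u)).congr_fderiv ?_
  ext1 v
  simp

theorem trS_add_glx (A B : E d →L[ℝ] E d) : trS (A + B) = trS A + trS B := by
  simp [trS, inner_add_left, Finset.sum_add_distrib]

theorem trS_le_glx (A : E d →L[ℝ] E d) : |trS A| ≤ d * ‖A‖ := by
  refine (Finset.abs_sum_le_sum_abs _ _).trans ?_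
  refine (Finset.sum_le_card_nsmul _ _ ‖A‖ fun b _ => ?_).trans (by simp)
  have h1 : ‖(LG.eb b : E d)‖ = 1 := by simp [LG.eb]
  refine (abs_real_inner_le_norm _ _).trans ?_
  have := A.le_opNorm (LG.eb b)
  rw [h1, mul_one] at *
  exact this

theorem trS_one_glx : trS (1 : E d →L[ℝ] E d) = d := by
  simp [trS, LG.eb]

theorem trS_near_glx (A : E d →L[ℝ] E d) : |trS A - d| ≤ d * ‖A - 1‖ := by
  have h := trS_add_glx (A - 1) 1
  rw [sub_add_cancel, trS_one_glx] at h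
  rw [h, add_sub_cancel_right]
  exact trS_le_glx _

theorem trS_comp_glx (A B : E d →L[ℝ] E d) : |trS (A.comp B) - trS B| ≤ d * (‖A - 1‖ * ‖B‖) := by
  have h := trS_add_glx ((A - 1).comp B) B
  have e : (A - 1).comp B + B = A.comp B := by
    ext1 v
    simp
  rw [e] at h
  rw [h, add_sub_cancel_right]
  exact (trS_le_glx _).trans (mul_le_mul_of_nonneg_left
    (ContinuousLinearMap.opNorm_comp_le _ _) (Nat.cast_nonneg _))

theorem Met.Wf_props {D : CD d α H} {c : E d} {R δ : ℝ} (h : Met D c R δ) :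
    ContDiffOn ℝ 1 D.Wf (ball c R) ∧ ∀ u ∈ ball c R, ‖fderiv ℝ D.Wf u - 1‖ ≤ 2 * δ * ‖u‖ ∧
      trS (fderiv ℝ D.Wf u) = trS (D.am u) := by
  refine ⟨h.am_diff.clm_apply contDiffOn_id, fun u hu => ?_⟩
  rw [(h.Wf_deriv hu).fderiv, trS_add_glx, trS_eq ((fderiv ℝ D.am u).flip u), h.div_am u hu,
    add_zero]
  refine ⟨?_, rfl⟩
  have h1 : ‖(fderiv ℝ D.am u).flip u‖ ≤ δ * ‖u‖ := by
    refine ((fderiv ℝ D.am u).flip.le_opNorm u).trans ?_
    rw [ContinuousLinearMap.opNorm_flip]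
    exact mul_le_mul_of_nonneg_right (h.am_le u hu).2 (norm_nonneg _)
  rw [add_sub_right_comm]
  linarith [norm_add_le (D.am u - 1) ((fderiv ℝ D.am u).flip u), (h.am_le u hu).1]

theorem Met.mu_deriv_glx {D : CD d α H} {c : E d} {R δ : ℝ} (h : Met D c R δ) {u : E d}
    (hu : u ∈ ball c R) (h0 : u ≠ 0) :
    ContDiffAt ℝ 1 D.mu u ∧ ‖fderiv ℝ D.mu u‖ ≤ 5 * δ := by
  have n0 : 0 < ‖u‖ := norm_pos_iff.2 h0
  have n2 : ‖u‖ ^ 2 ≠ 0 := by positivity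
  have hW : ContDiffAt ℝ 1 D.Wf u := h.Wf_props.1.contDiffAt (isOpen_ball.mem_nhds hu)
  have c1 : ContDiffAt ℝ 1 (fun v => ⟪D.Wf v - v, v⟫) u :=
    (hW.sub contDiffAt_id).inner ℝ contDiffAt_id
  have c2 : ContDiffAt ℝ 1 (fun v : E d => ‖v‖ ^ 2) u := (contDiff_norm_sq ℝ).contDiffAt
  refine ⟨contDiffAt_const.add (c1.div c2 n2), ?_⟩
  have d0 : HasFDerivAt (fun v => D.Wf v - v) (fderiv ℝ D.Wf u - 1) u :=
    (hW.differentiableAt one_ne_zero).hasFDerivAt.sub (hasFDerivAt_id u)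
  have d1 := d0.inner ℝ (hasFDerivAt_id u)
  have d2 := (hasStrictFDerivAt_norm_sq u).hasFDerivAt
  have d3 := (hasDerivAt_inv n2).comp_hasFDerivAt u d2
  have d4 := (d1.mul d3).const_add 1
  have e : D.mu = fun v => 1 + ((fun v => ⟪D.Wf v - v, id v⟫) *
      ((fun y : ℝ => y⁻¹) ∘ fun v : E d => ‖v‖ ^ 2)) v := by
    funext v
    simp [CD.mu, CD.Wf, div_eq_mul_inv]
  rw [e, d4.fderiv]
  have δ0 : 0 ≤ δ := (norm_nonneg _).trans (h.one u hu).2.2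
  refine ContinuousLinearMap.opNorm_le_bound _ (by positivity) fun v => ?_
  have b1 : ‖D.Wf u - u‖ ≤ δ * ‖u‖ * ‖u‖ :=
    ((D.am u - 1).le_opNorm u).trans (mul_le_mul_of_nonneg_right (h.am_le u hu).1 (norm_nonneg _))
  have b2 : ‖(fderiv ℝ D.Wf u - 1) v‖ ≤ 2 * δ * ‖u‖ * ‖v‖ :=
    (ContinuousLinearMap.le_opNorm _ v).trans
      (mul_le_mul_of_nonneg_right (h.Wf_props.2 u hu).1 (norm_nonneg _))
  have b3 : |⟪D.Wf u - u, u⟫| ≤ δ * ‖u‖ * ‖u‖ * ‖u‖ :=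
    (abs_real_inner_le_norm _ _).trans (mul_le_mul_of_nonneg_right b1 (norm_nonneg _))
  have b4 : |⟪D.Wf u - u, v⟫| ≤ δ * ‖u‖ * ‖u‖ * ‖v‖ :=
    (abs_real_inner_le_norm _ _).trans (mul_le_mul_of_nonneg_right b1 (norm_nonneg _))
  have b5 : |⟪(fderiv ℝ D.Wf u - 1) v, u⟫| ≤ 2 * δ * ‖u‖ * ‖v‖ * ‖u‖ :=
    (abs_real_inner_le_norm _ _).trans (mul_le_mul_of_nonneg_right b2 (norm_nonneg _))
  have b6 := abs_real_inner_le_norm u v
  simp only [add_apply, smul_apply, smul_eq_mul,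
    ContinuousLinearMap.comp_apply, ContinuousLinearMap.prod_apply, fderivInnerCLM_apply,
    ContinuousLinearMap.id_apply, id, Function.comp_apply, innerSL_apply_apply, two_smul,
    Real.norm_eq_abs]
  refine (abs_add_le _ _).trans ?_
  rw [abs_mul, abs_mul, abs_mul, abs_neg, abs_of_pos (by positivity : 0 < ((‖u‖ ^ 2) ^ 2)⁻¹),
    abs_of_pos (by positivity : 0 < (‖u‖ ^ 2)⁻¹)]
  have b7 : |⟪u, v⟫ + ⟪u, v⟫| ≤ 2 * (‖u‖ * ‖v‖) := (abs_add_le _ _).trans (by linarith)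
  calc _ ≤ δ * ‖u‖ * ‖u‖ * ‖u‖ * (((‖u‖ ^ 2) ^ 2)⁻¹ * (2 * (‖u‖ * ‖v‖))) +
        (‖u‖ ^ 2)⁻¹ * (δ * ‖u‖ * ‖u‖ * ‖v‖ + 2 * δ * ‖u‖ * ‖v‖ * ‖u‖) := by
        gcongr
        exact (abs_add_le _ _).trans (add_le_add b4 b5)
    _ = 5 * δ * ‖v‖ := by field_simp; ring

theorem c1_zero_glx {f : E d → E d} {c : E d} {R K : ℝ}
    (h1 : ∀ u ∈ ball c R, u ≠ 0 → ContDiffAt ℝ 1 f u)
    (h2 : ∀ u ∈ ball c R, ‖f u - u‖ ≤ K * ‖u‖ ^ 2)
    (h3 : ∀ u ∈ ball c R, u ≠ 0 → ‖fderiv ℝ f u - 1‖ ≤ K * ‖u‖) :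
    ContDiffOn ℝ 1 f (ball c R) ∧ ∀ u ∈ ball c R, ‖fderiv ℝ f u - 1‖ ≤ K * ‖u‖ := by
  have d0 : (0 : E d) ∈ ball c R → HasFDerivAt f (1 : E d →L[ℝ] E d) 0 := fun h0 => by
    have f0 : f 0 = 0 := by simpa using h2 0 h0
    rw [hasFDerivAt_iff_isLittleO_nhds_zero]
    refine Asymptotics.IsBigO.trans_isLittleO (g := fun u : E d => ‖u‖ ^ 2) ?_
      (Asymptotics.isLittleO_norm_pow_id one_lt_two)
    refine Asymptotics.IsBigO.of_bound K ?_
    filter_upwards [isOpen_ball.mem_nhds h0] with u hu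
    simpa [f0] using h2 u hu
  have h4 : ∀ u ∈ ball c R, ‖fderiv ℝ f u - 1‖ ≤ K * ‖u‖ := fun u hu => by
    rcases eq_or_ne u 0 with rfl | h0
    · simp [(d0 hu).fderiv]
    · exact h3 u hu h0
  refine ⟨?_, h4⟩
  rw [show (1 : WithTop ℕ∞) = 0 + 1 by simp, contDiffOn_succ_iff_fderiv_of_isOpen isOpen_ball]
  refine ⟨fun u hu => ?_, by simp, contDiffOn_zero.2 fun u hu => ?_⟩
  · rcases eq_or_ne u 0 with rfl | h0
    · exact (d0 hu).differentiableAt.differentiableWithinAt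
    · exact ((h1 u hu h0).differentiableAt one_ne_zero).differentiableWithinAt
  · refine ContinuousAt.continuousWithinAt ?_
    rcases eq_or_ne u 0 with rfl | h0
    · rw [ContinuousAt, (d0 hu).fderiv, tendsto_iff_norm_sub_tendsto_zero]
      refine squeeze_zero' (Eventually.of_forall fun _ => norm_nonneg _)
        (by filter_upwards [isOpen_ball.mem_nhds hu] with v hv using h4 v hv) ?_
      exact (show Continuous fun v : E d => K * ‖v‖ by fun_prop).tendsto' 0 0 (by simp)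
    · exact ((h1 u hu h0).fderiv_right (m := 0) (by simp)).continuousAt

theorem Met.mu_mem_glx {D : CD d α H} {c : E d} {R δ : ℝ} (h : Met D c R δ) (hδ : δ ≤ 1 / 2) {u : E d}
    (hu : u ∈ ball c R) : 1 / 2 ≤ D.mu u ∧ D.mu u ≤ 3 / 2 := by
  have := abs_le.1 (h.mu_le_glx hu).2
  constructor <;> linarith [this.1, this.2]

theorem Met.glx_props {D : CD d α H} {c : E d} {R δ : ℝ} (h : Met D c R δ) (hδ' : δ ≤ 1 / 10) :
    ContDiffOn ℝ 1 D.glx (ball c R) ∧ ∀ u ∈ ball c R, ‖fderiv ℝ D.glx u - 1‖ ≤ 20 * δ * ‖u‖ := by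
  have hδ : δ ≤ 1 / 2 := by linarith
  have inv : ∀ u ∈ ball c R, 0 < (D.mu u)⁻¹ ∧ (D.mu u)⁻¹ ≤ 5 / 4 ∧
      |(D.mu u)⁻¹ - 1| ≤ 5 / 4 * δ * ‖u‖ := by
    intro u hu
    have m1 := (abs_le.1 (h.mu_le_glx hu).2).1
    have m0 : 0 < D.mu u := by linarith
    have m2 : (D.mu u)⁻¹ ≤ 5 / 4 := by
      rw [inv_le_comm₀ m0 (by norm_num)]
      linarith
    refine ⟨inv_pos.2 m0, m2, ?_⟩
    rw [show (D.mu u)⁻¹ - 1 = (D.mu u)⁻¹ * -(D.mu u - 1) by field_simp; ring, abs_mul, abs_neg,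
      abs_of_pos (inv_pos.2 m0), mul_assoc]
    exact mul_le_mul m2 (h.mu_le_glx hu).1 (abs_nonneg _) (by norm_num)
  refine c1_zero_glx (fun u hu h0 => ?_) (fun u hu => ?_) fun u hu h0 => ?_
  · exact ((h.mu_deriv_glx hu h0).1.inv (inv_pos.1 (inv u hu).1).ne').smul
      (h.Wf_props.1.contDiffAt (isOpen_ball.mem_nhds hu))
  · obtain ⟨i0, i1, i2⟩ := inv u hu
    have δ0 : 0 ≤ δ := (norm_nonneg _).trans (h.one u hu).2.2
    rw [show D.glx u - u = (D.mu u)⁻¹ • (D.am u u - u) + ((D.mu u)⁻¹ - 1) • u by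
      rw [CD.glx, smul_sub, sub_smul, one_smul]; abel]
    refine (norm_add_le _ _).trans ?_
    rw [norm_smul, norm_smul, Real.norm_of_nonneg i0.le, Real.norm_eq_abs]
    have b1 := mul_le_mul i1 (h.Wf_le hδ hu).2 (norm_nonneg _) (by norm_num)
    have b2 := mul_le_mul_of_nonneg_right i2 (norm_nonneg u)
    have b3 : 0 ≤ δ * ‖u‖ ^ 2 := by positivity
    nlinarith
  · obtain ⟨i0, i1, i2⟩ := inv u hu
    obtain ⟨m1, m2⟩ := h.mu_deriv_glx hu h0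
    have δ0 : 0 ≤ δ := (norm_nonneg _).trans (h.one u hu).2.2
    have m0 : D.mu u ≠ 0 := (inv_pos.1 i0).ne'
    have d1 := (hasDerivAt_inv m0).comp_hasFDerivAt u (m1.differentiableAt one_ne_zero).hasFDerivAt
    have d2 : HasFDerivAt D.Wf (fderiv ℝ D.Wf u) u := (h.Wf_deriv hu).differentiableAt.hasFDerivAt
    have d3 : HasFDerivAt D.glx _ u := d1.smul d2
    rw [d3.fderiv]
    refine ContinuousLinearMap.opNorm_le_bound _ (by positivity) fun v => ?_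
    have e : (((fun y : ℝ => y⁻¹) ∘ D.mu) u • fderiv ℝ D.Wf u +
        (-(D.mu u ^ 2)⁻¹ • fderiv ℝ D.mu u).smulRight (D.am u u) - 1) v =
        (D.mu u)⁻¹ • (fderiv ℝ D.Wf u - 1) v + ((D.mu u)⁻¹ - 1) • v -
          ((D.mu u)⁻¹ ^ 2 * fderiv ℝ D.mu u v) • D.am u u := by
      simp only [add_apply, sub_apply, smul_apply, ContinuousLinearMap.smulRight_apply,
        Function.comp_apply, one_apply_eq_self, smul_eq_mul, inv_pow]
      module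
    rw [e]
    refine (norm_sub_le _ _).trans ?_
    refine (add_le_add_left (norm_add_le _ _) _).trans ?_
    rw [norm_smul, norm_smul, norm_smul, Real.norm_of_nonneg i0.le, Real.norm_eq_abs, norm_mul,
      Real.norm_of_nonneg (sq_nonneg _)]
    have b1 : ‖(fderiv ℝ D.Wf u - 1) v‖ ≤ 2 * δ * ‖u‖ * ‖v‖ :=
      (ContinuousLinearMap.le_opNorm _ v).trans
        (mul_le_mul_of_nonneg_right (h.Wf_props.2 u hu).1 (norm_nonneg _))
    have b2 : ‖fderiv ℝ D.mu u v‖ ≤ 5 * δ * ‖v‖ :=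
      (ContinuousLinearMap.le_opNorm _ v).trans (mul_le_mul_of_nonneg_right m2 (norm_nonneg _))
    calc _ ≤ 5 / 4 * (2 * δ * ‖u‖ * ‖v‖) + 5 / 4 * δ * ‖u‖ * ‖v‖ +
          (5 / 4) ^ 2 * (5 * δ * ‖v‖) * (3 / 2 * ‖u‖) := by
          gcongr
          exact (h.Wf_le hδ hu).1
      _ = 495 / 32 * (δ * ‖u‖ * ‖v‖) := by ring
      _ ≤ 20 * (δ * ‖u‖ * ‖v‖) := by gcongr; norm_num
      _ = 20 * δ * ‖u‖ * ‖v‖ := by ring

theorem Met.glx_basic {D : CD d α H} {c : E d} {R δ : ℝ} (h : Met D c R δ) (hδ : δ ≤ 1 / 2)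
    {u : E d} (hu : u ∈ ball c R) : ⟪u, D.glx u⟫ = ‖u‖ ^ 2 ∧ ‖D.glx u‖ ≤ 3 * ‖u‖ ∧
      ∀ v, ⟪D.gm u v, D.am u u⟫ = D.w u * ⟪v, u⟫ := by
  obtain ⟨m1, -⟩ := h.mu_mem_glx hδ hu
  have m0 : 0 < D.mu u := by linarith
  refine ⟨?_, ?_, fun v => ?_⟩
  · rw [CD.glx, inner_smul_right, real_inner_comm, ← D.mu_mul_glx, ← mul_assoc,
      inv_mul_cancel₀ m0.ne', one_mul]
  · rw [CD.glx, norm_smul, Real.norm_of_nonneg (inv_pos.2 m0).le]
    have m2 : (D.mu u)⁻¹ ≤ 2 := by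
      rw [inv_le_comm₀ m0 two_pos]
      linarith
    have := mul_le_mul m2 (h.Wf_le hδ hu).1 (norm_nonneg _) two_pos.le
    linarith
  · rw [h.gm_symm u hu, (h.am_gm u hu u).2, inner_smul_right]

theorem Met.glx {D : CD d α H} {R δ : ℝ} (h : Met D 0 R δ) (h0 : 0 ≤ δ) (hδ : δ ≤ 1 / 10)
    (hR : R ≤ 2) : ContDiffOn ℝ 1 D.glx (ball 0 R) ∧ ∀ u ∈ ball (0 : E d) R,
      ‖fderiv ℝ D.glx u - 1‖ ≤ 20 * δ * ‖u‖ ∧ ‖D.glx u‖ ≤ 2 * ‖u‖ ∧ ⟪u, D.glx u⟫ = ‖u‖ ^ 2 := by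
  refine ⟨(h.glx_props hδ).1, fun u hu => ⟨(h.glx_props hδ).2 u hu, ?_,
    (h.glx_basic (by linarith) hu).1⟩⟩
  have m1 := (abs_le.1 (h.mu_le_glx hu).2).1
  have m0 : 0 < D.mu u := by linarith
  have m2 : (D.mu u)⁻¹ ≤ 5 / 4 := by
    rw [inv_le_comm₀ m0 (by norm_num)]
    linarith
  rw [CD.glx, norm_smul, Real.norm_of_nonneg (inv_pos.2 m0).le]
  have := mul_le_mul m2 (h.Wf_le (by linarith) hu).1 (norm_nonneg _) (by norm_num)
  linarith [norm_nonneg u]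

end Pool.Agent.Lib.MP_8daebb_an.GM
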