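import Pool.Agent.Lib.MP_8daebb_an.GM.Glb
import Pool.Agent.Lib.MP_8daebb_an.GM.Df

/-! The coarse-grained functions of a chart varifold. -/

set_option linter.unusedSectionVars false
set_option linter.unusedVariables false

open MeasureTheory Metric Filter Topology Set
open scoped RealInnerProductSpace ENNReal ContDiff

namespace Pool.Agent.Lib.MP_8daebb_an.GM

open LG (vb chi om trS)

variable {d : ℕ} {α : Type*} [MeasurableSpace α] {H : Type*} [NormedAddCommGroup H]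
  [InnerProductSpace ℝ H] [FiniteDimensional ℝ H] [MeasurableSpace H] [BorelSpace H]

/-- The error function. -/
noncomputable def CD.eef {ι : Type*} [Fintype ι] (D : CD d α H) (e : ι → H) (ρ Δ ϖ Ce : ℝ)
    (u : E d) : ℝ :=
  Ce * (ϖ * D.av (16 * ρ) D.t u + (∑ i, D.two (e i) (16 * ρ) Δ u) / ϖ +
    D.av (16 * ρ) (fun a => ‖D.y a‖ ^ 2) u)

/-- The coarse-grained data. -/
noncomputable def CD.gd {ι : Type*} [Fintype ι] (D : CD d α H) (e : ι → H) (Q : ℕ)
    (ρ Δ ϖ Ce : ℝ) (U : ι → ℕ → E d → ℝ) : GD d ι where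
  ε := fun u => D.av ρ (fun _ => (1 : ℝ)) u - Q
  τ := D.av ρ D.τ
  T0 := D.av ρ D.T0
  t := D.av ρ D.t
  cc := D.av ρ fun a => ‖D.y a‖ ^ 2
  ee := D.eef e ρ Δ ϖ Ce
  U := U
  gm := D.gm

end Pool.Agent.Lib.MP_8daebb_an.GM
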