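import Pool.Agent.Lib.MP_8daebb_an.GM.TwoA
import Pool.Agent.Lib.MP_8daebb_an.GM.IBP
import Pool.Agent.Lib.MP_8daebb_an.GM.Clus

/-! The integral of the two-point functional. -/

set_option linter.unusedSectionVars false
set_option linter.unusedVariables false

open MeasureTheory Metric Filter Topology Set
open scoped RealInnerProductSpace ENNReal ContDiff

namespace Pool.Agent.Lib.MP_8daebb_an.GM

open LG (vb chi om trS)

variable {d : ℕ} {α : Type*} [MeasurableSpace α] {H : Type*} [NormedAddCommGroup H]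
  [InnerProductSpace ℝ H] [FiniteDimensional ℝ H] [MeasurableSpace H] [BorelSpace H]

/-- The part of the integrand of the two-point functional that does not depend on the centre. -/
noncomputable def F_twoB (D : CD d α H) (e : H) (Δ : ℝ) (w : α × α) : ℝ :=
  (1 + ((D.z e w.1 - D.z e w.2) / Δ) ^ 2)⁻¹ *
    (‖D.p e w.1 - D.p e w.2‖ ^ 2 + D.dd e w.1 + D.dd e w.2)

theorem F_bound_twoB {D : CD d α H} {δ Δ : ℝ} {e : H} (h0 : 0 ≤ δ) (hδ : δ ≤ 1 / 2)
    (he : ‖e‖ = 1) {a a' : α} (h : PW D δ a) (h' : PW D δ a') (g : ‖D.am (D.x a) - 1‖ ≤ δ)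
    (g' : ‖D.am (D.x a') - 1‖ ≤ δ) :
    0 ≤ F_twoB D e Δ (a, a') ∧ F_twoB D e Δ (a, a') ≤ 22 * D.en a + 22 * D.en a' ∧
      F_twoB D e Δ (a, a') ≤ 44 * (d + 1) := by
  obtain ⟨-, -, a3, -, a5, -, -, -, -, -, -, a10, a11, -⟩ := h.scal h0 hδ g he
  obtain ⟨-, -, b3, -, b5, -, -, -, -, -, -, b10, b11, -⟩ := h'.scal h0 hδ g' he
  have k1 : 0 ≤ (1 + ((D.z e a - D.z e a') / Δ) ^ 2)⁻¹ := by positivity
  have k2 : (1 + ((D.z e a - D.z e a') / Δ) ^ 2)⁻¹ ≤ 1 :=
    inv_le_one_of_one_le₀ (le_add_of_nonneg_right (sq_nonneg _))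
  have k3 : ‖D.p e a - D.p e a'‖ ^ 2 ≤ 16 * D.en a + 16 * D.en a' := by
    have k4 : ‖D.p e a - D.p e a'‖ ^ 2 ≤ (‖D.p e a‖ + ‖D.p e a'‖) ^ 2 :=
      pow_le_pow_left₀ (norm_nonneg _) (norm_sub_le _ _) 2
    nlinarith [sq_nonneg (‖D.p e a‖ - ‖D.p e a'‖)]
  have k5 : 0 ≤ ‖D.p e a - D.p e a'‖ ^ 2 + D.dd e a + D.dd e a' := by positivity
  have k6 : F_twoB D e Δ (a, a') ≤ 22 * D.en a + 22 * D.en a' :=
    (mul_le_of_le_one_left k5 k2).trans (by linarith)
  exact ⟨mul_nonneg k1 k5, k6, by linarith⟩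

theorem F_ae_twoB {D : CD d α H} {R δ M : ℝ} {e : H} (h : CV D 0 R δ M) (hδ : δ ≤ 1 / 2)
    (he : ‖e‖ = 1) (Δ : ℝ) : ∀ᵐ w ∂(D.m.prod D.m), 0 ≤ F_twoB D e Δ w ∧
      F_twoB D e Δ w ≤ 22 * D.en w.1 + 22 * D.en w.2 ∧ F_twoB D e Δ w ≤ 44 * (d + 1) := by
  have := h.fin
  filter_upwards [Measure.quasiMeasurePreserving_fst.ae h.ae_met,
    Measure.quasiMeasurePreserving_snd.ae h.ae_met] with w h1 h2
  exact F_bound_twoB h.δ_nonneg hδ he h1.1 h2.1 h1.2.2.2.2 h2.2.2.2.2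

theorem F_int_twoB {D : CD d α H} {R δ M : ℝ} {e : H} (h : CV D 0 R δ M) (hδ : δ ≤ 1 / 2)
    (he : ‖e‖ = 1) (Δ : ℝ) : Integrable (F_twoB D e Δ) (D.m.prod D.m) := by
  have := h.fin
  obtain ⟨m1, m2, m3, -⟩ := h.meas_e e
  have hm : Measurable (F_twoB D e Δ) := by
    unfold F_twoB
    refine Measurable.mul (Measurable.inv (measurable_const.add (Measurable.pow_const
      (((m1.comp measurable_fst).sub (m1.comp measurable_snd)).div_const Δ) 2))) ?_
    exact ((((m2.comp measurable_fst).sub (m2.comp measurable_snd)).norm.pow_const 2).add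
      (m3.comp measurable_fst)).add (m3.comp measurable_snd)
  refine Integrable.of_bound hm.aestronglyMeasurable (44 * (d + 1)) ?_
  filter_upwards [F_ae_twoB h hδ he Δ] with w hw
  rw [Real.norm_of_nonneg hw.1]
  exact hw.2.2

theorem two_eq_twoB {D : CD d α H} {R δ M : ℝ} {e : H} (h : CV D 0 R δ M) (hδ : δ ≤ 1 / 2)
    (he : ‖e‖ = 1) (ρ Δ : ℝ) :
    (Continuous fun u : E d => ∫ w, (kr ρ (u - D.x w.1) * kr ρ (u - D.x w.2)) * F_twoB D e Δ w
      ∂(D.m.prod D.m)) ∧ ∀ u : E d,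
    Integrable (fun w : α × α => (kr ρ (u - D.x w.1) * kr ρ (u - D.x w.2)) * F_twoB D e Δ w)
      (D.m.prod D.m) ∧ D.two e ρ Δ u =
      ∫ w, (kr ρ (u - D.x w.1) * kr ρ (u - D.x w.2)) * F_twoB D e Δ w ∂(D.m.prod D.m) := by
  have := h.fin
  have hY : Measurable fun w : α × α => (D.x w.1, D.x w.2) :=
    (h.m_x.comp measurable_fst).prodMk (h.m_x.comp measurable_snd)
  have hB : ∀ᵐ w ∂(D.m.prod D.m), ‖(D.x w.1, D.x w.2)‖ ≤ 2 := by
    filter_upwards [Measure.quasiMeasurePreserving_fst.ae h.x_le_av,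
      Measure.quasiMeasurePreserving_snd.ae h.x_le_av] with w h1 h2
    rw [Prod.norm_def]
    exact max_le h1 h2
  have hg : Continuous fun w : E d × E d => kr ρ w.1 * kr ρ w.2 :=
    ((kr_contDiff ρ).continuous.comp continuous_fst).mul
      ((kr_contDiff ρ).continuous.comp continuous_snd)
  have hF := F_int_twoB h hδ he Δ
  have hc := (SV.continuous_conv hY hB hF hg).comp (continuous_id.prodMk continuous_id)
  refine ⟨hc.congr fun u => ?_, fun u => ?_⟩
  · simp only [Function.comp, id, Prod.fst_sub, Prod.snd_sub, smul_eq_mul]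
  have hi := SV.integrable_conv hY hB hF hg (u, u)
  simp only [Prod.fst_sub, Prod.snd_sub, smul_eq_mul] at hi
  refine ⟨hi, ?_⟩
  rw [integral_prod _ hi]
  unfold CD.two F_twoB
  simp only [mul_assoc]

theorem kr_cmp_twoB {ρ : ℝ} (hρ : 0 < ρ) (z : E d) :
    kr ρ z ≤ Ck d * vb d * 16 ^ d * kr (16 * ρ) z := by
  have hv := LG.vb_pos d
  have hC := one_le_Ck d
  rcases le_or_gt ρ ‖z‖ with hz | hz
  · rw [(kr_zero hρ hz).1]
    exact mul_nonneg (by positivity) (kr_nonneg (by positivity) z)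
  · have h1 := kr_low (ρ := 16 * ρ) (by positivity) (u := z) (by linarith)
    have h2 : Ck d / ρ ^ d = Ck d * vb d * 16 ^ d * (1 / (vb d * (16 * ρ) ^ d)) := by
      rw [mul_pow]
      field_simp
    exact (kr_le hρ z).1.trans (h2.trans_le (mul_le_mul_of_nonneg_left h1 (by positivity)))

theorem two_cont {D : CD d α H} {R δ M ρ Δ : ℝ} {e : H} (h : CV D 0 R δ M) (hδ : δ ≤ 1 / 2)
    (hρ : 0 < ρ) (he : ‖e‖ = 1) : Continuous (D.two e ρ Δ) ∧ (∀ u, 0 ≤ D.two e ρ Δ u) ∧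
      ∀ u, D.two e ρ Δ u ≤ (Ck d * vb d * 16 ^ d) ^ 2 * D.two e (16 * ρ) Δ u := by
  obtain ⟨c1, c2⟩ := two_eq_twoB h hδ he ρ Δ
  obtain ⟨-, c3⟩ := two_eq_twoB h hδ he (16 * ρ) Δ
  have hF := F_ae_twoB h hδ he Δ
  refine ⟨c1.congr fun u => (c2 u).2.symm, fun u => ?_, fun u => ?_⟩
  · rw [(c2 u).2]
    exact integral_nonneg_of_ae (hF.mono fun w hw =>
      mul_nonneg (mul_nonneg (kr_nonneg hρ _) (kr_nonneg hρ _)) hw.1)
  · rw [(c2 u).2, (c3 u).2, ← integral_const_mul]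
    refine integral_mono_ae (c2 u).1 ((c3 u).1.const_mul _) (hF.mono fun w hw => ?_)
    have k1 := kr_cmp_twoB hρ (u - D.x w.1)
    have k2 := mul_le_mul k1 (kr_cmp_twoB hρ (u - D.x w.2)) (kr_nonneg hρ _)
      ((kr_nonneg hρ _).trans k1)
    refine (mul_le_mul_of_nonneg_right k2 hw.1).trans_eq ?_
    ring

theorem two_av_twoB {D : CD d α H} {R δ M ρ Δ : ℝ} {e : H} (h : CV D 0 R δ M) (hδ : δ ≤ 1 / 2)
    (hρ : 0 < ρ) (he : ‖e‖ = 1) (u : E d) :
    D.two e ρ Δ u ≤ 44 * (D.av ρ (fun _ => (1 : ℝ)) u * D.av ρ D.en u) := by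
  have := h.fin
  obtain ⟨c1, c2⟩ := (two_eq_twoB h hδ he ρ Δ).2 u
  have i1 := h.int_av hρ (integrable_const (1 : ℝ)) u
  have i2 := h.int_av hρ h.integrable_t.2.2.2.1 u
  have j1 := (i1.mul_prod i2).const_mul 22
  have j2 := (i2.mul_prod i1).const_mul 22
  have k := integral_mono_ae c1 (j1.add j2) ((F_ae_twoB h hδ he Δ).mono fun w hw => by
    refine (mul_le_mul_of_nonneg_left hw.2.1
      (mul_nonneg (kr_nonneg hρ _) (kr_nonneg hρ _))).trans_eq ?_
    simp only [Pi.add_apply, smul_eq_mul]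
    ring)
  simp only [Pi.add_apply] at k
  rw [integral_add j1 j2, integral_const_mul, integral_const_mul,
    integral_prod_mul (fun a => kr ρ (u - D.x a) • (1 : ℝ)) (fun a => kr ρ (u - D.x a) • D.en a),
    integral_prod_mul (fun a => kr ρ (u - D.x a) • D.en a) (fun a => kr ρ (u - D.x a) • (1 : ℝ)),
    ← c2] at k
  unfold CD.av
  linarith

theorem two_le (d : ℕ) (M : ℝ) : ∃ C : ℝ, 0 < C ∧ ∀ (D : CD d α H) (R δ lam ρ Δ : ℝ) (e : H),
    CV D 0 R δ M → δ ≤ 1 / 10 → Ht D lam → 0 < lam → 2 * lam ≤ ρ → ‖e‖ = 1 →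
    ∀ u : E d, ‖u‖ + 2 * ρ ≤ R → D.two e ρ Δ u ≤ C * (lam ^ 2 / ρ ^ 2) := by
  obtain ⟨C, hC, HC⟩ := av_le (α := α) (H := H) d M
  refine ⟨44 * C ^ 3, by positivity, fun D R δ lam ρ Δ e h hδ hs hl hρ he u hu => ?_⟩
  obtain ⟨-, -, a3, a4, a5, -, -, -, a9, -⟩ := HC D 0 R δ lam ρ u h hδ hs hl hρ
  have h0 : 0 ≤ C := by linarith
  have k1 := a5.trans (mul_le_mul_of_nonneg_left (a9 (by rwa [sub_zero])) h0)
  have k2 := mul_le_mul a3 k1 a4 h0
  have k3 := two_av_twoB (Δ := Δ) h (by linarith) (by linarith : 0 < ρ) he u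
  calc D.two e ρ Δ u ≤ 44 * (C * (C * (C * (lam ^ 2 / ρ ^ 2)))) := by linarith
    _ = _ := by ring

theorem cut_twoB {κ : E d → ℝ} {r l C : ℝ} (hκ : Cut κ 0 r (l / 2) C) (hl : 0 < l) :
    HasCompactSupport κ ∧ ∀ u, u ∉ ball (0 : E d) (r + l / 2) → fderiv ℝ κ u = 0 := by
  constructor
  · refine HasCompactSupport.intro (isCompact_closedBall (0 : E d) (r + l)) fun u hu =>
      hκ.zero u ?_
    rw [mem_closedBall_zero_iff, not_le] at hu
    rw [sub_zero]
    linarith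
  · intro u hu
    rw [mem_ball_zero_iff, not_lt] at hu
    have ho : IsOpen {v : E d | r + 3 * (l / 2) / 4 < ‖v‖} :=
      isOpen_lt continuous_const continuous_norm
    have hm : r + 3 * (l / 2) / 4 < ‖u‖ := by linarith
    have h2 : κ =ᶠ[𝓝 u] fun _ => 0 := by
      filter_upwards [ho.mem_nhds hm] with v hv
      exact hκ.zero v (by rw [sub_zero]; exact le_of_lt hv)
    rw [h2.fderiv_eq, fderiv_fun_const, Pi.zero_apply]

theorem two_int (d : ℕ) (M : ℝ) : ∃ C : ℝ, 0 < C ∧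
    ∀ (D : CD d α H) (R δ lam ρ Δ r l : ℝ) (e : H), CV D 0 R δ M → δ ≤ 1 / 10 → Ht D lam →
    0 < lam → 2 * lam ≤ ρ → ‖e‖ = 1 → 0 < Δ → 0 ≤ r → 8 * ρ ≤ l → r + l ≤ R →
    ∫ u in ball (0 : E d) r, D.two e ρ Δ u ≤
      C * ((ρ + Δ / ρ) * D.En 0 (r + l) + Δ / l * √((r + l) ^ d * D.En 0 (r + l))) := by
  obtain ⟨C, hC, HC⟩ := two_point (α := α) (H := H) d M
  obtain ⟨K, hK, HK⟩ := exists_cut
  obtain ⟨A, hA, HA⟩ := av_le (α := α) (H := H) d M
  have hv := LG.vb_pos d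
  refine ⟨C * (vb d * 2 ^ d + (8 * K + 2) * A), by positivity,
    fun D R δ lam ρ Δ r l e h hδ hs hlam hρ he hΔ hr hl hR => ?_⟩
  obtain ⟨Bf, b1, b2, b3⟩ := HC D R δ lam ρ Δ e h hδ hs hlam hρ he hΔ
  have h0 : 0 < ρ := by linarith
  have hl0 : 0 < l := by linarith
  obtain ⟨κ, hκ⟩ := HK d 0 r (l / 2) hr (by linarith)
  have hR2 := h.R_le
  obtain ⟨c1, c2⟩ := cut_twoB hκ hl0
  obtain ⟨t1, t2, -⟩ := two_cont (ρ := ρ) (Δ := Δ) h (by linarith) h0 he
  have hen := h.integrable_t.2.2.2.1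
  have hsq := h.integrable_t.2.2.2.2.1
  have pen : ∀ᵐ a ∂D.m, 0 ≤ D.en a := h.pw_av.mono fun a ha => ha.facts_av.1
  have h2ρ : 0 < 2 * ρ := by linarith
  have i1 := (h.integral_av_one h2ρ hen).1
  have i2 := (h.integral_av_one h0 hsq).1
  have n1 : ∀ u, 0 ≤ D.av (2 * ρ) D.en u := fun u =>
    integral_nonneg_of_ae (pen.mono fun a ha => smul_nonneg (kr_nonneg h2ρ _) ha)
  have n2 : ∀ u, 0 ≤ D.av ρ (fun a => √(D.en a)) u := fun u =>
    integral_nonneg fun a => smul_nonneg (kr_nonneg h0 _) (Real.sqrt_nonneg _)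
  set S : Set (E d) := ball 0 (r + l / 2) with hS
  have mS : MeasurableSet S := measurableSet_ball
  set En := D.En 0 (r + l) with hEn
  set Y := √((r + l) ^ d * En) with hY
  have hE0 : 0 ≤ En := (h.nonneg 0 (r + l)).2.2.2.1
  have hY0 : 0 ≤ Y := Real.sqrt_nonneg _
  have q1 : ∫ u in S, D.av (2 * ρ) D.en u ≤ En :=
    ((h.cyl_av h2ρ hen pen 0).1 _).trans (h.cyl_mono (u := 0) (v := 0) (r := r + l / 2 + 2 * ρ)
      (s := r + l) (by rw [sub_zero, norm_zero]; linarith)).2.2.2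
  have q2 : ∫ u in S, D.av ρ (fun a => √(D.en a)) u ≤ A * Y := by
    have psq : ∀ᵐ a ∂D.m, 0 ≤ √(D.en a) := Eventually.of_forall fun a => Real.sqrt_nonneg _
    have k1 := (h.cyl_av h0 hsq psq 0).1 (r + l / 2)
    have k2 : ∫ a in D.cyl 0 (r + l / 2 + ρ), √(D.en a) ∂D.m ≤
        ∫ a in D.cyl 0 (r + l), √(D.en a) ∂D.m :=
      setIntegral_mono_set hsq.integrableOn (ae_restrict_of_ae psq)
        (cyl_sub D (by rw [sub_zero, norm_zero]; linarith)).eventuallyLE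
    have k3 := (HA D 0 R δ lam (r + l) 0 h hδ hs hlam (by linarith)).2.2.2.2.2.2.2.1
    have hX : 0 < (r + l) ^ d := by positivity
    have k4 : (r + l) ^ d * √(En / (r + l) ^ d) = Y := by
      rw [hY, show (r + l) ^ d * En = ((r + l) ^ d) ^ 2 * (En / (r + l) ^ d) by field_simp,
        Real.sqrt_mul (sq_nonneg _), Real.sqrt_sq hX.le]
    rw [mul_assoc, k4] at k3
    exact k1.trans (k2.trans k3)
  have hκ1 : ContDiff ℝ 1 κ := hκ.smooth.of_le one_le_two
  have j1 : Integrable fun u => κ u * D.two e ρ Δ u :=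
    (hκ1.continuous.mul t1).integrable_of_hasCompactSupport c1.mul_right
  have ctr : Continuous fun u => trH (fderiv ℝ Bf u) :=
    (trH_lin (d := d) 0 0 0).2.2.2.2.2.comp (b1.continuous_fderiv one_ne_zero)
  have j2 : Integrable fun u => 4 * (κ u * trH (fderiv ℝ Bf u)) :=
    ((hκ1.continuous.mul ctr).integrable_of_hasCompactSupport c1.mul_right).const_mul _
  have s1 : ∫ u in ball (0 : E d) r, D.two e ρ Δ u ≤ ∫ u, κ u * D.two e ρ Δ u := by
    have k : ∫ u in ball (0 : E d) r, D.two e ρ Δ u =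
        ∫ u in ball (0 : E d) r, κ u * D.two e ρ Δ u := by
      refine setIntegral_congr_fun measurableSet_ball fun u hu => ?_
      rw [mem_ball_zero_iff] at hu
      simp only [hκ.one u (by rw [sub_zero]; linarith), one_mul]
    rw [k]
    exact setIntegral_le_integral j1
      (Eventually.of_forall fun u => mul_nonneg (hκ.mem u).1 (t2 u))
  set P : ℝ := C * (ρ + Δ / ρ) * (vb d * 2 ^ d) with hP
  have hP0 : 0 ≤ P := by positivity
  have j3 : Integrable fun u => P * S.indicator (D.av (2 * ρ) D.en) u :=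
    (i1.indicator mS).const_mul _
  have j5 := i2.indicator mS
  have j4 : Integrable fun u => C * Δ * S.indicator (D.av ρ fun a => √(D.en a)) u :=
    j5.const_mul _
  have j7 : Integrable fun u => 4 * (κ u * trH (fderiv ℝ Bf u)) +
      P * S.indicator (D.av (2 * ρ) D.en) u := j2.add j3
  have s2 : ∫ u, κ u * D.two e ρ Δ u ≤ ∫ u, (4 * (κ u * trH (fderiv ℝ Bf u)) +
      P * S.indicator (D.av (2 * ρ) D.en) u +
      C * Δ * S.indicator (D.av ρ fun a => √(D.en a)) u) := by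
    refine integral_mono j1 (j7.add j4) fun u => ?_
    obtain ⟨k0, k1⟩ := hκ.mem u
    show κ u * D.two e ρ Δ u ≤ _
    by_cases hu : r + 3 * (l / 2) / 4 ≤ ‖u‖
    · have p1 := mul_nonneg hP0 (indicator_nonneg (s := S) (fun v _ => n1 v) u)
      have p2 := mul_nonneg (mul_pos hC hΔ).le (indicator_nonneg (s := S) (fun v _ => n2 v) u)
      rw [hκ.zero u (by rwa [sub_zero])]
      linarith
    · have hu' := not_le.1 hu
      have huS : u ∈ S := mem_ball_zero_iff.2 (by linarith)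
      rw [indicator_of_mem huS, indicator_of_mem huS]
      have k2 := mul_le_mul_of_nonneg_left (b3 u (by linarith)) k0
      have k3 := (h.cyl_av h2ρ hen pen u).2.2.1
      rw [mul_div_cancel_left₀ ρ two_ne_zero] at k3
      have k4 : D.En u ρ / ρ ^ d ≤ vb d * 2 ^ d * D.av (2 * ρ) D.en u := by
        rw [div_le_iff₀ (by positivity)]
        refine k3.trans_eq ?_
        rw [mul_pow]
        ring
      have k5 : C * ((ρ + Δ / ρ) * (D.En u ρ / ρ ^ d) + Δ * D.av ρ (fun a => √(D.en a)) u) ≤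
          P * D.av (2 * ρ) D.en u + C * Δ * D.av ρ (fun a => √(D.en a)) u := by
        have := mul_le_mul_of_nonneg_left k4 (show 0 ≤ C * (ρ + Δ / ρ) by positivity)
        rw [hP]
        linarith
      have k6 := mul_le_mul_of_nonneg_left k5 k0
      have k7 := mul_le_of_le_one_left
        (add_nonneg (mul_nonneg hP0 (n1 u)) (mul_nonneg (mul_pos hC hΔ).le (n2 u))) k1
      linarith
  rw [integral_add j7 j4, integral_add j2 j3, integral_const_mul, integral_const_mul,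
    integral_const_mul, integral_indicator mS, integral_indicator mS,
    integral_div hκ1 c1 b1] at s2
  have hK0 : 0 ≤ K / (l / 2) * (C * Δ) := by positivity
  have s3 : -∫ u, fderiv ℝ κ u (Bf u) ≤ K / (l / 2) * (C * Δ) * (A * Y) := by
    have k : ‖∫ u, fderiv ℝ κ u (Bf u)‖ ≤
        ∫ u, K / (l / 2) * (C * Δ) * S.indicator (D.av ρ fun a => √(D.en a)) u := by
      refine norm_integral_le_of_norm_le (j5.const_mul _) (Eventually.of_forall fun u => ?_)
      by_cases hu : u ∈ S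
      · refine ((fderiv ℝ κ u).le_opNorm _).trans ?_
        rw [indicator_of_mem hu, mul_assoc]
        exact mul_le_mul (hκ.d1 u) (b2 u) (norm_nonneg _) (by positivity)
      · rw [c2 u hu, indicator_of_notMem hu]
        simp
    rw [integral_const_mul, integral_indicator mS, Real.norm_eq_abs] at k
    exact (neg_le_abs _).trans (k.trans (mul_le_mul_of_nonneg_left q2 hK0))
  have s4 := mul_le_mul_of_nonneg_left q1 hP0
  have s5 := mul_le_mul_of_nonneg_left q2 (mul_pos hC hΔ).le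
  set X : ℝ := Δ / l * Y with hX
  have hX0 : 0 ≤ X := by positivity
  have s7 : Δ * Y ≤ 2 * X := by
    have : Δ * Y = l * X := by rw [hX]; field_simp
    rw [this]
    exact mul_le_mul_of_nonneg_right (by linarith) hX0
  have s8 : K / (l / 2) * (C * Δ) * (A * Y) = C * (2 * K * A) * X := by rw [hX]; field_simp
  have s9 : C * A * (Δ * Y) ≤ C * A * (2 * X) := mul_le_mul_of_nonneg_left s7 (by positivity)
  set Z : ℝ := (ρ + Δ / ρ) * En with hZ
  have hZ0 : 0 ≤ Z := by positivity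
  have s10 : P * En = C * (vb d * 2 ^ d) * Z := by rw [hP, hZ]; ring
  have s11 : 0 ≤ C * (vb d * 2 ^ d) * X := by positivity
  have s12 : 0 ≤ C * ((8 * K + 2) * A) * Z := by positivity
  linarith

end Pool.Agent.Lib.MP_8daebb_an.GM
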