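import Pool.Agent.Lib.MP_8daebb_an.GM.GdOf
import Pool.Agent.Lib.MP_8daebb_an.GM.Av2
import Pool.Agent.Lib.MP_8daebb_an.GM.MetF
import Pool.Agent.Lib.MP_8daebb_an.GM.TwoB

/-! Soft properties of the coarse-grained data. -/

set_option linter.unusedSectionVars false
set_option linter.unusedVariables false

open MeasureTheory Metric Filter Topology Set
open scoped RealInnerProductSpace ENNReal ContDiff

namespace Pool.Agent.Lib.MP_8daebb_an.GM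

open LG (vb chi om trS)

variable {d : ℕ} {α : Type*} [MeasurableSpace α] {H : Type*} [NormedAddCommGroup H]
  [InnerProductSpace ℝ H] [FiniteDimensional ℝ H] [MeasurableSpace H] [BorelSpace H]

theorem CV.av_clm_glba {F F' : Type*} [NormedAddCommGroup F] [NormedSpace ℝ F] [CompleteSpace F]
    [NormedAddCommGroup F'] [NormedSpace ℝ F'] [CompleteSpace F'] {D : CD d α H} {c : E d}
    {R δ M ρ : ℝ} (h : CV D c R δ M) (hρ : 0 < ρ) {f : α → F} (hf : Integrable f D.m)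
    (ℓ : F →L[ℝ] F') (u : E d) : ℓ (D.av ρ f u) = D.av ρ (fun a => ℓ (f a)) u := by
  rw [CD.av, ← ℓ.integral_comp_comm (h.int_av hρ hf u)]
  simp only [map_smul, CD.av]

theorem av_congr_glba {F : Type*} [NormedAddCommGroup F] [NormedSpace ℝ F] {D : CD d α H} (ρ : ℝ)
    {f g : α → F} (h : ∀ᵐ a ∂D.m, f a = g a) (u : E d) : D.av ρ f u = D.av ρ g u :=
  integral_congr_ae (h.mono fun a ha => by simp only [ha])

theorem av_nonneg_glba {D : CD d α H} {ρ : ℝ} (hρ : 0 < ρ) {f : α → ℝ} (h : ∀ᵐ a ∂D.m, 0 ≤ f a)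
    (u : E d) : 0 ≤ D.av ρ f u :=
  integral_nonneg_of_ae (h.mono fun _ ha => smul_nonneg (kr_nonneg hρ _) ha)

theorem av_mul_glba (D : CD d α H) (ρ K : ℝ) (f : α → ℝ) (u : E d) :
    D.av ρ (fun a => K * f a) u = K * D.av ρ f u := by
  simp only [CD.av, smul_eq_mul, mul_left_comm _ K, integral_const_mul]

theorem CV.av_en_glba {D : CD d α H} {c : E d} {R δ M ρ : ℝ} (h : CV D c R δ M) (hρ : 0 < ρ)
    (u : E d) : D.av ρ D.t u + D.av ρ (fun a => ‖D.y a‖ ^ 2) u = D.av ρ D.en u ∧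
      0 ≤ D.av ρ D.t u ∧ 0 ≤ D.av ρ (fun a => ‖D.y a‖ ^ 2) u := by
  obtain ⟨i1, -, i2, -⟩ := h.integrable_t
  refine ⟨?_, av_nonneg_glba hρ (h.ae_pw.mono fun a ha => ha.t_nonneg) u,
    av_nonneg_glba hρ (Eventually.of_forall fun a => sq_nonneg _) u⟩
  rw [CD.av, CD.av, ← integral_add (h.int_av hρ i1 u) (h.int_av hρ i2 u)]
  simp only [CD.av, CD.en, smul_add]

theorem CV.int_τ_glba {D : CD d α H} {c : E d} {R δ M : ℝ} (h : CV D c R δ M) :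
    Integrable D.τ D.m ∧ Integrable D.T0 D.m :=
  ⟨h.integrable h.m_τ.aestronglyMeasurable (2 * d) fun a ha _ =>
    (h.pw a ha).τ_le.trans (by linarith [(h.pw a ha).t_le]),
  h.integrable h.m_T0.aestronglyMeasurable (2 * d) fun a ha _ =>
    (h.pw a ha).T0_le.trans (by linarith [(h.pw a ha).t_le])⟩

theorem CV.av_T0_glba {D : CD d α H} {c : E d} {R δ M ρ : ℝ} (h : CV D c R δ M) (hρ : 0 < ρ)
    (u v z : E d) : ⟪D.av ρ D.T0 u v, z⟫ = D.av ρ (fun a => ⟪D.T0 a v, z⟫) u := by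
  have := h.av_clm_glba hρ h.int_τ_glba.2
    ((innerSL ℝ z).comp (ContinuousLinearMap.apply ℝ (E d) v)) u
  simpa only [ContinuousLinearMap.comp_apply, ContinuousLinearMap.apply_apply, innerSL_apply_apply,
    real_inner_comm _ z] using this

theorem CV.tb_glba {D : CD d α H} {c : E d} {R δ M ρ : ℝ} (h : CV D c R δ M) (hρ : 0 < ρ)
    (u : E d) {σ σ' : ℝ} (hσ : σ + ρ ≤ σ') : D.En u σ / ρ ^ d ≤
      (ρ ^ d)⁻¹ * ∫ x in ball u σ', (D.av ρ D.t x + D.av ρ (fun a => ‖D.y a‖ ^ 2) x) := by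
  obtain ⟨-, -, -, i3, -⟩ := h.integrable_t
  have h0 : ∀ᵐ a ∂D.m, 0 ≤ D.en a := h.ae_pw.mono fun a ha => ha.facts_av.1
  simp only [fun x => (h.av_en_glba hρ x).1]
  rw [div_eq_inv_mul]
  refine mul_le_mul_of_nonneg_left (((h.cyl_av hρ i3 h0 u).2.1 σ).trans ?_) (by positivity)
  exact setIntegral_mono_set (h.integral_av_one hρ i3).1.integrableOn
    (Eventually.of_forall fun x => av_nonneg_glba hρ h0 x) (ball_subset_ball hσ).eventuallyLE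

theorem gd_soft {ι : Type*} [Fintype ι] {D : CD d α H} {R δ M ρ Δ ϖ Ce : ℝ} (h : CV D 0 R δ M)
    (hδ : δ ≤ 1 / 10) (hρ : 0 < ρ) (hϖ : 0 < ϖ) (hCe : 0 ≤ Ce) {e : ι → H} (he : ∀ i, ‖e i‖ = 1)
    (Q : ℕ) (U : ι → ℕ → E d → ℝ) {X : GD d ι} (hX : X = D.gd e Q ρ Δ ϖ Ce U) :
    Continuous X.ε ∧ Continuous X.τ ∧ Continuous X.T0 ∧ Continuous X.t ∧ Continuous X.cc ∧
      Continuous X.ee ∧ (∀ u, 0 ≤ X.t u) ∧ (∀ u, 0 ≤ X.cc u) ∧ (∀ u, 0 ≤ X.ee u) ∧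
      (∀ u v z, ⟪X.T0 u v, z⟫ = ⟪v, X.T0 u z⟫) ∧ (∀ u v, 0 ≤ ⟪X.T0 u v, v⟫) ∧
      (∀ u, AS.tr (X.τ u) = X.t u) ∧ (∀ u, X.t u + X.cc u = D.av ρ D.en u) ∧
      (∀ u v, ⟪X.T0 u v, v⟫ = D.av ρ (fun a => ⟪D.T0 a v, v⟫) u) ∧
      (∀ (u : E d) (C σ : ℝ), σ + ρ ≤ C * ρ → D.En u σ / ρ ^ d ≤ X.tb C ρ u) ∧
      ∀ x₀ ∈ ball (0 : E d) R, ∀ (u : E d) (lam : ℝ), Ht D lam → 0 ≤ lam → ‖u‖ + ρ ≤ R →
        ‖(X.gm x₀).comp (X.τ u) - X.T0 u‖ ≤ (‖u - x₀‖ + ρ + lam) * X.t u := by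
  subst hX
  have := h.fin
  obtain ⟨i1, -, i2, -⟩ := h.integrable_t
  obtain ⟨j1, j2⟩ := h.int_τ_glba
  have hρ' : 0 < 16 * ρ := by positivity
  have hδ0 := h.δ_nonneg
  have k2 := fun i => two_cont (Δ := Δ) h (by linarith) hρ' (he i)
  refine ⟨(h.av_smooth hρ (integrable_const (1 : ℝ))).1.continuous.sub continuous_const,
    (h.av_smooth hρ j1).1.continuous, (h.av_smooth hρ j2).1.continuous,
    (h.av_smooth hρ i1).1.continuous, (h.av_smooth hρ i2).1.continuous, ?_,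
    fun u => (h.av_en_glba hρ u).2.1, fun u => (h.av_en_glba hρ u).2.2, fun u => ?_,
    fun u v z => ?_, fun u v => ?_, fun u => ?_, fun u => (h.av_en_glba hρ u).1,
    fun u v => h.av_T0_glba hρ u v v, fun u C σ hσ => h.tb_glba hρ u hσ,
    fun x₀ hx₀ u lam hH hlam hu => ?_⟩
  · exact continuous_const.mul (((continuous_const.mul (h.av_smooth hρ' i1).1.continuous).add
      ((continuous_finsetSum _ fun i _ => (k2 i).1).div_const _)).add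
      (h.av_smooth hρ' i2).1.continuous)
  · exact mul_nonneg hCe (add_nonneg (add_nonneg (mul_nonneg hϖ.le (h.av_en_glba hρ' u).2.1)
      (div_nonneg (Finset.sum_nonneg fun i _ => (k2 i).2.1 u) hϖ.le)) (h.av_en_glba hρ' u).2.2)
  · change ⟪D.av ρ D.T0 u v, z⟫ = ⟪v, D.av ρ D.T0 u z⟫
    rw [real_inner_comm _ v, h.av_T0_glba hρ, h.av_T0_glba hρ]
    exact av_congr_glba ρ (h.ae_pw.mono fun a ha => by rw [ha.T0_symm, real_inner_comm]) u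
  · change 0 ≤ ⟪D.av ρ D.T0 u v, v⟫
    rw [h.av_T0_glba hρ]
    exact av_nonneg_glba hρ (h.ae_pw.mono fun a ha => ha.T0_pos v) u
  · obtain ⟨ℓ, hℓ⟩ : ∃ ℓ : (E d →L[ℝ] E d) →L[ℝ] ℝ, ∀ A, ℓ A = trH A :=
      ⟨⟨(LinearMap.trace ℝ (E d)).comp (ContinuousLinearMap.coeLM ℝ), (trH_lin 0 0 0).2.2.2.2.2⟩,
        fun _ => rfl⟩
    change trH (D.av ρ D.τ u) = D.av ρ D.t u
    rw [← hℓ, h.av_clm_glba hρ j1]
    exact av_congr_glba ρ (h.ae_pw.mono fun a ha => by rw [hℓ, ha.tr_τ]) u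
  · change ‖(D.gm x₀).comp (D.av ρ D.τ u) - D.av ρ D.T0 u‖ ≤ (‖u - x₀‖ + ρ + lam) * D.av ρ D.t u
    have j3 := (ContinuousLinearMap.compL ℝ (E d) (E d) (E d) (D.gm x₀)).integrable_comp j1
    have e1 := h.av_clm_glba hρ j1 (ContinuousLinearMap.compL ℝ (E d) (E d) (E d) (D.gm x₀)) u
    simp only [ContinuousLinearMap.compL_apply] at j3 e1
    have e2 : (D.gm x₀).comp (D.av ρ D.τ u) - D.av ρ D.T0 u =
        D.av ρ (fun a => (D.gm x₀).comp (D.τ a) - D.T0 a) u := by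
      rw [e1, CD.av, CD.av, ← integral_sub (h.int_av hρ j3 u) (h.int_av hρ j2 u)]
      simp only [CD.av, smul_sub]
    rw [e2, ← av_mul_glba]
    refine (h.norm_av_le hρ (i1.const_mul _) u ?_).1
    filter_upwards [h.ae_met, hH] with a ⟨ha, hx, _⟩ hy hc
    have g0 := ha.t_nonneg
    have g1 := (h.met.lip hδ0 (by linarith) hx₀ hx).2.2
    have g2 : ‖x₀ - D.x a‖ ≤ ‖u - x₀‖ + ρ := by
      have g3 : ‖D.x a - u‖ < ρ := hc
      have := norm_sub_le_norm_sub_add_norm_sub x₀ u (D.x a)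
      rw [norm_sub_rev x₀ u, norm_sub_rev u (D.x a)] at this
      linarith
    have g3 : ‖D.gm x₀ - D.gm (D.x a)‖ ≤ 1 / 2 * (‖u - x₀‖ + ρ) :=
      g1.trans (mul_le_mul (by linarith) g2 (norm_nonneg _) (by norm_num))
    have g4 : δ * ‖D.y a‖ ≤ lam := by nlinarith [norm_nonneg (D.y a)]
    calc _ = ‖(D.gm x₀ - D.gm (D.x a)).comp (D.τ a) + ((D.gm (D.x a)).comp (D.τ a) - D.T0 a)‖ := by
          rw [ContinuousLinearMap.sub_comp, sub_add_sub_cancel]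
      _ ≤ 1 / 2 * (‖u - x₀‖ + ρ) * (2 * D.t a) + lam * D.t a :=
          (norm_add_le _ _).trans (add_le_add (((D.gm x₀ - D.gm (D.x a)).opNorm_comp_le _).trans
            (mul_le_mul g3 ha.τ_le (norm_nonneg _) (by positivity)))
            (ha.T0_τ.trans (mul_le_mul_of_nonneg_right g4 g0)))
      _ = _ := by ring

theorem gd_size (d : ℕ) (M : ℝ) {CI : ℝ} (hCI : 0 ≤ CI) (ι : Type*) [Fintype ι] :
    ∃ C₀ : ℝ, 1 ≤ C₀ ∧ ∀ (D : CD d α H) (R δ lam ρ Δ ϖ Ce : ℝ) (Q : ℕ) (N : E d → ℕ) (e : ι → H)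
    (U : ι → ℕ → E d → ℝ) (X : GD d ι), MS D R δ M lam ρ CI Q N → δ ≤ 1 / 10 → 0 < ϖ → ϖ ≤ 1 →
    0 ≤ Ce → (∀ i, ‖e i‖ = 1) → X = D.gd e Q ρ Δ ϖ Ce U → ∀ u : E d,
    (‖u‖ + 32 * ρ ≤ R → X.t u ≤ C₀ * (lam ^ 2 / ρ ^ 2) ∧ X.cc u ≤ C₀ * lam ^ 2 ∧
      X.ee u ≤ C₀ * Ce / ϖ * (lam ^ 2 / ρ ^ 2) ∧
      ∀ C, C₀ ≤ C → |X.ε u| + X.t u + X.cc u ≤ C * X.tb C ρ u) ∧
    ∀ s, ρ ≤ s → ‖u‖ + 4 * s ≤ R → ∫ x in ball u s, X.t x ≤ C₀ * lam ^ 2 * (s ^ d / s ^ 2) := by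
  obtain ⟨C₁, hC₁, h1⟩ := av_le (α := α) (H := H) d M
  obtain ⟨C₂, hC₂, h2⟩ := two_le (α := α) (H := H) d M
  obtain ⟨C₃, hC₃, h3⟩ := ms_av_one (α := α) (H := H) d hCI
  obtain ⟨C₄, hC₄, h4⟩ := en_le (α := α) (H := H) d M
  have p1 : 0 ≤ C₁ * C₁ := by positivity
  have p2 : 0 ≤ Fintype.card ι * C₂ := by positivity
  have p4 : 0 ≤ C₄ * 4 ^ d := by positivity
  obtain ⟨C₀, hC₀⟩ : ∃ C₀, C₀ = C₁ * C₁ + C₁ + Fintype.card ι * C₂ + C₃ + C₄ * 4 ^ d + 9 :=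
    ⟨_, rfl⟩
  refine ⟨C₀, by linarith, fun D R δ lam ρ Δ ϖ Ce Q N e U X hM hδ hϖ hϖ1 hCe he hX u => ?_⟩
  subst hX
  have h := hM.cv
  have := h.fin
  have hρ := hM.ρ_pos
  have hl := hM.lam_pos
  have hl2 := hM.lam_le
  obtain ⟨i1, -, i2, i3, -⟩ := h.integrable_t
  have hen : ∀ r, ρ ≤ r → ‖u‖ + 2 * r ≤ R → D.av r D.en u ≤ C₁ * C₁ * (lam ^ 2 / ρ ^ 2) := by
    intro r g1 g2
    obtain ⟨-, -, -, -, g3, -, -, -, g4, -⟩ := h1 D 0 R δ lam r u h hδ hM.ht hl (by linarith)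
    calc _ ≤ _ := g3
      _ ≤ C₁ * (C₁ * (lam ^ 2 / r ^ 2)) :=
          mul_le_mul_of_nonneg_left (g4 (by rwa [sub_zero])) (by linarith)
      _ ≤ C₁ * (C₁ * (lam ^ 2 / ρ ^ 2)) := by gcongr
      _ = _ := by ring
  have hq : 0 ≤ lam ^ 2 / ρ ^ 2 := by positivity
  refine ⟨fun hu => ⟨?_, ?_, ?_, fun C hC => ?_⟩, fun s hs hu => ?_⟩
  · change D.av ρ D.t u ≤ _
    obtain ⟨g1, g2, g3⟩ := h.av_en_glba hρ u
    have g4 := hen ρ le_rfl (by linarith)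
    have g5 : C₁ * C₁ * (lam ^ 2 / ρ ^ 2) ≤ C₀ * (lam ^ 2 / ρ ^ 2) :=
      mul_le_mul_of_nonneg_right (by linarith) hq
    linarith
  · change D.av ρ (fun a => ‖D.y a‖ ^ 2) u ≤ _
    obtain ⟨-, -, g3, -⟩ := h1 D 0 R δ lam ρ u h hδ hM.ht hl hl2
    have g1 := (h.norm_av_le (f := fun a => ‖D.y a‖ ^ 2) (g := fun _ => lam ^ 2 * 1) hρ
      (integrable_const _) u (Eventually.mono hM.ht fun a ha _ => by
        rw [Real.norm_of_nonneg (sq_nonneg _), mul_one]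
        gcongr)).1
    rw [av_mul_glba D ρ (lam ^ 2) fun _ => 1] at g1
    calc _ ≤ _ := (le_abs_self _).trans g1
      _ ≤ lam ^ 2 * C₀ := mul_le_mul_of_nonneg_left (by linarith) (sq_nonneg _)
      _ = _ := mul_comm _ _
  · change D.eef e ρ Δ ϖ Ce u ≤ _
    obtain ⟨g1, g2, g3⟩ := h.av_en_glba (by positivity : 0 < 16 * ρ) u
    have g4 := hen (16 * ρ) (by linarith) (by linarith)
    have g5 : ∑ i, D.two (e i) (16 * ρ) Δ u ≤ Fintype.card ι * C₂ * (lam ^ 2 / ρ ^ 2) := by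
      refine (Finset.sum_le_card_nsmul _ _ (C₂ * (lam ^ 2 / ρ ^ 2)) fun i _ => ?_).trans ?_
      · refine (h2 D R δ lam (16 * ρ) Δ (e i) h hδ hM.ht hl (by linarith) (he i) u
          (by linarith)).trans ?_
        gcongr
        linarith
      · rw [nsmul_eq_mul, Finset.card_univ, mul_assoc]
    have g6 : ϖ * D.av (16 * ρ) D.t u + D.av (16 * ρ) (fun a => ‖D.y a‖ ^ 2) u ≤
        C₁ * C₁ * (lam ^ 2 / ρ ^ 2) / ϖ := by
      have := mul_le_of_le_one_left g2 hϖ1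
      exact le_trans (by linarith) (le_div_self (mul_nonneg p1 hq) hϖ hϖ1)
    have g7 := div_le_div_of_nonneg_right g5 hϖ.le
    have g8 : (C₁ * C₁ + Fintype.card ι * C₂) * (lam ^ 2 / ρ ^ 2) / ϖ ≤
        C₀ * (lam ^ 2 / ρ ^ 2) / ϖ := by
      gcongr
      linarith
    rw [add_mul, add_div] at g8
    calc _ ≤ Ce * (C₀ * (lam ^ 2 / ρ ^ 2) / ϖ) := mul_le_mul_of_nonneg_left (by linarith) hCe
      _ = _ := by ring
  · obtain ⟨-, -, -, -, g3, -⟩ := h1 D 0 R δ lam ρ u h hδ hM.ht hl hl2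
    have g4 := (h3 D R δ M lam ρ Q N u hM (by linarith) (by linarith)).1
    have g0 : 9 * ρ ≤ C * ρ := mul_le_mul_of_nonneg_right (by linarith) hρ.le
    have g5 := h.tb_glba hρ u (σ := ρ) (σ' := C * ρ) (by linarith)
    have g6 := h.tb_glba hρ u (σ := 8 * ρ) (σ' := C * ρ) (by linarith)
    have g7 := (div_nonneg (h.nonneg u ρ).2.2.2.1 (pow_nonneg hρ.le d)).trans g5
    have g8 := (h.av_en_glba hρ u).1
    change |D.av ρ (fun _ => (1 : ℝ)) u - Q| + D.av ρ D.t u + D.av ρ (fun a => ‖D.y a‖ ^ 2) u ≤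
      C * ((ρ ^ d)⁻¹ * ∫ x in ball u (C * ρ), (D.av ρ D.t x + D.av ρ (fun a => ‖D.y a‖ ^ 2) x))
    generalize (ρ ^ d)⁻¹ * ∫ x in ball u (C * ρ),
      (D.av ρ D.t x + D.av ρ (fun a => ‖D.y a‖ ^ 2) x) = Y at *
    have g9 := mul_le_mul_of_nonneg_left g5 (by linarith : 0 ≤ C₁)
    have g10 := mul_le_mul_of_nonneg_left g6 hC₃.le
    have g11 : (C₁ + C₃) * Y ≤ C * Y := mul_le_mul_of_nonneg_right (by linarith) g7
    linarith
  · have hs0 : 0 < s := by linarith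
    have g1 := (h.cyl_av hρ i1 (h.ae_pw.mono fun a ha => ha.t_nonneg) u).1 s
    obtain ⟨-, -, g2, -, g3, -⟩ := h.nonneg u (s + ρ)
    have g4 := h4 D 0 R δ lam h hδ hM.ht hl u (s + ρ) (2 * s) (by positivity) (by linarith)
      (by rw [sub_zero]; linarith)
    change ∫ x in ball u s, D.av ρ D.t x ≤ _
    calc _ ≤ D.T u (s + ρ) := g1
      _ ≤ C₄ * lam ^ 2 * ((s + ρ + 2 * s) ^ d / (2 * s) ^ 2) := by linarith
      _ ≤ C₄ * lam ^ 2 * ((4 * s) ^ d / s ^ 2) := by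
          gcongr
          · linarith
          · linarith
      _ = C₄ * 4 ^ d * (lam ^ 2 * (s ^ d / s ^ 2)) := by rw [mul_pow]; ring
      _ ≤ C₀ * (lam ^ 2 * (s ^ d / s ^ 2)) :=
          mul_le_mul_of_nonneg_right (by linarith) (by positivity)
      _ = _ := by ring

end Pool.Agent.Lib.MP_8daebb_an.GM
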