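import Pool.Agent.Lib.MP_8daebb_an.GM.GdOf
import Pool.Agent.Lib.MP_8daebb_an.GM.Av2
import Pool.Agent.Lib.MP_8daebb_an.GM.IBP

/-! The weak equation of the coarse-grained data. -/

set_option linter.unusedSectionVars false
set_option linter.unusedVariables false

open MeasureTheory Metric Filter Topology Set
open scoped RealInnerProductSpace ENNReal ContDiff

namespace Pool.Agent.Lib.MP_8daebb_an.GM

open LG (vb chi om trS)

variable {d : ℕ} {α : Type*} [MeasurableSpace α] {H : Type*} [NormedAddCommGroup H]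
  [InnerProductSpace ℝ H] [FiniteDimensional ℝ H] [MeasurableSpace H] [BorelSpace H]

theorem int_tau_glbb {D : CD d α H} {R δ M : ℝ} (h : CV D 0 R δ M) :
    Integrable D.τ D.m ∧ Integrable D.eh D.m :=
  ⟨h.integrable h.m_τ.aestronglyMeasurable _ fun a ha _ => ((h.pw a ha).bounds h.δ_nonneg).1,
    h.integrable h.m_eh.aestronglyMeasurable _ fun a ha _ =>
      ((h.pw a ha).bounds h.δ_nonneg).2.2.1⟩

theorem hor_kr_glbb {D : CD d α H} {R δ M ρ : ℝ} (h : CV D 0 R δ M) (hρ : 0 < ρ) {u : E d}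
    (hu : ‖u‖ + ρ < R) (v : E d) :
    ∫ a, fderiv ℝ (kr ρ) (u - D.x a) (v - D.τ a v) ∂D.m = ⟪D.av ρ D.eh u, v⟫ := by
  have h1 : ContDiff ℝ 1 (kr ρ : E d → ℝ) := (kr_contDiff ρ).of_le (by exact_mod_cast le_top)
  have c0 : Continuous (kr ρ : E d → ℝ) := h1.continuous
  have c1 : Continuous (fderiv ℝ (kr ρ : E d → ℝ)) := h1.continuous_fderiv one_ne_zero
  have hT : Test (0 : E d) R fun p : E d × H => kr ρ (u - p.1) := by
    refine ⟨(h1.comp (contDiff_const.sub contDiff_fst)).contDiffOn, ‖u‖ + ρ, hu, fun p hp => ?_⟩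
    rw [sub_zero] at hp
    refine (kr_zero hρ ?_).1
    rw [norm_sub_rev]
    linarith [norm_sub_norm_le p.1 u]
  have hd : ∀ (x : E d) (y : H) (p : E d × H),
      fderiv ℝ (fun p : E d × H => kr ρ (u - p.1)) (x, y) p = -fderiv ℝ (kr ρ) (u - x) p.1 := by
    intro x y p
    have a1 : HasFDerivAt (fun p : E d × H => u - p.1) (-ContinuousLinearMap.fst ℝ (E d) H)
        (x, y) := hasFDerivAt_fst.const_sub u
    have a2 := HasFDerivAt.comp (x, y) (g := kr ρ) (f := fun p : E d × H => u - p.1)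
      (h1.differentiable one_ne_zero (u - x)).hasFDerivAt a1
    have a3 := a2.fderiv
    rw [show (fun p : E d × H => kr ρ (u - p.1)) = kr ρ ∘ fun p : E d × H => u - p.1 from rfl, a3]
    simp
  have e := h.hor _ hT v
  simp only [hd] at e
  have i1 := h.integrable_cont (fun p => -fderiv ℝ (kr ρ) (u - p.1.1) (v - p.2.1 v)) (by fun_prop)
  have i2 := h.integrable_cont (fun p => kr ρ (u - p.1.1) * ⟪p.2.2.2.1, v⟫) (by fun_prop)
  rw [integral_add i1 i2, integral_neg] at e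
  have e2 : ⟪D.av ρ D.eh u, v⟫ = ∫ a, kr ρ (u - D.x a) * ⟪D.eh a, v⟫ ∂D.m := by
    unfold CD.av
    rw [real_inner_comm, ← integral_inner (h.int_av hρ (int_tau_glbb h).2 u)]
    refine integral_congr_ae (Eventually.of_forall fun a => ?_)
    simp only [real_inner_smul_right, real_inner_comm v]
  rw [e2]
  linarith

theorem tr_flip_glbb {D : CD d α H} {R δ M ρ : ℝ} (h : CV D 0 R δ M) (hρ : 0 < ρ) (u v : E d) :
    trH ((fderiv ℝ (D.av ρ fun a => 1 - D.τ a) u).flip v) =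
      ∫ a, fderiv ℝ (kr ρ) (u - D.x a) (v - D.τ a v) ∂D.m := by
  have := h.fin
  have h1 : ContDiff ℝ 1 (kr ρ : E d → ℝ) := (kr_contDiff ρ).of_le (by exact_mod_cast le_top)
  have c1 : Continuous (fderiv ℝ (kr ρ : E d → ℝ)) := h1.continuous_fderiv one_ne_zero
  have hf : Integrable (fun a => (1 : E d →L[ℝ] E d) - D.τ a) D.m :=
    (integrable_const _).sub (int_tau_glbb h).1
  have hm : ∀ i, AEStronglyMeasurable (fun a => fderiv ℝ (kr ρ) (u - D.x a) (LG.eb i)) D.m :=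
    fun i => ((c1.clm_apply continuous_const).measurable.comp
      (measurable_const.sub h.m_x)).aestronglyMeasurable
  have hi : ∀ i, Integrable (fun a => fderiv ℝ (kr ρ) (u - D.x a) (LG.eb i) •
      ((1 : E d →L[ℝ] E d) - D.τ a)) D.m := fun i =>
    hf.bdd_smul (Ck d / ρ ^ (d + 1) * ‖(LG.eb i : E d)‖) (hm i) (Eventually.of_forall fun a =>
      (ContinuousLinearMap.le_opNorm _ _).trans
        (mul_le_mul_of_nonneg_right (kr_le hρ _).2.1 (norm_nonneg _)))
  have e : ∀ i, ⟪(fderiv ℝ (D.av ρ fun a => 1 - D.τ a) u).flip v (LG.eb i), LG.eb i⟫ =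
      ∫ a, ⟪v - D.τ a v, LG.eb i⟫ * fderiv ℝ (kr ρ) (u - D.x a) (LG.eb i) ∂D.m := by
    intro i
    rw [ContinuousLinearMap.flip_apply, (h.av_smooth hρ hf).2.2.2.1,
      ContinuousLinearMap.integral_apply (hi i), real_inner_comm,
      ← integral_inner ((hi i).apply_continuousLinearMap v)]
    refine integral_congr_ae (Eventually.of_forall fun a => ?_)
    simp only [smul_apply, sub_apply,
      one_apply_eq_self, real_inner_smul_right, real_inner_comm (LG.eb i)]
    ring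
  rw [← trS_eq, trS, Finset.sum_congr rfl fun i _ => e i, ← integral_finsetSum]
  · exact integral_congr_ae (Eventually.of_forall fun a => sum_eb _ _)
  · intro i _
    exact h.integrable_cont
      (fun p => ⟪v - p.2.1 v, LG.eb i⟫ * fderiv ℝ (kr ρ) (u - p.1.1) (LG.eb i)) (by fun_prop)

theorem av_split_glbb {D : CD d α H} {R δ M ρ : ℝ} (h : CV D 0 R δ M) (hρ : 0 < ρ) (u : E d) :
    D.av ρ (fun a => 1 - D.τ a) u =
      D.av ρ (fun _ => (1 : ℝ)) u • (1 : E d →L[ℝ] E d) - D.av ρ D.τ u := by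
  have := h.fin
  unfold CD.av
  simp only [smul_sub]
  rw [integral_sub (h.int_av hρ (integrable_const _) u) (h.int_av hρ (int_tau_glbb h).1 u)]
  simp only [smul_eq_mul, mul_one]
  congr 1
  exact integral_smul_const (fun a => kr ρ (u - D.x a)) (1 : E d →L[ℝ] E d)

theorem gd_s1 (d : ℕ) (M : ℝ) (ι : Type*) [Fintype ι] : ∃ C : ℝ, 0 < C ∧
    ∀ (D : CD d α H) (R δ lam ρ Δ ϖ Ce : ℝ) (Q : ℕ) (e : ι → H) (U : ι → ℕ → E d → ℝ)
    (X : GD d ι), CV D 0 R δ M → δ ≤ 1 / 10 → Ht D lam → 0 < lam → 2 * lam ≤ ρ →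
    X = D.gd e Q ρ Δ ϖ Ce U → ∀ Y : E d → E d, ContDiff ℝ 1 Y → tsupport Y ⊆ ball 0 (R - 2 * ρ) →
    |∫ u, AS.pair (X.ε u) (X.τ u) (fderiv ℝ Y u)| ≤ C * (lam ^ 2 / ρ ^ 2) * ∫ u, ‖Y u‖ := by
  obtain ⟨C, hC, hav⟩ := av_le (α := α) (H := H) d M
  refine ⟨C * C, by positivity, ?_⟩
  intro D R δ lam ρ Δ ϖ Ce Q e U X h hδ hH hl hρ' hX Y hY hs
  have := h.fin
  have hρ : 0 < ρ := by linarith
  subst hX
  have hf : Integrable (fun a => (1 : E d →L[ℝ] E d) - D.τ a) D.m :=
    (integrable_const _).sub (int_tau_glbb h).1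
  have hc : HasCompactSupport Y :=
    (isCompact_closedBall (0 : E d) (R - 2 * ρ)).of_isClosed_subset (isClosed_tsupport Y)
      (hs.trans ball_subset_closedBall)
  obtain ⟨L, hL⟩ : ∃ L : E d → E d →L[ℝ] E d,
      L = fun u => D.av ρ (fun a => 1 - D.τ a) u - (Q : ℝ) • (1 : E d →L[ℝ] E d) := ⟨_, rfl⟩
  have s1 : ContDiff ℝ 1 (D.av ρ fun a => (1 : E d →L[ℝ] E d) - D.τ a) :=
    (h.av_smooth hρ hf).1.of_le (by norm_num)
  have sL : ContDiff ℝ 1 L := by rw [hL]; exact s1.sub contDiff_const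
  have dL : ∀ u, fderiv ℝ L u = fderiv ℝ (D.av ρ fun a => (1 : E d →L[ℝ] E d) - D.τ a) u := by
    intro u
    rw [hL]
    exact fderiv_sub_const _
  have hin : ∀ u, Y u ≠ 0 → ‖u‖ + 2 * ρ < R := fun u hu => by
    have := hs (subset_tsupport Y hu)
    rw [mem_ball_zero_iff] at this
    linarith
  obtain ⟨iZ, zZ⟩ := integral_tr_zero (W := fun u => L u (Y u)) (sL.clm_apply hY)
    (hc.mono fun u hu hu' => hu (by simp only [hu', map_zero]))
  have key : ∀ u, AS.pair ((D.gd e Q ρ Δ ϖ Ce U).ε u) ((D.gd e Q ρ Δ ϖ Ce U).τ u) (fderiv ℝ Y u) =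
      trH (fderiv ℝ (fun u => L u (Y u)) u) - ⟪D.av ρ D.eh u, Y u⟫ := by
    intro u
    rw [fderiv_clm_apply (sL.differentiable one_ne_zero u) (hY.differentiable one_ne_zero u),
      (trH_lin _ _ 0).1, dL, tr_flip_glbb h hρ]
    have e1 : ∫ a, fderiv ℝ (kr ρ) (u - D.x a) (Y u - D.τ a (Y u)) ∂D.m =
        ⟪D.av ρ D.eh u, Y u⟫ := by
      by_cases hu : Y u = 0
      · simp [hu]
      · exact hor_kr_glbb h hρ (by linarith [hin u hu]) _
    have e2 : (L u).comp (fderiv ℝ Y u) = (D.av ρ (fun _ => (1 : ℝ)) u - Q) • fderiv ℝ Y u -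
        (D.av ρ D.τ u).comp (fderiv ℝ Y u) := by
      rw [hL]
      simp only [av_split_glbb h hρ]
      ext v : 1
      simp only [ContinuousLinearMap.comp_apply, sub_apply,
        smul_apply, one_apply_eq_self, sub_smul]
      abel
    rw [e1, e2, (trH_lin _ _ 0).2.1, (trH_lin _ 0 _).2.2.1, add_sub_cancel_right]
    rfl
  have cE : Continuous (D.av ρ D.eh) := (h.av_smooth hρ (int_tau_glbb h).2).1.continuous
  have iE : Integrable fun u => ⟪D.av ρ D.eh u, Y u⟫ :=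
    (cE.inner hY.continuous).integrable_of_hasCompactSupport
      (hc.mono fun u hu hu' => hu (by simp only [hu', inner_zero_right]))
  have iY : Integrable fun u => ‖Y u‖ :=
    (hY.continuous.integrable_of_hasCompactSupport hc).norm
  simp only [key]
  rw [integral_sub iZ iE, zZ, zero_sub, abs_neg, ← Real.norm_eq_abs, ← integral_const_mul]
  refine norm_integral_le_of_norm_le (iY.const_mul _) (Eventually.of_forall fun u => ?_)
  by_cases hu : Y u = 0
  · simp [hu]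
  refine (norm_inner_le_norm _ _).trans (mul_le_mul_of_nonneg_right ?_ (norm_nonneg _))
  obtain ⟨-, -, -, -, b1, -, -, -, b2, -⟩ := hav D 0 R δ lam ρ u h hδ hH hl hρ'
  have b3 := b2 (by rw [sub_zero]; exact (hin u hu).le)
  have b4 := (h.norm_av_le hρ (f := D.eh) h.integrable_t.2.2.2.1 u
    (h.pw_av.mono fun a ha _ => ha.eh_le.trans (by
      have := ha.facts_av.1
      unfold CD.en at this ⊢
      nlinarith))).1
  calc ‖D.av ρ D.eh u‖ ≤ C * (D.En u ρ / ρ ^ d) := b4.trans b1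
    _ ≤ C * (C * (lam ^ 2 / ρ ^ 2)) := mul_le_mul_of_nonneg_left b3 (by linarith)
    _ = _ := by ring

end Pool.Agent.Lib.MP_8daebb_an.GM
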