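import Pool.Agent.Lib.MP_8daebb_an.GM.Av2
import Pool.Agent.Lib.MP_8daebb_an.GM.IBP

/-! The gradients of the sheet functions are bounded by the slopes. -/

set_option linter.unusedSectionVars false
set_option linter.unusedVariables false

open MeasureTheory Metric Filter Topology Set
open scoped RealInnerProductSpace ENNReal ContDiff

namespace Pool.Agent.Lib.MP_8daebb_an.GM

open LG (vb chi om trS)

variable {d : ℕ} {α : Type*} [MeasurableSpace α] {H : Type*} [NormedAddCommGroup H]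
  [InnerProductSpace ℝ H] [FiniteDimensional ℝ H] [MeasurableSpace H] [BorelSpace H]

theorem cs_uq {μ : Measure α} {w s : α → ℝ} (hw : ∀ a, 0 ≤ w a) (i0 : Integrable w μ)
    (i1 : Integrable (fun a => w a * s a) μ) (i2 : Integrable (fun a => w a * s a ^ 2) μ) :
    (∫ a, w a * s a ∂μ) ^ 2 ≤ (∫ a, w a ∂μ) * ∫ a, w a * s a ^ 2 ∂μ := by
  have key : ∀ l : ℝ, 0 ≤ (∫ a, w a ∂μ) * (l * l) + (-2 * ∫ a, w a * s a ∂μ) * l +
      ∫ a, w a * s a ^ 2 ∂μ := fun l => by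
    have j1 : Integrable (fun a => (l * l) * w a) μ := i0.const_mul _
    have j2 : Integrable (fun a => (-2 * l) * (w a * s a)) μ := i1.const_mul _
    have j3 : Integrable (fun a => (l * l) * w a + (-2 * l) * (w a * s a)) μ := j1.add j2
    have e : ∫ a, ((l * l) * w a + (-2 * l) * (w a * s a)) + w a * s a ^ 2 ∂μ =
        (∫ a, w a ∂μ) * (l * l) + (-2 * ∫ a, w a * s a ∂μ) * l + ∫ a, w a * s a ^ 2 ∂μ := by
      rw [integral_add j3 i2, integral_add j1 j2, integral_const_mul, integral_const_mul]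
      ring
    rw [← e]
    refine integral_nonneg fun a => ?_
    change 0 ≤ ((l * l) * w a + (-2 * l) * (w a * s a)) + w a * s a ^ 2
    have := mul_nonneg (hw a) (sq_nonneg (s a - l))
    linarith
  have h2 := discrim_le_zero key
  rw [discrim] at h2
  linarith

theorem step_uq {x a b k K E C V : ℝ} (hk : 0 < k) (hk1 : k ≤ 1 / 2) (hK : 0 ≤ K) (hE : 0 ≤ E)
    (hC : E ≤ C) (hb : 0 ≤ b) (ha : a ^ 2 ≤ (1 + 2 * (K * k)) * b)
    (hx : |x - a| ≤ 2 * (K * (k * E)) * V) :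
    x ^ 2 ≤ (1 + k * (1 + 3 * K)) * b + 8 * K ^ 2 * C * (k * E) * V ^ 2 := by
  have h1 : (x - a) ^ 2 ≤ (2 * (K * (k * E)) * V) ^ 2 := by
    rw [← sq_abs]
    exact pow_le_pow_left₀ (abs_nonneg _) hx 2
  have h2 : k * x ^ 2 ≤ k * ((1 + k) * a ^ 2) + (1 + k) * (x - a) ^ 2 := by
    nlinarith [sq_nonneg (x - a - k * a)]
  have h3 : (1 + k) * a ^ 2 ≤ (1 + k * (1 + 3 * K)) * b := by
    refine (mul_le_mul_of_nonneg_left ha (by positivity)).trans ?_
    rw [← mul_assoc]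
    refine mul_le_mul_of_nonneg_right ?_ hb
    have := mul_nonneg (mul_nonneg hK hk.le) (sub_nonneg.2 hk1)
    nlinarith
  have h4 : (1 + k) * (x - a) ^ 2 ≤ k * (8 * K ^ 2 * C * (k * E) * V ^ 2) :=
    calc (1 + k) * (x - a) ^ 2 ≤ 2 * (2 * (K * (k * E)) * V) ^ 2 :=
          mul_le_mul (by linarith) h1 (sq_nonneg _) (by norm_num)
      _ = k * (8 * K ^ 2 * E * (k * E) * V ^ 2) := by ring
      _ ≤ _ := by gcongr
  refine le_of_mul_le_mul_left ?_ hk
  have h5 := mul_le_mul_of_nonneg_left h3 hk.le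
  linarith

theorem av_in_uq {D : CD d α H} {c : E d} {R δ M : ℝ} (h : CV D c R δ M) {ρ : ℝ} (hρ : 0 < ρ)
    {g : α → E d} (hg : Integrable g D.m) (u v : E d) :
    ⟪D.av ρ g u, v⟫ = ∫ a, kr ρ (u - D.x a) * ⟪g a, v⟫ ∂D.m := by
  rw [CD.av, real_inner_comm, ← integral_inner (h.int_av hρ hg u)]
  refine integral_congr_ae (Eventually.of_forall fun a => ?_)
  simp only [real_inner_smul_right, real_inner_comm]

theorem uf_quad (d : ℕ) (M : ℝ) (Q : ℕ) (C₀ : ℝ) : ∃ C : ℝ, 0 < C ∧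
    ∀ (D : CD d α H) (R δ lam ρ η : ℝ) (e : H) (U : ℕ → E d → ℝ) (f : ℝ → ℝ)
    (lv : ℕ → E d → ℝ), CV D 0 R δ M → δ ≤ 1 / 10 → Ht D lam → 0 < lam → 2 * lam ≤ ρ → ‖e‖ = 1 →
    UF D e R lam ρ η Q C₀ U f lv → ∀ u : E d, ‖u‖ + 16 * ρ ≤ R → ∀ v : E d,
    ∑ j ∈ Finset.range Q, fderiv ℝ (fun y => U (j + 1) y - U j y) u v ^ 2 ≤
      D.av ρ (fun a => ⟪D.p e a, v⟫ ^ 2) u + C * (lam / ρ * (D.En u ρ / ρ ^ d)) * ‖v‖ ^ 2 := by
  obtain ⟨C, hC1, hC⟩ := av_le (α := α) (H := H) d M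
  refine ⟨8 * C * (1 + 3 * |C₀|) + Q * (8 * |C₀| ^ 2 * C), by positivity, ?_⟩
  intro D R δ lam ρ η e U f lv h hδ hs hl hlρ he hU u hu v
  have hρ : 0 < ρ := by linarith
  have := h.fin
  obtain ⟨-, -, -, -, hen, -, -, -, hE, -⟩ := hC D 0 R δ lam ρ u h hδ hs hl hlρ
  have hE0 : 0 ≤ D.En u ρ / ρ ^ d := div_nonneg (h.nonneg u ρ).2.2.2.1 (by positivity)
  have hk : 0 < lam / ρ := by positivity
  have hk1 : lam / ρ ≤ 1 / 2 := by rw [div_le_iff₀ hρ]; linarith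
  have hE1 : D.En u ρ / ρ ^ d ≤ C := by
    refine (hE (by rw [sub_zero]; linarith)).trans ?_
    rw [← div_pow]
    exact mul_le_of_le_one_right (by linarith) (pow_le_one₀ hk.le (by linarith))
  have hgr : ∀ j ≤ Q, ‖gradient (U j) u - D.av ρ (fun a => f (D.z e a - lv j u) • D.p e a) u‖ ≤
      |C₀| * (lam / ρ * (D.En u ρ / ρ ^ d)) := fun j hj =>
    (hU.gr j hj u hu).trans (mul_le_mul_of_nonneg_right (le_abs_self _) (by positivity))
  have hlev : ∀ j ≤ Q, |D.av ρ (fun a => f (D.z e a - lv j u)) u - j| ≤ |C₀| * (lam / ρ) :=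
    fun j hj => (hU.lev j hj u hu).trans (mul_le_mul_of_nonneg_right (le_abs_self _) hk.le)
  generalize D.En u ρ / ρ ^ d = E1 at hen hE0 hE1 hgr ⊢
  generalize lam / ρ = k at hk hk1 hgr hlev ⊢
  obtain ⟨mz, mp, -⟩ := h.meas_e e
  have hp : ∀ᵐ a ∂D.m, ‖D.p e a‖ ^ 2 ≤ 8 * D.en a ∧ D.en a ≤ d + 1 := by
    filter_upwards [h.ae_met] with a ha
    have h1 := ha.1.scal h.δ_nonneg (by linarith) ha.2.2.2.2 he
    exact ⟨h1.2.2.2.2.1, h1.2.2.1⟩
  have hps : ∀ᵐ a ∂D.m, ⟪D.p e a, v⟫ ^ 2 ≤ 8 * ‖v‖ ^ 2 * D.en a := by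
    filter_upwards [hp] with a ha
    have h1 := pow_le_pow_left₀ (abs_nonneg _) (abs_real_inner_le_norm (D.p e a) v) 2
    rw [sq_abs, mul_pow] at h1
    have h2 := mul_le_mul_of_nonneg_right ha.1 (sq_nonneg ‖v‖)
    linarith
  have ien := h.integrable_t.2.2.2.1
  have ip : Integrable (D.p e) D.m :=
    Integrable.of_bound mp.aestronglyMeasurable (8 * (d + 1) + 1) (hp.mono fun a ha => by
      nlinarith [sq_nonneg (‖D.p e a‖ - 1), ha.1, ha.2, sq_nonneg ‖D.p e a‖])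
  have is2 : Integrable (fun a => ⟪D.p e a, v⟫ ^ 2) D.m :=
    (ien.const_mul (8 * ‖v‖ ^ 2)).mono'
      ((mp.inner measurable_const).pow_const 2).aestronglyMeasurable
      (hps.mono fun a ha => by rwa [Real.norm_of_nonneg (sq_nonneg _)])
  have mF : ∀ j, AEStronglyMeasurable (fun a => f (D.z e a - lv j u)) D.m := fun j =>
    (hU.f_cont.measurable.comp (mz.sub_const _)).aestronglyMeasurable
  have bF : ∀ j, ∀ᵐ a ∂D.m, ‖f (D.z e a - lv j u)‖ ≤ 1 := fun j =>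
    Eventually.of_forall fun a => by
      rw [Real.norm_of_nonneg (hU.f_mem _).1]
      exact (hU.f_mem _).2
  have i0 : ∀ j, Integrable (fun a => kr ρ (u - D.x a) * f (D.z e a - lv j u)) D.m := fun j =>
    h.int_av hρ (Integrable.of_bound (mF j) 1 (bF j)) u
  have iv : ∀ j, Integrable (fun a => f (D.z e a - lv j u) • D.p e a) D.m := fun j =>
    ip.bdd_smul 1 (mF j) (bF j)
  have i1 : ∀ j, Integrable
      (fun a => kr ρ (u - D.x a) * (f (D.z e a - lv j u) * ⟪D.p e a, v⟫)) D.m := fun j =>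
    h.int_av hρ ((ip.inner_const (𝕜 := ℝ) v).bdd_mul (mF j) (bF j)) u
  have i2 : ∀ j, Integrable
      (fun a => kr ρ (u - D.x a) * (f (D.z e a - lv j u) * ⟪D.p e a, v⟫ ^ 2)) D.m := fun j =>
    h.int_av hρ (is2.bdd_mul (mF j) (bF j)) u
  set w : ℕ → α → ℝ := fun j a =>
    kr ρ (u - D.x a) * (f (D.z e a - lv (j + 1) u) - f (D.z e a - lv j u)) with hw
  have w0 : ∀ j a, 0 ≤ w j a := fun j a => mul_nonneg (kr_nonneg hρ _)
    (sub_nonneg.2 (hU.f_mono (by linarith [hU.anti j u])))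
  have e0 : ∀ j, w j = fun a => kr ρ (u - D.x a) * f (D.z e a - lv (j + 1) u) -
      kr ρ (u - D.x a) * f (D.z e a - lv j u) := fun j => funext fun a => mul_sub _ _ _
  have e1 : ∀ j, (fun a => w j a * ⟪D.p e a, v⟫) = fun a =>
      kr ρ (u - D.x a) * (f (D.z e a - lv (j + 1) u) * ⟪D.p e a, v⟫) -
      kr ρ (u - D.x a) * (f (D.z e a - lv j u) * ⟪D.p e a, v⟫) := fun j => funext fun a => by
    simp only [hw]
    ring
  have e2 : ∀ j, (fun a => w j a * ⟪D.p e a, v⟫ ^ 2) = fun a =>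
      kr ρ (u - D.x a) * (f (D.z e a - lv (j + 1) u) * ⟪D.p e a, v⟫ ^ 2) -
      kr ρ (u - D.x a) * (f (D.z e a - lv j u) * ⟪D.p e a, v⟫ ^ 2) := fun j => funext fun a => by
    simp only [hw]
    ring
  have j0 : ∀ j, Integrable (w j) D.m := fun j => e0 j ▸ (i0 (j + 1)).sub (i0 j)
  have j1 : ∀ j, Integrable (fun a => w j a * ⟪D.p e a, v⟫) D.m := fun j =>
    e1 j ▸ (i1 (j + 1)).sub (i1 j)
  have j2 : ∀ j, Integrable (fun a => w j a * ⟪D.p e a, v⟫ ^ 2) D.m := fun j =>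
    e2 j ▸ (i2 (j + 1)).sub (i2 j)
  have hg : ∀ j ≤ Q, |fderiv ℝ (U j) u v -
      ∫ a, kr ρ (u - D.x a) * (f (D.z e a - lv j u) * ⟪D.p e a, v⟫) ∂D.m| ≤
      |C₀| * (k * E1) * ‖v‖ := fun j hj => by
    have h1 := av_in_uq h hρ (iv j) u v
    simp only [real_inner_smul_left] at h1
    rw [← inner_grad, ← h1, ← inner_sub_left]
    exact (abs_real_inner_le_norm _ _).trans
      (mul_le_mul_of_nonneg_right (hgr j hj) (norm_nonneg _))
  have hj : ∀ j ∈ Finset.range Q, fderiv ℝ (fun y => U (j + 1) y - U j y) u v ^ 2 ≤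
      (1 + k * (1 + 3 * |C₀|)) * (∫ a, w j a * ⟪D.p e a, v⟫ ^ 2 ∂D.m) +
        8 * |C₀| ^ 2 * C * (k * E1) * ‖v‖ ^ 2 := fun j hj => by
    have hj1 : j + 1 ≤ Q := Finset.mem_range.1 hj
    have hb : 0 ≤ ∫ a, w j a * ⟪D.p e a, v⟫ ^ 2 ∂D.m :=
      integral_nonneg fun a => mul_nonneg (w0 j a) (sq_nonneg _)
    refine step_uq (a := ∫ a, w j a * ⟪D.p e a, v⟫ ∂D.m) hk hk1 (abs_nonneg _) hE0 hE1 hb
      ((cs_uq (w0 j) (j0 j) (j1 j) (j2 j)).trans (mul_le_mul_of_nonneg_right ?_ hb)) ?_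
    · rw [e0, integral_sub (i0 (j + 1)) (i0 j)]
      have h1 := (abs_le.1 (hlev (j + 1) hj1)).2
      have h2 := (abs_le.1 (hlev j (by omega))).1
      push_cast at h1
      simp only [CD.av, smul_eq_mul] at h1 h2
      linarith
    · have d1 : ∀ i, DifferentiableAt ℝ (U i) u := fun i =>
        (hU.smooth i).differentiable (by norm_num) u
      rw [e1, integral_sub (i1 (j + 1)) (i1 j), fderiv_fun_sub (d1 _) (d1 _),
        sub_apply]
      have h1 := abs_le.1 (hg (j + 1) hj1)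
      have h2 := abs_le.1 (hg j (by omega))
      rw [abs_le]
      constructor <;> linarith [h1.1, h1.2, h2.1, h2.2]
  have hsum : ∑ j ∈ Finset.range Q, ∫ a, w j a * ⟪D.p e a, v⟫ ^ 2 ∂D.m ≤
      D.av ρ (fun a => ⟪D.p e a, v⟫ ^ 2) u := by
    rw [← integral_finsetSum _ fun j _ => j2 j]
    refine integral_mono (integrable_finsetSum _ fun j _ => j2 j) (h.int_av hρ is2 u) fun a => ?_
    simp only [hw, smul_eq_mul]
    rw [← Finset.sum_mul, ← Finset.mul_sum, Finset.sum_range_sub fun j => f (D.z e a - lv j u)]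
    refine mul_le_mul_of_nonneg_right (mul_le_of_le_one_right (kr_nonneg hρ _) ?_) (sq_nonneg _)
    linarith [(hU.f_mem (D.z e a - lv Q u)).2, (hU.f_mem (D.z e a - lv 0 u)).1]
  have hA : D.av ρ (fun a => ⟪D.p e a, v⟫ ^ 2) u ≤ 8 * ‖v‖ ^ 2 * (C * E1) := by
    refine le_trans ?_ (mul_le_mul_of_nonneg_left hen (by positivity))
    rw [CD.av, CD.av, ← integral_const_mul]
    refine integral_mono_ae (h.int_av hρ is2 u) ((h.int_av hρ ien u).const_mul _)
      (hps.mono fun a ha => ?_)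
    have := mul_le_mul_of_nonneg_left ha (kr_nonneg hρ (u - D.x a))
    simp only [smul_eq_mul]
    linarith
  refine (Finset.sum_le_sum hj).trans ?_
  rw [Finset.sum_add_distrib, ← Finset.mul_sum, Finset.sum_const, Finset.card_range, nsmul_eq_mul]
  have h1 := mul_le_mul_of_nonneg_left hsum (by positivity : 0 ≤ 1 + k * (1 + 3 * |C₀|))
  have h2 := mul_le_mul_of_nonneg_left hA (by positivity : 0 ≤ k * (1 + 3 * |C₀|))
  linarith

end Pool.Agent.Lib.MP_8daebb_an.GM
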