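import Pool.Agent.Lib.MP_8daebb_an.GM.GlbA
import Pool.Agent.Lib.MP_8daebb_an.GM.UQ

/-! The sheet functions in the coarse-grained data. -/

set_option linter.unusedSectionVars false
set_option linter.unusedVariables false

open MeasureTheory Metric Filter Topology Set
open scoped RealInnerProductSpace ENNReal ContDiff

namespace Pool.Agent.Lib.MP_8daebb_an.GM

open LG (vb chi om trS)

variable {d : ℕ} {α : Type*} [MeasurableSpace α] {H : Type*} [NormedAddCommGroup H]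
  [InnerProductSpace ℝ H] [FiniteDimensional ℝ H] [MeasurableSpace H] [BorelSpace H]

theorem CV.sum_av_glbC {D : CD d α H} {R δ M lam ρ : ℝ} (h : CV D 0 R δ M) (hδ : δ ≤ 1 / 10)
    (hl : Ht D lam) (hρ : 0 < ρ) {ι : Type} [Fintype ι] (e : OrthonormalBasis ι ℝ H) (u v : E d) :
    ∑ i, D.av ρ (fun a => ⟪D.p (e i) a, v⟫ ^ 2) u ≤ D.av ρ (fun a => ⟪D.T0 a v, v⟫) u +
      ‖v‖ ^ 2 * lam * D.av ρ D.en u + ‖v‖ ^ 2 * lam ^ 2 * D.av ρ (fun _ => (1 : ℝ)) u := by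
  have := h.fin
  have h0 := h.δ_nonneg
  have i1 : ∀ i, Integrable (fun a => ⟪D.p (e i) a, v⟫ ^ 2) D.m := fun i =>
    h.integrable ((((h.meas_e (e i)).2.1.inner measurable_const).pow_const 2).aestronglyMeasurable)
      (8 * (d + 1) * ‖v‖ ^ 2) fun a ha hx => by
        obtain ⟨-, -, s1, -, s2, -⟩ := (h.pw a ha).scal h0 (by linarith) (h.met.one _ hx).2.2
          (e.orthonormal.1 i)
        rw [Real.norm_of_nonneg (sq_nonneg _), ← sq_abs]
        refine (pow_le_pow_left₀ (abs_nonneg _) (abs_real_inner_le_norm _ _) 2).trans ?_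
        rw [mul_pow]
        exact mul_le_mul_of_nonneg_right (by linarith) (sq_nonneg _)
  have i2 : Integrable (fun a => ⟪D.T0 a v, v⟫) D.m :=
    h.integrable (((show Continuous fun A : E d →L[ℝ] E d => ⟪A v, v⟫ by
      fun_prop).measurable.comp h.m_T0).aestronglyMeasurable) (2 * d * ‖v‖ * ‖v‖) fun a ha _ =>
      (norm_inner_le_norm _ _).trans (mul_le_mul_of_nonneg_right (((D.T0 a).le_opNorm v).trans
        (mul_le_mul_of_nonneg_right (by linarith [(h.pw a ha).T0_le, (h.pw a ha).t_le])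
          (norm_nonneg v))) (norm_nonneg v))
  have j1 := fun i => h.int_av hρ (i1 i) u
  have j2 := h.int_av hρ i2 u
  have j3 := (h.int_av hρ h.integrable_t.2.2.2.1 u).const_mul (‖v‖ ^ 2 * lam)
  have j4 := (h.int_av hρ (integrable_const (1 : ℝ)) u).const_mul (‖v‖ ^ 2 * lam ^ 2)
  unfold CD.av
  rw [← integral_finsetSum _ fun i _ => j1 i, ← integral_const_mul, ← integral_const_mul,
    ← integral_add' j2 j3, ← integral_add' (j2.add j3) j4]
  refine integral_mono_ae (integrable_finsetSum _ fun i _ => j1 i) ((j2.add j3).add j4) ?_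
  filter_upwards [h.ae_met, hl] with a ⟨ha, _, _, _, hm⟩ hy
  simp only [Pi.add_apply, smul_eq_mul, ← Finset.mul_sum]
  rw [(ha.sum_basis h0 (by linarith) hm e).2 v]
  have k0 := kr_nonneg hρ (u - D.x a)
  have k1 := norm_nonneg (D.y a)
  have k2 := ha.t_nonneg
  have k3 : D.t a ≤ D.en a := le_add_of_nonneg_right (sq_nonneg _)
  have k4 : δ * (‖D.y a‖ * D.t a + ‖D.y a‖ ^ 2) ≤ lam * D.en a + lam ^ 2 :=
    (mul_le_of_le_one_left (by positivity) (by linarith)).trans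
      (add_le_add (mul_le_mul hy k3 k2 (k1.trans hy)) (pow_le_pow_left₀ k1 hy 2))
  have k5 := mul_le_mul_of_nonneg_left ((ha.b_sq v).trans (add_le_add le_rfl
    (mul_le_mul_of_nonneg_right k4 (sq_nonneg ‖v‖)))) k0
  exact k5.trans (le_of_eq (by ring))

theorem gd_s45 (d : ℕ) (M : ℝ) (Q : ℕ) (CU : ℝ) {ι : Type} [Fintype ι]
    (e : OrthonormalBasis ι ℝ H) : ∃ C : ℝ, 0 < C ∧
    ∀ (D : CD d α H) (R δ lam ρ η Δ ϖ Ce : ℝ) (U : ι → ℕ → E d → ℝ) (f : ι → ℝ → ℝ)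
    (lv : ι → ℕ → E d → ℝ) (X : GD d ι), CV D 0 R δ M → δ ≤ 1 / 10 → Ht D lam → 0 < lam →
    2 * lam ≤ ρ → 0 < η → (∀ i, UF D (e i) R lam ρ η Q CU (U i) (f i) (lv i)) →
    X = D.gd e Q ρ Δ ϖ Ce U → ∀ u : E d, ‖u‖ + 16 * ρ ≤ R →
    (∀ v, X.qf Q u v ≤ ⟪X.T0 u v, v⟫ +
      C * (lam / ρ * (D.En u ρ / ρ ^ d) + lam ^ 2) * ‖v‖ ^ 2) ∧
    ∀ i, ∀ j ≤ Q, ∀ x₀ ∈ ball (0 : E d) R, ∀ B : E d →L[ℝ] E d, (X.gm x₀).comp B = 1 →
      0 ≤ AS.tr (B.comp (fderiv ℝ (gradient (X.U i j)) u)) +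
        C * (lam / ρ ^ 2 * (D.En u ρ / ρ ^ d) + (‖u - x₀‖ + ρ) * lam ^ 2 / (ρ ^ 2 * η)) := by
  obtain ⟨C₁, hC₁, h₁⟩ := uf_quad (α := α) (H := H) d M Q CU
  obtain ⟨C₂, hC₂, h₂⟩ := av_le (α := α) (H := H) d M
  have hn : (0 : ℝ) ≤ Fintype.card ι := Nat.cast_nonneg _
  have hU := abs_nonneg CU
  refine ⟨Fintype.card ι * C₁ + C₂ + 4 * |CU|, by positivity,
    fun D R δ lam ρ η Δ ϖ Ce U f lv X h hδ hl hl0 hlρ hη hUF hX u hu => ?_⟩
  subst hX
  have hρ : 0 < ρ := by linarith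
  have hρ1 : ρ ≤ 1 := by linarith [h.R_le, norm_nonneg u]
  have hE : 0 ≤ D.En u ρ / ρ ^ d := div_nonneg (integral_nonneg_of_ae (ae_restrict_of_ae
    (h.pw_av.mono fun a ha => ha.facts_av.1))) (by positivity)
  have hlE : 0 ≤ lam / ρ * (D.En u ρ / ρ ^ d) := by positivity
  refine ⟨fun v => ?_, fun i j hj x₀ hx₀ B hB => ?_⟩
  · obtain ⟨-, -, a1, -, a2, -⟩ := h₂ D 0 R δ lam ρ u h hδ hl hl0 hlρ
    have hT : ⟪(D.gd e Q ρ Δ ϖ Ce U).T0 u v, v⟫ = D.av ρ (fun a => ⟪D.T0 a v, v⟫) u :=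
      (gd_soft (Δ := Δ) h hδ hρ one_pos le_rfl e.orthonormal.1 Q U
        rfl).2.2.2.2.2.2.2.2.2.2.2.2.2.1 u v
    have b1 : (D.gd e Q ρ Δ ϖ Ce U).qf Q u v ≤ _ := Finset.sum_le_sum fun i _ =>
      h₁ D R δ lam ρ η (e i) (U i) (f i) (lv i) h hδ hl hl0 hlρ (e.orthonormal.1 i) (hUF i) u hu v
    rw [Finset.sum_add_distrib, Finset.sum_const, Finset.card_univ, nsmul_eq_mul] at b1
    have b2 := h.sum_av_glbC hδ hl hρ e u v
    have b3 : lam * D.av ρ D.en u ≤ C₂ * (lam / ρ * (D.En u ρ / ρ ^ d)) :=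
      (mul_le_mul (le_div_self hl0.le hρ hρ1) a2 (h₂ D 0 R δ lam ρ u h hδ hl hl0 hlρ).2.2.2.1
        (by positivity)).trans (le_of_eq (by ring))
    have b4 := mul_le_mul_of_nonneg_left b3 (sq_nonneg ‖v‖)
    have b5 := mul_le_mul_of_nonneg_left a1 (show 0 ≤ ‖v‖ ^ 2 * lam ^ 2 by positivity)
    have b6 : 0 ≤ (Fintype.card ι * C₁ + 4 * |CU|) * lam ^ 2 * ‖v‖ ^ 2 := by positivity
    have b7 : 0 ≤ |CU| * (lam / ρ * (D.En u ρ / ρ ^ d)) * ‖v‖ ^ 2 := by positivity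
    rw [hT]
    generalize lam / ρ * (D.En u ρ / ρ ^ d) = y at *
    nlinarith
  · obtain ⟨p1, -, p2, -, p3, -, p4⟩ := h.met.psd (by linarith) hx₀
    have h3 := (hUF i).sub j hj u hu (D.am x₀) (‖u - x₀‖ + ρ) p1 p2 (by positivity) fun x hx => by
      have hx' : ‖x - u‖ < ρ := mem_ball_iff_norm.mp hx
      have hxR : x ∈ ball (0 : E d) R := by
        rw [mem_ball_zero_iff]
        linarith [norm_le_norm_sub_add x u]
      refine (h.met.lip h.δ_nonneg (by linarith) hx₀ hxR).2.1.trans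
        ((mul_le_of_le_one_left (norm_nonneg _) (by linarith)).trans ?_)
      have := norm_sub_le_norm_sub_add_norm_sub x₀ u x
      rw [norm_sub_rev x₀ u, norm_sub_rev u x] at this
      linarith
    rw [p4 B fun v => DFunLike.congr_fun hB v, ContinuousLinearMap.smul_comp,
      (trH_lin _ 0 _).2.2.1] at h3
    change 0 ≤ trH (B.comp (hess (U i j) u)) + _
    have c1 : 0 ≤ lam / ρ ^ 2 * (D.En u ρ / ρ ^ d) := by positivity
    have c2 : 0 ≤ (‖u - x₀‖ + ρ) * lam ^ 2 / (ρ ^ 2 * η) := by positivity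
    have c3 : (‖u - x₀‖ + ρ + ρ) * lam ^ 2 / (ρ ^ 2 * η) ≤
        2 * ((‖u - x₀‖ + ρ) * lam ^ 2 / (ρ ^ 2 * η)) := by
      rw [← mul_div_assoc, ← mul_assoc]
      gcongr
      linarith [norm_nonneg (u - x₀)]
    have c4 : 0 ≤ (‖u - x₀‖ + ρ + ρ) * lam ^ 2 / (ρ ^ 2 * η) := by positivity
    generalize (‖u - x₀‖ + ρ + ρ) * lam ^ 2 / (ρ ^ 2 * η) = z' at *
    generalize (‖u - x₀‖ + ρ) * lam ^ 2 / (ρ ^ 2 * η) = z at *
    generalize lam / ρ ^ 2 * (D.En u ρ / ρ ^ d) = y at *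
    generalize trH (B.comp (hess (U i j) u)) = T at *
    have c5 : CU * (y + z') ≤ |CU| * (2 * (y + z)) :=
      mul_le_mul (le_abs_self _) (by linarith) (by positivity) hU
    have c6 : 0 ≤ (Fintype.card ι * C₁ + C₂) * (y + z) := by positivity
    rcases le_total 0 T with hT | hT
    · positivity
    · nlinarith [mul_le_mul_of_nonpos_right p3 hT]

end Pool.Agent.Lib.MP_8daebb_an.GM
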