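import Pool.Agent.Lib.MP_8daebb_an.GM.Grp
import Pool.Agent.Lib.MP_8daebb_an.GM.UQ
import Pool.Agent.Lib.MP_8daebb_an.SV.Loc

/-! The local comparison at good points. -/

set_option linter.unusedSectionVars false
set_option linter.unusedVariables false

open MeasureTheory Metric Filter Topology Set
open scoped RealInnerProductSpace ENNReal ContDiff

namespace Pool.Agent.Lib.MP_8daebb_an.GM

open LG (vb chi om trS)

variable {d : ℕ} {α : Type*} [MeasurableSpace α] {H : Type*} [NormedAddCommGroup H]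
  [InnerProductSpace ℝ H] [FiniteDimensional ℝ H] [MeasurableSpace H] [BorelSpace H]

theorem sum_locd {Q : ℕ} {G A : ℕ → ℝ} {K X E ϖ : ℝ} (h0 : 0 < ϖ) (h1 : ϖ ≤ 1)
    (hA : ∀ j ≤ Q, |A j| ≤ K) (hK : 4 * K ^ 2 ≤ X) (hG : ∀ j ≤ Q, |G j - A j| ≤ E) :
    |∑ j ∈ Finset.range Q, (G (j + 1) - G j) ^ 2 - ∑ j ∈ Finset.range Q, (A (j + 1) - A j) ^ 2| ≤
      Q * (ϖ * X + 2 / ϖ * (4 * E ^ 2)) := by
  rw [← Finset.sum_sub_distrib]
  refine (Finset.abs_sum_le_sum_abs _ _).trans ((Finset.sum_le_card_nsmul _ _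
    (ϖ * X + 2 / ϖ * (4 * E ^ 2)) fun j hj => ?_).trans ?_)
  · rw [Finset.mem_range] at hj
    have := SV.sq2_loc ((A (j + 1) - A j : ℝ) : ℂ)
      (((G (j + 1) - A (j + 1)) - (G j - A j) : ℝ) : ℂ) h0 h1
    have e : A (j + 1) - A j + ((G (j + 1) - A (j + 1)) - (G j - A j)) = G (j + 1) - G j := by ring
    rw [← Complex.ofReal_add, e, ← Complex.ofReal_pow, ← Complex.ofReal_pow, ← Complex.ofReal_sub,
      Complex.norm_real, Complex.norm_real, Complex.norm_real, Real.norm_eq_abs, Real.norm_eq_abs,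
      Real.norm_eq_abs] at this
    refine this.trans ?_
    have a1 : |A (j + 1) - A j| ≤ 2 * K :=
      (abs_sub _ _).trans (by linarith [hA (j + 1) hj, hA j hj.le])
    have a2 : |(G (j + 1) - A (j + 1)) - (G j - A j)| ≤ 2 * E :=
      (abs_sub _ _).trans (by linarith [hG (j + 1) hj, hG j hj.le])
    have b1 := pow_le_pow_left₀ (abs_nonneg _) a1 2
    have b2 := pow_le_pow_left₀ (abs_nonneg _) a2 2
    have c1 : |A (j + 1) - A j| ^ 2 ≤ X := by linarith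
    have c2 : |(G (j + 1) - A (j + 1)) - (G j - A j)| ^ 2 ≤ 4 * E ^ 2 := by linarith
    gcongr
  · rw [Finset.card_range, nsmul_eq_mul]

omit [MeasurableSpace H] [BorelSpace H] in
theorem two_locd {D : CD d α H} [IsFiniteMeasure D.m] {e : H} {ρ Δ B s : ℝ} {u : E d}
    (mk : Measurable fun a => kr ρ (u - D.x a)) (mz : Measurable (D.z e))
    (mp : Measurable (D.p e)) (md : Measurable (D.dd e))
    (hB : ∀ᵐ a ∂D.m, 0 ≤ kr ρ (u - D.x a) ∧ kr ρ (u - D.x a) ≤ B ∧ ‖D.p e a‖ ≤ B ∧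
      0 ≤ D.dd e a ∧ D.dd e a ≤ B) (hs : 0 ≤ s) {p : α → ℂ}
    (hp : ∀ a a', ‖p a - p a'‖ ^ 2 ≤ s * ‖D.p e a - D.p e a'‖ ^ 2) :
    ∫ a, ∫ a', kr ρ (u - D.x a) * kr ρ (u - D.x a') * (1 + ((D.z e a - D.z e a') / Δ) ^ 2)⁻¹ *
      (‖p a - p a'‖ ^ 2 + s * D.dd e a + s * D.dd e a') ∂D.m ∂D.m ≤ s * D.two e ρ Δ u := by
  have w0 : ∀ a a', 0 ≤ (1 + ((D.z e a - D.z e a') / Δ) ^ 2)⁻¹ := fun a a' => by positivity
  have w1 : ∀ a a', (1 + ((D.z e a - D.z e a') / Δ) ^ 2)⁻¹ ≤ 1 := fun a a' =>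
    inv_le_one_of_one_le₀ (le_add_of_nonneg_right (sq_nonneg _))
  have hF : Integrable (fun q : α × α => kr ρ (u - D.x q.1) * kr ρ (u - D.x q.2) *
      (1 + ((D.z e q.1 - D.z e q.2) / Δ) ^ 2)⁻¹ *
      (‖D.p e q.1 - D.p e q.2‖ ^ 2 + D.dd e q.1 + D.dd e q.2)) (D.m.prod D.m) := by
    refine Integrable.of_bound (Measurable.aestronglyMeasurable ?_)
      (B * B * 1 * ((B + B) ^ 2 + B + B)) ?_
    · exact (((mk.comp measurable_fst).mul (mk.comp measurable_snd)).mul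
        ((((mz.comp measurable_fst).sub (mz.comp measurable_snd)).div_const Δ).pow_const 2
          |>.const_add 1).inv).mul
        (((((mp.comp measurable_fst).sub (mp.comp measurable_snd)).norm.pow_const 2).add
          (md.comp measurable_fst)).add (md.comp measurable_snd))
    · filter_upwards [Measure.quasiMeasurePreserving_fst.ae hB,
        Measure.quasiMeasurePreserving_snd.ae hB] with q ⟨a1, a2, a3, a4, a5⟩ ⟨b1, b2, b3, b4, b5⟩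
      have c0 := w0 q.1 q.2
      have c1 := w1 q.1 q.2
      have c2 : ‖D.p e q.1 - D.p e q.2‖ ≤ B + B := (norm_sub_le _ _).trans (add_le_add a3 b3)
      have c3 : 0 ≤ B := a1.trans a2
      rw [Real.norm_of_nonneg (by positivity)]
      gcongr
  rw [CD.two, ← integral_const_mul]
  refine integral_mono_of_nonneg ?_ (hF.integral_prod_left.const_mul s) ?_
  · filter_upwards [hB] with a ⟨a1, _, _, a4, _⟩
    refine integral_nonneg_of_ae ?_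
    filter_upwards [hB] with a' ⟨b1, _, _, b4, _⟩
    have c0 := w0 a a'
    change 0 ≤ _ * _
    positivity
  · filter_upwards [hB, hF.prod_right_ae] with a ⟨a1, _, _, a4, _⟩ hi
    rw [← integral_const_mul]
    refine integral_mono_of_nonneg ?_ (hi.const_mul s) ?_
    · filter_upwards [hB] with a' ⟨b1, _, _, b4, _⟩
      have c0 := w0 a a'
      change 0 ≤ _ * _
      positivity
    · filter_upwards [hB] with a' ⟨b1, _, _, b4, _⟩
      have c0 := mul_nonneg (mul_nonneg a1 b1) (w0 a a')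
      have c1 := mul_le_mul_of_nonneg_left (hp a a') c0
      linarith

theorem loc_dd (d : ℕ) (M : ℝ) {CI : ℝ} (hCI : 0 ≤ CI) (Q : ℕ) (C₀ : ℝ) : ∃ C : ℝ, 0 < C ∧
    ∃ Λ : ℝ, 1 ≤ Λ ∧ ∃ c₀ : ℝ, 0 < c₀ ∧ ∃ δ₀ : ℝ, 0 < δ₀ ∧
    ∀ (D : CD d α H) (R δ lam ρ η : ℝ) (N : E d → ℕ) (e : H) (u : E d),
    MS D R δ M lam ρ CI Q N → δ ≤ δ₀ → ‖e‖ = 1 → 0 < η → η ≤ ρ / 2 → ‖u‖ + 64 * ρ ≤ R →
    D.En u (32 * ρ) * ρ ^ 2 ≤ c₀ * η ^ (d + 2) →
    D.av ρ (D.dd e) u ≤ 2 * D.two e ρ (Λ * η) u ∧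
    ∀ (ϖ : ℝ) (U : ℕ → E d → ℝ) (f : ℝ → ℝ) (lv : ℕ → E d → ℝ), lam ≤ c₀ * ρ → lam / ρ ≤ ϖ →
      ϖ ≤ 1 → UF D e R lam ρ η Q C₀ U f lv → ∀ v : E d,
      |∑ j ∈ Finset.range Q, fderiv ℝ (fun y => U (j + 1) y - U j y) u v ^ 2 -
          D.av ρ (fun a => ⟪D.p e a, v⟫ ^ 2) u| ≤
        C * (ϖ * (D.En u ρ / ρ ^ d) + D.two e ρ (Λ * η) u / ϖ) * ‖v‖ ^ 2 := by
  obtain ⟨Cg, hCg, Λ, hΛ, c₀, hc₀, δ₀, hδ₀, hg⟩ := grp (α := α) (H := H) d M hCI Q
  obtain ⟨CL, hCL, hL⟩ := SV.loc (α := α) Q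
  obtain ⟨Ca, hCa, ha⟩ := av_le (α := α) (H := H) d M
  obtain ⟨Ce, hCe, hen⟩ := en_le (α := α) (H := H) d M
  set K : ℝ := Cg * (Ce * 64 ^ d) + |C₀| with hK
  have hK0 : 0 ≤ K := by positivity
  set c₁ : ℝ := 1 / (4 * (Cg + |C₀| + 1)) with hc₁
  have hc₁0 : 0 < c₁ := by positivity
  have hc₁1 : Cg * c₁ + |C₀| * c₁ + c₁ = 1 / 4 := by
    rw [hc₁]
    field_simp
  refine ⟨CL * (8 * (1 + K) * Ca + 1) + Q * (36 * Ca ^ 2 + 8 * C₀ ^ 2), by positivity, Λ, hΛ,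
    min c₀ c₁, by positivity, min δ₀ (1 / 10), by positivity, ?_⟩
  intro D R δ lam ρ η N e u hms hδ he hη hηρ hu hEn
  have hcv := hms.cv
  have hρ0 := hms.ρ_pos
  have hl0 := hms.lam_pos
  have hlρ := hms.lam_le
  have hδ2 : δ ≤ 1 / 10 := hδ.trans (min_le_right _ _)
  have hρd : 0 < ρ ^ d := by positivity
  obtain ⟨Cs, wd, Qc, hG, hwd⟩ := hg D R δ lam ρ η N e u hms (hδ.trans (min_le_left _ _)) he hη hηρ
    (by linarith) (hEn.trans (mul_le_mul_of_nonneg_right (min_le_left _ _) (by positivity)))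
  have hE32 : D.En u (32 * ρ) / ρ ^ d ≤ c₁ := by
    rw [div_le_iff₀ hρd]
    refine le_of_mul_le_mul_right (hEn.trans ?_) (pow_pos hρ0 2)
    rw [mul_assoc, ← pow_add]
    exact mul_le_mul (min_le_right _ _) (pow_le_pow_left₀ hη.le (by linarith) _) (by positivity)
      hc₁0.le
  have hE0 : 0 ≤ D.En u ρ / ρ ^ d := div_nonneg (hcv.nonneg u ρ).2.2.2.1 hρd.le
  have hE1 : D.En u ρ / ρ ^ d ≤ D.En u (32 * ρ) / ρ ^ d :=
    div_le_div_of_nonneg_right (hcv.cyl_mono (by rw [sub_self, norm_zero]; linarith)).2.2.2 hρd.le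
  have p1 : 0 ≤ Cg * c₁ := by positivity
  have p2 : 0 ≤ |C₀| * c₁ := by positivity
  have p3 : Cg * (D.En u (32 * ρ) / ρ ^ d) ≤ Cg * c₁ := by gcongr
  have := hcv.fin
  obtain ⟨mz, mp, md, -, -, -⟩ := hcv.meas_e e
  obtain ⟨-, -, -, ien, isq, -⟩ := hcv.integrable_t
  have mk : Measurable fun a => kr ρ (u - D.x a) :=
    (kr_meas_av ρ).comp (measurable_const.sub hcv.m_x)
  have hsc := hcv.ae_met.mono fun a ha => ha.1.scal hcv.δ_nonneg (by linarith) ha.2.2.2.2 he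
  set B : ℝ := Ck d / ρ ^ d + 8 * (d + 1) with hBdef
  have hCk := one_le_Ck d
  have hd0 : (0 : ℝ) ≤ d := Nat.cast_nonneg d
  have hB : ∀ᵐ a ∂D.m, 0 ≤ kr ρ (u - D.x a) ∧ kr ρ (u - D.x a) ≤ B ∧ ‖D.p e a‖ ≤ B ∧
      0 ≤ D.dd e a ∧ D.dd e a ≤ B := by
    filter_upwards [hsc] with a ⟨_, _, h3, _, h5, _, _, _, _, _, _, h10, h11, _⟩
    have p0 : 0 ≤ Ck d / ρ ^ d := by positivity
    refine ⟨kr_nonneg hρ0 _, by linarith [(kr_le hρ0 (u - D.x a)).1], ?_, h10, by linarith⟩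
    have : ‖D.p e a‖ ≤ 8 * (d + 1) := by
      by_contra hc
      push Not at hc
      nlinarith
    linarith
  have hcov : ∀ᵐ a ∂D.m, kr ρ (u - D.x a) ≠ 0 → ∃ c ∈ Cs, |D.z e a - c| ≤ wd := by
    filter_upwards [hG.cover] with a ha hk
    refine ha ?_
    by_contra hc
    exact hk (kr_off_av hρ0 hc)
  have hdd : D.av ρ (D.dd e) u ≤ 2 * D.two e ρ (Λ * η) u := by
    have h1 := SV.loc_dd (p := fun _ => 0) mk mz md measurable_const
      (hB.mono fun a ha => ⟨ha.1, ha.2.1, by rw [norm_zero]; exact ha.1.trans ha.2.1, ha.2.2.2⟩)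
      hG.wd_pos hwd hcov (fun c hc c' hc' h => by linarith [hG.gap c hc c' hc' h]) fun c hc => by
        have h1 : (1 : ℝ) ≤ Qc c := by exact_mod_cast hG.one_le c hc
        have h2 := (abs_le.1 (hG.mass c hc)).1
        rw [CD.av] at h2
        linarith
    have h2 := two_locd (Δ := Λ * η) (p := fun _ => 0) mk mz mp md hB zero_le_one fun a a' => by
      simp
    simp only [one_mul] at h2
    exact h1.trans (by linarith)
  refine ⟨hdd, fun ϖ U f lv hlc hlϖ hϖ1 hU v => ?_⟩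
  have hq0 : 0 < lam / ρ := by positivity
  have hϖ0 : 0 < ϖ := hq0.trans_le hlϖ
  have hqc : lam / ρ ≤ c₁ := by
    rw [div_le_iff₀ hρ0]
    exact hlc.trans (mul_le_mul_of_nonneg_right (min_le_right _ _) hρ0.le)
  have hu16 : ‖u‖ + 16 * ρ ≤ R := by linarith
  have hdd0 : 0 ≤ D.av ρ (D.dd e) u :=
    integral_nonneg_of_ae (hB.mono fun a ha => mul_nonneg ha.1 ha.2.2.2.1)
  have hT0 : 0 ≤ D.two e ρ (Λ * η) u / ϖ := div_nonneg (by linarith) hϖ0.le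
  have hE2 : D.En u (32 * ρ) / ρ ^ d ≤ Ce * 64 ^ d * ϖ := by
    have h1 := hen D 0 R δ lam hcv hδ2 hms.ht hl0 u (32 * ρ) (32 * ρ) (by positivity) (by linarith)
      (by rw [sub_zero]; linarith)
    rw [div_le_iff₀ hρd]
    refine h1.trans ?_
    have e1 : Ce * lam ^ 2 * ((32 * ρ + 32 * ρ) ^ d / (32 * ρ) ^ 2) =
        Ce * 64 ^ d * (lam / ρ * (lam / ρ / 1024)) * ρ ^ d := by
      rw [show 32 * ρ + 32 * ρ = 64 * ρ by ring, mul_pow]
      field_simp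
      norm_num
    rw [e1]
    have h2 : lam / ρ * (lam / ρ / 1024) ≤ ϖ :=
      (mul_le_of_le_one_right hq0.le (by linarith)).trans hlϖ
    gcongr
  set ε : ℝ := Cg * (D.En u (32 * ρ) / ρ ^ d) + |C₀| * (lam / ρ) with hε
  have q1 : 0 ≤ Cg * (D.En u (32 * ρ) / ρ ^ d) := mul_nonneg hCg.le (hE0.trans hE1)
  have q2 : 0 ≤ |C₀| * (lam / ρ) := by positivity
  have q3 : |C₀| * (lam / ρ) ≤ |C₀| * c₁ := by gcongr
  have hεK : ε ≤ K * ϖ := by
    have a1 := mul_le_mul_of_nonneg_left hE2 hCg.le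
    have a2 := mul_le_mul_of_nonneg_left hlϖ (abs_nonneg C₀)
    rw [hε, hK]
    linarith
  have hv0 := norm_nonneg v
  have h1 := hL D.m (fun a => kr ρ (u - D.x a)) (D.z e) (fun a => ‖v‖ ^ 2 * D.dd e a)
    (fun a => ((⟪D.p e a, v⟫ : ℝ) : ℂ)) (B * (1 + ‖v‖) ^ 2) η wd (Λ * η) ε ϖ Cs Qc f
    (fun j => lv j u) mk mz (md.const_mul _)
    (Complex.measurable_ofReal.comp (mp.inner measurable_const))
    (hB.mono fun a ⟨a1, a2, a3, a4, a5⟩ => by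
      have b0 : 0 ≤ B := a1.trans a2
      have b1 := mul_nonneg b0 hv0
      have b2 := mul_nonneg b0 (sq_nonneg ‖v‖)
      have b3 := mul_le_mul_of_nonneg_right a3 hv0
      have b4 := mul_le_mul_of_nonneg_left a5 (sq_nonneg ‖v‖)
      refine ⟨a1, by linarith, ?_, by positivity, by linarith⟩
      rw [Complex.norm_real]
      exact (norm_inner_le_norm _ _).trans (by linarith))
    hη hG.wd_pos hwd (by linarith) (by linarith) hϖ0 hϖ1 hcov hG.gap hG.one_le hG.sum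
    (fun c hc => (hG.mass c hc).trans (by linarith)) hU.f_cont hU.f_mem hU.f_zero hU.f_one
    fun j hj => (hU.lev j hj u hu16).trans (by
      have := mul_le_mul_of_nonneg_right (le_abs_self C₀) hq0.le
      linarith)
  have h2 := two_locd (Δ := Λ * η) (p := fun a => ((⟪D.p e a, v⟫ : ℝ) : ℂ)) mk mz mp md hB
    (sq_nonneg ‖v‖) fun a a' => by
      rw [← Complex.ofReal_sub, Complex.norm_real, ← inner_sub_left, mul_comm, ← mul_pow]
      exact pow_le_pow_left₀ (norm_nonneg _) (norm_inner_le_norm _ _) 2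
  obtain ⟨-, -, -, -, v1, v2, v3, -⟩ := ha D 0 R δ lam ρ u hcv hδ2 hms.ht hl0 hlρ
  have cm : ∀ (c : ℝ) (g : α → ℝ), D.av ρ (fun a => c * g a) u = c * D.av ρ g u := fun c g => by
    simp only [CD.av, smul_eq_mul]
    rw [← integral_const_mul]
    congr 1
    ext a
    ring
  have hp2 : D.av ρ (fun a => ⟪D.p e a, v⟫ ^ 2) u ≤ 8 * Ca * (D.En u ρ / ρ ^ d) * ‖v‖ ^ 2 := by
    have a1 := (hcv.norm_av_le hρ0 (f := fun a => ⟪D.p e a, v⟫ ^ 2) (ien.const_mul (8 * ‖v‖ ^ 2)) u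
      (hsc.mono fun a ha _ => by
        rw [norm_pow]
        refine (pow_le_pow_left₀ (norm_nonneg _) (norm_inner_le_norm _ _) 2).trans ?_
        have := mul_le_mul_of_nonneg_right ha.2.2.2.2.1 (sq_nonneg ‖v‖)
        linarith)).1
    rw [cm] at a1
    have a2 := mul_le_mul_of_nonneg_left v1 (show 0 ≤ 8 * ‖v‖ ^ 2 by positivity)
    linarith [le_abs_self (D.av ρ (fun a => ⟪D.p e a, v⟫ ^ 2) u), Real.norm_eq_abs
      (D.av ρ (fun a => ⟪D.p e a, v⟫ ^ 2) u)]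
  have hfp : ∀ j, ∀ᵐ a ∂D.m, ‖f (D.z e a - lv j u) • D.p e a‖ ≤ 3 * √(D.en a) := fun j =>
    hsc.mono fun a ha => by
      rw [norm_smul, Real.norm_of_nonneg (hU.f_mem _).1]
      have b1 : ‖D.p e a‖ ≤ 3 * √(D.en a) := by
        refine abs_le_of_sq_le_sq' ?_ (by positivity) |>.2
        rw [mul_pow, Real.sq_sqrt ha.2.1]
        linarith [ha.2.2.2.2.1, ha.2.1]
      exact (mul_le_of_le_one_left (norm_nonneg _) (hU.f_mem _).2).trans b1
  have hA : ∀ j ≤ Q, |⟪D.av ρ (fun a => f (D.z e a - lv j u) • D.p e a) u, v⟫| ≤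
      3 * (Ca * √(D.En u ρ / ρ ^ d)) * ‖v‖ := fun j _ => by
    have a1 := (hcv.norm_av_le hρ0 (isq.const_mul 3) u ((hfp j).mono fun a ha _ => ha)).1
    rw [cm] at a1
    exact (abs_real_inner_le_norm _ _).trans (mul_le_mul_of_nonneg_right (by linarith) hv0)
  have h3 := sum_locd (G := fun j => fderiv ℝ (U j) u v)
    (X := 36 * Ca ^ 2 * (D.En u ρ / ρ ^ d) * ‖v‖ ^ 2)
    (E := C₀ * (lam / ρ * (D.En u ρ / ρ ^ d)) * ‖v‖) hϖ0 hϖ1 hA
    (by simp only [mul_pow, Real.sq_sqrt hE0]; linarith) fun j hj => by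
      rw [← inner_grad, ← inner_sub_left]
      exact (abs_real_inner_le_norm _ _).trans
        (mul_le_mul_of_nonneg_right (hU.gr j hj u hu16) hv0)
  have e1 : ∀ j, ∫ a, kr ρ (u - D.x a) • f (D.z e a - lv j u) • ((⟪D.p e a, v⟫ : ℝ) : ℂ) ∂D.m =
      ((⟪D.av ρ (fun a => f (D.z e a - lv j u) • D.p e a) u, v⟫ : ℝ) : ℂ) := fun j => by
    have i1 : Integrable (fun a => f (D.z e a - lv j u) • D.p e a) D.m :=
      (isq.const_mul 3).mono' (((hU.f_cont.measurable.comp (mz.sub_const _)).smul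
        mp).aestronglyMeasurable) (hfp j)
    rw [real_inner_comm, CD.av, ← integral_inner (hcv.int_av hρ0 i1 u), ← integral_complex_ofReal]
    congr 1
    ext a
    rw [real_inner_smul_right, real_inner_smul_right, real_inner_comm]
    simp
  have e2 : ∫ a, kr ρ (u - D.x a) • ((⟪D.p e a, v⟫ : ℝ) : ℂ) ^ 2 ∂D.m =
      ((D.av ρ (fun a => ⟪D.p e a, v⟫ ^ 2) u : ℝ) : ℂ) := by
    rw [CD.av, ← integral_complex_ofReal]
    congr 1
    ext a
    simp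
  have e3 : ∫ a, kr ρ (u - D.x a) • ‖((⟪D.p e a, v⟫ : ℝ) : ℂ)‖ ^ 2 ∂D.m =
      D.av ρ (fun a => ⟪D.p e a, v⟫ ^ 2) u := by
    simp only [CD.av, Complex.norm_real, Real.norm_eq_abs, sq_abs]
  have e4 : ∀ j, fderiv ℝ (fun y => U (j + 1) y - U j y) u v =
      fderiv ℝ (U (j + 1)) u v - fderiv ℝ (U j) u v := fun j => by
    rw [fderiv_fun_sub (((hU.smooth _).differentiable two_ne_zero) u)
      (((hU.smooth _).differentiable two_ne_zero) u), sub_apply]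
  have h4 := div_le_div_of_nonneg_right h2 hϖ0.le
  rw [mul_div_assoc] at h4
  rw [e2, e3] at h1
  generalize (∫ a, ∫ a', kr ρ (u - D.x a) * kr ρ (u - D.x a') *
    (1 + ((D.z e a - D.z e a') / (Λ * η)) ^ 2)⁻¹ *
    (‖((⟪D.p e a, v⟫ : ℝ) : ℂ) - ((⟪D.p e a', v⟫ : ℝ) : ℂ)‖ ^ 2 + ‖v‖ ^ 2 * D.dd e a +
      ‖v‖ ^ 2 * D.dd e a') ∂D.m ∂D.m) / ϖ = W at h1 h4
  simp only [e1, ← Complex.ofReal_sub, ← Complex.ofReal_pow, ← Complex.ofReal_sum] at h1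
  rw [Complex.norm_real, Real.norm_eq_abs] at h1
  simp only [e4]
  refine ((abs_sub_le _ _ _).trans (add_le_add h3 h1)).trans ?_
  have h5 : (ϖ + ε) * D.av ρ (fun a => ⟪D.p e a, v⟫ ^ 2) u ≤
      8 * (1 + K) * Ca * (ϖ * (D.En u ρ / ρ ^ d) * ‖v‖ ^ 2) := by
    have a1 := mul_le_mul_of_nonneg_left hp2 (show 0 ≤ ϖ + ε by linarith)
    have a2 := mul_le_mul_of_nonneg_right (show ϖ + ε ≤ (1 + K) * ϖ by linarith)
      (show 0 ≤ 8 * Ca * (D.En u ρ / ρ ^ d) * ‖v‖ ^ 2 by positivity)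
    linarith
  have h6 : 2 / ϖ * (4 * (C₀ * (lam / ρ * (D.En u ρ / ρ ^ d)) * ‖v‖) ^ 2) ≤
      8 * C₀ ^ 2 * (ϖ * (D.En u ρ / ρ ^ d) * ‖v‖ ^ 2) := by
    rw [div_mul_eq_mul_div, div_le_iff₀ hϖ0]
    have a1 : (lam / ρ * (D.En u ρ / ρ ^ d)) ^ 2 ≤ ϖ ^ 2 * (D.En u ρ / ρ ^ d) := by
      rw [mul_pow]
      refine mul_le_mul (pow_le_pow_left₀ hq0.le hlϖ 2) ?_ (sq_nonneg _) (sq_nonneg _)
      rw [sq]
      exact mul_le_of_le_one_right hE0 (by linarith)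
    have a2 := mul_le_mul_of_nonneg_left a1 (show 0 ≤ 8 * C₀ ^ 2 * ‖v‖ ^ 2 by positivity)
    linarith
  have hY : 0 ≤ ϖ * (D.En u ρ / ρ ^ d) * ‖v‖ ^ 2 := by positivity
  have hT : 0 ≤ ‖v‖ ^ 2 * (D.two e ρ (Λ * η) u / ϖ) := by positivity
  have b1 := mul_le_mul_of_nonneg_left (add_le_add h5 h4) hCL.le
  have b2 := mul_le_mul_of_nonneg_left h6 (Nat.cast_nonneg Q : (0 : ℝ) ≤ Q)
  have b3 : 0 ≤ CL * (8 * (1 + K) * Ca) * (‖v‖ ^ 2 * (D.two e ρ (Λ * η) u / ϖ)) := by positivity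
  have b4 := mul_nonneg hCL.le hY
  have b5 : 0 ≤ Q * (36 * Ca ^ 2 + 8 * C₀ ^ 2) * (‖v‖ ^ 2 * (D.two e ρ (Λ * η) u / ϖ)) := by
    positivity
  linarith

end Pool.Agent.Lib.MP_8daebb_an.GM
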