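import Pool.Agent.Lib.MP_8daebb_an.GM.GlbA
import Pool.Agent.Lib.MP_8daebb_an.GM.LocD

/-! The coarse-grained data at good points. -/

set_option linter.unusedSectionVars false
set_option linter.unusedVariables false

open MeasureTheory Metric Filter Topology Set
open scoped RealInnerProductSpace ENNReal ContDiff

namespace Pool.Agent.Lib.MP_8daebb_an.GM

open LG (vb chi om trS)

variable {d : ℕ} {α : Type*} [MeasurableSpace α] {H : Type*} [NormedAddCommGroup H]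
  [InnerProductSpace ℝ H] [FiniteDimensional ℝ H] [MeasurableSpace H] [BorelSpace H]

theorem av_mono_glbd {D : CD d α H} {c : E d} {R δ M ρ : ℝ} (h : CV D c R δ M) (hρ : 0 < ρ)
    {f g : α → ℝ} (hf : Integrable f D.m) (hg : Integrable g D.m) (hfg : ∀ᵐ a ∂D.m, f a ≤ g a)
    (u : E d) : D.av ρ f u ≤ D.av ρ g u :=
  integral_mono_ae (h.int_av hρ hf u) (h.int_av hρ hg u)
    (hfg.mono fun a ha => mul_le_mul_of_nonneg_left ha (kr_nonneg hρ _))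

theorem av_nonneg_glbd {D : CD d α H} {ρ : ℝ} (hρ : 0 < ρ) {f : α → ℝ}
    (hf : ∀ᵐ a ∂D.m, 0 ≤ f a) (u : E d) : 0 ≤ D.av ρ f u :=
  integral_nonneg_of_ae (hf.mono fun a ha => mul_nonneg (kr_nonneg hρ _) ha)

theorem av_add_glbd {D : CD d α H} {c : E d} {R δ M ρ : ℝ} (h : CV D c R δ M) (hρ : 0 < ρ)
    {f g : α → ℝ} (hf : Integrable f D.m) (hg : Integrable g D.m) (u : E d) :
    D.av ρ (fun a => f a + g a) u = D.av ρ f u + D.av ρ g u := by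
  simp only [CD.av, smul_add]
  exact integral_add (h.int_av hρ hf u) (h.int_av hρ hg u)

theorem av_sub_glbd {D : CD d α H} {c : E d} {R δ M ρ : ℝ} (h : CV D c R δ M) (hρ : 0 < ρ)
    {f g : α → ℝ} (hf : Integrable f D.m) (hg : Integrable g D.m) (u : E d) :
    D.av ρ (fun a => f a - g a) u = D.av ρ f u - D.av ρ g u := by
  simp only [CD.av, smul_sub]
  exact integral_sub (h.int_av hρ hf u) (h.int_av hρ hg u)

theorem av_mul_glbd (D : CD d α H) (ρ k : ℝ) (f : α → ℝ) (u : E d) :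
    D.av ρ (fun a => k * f a) u = k * D.av ρ f u := by
  simp only [CD.av, smul_eq_mul, mul_left_comm _ k]
  exact integral_const_mul _ _

theorem av_sum_glbd {D : CD d α H} {c : E d} {R δ M ρ : ℝ} (h : CV D c R δ M) (hρ : 0 < ρ)
    {ι : Type*} [Fintype ι] {f : ι → α → ℝ} (hf : ∀ i, Integrable (f i) D.m) (u : E d) :
    D.av ρ (fun a => ∑ i, f i a) u = ∑ i, D.av ρ (f i) u := by
  simp only [CD.av, Finset.smul_sum]
  exact integral_finsetSum _ fun i _ => h.int_av hρ (hf i) u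

theorem int_glbd {D : CD d α H} {c : E d} {R δ M : ℝ} (h : CV D c R δ M) (hδ : δ ≤ 1 / 2)
    {e : H} (he : ‖e‖ = 1) (v : E d) :
    Integrable (D.dd e) D.m ∧ Integrable (fun a => ⟪D.p e a, v⟫ ^ 2) D.m := by
  have i4 := h.integrable_t.2.2.2.1
  obtain ⟨-, m2, m3, -⟩ := h.meas_e e
  refine ⟨(i4.const_mul 6).mono' m3.aestronglyMeasurable ?_,
    ((i4.const_mul 8).mul_const (‖v‖ ^ 2)).mono'
      ((m2.inner measurable_const).pow_const 2).aestronglyMeasurable ?_⟩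
  · filter_upwards [h.ae_met] with a ha
    obtain ⟨-, -, -, -, -, -, -, -, -, -, -, h1, h2, -⟩ :=
      ha.1.scal h.δ_nonneg hδ ha.2.2.2.2 he
    rwa [Real.norm_of_nonneg h1]
  · filter_upwards [h.ae_met] with a ha
    obtain ⟨-, -, -, -, h1, -⟩ := ha.1.scal h.δ_nonneg hδ ha.2.2.2.2 he
    rw [Real.norm_of_nonneg (sq_nonneg _), ← sq_abs]
    refine (pow_le_pow_left₀ (abs_nonneg _) (abs_real_inner_le_norm _ _) 2).trans ?_
    rw [mul_pow]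
    exact mul_le_mul_of_nonneg_right h1 (sq_nonneg _)

theorem int_T0_glbd {D : CD d α H} {c : E d} {R δ M : ℝ} (h : CV D c R δ M) (v : E d) :
    Integrable (fun a => ⟪D.T0 a v, v⟫) D.m := by
  have hc : Continuous fun A : E d →L[ℝ] E d => ⟪A v, v⟫ := by fun_prop
  refine ((h.integrable_t.1.const_mul 2).mul_const (‖v‖ * ‖v‖)).mono'
    (hc.measurable.comp h.m_T0).aestronglyMeasurable ?_
  filter_upwards [h.ae_pw] with a ha
  refine (abs_real_inner_le_norm _ _).trans ?_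
  rw [← mul_assoc]
  exact mul_le_mul_of_nonneg_right (((D.T0 a).le_opNorm v).trans
    (mul_le_mul_of_nonneg_right ha.T0_le (norm_nonneg _))) (norm_nonneg _)

theorem av_sq_glbd {D : CD d α H} {c : E d} {R δ M ρ : ℝ} (h : CV D c R δ M) (hδ : δ ≤ 1 / 2)
    (hρ : 0 < ρ) {ι : Type} [Fintype ι] (e : OrthonormalBasis ι ℝ H) (u : E d) :
    D.av ρ (fun a => D.t a ^ 2) u ≤ 2 * Module.finrank ℝ H * ∑ i, D.av ρ (D.dd (e i)) u := by
  have i1 := fun i => (int_glbd h hδ (e.orthonormal.1 i) 0).1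
  rw [← av_sum_glbd h hρ i1, ← av_mul_glbd]
  refine av_mono_glbd h hρ h.integrable_t.2.1
    ((integrable_finsetSum _ fun i _ => i1 i).const_mul _) ?_ u
  filter_upwards [h.ae_met] with a ha using (ha.1.sum_basis h.δ_nonneg hδ ha.2.2.2.2 e).1

theorem hopf_glbd {D : CD d α H} {c : E d} {R δ M ρ ϖ : ℝ} (h : CV D c R δ M) (hδ : δ ≤ 1 / 2)
    (hρ : 0 < ρ) (hϖ : Ht D ϖ) (hϖ0 : 0 ≤ ϖ) {ι : Type} [Fintype ι]
    (e : OrthonormalBasis ι ℝ H) (u v : E d) :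
    |D.av ρ (fun a => ⟪D.T0 a v, v⟫) u - ∑ i, D.av ρ (fun a => ⟪D.p (e i) a, v⟫ ^ 2) u| ≤
      Ck d * vb d * 16 ^ d * (2 * D.av (16 * ρ) (fun a => D.t a ^ 2) u +
        ϖ * D.av (16 * ρ) D.t u + D.av (16 * ρ) (fun a => ‖D.y a‖ ^ 2) u) * ‖v‖ ^ 2 := by
  have i1 := fun i => (int_glbd h hδ (e.orthonormal.1 i) v).2
  obtain ⟨j1, j2, j3, -⟩ := h.integrable_t
  have h16 : 0 < 16 * ρ := by positivity
  have j4 : Integrable (fun a => 2 * D.t a ^ 2 + ϖ * D.t a) D.m :=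
    (j2.const_mul 2).add (j1.const_mul ϖ)
  have j5 : Integrable (fun a => 2 * D.t a ^ 2 + ϖ * D.t a + ‖D.y a‖ ^ 2) D.m := j4.add j3
  have p5 : ∀ᵐ a ∂D.m, 0 ≤ 2 * D.t a ^ 2 + ϖ * D.t a + ‖D.y a‖ ^ 2 := by
    filter_upwards [h.ae_pw] with a ha
    have := ha.t_nonneg
    positivity
  rw [← av_sum_glbd h hρ i1,
    ← av_sub_glbd h hρ (int_T0_glbd h v) (integrable_finsetSum _ fun i _ => i1 i),
    ← av_mul_glbd, ← av_mul_glbd, ← av_add_glbd h h16 (j2.const_mul 2) (j1.const_mul ϖ),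
    ← av_add_glbd h h16 j4 j3]
  refine le_trans (h.norm_av_le (f := fun a => ⟪D.T0 a v, v⟫ - ∑ i, ⟪D.p (e i) a, v⟫ ^ 2) hρ
    (j5.const_mul (‖v‖ ^ 2)) u ?_).1 ?_
  · filter_upwards [h.ae_met, hϖ] with a ha hy _
    rw [(ha.1.sum_basis h.δ_nonneg hδ ha.2.2.2.2 e).2 v, ← real_inner_self_eq_norm_sq]
    refine (ha.1.hopf v v).trans ?_
    have h1 := ha.1.t_nonneg
    have h2 : ‖D.y a‖ * D.t a ≤ ϖ * D.t a := mul_le_mul_of_nonneg_right hy h1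
    have h3 : δ * (‖D.y a‖ * D.t a + ‖D.y a‖ ^ 2) ≤ 1 * (‖D.y a‖ * D.t a + ‖D.y a‖ ^ 2) :=
      mul_le_mul_of_nonneg_right (by linarith) (by positivity)
    rw [mul_assoc, ← sq, mul_comm]
    exact mul_le_mul_of_nonneg_left (by linarith) (sq_nonneg _)
  · rw [av_mul_glbd, mul_comm]
    exact mul_le_mul_of_nonneg_right (h.cyl_av hρ j5 p5 u).2.2.2 (sq_nonneg _)

theorem cyl_glbd {D : CD d α H} {c : E d} {R δ M ρ : ℝ} (h : CV D c R δ M) (hρ : 0 < ρ)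
    {f : α → ℝ} (hf : Integrable f D.m) (h0 : ∀ᵐ a ∂D.m, 0 ≤ f a) (u : E d) :
    (∫ a in D.cyl u (8 * ρ), f a ∂D.m) / ρ ^ d ≤ vb d * 16 ^ d * D.av (16 * ρ) f u := by
  have h1 := (h.cyl_av (ρ := 16 * ρ) (by positivity) hf h0 u).2.2.1
  rw [show 16 * ρ / 2 = 8 * ρ by ring, mul_pow] at h1
  rw [div_le_iff₀ (by positivity)]
  linarith

theorem gd_s6 (d : ℕ) (M : ℝ) {CI : ℝ} (hCI : 0 ≤ CI) (Q : ℕ) (CU : ℝ) {ι : Type} [Fintype ι]
    (e : OrthonormalBasis ι ℝ H) : ∃ Ce : ℝ, 0 < Ce ∧ ∃ Λ : ℝ, 1 ≤ Λ ∧ ∃ c₀ : ℝ, 0 < c₀ ∧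
    ∃ δ₀ : ℝ, 0 < δ₀ ∧ ∀ (D : CD d α H) (R δ lam ρ η ϖ : ℝ) (N : E d → ℕ)
    (U : ι → ℕ → E d → ℝ) (f : ι → ℝ → ℝ) (lv : ι → ℕ → E d → ℝ) (X : GD d ι),
    MS D R δ M lam ρ CI Q N → δ ≤ δ₀ → 0 < η → η ≤ lam → lam ≤ c₀ * ρ → lam / ρ ≤ ϖ → ϖ ≤ 1 →
    (∀ i, UF D (e i) R lam ρ η Q CU (U i) (f i) (lv i)) → X = D.gd e Q ρ (Λ * η) ϖ Ce U →
    ∀ u : E d, ‖u‖ + 1024 * ρ ≤ R → D.En u (512 * ρ) * ρ ^ 2 ≤ c₀ * η ^ (d + 2) →
    |2 * X.ε u - X.t u| ≤ X.ee u ∧ ∀ v, |⟪X.T0 u v, v⟫ - X.qf Q u v| ≤ X.ee u * ‖v‖ ^ 2 := by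
  obtain ⟨C₁, hC₁, Λ, hΛ, c₁, hc₁, δ₁, hδ₁, hloc⟩ := loc_dd (α := α) (H := H) d M hCI Q CU
  obtain ⟨C₂, hC₂, hone⟩ := ms_av_one (α := α) (H := H) d hCI
  have hvb := LG.vb_pos d
  have hCk : 0 < Ck d := lt_of_lt_of_le one_pos (one_le_Ck d)
  obtain ⟨V, hV⟩ : ∃ V : ℝ, V = vb d * 16 ^ d := ⟨_, rfl⟩
  obtain ⟨K, hK⟩ : ∃ K : ℝ, K = Ck d * vb d * 16 ^ d := ⟨_, rfl⟩
  obtain ⟨n, hn⟩ : ∃ n : ℝ, n = Module.finrank ℝ H := ⟨_, rfl⟩
  obtain ⟨k, hk⟩ : ∃ k : ℝ, k = Fintype.card ι := ⟨_, rfl⟩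
  have V0 : 0 < V := by rw [hV]; positivity
  have K0 : 0 < K := by rw [hK]; positivity
  have n0 : 0 ≤ n := by rw [hn]; positivity
  have k0 : 0 ≤ k := by rw [hk]; positivity
  have hCe : 0 < C₂ * V * (4 * n + 1) + K * (8 * n + 1) + C₁ * (k * V + K ^ 2) := by positivity
  refine ⟨_, hCe, Λ, hΛ, c₁ / 256, by positivity, min δ₁ (1 / 10), by positivity, ?_⟩
  intro D R δ lam ρ η ϖ N U f lv X hMS hδ hη hηl hlam hϖ hϖ1 hUF hX u hu hEn
  have h := hMS.cv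
  have hρ := hMS.ρ_pos
  have h16 : 0 < 16 * ρ := by positivity
  have hδ1 := hδ.trans (min_le_left _ _)
  have hδ2 := hδ.trans (min_le_right _ _)
  have hδ3 : δ ≤ 1 / 2 := by linarith
  have l0 := hMS.lam_pos
  have l1 := hMS.lam_le
  have u0 := norm_nonneg u
  have ρ1 : ρ ≤ 1 := by linarith [h.R_le]
  have ϖ0 : 0 < ϖ := lt_of_lt_of_le (by positivity) hϖ
  have lϖ : lam ≤ ϖ := by
    refine le_trans ?_ hϖ
    rw [le_div_iff₀ hρ]
    exact mul_le_of_le_one_right l0.le ρ1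
  have he := e.orthonormal.1
  obtain ⟨j1, j2, j3, j4, -⟩ := h.integrable_t
  have hη2 : 0 ≤ η ^ (d + 2) := by positivity
  have L1 := fun i => (hloc D R δ lam ρ η N (e i) u hMS hδ1 (he i) hη (by linarith) (by linarith)
    (by
      have h1 := (h.cyl_mono (u := u) (v := u) (r := 32 * ρ) (s := 512 * ρ)
        (by rw [sub_self, norm_zero]; linarith)).2.2.2
      have h2 := mul_le_mul_of_nonneg_right h1 (sq_nonneg ρ)
      have h3 := mul_nonneg hc₁.le hη2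
      linarith)).2 ϖ (U i) (f i) (lv i) (by linarith [mul_pos hc₁ hρ]) hϖ hϖ1 (hUF i)
  have L2 := fun i => (hloc D R δ lam (16 * ρ) η N (e i) u (hMS.mono (by linarith)) hδ1 (he i) hη
    (by linarith) (by linarith) (by
      rw [show 32 * (16 * ρ) = 512 * ρ by ring]
      linarith)).1
  have hT0 := (gd_soft h hδ2 hρ ϖ0 hCe.le he Q U hX).2.2.2.2.2.2.2.2.2.2.2.2.2.1 u
  have pt : ∀ᵐ a ∂D.m, 0 ≤ D.t a := h.ae_pw.mono fun a ha => ha.t_nonneg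
  obtain ⟨a, ha⟩ : ∃ a, a = D.av (16 * ρ) D.t u := ⟨_, rfl⟩
  obtain ⟨b, hb⟩ : ∃ b, b = ∑ i, D.two (e i) (16 * ρ) (Λ * η) u := ⟨_, rfl⟩
  obtain ⟨c, hc⟩ : ∃ c, c = D.av (16 * ρ) (fun a => ‖D.y a‖ ^ 2) u := ⟨_, rfl⟩
  obtain ⟨q, hq⟩ : ∃ q, q = D.av (16 * ρ) (fun a => D.t a ^ 2) u := ⟨_, rfl⟩
  have a0 : 0 ≤ ϖ * a := mul_nonneg ϖ0.le (ha ▸ av_nonneg_glbd h16 pt u)
  have b0 : 0 ≤ b := hb ▸ Finset.sum_nonneg fun i _ => (two_cont h hδ3 h16 (he i)).2.1 u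
  have c0 : 0 ≤ c := hc ▸ av_nonneg_glbd h16 (.of_forall fun a => sq_nonneg _) u
  have b1 : b ≤ b / ϖ := by
    rw [le_div_iff₀ ϖ0]
    exact mul_le_of_le_one_right b0 hϖ1
  obtain ⟨S, hS⟩ : ∃ S, S = ϖ * a + b / ϖ + c := ⟨_, rfl⟩
  have hee : X.ee u = (C₂ * V * (4 * n + 1) + K * (8 * n + 1) + C₁ * (k * V + K ^ 2)) * S := by
    rw [hX, hS, ha, hb, hc]
    rfl
  have S0 : 0 ≤ S := by linarith
  have hqS : q ≤ 4 * n * S := by
    have h1 := av_sq_glbd h hδ3 h16 e u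
    have h2 : ∑ i, D.av (16 * ρ) (D.dd (e i)) u ≤ 2 * S := by
      refine (Finset.sum_le_sum fun i _ => L2 i).trans ?_
      rw [← Finset.mul_sum, ← hb]
      linarith
    rw [← hq, ← hn] at h1
    linarith [mul_le_mul_of_nonneg_left h2 n0]
  have t1 : 0 ≤ C₂ * V * (4 * n + 1) * S := by positivity
  have t2 : 0 ≤ K * (8 * n + 1) * S := by positivity
  have t3 : 0 ≤ C₁ * (k * V + K ^ 2) * S := by positivity
  refine ⟨?_, fun v => ?_⟩
  · have h1 := (hone D R δ M lam ρ Q N u hMS hδ3 (by linarith)).2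
    have h2 := cyl_glbd h hρ (j2.add j3)
      (.of_forall fun a => add_nonneg (sq_nonneg _) (sq_nonneg _)) u
    have h3 := av_add_glbd h h16 j2 j3 u
    rw [← hq, ← hc] at h3
    have h4 : (∫ a in D.cyl u (8 * ρ), (D.t a ^ 2 + ‖D.y a‖ ^ 2) ∂D.m) / ρ ^ d ≤
        V * ((4 * n + 1) * S) := by
      refine h2.trans ?_
      rw [← hV]
      refine mul_le_mul_of_nonneg_left (h3.trans_le ?_) V0.le
      linarith
    have h5 := h1.trans (mul_le_mul_of_nonneg_left h4 hC₂.le)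
    rw [hee]
    refine le_trans (le_of_eq (by rw [hX]; rfl)) (h5.trans ?_)
    linarith
  · have h1 := hopf_glbd h hδ3 hρ (hMS.ht.mono lϖ) ϖ0.le e u v
    rw [← hK, ← hq, ← ha, ← hc, ← hT0] at h1
    have h2 : ϖ * (D.En u ρ / ρ ^ d) ≤ V * S := by
      have h3 := (h.cyl_mono (u := u) (v := u) (r := ρ) (s := 8 * ρ)
        (by rw [sub_self, norm_zero]; linarith)).2.2.2
      have h4 := cyl_glbd h hρ j4 (h.ae_pw.mono fun a ha => ha.facts_av.1) u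
      have h5 : D.av (16 * ρ) D.en u = a + c := by
        rw [ha, hc]
        exact av_add_glbd h h16 j1 j3 u
      rw [h5, ← hV] at h4
      have h6 : D.En u ρ / ρ ^ d ≤ V * (a + c) :=
        (div_le_div_of_nonneg_right h3 (by positivity)).trans h4
      have h7 : ϖ * c ≤ c := mul_le_of_le_one_left c0 hϖ1
      refine (mul_le_mul_of_nonneg_left h6 ϖ0.le).trans ?_
      rw [mul_left_comm]
      exact mul_le_mul_of_nonneg_left (by linarith) V0.le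
    have h3 : |X.qf Q u v - ∑ i, D.av ρ (fun a => ⟪D.p (e i) a, v⟫ ^ 2) u| ≤
        C₁ * (k * V + K ^ 2) * S * ‖v‖ ^ 2 := by
      have h4 : X.qf Q u v = ∑ i, ∑ j ∈ Finset.range Q,
          fderiv ℝ (fun y => U i (j + 1) y - U i j y) u v ^ 2 := by
        rw [hX]
        rfl
      rw [h4, ← Finset.sum_sub_distrib]
      refine (Finset.abs_sum_le_sum_abs _ _).trans ((Finset.sum_le_sum fun i _ => L1 i v).trans ?_)
      rw [← Finset.sum_mul, ← Finset.mul_sum, mul_assoc C₁ _ S]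
      refine mul_le_mul_of_nonneg_right (mul_le_mul_of_nonneg_left ?_ hC₁.le) (sq_nonneg _)
      rw [Finset.sum_add_distrib, Finset.sum_const, Finset.card_univ, nsmul_eq_mul, ← hk,
        ← Finset.sum_div]
      have h5 : ∑ i, D.two (e i) ρ (Λ * η) u ≤ K ^ 2 * b := by
        rw [hb, Finset.mul_sum, hK]
        exact Finset.sum_le_sum fun i _ => (two_cont h hδ3 hρ (he i)).2.2 u
      have h6 := div_le_div_of_nonneg_right h5 ϖ0.le
      rw [mul_div_assoc] at h6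
      have h7 : K ^ 2 * (b / ϖ) ≤ K ^ 2 * S :=
        mul_le_mul_of_nonneg_left (by linarith) (sq_nonneg _)
      have h8 := mul_le_mul_of_nonneg_left h2 k0
      linarith
    have h4 : K * (2 * q + ϖ * a + c) * ‖v‖ ^ 2 ≤ K * (8 * n + 1) * S * ‖v‖ ^ 2 := by
      rw [mul_assoc K _ S]
      exact mul_le_mul_of_nonneg_right (mul_le_mul_of_nonneg_left (by linarith) K0.le)
        (sq_nonneg _)
    have h5 := mul_nonneg t1 (sq_nonneg ‖v‖)
    rw [abs_sub_comm] at h3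
    rw [hee]
    refine (abs_sub_le _ _ _).trans ((add_le_add (h1.trans h4) h3).trans ?_)
    linarith

end Pool.Agent.Lib.MP_8daebb_an.GM
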