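import Pool.Agent.Lib.MP_8daebb_an.GM.PhiB
import Pool.Agent.Lib.MP_8daebb_an.GM.Leg
import Pool.Agent.Lib.MP_8daebb_an.SV.Clus

/-! The family of coarse-grained sums of top sheets. -/

set_option linter.unusedSectionVars false
set_option linter.unusedVariables false

open MeasureTheory Metric Filter Topology Set
open scoped RealInnerProductSpace ENNReal ContDiff

namespace Pool.Agent.Lib.MP_8daebb_an.GM

open LG (vb chi om trS)

variable {d : ℕ} {α : Type*} [MeasurableSpace α] {H : Type*} [NormedAddCommGroup H]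
  [InnerProductSpace ℝ H] [FiniteDimensional ℝ H] [MeasurableSpace H] [BorelSpace H]

theorem grad_near_ufam {U : E d → ℝ} {u A : E d} {c : ℝ} (hc : 0 ≤ c)
    (h : ∀ v, |fderiv ℝ U u v - ⟪A, v⟫| ≤ c * ‖v‖) : ‖gradient U u - A‖ ≤ c := by
  have h1 := h (gradient U u - A)
  rw [← inner_grad, ← inner_sub_left, real_inner_self_eq_norm_sq,
    abs_of_nonneg (sq_nonneg _)] at h1
  nlinarith [norm_nonneg (gradient U u - A)]

theorem av_nonneg_ufam (D : CD d α H) {ρ : ℝ} (hρ : 0 < ρ) {g : α → ℝ} (hg : ∀ a, 0 ≤ g a)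
    (u : E d) : 0 ≤ D.av ρ g u :=
  integral_nonneg fun a => mul_nonneg (kr_nonneg hρ _) (hg a)

theorem av_congr_ufam {F : Type*} [NormedAddCommGroup F] [NormedSpace ℝ F] (D : CD d α H) (ρ : ℝ)
    {f g : α → F} (h : ∀ᵐ a ∂D.m, f a = g a) (u : E d) : D.av ρ f u = D.av ρ g u :=
  integral_congr_ae (h.mono fun a ha => by simp only [ha])

theorem av_zero_ufam {F : Type*} [NormedAddCommGroup F] [NormedSpace ℝ F] (D : CD d α H) (ρ : ℝ)
    (u : E d) : D.av ρ (fun _ => (0 : F)) u = 0 := by simp [CD.av]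

theorem stp_mono_ufam {Ψ : ℝ → ℝ} {η : ℝ} (h : SV.Stp Ψ η) : Monotone (deriv Ψ) :=
  monotone_of_deriv_nonneg h.smooth.differentiable_deriv_two fun r => (h.d2 r).1

theorem av_anti_ufam {D : CD d α H} {c : E d} {R δ M ρ η : ℝ} (h : CV D c R δ M) (hρ : 0 < ρ)
    (e : H) {Ψ : ℝ → ℝ} (hΨ : SV.Stp Ψ η) (u : E d) {s t : ℝ} (hst : s ≤ t) :
    D.av ρ (fun a => deriv Ψ (D.z e a - t)) u ≤ D.av ρ (fun a => deriv Ψ (D.z e a - s)) u := by
  have hi : Integrable (fun a => deriv Ψ (D.z e a - s)) D.m :=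
    h.integrable ((hΨ.smooth.continuous_deriv one_le_two).measurable.comp
      ((h.meas_z e).1.sub_const s)).aestronglyMeasurable 1 fun a _ _ => by
        rw [Real.norm_of_nonneg (hΨ.d1 _).1]; exact (hΨ.d1 _).2
  refine integral_mono_of_nonneg
    (Eventually.of_forall fun a => mul_nonneg (kr_nonneg hρ _) (hΨ.d1 _).1)
    (h.int_av hρ hi u) (Eventually.of_forall fun a => ?_)
  exact mul_le_mul_of_nonneg_left (stp_mono_ufam hΨ (by linarith)) (kr_nonneg hρ _)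

/-- The properties of one member of the family at one point. -/
def One_ufam (D : CD d α H) (e : H) (lam ρ η C : ℝ) (f : ℝ → ℝ) (U : E d → ℝ) (l : ℝ) (j : ℕ)
    (u : E d) : Prop :=
  |U u| ≤ C * lam ∧ (∀ (B : E d →L[ℝ] E d) (μ₀ : ℝ), Psd B →
    ‖B‖ ≤ 2 → 0 ≤ μ₀ → (∀ x ∈ ball u ρ, ‖B - D.am x‖ ≤ μ₀) →
    -(C * (lam / ρ ^ 2 * (D.En u ρ / ρ ^ d) + (μ₀ + ρ) * lam ^ 2 / (ρ ^ 2 * η))) ≤
      trH (B.comp (hess U u))) ∧
    ‖gradient U u - D.av ρ (fun a => f (D.z e a - l) • D.p e a) u‖ ≤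
      C * (lam / ρ * (D.En u ρ / ρ ^ d)) ∧
    |D.av ρ (fun a => f (D.z e a - l)) u - j| ≤ C * (lam / ρ)

theorem zero_ufam {D : CD d α H} {R δ M lam ρ η C l : ℝ} {e : H} {Ψ : ℝ → ℝ} (h : CV D 0 R δ M)
    (hl : 0 < lam) (hρ : 0 < ρ) (hη : 0 < η) (hC : 0 ≤ C)
    (h0 : ∀ᵐ a ∂D.m, deriv Ψ (D.z e a - l) = 0) (u : E d) :
    One_ufam D e lam ρ η C (deriv Ψ) 0 l 0 u := by
  have hE := (h.nonneg u ρ).2.2.2.1
  have hg : gradient (0 : E d → ℝ) = fun _ => 0 := by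
    funext v
    exact gradient_fun_const v 0
  refine ⟨?_, fun B μ₀ _ _ hμ _ => ?_, ?_, ?_⟩
  · rw [Pi.zero_apply, abs_zero]
    positivity
  · have : trH (B.comp (hess (0 : E d → ℝ) u)) = 0 := by simp [hess, hg, trH]
    rw [this, neg_nonpos]
    positivity
  · rw [hg, av_congr_ufam D ρ (g := fun _ => 0) (h0.mono fun a ha => by rw [ha, zero_smul]),
      av_zero_ufam, sub_zero, norm_zero]
    positivity
  · rw [av_congr_ufam D ρ h0, av_zero_ufam, Nat.cast_zero, sub_zero, abs_zero]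
    positivity

theorem one_ufam (d : ℕ) (M : ℝ) {CI : ℝ} (hCI : 0 ≤ CI) (Q : ℕ) : ∃ C : ℝ, 0 < C ∧
    ∃ c₀ : ℝ, 0 < c₀ ∧ ∀ (D : CD d α H) (R δ lam ρ η : ℝ) (N : E d → ℕ) (e : H) (Ψ : ℝ → ℝ),
    MS D R δ M lam ρ CI Q N → δ ≤ 1 / 10 → lam ≤ c₀ * ρ → ‖e‖ = 1 → 0 < η → η ≤ lam →
    SV.Stp Ψ η → (∀ h, 2 * lam ≤ h → ∀ᵐ a ∂D.m, deriv Ψ (D.z e a - h) = 0) ∧ ∀ j : ℕ,
    ∃ U lv : E d → ℝ, ContDiff ℝ 2 U ∧
      (∀ u, D.av ρ (fun a => deriv Ψ (D.z e a - lv u)) u = j + 1 / ρ * lv u) ∧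
      (j ≤ Q → ∀ u : E d, ‖u‖ + 16 * ρ ≤ R → One_ufam D e lam ρ η C (deriv Ψ) U (lv u) j u) := by
  obtain ⟨C1, c1, H1⟩ := phi_one (α := α) (H := H) d M
  obtain ⟨C2, c2, H2⟩ := phi_two (α := α) (H := H) d M
  obtain ⟨C3, c3, H3⟩ := av_le (α := α) (H := H) d M
  obtain ⟨C4, c4, H4⟩ := ms_av_one (α := α) (H := H) d hCI
  have hQ : (0 : ℝ) ≤ Q := Nat.cast_nonneg Q
  have k0 : 0 < C4 * C3 := by positivity
  refine ⟨C1 + C2 + 2 * Q + 2, by positivity, 1 / (C4 * C3), by positivity,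
    fun D R δ lam ρ η N e Ψ hM hδ hc he h1 h2 hΨ => ?_⟩
  have := hM.cv.fin
  have r0 := hM.ρ_pos
  have s0 := hM.lam_pos
  have s1 := hM.lam_le
  obtain ⟨p1, p2, p3, p5⟩ := H1 D R δ lam ρ η e Ψ hM.cv hδ hM.ht s0 s1 he hΨ h1 h2
  have p6 := H2 D R δ lam ρ η e Ψ hM.cv hδ hM.ht s0 s1 he hΨ h1 h2
  have p7 := fun u => H3 D 0 R δ lam ρ u hM.cv hδ hM.ht s0 s1
  clear H1 H2 H3
  have hz : ∀ᵐ a ∂D.m, |D.z e a| ≤ lam := by
    filter_upwards [hM.ht] with a a2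
    have := abs_real_inner_le_norm (D.y a) e
    rw [he, mul_one] at this
    exact this.trans a2
  have z0 : ∀ h, 2 * lam ≤ h → ∀ᵐ a ∂D.m, deriv Ψ (D.z e a - h) = 0 := fun h hh =>
    hz.mono fun a ha => hΨ.zero _ (by linarith [(abs_le.1 ha).2])
  have z1 : ∀ h, h ≤ -(2 * lam) → ∀ u : E d, ‖u‖ + 16 * ρ ≤ R →
      |D.av ρ (fun a => deriv Ψ (D.z e a - h)) u - Q| ≤ 1 / ρ * lam := fun h hh u hu => by
    rw [av_congr_ufam D ρ (hz.mono fun a ha => hΨ.one _ (by linarith [(abs_le.1 ha).1]))]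
    refine (H4 D R δ M lam ρ Q N u hM (by linarith) hu).1.trans ?_
    refine (mul_le_mul_of_nonneg_left ((p7 u).2.2.2.2.2.2.2.2.2 (by rwa [sub_zero])) c4.le).trans ?_
    have b1 : C4 * C3 * lam ≤ ρ := by
      rw [div_mul_eq_mul_div, le_div_iff₀ k0] at hc
      linarith
    calc C4 * (C3 * (lam ^ 2 / ρ ^ 2)) = C4 * C3 * lam * (lam / ρ ^ 2) := by ring
      _ ≤ ρ * (lam / ρ ^ 2) := mul_le_mul_of_nonneg_right b1 (by positivity)
      _ = 1 / ρ * lam := by field_simp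
  have a1 : ∀ w : E d × ℝ, 0 ≤ fderiv ℝ (fderiv ℝ (D.Phi e ρ Ψ)) w (0, 1) (0, 1) := fun w => by
    rw [p3]
    exact av_nonneg_ufam D r0 (fun _ => (hΨ.d2 _).1) _
  refine ⟨z0, fun j => ?_⟩
  have m0 : 0 < 1 / ρ := by positivity
  obtain ⟨h, U, l1, l2, l3, l4, l5⟩ := legendre p1 (B := C3) m0 (fun w => by
    rw [p2, abs_neg]
    exact (hM.cv.norm_av_le r0 (f := fun a => deriv Ψ (D.z e a - w.2)) (integrable_const (1 : ℝ)) _
      (Eventually.of_forall fun a _ => by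
        rw [Real.norm_of_nonneg (hΨ.d1 _).1]; exact (hΨ.d1 _).2)).1.trans
      (p7 _).2.2.1) a1 j
  have e1 : ∀ u, D.av ρ (fun a => deriv Ψ (D.z e a - h u)) u = j + 1 / ρ * h u := fun u => by
    have := l1 u
    rw [p2] at this
    dsimp only at this
    linarith
  refine ⟨U, h, l3, e1, fun hj u hu => ?_⟩
  have j1 : (0 : ℝ) ≤ j := Nat.cast_nonneg j
  have j2 : (j : ℝ) ≤ Q := by exact_mod_cast hj
  have e2 := e1 u
  have hh : |h u| ≤ 2 * lam := by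
    rw [abs_le]
    constructor
    · by_contra! c
      have b1 := (abs_le.1 (z1 _ c.le u hu)).1
      have b2 := mul_lt_mul_of_pos_left c m0
      have b3 := mul_pos m0 s0
      linarith
    · by_contra! c
      rw [av_congr_ufam D ρ (z0 _ c.le), av_zero_ufam] at e2
      have b2 := mul_pos m0 (show 0 < h u by linarith)
      linarith
  have hE := (hM.cv.nonneg u ρ).2.2.2.1
  obtain ⟨q1, q2⟩ := p5 u _ (by linarith) hh
  refine ⟨?_, fun B μ₀ hB hB2 hμ hBa => ?_,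
    (grad_near_ufam (c := C1 * (lam / ρ * (D.En u ρ / ρ ^ d))) (by positivity)
      fun v => ?_).trans (mul_le_mul_of_nonneg_right (by linarith) (by positivity)), ?_⟩
  · have b1 : |(j : ℝ) * h u| ≤ Q * (2 * lam) := by
      rw [abs_mul, Nat.abs_cast]
      exact mul_le_mul j2 hh (abs_nonneg _) hQ
    have b2 : |1 / ρ * h u ^ 2 / 2| ≤ lam := by
      rw [abs_of_nonneg (by positivity), ← sq_abs, div_le_iff₀ two_pos, div_mul_eq_mul_div,
        div_le_iff₀ r0]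
      nlinarith [abs_nonneg (h u), pow_le_pow_left₀ (abs_nonneg _) hh 2]
    rw [l2]
    refine (abs_add_three _ _ _).trans ?_
    nlinarith [mul_pos c2 s0]
  · rw [tr_comp_hess l3 hB.1]
    simp only [l5]
    refine le_trans (neg_le_neg (mul_le_mul_of_nonneg_right (by linarith) (by positivity)))
      (p6 u _ (by linarith) hh B μ₀ hB hB2 hμ hBa)
  · rw [l4]
    exact q2 v
  · rw [e2, add_sub_cancel_left, abs_mul, abs_of_pos m0]
    calc 1 / ρ * |h u| ≤ 1 / ρ * (2 * lam) := mul_le_mul_of_nonneg_left hh m0.le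
      _ = 2 * (lam / ρ) := by ring
      _ ≤ _ := mul_le_mul_of_nonneg_right (by linarith) (by positivity)

theorem ufam (d : ℕ) (M : ℝ) {CI : ℝ} (hCI : 0 ≤ CI) (Q : ℕ) : ∃ C : ℝ, 0 < C ∧ ∃ c₀ : ℝ, 0 < c₀ ∧
    ∀ (D : CD d α H) (R δ lam ρ η : ℝ) (N : E d → ℕ) (e : H), MS D R δ M lam ρ CI Q N →
    δ ≤ 1 / 10 → lam ≤ c₀ * ρ → ‖e‖ = 1 → 0 < η → η ≤ lam →
    ∃ (U : ℕ → E d → ℝ) (f : ℝ → ℝ) (lv : ℕ → E d → ℝ), UF D e R lam ρ η Q C U f lv := by
  obtain ⟨C, c0, c₀, r0, h⟩ := one_ufam (α := α) (H := H) d M hCI Q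
  refine ⟨C, c0, c₀, r0, fun D R δ lam ρ η N e hM hδ hc he h1 h2 => ?_⟩
  obtain ⟨Ψ, hΨ⟩ := SV.exists_stp h1
  obtain ⟨z0, h'⟩ := h D R δ lam ρ η N e Ψ hM hδ hc he h1 h2 hΨ
  choose U lv k1 k2 k3 using h'
  have hρ := hM.ρ_pos
  have key : ∀ j ≤ Q, ∀ u : E d, ‖u‖ + 16 * ρ ≤ R → One_ufam D e lam ρ η C (deriv Ψ)
      (if j = 0 then 0 else U j) (if j = 0 then max (lv 1 u) (2 * lam) else lv j u) j u := by
    intro j hj u hu
    by_cases j0 : j = 0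
    · rw [if_pos j0, if_pos j0, j0]
      exact zero_ufam hM.cv hM.lam_pos hρ h1 c0.le (z0 _ (le_max_right _ _)) u
    · rw [if_neg j0, if_neg j0]
      exact k3 j hj u hu
  refine ⟨fun j => if j = 0 then 0 else U j, deriv Ψ,
    fun j u => if j = 0 then max (lv 1 u) (2 * lam) else lv j u, if_pos rfl, fun j => ?_,
    hΨ.smooth.continuous_deriv one_le_two, stp_mono_ufam hΨ, hΨ.d1, hΨ.zero, hΨ.one,
    fun j u => ?_, fun j hj u hu => (key j hj u hu).1, fun j hj u hu => (key j hj u hu).2.1,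
    fun j hj u hu => (key j hj u hu).2.2.1, fun j hj u hu => (key j hj u hu).2.2.2⟩
  · by_cases j0 : j = 0
    · simp only [if_pos j0]
      exact contDiff_const
    · simp only [if_neg j0]
      exact k1 j
  · by_cases j0 : j = 0
    · subst j0
      simp
    · simp only [if_neg j0, if_neg (Nat.succ_ne_zero j)]
      by_contra! c
      have b1 := av_anti_ufam hM.cv hρ e hΨ u c.le
      have b2 := mul_lt_mul_of_pos_left c (show 0 < 1 / ρ by positivity)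
      rw [k2, k2] at b1
      push_cast at b1
      linarith

end Pool.Agent.Lib.MP_8daebb_an.GM
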