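import Pool.Agent.Lib.MP_8daebb_an.GM.GlbB
import Pool.Agent.Lib.MP_8daebb_an.GM.GlbC
import Pool.Agent.Lib.MP_8daebb_an.GM.GlbD
import Pool.Agent.Lib.MP_8daebb_an.GM.UFam

/-! The coarse-grained data satisfy the global hypotheses. -/

set_option linter.unusedSectionVars false
set_option linter.unusedVariables false

open MeasureTheory Metric Filter Topology Set
open scoped RealInnerProductSpace ENNReal ContDiff

namespace Pool.Agent.Lib.MP_8daebb_an.GM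

open LG (vb chi om trS)

variable {d : ℕ} {α : Type*} [MeasurableSpace α] {H : Type*} [NormedAddCommGroup H]
  [InnerProductSpace ℝ H] [FiniteDimensional ℝ H] [MeasurableSpace H] [BorelSpace H]

theorem ev_glbof (K : ℝ) (n : ℕ) : ∀ᶠ L : ℝ in atTop, K * L ^ n ≤ Real.exp L := by
  filter_upwards [(Real.tendsto_exp_div_pow_atTop n).eventually_ge_atTop K,
    eventually_gt_atTop 0] with L h1 h2
  rwa [le_div_iff₀ (by positivity)] at h1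

theorem exp_glbof (L : ℝ) : Real.exp (3 * L) = Real.exp L ^ 3 ∧
    Real.exp (2 * L) = Real.exp L ^ 2 ∧ Real.exp (-3 * L) = (Real.exp L ^ 3)⁻¹ ∧
    Real.exp (-2 * L) = (Real.exp L ^ 2)⁻¹ ∧ Real.exp (-8 * L) = (Real.exp L ^ 8)⁻¹ ∧
    Real.exp (-9 * L) = (Real.exp L ^ 9)⁻¹ := by
  simp only [neg_mul, Real.exp_neg, ← Real.exp_nat_mul]
  norm_num

theorem numA_glbof {x ρ R₀ : ℝ} (hx : 12 ≤ x) (hρ : 0 < ρ) (hR : R₀ = ρ * x ^ 3)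
    (hR9 : R₀ ≤ (x ^ 9)⁻¹) : 0 < R₀ ∧ R₀ ≤ 1 ∧ 8 * ρ ≤ R₀ ∧ ρ = R₀ * (x ^ 3)⁻¹ ∧
      (∀ K, K ≤ x → K * x ^ 8 * R₀ ≤ 1) ∧ 12 * R₀ ≤ (x ^ 8)⁻¹ := by
  have hx1 : 1 ≤ x := by linarith
  have hx0 : 0 < x := by linarith
  have hR0 : 0 < R₀ := by rw [hR]; positivity
  have hR9' : x ^ 9 * R₀ ≤ 1 := by rwa [inv_eq_one_div, le_div_iff₀' (by positivity)] at hR9
  have hK : ∀ K, K ≤ x → K * x ^ 8 * R₀ ≤ 1 := fun K hK =>
    calc _ ≤ x * x ^ 8 * R₀ := by gcongr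
      _ ≤ 1 := by rwa [← pow_succ']
  refine ⟨hR0, (le_mul_of_one_le_left hR0.le (one_le_pow₀ hx1)).trans hR9', ?_, ?_, hK, ?_⟩
  · have : (2 : ℝ) ^ 3 ≤ x ^ 3 := pow_le_pow_left₀ zero_le_two (by linarith) 3
    rw [hR]
    nlinarith
  · rw [hR]
    field_simp
  · rw [inv_eq_one_div, le_div_iff₀' (by positivity)]
    linarith [hK 12 hx]

theorem numB_glbof {x ρ R₀ lam K : ℝ} (hx : 1 ≤ x) (hρ : 0 < ρ) (hR : R₀ = ρ * x ^ 3)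
    (hR1 : R₀ ≤ 1) (hK0 : 0 ≤ K) (hK : K * x ^ 8 * R₀ ≤ 1) :
    K * (lam ^ 2 / ρ ^ 2) ≤ (x ^ 2)⁻¹ * (lam ^ 2 / R₀ ^ 3) ∧
      K * lam ^ 2 ≤ (x ^ 2)⁻¹ * (lam ^ 2 / R₀ ^ 2) := by
  have hx0 : 0 < x := by linarith
  have hR0 : 0 < R₀ := by rw [hR]; positivity
  constructor
  · calc _ = K * x ^ 8 * R₀ * ((x ^ 2)⁻¹ * (lam ^ 2 / R₀ ^ 3)) := by rw [hR]; field_simp
      _ ≤ _ := mul_le_of_le_one_left (by positivity) hK
  · calc _ = K * x ^ 2 * R₀ * R₀ * ((x ^ 2)⁻¹ * (lam ^ 2 / R₀ ^ 2)) := by field_simp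
      _ ≤ K * x ^ 8 * R₀ * 1 * ((x ^ 2)⁻¹ * (lam ^ 2 / R₀ ^ 2)) := by gcongr; norm_num
      _ ≤ _ := mul_le_of_le_one_left (by positivity) (by rwa [mul_one])

theorem numC_glbof {x ρ R₀ lam K P z : ℝ} (hx : 0 < x) (hρ : 0 < ρ) (hR : R₀ = ρ * x ^ 3)
    (hlam : 0 < lam) (hP : 0 < P) (hK0 : 0 ≤ K) (hK : 11 * K * P * x ^ 8 * R₀ ≤ 1)
    (hz : z ≤ 11 * R₀) : K * (z * lam ^ 2 / (ρ ^ 2 * (lam / P))) ≤ (x ^ 2)⁻¹ * (lam / R₀ ^ 2) := by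
  calc _ ≤ K * (11 * R₀ * lam ^ 2 / (ρ ^ 2 * (lam / P))) := by gcongr
    _ = 11 * K * P * x ^ 8 * R₀ * ((x ^ 2)⁻¹ * (lam / R₀ ^ 2)) := by rw [hR]; field_simp
    _ ≤ _ := mul_le_of_le_one_left (by positivity) hK

theorem numD_glbof {L lam ρ K E T : ℝ} {b n : ℕ} (hL : 1 ≤ L) (hlam : 0 < lam)
    (hρ : ρ = lam * L ^ b) (hb : n + 1 ≤ b) (hK0 : 0 ≤ K) (hK : K ≤ L) (hE : 0 ≤ E) (hT : E ≤ T) :
    K * (lam / ρ * E) ≤ (L ^ n)⁻¹ * T ∧ K * (lam / ρ ^ 2 * E) ≤ (L ^ n)⁻¹ * T / lam := by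
  have hL0 : 0 < L := by linarith
  have h1 : K * (L ^ b)⁻¹ ≤ (L ^ n)⁻¹ := by
    have h2 : L ^ (n + 1) ≤ L ^ b := pow_le_pow_right₀ hL hb
    calc _ ≤ L * (L ^ (n + 1))⁻¹ := by gcongr
      _ = _ := by field_simp; ring
  have h2 : (L ^ b)⁻¹ ≤ 1 := inv_le_one_of_one_le₀ (one_le_pow₀ hL)
  have h3 : K * (L ^ b)⁻¹ * E ≤ (L ^ n)⁻¹ * T := mul_le_mul h1 hT hE (by positivity)
  constructor
  · refine le_trans (le_of_eq ?_) h3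
    rw [hρ]
    field_simp
  · calc _ = K * (L ^ b)⁻¹ * E * (L ^ b)⁻¹ / lam := by rw [hρ]; field_simp
      _ ≤ K * (L ^ b)⁻¹ * E * 1 / lam := by gcongr
      _ ≤ _ := by rw [mul_one]; gcongr

theorem numE_glbof {L lam ρ c : ℝ} {b : ℕ} (hL : 1 ≤ L) (hlam : 0 < lam)
    (hρ : ρ = lam * L ^ b) (hb : b ≠ 0) (hc : 0 < c) (hcL : 1 / c ≤ L) : lam ≤ c * ρ := by
  have h2 : 1 ≤ c * L ^ b := by
    rw [← div_le_iff₀' hc]
    exact hcL.trans (le_self_pow₀ hL hb)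
  rw [hρ, mul_left_comm]
  exact le_mul_of_one_le_right hlam.le h2

theorem numF_glbof {L lam ρ c E : ℝ} {a b d : ℕ} (hL : 1 ≤ L) (hlam : 0 < lam)
    (hρ : ρ = lam * L ^ b) (hc : 0 < c) (hcL : 1 / c ≤ L)
    (hE : E ≤ (L ^ (b * d + a * (d + 2) + 1))⁻¹ * lam ^ 2 * (ρ ^ d / ρ ^ 2)) :
    E * ρ ^ 2 ≤ c * (lam / L ^ a) ^ (d + 2) := by
  have hL0 : 0 < L := by linarith
  have hρ0 : 0 < ρ := by rw [hρ]; positivity
  have h4 : L⁻¹ ≤ c := by rwa [inv_le_comm₀ hL0 hc, inv_eq_one_div]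
  calc _ ≤ (L ^ (b * d + a * (d + 2) + 1))⁻¹ * lam ^ 2 * (ρ ^ d / ρ ^ 2) * ρ ^ 2 := by gcongr
    _ = (L ^ (b * d + a * (d + 2) + 1))⁻¹ * lam ^ 2 * ρ ^ d := by field_simp
    _ = L⁻¹ * (lam / L ^ a) ^ (d + 2) := by
        rw [hρ, mul_pow, div_pow, ← pow_mul, ← pow_mul]
        field_simp
        ring
    _ ≤ _ := by gcongr

theorem glb_of (d : ℕ) (M : ℝ) {CI : ℝ} (hCI : 0 ≤ CI) (Q : ℕ) {ι : Type} [Fintype ι]
    (e : OrthonormalBasis ι ℝ H) : ∃ δ₀ : ℝ, 0 < δ₀ ∧ δ₀ ≤ 1 / 10 ∧ ∃ C Ce Λ : ℝ, 1 ≤ C ∧ 0 < Ce ∧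
    1 ≤ Λ ∧ ∀ a b p : ℕ, d + 6 ≤ b → p ≤ b → ∃ (A : ℕ) (L₀ : ℝ), ∀ L, L₀ ≤ L →
    ∀ (D : CD d α H) (R δ lam ρ R₀ : ℝ) (N : E d → ℕ), MS D R δ M lam ρ CI Q N → δ ≤ δ₀ →
    ρ = lam * L ^ b → R₀ = ρ * Real.exp (3 * L) → R₀ ≤ Real.exp (-9 * L) →
    ∃ U : ι → ℕ → E d → ℝ,
      Glb (D.gd e Q ρ (Λ * (lam / L ^ a)) (L ^ p)⁻¹ Ce U) Q C L A (R - 130 * R₀) R₀ ρ lam := by
  obtain ⟨CU, hCU, cU, hcU, hU⟩ := ufam (α := α) (H := H) d M hCI Q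
  obtain ⟨C0, hC0, hS⟩ := gd_size (α := α) (H := H) d M hCI ι
  obtain ⟨C1, hC1, h1⟩ := gd_s1 (α := α) (H := H) d M ι
  obtain ⟨C2, hC2, h45⟩ := gd_s45 (α := α) d M Q CU e
  obtain ⟨Ce, hCe, Λ, hΛ, c6, hc6, δ6, hδ6, h6⟩ := gd_s6 (α := α) d M hCI Q CU e
  obtain ⟨C, hC0C, hCUC, hC⟩ : ∃ C : ℝ, C0 ≤ C ∧ CU ≤ C ∧ 513 ≤ C :=
    ⟨C0 + CU + 513, by linarith, by linarith, by linarith⟩
  refine ⟨min δ6 (1 / 10), by positivity, min_le_right _ _, C, Ce, Λ, by linarith,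
    hCe, hΛ, fun a b p hb hp => ?_⟩
  obtain ⟨L₀, hL₀⟩ := eventually_atTop.1 ((ev_glbof (C0 * Ce) p).and ((ev_glbof (11 * C2) a).and
    ((eventually_ge_atTop 12).and ((eventually_ge_atTop C1).and ((eventually_ge_atTop C2).and
      ((eventually_ge_atTop (1 / cU)).and (eventually_ge_atTop (1 / c6))))))))
  refine ⟨b * d + a * (d + 2) + 1, L₀, fun L hL D R δ lam ρ R₀ N h hδ hρ hR hR9 => ?_⟩
  obtain ⟨n1, n2, n3, n4, n5, n6, n7⟩ := hL₀ L hL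
  obtain ⟨e3, e2, e3', e2', e8, e9⟩ := exp_glbof L
  have hLx : L ≤ Real.exp L := by linarith [Real.add_one_le_exp L]
  rw [e3] at hR
  rw [e9] at hR9
  have hL1 : 1 ≤ L := by linarith
  have hL0 : 0 < L := by linarith
  have hx1 : 1 ≤ Real.exp L := hL1.trans hLx
  have hδ1 : δ ≤ 1 / 10 := hδ.trans (min_le_right _ _)
  have hlam := h.lam_pos
  have hl2 := h.lam_le
  have hρ0 := h.ρ_pos
  obtain ⟨hR0, hR1, hρR, hρe, hK, h12⟩ := numA_glbof (n3.trans hLx) hρ0 hR hR9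
  have hη0 : 0 < lam / L ^ a := by positivity
  have hη : lam / L ^ a ≤ lam := div_le_self hlam.le (one_le_pow₀ hL1)
  have he : ∀ i, ‖e i‖ = 1 := e.orthonormal.1
  have hϖ0 : 0 < (L ^ p)⁻¹ := by positivity
  have hϖ1 : (L ^ p)⁻¹ ≤ 1 := inv_le_one_of_one_le₀ (one_le_pow₀ hL1)
  have hlr : lam / ρ ≤ (L ^ p)⁻¹ := by
    rw [hρ, div_mul_eq_div_div, div_self hlam.ne', one_div]
    exact inv_anti₀ (by positivity) (pow_le_pow_right₀ hL1 hp)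
  have hCρ : 513 * ρ ≤ C * ρ := mul_le_mul_of_nonneg_right hC hρ0.le
  have hin : ∀ u ∈ ball (0 : E d) (R - 130 * R₀), ‖u‖ + 120 * R₀ ≤ R ∧ ‖u‖ + 1024 * ρ ≤ R ∧
      ‖u‖ + 32 * ρ ≤ R ∧ ‖u‖ + 16 * ρ ≤ R ∧ ‖u‖ + ρ ≤ R := fun u hu => by
    have := mem_ball_zero_iff.1 hu
    refine ⟨?_, ?_, ?_, ?_, ?_⟩ <;> linarith
  have hsub : ball (0 : E d) (R - 130 * R₀) ⊆ ball 0 R := ball_subset_ball (by linarith)
  have hsub2 : ball (0 : E d) (R - 130 * R₀) ⊆ ball 0 (R - 2 * ρ) := ball_subset_ball (by linarith)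
  have hz1 : ∀ z : ℝ, z ≤ 10 * R₀ → z + ρ ≤ 11 * R₀ ∧ z + ρ + lam ≤ (Real.exp L ^ 8)⁻¹ :=
    fun z hz => ⟨by linarith, by linarith⟩
  have hρ2 : ρ + ρ ≤ C * ρ := by linarith
  have hρ3 : 512 * ρ + ρ ≤ C * ρ := by linarith
  choose U f lv hUF using fun i => hU D R δ lam ρ (lam / L ^ a) N (e i) h hδ1
    (numE_glbof hL1 hlam hρ (by omega) hcU n6) (he i) hη0 hη
  refine ⟨U, ?_⟩
  set X := D.gd e Q ρ (Λ * (lam / L ^ a)) (L ^ p)⁻¹ Ce U with hX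
  obtain ⟨a1, a2, a3, a4, a5, a6, a7, a8, a9, a10, a11, a12, -, -, a15, a16⟩ :=
    gd_soft h.cv hδ1 hρ0 hϖ0 hCe.le he Q U hX
  have hS' := hS D R δ lam ρ _ _ Ce Q N e U X h hδ1 hϖ0 hϖ1 hCe.le he hX
  have h45' := h45 D R δ lam ρ _ _ _ Ce U f lv X h.cv hδ1 h.ht hlam hl2 hη0 hUF hX
  have hE := fun u => numD_glbof hL1 hlam hρ hb hC2.le n5
    (div_nonneg (h.cv.nonneg u ρ).2.2.2.1 (pow_pos hρ0 d).le) (a15 u C ρ hρ2)
  refine ⟨hR0, hR1, by rwa [e3'], hlam, a1, a2, a3, a4, a5, a6, fun i j => (hUF i).smooth j, a7,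
    a8, a9, a10, a11, a12, fun u hu => h.cv.met.gm_symm u (hsub hu),
    fun u hu => (h.cv.met.one u (hsub hu)).2.1.trans hδ1, fun u hu => ?_, fun u hu => ?_,
    fun u hu => ?_, fun x₀ hx₀ u hu hux => ?_, fun Y hY hs => ?_, fun u hu => ?_,
    fun u hu s hs hs' => ?_, fun u hu v => ?_, fun i u => congrFun (hUF i).zero u,
    fun i j hj u hu => ?_, fun i j hj x₀ hx₀ u hu hux B _ hB _ _ _ => ?_, fun u hu hg => ?_⟩
  · exact ((hS' u).1 (hin u hu).2.2.1).1.trans (mul_le_mul_of_nonneg_right hC0C (by positivity))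
  · exact ((hS' u).1 (hin u hu).2.2.1).2.1.trans (mul_le_mul_of_nonneg_right hC0C (sq_nonneg _))
  · refine ((hS' u).1 (hin u hu).2.2.1).2.2.1.trans (mul_le_mul_of_nonneg_right ?_ (by positivity))
    rw [e2, div_inv_eq_mul]
    exact n1.trans (le_self_pow₀ hx1 two_ne_zero)
  · refine (a16 x₀ (hsub hx₀) u lam h.ht hlam.le (hin u hu).2.2.2.2).trans
      (mul_le_mul_of_nonneg_right ?_ (a7 u))
    rw [e8]
    exact (hz1 _ hux).2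
  · refine (h1 D R δ lam ρ _ _ Ce Q e U X h.cv hδ1 h.ht hlam hl2 hX Y hY (hs.trans hsub2)).trans
      (mul_le_mul_of_nonneg_right ?_ (integral_nonneg fun _ => norm_nonneg _))
    rw [e2']
    exact (numB_glbof hx1 hρ0 hR hR1 hC1.le (hK _ (n4.trans hLx))).1
  · exact ((hS' u).1 (hin u hu).2.2.1).2.2.2 _ hC0C
  · have := hρ0.trans_le hs
    exact ((hS' u).2 s hs (by linarith only [(hin u hu).1, hs'])).trans (mul_le_mul_of_nonneg_right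
      (mul_le_mul_of_nonneg_right hC0C (sq_nonneg _)) (by positivity))
  · refine ((h45' u (hin u hu).2.2.2.1).1 v).trans
      (add_le_add le_rfl (mul_le_mul_of_nonneg_right ?_ (sq_nonneg _)))
    rw [mul_add, e2']
    exact add_le_add (hE u).1 (numB_glbof hx1 hρ0 hR hR1 hC2.le (hK _ (n5.trans hLx))).2
  · exact ((hUF i).size j hj u (hin u hu).2.2.2.1).trans (mul_le_mul_of_nonneg_right hCUC hlam.le)
  · refine ((h45' u (hin u hu).2.2.2.1).2 i j hj x₀ (hsub hx₀) B hB).trans (add_le_add le_rfl ?_)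
    rw [mul_add, e2']
    exact add_le_add (hE u).2 (numC_glbof (Real.exp_pos L) hρ0 hR hlam (pow_pos hL0 a) hC2.le
      (hK _ n2) (hz1 _ hux).1)
  · refine h6 D R δ lam ρ _ _ N U f lv X h (hδ.trans (min_le_left _ _)) hη0 hη
      (numE_glbof hL1 hlam hρ (by omega) hc6 n7) hlr hϖ1 hUF hX u (hin u hu).2.1
      (numF_glbof hL1 hlam hρ hc6 n7 (le_trans ?_ hg))
    have h2 := a15 u C (512 * ρ) hρ3
    rw [GD.tb, div_eq_inv_mul] at h2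
    exact le_of_mul_le_mul_left h2 (by positivity)

end Pool.Agent.Lib.MP_8daebb_an.GM
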