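import Pool.Agent.Lib.MP_8daebb_an.GM.Mon

/-! Mass near a point. -/

set_option linter.unusedSectionVars false
set_option linter.unusedVariables false

open MeasureTheory Metric Filter Topology Set
open scoped RealInnerProductSpace ENNReal ContDiff

namespace Pool.Agent.Lib.MP_8daebb_an.GM

open LG (vb chi om trS Sym)

variable {α : Type*} [MeasurableSpace α] {m : ℕ} {H : Type*} [NormedAddCommGroup H]
  [InnerProductSpace ℝ H] [FiniteDimensional ℝ H] [MeasurableSpace H] [BorelSpace H]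

theorem low_neck {D : CD m α H} {c : E m} {R δ M : ℝ} (h : CV D c R δ M) (hδ : δ ≤ 1 / 10)
    {a : α} (ha : a ∈ D.G) {ϑ r : ℝ} (hd : D.Den ϑ a) (hϑ : 0 ≤ ϑ) (hr : 0 < r)
    (hR : ‖D.x a - c‖ + 2 * r ≤ R) :
    (1 - (m + 2) * δ) * ϑ * r ^ m ≤ D.m.real (D.box (D.x a) (D.y a) r r) := by
  have hδ0 := h.δ_nonneg
  have hς : 0 < (1 - δ) * r := mul_pos (by linarith) hr
  have hςr : (1 - δ) * r ≤ r := by nlinarith
  have h2 := h.mono_den hδ ha hd hϑ hς (by linarith)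
  have h3 : D.m.real (D.pb (D.pos a) ((1 - δ) * r)) ≤ D.m.real (D.box (D.x a) (D.y a) r r) := by
    refine h.real_le ?_
    filter_upwards [h.ae_G] with a' ha' hp
    have h4 := (h.pb_box ha ha').1
    have h5 : ‖D.pos a' - D.pos a‖ ^ 2 < ((1 - δ) * r) ^ 2 :=
      pow_lt_pow_left₀ hp (norm_nonneg _) two_ne_zero
    have h6 : ‖D.x a' - D.x a‖ < r := by
      refine lt_of_pow_lt_pow_left₀ 2 hr.le ?_
      refine lt_of_mul_lt_mul_left (a := 1 - δ) ?_ (by linarith)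
      have : ((1 - δ) * r) ^ 2 ≤ (1 - δ) * r ^ 2 := by
        have : 0 ≤ (1 - δ) * δ * r ^ 2 := by
          have : 0 ≤ 1 - δ := by linarith
          positivity
        nlinarith
      nlinarith [sq_nonneg ‖D.y a' - D.y a‖]
    have h7 : ‖D.y a' - D.y a‖ < r := by
      refine lt_of_lt_of_le (lt_of_pow_lt_pow_left₀ 2 hς.le ?_) hςr
      have : 0 ≤ (1 - δ) * ‖D.x a' - D.x a‖ ^ 2 := by
        have : 0 ≤ 1 - δ := by linarith
        positivity
      linarith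
    exact ⟨h6, h7⟩
  refine le_trans ?_ (h2.trans h3)
  have h8 : 1 - (m : ℝ) * δ ≤ (1 - δ) ^ m := by
    have := one_add_mul_le_pow (a := -δ) (by linarith) m
    simpa [sub_eq_add_neg] using this
  have h9 : 1 - (m + 2) * δ ≤ (1 - 2 * δ) * (1 - δ) ^ m := by
    have h10 := mul_le_mul_of_nonneg_left h8 (show 0 ≤ 1 - 2 * δ by linarith)
    have h11 : 0 ≤ (m : ℝ) * δ ^ 2 := by positivity
    nlinarith
  have h12 := mul_le_mul_of_nonneg_right h9 (mul_nonneg hϑ (pow_nonneg hr.le m))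
  rw [mul_pow]
  nlinarith

theorem low_neck_int {D : CD m α H} {c : E m} {R δ M : ℝ} (h : CV D c R δ M) (hδ : δ ≤ 1 / 10)
    {a : α} (ha : a ∈ D.G) {ϑ r : ℝ} (hd : D.Den ϑ a) (hϑ : 0 ≤ ϑ) (hr : 0 < r)
    (hR : ‖D.x a - c‖ + 2 * r ≤ R) {ψ : H → ℝ} (hψ : Continuous ψ)
    (h01 : ∀ y, 0 ≤ ψ y ∧ ψ y ≤ 1) (h1 : ∀ y, ‖y - D.y a‖ ≤ r → ψ y = 1) :
    (1 - (m + 2) * δ) * ϑ * r ^ m ≤ ∫ a' in D.cyl (D.x a) r, ψ (D.y a') ∂D.m := by
  have := h.fin
  refine (low_neck h hδ ha hd hϑ hr hR).trans ?_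
  have hint : Integrable (fun a' => ψ (D.y a')) D.m :=
    h.integrable (hψ.measurable.comp h.m_y).aestronglyMeasurable 1 fun a' _ _ => by
      rw [Real.norm_of_nonneg (h01 _).1]; exact (h01 _).2
  rw [← integral_indicator (h.meas_cyl _ _), ← integral_indicator_one (h.meas_box _ _ _ _)]
  refine integral_mono ((integrable_const (1 : ℝ)).indicator (h.meas_box _ _ _ _))
    (hint.indicator (h.meas_cyl _ _)) fun a' => ?_
  by_cases hp : a' ∈ D.box (D.x a) (D.y a) r r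
  · rw [indicator_of_mem hp, indicator_of_mem (show a' ∈ D.cyl (D.x a) r from hp.1),
      h1 _ hp.2.le]
    exact le_rfl
  · rw [indicator_of_notMem hp]
    exact indicator_nonneg (fun _ _ => (h01 _).1) _

theorem up_neck {D : CD m α H} {c : E m} {R δ M : ℝ} (h : CV D c R δ M) (u : E m) (y₀ : H)
    (r η : ℝ) {ψ : H → ℝ} (hψ : Continuous ψ) (h01 : ∀ y, 0 ≤ ψ y ∧ ψ y ≤ 1)
    (h0 : ∀ y, η ≤ ‖y - y₀‖ → ψ y = 0) :
    ∫ a' in D.cyl u r, ψ (D.y a') ∂D.m ≤ D.m.real (D.box u y₀ r η) := by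
  have := h.fin
  have hint : Integrable (fun a' => ψ (D.y a')) D.m :=
    h.integrable (hψ.measurable.comp h.m_y).aestronglyMeasurable 1 fun a' _ _ => by
      rw [Real.norm_of_nonneg (h01 _).1]; exact (h01 _).2
  rw [← integral_indicator (h.meas_cyl _ _), ← integral_indicator_one (h.meas_box _ _ _ _)]
  refine integral_mono (hint.indicator (h.meas_cyl _ _))
    ((integrable_const (1 : ℝ)).indicator (h.meas_box _ _ _ _)) fun a' => ?_
  by_cases hc : a' ∈ D.cyl u r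
  · rw [indicator_of_mem hc]
    by_cases hb : ‖D.y a' - y₀‖ < η
    · rw [indicator_of_mem (show a' ∈ D.box u y₀ r η from ⟨hc, hb⟩)]
      exact (h01 _).2
    · rw [h0 _ (not_lt.1 hb)]
      exact indicator_nonneg (fun _ _ => zero_le_one) _
  · rw [indicator_of_notMem hc]
    exact indicator_nonneg (fun _ _ => zero_le_one) _

end Pool.Agent.Lib.MP_8daebb_an.GM
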