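import Pool.Agent.Lib.MP_8daebb_an.GM.SC1
import Pool.Agent.Lib.MP_8daebb_an.GM.Neck

/-! No thin necks when the energy is small. -/

set_option linter.unusedSectionVars false
set_option linter.unusedVariables false

open MeasureTheory Metric Filter Topology Set
open scoped RealInnerProductSpace ENNReal ContDiff

namespace Pool.Agent.Lib.MP_8daebb_an.GM

open LG (vb chi om trS)

variable {d : ℕ} {α : Type*} [MeasurableSpace α] {H : Type*} [NormedAddCommGroup H]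
  [InnerProductSpace ℝ H] [FiniteDimensional ℝ H] [MeasurableSpace H] [BorelSpace H]

theorem err_neckx (d : ℕ) {C₁ M ε δ ρ η E₀ : ℝ} (hC₁ : 0 ≤ C₁) (hM : 0 ≤ M) (hε : 0 < ε)
    (hε1 : ε ≤ 1) (hδ0 : 0 ≤ δ) (hδ : δ ≤ ε) (hη : 0 < η) (hηρ : η ≤ ρ) (hρ : ρ ≤ 1)
    (hE : E₀ * ρ ^ 2 ≤ ε ^ 2 * η ^ (d + 2)) :
    E₀ / (η / 4) ^ d + 2 * C₁ / η * ρ * √(4 ^ d * M * E₀ / (η / 4) ^ d) + δ * (4 ^ d * M) * ρ ≤
      ε * (4 ^ d * (1 + 2 * C₁ * (M + 1) + M)) := by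
  have hρ0 : 0 < ρ := hη.trans_le hηρ
  obtain ⟨P, hP⟩ : ∃ P : ℝ, P = 4 ^ d := ⟨_, rfl⟩
  have hP0 : 0 < P := by rw [hP]; positivity
  obtain ⟨s, hs⟩ : ∃ s : ℝ, s = ε * η / ρ := ⟨_, rfl⟩
  have hs0 : 0 < s := by rw [hs]; positivity
  have hsε : s ≤ ε := by
    rw [hs, div_le_iff₀ hρ0]; exact mul_le_mul_of_nonneg_left hηρ hε.le
  have hX : E₀ / (η / 4) ^ d ≤ P * s ^ 2 := by
    rw [div_le_iff₀ (by positivity)]
    have e : P * s ^ 2 * (η / 4) ^ d = ε ^ 2 * η ^ (d + 2) / ρ ^ 2 := by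
      rw [hP, hs, div_pow η 4 d]; field_simp; ring
    rw [e, le_div_iff₀ (by positivity)]
    exact hE
  rw [mul_div_assoc (4 ^ d * M), ← hP]
  obtain ⟨X, hXe⟩ : ∃ X : ℝ, X = E₀ / (η / 4) ^ d := ⟨_, rfl⟩
  rw [← hXe] at hX ⊢
  have t1 : X ≤ ε * P := by
    have h1 : s ^ 2 ≤ ε := by nlinarith
    nlinarith
  have hq : √(P * M * X) ≤ P * (M + 1) * s := by
    rw [Real.sqrt_le_left (by positivity)]
    have h1 : P * M * X ≤ P * M * (P * s ^ 2) := mul_le_mul_of_nonneg_left hX (by positivity)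
    have h2 : M ≤ (M + 1) ^ 2 := by nlinarith
    have h3 := mul_le_mul_of_nonneg_right h2 (sq_nonneg (P * s))
    nlinarith
  have t2 : 2 * C₁ / η * ρ * √(P * M * X) ≤ ε * (P * (2 * C₁ * (M + 1))) := by
    calc _ ≤ 2 * C₁ / η * ρ * (P * (M + 1) * s) := mul_le_mul_of_nonneg_left hq (by positivity)
      _ = _ := by rw [hs]; field_simp
  have t3 : δ * (P * M) * ρ ≤ ε * (P * M) := by
    have h1 : δ * (P * M) * ρ ≤ δ * (P * M) := mul_le_of_le_one_right (by positivity) hρ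
    have h2 : δ * (P * M) ≤ ε * (P * M) := mul_le_mul_of_nonneg_right hδ (by positivity)
    linarith
  linarith

theorem neck (d : ℕ) {κ : ℝ} (hκ : 0 < κ) (hκ1 : κ ≤ 1) (M : ℝ) : ∃ c₀ : ℝ, 0 < c₀ ∧
    ∃ δ₀ : ℝ, 0 < δ₀ ∧ ∀ (D : CD d α H) (c : E d) (R δ : ℝ), CV D c R δ M → δ ≤ δ₀ →
    ∀ a ∈ D.G, ∀ ϑ ρ η E₀ : ℝ, 0 ≤ ϑ → D.Den ϑ a → 0 < η → η ≤ ρ → ‖D.x a - c‖ + 2 * ρ ≤ R →
    ∫ a' in D.box (D.x a) (D.y a) (2 * ρ) η, (D.t a' + δ * ‖D.y a'‖ ^ 2) ∂D.m ≤ E₀ →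
    E₀ * ρ ^ 2 ≤ c₀ * η ^ (d + 2) →
    ((1 - κ) * ϑ - κ) * ρ ^ d ≤ D.m.real (D.box (D.x a) (D.y a) ((1 + κ) * ρ) η) := by
  rcases Nat.eq_zero_or_pos d with hd0 | hd1
  · exact ⟨1, one_pos, 1, one_pos, fun D c R δ h => absurd h.d_pos (by omega)⟩
  obtain ⟨C₁, hC₁, hcut⟩ := SV.exists_hcut (H := H)
  obtain ⟨C₂, hC₂, hsc⟩ := sc_fixed (α := α) (H := H) d hd1 hκ hκ1
  have hC₁' : 0 ≤ C₁ := by linarith
  obtain ⟨W, hW⟩ : ∃ W : ℝ, W = 4 ^ d * (1 + 2 * C₁ * (|M| + 1) + |M|) := ⟨_, rfl⟩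
  have hW0 : 0 < W := by rw [hW]; positivity
  have hK : 0 < C₂ * W + 10 + (d + 2) := by positivity
  obtain ⟨ε, hε⟩ : ∃ ε : ℝ, ε = κ / (C₂ * W + 10 + (d + 2)) := ⟨_, rfl⟩
  have hε0 : 0 < ε := by rw [hε]; positivity
  have hεK : ε * (C₂ * W + 10 + (d + 2)) = κ := by rw [hε]; field_simp
  have hεW : 0 ≤ ε * (C₂ * W) := by positivity
  have hεd : 0 ≤ ε * ((d : ℝ) + 2) := by positivity
  refine ⟨ε ^ 2, by positivity, ε, hε0, ?_⟩
  intro D c R δ h hδ a ha ϑ ρ η E₀ hϑ hd hη hηρ hR hE hE2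
  have := h.fin
  have hM := h.M_nonneg
  rw [abs_of_nonneg hM] at hW
  have hδ0 := h.δ_nonneg
  have hρ0 : 0 < ρ := hη.trans_le hηρ
  have hρ1 : ρ ≤ 1 := by linarith [norm_nonneg (D.x a - c), h.R_le]
  obtain ⟨ψ, hψ, h01, hD, h1, h0⟩ := hcut {D.y a} (η / 2) η (by linarith) (by linarith)
    (by linarith)
  have hΛ : ∀ y, ‖fderiv ℝ ψ y‖ ≤ 2 * C₁ / η := fun y => (hD y).trans (le_of_eq (by
    rw [Finset.card_singleton, Nat.cast_one, show η - η / 2 = η / 2 by ring]; field_simp))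
  have h0' : ∀ y, η ≤ ‖y - D.y a‖ → ψ y = 0 ∧ fderiv ℝ ψ y = 0 := fun y hy =>
    h0 y fun s hs => by rw [Finset.mem_singleton.1 hs]; exact hy
  have hbox : ∀ r, D.cyl (D.x a) r ∩ D.y ⁻¹' ball (D.y a) η = D.box (D.x a) (D.y a) r η :=
    fun r => by
      ext a'
      simp only [CD.cyl, CD.box, mem_inter_iff, mem_ofPred_eq, mem_preimage, mem_ball_iff_norm]
  have key := hsc D c R δ M h (by linarith) (D.x a) (η / 4) ρ (2 * C₁ / η) (4 ^ d * M) E₀ ψ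
    (ball (D.y a) η) (by linarith) (by linarith) hR hψ h01 hΛ measurableSet_ball
    (fun y hy => h0' y (by rwa [mem_ball_iff_norm, not_lt] at hy))
    (fun r hr _ => by
      rw [hbox]
      have hr0 : 0 < r := by linarith
      refine le_trans (measureReal_mono fun a' ha' => ?_) ((h.ub (D.x a) (D.y a) (4 * r)
        (by linarith)).trans (le_of_eq (by rw [mul_pow]; ring)))
      exact ⟨by linarith [ha'.1], by linarith [ha'.2]⟩)
    (by rw [hbox]; exact hE)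
  have hlow := low_neck_int h (by linarith) ha hd hϑ (show 0 < η / 4 by linarith) (by linarith)
    hψ.continuous h01 fun y hy => h1 y ⟨_, Finset.mem_singleton_self _, by linarith⟩
  have hup := up_neck h (D.x a) (D.y a) ((1 + κ) * ρ) η hψ.continuous h01 fun y hy => (h0' y hy).1
  have herr := err_neckx d hC₁' hM hε0 (by linarith) hδ0 hδ hη hηρ hρ1 hE2
  rw [← hW] at herr
  have e1 := mul_le_mul_of_nonneg_left herr hC₂.le
  have e2 : (1 - (d + 2) * δ) * ϑ ≤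
      (∫ a' in D.cyl (D.x a) (η / 4), ψ (D.y a') ∂D.m) / (η / 4) ^ d := by
    rw [le_div_iff₀ (by positivity)]; exact hlow
  have e3 : (∫ a' in D.cyl (D.x a) ((1 + κ) * ρ), ψ (D.y a') ∂D.m) / ρ ^ d ≤
      D.m.real (D.box (D.x a) (D.y a) ((1 + κ) * ρ) η) / ρ ^ d :=
    div_le_div_of_nonneg_right hup (by positivity)
  have e5 : ((d : ℝ) + 2) * δ ≤ (d + 2) * ε := mul_le_mul_of_nonneg_left hδ (by positivity)
  have e4 : (1 - κ) * ϑ ≤ (1 - (d + 2) * δ) * ϑ := mul_le_mul_of_nonneg_right (by linarith) hϑ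
  rw [← le_div_iff₀ (by positivity)]
  linarith

end Pool.Agent.Lib.MP_8daebb_an.GM
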