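import Pool.Agent.Lib.MP_8daebb_an.GM.Integ
import Pool.Agent.Lib.MP_8daebb_an.GM.NeckX
import Pool.Agent.Lib.MP_8daebb_an.GM.Av
import Pool.Agent.Lib.MP_8daebb_an.SV.Clus

/-! Groups of heights at good points. -/

set_option linter.unusedSectionVars false
set_option linter.unusedVariables false

open MeasureTheory Metric Filter Topology Set
open scoped RealInnerProductSpace ENNReal ContDiff

namespace Pool.Agent.Lib.MP_8daebb_an.GM

open LG (vb chi om trS)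

variable {d : ℕ} {α : Type*} [MeasurableSpace α] {H : Type*} [NormedAddCommGroup H]
  [InnerProductSpace ℝ H] [FiniteDimensional ℝ H] [MeasurableSpace H] [BorelSpace H]

theorem le_En_grp {D : CD d α H} {c : E d} {R δ M : ℝ} (h : CV D c R δ M) {f : α → ℝ}
    (hf : Integrable f D.m) (hle : ∀ a, PW D δ a → f a ≤ D.en a)
    {Z : Set α} {u : E d} {σ : ℝ} (hZ : Z ⊆ D.cyl u σ) : ∫ a in Z, f a ∂D.m ≤ D.En u σ := by
  have he := h.integrable_t.2.2.2.1
  exact (integral_mono_ae hf.integrableOn he.integrableOn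
    (ae_restrict_of_ae (h.pw_av.mono hle))).trans (setIntegral_mono_set he.integrableOn
      (ae_restrict_of_ae (h.pw_av.mono fun a ha => ha.facts_av.1)) hZ.eventuallyLE)

theorem res_En_grp {D : CD d α H} {c : E d} {R δ M : ℝ} (h : CV D c R δ M) (Z : Set α) (u : E d)
    (σ : ℝ) : (D.res Z).En u σ ≤ D.En u σ :=
  integral_mono_measure (Measure.restrict_mono subset_rfl Measure.restrict_le_self)
    (ae_restrict_of_ae (h.pw_av.mono fun a ha => ha.facts_av.1)) h.integrable_t.2.2.2.1.integrableOn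

theorem z_sub_grp (D : CD d α H) {e : H} (he : ‖e‖ = 1) (a b : α) :
    |D.z e a - D.z e b| ≤ ‖D.y a - D.y b‖ := by
  have := abs_real_inner_le_norm (D.y a - D.y b) e
  rwa [he, mul_one, inner_sub_left] at this

theorem neck_grp (d : ℕ) (M : ℝ) : ∃ c₀ : ℝ, 0 < c₀ ∧ ∃ δ₀ : ℝ, 0 < δ₀ ∧
    ∀ (D : CD d α H) (R δ ρ η : ℝ) (u : E d), CV D 0 R δ M → δ ≤ δ₀ → 0 < η → η ≤ ρ →
    ‖u‖ + 32 * ρ ≤ R → D.En u (32 * ρ) * ρ ^ 2 ≤ c₀ * η ^ (d + 2) →
    ∀ a ∈ D.G, a ∈ D.cyl u (16 * ρ) → D.Den (2 / 5 * vb d) a → ∀ r, η ≤ r → r ≤ 8 * ρ →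
    vb d / 5 * r ^ d ≤ D.m.real (D.box (D.x a) (D.y a) (5 / 4 * r) η) := by
  have hV := LG.vb_pos d
  obtain ⟨κ, hκ, hκ1, hκ2⟩ : ∃ κ : ℝ, 0 < κ ∧ κ ≤ 1 / 4 ∧ κ ≤ vb d / 10 :=
    ⟨min (1 / 4) (vb d / 10), by positivity, min_le_left _ _, min_le_right _ _⟩
  obtain ⟨c₁, hc₁, δ₁, hδ₁, hn⟩ := neck (α := α) (H := H) d hκ (by linarith) M
  refine ⟨c₁ / 64, by positivity, min δ₁ 1, by positivity,
    fun D R δ ρ η u h hδ hη hηρ hu hE a ha hx hd r h1 h2 => ?_⟩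
  have := h.fin
  have hx' : ‖D.x a - u‖ < 16 * ρ := hx
  have hδ1 : δ ≤ 1 := hδ.trans (min_le_right _ _)
  have hi := h.integrable_t
  have hr : 0 < r := hη.trans_le h1
  have h3 := hn D 0 R δ h (hδ.trans (min_le_left _ _)) a ha (2 / 5 * vb d) r η (D.En u (32 * ρ))
    (by positivity) hd hη h1 (by
      rw [sub_zero]
      linarith [norm_le_norm_add_norm_sub' (D.x a) u]) ?_ ?_
  · refine le_trans (mul_le_mul_of_nonneg_right (by nlinarith) (by positivity)) (h3.trans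
      (measureReal_mono fun t ht => ⟨ht.1.trans_le ?_, ht.2⟩))
    nlinarith
  · refine le_En_grp h (hi.1.add (hi.2.2.1.const_mul δ)) (fun a _ => ?_) fun b hb => ?_
    · simp only [CD.en, Pi.add_apply]
      nlinarith [sq_nonneg ‖D.y a‖]
    · have h4 : ‖D.x b - D.x a‖ < 2 * r := hb.1
      change ‖D.x b - u‖ < 32 * ρ
      linarith [norm_sub_le_norm_sub_add_norm_sub (D.x b) (D.x a) u]
  · have hE0 := (h.nonneg u (32 * ρ)).2.2.2.1
    have l4 : r ^ 2 ≤ (8 * ρ) ^ 2 := pow_le_pow_left₀ hr.le h2 2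
    nlinarith [mul_le_mul_of_nonneg_left l4 hE0]

theorem av_near_grp {D : CD d α H} {c : E d} {R δ M CI ρ σ : ℝ} (h : CV D c R δ M) (hδ : δ ≤ 1 / 2)
    (hCI : 0 ≤ CI) {N : E d → ℕ} (hN : IsMult D.m D.x D.j N) (hρ : 0 < ρ) (hσ : ρ ≤ σ) {u : E d}
    {n : ℕ}
    (h1 : ∫ v in ball u σ, |(N v : ℝ) - n| ≤ CI * ∫ a in D.cyl u (8 * σ), D.t a ^ 2 ∂D.m) :
    ∫ v in ball u σ, |(N v : ℝ) - n| ≤ CI * d * D.En u (8 * σ) ∧
    |D.av ρ (fun _ => (1 : ℝ)) u - n| ≤ Ck d * (CI * d + d + 1) * (D.En u (8 * σ) / ρ ^ d) := by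
  have hCk := one_le_Ck d
  obtain ⟨-, p1, p2, -, p4, -, -, p7⟩ := h.nonneg u (8 * σ)
  have h3 : ∫ v in ball u σ, |(N v : ℝ) - n| ≤ CI * d * D.En u (8 * σ) := by
    refine h1.trans ?_
    rw [mul_assoc]
    exact mul_le_mul_of_nonneg_left
      (p7.trans (mul_le_mul_of_nonneg_left (by linarith) (Nat.cast_nonneg d))) hCI
  refine ⟨h3, (h.av_one hδ hN hρ u n).trans ?_⟩
  have h4 : ∫ v in ball u ρ, |(N v : ℝ) - n| ≤ ∫ v in ball u σ, |(N v : ℝ) - n| :=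
    setIntegral_mono_set (((hN.integrable h).integrableOn.sub
      (integrableOn_const measure_ball_lt_top.ne)).abs)
      (Eventually.of_forall fun _ => abs_nonneg _) (ball_subset_ball hσ).eventuallyLE
  have h5 : D.En u ρ ≤ D.En u (8 * σ) := (h.cyl_mono (by simp; linarith)).2.2.2
  have h6 := mul_le_mul_of_nonneg_left h5 (show (0 : ℝ) ≤ d + 1 by positivity)
  calc _ ≤ Ck d / ρ ^ d * (CI * d * D.En u (8 * σ) + (d + 1) * D.En u (8 * σ)) :=
        mul_le_mul_of_nonneg_left (by linarith) (by positivity)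
    _ = _ := by ring

theorem one_grp (d : ℕ) (hd : 1 ≤ d) (M : ℝ) : ∃ C : ℝ, 0 < C ∧ ∃ δ₀ : ℝ, 0 < δ₀ ∧
    ∃ c₁ : ℝ, 0 < c₁ ∧ ∀ (D : CD d α H) (δ lam ρ : ℝ) (u : E d), CV D u (16 * ρ) δ M → Ht D lam →
    2 * lam ≤ ρ → 0 < ρ → δ ≤ δ₀ → D.En u (16 * ρ) ≤ c₁ * ρ ^ d →
    ∃ n : ℕ, |D.av ρ (fun _ => (1 : ℝ)) u - n| ≤ C * (D.En u (16 * ρ) / ρ ^ d) ∧
      (n = 0 → D.m.real (D.cyl u (2 * ρ)) ≤ C * D.En u (16 * ρ)) := by
  obtain ⟨l, hl, δ₁, hδ₁, CI, hCI, hn⟩ := integ (α := α) (H := H) d hd M (8 ^ d * M)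
  have hCk := one_le_Ck d
  refine ⟨Ck d * (CI * d + d + 1), by positivity, min δ₁ (1 / 2), by positivity, l, hl,
    fun D δ lam ρ u h hs hlam hρ0 hδ hE => ?_⟩
  have hδ1 : δ ≤ 1 / 2 := hδ.trans (min_le_right _ _)
  have e : 8 * (2 * ρ) = 16 * ρ := by ring
  obtain ⟨N, hN⟩ := h.exists_mult
  obtain ⟨-, p1, p2, p3, p4, -⟩ := h.nonneg u (16 * ρ)
  obtain ⟨n, h1⟩ := hn D u (16 * ρ) δ h (hδ.trans (min_le_left _ _)) N u (2 * ρ) hN (by linarith)
    (by simp; linarith) (by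
      rw [e]
      have : ρ ^ d ≤ (2 * ρ) ^ d := pow_le_pow_left₀ hρ0.le (by linarith) d
      nlinarith)
    ((hs.cyl_le h u (by linarith) (by linarith)).trans_eq (by rw [mul_pow]; ring))
  obtain ⟨h3, h4⟩ := av_near_grp h hδ1 hCI.le hN hρ0 (by linarith) h1
  rw [e] at h3 h4
  refine ⟨n, h4, fun h0 => ?_⟩
  have h5 := (abs_le.1 (hN.mass_near h u (2 * ρ))).2
  simp only [h0, Nat.cast_zero, sub_zero, Nat.abs_cast] at h3
  obtain ⟨-, q1, q2, -, q4, -⟩ := h.nonneg u (2 * ρ)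
  have h6 : D.En u (2 * ρ) ≤ D.En u (16 * ρ) := (h.cyl_mono (by simp; linarith)).2.2.2
  have h7 : (0 : ℝ) ≤ d := Nat.cast_nonneg d
  have h8 : (d + 1) * D.T u (2 * ρ) + δ * D.J u (2 * ρ) ≤ (d + 1) * D.En u (16 * ρ) := by
    nlinarith
  have h9 : (CI * d + d + 1) * D.En u (16 * ρ) ≤ Ck d * (CI * d + d + 1) * D.En u (16 * ρ) :=
    mul_le_mul_of_nonneg_right (le_mul_of_one_le_left (by positivity) hCk) p3
  change D.Ms u (2 * ρ) ≤ _
  linarith

theorem grp (d : ℕ) (M : ℝ) {CI : ℝ} (hCI : 0 ≤ CI) (Q : ℕ) : ∃ C : ℝ, 0 < C ∧ ∃ Λ : ℝ, 1 ≤ Λ ∧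
    ∃ c₀ : ℝ, 0 < c₀ ∧ ∃ δ₀ : ℝ, 0 < δ₀ ∧
    ∀ (D : CD d α H) (R δ lam ρ η : ℝ) (N : E d → ℕ) (e : H) (u : E d),
    MS D R δ M lam ρ CI Q N → δ ≤ δ₀ → ‖e‖ = 1 → 0 < η → η ≤ ρ / 2 → ‖u‖ + 32 * ρ ≤ R →
    D.En u (32 * ρ) * ρ ^ 2 ≤ c₀ * η ^ (d + 2) →
    ∃ (Cs : Finset ℝ) (wd : ℝ) (Qc : ℝ → ℕ),
      Grp D e ρ η u Q (C * (D.En u (32 * ρ) / ρ ^ d)) Cs wd Qc ∧ 2 * wd ≤ Λ * η := by
  classical
  by_cases hd : ¬1 ≤ d
  · exact ⟨1, one_pos, 1, le_rfl, 1, one_pos, 1, one_pos,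
      fun D R δ lam ρ η N e u hMS => absurd hMS.cv.d_pos hd⟩
  rw [not_not] at hd
  have hV := LG.vb_pos d
  obtain ⟨c₁, hc₁, δ₁, hδ₁, hneck⟩ := neck_grp (α := α) (H := H) d M
  obtain ⟨C, hC, δ₂, hδ₂, c₂, hc₂, hone⟩ := one_grp (α := α) (H := H) d hd M
  obtain ⟨K, hK⟩ := exists_nat_gt (5 * (26 ^ d * M) / vb d)
  obtain ⟨Λ, hΛ, hclus⟩ := SV.cluster K
  have hCk := one_le_Ck d
  obtain ⟨B, hB⟩ : ∃ B, B = K * C + Ck d * (CI * d + d + 1) := ⟨_, rfl⟩
  have hB0 : 0 < B := by rw [hB]; positivity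
  refine ⟨C, hC, 2 * Λ, by linarith, min (min c₁ c₂) (min (8 * B)⁻¹ (vb d / (10 * 2 ^ d * C))),
    by positivity, min (min δ₁ δ₂) (1 / 2), by positivity,
    fun D R δ lam ρ η N e u hMS hδ he hη hηρ hu hE => ?_⟩
  have h := hMS.cv
  have hs := hMS.ht
  have := h.fin
  have hρ0 := hMS.ρ_pos
  have hlam := hMS.lam_le
  have hρd : 0 < ρ ^ d := pow_pos hρ0 d
  simp only [le_min_iff] at hδ
  obtain ⟨⟨hδa, hδb⟩, hδ1⟩ := hδ
  have hE0 := (h.nonneg u (32 * ρ)).2.2.2.1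
  have hE1 : D.En u (32 * ρ) / ρ ^ d ≤
      min (min c₁ c₂) (min (8 * B)⁻¹ (vb d / (10 * 2 ^ d * C))) := by
    rw [div_le_iff₀ hρd]
    refine le_of_mul_le_mul_right (hE.trans ?_) (pow_pos hρ0 2)
    rw [mul_assoc _ (ρ ^ d), ← pow_add]
    exact mul_le_mul_of_nonneg_left (pow_le_pow_left₀ hη.le (by linarith) _) (by positivity)
  simp only [le_min_iff] at hE1
  obtain ⟨⟨-, hEa⟩, hEb, hEc⟩ := hE1
  have hBρ : B * (D.En u (32 * ρ) / ρ ^ d) ≤ 1 / 8 := by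
    have := mul_le_mul_of_nonneg_left hEb hB0.le
    rwa [mul_inv, mul_left_comm, mul_inv_cancel₀ hB0.ne', mul_one, ← one_div] at this
  have hn := hneck D R δ ρ η u h hδa hη (by linarith) hu (hE.trans (mul_le_mul_of_nonneg_right
    ((min_le_left _ _).trans (min_le_left _ _)) (by positivity)))
  obtain ⟨S, hS1, hS2, hS3⟩ := maxsep_cyl
    (fun a => a ∈ D.G ∧ a ∈ D.cyl u (16 * ρ) ∧ D.Den (2 / 5 * vb d) a)
    (fun a b => 2 * η ≤ |D.z e a - D.z e b|) (fun a b hab => by rwa [abs_sub_comm]) K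
    fun S h1 h2 h3 => by
      have h4 : (S : Set α).PairwiseDisjoint fun a => D.box (D.x a) (D.y a) (5 / 4 * (8 * ρ)) η :=
        fun a ha b hb hab => Set.disjoint_left.2 fun t h5 h6 => by
          linarith [h2 a ha b hb hab, z_sub_grp D he a b, h5.2, h6.2, norm_sub_rev (D.y a) (D.y t),
            norm_sub_le_norm_sub_add_norm_sub (D.y a) (D.y t) (D.y b)]
      have h5 := measureReal_biUnion_finset (μ := D.m) h4 fun a _ => h.meas_box _ _ _ _
      have h6 : D.m.real (⋃ a ∈ S, D.box (D.x a) (D.y a) (5 / 4 * (8 * ρ)) η)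
          ≤ D.Ms u (26 * ρ) := measureReal_mono (iUnion₂_subset fun a ha t ht => by
        have h7 : ‖D.x a - u‖ < 16 * ρ := (h1 a ha).2.1
        change ‖D.x t - u‖ < 26 * ρ
        linarith [ht.1, norm_sub_le_norm_sub_add_norm_sub (D.x t) (D.x a) u])
      have h7 := Finset.card_nsmul_le_sum S _ _ fun a ha =>
        hn a (h1 a ha).1 (h1 a ha).2.1 (h1 a ha).2.2 (8 * ρ) (by linarith) le_rfl
      have h8 := hs.cyl_le h u (σ := 26 * ρ) (by linarith) (by linarith)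
      rw [h3, nsmul_eq_mul, ← h5] at h7
      rw [div_lt_iff₀ hV] at hK
      have h9 : (K : ℝ) * (vb d / 5 * ρ ^ d) ≤ K * (vb d / 5 * (8 * ρ) ^ d) := by
        gcongr
        linarith
      rw [mul_pow] at h8
      nlinarith [mul_lt_mul_of_pos_right hK hρd]
  obtain ⟨Cs, wd, hCs, hwd, hwdΛ, hcen, hgap⟩ :=
    hclus (S.image (D.z e)) η hη (Finset.card_image_le.trans hS2)
  have hcov : ∀ a ∈ D.G, a ∈ D.cyl u (16 * ρ) → D.Den (2 / 5 * vb d) a →
      ∃ c ∈ Cs, |D.z e a - c| ≤ wd := fun a h1 h2 h3 => by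
    obtain ⟨b, hb, h4⟩ := hS3 a ⟨h1, h2, h3⟩
    obtain ⟨c, hc, h5⟩ := hcen _ (Finset.mem_image_of_mem _ hb)
    refine ⟨c, hc, ?_⟩
    rcases h4 with rfl | h4
    · linarith
    · linarith [abs_sub_le (D.z e a) (D.z e b) c]
  have hsub : D.cyl u ρ ⊆ D.cyl u (16 * ρ) := cyl_sub D (by simp; linarith)
  have h1 := h.resB hδ1 (c' := u) (σ := 16 * ρ) (by linarith) (by rw [sub_zero]; linarith)
  have hs1 : Ht (D.resB u (16 * ρ)) lam := hs.res _
  have hae : ∀ᵐ a ∂(D.resB u (16 * ρ)).m, ∃ c ∈ Cs, |D.z e a - c| ≤ wd := by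
    refine (ae_restrict_iff' (h.meas_cyl u _)).2 ?_
    filter_upwards [h.ae_G, h.ae_den] with a h2 h3 h4 using hcov a h2 h4 h3
  have hz : Measurable (D.z e) := h.m_y.inner_const
  have key : ∀ c ∈ Cs, ∃ n : ℕ,
      |D.av ρ (fun a => if |D.z e a - c| ≤ wd then (1 : ℝ) else 0) u - n| ≤
        C * (D.En u (32 * ρ) / ρ ^ d) ∧
      ∀ a ∈ D.G, a ∈ D.cyl u ρ → D.Den (2 / 5 * vb d) a → |D.z e a - c| ≤ wd → 1 ≤ n := by
    intro c hc
    have h2 : ∀ᵐ a ∂(D.resB u (16 * ρ)).m, |D.z e a - c| ≤ wd ∨ wd + 4 * η ≤ |D.z e a - c| := by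
      filter_upwards [hae] with a ⟨c', hc', h3⟩
      by_cases h4 : c = c'
      · exact Or.inl (h4 ▸ h3)
      · refine Or.inr ?_
        linarith [hgap c hc c' hc' h4, abs_sub_le c (D.z e a) c', abs_sub_comm c (D.z e a)]
    have hZ : MeasurableSet {a | c - wd - 2 * η < D.z e a ∧ D.z e a < c + wd + 2 * η} :=
      (measurableSet_lt measurable_const hz).inter (measurableSet_lt hz measurable_const)
    have h3 := h1.res_slab hδ1 he (h₁ := c - wd - 2 * η) (h₂ := c + wd + 2 * η) hη (by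
      filter_upwards [h2] with a ha
      change η ≤ |D.z e a - _| ∧ η ≤ |D.z e a - _|
      simp only [abs_le, le_abs] at ha ⊢
      rcases ha with ⟨a1, a2⟩ | a1 | a1
      · exact ⟨Or.inl (by linarith), Or.inr (by linarith)⟩
      · exact ⟨Or.inl (by linarith), Or.inl (by linarith)⟩
      · exact ⟨Or.inr (by linarith), Or.inr (by linarith)⟩)
    have hEr := (res_En_grp h1 {a | c - wd - 2 * η < (D.resB u (16 * ρ)).z e a ∧
      (D.resB u (16 * ρ)).z e a < c + wd + 2 * η} u (16 * ρ)).trans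
      ((res_En_grp h (D.cyl u (16 * ρ)) u (16 * ρ)).trans
        (h.cyl_mono (s := 32 * ρ) (u := u) (by simp; linarith)).2.2.2)
    obtain ⟨n, h4, h5⟩ := hone _ δ lam ρ u h3 (hs1.res _) hlam hρ0 hδb
      (hEr.trans ((div_le_iff₀ hρd).1 hEa))
    refine ⟨n, ?_, fun a a1 a2 a3 a4 => ?_⟩
    · rw [← av_resB h.m_x (c := u) (R₁ := 16 * ρ) hρ0 (by simp; linarith)]
      refine le_of_eq_of_le ?_ (h4.trans (mul_le_mul_of_nonneg_left
        (div_le_div_of_nonneg_right hEr hρd.le) hC.le))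
      congr 2
      refine (integral_congr_ae ?_).trans (integral_indicator hZ)
      filter_upwards [h2] with a ha
      rcases ha with ha | ha
      · rw [if_pos ha, indicator_of_mem]
        · rfl
        · exact show c - wd - 2 * η < D.z e a ∧ D.z e a < c + wd + 2 * η from
            ⟨by linarith [(abs_le.1 ha).1], by linarith [(abs_le.1 ha).2]⟩
      · rw [if_neg (by linarith), smul_zero, indicator_of_notMem]
        rintro (⟨a1, a2⟩ : c - wd - 2 * η < D.z e a ∧ D.z e a < c + wd + 2 * η)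
        rcases le_abs.1 ha with a3 | a3 <;> linarith
    · by_contra h6
      have a5 : ‖D.x a - u‖ < ρ := a2
      have h7 := hn a a1 (hsub a2) a3 (ρ / 2) hηρ (by linarith)
      have h8 := (h5 (by omega)).trans (mul_le_mul_of_nonneg_left hEr hC.le)
      change ((D.m.restrict _).restrict {a | c - wd - 2 * η < D.z e a ∧
        D.z e a < c + wd + 2 * η}).real (D.cyl u (2 * ρ)) ≤ _ at h8
      rw [measureReal_restrict_apply (h.meas_cyl u _),
        measureReal_restrict_apply ((h.meas_cyl u _).inter hZ)] at h8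
      have h9 := h7.trans ((measureReal_mono fun t ht => by
        have a6 := norm_sub_le_norm_sub_add_norm_sub (D.x t) (D.x a) u
        have a7 := abs_le.1 ((z_sub_grp D he t a).trans ht.2.le)
        have a8 := abs_le.1 a4
        have a9 := ht.1
        refine ⟨⟨show ‖D.x t - u‖ < 2 * ρ by linarith, ?_, ?_⟩,
          show ‖D.x t - u‖ < 16 * ρ by linarith⟩ <;> linarith).trans h8)
      rw [div_le_div_iff₀ hρd (by positivity)] at hEc
      rw [div_pow, div_mul_div_comm, div_le_iff₀ (by positivity)] at h9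
      nlinarith [mul_pos hV hρd]
  choose! n hn1 hn2 using key
  have hsum : ∑ c ∈ Cs, D.av ρ (fun a => if |D.z e a - c| ≤ wd then (1 : ℝ) else 0) u
      = D.av ρ (fun _ => (1 : ℝ)) u := by
    have := h1.fin
    simp only [← av_resB h.m_x (c := u) (u := u) (R₁ := 16 * ρ) hρ0 (by simp; linarith)]
    refine (integral_finsetSum _ fun c _ => h1.int_av hρ0 (int_cyl
      (Measurable.ite (measurableSet_le (hz.sub_const c).abs measurable_const) measurable_const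
        measurable_const) fun a => by split_ifs <;> norm_num) u).symm.trans (integral_congr_ae ?_)
    filter_upwards [hae] with a ⟨c, hc, h2⟩
    rw [Finset.sum_eq_single_of_mem c hc fun c' hc' h3 => by
      rw [if_neg fun h4 => by
        linarith [hgap c' hc' c hc h3, abs_sub_le c' (D.z e a) c, abs_sub_comm c' (D.z e a)],
        smul_zero], if_pos h2]
  have hQ : ∑ c ∈ Cs, n c = Q := by
    have h2 := (av_near_grp h hδ1 hCI hMS.mq.mult hρ0 le_rfl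
      (hMS.mq.near u ρ le_rfl (by rw [sub_zero]; linarith))).2.trans (mul_le_mul_of_nonneg_left
        (div_le_div_of_nonneg_right (h.cyl_mono (s := 32 * ρ) (u := u)
          (by simp; linarith)).2.2.2 hρd.le) (by positivity))
    have h3 := (Finset.abs_sum_le_sum_abs _ _).trans (Finset.sum_le_card_nsmul Cs _ _ hn1)
    rw [Finset.sum_sub_distrib, hsum, nsmul_eq_mul, ← Nat.cast_sum] at h3
    have h6 : (Cs.card : ℝ) * (C * (D.En u (32 * ρ) / ρ ^ d)) ≤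
        K * (C * (D.En u (32 * ρ) / ρ ^ d)) :=
      mul_le_mul_of_nonneg_right (by exact_mod_cast hCs) (by positivity)
    have h8 : |((∑ c ∈ Cs, n c : ℕ) : ℝ) - Q| ≤ 1 / 8 := by
      rw [hB] at hBρ
      have h9 := abs_sub_le ((∑ c ∈ Cs, n c : ℕ) : ℝ) (D.av ρ (fun _ => (1 : ℝ)) u) Q
      rw [abs_sub_comm _ (D.av ρ _ u)] at h9
      linarith
    exact nat_eq_integ one_pos (by linarith)
  refine ⟨Cs.filter fun c => 1 ≤ n c, wd, n, ⟨by linarith, ?_, fun c hc c' hc' => hgap c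
    (Finset.mem_filter.1 hc).1 c' (Finset.mem_filter.1 hc').1, fun c hc => (Finset.mem_filter.1 hc).2,
    ?_, fun c hc => hn1 c (Finset.mem_filter.1 hc).1⟩, by linarith⟩
  · filter_upwards [h.ae_G, h.ae_den] with a h2 h3 h4
    obtain ⟨c, hc, h5⟩ := hcov a h2 (hsub h4) h3
    exact ⟨c, Finset.mem_filter.2 ⟨hc, hn2 c hc a h2 h4 h3 h5⟩, h5⟩
  · rw [← hQ]
    exact Finset.sum_filter_of_ne fun c _ h2 => Nat.one_le_iff_ne_zero.2 h2

end Pool.Agent.Lib.MP_8daebb_an.GM
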