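import Pool.Agent.Lib.MP_8daebb_an.GM.Id
import Pool.Agent.Lib.MP_8daebb_an.GM.MetF

/-! The vertical identity, and the identities and pointwise facts in one direction. -/

set_option linter.unusedSectionVars false
set_option linter.unusedVariables false

open MeasureTheory Metric Filter Topology Set
open scoped RealInnerProductSpace ENNReal ContDiff

namespace Pool.Agent.Lib.MP_8daebb_an.GM

open LG (vb chi om trS)

variable {d : ℕ} {α : Type*} [MeasurableSpace α] {H : Type*} [NormedAddCommGroup H]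
  [InnerProductSpace ℝ H] [FiniteDimensional ℝ H] [MeasurableSpace H] [BorelSpace H]

theorem norm_p_id2 (D : CD d α H) (e : H) (a : α) : ‖D.p e a‖ ≤ ‖D.b a‖ * ‖e‖ := by
  have := (ContinuousLinearMap.adjoint (D.b a)).le_opNorm e
  rwa [LinearIsometryEquiv.norm_map] at this

theorem norm_am_id2 {A : E d →L[ℝ] E d} {δ : ℝ} (h : ‖A - 1‖ ≤ δ) (v : E d) :
    ‖A v‖ ≤ (1 + δ) * ‖v‖ ∧ (1 - δ) * ‖v‖ ^ 2 ≤ ⟪A v, v⟫ := by
  have h1 : ‖(A - 1) v‖ ≤ δ * ‖v‖ :=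
    ((A - 1).le_opNorm v).trans (mul_le_mul_of_nonneg_right h (norm_nonneg _))
  have h2 : A v = v + (A - 1) v := by simp
  constructor
  · rw [h2]
    linarith [norm_add_le v ((A - 1) v)]
  · have h3 := (abs_real_inner_le_norm ((A - 1) v) v).trans
      (mul_le_mul_of_nonneg_right h1 (norm_nonneg v))
    rw [h2, inner_add_left, real_inner_self_eq_norm_sq]
    linarith [(abs_le.1 h3).1]

theorem CV.integrable_ver_id2 {D : CD d α H} {c : E d} {R δ M : ℝ} (h : CV D c R δ M)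
    {φ : E d × H → ℝ} (hφ : Test c R φ) (e : H) :
    Integrable (fun a => fderiv ℝ φ (D.x a, D.y a) (D.q a e, D.g a e) +
      φ (D.x a, D.y a) * ⟪D.L a, e⟫) D.m := by
  have h1 : Continuous φ := hφ.contDiff.continuous
  have h2 : Continuous (fderiv ℝ φ) := hφ.contDiff.continuous_fderiv one_ne_zero
  have hδ := h.δ_nonneg
  have hF : Continuous fun p : (E d × H) × E d × H × H =>
      fderiv ℝ φ p.1 (p.2.1, p.2.2.1) + φ p.1 * ⟪p.2.2.2, e⟫ := by fun_prop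
  obtain ⟨C, hC⟩ := (isCompact_closedBall (0 : (E d × H) × E d × H × H)
    (2 + (δ * 2 * (√d + 2) * ‖e‖ + (1 + δ) * ((2 * √d + 2 * δ) * ‖e‖)) + 4 * ‖e‖ +
      δ * (√d + 2))).exists_bound_of_continuousOn hF.continuousOn
  refine h.integrable ?_ C fun a ha hx => hC ((D.x a, D.y a), D.q a e, D.g a e, D.L a) ?_
  · exact (hF.comp_stronglyMeasurable
      ((h.m_x.stronglyMeasurable.prodMk h.m_y.stronglyMeasurable).prodMk
        ((h.m_q.apply_continuousLinearMap e).stronglyMeasurable.prodMk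
          ((h.m_g.apply_continuousLinearMap e).stronglyMeasurable.prodMk
            h.m_L.stronglyMeasurable)))).aestronglyMeasurable
  · have hp := h.pw a ha
    have h6 := hp.x_le
    have h7 := hp.y_two
    have e0 := norm_nonneg e
    have y0 := norm_nonneg (D.y a)
    have hs : √(D.t a) + ‖D.y a‖ ≤ √d + 2 := add_le_add (Real.sqrt_le_sqrt hp.t_le) h7
    have a1 : ‖D.L a‖ ≤ δ * (√d + 2) := hp.L_le.trans (mul_le_mul_of_nonneg_left hs hδ)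
    have a2 : ‖D.g a e‖ ≤ 4 * ‖e‖ :=
      ((D.g a).le_opNorm e).trans (mul_le_mul_of_nonneg_right hp.g_norm e0)
    have a3 : ‖D.q a e - D.am (D.x a) (D.p e a)‖ ≤ δ * 2 * (√d + 2) * ‖e‖ :=
      (hp.qb e).trans (by gcongr)
    have a4 : ‖D.am (D.x a) (D.p e a)‖ ≤ (1 + δ) * ((2 * √d + 2 * δ) * ‖e‖) :=
      (norm_am_id2 (h.met.one _ hx).2.2 _).1.trans (mul_le_mul_of_nonneg_left
        ((norm_p_id2 D e a).trans (mul_le_mul_of_nonneg_right (hp.bounds hδ).2.1 e0))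
        (by positivity))
    have a5 := norm_le_norm_sub_add (D.q a e) (D.am (D.x a) (D.p e a))
    have e1 : 0 ≤ δ * 2 * (√d + 2) * ‖e‖ := by positivity
    have e2 : 0 ≤ (1 + δ) * ((2 * √d + 2 * δ) * ‖e‖) := by positivity
    have e3 : 0 ≤ δ * (√d + 2) := by positivity
    rw [mem_closedBall_zero_iff]
    simp only [Prod.norm_def, max_le_iff]
    refine ⟨⟨?_, ?_⟩, ?_, ?_, ?_⟩ <;> linarith

theorem comp_id2 (e : H) {c : E d} {R : ℝ} {φ : E d × ℝ → ℝ} (hφ : Test c R φ) :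
    Test c R (fun u : E d × H => φ (u.1, ⟪u.2, e⟫)) ∧ ∀ (x : E d) (y : H) (v : E d) (k : H),
      fderiv ℝ (fun u : E d × H => φ (u.1, ⟪u.2, e⟫)) (x, y) (v, k) =
        fderiv ℝ φ (x, ⟪y, e⟫) (v, ⟪k, e⟫) := by
  obtain ⟨Λ, hΛ⟩ : ∃ Λ : E d × H →L[ℝ] E d × ℝ, ∀ u, Λ u = (u.1, ⟪u.2, e⟫) :=
    ⟨(ContinuousLinearMap.id ℝ (E d)).prodMap (innerSL ℝ e), fun u => by
      rw [real_inner_comm]; rfl⟩
  have e1 : (fun u : E d × H => φ (u.1, ⟪u.2, e⟫)) = φ ∘ Λ := by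
    funext u
    simp only [Function.comp, hΛ]
  have hc := hφ.contDiff
  refine ⟨⟨?_, ?_⟩, fun x y v k => ?_⟩
  · rw [e1]
    exact (hc.comp Λ.contDiff).contDiffOn
  · obtain ⟨R', hR', h0⟩ := hφ.2
    exact ⟨R', hR', fun u hu => h0 _ hu⟩
  · rw [e1, fderiv_comp _ (hc.differentiable one_ne_zero _) Λ.differentiableAt, Λ.fderiv,
      ContinuousLinearMap.comp_apply, hΛ, hΛ]

theorem inner_p_id2 (D : CD d α H) (e : H) (a : α) (v : E d) : ⟪D.p e a, v⟫ = ⟪D.b a v, e⟫ := by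
  rw [CD.p, ContinuousLinearMap.adjoint_inner_left, real_inner_comm]

theorem g_nonneg_id2 {D : CD d α H} {δ : ℝ} {a : α} (h : PW D δ a) (h0 : 0 ≤ δ) (hδ : δ ≤ 1 / 2)
    (ham : ‖D.am (D.x a) - 1‖ ≤ δ) (e : H) : 0 ≤ ⟪D.g a e, e⟫ := by
  have h1 := h.bg e
  have h2 : 0 < 1 + δ * ‖D.y a‖ := by positivity
  have h3 := (norm_am_id2 ham (D.p e a)).2
  have h4 : 0 ≤ (1 - δ) * ‖D.p e a‖ ^ 2 := mul_nonneg (by linarith) (sq_nonneg _)
  exact (mul_nonneg_iff_of_pos_left h2).1 (h4.trans (h3.trans h1))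

theorem CV.ver_rad {D : CD d α H} {c : E d} {R δ M : ℝ} (h : CV D c R δ M) {ψ : E d × H → ℝ}
    (hψ : Test c R ψ) :
    ∫ a, (fderiv ℝ ψ (D.x a, D.y a) (D.q a (D.y a), D.g a (D.y a)) +
      ψ (D.x a, D.y a) * (trH (D.g a) + ⟪D.L a, D.y a⟫)) ∂D.m = 0 := by
  set e := stdOrthonormalBasis ℝ H with he
  have key : ∀ k, Test c R fun u : E d × H => ψ u * ⟪e k, u.2⟫ := fun k =>
    hψ.mul ((innerSL ℝ (e k)).contDiff.comp contDiff_snd).contDiffOn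
  have hd : ∀ k (u p : E d × H), fderiv ℝ (fun u : E d × H => ψ u * ⟪e k, u.2⟫) u p =
      ψ u * ⟪e k, p.2⟫ + ⟪e k, u.2⟫ * fderiv ℝ ψ u p := by
    intro k u p
    have h2 : HasFDerivAt ψ (fderiv ℝ ψ u) u :=
      (hψ.contDiff.differentiable one_ne_zero _).hasFDerivAt
    have h3 : HasFDerivAt (fun u : E d × H => ⟪e k, u.2⟫)
        ((innerSL ℝ (e k)).comp (ContinuousLinearMap.snd ℝ (E d) H)) u :=
      (innerSL ℝ (e k)).hasFDerivAt.comp u hasFDerivAt_snd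
    rw [(h2.fun_mul h3).fderiv]
    simp
  have e3 := integral_finsetSum (μ := D.m) Finset.univ
    fun k _ => h.integrable_ver_id2 (key k) (e k)
  rw [Finset.sum_eq_zero fun k _ => h.ver _ (key k) (e k)] at e3
  rw [← e3]
  refine integral_congr_ae (Eventually.of_forall fun a => ?_)
  have hy : D.y a = ∑ k, ⟪e k, D.y a⟫ • e k := (e.sum_repr' (D.y a)).symm
  have hv : (D.q a (D.y a), D.g a (D.y a)) = ∑ k, ⟪e k, D.y a⟫ • (D.q a (e k), D.g a (e k)) := by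
    have := congrArg ((D.q a).prod (D.g a)) hy
    rw [map_sum] at this
    simpa only [map_smul, ContinuousLinearMap.prod_apply] using this
  have hi : ⟪D.L a, D.y a⟫ = ∑ k, ⟪e k, D.y a⟫ * ⟪D.L a, e k⟫ := by
    conv_lhs => rw [hy]
    rw [inner_sum]
    simp only [real_inner_smul_right]
  have ht : trH (D.g a) = ∑ k, ⟪e k, D.g a (e k)⟫ := LinearMap.trace_eq_sum_inner _ e
  simp only [hd]
  rw [hv, hi, ht, map_sum, ← Finset.sum_add_distrib, Finset.mul_sum, ← Finset.sum_add_distrib]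
  refine Finset.sum_congr rfl fun k _ => ?_
  rw [map_smul, smul_eq_mul]
  ring

theorem CV.hor_e {D : CD d α H} {c : E d} {R δ M : ℝ} (h : CV D c R δ M) (e : H)
    {φ : E d × ℝ → ℝ} (hφ : Test c R φ) (v : E d) :
    ∫ a, (fderiv ℝ φ (D.x a, D.z e a) (v - D.τ a v, ⟪D.p e a, v⟫) +
      φ (D.x a, D.z e a) * ⟪D.eh a, v⟫) ∂D.m = 0 := by
  obtain ⟨h1, h2⟩ := comp_id2 e hφ
  have h3 := h.hor _ h1 v
  simp only [h2] at h3
  simp only [inner_p_id2, CD.z]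
  exact h3

theorem CV.ver_e {D : CD d α H} {c : E d} {R δ M : ℝ} (h : CV D c R δ M) (e : H)
    {φ : E d × ℝ → ℝ} (hφ : Test c R φ) :
    ∫ a, (fderiv ℝ φ (D.x a, D.z e a) (D.q a e, ⟪D.g a e, e⟫) +
      φ (D.x a, D.z e a) * ⟪D.L a, e⟫) ∂D.m = 0 := by
  obtain ⟨h1, h2⟩ := comp_id2 e hφ
  have h3 := h.ver _ h1 e
  simp only [h2] at h3
  simp only [CD.z]
  exact h3

theorem CV.meas_e {D : CD d α H} {c : E d} {R δ M : ℝ} (h : CV D c R δ M) (e : H) :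
    Measurable (D.z e) ∧ Measurable (D.p e) ∧ Measurable (D.dd e) ∧
      Measurable (fun a => D.q a e) ∧ Measurable (fun a => ⟪D.g a e, e⟫) ∧ Measurable D.en := by
  have hi : Measurable fun k : H => ⟪k, e⟫ := (continuous_id.inner continuous_const).measurable
  have hc : Continuous fun A : E d →L[ℝ] H => ContinuousLinearMap.adjoint A e :=
    (ContinuousLinearMap.adjoint (𝕜 := ℝ) (E := E d) (F := H)).continuous.clm_apply
      continuous_const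
  have hp : Measurable (D.p e) := hc.measurable.comp h.m_b
  have hg : Measurable fun a => ⟪D.g a e, e⟫ := hi.comp (h.m_g.apply_continuousLinearMap e)
  have hF : Continuous fun p : (E d →L[ℝ] E d) × E d => ⟪p.1 p.2, p.2⟫ := by fun_prop
  have ha : Measurable fun a => ⟪D.am (D.x a) (D.p e a), D.p e a⟫ :=
    (hF.comp_stronglyMeasurable
      ((h.m_am.comp h.m_x).stronglyMeasurable.prodMk hp.stronglyMeasurable)).measurable
  exact ⟨hi.comp h.m_y, hp, ((h.m_y.norm.const_add 1).mul hg).sub ha,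
    h.m_q.apply_continuousLinearMap e, hg, h.m_t.add (h.m_y.norm.pow_const 2)⟩

theorem inner_p (D : CD d α H) (e : H) (a : α) (v : E d) : ⟪D.p e a, v⟫ = ⟪D.b a v, e⟫ := by
  exact inner_p_id2 D e a v

/-- The pointwise facts in one direction. -/
theorem PW.scal {D : CD d α H} {δ : ℝ} {a : α} (h : PW D δ a) (h0 : 0 ≤ δ) (hδ : δ ≤ 1 / 2)
    (ham : ‖D.am (D.x a) - 1‖ ≤ δ) {e : H} (he : ‖e‖ = 1) :
    |D.z e a| ≤ ‖D.y a‖ ∧ 0 ≤ D.en a ∧ D.en a ≤ d + 1 ∧ D.t a ≤ D.en a ∧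
      ‖D.p e a‖ ^ 2 ≤ 8 * D.en a ∧
      ‖D.q a e - D.am (D.x a) (D.p e a)‖ ≤ 2 * ‖D.y a‖ * √(D.en a) ∧
      ‖D.q a e‖ ≤ 6 * √(D.en a) ∧ 0 ≤ ⟪D.g a e, e⟫ ∧ ⟪D.g a e, e⟫ ≤ 4 * D.en a ∧
      ⟪D.am (D.x a) (D.p e a), D.p e a⟫ ≤ (1 + ‖D.y a‖) * ⟪D.g a e, e⟫ ∧
      ‖D.p e a‖ ^ 2 ≤ 2 * ⟪D.am (D.x a) (D.p e a), D.p e a⟫ ∧ 0 ≤ D.dd e a ∧
      D.dd e a ≤ 6 * D.en a ∧ |⟪D.L a, e⟫| ≤ √(D.en a) ∧ ‖D.eh a‖ ≤ D.en a ∧
      |1 - D.j a| ≤ D.en a := by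
  have hY0 := norm_nonneg (D.y a)
  have hY : ‖D.y a‖ ≤ 1 / 2 := h.y_le.trans hδ
  have ht0 := h.t_nonneg
  have ht2 := h.t_le
  have hen : D.en a = D.t a + ‖D.y a‖ ^ 2 := rfl
  have hen0 : 0 ≤ D.en a := by rw [hen]; positivity
  have hte : D.t a ≤ D.en a := by rw [hen]; nlinarith
  have hs0 := Real.sqrt_nonneg (D.en a)
  have hs1 : √(D.t a) ≤ √(D.en a) := Real.sqrt_le_sqrt hte
  have hs2 : ‖D.y a‖ ≤ √(D.en a) := Real.le_sqrt_of_sq_le (by rw [hen]; linarith)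
  have hs3 : δ * (√(D.t a) + ‖D.y a‖) ≤ √(D.en a) := by
    have := mul_le_mul hδ (add_le_add hs1 hs2) (by positivity) (by norm_num)
    linarith
  have hg0 := g_nonneg_id2 h h0 hδ ham e
  have hg4 : ⟪D.g a e, e⟫ ≤ 4 * D.en a := by
    have := h.g_le e
    rwa [he, one_pow, mul_one] at this
  have hdy : δ * ‖D.y a‖ ≤ 1 / 2 * ‖D.y a‖ := mul_le_mul_of_nonneg_right hδ hY0
  have hpg : ⟪D.am (D.x a) (D.p e a), D.p e a⟫ ≤ (1 + ‖D.y a‖) * ⟪D.g a e, e⟫ :=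
    (h.bg e).trans (mul_le_mul_of_nonneg_right (by linarith) hg0)
  have hg6 : (1 + ‖D.y a‖) * ⟪D.g a e, e⟫ ≤ 6 * D.en a := by
    have := mul_le_mul (show 1 + ‖D.y a‖ ≤ 3 / 2 by linarith) hg4 hg0 (by norm_num)
    linarith
  have hp1 : ‖D.p e a‖ ≤ 5 / 2 * √(D.en a) := by
    have := norm_p_id2 D e a
    rw [he, mul_one] at this
    linarith [h.b_le]
  have hp2 : ‖D.p e a‖ ^ 2 ≤ 8 * D.en a := by
    have := pow_le_pow_left₀ (norm_nonneg _) hp1 2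
    rw [mul_pow, Real.sq_sqrt hen0] at this
    linarith
  obtain ⟨ha1, ha2⟩ := norm_am_id2 ham (D.p e a)
  have hp3 : ‖D.p e a‖ ^ 2 ≤ 2 * ⟪D.am (D.x a) (D.p e a), D.p e a⟫ := by
    have := mul_le_mul_of_nonneg_right hδ (sq_nonneg ‖D.p e a‖)
    linarith
  have hq1 : ‖D.q a e - D.am (D.x a) (D.p e a)‖ ≤ ‖D.y a‖ * √(D.en a) := by
    have h1 := h.qb e
    rw [he, mul_one] at h1
    have := mul_le_mul_of_nonneg_left hs3 hY0
    linarith
  have hq2 := mul_nonneg hY0 hs0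
  refine ⟨?_, hen0, ?_, hte, hp2, by linarith, ?_, hg0, hg4, hpg, hp3, ?_, ?_, ?_, ?_, ?_⟩
  · have := abs_real_inner_le_norm (D.y a) e
    rwa [he, mul_one] at this
  · rw [hen]; nlinarith
  · have h1 := norm_le_norm_sub_add (D.q a e) (D.am (D.x a) (D.p e a))
    have h2 := mul_le_mul_of_nonneg_right hδ (norm_nonneg (D.p e a))
    have h3 := mul_le_mul_of_nonneg_right hY hs0
    linarith
  · rw [CD.dd]; linarith
  · rw [CD.dd]; linarith [sq_nonneg ‖D.p e a‖]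
  · have := abs_real_inner_le_norm (D.L a) e
    rw [he, mul_one] at this
    exact this.trans (h.L_le.trans hs3)
  · have := h.eh_le
    rw [← hen] at this
    nlinarith
  · have h1 := abs_le.1 h.j_t
    have h3 : δ * ‖D.y a‖ ^ 2 ≤ 1 / 2 * ‖D.y a‖ ^ 2 := mul_le_mul_of_nonneg_right hδ (sq_nonneg _)
    have h4 := sq_nonneg ‖D.y a‖
    rw [hen, abs_le]
    rcases le_total (D.t a) 1 with h5 | h5
    · have h2 : D.t a ^ 2 ≤ D.t a := by nlinarith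
      constructor <;> linarith [h1.1, h1.2]
    · constructor <;> linarith [h.j_nonneg, h.j_le]

/-- Summing over an orthonormal basis. -/
theorem PW.sum_basis {D : CD d α H} {δ : ℝ} {a : α} (h : PW D δ a) (h0 : 0 ≤ δ) (hδ : δ ≤ 1 / 2)
    (ham : ‖D.am (D.x a) - 1‖ ≤ δ) {ι : Type} [Fintype ι] (e : OrthonormalBasis ι ℝ H) :
    D.t a ^ 2 ≤ 2 * Module.finrank ℝ H * ∑ i, D.dd (e i) a ∧
      ∀ v, ∑ i, ⟪D.p (e i) a, v⟫ ^ 2 = ‖D.b a v‖ ^ 2 := by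
  have hY0 := norm_nonneg (D.y a)
  refine ⟨(h.sq e).trans (mul_le_mul_of_nonneg_left (Finset.sum_le_sum fun i _ => ?_)
    (by positivity)), fun v => ?_⟩
  · have hdy : δ * ‖D.y a‖ ≤ 1 / 2 * ‖D.y a‖ := mul_le_mul_of_nonneg_right hδ hY0
    exact sub_le_sub_right
      (mul_le_mul_of_nonneg_right (by linarith) (g_nonneg_id2 h h0 hδ ham _)) _
  · rw [← real_inner_self_eq_norm_sq, ← e.sum_inner_mul_inner]
    exact Finset.sum_congr rfl fun i _ => by rw [inner_p, real_inner_comm (D.b a v) (e i), pow_two]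

/-- The trace of the symmetric tilt is comparable with the tilt. -/
theorem PW.tr_T0 {D : CD d α H} {δ : ℝ} {a : α} (h : PW D δ a) (hd : 1 ≤ d) (h0 : 0 ≤ δ)
    (hδ : 8 * d * δ ≤ 1) (hg : ‖D.gm (D.x a) - 1‖ ≤ δ) :
    D.t a ≤ 2 * trH (D.T0 a) ∧ trH (D.T0 a) ≤ 2 * D.t a := by
  have ht0 := h.t_nonneg
  have d1 : (1 : ℝ) ≤ d := by exact_mod_cast hd
  have e1 : D.T0 a = D.τ a + (D.gm (D.x a) - 1).comp (D.τ a) -
      ((D.gm (D.x a)).comp (D.τ a) - D.T0 a) := by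
    ext1 v
    simp
  have e2 : trH (D.T0 a) = D.t a + trH ((D.gm (D.x a) - 1).comp (D.τ a)) -
      trH ((D.gm (D.x a)).comp (D.τ a) - D.T0 a) := by
    rw [← h.tr_τ, ← (trH_lin _ _ 0).1, ← (trH_lin _ _ 0).2.1, ← e1]
  have δ1 : δ ≤ 1 / 8 := by nlinarith
  have a1 : ‖(D.gm (D.x a) - 1).comp (D.τ a)‖ ≤ δ * (2 * D.t a) :=
    (ContinuousLinearMap.opNorm_comp_le _ _).trans (mul_le_mul hg h.τ_le (norm_nonneg _) h0)
  have a2 : ‖(D.gm (D.x a)).comp (D.τ a) - D.T0 a‖ ≤ δ * (1 / 8) * D.t a :=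
    h.T0_τ.trans (by have := h.y_le.trans δ1; gcongr)
  have b1 := abs_le.1 ((abs_trH_le _).trans (mul_le_mul_of_nonneg_left a1 (by linarith)))
  have b2 := abs_le.1 ((abs_trH_le _).trans (mul_le_mul_of_nonneg_left a2 (by linarith)))
  have b3 := mul_le_mul_of_nonneg_right hδ ht0
  constructor <;> linarith [b1.1, b1.2, b2.1, b2.2]

end Pool.Agent.Lib.MP_8daebb_an.GM
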