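import Pool.Agent.Lib.MP_8daebb_an.GM.Trap

/-! The multiplicity is close to an integer. -/

set_option linter.unusedSectionVars false
set_option linter.unusedVariables false

open MeasureTheory Metric Filter Topology Set
open scoped RealInnerProductSpace ENNReal ContDiff

namespace Pool.Agent.Lib.MP_8daebb_an.GM

open LG (vb chi om trS Sym)

variable {α : Type*} [MeasurableSpace α] {m : ℕ} {H : Type*} [NormedAddCommGroup H]
  [InnerProductSpace ℝ H] [FiniteDimensional ℝ H] [MeasurableSpace H] [BorelSpace H]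

theorem leb_integ {f : E m → ℝ} (hf : Integrable f) {ρ : ℝ} (hρ : 0 < ρ) : ∀ᵐ x, ∀ b k : ℝ,
    (∀ i : ℕ, |(∫ y in ball x (ρ / 2 ^ i), f y) - b * vb m * (ρ / 2 ^ i) ^ m| ≤
      k * (ρ / 2 ^ i) ^ m) → |f x - b| * vb m ≤ k := by
  filter_upwards [LG.ae_lebesgue hf.locallyIntegrable] with x hx b k h
  have hp : ∀ i : ℕ, 0 < ρ / 2 ^ i := fun i => by positivity
  have h0 : Tendsto (fun i : ℕ => ρ / 2 ^ i) atTop (𝓝[>] 0) :=
    tendsto_nhdsWithin_iff.2 ⟨tendsto_const_nhds.div_atTop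
      (tendsto_pow_atTop_atTop_of_one_lt one_lt_two), Eventually.of_forall hp⟩
  have h1 := ((hx.comp h0).sub_const (b * vb m)).abs
  have h2 := le_of_tendsto' h1 (b := k) fun i => by
    have h3 : 0 < (ρ / 2 ^ i) ^ m := pow_pos (hp i) m
    rw [Function.comp_apply, div_sub' h3.ne', abs_div, abs_of_pos h3, div_le_iff₀ h3,
      mul_comm _ (b * _)]
    exact h i
  rwa [mul_comm (vb m), ← sub_mul, abs_mul, abs_of_pos (LG.vb_pos m)] at h2

theorem nat_eq_integ {n n' : ℕ} {V : ℝ} (hV : 0 < V) (h : |(n : ℝ) - n'| * V ≤ V / 2) :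
    n = n' := by
  have h1 : |(n : ℝ) - n'| < 1 := by
    by_contra g
    have := mul_le_mul_of_nonneg_right (not_lt.1 g) hV.le
    linarith
  have h2 : |(n : ℤ) - n'| < 1 := by exact_mod_cast h1
  rw [abs_lt] at h2
  omega

theorem integ (m : ℕ) (hm : 1 ≤ m) (M A : ℝ) :
    ∃ lam : ℝ, 0 < lam ∧ ∃ δ₀ : ℝ, 0 < δ₀ ∧ ∃ CI : ℝ, 0 < CI ∧
    ∀ (D : CD m α H) (c : E m) (R δ : ℝ), CV D c R δ M → δ ≤ δ₀ →
    ∀ (N : E m → ℕ) (u : E m) (ρ : ℝ),
    IsMult D.m D.x D.j N → 0 < ρ → ‖u - c‖ + 8 * ρ ≤ R → D.T u (8 * ρ) ≤ lam * ρ ^ m →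
    D.Ms u (8 * ρ) ≤ A * ρ ^ m →
    ∃ n : ℕ, ∫ v in ball u ρ, |(N v : ℝ) - n| ≤ CI * ∫ a in D.cyl u (8 * ρ), D.t a ^ 2 ∂D.m := by
  have hV := LG.vb_pos m
  have h8 : (1 : ℝ) ≤ 8 ^ m := one_le_pow₀ (by norm_num)
  have h10 : (1 : ℝ) ≤ 10 ^ m := one_le_pow₀ (by norm_num)
  obtain ⟨lT, hlT, δT, hδT, hT⟩ := trap (α := α) (H := H) m hm (κ := vb m / 10) (by positivity) M
    (8 ^ m * (3 / 2 * A + 1 / 2))
  obtain ⟨l0, hl0, δB, hδB, C, hC, hB⟩ := bad_cover (α := α) (H := H) m hm M A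
  obtain ⟨lC, hlC, δC, hδC, hC'⟩ :=
    cyl_mono (α := α) (H := H) m hm (κ := 1 / 2) (by norm_num) le_rfl M A
  obtain ⟨l, hl, l1, l2, l3, l4⟩ : ∃ l : ℝ, 0 < l ∧ l ≤ l0 ∧ l ≤ lC ∧ l * 8 ^ m ≤ lT ∧
      ((m : ℝ) + 1) * l ≤ vb m / 10 := by
    refine ⟨min (min l0 lC) (min (lT / 8 ^ m) (vb m / 10 / (m + 1))), by positivity,
      (min_le_left _ _).trans (min_le_left _ _), (min_le_left _ _).trans (min_le_right _ _),
      ?_, ?_⟩
    · exact (le_div_iff₀ (by positivity)).1 ((min_le_right _ _).trans (min_le_left _ _))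
    · exact (le_div_iff₀' (by positivity)).1 ((min_le_right _ _).trans (min_le_right _ _))
  refine ⟨l / 10 ^ m, by positivity, min (min δT δB) (min δC (vb m / 40 / (|A| + vb m))),
    by positivity, (|A| / vb m + 2) * (C / l ^ 2), by positivity,
    fun D c R δ h hδ N u ρ hN hρ hu h1 h2 => ?_⟩
  simp only [le_min_iff] at hδ
  obtain ⟨⟨d1, d2⟩, d3, d4⟩ := hδ
  have hρ2 : 0 < ρ ^ m := by positivity
  have hA : 0 ≤ A := by
    by_contra g
    have := (h.nonneg u (8 * ρ)).1
    linarith only [this, h2, mul_neg_of_neg_of_pos (not_le.1 g) hρ2]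
  rw [abs_of_nonneg hA] at d4 ⊢
  have hδ0 := h.δ_nonneg
  have d5 : δ * (A + vb m) ≤ vb m / 40 := (le_div_iff₀ (by positivity)).1 d4
  have mono : ∀ {v : E m} {r : ℝ}, ‖v - u‖ + r ≤ 8 * ρ → D.Ms v r ≤ A * ρ ^ m :=
    fun g => (h.cyl_mono g).1.trans h2
  have hA8 : A ≤ 3 / 2 * A + 1 / 2 := by linarith only [hA]
  obtain ⟨n, hn⟩ := hT D c R δ h d1 u ρ hρ hu
    (h1.trans (mul_le_mul_of_nonneg_right ((div_le_self hl.le h10).trans
      ((le_mul_of_one_le_right hl.le h8).trans l3)) hρ2.le))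
    (h2.trans (mul_le_mul_of_nonneg_right
      (hA8.trans (le_mul_of_one_le_left (by positivity) h8)) hρ2.le))
  obtain ⟨B, hBm, b1, b2, b3⟩ := hB D c R δ h d2 N u ρ l hN hρ hl l1 hu
    (h1.trans (le_of_eq (by ring))) h2
  have hnA : n * vb m ≤ A + vb m / 10 := by
    have g1 := (abs_le.1 (hn u (by simpa using hρ.le) ρ (by linarith) le_rfl)).1
    have g2 := mono (v := u) (r := ρ) (by simp; linarith)
    refine le_of_mul_le_mul_right ?_ hρ2
    linarith
  have chain : ∀ v ∈ ball u ρ, v ∉ B → ∀ i : ℕ, |D.Ms v (ρ / 2 / 2 ^ i) -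
      n * vb m * (ρ / 2 / 2 ^ i) ^ m| ≤ vb m / 10 * (ρ / 2 / 2 ^ i) ^ m := by
    intro v hv hvB i
    have hvu : ‖v - u‖ < ρ := mem_ball_iff_norm.1 hv
    have hvc := norm_sub_le_norm_sub_add_norm_sub v u c
    induction i with
    | zero => simpa using hn v hvu.le (ρ / 2) le_rfl (by linarith)
    | succ i ih =>
      rw [pow_succ (2 : ℝ) i, ← div_div _ _ 2]
      have s1 : ρ / 2 / 2 ^ i ≤ ρ / 2 := div_le_self (by positivity) (one_le_pow₀ one_le_two)
      have s0 : 0 < ρ / 2 / 2 ^ i := by positivity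
      generalize ρ / 2 / 2 ^ i = s at ih s1 s0
      have s2 : 0 < s ^ m := by positivity
      have m1 : D.Ms v (8 * s) ≤ 8 ^ m * (3 / 2 * A + 1 / 2) * s ^ m := by
        rw [mul_comm ((8 : ℝ) ^ m), mul_assoc, ← mul_pow]
        rcases le_total (8 * s) ρ with g | g
        · have g1 := hC' D c R δ h d3 v (8 * s) ρ (by positivity) g (by linarith)
            (fun r r1 r2 => (b1 v hv hvB r (by linarith) r2).trans
              (mul_le_mul_of_nonneg_right l2 (pow_nonneg (by linarith) m))) (mono (by linarith))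
          have g2 : (1 + 1 / 2) * D.Ms v ((1 + 1 / 2) * ρ) / ρ ^ m ≤ 3 / 2 * A := by
            have := mono (v := v) (r := (1 + 1 / 2) * ρ) (by linarith)
            rw [div_le_iff₀ hρ2]
            linarith
          exact (div_le_iff₀ (by positivity)).1 (g1.trans (add_le_add_left g2 _))
        · exact (mono (v := v) (r := 8 * s) (by linarith)).trans
            (mul_le_mul hA8 (pow_le_pow_left₀ hρ.le g m) hρ2.le (by positivity))
      obtain ⟨n', hn'⟩ := hT D c R δ h d1 v s s0 (by linarith)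
        ((b1 v hv hvB _ (by positivity) (by linarith)).trans
          (by rw [mul_pow, ← mul_assoc]; exact mul_le_mul_of_nonneg_right l3 s2.le)) m1
      have g1 := abs_le.1 (hn' v (by simpa using s0.le) s (by linarith) le_rfl)
      have g2 := abs_le.1 ih
      have g3 := mul_pos hV s2
      obtain rfl : n = n' := nat_eq_integ hV (by
        rw [← abs_of_pos hV, ← abs_mul, abs_of_pos hV, abs_le]
        constructor <;> refine le_of_mul_le_mul_right ?_ s2 <;>
          linarith only [g1.1, g1.2, g2.1, g2.2, g3])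
      exact hn' v (by simpa using s0.le) (s / 2) le_rfl (by linarith)
  have key : ∀ᵐ v, v ∈ ball u ρ → v ∉ B → N v = n := by
    filter_upwards [leb_integ (hN.integrable h) (half_pos hρ)] with v hv hvu hvB
    refine nat_eq_integ hV (hv n _ fun i => ?_)
    have g1 := abs_le.1 (chain v hvu hvB i)
    have s1 : ρ / 2 / 2 ^ i ≤ ρ / 2 := div_le_self (by positivity) (one_le_pow₀ one_le_two)
    have s0 : 0 < ρ / 2 / 2 ^ i := by positivity
    generalize ρ / 2 / 2 ^ i = s at g1 s1 s0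
    have s2 : 0 < s ^ m := by positivity
    have s3 := mul_pos hV s2
    have g2 := abs_le.1 (hN.mass_near h v s)
    have g3 := b1 v hvu hvB s s0 (by linarith)
    have g4 : D.Ms v s ≤ (A + vb m) * s ^ m := by
      linarith only [g1.2, s3, mul_le_mul_of_nonneg_right hnA s2.le]
    have g5 : δ * D.J v s ≤ vb m / 10 * s ^ m := by
      have e2 : D.J v s ≤ 4 * ((A + vb m) * s ^ m) := by
        linarith only [(h.nonneg v s).2.2.2.2.2.1, g4]
      calc δ * D.J v s ≤ δ * (4 * ((A + vb m) * s ^ m)) := mul_le_mul_of_nonneg_left e2 hδ0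
        _ = δ * (A + vb m) * (4 * s ^ m) := by ring
        _ ≤ vb m / 40 * (4 * s ^ m) := mul_le_mul_of_nonneg_right d5 (by positivity)
        _ = _ := by ring
    have g6 : ((m : ℝ) + 1) * D.T v s ≤ vb m / 10 * s ^ m := by
      refine (mul_le_mul_of_nonneg_left g3 (by positivity)).trans ?_
      rw [← mul_assoc]
      exact mul_le_mul_of_nonneg_right l4 s2.le
    rw [abs_le]
    constructor <;> linarith only [g1.1, g1.2, g2.1, g2.2, g5, g6, s3]
  have hA' : 0 ≤ A / vb m := by positivity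
  have hn1 : (n : ℝ) ≤ A / vb m + 1 := by
    rw [div_add_one hV.ne', le_div_iff₀ hV]
    linarith only [hnA, hV]
  have hi : Integrable (B.indicator fun v => (A / vb m + 2) * ((N v : ℝ) + 1)) :=
    (integrable_indicator_iff hBm).2 (b2.const_mul _)
  have hp : ∀ v, 0 ≤ B.indicator (fun v => (A / vb m + 2) * ((N v : ℝ) + 1)) v :=
    fun v => indicator_nonneg (fun _ _ => by positivity) v
  refine ⟨n, (integral_mono_of_nonneg (Eventually.of_forall fun _ => abs_nonneg _)
    hi.integrableOn ?_).trans ((setIntegral_le_integral hi (Eventually.of_forall hp)).trans ?_)⟩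
  · refine (ae_restrict_iff' measurableSet_ball).2 ?_
    filter_upwards [key] with v hv hvu
    by_cases g : v ∈ B
    · have g1 : (0 : ℝ) ≤ n := Nat.cast_nonneg n
      have g2 : (0 : ℝ) ≤ N v := Nat.cast_nonneg _
      rw [indicator_of_mem g, abs_le]
      constructor <;> linarith only [g1, g2, hA', hn1, mul_nonneg hA' g2]
    · rw [hv hvu g, sub_self, abs_zero]
      exact hp v
  · rw [integral_indicator hBm, integral_const_mul, mul_assoc]
    exact mul_le_mul_of_nonneg_left b3 (by positivity)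

end Pool.Agent.Lib.MP_8daebb_an.GM
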