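import Pool.Agent.Lib.MP_8daebb_an.GM.Df

/-! The mollifier. -/

set_option linter.unusedSectionVars false
set_option linter.unusedVariables false

open MeasureTheory Metric Filter Topology Set
open scoped RealInnerProductSpace ENNReal ContDiff

namespace Pool.Agent.Lib.MP_8daebb_an.GM

open LG (vb chi om trS Sym)

variable {α : Type*} [MeasurableSpace α] {m : ℕ} {H : Type*} [NormedAddCommGroup H]
  [InnerProductSpace ℝ H] [FiniteDimensional ℝ H] [MeasurableSpace H] [BorelSpace H]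

theorem phi_contDiff_ker (m : ℕ) : ContDiff ℝ ∞ ((bump0 (d := m)).normed (volume : Measure (E m))) :=
  (bump0 (d := m)).contDiff_normed

theorem kr_contDiff (ρ : ℝ) : ContDiff ℝ ∞ (kr ρ : E m → ℝ) :=
  contDiff_const.mul ((phi_contDiff_ker m).comp (contDiff_const_smul (ρ⁻¹ : ℝ)))

theorem kr_nonneg {ρ : ℝ} (hρ : 0 < ρ) (u : E m) : 0 ≤ kr ρ u :=
  mul_nonneg (by positivity) ((bump0 (d := m)).nonneg_normed _)

theorem kr_neg (ρ : ℝ) (u : E m) : kr ρ (-u) = kr ρ u := by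
  simp only [kr, smul_neg, ContDiffBump.normed_neg]

theorem step_ker {F : Type*} [NormedAddCommGroup F] [NormedSpace ℝ F] {g : E m → F} {ρ : ℝ}
    (hρ : 0 < ρ) (hg : Continuous (fderiv ℝ g)) (h : ∀ u : E m, ρ ≤ ‖u‖ → g u = 0) (u : E m)
    (hu : ρ ≤ ‖u‖) : fderiv ℝ g u = 0 := by
  have h1 : (closedBall (0 : E m) ρ)ᶜ ⊆ {v | fderiv ℝ g v = 0} := by
    intro v hv
    have h2 : g =ᶠ[𝓝 v] fun _ => 0 := by
      filter_upwards [isClosed_closedBall.isOpen_compl.mem_nhds hv] with w hw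
      exact h w (le_of_lt (by simpa using hw))
    show fderiv ℝ g v = 0
    rw [h2.fderiv_eq]
    simp
  have h3 := closure_minimal h1 (isClosed_eq hg continuous_const)
  rw [closure_compl, interior_closedBall _ hρ.ne'] at h3
  exact h3 (by simpa using hu)

theorem zero_ker {ρ : ℝ} (hρ : 0 < ρ) (u : E m) (hu : ρ ≤ ‖u‖) : kr ρ u = 0 := by
  have h1 : (ρ⁻¹ : ℝ) • u ∉ Function.support ((bump0 (d := m)).normed (volume : Measure (E m))) := by
    rw [(bump0 (d := m)).support_normed_eq, mem_ball_zero_iff, norm_smul,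
      Real.norm_of_nonneg (by positivity), not_lt, inv_mul_eq_div, le_div_iff₀ hρ]
    simpa [bump0] using hu
  rw [kr, Function.notMem_support.1 h1, mul_zero]

theorem fderiv_contDiff_ker {F : Type*} [NormedAddCommGroup F] [NormedSpace ℝ F] {g : E m → F}
    (hg : ContDiff ℝ ∞ g) : ContDiff ℝ ∞ (fderiv ℝ g) :=
  (contDiff_infty_iff_fderiv.1 hg).2

theorem kr_zero {ρ : ℝ} (hρ : 0 < ρ) {u : E m} (hu : ρ ≤ ‖u‖) :
    kr ρ u = 0 ∧ fderiv ℝ (kr ρ) u = 0 ∧ fderiv ℝ (fderiv ℝ (kr ρ)) u = 0 := by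
  have h1 := fderiv_contDiff_ker (kr_contDiff (m := m) ρ)
  have h2 := step_ker hρ h1.continuous (zero_ker hρ)
  exact ⟨zero_ker hρ u hu, h2 u hu, step_ker hρ (fderiv_contDiff_ker h1).continuous h2 u hu⟩

theorem kr_compact {ρ : ℝ} (hρ : 0 < ρ) : HasCompactSupport (kr ρ : E m → ℝ) :=
  HasCompactSupport.intro (isCompact_closedBall 0 ρ) fun u hu =>
    zero_ker hρ u (le_of_lt (by simpa using hu))

theorem kr_integral {ρ : ℝ} (hρ : 0 < ρ) :
    Integrable (kr ρ : E m → ℝ) ∧ ∫ u : E m, kr ρ u = 1 := by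
  refine ⟨(kr_contDiff ρ).continuous.integrable_of_hasCompactSupport (kr_compact hρ), ?_⟩
  simp only [kr]
  rw [integral_const_mul, Measure.integral_comp_inv_smul_of_nonneg volume
    ((bump0 (d := m)).normed (volume : Measure (E m))) hρ.le, (bump0 (d := m)).integral_normed,
    finrank_euclideanSpace_fin, smul_eq_mul, mul_one, inv_mul_cancel₀ (by positivity)]

theorem kr_low {ρ : ℝ} (hρ : 0 < ρ) {u : E m} (hu : ‖u‖ ≤ ρ / 2) :
    1 / (vb m * ρ ^ m) ≤ kr ρ u := by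
  have h1 : bump0 (d := m) ((ρ⁻¹ : ℝ) • u) = 1 := by
    refine (bump0 (d := m)).one_of_mem_closedBall ?_
    rw [mem_closedBall_zero_iff, norm_smul, Real.norm_of_nonneg (by positivity), inv_mul_eq_div,
      div_le_iff₀ hρ]
    simp only [bump0]
    linarith
  have h2 : ∫ x, bump0 (d := m) x ≤ vb m := by
    refine ((bump0 (d := m)).integral_le_measure_closedBall volume).trans (le_of_eq ?_)
    simp only [Measure.real, bump0, vb]
    rw [Measure.addHaar_unitClosedBall_eq_addHaar_unitBall]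
  have h3 : 0 < ∫ x, bump0 (d := m) x := (bump0 (d := m)).integral_pos
  rw [kr, (bump0 (d := m)).normed_def, h1, mul_comm (vb m), ← div_div, one_div, div_eq_mul_one_div]
  gcongr

theorem fderiv_scale_ker {F : Type*} [NormedAddCommGroup F] [NormedSpace ℝ F] (g : E m → F)
    (a c : ℝ) : fderiv ℝ (fun u => a • g (c • u)) = fun u => (a * c) • fderiv ℝ g (c • u) := by
  funext u
  have h1 := congrFun (fderiv_const_smul_field (𝕜 := ℝ) (f := fun u : E m => g (c • u)) a) u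
  rw [Pi.smul_apply, fderiv_comp_smul, smul_smul] at h1
  exact h1

theorem kr_bound (m : ℕ) : ∃ Ck : ℝ, 1 ≤ Ck ∧ ∀ ρ : ℝ, 0 < ρ → ∀ u : E m, kr ρ u ≤ Ck / ρ ^ m ∧
    ‖fderiv ℝ (kr ρ) u‖ ≤ Ck / ρ ^ (m + 1) ∧
    ‖fderiv ℝ (fderiv ℝ (kr ρ)) u‖ ≤ Ck / ρ ^ (m + 2) := by
  have c0 := phi_contDiff_ker m
  have c1 := fderiv_contDiff_ker c0
  have c2 := fderiv_contDiff_ker c1
  have s0 : HasCompactSupport ((bump0 (d := m)).normed (volume : Measure (E m))) :=
    (bump0 (d := m)).hasCompactSupport_normed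
  obtain ⟨C0, h0⟩ := c0.continuous.bounded_above_of_compact_support s0
  obtain ⟨C1, h1⟩ := c1.continuous.bounded_above_of_compact_support (s0.fderiv ℝ)
  obtain ⟨C2, h2⟩ := c2.continuous.bounded_above_of_compact_support ((s0.fderiv ℝ).fderiv ℝ)
  refine ⟨max 1 (max C0 (max C1 C2)), le_max_left _ _, fun ρ hρ u => ?_⟩
  have e0 : (kr ρ : E m → ℝ) = fun u => (ρ ^ m)⁻¹ • (bump0 (d := m)).normed volume ((ρ⁻¹ : ℝ) • u) := rfl
  have b0 : C0 ≤ max 1 (max C0 (max C1 C2)) := by simp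
  have b1 : C1 ≤ max 1 (max C0 (max C1 C2)) := by simp
  have b2 : C2 ≤ max 1 (max C0 (max C1 C2)) := by simp
  refine ⟨?_, ?_, ?_⟩
  · rw [kr, div_eq_inv_mul]
    exact mul_le_mul_of_nonneg_left ((le_abs_self _).trans ((h0 _).trans b0)) (by positivity)
  · rw [e0, fderiv_scale_ker, norm_smul, Real.norm_of_nonneg (by positivity), div_eq_inv_mul,
      pow_succ ρ m, mul_inv]
    exact mul_le_mul_of_nonneg_left ((h1 _).trans b1) (by positivity)
  · have e1 := fderiv_scale_ker (fderiv ℝ ((bump0 (d := m)).normed (volume : Measure (E m))))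
      ((ρ ^ m)⁻¹ * ρ⁻¹) ρ⁻¹
    rw [e0, fderiv_scale_ker]
    refine (congrArg norm (congrFun e1 u)).le.trans ?_
    rw [norm_smul, Real.norm_of_nonneg (by positivity),
      div_eq_inv_mul, pow_succ ρ (m + 1), pow_succ ρ m, mul_inv, mul_inv]
    exact mul_le_mul_of_nonneg_left ((h2 _).trans b2) (by positivity)

/-- The constant of the mollifier. -/
noncomputable def Ck (m : ℕ) : ℝ := (kr_bound m).choose

theorem one_le_Ck (m : ℕ) : 1 ≤ Ck m := (kr_bound m).choose_spec.1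

theorem kr_le {ρ : ℝ} (hρ : 0 < ρ) (u : E m) : kr ρ u ≤ Ck m / ρ ^ m ∧
    ‖fderiv ℝ (kr ρ) u‖ ≤ Ck m / ρ ^ (m + 1) ∧
    ‖fderiv ℝ (fderiv ℝ (kr ρ)) u‖ ≤ Ck m / ρ ^ (m + 2) :=
  (kr_bound m).choose_spec.2 ρ hρ u

end Pool.Agent.Lib.MP_8daebb_an.GM
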