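import Pool.Agent.Lib.MP_8daebb_an.GM.Id2
import Pool.Agent.Lib.MP_8daebb_an.GM.Ker2
import Pool.Agent.Lib.MP_8daebb_an.GM.HB
import Pool.Agent.Lib.MP_8daebb_an.GM.Base3
import Pool.Agent.Lib.MP_8daebb_an.GM.IBP
import Pool.Agent.Lib.MP_8daebb_an.GM.GLX

/-! Auxiliary estimates for the derivative of the mass excess. -/

set_option linter.unusedSectionVars false
set_option linter.unusedVariables false

open MeasureTheory Metric Filter Topology Set
open scoped RealInnerProductSpace ENNReal ContDiff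

namespace Pool.Agent.Lib.MP_8daebb_an.GM

open LG (vb chi om trS)

variable {d : ℕ} {α : Type*} [MeasurableSpace α] {H : Type*} [NormedAddCommGroup H]
  [InnerProductSpace ℝ H] [FiniteDimensional ℝ H] [MeasurableSpace H] [BorelSpace H]

theorem chi_deriv_key2 (u : E d) {ϱ : ℝ} (hϱ : 0 < ϱ) :
    HasDerivAt (fun ϱ => chi 0 ϱ u) (2 / ϱ ^ 3 * om 0 ϱ u * ‖u‖ ^ 2) ϱ := by
  refine (LG.der_pow_cut 0 1 u hϱ).congr_deriv ?_
  simp only [om, sub_zero]
  push_cast
  field_simp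
  ring

theorem zero_key2 {r : ℝ} (hr : 0 < r) {u : E d} (hu : r ≤ ‖u‖) :
    chi 0 r u = 0 ∧ om 0 r u = 0 := by
  have h := (chi_props (0 : E d) hr).2.1 u (by rwa [sub_zero])
  exact ⟨h.1, h.2.1⟩

theorem int_deriv_key2 {β : Type*} [MeasurableSpace β] (μ : Measure β) {X : β → E d}
    (hX : Measurable X) {g : β → ℝ} (hg : Measurable g) {r R : ℝ} (hr : 0 < r) (hR : r < R)
    (hi : Integrable ({b | ‖X b‖ < R}.indicator g) μ) :
    HasDerivAt (fun ϱ => ∫ b, chi 0 ϱ (X b) * g b ∂μ)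
      (∫ b, 2 / r ^ 3 * om 0 r (X b) * ‖X b‖ ^ 2 * g b ∂μ) r := by
  have hm : ∀ ϱ, 0 < ϱ → AEStronglyMeasurable (fun b => chi 0 ϱ (X b) * g b) μ := fun ϱ hϱ =>
    (((LG.contDiff_chi 0 ϱ).continuous.measurable.comp hX).mul hg).aestronglyMeasurable
  refine (hasDerivAt_integral_of_dominated_loc_of_deriv_le (s := Ioo (r / 2) R)
    (F := fun ϱ b => chi 0 ϱ (X b) * g b)
    (F' := fun ϱ b => 2 / ϱ ^ 3 * om 0 ϱ (X b) * ‖X b‖ ^ 2 * g b)
    (bound := fun b => 12 / r * ‖{b | ‖X b‖ < R}.indicator g b‖)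
    (Ioo_mem_nhds (by linarith) hR) ((eventually_gt_nhds hr).mono hm) ?_ ?_ ?_
    (hi.norm.const_mul _) ?_).2
  · refine hi.norm.mono' (hm r hr) (Eventually.of_forall fun b => ?_)
    by_cases hb : ‖X b‖ < R
    · rw [indicator_of_mem (show b ∈ {b | ‖X b‖ < R} from hb), norm_mul,
        Real.norm_of_nonneg (LG.chi_nonneg _ _ _)]
      exact mul_le_of_le_one_left (norm_nonneg _) (LG.chi_le_one _ _ _)
    · rw [(zero_key2 hr (by linarith [not_lt.1 hb])).1, zero_mul, norm_zero]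
      exact norm_nonneg _
  · exact (((measurable_const.mul ((LG.contDiff_om 0 r).continuous.measurable.comp hX)).mul
      (hX.norm.pow_const 2)).mul hg).aestronglyMeasurable
  · refine Eventually.of_forall fun b ϱ hϱ => ?_
    have h0 : 0 < ϱ := by linarith [hϱ.1]
    rcases le_or_gt ϱ ‖X b‖ with hb | hb
    · rw [(zero_key2 h0 hb).2, mul_zero, zero_mul, zero_mul, norm_zero]
      positivity
    · rw [indicator_of_mem (show b ∈ {b | ‖X b‖ < R} from hb.trans hϱ.2), norm_mul]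
      refine mul_le_mul_of_nonneg_right ?_ (norm_nonneg _)
      have c3 := LG.om_nonneg 0 ϱ (X b)
      rw [Real.norm_of_nonneg (by positivity)]
      calc 2 / ϱ ^ 3 * om 0 ϱ (X b) * ‖X b‖ ^ 2 ≤ 2 / ϱ ^ 3 * 3 * ϱ ^ 2 := by
            gcongr
            exact LG.om_le _ _ _
        _ = 6 / ϱ := by field_simp; norm_num
        _ ≤ 6 / (r / 2) := by gcongr; exact hϱ.1.le
        _ = 12 / r := by field_simp; norm_num
  · exact Eventually.of_forall fun b ϱ hϱ =>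
      (chi_deriv_key2 (X b) (by linarith [hϱ.1])).mul_const (g b)

theorem supp_key2 {F : Type*} [NormedAddCommGroup F] {g : E d → F} {r : ℝ}
    (h0 : ∀ u, r < ‖u‖ → g u = 0) : HasCompactSupport g :=
  HasCompactSupport.intro (isCompact_closedBall 0 r) fun u hu => h0 u (by simpa using hu)

theorem smul_c1_key2 {F : Type*} [NormedAddCommGroup F] [NormedSpace ℝ F] {κ : E d → ℝ}
    {w : E d → F} {r R : ℝ} (hκ : ContDiff ℝ 1 κ) (h0 : ∀ u, r ≤ ‖u‖ → κ u = 0) (hR : r < R)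
    (hw : ContDiffOn ℝ 1 w (ball 0 R)) : ContDiff ℝ 1 (fun u => κ u • w u) ∧
      ∀ u : E d, r < ‖u‖ → fderiv ℝ (fun u => κ u • w u) u = 0 := by
  have hz : ∀ u : E d, r < ‖u‖ → (fun u => κ u • w u) =ᶠ[𝓝 u] fun _ => (0 : F) := fun u hu => by
    have ho : IsOpen {v : E d | r < ‖v‖} := isOpen_lt continuous_const continuous_norm
    filter_upwards [ho.mem_nhds hu] with v hv
    rw [h0 v (le_of_lt hv), zero_smul]
  refine ⟨contDiff_iff_contDiffAt.2 fun u => ?_, fun u hu => ?_⟩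
  · rcases lt_or_ge ‖u‖ R with hu | hu
    · exact hκ.contDiffAt.smul (hw.contDiffAt (isOpen_ball.mem_nhds (mem_ball_zero_iff.2 hu)))
    · exact contDiffAt_const.congr_of_eventuallyEq (hz u (hR.trans_le hu))
  · rw [(hz u hu).fderiv_eq]
    simp

theorem tr_key2 (c : ℝ) (A τ : E d →L[ℝ] E d) (l : E d →L[ℝ] ℝ) (v : E d) :
    trH ((c • A + l.smulRight v).comp τ) = c * trH (A.comp τ) + l (τ v) := by
  have h := sum_eb (l.comp τ) v
  simp only [ContinuousLinearMap.comp_apply] at h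
  rw [← trS_eq, ← trS_eq, ← h]
  simp only [trS, ContinuousLinearMap.comp_apply, add_apply,
    smul_apply, ContinuousLinearMap.smulRight_apply, inner_add_left,
    real_inner_smul_left, Finset.sum_add_distrib, Finset.mul_sum, mul_comm]

theorem pow_deriv_key2 (d : ℕ) {r : ℝ} (hr : 0 < r) :
    HasDerivAt (fun ϱ : ℝ => ϱ ^ 2 / ϱ ^ d) ((2 - d) * (r ^ 2 / r ^ d) / r) r := by
  refine ((hasDerivAt_pow 2 r).div (hasDerivAt_pow d r) (pow_ne_zero d hr.ne')).congr_deriv ?_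
  cases d with
  | zero =>
    simp
    field_simp
  | succ n =>
    simp only [Nat.add_sub_cancel]
    push_cast
    field_simp
    ring

theorem bd_key2 {D : CD d α H} (hx : Measurable D.x) {k : E d → ℝ} (hk : Continuous k)
    (hc : HasCompactSupport k) {g : α → ℝ} (hg : Integrable g D.m) :
    Integrable (fun a => k (D.x a) * g a) D.m := by
  obtain ⟨B, hB⟩ := hk.bounded_above_of_compact_support hc
  exact hg.bdd_mul (hk.measurable.comp hx).aestronglyMeasurable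
    (Eventually.of_forall fun a => hB _)

theorem phi_key2 {D : CD d α H} {R δ M r : ℝ} (h : CV D 0 R δ M) (hr : 0 < r) (hR : r < R) :
    ContDiff ℝ 1 (fun u => chi 0 r u * D.w u) ∧ ContDiff ℝ 1 (fun u => om 0 r u * D.w u) ∧
      HasCompactSupport (fun u => chi 0 r u * D.w u) ∧
      HasCompactSupport (fun u => om 0 r u * D.w u) :=
  ⟨(smul_c1_key2 (LG.contDiff_chi 0 r) (fun u hu => (zero_key2 hr hu).1) hR h.met.w_diff).1,
    (smul_c1_key2 (LG.contDiff_om 0 r) (fun u hu => (zero_key2 hr hu).2) hR h.met.w_diff).1,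
    supp_key2 fun u hu => by rw [(zero_key2 hr hu.le).1, zero_mul],
    supp_key2 fun u hu => by rw [(zero_key2 hr hu.le).2, zero_mul]⟩

theorem weight_key2 {D : CD d α H} {R δ M lam ρ CI r : ℝ} {Q : ℕ} {N : E d → ℕ}
    (hS : MS D R δ M lam ρ CI Q N) (hCI : 0 ≤ CI) (hδ : δ ≤ 1 / 10) (hr : 0 < r)
    (hR : r + 17 * ρ ≤ R) {g : E d → ℝ} (hg : Continuous g) {A : ℝ} (hA : 0 ≤ A)
    (hb : ∀ u, |g u| ≤ A * chi 0 r u) :
    |(∫ a, g (D.x a) ∂D.m) - Q * ∫ u, g u| ≤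
      A * ((d + 1 + 2 * (d * (8 ^ d * CI))) * (∫ a, chi 0 r (D.x a) * D.w (D.x a) * D.t a ∂D.m) +
        (∫ a, chi 0 r (D.x a) * D.w (D.x a) * ‖D.y a‖ ^ 2 ∂D.m) +
        54 * (d * (8 ^ d * CI)) * (ρ / r * D.En 0 (r + 9 * ρ))) := by
  have h := hS.cv
  have hfin := h.fin
  have hρ := hS.ρ_pos
  have hδ0 := h.δ_nonneg
  have c0 := LG.chi_nonneg (0 : E d) r
  have c1 := LG.chi_le_one (0 : E d) r
  have gz : ∀ u, r ≤ ‖u‖ → g u = 0 := fun u hu => by
    have := hb u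
    rwa [(zero_key2 hr hu).1, mul_zero, abs_nonpos_iff] at this
  have gs : HasCompactSupport g := supp_key2 fun u hu => gz u hu.le
  have gi : Integrable g := hg.integrable_of_hasCompactSupport gs
  obtain ⟨p1, -, p2, -⟩ := phi_key2 h hr (by linarith)
  obtain ⟨it, -, iy, ien, -⟩ := h.integrable_t
  have i1 := bd_key2 h.m_x p1.continuous p2 it
  have i2 := bd_key2 h.m_x p1.continuous p2 iy
  have i3 := bd_key2 h.m_x hg gs h.integrable_j_base2
  have i4 : Integrable (fun a => g (D.x a)) D.m := by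
    simpa using bd_key2 h.m_x hg gs (integrable_const (1 : ℝ))
  have i5 := ien.indicator (h.meas_cyl 0 (r + 9 * ρ))
  obtain ⟨iN, eN⟩ := hS.mq.mult.integral h hg.measurable (B := A) fun u =>
    (hb u).trans (mul_le_of_le_one_right hA (c1 u))
  have n0 : ∀ u : E d, 0 ≤ (ball 0 (r + 9 * ρ)).indicator (fun _ => 54 * (ρ / r)) u := fun u =>
    indicator_nonneg (fun _ _ => by positivity) u
  obtain ⟨iW, eW⟩ := hS.mq.weight h hρ hCI hg.measurable
    (F := fun u => A * (chi 0 r u + (ball 0 (r + 9 * ρ)).indicator (fun _ => 54 * (ρ / r)) u))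
    (((LG.contDiff_chi 0 r).continuous.measurable.add
      (measurable_const.indicator measurableSet_ball)).const_mul A)
    (B := A * (1 + 54 * (ρ / r))) (fun u => mul_nonneg hA (add_nonneg (c0 u) (n0 u)))
    (fun u => mul_le_mul_of_nonneg_left (add_le_add (c1 u)
      (indicator_le' (fun _ _ => le_rfl) (fun _ _ => by positivity) u)) hA)
    (fun v hv => by
      have b1 : ‖v‖ < r := not_le.1 fun hn => hv (gz v hn)
      rw [sub_zero]
      linarith)
    (fun v v' hv => by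
      rcases le_or_gt r ‖v‖ with b1 | b1
      · rw [gz v b1, abs_zero]
        exact mul_nonneg hA (add_nonneg (c0 _) (n0 _))
      refine (hb v).trans (mul_le_mul_of_nonneg_left ?_ hA)
      have b2 := (abs_le.1 ((chi_props (0 : E d) hr).2.2.2.2.2 v v').1).2
      have b3 : 6 / r * ‖v - v'‖ ≤ 6 / r * (9 * ρ) := by gcongr
      have b4 := norm_sub_norm_le v' v
      rw [norm_sub_rev] at b4
      rw [indicator_of_mem (mem_ball_zero_iff.2 (by linarith))]
      have b5 : 6 / r * (9 * ρ) = 54 * (ρ / r) := by ring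
      linarith)
  have m0 : |(∫ a, g (D.x a) ∂D.m) - ∫ a, g (D.x a) * D.j a ∂D.m| ≤
      A * (d + 1) * (∫ a, chi 0 r (D.x a) * D.w (D.x a) * D.t a ∂D.m) +
        A * ∫ a, chi 0 r (D.x a) * D.w (D.x a) * ‖D.y a‖ ^ 2 ∂D.m := by
    rw [← integral_sub i4 i3, ← integral_const_mul, ← integral_const_mul,
      ← integral_add (i1.const_mul _) (i2.const_mul _), ← Real.norm_eq_abs]
    refine norm_integral_le_of_norm_le ((i1.const_mul _).add (i2.const_mul _)) ?_
    filter_upwards [h.ae_met] with a ⟨pw, _, hw, _⟩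
    have b1 := (pw.bounds hδ0).2.2.2
    have b2 := pw.t_nonneg
    have b3 : 1 / 2 ≤ D.w (D.x a) := by linarith [(abs_le.1 hw).1]
    have b4 : |1 - D.j a| ≤ D.w (D.x a) * ((d + 1) * D.t a + ‖D.y a‖ ^ 2) := by
      have e1 : 1 / 2 * ((d + 1) * D.t a + ‖D.y a‖ ^ 2) ≤
          D.w (D.x a) * ((d + 1) * D.t a + ‖D.y a‖ ^ 2) := by gcongr
      have e2 : δ / 2 * ‖D.y a‖ ^ 2 ≤ 1 / 2 * ‖D.y a‖ ^ 2 := by gcongr; linarith
      linarith
    rw [Real.norm_eq_abs, ← mul_one_sub, abs_mul]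
    refine (mul_le_mul (hb _) b4 (abs_nonneg _) (mul_nonneg hA (c0 _))).trans_eq (by ring)
  have m1 : |(∫ v, g v * (N v : ℝ)) - Q * ∫ v, g v| ≤ ∫ v, |g v| * |(N v : ℝ) - Q| := by
    rw [← integral_const_mul, ← integral_sub iN (gi.const_mul _)]
    refine abs_integral_le_integral_abs.trans_eq (integral_congr_ae (Eventually.of_forall fun v => ?_))
    simp only
    rw [← abs_mul]
    congr 1
    ring
  have m2 : ∫ a, A * (chi 0 r (D.x a) + (ball 0 (r + 9 * ρ)).indicator (fun _ => 54 * (ρ / r))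
      (D.x a)) * D.t a ^ 2 ∂D.m ≤
      2 * A * d * (∫ a, chi 0 r (D.x a) * D.w (D.x a) * D.t a ∂D.m) +
        54 * A * d * (ρ / r) * D.En 0 (r + 9 * ρ) := by
    rw [CD.En, ← integral_indicator (h.meas_cyl 0 _), ← integral_const_mul, ← integral_const_mul,
      ← integral_add (i1.const_mul _) (i5.const_mul _)]
    refine integral_mono_of_nonneg (Eventually.of_forall fun a => ?_)
      ((i1.const_mul _).add (i5.const_mul _)) ?_
    · exact mul_nonneg (mul_nonneg hA (add_nonneg (c0 _) (n0 _))) (sq_nonneg _)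
    filter_upwards [h.ae_met] with a ⟨pw, _, hw, _⟩
    have b2 := pw.t_nonneg
    have b3 : 1 / 2 ≤ D.w (D.x a) := by linarith [(abs_le.1 hw).1]
    have b4 : D.t a ^ 2 ≤ d * D.t a := by nlinarith [pw.t_le]
    have b5 := c0 (D.x a)
    have b6 : A * chi 0 r (D.x a) * D.t a ^ 2 ≤ A * chi 0 r (D.x a) * (d * D.t a) := by gcongr
    have b7 : 1 / 2 * (A * chi 0 r (D.x a) * (d * D.t a)) ≤
        D.w (D.x a) * (A * chi 0 r (D.x a) * (d * D.t a)) := by gcongr
    by_cases hx : a ∈ D.cyl 0 (r + 9 * ρ)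
    · rw [indicator_of_mem hx, indicator_of_mem ((mem_cyl_base2 D _ _ a).1 hx), CD.en]
      have b8 : A * (ρ / r) * D.t a ^ 2 ≤ A * (ρ / r) * (d * D.t a) := by gcongr
      have b9 : 0 ≤ A * d * (ρ / r) * ‖D.y a‖ ^ 2 := by positivity
      linarith
    · rw [indicator_of_notMem hx, indicator_of_notMem fun e => hx ((mem_cyl_base2 D _ _ a).2 e)]
      linarith
  have m3 := mul_le_mul_of_nonneg_left m2 (show 0 ≤ 8 ^ d * CI by positivity)
  have m4 := abs_sub_le (∫ a, g (D.x a) ∂D.m) (∫ v, g v * (N v : ℝ)) (Q * ∫ v, g v)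
  rw [eN] at m0
  linarith

theorem alg_key2 {c o W t Y r ρ n e1 e2 e3 e4 : ℝ} (hc : 0 ≤ c) (ho : 0 ≤ o) (ho' : o ≤ 3)
    (hW : 1 / 2 ≤ W) (ht : 0 ≤ t) (hY : 0 ≤ Y) (hr : 0 < r) (hρ : 0 ≤ ρ)
    (h1 : |e1| ≤ 4 * n * r * t) (h2 : |e2| ≤ r * t / 2) (h3 : |e3| ≤ r ^ 2 * (ρ * t / 5))
    (h4 : |e4| ≤ r * (t + Y)) :
    0 ≤ -(c * W * e1) - c * e2 + 2 / r ^ 2 * (o * e3) + c * W * e4 +
      (4 * n + 2) * r * (c * W * t) + r * (c * W * Y) + 2 * ρ * (t + Y) := by
  have a0 : 0 ≤ c * W := mul_nonneg hc (by linarith)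
  have a1 := mul_le_mul_of_nonneg_left (abs_le.1 h1).2 a0
  have a2 := mul_le_mul_of_nonneg_left (abs_le.1 h2).2 hc
  have a4 := mul_le_mul_of_nonneg_left (abs_le.1 h4).1 a0
  have a5 : 1 / 2 * (c * r * t) ≤ W * (c * r * t) := by gcongr
  have a6 : |2 / r ^ 2 * (o * e3)| ≤ 2 / r ^ 2 * (3 * (r ^ 2 * (ρ * t / 5))) := by
    rw [abs_mul, abs_mul, abs_of_nonneg ho, abs_of_nonneg (by positivity)]
    gcongr
  have a7 : 2 / r ^ 2 * (3 * (r ^ 2 * (ρ * t / 5))) = 6 / 5 * (ρ * t) := by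
    field_simp
    ring
  have a8 := (abs_le.1 a6).1
  have a9 : 0 ≤ ρ * t := by positivity
  have a10 : 0 ≤ ρ * Y := by positivity
  linarith

theorem err_key2 {D : CD d α H} {R δ M lam ρ r : ℝ} (h : CV D 0 R δ M) (hδ : δ ≤ 1 / 10)
    (hl : 2 * lam ≤ ρ) {a : α} (pw : PW D δ a) (hx : D.x a ∈ ball (0 : E d) R)
    (hy : ‖D.y a‖ ≤ lam) (hr : ‖D.x a‖ < r) :
    |trH ((fderiv ℝ D.glx (D.x a)).comp (D.τ a)) - D.t a| ≤ 4 * d * r * D.t a ∧
      |fderiv ℝ D.w (D.x a) (D.τ a (D.glx (D.x a)))| ≤ r * D.t a / 2 ∧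
      |D.w (D.x a) * ⟪D.x a, D.τ a (D.glx (D.x a))⟫ -
        ⟪D.T0 a (D.am (D.x a) (D.x a)), D.am (D.x a) (D.x a)⟫ / D.mu (D.x a)| ≤
        r ^ 2 * (ρ * D.t a / 5) ∧
      |⟪D.eh a, D.glx (D.x a)⟫| ≤ r * (D.t a + ‖D.y a‖ ^ 2) := by
  have hδ0 := h.δ_nonneg
  have ht := pw.t_nonneg
  have hr0 : 0 ≤ r := (norm_nonneg _).trans hr.le
  obtain ⟨g1, g2, -⟩ := (h.met.glx hδ0 hδ h.R_le).2 _ hx
  have g3 : ‖D.glx (D.x a)‖ ≤ 2 * r := by linarith
  refine ⟨?_, ?_, ?_, ?_⟩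
  · have e : (fderiv ℝ D.glx (D.x a) - 1).comp (D.τ a) =
        (fderiv ℝ D.glx (D.x a)).comp (D.τ a) - D.τ a := by
      ext1 v
      simp
    rw [← pw.tr_τ, ← (trH_lin _ _ 0).2.1, ← e, pw.tr_τ]
    refine (abs_trH_le _).trans ?_
    calc _ ≤ d * (20 * (1 / 10) * r * (2 * D.t a)) := by
          gcongr
          refine (ContinuousLinearMap.opNorm_comp_le _ _).trans ?_
          gcongr
          · exact g1.trans (by gcongr)
          · exact pw.τ_le
      _ = _ := by ring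
  · rw [← Real.norm_eq_abs]
    calc _ ≤ ‖fderiv ℝ D.w (D.x a)‖ * (‖D.τ a‖ * ‖D.glx (D.x a)‖) :=
          ((fderiv ℝ D.w (D.x a)).le_opNorm _).trans (by gcongr; exact (D.τ a).le_opNorm _)
      _ ≤ 1 / 10 * (2 * D.t a * (2 * r)) := by
          gcongr
          · exact (h.met.w_le _ hx).2.trans hδ
          · exact pw.τ_le
      _ ≤ _ := by nlinarith [mul_nonneg hr0 ht]
  · have e : D.w (D.x a) * ⟪D.x a, D.τ a (D.glx (D.x a))⟫ -
        ⟪D.T0 a (D.am (D.x a) (D.x a)), D.am (D.x a) (D.x a)⟫ / D.mu (D.x a) =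
        ⟪D.am (D.x a) (D.x a), ((D.gm (D.x a)).comp (D.τ a) - D.T0 a) (D.glx (D.x a))⟫ := by
      rw [sub_apply, inner_sub_right, ContinuousLinearMap.comp_apply,
        h.met.am_symm _ hx, (h.met.am_gm _ hx _).1, real_inner_smul_right, ← pw.T0_symm, CD.glx,
        real_inner_smul_right (D.T0 a _), div_eq_inv_mul]
    have b1 : ‖D.am (D.x a) (D.x a)‖ ≤ 2 * r :=
      ((D.am _).le_opNorm _).trans (mul_le_mul (h.met.psd (by linarith) hx).2.2.1 hr.le
        (norm_nonneg _) (by norm_num))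
    have hl0 : 0 ≤ lam := (norm_nonneg _).trans hy
    rw [e]
    calc _ ≤ ‖D.am (D.x a) (D.x a)‖ * (‖(D.gm (D.x a)).comp (D.τ a) - D.T0 a‖ *
          ‖D.glx (D.x a)‖) := (abs_real_inner_le_norm _ _).trans
            (by gcongr; exact ContinuousLinearMap.le_opNorm _ _)
      _ ≤ 2 * r * (1 / 10 * (ρ / 2) * D.t a * (2 * r)) := by
          gcongr
          · have : 0 ≤ ρ := by linarith
            positivity
          · exact pw.T0_τ.trans (by gcongr; linarith)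
      _ = _ := by ring
  · calc _ ≤ ‖D.eh a‖ * ‖D.glx (D.x a)‖ := abs_real_inner_le_norm _ _
      _ ≤ 1 / 2 * (D.t a + ‖D.y a‖ ^ 2) * (2 * r) := by
          gcongr
          exact pw.eh_le.trans (by gcongr; linarith)
      _ = _ := by ring

theorem intR_key2 {D : CD d α H} {R δ M : ℝ} (h : CV D 0 R δ M) (hδ : δ ≤ 1 / 2) :
    Integrable (fun a => ⟪D.T0 a (D.am (D.x a) (D.x a)), D.am (D.x a) (D.x a)⟫ / D.mu (D.x a))
      D.m := by
  have ev : Measurable fun p : (E d →L[ℝ] E d) × E d => p.1 p.2 :=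
    isBoundedBilinearMap_apply.continuous.measurable
  have m1 : Measurable fun a => D.am (D.x a) (D.x a) :=
    ev.comp ((h.m_am.comp h.m_x).prodMk h.m_x)
  have m2 : Measurable fun a => D.T0 a (D.am (D.x a) (D.x a)) := ev.comp (h.m_T0.prodMk m1)
  refine h.integrable ((m2.inner m1).div ((meas_mu h.m_am).comp h.m_x)).aestronglyMeasurable
    (2 * d * 4 * 4 / (1 / 2)) fun a ha hx => ?_
  have pw := h.pw a ha
  have b1 : ‖D.am (D.x a) (D.x a)‖ ≤ 4 :=
    ((D.am _).le_opNorm _).trans ((mul_le_mul (h.met.psd hδ hx).2.2.1 pw.x_le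
      (norm_nonneg _) (by norm_num)).trans_eq (by norm_num))
  have b2 : 1 / 2 ≤ D.mu (D.x a) := by
    linarith [(abs_le.1 (h.met.mu h.δ_nonneg hx).2.1).1]
  have b3 : ‖D.T0 a‖ ≤ 2 * d := pw.T0_le.trans (by linarith [pw.t_le])
  rw [norm_div, Real.norm_of_nonneg (by linarith : 0 ≤ D.mu (D.x a))]
  gcongr
  refine (norm_inner_le_norm _ _).trans ?_
  gcongr
  exact ((D.T0 a).le_opNorm _).trans (by gcongr)

end Pool.Agent.Lib.MP_8daebb_an.GM
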