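import Pool.Agent.Lib.MP_8daebb_an.GM.SC1
import Pool.Agent.Lib.MP_8daebb_an.GM.Neck

/-! Monotonicity near finitely many points. -/

set_option linter.unusedSectionVars false
set_option linter.unusedVariables false

open MeasureTheory Metric Filter Topology Set
open scoped RealInnerProductSpace ENNReal ContDiff

namespace Pool.Agent.Lib.MP_8daebb_an.GM

open LG (vb chi om trS Sym)

variable {α : Type*} [MeasurableSpace α] {m : ℕ} {H : Type*} [NormedAddCommGroup H]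
  [InnerProductSpace ℝ H] [FiniteDimensional ℝ H] [MeasurableSpace H] [BorelSpace H]

theorem pow_le_mp {x : ℝ} (h0 : 0 ≤ x) (h1 : x ≤ 1) (n : ℕ) :
    (1 + x) ^ n ≤ 1 + (2 ^ n - 1) * x := by
  induction n with
  | zero => simp
  | succ n ih =>
    have h2 : (1 : ℝ) ≤ 2 ^ n := one_le_pow₀ (by norm_num)
    have h3 : (2 ^ n - 1) * x * x ≤ (2 ^ n - 1) * x :=
      mul_le_of_le_one_right (mul_nonneg (by linarith) h0) h1
    rw [pow_succ, pow_succ]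
    nlinarith [mul_le_mul_of_nonneg_right ih (by linarith : 0 ≤ 1 + x)]

/-- The abstract iteration over the scales. -/
theorem iter_mp {f : ℝ → ℝ → ℝ} {Ds : Finset ℝ} {θ ε ε₁ B σ₀ ς : ℝ} (hθ : 0 < θ) (hθ1 : θ ≤ 1)
    (hε : 0 < ε) (hεε : ε ≤ ε₁) (hε₁ : ε₁ ≤ 1 / 4) (hpow : (1 + ε) ^ (m + 1) ≤ 1 + 4 * ε₁)
    (hB : 0 ≤ B) (hσ₀ : 0 < σ₀) (h0 : ∀ r η, 0 ≤ f r η)
    (hm : ∀ r η η', η ≤ η' → f r η ≤ f r η') (hb : ∀ r η, 0 < r → η ≤ r → f r η ≤ B * r ^ m)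
    (hl : ∀ r₁ r₂, σ₀ ≤ r₁ → r₁ ≤ r₂ → r₂ ≤ ς → (∀ d ∈ Ds, d < θ * r₁ ∨ 4 * r₂ < d) →
      f r₁ (θ * r₁) / r₁ ^ m ≤ (1 + ε) * (f ((1 + ε) * r₂) ((1 + ε) * r₂) / r₂ ^ m))
    (hs : ∀ r₁ r₂ η, σ₀ ≤ r₁ → r₁ ≤ r₂ → r₂ ≤ ς → r₂ ≤ 20 / θ * r₁ → θ * r₁ ≤ η → η ≤ r₁ →
      f r₁ η / r₁ ^ m ≤ f ((1 + ε) * r₂) ((1 + ε) * η) / r₂ ^ m + ε) (n : ℕ) :
    ∀ σ, σ₀ ≤ σ → σ ≤ ς → (Ds.filter fun d => θ * σ ≤ d).card ≤ n →
      f σ (θ * σ) / σ ^ m ≤
        f ((1 + ε) * ς) ((1 + ε) * ς) / ς ^ m + (n + 1) * (8 * ε₁ * (B + 1)) := by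
  have hε1 : ε ≤ 1 / 4 := hεε.trans hε₁
  have hε₀ : 0 < ε₁ := hε.trans_le hεε
  have hεB : 0 ≤ ε₁ * B := by positivity
  have hpow1 : (1 + ε) * (1 + ε) ^ m ≤ 1 + 4 * ε₁ := by rwa [← pow_succ']
  have hpow0 : 1 * (1 + ε) ^ m ≤ 1 + 4 * ε₁ :=
    (mul_le_mul_of_nonneg_right (by linarith) (by positivity)).trans hpow1
  have hsc : ∀ r η, 0 < r → η ≤ (1 + ε) * r → ∀ c, c * (1 + ε) ^ m ≤ 1 + 4 * ε₁ →
      c * (f ((1 + ε) * r) η / r ^ m) ≤ f ((1 + ε) * r) η / ((1 + ε) * r) ^ m + 4 * (ε₁ * B) := by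
    intro r η hr hη c hc
    have h1 : f ((1 + ε) * r) η / ((1 + ε) * r) ^ m ≤ B := by
      rw [div_le_iff₀ (by positivity)]
      exact hb _ _ (by positivity) hη
    have h2 : f ((1 + ε) * r) η / r ^ m =
        (1 + ε) ^ m * (f ((1 + ε) * r) η / ((1 + ε) * r) ^ m) := by
      rw [mul_pow]
      field_simp
    have h3 : 0 ≤ f ((1 + ε) * r) η / ((1 + ε) * r) ^ m := div_nonneg (h0 _ _) (by positivity)
    rw [h2]
    generalize f ((1 + ε) * r) η / ((1 + ε) * r) ^ m = X at *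
    nlinarith [mul_le_mul_of_nonneg_right hc h3, mul_le_mul_of_nonneg_left h1 hε₀.le]
  have hA : ∀ σ, σ₀ ≤ σ → σ ≤ ς → (∀ d ∈ Ds, d < θ * σ ∨ 4 * ς < d) →
      f σ (θ * σ) / σ ^ m ≤ f ((1 + ε) * ς) ((1 + ε) * ς) / ς ^ m + 8 * ε₁ * (B + 1) := by
    intro σ h1 h2 h3
    have hς : 0 < ς := by linarith
    have h4 := hl σ ς h1 h2 le_rfl h3
    have h5 : f ((1 + ε) * ς) ((1 + ε) * ς) / ς ^ m ≤ 2 * B := by
      rw [div_le_iff₀ (by positivity)]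
      refine (hb _ _ (by positivity) le_rfl).trans ?_
      have : (1 + ε) ^ m ≤ 2 := by linarith
      rw [mul_pow]
      nlinarith [mul_le_mul_of_nonneg_right this (by positivity : 0 ≤ B * ς ^ m)]
    nlinarith [mul_le_mul_of_nonneg_left h5 hε.le, mul_le_mul_of_nonneg_right hεε hB]
  induction n with
  | zero =>
    intro σ h1 h2 h3
    rw [Nat.le_zero, Finset.card_eq_zero, Finset.filter_eq_empty_iff] at h3
    simpa using hA σ h1 h2 fun d hd => Or.inl (not_le.1 (h3 hd))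
  | succ n ih =>
    intro σ h1 h2 h3
    have hσ : 0 < σ := by linarith
    have hn : (0 : ℝ) ≤ n * (8 * ε₁ * (B + 1)) := by positivity
    by_cases hd : ∀ d ∈ Ds, d < θ * σ ∨ 4 * ς < d
    · have := hA σ h1 h2 hd
      have : 0 ≤ 8 * ε₁ * (B + 1) := by positivity
      push_cast; linarith
    push Not at hd
    obtain ⟨d₁, g1, g2, g3⟩ := hd
    obtain ⟨d, g4, g5⟩ := (Ds.filter fun d => θ * σ ≤ d).exists_min_image id
      ⟨d₁, Finset.mem_filter.2 ⟨g1, g2⟩⟩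
    have g6 : d ≤ 4 * ς := (g5 d₁ (Finset.mem_filter.2 ⟨g1, g2⟩)).trans g3
    have g7 : θ * σ ≤ d := (Finset.mem_filter.1 g4).2
    obtain ⟨r, η, e1, e2, e3, e4, e5, e6⟩ : ∃ r η, σ ≤ r ∧ r ≤ ς ∧ d ≤ 5 * r ∧ θ * r ≤ η ∧ η ≤ r ∧
        f σ (θ * σ) / σ ^ m ≤ f r η / r ^ m + 4 * (ε₁ * B) := by
      rcases le_total (d / 5) σ with g | g
      · exact ⟨σ, θ * σ, le_rfl, h2, by linarith, le_rfl, mul_le_of_le_one_left hσ.le hθ1,
          by linarith⟩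
      · have hd : 0 < d / 5 := by linarith
        refine ⟨(1 + ε) * (d / 5), (1 + ε) * (d / 5), by nlinarith, by nlinarith, by nlinarith,
          mul_le_of_le_one_left (by positivity) hθ1, le_rfl, ?_⟩
        refine (hl σ (d / 5) h1 g (by linarith) fun d' hd' => ?_).trans
          (hsc _ _ hd le_rfl _ hpow1)
        rcases lt_or_ge d' (θ * σ) with g' | g'
        · exact Or.inl g'
        · have : d ≤ d' := g5 d' (Finset.mem_filter.2 ⟨hd', g'⟩)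
          exact Or.inr (by linarith)
    have hr : 0 < r := by linarith
    have hθr : 10 * r ≤ 10 / θ * r := by
      refine mul_le_mul_of_nonneg_right ?_ hr.le
      rw [le_div_iff₀ hθ]
      linarith
    have h20 : 20 / θ * r = 2 * (10 / θ * r) := by ring
    rcases le_or_gt ((1 + ε) * (10 / θ * r)) ς with g | g
    · have k0 : θ * ((1 + ε) * (10 / θ * r)) = 10 * ((1 + ε) * r) := by field_simp
      have k1 := hs r (10 / θ * r) η (by linarith) (by linarith) (by nlinarith) (by linarith) e4 e5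
      have k2 := hsc (10 / θ * r) ((1 + ε) * η) (by linarith)
        (mul_le_mul_of_nonneg_left (by linarith) (by linarith)) 1 hpow0
      have k3 : f ((1 + ε) * (10 / θ * r)) ((1 + ε) * η) / ((1 + ε) * (10 / θ * r)) ^ m ≤
          f ((1 + ε) * (10 / θ * r)) (θ * ((1 + ε) * (10 / θ * r))) /
            ((1 + ε) * (10 / θ * r)) ^ m :=
        div_le_div_of_nonneg_right (hm _ _ _ (by rw [k0]; nlinarith)) (by positivity)
      have k4 := ih ((1 + ε) * (10 / θ * r)) (by nlinarith) g (by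
        refine Nat.le_of_lt_succ (lt_of_lt_of_le (Finset.card_lt_card ⟨fun x hx => ?_,
          fun hx => ?_⟩) h3)
        · rw [Finset.mem_filter] at hx ⊢
          refine ⟨hx.1, le_trans (mul_le_mul_of_nonneg_left ?_ hθ.le) hx.2⟩
          nlinarith
        · have := (Finset.mem_filter.1 (hx g4)).2
          rw [k0] at this
          nlinarith)
      push_cast; linarith
    · have k1 := hs r ς η (by linarith) e2 le_rfl (by nlinarith) e4 e5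
      have k2 : f ((1 + ε) * ς) ((1 + ε) * η) / ς ^ m ≤ f ((1 + ε) * ς) ((1 + ε) * ς) / ς ^ m :=
        div_le_div_of_nonneg_right (hm _ _ _ (mul_le_mul_of_nonneg_left (by linarith)
          (by linarith))) (pow_nonneg (hr.le.trans e2) m)
      push_cast; linarith

/-- A separated system of representatives. -/
theorem reps_mp {β : Type*} (near far : β → β → Prop) (hr : ∀ a, near a a)
    (hs : ∀ a b, far a b → far b a) (S : Finset β) (h : ∀ a ∈ S, ∀ b ∈ S, near a b ∨ far a b) :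
    ∃ S₀ : Finset β, S₀ ⊆ S ∧ (∀ a ∈ S, ∃ b ∈ S₀, near a b) ∧
      ∀ a ∈ S₀, ∀ b ∈ S₀, a ≠ b → far a b := by
  classical
  induction S using Finset.induction_on with
  | empty => exact ⟨∅, subset_rfl, by simp, by simp⟩
  | insert a S _ ih =>
    obtain ⟨S₀, h1, h2, h3⟩ := ih fun x hx y hy =>
      h x (Finset.mem_insert_of_mem hx) y (Finset.mem_insert_of_mem hy)
    by_cases g : ∃ b ∈ S₀, near a b
    · refine ⟨S₀, h1.trans (Finset.subset_insert _ _), fun x hx => ?_, h3⟩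
      rcases Finset.mem_insert.1 hx with rfl | hx
      · exact g
      · exact h2 x hx
    · have g' : ∀ b ∈ S₀, far a b := fun b hb =>
        (h a (Finset.mem_insert_self _ _) b (Finset.mem_insert_of_mem (h1 hb))).resolve_left
          fun hn => g ⟨b, hb, hn⟩
      refine ⟨insert a S₀, Finset.insert_subset_insert _ h1, fun x hx => ?_, fun x hx y hy hxy => ?_⟩
      · rcases Finset.mem_insert.1 hx with rfl | hx
        · exact ⟨x, Finset.mem_insert_self _ _, hr x⟩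
        · obtain ⟨b, hb, hn⟩ := h2 x hx
          exact ⟨b, Finset.mem_insert_of_mem hb, hn⟩
      · rcases Finset.mem_insert.1 hx with e | e <;> rcases Finset.mem_insert.1 hy with e' | e'
        · exact absurd (e.trans e'.symm) hxy
        · exact e ▸ g' y e'
        · exact hs _ _ (e' ▸ g' x e)
        · exact h3 x e y e' hxy

/-- The part of a cylinder near the heights of `S`. -/
def CD.nearMp (D : CD m α H) (S : Finset α) (u : E m) (r η : ℝ) : Set α :=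
  {a | a ∈ D.cyl u r ∧ ∃ s ∈ S, ‖D.y a - D.y s‖ < η}

theorem CV.real_mono_mp {D : CD m α H} {c : E m} {R δ M : ℝ} (h : CV D c R δ M) {A B : Set α}
    (hAB : ∀ a ∈ D.G, a ∈ A → a ∈ B) : D.m.real A ≤ D.m.real B := by
  have := h.fin
  exact ENNReal.toReal_mono (measure_ne_top _ _)
    (measure_mono_ae (h.ae_G.mono fun a ha => hAB a ha))

theorem CV.near_mono_mp {D : CD m α H} {c : E m} {R δ M : ℝ} (h : CV D c R δ M) (S : Finset α)
    (u : E m) {r r' η η' : ℝ} (hr : r ≤ r') (hη : η ≤ η') :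
    D.m.real (D.nearMp S u r η) ≤ D.m.real (D.nearMp S u r' η') :=
  h.real_mono_mp fun _ _ ⟨h1, s, hs, h2⟩ => ⟨lt_of_lt_of_le h1 hr, s, hs, h2.trans_le hη⟩

theorem CV.near_le_mp {D : CD m α H} {c : E m} {R δ M : ℝ} (h : CV D c R δ M) {S : Finset α} {k : ℕ}
    (hk : S.card ≤ k) (u : E m) {r η : ℝ} (hr : 0 < r) (hη : η ≤ r) :
    D.m.real (D.nearMp S u r η) ≤ k * M * r ^ m := by
  have hM := h.M_nonneg
  calc _ ≤ D.m.real (⋃ s ∈ S, D.box u (D.y s) r r) :=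
        h.real_mono_mp fun a _ g => by
          obtain ⟨h1, s, hs, h2⟩ := g
          exact mem_iUnion₂.2 ⟨s, hs, h1, h2.trans_le hη⟩
    _ ≤ ∑ s ∈ S, D.m.real (D.box u (D.y s) r r) := measureReal_biUnion_finset_le _ _
    _ ≤ ∑ _s ∈ S, M * r ^ m := Finset.sum_le_sum fun s _ => h.ub u _ r hr
    _ ≤ _ := by
        rw [Finset.sum_const, nsmul_eq_mul, mul_assoc]
        exact mul_le_mul_of_nonneg_right (by exact_mod_cast hk) (by positivity)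

/-- A long range of scales without interaction of the clusters. -/
theorem CV.long_mp {D : CD m α H} {c : E m} {R δ M : ℝ} (h : CV D c R δ M) {θ : ℝ} (hθ : 0 < θ)
    (hθ1 : θ ≤ 1 / 40) (hδ : δ ≤ θ) {S : Finset α} {u : E m} {r₁ r₂ : ℝ} (hr₁ : 0 < r₁)
    (hr : r₁ ≤ r₂) (hS : ∀ a ∈ S, a ∈ D.G ∧ ‖D.x a - u‖ ≤ θ * r₁) (hR : ‖u - c‖ + 4 * r₂ ≤ R)
    (hd : ∀ a ∈ S, ∀ b ∈ S, ‖D.y a - D.y b‖ < θ * r₁ ∨ 4 * r₂ < ‖D.y a - D.y b‖) :
    D.m.real (D.nearMp S u r₁ (θ * r₁)) / r₁ ^ m ≤ (1 + 10 * θ) *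
      (D.m.real (D.nearMp S u ((1 + 10 * θ) * r₂) ((1 + 10 * θ) * r₂)) / r₂ ^ m) := by
  have := h.fin
  have hδ0 := h.δ_nonneg
  have hr₂ : 0 < r₂ := hr₁.trans_le hr
  have hθr : θ * r₁ ≤ θ * r₂ := mul_le_mul_of_nonneg_left hr hθ.le
  obtain ⟨S₀, h1, h2, h3⟩ := reps_mp (fun a b => ‖D.y a - D.y b‖ < θ * r₁)
    (fun a b => 4 * r₂ < ‖D.y a - D.y b‖) (fun a => by simpa using mul_pos hθ hr₁)
    (fun a b g => by rwa [norm_sub_rev]) S hd
  have k1 : D.m.real (D.nearMp S u r₁ (θ * r₁)) ≤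
      ∑ s ∈ S₀, D.m.real (D.pb (D.pos s) ((1 + 5 * θ) * r₁)) := by
    refine (h.real_mono_mp (B := ⋃ s ∈ S₀, D.pb (D.pos s) ((1 + 5 * θ) * r₁))
      fun a ha g => ?_).trans (measureReal_biUnion_finset_le _ _)
    obtain ⟨g1, s, hs, g2⟩ := g
    obtain ⟨b, hb, g3⟩ := h2 s hs
    refine mem_iUnion₂.2 ⟨b, hb, ?_⟩
    have g4 := (h.pb_box (hS b (h1 hb)).1 ha).2
    have g5 : ‖D.x a - D.x b‖ ≤ (1 + θ) * r₁ := by
      have := norm_sub_le_norm_sub_add_norm_sub (D.x a) u (D.x b)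
      have g6 : ‖D.x a - u‖ < r₁ := g1
      have g7 := (hS b (h1 hb)).2
      rw [norm_sub_rev] at g7
      linarith
    have g6 : ‖D.y a - D.y b‖ ≤ 2 * θ * r₁ := by
      linarith [norm_sub_le_norm_sub_add_norm_sub (D.y a) (D.y s) (D.y b)]
    refine lt_of_pow_lt_pow_left₀ 2 (by positivity) (g4.trans_lt ?_)
    calc _ ≤ (1 + θ) * ((1 + θ) * r₁) ^ 2 + (2 * θ * r₁) ^ 2 := by gcongr
      _ = ((1 + θ) ^ 3 + 4 * θ ^ 2) * r₁ ^ 2 := by ring
      _ < (1 + 5 * θ) ^ 2 * r₁ ^ 2 := by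
          refine mul_lt_mul_of_pos_right ?_ (by positivity)
          nlinarith [mul_pos hθ hθ, mul_pos (mul_pos hθ hθ) hθ]
      _ = _ := by ring
  have k2 : ∀ s ∈ S₀, D.m.real (D.pb (D.pos s) ((1 + 5 * θ) * r₁)) / r₁ ^ m ≤ (1 + 10 * θ) *
      (D.m.real (D.box u (D.y s) ((1 + 10 * θ) * r₂) ((1 + 10 * θ) * r₂)) / r₂ ^ m) := by
    intro s hs
    obtain ⟨g1, g2⟩ := hS s (h1 hs)
    have g3 := h.mono_ball (by linarith) g1 (σ := (1 + 5 * θ) * r₁) (ς := (1 + 5 * θ) * r₂)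
      (by positivity) (by gcongr) (by
        have := norm_sub_le_norm_sub_add_norm_sub (D.x s) u c
        nlinarith)
    have g4 : D.m.real (D.pb (D.pos s) ((1 + 5 * θ) * r₂)) ≤
        D.m.real (D.box u (D.y s) ((1 + 10 * θ) * r₂) ((1 + 10 * θ) * r₂)) := by
      refine h.real_mono_mp fun a ha g => ?_
      have g5 := (h.pb_box g1 ha).1
      have g6 : ‖D.pos a - D.pos s‖ ^ 2 < ((1 + 5 * θ) * r₂) ^ 2 :=
        pow_lt_pow_left₀ g (norm_nonneg _) two_ne_zero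
      have g7 : 0 ≤ (1 - δ) * ‖D.x a - D.x s‖ ^ 2 := mul_nonneg (by linarith) (sq_nonneg _)
      have g8 : ‖D.y a - D.y s‖ < (1 + 5 * θ) * r₂ :=
        lt_of_pow_lt_pow_left₀ 2 (by positivity) (by linarith)
      have g9 : ‖D.x a - D.x s‖ < (1 + 9 * θ) * r₂ := by
        refine lt_of_pow_lt_pow_left₀ 2 (by positivity)
          (lt_of_mul_lt_mul_left (a := 1 - θ) ?_ (by linarith))
        calc _ ≤ (1 - δ) * ‖D.x a - D.x s‖ ^ 2 := by gcongr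
          _ < ((1 + 5 * θ) * r₂) ^ 2 := by linarith [sq_nonneg ‖D.y a - D.y s‖]
          _ = (1 + 5 * θ) ^ 2 * r₂ ^ 2 := by ring
          _ ≤ ((1 - θ) * (1 + 9 * θ) ^ 2) * r₂ ^ 2 := by
              refine mul_le_mul_of_nonneg_right ?_ (by positivity)
              nlinarith [mul_pos hθ hθ, mul_pos (mul_pos hθ hθ) hθ]
          _ = _ := by ring
      refine ⟨?_, g8.trans_le (by gcongr; norm_num)⟩
      linarith [norm_sub_le_norm_sub_add_norm_sub (D.x a) (D.x s) u]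
    have g5 : 0 ≤ D.m.real (D.pb (D.pos s) ((1 + 5 * θ) * r₁)) := measureReal_nonneg
    have g6 : 0 ≤ D.m.real (D.pb (D.pos s) ((1 + 5 * θ) * r₂)) := measureReal_nonneg
    generalize D.m.real (D.pb (D.pos s) ((1 + 5 * θ) * r₁)) = X at *
    generalize D.m.real (D.pb (D.pos s) ((1 + 5 * θ) * r₂)) = Y at *
    generalize D.m.real (D.box u (D.y s) ((1 + 10 * θ) * r₂) ((1 + 10 * θ) * r₂)) = Z at *
    have g7 : (1 - δ) * X * r₂ ^ m ≤ (1 + δ) * Y * r₁ ^ m := by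
      refine le_of_mul_le_mul_left (a := (1 + 5 * θ) ^ m) ?_ (by positivity)
      calc _ = (1 - δ) * X * ((1 + 5 * θ) * r₂) ^ m := by rw [mul_pow]; ring
        _ ≤ _ := g3
        _ = _ := by rw [mul_pow]; ring
    rw [← mul_div_assoc, div_le_div_iff₀ (by positivity) (by positivity)]
    refine le_of_mul_le_mul_left (a := 1 - δ) ?_ (by linarith)
    calc _ = (1 - δ) * X * r₂ ^ m := by ring
      _ ≤ (1 + δ) * Y * r₁ ^ m := g7
      _ ≤ ((1 - δ) * (1 + 10 * θ)) * Z * r₁ ^ m := by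
          gcongr
          · exact mul_nonneg (by linarith) (by positivity)
          · nlinarith
      _ = _ := by ring
  have k3 : ∑ s ∈ S₀, D.m.real (D.box u (D.y s) ((1 + 10 * θ) * r₂) ((1 + 10 * θ) * r₂)) ≤
      D.m.real (D.nearMp S u ((1 + 10 * θ) * r₂) ((1 + 10 * θ) * r₂)) := by
    rw [← measureReal_biUnion_finset ?_ (fun s _ => h.meas_box _ _ _ _)]
    · refine h.real_mono_mp fun a _ ha => ?_
      obtain ⟨s, hs, g⟩ := mem_iUnion₂.1 ha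
      exact ⟨g.1, s, h1 hs, g.2⟩
    · intro a ha b hb hab
      refine Set.disjoint_left.2 fun z g1 g2 => ?_
      have g3 := h3 a ha b hb hab
      have g4 := norm_sub_le_norm_sub_add_norm_sub (D.y a) (D.y z) (D.y b)
      have g5 := g1.2
      have g6 := g2.2
      rw [norm_sub_rev] at g5
      nlinarith
  calc _ ≤ (∑ s ∈ S₀, D.m.real (D.pb (D.pos s) ((1 + 5 * θ) * r₁))) / r₁ ^ m := by gcongr
    _ ≤ ∑ s ∈ S₀, (1 + 10 * θ) *
        (D.m.real (D.box u (D.y s) ((1 + 10 * θ) * r₂) ((1 + 10 * θ) * r₂)) / r₂ ^ m) := by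
        rw [Finset.sum_div]
        exact Finset.sum_le_sum k2
    _ ≤ _ := by
        rw [← Finset.mul_sum, ← Finset.sum_div]
        gcongr

/-- A bounded range of scales. -/
theorem short_mp (m k : ℕ) (hm : 1 ≤ m) {ε θ L : ℝ} (hε : 0 < ε) (hε1 : ε ≤ 1) (hθ : 0 < θ)
    (hL : 1 ≤ L) (M : ℝ) :
    ∃ lam : ℝ, 0 < lam ∧ ∃ δ₀ : ℝ, 0 < δ₀ ∧
    ∀ (D : CD m α H) (c : E m) (R δ : ℝ), CV D c R δ M → δ ≤ δ₀ → ∀ (S : Finset α) (u : E m)
    (r₁ r₂ η : ℝ), S.card ≤ k → 0 < r₁ → r₁ ≤ r₂ → r₂ ≤ L * r₁ → θ * r₁ ≤ η → η ≤ r₁ →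
    ‖u - c‖ + 2 * r₂ ≤ R → D.T u (2 * r₂) ≤ lam * (2 * r₂) ^ m →
    D.m.real (D.nearMp S u r₁ η) / r₁ ^ m ≤
      D.m.real (D.nearMp S u ((1 + ε) * r₂) ((1 + ε) * η)) / r₂ ^ m + ε := by
  classical
  obtain ⟨C₀, hC₀, hcut⟩ := SV.exists_hcut (H := H)
  obtain ⟨C, hC, hsc⟩ := sc_fixed (α := α) (H := H) m hm hε hε1
  obtain ⟨A, hA⟩ : ∃ A : ℝ, A = 2 ^ m * (k * |M|) := ⟨_, rfl⟩
  have hA0 : 0 ≤ A := by rw [hA]; positivity
  obtain ⟨P, hP⟩ : ∃ P : ℝ, P = (2 * L) ^ m := ⟨_, rfl⟩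
  have hP1 : 1 ≤ P := by rw [hP]; exact one_le_pow₀ (by linarith)
  obtain ⟨K, hK⟩ : ∃ K : ℝ, K = P + C₀ * k / (ε * θ) * L * ((A + 1) * P) + 1 := ⟨_, rfl⟩
  have hK0 : 0 < K := by rw [hK]; positivity
  obtain ⟨w, hw0, hw1, hw⟩ : ∃ w : ℝ, 0 < w ∧ w ≤ 1 ∧ C * (w * K) ≤ ε :=
    ⟨min 1 (ε / (C * K)), by positivity, min_le_left _ _, by
      have := min_le_right 1 (ε / (C * K))
      rw [le_div_iff₀ (by positivity)] at this
      linarith⟩
  refine ⟨w ^ 2 / 2, by positivity, w ^ 2 / (8 * (A + 1)), by positivity,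
    fun D c R δ h hδ S u r₁ r₂ η hk hr₁ hr hrL hη hη' hR hT => ?_⟩
  have := h.fin
  have hδ0 := h.δ_nonneg
  have hAM : A = 2 ^ m * (k * M) := by rw [hA, abs_of_nonneg h.M_nonneg]
  have hw2 : w ^ 2 ≤ w := by nlinarith
  have hδA : δ * (A + 1) ≤ w ^ 2 / 8 := by
    rw [le_div_iff₀ (by positivity)] at hδ
    linarith
  have hδ1 : δ ≤ 1 := by nlinarith
  have hη0 : 0 < η := lt_of_lt_of_le (by positivity) hη
  have hr₂ : 0 < r₂ := hr₁.trans_le hr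
  have hr1 : r₂ ≤ 1 := by linarith [h.R_le, norm_nonneg (u - c)]
  obtain ⟨ψ, p1, p2, p3, p4, p5⟩ := hcut (S.image D.y) η ((1 + ε) * η) hη0 (by nlinarith)
    (by nlinarith)
  set Y : Set H := {y | ∃ s ∈ S, ‖y - D.y s‖ < (1 + ε) * η} with hY
  have hYm : MeasurableSet Y := by
    have : Y = ⋃ s ∈ S, ball (D.y s) ((1 + ε) * η) := by
      ext y; simp [hY, dist_eq_norm]
    rw [this]
    exact (isOpen_biUnion fun _ _ => isOpen_ball).measurableSet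
  have hY0 : ∀ y ∉ Y, ψ y = 0 ∧ fderiv ℝ ψ y = 0 := fun y hy => p5 y fun s hs => by
    obtain ⟨a, ha, rfl⟩ := Finset.mem_image.1 hs
    exact not_lt.1 fun g => hy ⟨a, ha, g⟩
  have hmass : ∀ r, r₁ ≤ r → D.m.real (D.cyl u r ∩ D.y ⁻¹' Y) ≤ A * r ^ m := fun r g => by
    have g1 := h.near_mono_mp S u (r := r) (r' := 2 * r) (η := (1 + ε) * η) (η' := 2 * r)
      (by linarith) (by nlinarith)
    have g2 := h.near_le_mp hk u (r := 2 * r) (η := 2 * r) (by linarith) le_rfl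
    calc _ ≤ _ := g1
      _ ≤ _ := g2
      _ = _ := by rw [hAM, mul_pow]; ring
  have hψi : Integrable (fun a => ψ (D.y a)) D.m :=
    h.integrable (p1.continuous.measurable.comp h.m_y).aestronglyMeasurable 1
      fun a _ _ => by rw [Real.norm_of_nonneg (p2 _).1]; exact (p2 _).2
  have hE : ∫ a in D.cyl u (2 * r₂) ∩ D.y ⁻¹' Y, (D.t a + δ * ‖D.y a‖ ^ 2) ∂D.m ≤
      w ^ 2 * P * r₁ ^ m := by
    obtain ⟨i1, -, i2, -⟩ := h.integrable_t
    rw [integral_add i1.integrableOn (i2.const_mul δ).integrableOn]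
    have g1 : ∫ a in D.cyl u (2 * r₂) ∩ D.y ⁻¹' Y, D.t a ∂D.m ≤ D.T u (2 * r₂) :=
      setIntegral_mono_set i1.integrableOn
        (ae_restrict_of_ae (h.ae_G.mono fun a ha => (h.pw a ha).t_nonneg))
        inter_subset_left.eventuallyLE
    have g2 : ∫ a in D.cyl u (2 * r₂) ∩ D.y ⁻¹' Y, δ * ‖D.y a‖ ^ 2 ∂D.m ≤
        ∫ _a in D.cyl u (2 * r₂) ∩ D.y ⁻¹' Y, δ * 4 ∂D.m := by
      refine integral_mono_ae (i2.const_mul δ).integrableOn (integrable_const _)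
        (ae_restrict_of_ae (h.ae_G.mono fun a ha => ?_))
      refine mul_le_mul_of_nonneg_left ?_ hδ0
      nlinarith [(h.pw a ha).y_two, norm_nonneg (D.y a)]
    rw [setIntegral_const, smul_eq_mul] at g2
    have g0 : 0 ≤ (2 * r₂) ^ m := by positivity
    have g3 := mul_le_mul_of_nonneg_right (hmass (2 * r₂) (by linarith)) hδ0
    have g4 : A * (2 * r₂) ^ m * δ ≤ w ^ 2 / 8 * (2 * r₂) ^ m := by
      nlinarith [mul_le_mul_of_nonneg_right hδA g0, mul_nonneg hδ0 g0]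
    calc _ ≤ w ^ 2 * (2 * r₂) ^ m := by linarith
      _ ≤ w ^ 2 * (2 * (L * r₁)) ^ m := by gcongr
      _ = _ := by rw [hP, ← mul_assoc 2 L, mul_pow _ r₁, mul_assoc]
  have hΛ : ∀ y, ‖fderiv ℝ ψ y‖ ≤ C₀ * k / (ε * θ * r₁) := fun y => by
    refine (p3 y).trans (div_le_div₀ (by positivity) ?_ (by positivity) (by nlinarith))
    gcongr
    exact Finset.card_image_le.trans hk
  have key := hsc D c R δ M h hδ1 u r₁ r₂ _ A _ ψ Y hr₁ hr hR p1 p2 hΛ hYm hY0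
    (fun r g _ => hmass r g) hE
  have e1 : D.m.real (D.nearMp S u r₁ η) ≤ ∫ a in D.cyl u r₁, ψ (D.y a) ∂D.m := by
    have g : MeasurableSet (D.nearMp S u r₁ η) := by
      have : D.nearMp S u r₁ η = ⋃ s ∈ S, D.box u (D.y s) r₁ η := by
        ext a; simp only [CD.nearMp, CD.cyl, CD.box, mem_ofPred_eq, mem_iUnion₂, exists_prop]
        exact ⟨fun ⟨g1, s, hs, g2⟩ => ⟨s, hs, g1, g2⟩, fun ⟨s, hs, g1, g2⟩ => ⟨g1, s, hs, g2⟩⟩
      rw [this]
      exact S.measurableSet_biUnion fun _ _ => h.meas_box _ _ _ _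
    calc _ = ∫ _a in D.nearMp S u r₁ η, (1 : ℝ) ∂D.m := by simp
      _ = ∫ a in D.nearMp S u r₁ η, ψ (D.y a) ∂D.m :=
          setIntegral_congr_fun g fun a ⟨_, s, hs, g2⟩ =>
            (p4 _ ⟨_, Finset.mem_image_of_mem _ hs, g2.le⟩).symm
      _ ≤ _ := setIntegral_mono_set hψi.integrableOn (Eventually.of_forall fun a => (p2 _).1)
          (Eventually.of_forall fun a ha => ha.1)
  have e2 : ∫ a in D.cyl u ((1 + ε) * r₂), ψ (D.y a) ∂D.m ≤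
      D.m.real (D.nearMp S u ((1 + ε) * r₂) ((1 + ε) * η)) := by
    calc _ = ∫ a in D.nearMp S u ((1 + ε) * r₂) ((1 + ε) * η), ψ (D.y a) ∂D.m :=
          setIntegral_eq_of_subset_of_forall_sdiff_eq_zero (h.meas_cyl _ _) (fun a ha => ha.1)
            fun a ha => (hY0 _ fun g => ha.2 ⟨ha.1, g⟩).1
      _ ≤ ∫ _a in D.nearMp S u ((1 + ε) * r₂) ((1 + ε) * η), (1 : ℝ) ∂D.m :=
          integral_mono hψi.integrableOn (integrable_const _) fun a => (p2 _).2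
      _ = _ := by simp
  have e3 : w ^ 2 * P * r₁ ^ m / r₁ ^ m + C₀ * k / (ε * θ * r₁) * r₂ *
      √(A * (w ^ 2 * P * r₁ ^ m) / r₁ ^ m) + δ * A * r₂ ≤ w * K := by
    have g0 : r₁ ^ m ≠ 0 := by positivity
    have g1 : w ^ 2 * P * r₁ ^ m / r₁ ^ m ≤ w * P := by
      rw [mul_div_cancel_right₀ _ g0]
      gcongr
    have g2 : √(A * (w ^ 2 * P * r₁ ^ m) / r₁ ^ m) ≤ w * ((A + 1) * P) := by
      refine Real.sqrt_le_iff.2 ⟨by positivity, ?_⟩
      rw [← mul_assoc, mul_div_cancel_right₀ _ g0]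
      calc _ = w ^ 2 * (A * P) := by ring
        _ ≤ w ^ 2 * ((A + 1) ^ 2 * P ^ 2) := by
          gcongr
          · nlinarith
          · nlinarith
        _ = _ := by ring
    have g5 : C₀ * k / (ε * θ * r₁) * r₂ * √(A * (w ^ 2 * P * r₁ ^ m) / r₁ ^ m) ≤
        w * (C₀ * k / (ε * θ) * L * ((A + 1) * P)) := by
      calc _ ≤ C₀ * k / (ε * θ * r₁) * (L * r₁) * (w * ((A + 1) * P)) := by gcongr
        _ = _ := by field_simp
    have g6 : δ * A * r₂ ≤ w := by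
      nlinarith [mul_le_of_le_one_right (mul_nonneg hδ0 hA0) hr1]
    rw [hK, mul_add, mul_add]
    linarith
  have e4 := mul_le_mul_of_nonneg_left e3 hC.le
  have e5 := div_le_div_of_nonneg_right e1 (pow_nonneg hr₁.le m)
  have e6 := div_le_div_of_nonneg_right e2 (pow_nonneg hr₂.le m)
  linarith

theorem multi_point (m k : ℕ) (hm : 1 ≤ m) {κ : ℝ} (hκ : 0 < κ) (hκ1 : κ ≤ 1 / 2) (M : ℝ) :
    ∃ ν : ℝ, 0 < ν ∧ ν ≤ 1 ∧ ∃ lam : ℝ, 0 < lam ∧ ∃ δ₀ : ℝ, 0 < δ₀ ∧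
    ∀ (D : CD m α H) (c : E m) (R δ : ℝ), CV D c R δ M → δ ≤ δ₀ →
    ∀ (S : Finset α) (u : E m) (σ ς : ℝ),
    (∀ a ∈ S, a ∈ D.G ∧ ‖D.x a - u‖ ≤ ν * σ) → S.card ≤ k → 0 < σ → σ ≤ ς →
    ‖u - c‖ + 4 * ς ≤ R → (∀ r, σ ≤ r → r ≤ 4 * ς → D.T u r ≤ lam * r ^ m) →
    D.m.real {a | a ∈ D.cyl u σ ∧ ∃ s ∈ S, ‖D.y a - D.y s‖ < ν * σ} / σ ^ m ≤
      (1 + κ) * D.m.real {a | a ∈ D.cyl u ((1 + κ) * ς) ∧
        ∃ s ∈ S, ‖D.y a - D.y s‖ < (1 + κ) * ς} / ς ^ m + κ := by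
  classical
  obtain ⟨ε₁, hε₀, hεκ, hθE⟩ : ∃ ε₁ : ℝ, 0 < ε₁ ∧ ε₁ ≤ κ / 8 ∧
      ((k * k : ℕ) + 1) * (8 * ε₁ * (k * |M| + 1)) ≤ κ := by
    have h1 : (1 : ℝ) ≤ ((k * k : ℕ) + 1) * (k * |M| + 1) :=
      one_le_mul_of_one_le_of_one_le (le_add_of_nonneg_left (by positivity))
        (le_add_of_nonneg_left (by positivity))
    have h2 : κ / (8 * (((k * k : ℕ) + 1) * (k * |M| + 1))) ≤ κ / 8 :=
      div_le_div_of_nonneg_left hκ.le (by norm_num) (by linarith)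
    refine ⟨κ / (8 * (((k * k : ℕ) + 1) * (k * |M| + 1))), by positivity, h2, le_of_eq ?_⟩
    field_simp
  obtain ⟨θ, hθ, hθε, hpow⟩ : ∃ θ : ℝ, 0 < θ ∧ 10 * θ ≤ ε₁ ∧
      (1 + 10 * θ) ^ (m + 1) ≤ 1 + 4 * ε₁ := by
    have h1 : (1 : ℝ) ≤ 2 ^ (m + 1) := one_le_pow₀ (by norm_num)
    have h2 : 10 * (ε₁ / (10 * 2 ^ (m + 1))) = ε₁ / 2 ^ (m + 1) := by field_simp
    have h3 : ε₁ / 2 ^ (m + 1) ≤ ε₁ := div_le_self hε₀.le h1
    refine ⟨ε₁ / (10 * 2 ^ (m + 1)), by positivity, by rwa [h2], ?_⟩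
    rw [h2]
    refine (pow_le_mp (by positivity) (by linarith) (m + 1)).trans ?_
    have h4 : (2 ^ (m + 1) - 1) * (ε₁ / 2 ^ (m + 1)) ≤ 2 ^ (m + 1) * (ε₁ / 2 ^ (m + 1)) :=
      mul_le_mul_of_nonneg_right (by linarith) (by positivity)
    rw [mul_div_cancel₀ _ (by positivity)] at h4
    linarith
  have hθ1 : θ ≤ 1 / 40 := by linarith
  have hθκ : 10 * θ ≤ κ := by linarith
  obtain ⟨lam, hlam, δ₀, hδ₀, hs⟩ := short_mp (α := α) (H := H) m k hm (ε := 10 * θ) (θ := θ)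
    (L := 20 / θ) (by positivity) (by linarith) hθ (by rw [le_div_iff₀ hθ]; linarith) M
  refine ⟨θ, hθ, by linarith, lam, hlam, min θ δ₀, lt_min hθ hδ₀,
    fun D c R δ h hδ S u σ ς hS hk hσ hσς hR hT => ?_⟩
  have hς : 0 < ς := hσ.trans_le hσς
  rw [abs_of_nonneg h.M_nonneg] at hθE
  have key := iter_mp (f := fun r η => D.m.real (D.nearMp S u r η))
    (Ds := (S ×ˢ S).image fun p => ‖D.y p.1 - D.y p.2‖) (θ := θ) (ε := 10 * θ) (B := k * M)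
    (σ₀ := σ) (ς := ς) hθ (by linarith) (by positivity) hθε (by linarith) hpow
    (mul_nonneg k.cast_nonneg h.M_nonneg) hσ (fun _ _ => measureReal_nonneg)
    (fun r η η' g => h.near_mono_mp S u le_rfl g) (fun r η g1 g2 => h.near_le_mp hk u g1 g2)
    (fun r₁ r₂ g1 g2 g3 g4 => h.long_mp hθ hθ1 (hδ.trans (min_le_left _ _)) (by linarith) g2
      (fun a ha => ⟨(hS a ha).1, (hS a ha).2.trans (by gcongr)⟩) (by linarith)
      fun a ha b hb => g4 _ (Finset.mem_image.2 ⟨(a, b), Finset.mem_product.2 ⟨ha, hb⟩, rfl⟩))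
    (fun r₁ r₂ η g1 g2 g3 g4 g5 g6 => hs D c R δ h (hδ.trans (min_le_right _ _)) S u r₁ r₂ η hk
      (by linarith) g2 g4 g5 g6 (by linarith) (hT _ (by linarith) (by linarith)))
    (k * k) σ le_rfl hσς ((Finset.card_filter_le _ _).trans (Finset.card_image_le.trans (by
      rw [Finset.card_product]
      exact Nat.mul_le_mul hk hk)))
  have h1 := h.near_mono_mp S u (r := (1 + 10 * θ) * ς) (r' := (1 + κ) * ς)
    (η := (1 + 10 * θ) * ς) (η' := (1 + κ) * ς) (by gcongr) (by gcongr)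
  have h2 : D.m.real (D.nearMp S u ((1 + 10 * θ) * ς) ((1 + 10 * θ) * ς)) / ς ^ m ≤
      (1 + κ) * D.m.real (D.nearMp S u ((1 + κ) * ς) ((1 + κ) * ς)) / ς ^ m :=
    div_le_div_of_nonneg_right
      (h1.trans (le_mul_of_one_le_left measureReal_nonneg (by linarith))) (pow_nonneg hς.le m)
  exact key.trans (add_le_add h2 hθE)

end Pool.Agent.Lib.MP_8daebb_an.GM
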