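import Pool.Agent.Lib.MP_8daebb_an.GM.Base1
import Pool.Agent.Lib.MP_8daebb_an.Mono
import Pool.Agent.Lib.MP_8daebb_an.Trace

/-! Monotonicity in ambient balls. -/

set_option linter.unusedSectionVars false
set_option linter.unusedVariables false

open MeasureTheory Metric Filter Topology Set
open scoped RealInnerProductSpace ENNReal ContDiff

namespace Pool.Agent.Lib.MP_8daebb_an.GM

open LG (vb chi om trS Sym)

variable {α : Type*} [MeasurableSpace α] {m : ℕ} {H : Type*} [NormedAddCommGroup H]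
  [InnerProductSpace ℝ H] [FiniteDimensional ℝ H] [MeasurableSpace H] [BorelSpace H]

/-- Comparison of ambient balls with boxes. -/
theorem CV.pb_box {D : CD m α H} {c : E m} {R δ M : ℝ} (h : CV D c R δ M) {a a' : α}
    (ha : a ∈ D.G) (ha' : a' ∈ D.G) :
    (1 - δ) * ‖D.x a' - D.x a‖ ^ 2 + ‖D.y a' - D.y a‖ ^ 2 ≤ ‖D.pos a' - D.pos a‖ ^ 2 ∧
      ‖D.pos a' - D.pos a‖ ^ 2 ≤ (1 + δ) * ‖D.x a' - D.x a‖ ^ 2 + ‖D.y a' - D.y a‖ ^ 2 := by
  have := abs_le.1 (h.geo a' ha' a ha)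
  constructor <;> linarith [this.1, this.2]

omit [MeasurableSpace H] [BorelSpace H] in
lemma isClosed_plane_mon (k : ℕ) : IsClosed {P : H →L[ℝ] H | IsPlane k P} := by
  let T : (H →L[ℝ] H) →ₗ[ℝ] ℝ := (LinearMap.trace ℝ H).comp (ContinuousLinearMap.coeLM ℝ)
  have hT : Continuous T := T.continuous_of_finiteDimensional
  have e : {P : H →L[ℝ] H | IsPlane k P} = (⋂ x, ⋂ y, {P : H →L[ℝ] H | ⟪P x, y⟫ = ⟪x, P y⟫}) ∩
      ((⋂ x, {P : H →L[ℝ] H | P (P x) = P x}) ∩ {P | T P = k}) := by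
    ext P
    simp only [IsPlane, mem_ofPred_eq, mem_inter_iff, mem_iInter]
    refine and_congr_right fun _ => and_congr_right fun h => ?_
    have h1 : IsIdempotentElem (P : H →ₗ[ℝ] H) := LinearMap.ext h
    have h2 : T P = _ := (LinearMap.IsIdempotentElem.isProj_range _ h1).trace
    rw [h2, Nat.cast_inj]
  rw [e]
  refine (isClosed_iInter fun x => isClosed_iInter fun y => isClosed_eq ?_ ?_).inter
    ((isClosed_iInter fun x => isClosed_eq ?_ ?_).inter (isClosed_eq hT continuous_const)) <;>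
    fun_prop

lemma ball_mono_mon {U : Set H} {V : Measure (H × (H →L[ℝ] H))}
    (hV : IsStationaryVarifold m U V) {x : H} {R σ ς : ℝ} (hU : ball x R ⊆ U) (hσ : 0 < σ)
    (hς : σ ≤ ς) (hR : ς < R) :
    (V.fst (ball x σ)).toReal / σ ^ m ≤ (V.fst (ball x ς)).toReal / ς ^ m := by
  have h1 : closedBall x ς ⊆ U := (closedBall_subset_ball hR).trans hU
  have h2 : closedBall x σ ⊆ U := (closedBall_subset_closedBall hς).trans h1
  have hς0 := hσ.trans_le hς
  let κ : ℕ → ℝ := fun n => 1 - 1 / 2 * (1 / ((n : ℝ) + 1))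
  have hκ : ∀ n, 0 < κ n ∧ κ n < 1 := fun n => by
    have g1 : 0 < 1 / ((n : ℝ) + 1) := by positivity
    have g2 : 1 / ((n : ℝ) + 1) ≤ 1 := by
      rw [div_le_one (by positivity)]; linarith [n.cast_nonneg (α := ℝ)]
    constructor <;> simp only [κ] <;> linarith
  have hm : Monotone fun n => ball x (κ n * σ) := fun n n' hn => ball_subset_ball (by
    simp only [κ]; gcongr)
  have ht : Tendsto (fun n => κ n * σ) atTop (𝓝 σ) := by
    have := ((tendsto_one_div_add_atTop_nhds_zero_nat.const_mul (1 / 2)).const_sub 1).mul_const σ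
    rwa [mul_zero, sub_zero, one_mul] at this
  have hu : ⋃ n, ball x (κ n * σ) = ball x σ := by
    refine subset_antisymm (iUnion_subset fun n => ball_subset_ball ?_) fun y hy => ?_
    · nlinarith [(hκ n).2]
    · obtain ⟨n, hn⟩ := (ht.eventually (lt_mem_nhds (mem_ball.1 hy))).exists
      exact mem_iUnion.2 ⟨n, hn⟩
  have h3 := tendsto_measure_iUnion_atTop (μ := V.fst) hm
  rw [hu] at h3
  refine le_of_tendsto' (((ENNReal.tendsto_toReal (hV.ball_lt_top h2).ne).comp h3).div_const _)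
    fun n => ?_
  have hδ : 0 < 1 - κ n ^ 2 := by nlinarith [(hκ n).1, (hκ n).2]
  calc _ ≤ sm V x (1 - κ n ^ 2) σ / σ ^ m := by
        gcongr; exact hV.le_sm (hκ n).1 (hκ n).2 hσ h2
    _ ≤ sm V x (1 - κ n ^ 2) ς / ς ^ m := hV.sm_mono hδ hU ⟨hσ, hς.trans_lt hR⟩ ⟨hς0, hR⟩ hς
    _ ≤ _ := by gcongr; exact hV.sm_le hδ hς0 h1

/-- The weighted ambient varifold near a point. -/
lemma CV.exists_var_mon {D : CD m α H} {c : E m} {R δ M : ℝ} (h : CV D c R δ M) (hδ : δ ≤ 1 / 10)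
    {a : α} (ha : a ∈ D.G) {ς : ℝ} (hς : 0 < ς) (hR : ‖D.x a - c‖ + 2 * ς ≤ R) :
    ∃ V : Measure (H × (H →L[ℝ] H)), IsStationaryVarifold m (ball (D.pos a) (11 / 10 * ς)) V ∧
      ∀ r ≤ 11 / 10 * ς,
        (1 - δ) * D.m.real (D.pb (D.pos a) r) ≤ (V.fst (ball (D.pos a) r)).toReal ∧
        (V.fst (ball (D.pos a) r)).toReal ≤ (1 + δ) * D.m.real (D.pb (D.pos a) r) := by
  have := h.fin
  have hδ0 := h.δ_nonneg
  set p := D.pos a
  let f : α → H × (H →L[ℝ] H) := fun b => (D.pos b, D.Pl b)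
  have hf : Measurable f := h.m_pos.prodMk h.m_Pl
  let g : α → ℝ≥0∞ := fun b => ENNReal.ofReal (D.w (D.x b))
  have hg : Measurable g := (h.m_w.comp h.m_x).ennreal_ofReal
  have hw : ∀ᵐ b ∂D.m, 1 - δ ≤ D.w (D.x b) ∧ D.w (D.x b) ≤ 1 + δ := by
    filter_upwards [h.car] with b hb
    have := abs_le.1 (h.met.one _ hb).1
    constructor <;> linarith [this.1, this.2]
  have hB := h.meas_pb p (11 / 10 * ς)
  let ν := (D.m.restrict (D.pb p (11 / 10 * ς))).withDensity g
  have hν : ∀ S : Set H, MeasurableSet S → (ν.map f).fst S =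
      ∫⁻ b in D.pos ⁻¹' S ∩ D.pb p (11 / 10 * ς), g b ∂D.m := by
    intro S hS
    rw [Measure.fst_apply hS, Measure.map_apply hf (measurable_fst hS)]
    exact (withDensity_apply _ (h.m_pos hS)).trans
      (by rw [Measure.restrict_restrict (h.m_pos hS)])
  have hup : ∀ Z : Set α, ∫⁻ b in Z, g b ∂D.m ≤ ENNReal.ofReal (1 + δ) * D.m Z := fun Z => by
    rw [← setLIntegral_const]
    refine lintegral_mono_ae ?_
    filter_upwards [ae_restrict_of_ae hw] with b hb
    exact ENNReal.ofReal_le_ofReal hb.2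
  have hlo : ∀ Z : Set α, ENNReal.ofReal (1 - δ) * D.m Z ≤ ∫⁻ b in Z, g b ∂D.m := fun Z => by
    rw [← setLIntegral_const]
    refine lintegral_mono_ae ?_
    filter_upwards [ae_restrict_of_ae hw] with b hb
    exact ENNReal.ofReal_le_ofReal hb.1
  refine ⟨ν.map f, ⟨?_, fun K hK _ => ?_, fun X hX _ hs => ?_⟩, fun r hr => ?_⟩
  · refine (ae_map_iff hf.aemeasurable ((measurable_fst measurableSet_ball).inter
      (measurable_snd (isClosed_plane_mon m).measurableSet))).2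
      ((withDensity_absolutelyContinuous _ _).ae_le ?_)
    filter_upwards [ae_restrict_of_ae h.ae_G, ae_restrict_mem hB] with b hb hb'
    exact ⟨mem_ball_iff_norm.2 hb', (h.pw b hb).plane⟩
  · rw [hν K hK.measurableSet]
    exact (hup _).trans_lt (by finiteness)
  · let ζ : ContDiffBump (D.x a) := ⟨6 / 5 * ς, 9 / 5 * ς, by positivity, by linarith⟩
    have hnear : ∀ b ∈ D.G, b ∈ D.pb p (11 / 10 * ς) → D.x b ∈ ball (D.x a) ζ.rIn := by
      intro b hb hb'
      have h1 := (h.pb_box ha hb).1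
      have h2 : ‖D.pos b - p‖ ^ 2 < (11 / 10 * ς) ^ 2 :=
        pow_lt_pow_left₀ hb' (norm_nonneg _) two_ne_zero
      refine mem_ball_iff_norm.2 (lt_of_pow_lt_pow_left₀ 2 (by positivity : 0 ≤ 6 / 5 * ς) ?_)
      change _ < (6 / 5 * ς) ^ 2
      have h3 := mul_le_mul_of_nonneg_right hδ (sq_nonneg ‖D.x b - D.x a‖)
      nlinarith [sq_nonneg ‖D.y b - D.y a‖, sq_nonneg ς]
    have hT : Test c R (fun u : E m × H => ζ u.1) := by
      refine ⟨(ζ.contDiff.comp contDiff_fst).contDiffOn, ‖D.x a - c‖ + 9 / 5 * ς, by linarith,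
        fun u hu => ζ.zero_of_le_dist ?_⟩
      have := norm_sub_le_norm_sub_add_norm_sub u.1 (D.x a) c
      rw [dist_eq_norm]
      change 9 / 5 * ς ≤ _
      linarith
    have h0 := h.amb _ hT X hX (by
      filter_upwards [h.ae_G] with b hb hne
      have h1 := ζ.eventuallyEq_one_of_mem_ball
        (hnear b hb (mem_ball_iff_norm.1 (hs (subset_tsupport _ hne))))
      have h2 : (fun u : E m × H => ζ u.1) =ᶠ[𝓝 (D.x b, D.y b)] fun _ => 1 :=
        (continuous_fst.tendsto (D.x b, D.y b)).eventually h1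
      rw [h2.fderiv_eq, fderiv_const_apply])
    rw [integral_map hf.aemeasurable (continuous_tanDiv hX).aestronglyMeasurable,
      integral_withDensity_eq_integral_toReal_smul hg
        (Eventually.of_forall fun _ => ENNReal.ofReal_lt_top), ← integral_indicator hB, ← h0]
    refine integral_congr_ae ?_
    filter_upwards [h.ae_G, hw] with b hb hb'
    by_cases hm : b ∈ D.pb p (11 / 10 * ς)
    · rw [indicator_of_mem hm, ENNReal.toReal_ofReal (by linarith [hb'.1]),
        ζ.one_of_mem_closedBall (ball_subset_closedBall (hnear b hb hm)), one_mul, smul_eq_mul]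
    · have : fderiv ℝ X (D.pos b) = 0 := by
        by_contra hne
        exact hm (mem_ball_iff_norm.1 (hs (tsupport_fderiv_subset ℝ (subset_tsupport _ hne))))
      simp [indicator_of_notMem hm, tanDiv, this]
  · have e : D.pos ⁻¹' ball p r ∩ D.pb p (11 / 10 * ς) = D.pb p r := by
      ext b
      simp only [mem_inter_iff, mem_preimage, mem_ball_iff_norm, CD.pb, mem_ofPred_eq]
      exact ⟨fun h => h.1, fun h => ⟨h, h.trans_le hr⟩⟩
    rw [hν _ measurableSet_ball, e]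
    have h1 := hup (D.pb p r)
    constructor
    · have := ENNReal.toReal_mono (h1.trans_lt (by finiteness)).ne (hlo (D.pb p r))
      rwa [ENNReal.toReal_mul, ENNReal.toReal_ofReal (by linarith)] at this
    · have := ENNReal.toReal_mono (by finiteness) h1
      rwa [ENNReal.toReal_mul, ENNReal.toReal_ofReal (by linarith)] at this

theorem CV.mono_ball {D : CD m α H} {c : E m} {R δ M : ℝ} (h : CV D c R δ M) (hδ : δ ≤ 1 / 10)
    {a : α} (ha : a ∈ D.G) {σ ς : ℝ} (hσ : 0 < σ) (hς : σ ≤ ς) (hR : ‖D.x a - c‖ + 2 * ς ≤ R) :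
    (1 - δ) * D.m.real (D.pb (D.pos a) σ) * ς ^ m ≤
      (1 + δ) * D.m.real (D.pb (D.pos a) ς) * σ ^ m := by
  have hς0 := hσ.trans_le hς
  obtain ⟨V, hV, hb⟩ := h.exists_var_mon hδ ha hς0 hR
  have h1 := ball_mono_mon hV subset_rfl hσ hς (by linarith)
  rw [div_le_div_iff₀ (by positivity) (by positivity)] at h1
  calc _ ≤ (V.fst (ball (D.pos a) σ)).toReal * ς ^ m := by
        gcongr; exact (hb σ (by linarith)).1
    _ ≤ _ := h1
    _ ≤ _ := by gcongr; exact (hb ς (by linarith)).2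

theorem CV.mono_den {D : CD m α H} {c : E m} {R δ M : ℝ} (h : CV D c R δ M) (hδ : δ ≤ 1 / 10)
    {a : α} (ha : a ∈ D.G) {ϑ ς : ℝ} (hd : D.Den ϑ a) (hϑ : 0 ≤ ϑ) (hς : 0 < ς)
    (hR : ‖D.x a - c‖ + 2 * ς ≤ R) :
    (1 - 2 * δ) * ϑ * ς ^ m ≤ D.m.real (D.pb (D.pos a) ς) := by
  obtain ⟨σ, h1, h2⟩ := (hd.and_eventually (Ioo_mem_nhdsGT hς)).exists
  have hσ := h2.1
  have hδ0 := h.δ_nonneg
  have h3 := h.mono_ball hδ ha hσ h2.2.le hR
  have h4 : (1 - δ) * ϑ * ς ^ m * σ ^ m ≤ (1 + δ) * D.m.real (D.pb (D.pos a) ς) * σ ^ m := by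
    refine le_trans ?_ h3
    have : 0 ≤ 1 - δ := by linarith
    calc _ = (1 - δ) * (ϑ * σ ^ m) * ς ^ m := by ring
      _ ≤ _ := by gcongr
  have h5 := le_of_mul_le_mul_right h4 (by positivity)
  refine le_of_mul_le_mul_left (le_trans ?_ h5) (by positivity : 0 < 1 + δ)
  have : 0 ≤ δ ^ 2 * (ϑ * ς ^ m) := by positivity
  nlinarith

end Pool.Agent.Lib.MP_8daebb_an.GM
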