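import Pool.Agent.Lib.MP_8daebb_an.GM.SupA
import Pool.Agent.Lib.MP_8daebb_an.GM.Mon
import Pool.Agent.Lib.MP_8daebb_an.GM.Df3

/-! The heights are bounded by their mean square. -/

set_option linter.unusedSectionVars false
set_option linter.unusedVariables false

open MeasureTheory Metric Filter Topology Set
open scoped RealInnerProductSpace ENNReal ContDiff

namespace Pool.Agent.Lib.MP_8daebb_an.GM

open LG (vb chi om trS)
open SV (ux)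

variable {d : ℕ} {α : Type*} [MeasurableSpace α] {H : Type*} [NormedAddCommGroup H]
  [InnerProductSpace ℝ H] [FiniteDimensional ℝ H] [MeasurableSpace H] [BorelSpace H]

theorem CV.low_suph {D : CD d α H} {c : E d} {R δ M : ℝ} (h : CV D c R δ M) (hδ : δ ≤ 1 / 10)
    {a : α} (ha : a ∈ D.G) (hd : D.Den (2 / 5 * vb d) a) {ς σ : ℝ} (h0 : 0 < ς)
    (hy : 2 * ς ≤ ‖D.y a‖) (hσ : 2 * ς ≤ σ) (hR : ‖D.x a - c‖ + 2 * ς ≤ R) :
    2 / 25 * vb d * ς ^ d * ‖D.y a‖ ^ 2 ≤ D.J (D.x a) σ := by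
  have := h.fin
  have v0 := LG.vb_pos d
  have h1 := h.mono_den hδ ha hd (by positivity) h0 hR
  have h2 : 8 / 25 * vb d * ς ^ d ≤ D.m.real (D.pb (D.pos a) ς) := by
    refine le_trans (mul_le_mul_of_nonneg_right ?_ (by positivity)) h1
    nlinarith
  have m1 := h.meas_pb (D.pos a) ς
  have m2 := h.meas_cyl (D.x a) σ
  have i2 := h.integrable_t.2.2.1
  have h3 : ∫ a', (D.pb (D.pos a) ς).indicator (fun _ => ‖D.y a‖ ^ 2 / 4) a' ∂D.m ≤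
      ∫ a', (D.cyl (D.x a) σ).indicator (fun a' => ‖D.y a'‖ ^ 2) a' ∂D.m := by
    refine integral_mono_ae ((integrable_const _).indicator m1) (i2.indicator m2) ?_
    filter_upwards [h.ae_G] with a' ha'
    by_cases h4 : a' ∈ D.pb (D.pos a) ς
    · have h5 : ‖D.pos a' - D.pos a‖ < ς := h4
      obtain ⟨g1, g2⟩ := h.geo1 (by linarith) ha ha'
      have h6 : a' ∈ D.cyl (D.x a) σ := show ‖D.x a' - D.x a‖ < σ by linarith
      rw [indicator_of_mem h4, indicator_of_mem h6]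
      have h7 := norm_sub_norm_le (D.y a) (D.y a')
      rw [norm_sub_rev] at h7
      nlinarith [norm_nonneg (D.y a')]
    · rw [indicator_of_notMem h4]
      exact indicator_nonneg (fun _ _ => sq_nonneg _) _
  rw [integral_indicator m1, integral_indicator m2, setIntegral_const, smul_eq_mul] at h3
  have h4 := mul_le_mul_of_nonneg_right h2 (show 0 ≤ ‖D.y a‖ ^ 2 / 4 by positivity)
  rw [CD.J]
  linarith

theorem sup_pt (d : ℕ) : ∃ C : ℝ, 0 < C ∧ ∃ δ₀ : ℝ, 0 < δ₀ ∧ δ₀ ≤ 1 / 10 ∧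
    ∀ (D : CD d α H) (c : E d) (R δ M : ℝ), CV D c R δ M → δ ≤ δ₀ → ∀ a ∈ D.G,
    D.Den (2 / 5 * vb d) a → ∀ r : ℝ, 0 < r → r ≤ 1 / 6 → ‖D.x a - c‖ + 3 * r ≤ R →
    (∀ᵐ a' ∂D.m, a' ∈ D.cyl (D.x a) (2 * r) → ‖D.y a'‖ ^ 2 ≤ 2 ^ (d + 1) * ‖D.y a‖ ^ 2) →
    ‖D.y a‖ ^ 2 * r ^ d ≤ C * D.J (D.x a) (3 * r) := by
  obtain ⟨C, ε, δ₀, C0, ε0, ε1, δ0, δ1, core⟩ := sup_core (α := α) (H := H) d
  obtain ⟨A, hA⟩ : ∃ A : ℝ, A = 2 ^ (d + 1) / ε := ⟨_, rfl⟩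
  have A1 : 1 ≤ A := by
    rw [hA, one_le_div ε0]
    exact ε1.trans (one_le_pow₀ (by norm_num))
  have A2 : ε * A = 2 ^ (d + 1) := by rw [hA]; field_simp
  have A0 : 0 < A := by linarith
  have v0 := LG.vb_pos d
  refine ⟨25 / (2 * vb d) * (2 * A) ^ d * (C + 1), by positivity, δ₀, δ0, δ1,
    fun D c R δ M h hδ a ha hd r r0 r6 hR hS => ?_⟩
  have J0 := (h.nonneg (D.x a) (3 * r)).2.2.1
  rcases (norm_nonneg (D.y a)).eq_or_lt with Y0 | Y0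
  · rw [← Y0]
    simp only [ne_eq, OfNat.ofNat_ne_zero, not_false_eq_true, zero_pow, zero_mul]
    positivity
  obtain ⟨Y, hY⟩ : ∃ Y, Y = ‖D.y a‖ := ⟨_, rfl⟩
  have low := fun ς σ => h.low_suph (hδ.trans δ1) ha hd (ς := ς) (σ := σ)
  rw [← hY] at Y0 hS low ⊢
  have key : 2 / 25 * vb d * (r / (2 * A)) ^ d * Y ^ 2 ≤ (C + 1) * D.J (D.x a) (3 * r) := by
    by_cases h1 : A * Y ≤ r
    · have YA : Y ≤ A * Y := le_mul_of_one_le_left Y0.le A1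
      have h2 := low (Y / 2) (A * Y) (by positivity) (by linarith) (by linarith) (by linarith)
      have h3 := core D c R δ M h hδ (D.x a) (A * Y) r (by positivity) h1 r6 hR (by
        filter_upwards [hS] with a' ha' hc
        refine (ha' hc).trans ?_
        rw [← A2, mul_pow, mul_assoc]
        refine mul_le_mul_of_nonneg_left (mul_le_mul_of_nonneg_right ?_ (sq_nonneg _)) ε0.le
        nlinarith)
      have h4 := (div_le_div_of_nonneg_right h2 (show 0 ≤ (A * Y) ^ d by positivity)).trans h3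
      have h5 := mul_le_mul_of_nonneg_right h4 (show 0 ≤ r ^ d by positivity)
      have e1 : 2 / 25 * vb d * (Y / 2) ^ d * Y ^ 2 / (A * Y) ^ d * r ^ d =
          2 / 25 * vb d * (r / (2 * A)) ^ d * Y ^ 2 := by
        simp only [div_pow, mul_pow]
        field_simp
      have e2 : C * (D.J (D.x a) (3 * r) / r ^ d) * r ^ d = C * D.J (D.x a) (3 * r) := by
        field_simp
      rw [e1, e2] at h5
      linarith
    · have e1 : 2 * (r / (2 * A)) = r / A := by field_simp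
      have h2 : r / A ≤ r := div_le_self r0.le A1
      have h3 : r / A ≤ Y := by
        rw [div_le_iff₀ A0]
        linarith
      have h4 := low (r / (2 * A)) (3 * r) (by positivity) (by linarith) (by linarith)
        (by linarith)
      nlinarith
  have h5 := mul_le_mul_of_nonneg_left key
    (show 0 ≤ 25 / (2 * vb d) * (2 * A) ^ d by positivity)
  refine le_trans (le_of_eq ?_) (h5.trans (le_of_eq ?_))
  · rw [div_pow]
    field_simp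
  · ring

theorem sup_h' (d : ℕ) : ∃ C : ℝ, 0 < C ∧ ∃ δ₀ : ℝ, 0 < δ₀ ∧ δ₀ ≤ 1 / 10 ∧
    ∀ (D : CD d α H) (c : E d) (R δ M : ℝ), CV D c R δ M → δ ≤ δ₀ →
    ∀ᵐ a ∂D.m, ‖D.y a‖ ^ 2 * (R - ‖D.x a - c‖) ^ d ≤ C * ∫ a, ‖D.y a‖ ^ 2 ∂D.m := by
  obtain ⟨C, C0, δ₀, δ0, δ1, pt⟩ := sup_pt (α := α) (H := H) d
  refine ⟨2 * 12 ^ d * C, by positivity, δ₀, δ0, δ1, fun D c R δ M h hδ => ?_⟩
  obtain ⟨Z, hZ⟩ : ∃ Z : Set α,
      Z = {a | a ∈ D.G ∧ D.x a ∈ ball c R ∧ D.Den (2 / 5 * vb d) a} := ⟨_, rfl⟩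
  have aeZ : ∀ᵐ a ∂D.m, a ∈ Z := by
    filter_upwards [h.ae_G, h.car, h.ae_den] with a h1 h2 h3
    rw [hZ]
    exact ⟨h1, h2, h3⟩
  obtain ⟨F, hF⟩ : ∃ F : α → ℝ, F = fun a => ‖D.y a‖ ^ 2 * (R - ‖D.x a - c‖) ^ d := ⟨_, rfl⟩
  have hb : BddAbove (F '' Z) := by
    refine ⟨2 ^ 2 * 2 ^ d, ?_⟩
    rintro _ ⟨a, ha, rfl⟩
    rw [hZ] at ha
    have h1 : ‖D.x a - c‖ < R := mem_ball_iff_norm.1 ha.2.1
    rw [hF]
    exact mul_le_mul (pow_le_pow_left₀ (norm_nonneg _) (h.pw a ha.1).y_two 2)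
      (pow_le_pow_left₀ (by linarith) (by linarith [h.R_le, norm_nonneg (D.x a - c)]) d)
      (pow_nonneg (by linarith) d) (by norm_num)
  have hW : ∀ a ∈ Z, F a ≤ sSup (F '' Z) := fun a ha => le_csSup hb ⟨a, ha, rfl⟩
  have I0 : 0 ≤ ∫ a, ‖D.y a‖ ^ 2 ∂D.m := integral_nonneg fun a => sq_nonneg _
  filter_upwards [aeZ] with a₁ h1
  refine le_trans (le_of_eq (by rw [hF])) ((hW a₁ h1).trans ?_)
  rcases le_or_gt (sSup (F '' Z)) 0 with W0 | W0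
  · exact W0.trans (by positivity)
  obtain ⟨_, ⟨a, ha, rfl⟩, h2⟩ := exists_lt_of_lt_csSup ⟨_, mem_image_of_mem F h1⟩ (half_lt_self W0)
  have ha' := ha
  rw [hZ] at ha'
  obtain ⟨e, he⟩ : ∃ e, e = R - ‖D.x a - c‖ := ⟨_, rfl⟩
  have e0 : 0 < e := by linarith [mem_ball_iff_norm.1 ha'.2.1]
  have e2 : e ≤ 2 := by linarith [h.R_le, norm_nonneg (D.x a - c)]
  have h3 : F a = ‖D.y a‖ ^ 2 * e ^ d := by rw [hF, he]
  have h4 := pt D c R δ M h hδ a ha'.1 ha'.2.2 (e / 12) (by positivity) (by linarith) (by linarith)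
    (by
      filter_upwards [aeZ] with b hb hc
      have h5 : ‖D.x b - D.x a‖ < 2 * (e / 12) := hc
      have h6 : ‖D.x b - c‖ ≤ ‖D.x b - D.x a‖ + ‖D.x a - c‖ :=
        norm_sub_le_norm_sub_add_norm_sub _ _ _
      have h7 : ‖D.y b‖ ^ 2 * (e / 2) ^ d ≤ F b := by
        rw [hF]
        exact mul_le_mul_of_nonneg_left (pow_le_pow_left₀ (by positivity) (by linarith) d)
          (sq_nonneg _)
      refine le_of_mul_le_mul_right ?_ (show 0 < (e / 2) ^ d by positivity)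
      have h8 : 2 ^ (d + 1) * ‖D.y a‖ ^ 2 * (e / 2) ^ d = 2 * (‖D.y a‖ ^ 2 * e ^ d) := by
        rw [div_pow, pow_succ]
        field_simp
      linarith [hW b hb])
  have h5 : D.J (D.x a) (3 * (e / 12)) ≤ ∫ a, ‖D.y a‖ ^ 2 ∂D.m :=
    setIntegral_le_integral h.integrable_t.2.2.1 (Eventually.of_forall fun a => sq_nonneg _)
  have h6 := mul_le_mul_of_nonneg_left (h4.trans (mul_le_mul_of_nonneg_left h5 C0.le))
    (show (0 : ℝ) ≤ 2 * 12 ^ d by positivity)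
  have h7 : 2 * 12 ^ d * (‖D.y a‖ ^ 2 * (e / 12) ^ d) = 2 * (‖D.y a‖ ^ 2 * e ^ d) := by
    rw [div_pow]
    field_simp
  linarith

theorem sup_h (d : ℕ) (M : ℝ) : ∃ C : ℝ, 0 < C ∧ ∃ δ₀ : ℝ, 0 < δ₀ ∧
    ∀ (D : CD d α H) (c : E d) (R δ : ℝ), CV D c R δ M → δ ≤ δ₀ →
    ∀ᵐ a ∂D.m, ‖D.y a‖ ^ 2 * (R - ‖D.x a - c‖) ^ d ≤ C * ∫ a, ‖D.y a‖ ^ 2 ∂D.m := by
  obtain ⟨C, C0, δ₀, δ0, -, H⟩ := sup_h' (α := α) (H := H) d
  exact ⟨C, C0, δ₀, δ0, fun D c R δ => H D c R δ M⟩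

/-- The local form. -/
theorem sup_cyl (d : ℕ) : ∃ C : ℝ, 0 < C ∧ ∃ δ₀ : ℝ, 0 < δ₀ ∧ δ₀ ≤ 1 / 10 ∧
    ∀ (D : CD d α H) (c : E d) (R δ M : ℝ), CV D c R δ M → δ ≤ δ₀ → ∀ (u : E d) (σ l : ℝ),
    0 ≤ σ → 0 < l → ‖u - c‖ + (σ + l) ≤ R →
    ∀ᵐ a ∂D.m, a ∈ D.cyl u σ → ‖D.y a‖ ^ 2 * l ^ d ≤ C * D.J u (σ + l) := by
  obtain ⟨C, C0, δ₀, δ0, δ1, H⟩ := sup_h' (α := α) (H := H) d
  refine ⟨C, C0, δ₀, δ0, δ1, fun D c R δ M h hδ u σ l hσ hl hR => ?_⟩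
  have h1 := H _ u (σ + l) δ M (h.resB (by linarith) (by linarith) hR) hδ
  have h2 : ∀ᵐ a ∂D.m, a ∈ D.cyl u (σ + l) →
      ‖D.y a‖ ^ 2 * (σ + l - ‖D.x a - u‖) ^ d ≤ C * D.J u (σ + l) :=
    (ae_restrict_iff' (h.meas_cyl u (σ + l))).1 h1
  filter_upwards [h2] with a ha hc
  have h3 : ‖D.x a - u‖ < σ := hc
  refine le_trans ?_ (ha (show ‖D.x a - u‖ < σ + l by linarith))
  exact mul_le_mul_of_nonneg_left (pow_le_pow_left₀ hl.le (by linarith) d) (sq_nonneg _)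

theorem ht_of_J (d : ℕ) (M : ℝ) : ∃ C : ℝ, 0 < C ∧ ∃ δ₀ : ℝ, 0 < δ₀ ∧
    ∀ (D : CD d α H) (R δ R₀ l lam : ℝ), CV D 0 R δ M → δ ≤ δ₀ → 0 < l → l < R₀ → R₀ ≤ R →
    0 ≤ lam → C * D.J 0 R₀ ≤ lam ^ 2 * l ^ d → Ht (D.resB 0 (R₀ - l)) lam := by
  obtain ⟨C, C0, δ₀, δ0, -, H⟩ := sup_cyl (α := α) (H := H) d
  refine ⟨C, C0, δ₀, δ0, fun D R δ R₀ l lam h hδ hl hl' hR h0 hJ => ?_⟩
  have h1 := H D 0 R δ M h hδ 0 (R₀ - l) l (by linarith) hl (by simpa using hR)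
  rw [sub_add_cancel] at h1
  refine (ae_restrict_iff' (h.meas_cyl 0 (R₀ - l))).2 ?_
  filter_upwards [h1] with a ha hc
  exact (abs_le_of_sq_le_sq' (le_of_mul_le_mul_right ((ha hc).trans hJ) (pow_pos hl d)) h0).2

end Pool.Agent.Lib.MP_8daebb_an.GM
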