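import Pool.Agent.Lib.MP_8daebb_an.GM.Df3
import Pool.Agent.Lib.MP_8daebb_an.GM.Glob
import Pool.Agent.Lib.MP_8daebb_an.GM.SupH
import Pool.Agent.Lib.MP_8daebb_an.GM.HB

/-! The standing assumptions in the charts of a system. -/

set_option linter.unusedSectionVars false
set_option linter.unusedVariables false

open MeasureTheory Metric Filter Topology Set
open scoped RealInnerProductSpace ENNReal ContDiff

namespace Pool.Agent.Lib.MP_8daebb_an.GM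

open LG (vb chi om trS)
open SV (ux)

variable {d : ℕ} {α : Type*} [MeasurableSpace α] {H : Type*} [NormedAddCommGroup H]
  [InnerProductSpace ℝ H] [FiniteDimensional ℝ H] [MeasurableSpace H] [BorelSpace H]

theorem pos_of_mul_pos_of_pos_msof {a b : ℝ} (ha : 0 < a) (h : 0 < a * b) : 0 < b :=
  (mul_pos_iff_of_pos_left ha).1 h

/-- The mass of the half cylinder determines the multiplicity. -/
theorem mass_half_msof (d : ℕ) (M : ℝ) {CI : ℝ} (hCI : 0 ≤ CI) : ∃ c₁ : ℝ, 0 < c₁ ∧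
    ∀ (D : CD d α H) (R δ lam ρ : ℝ) (Q : ℕ) (N : E d → ℕ), CV D 0 R δ M → δ ≤ 1 / 10 →
    Ht D lam → 0 < lam → lam ≤ c₁ * R → 0 < ρ → ρ ≤ c₁ * R → MQ D 0 R ρ CI Q N →
    |D.Ms 0 (R / 2) - Q * vb d * (R / 2) ^ d| ≤ vb d * (R / 2) ^ d / 20 := by
  obtain ⟨Cm, hCm, hm⟩ := mass_near_Q (α := α) (H := H) d hCI
  obtain ⟨Ce, hCe, he⟩ := en_le (α := α) (H := H) d M
  have hv := LG.vb_pos d
  refine ⟨min (1 / 36) (vb d / (320 * Cm * Ce * 2 ^ d)), lt_min (by norm_num) (by positivity), ?_⟩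
  intro D R δ lam ρ Q N hcv hδ ht hl0 hl hρ0 hρ hQ
  have hR := hcv.R_pos
  have c1 : min (1 / 36) (vb d / (320 * Cm * Ce * 2 ^ d)) ≤ 1 / 36 := min_le_left _ _
  have c2 : min (1 / 36) (vb d / (320 * Cm * Ce * 2 ^ d)) ≤ vb d / (320 * Cm * Ce * 2 ^ d) :=
    min_le_right _ _
  generalize min (1 / 36) (vb d / (320 * Cm * Ce * 2 ^ d)) = c at *
  rw [le_div_iff₀ (by positivity)] at c2
  have hcR : c * R ≤ 1 / 36 * R := mul_le_mul_of_nonneg_right c1 hR.le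
  have h1 := (hm D 0 R δ M ρ Q N hcv (by linarith) hρ0 hQ 0 (R / 2) (by linarith)
    (by simp only [sub_zero, norm_zero]; linarith)).2
  have h2 : D.En 0 (R / 2 + 9 * ρ) ≤ D.En 0 (3 * R / 4) :=
    (hcv.cyl_mono (by simp only [sub_zero, norm_zero]; linarith)).2.2.2
  have h3 := he D 0 R δ lam hcv hδ ht hl0 0 (3 * R / 4) (R / 4) (by linarith) (by linarith)
    (by simp only [sub_zero, norm_zero]; linarith)
  have hc0 : 0 ≤ c := ((mul_pos_iff_of_pos_right hR).1 (hl0.trans_le hl)).le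
  have h4 : lam ^ 2 ≤ c * R ^ 2 := by
    have a := mul_le_mul hl (by linarith : lam ≤ R) hl0.le (hl0.le.trans hl)
    linarith
  refine h1.trans ((mul_le_mul_of_nonneg_left (h2.trans h3) hCm.le).trans ?_)
  have e1 : 3 * R / 4 + R / 4 = 2 * (R / 2) := by ring
  rw [e1, mul_pow]
  have hX : 0 < (R / 2) ^ d := by positivity
  generalize (R / 2) ^ d = X at *
  calc Cm * (Ce * lam ^ 2 * (2 ^ d * X / (R / 4) ^ 2))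
      ≤ Cm * (Ce * (c * R ^ 2) * (2 ^ d * X / (R / 4) ^ 2)) := by gcongr
    _ = c * (320 * Cm * Ce * 2 ^ d) * X / 20 := by field_simp; ring
    _ ≤ _ := by gcongr

theorem ux_le_msof {κ : ℝ} (hκ : 0 < κ) : ∃ L₀ : ℝ, 1 ≤ L₀ ∧ ∀ L, L₀ ≤ L → ux L 1 ≤ κ := by
  obtain ⟨L₀, h1, h2⟩ := ux_small κ⁻¹ 0 one_pos
  refine ⟨L₀, h1, fun L hL => ?_⟩
  have h3 := h2 L hL
  rw [pow_zero, mul_one, inv_mul_le_iff₀ hκ, mul_one] at h3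
  exact h3

theorem ms_shrink (d : ℕ) (M : ℝ) {CI δg cg : ℝ} (hCI : 0 ≤ CI) (hcg : 0 < cg) (hcg1 : cg ≤ 1 / 2)
    (hG : GlobOK d α H M CI δg cg) : ∃ c₁ : ℝ, 0 < c₁ ∧
    ∀ (D : CD d α H) (R δ lam ρ R₁ lam₁ ρ₁ : ℝ) (Q : ℕ) (N : E d → ℕ),
    MS D R δ M lam ρ CI Q N → δ ≤ δg → δ ≤ 1 / 10 → R₁ ≤ R → Ht (D.resB 0 R₁) lam₁ → 0 < lam₁ →
    lam₁ ≤ cg * ρ₁ → ρ ≤ c₁ * R₁ → ρ₁ ≤ c₁ * R₁ →
    ∃ N₁, MS (D.resB 0 R₁) R₁ δ M lam₁ ρ₁ CI Q N₁ := by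
  obtain ⟨c₁, hc₁, hm⟩ := mass_half_msof (α := α) (H := H) d M hCI
  refine ⟨c₁, hc₁, ?_⟩
  intro D R δ lam ρ R₁ lam₁ ρ₁ Q N hms hδg hδ hR ht hl0 hl hρ hρ₁
  have hρ0 := hms.ρ_pos
  have hR₁ : 0 < R₁ := pos_of_mul_pos_of_pos_msof hc₁ (hρ0.trans_le hρ)
  have hρ₁0 : 0 < ρ₁ := pos_of_mul_pos_of_pos_msof hcg (hl0.trans_le hl)
  have h2 : 2 * lam₁ ≤ ρ₁ := by linarith [mul_le_mul_of_nonneg_right hcg1 hρ₁0.le]
  have hms₁ := hms.resB (by linarith) hR₁ hR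
  obtain ⟨Q', N', hQ⟩ := hG _ 0 R₁ δ lam₁ ρ₁ hms₁.cv hδg ht hl0 hl
  have a1 := hm _ R₁ δ lam₁ ρ Q _ hms₁.cv hδ ht hl0 (by linarith) hρ0 hρ hms₁.mq
  have a2 := hm _ R₁ δ lam₁ ρ₁ Q' _ hms₁.cv hδ ht hl0 (by linarith) hρ₁0 hρ₁ hQ
  have hV : 0 < vb d * (R₁ / 2) ^ d := by have := LG.vb_pos d; positivity
  have hQQ : Q = Q' := by
    refine nat_eq_integ hV ?_
    rw [← abs_of_pos hV, ← abs_mul, abs_of_pos hV, abs_le]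
    have b1 := abs_le.1 a1
    have b2 := abs_le.1 a2
    constructor <;> linarith [b1.1, b1.2, b2.1, b2.2]
  subst hQQ
  exact ⟨N', hms₁.cv, ht, hl0, h2, hQ, hms.Q_pos⟩

theorem ms_of_ht {C : Type*} (d : ℕ) (M θ : ℝ) {CI δg cg : ℝ} (hCI : 0 ≤ CI) (hcg : 0 < cg)
    (hcg1 : cg ≤ 1 / 2) (hG : GlobOK d α H M CI δg cg) : ∃ c₁ : ℝ, 0 < c₁ ∧
    ∀ (Adm : C → ℝ → ℝ → Prop) (ch : C → ℝ → CD d α H) (δ ε₁ εB δ₂ : ℝ) (Q' : ℕ) (CN cN : ℝ)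
      (KN : ℕ), Sys Adm ch M θ δ ε₁ εB δ₂ Q' CN cN KN → δ ≤ δg → δ ≤ 1 / 10 →
    ∀ (c : C) (ε R R₁ lam ρ : ℝ), Adm c ε R → ε ≤ 3 * ε₁ → R ≤ 2 → R₁ ≤ R →
    Ht ((ch c R).resB 0 R₁) lam → 0 < lam → lam ≤ cg * ρ → ρ ≤ c₁ * R₁ → 2 * lam ≤ cN * R₁ →
    (∃ N, MS ((ch c R).resB 0 R₁) R₁ δ M lam ρ CI ⌊θ + 1 / 2⌋₊ N) ∧
    ∀ σ, 0 < σ → lam ≤ cN * σ → σ ≤ R₁ →
      (∀ᵐ a ∂(ch c R).m, a ∈ (ch c R).cyl 0 σ → ‖(ch c R).y a‖ ≤ cN * σ) ∧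
      ((ch c R).resB 0 R₁).bad ⌊θ + 1 / 2⌋₊ σ ≤ (ch c R).m.real
        {a | a ∈ (ch c R).cyl 0 σ ∧ ¬(ch c R).Den ((θ - 1 / 50) * omega d) a} := by
  obtain ⟨c₁, hc₁, hm⟩ := mass_half_msof (α := α) (H := H) d M hCI
  refine ⟨c₁, hc₁, ?_⟩
  intro Adm ch δ ε₁ εB δ₂ Q' CN cN KN hS hδg hδ c ε R R₁ lam ρ hA hε hR2 hR₁ ht hl0 hl hρ hc
  have hρ0 : 0 < ρ := pos_of_mul_pos_of_pos_msof hcg (hl0.trans_le hl)
  have hR₁0 : 0 < R₁ := pos_of_mul_pos_of_pos_msof hc₁ (hρ0.trans_le hρ)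
  have h2l : 2 * lam ≤ ρ := by linarith [mul_le_mul_of_nonneg_right hcg1 hρ0.le]
  have hδ2 : δ ≤ 1 / 2 := by linarith
  have hcv : CV (ch c R) 0 R δ M := hS.cv c ε R hA hε (by linarith) hR2
  have hcv₁ : CV ((ch c R).resB 0 R₁) 0 R₁ δ M := hcv.resB hδ2 hR₁0 (by simpa using hR₁)
  obtain ⟨Q, N, hQ⟩ := hG _ 0 R₁ δ lam ρ hcv₁ hδg ht hl0 hl
  have hy : ∀ σ, lam ≤ cN * σ → σ ≤ R₁ →
      ∀ᵐ a ∂(ch c R).m, a ∈ (ch c R).cyl 0 σ → ‖(ch c R).y a‖ ≤ cN * σ := by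
    intro σ h1 h2
    have h3 : ∀ᵐ a ∂(ch c R).m.restrict ((ch c R).cyl 0 R₁), ‖(ch c R).y a‖ ≤ lam := ht
    rw [ae_restrict_iff' (hcv.meas_cyl 0 R₁)] at h3
    filter_upwards [h3] with a ha hin
    exact (ha (cyl_sub _ (by simpa using h2) hin)).trans h1
  have hσ0 : 0 < R₁ / 2 := by linarith
  have h1 := hm _ R₁ δ lam ρ Q N hcv₁ hδ ht hl0 (by linarith) hρ0 hρ hQ
  have h2 := hS.mass c ε R (R₁ / 2) hA hε hR2 hσ0 (by linarith) (by linarith)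
    (hy _ (by linarith) (by linarith))
  rw [(resB_eq hcv.m_x (by simp only [sub_zero, norm_zero]; linarith)).2.1] at h1
  have hv := LG.vb_pos d
  have hV : 0 < vb d * (R₁ / 2) ^ d := by positivity
  have hQθ : |(Q : ℝ) - θ| ≤ 1 / 10 := by
    refine le_of_mul_le_mul_right ?_ hV
    have b1 := abs_le.1 h1
    have b2 := abs_le.1 h2
    rw [← vb_eq] at b2
    unfold CD.Ms at b1
    rw [← abs_of_pos hV, ← abs_mul, abs_of_pos hV, abs_le]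
    constructor <;> linarith [b1.1, b1.2, b2.1, b2.2]
  have hQa := abs_le.1 hQθ
  have hθ := hS.θ_ge
  have hfl : ⌊θ + 1 / 2⌋₊ = Q := by
    rw [Nat.floor_eq_iff (by linarith)]
    constructor <;> linarith
  have hQ1 : 1 ≤ Q := by
    have : (0 : ℝ) < Q := by linarith
    exact Nat.one_le_iff_ne_zero.2 (Nat.cast_pos.1 this).ne'
  rw [hfl]
  refine ⟨⟨N, hcv₁, ht, hl0, h2l, hQ, hQ1⟩, fun σ h0 h1 h2 => ⟨hy σ h1 h2, ?_⟩⟩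
  rw [(hcv.resB_rad hδ2 h0 h2 Q).2.2.2.2.2.1]
  have := hcv.fin
  refine measureReal_mono (fun a ha => ⟨ha.1, fun hd => ha.2 ?_⟩)
  refine hd.mp (Eventually.mono self_mem_nhdsWithin fun r hr0 hr => le_trans ?_ hr)
  rw [← vb_eq]
  exact mul_le_mul_of_nonneg_right (mul_le_mul_of_nonneg_right (by linarith) hv.le)
    (pow_nonneg (le_of_lt hr0) _)

theorem lev_of_en {C : Type*} (d : ℕ) (M θ : ℝ) {CI δg cg : ℝ} (hCI : 0 ≤ CI) (hδg : 0 < δg)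
    (hcg : 0 < cg) (hcg1 : cg ≤ 1 / 2) (hG : GlobOK d α H M CI δg cg) : ∃ δ₀ : ℝ, 0 < δ₀ ∧
    δ₀ ≤ 1 / 10 ∧ ∀ (KN : ℕ) (A b g cN : ℝ), Par d KN A b g → 0 < cN → ∃ L₀ : ℝ,
    ∀ (Adm : C → ℝ → ℝ → Prop) (ch : C → ℝ → CD d α H) (δ ε₁ εB δ₂ : ℝ) (Q' : ℕ) (CN : ℝ),
    Sys Adm ch M θ δ ε₁ εB δ₂ Q' CN cN KN → δ ≤ δ₀ →
    ∀ (c : C) (ε R R₀ L : ℝ), L₀ ≤ L → Adm c ε R → ε ≤ 3 * ε₁ → R ≤ 2 → R₀ ≤ R → ux L 1 ≤ R₀ →
    (ch c R).En 0 R₀ ≤ ux L (A - 2) →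
    (∃ N, Lev ((ch c R).resB 0 (R₀ - ux L 2)) (R₀ - ux L 2) δ M CI ⌊θ + 1 / 2⌋₊ N A L) ∧
    ∀ σ, ux L 2 ≤ σ → σ ≤ R₀ - ux L 2 →
      (∀ᵐ a ∂(ch c R).m, a ∈ (ch c R).cyl 0 σ → ‖(ch c R).y a‖ ≤ cN * σ) ∧
      ((ch c R).resB 0 (R₀ - ux L 2)).bad ⌊θ + 1 / 2⌋₊ σ ≤ (ch c R).m.real
        {a | a ∈ (ch c R).cyl 0 σ ∧ ¬(ch c R).Den ((θ - 1 / 50) * omega d) a} := by
  obtain ⟨c₁, hc₁, hm⟩ := ms_of_ht (α := α) (H := H) (C := C) d M θ hCI hcg hcg1 hG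
  obtain ⟨CJ, hCJ, δJ, hδJ, hJ⟩ := ht_of_J (α := α) (H := H) d M
  refine ⟨min δg (min (1 / 10) δJ), lt_min hδg (lt_min (by norm_num) hδJ),
    (min_le_right _ _).trans (min_le_left _ _), fun KN A b g cN hP hcN => ?_⟩
  obtain ⟨L₀, hL₀, hu⟩ := ux_le_msof (κ := min (min (1 / 2) CJ⁻¹) (min cg (min (c₁ / 2) (cN / 4))))
    (by positivity)
  refine ⟨L₀, ?_⟩
  intro Adm ch δ ε₁ εB δ₂ Q' CN hS hδ c ε R R₀ L hL hA hε hR2 hR₀ huR hE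
  have hL0 : 0 ≤ L := by linarith
  obtain ⟨⟨u1, u2⟩, u3, u4, u5⟩ : (ux L 1 ≤ 1 / 2 ∧ ux L 1 ≤ CJ⁻¹) ∧ ux L 1 ≤ cg ∧
      ux L 1 ≤ c₁ / 2 ∧ ux L 1 ≤ cN / 4 := by simpa only [le_min_iff] using hu L hL
  obtain ⟨d1, d2, d3⟩ : δ ≤ δg ∧ δ ≤ 1 / 10 ∧ δ ≤ δJ := by simpa only [le_min_iff] using hδ
  have p1 := ux_pos L 1
  have p2 := ux_pos L 2
  have e2 : ux L 2 = ux L 1 * ux L 1 := by rw [← ux_add]; norm_num
  have e3 : ux L 3 = ux L 1 * ux L 2 := by rw [← ux_add]; norm_num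
  have hd0 : (0 : ℝ) ≤ d := Nat.cast_nonneg d
  have hAd := hP.A_d
  have hA2 : 14 * (d : ℝ) + 40 ≤ A := by linarith [sq_nonneg (d : ℝ)]
  have hl2 : ux L 2 ≤ ux L 1 / 2 := by linarith [mul_le_mul_of_nonneg_right u1 p1.le]
  have hR₁ : ux L 1 / 2 ≤ R₀ - ux L 2 := by linarith
  have hcv : CV (ch c R) 0 R δ M := hS.cv c ε R hA hε (by linarith) hR2
  have hJE : (ch c R).J 0 R₀ ≤ ux L (A - 2) := by
    obtain ⟨_, a, _, _, b, _⟩ := hcv.nonneg 0 R₀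
    linarith
  have ht : Ht ((ch c R).resB 0 (R₀ - ux L 2)) (ux L (A / 2 - d - 2)) := by
    refine hJ _ R δ R₀ _ _ hcv d3 p2 (by linarith) hR₀ (ux_pos _ _).le ?_
    rw [ux_pow, ux_pow, ← ux_add]
    have a1 : CJ * ux L 1 ≤ 1 := by
      have := mul_le_mul_of_nonneg_left u2 hCJ.le
      rwa [mul_inv_cancel₀ hCJ.ne'] at this
    have a2 : ux L (A - 2) = ux L 1 * ux L (A - 3) := by
      rw [← ux_add]
      congr 1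
      ring
    calc CJ * (ch c R).J 0 R₀ ≤ CJ * (ux L 1 * ux L (A - 3)) := by rw [← a2]; gcongr
      _ = CJ * ux L 1 * ux L (A - 3) := by ring
      _ ≤ 1 * ux L (A - 3) := mul_le_mul_of_nonneg_right a1 (ux_pos _ _).le
      _ ≤ _ := by
        rw [one_mul]
        refine ux_anti hL0 ?_
        push_cast
        linarith
  have hl3 : ux L (A / 2 - d - 2) ≤ ux L 3 := ux_anti hL0 (by linarith)
  have hlρ : ux L (A / 2 - d - 2) ≤ cg * ux L (A / 2 - 2 * d - 5) := by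
    refine (ux_anti hL0 (by linarith : 1 + (A / 2 - 2 * d - 5) ≤ A / 2 - d - 2)).trans ?_
    rw [ux_add]
    exact mul_le_mul_of_nonneg_right u3 (ux_pos _ _).le
  have hρR : ux L (A / 2 - 2 * d - 5) ≤ c₁ * (R₀ - ux L 2) := by
    refine (ux_anti hL0 (by linarith : (2 : ℝ) ≤ A / 2 - 2 * d - 5)).trans ?_
    refine le_trans ?_ (mul_le_mul_of_nonneg_left hR₁ hc₁.le)
    linarith [mul_le_mul_of_nonneg_right u4 p1.le]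
  have hcσ : ∀ σ, ux L 2 ≤ σ → 4 * ux L (A / 2 - d - 2) ≤ cN * σ := by
    intro σ hσ
    refine le_trans ?_ (mul_le_mul_of_nonneg_left hσ hcN.le)
    linarith [mul_le_mul_of_nonneg_right u5 p2.le]
  have p3 := ux_pos L (A / 2 - d - 2)
  have hl4 : ux L 2 ≤ 2 * (R₀ - ux L 2) := by linarith
  obtain ⟨⟨N, hN⟩, h2⟩ := hm Adm ch δ ε₁ εB δ₂ Q' CN cN KN hS d1 d2 c ε R (R₀ - ux L 2) _ _ hA hε
    hR2 (by linarith) ht p3 hlρ hρR (by have := hcσ _ hl4; linarith)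
  refine ⟨⟨N, hN, ?_⟩, fun σ h0 h1 => h2 σ (p2.trans_le h0) (by have := hcσ σ h0; linarith) h1⟩
  have a : (ch c R).En 0 (R₀ - ux L 2) ≤ (ch c R).En 0 R₀ :=
    (hcv.cyl_mono (by simp only [sub_zero, norm_zero]; linarith)).2.2.2
  exact a.trans hE

end Pool.Agent.Lib.MP_8daebb_an.GM
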