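import Pool.Agent.Lib.MP_8daebb_an.GM.Sy6
import Pool.Agent.Lib.MP_8daebb_an.GM.Wi5

/-! Negative norms from pairing bounds. -/

open MeasureTheory Metric Set Filter Topology
open scoped RealInnerProductSpace ContDiff ENNReal

namespace Pool.Agent.Lib.MP_8daebb_an.GM.Ch

variable {d n : ℕ}

theorem neg_core_Nw1 : ∃ C : ℝ, 0 < C ∧ ∀ (m : ℕ) (g : E d → ℝ) (B : ℝ), Continuous g → 0 ≤ B →
    (∀ f : E d → ℝ, W m f → |∫ x in cube d, f x * g x| ≤ B * nm m f) →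
    nm (-((d : ℤ) + 1 + m)) g ≤ C * B := by
  obtain ⟨c, hc⟩ : ∃ c : ℝ, c = ((2 * Real.pi) ^ d)⁻¹ := ⟨_, rfl⟩
  have hc0 : 0 < c := by rw [hc]; positivity
  have hw : ∀ k : Fin d → ℤ, 0 < wk k := fun k => one_pos.trans_le (one_le_wk k)
  have hS0 : 0 ≤ ∑' k : Fin d → ℤ, wk k ^ (-((d : ℤ) + 1)) :=
    tsum_nonneg fun k => (zpow_pos (hw k) _).le
  refine ⟨2 * c * (∑' k : Fin d → ℤ, wk k ^ (-((d : ℤ) + 1))) + 1, by positivity, ?_⟩
  intro m g B hg hB h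
  have h1 : ∀ k : Fin d → ℤ, ‖cf g k‖ ≤ 2 * c * B * wk k ^ m := by
    intro k
    obtain ⟨w1, w2, n1, n2⟩ := W_cos (n := m) k
    have a1 := (h _ w1).trans (mul_le_mul_of_nonneg_left n1 hB)
    have a2 := (h _ w2).trans (mul_le_mul_of_nonneg_left n2 hB)
    rw [cf_eq_cos_sin hg, ← hc]
    refine (norm_sub_le _ _).trans ?_
    rw [norm_mul, Complex.norm_I, mul_one, Complex.norm_real, Complex.norm_real, Real.norm_eq_abs,
      Real.norm_eq_abs, abs_mul, abs_mul, abs_of_pos hc0]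
    have b1 := mul_le_mul_of_nonneg_left a1 hc0.le
    have b2 := mul_le_mul_of_nonneg_left a2 hc0.le
    linarith
  have h2 : ∀ k : Fin d → ℤ, wk k ^ (-((d : ℤ) + 1 + m)) * ‖cf g k‖ ≤
      2 * c * B * wk k ^ (-((d : ℤ) + 1)) := by
    intro k
    refine (mul_le_mul_of_nonneg_left (h1 k) (zpow_pos (hw k) _).le).trans (le_of_eq ?_)
    have e : wk k ^ (-((d : ℤ) + 1)) = wk k ^ (-((d : ℤ) + 1 + m)) * wk k ^ m := by
      rw [← zpow_natCast, ← zpow_add₀ (hw k).ne']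
      congr 1
      ring
    rw [e]
    ring
  have h3 : Summable fun k : Fin d → ℤ => 2 * c * B * wk k ^ (-((d : ℤ) + 1)) :=
    summable_wk.mul_left _
  have h4 : Summable fun k : Fin d → ℤ => wk k ^ (-((d : ℤ) + 1 + m)) * ‖cf g k‖ :=
    h3.of_nonneg_of_le (fun k => mul_nonneg (zpow_pos (hw k) _).le (norm_nonneg _)) h2
  have h5 := h4.tsum_le_tsum h2 h3
  rw [tsum_mul_left] at h5
  refine le_trans h5 ?_
  nlinarith

theorem neg_vec_Nw1 : ∃ C : ℝ, 0 < C ∧ ∀ (m : ℕ) (b : E d → E n) (B : ℝ), Continuous b → 0 ≤ B →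
    (∀ (ℓ : E n →L[ℝ] ℝ) (f : E d → ℝ), W m f →
      |∫ x in cube d, f x * ℓ (b x)| ≤ ‖ℓ‖ * B * nm m f) →
    nv (-((d : ℤ) + 1 + m)) b ≤ C * B := by
  obtain ⟨C, hC, h⟩ := neg_core_Nw1 (d := d)
  have h0 : 0 ≤ ∑ i, ‖co (E n) i‖ := Finset.sum_nonneg fun i _ => norm_nonneg _
  refine ⟨C * (∑ i, ‖co (E n) i‖) + 1, by positivity, fun m b B hb hB hf => ?_⟩
  have h1 : nv (-((d : ℤ) + 1 + m)) b ≤ ∑ i, C * (‖co (E n) i‖ * B) := by
    have e : nv (-((d : ℤ) + 1 + m)) b =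
        ∑ i, nm (-((d : ℤ) + 1 + m)) fun x => co (E n) i (b x) := rfl
    rw [e]
    exact Finset.sum_le_sum fun i _ => h m (fun x => co (E n) i (b x)) _
      ((co (E n) i).continuous.comp hb) (mul_nonneg (norm_nonneg _) hB) (hf _)
  rw [← Finset.mul_sum, ← Finset.sum_mul] at h1
  nlinarith

theorem neg_norm_one : ∃ C : ℝ, 0 < C ∧ ∀ (b : E d → E n) (k₀ : ℝ), Wv 0 b →
    (∀ f : E d → ℝ, W 1 f → ‖∫ x in cube d, f x • b x‖ ≤ k₀ * nm 1 f) →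
    nv (-((d : ℤ) + 2)) b ≤ C * k₀ := by
  obtain ⟨C, hC, h⟩ := neg_vec_Nw1 (d := d) (n := n)
  refine ⟨C, hC, fun b k₀ hb hk => ?_⟩
  have h0 : 0 ≤ k₀ := by
    have a := W_const (d := d) (n := 1) 1
    have a1 := (norm_nonneg _).trans (hk _ a.1)
    rwa [a.2, abs_one, mul_one] at a1
  have e : -((d : ℤ) + 2) = -((d : ℤ) + 1 + (1 : ℕ)) := by push_cast; ring
  rw [e]
  refine h 1 b k₀ hb.continuous h0 fun ℓ f hf => ?_
  have a1 : ∫ x in cube d, f x * ℓ (b x) = ℓ (∫ x in cube d, f x • b x) := by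
    rw [← ℓ.integral_comp_comm (φ := fun x => f x • b x)
      (integrableOn_cube (hf.continuous.smul hb.continuous))]
    simp only [map_smul, smul_eq_mul]
  rw [a1, mul_assoc]
  exact (ℓ.le_opNorm _).trans (mul_le_mul_of_nonneg_left (hk f hf) (norm_nonneg _))

theorem neg_norm_three : ∃ C : ℝ, 0 < C ∧ ∀ (h : E d → E n) (k₁ : ℝ), Wv 0 h → 0 ≤ k₁ →
    (∀ (f : E d → ℝ) (e : E n), W 3 f → |∫ x in cube d, ⟪f x • e, h x⟫| ≤ k₁ * nm 3 f * ‖e‖) →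
    nv (-((d : ℤ) + 4)) h ≤ C * k₁ := by
  obtain ⟨C, hC, h⟩ := neg_vec_Nw1 (d := d) (n := n)
  refine ⟨C, hC, fun b k₁ hb h0 hk => ?_⟩
  have e : -((d : ℤ) + 4) = -((d : ℤ) + 1 + (3 : ℕ)) := by push_cast; ring
  rw [e]
  refine h 3 b k₁ hb.continuous h0 fun ℓ f hf => ?_
  have a1 := hk f ((InnerProductSpace.toDual ℝ (E n)).symm ℓ) hf
  simp only [real_inner_smul_left, InnerProductSpace.toDual_symm_apply,
    LinearIsometryEquiv.norm_map] at a1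
  refine a1.trans (le_of_eq ?_)
  push_cast
  ring

theorem neg_norm_JJ : ∃ ε₀ C : ℝ, 0 < ε₀ ∧ 0 < C ∧ ∀ (u b : E d → E n) (χ : E d → ℝ) (ε k₁ : ℝ)
    (Ω : Set (E d)), Sml (d + 4) u ε → ε ≤ ε₀ → Wv (d + 6) b → W (d + 4) χ → 0 ≤ k₁ →
    (∀ x ∈ ocube d, x ∉ Ω → χ x = 0) →
    (∀ ψ : E d → E n, Wv 3 ψ → (∀ x ∈ ocube d, x ∉ Ω → ψ x = 0) →
      |∫ x in cube d, ⟪JT u ψ x, b x⟫| ≤ k₁ * nv 3 ψ) →
    Wv (d + 4) (fun x => χ x • JJ u b x) ∧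
      nv (-((d : ℤ) + 4)) (fun x => χ x • JJ u b x) ≤ C * k₁ * nm 3 χ := by
  obtain ⟨ε₁, C₁, hε₁, -, h₁⟩ := PL_le (d := d) (n := n)
  obtain ⟨ε₂, hε₂, h₂⟩ := transp (d := d) (n := n)
  obtain ⟨C₃, hC₃, h₃⟩ := neg_norm_three (d := d) (n := n)
  obtain ⟨C₄, hC₄, h₄⟩ := nv_smul_const (d := d) (X := E n)
  refine ⟨min ε₁ ε₂, C₃ * C₄, lt_min hε₁ hε₂, by positivity, ?_⟩
  intro u b χ ε k₁ Ω hu hε hb hχ hk hΩ hψ
  have hJ : Wv (d + 4) (JJ u b) := (h₁ (d + 4) u b ε hu (hε.trans (min_le_left _ _)) hb).2.1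
  have hW : Wv (d + 4) (fun x => χ x • JJ u b x) := Wv.smul hχ hJ
  have hχ3 : W 3 χ := hχ.mono (by omega)
  have hn := nm_nonneg 3 χ
  refine ⟨hW, (h₃ _ (k₁ * C₄ * nm 3 χ) (hW.mono (Nat.zero_le _)) (by positivity)
    fun f e hf => ?_).trans (le_of_eq (by ring))⟩
  have hm : W 3 fun x => χ x * f x := hχ3.mul hf
  have hv : Wv 3 fun x => (χ x * f x) • e := Wv.smul hm (Wv_const e)
  have a1 := h₂ (d + 4) u _ b ε hu (hε.trans (min_le_right _ _)) (by omega)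
    (hv.mono (by norm_num)) (hb.mono (by omega))
  have a2 := hψ _ hv fun x hx hx' => by rw [hΩ x hx hx', zero_mul, zero_smul]
  have a3 : ∀ x, ⟪f x • e, χ x • JJ u b x⟫ = ⟪(χ x * f x) • e, JJ u b x⟫ := fun x => by
    rw [real_inner_smul_left, real_inner_smul_right, real_inner_smul_left]
    ring
  simp only [a3]
  rw [a1]
  refine a2.trans ?_
  have a4 := h₄ e 3 fun x => χ x * f x
  have a5 : nm 3 (fun x => χ x * f x) ≤ nm 3 χ * nm 3 f := nm_mul_le hχ3 hf (σ := 3) (by norm_num)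
  have a6 := a4.trans (mul_le_mul_of_nonneg_left a5 (by positivity))
  refine (mul_le_mul_of_nonneg_left a6 hk).trans (le_of_eq ?_)
  ring

theorem pair_test : ∃ C : ℝ, 0 < C ∧ ∀ (w : E d → E n) (k : E d → ℝ) (Λ : ℝ), Wv 0 w →
    ContDiff ℝ ∞ k → (∀ x, x ∉ ball (0 : E d) (14 / 5) → k x = 0) →
    (∀ j ≤ d + 2, ∀ x, ‖iteratedFDeriv ℝ j k x‖ ≤ Λ) →
    ‖∫ x in cube d, k x • w x‖ ≤ C * Λ * nv (-((d : ℤ) + 2)) w ∧
      ‖∫ x in cube d, k x • w x‖ ≤ C * Λ * nv 0 w := by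
  have h0 : 0 ≤ ∑ i, ‖Module.finBasis ℝ (E n) i‖ := Finset.sum_nonneg fun i _ => norm_nonneg _
  obtain ⟨c, hc⟩ : ∃ c : ℝ, c = (2 * Real.pi) ^ d * ((d : ℝ) + 1) ^ (d + 2) := ⟨_, rfl⟩
  have hc0 : 0 < c := by rw [hc]; positivity
  refine ⟨c * (∑ i, ‖Module.finBasis ℝ (E n) i‖ + 1), by positivity, ?_⟩
  intro w k Λ hw hk hs hΛ
  have hΛ0 : 0 ≤ Λ := (norm_nonneg _).trans (hΛ 0 (Nat.zero_le _) 0)
  have hd := cf_decay (N := d + 2) (contDiff_infty.mp hk (d + 2)) hs hΛ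
  have h1 : ∀ i, |co (E n) i (∫ x in cube d, k x • w x)| ≤
      c * Λ * nm (-((d : ℤ) + 2)) fun x => co (E n) i (w x) := by
    intro i
    have a1 := pairing_le (hw (co (E n) i)) hk.continuous hd
    rw [← (co (E n) i).integral_comp_comm (φ := fun x => k x • w x)
      (integrableOn_cube (hk.continuous.smul hw.continuous))]
    simp only [map_smul, smul_eq_mul]
    simp only [mul_comm (k _)]
    refine a1.trans (le_of_eq ?_)
    rw [hc]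
    push_cast
    ring
  have h2 : ‖∫ x in cube d, k x • w x‖ ≤
      c * (∑ i, ‖Module.finBasis ℝ (E n) i‖ + 1) * Λ * nv (-((d : ℤ) + 2)) w := by
    rw [← sum_co (∫ x in cube d, k x • w x)]
    refine (norm_sum_le _ _).trans ?_
    have e : nv (-((d : ℤ) + 2)) w = ∑ i, nm (-((d : ℤ) + 2)) fun x => co (E n) i (w x) := rfl
    rw [e, Finset.mul_sum]
    refine Finset.sum_le_sum fun i _ => ?_
    rw [norm_smul, Real.norm_eq_abs]
    have a1 : ‖Module.finBasis ℝ (E n) i‖ ≤ ∑ i, ‖Module.finBasis ℝ (E n) i‖ + 1 := by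
      have := Finset.single_le_sum (f := fun i => ‖Module.finBasis ℝ (E n) i‖)
        (fun i _ => norm_nonneg _) (Finset.mem_univ i)
      linarith
    refine (mul_le_mul (h1 i) a1 (norm_nonneg _) ((abs_nonneg _).trans (h1 i))).trans (le_of_eq ?_)
    ring
  refine ⟨h2, h2.trans (mul_le_mul_of_nonneg_left ?_ (by positivity))⟩
  exact hw.nv_mono (by omega) (by simp)

end Pool.Agent.Lib.MP_8daebb_an.GM.Ch
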