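import Pool.Agent.Lib.MP_8daebb_an.GM.CV
import Pool.Agent.Lib.MP_8daebb_an.GM.Av

/-! The mollifier, masses, averages and multiplicities. -/

open MeasureTheory Metric Set Filter Topology
open scoped RealInnerProductSpace ContDiff ENNReal

namespace Pool.Agent.Lib.MP_8daebb_an.GM.Ch

variable {d n : ℕ} {α : Type*} [MeasurableSpace α] {H : Type*} [NormedAddCommGroup H]
  [InnerProductSpace ℝ H] [FiniteDimensional ℝ H] [MeasurableSpace H] [BorelSpace H]
  {D : CD d α H} {R δ M : ℝ}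

theorem kr_facts : ∃ C : ℝ, 0 < C ∧ ∀ ρ : ℝ, 0 < ρ → Continuous (kr ρ : E d → ℝ) ∧
    (∀ x : E d, 0 ≤ kr ρ x ∧ kr ρ x ≤ C / ρ ^ d) ∧ (∀ x : E d, ρ ≤ ‖x‖ → kr ρ x = 0) ∧
    (∀ x x' : E d, |kr ρ x - kr ρ x'| ≤ C / ρ ^ (d + 1) * ‖x - x'‖) ∧ ∫ x : E d, kr ρ x = 1 := by
  refine ⟨Ck d, zero_lt_one.trans_le (one_le_Ck d), fun ρ hρ => ⟨(kr_contDiff ρ).continuous,
    fun x => ⟨kr_nonneg hρ x, (kr_le hρ x).1⟩, fun x hx => (kr_zero hρ hx).1, fun x x' => ?_,
    (kr_integral hρ).2⟩⟩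
  exact convex_univ.norm_image_sub_le_of_norm_fderiv_le (𝕜 := ℝ) (f := (kr ρ : E d → ℝ))
    (fun z _ => (kr_contDiff ρ).differentiable (by simp) z) (fun z _ => (kr_le hρ z).2.1)
    (mem_univ x') (mem_univ x)

theorem mass_le (h : CV D 0 R δ M) : D.m.real univ ≤ 3 ^ d * M ∧ 0 ≤ M := by
  exact ⟨h.mass_le, h.M_nonneg⟩

theorem cyl_mass (h : CV D 0 R δ M) {v : E d} {σ : ℝ} (hσ : 0 < σ)
    (hy : ∀ᵐ a ∂D.m, a ∈ D.cyl v σ → ‖D.y a‖ < σ) : D.m.real (D.cyl v σ) ≤ M * σ ^ d := by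
  exact h.cyl_le hσ hy

theorem en_facts (h : CV D 0 R δ M) : Integrable D.en D.m ∧ (∀ᵐ a ∂D.m, 0 ≤ D.en a) ∧
    (∀ c σ, MeasurableSet (D.cyl c σ)) ∧ ∀ c σ, 0 ≤ D.En c σ := by
  exact ⟨h.integrable_t.2.2.2.1, h.pw_av.mono fun a ha => ha.facts_av.1, h.meas_cyl,
    fun c σ => (h.nonneg c σ).2.2.2.1⟩

theorem pair_av (h : CV D 0 R δ M) {g : E d → H} {Λ₀ Λ₁ ρ r σ β : ℝ} (h0 : ∀ x, ‖g x‖ ≤ Λ₀)
    (hΛ : 0 ≤ Λ₁) (h1 : ∀ x x', ‖g x - g x'‖ ≤ Λ₁ * ‖x - x'‖) (hρ : 0 < ρ)
    (hg : ∀ x, r - ρ ≤ ‖x‖ → g x = 0) (hσ : 0 ≤ σ)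
    (hy : ∀ᵐ a ∂D.m, a ∈ D.cyl 0 r → ‖D.y a‖ ≤ σ)
    (hβ : ∫ u in ball (0 : E d) r, ‖D.av ρ D.y u‖ ≤ β) :
    |∫ a, ⟪g (D.x a), D.y a⟫ ∂D.m| ≤ Λ₀ * β + 3 ^ d * M * Λ₁ * ρ * σ := by
  have := h.fin
  have hΛ0 : 0 ≤ Λ₀ := (norm_nonneg _).trans (h0 0)
  have hgc : Continuous g := (LipschitzWith.of_dist_le_mul (K := ⟨Λ₁, hΛ⟩) fun x x' => by
    rw [dist_eq_norm, dist_eq_norm]; exact h1 x x').continuous
  have iy := h.integrable_t.2.2.2.2.2.1
  obtain ⟨s1, s2, s3, -⟩ := h.av_smooth hρ iy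
  have hk : Measurable fun p : E d × α => kr ρ (p.1 - D.x p.2) :=
    (kr_meas_av ρ).comp (measurable_fst.sub (h.m_x.comp measurable_snd))
  have i0 : Integrable (fun p : E d × α => kr ρ (p.1 - D.x p.2) * ‖D.y p.2‖)
      ((volume : Measure (E d)).prod D.m) := by
    refine (integrable_prod_iff' (hk.aestronglyMeasurable.mul iy.norm.1.comp_snd)).2
      ⟨Eventually.of_forall fun a => (kr_shift_av hρ (D.x a)).1.mul_const ‖D.y a‖, ?_⟩
    have e : (fun a => ∫ u : E d, ‖kr ρ (u - D.x a) * ‖D.y a‖‖) = fun a => ‖D.y a‖ := by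
      funext a
      simp only [norm_mul, Real.norm_of_nonneg (kr_nonneg hρ _), norm_norm]
      rw [integral_mul_const, (kr_shift_av hρ (D.x a)).2, one_mul]
    exact e ▸ iy.norm
  have i1 : Integrable (fun p : E d × α => kr ρ (p.1 - D.x p.2) * ⟪g p.1, D.y p.2⟫)
      ((volume : Measure (E d)).prod D.m) := by
    refine (i0.const_mul Λ₀).mono' (hk.mul ((hgc.measurable.comp measurable_fst).inner
      (h.m_y.comp measurable_snd))).aestronglyMeasurable (Eventually.of_forall fun p => ?_)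
    rw [norm_mul, Real.norm_of_nonneg (kr_nonneg hρ _), mul_left_comm]
    exact mul_le_mul_of_nonneg_left ((abs_real_inner_le_norm _ _).trans
      (mul_le_mul_of_nonneg_right (h0 _) (norm_nonneg _))) (kr_nonneg hρ _)
  have e1 : ∫ v, ⟪g v, D.av ρ D.y v⟫ = ∫ a, ∫ v, kr ρ (v - D.x a) * ⟪g v, D.y a⟫ ∂volume ∂D.m := by
    rw [← integral_integral_swap (f := fun v a => kr ρ (v - D.x a) * ⟪g v, D.y a⟫) i1]
    refine integral_congr_ae (Eventually.of_forall fun v => ?_)
    have e := integral_inner (𝕜 := ℝ) (s3 v) (g v)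
    simp only [inner_smul_right] at e
    exact e.symm
  have iav : Integrable fun v => ‖D.av ρ D.y v‖ :=
    (s1.continuous.integrable_of_hasCompactSupport s2).norm
  have b1 : ‖∫ v, ⟪g v, D.av ρ D.y v⟫‖ ≤ Λ₀ * β := by
    refine le_trans ?_ (mul_le_mul_of_nonneg_left hβ hΛ0)
    rw [← integral_indicator measurableSet_ball, ← integral_const_mul]
    refine norm_integral_le_of_norm_le ((iav.indicator measurableSet_ball).const_mul _)
      (Eventually.of_forall fun v => ?_)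
    by_cases hv : v ∈ ball (0 : E d) r
    · rw [indicator_of_mem hv]
      exact (abs_real_inner_le_norm _ _).trans (mul_le_mul_of_nonneg_right (h0 _) (norm_nonneg _))
    · rw [indicator_of_notMem hv, hg v (by
        rw [mem_ball_zero_iff, not_lt] at hv
        linarith), inner_zero_left, norm_zero, mul_zero]
  have i2 : Integrable (fun a => ⟪g (D.x a), D.y a⟫) D.m :=
    (iy.norm.const_mul Λ₀).mono' ((hgc.measurable.comp h.m_x).inner h.m_y).aestronglyMeasurable
      (Eventually.of_forall fun a => (abs_real_inner_le_norm _ _).trans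
        (mul_le_mul_of_nonneg_right (h0 _) (norm_nonneg _)))
  have b2 : ‖∫ a, (⟪g (D.x a), D.y a⟫ - ∫ v, kr ρ (v - D.x a) * ⟪g v, D.y a⟫) ∂D.m‖ ≤
      Λ₁ * ρ * σ * D.m.real univ := by
    refine norm_integral_le_of_norm_le_const ?_
    filter_upwards [hy, i1.prod_left_ae] with a ha hi
    obtain ⟨k1, k2⟩ := kr_shift_av hρ (D.x a)
    have e : ⟪g (D.x a), D.y a⟫ - ∫ v, kr ρ (v - D.x a) * ⟪g v, D.y a⟫ =
        ∫ v, kr ρ (v - D.x a) * ⟪g (D.x a) - g v, D.y a⟫ := by
      simp only [inner_sub_left, mul_sub]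
      rw [integral_sub (k1.mul_const _) hi, integral_mul_const, k2, one_mul]
    rw [e]
    refine (norm_integral_le_of_norm_le (k1.mul_const (Λ₁ * ρ * σ))
      (Eventually.of_forall fun v => ?_)).trans (by rw [integral_mul_const, k2, one_mul])
    rw [norm_mul, Real.norm_of_nonneg (kr_nonneg hρ _)]
    by_cases hv : ρ ≤ ‖v - D.x a‖
    · rw [(kr_zero hρ hv).1, zero_mul, zero_mul]
    rw [not_le] at hv
    refine mul_le_mul_of_nonneg_left ?_ (kr_nonneg hρ _)
    by_cases hc : a ∈ D.cyl 0 r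
    · refine (abs_real_inner_le_norm _ _).trans
        (mul_le_mul ((h1 _ _).trans ?_) (ha hc) (norm_nonneg _) (by positivity))
      rw [norm_sub_rev]
      exact mul_le_mul_of_nonneg_left hv.le hΛ
    · have hx : r ≤ ‖D.x a‖ := by
        have : ¬‖D.x a - 0‖ < r := hc
        rwa [sub_zero, not_lt] at this
      have h2 : ‖D.x a‖ ≤ ‖v‖ + ‖v - D.x a‖ := by
        have := norm_sub_le v (v - D.x a)
        rwa [sub_sub_cancel] at this
      rw [hg _ (by linarith), hg v (by linarith), sub_zero, inner_zero_left, norm_zero]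
      positivity
  rw [integral_sub i2 i1.integral_prod_right, ← e1] at b2
  have b3 := mul_le_mul_of_nonneg_left h.mass_le (by positivity : 0 ≤ Λ₁ * ρ * σ)
  rw [Real.norm_eq_abs, abs_le] at b1 b2
  rw [abs_le]
  constructor <;> linarith [b1.1, b1.2, b2.1, b2.2]

theorem one_sub_smul_V6 {X : Type*} [AddCommGroup X] [Module ℝ X] (c : ℝ) (x : X) :
    (1 - c) • x = x - c • x := by
  rw [sub_smul, one_smul]

theorem mult_int (h : CV D 0 R δ M) (hδ : δ ≤ 1) {X : Type*} [NormedAddCommGroup X]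
    [NormedSpace ℝ X] [FiniteDimensional ℝ X] {f : E d → X} (hf : Continuous f) {Λ r R₁ b : ℝ}
    (hΛ : ∀ x, ‖f x‖ ≤ Λ) (hr : r ≤ R₁) (h0 : ∀ x, r ≤ ‖x‖ → f x = 0) {N : E d → ℕ} {Q : ℕ}
    (hN : IsMult (D.resB 0 R₁).m D.x D.j N)
    (hb : ∫ v in ball (0 : E d) r, |(N v : ℝ) - Q| ≤ b) :
    ‖∫ a, f (D.x a) ∂D.m - (Q : ℝ) • ∫ v, f v‖ ≤ Λ * (b + (d + 1) * D.En 0 R₁) := by
  have := h.fin
  have := FiniteDimensional.complete ℝ X
  have hΛ0 : 0 ≤ Λ := (norm_nonneg _).trans (hΛ 0)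
  have hm := h.meas_cyl 0 R₁
  set μ := D.m.restrict (D.cyl 0 R₁) with hμ
  have hN' : IsMult μ D.x D.j N := hN
  have hj : Measurable fun a => ENNReal.ofReal (D.j a) := h.m_j.ennreal_ofReal
  have e0 : Measure.map D.x (μ.withDensity fun a => ENNReal.ofReal (D.j a)) =
      volume.withDensity fun v => (N v : ℝ≥0∞) := by
    refine Measure.ext_of_lintegral _ fun φ hφ => ?_
    have hφ' : Measurable fun a => φ (D.x a) := hφ.comp h.m_x
    rw [lintegral_map hφ h.m_x, lintegral_withDensity_eq_lintegral_mul _ hj hφ',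
      lintegral_withDensity_eq_lintegral_mul _ hN'.meas'_base2 hφ]
    simp only [Pi.mul_apply, mul_comm]
    have := hN'.2 φ hφ
    simpa only [mul_comm] using this
  have hp : ∀ᵐ a ∂μ, PW D δ a := ae_restrict_of_ae h.pw_av
  have e1 : ∫ a, D.j a • f (D.x a) ∂μ = ∫ v, (N v : ℝ) • f v := by
    have h1 : ∫ v, f v ∂(Measure.map D.x (μ.withDensity fun a => ENNReal.ofReal (D.j a))) =
        ∫ v, f v ∂(volume.withDensity fun v => (N v : ℝ≥0∞)) := by rw [e0]
    rw [integral_map h.m_x.aemeasurable hf.aestronglyMeasurable,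
      integral_withDensity_eq_integral_toReal_smul hj
        (Eventually.of_forall fun _ => ENNReal.ofReal_lt_top),
      integral_withDensity_eq_integral_toReal_smul hN'.meas'_base2
        (Eventually.of_forall fun v => ENNReal.natCast_lt_top _)] at h1
    simp only [ENNReal.toReal_natCast] at h1
    rw [← h1]
    refine integral_congr_ae (hp.mono fun a ha => ?_)
    simp only [ENNReal.toReal_ofReal ha.j_nonneg]
  have ij : Integrable D.j μ := h.integrable_j_base2.integrableOn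
  have iN : Integrable fun v => (N v : ℝ) := by
    refine ⟨hN'.meas_base2.aestronglyMeasurable, ?_⟩
    have h1 := hN'.2 (fun _ => 1) measurable_const
    simp only [one_mul] at h1
    have h2 : ∫⁻ a, ENNReal.ofReal (D.j a) ∂μ < ⊤ := ij.lintegral_lt_top
    rw [h1] at h2
    rw [hasFiniteIntegral_iff_ofReal (Eventually.of_forall fun u => Nat.cast_nonneg (N u))]
    simpa only [ENNReal.ofReal_natCast] using h2
  have hfx : AEStronglyMeasurable (fun a => f (D.x a)) μ :=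
    (hf.stronglyMeasurable.comp_measurable h.m_x).aestronglyMeasurable
  have i1 : Integrable (fun a => f (D.x a)) μ :=
    Integrable.of_bound hfx Λ (Eventually.of_forall fun a => hΛ _)
  have i2 : Integrable (fun a => D.j a • f (D.x a)) μ :=
    ij.smul_bdd Λ hfx (Eventually.of_forall fun a => hΛ _)
  have i3 : Integrable f := hf.integrable_of_hasCompactSupport
    (HasCompactSupport.intro (isCompact_closedBall (0 : E d) r) fun v hv =>
      h0 v (le_of_lt (by simpa using hv)))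
  have i4 : Integrable fun v => (N v : ℝ) • f v :=
    iN.smul_bdd Λ hf.aestronglyMeasurable (Eventually.of_forall hΛ)
  have e2 : ∫ a, f (D.x a) ∂D.m = ∫ a, f (D.x a) ∂μ := by
    refine (setIntegral_eq_integral_of_forall_compl_eq_zero fun a ha => h0 _ ?_).symm
    have : ¬‖D.x a - 0‖ < R₁ := ha
    rw [sub_zero, not_lt] at this
    linarith
  have ien : Integrable D.en μ := h.integrable_t.2.2.2.1.integrableOn
  have b1 : ‖∫ a, (f (D.x a) - D.j a • f (D.x a)) ∂μ‖ ≤ Λ * ((d + 1) * D.En 0 R₁) := by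
    refine (norm_integral_le_of_norm_le ((ien.const_mul (d + 1)).const_mul Λ)
      (hp.mono fun a ha => ?_)).trans (by rw [integral_const_mul, integral_const_mul]; rfl)
    have h1 := (ha.bounds h.δ_nonneg).2.2.2
    have h2 : |1 - D.j a| ≤ (d + 1) * D.en a := by
      have h3 := ha.t_nonneg
      have h4 := sq_nonneg ‖D.y a‖
      have h5 : (0 : ℝ) ≤ d := Nat.cast_nonneg d
      have h6 := mul_le_mul_of_nonneg_right hδ h4
      unfold CD.en
      nlinarith [mul_nonneg h5 h3, mul_nonneg h5 h4]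
    rw [← one_sub_smul_V6, norm_smul, mul_comm]
    exact mul_le_mul (hΛ _) h2 (norm_nonneg _) hΛ0
  have iB : IntegrableOn (fun v => |(N v : ℝ) - Q|) (ball (0 : E d) r) :=
    (iN.integrableOn.sub (integrableOn_const measure_ball_lt_top.ne)).abs
  have b2 : ‖∫ v, ((N v : ℝ) • f v - (Q : ℝ) • f v)‖ ≤ Λ * b := by
    refine le_trans ?_ (mul_le_mul_of_nonneg_left hb hΛ0)
    rw [← integral_indicator measurableSet_ball, ← integral_const_mul]
    refine norm_integral_le_of_norm_le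
      (((integrable_indicator_iff measurableSet_ball).2 iB).const_mul _)
      (Eventually.of_forall fun v => ?_)
    by_cases hv : v ∈ ball (0 : E d) r
    · rw [indicator_of_mem hv, ← sub_smul, norm_smul, mul_comm]
      exact mul_le_mul_of_nonneg_right (hΛ v) (abs_nonneg _)
    · rw [indicator_of_notMem hv, h0 v (by rwa [mem_ball_zero_iff, not_lt] at hv)]
      simp
  rw [integral_sub i1 i2, e1] at b1
  have i5 : Integrable fun v => (Q : ℝ) • f v := i3.smul (Q : ℝ)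
  rw [integral_sub i4 i5, integral_smul] at b2
  rw [e2, mul_add]
  exact (norm_sub_le_norm_sub_add_norm_sub _ (∫ v, (N v : ℝ) • f v) _).trans (by linarith)

end Pool.Agent.Lib.MP_8daebb_an.GM.Ch
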