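import Pool.Agent.Lib.MP_8daebb_an.GM.Wi8
import Pool.Agent.Lib.MP_8daebb_an.GM.Wi5
import Pool.Agent.Lib.MP_8daebb_an.GM.V6

/-! A smooth density for a vector measure. -/

open MeasureTheory Metric Set Filter Topology
open scoped RealInnerProductSpace ContDiff ENNReal

namespace Pool.Agent.Lib.MP_8daebb_an.GM.Ch

variable {d n : ℕ} {α : Type*} [MeasurableSpace α]

theorem exists_perv {φ : E d → E n} (hφ : ContDiff ℝ ∞ φ)
    (hs : ∀ x, x ∉ ball (0 : E d) (14 / 5) → φ x = 0) :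
    ∃ b : E d → E n, (∀ m, Wv m b) ∧ ∀ x ∈ ocube d, b x = φ x := by
  have h : ∀ i, (∀ m, W m (per fun x => co (E n) i (φ x))) ∧
      ∀ x ∈ ocube d, per (fun x => co (E n) i (φ x)) x = co (E n) i (φ x) := fun i =>
    W_per_smooth ((co (E n) i).contDiff.comp hφ) fun x hx => by rw [hs x hx, map_zero]
  refine ⟨fun x => ∑ i, per (fun x => co (E n) i (φ x)) x • Module.finBasis ℝ (E n) i,
    fun m => Wv.finsum _ fun i _ => Wv.smul ((h i).1 m) (Wv_const _), fun x hx => ?_⟩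
  rw [← sum_co (φ x)]
  exact Finset.sum_congr rfl fun i _ => by rw [(h i).2 x hx]

theorem exists_quant_V7 {ρ : ℝ} (hρ : 0 < ρ) : ∃ (q : E d → E d) (t : Finset (E d)),
    Measurable q ∧ (∀ x, q x ∈ t) ∧ (∀ y ∈ t, ‖y‖ ≤ 13 / 5) ∧
      ∀ x, ‖x‖ ≤ 13 / 5 → ‖q x - x‖ ≤ ρ := by
  obtain ⟨s, hs, hf, hc⟩ := (isCompact_closedBall (0 : E d) (13 / 5)).finite_cover_balls hρ
  have hne : s.Nonempty := by
    obtain ⟨y, hy, -⟩ := mem_iUnion₂.1 (hc (mem_closedBall_self (by norm_num)))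
    exact ⟨y, hy⟩
  obtain ⟨e, he⟩ := hf.countable.exists_eq_range hne
  have hk : ∀ y : E d, ∃ k, y ∈ s → e k = y := fun y => by
    by_cases hy : y ∈ s
    · rw [he] at hy
      obtain ⟨k, hk⟩ := hy
      exact ⟨k, fun _ => hk⟩
    · exact ⟨0, fun h => absurd h hy⟩
  choose k hk using hk
  refine ⟨SimpleFunc.nearestPt e (hf.toFinset.sup k), hf.toFinset, SimpleFunc.measurable _,
    fun x => ?_, fun y hy => ?_, fun x hx => ?_⟩
  · exact hf.mem_toFinset.2 (he.ge ⟨_, rfl⟩)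
  · exact mem_closedBall_zero_iff.1 (hs (hf.mem_toFinset.1 hy))
  · obtain ⟨y, hy, hxy⟩ := mem_iUnion₂.1 (hc (mem_closedBall_zero_iff.2 hx))
    have h1 := SimpleFunc.edist_nearestPt_le e x (Finset.le_sup (f := k) (hf.mem_toFinset.2 hy))
    rw [hk y hy, edist_dist, edist_dist, ENNReal.ofReal_le_ofReal_iff dist_nonneg] at h1
    rw [← dist_eq_norm]
    exact h1.trans (mem_ball'.1 hxy).le

theorem exists_ker_V7 {ρ : ℝ} (hρ : 0 < ρ) (y : E d) : ∃ k : E d → ℝ, ContDiff ℝ ∞ k ∧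
    (∀ x, ρ ≤ ‖x - y‖ → k x = 0) ∧ ∀ (f : E d → E n) (Λ : ℝ), 0 ≤ Λ →
      (∀ x x', ‖f x - f x'‖ ≤ Λ * ‖x - x'‖) →
      Integrable (fun x => k x • f x) ∧ ‖(∫ x, k x • f x) - f y‖ ≤ Λ * ρ := by
  let b : ContDiffBump y := ⟨ρ / 2, ρ, by positivity, by linarith⟩
  have h0 : ∀ x, ρ ≤ ‖x - y‖ → b.normed volume x = 0 := fun x hx => by
    rw [← Function.notMem_support, b.support_normed_eq, mem_ball_iff_norm, not_lt]
    exact hx
  refine ⟨b.normed volume, b.contDiff_normed, h0, fun f Λ hΛ hf => ?_⟩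
  have hc : Continuous f := (LipschitzWith.of_dist_le' (K := Λ) fun x x' => by
    rw [dist_eq_norm, dist_eq_norm]
    exact hf x x').continuous
  have hi : Integrable fun x => b.normed volume x • f x :=
    (b.continuous_normed.smul hc).integrable_of_hasCompactSupport
      b.hasCompactSupport_normed.smul_right
  refine ⟨hi, ?_⟩
  rw [← b.integral_normed_smul (μ := volume) (f y), ← integral_sub hi
    (b.integrable_normed.smul_const _)]
  refine (norm_integral_le_of_norm_le (b.integrable_normed.mul_const (Λ * ρ))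
    (Eventually.of_forall fun x => ?_)).trans_eq ?_
  · rw [← smul_sub, norm_smul, Real.norm_of_nonneg (b.nonneg_normed x)]
    rcases le_total ρ ‖x - y‖ with hx | hx
    · rw [h0 x hx, zero_mul, zero_mul]
    · exact mul_le_mul_of_nonneg_left ((hf x y).trans (mul_le_mul_of_nonneg_left hx hΛ))
        (b.nonneg_normed x)
  · rw [integral_mul_const, b.integral_normed, one_mul]

theorem exists_dens (ν : Measure α) [IsFiniteMeasure ν] {X : α → E d} (hX : Measurable X)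
    {ξ : α → E n} (hξ : Integrable ξ ν) (h : ∀ᵐ a ∂ν, ξ a ≠ 0 → ‖X a‖ ≤ 13 / 5) {τ : ℝ}
    (hτ : 0 < τ) : ∃ b : E d → E n, (∀ m, Wv m b) ∧ ∀ (f : E d → E n) (Λ : ℝ), 0 ≤ Λ →
      (∀ x x', ‖f x - f x'‖ ≤ Λ * ‖x - x'‖) →
      |(∫ x in cube d, ⟪f x, b x⟫) - ∫ a, ⟪f (X a), ξ a⟫ ∂ν| ≤ τ * Λ := by
  classical
  have hI : 0 ≤ ∫ a, ‖ξ a‖ ∂ν := integral_nonneg fun a => norm_nonneg _
  obtain ⟨ρ, hρ, hρ1, hρ2⟩ : ∃ ρ : ℝ, 0 < ρ ∧ ρ ≤ 1 / 10 ∧ 2 * ρ * ∫ a, ‖ξ a‖ ∂ν ≤ τ := by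
    refine ⟨min (1 / 10) (τ / (2 * (∫ a, ‖ξ a‖ ∂ν + 1))), lt_min (by norm_num) (by positivity),
      min_le_left _ _, ?_⟩
    have h1 := (le_div_iff₀ (by positivity)).1
      (min_le_right (1 / 10) (τ / (2 * (∫ a, ‖ξ a‖ ∂ν + 1))))
    have h2 : 0 < min (1 / 10) (τ / (2 * (∫ a, ‖ξ a‖ ∂ν + 1))) :=
      lt_min (by norm_num) (by positivity)
    nlinarith
  obtain ⟨q, t, hq, hqt, ht, hqx⟩ := exists_quant_V7 (d := d) hρ
  choose k k1 k2 k3 using fun y : E d => exists_ker_V7 (n := n) hρ y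
  have hS : ∀ y, Integrable (((q ∘ X) ⁻¹' {y}).indicator ξ) ν := fun y =>
    hξ.indicator ((hq.comp hX) (measurableSet_singleton y))
  set m : E d → E n := fun y => ∫ a, ((q ∘ X) ⁻¹' {y}).indicator ξ a ∂ν with hm
  have hz : ∀ x, x ∉ ball (0 : E d) (14 / 5) → ∑ y ∈ t, k y x • m y = 0 := fun x hx => by
    refine Finset.sum_eq_zero fun y hy => ?_
    rw [mem_ball_zero_iff, not_lt] at hx
    have h1 := norm_sub_norm_le x y
    rw [k2 y x (by linarith [ht y hy]), zero_smul]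
  obtain ⟨b, hb, hbφ⟩ := exists_perv (φ := fun x => ∑ y ∈ t, k y x • m y)
    (ContDiff.sum fun y _ => (k1 y).smul contDiff_const) hz
  refine ⟨b, hb, fun f Λ hΛ hf => ?_⟩
  have hc : Continuous f := (LipschitzWith.of_dist_le' (K := Λ) fun x x' => by
    rw [dist_eq_norm, dist_eq_norm]
    exact hf x x').continuous
  set g : E d → E n := fun y => ∫ x, k y x • f x with hg
  have e1 : ∫ x in cube d, ⟪f x, b x⟫ = ∑ y ∈ t, ⟪g y, m y⟫ := by
    rw [← setIntegral_congr_set ocube_ae_eq_cube,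
      setIntegral_congr_fun isOpen_ocube.measurableSet
        (g := fun x => ⟪f x, ∑ y ∈ t, k y x • m y⟫) fun x hx => by simp only [hbφ x hx],
      setIntegral_eq_integral_of_forall_compl_eq_zero fun x hx => by
        rw [hz x fun hx' => hx (ball_subset_ocube (ball_subset_ball (by norm_num) hx')),
          inner_zero_right]]
    have e : ∀ x, ⟪f x, ∑ y ∈ t, k y x • m y⟫ = ∑ y ∈ t, ⟪m y, k y x • f x⟫ := fun x => by
      rw [inner_sum]
      exact Finset.sum_congr rfl fun y _ => by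
        rw [real_inner_smul_right, real_inner_smul_right, real_inner_comm]
    simp only [e]
    rw [integral_finsetSum _ fun y _ => (k3 y f Λ hΛ hf).1.const_inner _]
    exact Finset.sum_congr rfl fun y _ => by
      rw [integral_inner (k3 y f Λ hΛ hf).1, real_inner_comm]
  have hG : Integrable (fun a => ∑ y ∈ t, ⟪g y, ((q ∘ X) ⁻¹' {y}).indicator ξ a⟫) ν :=
    integrable_finsetSum _ fun y _ => (hS y).const_inner _
  have e2 : ∑ y ∈ t, ⟪g y, m y⟫ =
      ∫ a, ∑ y ∈ t, ⟪g y, ((q ∘ X) ⁻¹' {y}).indicator ξ a⟫ ∂ν := by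
    rw [integral_finsetSum _ fun y _ => (hS y).const_inner _]
    exact Finset.sum_congr rfl fun y _ => (integral_inner (hS y) _).symm
  have hF : AEStronglyMeasurable (fun a => ⟪f (X a), ξ a⟫) ν :=
    (hc.measurable.comp hX).aestronglyMeasurable.inner hξ.1
  have hD : ∀ᵐ a ∂ν, ‖∑ y ∈ t, ⟪g y, ((q ∘ X) ⁻¹' {y}).indicator ξ a⟫ - ⟪f (X a), ξ a⟫‖ ≤
      2 * ρ * Λ * ‖ξ a‖ := by
    filter_upwards [h] with a ha
    rw [Finset.sum_eq_single (q (X a)) (fun y _ hy => ?_) fun hy => absurd (hqt _) hy,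
      indicator_of_mem (by simp), ← inner_sub_left]
    · by_cases h0 : ξ a = 0
      · simp [h0]
      refine (norm_inner_le_norm _ _).trans (mul_le_mul_of_nonneg_right ?_ (norm_nonneg _))
      have h1 := (k3 (q (X a)) f Λ hΛ hf).2
      have h2 := (hf (q (X a)) (X a)).trans (mul_le_mul_of_nonneg_left (hqx _ (ha h0)) hΛ)
      have h3 := norm_sub_le_norm_sub_add_norm_sub (g (q (X a))) (f (q (X a))) (f (X a))
      linarith
    · rw [indicator_of_notMem (by simpa using hy.symm), inner_zero_right]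
  have hB := hξ.norm.const_mul (2 * ρ * Λ)
  have hD' := hB.mono' (hG.1.sub hF) hD
  have hF' : Integrable (fun a => ⟪f (X a), ξ a⟫) ν :=
    (hG.sub hD').congr (Eventually.of_forall fun a => by simp)
  rw [e1, e2, ← integral_sub hG hF', ← Real.norm_eq_abs]
  refine (norm_integral_le_of_norm_le hB hD).trans ?_
  rw [integral_const_mul]
  nlinarith [mul_le_mul_of_nonneg_right hρ2 hΛ]

end Pool.Agent.Lib.MP_8daebb_an.GM.Ch
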