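import Pool.Agent.Lib.MP_8daebb_an.GM.V9
import Pool.Agent.Lib.MP_8daebb_an.GM.V7

/-! The smooth model of the vertical height. -/

set_option linter.unusedSectionVars false

open MeasureTheory Metric Set Filter Topology
open scoped RealInnerProductSpace ContDiff ENNReal

namespace Pool.Agent.Lib.MP_8daebb_an.GM.Ch

variable {d n : ℕ} {α : Type*} [MeasurableSpace α] {H : Type*} [NormedAddCommGroup H]
  [InnerProductSpace ℝ H] [FiniteDimensional ℝ H] [MeasurableSpace H] [BorelSpace H]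

theorem norm_le_Nw4 {w : E n} {c : ℝ} (hc : 0 ≤ c) (h : ⟪w, w⟫ ≤ c * ‖w‖) : ‖w‖ ≤ c := by
  rw [real_inner_self_eq_norm_sq] at h
  by_contra hn
  have h1 := not_le.1 hn
  nlinarith

theorem cont_Nw4 {k : E d → ℝ} {Λ : ℝ} (h : ∀ x x', |k x - k x'| ≤ Λ * ‖x - x'‖) :
    Continuous k :=
  (LipschitzWith.of_dist_le' (K := Λ) fun x x' => by
    rw [Real.dist_eq, dist_eq_norm]; exact h x x').continuous

theorem int_Nw4 {ν : Measure α} {X : α → E d} (hX : Measurable X) {ξ : α → E n}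
    (hξ : Integrable ξ ν) (h : ∀ a, ξ a ≠ 0 → ‖X a‖ ≤ 13 / 5) {k : E d → ℝ} {Λ : ℝ} (hΛ : 0 ≤ Λ)
    (hk : ∀ x x', |k x - k x'| ≤ Λ * ‖x - x'‖) : Integrable (fun a => k (X a) • ξ a) ν := by
  refine (hξ.norm.const_mul (|k 0| + Λ * (13 / 5))).mono'
    (((cont_Nw4 hk).measurable.comp hX).aestronglyMeasurable.smul hξ.1) (ae_of_all _ fun a => ?_)
  by_cases h0 : ξ a = 0
  · simp [h0]
  · rw [norm_smul, Real.norm_eq_abs]
    refine mul_le_mul_of_nonneg_right ?_ (norm_nonneg _)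
    have h1 := hk (X a) 0
    rw [sub_zero] at h1
    linarith [abs_sub_abs_le_abs_sub (k (X a)) (k 0), mul_le_mul_of_nonneg_left (h a h0) hΛ]

/-- The vector form of the approximation by a smooth density. -/
theorem vec_Nw4 {ν : Measure α} {X : α → E d} {ξ : α → E n} {b : E d → E n} (hb : Continuous b)
    {τ : ℝ} (hτ : 0 ≤ τ) (hd : ∀ (f : E d → E n) (Λ : ℝ), 0 ≤ Λ →
      (∀ x x', ‖f x - f x'‖ ≤ Λ * ‖x - x'‖) →
      |(∫ x in cube d, ⟪f x, b x⟫) - ∫ a, ⟪f (X a), ξ a⟫ ∂ν| ≤ τ * Λ)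
    {k : E d → ℝ} {Λ : ℝ} (hΛ : 0 ≤ Λ) (hk : ∀ x x', |k x - k x'| ≤ Λ * ‖x - x'‖)
    (hi : Integrable (fun a => k (X a) • ξ a) ν) :
    ‖(∫ x in cube d, k x • b x) - ∫ a, k (X a) • ξ a ∂ν‖ ≤ τ * Λ := by
  refine norm_le_Nw4 (mul_nonneg hτ hΛ) ?_
  generalize hw : (∫ x in cube d, k x • b x) - ∫ a, k (X a) • ξ a ∂ν = w
  have h1 := hd (fun x => k x • w) (Λ * ‖w‖) (by positivity) fun x x' => by
    rw [← sub_smul, norm_smul, Real.norm_eq_abs, mul_right_comm]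
    exact mul_le_mul_of_nonneg_right (hk x x') (norm_nonneg _)
  have h2 : ∀ (c : ℝ) (v : E n), ⟪c • w, v⟫ = ⟪w, c • v⟫ := fun c v => by
    rw [real_inner_smul_left, real_inner_smul_right]
  simp only [h2] at h1
  rw [integral_inner (integrableOn_cube (f := fun x => k x • b x) ((cont_Nw4 hk).smul hb)),
    integral_inner hi, ← inner_sub_right, hw, ← mul_assoc] at h1
  exact (le_abs_self _).trans h1

theorem lip_Nw4 {χ f : E d → ℝ} {N : E d → H} {Λ₁ Λ B : ℝ} (h0 : ∀ x, 0 ≤ χ x ∧ χ x ≤ 1)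
    (h1 : ∀ x x', |χ x - χ x'| ≤ Λ₁ * ‖x - x'‖) (hf : ∀ x, |f x| ≤ Λ)
    (hf' : ∀ x x', |f x - f x'| ≤ Λ * ‖x - x'‖) (hN : ∀ x, ‖N x‖ ≤ 2 * B)
    (hN' : ∀ x x', ‖N x - N x'‖ ≤ B * ‖x - x'‖) (x x' : E d) :
    ‖(χ x * f x) • N x‖ ≤ Λ * (2 * B) ∧
      ‖(χ x * f x) • N x - (χ x' * f x') • N x'‖ ≤ (2 * Λ₁ + 3) * Λ * B * ‖x - x'‖ := by
  have a0 : 0 ≤ Λ := (abs_nonneg _).trans (hf x)
  have a1 : ∀ x, |χ x * f x| ≤ Λ := fun x => by
    rw [abs_mul, abs_of_nonneg (h0 x).1]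
    exact (mul_le_of_le_one_left (abs_nonneg _) (h0 x).2).trans (hf x)
  have a2 : |χ x * f x - χ x' * f x'| ≤ Λ₁ * ‖x - x'‖ * Λ + Λ * ‖x - x'‖ := by
    rw [show χ x * f x - χ x' * f x' = (χ x - χ x') * f x + χ x' * (f x - f x') by ring]
    refine (abs_add_le _ _).trans (add_le_add ?_ ?_)
    · rw [abs_mul]
      exact mul_le_mul (h1 x x') (hf x) (abs_nonneg _) ((abs_nonneg _).trans (h1 x x'))
    · rw [abs_mul, abs_of_nonneg (h0 x').1]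
      exact (mul_le_of_le_one_left (abs_nonneg _) (h0 x').2).trans (hf' x x')
  constructor
  · rw [norm_smul, Real.norm_eq_abs]
    exact mul_le_mul (a1 x) (hN x) (norm_nonneg _) a0
  · rw [show (χ x * f x) • N x - (χ x' * f x') • N x' =
      (χ x * f x - χ x' * f x') • N x + (χ x' * f x') • (N x - N x') by
        rw [sub_smul, smul_sub]; abel]
    refine (norm_add_le _ _).trans ?_
    rw [norm_smul, norm_smul, Real.norm_eq_abs, Real.norm_eq_abs]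
    have a3 := mul_le_mul a2 (hN x) (norm_nonneg _) ((abs_nonneg _).trans a2)
    have a4 := mul_le_mul (a1 x') (hN' x x') (norm_nonneg _) a0
    linarith

theorem num_Nw4 {a Cd Λ β T Cχ l ρ s : ℝ} (ha1 : a ≤ Cd) (hCd : 0 ≤ Cd) (hΛ : 0 ≤ Λ) (hβ : 0 ≤ β)
    (hT : 0 ≤ T) (hC : 0 ≤ Cχ) (hl : 0 < l) (hl1 : l ≤ 1) (hρ : s ^ 2 ≤ ρ) :
    a * (Λ * 2 * β + T * (2 * ((2 * (Cχ / l ^ 2) + 3) * Λ)) * ρ * s ^ 2) + s ^ 4 * Λ ≤
      (2 * Cd + 2 * Cd * T * (2 * Cχ + 3) + 1) * (β + s ^ 2 * ρ) / l ^ 2 * Λ := by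
  have s0 := sq_nonneg s
  have ρ0 : 0 ≤ ρ := s0.trans hρ
  set q := 1 / l ^ 2 with hq
  have q1 : 1 ≤ q := (one_le_div (by positivity)).2 (pow_le_one₀ hl.le hl1)
  rw [div_eq_mul_one_div Cχ, div_eq_mul_one_div _ (l ^ 2), ← hq]
  set z := s ^ 2 * ρ with hz
  have z0 : 0 ≤ z := mul_nonneg s0 ρ0
  have b1 : s ^ 4 ≤ z := by rw [hz]; nlinarith [mul_le_mul_of_nonneg_left hρ s0]
  have b2 : β ≤ (β + z) * q := by nlinarith
  have b3 : z ≤ (β + z) * q := by nlinarith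
  have b4 : z * q ≤ (β + z) * q := by nlinarith
  set y := (β + z) * q with hy
  have b5 : 2 * β + T * (2 * (2 * (Cχ * q) + 3)) * z ≤ (2 + 2 * T * (2 * Cχ + 3)) * y := by
    linarith [mul_le_mul_of_nonneg_left b4 (mul_nonneg hT hC), mul_le_mul_of_nonneg_left b3 hT]
  have b6 := mul_le_mul ha1 b5 (by positivity) hCd
  have b7 := mul_le_mul_of_nonneg_right (add_le_add b6 (b1.trans b3)) hΛ
  refine (le_of_eq ?_).trans (b7.trans (le_of_eq ?_))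
  · rw [hz]
    ring
  · rw [hy]
    ring

theorem exists_b (M : ℝ) {Q : ℕ} (hQ : 1 ≤ Q) : ∃ ε₀ C : ℝ, 0 < ε₀ ∧ 0 < C ∧ ∀ (ι : E d →ₗᵢ[ℝ] H)
    (κ : E n →ₗᵢ[ℝ] H) (c : Cen d n) (D : CD d α H) (ε R δ R₁ l s ρ β : ℝ), Spl ι κ →
    Sml (d + 4) c.u ε → ε ≤ ε₀ → Fr c.x₀ c.A → CV D 0 R δ M → Lk D (c.F ι κ) → R₁ ≤ R → 0 < s →
    0 < ρ → s ^ 2 ≤ ρ → ρ ≤ l → 16 * l ≤ R₁ → (∀ x ∈ el c.x₀ c.A R₁, NN c.u x = 0) →
    (∀ᵐ a ∂D.m, a ∈ D.cyl 0 R₁ → ‖D.y a‖ ≤ s ^ 2) → D.En 0 R₁ ≤ s ^ 4 →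
    ∫ u in ball (0 : E d) (R₁ - l), ‖D.av ρ D.y u‖ ≤ β →
    ∃ b : E d → E n, Wv (d + 6) b ∧
      (∀ f : E d → ℝ, W 1 f →
        ‖∫ x in cube d, f x • b x‖ ≤ C * (β + s ^ 2 * ρ) / l ^ 2 * nm 1 f) ∧
      (∀ ψ : E d → E n, Wv 3 ψ → (∀ x ∈ ocube d, x ∉ el c.x₀ c.A (R₁ - 4 * l) → ψ x = 0) →
        |∫ x in cube d, ⟪JT c.u ψ x, b x⟫| ≤ C * s ^ 4 * nv 3 ψ) ∧
      ∀ (k : E d → ℝ) (Λ : ℝ), 0 ≤ Λ → (∀ x x', |k x - k x'| ≤ Λ * ‖x - x'‖) →
        (∀ x, x ∉ el c.x₀ c.A (R₁ - 3 * l) → k x = 0) →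
        ‖(∫ x in cube d, k x • b x) -
          (|c.A.det| / Q) • ∫ a, k (c.pt (D.x a)) • vh ι κ c D a ∂D.m‖ ≤ s ^ 4 * Λ := by
  obtain ⟨Cp, hCp, hpw⟩ := exists_pw (d := d) (n := n)
  obtain ⟨εJ, CJ, hεJ, hCJ, hJ⟩ := JT_le (d := d) (n := n)
  obtain ⟨εw, Cw, hεw, hCw, hw⟩ := weak_eq (d := d) (n := n) (α := α) (H := H)
  obtain ⟨Cχ, hCχ, hχ⟩ := exists_cut0 (d := d) 1
  obtain ⟨Cd, hCd, hdet⟩ := fr_det (d := d)
  obtain ⟨CL, hCL, hL⟩ := lip_of_W (d := d) (X := ℝ)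
  obtain ⟨CV', hCV, hV⟩ := lip_of_W (d := d) (X := E n)
  obtain ⟨CS, hCS, hS⟩ := nv_smul_const (d := d) (X := ℝ)
  set K : ℝ := 2 * Cd + 2 * Cd * (3 ^ d * |M|) * (2 * Cχ + 3) + 1 with hK
  have K0 : 0 < K := by positivity
  refine ⟨min (min εJ εw) (1 / Cp), K * (CL * CS) + (CV' * CJ + Cd * Cw), by positivity,
    by positivity, ?_⟩
  intro ι κ c D ε R δ R₁ l s ρ β hs hu hε hA hv hk hR s0 ρ0 hsρ hρl hl hN hy hE hβ
  simp only [le_min_iff] at hε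
  obtain ⟨⟨e1, e2⟩, e3⟩ := hε
  have := hv.fin
  have l0 : 0 < l := ρ0.trans_le hρl
  have R2 := hv.R_le
  have hp : Pw c.u 1 := (hpw _ _ _ (by omega) hu).mono (by
    rwa [le_div_iff₀ hCp, mul_comm] at e3)
  obtain ⟨m1, m2, m3⟩ := vh_meas (ι := ι) (κ := κ) hv hp le_rfl
  obtain ⟨χ, c1, c2, c3, c4, c5⟩ := hχ c.x₀ c.A (R₁ - 3 * l) l hA (by linarith) l0 (by linarith)
  have c6 : ∀ x x', |χ x - χ x'| ≤ Cχ / l ^ 2 * ‖x - x'‖ := fun x x' =>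
    convex_univ.norm_image_sub_le_of_norm_fderiv_le (𝕜 := ℝ)
      (fun z _ => c1.differentiable (by simp) z)
      (fun z _ => (norm_iteratedFDeriv_one χ).symm.trans_le (c5 1 le_rfl z)) trivial trivial
  set a₀ : ℝ := |c.A.det| / Q with ha₀
  have a0 : 0 ≤ a₀ := by positivity
  have a1 : a₀ ≤ Cd := (div_le_self (abs_nonneg _) (by exact_mod_cast hQ)).trans (hdet _ _ hA).1
  have iv : Integrable (vh ι κ c D) D.m := Integrable.of_bound m1.aestronglyMeasurable 4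
    (hv.ae_G.mono fun a ha => by linarith [m2 a, (hv.pw a ha).y_two])
  have iξ : Integrable (fun a => (a₀ * χ (c.pt (D.x a))) • vh ι κ c D a) D.m :=
    (iv.norm.const_mul a₀).mono'
      (((c1.continuous.measurable.comp m3).const_mul a₀).aestronglyMeasurable.smul iv.1)
      (ae_of_all _ fun a => by
        rw [norm_smul, Real.norm_eq_abs, abs_of_nonneg (mul_nonneg a0 (c2 _).1)]
        exact mul_le_mul_of_nonneg_right (mul_le_of_le_one_right a0 (c2 _).2) (norm_nonneg _))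
  have sξ : ∀ a, (a₀ * χ (c.pt (D.x a))) • vh ι κ c D a ≠ 0 → ‖c.pt (D.x a)‖ ≤ 13 / 5 := by
    intro a ha
    by_contra hc
    refine ha ?_
    rw [c4 _ fun h => hc (mem_ball_zero_iff.1 (hA.el_subset (by linarith) h)).le, mul_zero,
      zero_smul]
  obtain ⟨b, b1, b2⟩ := exists_dens D.m m3 iξ (ae_of_all _ sξ) (pow_pos s0 4)
  have b3 : ∀ {k : E d → ℝ} {Λ : ℝ}, 0 ≤ Λ → (∀ x x', |k x - k x'| ≤ Λ * ‖x - x'‖) →
      ‖(∫ x in cube d, k x • b x) - ∫ a, k (c.pt (D.x a)) •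
        (a₀ * χ (c.pt (D.x a))) • vh ι κ c D a ∂D.m‖ ≤ s ^ 4 * Λ := fun hΛ hk =>
    vec_Nw4 (b1 0).continuous (pow_pos s0 4).le b2 hΛ hk (int_Nw4 m3 iξ sξ hΛ hk)
  refine ⟨b, b1 _, fun f hf => ?_, fun ψ hψ hz => ?_, fun k Λ hΛ hk hz => ?_⟩
  · obtain ⟨f1, f2⟩ := hL f (Wv_real.2 hf)
    have f3 : CL * nv 1 f ≤ CL * CS * nm 1 f := by
      have h1 := hS 1 1 f
      simp only [smul_eq_mul, mul_one, norm_one] at h1
      rw [mul_assoc]
      exact mul_le_mul_of_nonneg_left h1 hCL.le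
    have f4 : 0 ≤ CL * nv 1 f := mul_nonneg hCL.le (nv_nonneg _ _)
    have β0 : 0 ≤ β := (integral_nonneg fun u => norm_nonneg _).trans hβ
    have M0 := (mass_le hv).2
    have f5 : ‖∫ a, f (c.pt (D.x a)) • (a₀ * χ (c.pt (D.x a))) • vh ι κ c D a ∂D.m‖ ≤
        a₀ * (CL * nv 1 f * 2 * β +
          3 ^ d * |M| * (2 * ((2 * (Cχ / l ^ 2) + 3) * (CL * nv 1 f))) * ρ * s ^ 2) := by
      refine norm_le_Nw4 (by positivity) ?_
      nth_rewrite 1 [← integral_inner (int_Nw4 m3 iξ sξ f4 f2)]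
      generalize (∫ a, f (c.pt (D.x a)) • (a₀ * χ (c.pt (D.x a))) • vh ι κ c D a ∂D.m) = e
      have g0 := lip_Nw4 (N := fun x => nf ι κ (d1 c.u x) e) (B := ‖e‖) c2 c6 f1 f2
        (fun x => ((nf ι κ _).le_opNorm e).trans (mul_le_mul_of_nonneg_right
          (by linarith [(DD_sub (ι := ι) (κ := κ) (d1 c.u x) 0).2.2.2.1, hp.n1 x])
          (norm_nonneg _)))
        (fun x x' => by
          rw [← _root_.sub_apply, mul_comm]
          refine (ContinuousLinearMap.le_opNorm _ e).trans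
            (mul_le_mul_of_nonneg_right ?_ (norm_nonneg _))
          linarith [(DD_sub (ι := ι) (κ := κ) (d1 c.u x) (d1 c.u x')).2.1, (hp.lip x x').2.1])
      have g1 := pair_av hv (r := R₁ - l)
        (Λ₁ := 2 * ((2 * (Cχ / l ^ 2) + 3) * (CL * nv 1 f) * ‖e‖))
        (g := fun z => (χ (c.pt z) * f (c.pt z)) • nf ι κ (d1 c.u (c.pt z)) e)
        (fun z => (g0 _ 0).1) (by positivity) (fun z z' => by
          refine (g0 _ _).2.trans ?_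
          rw [mul_comm 2 (_ * ‖e‖), mul_assoc _ 2]
          refine mul_le_mul_of_nonneg_left ?_ (by positivity)
          rw [Cen.pt, Cen.pt, add_sub_add_left_eq_sub, ← map_sub]
          linarith [(hA.inv.2.2.2.2.1 (z - z')).2, norm_nonneg (z - z')]) ρ0 (fun z hz => by
          rw [c4 (c.pt z) fun h => ?_, zero_mul, zero_smul]
          linarith [mem_ball_zero_iff.1 (hA.mem_el.1 h)]) (sq_nonneg s)
        (hy.mono fun a ha h => ha (lt_of_lt_of_le h (sub_le_self R₁ l0.le))) hβ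
      have g2 : ∀ a, ⟪e, f (c.pt (D.x a)) • (a₀ * χ (c.pt (D.x a))) • vh ι κ c D a⟫ =
          a₀ * ⟪(χ (c.pt (D.x a)) * f (c.pt (D.x a))) • nf ι κ (d1 c.u (c.pt (D.x a))) e,
            D.y a⟫ := fun a => by
        rw [real_inner_smul_right, real_inner_smul_right, real_inner_smul_left, vh,
          inner_ad_right]
        ring
      simp only [g2]
      rw [integral_const_mul, abs_of_nonneg M0, mul_assoc a₀]
      exact mul_le_mul_of_nonneg_left ((le_abs_self _).trans (g1.trans (le_of_eq (by ring)))) a0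
    have f6 := num_Nw4 (T := 3 ^ d * |M|) a1 hCd.le f4 β0 (by positivity) hCχ.le l0
      (by linarith) hsρ
    have f7 : 0 ≤ (β + s ^ 2 * ρ) / l ^ 2 := by positivity
    have f8 := mul_le_mul_of_nonneg_left f3 (mul_nonneg K0.le f7)
    have f9 : 0 ≤ (CV' * CJ + Cd * Cw) * ((β + s ^ 2 * ρ) / l ^ 2) * nm 1 f :=
      mul_nonneg (by positivity) (nm_nonneg _ _)
    rw [← hK, mul_div_assoc] at f6
    rw [mul_div_assoc]
    linarith [norm_sub_norm_le (∫ x in cube d, f x • b x)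
      (∫ a, f (c.pt (D.x a)) • (a₀ * χ (c.pt (D.x a))) • vh ι κ c D a ∂D.m), b3 f4 f2]
  · obtain ⟨j1, j2⟩ := hJ (d + 4) 1 c.u ψ ε hu e1 (by omega) hψ
    have j3 : nv 1 (JT c.u ψ) ≤ CJ * nv 3 ψ := j2
    have n0 := nv_nonneg 3 ψ
    have j4 := b2 (JT c.u ψ) _ (mul_nonneg hCV.le (nv_nonneg _ _)) (hV _ j1).2
    have j5 := hw ι κ c D ε R δ M R₁ (4 * l) (s ^ 2) ψ hs hu e2 hA hv hk hR (by linarith)
      (by linarith) (by linarith) hN hy hψ hz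
    have j6 : ∫ a, ⟪JT c.u ψ (c.pt (D.x a)), (a₀ * χ (c.pt (D.x a))) • vh ι κ c D a⟫ ∂D.m =
        a₀ * ∫ a, ⟪JT c.u ψ (c.pt (D.x a)), vh ι κ c D a⟫ ∂D.m := by
      rw [← integral_const_mul]
      refine integral_congr_ae (hv.car.mono fun a ha => ?_)
      by_cases h : c.pt (D.x a) ∈ el c.x₀ c.A (R₁ - 3 * l)
      · simp only [c3 _ h, mul_one, real_inner_smul_right]
      · have h1 : c.pt (D.x a) ∈ ocube d := ball_subset_ocube (ball_subset_ball (by norm_num)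
          (hA.el_subset (by linarith) (hA.mem_el.2 ha)))
        have h2 : IsOpen {x : E d | R₁ - 4 * l < ‖Ring.inverse c.A (x - c.x₀)‖} :=
          isOpen_lt continuous_const (by fun_prop)
        have h3 : ψ =ᶠ[𝓝 (c.pt (D.x a))] fun _ => 0 := by
          filter_upwards [isOpen_ocube.mem_nhds h1,
            h2.mem_nhds (lt_of_lt_of_le (show R₁ - 4 * l < R₁ - 3 * l by linarith)
              (not_lt.1 h))] with x x1 x2
          exact hz x x1 (not_lt.2 (le_of_lt x2))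
        simp only [(JT_zero c.u h3).2, inner_zero_left, mul_zero]
    have j7 : |a₀ * ∫ a, ⟪JT c.u ψ (c.pt (D.x a)), vh ι κ c D a⟫ ∂D.m| ≤
        Cd * (Cw * nv 3 ψ * s ^ 4) := by
      rw [abs_mul, abs_of_nonneg a0]
      exact mul_le_mul a1 (j5.trans (mul_le_mul_of_nonneg_left hE (by positivity)))
        (abs_nonneg _) hCd.le
    have j8 := mul_le_mul_of_nonneg_left (mul_le_mul_of_nonneg_left j3 hCV.le) (pow_pos s0 4).le
    have j9 : 0 ≤ K * (CL * CS) * s ^ 4 * nv 3 ψ := by positivity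
    rw [j6] at j4
    linarith [abs_sub_abs_le_abs_sub (∫ x in cube d, ⟪JT c.u ψ x, b x⟫)
      (a₀ * ∫ a, ⟪JT c.u ψ (c.pt (D.x a)), vh ι κ c D a⟫ ∂D.m)]
  · have k1 : ∀ a, k (c.pt (D.x a)) • (a₀ * χ (c.pt (D.x a))) • vh ι κ c D a =
        a₀ • k (c.pt (D.x a)) • vh ι κ c D a := fun a => by
      by_cases h : c.pt (D.x a) ∈ el c.x₀ c.A (R₁ - 3 * l)
      · rw [c3 _ h, mul_one, smul_comm]
      · rw [hz _ h, zero_smul, zero_smul, smul_zero]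
    have k2 := b3 hΛ hk
    simp only [k1] at k2
    rwa [integral_smul] at k2

end Pool.Agent.Lib.MP_8daebb_an.GM.Ch
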