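import Pool.Agent.Lib.MP_8daebb_an.GM.OdeA

/-! One stage of the frequency function with a one-sided defect bound. -/

open Set

namespace Pool.Agent.Lib.MP_8daebb_an.GM

variable {h E d : ℝ → ℝ} {e C : ℝ}

theorem logk_odes {K x : ℝ} (hK : 0 < K) (hx : 0 < x) :
    Real.log (x * (1 + 1 / K) / x) ≤ 1 / K := by
  rw [mul_div_cancel_left₀ _ hx.ne']
  linarith [Real.log_le_sub_one_of_pos (show 0 < 1 + 1 / K by positivity)]

/-- Doubling of `h` on a range where the frequency is at most `K`. -/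
theorem dbl_odes {K x r lo : ℝ} (hC : 0 ≤ C) (he : 0 ≤ e) (hx : 0 < x) (hr : r ≤ 1)
    (hK : 6 + 6 * C ≤ K) (hlo : e ≤ lo)
    (H : ∀ s, x ≤ s → s ≤ r → IdAt h E d e C s ∧ 2 * E s ≤ K * h s ∧ lo ≤ h s - E s / K) :
    ∀ s t, x ≤ s → s ≤ t → t ≤ r → h t ≤ 2 * (h t - E t / K) ∧
      h t - E t / K ≤ Real.exp (3 * K * Real.log (t / s)) * (h s - E s / K) := fun s t h1 h2 h3 => by
  have K0 : 0 < K := by linarith
  constructor
  · have a1 := (H t (h1.trans h2) h3).2.1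
    have a2 : E t / K ≤ h t / 2 := by rw [div_le_iff₀ K0]; linarith
    linarith
  · exact grow_odea (f := fun s => h s - E s / K) (hx.trans_le h1) h2 fun u u1 u2 => by
      obtain ⟨a1, a2, a3⟩ := H u (h1.trans u1) (u2.trans h3)
      exact a1.xgrow hC he (hx.trans_le (h1.trans u1)) ((u2.trans h3).trans hr) hK a2 (hlo.trans a3)

/-- The barrier. -/
theorem barrier_odes {K B x r lo w dl : ℝ} (hC : 0 ≤ C) (he : 0 ≤ e) (hx : 0 < x) (hxr : x ≤ r)
    (hr : r ≤ 1) (hB : 6 + 6 * C ≤ B) (hBK : B ≤ K) (hlo : 0 < lo) (hw : 0 ≤ w) (hw1 : w ≤ 1)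
    (hdl : 0 ≤ dl) (hdl1 : dl ≤ 1 / 2) (hel : e ≤ w * lo)
    (H : ∀ s, x ≤ s → s ≤ r → IdAt h E d e C s ∧ 2 * E s ≤ K * h s ∧ lo ≤ h s - E s / K)
    (H1 : ∀ s, x ≤ s → s ≤ r → h s ≤ 1 ∧ (h (s * (1 + 1 / K)) ≤ 81 * K * h s → lo ≤ h s →
      2 * E s - d s ≤ dl * d s + (w + C * s) * h s))
    (H2 : ∀ s, r ≤ s → s ≤ r * (1 + 1 / K) → h s ≤ 2 * K * h r) (hf : 2 * E r ≤ B * h r) :
    2 * E x ≤ B * Real.exp (6 * C * (r - x) + (4 * w * Real.log (r / x) - dl * Real.log lo)) *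
      h x := by
  have K0 : 0 < K := by linarith
  have K1 : 1 ≤ K := by linarith
  have B0 : 0 < B := by linarith
  have hel' : e ≤ lo := hel.trans (mul_le_of_le_one_left hlo.le hw1)
  have hD := dbl_odes hC he hx hr (hB.trans hBK) hel' H
  have lo1 : Real.log lo ≤ 0 ∨ 1 < lo := by
    rcases le_or_gt lo 1 with k | k
    · exact Or.inl (Real.log_nonpos hlo.le k)
    · exact Or.inr k
  have l0 : 0 ≤ Real.log (r / x) := Real.log_nonneg ((one_le_div hx).2 hxr)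
  have lo2 : Real.log lo ≤ 0 ∨ E x < 0 := by
    rcases lo1 with k | k
    · exact Or.inl k
    · refine Or.inr (not_le.1 fun k2 => ?_)
      linarith [(H x le_rfl hxr).2.2, (H1 x le_rfl hxr).1, div_nonneg k2 K0.le]
  by_cases h0 : 2 * E x ≤ B * h x
  · rcases lo2 with k | k
    · refine h0.trans (mul_le_mul_of_nonneg_right (le_mul_of_one_le_right B0.le
        (Real.one_le_exp ?_)) (H x le_rfl hxr).1.1)
      have := mul_nonneg hdl (neg_nonneg.2 k)
      have := mul_nonneg hw l0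
      have := mul_nonneg hC (sub_nonneg.2 hxr)
      linarith
    · have := mul_nonneg (mul_pos B0 (Real.exp_pos (6 * C * (r - x) +
        (4 * w * Real.log (r / x) - dl * Real.log lo)))).le (H x le_rfl hxr).1.1
      linarith
  obtain ⟨c, c1, c2, c3, c4⟩ := first_odea (f := fun s => B * h s - 2 * E s) (v := 0) hxr
    (fun s hs => (((H s hs.1 hs.2).1.cont.1.const_mul B).sub
      ((H s hs.1 hs.2).1.cont.2.const_mul 2)).continuousWithinAt)
    (by linarith [not_le.1 h0]) (by linarith)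
  have hE : ∀ s, x ≤ s → s ≤ c → B * h s ≤ 2 * E s ∧ lo ≤ h s ∧ h s - E s / K ≤ h s :=
    fun s s1 s2 => by
      have a1 : B * h s ≤ 2 * E s := by linarith [c4 s s1 s2]
      have a2 : 0 ≤ E s / K :=
        div_nonneg (by linarith [mul_nonneg B0.le (H s s1 (s2.trans c2)).1.1]) K0.le
      exact ⟨a1, by linarith [(H s s1 (s2.trans c2)).2.2], by linarith⟩
  have e3 : Real.exp 3 ≤ 81 / 4 := by
    have : Real.exp 3 = Real.exp 1 ^ 3 := by rw [← Real.exp_nat_mul]; norm_num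
    rw [this]
    exact (pow_le_pow_left₀ (Real.exp_pos _).le Real.exp_one_lt_d9.le 3).trans (by norm_num)
  have hS : ∀ s, x ≤ s → s ≤ c → h (s * (1 + 1 / K)) ≤ 81 * K * h s := fun s s1 s2 => by
    have s0 : 0 < s := hx.trans_le s1
    have s3 : s ≤ s * (1 + 1 / K) := le_mul_of_one_le_right s0.le (by
      linarith [one_div_pos.2 K0])
    obtain ⟨-, a2, a3⟩ := hE s s1 s2
    have key : ∀ t, s ≤ t → t ≤ r → t ≤ s * (1 + 1 / K) → h t ≤ 81 / 2 * h s := fun t t1 t2 t3 => by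
      obtain ⟨b1, b2⟩ := hD s t s1 t1 t2
      have b3 : 3 * K * Real.log (t / s) ≤ 3 := by
        have := (Real.log_le_log (div_pos (s0.trans_le t1) s0)
          (div_le_div_of_nonneg_right t3 s0.le)).trans (logk_odes K0 s0)
        have := mul_le_mul_of_nonneg_left this (by positivity : 0 ≤ 3 * K)
        rwa [mul_one_div, mul_div_cancel_right₀ _ K0.ne'] at this
      have b4 := mul_le_mul ((Real.exp_le_exp.2 b3).trans e3) a3
        (hlo.le.trans (H s s1 (s2.trans c2)).2.2) (by norm_num)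
      linarith
    rcases le_total (s * (1 + 1 / K)) r with k | k
    · refine (key _ s3 k le_rfl).trans (mul_le_mul_of_nonneg_right (by linarith) (by linarith))
    · refine (H2 _ k (mul_le_mul_of_nonneg_right (s2.trans c2) (by positivity))).trans ?_
      have := mul_le_mul_of_nonneg_left (key r (s2.trans c2) le_rfl k) (by positivity : 0 ≤ 2 * K)
      linarith
  choose! g' g1 g2 using fun (s : ℝ) (hs : s ∈ Icc x c) =>
    (H s hs.1 (hs.2.trans c2)).1.freq hC (hx.trans_le hs.1) ((hs.2.trans c2).trans hr) hw hw1 hdl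
      hdl1 (hlo.trans_le (hE s hs.1 hs.2).2.1)
      (hel.trans (mul_le_mul_of_nonneg_left (hE s hs.1 hs.2).2.1 hw))
      ((mul_le_mul_of_nonneg_right hB (H s hs.1 (hs.2.trans c2)).1.1).trans (hE s hs.1 hs.2).1)
      ((H1 s hs.1 (hs.2.trans c2)).2 (hS s hs.1 hs.2) (hE s hs.1 hs.2).2.1)
  have hm := monotoneOn_of_deriv_nonneg (convex_Icc x c)
    (fun s hs => (g1 s hs).continuousAt.continuousWithinAt)
    (fun s hs => (g1 s (interior_subset hs)).differentiableAt.differentiableWithinAt)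
    (fun s hs => by rw [(g1 s (interior_subset hs)).deriv]; exact g2 s (interior_subset hs))
    ⟨le_rfl, c1⟩ ⟨c1, le_rfl⟩ c1
  simp only at hm c3
  have p1 : 0 < h x := hlo.trans_le (hE x le_rfl c1).2.1
  have p2 : 0 < h c := hlo.trans_le (hE c c1 le_rfl).2.1
  have e4 : 2 * E c = B * Real.exp (Real.log (h c)) := by rw [Real.exp_log p2]; linarith
  rw [e4, mul_assoc B, ← Real.exp_add] at hm
  have hm2 := mul_le_mul_of_nonneg_right hm (Real.exp_pos (-((dl - 1) * Real.log (h x) +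
    (4 * w * Real.log x + 6 * C * x)))).le
  rw [mul_assoc, ← Real.exp_add, add_neg_cancel, Real.exp_zero, mul_one, mul_assoc,
    ← Real.exp_add] at hm2
  refine hm2.trans ?_
  have e5 : ∀ z, B * Real.exp z * h x = B * Real.exp (z + Real.log (h x)) := fun z => by
    rw [Real.exp_add, Real.exp_log p1, mul_assoc]
  rw [e5]
  refine mul_le_mul_of_nonneg_left (Real.exp_le_exp.2 ?_) B0.le
  have q1 := mul_le_mul_of_nonneg_left (Real.log_nonpos p2.le (H1 c c1 c2).1) hdl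
  have q2 := mul_le_mul_of_nonneg_left (Real.log_le_log hlo (hE x le_rfl c1).2.1) hdl
  have q3 := mul_le_mul_of_nonneg_left (Real.log_le_log (hx.trans_le c1) c2) hw
  have q4 := mul_le_mul_of_nonneg_left c2 hC
  rw [Real.log_div (hx.trans_le hxr).ne' hx.ne']
  linarith

theorem alg1_odes {K κ κ₀ Λ η lo hs Es : ℝ} (hκ : κ = κ₀ * (1 + η)) (κ0 : 0 < κ₀) (K0 : 0 < K)
    (hΛ : K ≤ Λ * κ₀) (Λ1 : 1 ≤ Λ) (hη : 0 < η) (hη1 : η ≤ 1) (a1 : 0 ≤ hs) (a2 : 2 * Es ≤ κ₀ * hs)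
    (a3 : lo ≤ hs - Es / K) :
    η * κ₀ * hs ≤ κ * hs - 2 * Es ∧ η * K * lo ≤ 2 * Λ * (κ * hs - 2 * Es) := by
  have b1 : η * κ₀ * hs ≤ κ * hs - 2 * Es := by rw [hκ]; linarith
  refine ⟨b1, ?_⟩
  have b2 : K * lo ≤ K * hs - Es := by
    have := mul_le_mul_of_nonneg_left a3 K0.le
    rwa [mul_sub, mul_div_cancel₀ _ K0.ne'] at this
  have b3 : 0 ≤ κ * hs - 2 * Es := le_trans (mul_nonneg (by positivity) a1) b1
  have b4 := mul_le_mul_of_nonneg_right hΛ (mul_nonneg hη.le a1)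
  have b5 := mul_le_mul_of_nonneg_left b1 (by linarith : 0 ≤ Λ)
  have b6 : η * (κ * hs - 2 * Es) ≤ Λ * (κ * hs - 2 * Es) :=
    mul_le_mul_of_nonneg_right (by linarith) b3
  have b7 := mul_le_mul_of_nonneg_left b2 hη.le
  have b8 : 0 ≤ η * (κ * hs) := mul_nonneg hη.le (mul_nonneg (by rw [hκ]; positivity) a1)
  have b9 : 0 ≤ Λ * (κ * hs - 2 * Es) := mul_nonneg (by linarith) b3
  linarith

theorem alg2_odes {K κ P z hx Ex dx : ℝ} (hC : 0 ≤ C) (hκK : κ ≤ K) (hK : 6 + 10 * C ≤ K)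
    (hP : 1 ≤ P) (z0 : 0 ≤ z) (a0 : 0 ≤ hx) (a1 : -Ex ≤ C * (dx + hx) + e) (H1 : dx ≤ P * z + e)
    (H2 : hx ≤ 2 * z) : κ * hx - 2 * Ex ≤ (4 + 2 * C) * K * P * z + (2 + 2 * C) * e := by
  have K0 : 0 < K := by linarith
  have b1 : κ * hx ≤ K * (2 * z) := mul_le_mul hκK H2 a0 K0.le
  have b2 := mul_le_mul_of_nonneg_left (add_le_add H1 H2) hC
  have b3 : 2 * C * z ≤ K * z := mul_le_mul_of_nonneg_right (by linarith) z0
  have b4 : K * z ≤ K * P * z :=
    mul_le_mul_of_nonneg_right (le_mul_of_one_le_right K0.le hP) z0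
  have b5 : C * (P * z) ≤ C * (K * (P * z)) :=
    mul_le_mul_of_nonneg_left (le_mul_of_one_le_left (by positivity) (by linarith)) hC
  linarith

theorem alg3_odes {K κ κ₀ P Λ η Y z F G T hy : ℝ} (hC : 0 ≤ C) (he : 0 ≤ e) (hκ₀ : 6 ≤ κ₀)
    (κ1 : κ₀ ≤ κ) (hκK : κ ≤ K) (hΛ : K ≤ Λ * κ₀) (Λ1 : 1 ≤ Λ) (hη : 0 < η) (hP : 1 ≤ P)
    (Y0 : 0 < Y) (F0 : 0 < F) (G0 : 0 < G)
    (Y1 : Y ≤ (4 + 2 * C) * K * P * z + (2 + 2 * C) * e)
    (Y2 : (20 + 20 * C) * Λ * K * (e * P) ≤ Y) (g2 : 2 * e / κ - hy ≤ F * (2 * e / κ - z))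
    (w2 : η * κ₀ * hy ≤ G * Y) (hT : (24 + 12 * C) * Λ * P ≤ η * T) (F1 : T * G ≤ 3 * F) :
    False := by
  have eP : 0 ≤ e * P := mul_nonneg he (by linarith)
  have eP1 : e ≤ e * P := le_mul_of_one_le_right he hP
  have κ0 : 0 < κ₀ := by linarith
  have K0 : 0 < K := by linarith
  have Λ0 : 0 < Λ := by linarith
  have P0 : 0 < P := by linarith
  have w1 : F * (z - 2 * e / κ) ≤ hy := by
    have : 0 ≤ 2 * e / κ := div_nonneg (by linarith) (by linarith)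
    linarith
  have w3 : (4 + 2 * C) * K * P * (2 * e / κ) ≤ (8 + 4 * C) * Λ * (e * P) := by
    rw [← mul_div_assoc, div_le_iff₀ (by linarith)]
    have := mul_le_mul_of_nonneg_left (hΛ.trans (mul_le_mul_of_nonneg_left κ1 Λ0.le))
      (by positivity : 0 ≤ (8 + 4 * C) * (e * P))
    linarith
  have w4 : Y / 2 < (4 + 2 * C) * K * P * (z - 2 * e / κ) := by
    have a1 : (2 + 2 * C) * e ≤ (2 + 2 * C) * Λ * (e * P) :=
      mul_le_mul (le_mul_of_one_le_right (by linarith) Λ1) eP1 he (by positivity)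
    have a2 : (20 + 20 * C) * Λ * (e * P) * 6 ≤ (20 + 20 * C) * Λ * (e * P) * K :=
      mul_le_mul_of_nonneg_left (by linarith) (by positivity)
    have a3 : 0 ≤ Λ * (e * P) := by positivity
    have a4 : 0 ≤ C * (Λ * (e * P)) := by positivity
    rw [mul_sub]
    linarith
  have w5 : η * κ₀ * (F * (Y / 2)) < (4 + 2 * C) * K * P * (G * Y) := by
    have a1 := mul_lt_mul_of_pos_left w4 F0
    have a2 := mul_le_mul_of_nonneg_left w1 (by positivity : 0 ≤ (4 + 2 * C) * K * P)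
    have a3 := mul_lt_mul_of_pos_left (a1.trans_le ((le_of_eq (by ring)).trans a2))
      (mul_pos hη κ0)
    have a4 := mul_le_mul_of_nonneg_left w2 (by positivity : 0 ≤ (4 + 2 * C) * K * P)
    linarith
  have w6 : (24 + 12 * C) * Λ * P * G ≤ η * (3 * F) :=
    (mul_le_mul_of_nonneg_right hT G0.le).trans
      ((le_of_eq (mul_assoc _ _ _)).trans (mul_le_mul_of_nonneg_left F1 hη.le))
  have w7 := mul_le_mul_of_nonneg_left w6 (by positivity : 0 ≤ κ₀ * Y)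
  have w8 := mul_le_mul_of_nonneg_left hΛ (by positivity : 0 ≤ (4 + 2 * C) * P * (G * Y))
  linarith

/-- Selection of a radius at which `d / h` is not much larger than the frequency bound. -/
theorem select_odes {K κ κ₀ x y lo P Λ η : ℝ} (hC : 0 ≤ C) (he : 0 ≤ e) (hx : 0 < x)
    (hxy : x * (1 + 1 / K) ≤ y) (hy : y ≤ 1) (hκ₀ : 6 + 10 * C ≤ κ₀) (hκ : κ = κ₀ * (1 + η))
    (hκK : κ ≤ K) (hΛ : K ≤ Λ * κ₀) (hη : 0 < η) (hη1 : η ≤ 1) (hlo : 0 < lo) (hP : 1 ≤ P)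
    (hel : (40 + 40 * C) * Λ ^ 2 * (e * P) ≤ η * lo)
    (hT : (24 + 12 * C) * Λ * P ≤ η * Real.exp (κ₀ / 2 * Real.log (y / x)))
    (H : ∀ s, x ≤ s → s ≤ y → IdAt h E d e C s ∧ 2 * E s ≤ κ₀ * h s ∧ lo ≤ h s - E s / K)
    (H1 : d x ≤ P * h (x * (1 + 1 / K)) + e) (H2 : h x ≤ 2 * h (x * (1 + 1 / K))) :
    ∃ s, x ≤ s ∧ s ≤ y ∧ d s ≤ (κ + (5 * C + 1) * s) * h s := by
  by_contra hn
  have hd : ∀ s, x ≤ s → s ≤ y → (κ + (5 * C + 1) * s) * h s ≤ d s := fun s s1 s2 =>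
    (not_le.1 fun k => hn ⟨s, s1, s2, k⟩).le
  have κ0 : 0 < κ₀ := by linarith
  have κ1 : κ₀ ≤ κ := hκ ▸ le_mul_of_one_le_right κ0.le (by linarith)
  have K0 : 0 < K := by linarith
  have Λ1 : 1 ≤ Λ := le_of_mul_le_mul_right (by linarith) κ0
  have x1 : x ≤ x * (1 + 1 / K) := le_mul_of_one_le_right hx.le (by linarith [one_div_pos.2 K0])
  have hY : ∀ s, x ≤ s → s ≤ y → _ := fun s s1 s2 =>
    alg1_odes hκ κ0 K0 hΛ Λ1 hη hη1 (H s s1 s2).1.1 (H s s1 s2).2.1 (H s s1 s2).2.2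
  have eP : 0 ≤ e * P := mul_nonneg he (by linarith)
  have eP1 : e ≤ e * P := le_mul_of_one_le_right he hP
  have hY2 : ∀ s, x ≤ s → s ≤ y → (20 + 20 * C) * Λ * K * (e * P) ≤ κ * h s - 2 * E s :=
    fun s s1 s2 => by
      have a1 := (mul_le_mul_of_nonneg_left hel K0.le).trans
        ((le_of_eq (by ring)).trans (hY s s1 s2).2)
      have : 2 * Λ * ((20 + 20 * C) * Λ * K * (e * P)) ≤ 2 * Λ * (κ * h s - 2 * E s) :=
        (le_of_eq (by ring)).trans a1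
      exact le_of_mul_le_mul_left this (by linarith)
  have a5 : 5 * κ * e ≤ (20 + 20 * C) * Λ * K * (e * P) :=
    mul_le_mul (le_trans (by linarith) (mul_le_mul_of_nonneg_right
      (le_trans (by linarith) (le_mul_of_one_le_right (by linarith) Λ1) : 5 ≤ (20 + 20 * C) * Λ)
      K0.le)) eP1 he (by positivity)
  have hG : ∀ s, x ≤ s → s ≤ y → _ := fun s s1 s2 =>
    (H s s1 s2).1.ygrow (κ := κ) hC he (hx.trans_le s1) (s2.trans hy) (by linarith) (hd s s1 s2)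
      (a5.trans (hY2 s s1 s2))
  have g1 := grow_odea hx (x1.trans hxy) fun s s1 s2 => (hG s s1 s2).1
  have g2 := grow_odea (hx.trans_le x1) hxy fun s s1 s2 => (hG s (x1.trans s1) s2).2
  have Y0 : 0 < κ * h x - 2 * E x := pos_of_mul_pos_right
    ((mul_pos (mul_pos hη K0) hlo).trans_le (hY x le_rfl (x1.trans hxy)).2) (by linarith)
  obtain ⟨a0, -, -, -, -, -, -, -, -, -, -, -, -, a1⟩ := (H x le_rfl (x1.trans hxy)).1
  refine alg3_odes hC he (by linarith) κ1 hκK hΛ Λ1 hη hP Y0 (Real.exp_pos _) (Real.exp_pos _)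
    (alg2_odes hC hκK (by linarith) hP (H _ x1 hxy).1.1 a0 a1 H1 H2) (hY2 x le_rfl (x1.trans hxy))
    g2 ((hY y (x1.trans hxy) le_rfl).1.trans g1) hT ?_
  have t1 : Real.log (y / x) - 1 / K ≤ Real.log (y / (x * (1 + 1 / K))) := by
    have a1 := logk_odes K0 hx
    have y0 : 0 < y := (hx.trans_le x1).trans_le hxy
    rw [Real.log_div (hx.trans_le x1).ne' hx.ne'] at a1
    rw [Real.log_div y0.ne' hx.ne', Real.log_div y0.ne' (hx.trans_le x1).ne']
    linarith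
  have t0 : 0 ≤ Real.log (y / x) := Real.log_nonneg ((one_le_div hx).2 (x1.trans hxy))
  have b1 := mul_le_mul_of_nonneg_left t1 (by linarith : 0 ≤ κ)
  have b2 : κ * (1 / K) ≤ 1 := by rw [mul_one_div, div_le_one K0]; exact hκK
  have b3 := mul_le_mul_of_nonneg_right κ1 t0
  have b4 := mul_le_mul_of_nonneg_right (by linarith : 6 ≤ κ₀) t0
  rw [← Real.exp_add]
  refine (Real.exp_le_exp.2 (by linarith : _ ≤ 1 + κ * Real.log (y / (x * (1 + 1 / K))))).trans ?_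
  rw [Real.exp_add]
  exact mul_le_mul_of_nonneg_right (Real.exp_one_lt_d9.le.trans (by norm_num)) (Real.exp_pos _).le

end Pool.Agent.Lib.MP_8daebb_an.GM
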