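import Pool.Agent.Lib.MP_8daebb_an.GM.OdeS

/-! One stage of the frequency function with a one-sided defect bound: the result. -/

open Set

namespace Pool.Agent.Lib.MP_8daebb_an.GM

variable {h E d : ℝ → ℝ} {e C : ℝ}

theorem low_odet {x y : ℝ} (hC : 0 ≤ C) (he : 0 ≤ e) (hx : 0 < x) (hxy : x ≤ y) (hy : y ≤ 1)
    (H : ∀ s, x ≤ s → s ≤ y → IdAt h E d e C s) :
    h x ≤ Real.exp (2 * C) * (h y + 2 * e * Real.log (y / x)) := by
  choose! g' g1 g2 using fun (s : ℝ) (hs : s ∈ Icc x y) =>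
    (H s hs.1 hs.2).hmono hC he (hx.trans_le hs.1) (hs.2.trans hy)
  have hm := monotoneOn_of_deriv_nonneg (convex_Icc x y)
    (fun s hs => (g1 s hs).continuousAt.continuousWithinAt)
    (fun s hs => (g1 s (interior_subset hs)).differentiableAt.differentiableWithinAt)
    (fun s hs => by rw [(g1 s (interior_subset hs)).deriv]; exact g2 s (interior_subset hs))
    ⟨le_rfl, hxy⟩ ⟨hxy, le_rfl⟩ hxy
  simp only at hm
  have a1 : h x ≤ h x * Real.exp (2 * C * x) :=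
    le_mul_of_one_le_right (H x le_rfl hxy).1 (Real.one_le_exp (by positivity))
  have a2 : h y * Real.exp (2 * C * y) ≤ h y * Real.exp (2 * C) :=
    mul_le_mul_of_nonneg_left (Real.exp_le_exp.2 (mul_le_of_le_one_right (by linarith) hy))
      (H y hxy le_rfl).1
  rw [Real.log_div (hx.trans_le hxy).ne' hx.ne']
  linarith

theorem xle_odet {K κ r lo : ℝ} (H : IdAt h E d e C r) (hC : 0 ≤ C) (hK : 1 ≤ K) (hκ : κ ≤ 2 * K)
    (he : 0 ≤ e) (hel : e ≤ lo / 2) (hd : d r ≤ κ * h r) (hX : lo ≤ h r - E r / K) :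
    h r - E r / K ≤ (2 + 6 * C) * h r := by
  obtain ⟨a0, -, -, -, -, -, -, -, -, -, -, -, -, a1⟩ := H
  have K0 : 0 < K := by linarith
  have b1 : d r + h r ≤ K * (3 * h r) := by
    have := mul_le_mul_of_nonneg_right hκ a0
    have := mul_le_mul_of_nonneg_right hK a0
    linarith
  have b2 : -E r / K ≤ 3 * C * h r + e := by
    rw [div_le_iff₀ K0]
    have := mul_le_mul_of_nonneg_left b1 hC
    have := mul_le_mul_of_nonneg_left hK he
    linarith
  rw [neg_div] at b2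
  linarith

theorem stage_ode (hC : 0 ≤ C) : ∃ C₂ : ℝ, 1 ≤ C₂ ∧
    ∀ (h E d : ℝ → ℝ) (a r e K B Λ dl w η P T lo : ℝ), 0 < a → a ≤ r → r ≤ 1 → 0 < lo → 0 ≤ e →
      1 ≤ P → 1 ≤ Λ → 0 ≤ dl → dl ≤ 1 / 2 → 0 ≤ w → 0 < η → η ≤ 1 → C₂ ≤ B → K ≤ Λ * B →
      B * Real.exp (C₂ * r + (C₂ * w * Real.log (r / a) - dl * Real.log lo)) * (1 + η) ≤ K →
      e * P ≤ w * lo → C₂ * Λ ^ 2 * w ≤ η → C₂ * w * Real.log (r / a) ≤ 1 →
      C₂ * Λ * P ≤ η * Real.exp (T / (12 * Λ)) →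
      (∀ ϱ, a ≤ ϱ → ϱ ≤ r → IdAt h E d e C ϱ ∧ h ϱ ≤ 1 ∧ d ϱ ≤ P * h (ϱ * (1 + 1 / K)) + e ∧
        (h (ϱ * (1 + 1 / K)) ≤ 81 * K * h ϱ → lo ≤ h ϱ →
          2 * E ϱ - d ϱ ≤ dl * d ϱ + (w + C * ϱ) * h ϱ)) →
      (∀ ϱ ϱ', a ≤ ϱ → ϱ ≤ ϱ' → ϱ' ≤ ϱ * (1 + 1 / K) → ϱ' ≤ r * (1 + 1 / K) → h ϱ ≤ 2 * h ϱ') →
      h (r * (1 + 1 / K)) ≤ K * h r → 2 * E r ≤ B * h r → 2 * Real.exp T * lo ≤ h r →
      C₂ * P * h (a * (1 + 1 / K)) ≤ lo →
      ∃ r', a ≤ r' ∧ r' * Real.exp (T / (6 * K)) ≤ r ∧ h r' ≤ 2 * Real.exp (T / 2) * lo ∧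
        d r' ≤ (B * Real.exp (C₂ * (r - r') + (C₂ * w * Real.log (r / a) - dl * Real.log lo)) *
          (1 + η) + C₂ * r') * h r' ∧
        ∀ ϱ, r' ≤ ϱ → ϱ ≤ r → lo ≤ C₂ * h ϱ ∧
          h ϱ ≤ C₂ * Real.exp (3 * K * Real.log (ϱ / r')) * h r' := by
  obtain ⟨C₂, c1, c2⟩ : ∃ C₂ : ℝ, 40 + 40 * C ≤ C₂ ∧ (8 + 24 * C) * Real.exp (2 * C) ≤ C₂ :=
    ⟨max _ _, le_max_left _ _, le_max_right _ _⟩
  refine ⟨C₂, by linarith, fun h E d a r e K B Λ dl w η P T lo a0 ar r1 lo0 he hP Λ1 hdl hdl1 hw hη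
    hη1 hB hΛ hK hel hwη hwl hT H Hm hdb hf hup hst => ?_⟩
  have r0 : 0 < r := a0.trans_le ar
  have l0 : 0 ≤ Real.log (r / a) := Real.log_nonneg ((one_le_div a0).2 ar)
  have B0 : 0 < B := by linarith
  have hr0 : 0 ≤ h r := (H r ar le_rfl).1.1
  have wl : 0 ≤ w * Real.log (r / a) := mul_nonneg hw l0
  have wl2 : 4 * w * Real.log (r / a) ≤ C₂ * w * Real.log (r / a) := by
    rw [mul_assoc, mul_assoc]
    exact mul_le_mul_of_nonneg_right (by linarith) wl
  have Λ0 : 0 < Λ := by linarith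
  have C0 : 0 < C₂ := by linarith
  have T1 : 12 ≤ T := by
    have a1 : C₂ * Λ ≤ Real.exp (T / (12 * Λ)) :=
      (le_mul_of_one_le_right (by positivity) hP).trans
        (hT.trans (mul_le_of_le_one_left (Real.exp_pos _).le hη1))
    have a2 : Real.exp 1 ≤ C₂ * Λ :=
      (Real.exp_one_lt_d9.le.trans (by linarith)).trans (le_mul_of_one_le_right C0.le Λ1)
    have a3 := Real.exp_le_exp.1 (a2.trans a1)
    rw [le_div_iff₀ (by positivity)] at a3
    linarith
  have eT : 1 ≤ Real.exp T := Real.one_le_exp (by linarith)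
  have lo2 : 2 * lo ≤ h r := le_trans (by nlinarith) hup
  have lo1 : 0 ≤ -(dl * Real.log lo) := by
    rw [← mul_neg]
    exact mul_nonneg hdl (neg_nonneg.2 (Real.log_nonpos lo0.le (by linarith [(H r ar le_rfl).2.1])))
  obtain ⟨θ, hθ⟩ : ∃ θ, θ = C₂ * w * Real.log (r / a) - dl * Real.log lo := ⟨_, rfl⟩
  rw [← hθ] at hK ⊢
  have θ0 : 0 ≤ θ := by rw [hθ]; linarith
  have hKs : ∀ x, 0 ≤ x → x ≤ C₂ * r → B * Real.exp (x + θ) * (1 + η) ≤ K ∧
      B ≤ B * Real.exp (x + θ) ∧ B * Real.exp (x + θ) < K := fun x x0 x1 => by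
    have a1 : B * Real.exp (x + θ) * (1 + η) ≤ K := le_trans (by gcongr) hK
    refine ⟨a1, le_mul_of_one_le_right B0.le (Real.one_le_exp (by linarith)), ?_⟩
    exact (lt_mul_of_one_lt_right (by positivity) (by linarith)).trans_le a1
  have BK : B ≤ K := (hKs 0 le_rfl (by positivity)).2.1.trans (hKs 0 le_rfl (by positivity)).2.2.le
  have K0 : 0 < K := by linarith
  have K1 : 1 ≤ K := by linarith
  have w1 : 40 * w ≤ 1 := by
    have a1 : 40 * w ≤ C₂ * Λ ^ 2 * w := mul_le_mul_of_nonneg_right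
      (le_trans (by linarith) (le_mul_of_one_le_right C0.le (one_le_pow₀ Λ1))) hw
    linarith
  have hel1 : e ≤ w * lo := (le_mul_of_one_le_right he hP).trans hel
  have hel2 : e ≤ lo / 40 := hel1.trans (by nlinarith)
  have kk : ∀ x, 0 < x → x ≤ x * (1 + 1 / K) := fun x x0 =>
    le_mul_of_one_le_right x0.le (by linarith [one_div_pos.2 K0])
  have kk2 : ∀ x, x ≤ r → x * (1 + 1 / K) ≤ r * (1 + 1 / K) := fun x x1 =>
    mul_le_mul_of_nonneg_right x1 (by positivity)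
  have Xr : h r ≤ 2 * (h r - E r / K) := by
    have a2 : E r / K ≤ h r / 2 := by
      rw [div_le_iff₀ K0]
      linarith [mul_le_mul_of_nonneg_right BK hr0]
    linarith
  -- the end of the stage
  obtain ⟨x, x1, x2, x3, x4⟩ := last_odea (f := fun s => h s - E s / K) (v := lo) ar
    (fun s hs => ((H s hs.1 hs.2).1.cont.1.sub
      ((H s hs.1 hs.2).1.cont.2.div_const K)).continuousWithinAt)
    (by
      obtain ⟨⟨b0, b1, -, -, -, -, -, -, -, -, -, -, -, b2⟩, -, b3, -⟩ := H a le_rfl ar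
      have b4 := Hm a _ le_rfl (kk a a0) le_rfl (kk2 a ar)
      obtain ⟨z, hz⟩ : ∃ z, z = h (a * (1 + 1 / K)) := ⟨_, rfl⟩
      rw [← hz] at b3 b4 hst
      have b5 : 0 ≤ z := by linarith
      have b6 : -E a / K ≤ C * (d a + h a) + e := by
        rw [div_le_iff₀ K0]
        exact b2.trans (le_mul_of_one_le_right (by positivity) K1)
      have b7 := mul_le_mul_of_nonneg_left (add_le_add b3 b4) hC
      have b8 : z ≤ P * z := le_mul_of_one_le_left b5 hP
      have b9 := mul_le_mul_of_nonneg_left b8 hC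
      have b10 : (40 + 40 * C) * (P * z) ≤ C₂ * (P * z) :=
        mul_le_mul_of_nonneg_right c1 (by positivity)
      have b11 : (40 + 40 * C) * e ≤ lo := by
        have q1 : (40 + 40 * C) * w ≤ C₂ * Λ ^ 2 * w := mul_le_mul_of_nonneg_right
          (c1.trans (le_mul_of_one_le_right C0.le (one_le_pow₀ Λ1))) hw
        have q2 := mul_le_mul_of_nonneg_left hel1 (by positivity : 0 ≤ 40 + 40 * C)
        have q3 := mul_le_mul_of_nonneg_right (q1.trans (hwη.trans hη1)) lo0.le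
        linarith
      have b12 : 0 ≤ C * (P * z) := by positivity
      rw [neg_div] at b6
      linarith)
    (by linarith)
  have x0 : 0 < x := a0.trans_le x1
  have H2 : ∀ s, r ≤ s → s ≤ r * (1 + 1 / K) → h s ≤ 2 * K * h r := fun s s1 s2 => by
    have := Hm s _ (ar.trans s1) s2 (mul_le_mul_of_nonneg_right s1 (by positivity)) le_rfl
    linarith
  have bar : ∀ y, x ≤ y → y ≤ r → (∀ s, y ≤ s → s ≤ r → 2 * E s ≤ K * h s) →
      2 * E y ≤ B * Real.exp (6 * C * (r - y) + θ) * h y := fun y y1 y2 hy => by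
    refine (barrier_odes hC he (x0.trans_le y1) y2 r1 (by linarith) BK lo0 hw (by linarith) hdl hdl1
      hel1 (fun s s1 s2 => ⟨(H s (x1.trans (y1.trans s1)) s2).1, hy s s1 s2, x4 s (y1.trans s1) s2⟩)
      (fun s s1 s2 => ⟨(H s (x1.trans (y1.trans s1)) s2).2.1,
        (H s (x1.trans (y1.trans s1)) s2).2.2.2⟩) H2 hf).trans
      (mul_le_mul_of_nonneg_right (mul_le_mul_of_nonneg_left (Real.exp_le_exp.2 ?_) B0.le)
        (H y (x1.trans y1) y2).1.1)
    have a1 := mul_le_mul_of_nonneg_left (Real.log_le_log (div_pos r0 (x0.trans_le y1))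
      (div_le_div_of_nonneg_left r0.le a0 (x1.trans y1))) hw
    rw [hθ]
    linarith
  have cr : ∀ y, 0 ≤ y → y ≤ r → 0 ≤ 6 * C * (r - y) ∧ 6 * C * (r - y) ≤ C₂ * r := fun y y0 y1 =>
    ⟨mul_nonneg (by linarith) (by linarith),
      mul_le_mul (by linarith) (by linarith) (by linarith) C0.le⟩
  have hN : ∀ s, x ≤ s → s ≤ r → 2 * E s ≤ K * h s := fun s s1 s2 => by
    by_contra k
    obtain ⟨c, q1, q2, q3, q4⟩ := last_odea (f := fun t => K * h t - 2 * E t) (v := 0) s2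
      (fun t ht => (((H t (x1.trans (s1.trans ht.1)) ht.2).1.cont.1.const_mul K).sub
        ((H t (x1.trans (s1.trans ht.1)) ht.2).1.cont.2.const_mul 2)).continuousWithinAt)
      (by linarith [not_le.1 k])
      (by linarith [mul_le_mul_of_nonneg_right BK hr0])
    have a1 := bar c (s1.trans q1) q2 fun t t1 t2 => by linarith [q4 t t1 t2]
    have a2 : E c / K = h c / 2 := by rw [div_eq_iff K0.ne']; linarith
    have a3 : 0 < h c := by linarith [x4 c (s1.trans q1) q2]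
    have a4 := mul_lt_mul_of_pos_right (hKs _ (cr c (x0.trans_le (s1.trans q1)).le q2).1
      (cr c (x0.trans_le (s1.trans q1)).le q2).2).2.2 a3
    linarith
  have hD := dbl_odes hC he x0 r1 (by linarith) (by linarith) fun s s1 s2 =>
    ⟨(H s (x1.trans s1) s2).1, hN s s1 s2, x4 s s1 s2⟩
  obtain ⟨ℓ, hℓ⟩ : ∃ ℓ, ℓ = T / (6 * K) := ⟨_, rfl⟩
  rw [← hℓ]
  have ℓ1 : 3 * K * ℓ = T / 2 := by rw [hℓ]; field_simp; ring
  have ℓ2 : 1 + 1 / K ≤ Real.exp ℓ := by
    have : 1 / K ≤ ℓ := by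
      rw [hℓ, div_le_div_iff₀ K0 (by positivity)]
      nlinarith
    linarith [Real.add_one_le_exp ℓ]
  have ℓ3 : 1 ≤ Real.exp ℓ := le_trans (by linarith [one_div_pos.2 K0]) ℓ2
  have y2 : x * Real.exp ℓ * Real.exp ℓ ≤ r := by
    have a1 := (hD x r le_rfl x2 le_rfl).2
    rw [x3] at a1
    have a2 : Real.exp T * lo ≤ Real.exp (3 * K * Real.log (r / x)) * lo := by linarith
    have a3 := Real.exp_le_exp.1 (le_of_mul_le_mul_right a2 lo0)
    have a4 : ℓ + ℓ ≤ Real.log (r / x) :=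
      le_of_mul_le_mul_left (by linarith : 3 * K * (ℓ + ℓ) ≤ _) (by positivity)
    rw [Real.le_log_iff_exp_le (div_pos r0 x0), le_div_iff₀ x0, Real.exp_add] at a4
    linarith
  have y1 : x * Real.exp ℓ ≤ r := (le_mul_of_one_le_right (by positivity) ℓ3).trans y2
  have y3 : Real.log (x * Real.exp ℓ / x) = ℓ := by
    rw [mul_div_cancel_left₀ _ x0.ne', Real.log_exp]
  obtain ⟨k1, k2, -⟩ := hKs _ (cr x x0.le x2).1 (cr x x0.le x2).2
  obtain ⟨s, s1, s2, s3⟩ := select_odes (κ₀ := B * Real.exp (6 * C * (r - x) + θ)) (Λ := Λ) (P := P)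
    (lo := lo) hC he x0 (mul_le_mul_of_nonneg_left ℓ2 x0.le) (y1.trans r1) (by linarith) rfl k1
    (hΛ.trans (mul_le_mul_of_nonneg_left k2 Λ0.le)) hη hη1 lo0 hP
    (by
      have q1 := mul_le_mul_of_nonneg_left hel (by positivity : 0 ≤ (40 + 40 * C) * Λ ^ 2)
      have q2 : (40 + 40 * C) * (Λ ^ 2 * w) ≤ C₂ * (Λ ^ 2 * w) :=
        mul_le_mul_of_nonneg_right c1 (by positivity)
      have q3 := mul_le_mul_of_nonneg_right (show (40 + 40 * C) * (Λ ^ 2 * w) ≤ η by linarith)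
        lo0.le
      linarith)
    (by
      rw [y3]
      refine le_trans ?_ (hT.trans (mul_le_mul_of_nonneg_left (Real.exp_le_exp.2 ?_) hη.le))
      · exact mul_le_mul_of_nonneg_right (mul_le_mul_of_nonneg_right (by linarith) Λ0.le)
          (by linarith)
      · rw [hℓ, div_mul_div_comm, div_le_div_iff₀ (by positivity) (by positivity)]
        have := mul_le_mul_of_nonneg_left (hΛ.trans (mul_le_mul_of_nonneg_left k2 Λ0.le))
          (by linarith : 0 ≤ 12 * T)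
        linarith)
    (fun t t1 t2 => ⟨(H t (x1.trans t1) (t2.trans y1)).1,
      (bar t t1 (t2.trans y1) fun v v1 v2 => hN v (t1.trans v1) v2).trans
        (mul_le_mul_of_nonneg_right (mul_le_mul_of_nonneg_left (Real.exp_le_exp.2 (by
          linarith [mul_le_mul_of_nonneg_left t1 hC])) B0.le) (H t (x1.trans t1) (t2.trans y1)).1.1),
      x4 t t1 (t2.trans y1)⟩)
    (H x x1 x2).2.2.1 (Hm x _ x1 (kk x x0) le_rfl (kk2 x x2))
  have s0 : 0 < s := x0.trans_le s1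
  have s4 : s ≤ r := s2.trans y1
  obtain ⟨I, -⟩ := H s (x1.trans s1) s4
  have s5 : h s - E s / K ≤ (2 + 6 * C) * h s :=
    xle_odet I hC K1 (by nlinarith) he (by linarith) s3 (x4 s s1 s4)
  refine ⟨s, x1.trans s1, (mul_le_mul_of_nonneg_right s2 (Real.exp_pos _).le).trans y2, ?_,
    s3.trans (mul_le_mul_of_nonneg_right (add_le_add ?_ ?_) I.1), fun ϱ p1 p2 => ⟨?_, ?_⟩⟩
  · obtain ⟨a1, a2⟩ := hD x s le_rfl s1 s4
    have a3 : 3 * K * Real.log (s / x) ≤ T / 2 := by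
      rw [← ℓ1, ← y3]
      exact mul_le_mul_of_nonneg_left (Real.log_le_log (div_pos s0 x0)
        (div_le_div_of_nonneg_right s2 x0.le)) (by positivity)
    rw [x3] at a2
    linarith [mul_le_mul_of_nonneg_right (Real.exp_le_exp.2 a3) lo0.le]
  · refine mul_le_mul_of_nonneg_right (mul_le_mul_of_nonneg_left (Real.exp_le_exp.2 ?_) B0.le)
      (by linarith)
    have a1 : x * (Real.exp ℓ - 1) ≤ x * Real.exp ℓ * (Real.exp ℓ - 1) :=
      mul_le_mul_of_nonneg_right (le_mul_of_one_le_right x0.le ℓ3) (by linarith)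
    have a2 := mul_le_mul_of_nonneg_left (show r - x ≤ 2 * (r - s) by linarith) hC
    have a3 : 12 * C * (r - s) ≤ C₂ * (r - s) :=
      mul_le_mul_of_nonneg_right (by linarith) (by linarith)
    linarith
  · exact mul_le_mul_of_nonneg_right (by linarith) s0.le
  · have a1 := low_odet hC he s0 p1 (p2.trans r1) fun t t1 t2 =>
      (H t (x1.trans (s1.trans t1)) (t2.trans p2)).1
    have a2 : Real.log (ϱ / s) ≤ Real.log (r / a) :=
      Real.log_le_log (div_pos (s0.trans_le p1) s0) (div_le_div₀ r0.le p2 a0 (x1.trans s1))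
    have a3 : e * Real.log (ϱ / s) ≤ w * lo * Real.log (r / a) :=
      mul_le_mul hel1 a2 (Real.log_nonneg ((one_le_div s0).2 p1)) (by positivity)
    have a4 := mul_le_mul_of_nonneg_left a1 (by positivity : 0 ≤ 2 + 6 * C)
    have a5 := (H ϱ (x1.trans (s1.trans p1)) p2).1.1
    have a6 := mul_le_mul_of_nonneg_right c2 a5
    have a7 := mul_le_mul c2 a3 (mul_nonneg he (Real.log_nonneg ((one_le_div s0).2 p1))) C0.le
    have a8 := mul_le_mul_of_nonneg_right hwl lo0.le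
    have a9 : 0 ≤ C₂ * h ϱ := mul_nonneg C0.le a5
    linarith [x4 s s1 s4]
  · obtain ⟨a1, a2⟩ := hD s ϱ s1 p1 p2
    have a3 := mul_le_mul_of_nonneg_left s5 (Real.exp_pos (3 * K * Real.log (ϱ / s))).le
    have a4 : (4 + 12 * C) * (Real.exp (3 * K * Real.log (ϱ / s)) * h s) ≤
        C₂ * (Real.exp (3 * K * Real.log (ϱ / s)) * h s) :=
      mul_le_mul_of_nonneg_right (by linarith) (mul_nonneg (Real.exp_pos _).le I.1)
    linarith

end Pool.Agent.Lib.MP_8daebb_an.GM
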