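import Pool.Agent.Lib.MP_8daebb_an.GM.PhiA
import Pool.Agent.Lib.MP_8daebb_an.GM.IBP

/-! Second derivatives of the averaged positive part: auxiliary facts. -/

set_option linter.unusedSectionVars false
set_option linter.unusedVariables false

open MeasureTheory Metric Filter Topology Set
open scoped RealInnerProductSpace ENNReal ContDiff

namespace Pool.Agent.Lib.MP_8daebb_an.GM

open LG (vb chi om trS)

variable {d : ℕ} {α : Type*} [MeasurableSpace α] {H : Type*} [NormedAddCommGroup H]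
  [InnerProductSpace ℝ H] [FiniteDimensional ℝ H] [MeasurableSpace H] [BorelSpace H]

theorem bd_phib {m : Measure α} {Z : Set α} (hZ : MeasurableSet Z) {F G : α → ℝ}
    (hF : Measurable F) (hG : Integrable G m) (K : ℝ) (h : ∀ᵐ a ∂m, a ∈ Z → |F a| ≤ K * G a)
    (h0 : ∀ a, a ∉ Z → F a = 0) : Integrable F m ∧ |∫ a, F a ∂m| ≤ K * ∫ a in Z, G a ∂m := by
  have i := (hG.indicator hZ).const_mul K
  have h' : ∀ᵐ a ∂m, ‖F a‖ ≤ K * Z.indicator G a := h.mono fun a ha => by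
    by_cases hz : a ∈ Z
    · rw [indicator_of_mem hz]; exact ha hz
    · simp [indicator_of_notMem hz, h0 a hz]
  refine ⟨i.mono' hF.aestronglyMeasurable h', ?_⟩
  rw [← integral_indicator hZ, ← integral_const_mul]
  exact norm_integral_le_of_norm_le (f := F) i h'

theorem sum4_phib {m : Measure α} {f1 f2 f3 f4 g : α → ℝ} (i1 : Integrable f1 m)
    (i2 : Integrable f2 m) (i3 : Integrable f3 m) (i4 : Integrable f4 m) (hg : ∫ a, g a ∂m = 0)
    (e : ∀ a, g a = f2 a + f3 a + f4 a - f1 a) :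
    ∫ a, f1 a ∂m = ∫ a, f2 a ∂m + ∫ a, f3 a ∂m + ∫ a, f4 a ∂m := by
  have j1 : Integrable (fun a => f2 a + f3 a) m := i2.add i3
  have j2 : Integrable (fun a => f2 a + f3 a + f4 a) m := j1.add i4
  simp only [e] at hg
  rw [integral_sub j2 i1, integral_add j1 i4, integral_add i2 i3] at hg
  linarith

theorem fd_phib {A : E d → ℝ} {B : ℝ → ℝ} (hA : Differentiable ℝ A) (hB : Differentiable ℝ B)
    (u : E d) (h : ℝ) (w : E d × ℝ) (v : E d) (ζ : ℝ) :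
    fderiv ℝ (fun w : E d × ℝ => A (u - w.1) * B (w.2 - h)) w (v, ζ) =
      -(fderiv ℝ A (u - w.1) v * B (w.2 - h)) + A (u - w.1) * deriv B (w.2 - h) * ζ := by
  have h1 : HasFDerivAt (fun w : E d × ℝ => A (u - w.1))
      ((fderiv ℝ A (u - w.1)).comp (-ContinuousLinearMap.fst ℝ (E d) ℝ)) w :=
    (hA _).hasFDerivAt.comp w ((hasFDerivAt_fst (p := w)).const_sub u)
  have h2 : HasFDerivAt (fun w : E d × ℝ => B (w.2 - h))
      (deriv B (w.2 - h) • ContinuousLinearMap.snd ℝ (E d) ℝ) w :=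
    (hB _).hasDerivAt.comp_hasFDerivAt w ((hasFDerivAt_snd (p := w)).sub_const h)
  rw [(h1.fun_mul h2).fderiv]
  simp
  ring

theorem fd2_phib {A : E d → ℝ} {B : ℝ → ℝ} (hA : Differentiable ℝ A) (hB : Differentiable ℝ B)
    (w : E d × ℝ) (v : E d) (ζ : ℝ) :
    fderiv ℝ (fun w : E d × ℝ => A w.1 * B (-w.2)) w (v, ζ) =
      fderiv ℝ A w.1 v * B (-w.2) - A w.1 * deriv B (-w.2) * ζ := by
  have h1 : HasFDerivAt (fun w : E d × ℝ => A w.1)
      ((fderiv ℝ A w.1).comp (ContinuousLinearMap.fst ℝ (E d) ℝ)) w :=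
    (hA _).hasFDerivAt.comp w (hasFDerivAt_fst (p := w))
  have h2 : HasFDerivAt (fun w : E d × ℝ => B (-w.2))
      (deriv B (-w.2) • -ContinuousLinearMap.snd ℝ (E d) ℝ) w :=
    (hB _).hasDerivAt.comp_hasFDerivAt w (hasFDerivAt_snd (p := w)).neg
  rw [(h1.fun_mul h2).fderiv]
  simp
  ring

theorem test_phib {A : E d → ℝ} {B : ℝ → ℝ} (hA : ContDiff ℝ 1 A) (hB : ContDiff ℝ 1 B) {ρ R : ℝ}
    (hρ : 0 < ρ) (hA0 : ∀ w : E d, ρ ≤ ‖w‖ → A w = 0) {u : E d} (hu : ‖u‖ + 2 * ρ ≤ R) (h : ℝ) :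
    Test 0 R (fun w : E d × ℝ => A (u - w.1) * B (w.2 - h)) := by
  refine ⟨((hA.comp (contDiff_const.sub contDiff_fst)).mul
    (hB.comp (contDiff_snd.sub contDiff_const))).contDiffOn, ‖u‖ + ρ, by linarith, fun w hw => ?_⟩
  rw [sub_zero] at hw
  have : ρ ≤ ‖u - w.1‖ := by
    rw [norm_sub_rev]
    linarith [norm_sub_norm_le w.1 u]
  simp only [hA0 _ this, zero_mul]

theorem meas_fd_phib {A : E d → ℝ} (hA : ContDiff ℝ 1 A) {X W : α → E d} (hX : Measurable X)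
    (hW : Measurable W) : Measurable fun a => fderiv ℝ A (X a) (W a) := by
  have hc : Continuous fun p : E d × E d => fderiv ℝ A p.1 p.2 :=
    ((hA.continuous_fderiv one_ne_zero).comp continuous_fst).clm_apply continuous_snd
  exact hc.measurable.comp (hX.prodMk hW)

theorem abs3_phib {a b c A B C : ℝ} (ha : |a| ≤ A) (hb : |b| ≤ B) (hc : |c| ≤ C) :
    |a * b * c| ≤ A * B * C := by
  rw [abs_mul, abs_mul]
  exact mul_le_mul (mul_le_mul ha hb (abs_nonneg _) ((abs_nonneg _).trans ha)) hc (abs_nonneg _)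
    (mul_nonneg ((abs_nonneg _).trans ha) ((abs_nonneg _).trans hb))

theorem absd_phib {T : E d →L[ℝ] ℝ} {v : E d} {b K V B : ℝ} (hT : ‖T‖ ≤ K) (hv : ‖v‖ ≤ V)
    (hb : |b| ≤ B) : |T v * b| ≤ K * B * V := by
  have h1 : |T v| ≤ K * V := (T.le_opNorm v).trans
    (mul_le_mul hT hv (norm_nonneg _) ((norm_nonneg _).trans hT))
  rw [abs_mul]
  refine (mul_le_mul h1 hb (abs_nonneg _) ((abs_nonneg _).trans h1)).trans (le_of_eq ?_)
  ring

theorem off_phib {D : CD d α H} {u : E d} {ρ : ℝ} {a : α} (h : a ∉ D.cyl u ρ) :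
    ρ ≤ ‖u - D.x a‖ := by
  rw [norm_sub_rev]
  exact not_lt.1 h

theorem p_le_phib {D : CD d α H} {e : H} {a : α} (h0 : 0 ≤ D.en a)
    (h : ‖D.p e a‖ ^ 2 ≤ 8 * D.en a) : ‖D.p e a‖ ≤ 3 * √(D.en a) := by
  refine abs_le_of_sq_le_sq' ?_ (by positivity) |>.2
  rw [mul_pow, Real.sq_sqrt h0]
  linarith

/-- The horizontal identity with a product test function. -/
theorem hor_phib {D : CD d α H} {R δ M ρ : ℝ} (h : CV D 0 R δ M) (hδ : δ ≤ 1 / 2) (hρ : 0 < ρ)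
    {e : H} (he : ‖e‖ = 1) {A : E d → ℝ} {B : ℝ → ℝ} (hA : ContDiff ℝ 1 A) (hB : ContDiff ℝ 1 B)
    (hA0 : ∀ w : E d, ρ ≤ ‖w‖ → A w = 0) {K0 K1 KB KB' hh : ℝ} (h0 : ∀ w, |A w| ≤ K0)
    (h1 : ∀ w, ‖fderiv ℝ A w‖ ≤ K1) (hb : ∀ᵐ a ∂D.m, |B (D.z e a - hh)| ≤ KB)
    (hb' : ∀ r, |deriv B r| ≤ KB') {u : E d} (hu : ‖u‖ + 2 * ρ ≤ R) (v : E d) :
    Integrable (fun a => A (u - D.x a) * deriv B (D.z e a - hh) * ⟪D.p e a, v⟫) D.m ∧
    |∫ a, fderiv ℝ A (u - D.x a) v * B (D.z e a - hh) ∂D.m -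
      ∫ a, A (u - D.x a) * deriv B (D.z e a - hh) * ⟪D.p e a, v⟫ ∂D.m| ≤
        (2 * K1 + K0) * KB * D.En u ρ * ‖v‖ := by
  have := h.fin
  obtain ⟨mz, mp, -, -, -, -⟩ := h.meas_e e
  have hZ := h.meas_cyl u ρ
  have hA1 := step_ker hρ (hA.continuous_fderiv one_ne_zero) hA0
  have mx : Measurable fun a => u - D.x a := measurable_const.sub h.m_x
  have mB : Measurable fun a => B (D.z e a - hh) := hB.continuous.measurable.comp (mz.sub_const _)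
  have mB' : Measurable fun a => deriv B (D.z e a - hh) :=
    (measurable_deriv B).comp (mz.sub_const _)
  have mA : Measurable fun a => A (u - D.x a) := hA.continuous.measurable.comp mx
  have mi : Measurable fun k : E d => ⟪k, v⟫ := (continuous_id.inner continuous_const).measurable
  have hen := h.integrable_t.2.2.2.1
  have hsq := h.integrable_t.2.2.2.2.1
  have ip : ∀ (k : E d) (c : ℝ), ‖k‖ ≤ c → |⟪k, v⟫| ≤ c * ‖v‖ := fun k c hk =>
    (abs_real_inner_le_norm k v).trans (mul_le_mul_of_nonneg_right hk (norm_nonneg _))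
  have i1 := (bd_phib hZ (F := fun a => fderiv ℝ A (u - D.x a) v * B (D.z e a - hh))
    ((meas_fd_phib hA mx (measurable_const (a := v))).mul mB)
    (integrable_const ‖v‖) (K1 * KB) (hb.mono fun a ha _ => absd_phib (h1 _) le_rfl ha)
    (fun a ha => by simp [hA1 _ (off_phib ha)])).1
  have i2 := (bd_phib hZ (F := fun a => A (u - D.x a) * deriv B (D.z e a - hh) * ⟪D.p e a, v⟫)
    ((mA.mul mB').mul (mi.comp mp)) ((hsq.const_mul 3).mul_const ‖v‖) (K0 * KB')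
    (h.ae_met.mono fun a ha _ => abs3_phib (h0 _) (hb' _) (ip _ _ (by
      obtain ⟨-, a2, -, -, a5, -⟩ := ha.1.scal h.δ_nonneg hδ ha.2.2.2.2 he
      exact p_le_phib a2 a5))) (fun a ha => by simp [hA0 _ (off_phib ha)])).1
  have i3 := bd_phib hZ (F := fun a => fderiv ℝ A (u - D.x a) (D.τ a v) * B (D.z e a - hh))
    ((meas_fd_phib hA mx (h.m_τ.apply_continuousLinearMap v)).mul mB) hen
    (2 * K1 * KB * ‖v‖) (by
      filter_upwards [hb, h.ae_met] with a ha hp _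
      obtain ⟨-, -, -, a4, -⟩ := hp.1.scal h.δ_nonneg hδ hp.2.2.2.2 he
      have b1 : ‖D.τ a v‖ ≤ 2 * D.en a * ‖v‖ := ((D.τ a).le_opNorm v).trans
        (mul_le_mul_of_nonneg_right (by linarith [hp.1.τ_le]) (norm_nonneg _))
      exact (absd_phib (h1 _) b1 ha).trans (le_of_eq (by ring)))
    (fun a ha => by simp [hA1 _ (off_phib ha)])
  have i4 := bd_phib hZ (F := fun a => A (u - D.x a) * B (D.z e a - hh) * ⟪D.eh a, v⟫)
    ((mA.mul mB).mul (mi.comp h.m_eh)) hen (K0 * KB * ‖v‖) (by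
      filter_upwards [hb, h.ae_met] with a ha hp _
      refine (abs3_phib (h0 _) ha (ip _ _ (hp.1.scal h.δ_nonneg hδ hp.2.2.2.2
        he).2.2.2.2.2.2.2.2.2.2.2.2.2.2.1)).trans (le_of_eq (by ring)))
    (fun a ha => by simp [hA0 _ (off_phib ha)])
  have id := h.hor_e e (test_phib hA hB hρ hA0 hu hh) v
  simp only [fd_phib (hA.differentiable one_ne_zero) (hB.differentiable one_ne_zero), map_sub]
    at id
  refine ⟨i2, ?_⟩
  rw [sum4_phib i1 i2 i3.1 i4.1 id fun a => by ring, add_assoc, add_sub_cancel_left]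
  refine (abs_add_le _ _).trans ((add_le_add i3.2 i4.2).trans (le_of_eq ?_))
  unfold CD.En
  ring

theorem d2_phib {D : CD d α H} {c : E d} {R δ M : ℝ} (h : CV D c R δ M) (hδ : δ ≤ 1 / 2) {e : H}
    (he : ‖e‖ = 1) (ρ : ℝ) {Ψ : ℝ → ℝ} (hΨ : ContDiff ℝ 2 Ψ) (u : E d) (hh : ℝ) (v v' : E d) :
    fderiv ℝ (fderiv ℝ (D.Phi e ρ Ψ)) (u, hh) (v, 0) (v', 0) =
      ∫ a, fderiv ℝ (fun x => fderiv ℝ (kr ρ) x v') (u - D.x a) v * Ψ (D.z e a - hh) ∂D.m ∧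
    fderiv ℝ (fderiv ℝ (D.Phi e ρ Ψ)) (u, hh) (v, 0) (0, 1) =
      -∫ a, fderiv ℝ (kr ρ) (u - D.x a) v * deriv Ψ (D.z e a - hh) ∂D.m := by
  have := h.fin
  have k2 : ContDiff ℝ 2 (kr ρ : E d → ℝ) := contDiff_infty.1 (kr_contDiff ρ) 2
  have k1 : Differentiable ℝ (kr ρ : E d → ℝ) := k2.differentiable two_ne_zero
  have k3 : Differentiable ℝ fun x : E d => fderiv ℝ (kr ρ) x v' :=
    ((k2.fderiv_right (m := 1) (by norm_num)).clm_apply contDiff_const).differentiable one_ne_zero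
  have p1 : Differentiable ℝ Ψ := hΨ.differentiable two_ne_zero
  have p2 : Differentiable ℝ fun r => -deriv Ψ r := (hΨ.differentiable_deriv_two).neg
  have hg : ContDiff ℝ 2 fun w : E d × ℝ => kr ρ w.1 * Ψ (-w.2) :=
    (k2.comp contDiff_fst).mul (hΨ.comp contDiff_snd.neg)
  have hY : Measurable fun a => (D.x a, D.z e a) := h.m_x.prodMk (h.meas_e e).1
  have hB : ∀ᵐ a ∂D.m, ‖(D.x a, D.z e a)‖ ≤ 2 := h.ae_met.mono fun a ha => by
    rw [Prod.norm_mk, max_le_iff]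
    exact ⟨ha.1.x_le, (ha.1.scal h.δ_nonneg hδ ha.2.2.2.2 he).1.trans ha.1.y_two⟩
  have e0 : D.Phi e ρ Ψ = fun w : E d × ℝ => ∫ a, (fun w : E d × ℝ => kr ρ w.1 * Ψ (-w.2))
      (w - (D.x a, D.z e a)) • (1 : ℝ) ∂D.m := by
    funext w
    simp only [CD.Phi, Prod.fst_sub, Prod.snd_sub, neg_sub, smul_eq_mul, mul_one]
  have e1 : (fun x : E d × ℝ => fderiv ℝ (fun w : E d × ℝ => kr ρ w.1 * Ψ (-w.2)) x (v', 0)) =
      fun x => (fun y => fderiv ℝ (kr ρ) y v') x.1 * Ψ (-x.2) := by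
    funext x
    rw [fd2_phib k1 p1, mul_zero, sub_zero]
  have e2 : (fun x : E d × ℝ => fderiv ℝ (fun w : E d × ℝ => kr ρ w.1 * Ψ (-w.2)) x (0, 1)) =
      fun x => kr ρ x.1 * (fun r => -deriv Ψ r) (-x.2) := by
    funext x
    rw [fd2_phib k1 p1]
    simp
  rw [e0, SV.conv_fderiv2 hY hB (integrable_const (1 : ℝ)) hg,
    SV.conv_fderiv2 hY hB (integrable_const (1 : ℝ)) hg, ← integral_neg]
  simp only [SV.fderiv2_conv hg, e1, e2]
  constructor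
  · refine integral_congr_ae (Eventually.of_forall fun a => ?_)
    simp only
    rw [fd2_phib k3 p1]
    simp
  · refine integral_congr_ae (Eventually.of_forall fun a => ?_)
    simp only
    rw [fd2_phib k1 p2]
    simp

theorem psd_phib {B : E d →L[ℝ] E d} (hB : Psd B) (p ξ : E d) :
    2 * ⟪p, B ξ⟫ - ⟪B ξ, ξ⟫ ≤ ⟪B p, p⟫ := by
  have h := hB.2 (p - ξ)
  rw [map_sub, inner_sub_left, inner_sub_right, inner_sub_right, hB.1 p ξ,
    real_inner_comm p (B ξ)] at h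
  linarith

theorem cs_phib {m : Measure α} {W : α → ℝ} {p : α → E d} {B : E d →L[ℝ] E d} (hB : Psd B)
    (hB2 : ‖B‖ ≤ 2) (h0 : ∀ a, 0 ≤ W a) (i0 : Integrable W m)
    (i1 : ∀ v, Integrable (fun a => W a * ⟪p a, v⟫) m)
    (i2 : Integrable (fun a => W a * ⟪B (p a), p a⟫) m) {X : E d} {ε ρ : ℝ} (hρ : 0 < ρ)
    (hX : ∀ v, |⟪X, v⟫ - ∫ a, W a * ⟪p a, v⟫ ∂m| ≤ ε * ‖v‖) :
    ⟪X, B X⟫ / (∫ a, W a ∂m + 1 / ρ) ≤ ∫ a, W a * ⟪B (p a), p a⟫ ∂m + 2 * ε ^ 2 * ρ := by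
  have ha : 0 ≤ ∫ a, W a ∂m := integral_nonneg h0
  obtain ⟨c, hc⟩ : ∃ c, c = ∫ a, W a ∂m + 1 / ρ := ⟨_, rfl⟩
  have c0 : 0 < c := by rw [hc]; positivity
  obtain ⟨ξ, hξ⟩ : ∃ ξ : E d, X = c • ξ := ⟨c⁻¹ • X, by rw [smul_inv_smul₀ c0.ne']⟩
  have e1 : ⟪X, B ξ⟫ = c * ⟪B ξ, ξ⟫ := by
    rw [hξ, real_inner_smul_left, real_inner_comm]
  have e2 : ⟪X, B X⟫ / c = c * ⟪B ξ, ξ⟫ := by
    conv_lhs => rw [show B X = c • B ξ by rw [hξ, map_smul], real_inner_smul_right, e1]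
    field_simp
  have h1 : 2 * ∫ a, W a * ⟪p a, B ξ⟫ ∂m - (∫ a, W a ∂m) * ⟪B ξ, ξ⟫ ≤
      ∫ a, W a * ⟪B (p a), p a⟫ ∂m := by
    rw [← integral_const_mul, ← integral_mul_const,
      ← integral_sub ((i1 _).const_mul 2) (i0.mul_const _)]
    refine integral_mono (((i1 _).const_mul 2).sub (i0.mul_const _)) i2 fun a => ?_
    have := mul_le_mul_of_nonneg_left (psd_phib hB (p a) ξ) (h0 a)
    simp only
    linarith
  have h2 : ‖B ξ‖ ^ 2 ≤ 2 * ⟪B ξ, ξ⟫ := by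
    have a1 := psd_phib hB ξ ((1 / 2 : ℝ) • B ξ)
    have a2 := (real_inner_le_norm (B (B ξ)) (B ξ)).trans (mul_le_mul_of_nonneg_right
      ((B.le_opNorm _).trans (mul_le_mul_of_nonneg_right hB2 (norm_nonneg _))) (norm_nonneg _))
    rw [map_smul, real_inner_smul_right, real_inner_smul_left, real_inner_smul_right,
      ← hB.1 ξ (B ξ), real_inner_self_eq_norm_sq] at a1
    linarith
  have h3 := (abs_le.1 (hX (B ξ))).2
  have h4 : 2 * (ε * ‖B ξ‖) ≤ 1 / ρ * ⟪B ξ, ξ⟫ + 2 * ε ^ 2 * ρ := by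
    rw [← mul_le_mul_iff_right₀ hρ, mul_add, ← mul_assoc ρ (1 / ρ), mul_one_div_cancel hρ.ne']
    nlinarith [sq_nonneg (‖B ξ‖ - 2 * ε * ρ)]
  rw [← hc, e2]
  rw [e1] at h3
  have e3 : c * ⟪B ξ, ξ⟫ = (∫ a, W a ∂m) * ⟪B ξ, ξ⟫ + 1 / ρ * ⟪B ξ, ξ⟫ := by rw [hc]; ring
  linarith

end Pool.Agent.Lib.MP_8daebb_an.GM
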