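import Pool.Agent.Lib.MP_8daebb_an.GM.PhiA
import Pool.Agent.Lib.MP_8daebb_an.GM.IBP
import Pool.Agent.Lib.MP_8daebb_an.GM.PhiBX

/-! Second derivatives of the averaged positive part. -/

set_option linter.unusedSectionVars false
set_option linter.unusedVariables false

open MeasureTheory Metric Filter Topology Set
open scoped RealInnerProductSpace ENNReal ContDiff

namespace Pool.Agent.Lib.MP_8daebb_an.GM

open LG (vb chi om trS)

variable {d : ℕ} {α : Type*} [MeasurableSpace α] {H : Type*} [NormedAddCommGroup H]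
  [InnerProductSpace ℝ H] [FiniteDimensional ℝ H] [MeasurableSpace H] [BorelSpace H]

theorem phi_two (d : ℕ) (M : ℝ) : ∃ C : ℝ, 0 < C ∧ ∀ (D : CD d α H) (R δ lam ρ η : ℝ) (e : H)
    (Ψ : ℝ → ℝ), CV D 0 R δ M → δ ≤ 1 / 10 → Ht D lam → 0 < lam → 2 * lam ≤ ρ → ‖e‖ = 1 →
    SV.Stp Ψ η → 0 < η → η ≤ lam → ∀ (u : E d) (h : ℝ), ‖u‖ + 2 * ρ ≤ R → |h| ≤ 2 * lam →
    ∀ (B : E d →L[ℝ] E d) (μ₀ : ℝ), Psd B → ‖B‖ ≤ 2 → 0 ≤ μ₀ →
    (∀ x ∈ ball u ρ, ‖B - D.am x‖ ≤ μ₀) →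
    -(C * (lam / ρ ^ 2 * (D.En u ρ / ρ ^ d) + (μ₀ + ρ) * lam ^ 2 / (ρ ^ 2 * η))) ≤
      ∑ i, (fderiv ℝ (fderiv ℝ (D.Phi e ρ Ψ)) (u, h) (LG.eb i, 0) (B (LG.eb i), 0) -
        fderiv ℝ (fderiv ℝ (D.Phi e ρ Ψ)) (u, h) (LG.eb i, 0) (0, 1) *
          fderiv ℝ (fderiv ℝ (D.Phi e ρ Ψ)) (u, h) (B (LG.eb i), 0) (0, 1) /
          (fderiv ℝ (fderiv ℝ (D.Phi e ρ Ψ)) (u, h) (0, 1) (0, 1) + 1 / ρ)) := by
  obtain ⟨C, hC1, hav⟩ := av_le (α := α) (H := H) d M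
  obtain ⟨C', -, hone⟩ := phi_one (α := α) (H := H) d M
  have hk : 0 < Ck d := lt_of_lt_of_le one_pos (one_le_Ck d)
  have hC : 0 < C := by linarith
  refine ⟨24 * d * Ck d + 18 * Ck d ^ 2 * C + 4 * Ck d * C ^ 2 + 8 * Ck d * C, by positivity, ?_⟩
  intro D R δ lam ρ η e Ψ h hδ hs l0 hl he hΨ η0 hη u hh hu hhh B μ₀ hB hB2 μ0 hμ
  have := h.fin
  have hδ' : δ ≤ 1 / 2 := by linarith
  have r0 : 0 < ρ := by linarith
  have r1 : ρ ≤ 1 := by linarith [h.R_le, norm_nonneg u]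
  obtain ⟨-, -, -, -, -, -, -, v1, v2, -⟩ := hav D 0 R δ lam ρ u h hδ hs l0 hl
  replace v2 := v2 (by rwa [sub_zero])
  obtain ⟨r, hr⟩ : ∃ r, r = ρ ^ d := ⟨_, rfl⟩
  have r2 : 0 < r := by rw [hr]; positivity
  obtain ⟨E1, hE⟩ : ∃ E1, E1 = D.En u ρ / ρ ^ d := ⟨_, rfl⟩
  have eE : D.En u ρ = E1 * r := by rw [hE, hr]; field_simp
  have E0 : 0 ≤ E1 := by rw [hE]; exact div_nonneg (h.nonneg u ρ).2.2.2.1 (by positivity)
  rw [← hE] at v1 v2 ⊢
  rw [← hr] at v1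
  have v3 : √E1 ≤ C * (lam / ρ) := by
    refine Real.sqrt_le_iff.2 ⟨by positivity, v2.trans ?_⟩
    rw [mul_pow, div_pow]
    exact mul_le_mul_of_nonneg_right (by nlinarith) (by positivity)
  have v4 : ∫ a in D.cyl u ρ, √(D.en a) ∂D.m ≤ C * r * (C * (lam / ρ)) :=
    v1.trans (mul_le_mul_of_nonneg_left v3 (by positivity))
  have kb0 : ∀ w : E d, |kr ρ w| ≤ Ck d / r := fun w => by
    rw [abs_of_nonneg (kr_nonneg r0 w), hr]; exact (kr_le r0 w).1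
  have kb1 : ∀ w : E d, ‖fderiv ℝ (kr ρ) w‖ ≤ Ck d / r / ρ := fun w => by
    rw [hr, div_div, ← pow_succ]; exact (kr_le r0 w).2.1
  have kb2 : ∀ w : E d, ‖fderiv ℝ (fderiv ℝ (kr ρ)) w‖ ≤ Ck d / r / ρ ^ 2 := fun w => by
    rw [hr, div_div, ← pow_add]; exact (kr_le r0 w).2.2
  obtain ⟨K, hK⟩ : ∃ K, K = Ck d / r := ⟨_, rfl⟩
  have K0 : 0 < K := by rw [hK]; positivity
  have Kr : K * r = Ck d := by rw [hK]; field_simp
  rw [← hK] at kb0 kb1 kb2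
  have K1 : K ≤ K / ρ := le_div_self K0.le r0 r1
  have K2 : K / ρ ≤ K / ρ ^ 2 := div_le_div_of_nonneg_left K0.le (by positivity) (by nlinarith)
  have k2 : ContDiff ℝ 2 (kr ρ : E d → ℝ) := contDiff_infty.1 (kr_contDiff ρ) 2
  have k1 : ContDiff ℝ 1 (kr ρ : E d → ℝ) := k2.of_le one_le_two
  have p1 : ContDiff ℝ 1 Ψ := hΨ.smooth.of_le one_le_two
  have p2 : ContDiff ℝ 1 (deriv Ψ) := by
    have h2 : ContDiff ℝ (1 + 1) Ψ := by
      rw [one_add_one_eq_two]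
      exact hΨ.smooth
    exact (contDiff_succ_iff_deriv.1 h2).2.2
  have f1 : ∀ x, |deriv Ψ x| ≤ 1 := fun x => by rw [abs_of_nonneg (hΨ.d1 x).1]; exact (hΨ.d1 x).2
  have f2 : ∀ x, |deriv (deriv Ψ) x| ≤ 1 / η := fun x => by
    rw [abs_of_nonneg (hΨ.d2 x).1]; exact (hΨ.d2 x).2
  have hpw := h.ae_met.mono fun a ha => ha.1.scal h.δ_nonneg hδ' ha.2.2.2.2 he
  have hb : ∀ᵐ a ∂D.m, |Ψ (D.z e a - hh)| ≤ 4 * lam := by
    filter_upwards [hpw, hs] with a ha hy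
    linarith [ha.1, hΨ.size (D.z e a - hh), abs_sub (D.z e a) hh]
  obtain ⟨mz, mp, -, mq, mg, -⟩ := h.meas_e e
  have hZ := h.meas_cyl u ρ
  have mx : Measurable fun a => u - D.x a := measurable_const.sub h.m_x
  have mk : Measurable fun a => kr ρ (u - D.x a) := k1.continuous.measurable.comp mx
  have mf : Measurable fun a => deriv Ψ (D.z e a - hh) :=
    (measurable_deriv _).comp (mz.sub_const _)
  have mf' : Measurable fun a => deriv (deriv Ψ) (D.z e a - hh) :=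
    (measurable_deriv _).comp (mz.sub_const _)
  have mB : Measurable fun a => B (D.p e a) := B.continuous.measurable.comp mp
  have hen := h.integrable_t.2.2.2.1
  have hsq := h.integrable_t.2.2.2.2.1
  have z0 : ∀ a, a ∉ D.cyl u ρ → kr ρ (u - D.x a) = 0 := fun a ha => (kr_zero r0 (off_phib ha)).1
  have z1 : ∀ a, a ∉ D.cyl u ρ → fderiv ℝ (kr ρ) (u - D.x a) = 0 := fun a ha =>
    (kr_zero r0 (off_phib ha)).2.1
  have w0 : ∀ a, 0 ≤ kr ρ (u - D.x a) * deriv (deriv Ψ) (D.z e a - hh) := fun a =>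
    mul_nonneg (kr_nonneg r0 _) (hΨ.d2 _).1
  have iw : Integrable (fun a => kr ρ (u - D.x a) * deriv (deriv Ψ) (D.z e a - hh)) D.m := by
    refine (bd_phib hZ (mk.mul mf') (integrable_const (1 : ℝ)) (K * (1 / η))
      (Eventually.of_forall fun a _ => ?_) fun a ha => by simp [z0 a ha]).1
    have := abs3_phib (kb0 (u - D.x a)) (f2 (D.z e a - hh)) (abs_one (α := ℝ)).le
    rwa [mul_one] at this
  have ne : ∀ i : Fin d, ‖LG.eb i‖ = 1 := fun i => by simp [LG.eb]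
  have nB : ∀ v : E d, ‖B v‖ ≤ 2 * ‖v‖ := fun v =>
    (B.le_opNorm v).trans (mul_le_mul_of_nonneg_right hB2 (norm_nonneg _))
  -- first step
  have T1 : ∀ i : Fin d,
      Integrable (fun a => fderiv ℝ (kr ρ) (u - D.x a) (B (LG.eb i)) * deriv Ψ (D.z e a - hh) *
        ⟪D.p e a, LG.eb i⟫) D.m ∧
      ∫ a, fderiv ℝ (kr ρ) (u - D.x a) (B (LG.eb i)) * deriv Ψ (D.z e a - hh) *
        ⟪D.p e a, LG.eb i⟫ ∂D.m - 24 * Ck d * (lam / ρ ^ 2 * E1) ≤
        fderiv ℝ (fderiv ℝ (D.Phi e ρ Ψ)) (u, hh) (LG.eb i, 0) (B (LG.eb i), 0) := fun i => by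
    have n1 := nB (LG.eb i)
    rw [ne, mul_one] at n1
    obtain ⟨a1, a2⟩ := hor_phib h hδ' r0 he (A := fun x => fderiv ℝ (kr ρ) x (B (LG.eb i)))
      ((k2.fderiv_right (m := 1) (by norm_num)).clm_apply contDiff_const) p1
      (fun w hw => by simp [(kr_zero r0 hw).2.1]) (K0 := K / ρ ^ 2 * 2) (K1 := K / ρ ^ 2 * 2)
      (fun w => ((fderiv ℝ (kr ρ) w).le_opNorm _).trans
        (mul_le_mul ((kb1 w).trans K2) n1 (norm_nonneg _) (by positivity)))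
      (fun w => ContinuousLinearMap.opNorm_le_bound _ (by positivity) fun v' => by
        rw [← SV.fderiv2_conv k2]
        refine ((fderiv ℝ (fderiv ℝ (kr ρ)) w).le_opNorm₂ v' _).trans ?_
        rw [mul_right_comm]
        exact mul_le_mul_of_nonneg_right (mul_le_mul (kb2 w) n1 (norm_nonneg _) (by positivity))
          (norm_nonneg _)) hb f1 hu (LG.eb i)
    refine ⟨a1, ?_⟩
    rw [(d2_phib h hδ' he ρ hΨ.smooth u hh _ _).1]
    have b1 : (2 * (K / ρ ^ 2 * 2) + K / ρ ^ 2 * 2) * (4 * lam) * D.En u ρ * ‖LG.eb i‖ =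
        24 * Ck d * (lam / ρ ^ 2 * E1) := by
      rw [ne, eE, ← Kr]; ring
    linarith [(abs_le.1 a2).1]
  -- mixed derivatives
  obtain ⟨X, hX⟩ : ∃ X : E d, ∀ v,
      fderiv ℝ (fderiv ℝ (D.Phi e ρ Ψ)) (u, hh) (v, 0) (0, 1) = -⟪X, v⟫ :=
    ⟨(InnerProductSpace.toDual ℝ (E d)).symm
      (-((fderiv ℝ (fderiv ℝ (D.Phi e ρ Ψ)) (u, hh)).flip (0, 1)).comp
        (ContinuousLinearMap.inl ℝ (E d) ℝ)), fun v => by simp⟩
  have T5 := fun v : E d => hor_phib h hδ' r0 he k1 p2 (fun w hw => (kr_zero r0 hw).1)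
    (K0 := K / ρ) (K1 := K / ρ) (hh := hh) (fun w => (kb0 w).trans K1) kb1
    (Eventually.of_forall fun a => f1 _) f2 hu v
  have i5 : Integrable (fun a => kr ρ (u - D.x a) * deriv (deriv Ψ) (D.z e a - hh) *
      ⟪B (D.p e a), D.p e a⟫) D.m :=
    (bd_phib hZ ((mk.mul mf').mul (mB.inner mp)) (hen.const_mul 16) (K * (1 / η))
      (hpw.mono fun a ha _ => abs3_phib (kb0 _) (f2 _) (by
        have c1 := (abs_real_inner_le_norm (B (D.p e a)) (D.p e a)).trans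
          (mul_le_mul_of_nonneg_right (nB _) (norm_nonneg _))
        linarith [ha.2.2.2.2.1])) fun a ha => by simp [z0 a ha]).1
  have t5 := cs_phib hB hB2 w0 iw (fun v => (T5 v).1) i5 (X := X)
    (ε := (2 * (K / ρ) + K / ρ) * 1 * D.En u ρ) r0 fun v => by
      have c1 := (d2_phib h hδ' he ρ hΨ.smooth u hh v v).2
      rw [hX, neg_inj] at c1
      rw [c1]
      exact (T5 v).2
  have t6 : 2 * ((2 * (K / ρ) + K / ρ) * 1 * D.En u ρ) ^ 2 * ρ ≤
      18 * Ck d ^ 2 * C * (lam / ρ ^ 2 * E1) := by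
    have c1 : E1 / ρ ≤ C * (lam / ρ ^ 2) := by
      rw [div_le_iff₀ r0]
      refine v2.trans ?_
      rw [mul_assoc, div_mul_eq_mul_div]
      gcongr
      nlinarith
    calc _ = 18 * Ck d ^ 2 * (E1 / ρ) * E1 := by rw [eE, ← Kr]; field_simp; ring
      _ ≤ 18 * Ck d ^ 2 * (C * (lam / ρ ^ 2)) * E1 := by gcongr
      _ = _ := by ring
  -- the vertical identity
  have i1 := bd_phib hZ (F := fun a => fderiv ℝ (kr ρ) (u - D.x a) (B (D.p e a) - D.q a e) *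
      deriv Ψ (D.z e a - hh)) ((meas_fd_phib k1 mx (mB.sub mq)).mul mf) hsq
    (K / ρ * (3 * (μ₀ + ρ))) (by
      filter_upwards [hpw, hs] with a ha hy hz
      have c0 := Real.sqrt_nonneg (D.en a)
      have c1 := p_le_phib ha.2.1 ha.2.2.2.2.1
      have c2 := ((B - D.am (D.x a)).le_opNorm (D.p e a)).trans
        (mul_le_mul (hμ _ (mem_ball_iff_norm.2 hz)) c1 (norm_nonneg _) μ0)
      have c3 := norm_sub_le ((B - D.am (D.x a)) (D.p e a)) (D.q a e - D.am (D.x a) (D.p e a))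
      have c4 := mul_le_mul_of_nonneg_right (show 2 * ‖D.y a‖ ≤ 3 * ρ by linarith) c0
      rw [sub_apply, sub_sub_sub_cancel_right] at c3
      rw [sub_apply] at c2
      refine (absd_phib (V := 3 * (μ₀ + ρ) * √(D.en a)) (kb1 _) ?_ (f1 _)).trans
        (le_of_eq (by ring))
      linarith [ha.2.2.2.2.2.1]) fun a ha => by simp [z1 a ha]
  have i2 := bd_phib hZ (F := fun a => kr ρ (u - D.x a) * deriv (deriv Ψ) (D.z e a - hh) *
      ⟪D.g a e, e⟫) ((mk.mul mf').mul mg) (hen.const_mul 4) (K * (1 / η))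
    (hpw.mono fun a ha _ => abs3_phib (kb0 _) (f2 _) (by
      rw [abs_of_nonneg ha.2.2.2.2.2.2.2.1]; exact ha.2.2.2.2.2.2.2.2.1))
    fun a ha => by simp [z0 a ha]
  have i3 := bd_phib hZ (F := fun a => kr ρ (u - D.x a) * deriv Ψ (D.z e a - hh) * ⟪D.L a, e⟫)
    ((mk.mul mf).mul ((continuous_id.inner continuous_const).measurable.comp h.m_L)) hsq (K * 1)
    (hpw.mono fun a ha _ => abs3_phib (kb0 _) (f1 _) ha.2.2.2.2.2.2.2.2.2.2.2.2.2.1)
    fun a ha => by simp [z0 a ha]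
  have id := h.ver_e e (test_phib k1 p2 r0 (fun w hw => (kr_zero r0 hw).1) hu hh)
  simp only [fd_phib (k1.differentiable one_ne_zero) (p2.differentiable one_ne_zero)] at id
  have j1 := integrable_finsetSum Finset.univ fun i _ => (T1 i).1
  have e1 := sum4_phib j1 i2.1 i3.1 i1.1 id fun a => by
    have c1 := sum_eb ((fderiv ℝ (kr ρ) (u - D.x a)).comp B) (D.p e a)
    simp only [ContinuousLinearMap.comp_apply] at c1
    have c2 : ∑ i, fderiv ℝ (kr ρ) (u - D.x a) (B (LG.eb i)) * deriv Ψ (D.z e a - hh) *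
        ⟪D.p e a, LG.eb i⟫ = fderiv ℝ (kr ρ) (u - D.x a) (B (D.p e a)) *
          deriv Ψ (D.z e a - hh) := by
      rw [← c1, Finset.sum_mul]
      exact Finset.sum_congr rfl fun i _ => by ring
    rw [c2, map_sub]
    ring
  rw [integral_finsetSum _ fun i _ => (T1 i).1] at e1
  have s1 := Finset.sum_le_sum fun i (_ : i ∈ Finset.univ) => (T1 i).2
  rw [Finset.sum_sub_distrib, e1, Finset.sum_const, Finset.card_univ, Fintype.card_fin,
    nsmul_eq_mul] at s1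
  obtain ⟨P, hP⟩ : ∃ P, P = (μ₀ + ρ) * lam ^ 2 / (ρ ^ 2 * η) := ⟨_, rfl⟩
  have P1 : (μ₀ + ρ) * lam / ρ ^ 2 ≤ P := by
    rw [hP, div_le_div_iff₀ (by positivity) (by positivity)]
    have := mul_le_mul_of_nonneg_left hη (show 0 ≤ (μ₀ + ρ) * lam * ρ ^ 2 by positivity)
    linarith
  have t1 : K / ρ * (3 * (μ₀ + ρ)) * ∫ a in D.cyl u ρ, √(D.en a) ∂D.m ≤ 3 * Ck d * C ^ 2 * P :=
    calc _ ≤ K / ρ * (3 * (μ₀ + ρ)) * (C * r * (C * (lam / ρ))) :=
          mul_le_mul_of_nonneg_left v4 (by positivity)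
      _ = 3 * Ck d * C ^ 2 * ((μ₀ + ρ) * lam / ρ ^ 2) := by rw [← Kr]; field_simp
      _ ≤ _ := mul_le_mul_of_nonneg_left P1 (by positivity)
  have t3 : K * 1 * ∫ a in D.cyl u ρ, √(D.en a) ∂D.m ≤ Ck d * C ^ 2 * P :=
    calc _ ≤ K * 1 * (C * r * (C * (lam / ρ))) := mul_le_mul_of_nonneg_left v4 (by positivity)
      _ = Ck d * C ^ 2 * (ρ * lam / ρ ^ 2) := by rw [← Kr]; field_simp
      _ ≤ Ck d * C ^ 2 * ((μ₀ + ρ) * lam / ρ ^ 2) := by gcongr; linarith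
      _ ≤ _ := mul_le_mul_of_nonneg_left P1 (by positivity)
  have i7 := (hen.indicator hZ).const_mul (K * (1 / η) * (8 * (μ₀ + ρ)))
  have t7 := integral_mono_ae i5 (i2.1.add i7) (by
    filter_upwards [hpw, hs] with a ha hy
    simp only [Pi.add_apply]
    by_cases hz : a ∈ D.cyl u ρ
    · rw [indicator_of_mem hz]
      have c0 := ha.2.1
      have c1 := (real_inner_le_norm ((B - D.am (D.x a)) (D.p e a)) (D.p e a)).trans
        (mul_le_mul_of_nonneg_right (((B - D.am (D.x a)).le_opNorm (D.p e a)).trans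
          (mul_le_mul_of_nonneg_right (hμ _ (mem_ball_iff_norm.2 hz)) (norm_nonneg _)))
          (norm_nonneg _))
      rw [sub_apply, inner_sub_left] at c1
      have c2 := mul_le_mul_of_nonneg_left ha.2.2.2.2.1 μ0
      have c3 := mul_le_mul (show ‖D.y a‖ ≤ ρ by linarith) ha.2.2.2.2.2.2.2.2.1
        ha.2.2.2.2.2.2.2.1 r0.le
      have c4 := mul_nonneg r0.le c0
      have c5 : ⟪B (D.p e a), D.p e a⟫ ≤ ⟪D.g a e, e⟫ + 8 * (μ₀ + ρ) * D.en a := by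
        linarith [ha.2.2.2.2.2.2.2.2.2.1]
      have c6 := mul_le_mul_of_nonneg_left c5 (w0 a)
      have c7 := (le_abs_self _).trans (abs3_phib (kb0 (u - D.x a)) (f2 (D.z e a - hh))
        (abs_of_nonneg (show 0 ≤ 8 * (μ₀ + ρ) * D.en a by positivity)).le)
      linarith
    · simp [indicator_of_notMem hz, z0 a hz])
  rw [integral_add' i2.1 i7, integral_const_mul, integral_indicator hZ] at t7
  have t8 : K * (1 / η) * (8 * (μ₀ + ρ)) * ∫ a in D.cyl u ρ, D.en a ∂D.m ≤ 8 * Ck d * C * P :=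
    calc _ = 8 * Ck d * (μ₀ + ρ) / η * E1 := by
          rw [show ∫ a in D.cyl u ρ, D.en a ∂D.m = E1 * r from eE, ← Kr]; ring
      _ ≤ 8 * Ck d * (μ₀ + ρ) / η * (C * (lam ^ 2 / ρ ^ 2)) :=
          mul_le_mul_of_nonneg_left v2 (by positivity)
      _ = _ := by rw [hP]; field_simp
  have e2 : fderiv ℝ (fderiv ℝ (D.Phi e ρ Ψ)) (u, hh) (0, 1) (0, 1) =
      ∫ a, kr ρ (u - D.x a) * deriv (deriv Ψ) (D.z e a - hh) ∂D.m :=
    (hone D R δ lam ρ η e Ψ h hδ hs l0 hl he hΨ η0 hη).2.2.1 (u, hh)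
  have e3 : ∑ i, -⟪X, LG.eb i⟫ * -⟪X, B (LG.eb i)⟫ = ⟪X, B X⟫ := by
    simpa using sum_eb ((innerSL ℝ X).comp B) X
  simp only [hX]
  rw [Finset.sum_sub_distrib, ← Finset.sum_div, e2, e3, ← hP]
  have P0 : 0 ≤ P := by rw [hP]; positivity
  have q1 : 0 ≤ (24 * d * Ck d + 18 * Ck d ^ 2 * C) * P := by positivity
  have q2 : 0 ≤ (4 * Ck d * C ^ 2 + 8 * Ck d * C) * (lam / ρ ^ 2 * E1) := by positivity
  linarith [(abs_le.1 i1.2).1, (abs_le.1 i3.2).1]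

end Pool.Agent.Lib.MP_8daebb_an.GM
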