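import Pool.Agent.Lib.MP_8daebb_an.AS.LiftA
import Pool.Agent.Lib.MP_8daebb_an.AS.LDef

/-! Pull-back of functions, integrals and test fields by an affine change of variable. -/

set_option linter.unusedSectionVars false

open MeasureTheory Metric Set Module
open scoped RealInnerProductSpace

namespace Pool.Agent.Lib.MP_8daebb_an.GM

open AS

variable {X : Type*} [NormedAddCommGroup X] [InnerProductSpace ℝ X] [FiniteDimensional ℝ X]
  [MeasurableSpace X] [BorelSpace X]

/-- The affine map `z ↦ x₀ + B z`. -/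
def afm (x₀ : X) (B : X ≃L[ℝ] X) (z : X) : X := x₀ + B z

/-- Its inverse. -/
def afi (x₀ : X) (B : X ≃L[ℝ] X) (x : X) : X := B.symm (x - x₀)

/-- The volume factor. -/
noncomputable def vf (B : X ≃L[ℝ] X) : ℝ := |(B : X →L[ℝ] X).det|

variable {x₀ : X} {B : X ≃L[ℝ] X}

theorem afm_afi (x : X) : afm x₀ B (afi x₀ B x) = x := by simp [afm, afi]

theorem afi_afm (z : X) : afi x₀ B (afm x₀ B z) = z := by simp [afm, afi]

theorem afm_sub (z z' : X) : afm x₀ B z - afm x₀ B z' = B (z - z') := by simp [afm]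

theorem hasFDerivAt_afm (z : X) : HasFDerivAt (afm x₀ B) (B : X →L[ℝ] X) z :=
  (B : X →L[ℝ] X).hasFDerivAt.const_add x₀

theorem hasFDerivAt_afi (x : X) : HasFDerivAt (afi x₀ B) (B.symm : X →L[ℝ] X) x := by
  have h := (B.symm : X →L[ℝ] X).hasFDerivAt.comp x ((hasFDerivAt_id x).sub_const x₀)
  rwa [ContinuousLinearMap.comp_id] at h

theorem contDiff_afm {n : WithTop ℕ∞} : ContDiff ℝ n (afm x₀ B) := contDiff_const.add B.contDiff

theorem contDiff_afi {n : WithTop ℕ∞} : ContDiff ℝ n (afi x₀ B) :=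
  B.symm.contDiff.comp (contDiff_id.sub contDiff_const)

theorem continuous_afm : Continuous (afm x₀ B) := (contDiff_afm (n := 0)).continuous

theorem continuous_afi : Continuous (afi x₀ B) := (contDiff_afi (n := 0)).continuous

theorem vf_pos (B : X ≃L[ℝ] X) : 0 < vf B :=
  abs_pos.2 (LinearEquiv.isUnit_det' B.toLinearEquiv).ne_zero

theorem integral_afm (f : X → ℝ) : ∫ z, f (afm x₀ B z) = (vf B)⁻¹ * ∫ x, f x := by
  have h0 : LinearMap.det ((B : X →L[ℝ] X) : X →ₗ[ℝ] X) ≠ 0 := abs_pos.1 (vf_pos B)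
  have h1 := Measure.map_linearMap_addHaar_eq_smul_addHaar (volume : Measure X) h0
  have h2 := integral_map_equiv (μ := (volume : Measure X)) B.toHomeomorph.toMeasurableEquiv
    fun x => f (x₀ + x)
  have h3 : Measure.map B.toHomeomorph.toMeasurableEquiv (volume : Measure X) = _ := h1
  rw [h3, integral_smul_measure, integral_add_left_eq_self, ENNReal.toReal_ofReal (abs_nonneg _),
    abs_inv, smul_eq_mul] at h2
  exact h2.symm

theorem setIntegral_afm (f : X → ℝ) {S : Set X} (hS : MeasurableSet S) :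
    ∫ z in afm x₀ B ⁻¹' S, f (afm x₀ B z) = (vf B)⁻¹ * ∫ x in S, f x := by
  rw [← integral_indicator hS, ← integral_afm (x₀ := x₀),
    ← integral_indicator (hS.preimage continuous_afm.measurable)]
  exact integral_congr_ae (Filter.Eventually.of_forall fun z =>
    (indicator_comp_right (afm x₀ B) (g := f) (s := S) (x := z)))

theorem integrableOn_bdd {f : X → ℝ} (hf : Continuous f) {S : Set X}
    (hS : Bornology.IsBounded S) : IntegrableOn f S := by
  obtain ⟨R, hR⟩ := hS.subset_closedBall 0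
  exact (hf.continuousOn.integrableOn_compact (isCompact_closedBall 0 R)).mono_set hR

theorem bounded_preimage {S : Set X} (hS : Bornology.IsBounded S) :
    Bornology.IsBounded (afm x₀ B ⁻¹' S) := by
  obtain ⟨R, hR⟩ := hS.subset_closedBall x₀
  refine (isBounded_closedBall (x := (0 : X)) (r := ‖(B.symm : X →L[ℝ] X)‖ * R)).subset
    fun z hz => ?_
  have h1 := mem_closedBall_iff_norm.1 (hR hz)
  rw [mem_closedBall_zero_iff, ← afi_afm (x₀ := x₀) (B := B) z]
  exact ((B.symm : X →L[ℝ] X).le_opNorm _).trans (mul_le_mul_of_nonneg_left h1 (norm_nonneg _))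

/-- upper bound of a set integral of a pulled-back function -/
theorem setIntegral_afm_le {f : X → ℝ} (hf : Continuous f) {S T : Set X} (hS : MeasurableSet S)
    (hb : Bornology.IsBounded S) (h0 : ∀ x ∈ S, 0 ≤ f x) (hT : ∀ z ∈ T, afm x₀ B z ∈ S) :
    ∫ z in T, f (afm x₀ B z) ≤ (vf B)⁻¹ * ∫ x in S, f x := by
  rw [← setIntegral_afm (x₀ := x₀) f hS]
  exact setIntegral_mono_set (integrableOn_bdd (hf.comp continuous_afm) (bounded_preimage hb))
    ((ae_restrict_iff' (hS.preimage continuous_afm.measurable)).2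
      (Filter.Eventually.of_forall fun z hz => h0 _ hz)) (LE.le.eventuallyLE hT)

/-- lower bound of a set integral of a pulled-back function -/
theorem le_setIntegral_afm {f : X → ℝ} (hf : Continuous f) {S T : Set X} (hS : MeasurableSet S)
    (hT : MeasurableSet T) (hb : Bornology.IsBounded T) (h0 : ∀ z ∈ T, 0 ≤ f (afm x₀ B z))
    (hST : ∀ z, afm x₀ B z ∈ S → z ∈ T) :
    (vf B)⁻¹ * ∫ x in S, f x ≤ ∫ z in T, f (afm x₀ B z) := by
  rw [← setIntegral_afm (x₀ := x₀) f hS]
  exact setIntegral_mono_set (integrableOn_bdd (hf.comp continuous_afm) hb)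
    ((ae_restrict_iff' hT).2 (Filter.Eventually.of_forall h0)) (LE.le.eventuallyLE hST)

theorem fderiv_afm {f : X → ℝ} (hf : Differentiable ℝ f) (z : X) :
    fderiv ℝ (fun z => f (afm x₀ B z)) z = (fderiv ℝ f (afm x₀ B z)).comp (B : X →L[ℝ] X) :=
  ((hf _).hasFDerivAt.comp z (hasFDerivAt_afm z)).fderiv

theorem differentiable_gradient {f : X → ℝ} (hf : ContDiff ℝ 2 f) :
    Differentiable ℝ (gradient f) := by
  have := FiniteDimensional.complete ℝ X
  exact (InnerProductSpace.toDual ℝ X).symm.toContinuousLinearEquiv.differentiable.comp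
    ((hf.fderiv_right (m := 1) (by norm_num)).differentiable one_ne_zero)

/-- the Laplacian of the pull-back, for a symmetric change of variable -/
theorem lap_afm (hB : ∀ v u, ⟪B v, u⟫ = ⟪v, B u⟫) {f : X → ℝ} (hf : ContDiff ℝ 2 f) (z : X) :
    lap (fun z => f (afm x₀ B z)) z =
      tr (((B : X →L[ℝ] X).comp (B : X →L[ℝ] X)).comp
        (fderiv ℝ (gradient f) (afm x₀ B z))) := by
  have := FiniteDimensional.complete ℝ X
  have h1 : Differentiable ℝ f := hf.differentiable (by norm_num)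
  have h3 : gradient (fun z => f (afm x₀ B z)) = fun z => B (gradient f (afm x₀ B z)) := by
    funext z
    refine ext_inner_right ℝ fun v => ?_
    rw [hB, gradient, gradient, InnerProductSpace.toDual_symm_apply,
      InnerProductSpace.toDual_symm_apply, fderiv_afm h1]
    rfl
  have h4 : fderiv ℝ (fun z => B (gradient f (afm x₀ B z))) z =
      (B : X →L[ℝ] X).comp ((fderiv ℝ (gradient f) (afm x₀ B z)).comp (B : X →L[ℝ] X)) :=
    ((B : X →L[ℝ] X).hasFDerivAt.comp z
      ((differentiable_gradient hf _).hasFDerivAt.comp z (hasFDerivAt_afm z))).fderiv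
  rw [lap, h3, h4, ← ContinuousLinearMap.comp_assoc, tr_comm, ContinuousLinearMap.comp_assoc]

/-- The push-forward of a vector field. -/
def pf (x₀ : X) (B : X ≃L[ℝ] X) (Y : X → X) (x : X) : X := B (Y (afi x₀ B x))

theorem contDiff_pf {Y : X → X} (hY : ContDiff ℝ 1 Y) : ContDiff ℝ 1 (pf x₀ B Y) :=
  B.contDiff.comp (hY.comp contDiff_afi)

theorem pf_afm (Y : X → X) (z : X) : pf x₀ B Y (afm x₀ B z) = B (Y z) := by rw [pf, afi_afm]

theorem fderiv_pf {Y : X → X} (hY : ContDiff ℝ 1 Y) (z : X) :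
    fderiv ℝ (pf x₀ B Y) (afm x₀ B z) =
      (B : X →L[ℝ] X).comp ((fderiv ℝ Y z).comp (B.symm : X →L[ℝ] X)) := by
  have h1 : HasFDerivAt Y (fderiv ℝ Y z) (afi x₀ B (afm x₀ B z)) := by
    rw [afi_afm]
    exact (hY.differentiable one_ne_zero z).hasFDerivAt
  exact ((B : X →L[ℝ] X).hasFDerivAt.comp _ (h1.comp _ (hasFDerivAt_afi _))).fderiv

theorem tsupport_pf {Y : X → X} {x : X} (hx : x ∈ tsupport (pf x₀ B Y)) :
    afi x₀ B x ∈ tsupport Y :=
  tsupport_comp_subset_preimage Y continuous_afi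
    (tsupport_comp_subset (g := B) (map_zero _) (fun x => Y (afi x₀ B x)) hx)

theorem pair_conj (ε : ℝ) (T A : X →L[ℝ] X) :
    pair ε T ((B : X →L[ℝ] X).comp (A.comp (B.symm : X →L[ℝ] X))) =
      pair ε ((B.symm : X →L[ℝ] X).comp (T.comp (B : X →L[ℝ] X))) A := by
  have h1 : tr ((B : X →L[ℝ] X).comp (A.comp (B.symm : X →L[ℝ] X))) = tr A := by
    rw [tr_comm, ContinuousLinearMap.comp_assoc, ContinuousLinearEquiv.coe_symm_comp_coe,
      ContinuousLinearMap.comp_id]
  have h2 : tr (T.comp ((B : X →L[ℝ] X).comp (A.comp (B.symm : X →L[ℝ] X)))) =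
      tr (((B.symm : X →L[ℝ] X).comp (T.comp (B : X →L[ℝ] X))).comp A) := by
    rw [← ContinuousLinearMap.comp_assoc, ← ContinuousLinearMap.comp_assoc, tr_comm]
    rfl
  rw [pair, pair, h1, h2]

theorem tr_eq_sum' (A : X →L[ℝ] X) :
    tr A = ∑ k, ⟪stdOrthonormalBasis ℝ X k, A (stdOrthonormalBasis ℝ X k)⟫ :=
  LinearMap.trace_eq_sum_inner _ _

theorem abs_tr_le (A : X →L[ℝ] X) : |tr A| ≤ finrank ℝ X * ‖A‖ := by
  rw [tr_eq_sum']
  refine (Finset.abs_sum_le_sum_abs _ _).trans ?_
  have : ∀ i ∈ (Finset.univ : Finset (Fin (finrank ℝ X))), |⟪stdOrthonormalBasis ℝ X i,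
      A (stdOrthonormalBasis ℝ X i)⟫| ≤ ‖A‖ := fun i _ => by
    refine (abs_real_inner_le_norm _ _).trans ?_
    have h := A.le_opNorm (stdOrthonormalBasis ℝ X i)
    rw [(stdOrthonormalBasis ℝ X).norm_eq_one i] at h ⊢
    linarith
  simpa using Finset.sum_le_card_nsmul _ _ _ this

theorem tr_sub' (A A' : X →L[ℝ] X) : tr (A - A') = tr A - tr A' := by
  unfold tr
  rw [ContinuousLinearMap.toLinearMap_sub, map_sub]

theorem tr_smul' (c : ℝ) (A : X →L[ℝ] X) : tr (c • A) = c * tr A := by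
  unfold tr
  rw [ContinuousLinearMap.toLinearMap_smul, map_smul, smul_eq_mul]

theorem tr_one' : tr (1 : X →L[ℝ] X) = finrank ℝ X := by
  simp [tr, ContinuousLinearMap.one_def]

end Pool.Agent.Lib.MP_8daebb_an.GM
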