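import Pool.Agent.Lib.MP_8daebb_an.GM.Id
import Pool.Agent.Lib.MP_8daebb_an.SV.SC0
import Pool.Agent.Lib.MP_8daebb_an.Mono

/-! Change of scale at a fixed centre: the smoothed mass and the error density. -/

set_option linter.unusedSectionVars false
set_option linter.unusedVariables false

open MeasureTheory Metric Filter Topology Set
open scoped RealInnerProductSpace ENNReal ContDiff

namespace Pool.Agent.Lib.MP_8daebb_an.GM

open LG (vb chi om trS Sym)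

variable {α : Type*} [MeasurableSpace α] {m : ℕ} {H : Type*} [NormedAddCommGroup H]
  [InnerProductSpace ℝ H] [FiniteDimensional ℝ H] [MeasurableSpace H] [BorelSpace H]

lemma cs_sc1 {X P Q : ℝ} (hP : 0 ≤ P) (hQ : 0 ≤ Q)
    (h : ∀ η, 0 < η → X ≤ (η * P + Q / η) / 2) : X ≤ √(P * Q) := by
  have key : ∀ ε, 0 < ε → X ≤ √((P + ε) * (Q + ε)) := by
    intro ε hε
    have hp : 0 < √(P + ε) := Real.sqrt_pos.mpr (by linarith)
    have hq : 0 < √(Q + ε) := Real.sqrt_pos.mpr (by linarith)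
    have h1 := h (√(Q + ε) / √(P + ε)) (div_pos hq hp)
    have ep : √(P + ε) ^ 2 = P + ε := Real.sq_sqrt (by linarith)
    have eq : √(Q + ε) ^ 2 = Q + ε := Real.sq_sqrt (by linarith)
    rw [Real.sqrt_mul (by linarith)]
    have h2 : √(Q + ε) / √(P + ε) * P ≤ √(P + ε) * √(Q + ε) := by
      rw [div_mul_eq_mul_div, div_le_iff₀ hp]
      have : √(P + ε) * √(Q + ε) * √(P + ε) = √(Q + ε) * (P + ε) := by
        rw [← ep]; rw [Real.sqrt_sq hp.le]; ring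
      rw [this]
      exact mul_le_mul_of_nonneg_left (by linarith) hq.le
    have h3 : Q / (√(Q + ε) / √(P + ε)) ≤ √(P + ε) * √(Q + ε) := by
      rw [div_div_eq_mul_div, div_le_iff₀ hq]
      have : √(P + ε) * √(Q + ε) * √(Q + ε) = (Q + ε) * √(P + ε) := by
        rw [← eq]; rw [Real.sqrt_sq hq.le]; ring
      rw [this]
      exact mul_le_mul_of_nonneg_right (by linarith) hp.le
    linarith
  have ht : Tendsto (fun ε : ℝ => √((P + ε) * (Q + ε))) (𝓝[>] 0) (𝓝 (√((P + 0) * (Q + 0)))) :=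
    (Continuous.tendsto (by fun_prop) 0).mono_left nhdsWithin_le_nhds
  rw [add_zero, add_zero] at ht
  exact ge_of_tendsto ht (eventually_nhdsWithin_of_forall fun ε hε => key ε hε)

/-- The smoothed mass, cut in height. -/
noncomputable def J_sc1 (D : CD m α H) (u : E m) (d : ℝ) (ψ : H → ℝ) (s : ℝ) : ℝ :=
  ∫ a, cut d (‖D.x a - u‖ ^ 2 / s ^ 2) * ψ (D.y a) ∂D.m

variable {D : CD m α H} {c : E m} {R δ M : ℝ}

lemma meas_k_sc1 (h : CV D c R δ M) (u : E m) (s : ℝ) :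
    Measurable fun a => ‖D.x a - u‖ ^ 2 / s ^ 2 :=
  (((h.m_x.sub_const u).norm).pow_const 2).div_const _

lemma int_J_sc1 (h : CV D c R δ M) (u : E m) (d s : ℝ) {ψ : H → ℝ} (hψ : Continuous ψ)
    (h01 : ∀ y, 0 ≤ ψ y ∧ ψ y ≤ 1) :
    Integrable (fun a => cut d (‖D.x a - u‖ ^ 2 / s ^ 2) * ψ (D.y a)) D.m := by
  refine h.integrable (Measurable.aestronglyMeasurable
    (((cut_contDiff d).continuous.measurable.comp (meas_k_sc1 h u s)).mul
      (hψ.measurable.comp h.m_y))) 1 fun a _ _ => ?_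
  rw [Real.norm_eq_abs, abs_of_nonneg (mul_nonneg (cut_nonneg _ _) (h01 _).1)]
  exact mul_le_one₀ (cut_le_one _ _) (h01 _).1 (h01 _).2

lemma J_deriv_sc1 (h : CV D c R δ M) (u : E m) (d : ℝ) {s : ℝ} (hs : 0 < s) {ψ : H → ℝ}
    (hψ : Continuous ψ) (h01 : ∀ y, 0 ≤ ψ y ∧ ψ y ≤ 1) :
    Integrable (fun a => deriv (cut d) (‖D.x a - u‖ ^ 2 / s ^ 2) *
      (-2 * ‖D.x a - u‖ ^ 2 / s ^ 3) * ψ (D.y a)) D.m ∧
    HasDerivAt (J_sc1 D u d ψ) (∫ a, deriv (cut d) (‖D.x a - u‖ ^ 2 / s ^ 2) *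
      (-2 * ‖D.x a - u‖ ^ 2 / s ^ 3) * ψ (D.y a) ∂D.m) s := by
  have := h.fin
  obtain ⟨C, hC⟩ := cut_deriv_bound (δ := d) ((2 + ‖u‖) ^ 2 / (s / 2) ^ 2)
  have hC0 : 0 ≤ C := (abs_nonneg _).trans (hC 0 ⟨le_rfl, by positivity⟩)
  refine hasDerivAt_integral_of_dominated_loc_of_deriv_le
    (F := fun (s : ℝ) (a : α) => cut d (‖D.x a - u‖ ^ 2 / s ^ 2) * ψ (D.y a))
    (F' := fun (s : ℝ) (a : α) => deriv (cut d) (‖D.x a - u‖ ^ 2 / s ^ 2) *
      (-2 * ‖D.x a - u‖ ^ 2 / s ^ 3) * ψ (D.y a))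
    (bound := fun _ => C * (2 * (2 + ‖u‖) ^ 2 / (s / 2) ^ 3))
    (Ioi_mem_nhds (half_lt_self hs)) ?_ (int_J_sc1 h u d s hψ h01) ?_ ?_
    (integrable_const _) ?_
  · exact Eventually.of_forall fun t => (int_J_sc1 h u d t hψ h01).aestronglyMeasurable
  · exact Measurable.aestronglyMeasurable
      ((((cut_deriv_continuous d).measurable.comp (meas_k_sc1 h u s)).mul
        (((((h.m_x.sub_const u).norm).pow_const 2).const_mul _).div_const _)).mul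
        (hψ.measurable.comp h.m_y))
  · filter_upwards [h.ae_G] with a ha t ht
    have ht0 : 0 < t := (half_pos hs).trans ht
    have h3 : s / 2 < t := ht
    have hz' : ‖D.x a - u‖ ≤ 2 + ‖u‖ :=
      (norm_sub_le _ _).trans (by linarith [(h.pw a ha).x_le])
    rw [Real.norm_eq_abs, abs_mul, abs_mul, abs_of_nonneg (h01 _).1]
    refine (mul_le_of_le_one_right (by positivity) (h01 _).2).trans ?_
    refine mul_le_mul (hC _ ⟨by positivity, by gcongr⟩) ?_ (abs_nonneg _) hC0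
    rw [abs_div, abs_mul, abs_of_nonneg (by positivity : 0 ≤ ‖D.x a - u‖ ^ 2),
      abs_of_pos (by positivity : 0 < t ^ 3), abs_neg, abs_two]
    gcongr
  · refine Eventually.of_forall fun a t ht => ?_
    have ht0 : 0 < t := (half_pos hs).trans ht
    have h3 : HasDerivAt (fun t : ℝ => ‖D.x a - u‖ ^ 2 / t ^ 2)
        (-2 * ‖D.x a - u‖ ^ 2 / t ^ 3) t := by
      have := (hasDerivAt_const t (‖D.x a - u‖ ^ 2)).div (hasDerivAt_pow 2 t) (by positivity)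
      refine this.congr_deriv ?_
      simp only [Nat.cast_ofNat, Nat.add_one_sub_one, pow_one]
      field_simp
      ring
    exact ((cut_hasDerivAt d _).comp t h3).mul_const _

/-- The test function. -/
noncomputable def Ps_sc1 (u : E m) (d s : ℝ) (ψ : H → ℝ) (z : E m × H) : ℝ :=
  cut d (‖z.1 - u‖ ^ 2 / s ^ 2) * ψ z.2

lemma Ps_test_sc1 {u : E m} {d s : ℝ} (hd : 0 < d) (hs : 0 < s) (hR : ‖u - c‖ + s < R) {ψ : H → ℝ}
    (hψ : ContDiff ℝ 1 ψ) : Test c R (Ps_sc1 u d s ψ) := by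
  refine ⟨ContDiff.contDiffOn ?_, ‖u - c‖ + s, hR, fun z hz => ?_⟩
  · have hn : ContDiff ℝ 1 fun z : E m × H => ‖z.1 - u‖ ^ 2 / s ^ 2 :=
      ((contDiff_fst.sub contDiff_const).norm_sq ℝ).div_const _
    exact (((cut_contDiff d).of_le (by norm_num)).comp hn).mul (hψ.comp contDiff_snd)
  · have h1 : ‖z.1 - c‖ ≤ ‖z.1 - u‖ + ‖u - c‖ := norm_sub_le_norm_sub_add_norm_sub _ _ _
    have h2 : s ≤ ‖z.1 - u‖ := by linarith
    unfold Ps_sc1
    rw [cut_zero hd, zero_mul]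
    rw [one_le_div (by positivity)]
    gcongr

lemma Ps_fderiv_sc1 (u : E m) (d s : ℝ) {ψ : H → ℝ} (hψ : ContDiff ℝ 1 ψ) (x v : E m) (y w : H) :
    fderiv ℝ (Ps_sc1 u d s ψ) (x, y) (v, w) =
      deriv (cut d) (‖x - u‖ ^ 2 / s ^ 2) * (2 * ⟪x - u, v⟫ / s ^ 2) * ψ y +
        cut d (‖x - u‖ ^ 2 / s ^ 2) * fderiv ℝ ψ y w := by
  have hd1 : HasFDerivAt (fun z : E m × H => z.1 - u) (ContinuousLinearMap.fst ℝ (E m) H) (x, y) :=
    (hasFDerivAt_fst (p := (x, y))).sub_const u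
  have hd2 := (cut_hasDerivAt d _).comp_hasFDerivAt (x, y) (hd1.norm_sq.mul_const (s ^ 2)⁻¹)
  have hd3 : HasFDerivAt (fun z : E m × H => ψ z.2)
      ((fderiv ℝ ψ y).comp (ContinuousLinearMap.snd ℝ (E m) H)) (x, y) :=
    (hψ.differentiable one_ne_zero y).hasFDerivAt.comp (x, y) hasFDerivAt_snd
  have hd4 := hd2.mul hd3
  have hX : Ps_sc1 u d s ψ = (cut d ∘ fun z : E m × H => ‖z.1 - u‖ ^ 2 * (s ^ 2)⁻¹) *
      fun z : E m × H => ψ z.2 := by
    ext z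
    simp [Ps_sc1, div_eq_mul_inv]
  rw [hX, hd4.fderiv]
  simp only [add_apply, smul_apply, Function.comp_apply, ContinuousLinearMap.comp_apply,
    innerSL_apply_apply, smul_eq_mul, nsmul_eq_mul, div_eq_mul_inv,
    ContinuousLinearMap.coe_fst', ContinuousLinearMap.coe_snd']
  push_cast
  ring

/-- The error density. -/
noncomputable def err_sc1 (D : CD m α H) (u : E m) (d s : ℝ) (ψ : H → ℝ) (a : α) : ℝ :=
  -(deriv (cut d) (‖D.x a - u‖ ^ 2 / s ^ 2) * (2 * ⟪D.x a - u, D.τ a (D.x a - u)⟫ / s ^ 2) *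
      ψ (D.y a)) +
    cut d (‖D.x a - u‖ ^ 2 / s ^ 2) * fderiv ℝ ψ (D.y a) (D.b a (D.x a - u)) -
    cut d (‖D.x a - u‖ ^ 2 / s ^ 2) * ψ (D.y a) * D.t a +
    cut d (‖D.x a - u‖ ^ 2 / s ^ 2) * ψ (D.y a) * ⟪D.eh a, D.x a - u⟫

lemma meas_err_sc1 (h : CV D c R δ M) (u : E m) (d s : ℝ) {ψ : H → ℝ} (hψ : ContDiff ℝ 1 ψ) :
    Measurable (err_sc1 D u d s ψ) := by
  have hx : Measurable fun a => D.x a - u := h.m_x.sub_const u
  have h1 := (cut_contDiff d).continuous.measurable.comp (meas_k_sc1 h u s)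
  have h2 := (cut_deriv_continuous d).measurable.comp (meas_k_sc1 h u s)
  have h3 := hψ.continuous.measurable.comp h.m_y
  have h4 : Measurable fun a => D.τ a (D.x a - u) :=
    ContinuousLinearMap.measurable_apply₂.comp (h.m_τ.prodMk hx)
  have h5 : Measurable fun a => D.b a (D.x a - u) :=
    ContinuousLinearMap.measurable_apply₂.comp (h.m_b.prodMk hx)
  have h6 : Measurable fun a => fderiv ℝ ψ (D.y a) (D.b a (D.x a - u)) :=
    ContinuousLinearMap.measurable_apply₂.comp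
      (((hψ.continuous_fderiv one_ne_zero).measurable.comp h.m_y).prodMk h5)
  exact ((((h2.mul (((hx.inner h4).const_mul 2).div_const _)).mul h3).neg.add (h1.mul h6)).sub
    ((h1.mul h3).mul h.m_t)).add ((h1.mul h3).mul (h.m_eh.inner hx))

lemma err_le_sc1 (h : CV D c R δ M) (hδ : δ ≤ 1) (u : E m) {d s C₁ Λ : ℝ} (hd : 0 < d) (hs : 0 < s)
    (hC : ∀ k ∈ Icc (0 : ℝ) 2, |deriv (cut d) k| ≤ C₁) {ψ : H → ℝ} {S : Set H}
    (h01 : ∀ y, 0 ≤ ψ y ∧ ψ y ≤ 1) (hΛ : ∀ y, ‖fderiv ℝ ψ y‖ ≤ Λ)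
    (hS : ∀ y ∉ S, ψ y = 0 ∧ fderiv ℝ ψ y = 0) {a : α} (ha : a ∈ D.G) :
    |err_sc1 D u d s ψ a| ≤ (D.cyl u (4 / 3 * s) ∩ D.y ⁻¹' S).indicator
      (fun a => (8 * C₁ + 1) * (D.t a + δ * ‖D.y a‖ ^ 2) +
        6 * Λ * s * √(D.t a + δ * ‖D.y a‖ ^ 2) + 2 * (m + 4) * δ * s) a := by
  by_cases hZ : a ∈ D.cyl u (4 / 3 * s) ∩ D.y ⁻¹' S
  · rw [indicator_of_mem hZ]
    have hp := h.pw a ha
    have hδ0 := h.δ_nonneg
    have hx : ‖D.x a - u‖ < 4 / 3 * s := hZ.1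
    have hC0 : 0 ≤ C₁ := (abs_nonneg _).trans (hC 0 ⟨le_rfl, by positivity⟩)
    have hΛ0 : 0 ≤ Λ := (norm_nonneg _).trans (hΛ 0)
    have ht0 := hp.t_nonneg
    have hk : ‖D.x a - u‖ ^ 2 / s ^ 2 ≤ 2 := by
      rw [div_le_iff₀ (by positivity)]
      nlinarith [norm_nonneg (D.x a - u)]
    have hk1 := hC _ ⟨by positivity, hk⟩
    have hc0 := cut_nonneg d (‖D.x a - u‖ ^ 2 / s ^ 2)
    have hc1 := cut_le_one d (‖D.x a - u‖ ^ 2 / s ^ 2)
    have hψ0 := (h01 (D.y a)).1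
    have hψ1 := (h01 (D.y a)).2
    have hcψ : cut d (‖D.x a - u‖ ^ 2 / s ^ 2) * ψ (D.y a) ≤ 1 := mul_le_one₀ hc1 hψ0 hψ1
    have hcψ0 : 0 ≤ cut d (‖D.x a - u‖ ^ 2 / s ^ 2) * ψ (D.y a) := mul_nonneg hc0 hψ0
    have hy2 : 0 ≤ δ * ‖D.y a‖ ^ 2 := by positivity
    have e1 : |deriv (cut d) (‖D.x a - u‖ ^ 2 / s ^ 2) *
        (2 * ⟪D.x a - u, D.τ a (D.x a - u)⟫ / s ^ 2) * ψ (D.y a)| ≤ 8 * C₁ * D.t a := by
      have b1 : |⟪D.x a - u, D.τ a (D.x a - u)⟫| ≤ 2 * D.t a * ‖D.x a - u‖ ^ 2 := by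
        refine (abs_real_inner_le_norm _ _).trans ?_
        have := (D.τ a).le_of_opNorm_le hp.τ_le (D.x a - u)
        calc _ ≤ ‖D.x a - u‖ * (2 * D.t a * ‖D.x a - u‖) := by gcongr
          _ = _ := by ring
      have b2 : |2 * ⟪D.x a - u, D.τ a (D.x a - u)⟫ / s ^ 2| ≤ 8 * D.t a := by
        rw [abs_div, abs_mul, abs_two, abs_of_pos (by positivity : 0 < s ^ 2)]
        calc _ ≤ 2 * (2 * D.t a * ‖D.x a - u‖ ^ 2) / s ^ 2 := by gcongr
          _ = 4 * D.t a * (‖D.x a - u‖ ^ 2 / s ^ 2) := by ring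
          _ ≤ 4 * D.t a * 2 := by gcongr
          _ = _ := by ring
      rw [abs_mul, abs_mul, abs_of_nonneg hψ0]
      calc _ ≤ C₁ * (8 * D.t a) * 1 := by gcongr
        _ = _ := by ring
    have e2 : |cut d (‖D.x a - u‖ ^ 2 / s ^ 2) * fderiv ℝ ψ (D.y a) (D.b a (D.x a - u))| ≤
        6 * Λ * s * √(D.t a + δ * ‖D.y a‖ ^ 2) := by
      have b1 : √(D.t a) ≤ √(D.t a + δ * ‖D.y a‖ ^ 2) := Real.sqrt_le_sqrt (by linarith)
      have b2 : δ * ‖D.y a‖ ≤ √(D.t a + δ * ‖D.y a‖ ^ 2) := by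
        refine Real.le_sqrt_of_sq_le ?_
        have : δ ^ 2 * ‖D.y a‖ ^ 2 ≤ δ * ‖D.y a‖ ^ 2 := by
          refine mul_le_mul_of_nonneg_right ?_ (by positivity)
          nlinarith
        rw [mul_pow]
        linarith
      have b3 : ‖D.b a‖ ≤ 3 * √(D.t a + δ * ‖D.y a‖ ^ 2) := by linarith [hp.b_le]
      have b4 := (D.b a).le_of_opNorm_le b3 (D.x a - u)
      have b5 := (fderiv ℝ ψ (D.y a)).le_of_opNorm_le (hΛ _) (D.b a (D.x a - u))
      have b6 : ‖D.x a - u‖ ≤ 2 * s := by linarith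
      rw [abs_mul, abs_of_nonneg hc0, ← Real.norm_eq_abs]
      calc _ ≤ 1 * (Λ * (3 * √(D.t a + δ * ‖D.y a‖ ^ 2) * (2 * s))) := by
            refine mul_le_mul hc1 (b5.trans ?_) (norm_nonneg _) zero_le_one
            refine mul_le_mul_of_nonneg_left (b4.trans ?_) hΛ0
            gcongr
        _ = _ := by ring
    have e3 : |cut d (‖D.x a - u‖ ^ 2 / s ^ 2) * ψ (D.y a) * D.t a| ≤ D.t a := by
      rw [abs_of_nonneg (mul_nonneg hcψ0 ht0)]
      exact mul_le_of_le_one_left ht0 hcψ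
    have e4 : |cut d (‖D.x a - u‖ ^ 2 / s ^ 2) * ψ (D.y a) * ⟪D.eh a, D.x a - u⟫| ≤
        2 * (m + 4) * δ * s := by
      have b2 : ‖D.eh a‖ ≤ δ * (m + 4) := (hp.bounds hδ0).2.2.1
      have b6 : ‖D.x a - u‖ ≤ 2 * s := by linarith
      rw [abs_mul, abs_of_nonneg hcψ0]
      calc _ ≤ 1 * (δ * (m + 4) * (2 * s)) := by
            refine mul_le_mul hcψ ((abs_real_inner_le_norm _ _).trans ?_) (abs_nonneg _)
              zero_le_one
            gcongr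
        _ = _ := by ring
    have e5 : 0 ≤ (8 * C₁ + 1) * (δ * ‖D.y a‖ ^ 2) := by positivity
    rw [abs_le] at e1 e2 e3 e4 ⊢
    unfold err_sc1
    constructor <;> nlinarith [e1.1, e1.2, e2.1, e2.2, e3.1, e3.2, e4.1, e4.2]
  · rw [indicator_of_notMem hZ]
    rw [mem_inter_iff, not_and_or] at hZ
    unfold err_sc1
    rcases hZ with hZ | hZ
    · have hx : 4 / 3 * s ≤ ‖D.x a - u‖ := not_lt.mp hZ
      have hk : 1 < ‖D.x a - u‖ ^ 2 / s ^ 2 := by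
        rw [one_lt_div (by positivity)]
        have : s < ‖D.x a - u‖ := by linarith
        gcongr
      rw [cut_zero hd hk.le, cut_deriv_zero hd hk]
      simp
    · rw [(hS _ hZ).1, (hS _ hZ).2]
      simp

end Pool.Agent.Lib.MP_8daebb_an.GM
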