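import Pool.Agent.Lib.MP_8daebb_an.GM.Id
import Pool.Agent.Lib.MP_8daebb_an.SV.SC0
import Pool.Agent.Lib.MP_8daebb_an.GM.SC1X

/-! Change of scale at a fixed centre. -/

set_option linter.unusedSectionVars false
set_option linter.unusedVariables false

open MeasureTheory Metric Filter Topology Set
open scoped RealInnerProductSpace ENNReal ContDiff

namespace Pool.Agent.Lib.MP_8daebb_an.GM

open LG (vb chi om trS Sym)

variable {α : Type*} [MeasurableSpace α] {m : ℕ} {H : Type*} [NormedAddCommGroup H]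
  [InnerProductSpace ℝ H] [FiniteDimensional ℝ H] [MeasurableSpace H] [BorelSpace H]

variable {D : CD m α H} {c : E m} {R δ M : ℝ}

lemma int_err_sc1 (h : CV D c R δ M) (hδ : δ ≤ 1) (u : E m) {d s C₁ Λ V E₀ ρ : ℝ} (hd : 0 < d)
    (hs : 0 < s) (hC : ∀ k ∈ Icc (0 : ℝ) 2, |deriv (cut d) k| ≤ C₁) {ψ : H → ℝ} {S : Set H}
    (hψ : ContDiff ℝ 1 ψ) (h01 : ∀ y, 0 ≤ ψ y ∧ ψ y ≤ 1) (hΛ : ∀ y, ‖fderiv ℝ ψ y‖ ≤ Λ)
    (hSm : MeasurableSet S) (hS : ∀ y ∉ S, ψ y = 0 ∧ fderiv ℝ ψ y = 0)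
    (hA : D.m.real (D.cyl u (4 / 3 * s) ∩ D.y ⁻¹' S) ≤ V) (hρ : 4 / 3 * s ≤ ρ)
    (hE : ∫ a in D.cyl u ρ ∩ D.y ⁻¹' S, (D.t a + δ * ‖D.y a‖ ^ 2) ∂D.m ≤ E₀) :
    Integrable (err_sc1 D u d s ψ) D.m ∧ |∫ a, err_sc1 D u d s ψ a ∂D.m| ≤
      (8 * C₁ + 1) * E₀ + 6 * Λ * s * √(V * E₀) + V * (2 * (m + 4) * δ * s) := by
  have := h.fin
  have hδ0 := h.δ_nonneg
  have hC0 : 0 ≤ C₁ := (abs_nonneg _).trans (hC 0 ⟨le_rfl, by positivity⟩)
  have hΛ0 : 0 ≤ Λ := (norm_nonneg _).trans (hΛ 0)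
  have hZ : MeasurableSet (D.cyl u (4 / 3 * s) ∩ D.y ⁻¹' S) :=
    (h.meas_cyl u _).inter (h.m_y hSm)
  have he : Integrable (fun a => D.t a + δ * ‖D.y a‖ ^ 2) D.m :=
    h.integrable_t.1.add (h.integrable_t.2.2.1.const_mul δ)
  have he0 : ∀ᵐ a ∂D.m, 0 ≤ D.t a + δ * ‖D.y a‖ ^ 2 := by
    filter_upwards [h.ae_G] with a ha
    have := (h.pw a ha).t_nonneg
    positivity
  have hsq : Integrable (fun a => √(D.t a + δ * ‖D.y a‖ ^ 2)) D.m := by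
    refine h.integrable (Measurable.aestronglyMeasurable
      (h.m_t.add ((h.m_y.norm.pow_const 2).const_mul δ)).sqrt) (√(m + 4)) fun a ha _ => ?_
    rw [Real.norm_eq_abs, abs_of_nonneg (Real.sqrt_nonneg _)]
    refine Real.sqrt_le_sqrt ?_
    have h1 := (h.pw a ha).y_two
    have h2 := (h.pw a ha).t_le
    have h3 : ‖D.y a‖ ^ 2 ≤ 4 := by nlinarith [norm_nonneg (D.y a)]
    have h4 : δ * ‖D.y a‖ ^ 2 ≤ ‖D.y a‖ ^ 2 := mul_le_of_le_one_left (sq_nonneg _) hδ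
    linarith
  have hB : Integrable (fun a => (8 * C₁ + 1) * (D.t a + δ * ‖D.y a‖ ^ 2) +
      6 * Λ * s * √(D.t a + δ * ‖D.y a‖ ^ 2) + 2 * (m + 4) * δ * s) D.m :=
    ((he.const_mul _).add (hsq.const_mul _)).add (integrable_const _)
  have hle : ∀ᵐ a ∂D.m, ‖err_sc1 D u d s ψ a‖ ≤ (D.cyl u (4 / 3 * s) ∩ D.y ⁻¹' S).indicator
      (fun a => (8 * C₁ + 1) * (D.t a + δ * ‖D.y a‖ ^ 2) +
        6 * Λ * s * √(D.t a + δ * ‖D.y a‖ ^ 2) + 2 * (m + 4) * δ * s) a := by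
    filter_upwards [h.ae_G] with a ha
    exact err_le_sc1 h hδ u hd hs hC h01 hΛ hS ha
  refine ⟨(hB.indicator hZ).mono' (meas_err_sc1 h u d s hψ).aestronglyMeasurable hle, ?_⟩
  refine (norm_integral_le_of_norm_le (hB.indicator hZ) hle).trans ?_
  have hB1 : Integrable (fun a => (8 * C₁ + 1) * (D.t a + δ * ‖D.y a‖ ^ 2) +
      6 * Λ * s * √(D.t a + δ * ‖D.y a‖ ^ 2)) D.m := (he.const_mul _).add (hsq.const_mul _)
  rw [integral_indicator hZ, integral_add hB1.integrableOn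
    (integrable_const _), integral_add (he.const_mul _).integrableOn (hsq.const_mul _).integrableOn,
    integral_const_mul, integral_const_mul, setIntegral_const, smul_eq_mul]
  have hE1 : ∫ a in D.cyl u (4 / 3 * s) ∩ D.y ⁻¹' S, (D.t a + δ * ‖D.y a‖ ^ 2) ∂D.m ≤ E₀ := by
    refine le_trans (setIntegral_mono_set he.integrableOn (ae_restrict_of_ae he0) ?_) hE
    exact Eventually.of_forall fun a ha => ⟨lt_of_lt_of_le ha.1 hρ, ha.2⟩
  have hE0 : 0 ≤ E₀ := le_trans (integral_nonneg_of_ae (ae_restrict_of_ae he0)) hE1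
  have hV0 : 0 ≤ V := measureReal_nonneg.trans hA
  have hX : ∫ a in D.cyl u (4 / 3 * s) ∩ D.y ⁻¹' S, √(D.t a + δ * ‖D.y a‖ ^ 2) ∂D.m ≤
      √(V * E₀) := by
    refine cs_sc1 hV0 hE0 fun η hη => ?_
    have h1 : ∫ a in D.cyl u (4 / 3 * s) ∩ D.y ⁻¹' S, √(D.t a + δ * ‖D.y a‖ ^ 2) ∂D.m ≤
        ∫ a in D.cyl u (4 / 3 * s) ∩ D.y ⁻¹' S,
          (η / 2 + (2 * η)⁻¹ * (D.t a + δ * ‖D.y a‖ ^ 2)) ∂D.m := by
      refine integral_mono_ae hsq.integrableOn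
        ((integrable_const _).add (he.const_mul _).integrableOn) ?_
      filter_upwards [ae_restrict_of_ae he0] with a ha
      have h2 := Real.sq_sqrt ha
      have h3 : η / 2 + (2 * η)⁻¹ * (D.t a + δ * ‖D.y a‖ ^ 2) - √(D.t a + δ * ‖D.y a‖ ^ 2) =
          (2 * η)⁻¹ * (η - √(D.t a + δ * ‖D.y a‖ ^ 2)) ^ 2 := by
        rw [sub_sq, h2]
        field_simp
        ring
      have h4 : 0 ≤ (2 * η)⁻¹ * (η - √(D.t a + δ * ‖D.y a‖ ^ 2)) ^ 2 := by positivity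
      linarith
    rw [integral_add (integrable_const _) (he.const_mul _).integrableOn, integral_const_mul,
      setIntegral_const, smul_eq_mul] at h1
    refine h1.trans ?_
    calc _ ≤ V * (η / 2) + (2 * η)⁻¹ * E₀ := by gcongr
      _ = _ := by field_simp
  gcongr

lemma ident_sc1 (h : CV D c R δ M) (u : E m) {d s : ℝ} (hd : 0 < d) (hs : 0 < s)
    (hR : ‖u - c‖ + s < R) {ψ : H → ℝ} (hψ : ContDiff ℝ 1 ψ) (h01 : ∀ y, 0 ≤ ψ y ∧ ψ y ≤ 1)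
    (hi : Integrable (err_sc1 D u d s ψ) D.m) :
    s * (∫ a, deriv (cut d) (‖D.x a - u‖ ^ 2 / s ^ 2) *
      (-2 * ‖D.x a - u‖ ^ 2 / s ^ 3) * ψ (D.y a) ∂D.m) - m * J_sc1 D u d ψ s =
      ∫ a, err_sc1 D u d s ψ a ∂D.m := by
  have h0 := h.hor_pos (Ps_test_sc1 hd hs hR hψ) u
  have hi1 := (J_deriv_sc1 h u d hs hψ.continuous h01).1
  have hi2 := int_J_sc1 h u d s hψ.continuous h01
  have e : ∀ a, fderiv ℝ (Ps_sc1 u d s ψ) (D.x a, D.y a)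
      ((D.x a - u) - D.τ a (D.x a - u), D.b a (D.x a - u)) +
      Ps_sc1 u d s ψ (D.x a, D.y a) * (m - D.t a) +
      Ps_sc1 u d s ψ (D.x a, D.y a) * ⟪D.eh a, D.x a - u⟫ =
      err_sc1 D u d s ψ a - (s * (deriv (cut d) (‖D.x a - u‖ ^ 2 / s ^ 2) *
        (-2 * ‖D.x a - u‖ ^ 2 / s ^ 3) * ψ (D.y a)) -
        m * (cut d (‖D.x a - u‖ ^ 2 / s ^ 2) * ψ (D.y a))) := by
    intro a
    rw [Ps_fderiv_sc1 u d s hψ, inner_sub_right, real_inner_self_eq_norm_sq]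
    unfold err_sc1 Ps_sc1
    field_simp
    ring
  simp only [e] at h0
  have hi3 : Integrable (fun a => s * (deriv (cut d) (‖D.x a - u‖ ^ 2 / s ^ 2) *
      (-2 * ‖D.x a - u‖ ^ 2 / s ^ 3) * ψ (D.y a)) -
      m * (cut d (‖D.x a - u‖ ^ 2 / s ^ 2) * ψ (D.y a))) D.m :=
    (hi1.const_mul _).sub (hi2.const_mul _)
  rw [integral_sub hi hi3,
    integral_sub (hi1.const_mul _) (hi2.const_mul _), integral_const_mul, integral_const_mul] at h0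
  unfold J_sc1
  linarith

lemma quot_sc1 (m : ℕ) {f : ℝ → ℝ} {f' s : ℝ} (h : HasDerivAt f f' s) (hs : 0 < s) :
    HasDerivAt (fun s => f s / s ^ m) ((s * f' - m * f s) / s ^ (m + 1)) s := by
  refine (h.div (hasDerivAt_pow m s) (by positivity)).congr_deriv ?_
  cases m with
  | zero => simp; field_simp
  | succ k =>
    simp only [Nat.add_one_sub_one]
    field_simp
    ring

lemma sqrt_sc1 (m : ℕ) {A E₀ r s : ℝ} (hA : 0 ≤ A) (hE : 0 ≤ E₀) (hr : 0 < r) (hs : r ≤ s) :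
    √(A * (4 / 3 * s) ^ m * E₀) ≤ (4 / 3) ^ m * s ^ m * √(A * E₀ / r ^ m) := by
  have hs0 : 0 < s := hr.trans_le hs
  have h1 : r ^ m ≤ (4 / 3 * s) ^ m := pow_le_pow_left₀ hr.le (by linarith) m
  rw [← mul_pow]
  refine Real.sqrt_le_iff.mpr ⟨by positivity, ?_⟩
  rw [mul_pow ((4 / 3 * s) ^ m), Real.sq_sqrt (by positivity)]
  calc A * (4 / 3 * s) ^ m * E₀ = (4 / 3 * s) ^ m * r ^ m * (A * E₀ / r ^ m) := by field_simp
    _ ≤ (4 / 3 * s) ^ m * (4 / 3 * s) ^ m * (A * E₀ / r ^ m) := by gcongr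
    _ = _ := by ring

theorem sc_fixed (m : ℕ) (hm : 1 ≤ m) {κ : ℝ} (hκ : 0 < κ) (hκ1 : κ ≤ 1) :
    ∃ C : ℝ, 0 < C ∧
    ∀ (D : CD m α H) (c : E m) (R δ M : ℝ), CV D c R δ M → δ ≤ 1 →
    ∀ (u : E m) (r₁ r₂ Λ A E₀ : ℝ) (ψ : H → ℝ) (S : Set H),
    0 < r₁ → r₁ ≤ r₂ → ‖u - c‖ + 2 * r₂ ≤ R → ContDiff ℝ 1 ψ → (∀ y, 0 ≤ ψ y ∧ ψ y ≤ 1) →
    (∀ y, ‖fderiv ℝ ψ y‖ ≤ Λ) → MeasurableSet S → (∀ y ∉ S, ψ y = 0 ∧ fderiv ℝ ψ y = 0) →
    (∀ r, r₁ ≤ r → r ≤ 2 * r₂ → D.m.real (D.cyl u r ∩ D.y ⁻¹' S) ≤ A * r ^ m) →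
    ∫ a in D.cyl u (2 * r₂) ∩ D.y ⁻¹' S, (D.t a + δ * ‖D.y a‖ ^ 2) ∂D.m ≤ E₀ →
    (∫ a in D.cyl u r₁, ψ (D.y a) ∂D.m) / r₁ ^ m ≤
        (∫ a in D.cyl u ((1 + κ) * r₂), ψ (D.y a) ∂D.m) / r₂ ^ m +
          C * (E₀ / r₁ ^ m + Λ * r₂ * √(A * E₀ / r₁ ^ m) + δ * A * r₂) := by
  obtain ⟨l, hl⟩ : ∃ l : ℝ, l = 1 + κ / 2 := ⟨_, rfl⟩
  have hl1 : 1 < l := by linarith
  have hl2 : l ≤ 3 / 2 := by linarith
  have hl0 : 0 < l := by linarith
  obtain ⟨d, hdd⟩ : ∃ d : ℝ, d = 1 - (l ^ 2)⁻¹ := ⟨_, rfl⟩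
  have hd : 0 < d := by
    rw [hdd, sub_pos]
    exact inv_lt_one_of_one_lt₀ (by nlinarith)
  obtain ⟨C₁, hC⟩ := cut_deriv_bound (δ := d) 2
  have hC0 : 0 ≤ C₁ := (abs_nonneg _).trans (hC 0 ⟨le_rfl, by positivity⟩)
  obtain ⟨K, hK⟩ : ∃ K : ℝ, K = 8 * C₁ + 1 + (2 * (m + 4)) * (4 / 3) ^ m := ⟨_, rfl⟩
  have hK0 : 0 < K := by rw [hK]; positivity
  have hm1 : (1 : ℝ) ≤ m := by exact_mod_cast hm
  refine ⟨(3 / 2) ^ (m + 1) * K, by positivity, ?_⟩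
  intro D c R δ M h hδ u r₁ r₂ Λ A E₀ ψ S hr₁ hr hR hψ h01 hΛ hSm hS hA hE
  have := h.fin
  have hr₂ : 0 < r₂ := hr₁.trans_le hr
  have hδ0 := h.δ_nonneg
  have hΛ0 : 0 ≤ Λ := (norm_nonneg _).trans (hΛ 0)
  have hA0 : 0 ≤ A := by
    have := measureReal_nonneg.trans (hA r₁ le_rfl (by linarith))
    exact nonneg_of_mul_nonneg_left this (by positivity)
  have hE0 : 0 ≤ E₀ := by
    refine le_trans (integral_nonneg_of_ae (ae_restrict_of_ae ?_)) hE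
    filter_upwards [h.ae_G] with a ha
    have := (h.pw a ha).t_nonneg
    positivity
  obtain ⟨P, hP⟩ : ∃ P : ℝ, P = Λ * √(A * E₀ / r₁ ^ m) := ⟨_, rfl⟩
  have hP0 : 0 ≤ P := by rw [hP]; positivity
  have hder : ∀ s ∈ Icc (l * r₁) (l * r₂), ∃ g, 0 ≤ g ∧ HasDerivAt (fun s => J_sc1 D u d ψ s / s ^ m +
      K * (-(E₀ / s ^ m) + (P + δ * A) * s)) g s := by
    intro s hs
    have hs1 : r₁ ≤ s := le_trans (by nlinarith) hs.1
    have hs2 : s ≤ 3 / 2 * r₂ := hs.2.trans (by gcongr)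
    have hs0 : 0 < s := hr₁.trans_le hs1
    obtain ⟨hi, hb⟩ := int_err_sc1 h hδ u hd hs0 hC hψ h01 hΛ hSm hS
      (hA _ (by linarith) (by linarith)) (by linarith) hE
    have hid := ident_sc1 h u hd hs0 (by linarith) hψ h01 hi
    have h1 := (J_deriv_sc1 h u d hs0 hψ.continuous h01).2
    rw [← hid] at hb
    have h2 := quot_sc1 m h1 hs0
    have h3 := (quot_sc1 m (hasDerivAt_const s E₀) hs0).neg
    have h5 := (hasDerivAt_id s).const_mul (P + δ * A)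
    refine ⟨_, ?_, h2.add ((h3.add h5).const_mul K)⟩
    have hb2 : (8 * C₁ + 1) * E₀ + 6 * Λ * s * √(A * (4 / 3 * s) ^ m * E₀) +
        A * (4 / 3 * s) ^ m * (2 * (m + 4) * δ * s) ≤
        K * (m * E₀ + (P + δ * A) * s ^ (m + 1)) := by
      have b1 := sqrt_sc1 m hA0 hE0 hr₁ hs1
      have b0 : (0 : ℝ) ≤ (2 * (m + 4)) * (4 / 3) ^ m := by positivity
      have b2 : (8 * C₁ + 1) * E₀ ≤ K * (m * E₀) :=
        mul_le_mul (by linarith) (le_mul_of_one_le_left hE0 hm1) hE0 hK0.le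
      have b3 : 6 * Λ * s * √(A * (4 / 3 * s) ^ m * E₀) ≤ K * (P * s ^ (m + 1)) := by
        have b4 : (6 : ℝ) * (4 / 3) ^ m ≤ (2 * (m + 4)) * (4 / 3) ^ m :=
          mul_le_mul_of_nonneg_right (by linarith) (by positivity)
        calc _ ≤ 6 * Λ * s * ((4 / 3) ^ m * s ^ m * √(A * E₀ / r₁ ^ m)) := by gcongr
          _ = 6 * (4 / 3) ^ m * (P * s ^ (m + 1)) := by rw [hP]; ring
          _ ≤ _ := mul_le_mul_of_nonneg_right (by linarith) (by positivity)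
      have b5 : A * (4 / 3 * s) ^ m * (2 * (m + 4) * δ * s) ≤ K * (δ * A * s ^ (m + 1)) := by
        calc _ = (2 * (m + 4)) * (4 / 3) ^ m * (δ * A * s ^ (m + 1)) := by rw [mul_pow]; ring
          _ ≤ _ := mul_le_mul_of_nonneg_right (by linarith) (by positivity)
      have b6 : K * (m * E₀ + (P + δ * A) * s ^ (m + 1)) =
          K * (m * E₀) + K * (P * s ^ (m + 1)) + K * (δ * A * s ^ (m + 1)) := by ring
      linarith
    have h6 := (neg_le_neg hb2).trans (abs_le.mp hb).1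
    generalize (∫ a, deriv (cut d) (‖D.x a - u‖ ^ 2 / s ^ 2) *
      (-2 * ‖D.x a - u‖ ^ 2 / s ^ 3) * ψ (D.y a) ∂D.m) = I at h6 ⊢
    generalize J_sc1 D u d ψ s = J at h6 ⊢
    have h7 : 0 ≤ (s * I - m * J + K * (m * E₀ + (P + δ * A) * s ^ (m + 1))) / s ^ (m + 1) :=
      div_nonneg (by linarith) (by positivity)
    refine h7.trans_eq ?_
    field_simp
    ring
  have hmono : MonotoneOn (fun s => J_sc1 D u d ψ s / s ^ m +
      K * (-(E₀ / s ^ m) + (P + δ * A) * s)) (Icc (l * r₁) (l * r₂)) := by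
    refine monotoneOn_of_deriv_nonneg (convex_Icc _ _) (fun s hs => ?_) (fun s hs => ?_)
      (fun s hs => ?_)
    · obtain ⟨g, -, hg⟩ := hder s hs
      exact hg.continuousAt.continuousWithinAt
    · obtain ⟨g, -, hg⟩ := hder s (interior_subset hs)
      exact hg.differentiableAt.differentiableWithinAt
    · obtain ⟨g, h0, hg⟩ := hder s (interior_subset hs)
      rwa [hg.deriv]
  have hll : l * r₁ ≤ l * r₂ := by gcongr
  have hmm := hmono (left_mem_Icc.mpr hll) (right_mem_Icc.mpr hll) hll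
  have hψi : Integrable (fun a => ψ (D.y a)) D.m :=
    h.integrable (hψ.continuous.measurable.comp h.m_y).aestronglyMeasurable 1 fun a _ _ => by
      rw [Real.norm_eq_abs, abs_of_nonneg (h01 _).1]; exact (h01 _).2
  have hlo : ∫ a in D.cyl u r₁, ψ (D.y a) ∂D.m ≤ J_sc1 D u d ψ (l * r₁) := by
    rw [← integral_indicator (h.meas_cyl u _)]
    refine integral_mono (hψi.indicator (h.meas_cyl u _))
      (int_J_sc1 h u d _ hψ.continuous h01) fun a => ?_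
    by_cases ha : a ∈ D.cyl u r₁
    · have hx : ‖D.x a - u‖ < r₁ := ha
      rw [indicator_of_mem ha]
      have : cut d (‖D.x a - u‖ ^ 2 / (l * r₁) ^ 2) = 1 := by
        refine cut_one hd ?_
        rw [hdd, sub_sub_cancel, div_le_iff₀ (by positivity)]
        have : (l ^ 2)⁻¹ * (l * r₁) ^ 2 = r₁ ^ 2 := by field_simp
        rw [this]
        gcongr
      simp only [this, one_mul, le_refl]
    · rw [indicator_of_notMem ha]
      exact mul_nonneg (cut_nonneg _ _) (h01 _).1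
  have hhi : J_sc1 D u d ψ (l * r₂) ≤ ∫ a in D.cyl u ((1 + κ) * r₂), ψ (D.y a) ∂D.m := by
    rw [← integral_indicator (h.meas_cyl u _)]
    refine integral_mono (int_J_sc1 h u d _ hψ.continuous h01)
      (hψi.indicator (h.meas_cyl u _)) fun a => ?_
    by_cases ha : a ∈ D.cyl u ((1 + κ) * r₂)
    · rw [indicator_of_mem ha]
      exact mul_le_of_le_one_left (h01 _).1 (cut_le_one _ _)
    · have hx : (1 + κ) * r₂ ≤ ‖D.x a - u‖ := not_lt.mp ha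
      rw [indicator_of_notMem ha]
      have : cut d (‖D.x a - u‖ ^ 2 / (l * r₂) ^ 2) = 0 := by
        refine cut_zero hd ?_
        rw [one_le_div (by positivity)]
        have : l * r₂ ≤ ‖D.x a - u‖ := le_trans (by nlinarith) hx
        gcongr
      simp only [this, zero_mul, le_refl]
  have hPP : Λ * r₂ * √(A * E₀ / r₁ ^ m) = P * r₂ := by rw [hP]; ring
  rw [hPP]
  have q1 : (∫ a in D.cyl u r₁, ψ (D.y a) ∂D.m) / r₁ ^ m ≤
      l ^ m * (J_sc1 D u d ψ (l * r₁) / (l * r₁) ^ m) := by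
    have : l ^ m * (J_sc1 D u d ψ (l * r₁) / (l * r₁) ^ m) = J_sc1 D u d ψ (l * r₁) / r₁ ^ m := by
      rw [mul_pow]; field_simp
    rw [this]
    gcongr
  have q2 : l ^ m * (J_sc1 D u d ψ (l * r₂) / (l * r₂) ^ m) ≤
      (∫ a in D.cyl u ((1 + κ) * r₂), ψ (D.y a) ∂D.m) / r₂ ^ m := by
    have : l ^ m * (J_sc1 D u d ψ (l * r₂) / (l * r₂) ^ m) = J_sc1 D u d ψ (l * r₂) / r₂ ^ m := by
      rw [mul_pow]; field_simp
    rw [this]
    gcongr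
  have q3 : J_sc1 D u d ψ (l * r₁) / (l * r₁) ^ m ≤ J_sc1 D u d ψ (l * r₂) / (l * r₂) ^ m +
      K * (E₀ / r₁ ^ m + (P + δ * A) * (l * r₂)) := by
    have a1 : E₀ / (l * r₁) ^ m ≤ E₀ / r₁ ^ m := by
      have : r₁ ≤ l * r₁ := by nlinarith
      gcongr
    have a2 : 0 ≤ E₀ / (l * r₂) ^ m := by positivity
    have a3 : 0 ≤ (P + δ * A) * (l * r₁) := by positivity
    have a4 : (-(E₀ / (l * r₂) ^ m) + (P + δ * A) * (l * r₂)) -
        (-(E₀ / (l * r₁) ^ m) + (P + δ * A) * (l * r₁)) ≤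
        E₀ / r₁ ^ m + (P + δ * A) * (l * r₂) := by
      linarith
    have a5 := mul_le_mul_of_nonneg_left a4 hK0.le
    simp only at hmm
    linarith
  have q4 : l ^ m * (K * (E₀ / r₁ ^ m + (P + δ * A) * (l * r₂))) ≤
      (3 / 2) ^ (m + 1) * K * (E₀ / r₁ ^ m + P * r₂ + δ * A * r₂) := by
    have a1 : 0 ≤ E₀ / r₁ ^ m := by positivity
    have a4 : E₀ / r₁ ^ m + (P + δ * A) * (l * r₂) ≤
        3 / 2 * (E₀ / r₁ ^ m + P * r₂ + δ * A * r₂) := by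
      have a3 : (P + δ * A) * (l * r₂) ≤ (P + δ * A) * (3 / 2 * r₂) := by gcongr
      linarith
    calc _ ≤ (3 / 2) ^ m * (K * (3 / 2 * (E₀ / r₁ ^ m + P * r₂ + δ * A * r₂))) := by gcongr
      _ = _ := by ring
  have q5 := mul_le_mul_of_nonneg_left q3 (pow_nonneg hl0.le m)
  linarith

end Pool.Agent.Lib.MP_8daebb_an.GM
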