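import Pool.Agent.Lib.MP_8daebb_an.GM.SLemB
import Pool.Agent.Lib.MP_8daebb_an.GM.HB

/-! The one-sided defect estimate. -/

set_option linter.unusedSectionVars false
set_option linter.unusedVariables false

open MeasureTheory Metric Filter Topology Set
open scoped RealInnerProductSpace ENNReal ContDiff

namespace Pool.Agent.Lib.MP_8daebb_an.GM

open LG (vb chi om trS)

variable {d : ℕ} {α : Type*} [MeasurableSpace α] {H : Type*} [NormedAddCommGroup H]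
  [InnerProductSpace ℝ H] [FiniteDimensional ℝ H] [MeasurableSpace H] [BorelSpace H]

/-- The weight `chi * w / 2` is an admissible test function. -/
theorem zeta_slem {D : CD d α H} {R δ l r : ℝ} (h : Met D 0 R δ) (h0 : 0 ≤ δ) (hδ : δ ≤ 1 / 10)
    (hl : 0 < l) (hlr : l ≤ r) (hR : r + l ≤ R) (hR2 : R ≤ 2) :
    (∀ u, 0 ≤ chi 0 r u * D.w u / 2 ∧ chi 0 r u * D.w u / 2 ≤ 1) ∧
      (∀ u v, |chi 0 r u * D.w u / 2 - chi 0 r v * D.w v / 2| ≤ 10 / l * ‖u - v‖) ∧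
      ∀ u, r ≤ ‖u‖ → chi 0 r u * D.w u / 2 = 0 := by
  have hr : 0 < r := hl.trans_le hlr
  obtain ⟨-, c2, -, -, -, c6⟩ := chi_props (0 : E d) hr
  have z : ∀ u : E d, r ≤ ‖u‖ → chi 0 r u = 0 := fun u hu => (c2 u (by rwa [sub_zero])).1
  have mem : ∀ u : E d, ‖u‖ < r → u ∈ ball (0 : E d) R := fun u hu =>
    mem_ball_zero_iff.2 (by linarith)
  have hw : ∀ u : E d, ‖u‖ < r → 1 / 2 ≤ D.w u ∧ D.w u ≤ 3 / 2 := fun u hu =>
    ⟨(h.psd (by linarith) (mem u hu)).2.2.2.2.1, (h.psd (by linarith) (mem u hu)).2.2.2.2.2.1⟩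
  have n0 := LG.chi_nonneg (0 : E d) r
  have n1 := LG.chi_le_one (0 : E d) r
  have lip : ∀ u v : E d, |chi 0 r u - chi 0 r v| ≤ 6 * (1 / l * ‖u - v‖) := fun u v => by
    refine (c6 u v).1.trans ?_
    rw [← mul_assoc, mul_one_div]
    exact mul_le_mul_of_nonneg_right (div_le_div_of_nonneg_left (by norm_num) hl hlr)
      (norm_nonneg _)
  have e10 : ∀ u v : E d, 10 / l * ‖u - v‖ = 10 * (1 / l * ‖u - v‖) := fun u v => by ring
  have pos : ∀ u v : E d, ‖u - v‖ ≤ 1 / l * ‖u - v‖ := fun u v =>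
    le_mul_of_one_le_left (norm_nonneg _) (by rw [le_div_iff₀ hl]; linarith)
  have out : ∀ u v : E d, r ≤ ‖u‖ →
      |chi 0 r u * D.w u / 2 - chi 0 r v * D.w v / 2| ≤ 10 / l * ‖u - v‖ := fun u v hu => by
    have h1 := lip u v
    have h2 := (norm_nonneg _).trans (pos u v)
    rw [z u hu, zero_sub, abs_neg, abs_of_nonneg (n0 v)] at h1
    rw [z u hu, e10, zero_mul, zero_div, zero_sub, abs_neg]
    rcases le_or_gt r ‖v‖ with hv | hv
    · rw [z v hv, zero_mul, zero_div, abs_zero]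
      linarith
    · obtain ⟨w1, w2⟩ := hw v hv
      rw [abs_of_nonneg (div_nonneg (mul_nonneg (n0 v) (by linarith)) zero_le_two)]
      nlinarith [n0 v]
  refine ⟨fun u => ?_, fun u v => ?_, fun u hu => by rw [z u hu, zero_mul, zero_div]⟩
  · rcases le_or_gt r ‖u‖ with hu | hu
    · rw [z u hu, zero_mul, zero_div]
      exact ⟨le_rfl, zero_le_one⟩
    · obtain ⟨w1, w2⟩ := hw u hu
      constructor <;> nlinarith [n0 u, n1 u]
  · rcases le_or_gt r ‖u‖ with hu | hu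
    · exact out u v hu
    rcases le_or_gt r ‖v‖ with hv | hv
    · rw [abs_sub_comm, norm_sub_rev]
      exact out v u hv
    obtain ⟨w1, w2⟩ := hw u hu
    have h1 := (h.lip h0 (by linarith) (mem u hu) (mem v hv)).1
    have h2 : |D.w u - D.w v| ≤ 1 / l * ‖u - v‖ :=
      h1.trans ((mul_le_of_le_one_left (norm_nonneg _) (by linarith)).trans (pos u v))
    have h3 : chi 0 r u * D.w u / 2 - chi 0 r v * D.w v / 2 =
        ((chi 0 r u - chi 0 r v) * D.w u + chi 0 r v * (D.w u - D.w v)) / 2 := by ring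
    have h4 : |(chi 0 r u - chi 0 r v) * D.w u| ≤ 6 * (1 / l * ‖u - v‖) * (3 / 2) := by
      rw [abs_mul, abs_of_nonneg (by linarith : 0 ≤ D.w u)]
      exact mul_le_mul (lip u v) w2 (by linarith) ((abs_nonneg _).trans (lip u v))
    have h5 : |chi 0 r v * (D.w u - D.w v)| ≤ 1 / l * ‖u - v‖ := by
      rw [abs_mul, abs_of_nonneg (n0 v)]
      exact (mul_le_of_le_one_left (abs_nonneg _) (n1 v)).trans h2
    have h6 := abs_add_le ((chi 0 r u - chi 0 r v) * D.w u) (chi 0 r v * (D.w u - D.w v))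
    have h7 := (norm_nonneg _).trans (pos u v)
    rw [h3, abs_div, abs_two, e10]
    linarith

theorem half_slem (D : CD d α H) (ζ : E d → ℝ) (f : α → ℝ) :
    ∫ a, ζ (D.x a) / 2 * f a ∂D.m = (∫ a, ζ (D.x a) * f a ∂D.m) / 2 := by
  rw [← MeasureTheory.integral_div]
  exact integral_congr_ae (Eventually.of_forall fun a => by ring)

theorem s_lemma (hS : AS.SLemL (E d) (Fin (Module.finrank ℝ H))) (M : ℝ) {CI : ℝ} (hCI : 0 ≤ CI)
    (Q : ℕ) : ∃ δ₀ : ℝ, 0 < δ₀ ∧ ∀ P : ℕ, ∃ γ > (0 : ℝ), ∃ C L₀ : ℝ, 0 < C ∧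
    ∀ (D : CD d α H) (R δ lam ρ L l r : ℝ) (N : E d → ℕ), MS D R δ M lam ρ CI Q N → δ ≤ δ₀ →
    L₀ ≤ L → ρ ≤ lam * L → Real.exp (-L ^ 2 / 4) ≤ lam → lam ≤ Real.exp (-13 * L) * l →
    l ≤ r → r + l ≤ R →
    2 * D.EE Q r - D.dr r ≤
      L ^ (-(1 + γ)) * D.dr r + C * r ^ 2 * D.hh r + (L ^ P)⁻¹ * lam ^ 2 * (r / l) ^ 2 := by
  obtain ⟨δ₀, hδ₀, hδ1, hP⟩ := sd_le (α := α) hS M hCI Q
  refine ⟨δ₀, hδ₀, fun P => ?_⟩
  obtain ⟨γ, hγ, C, L₀, hC, hsd⟩ := hP (P + 1)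
  refine ⟨γ, hγ, C, max L₀ 2, hC, fun D R δ lam ρ L l r N h hδ hL h1 h2 h3 hlr hR => ?_⟩
  have hl : 0 < l := (mul_pos_iff_of_pos_left (Real.exp_pos _)).1 (h.lam_pos.trans_le h3)
  have hr : 0 < r := hl.trans_le hlr
  have hL2 : 2 ≤ L := (le_max_right _ _).trans hL
  have hδ2 : δ ≤ 1 / 2 := by linarith
  obtain ⟨z1, z2, z3⟩ := zeta_slem h.cv.met h.cv.δ_nonneg (hδ.trans hδ1) hl hlr hR h.cv.R_le
  have k := hsd D R δ lam ρ L l r N (fun u => chi 0 r u * D.w u / 2) h hδ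
    ((le_max_left _ _).trans hL) h1 h2 h3 hlr hR z1 z2 z3
  have e1 : D.Sd Q (fun u => chi 0 r u * D.w u / 2) = D.Sd Q (fun u => chi 0 r u * D.w u) / 2 := by
    unfold CD.Sd
    rw [half_slem D fun u => chi 0 r u * D.w u, MeasureTheory.integral_div]
    ring
  rw [e1, half_slem D fun u => chi 0 r u * D.w u, half_slem D fun u => chi 0 r u * D.w u] at k
  have k2 := mul_le_mul_of_nonneg_left (hh_basic h.cv hδ2 hr).2.2.2.2.2.2.1 hC.le
  have hq : 0 ≤ r ^ 2 / r ^ d := by positivity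
  have k3 : D.Sd Q (fun u => chi 0 r u * D.w u) ≤
      L ^ (-(1 + γ)) * (∫ a, chi 0 r (D.x a) * D.w (D.x a) * D.t a ∂D.m) +
        C * (r ^ d * D.hh r) + (L ^ P)⁻¹ * (lam ^ 2 * (r ^ d / l ^ 2)) := by
    have h4 : (L ^ (P + 1))⁻¹ ≤ (L ^ P)⁻¹ / 2 := by
      rw [pow_succ, mul_inv, div_eq_mul_inv]
      exact mul_le_mul_of_nonneg_left (inv_anti₀ two_pos hL2) (by positivity)
    have h5 := mul_le_mul_of_nonneg_right h4
      (by positivity : 0 ≤ lam ^ 2 * (r ^ d / l ^ 2))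
    linarith
  rw [h.cv.sd_chi hδ2 hr Q]
  refine (mul_le_mul_of_nonneg_left k3 hq).trans (le_of_eq ?_)
  unfold CD.dr
  field_simp

end Pool.Agent.Lib.MP_8daebb_an.GM
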