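import Pool.Agent.Lib.MP_8daebb_an.GM.GlbA
import Pool.Agent.Lib.MP_8daebb_an.GM.Base3

/-! From coarse-grained functions back to the varifold. -/

set_option linter.unusedSectionVars false
set_option linter.unusedVariables false

open MeasureTheory Metric Filter Topology Set
open scoped RealInnerProductSpace ENNReal ContDiff

namespace Pool.Agent.Lib.MP_8daebb_an.GM

open LG (vb chi om trS)

variable {d : ℕ} {α : Type*} [MeasurableSpace α] {H : Type*} [NormedAddCommGroup H]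
  [InnerProductSpace ℝ H] [FiniteDimensional ℝ H] [MeasurableSpace H] [BorelSpace H]

theorem int3_slema {β : Type*} [MeasurableSpace β] {μ : Measure β} {f g k : β → ℝ}
    (hf : Integrable f μ) (hg : Integrable g μ) (hk : Integrable k μ) :
    ∫ a, f a - g a - k a ∂μ = ∫ a, f a ∂μ - ∫ a, g a ∂μ - ∫ a, k a ∂μ ∧
      ∫ a, f a + g a + k a ∂μ = ∫ a, f a ∂μ + ∫ a, g a ∂μ + ∫ a, k a ∂μ :=
  ⟨(integral_sub (hf.sub hg) hk).trans (by rw [← integral_sub hf hg]; rfl),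
    (integral_add (hf.add hg) hk).trans (by rw [← integral_add hf hg]; rfl)⟩

theorem lip_facts_slema {ζ : E d → ℝ} {Λ r : ℝ} (hΛ : 0 ≤ Λ)
    (hζ : ∀ u v, |ζ u - ζ v| ≤ Λ * ‖u - v‖) (hr : ∀ u, r ≤ ‖u‖ → ζ u = 0) :
    Continuous ζ ∧ HasCompactSupport ζ ∧ ∀ u, |ζ u| ≤ |ζ 0| + Λ * |r| := by
  refine ⟨?_, ?_, fun u => ?_⟩
  · refine (LipschitzWith.of_dist_le_mul (K := ⟨Λ, hΛ⟩) fun u v => ?_).continuous
    rw [Real.dist_eq, dist_eq_norm]
    exact hζ u v
  · refine HasCompactSupport.intro (isCompact_closedBall (0 : E d) r) fun u hu => hr u ?_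
    rw [mem_closedBall_zero_iff, not_le] at hu
    exact hu.le
  · rcases le_or_gt r ‖u‖ with h | h
    · rw [hr u h, abs_zero]
      positivity
    · have h1 := hζ u 0
      rw [sub_zero] at h1
      have h2 : Λ * ‖u‖ ≤ Λ * |r| := mul_le_mul_of_nonneg_left (h.le.trans (le_abs_self r)) hΛ
      have h3 := abs_sub_abs_le_abs_sub (ζ u) (ζ 0)
      linarith

theorem moll_slema {ζ : E d → ℝ} {Λ r ρ : ℝ} (hρ : 0 < ρ) (hΛ : 0 ≤ Λ)
    (hζ : ∀ u v, |ζ u - ζ v| ≤ Λ * ‖u - v‖) (hr : ∀ u, r ≤ ‖u‖ → ζ u = 0) :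
    Measurable (fun x => ∫ u, ζ u * kr ρ (u - x)) ∧
      Integrable (fun x => ∫ u, ζ u * kr ρ (u - x)) ∧
      ∫ x, ∫ u, ζ u * kr ρ (u - x) = ∫ u, ζ u ∧
      (∀ x, |ζ x - ∫ u, ζ u * kr ρ (u - x)| ≤ Λ * ρ) ∧
      ∀ x : E d, r + ρ ≤ ‖x‖ → ζ x - ∫ u, ζ u * kr ρ (u - x) = 0 := by
  obtain ⟨hc, hs, hB⟩ := lip_facts_slema hΛ hζ hr
  have hi : Integrable ζ := hc.integrable_of_hasCompactSupport hs
  have hk := kr_integral (m := d) hρ
  have e : (fun x => ∫ u, ζ u * kr ρ (u - x)) =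
      MeasureTheory.convolution ζ (kr ρ) (ContinuousLinearMap.mul ℝ ℝ) volume := by
    funext x
    rw [convolution_def]
    refine integral_congr_ae (Eventually.of_forall fun u => ?_)
    simp only [ContinuousLinearMap.mul_apply']
    rw [← kr_neg ρ (x - u), neg_sub]
  refine ⟨?_, ?_, ?_, fun x => ?_, fun x hx => ?_⟩
  · have hm : Measurable fun q : E d × E d => ζ q.2 * kr ρ (q.2 - q.1) :=
      (hc.measurable.comp measurable_snd).mul
        ((kr_meas_av ρ).comp (measurable_snd.sub measurable_fst))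
    exact (StronglyMeasurable.integral_prod_right
      (f := fun (x u : E d) => ζ u * kr ρ (u - x)) hm.stronglyMeasurable).measurable
  · rw [e]
    exact hi.integrable_convolution _ hk.1
  · rw [e, integral_convolution _ hi hk.1, hk.2]
    simp
  · have h1 := kr_shift_av hρ x
    have h2 : Integrable fun u => ζ u * kr ρ (u - x) :=
      h1.1.bdd_mul hc.aestronglyMeasurable (Eventually.of_forall hB)
    have h3 : ζ x - ∫ u, ζ u * kr ρ (u - x) = ∫ u, (ζ x - ζ u) * kr ρ (u - x) := by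
      simp only [sub_mul]
      rw [integral_sub (h1.1.const_mul _) h2, integral_const_mul, h1.2, mul_one]
    rw [h3, ← Real.norm_eq_abs]
    refine (norm_integral_le_of_norm_le (h1.1.const_mul (Λ * ρ))
      (Eventually.of_forall fun u => ?_)).trans (le_of_eq ?_)
    · rw [Real.norm_eq_abs, abs_mul, abs_of_nonneg (kr_nonneg hρ _)]
      rcases le_or_gt ρ ‖u - x‖ with h | h
      · rw [zero_ker hρ _ h, mul_zero, mul_zero]
      · refine mul_le_mul_of_nonneg_right ((hζ x u).trans ?_) (kr_nonneg hρ _)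
        rw [norm_sub_rev]
        exact mul_le_mul_of_nonneg_left h.le hΛ
    · rw [integral_const_mul, h1.2, mul_one]
  · rw [hr x (by linarith), zero_sub, neg_eq_zero]
    refine integral_eq_zero_of_ae (Eventually.of_forall fun u => ?_)
    rcases le_or_gt ρ ‖u - x‖ with h | h
    · simp only [zero_ker hρ _ h, mul_zero, Pi.zero_apply]
    · have h4 : ‖x‖ ≤ ‖u‖ + ‖u - x‖ := by
        have := norm_sub_le u (u - x)
        rwa [sub_sub_cancel] at this
      simp only [hr u (by linarith), zero_mul, Pi.zero_apply]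

theorem sd_av (d : ℕ) {CI : ℝ} (hCI : 0 ≤ CI) : ∃ C : ℝ, 0 < C ∧
    ∀ (D : CD d α H) (R δ M lam ρ r Λ : ℝ) (Q : ℕ) (N : E d → ℕ) (ζ : E d → ℝ),
    MS D R δ M lam ρ CI Q N → δ ≤ 1 / 2 → 0 ≤ Λ → (∀ u v, |ζ u - ζ v| ≤ Λ * ‖u - v‖) →
    (∀ u, r ≤ ‖u‖ → ζ u = 0) → r + 18 * ρ ≤ R →
    |D.Sd Q ζ - ∫ u, ζ u * (2 * (D.av ρ (fun _ => (1 : ℝ)) u - Q) - D.av ρ D.t u)| ≤
      C * Λ * ρ * D.En 0 (r + 10 * ρ) := by
  refine ⟨d + 2 * (8 ^ d * CI * d) + 1, by positivity, ?_⟩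
  intro D R δ M lam ρ r Λ Q N ζ hS hδ hΛ hζ hr hR
  have h := hS.cv
  have := h.fin
  have hρ := hS.ρ_pos
  obtain ⟨hc, hs, hB⟩ := lip_facts_slema hΛ hζ hr
  obtain ⟨hm, hi', hint, hf1, hf0⟩ := moll_slema hρ hΛ hζ hr
  have hi : Integrable ζ := hc.integrable_of_hasCompactSupport hs
  set ζ' : E d → ℝ := fun x => ∫ u, ζ u * kr ρ (u - x) with hζ'
  set f : E d → ℝ := fun x => ζ x - ζ' x with hf
  have hfm : Measurable f := hc.measurable.sub hm
  have ht := h.integrable_t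
  have a1 := h.integral_av hρ (integrable_const (1 : ℝ)) hc.measurable hB
  have a2 := h.integral_av hρ ht.1 hc.measurable hB
  have hj := h.integrable_j_base2
  have bdd : ∀ {g : E d → ℝ} {B : ℝ}, Measurable g → (∀ u, |g u| ≤ B) → ∀ {k : α → ℝ},
      Integrable k D.m → Integrable (fun a => g (D.x a) * k a) D.m := fun hg hgB k hk =>
    hk.bdd_mul (hg.comp h.m_x).aestronglyMeasurable (Eventually.of_forall fun a => hgB _)
  have h2t : Integrable (fun a => 2 - D.t a) D.m := (integrable_const 2).sub ht.1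
  have hB' : ∀ u, |ζ' u| ≤ |ζ 0| + Λ * |r| + Λ * ρ := fun u => by
    have h1 := hf1 u
    have h2 := hB u
    have h3 := abs_sub_abs_le_abs_sub (ζ' u) (ζ u)
    rw [abs_sub_comm] at h3
    linarith
  have e1 : ∫ u, ζ u * (2 * (D.av ρ (fun _ => (1 : ℝ)) u - Q) - D.av ρ D.t u) =
      (∫ a, ζ' (D.x a) * (2 - D.t a) ∂D.m) - 2 * Q * ∫ u, ζ u := by
    have e2 : (fun u => ζ u * (2 * (D.av ρ (fun _ => (1 : ℝ)) u - Q) - D.av ρ D.t u)) =
        fun u => 2 * (ζ u * D.av ρ (fun _ => (1 : ℝ)) u) - ζ u * D.av ρ D.t u - 2 * Q * ζ u := by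
      funext u
      ring
    have e3 : (fun a => ζ' (D.x a) * (2 - D.t a)) =
        fun a => 2 * (ζ' (D.x a) * 1) - ζ' (D.x a) * D.t a := by
      funext a
      ring
    rw [e2, e3, (int3_slema (a1.1.const_mul 2) a2.1 (hi.const_mul _)).1,
      integral_const_mul, integral_const_mul, a1.2, a2.2,
      integral_sub ((bdd hm hB' (integrable_const 1)).const_mul 2) (bdd hm hB' ht.1),
      integral_const_mul]
  have hZ := h.meas_cyl 0 (r + 10 * ρ)
  have hsupp : ∀ v, f v ≠ 0 → ‖v‖ < r + ρ := fun v hv => lt_of_not_ge fun hh => hv (hf0 v hh)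
  have hw := hS.mq.weight h hρ hCI hfm
    (F := (ball (0 : E d) (r + 10 * ρ)).indicator fun _ => Λ * ρ)
    (measurable_const.indicator measurableSet_ball) (B := Λ * ρ)
    (fun u => indicator_nonneg (fun _ _ => by positivity) u)
    (fun u => indicator_le_self' (fun _ _ => by positivity) u)
    (fun v hv => by
      have := hsupp v hv
      rw [sub_zero]
      linarith)
    (fun v v' hv => by
      by_cases h0 : f v = 0
      · rw [h0, abs_zero]
        exact indicator_nonneg (fun _ _ => by positivity) _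
      · have h1 := hsupp v h0
        have h2 : ‖v'‖ ≤ ‖v‖ + ‖v - v'‖ := by
          have := norm_sub_le v (v - v')
          rwa [sub_sub_cancel] at this
        rw [indicator_of_mem (mem_ball_zero_iff.2 (by linarith))]
        exact hf1 v)
  have hN := hS.mq.mult.integral h hfm hf1
  have hfi : Integrable f := hi.sub hi'
  have hf00 : ∫ u, f u = 0 := by
    rw [hf, integral_sub hi hi', hint, sub_self]
  have e4 : D.Sd Q ζ - ∫ u, ζ u * (2 * (D.av ρ (fun _ => (1 : ℝ)) u - Q) - D.av ρ D.t u) =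
      (∫ a, f (D.x a) * (2 - D.t a - 2 * D.j a) ∂D.m) + 2 * ∫ v, f v * ((N v : ℝ) - Q) := by
    have e5 : (fun a => f (D.x a) * (2 - D.t a - 2 * D.j a)) = fun a =>
        ζ (D.x a) * (2 - D.t a) - ζ' (D.x a) * (2 - D.t a) - 2 * (f (D.x a) * D.j a) := by
      funext a
      simp only [hf]
      ring
    have e6 : (fun v => f v * ((N v : ℝ) - Q)) = fun v => f v * (N v : ℝ) - Q * f v := by
      funext v
      ring
    rw [e1, e5, e6, (int3_slema (bdd hc.measurable hB h2t) (bdd hm hB' h2t)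
      ((bdd hfm hf1 hj).const_mul 2)).1,
      integral_const_mul, hN.2, integral_sub hN.1 (hfi.const_mul _), integral_const_mul, hf00,
      CD.Sd]
    ring
  obtain ⟨-, hT0, hJ0, hE0, hEn, -, -, ht2⟩ := h.nonneg 0 (r + 10 * ρ)
  have hd1 : (1 : ℝ) ≤ d := by exact_mod_cast h.d_pos
  have hLρ : 0 ≤ Λ * ρ := by positivity
  have b1 : |∫ a, f (D.x a) * (2 - D.t a - 2 * D.j a) ∂D.m| ≤
      Λ * ρ * (d * D.En 0 (r + 10 * ρ)) := by
    have i1 : Integrable (fun a => Λ * ρ * (D.t a ^ 2 + ‖D.y a‖ ^ 2)) D.m :=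
      (ht.2.1.add ht.2.2.1).const_mul _
    rw [← Real.norm_eq_abs]
    refine (norm_integral_le_of_norm_le (i1.indicator hZ) ?_).trans ?_
    · filter_upwards [h.ae_pw] with a ha
      by_cases h0 : f (D.x a) = 0
      · rw [h0, zero_mul, norm_zero]
        exact indicator_nonneg (fun _ _ => by positivity) _
      · have h1 := hsupp _ h0
        have h2 : a ∈ D.cyl 0 (r + 10 * ρ) := by
          change ‖D.x a - 0‖ < _
          rw [sub_zero]
          linarith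
        rw [indicator_of_mem h2, Real.norm_eq_abs, abs_mul]
        refine mul_le_mul (hf1 _) (ha.j_t.trans ?_) (abs_nonneg _) hLρ
        nlinarith [sq_nonneg ‖D.y a‖]
    · rw [integral_indicator hZ, integral_const_mul,
        integral_add ht.2.1.integrableOn ht.2.2.1.integrableOn]
      refine mul_le_mul_of_nonneg_left ?_ hLρ
      change _ + D.J 0 (r + 10 * ρ) ≤ _
      nlinarith
  have b2 : |∫ v, f v * ((N v : ℝ) - Q)| ≤ 8 ^ d * CI * (Λ * ρ * (d * D.En 0 (r + 10 * ρ))) := by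
    refine abs_integral_le_integral_abs.trans ?_
    simp only [abs_mul]
    refine hw.2.trans (mul_le_mul_of_nonneg_left ?_ (by positivity))
    have e7 : (fun a => (ball (0 : E d) (r + 10 * ρ)).indicator (fun _ => Λ * ρ) (D.x a) *
        D.t a ^ 2) = (D.cyl 0 (r + 10 * ρ)).indicator fun a => Λ * ρ * D.t a ^ 2 := by
      funext a
      by_cases h2 : a ∈ D.cyl 0 (r + 10 * ρ)
      · rw [indicator_of_mem h2, indicator_of_mem ((mem_cyl_base2 D _ _ a).1 h2)]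
      · rw [indicator_of_notMem h2,
          indicator_of_notMem fun hh => h2 ((mem_cyl_base2 D _ _ a).2 hh), zero_mul]
    rw [e7, integral_indicator hZ, integral_const_mul]
    refine mul_le_mul_of_nonneg_left ?_ hLρ
    nlinarith
  rw [e4]
  refine (abs_add_le _ _).trans ?_
  rw [abs_mul, abs_two]
  nlinarith [mul_nonneg hLρ hE0]

theorem num_slema {C3 c C4 K V ϖ Λ ρ Ce a b y z : ℝ} (h3 : 0 ≤ C3) (hc : 0 ≤ c) (h4 : 0 ≤ C4)
    (hK : 0 ≤ K) (hV : 0 ≤ V) (hϖ : 0 ≤ ϖ) (hΛ : 0 ≤ Λ) (hρ : 0 ≤ ρ) (hCe : 0 ≤ Ce)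
    (hb : b ≤ c * C4 * V * K) :
    (a ≤ ϖ * (C3 * K) → y - z ≤ Λ * (16 * ρ) * (C3 * K) →
      Ce * (a + b + y) ≤ Ce * z + (16 * C3 + c * C4) * Ce * (ϖ + V + Λ * ρ) * K) ∧
    (a + y ≤ C3 * K → Ce * (a + b + y) ≤ (16 * C3 + c * C4) * Ce * (1 + V) * K) := by
  have p1 : 0 ≤ ϖ * (C3 * K) := by positivity
  have p2 : 0 ≤ C3 * V * K := by positivity
  have p3 : 0 ≤ c * C4 * ϖ * K := by positivity
  have p4 : 0 ≤ c * C4 * (Λ * ρ) * K := by positivity
  have p5 : 0 ≤ C3 * K := by positivity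
  have p6 : 0 ≤ c * C4 * K := by positivity
  refine ⟨fun ha hy => ?_, fun ha => ?_⟩
  · have := mul_le_mul_of_nonneg_left (show a + b + y ≤
      z + (16 * C3 + c * C4) * (ϖ + V + Λ * ρ) * K by linarith) hCe
    linarith
  · have := mul_le_mul_of_nonneg_left (show a + b + y ≤
      (16 * C3 + c * C4) * (1 + V) * K by linarith) hCe
    linarith

theorem cut_le_slema {ζ g : E d → ℝ} {r s : ℝ} (hc : Continuous ζ) (hs : HasCompactSupport ζ)
    (h01 : ∀ u, 0 ≤ ζ u ∧ ζ u ≤ 1) (hr : ∀ u, r ≤ ‖u‖ → ζ u = 0) (hrs : r ≤ s)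
    (hg : Continuous g) (hg0 : ∀ u, 0 ≤ g u) :
    Integrable (fun u => ζ u * g u) ∧ IntegrableOn g (ball (0 : E d) s) ∧
      ∫ u, ζ u * g u ≤ ∫ u in ball (0 : E d) s, g u := by
  have h1 : Integrable (fun u => ζ u * g u) :=
    (hc.mul hg).integrable_of_hasCompactSupport hs.mul_right
  have h2 : IntegrableOn g (ball (0 : E d) s) :=
    (hg.continuousOn.integrableOn_compact (isCompact_closedBall 0 s)).mono_set
      ball_subset_closedBall
  refine ⟨h1, h2, ?_⟩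
  rw [← integral_indicator measurableSet_ball]
  refine integral_mono h1 (h2.integrable_indicator measurableSet_ball) fun u => ?_
  by_cases hu : u ∈ ball (0 : E d) s
  · rw [indicator_of_mem hu]
    nlinarith [h01 u, hg0 u]
  · rw [indicator_of_notMem hu]
    rw [mem_ball_zero_iff, not_lt] at hu
    simp only [hr u (hrs.trans hu), zero_mul, le_refl]

theorem int_ee (d : ℕ) (M : ℝ) (ι : Type*) [Fintype ι] : ∃ C : ℝ, 0 < C ∧
    ∀ (D : CD d α H) (R δ lam ρ Δ ϖ Ce r l Λ : ℝ) (e : ι → H) (ζ : E d → ℝ), CV D 0 R δ M →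
    δ ≤ 1 / 10 → Ht D lam → 0 < lam → 2 * lam ≤ ρ → 0 < Δ → 0 < ϖ → ϖ ≤ 1 → 0 ≤ Ce →
    (∀ i, ‖e i‖ = 1) → 0 ≤ r → 512 * ρ ≤ l → l ≤ r → r + l ≤ R → 0 ≤ Λ →
    (∀ u, 0 ≤ ζ u ∧ ζ u ≤ 1) → (∀ u v, |ζ u - ζ v| ≤ Λ * ‖u - v‖) → (∀ u, r ≤ ‖u‖ → ζ u = 0) →
    ∫ u, ζ u * D.eef e ρ Δ ϖ Ce u ≤ Ce * (∫ a, ζ (D.x a) * ‖D.y a‖ ^ 2 ∂D.m) +
        C * Ce * (ϖ + (ρ + Δ / ρ + Δ / lam) / ϖ + Λ * ρ) * (lam ^ 2 * (r ^ d / l ^ 2)) ∧
      ∫ u in ball (0 : E d) (r + l / 4), D.eef e ρ Δ ϖ Ce u ≤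
        C * Ce * (1 + (ρ + Δ / ρ + Δ / lam) / ϖ) * (lam ^ 2 * (r ^ d / l ^ 2)) := by
  obtain ⟨C1, hC1, en1⟩ := en_le (α := α) (H := H) d M
  obtain ⟨C2, hC2, tw⟩ := two_int (α := α) (H := H) d M
  obtain ⟨C3, hC3⟩ : ∃ C3 : ℝ, C3 = 4 * 2 ^ d * C1 := ⟨_, rfl⟩
  have hC3p : 0 < C3 := by rw [hC3]; positivity
  obtain ⟨C4, hC4⟩ : ∃ C4 : ℝ, C4 = C2 * (16 * C3 + 4 * √(2 ^ d * C3)) := ⟨_, rfl⟩
  have hC4p : 0 < C4 := by rw [hC4]; positivity
  refine ⟨16 * C3 + Fintype.card ι * C4, by positivity, ?_⟩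
  intro D R δ lam ρ Δ ϖ Ce r l Λ e ζ h hδ hH hlam hlρ hΔ hϖ hϖ1 hCe he hr hρl hlr hR hΛ h01 hζ hz
  have hρ : 0 < ρ := by linarith
  have hl : 0 < l := by linarith
  have hr0 : 0 < r := by linarith
  obtain ⟨K, hK⟩ : ∃ K : ℝ, K = lam ^ 2 * (r ^ d / l ^ 2) := ⟨_, rfl⟩
  obtain ⟨W, hW⟩ : ∃ W : ℝ, W = ρ + Δ / ρ + Δ / lam := ⟨_, rfl⟩
  have hK0 : 0 ≤ K := by rw [hK]; positivity
  have hW0 : 0 ≤ W := by rw [hW]; positivity
  rw [← hK, ← hW]
  have hEn : D.En 0 (r + l / 4 + l / 4) ≤ C3 * K := by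
    have h1 := en1 D 0 R δ lam h hδ hH hlam 0 (r + l / 4 + l / 4) (l / 2) (by positivity)
      (by linarith) (by rw [sub_zero, norm_zero]; linarith)
    refine h1.trans ?_
    have h2 : (r + l / 4 + l / 4 + l / 2) ^ d ≤ (2 * r) ^ d :=
      pow_le_pow_left₀ (by positivity) (by linarith) d
    calc C1 * lam ^ 2 * ((r + l / 4 + l / 4 + l / 2) ^ d / (l / 2) ^ 2)
        ≤ C1 * lam ^ 2 * ((2 * r) ^ d / (l / 2) ^ 2) := by gcongr
      _ = C3 * K := by
          rw [hC3, hK, mul_pow]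
          field_simp
          ring
  obtain ⟨-, hT0, hJ0, hE0, hEq, -⟩ := h.nonneg 0 (r + l / 4 + l / 4)
  have htwo : ∀ i, ∫ u in ball (0 : E d) (r + l / 4), D.two (e i) (16 * ρ) Δ u ≤ C4 * W * K := by
    intro i
    have h1 := tw D R δ lam (16 * ρ) Δ (r + l / 4) (l / 4) (e i) h hδ hH hlam (by linarith)
      (he i) hΔ (by positivity) (by linarith) (by linarith)
    refine h1.trans ?_
    have h2 : (r + l / 4 + l / 4) ^ d ≤ (2 * r) ^ d :=
      pow_le_pow_left₀ (by positivity) (by linarith) d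
    have h3 : √((r + l / 4 + l / 4) ^ d * D.En 0 (r + l / 4 + l / 4)) ≤
        √(2 ^ d * C3) * (lam * r ^ d / l) := by
      rw [← Real.sqrt_sq (show 0 ≤ lam * r ^ d / l by positivity),
        ← Real.sqrt_mul (by positivity)]
      refine Real.sqrt_le_sqrt ?_
      calc (r + l / 4 + l / 4) ^ d * D.En 0 (r + l / 4 + l / 4) ≤ (2 * r) ^ d * (C3 * K) := by
            gcongr
        _ = 2 ^ d * C3 * (lam * r ^ d / l) ^ 2 := by
            rw [hK, mul_pow]
            field_simp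
    have h4 : Δ / (l / 4) * √((r + l / 4 + l / 4) ^ d * D.En 0 (r + l / 4 + l / 4)) ≤
        4 * √(2 ^ d * C3) * (Δ / lam) * K := by
      refine (mul_le_mul_of_nonneg_left h3 (by positivity)).trans (le_of_eq ?_)
      rw [hK]
      field_simp
    have h5 : 16 * ρ + Δ / (16 * ρ) ≤ 16 * (ρ + Δ / ρ) := by
      have : Δ / (16 * ρ) ≤ Δ / ρ := div_le_div_of_nonneg_left hΔ.le hρ (by linarith)
      have : 0 ≤ Δ / ρ := by positivity
      linarith
    have h6 : (16 * ρ + Δ / (16 * ρ)) * D.En 0 (r + l / 4 + l / 4) ≤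
        16 * (ρ + Δ / ρ) * (C3 * K) := by gcongr
    have h7 : ρ + Δ / ρ ≤ W := by
      rw [hW]
      have : 0 ≤ Δ / lam := by positivity
      linarith
    have h8 : Δ / lam ≤ W := by
      rw [hW]
      have : 0 ≤ ρ + Δ / ρ := by positivity
      linarith
    have h9 : 16 * (ρ + Δ / ρ) * (C3 * K) ≤ 16 * W * (C3 * K) := by gcongr
    have h10 : 4 * √(2 ^ d * C3) * (Δ / lam) * K ≤ 4 * √(2 ^ d * C3) * W * K := by gcongr
    calc C2 * ((16 * ρ + Δ / (16 * ρ)) * D.En 0 (r + l / 4 + l / 4) +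
          Δ / (l / 4) * √((r + l / 4 + l / 4) ^ d * D.En 0 (r + l / 4 + l / 4)))
        ≤ C2 * (16 * W * (C3 * K) + 4 * √(2 ^ d * C3) * W * K) := by
          refine mul_le_mul_of_nonneg_left ?_ hC2.le
          linarith
      _ = C4 * W * K := by
          rw [hC4]
          ring
  obtain ⟨hc, hs, hB⟩ := lip_facts_slema hΛ hζ hz
  have ht := h.integrable_t
  have hρ' : 0 < 16 * ρ := by positivity
  have t0 : ∀ᵐ a ∂D.m, 0 ≤ D.t a := h.ae_pw.mono fun a ha => ha.t_nonneg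
  have y0 : ∀ᵐ a ∂D.m, 0 ≤ ‖D.y a‖ ^ 2 := Eventually.of_forall fun a => sq_nonneg _
  have av0 : ∀ {g : α → ℝ}, (∀ᵐ a ∂D.m, 0 ≤ g a) → ∀ u, 0 ≤ D.av (16 * ρ) g u := fun hg u =>
    integral_nonneg_of_ae (hg.mono fun a ha => mul_nonneg (kr_nonneg hρ' _) ha)
  have hrs : r ≤ r + l / 4 := by linarith
  obtain ⟨it1, it2, it3⟩ := cut_le_slema hc hs h01 hz hrs
    (h.av_smooth hρ' ht.1).1.continuous (av0 t0)
  obtain ⟨iy1, iy2, -⟩ := cut_le_slema hc hs h01 hz hrs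
    (h.av_smooth hρ' ht.2.2.1).1.continuous (av0 y0)
  have iw := fun i => cut_le_slema hc hs h01 hz hrs
    (two_cont (Δ := Δ) h (by linarith) hρ' (he i)).1 (two_cont h (by linarith) hρ' (he i)).2.1
  have m1 := h.cyl_mono (u := 0) (v := 0) (r := r + l / 4 + 16 * ρ) (s := r + l / 4 + l / 4)
    (by rw [sub_zero, norm_zero]; linarith)
  have m2 := h.cyl_mono (u := 0) (v := 0) (r := r + 16 * ρ) (s := r + l / 4 + l / 4)
    (by rw [sub_zero, norm_zero]; linarith)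
  have bt : ∫ u in ball (0 : E d) (r + l / 4), D.av (16 * ρ) D.t u ≤ D.T 0 (r + l / 4 + l / 4) :=
    ((h.cyl_av hρ' ht.1 t0 0).1 _).trans m1.2.1
  have by' : ∫ u in ball (0 : E d) (r + l / 4), D.av (16 * ρ) (fun a => ‖D.y a‖ ^ 2) u ≤
      D.J 0 (r + l / 4 + l / 4) := ((h.cyl_av hρ' ht.2.2.1 y0 0).1 _).trans m1.2.2.1
  have hsum : ∑ i, ∫ u in ball (0 : E d) (r + l / 4), D.two (e i) (16 * ρ) Δ u ≤
      Fintype.card ι * (C4 * W * K) := by
    refine (Finset.sum_le_sum fun i _ => htwo i).trans (le_of_eq ?_)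
    rw [Finset.sum_const, Finset.card_univ, nsmul_eq_mul]
  have hcard : (0 : ℝ) ≤ Fintype.card ι := Nat.cast_nonneg _
  have hWϖ : 0 ≤ W / ϖ := by positivity
  have hq : Fintype.card ι * (C4 * W * K) / ϖ = Fintype.card ι * C4 * (W / ϖ) * K := by ring
  constructor
  · have wy := h.weight_av hρ' ht.2.2.1 hB hΛ hζ hz
    have e0 : ∫ a in D.cyl 0 (r + 16 * ρ), |‖D.y a‖ ^ 2| ∂D.m = D.J 0 (r + 16 * ρ) := by
      simp only [abs_pow, abs_norm]
      rfl
    rw [e0] at wy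
    have wy2 := (abs_le.1 wy).2
    have wy3 : Λ * (16 * ρ) * D.J 0 (r + 16 * ρ) ≤ Λ * (16 * ρ) * (C3 * K) :=
      mul_le_mul_of_nonneg_left (m2.2.2.1.trans (by linarith only [hEn, hEq, hT0]))
        (by positivity)
    have e1 : (fun u => ζ u * D.eef e ρ Δ ϖ Ce u) = fun u => Ce * (ϖ * (ζ u * D.av (16 * ρ) D.t u) +
        (∑ i, ζ u * D.two (e i) (16 * ρ) Δ u) / ϖ +
        ζ u * D.av (16 * ρ) (fun a => ‖D.y a‖ ^ 2) u) := by
      funext u
      rw [CD.eef, ← Finset.mul_sum]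
      ring
    have is := integrable_finsetSum Finset.univ fun i _ => (iw i).1
    rw [e1, integral_const_mul, (int3_slema (it1.const_mul ϖ) (is.div_const ϖ) iy1).2,
      integral_const_mul, MeasureTheory.integral_div,
      integral_finsetSum _ fun i _ => (iw i).1]
    have s1 : (∑ i, ∫ u, ζ u * D.two (e i) (16 * ρ) Δ u) / ϖ ≤
        Fintype.card ι * (C4 * W * K) / ϖ :=
      div_le_div_of_nonneg_right ((Finset.sum_le_sum fun i _ => (iw i).2.2).trans hsum) hϖ.le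
    have s2 : ϖ * ∫ u, ζ u * D.av (16 * ρ) D.t u ≤ ϖ * (C3 * K) :=
      mul_le_mul_of_nonneg_left (it3.trans (bt.trans (by linarith only [hEn, hEq, hJ0]))) hϖ.le
    exact (num_slema hC3p.le hcard hC4p.le hK0 hWϖ hϖ.le hΛ hρ.le hCe (s1.trans hq.le)).1 s2
      (wy2.trans wy3)
  · have is : IntegrableOn (fun u => ∑ i, D.two (e i) (16 * ρ) Δ u) (ball (0 : E d) (r + l / 4)) :=
      integrable_finsetSum Finset.univ fun i _ => (iw i).2.1
    unfold CD.eef
    rw [integral_const_mul, (int3_slema (it2.const_mul ϖ) (is.div_const ϖ) iy2).2,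
      integral_const_mul, MeasureTheory.integral_div,
      integral_finsetSum _ fun i _ => (iw i).2.1]
    have s1 : (∑ i, ∫ u in ball (0 : E d) (r + l / 4), D.two (e i) (16 * ρ) Δ u) / ϖ ≤
        Fintype.card ι * (C4 * W * K) / ϖ := div_le_div_of_nonneg_right hsum hϖ.le
    have s2 : ϖ * ∫ u in ball (0 : E d) (r + l / 4), D.av (16 * ρ) D.t u ≤
        D.T 0 (r + l / 4 + l / 4) := by
      exact (mul_le_mul_of_nonneg_left bt hϖ.le).trans (mul_le_of_le_one_left hT0 hϖ1)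
    exact (num_slema (z := 0) hC3p.le hcard hC4p.le hK0 hWϖ hϖ.le hΛ hρ.le hCe
      (s1.trans hq.le)).2 ((add_le_add s2 by').trans (hEq.ge.trans hEn))

end Pool.Agent.Lib.MP_8daebb_an.GM
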