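import Pool.Agent.Lib.MP_8daebb_an.GM.CellSum
import Pool.Agent.Lib.MP_8daebb_an.GM.GlbOf
import Pool.Agent.Lib.MP_8daebb_an.GM.SLemA

/-! The one-sided defect estimate for a weight. -/

set_option linter.unusedSectionVars false
set_option linter.unusedVariables false

open MeasureTheory Metric Filter Topology Set
open scoped RealInnerProductSpace ENNReal ContDiff

namespace Pool.Agent.Lib.MP_8daebb_an.GM

open LG (vb chi om trS)

variable {d : ℕ} {α : Type*} [MeasurableSpace α] {H : Type*} [NormedAddCommGroup H]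
  [InnerProductSpace ℝ H] [FiniteDimensional ℝ H] [MeasurableSpace H] [BorelSpace H]

theorem pow_slemb (b : ℕ) : ∃ L₁ : ℝ, ∀ L, L₁ ≤ L → L ^ b ≤ Real.exp (L / 2) := by
  refine ⟨2 ^ (b + 1) * (b + 1).factorial, fun L hL => ?_⟩
  have h0 : (0 : ℝ) < 2 ^ (b + 1) * (b + 1).factorial := by positivity
  have h1 : 0 ≤ L := h0.le.trans hL
  refine le_trans ?_ (Real.pow_div_factorial_le_exp (L / 2) (by positivity) (b + 1))
  rw [div_pow, div_div, le_div_iff₀ h0, pow_succ L]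
  exact mul_le_mul_of_nonneg_left hL (by positivity)

/-- The numerical facts about the scales. -/
theorem num_slemb {L lam l : ℝ} {b p : ℕ} (hL : 1 ≤ L) (hpb : p ≤ b)
    (hb : L ^ b ≤ Real.exp (L / 2)) (hlam : 0 < lam) (hl : lam ≤ Real.exp (-13 * L) * l)
    (hl1 : l ≤ 1) : 0 < l ∧ lam ≤ lam * L ^ b ∧ lam * L ^ b ≤ lam * L ^ b * Real.exp (3 * L) ∧
      lam * L ^ b * Real.exp (3 * L) ≤ Real.exp (-9 * L) ∧
      512 * (lam * L ^ b * Real.exp (3 * L)) ≤ l ∧ Real.exp (-L / 2) ≤ (L ^ p)⁻¹ ∧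
      lam * L ^ b ≤ (L ^ p)⁻¹ ^ 2 * l := by
  have h0 : 0 < l := by
    by_contra hc
    exact absurd (hl.trans (mul_nonpos_of_nonneg_of_nonpos (Real.exp_pos _).le (not_lt.1 hc)))
      (not_le.2 hlam)
  have h1 : 1 ≤ L ^ b := one_le_pow₀ hL
  have h2 : lam * L ^ b ≤ lam * L ^ b * Real.exp (3 * L) :=
    le_mul_of_one_le_right (by positivity) (Real.one_le_exp (by linarith))
  have h3 : lam * L ^ b * Real.exp (3 * L) ≤ Real.exp (-9 * L) * l := by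
    refine (mul_le_mul_of_nonneg_right (mul_le_mul hl hb (by positivity) (by positivity))
      (Real.exp_pos _).le).trans ?_
    rw [mul_right_comm _ l, mul_right_comm _ l, ← Real.exp_add, ← Real.exp_add]
    exact mul_le_mul_of_nonneg_right (Real.exp_le_exp.2 (by linarith)) h0.le
  have h4 : 512 * Real.exp (-9 * L) ≤ 1 := by
    have h5 : (2 : ℝ) ^ 9 ≤ Real.exp (9 * L) := by
      refine (pow_le_pow_left₀ (by norm_num) (?_ : 2 ≤ Real.exp L) 9).trans (le_of_eq ?_)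
      · linarith [Real.add_one_le_exp L]
      · rw [← Real.exp_nat_mul]
        norm_num
    rw [neg_mul, Real.exp_neg, ← div_eq_mul_inv, div_le_one (Real.exp_pos _)]
    linarith
  have h6 : Real.exp (-L / 2) ≤ (L ^ p)⁻¹ := by
    rw [neg_div, Real.exp_neg]
    exact inv_anti₀ (by positivity) ((pow_le_pow_right₀ hL hpb).trans hb)
  refine ⟨h0, le_mul_of_one_le_right hlam.le h1, h2,
    h3.trans (mul_le_of_le_one_right (Real.exp_pos _).le hl1),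
    by linarith [mul_le_mul_of_nonneg_right h4 h0.le], h6,
    h2.trans (h3.trans (mul_le_mul_of_nonneg_right ?_ h0.le))⟩
  refine le_trans ?_ (pow_le_pow_left₀ (Real.exp_pos _).le h6 2)
  rw [← Real.exp_nat_mul]
  exact Real.exp_le_exp.2 (by push_cast; linarith)

theorem last_slemb {L lam l r R₀ q : ℝ} (d : ℕ) (hL : 1 ≤ L) (hlam : 0 < lam) (hl : 0 < l)
    (hl1 : l ≤ 1) (h1 : Real.exp (-L ^ 2 / 4) ≤ lam) (h2 : lam ≤ R₀) (h3 : R₀ ≤ r)
    (hq : Real.exp (-L / 2) ≤ q) :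
    Real.exp (-L ^ 2) * (lam ^ 2 / R₀ ^ 2) * (r + R₀) ^ d ≤
      2 ^ d * q * (lam ^ 2 * (r ^ d / l ^ 2)) := by
  have r0 : 0 < R₀ := hlam.trans_le h2
  have r1 : 0 < r := r0.trans_le h3
  have a1 : lam ^ 2 / R₀ ^ 2 ≤ 1 :=
    (div_le_one (by positivity)).2 (pow_le_pow_left₀ hlam.le h2 2)
  have a2 : (r + R₀) ^ d ≤ 2 ^ d * (r ^ d / l ^ 2) := by
    refine (pow_le_pow_left₀ (by positivity) (show r + R₀ ≤ 2 * r by linarith) d).trans ?_
    rw [mul_pow]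
    exact mul_le_mul_of_nonneg_left (le_div_self (by positivity) (by positivity)
      (pow_le_one₀ hl.le hl1)) (by positivity)
  have a3 : Real.exp (-L ^ 2) ≤ q * lam ^ 2 := by
    refine le_trans ?_ (mul_le_mul hq (pow_le_pow_left₀ (Real.exp_pos _).le h1 2) (by positivity)
      ((Real.exp_pos _).le.trans hq))
    rw [← Real.exp_nat_mul, ← Real.exp_add]
    exact Real.exp_le_exp.2 (by push_cast; nlinarith)
  refine (mul_le_mul ((mul_le_of_le_one_right (Real.exp_pos _).le a1).trans a3) a2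
    (by positivity) ((Real.exp_pos _).le.trans a3)).trans (le_of_eq (by ring))

theorem fin_slemb {Sd I₀ It It' Iy Ic Ie B F En S q x g C₁ C₄ C₅ C₆ C₇ C' Ce : ℝ} (hq : 0 ≤ q)
    (hg : 0 ≤ g) (hg1 : g ≤ 1) (hx : 0 ≤ x) (hxq : x ≤ q) (hC₁ : 0 ≤ C₁) (hC' : 0 ≤ C')
    (hE : 0 ≤ En) (hIy : 0 ≤ Iy) (hB : 0 ≤ B) (hES : En ≤ C₄ * S)
    (h1 : Sd ≤ I₀ + C₁ * (10 * q * En)) (h2 : I₀ ≤ g * It' + C' * (Ie + Ic) + C' * x * B + C' * F)
    (h3 : It' ≤ It + 10 * q * En) (h4 : Ic ≤ Iy + 10 * q * En) (h5 : Ie ≤ Ce * Iy + C₅ * q * S)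
    (h6 : B ≤ En + C₆ * S) (h7 : F ≤ C₇ * q * S) :
    Sd ≤ g * It + (C' * (Ce + 1) + 1) * Iy +
      (10 * C₁ * C₄ + 10 * C₄ + C' * (C₅ + 11 * C₄ + C₆ + C₇)) * q * S := by
  have a0 : q * En ≤ q * (C₄ * S) := mul_le_mul_of_nonneg_left hES hq
  have a1 := mul_le_mul_of_nonneg_left a0 hC₁
  have a2 := mul_le_mul_of_nonneg_left h3 hg
  have a3 := mul_le_of_le_one_left (mul_nonneg hq hE) hg1
  have a4 : x * B ≤ q * (En + C₆ * S) := mul_le_mul hxq h6 hB hq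
  have a5 : Ie + Ic + x * B + F ≤ (Ce + 1) * Iy + (C₅ + 11 * C₄ + C₆ + C₇) * q * S := by
    linarith
  have a6 := mul_le_mul_of_nonneg_left a5 hC'
  linarith

theorem sd_le (hS : AS.SLemL (E d) (Fin (Module.finrank ℝ H))) (M : ℝ) {CI : ℝ} (hCI : 0 ≤ CI)
    (Q : ℕ) : ∃ δ₀ : ℝ, 0 < δ₀ ∧ δ₀ ≤ 1 / 10 ∧ ∀ P : ℕ, ∃ γ > (0 : ℝ), ∃ C L₀ : ℝ, 0 < C ∧
    ∀ (D : CD d α H) (R δ lam ρ L l r : ℝ) (N : E d → ℕ) (ζ : E d → ℝ),
    MS D R δ M lam ρ CI Q N → δ ≤ δ₀ → L₀ ≤ L → ρ ≤ lam * L → Real.exp (-L ^ 2 / 4) ≤ lam →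
    lam ≤ Real.exp (-13 * L) * l → l ≤ r → r + l ≤ R → (∀ u, 0 ≤ ζ u ∧ ζ u ≤ 1) →
    (∀ u v, |ζ u - ζ v| ≤ 10 / l * ‖u - v‖) → (∀ u, r ≤ ‖u‖ → ζ u = 0) →
    D.Sd Q ζ ≤ L ^ (-(1 + γ)) * (∫ a, ζ (D.x a) * D.t a ∂D.m) +
      C * (∫ a, ζ (D.x a) * ‖D.y a‖ ^ 2 ∂D.m) + (L ^ P)⁻¹ * (lam ^ 2 * (r ^ d / l ^ 2)) := by
  by_cases hd : 1 ≤ d
  swap
  · exact ⟨1 / 10, by norm_num, le_rfl, fun P => ⟨1, one_pos, 1, 0, one_pos,
      fun D R δ lam ρ L l r N ζ h => absurd h.cv.d_pos hd⟩⟩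
  obtain ⟨δ₀, hδ₀, hδ₁, C, Ce, Λ, hC, hCe, hΛ, hG⟩ :=
    glb_of (α := α) d M hCI Q (stdOrthonormalBasis ℝ H)
  refine ⟨δ₀, hδ₀, hδ₁, fun P => ?_⟩
  obtain ⟨A, L₁, hG⟩ := hG (2 * (P + 1)) (d + 6 + (P + 1)) (P + 1) (by omega) (by omega)
  obtain ⟨γ, hγ, C', L₂, hC', hc⟩ := cell_sum hd hS Q C A hC
  obtain ⟨L₃, hL₃⟩ := pow_slemb (d + 6 + (P + 1))
  obtain ⟨C₁, hC₁, h1⟩ := sd_av (α := α) (H := H) d hCI
  obtain ⟨C₂, hC₂, h2⟩ := en_le (α := α) (H := H) d M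
  obtain ⟨C₃, hC₃, h3⟩ := int_ee (α := α) (H := H) d M (Fin (Module.finrank ℝ H))
  set C₄ : ℝ := C₂ * 4 * 2 ^ d with hC₄
  set K : ℝ := 10 * C₁ * C₄ + 10 * C₄ +
    C' * (C₃ * Ce * (12 + 2 * Λ) + 11 * C₄ + C₃ * Ce * (2 + 2 * Λ) + 2 ^ d) with hK
  refine ⟨γ, hγ, C' * (Ce + 1) + 1, max (max (max L₁ L₂) (max L₃ 1)) K, by positivity, ?_⟩
  intro D R δ lam ρ₀ L l r N ζ hM hδ hL hρ₀ hlo hup hlr hR hζ hlip hz
  simp only [max_le_iff] at hL
  obtain ⟨⟨⟨l1, l2⟩, l3, l4⟩, l5⟩ := hL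
  have hv := hM.cv
  have hlam := hM.lam_pos
  have hl1 : l ≤ 1 := by linarith [hv.R_le]
  obtain ⟨hl, n1, n2, n3, n4, n5, n6⟩ :=
    num_slemb (p := P + 1) l4 (by omega) (hL₃ L l3) hlam hup hl1
  have hM' : MS D R δ M lam (lam * L ^ (d + 6 + (P + 1))) CI Q N :=
    hM.mono (hρ₀.trans (mul_le_mul_of_nonneg_left (le_self_pow₀ l4 (by omega)) hlam.le))
  obtain ⟨U, hU⟩ := hG L l1 D R δ lam _ _ N hM' hδ rfl rfl n3
  set ρ := lam * L ^ (d + 6 + (P + 1)) with hρ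
  set R₀ := ρ * Real.exp (3 * L) with hR₀
  set q := (L ^ (P + 1))⁻¹ with hq
  set Δ := Λ * (lam / L ^ (2 * (P + 1))) with hΔ
  have ρ0 : 0 < ρ := hlam.trans_le n1
  have R0 : 0 < R₀ := ρ0.trans_le n2
  have q0 : 0 < q := (Real.exp_pos _).trans_le n5
  have q1 : q ≤ 1 := inv_le_one_of_one_le₀ (one_le_pow₀ l4)
  have hδ' : δ ≤ 1 / 10 := hδ.trans hδ₁
  have Λ0 : (0 : ℝ) ≤ 10 / l := by positivity
  have w1 : 10 / l * ρ ≤ 10 * q := by
    rw [div_mul_eq_mul_div, div_le_iff₀ hl]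
    linarith only [n6,
      mul_le_mul_of_nonneg_right (pow_le_of_le_one q0.le q1 two_ne_zero) hl.le]
  have w2 : (ρ + Δ / ρ + Δ / lam) / q ≤ (1 + 2 * Λ) * q := by
    have e1 : Δ / lam = Λ * q ^ 2 := by
      rw [hΔ, hq, pow_mul', inv_pow]
      field_simp
    have e2 : Δ / ρ ≤ Δ / lam := div_le_div_of_nonneg_left (by positivity) hlam n1
    have e3 : q ^ 2 * l ≤ q ^ 2 := mul_le_of_le_one_right (by positivity) hl1
    rw [div_le_iff₀ q0]
    linarith only [e1, e2, e3, n6]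
  have S0 : 0 ≤ lam ^ 2 * (r ^ d / l ^ 2) := by
    have := hl.trans_le hlr
    positivity
  have hE : D.En 0 (r + l / 2) ≤ C₄ * (lam ^ 2 * (r ^ d / l ^ 2)) := by
    refine (h2 D 0 R δ lam hv hδ' hM.ht hlam 0 (r + l / 2) (l / 2) (by linarith) (by linarith)
      (by rw [sub_zero, norm_zero]; linarith)).trans ?_
    have e1 : (r + l / 2 + l / 2) ^ d ≤ 2 ^ d * r ^ d := by
      rw [← mul_pow]
      exact pow_le_pow_left₀ (by linarith) (by linarith) d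
    refine (mul_le_mul_of_nonneg_left (div_le_div_of_nonneg_right e1 (by positivity))
      (by positivity)).trans (le_of_eq ?_)
    rw [hC₄]
    field_simp
    norm_num
  have hEm : ∀ s, s ≤ r + l / 2 → D.T 0 s ≤ D.En 0 (r + l / 2) ∧ D.J 0 s ≤ D.En 0 (r + l / 2) ∧
      D.En 0 s ≤ D.En 0 (r + l / 2) := fun s hs => by
    obtain ⟨-, a1, a2, -, a3, -⟩ := hv.nonneg 0 s
    have a4 := (hv.cyl_mono (u := 0) (v := 0) (r := s) (s := r + l / 2)
      (by rw [sub_zero, norm_zero, zero_add]; exact hs)).2.2.2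
    exact ⟨by linarith, by linarith, a4⟩
  have E0 := (hv.nonneg 0 (r + l / 2)).2.2.2.1
  have hB : ∀ u, |ζ u| ≤ 1 := fun u => by
    rw [abs_of_nonneg (hζ u).1]
    exact (hζ u).2
  obtain ⟨it, -, iy, ie, -⟩ := hv.integrable_t
  have wt : ∀ {f : α → ℝ}, Integrable f D.m → (∀ᵐ a ∂D.m, 0 ≤ f a) →
      ∫ a in D.cyl 0 (r + ρ), f a ∂D.m ≤ D.En 0 (r + l / 2) →
      ∫ u, ζ u * D.av ρ f u ≤ (∫ a, ζ (D.x a) * f a ∂D.m) + 10 * q * D.En 0 (r + l / 2) := by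
    intro f hf h0 hI
    have a1 := (abs_le.1 (hv.weight_av ρ0 hf hB Λ0 hlip hz)).2
    have a2 : ∫ a in D.cyl 0 (r + ρ), |f a| ∂D.m = ∫ a in D.cyl 0 (r + ρ), f a ∂D.m :=
      integral_congr_ae (ae_restrict_of_ae (h0.mono fun a ha => abs_of_nonneg ha))
    have a3 : 0 ≤ ∫ a in D.cyl 0 (r + ρ), |f a| ∂D.m := integral_nonneg fun a => abs_nonneg _
    have a4 := mul_le_mul w1 (a2.le.trans hI) a3 (by positivity)
    linarith
  obtain ⟨b1, b2⟩ := h3 D R δ lam ρ Δ q Ce r l (10 / l) (stdOrthonormalBasis ℝ H) ζ hv hδ' hM.ht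
    hlam hM'.lam_le (by positivity) q0 q1 hCe.le (stdOrthonormalBasis ℝ H).orthonormal.1
    (by linarith) (by linarith) hlr hR Λ0 hζ hlip hz
  have hcell := hc L l2 _ _ _ _ _ hU ζ r hζ (fun x y => (hlip x y).trans (by
      rw [div_eq_inv_mul ‖x - y‖]
      refine mul_le_mul_of_nonneg_right ?_ (norm_nonneg _)
      rw [div_le_iff₀ hl, inv_mul_eq_div, le_div_iff₀ R0]
      linarith)) hz (by linarith) (by linarith)
  have hsoft := (gd_soft hv hδ' ρ0 q0 hCe.le (stdOrthonormalBasis ℝ H).orthonormal.1 Q U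
    (Δ := Δ) rfl).2.2.2.2.2.2.2.2.2.2.2.2.1
  set X := D.gd (stdOrthonormalBasis ℝ H) Q ρ Δ q Ce U with hX
  have ζc : Continuous ζ := (LipschitzWith.of_dist_le' (K := 10 / l) fun u v => by
    rw [Real.dist_eq, dist_eq_norm]; exact hlip u v).continuous
  have ζi : ∀ {f : E d → ℝ}, Continuous f → Integrable fun u => ζ u * f u := fun hf =>
    (ζc.mul hf).integrable_of_hasCompactSupport (HasCompactSupport.intro
      (isCompact_closedBall (0 : E d) r) fun u hu => by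
        rw [Pi.mul_apply, hz u (not_le.1 (fun h => hu (mem_closedBall_zero_iff.2 h))).le,
          zero_mul])
  have bi : ∀ {f : E d → ℝ}, Continuous f → IntegrableOn f (ball 0 (r + l / 4)) := fun hf =>
    (hf.continuousOn.integrableOn_compact (isCompact_closedBall _ _)).mono_set
      ball_subset_closedBall
  have sp : ∫ x, ζ x * (X.ee x + X.cc x) = (∫ x, ζ x * X.ee x) + ∫ x, ζ x * X.cc x := by
    rw [← integral_add (ζi hU.c_ee) (ζi hU.c_cc)]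
    simp only [mul_add]
  have p0 : ∀ x, 0 ≤ X.t x + X.cc x + X.ee x := fun x =>
    add_nonneg (add_nonneg (hU.t_nonneg x) (hU.cc_nonneg x)) (hU.ee_nonneg x)
  have bb : ∫ x in ball (0 : E d) (r + 4 * R₀), (X.t x + X.cc x + X.ee x) ≤
      D.En 0 (r + l / 2) + C₃ * Ce * (2 + 2 * Λ) * (lam ^ 2 * (r ^ d / l ^ 2)) := by
    refine (setIntegral_mono_set (bi (f := fun x => X.t x + X.cc x + X.ee x)
      ((hU.c_t.add hU.c_cc).add hU.c_ee)) (ae_of_all _ p0)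
      (ball_subset_ball (by linarith)).eventuallyLE).trans ?_
    rw [integral_add (bi (f := fun x => X.t x + X.cc x) (hU.c_t.add hU.c_cc)) (bi hU.c_ee)]
    refine add_le_add ?_ (b2.trans (mul_le_mul_of_nonneg_right
      (mul_le_mul_of_nonneg_left ?_ (by positivity)) S0))
    · simp only [hsoft]
      exact ((hv.cyl_av ρ0 ie (hv.ae_pw.mono fun a ha => ha.facts_av.1) 0).1 _).trans
        (hEm _ (by linarith)).2.2
    · linarith only [w2,
        mul_le_of_le_one_right (show 0 ≤ 1 + 2 * Λ by linarith only [hΛ]) q1]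
  rw [sp, mul_assoc C' (Real.exp (-L ^ 2)), mul_assoc C' (Real.exp (-L ^ 2) * _)] at hcell
  have fin := fin_slemb (Sd := D.Sd Q ζ) (C₅ := C₃ * Ce * (12 + 2 * Λ)) q0.le
    (Real.rpow_nonneg (by linarith) _)
    (Real.rpow_le_one_of_one_le_of_nonpos l4 (by linarith)) (Real.exp_pos _).le n5 hC₁.le hC' E0
    (integral_nonneg fun a => mul_nonneg (hζ _).1 (sq_nonneg _)) (integral_nonneg p0) hE ?_ hcell
    (wt it (hv.ae_pw.mono fun a ha => ha.t_nonneg) (hEm _ (by linarith)).1)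
    (wt iy (ae_of_all _ fun a => sq_nonneg _) (hEm _ (by linarith)).2.1)
    (b1.trans (add_le_add le_rfl (mul_le_mul_of_nonneg_right ?_ S0))) bb
    (last_slemb d l4 hlam hl hl1 hlo (n1.trans n2) (by linarith) n5)
  · refine fin.trans (add_le_add le_rfl (mul_le_mul_of_nonneg_right ?_ S0))
    refine (mul_le_mul_of_nonneg_right l5 q0.le).trans (le_of_eq ?_)
    rw [hq, pow_succ]
    field_simp
  · have a1 := (abs_le.1 (h1 D R δ M lam ρ r (10 / l) Q N ζ hM' (by linarith) Λ0 hlip hz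
      (by linarith))).2
    have a2 := mul_le_mul_of_nonneg_left (mul_le_mul w1 (hEm (r + 10 * ρ) (by linarith)).2.2
      (hv.nonneg 0 _).2.2.2.1 (by positivity)) hC₁.le
    have a3 : ∫ x, ζ x * (2 * X.ε x - X.t x) =
      ∫ u, ζ u * (2 * (D.av ρ (fun _ => (1 : ℝ)) u - Q) - D.av ρ D.t u) := rfl
    rw [a3]
    linarith
  · rw [mul_assoc (C₃ * Ce)]
    exact mul_le_mul_of_nonneg_left (by linarith) (by positivity)

end Pool.Agent.Lib.MP_8daebb_an.GM
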