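import Pool.Agent.Lib.MP_8daebb_an.GM.MsOf
import Pool.Agent.Lib.MP_8daebb_an.GM.FreqU
import Pool.Agent.Lib.MP_8daebb_an.GM.SLem

/-! The one-sided defect bound at the level `L`. -/

set_option linter.unusedSectionVars false
set_option linter.unusedVariables false

open MeasureTheory Metric Filter Topology Set
open scoped RealInnerProductSpace ENNReal ContDiff

namespace Pool.Agent.Lib.MP_8daebb_an.GM

open LG (vb chi om trS)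
open SV (ux)

variable {d : ℕ} {α : Type*} [MeasurableSpace α] {H : Type*} [NormedAddCommGroup H]
  [InnerProductSpace ℝ H] [FiniteDimensional ℝ H] [MeasurableSpace H] [BorelSpace H]

theorem sl_u (hS : AS.SLemL (E d) (Fin (Module.finrank ℝ H))) (M : ℝ) {CI δg cg : ℝ}
    (hCI : 0 ≤ CI) (hδg : 0 < δg) (hcg : 0 < cg) (hcg1 : cg ≤ 1 / 2)
    (hG : GlobOK d α H M CI δg cg) (Q : ℕ) : ∃ δ₀ : ℝ, 0 < δ₀ ∧
    ∀ (KN : ℕ) (A b g : ℝ), Par d KN A b g → ∀ p : ℕ, ∃ γ C L₀ : ℝ, 0 < γ ∧ 0 < C ∧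
    ∀ (D : CD d α H) (R δ L K ϱ : ℝ) (N : E d → ℕ), δ ≤ δ₀ → L₀ ≤ L →
    Lev D R δ M CI Q N A L → 1 ≤ K → K ≤ L ^ p → ux L (3 / 2) ≤ ϱ → ϱ ≤ 1 →
    ϱ * (1 + 1 / K) ≤ R → D.hh (ϱ * (1 + 1 / K)) ≤ 81 * K * D.hh ϱ → ux L (A + 2) ≤ D.hh ϱ →
    2 * D.EE Q ϱ - D.dr ϱ ≤ L ^ (-(1 + γ)) * D.dr ϱ + ((L ^ 3)⁻¹ + C * ϱ) * D.hh ϱ := by
  obtain ⟨δs, δs0, hs⟩ := s_lemma (α := α) hS M hCI Q
  obtain ⟨Cj, Cj0, δj, δj0, hj⟩ := ht_of_J (α := α) (H := H) d M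
  obtain ⟨c₁, c10, hm⟩ := ms_shrink d M hCI hcg hcg1 hG
  obtain ⟨Ck, Ck1, hk⟩ := hh_K (α := α) (H := H) d
  obtain ⟨Cf, -, hf⟩ := freq_u (α := α) (H := H) d M hCI Q
  refine ⟨min (min δs δj) (min δg (1 / 10)), by positivity, fun KN A b g hP p => ?_⟩
  obtain ⟨γ, γ0, C, Ls, C0, hs⟩ := hs (p * (d + 5) + 4)
  obtain ⟨Lf, hf⟩ := hf KN A b g hP
  obtain ⟨C₀, hC₀⟩ : ∃ c : ℝ, c = 81 * 4 ^ d * Cj * Ck + 1 := ⟨_, rfl⟩
  have C1 : 1 ≤ C₀ := by rw [hC₀]; exact le_add_of_nonneg_left (by positivity)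
  obtain ⟨L₁, L11, h1⟩ := ux_small 1 p (show (0 : ℝ) < 1 / 2 by norm_num)
  obtain ⟨L₂, -, h2⟩ := ux_small (4 * C₀) (p * (d + 5)) (show (0 : ℝ) < 6 by norm_num)
  obtain ⟨L₃, -, h3⟩ := ux_small c₁⁻¹ 1 (show (0 : ℝ) < 13 by norm_num)
  refine ⟨γ, C, max (max (max Ls Lf) (max L₁ L₂)) (max (max L₃ cg⁻¹) (max (4 * C₀) (2 * (A + 2)))),
    γ0, C0, fun D R δ L K ϱ N hδ hL hlev hK hKL hϱ hϱ1 hR hdbl hlo => ?_⟩
  simp only [max_le_iff, le_min_iff] at hL hδ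
  obtain ⟨⟨⟨hLs, hLf⟩, hL1, hL2⟩, ⟨hL3, hLg⟩, hL4, hLA⟩ := hL
  obtain ⟨⟨hδs, hδj⟩, hδg', hδ1⟩ := hδ
  have L1 : 1 ≤ L := L11.trans hL1
  have L0 : 0 < L := by linarith
  have K0 : 0 < K := by linarith
  have ϱ0 : 0 < ϱ := (ux_pos _ _).trans_le hϱ
  have d0 : (0 : ℝ) ≤ d := Nat.cast_nonneg d
  have hA := hP.A_d
  have cv := hlev.ms.cv
  have h0 : 0 < D.hh ϱ := (ux_pos _ _).trans_le hlo
  have q0 : 0 < ϱ / K := by positivity
  have e1 : ϱ * (1 + 1 / K) = ϱ + ϱ / K := by ring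
  have a1 : ux L 2 ≤ ϱ / K := by
    rw [le_div_iff₀ K0, show (2 : ℝ) = 3 / 2 + 1 / 2 by norm_num, ux_add, mul_assoc]
    refine le_trans (mul_le_of_le_one_right (ux_pos _ _).le ?_) hϱ
    have := h1 L hL1
    linarith [mul_le_mul_of_nonneg_right hKL (ux_pos L (1 / 2)).le]
  have hup := (hf D R δ L ϱ N hδ1 hLf hlev ((ux_anti L0.le (by norm_num)).trans hϱ) hϱ1
    (by linarith)).2
  obtain ⟨lam, hlam⟩ : ∃ x, x = √(C₀ * K ^ (d + 3) * D.hh ϱ) := ⟨_, rfl⟩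
  have lam0 : 0 < lam := by rw [hlam]; positivity
  have lam2 : lam ^ 2 = C₀ * K ^ (d + 3) * D.hh ϱ := by rw [hlam, Real.sq_sqrt (by positivity)]
  have hKp : K ^ (d + 5) ≤ L ^ (p * (d + 5)) := by rw [pow_mul]; gcongr
  have e2 : ϱ * (1 + 3 / (4 * K)) - ϱ / (4 * K) = ϱ + ϱ / (2 * K) := by field_simp; ring
  have q1 : ϱ / (2 * K) ≤ ϱ / K := by gcongr; linarith
  have q2 : 0 < ϱ / (2 * K) := by positivity
  have hHt := hj D R δ (ϱ * (1 + 3 / (4 * K))) (ϱ / (4 * K)) lam cv hδj (by positivity)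
    (by linarith) (le_trans (by
      have : 3 / (4 * K) ≤ 1 / K := by rw [div_le_div_iff₀ (by positivity) K0]; linarith
      gcongr) hR) lam0.le (by
      have b1 := ((hk D R δ M K ϱ cv hδ1 hK ϱ0).1 hR).2
      calc Cj * D.J 0 (ϱ * (1 + 3 / (4 * K))) ≤ Cj * (Ck * K ^ 2 * ϱ ^ d * (81 * K * D.hh ϱ)) :=
            mul_le_mul_of_nonneg_left (b1.trans (by gcongr)) Cj0.le
        _ = 81 * 4 ^ d * Cj * Ck * K ^ (d + 3) * D.hh ϱ * (ϱ / (4 * K)) ^ d := by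
            rw [div_pow, mul_pow]; field_simp; ring
        _ ≤ _ := by rw [lam2]; gcongr; linarith)
  rw [e2] at hHt
  have a2 : lam ≤ Real.exp (-13 * L) * (ϱ / (2 * K)) := by
    refine (pow_le_pow_iff_left₀ lam0.le (by positivity) two_ne_zero).1 ?_
    have b1 : D.hh ϱ ≤ ux L 35 := hup.trans (ux_anti L0.le (by linarith [sq_nonneg (d : ℝ)]))
    have b2 : Real.exp (-13 * L) = ux L 13 := by rw [ux, neg_mul]
    have b3 : ux L 35 = ux L 6 * (ux L 13 ^ 2 * ux L (3 / 2) ^ 2) := by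
      rw [ux_pow, ux_pow, ← ux_add, ← ux_add]; norm_num
    have b4 := h2 L hL2
    have b5 := ux_pos L 13
    have b6 := ux_pos L (3 / 2)
    have b7 := ux_pos L 6
    rw [b2, lam2, mul_pow, div_pow, ← mul_div_assoc, le_div_iff₀ (by positivity)]
    calc _ = 4 * C₀ * K ^ (d + 5) * D.hh ϱ := by ring
      _ ≤ 4 * C₀ * L ^ (p * (d + 5)) * (ux L 6 * (ux L 13 ^ 2 * ux L (3 / 2) ^ 2)) := by
          rw [← b3]; gcongr
      _ = 4 * C₀ * L ^ (p * (d + 5)) * ux L 6 * (ux L 13 ^ 2 * ux L (3 / 2) ^ 2) := by ring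
      _ ≤ 1 * (ux L 13 ^ 2 * ϱ ^ 2) := by gcongr
      _ = _ := one_mul _
  have a3 : lam / cg ≤ lam * L := by rw [div_eq_mul_inv]; gcongr
  have a4 : L * ux L 13 ≤ c₁ := by
    have := h3 L hL3
    rwa [pow_one, mul_assoc, inv_mul_le_iff₀ c10, mul_one] at this
  have q3 : ϱ / (2 * K) ≤ ϱ := div_le_self ϱ0.le (by linarith)
  obtain ⟨N₁, hms⟩ := hm D R δ _ _ (ϱ + ϱ / (2 * K)) lam (lam / cg) Q N hlev.ms hδg' hδ1
    (by linarith) hHt lam0 (by rw [mul_div_cancel₀ _ hcg.ne']) (by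
      calc _ ≤ ux L (13 + 3 / 2) := ux_anti L0.le (by linarith [sq_nonneg (d : ℝ)])
        _ = 1 * ux L 13 * ux L (3 / 2) := by rw [ux_add, one_mul]
        _ ≤ L * ux L 13 * (ϱ + ϱ / (2 * K)) := by
            have := ux_pos L 13
            have := ux_pos L (3 / 2)
            gcongr; linarith
        _ ≤ _ := by gcongr) (by
      have b2 : Real.exp (-13 * L) = ux L 13 := by rw [ux, neg_mul]
      rw [b2] at a2
      calc _ ≤ ux L 13 * (ϱ / (2 * K)) * L := a3.trans (by gcongr)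
        _ = L * ux L 13 * (ϱ / (2 * K)) := by ring
        _ ≤ _ := mul_le_mul a4 (by linarith) q2.le c10.le)
  have key := hs _ _ δ lam (lam / cg) L (ϱ / (2 * K)) ϱ N₁ hms hδs hLs a3 (by
    refine (pow_le_pow_iff_left₀ (Real.exp_pos _).le lam0.le two_ne_zero).1 ?_
    rw [lam2, sq, ← Real.exp_add]
    calc _ ≤ ux L (A + 2) := Real.exp_le_exp.2 (by linarith [mul_le_mul_of_nonneg_right hLA L0.le])
      _ ≤ 1 * 1 * D.hh ϱ := by rwa [one_mul, one_mul]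
      _ ≤ _ := by gcongr; exact one_le_pow₀ hK) a2 q3 le_rfl
  obtain ⟨r1, r2, r3, -⟩ := cv.resB_rad (by linarith) (R₁ := ϱ + ϱ / (2 * K)) ϱ0 (by linarith) Q
  rw [r1, r2, r3, lam2] at key
  have a5 : (L ^ (p * (d + 5) + 4))⁻¹ * (C₀ * K ^ (d + 3) * D.hh ϱ) * (ϱ / (ϱ / (2 * K))) ^ 2 ≤
      (L ^ 3)⁻¹ * D.hh ϱ := by
    calc _ = (L ^ (p * (d + 5) + 4))⁻¹ * (4 * C₀ * K ^ (d + 5)) * D.hh ϱ := by field_simp; ring
      _ ≤ (L ^ (p * (d + 5) + 4))⁻¹ * (L * L ^ (p * (d + 5))) * D.hh ϱ :=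
          mul_le_mul_of_nonneg_right (mul_le_mul_of_nonneg_left
            (mul_le_mul hL4 hKp (by positivity) L0.le) (by positivity)) h0.le
      _ = _ := by rw [pow_add]; field_simp
  have a6 : C * ϱ ^ 2 * D.hh ϱ ≤ C * ϱ * D.hh ϱ := mul_le_mul_of_nonneg_right
    (mul_le_mul_of_nonneg_left (pow_le_of_le_one ϱ0.le hϱ1 two_ne_zero) C0.le) h0.le
  linarith

end Pool.Agent.Lib.MP_8daebb_an.GM
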