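import Pool.Agent.Lib.MP_8daebb_an.GM.SlU
import Pool.Agent.Lib.MP_8daebb_an.GM.DecB
import Pool.Agent.Lib.MP_8daebb_an.GM.OdeT

/-! One stage in a fixed chart. -/

set_option linter.unusedSectionVars false
set_option linter.unusedVariables false

open MeasureTheory Metric Filter Topology Set
open scoped RealInnerProductSpace ENNReal ContDiff

namespace Pool.Agent.Lib.MP_8daebb_an.GM

open LG (vb chi om trS)
open SV (ux)

variable {d : ℕ} {α : Type*} [MeasurableSpace α] {H : Type*} [NormedAddCommGroup H]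
  [InnerProductSpace ℝ H] [FiniteDimensional ℝ H] [MeasurableSpace H] [BorelSpace H]

theorem mono_stageA {h E d : ℝ → ℝ} {e C C' r : ℝ} (H : IdAt h E d e C r) (hC : C ≤ C')
    (hr : 0 ≤ r) : IdAt h E d e C' r := by
  obtain ⟨h0, d0, h', E', U, V, d1, d2, a1, a2, a3, a4, a5, a6⟩ := H
  have b1 : C * r * h r ≤ C' * r * h r :=
    mul_le_mul_of_nonneg_right (mul_le_mul_of_nonneg_right hC hr) h0
  have b2 : C * r * (d r + h r) ≤ C' * r * (d r + h r) :=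
    mul_le_mul_of_nonneg_right (mul_le_mul_of_nonneg_right hC hr) (add_nonneg d0 h0)
  have b3 : C * (d r + h r) ≤ C' * (d r + h r) := mul_le_mul_of_nonneg_right hC (add_nonneg d0 h0)
  exact ⟨h0, d0, h', E', U, V, d1, d2, a1.trans (by linarith only [b1]),
    a2.trans (by linarith only [b1]), by linarith only [a3, b2], a4, a5, by linarith only [a6, b3]⟩

theorem amp_stageA {B dl w c t y η : ℝ} (hB : 1 ≤ B) (hw : 0 ≤ w) (hη : 0 ≤ η) (h : c ≤ B * t) :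
    ((1 + dl) * B + w + c) * Real.exp y * (1 + η) ≤ B * Real.exp (dl + w + t + y + η) := by
  have h1 : (1 + dl) * B + w + c ≤ B * Real.exp (dl + w + t) := by
    have a1 := mul_le_mul_of_nonneg_left (Real.add_one_le_exp (dl + w + t)) (zero_le_one.trans hB)
    have a2 := mul_le_mul_of_nonneg_right hB hw
    linarith only [a1, a2, h]
  rw [Real.exp_add _ η, Real.exp_add _ y, ← mul_assoc, ← mul_assoc]
  exact mul_le_mul (mul_le_mul_of_nonneg_right h1 (Real.exp_pos _).le)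
    (by linarith only [Real.add_one_le_exp η]) (by linarith only [hη]) (by positivity)

theorem add_stageA {B x t c : ℝ} (hB : 0 ≤ B) (hx : 0 ≤ x) (ht : 0 ≤ t) (h : c ≤ B * t) :
    B * Real.exp x + c ≤ B * Real.exp (x + t) := by
  have a1 := mul_le_mul_of_nonneg_left (Real.add_one_le_exp t) (Real.exp_pos x).le
  have a2 := mul_le_mul_of_nonneg_left a1 hB
  have a3 := mul_le_mul_of_nonneg_left (Real.one_le_exp hx) (mul_nonneg hB ht)
  rw [Real.exp_add]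
  linarith only [a2, a3, h]

theorem sm_stageA {A γ₁ : ℝ} (C₂ : ℝ) (hA : 1 ≤ A) (hγ : 0 < γ₁) : ∃ γ L₁ : ℝ, 0 < γ ∧ γ ≤ 1 ∧
    2 ≤ L₁ ∧ ∀ L, L₁ ≤ L → L ^ (-(1 + γ₁)) ≤ 1 / 2 ∧ C₂ * (L ^ 3)⁻¹ * (L / A) ≤ 1 ∧
      L ^ (-(1 + γ₁)) + (L ^ 3)⁻¹ + (C₂ * (L ^ 3)⁻¹ * (L / A) + L ^ (-(1 + γ₁)) * ((A + 2) * L)) +
        1 / L ≤ L ^ (-γ) := by
  obtain ⟨γ, g0, g1, g2⟩ : ∃ γ : ℝ, 0 < γ ∧ 2 * γ ≤ 1 ∧ 2 * γ ≤ γ₁ :=
    ⟨min 1 γ₁ / 2, by positivity, by linarith [min_le_left 1 γ₁], by linarith [min_le_right 1 γ₁]⟩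
  refine ⟨γ, max (max 2 C₂) ((A + 6) ^ γ⁻¹), g0, by linarith,
    (le_max_left _ _).trans (le_max_left _ _), fun L hL => ?_⟩
  have l2 : 2 ≤ L := ((le_max_left _ _).trans (le_max_left _ _)).trans hL
  have lC : C₂ ≤ L := ((le_max_right _ _).trans (le_max_left _ _)).trans hL
  have l1 : 1 ≤ L := by linarith
  have l0 : 0 < L := by linarith
  have a1 : A + 6 ≤ L ^ γ := by
    have := Real.rpow_le_rpow (Real.rpow_nonneg (by linarith) _) ((le_max_right _ _).trans hL) g0.le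
    rwa [Real.rpow_inv_rpow (by linarith) g0.ne'] at this
  have v0 : 0 < L ^ (-γ) := Real.rpow_pos_of_pos l0 _
  have a2 : (A + 6) * L ^ (-γ) ≤ 1 := by
    rw [Real.rpow_neg l0.le, ← div_eq_mul_inv, div_le_one (Real.rpow_pos_of_pos l0 _)]
    exact a1
  have a3 : L ^ (-γ) * L ^ (-γ) = L ^ (-(2 * γ)) := by
    rw [← Real.rpow_add l0]
    congr 1
    ring
  have a4 : 1 / L ≤ L ^ (-(2 * γ)) := by
    rw [one_div, ← Real.rpow_neg_one]
    exact Real.rpow_le_rpow_of_exponent_le l1 (by linarith)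
  have a5 : L ^ (-(1 + γ₁)) ≤ 1 / L := by
    rw [one_div, ← Real.rpow_neg_one]
    exact Real.rpow_le_rpow_of_exponent_le l1 (by linarith)
  have a6 : L ^ (-(1 + γ₁)) * L ≤ L ^ (-(2 * γ)) := by
    rw [← Real.rpow_add_one l0.ne']
    exact Real.rpow_le_rpow_of_exponent_le l1 (by linarith)
  have a7 : (L ^ 3)⁻¹ ≤ 1 / L := by
    rw [one_div]
    exact inv_anti₀ l0 (le_self_pow₀ l1 (by norm_num))
  have a8 : C₂ * (L ^ 3)⁻¹ * (L / A) ≤ 1 / L := by
    have : C₂ * (L ^ 3)⁻¹ * (L / A) = C₂ / (L * A) * (1 / L) := by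
      field_simp
    rw [this]
    refine mul_le_of_le_one_left (by positivity) ((div_le_one (by positivity)).2 ?_)
    exact lC.trans (le_mul_of_one_le_right l0.le hA)
  have a9 : 1 / L ≤ 1 / 2 := one_div_le_one_div_of_le two_pos l2
  have b1 := mul_le_mul_of_nonneg_left a6 (show 0 ≤ A + 2 by linarith)
  have b2 := mul_le_mul_of_nonneg_right a2 v0.le
  rw [mul_assoc, a3] at b2
  refine ⟨a5.trans a9, by linarith only [a8, a9], ?_⟩
  linarith only [a4, a5, a7, a8, b1, b2]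

theorem big_stageA {c L K κ : ℝ} {p n m : ℕ} (hc : 0 ≤ c) (hK : 0 ≤ K) (hKp : K ≤ L ^ p)
    (hL : 0 ≤ L) (h : c * L ^ (p * n + m) * ux L κ ≤ 1) : c * K ^ n * L ^ m * ux L κ ≤ 1 := by
  refine le_trans (mul_le_mul_of_nonneg_right ?_ (ux_pos _ _).le) h
  rw [pow_add, pow_mul, ← mul_assoc]
  exact mul_le_mul_of_nonneg_right (mul_le_mul_of_nonneg_left (pow_le_pow_left₀ hK hKp n) hc)
    (pow_nonneg hL _)

theorem pw_stageA {K r c : ℝ} (k : ℝ) (hk : 0 ≤ k) (hK : 0 < K) (hr : 0 < r) (hc : 0 ≤ c) :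
    Real.exp (k * K * Real.log (r * (1 + c / K) / r)) ≤ Real.exp (k * c) := by
  rw [mul_div_cancel_left₀ _ hr.ne', Real.exp_le_exp]
  have a1 := Real.log_le_sub_one_of_pos (show 0 < 1 + c / K by positivity)
  have a2 := mul_le_mul_of_nonneg_left a1 (show 0 ≤ k * K by positivity)
  have a3 : k * K * (1 + c / K - 1) = k * c := by field_simp; ring
  linarith only [a2, a3]

theorem stage_a (hS : AS.SLemL (E d) (Fin (Module.finrank ℝ H))) (M : ℝ) {CI δg cg : ℝ}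
    (hCI : 0 ≤ CI) (hδg : 0 < δg) (hcg : 0 < cg) (hcg1 : cg ≤ 1 / 2)
    (hG : GlobOK d α H M CI δg cg) (Q : ℕ) : ∃ δ₀ : ℝ, 0 < δ₀ ∧
    ∀ (KN : ℕ) (A b g : ℝ), Par d KN A b g → ∀ p : ℕ, ∃ γ C₁ K₁ εB : ℝ, 0 < γ ∧ γ ≤ 1 ∧
    0 < C₁ ∧ 1 ≤ K₁ ∧ 0 < εB ∧ ∀ Λ : ℝ, 1 ≤ Λ → ∃ L₀ : ℝ,
    ∀ (D : CD d α H) (R δ L r K B : ℝ) (N : E d → ℕ), δ ≤ δ₀ → L₀ ≤ L →
    Stg D R δ M CI Q N A b g L r K B → K₁ ≤ B → K ≤ Λ * B → K ≤ L ^ p →
    B * Real.exp (C₁ * r + L ^ (-γ)) ≤ K →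
    (∀ σ, ux L 2 ≤ σ → σ ≤ r → D.bad Q σ ≤ εB * σ ^ d) →
    ∃ r', Out D A L r K (B * Real.exp (C₁ * (r - r') + L ^ (-γ))) r' := by
  obtain ⟨δ₁, hδ₁, hSL⟩ := sl_u (α := α) hS M hCI hδg hcg hcg1 hG Q
  obtain ⟨δ₂, hδ₂, hD⟩ := dec_u (α := α) (H := H) d M hCI Q
  obtain ⟨Cf, hCf, hF⟩ := freq_u (α := α) (H := H) d M hCI Q
  obtain ⟨Ck, hCk, hk⟩ := hh_K (α := α) (H := H) d
  refine ⟨min (min δ₁ δ₂) (1 / 10), by positivity, fun KN A b g hP p => ?_⟩
  have d0 : (0 : ℝ) ≤ d := Nat.cast_nonneg d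
  have hA : 14 * (d : ℝ) + 40 ≤ A := le_trans (by nlinarith only [sq_nonneg (d : ℝ)]) hP.A_d
  have A4 : 4 ≤ A := by linarith only [hA, d0]
  have A0 : 0 < A := by linarith only [A4]
  have iA : 1 / A ≤ 1 / 4 := one_div_le_one_div_of_le four_pos A4
  obtain ⟨γ₁, Cs, Ls, hγ₁, hCs, hSL⟩ := hSL KN A b g hP p
  obtain ⟨εB, Cd, Ld, hεB, hCd, hD⟩ := hD KN A b g hP (3 * A) (by positivity)
  obtain ⟨Lf, hF⟩ := hF KN A b g hP
  obtain ⟨C, C0, c1, c2⟩ : ∃ C : ℝ, 0 < C ∧ Cf ≤ C ∧ Cs ≤ C :=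
    ⟨max Cf Cs, lt_max_of_lt_left hCf, le_max_left _ _, le_max_right _ _⟩
  obtain ⟨C₂, hC₂, hO⟩ := stage_ode C0.le
  have C20 : 0 < C₂ := by linarith only [hC₂]
  have Ck0 : 0 < Ck := by linarith only [hCk]
  obtain ⟨γ, L₁, hγ, hγ1, hL₁, hsm⟩ := sm_stageA C₂ (show 1 ≤ A by linarith only [A4]) hγ₁
  obtain ⟨K₁, k1, k2, k3, k4⟩ : ∃ K₁ : ℝ, 2 * d ≤ K₁ ∧ C ≤ K₁ ∧ C₂ ≤ K₁ ∧
      4 * C₂ * Real.exp 3 ≤ K₁ :=
    ⟨max (2 * d) (max C (max C₂ (4 * C₂ * Real.exp 3))), by simp, by simp, by simp, by simp⟩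
  refine ⟨γ, C₂ + 3, K₁, εB, hγ, hγ1, by linarith only [hC₂], hC₂.trans k3, hεB, fun Λ hΛ => ?_⟩
  have Λ0 : 0 < Λ := by linarith only [hΛ]
  obtain ⟨N₁, -, n1⟩ := ux_small 2 0 (show 0 < 1 / A by positivity)
  obtain ⟨N₂, -, n2⟩ := ux_small C₂ 0 (show 0 < 1 / (2 * A) by positivity)
  obtain ⟨N₃, -, n3⟩ := ux_small (Ck * C₂ * Real.exp 6 * 2) (p * 4 + 0) one_half_pos
  obtain ⟨N₄, -, n4⟩ := ux_small Ck (p * 4 + 3) one_pos
  obtain ⟨N₅, -, n5⟩ := ux_small (C₂ * Λ * Ck) (p * 4 + 1) (show 0 < 1 / (24 * Λ) by positivity)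
  obtain ⟨N₆, -, n6⟩ := ux_small (C₂ * Ck * (Cd * Real.exp (3 * A) + 1)) (p * 4 + 0) one_pos
  obtain ⟨L₀, l1, l2, l3, l4, l5, l6, l7, l8, l9, l10, l11, l12, l13, l14⟩ : ∃ L₀ : ℝ, Ls ≤ L₀ ∧
      Ld ≤ L₀ ∧ Lf ≤ L₀ ∧ L₁ ≤ L₀ ∧ N₁ ≤ L₀ ∧ N₂ ≤ L₀ ∧ N₃ ≤ L₀ ∧ N₄ ≤ L₀ ∧ N₅ ≤ L₀ ∧ N₆ ≤ L₀ ∧
      24 ≤ L₀ ∧ C₂ * Λ ^ 2 ≤ L₀ ∧ 12 * Λ * C ≤ L₀ ∧ 12 * Λ * C₂ ≤ L₀ :=
    ((eventually_ge_atTop _).and ((eventually_ge_atTop _).and ((eventually_ge_atTop _).and
      ((eventually_ge_atTop _).and ((eventually_ge_atTop _).and ((eventually_ge_atTop _).and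
      ((eventually_ge_atTop _).and ((eventually_ge_atTop _).and ((eventually_ge_atTop _).and
      ((eventually_ge_atTop _).and ((eventually_ge_atTop _).and ((eventually_ge_atTop _).and
      ((eventually_ge_atTop _).and (eventually_ge_atTop _)))))))))))))).exists
  refine ⟨L₀, fun D R δ L r K B N hδ hL S hB hKB hKp hK hbad => ?_⟩
  have d1 : δ ≤ δ₁ := hδ.trans ((min_le_left _ _).trans (min_le_left _ _))
  have d2 : δ ≤ δ₂ := hδ.trans ((min_le_left _ _).trans (min_le_right _ _))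
  have d3 : δ ≤ 1 / 10 := hδ.trans (min_le_right _ _)
  have L24 : 24 ≤ L := l11.trans hL
  have L1 : 1 ≤ L := by linarith only [L24]
  have L0 : 0 < L := by linarith only [L24]
  have cv := S.lev.ms.cv
  have B1 : 1 ≤ B := (hC₂.trans k3).trans hB
  have B0 : 0 < B := by linarith only [B1]
  have r0 : 0 < r := (ux_pos _ _).trans_le S.beg.r_ge
  have r1 := S.beg.r_le
  have v0 : 0 < L ^ (-γ) := Real.rpow_pos_of_pos L0 _
  have BK : B ≤ K := (le_mul_of_one_le_right B0.le (Real.one_le_exp (by positivity))).trans hK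
  have K1 : 1 ≤ K := B1.trans BK
  have K0 : 0 < K := by linarith only [K1]
  have iK : 1 / K ≤ 1 := (div_le_one K0).2 K1
  have iK0 : 0 < 1 / K := by positivity
  have m1 := n1 L (l5.trans hL)
  have m2 := n2 L (l6.trans hL)
  rw [pow_zero, mul_one] at m1 m2
  have m3 := big_stageA (by positivity) K0.le hKp L0.le (n3 L (l7.trans hL))
  have m4 := big_stageA Ck0.le K0.le hKp L0.le (n4 L (l8.trans hL))
  have m5 := big_stageA (by positivity) K0.le hKp L0.le (n5 L (l9.trans hL))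
  have m6 := big_stageA (by positivity) K0.le hKp L0.le (n6 L (l10.trans hL))
  rw [pow_zero, mul_one] at m3 m6
  have m7 : 2 * ux L (1 / 4) ≤ 1 :=
    (mul_le_mul_of_nonneg_left (ux_anti L0.le iA) zero_le_two).trans m1
  obtain ⟨s1, s2, s3⟩ := hsm L (l4.trans hL)
  obtain ⟨a, ha⟩ : ∃ a, a = r * ux L (1 / A) := ⟨_, rfl⟩
  have a0 : 0 < a := ha ▸ mul_pos r0 (ux_pos _ _)
  have a1 : a * (1 + 1 / K) ≤ r := by
    rw [ha, mul_assoc]
    refine mul_le_of_le_one_right r0.le (le_trans ?_ m1)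
    rw [mul_comm]
    exact mul_le_mul_of_nonneg_right (by linarith only [iK]) (ux_pos _ _).le
  have up : ∀ x : ℝ, 0 ≤ x → x ≤ x * (1 + 1 / K) := fun x hx =>
    le_mul_of_one_le_right hx (le_add_of_nonneg_right iK0.le)
  have ar : a ≤ r := (up a a0.le).trans a1
  have a2 : ux L (5 / 4) ≤ a := by
    rw [ha, show (5 / 4 : ℝ) = 1 + 1 / 4 by norm_num, ux_add]
    exact mul_le_mul S.beg.r_ge (ux_anti L0.le iA) (ux_pos _ _).le r0.le
  have a3 : ux L (3 / 2) ≤ a := (ux_anti L0.le (by norm_num)).trans a2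
  have a4 : ux L 2 ≤ a := (ux_anti L0.le (by norm_num)).trans a2
  have a5 : Real.log (r / a) = L / A := by
    rw [ha, div_mul_cancel_left₀ r0.ne', Real.log_inv, ux, Real.log_exp]
    ring
  have a6 : Real.log (ux L (A + 2)) = -((A + 2) * L) := Real.log_exp _
  have hR : ∀ ϱ, ϱ ≤ r → ϱ * (1 + 1 / K) ≤ R := fun ϱ h =>
    (mul_le_mul_of_nonneg_right h (by positivity)).trans
      ((le_add_of_nonneg_right (ux_pos _ _).le).trans S.r_add)
  have hf := fun ϱ (h1 : a ≤ ϱ) (h2 : ϱ ≤ r) => hF D R δ L ϱ N d3 (l3.trans hL) S.lev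
    (a4.trans h1) (h2.trans r1) ((add_le_add (h2.trans (up r r0.le)) le_rfl).trans S.r_add)
  have hs : ∀ ϱ, a ≤ ϱ → ϱ ≤ r → D.hh (ϱ * (1 + 1 / K)) ≤ 81 * K * D.hh ϱ →
      ux L (A + 2) ≤ D.hh ϱ → 2 * D.EE Q ϱ - D.dr ϱ ≤
        L ^ (-(1 + γ₁)) * D.dr ϱ + ((L ^ 3)⁻¹ + C * ϱ) * D.hh ϱ := fun ϱ h1 h2 h3 h4 =>
    (hSL D R δ L K ϱ N d1 (l1.trans hL) S.lev K1 hKp (a3.trans h1) (h2.trans r1) (hR ϱ h2) h3
      h4).trans (add_le_add le_rfl (mul_le_mul_of_nonneg_right (add_le_add le_rfl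
        (mul_le_mul_of_nonneg_right c2 (a0.le.trans h1))) (hf ϱ h1 h2).1.1))
  have hr0 : 0 ≤ D.hh r := (hf r ar le_rfl).1.1
  obtain ⟨dl, hdl⟩ : ∃ dl, dl = L ^ (-(1 + γ₁)) := ⟨_, rfl⟩
  obtain ⟨w, hw⟩ : ∃ w, w = (L ^ 3)⁻¹ := ⟨_, rfl⟩
  have dl0 : 0 ≤ dl := hdl ▸ Real.rpow_nonneg L0.le _
  have w0 : 0 < w := by rw [hw]; positivity
  have wL : w * L ^ 3 = 1 := by rw [hw]; exact inv_mul_cancel₀ (by positivity)
  rw [← hdl] at s1
  rw [← hw] at s2
  rw [← hdl, ← hw] at s3 hs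
  have η0 : 0 < 1 / L := by positivity
  have BB : B ≤ (1 + dl) * B + w + C * r := by
    linarith only [mul_nonneg dl0 B0.le, w0, mul_pos C0 r0]
  obtain ⟨r', q1, q2, q3, q4, q5⟩ := hO D.hh (D.EE Q) D.dr a r (ux L (A + 3)) K
    ((1 + dl) * B + w + C * r) Λ dl w (1 / L) (Ck * K ^ 4) (L / 2) (ux L (A + 2)) a0 ar r1
    (ux_pos _ _) (ux_pos _ _).le (one_le_mul_of_one_le_of_one_le hCk (one_le_pow₀ K1)) hΛ dl0 s1
    w0.le η0 ((div_le_one L0).2 L1) ((k3.trans hB).trans BB)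
    (hKB.trans (mul_le_mul_of_nonneg_left BB Λ0.le))
    (by
      refine (amp_stageA B1 w0.le η0.le
        (mul_le_mul_of_nonneg_right (k2.trans hB) r0.le)).trans (le_trans ?_ hK)
      refine mul_le_mul_of_nonneg_left (Real.exp_le_exp.2 ?_) B0.le
      rw [a5, a6]
      linarith only [s3, r0])
    (by
      rw [show A + 3 = 1 + (A + 2) by ring, ux_add, mul_right_comm]
      refine mul_le_mul_of_nonneg_right ?_ (ux_pos _ _).le
      have := mul_le_mul_of_nonneg_left m4 w0.le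
      calc _ = w * L ^ 3 * (ux L 1 * (Ck * K ^ 4)) := by rw [wL, one_mul]
        _ ≤ _ := by linarith only [this])
    (by
      have h1 : C₂ * Λ ^ 2 ≤ L ^ 2 := (l12.trans hL).trans (le_self_pow₀ L1 two_ne_zero)
      rw [le_div_iff₀ L0]
      have := mul_le_mul_of_nonneg_right h1 (mul_pos w0 L0).le
      linarith only [this, wL])
    (by rw [a5]; exact s2)
    (by
      have h1 : Real.exp (L / 2 / (12 * Λ)) * ux L (1 / (24 * Λ)) = 1 := by
        rw [ux, ← Real.exp_add, Real.exp_eq_one_iff]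
        field_simp
        ring
      rw [div_mul_eq_mul_div, le_div_iff₀ L0]
      have := mul_le_mul_of_nonneg_left m5 (Real.exp_pos (L / 2 / (12 * Λ))).le
      calc _ = Real.exp (L / 2 / (12 * Λ)) * ux L (1 / (24 * Λ)) *
            (C₂ * Λ * (Ck * K ^ 4) * L) := by rw [h1, one_mul]
        _ ≤ _ := by linarith only [this])
    (fun ϱ h1 h2 => ⟨mono_stageA (hf ϱ h1 h2).1 c1 (a0.le.trans h1),
      (hf ϱ h1 h2).2.trans (ux_le_one L0.le (by linarith only [hA, d0])),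
      ((hk D R δ M K ϱ cv d3 K1 (a0.trans_le h1)).1 (hR ϱ h2)).1.trans
        (le_add_of_nonneg_right (ux_pos _ _).le), hs ϱ h1 h2⟩)
    (fun ϱ ϱ' h1 h2 h3 _ => (hk D R δ M K ϱ cv d3 K1 (a0.trans_le h1)).2.2
      ((k1.trans hB).trans BK) ϱ' h2 h3)
    S.beg.dbl
    (by
      have h1 := hs r ar le_rfl (S.beg.dbl.trans (by nlinarith only [mul_nonneg K0.le hr0]))
        ((ux_anti L0.le (by linarith only)).trans S.beg.h_ge)
      have h2 := mul_le_mul_of_nonneg_left S.beg.d_le (show 0 ≤ 1 + dl by linarith only [dl0])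
      linarith only [h1, h2])
    (by
      refine le_trans ?_ S.beg.h_ge
      have h1 : Real.exp (L / 2) * ux L (A + 2) = ux L (1 / 2) * ux L (A + 1) := by
        rw [ux, ux, ux, ← Real.exp_add, ← Real.exp_add]
        congr 1
        ring
      rw [mul_assoc, h1, ← mul_assoc]
      exact mul_le_of_le_one_left (ux_pos _ _).le
        ((mul_le_mul_of_nonneg_left (ux_anti L0.le (by norm_num)) zero_le_two).trans m7))
    (by
      have h1 := hD D R δ L r K B _ N d2 (l2.trans hL) K1 S hbad (a4.trans (up a a0.le)) a1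
      have h2 : Real.exp (-(3 * A * Real.log (r / (a * (1 + 1 / K))))) ≤
          Real.exp (3 * A) * ux L 3 := by
        rw [← div_div, Real.log_div (div_pos r0 a0).ne' (by positivity), a5, ux, ← Real.exp_add,
          Real.exp_le_exp]
        have b1 := Real.log_le_sub_one_of_pos (show 0 < 1 + 1 / K by positivity)
        have b2 := mul_le_mul_of_nonneg_left (b1.trans (show _ ≤ (1 : ℝ) by linarith only [iK]))
          (show 0 ≤ 3 * A by positivity)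
        have b3 : 3 * A * (L / A) = 3 * L := by field_simp
        linarith only [b2, b3]
      have h3 : ux L 3 * ux L A = ux L 1 * ux L (A + 2) := by
        rw [← ux_add, ← ux_add]
        congr 1
        ring
      have h4 : ux L (A + 5) ≤ ux L 1 * ux L (A + 2) := by
        rw [← ux_add]
        exact ux_anti L0.le (by linarith only)
      have h5 := mul_le_mul_of_nonneg_right (mul_le_mul_of_nonneg_left h2 hCd.le) (ux_pos L A).le
      rw [mul_assoc Cd (_ * _), mul_assoc _ (ux L 3), h3] at h5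
      have h6 : D.hh (a * (1 + 1 / K)) ≤ (Cd * Real.exp (3 * A) + 1) * (ux L 1 * ux L (A + 2)) := by
        linarith only [h1, h4, h5]
      have h7 := mul_le_mul_of_nonneg_left h6 (show 0 ≤ C₂ * (Ck * K ^ 4) by positivity)
      have h8 := mul_le_mul_of_nonneg_right m6 (ux_pos L (A + 2)).le
      linarith only [h7, h8])
  have p0 : 0 < r' := a0.trans_le q1
  rw [show L / 2 / (6 * K) = L / (12 * K) by field_simp; norm_num] at q2
  have p1 : r' * (L / (12 * K) + 1) ≤ r :=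
    (mul_le_mul_of_nonneg_left (Real.add_one_le_exp _) p0.le).trans q2
  have p2 : r' * (1 + 2 / K) ≤ r := by
    refine le_trans (mul_le_mul_of_nonneg_left ?_ p0.le) p1
    have : 2 / K ≤ L / (12 * K) := by
      rw [div_le_div_iff₀ K0 (by positivity)]
      linarith only [mul_le_mul_of_nonneg_right L24 K0.le]
    linarith only [this]
  have p3 : r' * (1 + 1 / K) ≤ r' * (1 + 2 / K) :=
    mul_le_mul_of_nonneg_left (add_le_add le_rfl (div_le_div_of_nonneg_right one_le_two K0.le))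
      p0.le
  have p4 : r' ≤ r := (up r' p0.le).trans (p3.trans p2)
  have p5 : ∀ c, 0 ≤ c → 12 * Λ * c ≤ L → c * r' ≤ B * (r - r') := fun c hc h => by
    have b1 : r' * L ≤ (r - r') * (12 * K) := by
      rw [← div_le_iff₀ (by positivity), mul_div_assoc]
      linarith only [p1]
    have b2 := mul_le_mul_of_nonneg_left h p0.le
    have b3 := mul_le_mul_of_nonneg_left hKB (show 0 ≤ (r - r') * 12 by linarith only [p4])
    refine le_of_mul_le_mul_left ?_ (show 0 < 12 * Λ by positivity)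
    linarith only [b1, b2, b3]
  have h0 : 0 ≤ D.hh r' := (hf r' q1 p4).1.1
  have p6 : D.hh r' ≤ 2 * ux L (A + 7 / 4) := by
    refine q3.trans_eq ?_
    rw [mul_assoc, ux, ux, ← Real.exp_add]
    congr 2
    ring
  refine ⟨r', ha ▸ q1, q2, p2, ?_, fun ϱ h1 h2 => ?_, ?_, ?_, ?_⟩
  · refine p6.trans ?_
    rw [show A + 7 / 4 = 1 / 4 + (A + 3 / 2) by ring, ux_add, ← mul_assoc]
    exact mul_le_of_le_one_left (ux_pos _ _).le m7
  · rw [ux_add]
    have b1 := mul_le_mul_of_nonneg_right (q5 ϱ h1 h2).1 (ux_pos L (1 / (2 * A))).le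
    have b2 := mul_le_mul_of_nonneg_right m2 (hf ϱ (q1.trans h1) h2).1.1
    linarith only [b1, b2]
  · refine q4.trans (mul_le_mul_of_nonneg_right ?_ h0)
    have b1 : C * r ≤ B * (2 * (r - r')) := by
      have e1 := p5 C C0.le (l13.trans hL)
      have e2 := mul_le_mul_of_nonneg_right (k2.trans hB) (sub_nonneg.2 p4)
      linarith only [e1, e2]
    have b2 := mul_nonneg C20.le (sub_nonneg.2 p4)
    refine (add_le_add ((amp_stageA B1 w0.le η0.le b1).trans (mul_le_mul_of_nonneg_left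
      (Real.exp_le_exp.2 (?_ : _ ≤ (C₂ + 2) * (r - r') + L ^ (-γ))) B0.le)) le_rfl).trans
      ((add_stageA B0.le (by linarith only [b2, p4, v0]) (sub_nonneg.2 p4)
        (p5 C₂ C20.le (l14.trans hL))).trans_eq (by congr 2; ring))
    rw [a5, a6]
    linarith only [s3]
  · have b1 := (q5 _ (up r' p0.le) (p3.trans p2)).2.trans (mul_le_mul_of_nonneg_right
      (mul_le_mul_of_nonneg_left (pw_stageA 3 zero_le_three K0 p0 zero_le_one) C20.le) h0)
    have b2 := mul_le_mul_of_nonneg_right ((k4.trans hB).trans BK) h0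
    rw [mul_one] at b1
    linarith only [b1, b2]
  · have b1 := (q5 _ ((up r' p0.le).trans p3) p2).2.trans (mul_le_mul_of_nonneg_right
      (mul_le_mul_of_nonneg_left (pw_stageA 3 zero_le_three K0 p0 zero_le_two) C20.le) h0)
    rw [show (3 * 2 : ℝ) = 6 by norm_num] at b1
    refine ((hk D R δ M K r' cv d3 K1 p0).2.1 ((p2.trans (up r r0.le)).trans (hR r le_rfl))
      (p4.trans r1)).trans ?_
    rw [div_le_iff₀ p0]
    have b2 := b1.trans (mul_le_mul_of_nonneg_left p6 (by positivity))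
    have b3 := mul_le_mul_of_nonneg_left b2 (show 0 ≤ Ck * K ^ 4 by positivity)
    have b4 : ux L (A + 7 / 4) = ux L (1 / 2) * (ux L A * ux L (5 / 4)) := by
      rw [← ux_add, ← ux_add]
      congr 1
      ring
    have b5 := mul_le_mul_of_nonneg_right m3 (mul_pos (ux_pos L A) (ux_pos L (5 / 4))).le
    have b6 := mul_le_mul_of_nonneg_left (a2.trans q1) (ux_pos L A).le
    rw [b4] at b3
    linarith only [b3, b5, b6]

end Pool.Agent.Lib.MP_8daebb_an.GM
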