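import Pool.Agent.Lib.MP_8daebb_an.GM.SupX
import Pool.Agent.Lib.MP_8daebb_an.GM.Cacc
import Pool.Agent.Lib.MP_8daebb_an.GM.MetF
import Pool.Agent.Lib.MP_8daebb_an.GM.Ker2

/-! The mean value inequality for the squared height between two radii. -/

set_option linter.unusedSectionVars false
set_option linter.unusedVariables false

open MeasureTheory Metric Filter Topology Set
open scoped RealInnerProductSpace ENNReal ContDiff

namespace Pool.Agent.Lib.MP_8daebb_an.GM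

open LG (vb chi om trS)

variable {d : ℕ} {α : Type*} [MeasurableSpace α] {H : Type*} [NormedAddCommGroup H]
  [InnerProductSpace ℝ H] [FiniteDimensional ℝ H] [MeasurableSpace H] [BorelSpace H]

theorem Met.inv_supa {D : CD d α H} {c : E d} {R δ : ℝ} (h : Met D c R δ) (hδ : δ ≤ 1 / 10)
    {u : E d} (hu : u ∈ ball c R) : ∃ B : E d →L[ℝ] E d, Psd B ∧ (∀ v, D.am u (B v) = v) ∧
      (∀ v, ‖B v‖ ≤ 2 * ‖v‖) ∧ ∀ v, ‖v‖ ^ 2 ≤ 2 * ⟪B v, v⟫ := by
  obtain ⟨h1, h2, -⟩ := h.one u hu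
  have w1 := (abs_le.1 h1).1
  have w2 := (abs_le.1 h1).2
  have w0 : 0 < D.w u := by linarith
  have hl : ∀ v, ‖v‖ ^ 2 ≤ 2 * ⟪((D.w u)⁻¹ • D.gm u) v, v⟫ := fun v => by
    have e := (norm_am_id2 h2 v).2
    rw [smul_apply, real_inner_smul_left, ← mul_assoc, ← div_eq_mul_inv, div_mul_eq_mul_div,
      le_div_iff₀ w0]
    nlinarith [sq_nonneg ‖v‖]
  refine ⟨(D.w u)⁻¹ • D.gm u, ⟨fun v z => ?_, fun v => ?_⟩, fun v => ?_, fun v => ?_, hl⟩
  · rw [smul_apply, smul_apply, real_inner_smul_left, real_inner_smul_right, h.gm_symm u hu]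
  · nlinarith [hl v, sq_nonneg ‖v‖]
  · rw [smul_apply, map_smul, (h.am_gm u hu v).1, smul_smul, inv_mul_cancel₀ w0.ne', one_smul]
  · have e := (norm_am_id2 h2 v).1
    rw [smul_apply, norm_smul, Real.norm_of_nonneg (inv_pos.2 w0).le, inv_mul_le_iff₀ w0]
    nlinarith [norm_nonneg v]

theorem three_supa {D : CD d α H} {c : E d} {R δ : ℝ} (h : Met D c R δ) (h0 : 0 ≤ δ)
    (hδ : δ ≤ 1 / 10) {a : α} (hp : PW D δ a) (hx : D.x a ∈ ball c R) {u : E d}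
    (hu : u ∈ ball c R) {B : E d →L[ℝ] E d} (hB : ∀ v, D.am u (B v) = v)
    (hB2 : ∀ v, ‖B v‖ ≤ 2 * ‖v‖) {n : ℝ} (hn : 0 ≤ n) (hX : ‖D.x a - u‖ ^ 2 ≤ 2 * n ^ 2)
    (hY : ‖D.y a‖ ≤ n) :
    |⟪D.y a, D.b a (D.x a - u)⟫ - ⟪B (D.x a - u), D.q a (D.y a)⟫| ≤
      δ * n ^ 2 * (6 * D.t a + 14 * ‖D.y a‖ ^ 2) := by
  obtain ⟨X, hXe⟩ : ∃ X, X = D.x a - u := ⟨_, rfl⟩
  have hl := (h.lip h0 (by linarith) hu hx).2.1
  rw [norm_sub_rev u, ← hXe] at hl
  rw [← hXe] at hX ⊢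
  have X0 := norm_nonneg X
  have Y0 := norm_nonneg (D.y a)
  have s0 := Real.sqrt_nonneg (D.t a)
  have ss : √(D.t a) ^ 2 = D.t a := Real.sq_sqrt hp.t_nonneg
  have X2 : ‖X‖ ≤ 2 * n := by nlinarith
  have e1 : ⟪B X, D.am (D.x a) (D.p (D.y a) a)⟫ = ⟪D.y a, D.b a (D.am (D.x a) (B X))⟫ := by
    rw [← h.am_symm _ hx, real_inner_comm, inner_p, real_inner_comm]
  have e2 : ⟪D.y a, D.b a X⟫ - ⟪B X, D.q a (D.y a)⟫ =
      ⟪D.y a, D.b a ((D.am u - D.am (D.x a)) (B X))⟫ -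
        ⟪B X, D.q a (D.y a) - D.am (D.x a) (D.p (D.y a) a)⟫ := by
    rw [inner_sub_right, e1, sub_apply, map_sub, inner_sub_right, hB]
    ring
  have b1 : ‖D.b a‖ ≤ 2 * √(D.t a) + ‖D.y a‖ := by nlinarith [hp.b_le]
  have b2 : ‖(D.am u - D.am (D.x a)) (B X)‖ ≤ δ * ‖X‖ * (2 * ‖X‖) :=
    (ContinuousLinearMap.le_opNorm _ _).trans (mul_le_mul hl (hB2 X) (norm_nonneg _) (by positivity))
  have b3 : |⟪D.y a, D.b a ((D.am u - D.am (D.x a)) (B X))⟫| ≤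
      ‖D.y a‖ * ((2 * √(D.t a) + ‖D.y a‖) * (δ * (4 * n ^ 2))) := by
    refine (abs_real_inner_le_norm _ _).trans (mul_le_mul_of_nonneg_left ?_ Y0)
    refine (ContinuousLinearMap.le_opNorm _ _).trans
      (mul_le_mul b1 (b2.trans ?_) (norm_nonneg _) (by positivity))
    nlinarith [mul_le_mul_of_nonneg_left hX h0]
  have b4 : |⟪B X, D.q a (D.y a) - D.am (D.x a) (D.p (D.y a) a)⟫| ≤
      4 * n * (δ * ‖D.y a‖ * (√(D.t a) + ‖D.y a‖) * n) := by
    refine (abs_real_inner_le_norm _ _).trans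
      (mul_le_mul (by linarith [hB2 X]) ((hp.qb _).trans ?_) (norm_nonneg _) (by positivity))
    exact mul_le_mul_of_nonneg_left hY (by positivity)
  rw [e2]
  refine (abs_sub _ _).trans ((add_le_add b3 b4).trans ?_)
  have b5 : 0 ≤ δ * n ^ 2 * (√(D.t a) - ‖D.y a‖) ^ 2 := by positivity
  rw [← ss, Real.sqrt_sq s0]
  nlinarith

theorem out_supa {k r s t Y m f G P u₁ u₂ X : ℝ} (hk : 0 ≤ k) (hr : 0 < r) (hs : 0 ≤ s)
    (hst : s ^ 2 = t) (hY : 0 ≤ Y) (ht : t ≤ m) (hf0 : 0 ≤ f) (hf : f ≤ 2 * P) (hG0 : 0 ≤ G)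
    (hG : G ≤ 72 * r ^ 2 * P) (hX : X ≤ 2 * r) (hX0 : 0 ≤ X)
    (h1 : |u₁| ≤ k / r * (X + 2 * t * X)) (h2 : |u₂| ≤ k / r * (Y * (3 * s + Y))) :
    -((4 * k * (1 + 2 * m) + 216 * k) * P * (Y ^ 2 + r ^ 2 * (t + Y ^ 2))) ≤
      u₁ * f * Y ^ 2 + u₂ * G := by
  have t0 : 0 ≤ t := hst ▸ sq_nonneg s
  have P0 : 0 ≤ P := by linarith
  have a1 : |u₁| ≤ 2 * k * (1 + 2 * m) := by
    refine h1.trans ?_
    rw [div_mul_eq_mul_div, div_le_iff₀ hr]
    have e1 : X * (1 + 2 * t) ≤ 2 * r * (1 + 2 * m) :=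
      mul_le_mul hX (by linarith) (by linarith) (by linarith)
    nlinarith [mul_le_mul_of_nonneg_left e1 hk]
  have a2 : |u₁ * f * Y ^ 2| ≤ 2 * k * (1 + 2 * m) * (2 * P) * Y ^ 2 := by
    rw [abs_mul, abs_mul, abs_of_nonneg hf0, abs_of_nonneg (sq_nonneg Y)]
    exact mul_le_mul_of_nonneg_right (mul_le_mul a1 hf hf0 ((abs_nonneg _).trans a1)) (sq_nonneg Y)
  have a3 : |u₂ * G| ≤ k / r * (Y * (3 * s + Y)) * (72 * r ^ 2 * P) := by
    rw [abs_mul, abs_of_nonneg hG0]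
    exact mul_le_mul h2 hG hG0 ((abs_nonneg _).trans h2)
  have a4 : k / r * (Y * (3 * s + Y)) * (72 * r ^ 2 * P) =
      72 * (k * P) * (r * (Y * (3 * s + Y))) := by field_simp
  have a5 : r * (Y * (3 * s + Y)) ≤ 3 * (Y ^ 2 + r ^ 2 * (t + Y ^ 2)) := by
    rw [← hst]
    nlinarith [sq_nonneg (Y - r * s), sq_nonneg (Y - r * Y), sq_nonneg (r * s), sq_nonneg (r * Y)]
  have a6 := mul_le_mul_of_nonneg_left a5 (show 0 ≤ 72 * (k * P) by positivity)
  have m0 : 0 ≤ m := t0.trans ht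
  have a7 : 0 ≤ k * (1 + 2 * m) * P * (r ^ 2 * (t + Y ^ 2)) := by positivity
  linarith [(abs_le.1 a2).1, (abs_le.1 a3).1]

theorem sup_core (d : ℕ) : ∃ C ε δ₀ : ℝ, 0 < C ∧ 0 < ε ∧ ε ≤ 1 ∧ 0 < δ₀ ∧ δ₀ ≤ 1 / 10 ∧
    ∀ (D : CD d α H) (c : E d) (R δ M : ℝ), CV D c R δ M → δ ≤ δ₀ → ∀ (u : E d) (r₁ r₂ : ℝ),
    0 < r₁ → r₁ ≤ r₂ → r₂ ≤ 1 / 6 → ‖u - c‖ + 3 * r₂ ≤ R →
    (∀ᵐ a ∂D.m, a ∈ D.cyl u (2 * r₂) → ‖D.y a‖ ^ 2 ≤ ε * r₁ ^ 2) →
    D.J u r₁ / r₁ ^ d ≤ C * (D.J u (3 * r₂) / r₂ ^ d) := by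
  obtain ⟨C0, hC0, hcut⟩ := exists_cut
  obtain ⟨Cc, hCc, hcacc⟩ := cacc (α := α) (H := H) d
  obtain ⟨η, hη⟩ : ∃ η : ℝ, η = 1 / 2 ^ d := ⟨_, rfl⟩
  have η0 : 0 < η := by rw [hη]; positivity
  have η1 : η ≤ 1 := by
    rw [hη, div_le_one (by positivity)]
    exact one_le_pow₀ (by norm_num)
  obtain ⟨K, hK⟩ : ∃ K : ℝ, K = (4 * C0 * (1 + 2 * d) + 216 * C0) * 2 ^ d := ⟨_, rfl⟩
  have K0 : 0 < K := by rw [hK]; positivity
  refine ⟨2 ^ (d + 2) * (K * (1 + Cc)), η / (2 * (16 * d + 3)), η / 64, by positivity,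
    by positivity, ?_, by positivity, by linarith, fun D c R δ M h hδ u r₁ r₂ r0 r12 r6 hR hS => ?_⟩
  · rw [div_le_one (by positivity)]
    have : (0 : ℝ) ≤ d := Nat.cast_nonneg d
    linarith
  have h0 := h.δ_nonneg
  have hδ1 : δ ≤ 1 / 10 := by linarith
  have r2 : 0 < r₂ := r0.trans_le r12
  have d1 : (1 : ℝ) ≤ d := by exact_mod_cast h.d_pos
  have hu : u ∈ ball c R := by
    rw [mem_ball, dist_eq_norm]
    linarith
  obtain ⟨B, hB, hBi, hB2, hBl⟩ := h.met.inv_supa hδ1 hu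
  obtain ⟨κ, hκ⟩ := hcut d u r₂ r₂ r2.le r2
  have hκ1 : ContDiff ℝ 1 κ := hκ.smooth.of_le (by norm_num)
  obtain ⟨-, hn⟩ := nS_props hB u r0
  obtain ⟨f1, f2⟩ := comp_nS hB u r0 (fun s hs => fS_deriv d hs) (fS_cont d).1
  obtain ⟨g1, g2⟩ := comp_nS hB u r0 (φ := gS d (6 * r₂))
    (fun s hs => gS_deriv d (by linarith) hs) (fS_cont d).2.neg
  set n := nS B u r₁ with hne
  set ψ : E d × H → ℝ := fun v => κ v.1 * fS d (n v.1) * ‖v.2‖ ^ 2 with hψ
  set φ : E d × H → ℝ := fun v => κ v.1 * gS d (6 * r₂) (n v.1) with hφ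
  have hψc : ContDiff ℝ 1 ψ := ((hκ1.comp contDiff_fst).mul (f1.comp contDiff_fst)).mul
    ((contDiff_norm_sq ℝ).comp contDiff_snd)
  have hφc : ContDiff ℝ 1 φ := (hκ1.comp contDiff_fst).mul (g1.comp contDiff_fst)
  have hz : ∀ v : E d × H, ‖u - c‖ + r₂ + 3 * r₂ / 4 ≤ ‖v.1 - c‖ → κ v.1 = 0 := fun v hv => by
    have h1 : ‖v.1 - c‖ ≤ ‖v.1 - u‖ + ‖u - c‖ := norm_sub_le_norm_sub_add_norm_sub _ _ _
    exact hκ.zero _ (by linarith)
  have hR' : ‖u - c‖ + r₂ + 3 * r₂ / 4 < R := by linarith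
  have T1 : Test c R ψ := ⟨hψc.contDiffOn, _, hR', fun v hv => by simp [hψ, hz v hv]⟩
  have T2 : Test c R φ := ⟨hφc.contDiffOn, _, hR', fun v hv => by simp [hφ, hz v hv]⟩
  have hk : ∀ v : E d × H, HasFDerivAt (fun v : E d × H => κ v.1)
      ((fderiv ℝ κ v.1).comp (ContinuousLinearMap.fst ℝ (E d) H)) v := fun v =>
    HasFDerivAt.comp v (hκ1.differentiable one_ne_zero _).hasFDerivAt hasFDerivAt_fst
  have D1 : ∀ v p : E d × H, fderiv ℝ ψ v p =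
      κ v.1 * (fS' d (n v.1) / n v.1 * ⟪B (v.1 - u), p.1⟫ * ‖v.2‖ ^ 2 +
        fS d (n v.1) * (2 * ⟪v.2, p.2⟫)) + fderiv ℝ κ v.1 p.1 * fS d (n v.1) * ‖v.2‖ ^ 2 := by
    intro v p
    have a1 := HasFDerivAt.comp v (f2 v.1) (hasFDerivAt_fst (𝕜 := ℝ) (F := H))
    have a2 := (hasFDerivAt_snd (𝕜 := ℝ) (p := v)).norm_sq
    have a3 : HasFDerivAt ψ _ v := ((hk v).fun_mul a1).fun_mul a2
    rw [a3.fderiv]
    simp [inner_sub_left]
    ring
  have D2 : ∀ v p : E d × H, fderiv ℝ φ v p =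
      κ v.1 * (-(2 * n v.1 * fS d (n v.1)) / n v.1 * ⟪B (v.1 - u), p.1⟫) +
        fderiv ℝ κ v.1 p.1 * gS d (6 * r₂) (n v.1) := by
    intro v p
    have a1 := HasFDerivAt.comp v (g2 v.1) (hasFDerivAt_fst (𝕜 := ℝ) (F := H))
    have a3 : HasFDerivAt φ _ v := (hk v).fun_mul a1
    rw [a3.fderiv]
    simp [inner_sub_left]
    ring
  have e1 := h.hor_pos T1 u
  have e2 := h.ver_rad T2
  have i1 : Integrable (fun a => fderiv ℝ ψ (D.x a, D.y a)
      ((D.x a - u) - D.τ a (D.x a - u), D.b a (D.x a - u)) + ψ (D.x a, D.y a) * (d - D.t a) +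
      ψ (D.x a, D.y a) * ⟪D.eh a, D.x a - u⟫) D.m := by
    have h1 : Continuous ψ := hψc.continuous
    have h2 : Continuous (fderiv ℝ ψ) := hψc.continuous_fderiv one_ne_zero
    exact h.integrable_cont (fun p => fderiv ℝ ψ p.1
      ((p.1.1 - u) - p.2.1 (p.1.1 - u), p.2.2.1 (p.1.1 - u)) + ψ p.1 * (d - p.2.2.2.2) +
      ψ p.1 * ⟪p.2.2.2.1, p.1.1 - u⟫) (by fun_prop)
  have i2 : Integrable (fun a => fderiv ℝ φ (D.x a, D.y a) (D.q a (D.y a), D.g a (D.y a)) +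
      φ (D.x a, D.y a) * (trH (D.g a) + ⟪D.L a, D.y a⟫)) D.m := by
    have h1 : Continuous φ := hφc.continuous
    have h2 : Continuous (fderiv ℝ φ) := hφc.continuous_fderiv one_ne_zero
    have h3 := continuous_trH_cacc (H := H)
    exact h.integrable_cacc hδ1
      (fun p => fderiv ℝ φ p.1 (p.2.1 p.1.2, p.2.2.1 p.1.2) +
        φ p.1 * (trH p.2.2.1 + ⟪p.2.2.2, p.1.2⟫)) (by fun_prop)
  have e3 := integral_add i1 i2
  rw [e1, e2, add_zero] at e3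
  obtain ⟨-, -, j2, j3, -⟩ := h.integrable_t
  have j4 : Integrable (fun a => ‖D.y a‖ ^ 2 + r₂ ^ 2 * D.en a) D.m := j2.add (j3.const_mul _)
  have m1 := h.meas_cyl u r₁
  have m2 := h.meas_cyl u (2 * r₂)
  have hle : ∫ a, (1 / (2 ^ (d + 2) * r₁ ^ d) * (D.cyl u r₁).indicator (fun a => ‖D.y a‖ ^ 2) a -
      K / r₂ ^ d * (D.cyl u (2 * r₂)).indicator (fun a => ‖D.y a‖ ^ 2 + r₂ ^ 2 * D.en a) a)
      ∂D.m ≤ 0 := by
    rw [← e3]
    refine integral_mono_ae (((j2.indicator m1).const_mul _).sub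
      ((j4.indicator m2).const_mul _)) (i1.add i2) ?_
    filter_upwards [h.ae_G, h.car, hS] with a ha hx hy
    have hp := h.pw a ha
    have t0 := hp.t_nonneg
    have Y0 := norm_nonneg (D.y a)
    rw [D1, D2]
    simp only [hψ, hφ]
    by_cases h2 : a ∈ D.cyl u (2 * r₂)
    swap
    · have h3 : 2 * r₂ ≤ ‖D.x a - u‖ := not_lt.1 h2
      have h1 : a ∉ D.cyl u r₁ := fun h1 => by
        have h4 : ‖D.x a - u‖ < r₁ := h1
        linarith
      have h5 : fderiv ℝ κ (D.x a) = 0 := by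
        have h6 : κ =ᶠ[𝓝 (D.x a)] fun _ => 0 := by
          have h7 : IsOpen {x : E d | r₂ + 3 * r₂ / 4 < ‖x - u‖} :=
            isOpen_lt continuous_const (by fun_prop)
          filter_upwards [h7.mem_nhds (show r₂ + 3 * r₂ / 4 < ‖D.x a - u‖ by linarith)] with x hx
          exact hκ.zero _ (le_of_lt hx)
        rw [h6.fderiv_eq, fderiv_fun_const]
        rfl
      rw [indicator_of_notMem h1, indicator_of_notMem h2, hκ.zero _ (by linarith), h5]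
      simp
    rw [indicator_of_mem h2]
    have hy := hy h2
    have X2 : ‖D.x a - u‖ < 2 * r₂ := h2
    obtain ⟨n0, nn, -⟩ := hn (D.x a)
    obtain ⟨X, hX⟩ : ∃ X, X = D.x a - u := ⟨_, rfl⟩
    have h3 := three_supa h.met h0 hδ1 hp hx hu hBi hB2 n0.le
    rw [← hX] at X2 nn h3 ⊢
    obtain ⟨s, hs⟩ : ∃ s, s = n (D.x a) := ⟨_, rfl⟩
    rw [← hs] at n0 nn h3 ⊢
    have X0 := norm_nonneg X
    have q1 : ⟪B X, X⟫ ≤ 2 * ‖X‖ ^ 2 := by
      nlinarith only [real_inner_le_norm (B X) X, mul_le_mul_of_nonneg_right (hB2 X) X0]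
    have q2 := hBl X
    have q3 := hB.2 X
    have X3 : ‖X‖ ^ 2 ≤ 2 * s ^ 2 := by linarith only [sq_nonneg r₁, q2, nn]
    have X4 : ‖X‖ ≤ 2 * s := by nlinarith only [X3, X0, n0]
    have s3 : s ≤ 3 * r₂ := by
      refine abs_le_of_sq_le_sq' ?_ (by linarith) |>.2
      nlinarith only [nn, q1, X2, X0, r0, r12]
    have ε1 : η / (2 * (16 * d + 3)) ≤ 1 := by
      rw [div_le_one (by positivity)]
      linarith
    have Yn : ‖D.y a‖ ^ 2 ≤ η / (2 * (16 * d + 3)) * s ^ 2 :=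
      hy.trans (mul_le_mul_of_nonneg_left (by linarith) (by positivity))
    have Ys : ‖D.y a‖ ≤ s := by
      refine abs_le_of_sq_le_sq' ?_ n0.le |>.2
      exact Yn.trans (mul_le_of_le_one_left (sq_nonneg s) ε1)
    obtain ⟨G1, G2⟩ := gS_bounds h.d_pos n0 (b := 6 * r₂) (by linarith) (by linarith)
    have p0 : 0 < s ^ d := pow_pos n0 d
    have G0 : 0 ≤ gS d (6 * r₂) s :=
      (mul_nonneg_iff_of_pos_left p0).1 (le_trans (by positivity) G1)
    have A := alg_supx (m := d) (r := r₁) (G := gS d (6 * r₂) s) (a₁ := ⟪B X, D.τ a X⟫)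
      (a₂ := ⟪D.eh a, X⟫) (a₄ := trH (D.g a) + ⟪D.L a, D.y a⟫) (η := η) d1 n0 (by linarith) p0 Y0
      t0 h0 (by linarith) η1 (le_of_eq (by field_simp)) Yn
      (by rw [hη, mul_one_div]; exact G1) (by nlinarith only [G2, n0, r6])
      (by
        refine (abs_real_inner_le_norm _ _).trans ?_
        have b1 : ‖D.τ a X‖ ≤ 2 * D.t a * ‖X‖ :=
          ((D.τ a).le_opNorm X).trans (mul_le_mul_of_nonneg_right hp.τ_le X0)
        have b2 := mul_le_mul (hB2 X) b1 (norm_nonneg _) (by positivity)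
        linarith only [mul_le_mul_of_nonneg_left X3 t0, b2])
      ((abs_real_inner_le_norm _ _).trans (mul_le_mul hp.eh_le X4 X0 (by positivity)))
      (h3 X3 Ys)
      (by
        have b1 := (abs_le.1 hp.trg).1
        have b2 := (abs_le.1 (h.met.one _ hx).1).1
        have b3 : 9 / 10 * D.t a ≤ D.w (D.x a) * D.t a :=
          mul_le_mul_of_nonneg_right (by linarith) t0
        have b4 : δ * ‖D.y a‖ ≤ 1 / 10 * (1 / 10) :=
          mul_le_mul hδ1 (hp.y_le.trans hδ1) Y0 (by norm_num)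
        linarith only [mul_le_mul_of_nonneg_right b4 t0, b1, b3, t0])
    have k0 := (hκ.mem (D.x a)).1
    have A2 := mul_le_mul_of_nonneg_left A k0
    have I1 : 1 / (2 ^ (d + 2) * r₁ ^ d) * (D.cyl u r₁).indicator (fun a => ‖D.y a‖ ^ 2) a ≤
        κ (D.x a) * (r₁ ^ 2 / (s ^ d * s ^ 2) * ‖D.y a‖ ^ 2) := by
      by_cases h1 : a ∈ D.cyl u r₁
      · have h4 : ‖D.x a - u‖ < r₁ := h1
        rw [indicator_of_mem h1, hκ.one _ (by linarith), one_mul]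
        refine mul_le_mul_of_nonneg_right ?_ (sq_nonneg _)
        rw [← hX] at h4
        have s2 : s ≤ 2 * r₁ := by
          refine abs_le_of_sq_le_sq' ?_ (by linarith) |>.2
          nlinarith only [nn, q1, h4, X0, r0]
        rw [div_le_div_iff₀ (by positivity) (by positivity), one_mul, ← pow_add]
        refine (pow_le_pow_left₀ n0.le s2 _).trans (le_of_eq ?_)
        ring
      · rw [indicator_of_notMem h1, mul_zero]
        positivity
    have I2 : -(K / r₂ ^ d * (‖D.y a‖ ^ 2 + r₂ ^ 2 * D.en a)) ≤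
        fderiv ℝ κ (D.x a) (X - D.τ a X) * fS d s * ‖D.y a‖ ^ 2 +
          fderiv ℝ κ (D.x a) (D.q a (D.y a)) * gS d (6 * r₂) s := by
      by_cases h1 : ‖X‖ < r₂
      · have h6 : κ =ᶠ[𝓝 (D.x a)] fun _ => 1 := by
          have h7 : IsOpen {x : E d | ‖x - u‖ < r₂} := isOpen_lt (by fun_prop) continuous_const
          filter_upwards [h7.mem_nhds (show ‖D.x a - u‖ < r₂ by rwa [← hX])] with x hx
          exact hκ.one _ (by linarith [show ‖x - u‖ < r₂ from hx])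
        have h5 : fderiv ℝ κ (D.x a) = 0 := by
          rw [h6.fderiv_eq, fderiv_fun_const]
          rfl
        have h8 : 0 ≤ D.en a := add_nonneg t0 (sq_nonneg _)
        rw [h5]
        simp only [zero_apply, zero_mul, add_zero, Left.neg_nonpos_iff]
        positivity
      · have h4 : r₂ ≤ 2 * s := (not_lt.1 h1).trans X4
        have h5 : 1 / s ^ d ≤ 2 ^ d / r₂ ^ d := by
          rw [div_le_div_iff₀ p0 (by positivity), one_mul, ← mul_pow]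
          exact pow_le_pow_left₀ r2.le h4 d
        have := out_supa (k := C0) (m := d) (P := 2 ^ d / r₂ ^ d) (f := fS d s)
          (G := gS d (6 * r₂) s) (u₁ := fderiv ℝ κ (D.x a) (X - D.τ a X))
          (u₂ := fderiv ℝ κ (D.x a) (D.q a (D.y a))) (by linarith) r2 (Real.sqrt_nonneg _)
          (Real.sq_sqrt t0) Y0 hp.t_le (by rw [fS]; positivity)
          (by
            rw [fS, div_eq_mul_one_div]
            exact mul_le_mul (by linarith) h5 (by positivity) (by norm_num))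
          G0
          (by
            have b1 : gS d (6 * r₂) s ≤ 72 * r₂ ^ 2 * (1 / s ^ d) := by
              rw [mul_one_div, le_div_iff₀ p0]
              nlinarith only [G2, s3, r2]
            exact b1.trans (mul_le_mul_of_nonneg_left h5 (by positivity)))
          X2.le X0
          (((fderiv ℝ κ (D.x a)).le_opNorm _).trans (mul_le_mul (hκ.d1 _)
            ((norm_sub_le _ _).trans (add_le_add le_rfl (((D.τ a).le_opNorm X).trans
              (mul_le_mul_of_nonneg_right hp.τ_le X0)))) (norm_nonneg _) (by positivity)))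
          (((fderiv ℝ κ (D.x a)).le_opNorm _).trans (mul_le_mul (hκ.d1 _)
            (hp.q_cacc h0 hδ1 (h.met.one _ hx).2.2 _) (norm_nonneg _) (by positivity)))
        rw [hK, mul_div_assoc]
        exact this
    have e4 : ⟪B X, X - D.τ a X⟫ = s ^ 2 - r₁ ^ 2 - ⟪B X, D.τ a X⟫ := by
      rw [inner_sub_right, nn]
      ring
    have e5 : -(2 * s * fS d s) / s = -(2 * fS d s) := by field_simp
    rw [e4, e5]
    rw [fS'] at *
    rw [fS] at *
    linarith only [A2, I1, I2]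
  rw [integral_sub ((j2.indicator m1).const_mul _)
    ((j4.indicator m2).const_mul _), integral_const_mul, integral_const_mul,
    integral_indicator m1, integral_indicator m2,
    integral_add j2.integrableOn (j3.const_mul _).integrableOn, integral_const_mul] at hle
  have c1 := hcacc D c R δ M h hδ1 u (2 * r₂) r₂ (by linarith) r2 (by linarith)
  rw [show 2 * r₂ + r₂ = 3 * r₂ by ring] at c1
  have c2 : D.J u (2 * r₂) ≤ D.J u (3 * r₂) := (h.cyl_mono (by simp; linarith)).2.2.1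
  have c3 : r₂ ^ 2 * D.En u (2 * r₂) ≤ Cc * D.J u (3 * r₂) := by
    refine (mul_le_mul_of_nonneg_left c1 (sq_nonneg r₂)).trans (le_of_eq ?_)
    field_simp
  have c4 : K / r₂ ^ d * (D.J u (2 * r₂) + r₂ ^ 2 * D.En u (2 * r₂)) ≤
      K / r₂ ^ d * ((1 + Cc) * D.J u (3 * r₂)) :=
    mul_le_mul_of_nonneg_left (by linarith) (by positivity)
  have c5 : 1 / (2 ^ (d + 2) * r₁ ^ d) * D.J u r₁ ≤ K / r₂ ^ d * ((1 + Cc) * D.J u (3 * r₂)) := by
    rw [CD.J, CD.En] at c4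
    rw [CD.J]
    linarith
  have c6 := mul_le_mul_of_nonneg_left c5 (show (0 : ℝ) ≤ 2 ^ (d + 2) by positivity)
  calc _ = 2 ^ (d + 2) * (1 / (2 ^ (d + 2) * r₁ ^ d) * D.J u r₁) := by field_simp
    _ ≤ _ := c6
    _ = _ := by ring

end Pool.Agent.Lib.MP_8daebb_an.GM
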