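import Pool.Agent.Lib.MP_8daebb_an.GM.Df

/-! The radial test functions of the mean value inequality. -/

set_option linter.unusedSectionVars false
set_option linter.unusedVariables false

open MeasureTheory Metric Filter Topology Set
open scoped RealInnerProductSpace ENNReal ContDiff

namespace Pool.Agent.Lib.MP_8daebb_an.GM

variable {d : ℕ}

/-- The corrected fundamental profile. -/
noncomputable def fS (d : ℕ) (s : ℝ) : ℝ := (1 + s) / s ^ d

/-- Its derivative. -/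
noncomputable def fS' (d : ℕ) (s : ℝ) : ℝ := -((d + (d - 1) * s) / (s ^ d * s))

/-- The potential of the profile. -/
noncomputable def gS (d : ℕ) (b s : ℝ) : ℝ := ∫ ν in s..b, 2 * ν * fS d ν

theorem fS_deriv (d : ℕ) {s : ℝ} (hs : 0 < s) : HasDerivAt (fS d) (fS' d s) s := by
  have h1 : HasDerivAt (fun s : ℝ => 1 + s) 1 s := (hasDerivAt_id s).const_add 1
  have h2 := h1.fun_div (hasDerivAt_pow d s) (pow_pos hs d).ne'
  refine HasDerivAt.congr_deriv (f := fun s : ℝ => (1 + s) / s ^ d) h2 ?_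
  rw [fS']
  cases d with
  | zero => simp [hs.ne']
  | succ k =>
    simp only [Nat.add_sub_cancel]
    push_cast
    field_simp
    ring

theorem fS_cont (d : ℕ) : ContinuousOn (fS' d) (Ioi 0) ∧
    ContinuousOn (fun ν => 2 * ν * fS d ν) (Ioi 0) := by
  constructor
  · refine ContinuousOn.neg (ContinuousOn.div (by fun_prop) (by fun_prop) fun s hs => ?_)
    have : 0 < s := hs
    positivity
  · refine ContinuousOn.mul (by fun_prop) (ContinuousOn.div (by fun_prop) (by fun_prop) fun s hs => ?_)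
    have : 0 < s := hs
    positivity

theorem gS_int (d : ℕ) {a b : ℝ} (ha : 0 < a) (hb : 0 < b) :
    IntervalIntegrable (fun ν => 2 * ν * fS d ν) volume a b :=
  ((fS_cont d).2.mono fun x hx => (lt_min ha hb).trans_le hx.1).intervalIntegrable

theorem gS_deriv (d : ℕ) {b s : ℝ} (hb : 0 < b) (hs : 0 < s) :
    HasDerivAt (gS d b) (-(2 * s * fS d s)) s :=
  intervalIntegral.integral_hasDerivAt_left (gS_int d hs hb)
    ((fS_cont d).2.stronglyMeasurableAtFilter isOpen_Ioi s hs)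
    ((fS_cont d).2.continuousAt (Ioi_mem_nhds hs))

theorem gS_bounds (hd : 1 ≤ d) {b s : ℝ} (hs : 0 < s) (hb : 2 * s ≤ b) (hb1 : b ≤ 1) :
    2 * s ^ 2 / 2 ^ d ≤ s ^ d * gS d b s ∧ s ^ d * gS d b s ≤ 4 * s * b := by
  have hb0 : 0 < b := by linarith
  have hp : 0 < s ^ d := pow_pos hs d
  constructor
  · have h1 : gS d b s = (∫ ν in s..2 * s, 2 * ν * fS d ν) + ∫ ν in 2 * s..b, 2 * ν * fS d ν :=
      (intervalIntegral.integral_add_adjacent_intervals (gS_int d hs (by linarith))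
        (gS_int d (by linarith) hb0)).symm
    have h2 : 0 ≤ ∫ ν in 2 * s..b, 2 * ν * fS d ν :=
      intervalIntegral.integral_nonneg hb fun ν hν => by
        have : 0 < ν := by linarith [hν.1]
        rw [fS]
        positivity
    have h3 : ∫ ν in s..2 * s, 2 * s / (2 * s) ^ d ≤ ∫ ν in s..2 * s, 2 * ν * fS d ν := by
      refine intervalIntegral.integral_mono_on (by linarith) intervalIntegrable_const
        (gS_int d hs (by linarith)) fun ν hν => ?_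
      have h0 : 0 < ν := hs.trans_le hν.1
      rw [fS, ← mul_div_assoc]
      refine div_le_div₀ (by positivity) (by nlinarith [hν.1]) (by positivity) ?_
      exact pow_le_pow_left₀ h0.le hν.2 d
    rw [intervalIntegral.integral_const, smul_eq_mul] at h3
    have h4 : s ^ d * ((2 * s - s) * (2 * s / (2 * s) ^ d)) = 2 * s ^ 2 / 2 ^ d := by
      rw [mul_pow]
      field_simp
      ring
    rw [← h4, h1]
    exact mul_le_mul_of_nonneg_left (by linarith) hp.le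
  · have h3 : gS d b s ≤ ∫ ν in s..b, 4 * s / s ^ d := by
      refine intervalIntegral.integral_mono_on (by linarith) (gS_int d hs hb0)
        intervalIntegrable_const fun ν hν => ?_
      have h0 : 0 < ν := hs.trans_le hν.1
      obtain ⟨k, rfl⟩ := Nat.exists_eq_add_of_le' hd
      have e1 : 4 * s / s ^ (k + 1) = 4 / s ^ k := by
        rw [pow_succ]
        field_simp
      have e2 : 2 * ν * fS (k + 1) ν = 2 * (1 + ν) / ν ^ k := by
        rw [fS, pow_succ]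
        field_simp
      rw [e1, e2]
      exact div_le_div₀ (by norm_num) (by linarith [hν.2]) (by positivity)
        (pow_le_pow_left₀ hs.le hν.1 k)
    rw [intervalIntegral.integral_const, smul_eq_mul] at h3
    have h4 : s ^ d * ((b - s) * (4 * s / s ^ d)) = 4 * s * (b - s) := by field_simp
    have h5 := mul_le_mul_of_nonneg_left h3 hp.le
    rw [h4] at h5
    nlinarith

/-- The regularised distance. -/
noncomputable def nS (B : E d →L[ℝ] E d) (c : E d) (r : ℝ) (x : E d) : ℝ :=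
  √(⟪B (x - c), x - c⟫ + r ^ 2)

theorem nS_props {B : E d →L[ℝ] E d} (hB : Psd B) (c : E d) {r : ℝ} (hr : 0 < r) :
    Continuous (nS B c r) ∧ ∀ x, 0 < nS B c r x ∧ nS B c r x ^ 2 = ⟪B (x - c), x - c⟫ + r ^ 2 ∧
      HasFDerivAt (nS B c r) ((nS B c r x)⁻¹ • innerSL ℝ (B (x - c))) x := by
  refine ⟨by unfold nS; fun_prop, fun x => ?_⟩
  have h0 : 0 < ⟪B (x - c), x - c⟫ + r ^ 2 := by
    have := hB.2 (x - c)
    positivity
  refine ⟨Real.sqrt_pos.2 h0, Real.sq_sqrt h0.le, ?_⟩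
  have h1 : HasFDerivAt (fun x : E d => x - c) (ContinuousLinearMap.id ℝ (E d)) x :=
    (hasFDerivAt_id x).sub_const c
  have h2 := ((B.hasFDerivAt.comp x h1).inner ℝ h1).add_const (r ^ 2)
  have h3 := h2.sqrt h0.ne'
  refine HasFDerivAt.congr_fderiv (f := fun x => √(⟪B (x - c), x - c⟫ + r ^ 2)) h3 ?_
  ext v
  have e := hB.1 v (x - c)
  simp only [smul_apply, innerSL_apply_apply, smul_eq_mul,
    ContinuousLinearMap.comp_apply, ContinuousLinearMap.prod_apply, fderivInnerCLM_apply,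
    ContinuousLinearMap.id_apply, Function.comp]
  rw [e, real_inner_comm (B (x - c)) v, nS]
  have h4 := (Real.sqrt_pos.2 h0).ne'
  field_simp
  ring

theorem comp_nS {B : E d →L[ℝ] E d} (hB : Psd B) (c : E d) {r : ℝ} (hr : 0 < r) {φ φ' : ℝ → ℝ}
    (h1 : ∀ s, 0 < s → HasDerivAt φ (φ' s) s) (h2 : ContinuousOn φ' (Ioi 0)) :
    ContDiff ℝ 1 (fun x => φ (nS B c r x)) ∧ ∀ x,
      HasFDerivAt (fun x => φ (nS B c r x))
        ((φ' (nS B c r x) / nS B c r x) • innerSL ℝ (B (x - c))) x := by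
  obtain ⟨hc, hn⟩ := nS_props hB c hr
  have h3 : ∀ x, HasFDerivAt (fun x => φ (nS B c r x))
      ((φ' (nS B c r x) / nS B c r x) • innerSL ℝ (B (x - c))) x := fun x => by
    have := (h1 _ (hn x).1).comp_hasFDerivAt x (hn x).2.2
    rwa [smul_smul, ← div_eq_mul_inv] at this
  refine ⟨contDiff_one_iff_fderiv.2 ⟨fun x => (h3 x).differentiableAt, ?_⟩, h3⟩
  have e : fderiv ℝ (fun x => φ (nS B c r x)) =
      fun x => (φ' (nS B c r x) / nS B c r x) • innerSL ℝ (B (x - c)) :=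
    funext fun x => (h3 x).fderiv
  rw [e]
  have h4 : Continuous fun x => φ' (nS B c r x) := h2.comp_continuous hc fun x => (hn x).1
  exact (h4.div hc fun x => (hn x).1.ne').smul (by fun_prop)

/-- The pointwise inequality in the interior. -/
theorem alg_supx {m n r p G Y t a₁ a₂ a₃ a₄ δ ε η : ℝ} (hm : 1 ≤ m) (hn : 0 < n) (hn1 : n ≤ 1)
    (hp : 0 < p) (hY : 0 ≤ Y) (ht : 0 ≤ t) (hδ0 : 0 ≤ δ) (hδ : 64 * δ ≤ η) (hη : η ≤ 1)
    (hε : 2 * (16 * m + 3) * ε ≤ η) (hYn : Y ^ 2 ≤ ε * n ^ 2) (hG : 2 * n ^ 2 * η ≤ p * G)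
    (hG' : p * G ≤ 4 * n) (h1 : |a₁| ≤ 8 * t * n ^ 2) (h2 : |a₂| ≤ δ * (t + Y ^ 2) * (2 * n))
    (h3 : |a₃| ≤ δ * n ^ 2 * (6 * t + 14 * Y ^ 2)) (h4 : t / 2 - δ * Y ^ 2 ≤ a₄) :
    r ^ 2 / (p * n ^ 2) * Y ^ 2 ≤
      -((m + (m - 1) * n) / (p * n)) / n * (n ^ 2 - r ^ 2 - a₁) * Y ^ 2 +
        (1 + n) / p * (2 * a₃ + Y ^ 2 * (m - t) + Y ^ 2 * a₂) + G * a₄ := by
  have hG0 : 0 ≤ p * G := le_trans (by nlinarith [sq_nonneg n]) hG
  have hε1 : ε * n ^ 2 ≤ 1 := by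
    by_cases h : 0 ≤ ε
    · have : ε ≤ 1 := by nlinarith
      have : n ^ 2 ≤ 1 := by nlinarith
      nlinarith
    · nlinarith [sq_nonneg n]
  have hY1 : Y ^ 2 ≤ 1 := hYn.trans hε1
  obtain ⟨k, hk⟩ : ∃ k, k = m + (m - 1) * n := ⟨_, rfl⟩
  have hk1 : 1 ≤ k := by rw [hk]; nlinarith
  have hk2 : k ≤ 2 * m := by rw [hk]; nlinarith
  obtain ⟨b, hb⟩ : ∃ b, b = a₁ / n ^ 2 := ⟨_, rfl⟩
  have hb1 : -(8 * t) ≤ b := by
    rw [hb, le_div_iff₀ (by positivity)]
    linarith [(abs_le.1 h1).1]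
  obtain ⟨v, hv⟩ : ∃ v, v = r ^ 2 / n ^ 2 := ⟨_, rfl⟩
  have hv0 : 0 ≤ v := by rw [hv]; positivity
  have e1 : r ^ 2 / (p * n ^ 2) * Y ^ 2 = v * Y ^ 2 / p := by rw [hv]; field_simp
  have e2 : -((m + (m - 1) * n) / (p * n)) / n * (n ^ 2 - r ^ 2 - a₁) * Y ^ 2 +
      (1 + n) / p * (2 * a₃ + Y ^ 2 * (m - t) + Y ^ 2 * a₂) + G * a₄ =
      (n * Y ^ 2 + k * (v * Y ^ 2) + k * b * Y ^ 2 +
        (1 + n) * (2 * a₃ - Y ^ 2 * t + Y ^ 2 * a₂) + p * G * a₄) / p := by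
    rw [hk, hb, hv]
    field_simp
    ring
  rw [e1, e2]
  refine div_le_div_of_nonneg_right ?_ hp.le
  have y0 := sq_nonneg Y
  have n2 : n ^ 2 ≤ n := by nlinarith
  have c1 : v * Y ^ 2 ≤ k * (v * Y ^ 2) := le_mul_of_one_le_left (by positivity) hk1
  have c2 : -(16 * m * (Y ^ 2 * t)) ≤ k * b * Y ^ 2 := by
    have f1 : k * -(8 * t) ≤ k * b := mul_le_mul_of_nonneg_left hb1 (by linarith)
    have f2 : k * t ≤ 2 * m * t := mul_le_mul_of_nonneg_right hk2 ht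
    have f3 : -(16 * m * t) * Y ^ 2 ≤ k * b * Y ^ 2 :=
      mul_le_mul_of_nonneg_right (by linarith) y0
    linarith
  have yt : 0 ≤ Y ^ 2 * t := by positivity
  have nY : 0 ≤ n * Y ^ 2 := by positivity
  have nt : 0 ≤ n ^ 2 * t := by positivity
  have c3 : -(δ * (6 * (n ^ 2 * t) + 14 * (n * Y ^ 2))) ≤ a₃ := by
    have f1 : n ^ 2 * Y ^ 2 ≤ n * Y ^ 2 := mul_le_mul_of_nonneg_right n2 y0
    have f2 := mul_le_mul_of_nonneg_left f1 hδ0
    linarith [(abs_le.1 h3).1]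
  have c4 : -(2 * δ * (Y ^ 2 * t + n * Y ^ 2)) ≤ Y ^ 2 * a₂ := by
    have f1 := mul_le_mul_of_nonneg_left (abs_le.1 h2).1 y0
    have f2 : Y ^ 2 * t * n ≤ Y ^ 2 * t := mul_le_of_le_one_right yt hn1
    have f3 : n * Y ^ 2 * Y ^ 2 ≤ n * Y ^ 2 := mul_le_of_le_one_right nY hY1
    have f4 := mul_le_mul_of_nonneg_left (add_le_add f2 f3) hδ0
    linarith
  obtain ⟨Z, hZ⟩ : ∃ Z, Z = 2 * (δ * (6 * (n ^ 2 * t) + 14 * (n * Y ^ 2))) + Y ^ 2 * t +
      2 * δ * (Y ^ 2 * t + n * Y ^ 2) := ⟨_, rfl⟩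
  have Z0 : 0 ≤ Z := by rw [hZ]; positivity
  have c5 : -(2 * Z) ≤ (1 + n) * (2 * a₃ - Y ^ 2 * t + Y ^ 2 * a₂) := by
    have f1 : (1 + n) * -Z ≤ (1 + n) * (2 * a₃ - Y ^ 2 * t + Y ^ 2 * a₂) :=
      mul_le_mul_of_nonneg_left (by linarith) (by linarith)
    nlinarith
  have c6 : η * (n ^ 2 * t) - 4 * δ * (n * Y ^ 2) ≤ p * G * a₄ := by
    have f1 := mul_le_mul_of_nonneg_left h4 hG0
    have f2 := mul_le_mul_of_nonneg_right hG ht
    have f3 := mul_le_mul_of_nonneg_right hG' (show 0 ≤ δ * Y ^ 2 by positivity)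
    linarith
  have c7 : (16 * m + 3) * (Y ^ 2 * t) ≤ η / 2 * (n ^ 2 * t) := by
    have f1 : Y ^ 2 * t ≤ ε * n ^ 2 * t := mul_le_mul_of_nonneg_right hYn ht
    have f2 := mul_le_mul_of_nonneg_left f1 (show 0 ≤ 16 * m + 3 by linarith)
    have f3 := mul_le_mul_of_nonneg_right hε nt
    linarith
  have c8 := mul_le_mul_of_nonneg_right hδ nt
  have c9 := mul_le_mul_of_nonneg_right (hδ.trans hη) nY
  have c10 := mul_le_mul_of_nonneg_right (hδ.trans hη) yt
  have c11 : 0 ≤ δ * (n ^ 2 * t) := by positivity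
  rw [hZ] at c5
  linarith

end Pool.Agent.Lib.MP_8daebb_an.GM
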