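import Pool.Agent.Lib.MP_8daebb_an.GM.Sy1

/-! The nonlinear part and its linearisation. -/

open MeasureTheory Metric Set Filter Topology
open scoped RealInnerProductSpace ContDiff ENNReal

namespace Pool.Agent.Lib.MP_8daebb_an.GM.Ch

variable {d n : ℕ}

theorem tr2_add_left_Sy2 (A A' : E d →L[ℝ] E d →L[ℝ] E n) (M : E d →L[ℝ] E d) :
    tr2 (A + A') M = tr2 A M + tr2 A' M := by
  simp only [tr2, add_apply, Finset.sum_add_distrib]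

theorem tr2_sub_left_Sy2 (A A' : E d →L[ℝ] E d →L[ℝ] E n) (M : E d →L[ℝ] E d) :
    tr2 (A - A') M = tr2 A M - tr2 A' M := by
  simp only [tr2, sub_apply, Finset.sum_sub_distrib]

theorem tr2_add_right_Sy2 (A : E d →L[ℝ] E d →L[ℝ] E n) (M M' : E d →L[ℝ] E d) :
    tr2 A (M + M') = tr2 A M + tr2 A M' := by
  simp only [tr2, add_apply, map_add, Finset.sum_add_distrib]

theorem tr2_sub_right_Sy2 (A : E d →L[ℝ] E d →L[ℝ] E n) (M M' : E d →L[ℝ] E d) :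
    tr2 A (M - M') = tr2 A M - tr2 A M' := by
  simp only [tr2, sub_apply, map_sub, Finset.sum_sub_distrib]

theorem NN_eq (u : E d → E n) (x : E d) : NN u x = lapv u x + PP u x := by
  rw [NN, lapv, PP, tr2_sub_right_Sy2]
  abel

theorem JJ_eq (u v : E d → E n) (x : E d) : JJ u v x =
    tr2 (d2 v x) (iu u x) - tr2 (d2 u x) ((iu u x).comp ((dgu u v x).comp (iu u x))) := by
  rw [JJ, lapv, PL, tr2_sub_right_Sy2]
  abel

theorem d12_congr_Sy2 {u u' : E d → E n} {x : E d} (h : u =ᶠ[𝓝 x] u') :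
    d1 u x = d1 u' x ∧ d2 u x = d2 u' x :=
  ⟨h.fderiv_eq, h.fderiv.fderiv_eq⟩

theorem NN_congr {u u' : E d → E n} {x : E d} (h : u =ᶠ[𝓝 x] u') : NN u x = NN u' x := by
  obtain ⟨h1, h2⟩ := d12_congr_Sy2 h
  rw [NN, NN, iu, iu, gu, gu, h1, h2]

theorem JJ_congr (u : E d → E n) {v v' : E d → E n} {x : E d} (h : v =ᶠ[𝓝 x] v') :
    JJ u v x = JJ u v' x := by
  obtain ⟨h1, h2⟩ := d12_congr_Sy2 h
  rw [JJ_eq, JJ_eq, dgu, dgu, h1, h2]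

theorem dgu_sub_Sy2 (u : E d → E n) {v v' : E d → E n} (hv : ContDiff ℝ 2 v)
    (hv' : ContDiff ℝ 2 v') (x : E d) :
    dgu u (fun x => v x - v' x) x = dgu u v x - dgu u v' x := by
  rw [dgu, dgu, dgu, (d1_add hv hv').2.2.1]
  simp only [map_sub, ContinuousLinearMap.sub_comp, ContinuousLinearMap.comp_sub]
  abel

theorem PL_sub (u : E d → E n) {v v' : E d → E n} (hv : ContDiff ℝ 2 v) (hv' : ContDiff ℝ 2 v') :
    (PL u (fun x => v x - v' x) = fun x => PL u v x - PL u v' x) ∧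
      JJ u (fun x => v x - v' x) = fun x => JJ u v x - JJ u v' x := by
  constructor
  · funext x
    rw [PL, PL, PL, dgu_sub_Sy2 u hv hv', (d1_add hv hv').2.2.2, ContinuousLinearMap.sub_comp,
      ContinuousLinearMap.comp_sub, tr2_sub_left_Sy2, tr2_sub_right_Sy2 (d2 u x)]
    abel
  · funext x
    rw [JJ_eq, JJ_eq, JJ_eq, dgu_sub_Sy2 u hv hv', (d1_add hv hv').2.2.2,
      ContinuousLinearMap.sub_comp, ContinuousLinearMap.comp_sub, tr2_sub_left_Sy2,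
      tr2_sub_right_Sy2 (d2 u x)]
    abel

theorem lapv_add {v v' : E d → E n} (hv : ContDiff ℝ 2 v) (hv' : ContDiff ℝ 2 v') (x : E d) :
    lapv (fun x => v x + v' x) x = lapv v x + lapv v' x := by
  rw [lapv, lapv, lapv, (d1_add hv hv').2.1, tr2_add_left_Sy2]

theorem tr2_bil_Sy2 : ∃ C : ℝ, 0 < C ∧ ∀ (m : ℕ) (f : E d → E d →L[ℝ] E d →L[ℝ] E n)
    (g : E d → E d →L[ℝ] E d), Wv m f → Wv m g → Wv m (fun x => tr2 (f x) (g x)) ∧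
      ∀ σ : ℤ, |σ| ≤ m → nv σ (fun x => tr2 (f x) (g x)) ≤ C * nv m f * nv σ g ∧
        nv σ (fun x => tr2 (f x) (g x)) ≤ C * nv σ f * nv m g := by
  obtain ⟨T, hT⟩ := exists_tr2L (d := d) (X := E n)
  obtain ⟨C, C0, hC⟩ := nv_bil (d := d) (X := E d →L[ℝ] E d →L[ℝ] E n) (Y := E d →L[ℝ] E d)
    (Z := E n) T
  refine ⟨C, C0, fun m f g hf hg => ?_⟩
  simp only [← hT]
  exact ⟨Wv.bil (X := E d →L[ℝ] E d →L[ℝ] E n) (Y := E d →L[ℝ] E d) (Z := E n) hf hg T,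
    fun σ hσ => hC m σ f g hf hg hσ⟩

theorem comp_bil_Sy2 : ∃ C : ℝ, 0 < C ∧ ∀ (m : ℕ) (f g : E d → E d →L[ℝ] E d),
    Wv m f → Wv m g → Wv m (fun x => (f x).comp (g x)) ∧
      ∀ σ : ℤ, |σ| ≤ m → nv σ (fun x => (f x).comp (g x)) ≤ C * nv m f * nv σ g ∧
        nv σ (fun x => (f x).comp (g x)) ≤ C * nv σ f * nv m g := by
  obtain ⟨C, C0, hC⟩ := nv_bil (d := d) (ContinuousLinearMap.compL ℝ (E d) (E d) (E d))
  exact ⟨C, C0, fun m f g hf hg =>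
    ⟨hf.bil hg (ContinuousLinearMap.compL ℝ (E d) (E d) (E d)), fun σ hσ => hC m σ f g hf hg hσ⟩⟩

theorem mul3_Sy2 {x C a b A B : ℝ} (h : x ≤ C * a * b) (hC : 0 < C) (ha : 0 ≤ a) (hb : 0 ≤ b)
    (hA : a ≤ A) (hB : b ≤ B) : x ≤ C * A * B :=
  h.trans (mul_le_mul (mul_le_mul_of_nonneg_left hA hC.le) hB hb
    (mul_nonneg hC.le (ha.trans hA)))

theorem down_Sy2 {s : ℕ} {f : E d → E d →L[ℝ] E d} (h : Wv (s + 1) f) :
    Wv s f ∧ nv s f ≤ nv (s + 1) f :=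
  ⟨h.mono (by omega), h.nv_mono (by omega) (by push_cast; omega)⟩

theorem abs_cast_Sy2 (s : ℕ) : |(s : ℤ)| ≤ s := by rw [Nat.abs_cast]

theorem PP_lip : ∃ ε₀ C : ℝ, 0 < ε₀ ∧ 0 < C ∧ ∀ (s : ℕ) (u u' : E d → E n) (ε : ℝ), Sml s u ε →
    Sml s u' ε → ε ≤ ε₀ → Wv s (PP u) ∧
      nv s (fun x => PP u x - PP u' x) ≤ C * ε * nv (s + 2) fun x => u x - u' x := by
  obtain ⟨T, T0, hT⟩ := tr2_bil_Sy2 (d := d) (n := n)
  obtain ⟨D, D0, hD⟩ := nv_d12 (d := d) (n := n)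
  obtain ⟨e1, A, e10, A0, hA⟩ := iu_W (d := d) (n := n)
  obtain ⟨e2, B, e20, B0, hB⟩ := iu_sub (d := d) (n := n)
  refine ⟨min e1 e2, T * D * A + T * D * B * e1, lt_min e10 e20, by positivity,
    fun s u u' ε hu hu' hε => ?_⟩
  have h1 := hε.trans (min_le_left _ _)
  have h2 := hε.trans (min_le_right _ _)
  have ε0 := hu.nonneg
  obtain ⟨-, a1, a2, a3, -⟩ := hA s u ε hu h1
  obtain ⟨-, a1', -⟩ := hA s u' ε hu' h1
  have b1 := hB s u u' ε hu hu' h2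
  have hw := hu.w.sub hu'.w
  obtain ⟨-, w1, -⟩ := hD s u hu.w
  obtain ⟨-, w2, w3⟩ := hD s u' hu'.w
  obtain ⟨-, w4, w5⟩ := hD s _ hw
  have hs := a1.sub a1'
  refine ⟨(hT s _ _ w1 (down_Sy2 a2).1).1, ?_⟩
  have e : (fun x => PP u x - PP u' x) = fun x =>
      tr2 (d2 (fun x => u x - u' x) x) (iu u x - 1) + tr2 (d2 u' x) (iu u x - iu u' x) := by
    funext x
    rw [(d1_add hu.w.two_Wi8 hu'.w.two_Wi8).2.2.2, PP, PP]
    simp only [tr2_sub_left_Sy2, tr2_sub_right_Sy2]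
    abel
  obtain ⟨p1, p2⟩ := hT s _ _ w4 (down_Sy2 a2).1
  obtain ⟨q1, q2⟩ := hT s _ _ w2 (down_Sy2 hs).1
  have p3 := mul3_Sy2 (p2 s (abs_cast_Sy2 s)).1 T0 (nv_nonneg _ _) (nv_nonneg _ _)
    (w5 s le_rfl).2.2 ((down_Sy2 a2).2.trans a3)
  have q3 := mul3_Sy2 (q2 s (abs_cast_Sy2 s)).1 T0 (nv_nonneg _ _) (nv_nonneg _ _)
    ((w3 s le_rfl).2.2.trans (mul_le_mul_of_nonneg_left (hu'.le.trans h1) D0.le))
    ((down_Sy2 hs).2.trans b1)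
  rw [e]
  refine (nv_add_le p1 q1 le_rfl).trans ((add_le_add p3 q3).trans_eq ?_)
  ring

theorem idi_Sy2 : ∃ ε₀ C : ℝ, 0 < ε₀ ∧ 0 < C ∧ ∀ (s : ℕ) (u v : E d → E n) (ε : ℝ), Sml s u ε →
    ε ≤ ε₀ → Wv (s + 2) v → Wv s (fun x => (iu u x).comp ((dgu u v x).comp (iu u x))) ∧
      ∀ σ : ℤ, |σ| ≤ s →
        nv σ (fun x => (iu u x).comp ((dgu u v x).comp (iu u x))) ≤ C * nv (σ + 2) v := by
  obtain ⟨K, K0, hK⟩ := comp_bil_Sy2 (d := d)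
  obtain ⟨G, G0, hG⟩ := dgu_le (d := d) (n := n)
  obtain ⟨e1, A, e10, A0, hA⟩ := iu_W (d := d) (n := n)
  refine ⟨e1, K * A * (K * (G * e1) * A), e10, by positivity, fun s u v ε hu hε hv => ?_⟩
  obtain ⟨-, a1, -, -, a3⟩ := hA s u ε hu hε
  obtain ⟨g1, g2⟩ := hG s u v (hu.w.mono (by omega)) (hv.mono (by omega))
  obtain ⟨i1, i2⟩ := down_Sy2 a1
  obtain ⟨p1, p2⟩ := hK s _ _ g1 i1
  obtain ⟨q1, q2⟩ := hK s _ _ i1 p1
  refine ⟨q1, fun σ hσ => ?_⟩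
  have hσ' := (le_abs_self σ).trans hσ
  have g3 := mul3_Sy2 (g2 σ hσ) G0 (nv_nonneg _ _) (nv_nonneg _ _)
    ((hu.w.nv_mono (τ := s + 2) (by omega) (by push_cast; omega)).trans (hu.le.trans hε))
    (hv.nv_mono (τ := σ + 2) (by omega) (by push_cast; omega))
  have p3 := mul3_Sy2 (p2 σ hσ).2 K0 (nv_nonneg _ _) (nv_nonneg _ _) g3 (i2.trans a3)
  refine (mul3_Sy2 (q2 σ hσ).1 K0 (nv_nonneg _ _) (nv_nonneg _ _) (i2.trans a3) p3).trans_eq ?_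
  ring

theorem PL_le : ∃ ε₀ C : ℝ, 0 < ε₀ ∧ 0 < C ∧ ∀ (s : ℕ) (u v : E d → E n) (ε : ℝ), Sml s u ε →
    ε ≤ ε₀ → Wv (s + 2) v → Wv s (PL u v) ∧ Wv s (JJ u v) ∧
      ∀ σ : ℤ, |σ| ≤ s → nv σ (PL u v) ≤ C * ε * nv (σ + 2) v := by
  obtain ⟨T, T0, hT⟩ := tr2_bil_Sy2 (d := d) (n := n)
  obtain ⟨D, D0, hD⟩ := nv_d12 (d := d) (n := n)
  obtain ⟨e1, A, e10, A0, hA⟩ := iu_W (d := d) (n := n)
  obtain ⟨e2, B, e20, B0, hB⟩ := idi_Sy2 (d := d) (n := n)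
  refine ⟨min e1 e2, T * D * A + T * D * B, lt_min e10 e20, by positivity,
    fun s u v ε hu hε hv => ?_⟩
  obtain ⟨-, -, a2, a3, -⟩ := hA s u ε hu (hε.trans (min_le_left _ _))
  obtain ⟨b1, b2⟩ := hB s u v ε hu (hε.trans (min_le_right _ _)) hv
  obtain ⟨-, w1, w2⟩ := hD s u hu.w
  obtain ⟨-, w3, w4⟩ := hD s v hv
  obtain ⟨p1, p2⟩ := hT s _ _ w3 (down_Sy2 a2).1
  obtain ⟨q1, q2⟩ := hT s _ _ w1 b1
  have hP : Wv s (PL u v) := p1.sub q1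
  refine ⟨hP, hv.lap.1.add hP, fun σ hσ => ?_⟩
  have hσ' := (le_abs_self σ).trans hσ
  have p3 := mul3_Sy2 (p2 σ hσ).2 T0 (nv_nonneg _ _) (nv_nonneg _ _) (w4 σ hσ').2.2
    ((down_Sy2 a2).2.trans a3)
  have q3 := mul3_Sy2 (q2 σ hσ).1 T0 (nv_nonneg _ _) (nv_nonneg _ _)
    ((w2 s le_rfl).2.2.trans (mul_le_mul_of_nonneg_left hu.le D0.le)) (b2 σ hσ)
  refine (nv_sub_le p1 q1 hσ').trans ((add_le_add p3 q3).trans_eq ?_)
  ring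

theorem PP_quad : ∃ ε₀ C : ℝ, 0 < ε₀ ∧ 0 < C ∧ ∀ (s : ℕ) (u z : E d → E n) (ε γ : ℝ), Sml s u ε →
    Sml s z γ → ε ≤ ε₀ → γ ≤ ε₀ →
    nv s (fun x => PP (fun y => u y + z y) x - PP u x - PL u z x) ≤ C * γ ^ 2 := by
  obtain ⟨T, T0, hT⟩ := tr2_bil_Sy2 (d := d) (n := n)
  obtain ⟨D, D0, hD⟩ := nv_d12 (d := d) (n := n)
  obtain ⟨K, K0, hK⟩ := comp_bil_Sy2 (d := d)
  obtain ⟨G, G0, hG⟩ := dgu_le (d := d) (n := n)
  obtain ⟨e1, A, e10, A0, hA⟩ := iu_W (d := d) (n := n)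
  obtain ⟨e2, B, e20, B0, hB⟩ := iu_sub (d := d) (n := n)
  obtain ⟨e3, Q, e30, Q0, hQ⟩ := iu_quad (d := d) (n := n)
  refine ⟨min (e1 / 2) (min (e2 / 2) e3), T * (D * e3) * Q + T * D * (B * e2),
    lt_min (by positivity) (lt_min (by positivity) e30), by positivity,
    fun s u z ε γ hu hz hε hγ => ?_⟩
  simp only [le_min_iff] at hε hγ
  obtain ⟨ε1, ε2, ε3⟩ := hε
  obtain ⟨γ1, γ2, γ3⟩ := hγ
  have ε0 := hu.nonneg
  have γ0 := hz.nonneg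
  have huz := hu.add hz
  obtain ⟨-, a1, -⟩ := hA s u ε hu (by linarith)
  obtain ⟨-, a1', -⟩ := hA s _ _ huz (by linarith)
  have b1 := hB s _ u _ huz (hu.mono (by linarith)) (by linarith)
  simp only [add_sub_cancel_left] at b1
  have c1 := hQ s u z ε γ hu hz ε3 γ3
  have hs := a1'.sub a1
  have hc := hs.add (hK _ _ _ a1 (hK _ _ _ (hG (s + 1) u z hu.w hz.w).1 a1).1).1
  obtain ⟨-, w1, w2⟩ := hD s u hu.w
  obtain ⟨-, w3, w4⟩ := hD s z hz.w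
  obtain ⟨p1, p2⟩ := hT s _ _ w1 (down_Sy2 hc).1
  obtain ⟨q1, q2⟩ := hT s _ _ w3 (down_Sy2 hs).1
  have e : (fun x => PP (fun y => u y + z y) x - PP u x - PL u z x) = fun x =>
      tr2 (d2 u x) (iu (fun y => u y + z y) x - iu u x +
        (iu u x).comp ((dgu u z x).comp (iu u x))) +
      tr2 (d2 z x) (iu (fun y => u y + z y) x - iu u x) := by
    funext x
    rw [PP, PP, PL, (d1_add hu.w.two_Wi8 hz.w.two_Wi8).2.1]
    simp only [tr2_add_left_Sy2, tr2_add_right_Sy2, tr2_sub_right_Sy2]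
    abel
  have p3 := mul3_Sy2 (p2 s (abs_cast_Sy2 s)).1 T0 (nv_nonneg _ _) (nv_nonneg _ _)
    ((w2 s le_rfl).2.2.trans (mul_le_mul_of_nonneg_left (hu.le.trans ε3) D0.le))
    ((down_Sy2 hc).2.trans c1)
  have b2 := mul3_Sy2 b1 B0 (by linarith) (nv_nonneg _ _) (A := e2) (by linarith) hz.le
  have q3 := mul3_Sy2 (q2 s (abs_cast_Sy2 s)).1 T0 (nv_nonneg _ _) (nv_nonneg _ _)
    ((w4 s le_rfl).2.2.trans (mul_le_mul_of_nonneg_left hz.le D0.le))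
    ((down_Sy2 hs).2.trans b2)
  rw [e]
  refine (nv_add_le p1 q1 le_rfl).trans ((add_le_add p3 q3).trans_eq ?_)
  ring

end Pool.Agent.Lib.MP_8daebb_an.GM.Ch
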