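import Pool.Agent.Lib.MP_8daebb_an.GM.Sy2

/-! The transposed operator. -/

open MeasureTheory Metric Set Filter Topology
open scoped RealInnerProductSpace ContDiff ENNReal

namespace Pool.Agent.Lib.MP_8daebb_an.GM.Ch

variable {d n : ℕ}

section aux
variable {X Y Z : Type*} [NormedAddCommGroup X] [NormedSpace ℝ X] [FiniteDimensional ℝ X]
  [NormedAddCommGroup Y] [NormedSpace ℝ Y] [FiniteDimensional ℝ Y]
  [NormedAddCommGroup Z] [NormedSpace ℝ Z] [FiniteDimensional ℝ Z]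

/-- Membership together with a bound. -/
def Bd_Sy6 (m : ℕ) (f : E d → X) (c : ℝ) : Prop := Wv m f ∧ nv m f ≤ c

theorem Bd_Sy6.nonneg {m : ℕ} {f : E d → X} {c : ℝ} (h : Bd_Sy6 m f c) : 0 ≤ c :=
  (nv_nonneg _ _).trans h.2

theorem Bd_Sy6.mono {m m' : ℕ} {f : E d → X} {c : ℝ} (h : Bd_Sy6 m f c) (hm : m' ≤ m) :
    Bd_Sy6 m' f c :=
  ⟨h.1.mono hm, (h.1.nv_mono (by exact_mod_cast hm) le_rfl).trans h.2⟩

theorem Bd_Sy6.le {m : ℕ} {f : E d → X} {c c' : ℝ} (h : Bd_Sy6 m f c) (hc : c ≤ c') :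
    Bd_Sy6 m f c' := ⟨h.1, h.2.trans hc⟩

theorem Bd_Sy6.add {m : ℕ} {f g : E d → X} {a b : ℝ} (hf : Bd_Sy6 m f a) (hg : Bd_Sy6 m g b) :
    Bd_Sy6 m (fun x => f x + g x) (a + b) :=
  ⟨hf.1.add hg.1, (nv_add_le hf.1 hg.1 le_rfl).trans (add_le_add hf.2 hg.2)⟩

theorem Bd_Sy6.two {m : ℕ} {f : E d → X} {a : ℝ} (hf : Bd_Sy6 m f a) :
    Bd_Sy6 m (fun x => (2 : ℝ) • f x) (2 * a) := by
  refine ⟨hf.1.const_smul 2, ?_⟩
  rw [nv_const_smul, abs_two]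
  exact mul_le_mul_of_nonneg_left hf.2 zero_le_two

theorem bil_Sy6 (B : X →L[ℝ] Y →L[ℝ] Z) : ∃ C : ℝ, 0 < C ∧ ∀ (m : ℕ) (f : E d → X) (g : E d → Y)
    (a b : ℝ), Bd_Sy6 m f a → Bd_Sy6 m g b → Bd_Sy6 m (fun x => B (f x) (g x)) (C * a * b) := by
  obtain ⟨C, hC, h⟩ := nv_bil (d := d) B
  refine ⟨C, hC, fun m f g a b hf hg => ⟨hf.1.bil hg.1 B, ?_⟩⟩
  refine (h m m f g hf.1 hg.1 (by simp)).1.trans ?_
  exact mul_le_mul (mul_le_mul_of_nonneg_left hf.2 hC.le) hg.2 (nv_nonneg _ _)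
    (mul_nonneg hC.le hf.nonneg)

theorem clm_Sy6 (T : X →L[ℝ] Y) : ∃ C : ℝ, 0 < C ∧ ∀ (m : ℕ) (f : E d → X) (a : ℝ),
    Bd_Sy6 m f a → Bd_Sy6 m (fun x => T (f x)) (C * a) := by
  obtain ⟨C, hC, h⟩ := nv_clm (d := d) (X := X) (Y := Y)
  refine ⟨C * (‖T‖ + 1), by positivity, fun m f a hf => ⟨hf.1.clm T, ?_⟩⟩
  refine (h T m m f hf.1 le_rfl).trans ?_
  exact mul_le_mul (mul_le_mul_of_nonneg_left (by linarith) hC.le) hf.2 (nv_nonneg _ _)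
    (by positivity)

theorem dif_Sy6 : ∃ C : ℝ, 0 < C ∧ ∀ (m : ℕ) (f : E d → X) (a : ℝ),
    Bd_Sy6 (m + 1) f a → Bd_Sy6 m (fderiv ℝ f) (C * a) := by
  obtain ⟨C, hC, h⟩ := nv_fderiv (d := d) (X := X)
  refine ⟨C, hC, fun m f a hf => ⟨hf.1.dif, (h m m f hf.1 le_rfl).trans ?_⟩⟩
  refine mul_le_mul_of_nonneg_left ?_ hC.le
  have := hf.2
  push_cast at this
  exact this

end aux

theorem exists_dgi_Sy6 : ∃ T : (E d →L[ℝ] E d →L[ℝ] E d) →L[ℝ] E d,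
    ∀ A, T A = ∑ i, A (eb i) (eb i) := by
  refine ⟨∑ i, (ContinuousLinearMap.apply ℝ (E d) (eb i)).comp
    (ContinuousLinearMap.apply ℝ (E d →L[ℝ] E d) (eb i)), fun A => ?_⟩
  rw [sum_apply]
  rfl

theorem exists_dvz_Sy6 : ∃ T : (E d →L[ℝ] E n →L[ℝ] E d) →L[ℝ] E n,
    ∀ A, T A = ∑ i, ad (A (eb i)) (eb i) := by
  refine ⟨∑ i, (ContinuousLinearMap.apply ℝ (E n) (eb i)).comp
    (ad.comp (ContinuousLinearMap.apply ℝ (E n →L[ℝ] E d) (eb i))), fun A => ?_⟩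
  rw [sum_apply]
  rfl

theorem exists_rk_Sy6 : ∃ B : E n →L[ℝ] E d →L[ℝ] E n →L[ℝ] E d,
    ∀ y a, B y a = (innerSL ℝ y).smulRight a := by
  let J : E n →L[ℝ] E n →L[ℝ] ℝ := LinearMap.toContinuousLinearMap
    { toFun := fun y => innerSL ℝ y
      map_add' := fun a b => by simp
      map_smul' := fun c a => by simp }
  exact ⟨(ContinuousLinearMap.smulRightL ℝ (E n) (E d)).comp J, fun y a => rfl⟩

theorem exists_sh_Sy6 : ∃ B : (E d →L[ℝ] E d →L[ℝ] E n) →L[ℝ] E n →L[ℝ] E d →L[ℝ] E d,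
    ∀ A y, B A y = shL A y := by
  refine ⟨LinearMap.toContinuousLinearMap
    { toFun := fun A => shL A
      map_add' := fun a b => ?_
      map_smul' := fun c a => ?_ }, fun A y => rfl⟩
  · ext1 y
    ext1 v
    simp only [shL_apply, add_apply, map_add]
  · ext1 y
    ext1 v
    simp only [shL_apply, smul_apply, map_smul, RingHom.id_apply]

theorem ZZ_bd_Sy6 : ∃ ε₀ C : ℝ, 0 < ε₀ ∧ 0 < C ∧ ∀ (s m : ℕ) (u ψ : E d → E n) (ε a : ℝ),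
    Sml s u ε → ε ≤ ε₀ → m ≤ s → Bd_Sy6 (m + 1) ψ a → Bd_Sy6 m (ZZ u ψ) (C * a) := by
  obtain ⟨ε₀, Ci, hε, hCi, hi⟩ := iu_W (d := d) (n := n)
  obtain ⟨T, hT⟩ := exists_dgi_Sy6 (d := d)
  obtain ⟨R, hR⟩ := exists_rk_Sy6 (d := d) (n := n)
  obtain ⟨S, hS⟩ := exists_sh_Sy6 (d := d) (n := n)
  obtain ⟨C1, hC1, h1⟩ := dif_Sy6 (d := d) (X := E n)
  obtain ⟨C2, hC2, h2⟩ := dif_Sy6 (d := d) (X := E d →L[ℝ] E n)
  obtain ⟨C3, hC3, h3⟩ := dif_Sy6 (d := d) (X := E d →L[ℝ] E d)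
  obtain ⟨C4, hC4, h4⟩ := clm_Sy6 (d := d) (ad : (E d →L[ℝ] E n) →L[ℝ] E n →L[ℝ] E d)
  obtain ⟨C5, hC5, h5⟩ := clm_Sy6 (d := d) (X := E d →L[ℝ] E d →L[ℝ] E d) (Y := E d) T
  obtain ⟨C6, hC6, h6⟩ := bil_Sy6 (d := d) (ContinuousLinearMap.compL ℝ (E n) (E d) (E d))
  obtain ⟨C7, hC7, h7⟩ := bil_Sy6 (d := d) R
  obtain ⟨C8, hC8, h8⟩ := bil_Sy6 (d := d) (X := E d →L[ℝ] E d →L[ℝ] E n) (Y := E n)
    (Z := E d →L[ℝ] E d) S
  refine ⟨min ε₀ 1, C6 * Ci * (C4 * C1) + C7 * (C5 * (C3 * Ci)) +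
    2 * (C6 * Ci * (C6 * (C8 * (C2 * (C1 * 1))) * (C6 * Ci * (C4 * (C1 * 1))))),
    lt_min hε one_pos, by positivity, fun s m u ψ ε a hu hle hm hψ => ?_⟩
  obtain ⟨-, i1, -, -, i2⟩ := hi s u ε hu (hle.trans (min_le_left _ _))
  have bi : Bd_Sy6 (m + 1) (iu u) Ci :=
    Bd_Sy6.mono (m := s + 1) ⟨i1, by push_cast; exact i2⟩ (by omega)
  have bi0 := bi.mono (Nat.le_succ m)
  have bu : Bd_Sy6 (m + 1 + 1) u 1 :=
    Bd_Sy6.mono (m := s + 2)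
      ⟨hu.w, by push_cast; exact hu.le.trans (hle.trans (min_le_right _ _))⟩ (by omega)
  have bd1 := h1 _ _ _ bu
  have bd2 := h2 _ _ _ bd1
  have b0 := hψ.mono (Nat.le_succ m)
  have t1 := h6 _ _ _ _ _ bi0 (h4 _ _ _ (h1 _ _ _ hψ))
  have t2 := h7 _ _ _ _ _ b0 (h5 _ _ _ (h3 _ _ _ bi))
  have t3 := (h6 _ _ _ _ _ bi0 (h6 _ _ _ _ _ (h8 _ _ _ _ _ bd2 b0)
    (h6 _ _ _ _ _ bi0 (h4 _ _ _ (bd1.mono (Nat.le_succ m)))))).two
  have t := (t1.add t2).add t3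
  simp only [hT, hR, hS, ContinuousLinearMap.compL_apply] at t
  exact Bd_Sy6.le t (le_of_eq (by ring))

theorem ZZ_le : ∃ ε₀ C : ℝ, 0 < ε₀ ∧ 0 < C ∧ ∀ (s m : ℕ) (u ψ : E d → E n) (ε : ℝ), Sml s u ε →
    ε ≤ ε₀ → m ≤ s → Wv (m + 1) ψ → Wv m (ZZ u ψ) ∧ nv m (ZZ u ψ) ≤ C * nv (m + 1) ψ := by
  obtain ⟨ε₀, C, hε, hC, h⟩ := ZZ_bd_Sy6 (d := d) (n := n)
  exact ⟨ε₀, C, hε, hC, fun s m u ψ ε hu hle hm hψ =>
    h s m u ψ ε _ hu hle hm ⟨hψ, by push_cast; exact le_rfl⟩⟩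

theorem JT_le : ∃ ε₀ C : ℝ, 0 < ε₀ ∧ 0 < C ∧ ∀ (s m : ℕ) (u ψ : E d → E n) (ε : ℝ), Sml s u ε →
    ε ≤ ε₀ → m + 1 ≤ s → Wv (m + 2) ψ → Wv m (JT u ψ) ∧ nv m (JT u ψ) ≤ C * nv (m + 2) ψ := by
  obtain ⟨ε₀, C, hε, hC, h⟩ := ZZ_bd_Sy6 (d := d) (n := n)
  obtain ⟨T, hT⟩ := exists_dvz_Sy6 (d := d) (n := n)
  obtain ⟨C1, hC1, h1⟩ := dif_Sy6 (d := d) (X := E n →L[ℝ] E d)
  obtain ⟨C2, hC2, h2⟩ := clm_Sy6 (d := d) (X := E d →L[ℝ] E n →L[ℝ] E d) (Y := E n) T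
  refine ⟨ε₀, C2 * (C1 * C), hε, by positivity, fun s m u ψ ε hu hle hm hψ => ?_⟩
  have b : Bd_Sy6 (m + 1 + 1) ψ (nv (m + 2) ψ) := ⟨hψ, le_of_eq (by push_cast; rfl)⟩
  have t := h2 _ _ _ (h1 _ _ _ (h s (m + 1) u ψ ε _ hu hle hm b))
  simp only [hT] at t
  exact Bd_Sy6.le t (le_of_eq (by ring))

theorem ZZ_zero_Sy6 (u : E d → E n) {ψ : E d → E n} {x : E d} (h : ψ =ᶠ[𝓝 x] fun _ => 0) :
    ZZ u ψ x = 0 := by
  have h0 : ψ x = 0 := h.eq_of_nhds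
  have h1 : d1 ψ x = 0 := by
    rw [d1, h.fderiv_eq]
    simp
  rw [ZZ, h0, h1]
  ext1 v
  simp

theorem JT_zero (u : E d → E n) {ψ : E d → E n} {x : E d} (h : ψ =ᶠ[𝓝 x] fun _ => 0) :
    ZZ u ψ x = 0 ∧ JT u ψ x = 0 := by
  refine ⟨ZZ_zero_Sy6 u h, ?_⟩
  have h1 : ZZ u ψ =ᶠ[𝓝 x] fun _ => 0 :=
    h.eventuallyEq_nhds.mono fun y hy => ZZ_zero_Sy6 u hy
  have h2 : fderiv ℝ (ZZ u ψ) x = 0 := by
    rw [h1.fderiv_eq]
    simp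
  simp [JT, dvz, h2]

theorem comp_eb_Sy6 (w : E d) (k : Fin d) : w k = ⟪(eb k : E d), w⟫ := by
  simp [EuclideanSpace.inner_single_left]

theorem exp_Sy6 {F : Type*} [NormedAddCommGroup F] [NormedSpace ℝ F] (M : E d →L[ℝ] F)
    (w : E d) : M w = ∑ j, ⟪(eb j : E d), w⟫ • M (eb j) := by
  rw [eb_exp_Wi8 M w]
  simp only [comp_eb_Sy6]

theorem fr_Sy6 {P : E d →L[ℝ] E d} (hP : ∀ a b, ⟪P a, b⟫ = ⟪a, P b⟫) (A B : E d →L[ℝ] E n) :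
    ∑ k, ⟪A (P (eb k)), B (eb k)⟫ = ∑ k, ⟪A (eb k), B (P (eb k))⟫ := by
  have e1 : ∀ k, ⟪A (P (eb k)), B (eb k)⟫ =
      ∑ j, ⟪(eb j : E d), P (eb k)⟫ * ⟪A (eb j), B (eb k)⟫ := fun k => by
    rw [exp_Sy6 A, sum_inner]
    simp only [real_inner_smul_left]
  have e2 : ∀ j, ⟪A (eb j), B (P (eb j))⟫ =
      ∑ k, ⟪(eb j : E d), P (eb k)⟫ * ⟪A (eb j), B (eb k)⟫ := fun j => by
    rw [exp_Sy6 B, inner_sum]
    refine Finset.sum_congr rfl fun k _ => ?_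
    rw [real_inner_smul_right, ← hP, real_inner_comm]
  simp only [e1, e2]
  exact Finset.sum_comm

theorem adl_Sy6 {a b : ℕ} (A : E a →L[ℝ] E b) (y : E b) (v : E a) : ⟪ad A y, v⟫ = ⟪y, A v⟫ := by
  rw [ad_apply, ContinuousLinearMap.adjoint_inner_left]

theorem adr_Sy6 {a b : ℕ} (A : E a →L[ℝ] E b) (y : E b) (v : E a) : ⟪v, ad A y⟫ = ⟪A v, y⟫ := by
  rw [ad_apply, ContinuousLinearMap.adjoint_inner_right]

theorem iu_contDiff_Sy6 {u : E d → E n} (hu : ContDiff ℝ 3 u) (hg : ∀ x, IsUnit (gu u x)) :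
    ContDiff ℝ 2 (iu u) := by
  have h1 : ContDiff ℝ 2 (d1 u) := hu.fderiv_right (m := 2) (by norm_num)
  have h2 : ContDiff ℝ 2 (gu u) :=
    contDiff_const.add (((ad : (E d →L[ℝ] E n) →L[ℝ] E n →L[ℝ] E d).contDiff.comp h1).clm_comp h1)
  refine contDiff_iff_contDiffAt.2 fun x => ?_
  obtain ⟨w, hw⟩ := hg x
  have h3 : ContDiffAt ℝ 2 Ring.inverse (gu u x) := hw ▸ contDiffAt_ringInverse ℝ w
  exact h3.comp x h2.contDiffAt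

theorem ZZ_diff_Sy6 {u ψ : E d → E n} (hu : ContDiff ℝ 3 u) (hg : ∀ x, IsUnit (gu u x))
    (hψ : ContDiff ℝ 2 ψ) : Differentiable ℝ (ZZ u ψ) := by
  obtain ⟨R, hR⟩ := exists_rk_Sy6 (d := d) (n := n)
  obtain ⟨S, hS⟩ := exists_sh_Sy6 (d := d) (n := n)
  have hi2 := iu_contDiff_Sy6 hu hg
  have hi : Differentiable ℝ (iu u) := hi2.differentiable two_ne_zero
  have hdi : Differentiable ℝ (fderiv ℝ (iu u)) :=
    (hi2.fderiv_right (m := 1) (by norm_num)).differentiable one_ne_zero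
  have h1 : ContDiff ℝ 2 (d1 u) := hu.fderiv_right (m := 2) (by norm_num)
  have h2 : Differentiable ℝ (d2 u) :=
    (h1.fderiv_right (m := 1) (by norm_num)).differentiable one_ne_zero
  have p0 : Differentiable ℝ ψ := hψ.differentiable two_ne_zero
  have p1 : Differentiable ℝ (d1 ψ) :=
    (hψ.fderiv_right (m := 1) (by norm_num)).differentiable one_ne_zero
  have a1 : Differentiable ℝ fun x => ad (d1 ψ x) :=
    (ad : (E d →L[ℝ] E n) →L[ℝ] E n →L[ℝ] E d).differentiable.comp p1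
  have a2 : Differentiable ℝ fun x => ad (d1 u x) :=
    (ad : (E d →L[ℝ] E n) →L[ℝ] E n →L[ℝ] E d).differentiable.comp (h1.differentiable two_ne_zero)
  have t1 : Differentiable ℝ fun x => ∑ j, fderiv ℝ (iu u) x (eb j) (eb j) :=
    Differentiable.fun_sum fun j _ =>
      (hdi.clm_apply (differentiable_const _)).clm_apply (differentiable_const _)
  have t2 : Differentiable ℝ fun x => R (ψ x) (∑ j, fderiv ℝ (iu u) x (eb j) (eb j)) :=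
    ((ContinuousLinearMap.differentiable (E := E n) (F := E d →L[ℝ] E n →L[ℝ] E d) R).comp
      p0).clm_apply t1
  have t3 : Differentiable ℝ fun x => S (d2 u x) (ψ x) :=
    ((ContinuousLinearMap.differentiable (E := E d →L[ℝ] E d →L[ℝ] E n)
      (F := E n →L[ℝ] E d →L[ℝ] E d) S).comp h2).clm_apply p0
  have t := ((hi.clm_comp a1).add t2).add ((hi.clm_comp (t3.clm_comp (hi.clm_comp a2))).const_smul
    (2 : ℝ))
  refine (congrArg (Differentiable ℝ) (funext fun x => ?_)).mp t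
  simp only [ZZ, dgi, hR, hS, Pi.add_apply, Pi.smul_apply]

theorem di_symm_Sy6 {u : E d → E n} (hu : ContDiff ℝ 3 u) (hg : ∀ x, IsUnit (gu u x))
    (x h a b : E d) : ⟪fderiv ℝ (iu u) x h a, b⟫ = ⟪a, fderiv ℝ (iu u) x h b⟫ := by
  have hi := ((iu_contDiff_Sy6 hu hg).differentiable two_ne_zero x).hasFDerivAt
  have h1 := (hi.clm_apply (hasFDerivAt_const a x)).inner ℝ (hasFDerivAt_const b x)
  have h2 := (hasFDerivAt_const a x).inner ℝ (hi.clm_apply (hasFDerivAt_const b x))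
  have e : (fun z => ⟪iu u z a, b⟫) = fun z => ⟪a, iu u z b⟫ := funext fun z => iu_symm (hg z) a b
  rw [e] at h1
  have := congrArg (fun M => M h) (h1.unique h2)
  simpa [fderivInnerCLM_apply] using this

/-- The pointwise form of the transposition. -/
theorem transp_pt {u ψ v : E d → E n} (hu : ContDiff ℝ 3 u) (hg : ∀ x, IsUnit (gu u x))
    (hψ : ContDiff ℝ 2 ψ) (hv : ContDiff ℝ 2 v) (x : E d) :
    ⟪ψ x, JJ u v x⟫ - ⟪JT u ψ x, v x⟫ =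
      ∑ i, fderiv ℝ (fun z => iu u z (ad (d1 v z) (ψ z)) - ZZ u ψ z (v z)) x (eb i) i := by
  have hi := ((iu_contDiff_Sy6 hu hg).differentiable two_ne_zero x).hasFDerivAt
  have hZ := (ZZ_diff_Sy6 hu hg hψ x).hasFDerivAt
  have p0 := (hψ.differentiable two_ne_zero x).hasFDerivAt
  have v0 := (hv.differentiable two_ne_zero x).hasFDerivAt
  have v1 := ((hv.fderiv_right (m := 1) (by norm_num)).differentiable one_ne_zero x).hasFDerivAt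
  have a1 := (ad : (E d →L[ℝ] E n) →L[ℝ] E n →L[ℝ] E d).hasFDerivAt.comp x v1
  have hF := (hi.clm_apply (a1.clm_apply p0)).sub (hZ.clm_apply v0)
  have eF : ∀ k, fderiv ℝ (fun z => iu u z (ad (d1 v z) (ψ z)) - ZZ u ψ z (v z)) x (eb k) =
      iu u x (ad (d1 v x) (d1 ψ x (eb k)) + ad (d2 v x (eb k)) (ψ x)) +
        fderiv ℝ (iu u) x (eb k) (ad (d1 v x) (ψ x)) -
      (ZZ u ψ x (d1 v x (eb k)) + fderiv ℝ (ZZ u ψ) x (eb k) (v x)) := fun k => by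
    have := congrArg (fun M => M (eb k)) hF.fderiv
    exact this
  have is := iu_symm (hg x)
  have hs := (hu.contDiffAt (x := x)).isSymmSndFDerivAt (by simp; norm_num)
  have Sa : ∀ a b, ⟪shL (d2 u x) (ψ x) a, b⟫ = ⟪ψ x, d2 u x a b⟫ := fun a b => by
    rw [shL_apply, adl_Sy6]
  have Ss : ∀ a b, ⟪shL (d2 u x) (ψ x) a, b⟫ = ⟪a, shL (d2 u x) (ψ x) b⟫ := fun a b => by
    rw [real_inner_comm _ a, Sa, Sa, hs.eq]
  set i := iu u x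
  set S := shL (d2 u x) (ψ x)
  set Du := d1 u x
  set Dv := d1 v x
  set Dp := d1 ψ x
  have c1 : ∑ k, ⟪(eb k : E d), i (ad Dv (Dp (eb k)))⟫ = ∑ k, ⟪(eb k : E d), i (ad Dp (Dv (eb k)))⟫ := by
    simp only [← is, adr_Sy6]
    rw [fr_Sy6 is]
    exact Finset.sum_congr rfl fun k _ => real_inner_comm _ _
  have c2 : ∑ k, ⟪(eb k : E d), i (ad (d2 v x (eb k)) (ψ x))⟫ = ⟪ψ x, tr2 (d2 v x) i⟫ := by
    simp only [← is, adr_Sy6, tr2, inner_sum]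
    exact Finset.sum_congr rfl fun k _ => real_inner_comm _ _
  have c3 : ∑ k, ⟪(eb k : E d), fderiv ℝ (iu u) x (eb k) (ad Dv (ψ x))⟫ =
      ⟪ψ x, Dv (dgi u x)⟫ := by
    simp only [← di_symm_Sy6 hu hg]
    rw [← sum_inner, adr_Sy6, real_inner_comm]
    rfl
  have c4 : ∑ k, ⟪(eb k : E d), fderiv ℝ (ZZ u ψ) x (eb k) (v x)⟫ = ⟪JT u ψ x, v x⟫ := by
    simp only [JT, dvz, sum_inner, adl_Sy6]
  have c5 : ∑ k, ⟪(eb k : E d), ⟪ψ x, Dv (eb k)⟫ • dgi u x⟫ = ⟪ψ x, Dv (dgi u x)⟫ := by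
    rw [exp_Sy6 Dv, inner_sum]
    simp only [real_inner_smul_right, mul_comm]
  have c6 : ⟪ψ x, tr2 (d2 u x) (i.comp ((dgu u v x).comp i))⟫ =
      2 * ∑ k, ⟪(eb k : E d), i (S (i (ad Du (Dv (eb k)))))⟫ := by
    have f0 : ∑ k, ⟪(eb k : E d), i (S (i (ad Du (Dv (eb k)))))⟫ =
        ∑ k, ⟪Du (i (S (i (eb k)))), Dv (eb k)⟫ := by
      simp only [← is, ← Ss, adr_Sy6]
    have f1 := fr_Sy6 is (Du.comp (i.comp S)) Dv
    have f2 := fr_Sy6 Ss (Dv.comp i) (Du.comp i)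
    have f3 := fr_Sy6 is Dv (Du.comp (i.comp S))
    simp only [ContinuousLinearMap.comp_apply] at f1 f2 f3
    have f4 : ∑ k, ⟪Dv (eb k), Du (i (S (i (eb k))))⟫ = ∑ k, ⟪Du (i (S (i (eb k)))), Dv (eb k)⟫ :=
      Finset.sum_congr rfl fun k _ => real_inner_comm _ _
    have f5 : ⟪ψ x, tr2 (d2 u x) (i.comp ((dgu u v x).comp i))⟫ =
        ∑ k, ⟪Dv (i (S (eb k))), Du (i (eb k))⟫ + ∑ k, ⟪Du (i (S (eb k))), Dv (i (eb k))⟫ := by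
      rw [tr2, inner_sum, ← Finset.sum_add_distrib]
      refine Finset.sum_congr rfl fun k _ => ?_
      rw [← Sa, ContinuousLinearMap.comp_apply, ← is, ← adr_Sy6 Dv, ← adr_Sy6 Du, ← inner_add_right]
      rfl
    rw [f5, f0, f2, f3, f4, ← f1]
    ring
  have c7 : ∀ k, ZZ u ψ x (Dv (eb k)) = i (ad Dp (Dv (eb k))) + ⟪ψ x, Dv (eb k)⟫ • dgi u x +
      (2 : ℝ) • i (S (i (ad Du (Dv (eb k))))) := fun k => rfl
  rw [Finset.sum_congr rfl fun k _ => comp_eb_Sy6 _ k]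
  simp only [eF, c7, map_add, inner_add_right, inner_sub_right,
    Finset.sum_add_distrib, Finset.sum_sub_distrib]
  rw [c1, c2, c3, c4, c5, JJ_eq, inner_sub_right, c6]
  simp only [real_inner_smul_right, ← Finset.mul_sum]
  ring

theorem transp : ∃ ε₀ : ℝ, 0 < ε₀ ∧ ∀ (s : ℕ) (u ψ v : E d → E n) (ε : ℝ), Sml s u ε → ε ≤ ε₀ →
    1 ≤ s → Wv 2 ψ → Wv 2 v →
    ∫ x in cube d, ⟪ψ x, JJ u v x⟫ = ∫ x in cube d, ⟪JT u ψ x, v x⟫ := by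
  obtain ⟨e1, C1, h1, -, H1⟩ := iu_W (d := d) (n := n)
  obtain ⟨e2, C2, h2, -, H2⟩ := ZZ_le (d := d) (n := n)
  obtain ⟨e3, C3, h3, -, H3⟩ := JT_le (d := d) (n := n)
  obtain ⟨e4, C4, h4, -, H4⟩ := PL_le (d := d) (n := n)
  refine ⟨min (min e1 e2) (min e3 e4), by positivity, fun s u ψ v ε hu hle hs hψ hv => ?_⟩
  simp only [le_min_iff] at hle
  obtain ⟨⟨l1, l2⟩, l3, l4⟩ := hle
  obtain ⟨hg, hi, -⟩ := H1 s u ε hu l1
  have hZ := (H2 s 1 u ψ ε hu l2 hs hψ).1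
  have hT := (H3 s 0 u ψ ε hu l3 hs hψ).1
  have hJ := (H4 0 u v ε (hu.mono_s (Nat.zero_le s)) l4 hv).2.1
  have hu3 : ContDiff ℝ 3 u := (hu.w.mono (n' := 3) (by omega)).contDiff
  have a1 : Wv 1 fun z => ad (d1 v z) (ψ z) :=
    ((Wv.dif (n := 1) hv).clm ad).bil (hψ.mono one_le_two) (ContinuousLinearMap.id ℝ _)
  have a2 : Wv 1 fun z => iu u z (ad (d1 v z) (ψ z)) :=
    (hi.mono (by omega)).bil a1 (ContinuousLinearMap.id ℝ _)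
  have a3 : Wv 1 fun z => ZZ u ψ z (v z) := hZ.bil (hv.mono one_le_two) (ContinuousLinearMap.id ℝ _)
  have h0 := integral_div (a2.sub a3)
  simp only [← transp_pt hu3 hg hψ.contDiff hv.contDiff] at h0
  rw [integral_sub (integrableOn_cube (hψ.continuous.inner hJ.continuous))
    (integrableOn_cube (hT.continuous.inner hv.continuous))] at h0
  exact sub_eq_zero.1 h0

end Pool.Agent.Lib.MP_8daebb_an.GM.Ch
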