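import Pool.Agent.Lib.MP_8daebb_an.GM.Wi9
import Pool.Agent.Lib.MP_8daebb_an.GM.Wi5

/-! Gain of regularity under smallness in the weakest norm. -/

open MeasureTheory Metric Set Filter Topology
open scoped RealInnerProductSpace ContDiff ENNReal

namespace Pool.Agent.Lib.MP_8daebb_an.GM.Ch

variable {d n : ℕ}

section aux
variable {X : Type*} [NormedAddCommGroup X] [NormedSpace ℝ X] [FiniteDimensional ℝ X]

theorem wt_Sy7 (m N : ℕ) (k : Fin d → ℤ) :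
    0 ≤ (min (wk k) N) ^ m ∧ (min (wk k) N) ^ m ≤ (N : ℝ) ^ m := by
  have h : 0 ≤ min (wk k) N := le_min (zero_le_one.trans (one_le_wk k)) (Nat.cast_nonneg N)
  exact ⟨pow_nonneg h m, pow_le_pow_left₀ h (min_le_right _ _) m⟩

theorem nw_add_Sy7 {ϖ : (Fin d → ℤ) → ℝ} {B : ℝ} (hϖ : ∀ k, 0 ≤ ϖ k ∧ ϖ k ≤ B) {a b : E d → ℝ}
    (ha : W 0 a) (hb : W 0 b) : nw ϖ (fun x => a x + b x) ≤ nw ϖ a + nw ϖ b := by
  have h0 : ∀ k, |ϖ k| ≤ B := fun k => by rw [abs_of_nonneg (hϖ k).1]; exact (hϖ k).2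
  have s1 := ha.summable_bdd h0
  have s2 := hb.summable_bdd h0
  rw [nw, nw, nw, ← s1.tsum_add s2]
  refine ((ha.add hb).summable_bdd h0).tsum_le_tsum (fun k => ?_) (s1.add s2)
  rw [cf_add ha.continuous hb.continuous, ← mul_add]
  exact mul_le_mul_of_nonneg_left (norm_add_le _ _) (hϖ k).1

theorem nwv_sub_Sy7 {ϖ : (Fin d → ℤ) → ℝ} {B : ℝ} (hϖ : ∀ k, 0 ≤ ϖ k ∧ ϖ k ≤ B) {f g : E d → X}
    (hf : Wv 0 f) (hg : Wv 0 g) : nwv ϖ (fun x => f x - g x) ≤ nwv ϖ f + nwv ϖ g := by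
  rw [nwv, nwv, nwv, ← Finset.sum_add_distrib]
  refine Finset.sum_le_sum fun i _ => ?_
  have h1 := nw_add_Sy7 hϖ (hf (co X i)) ((hg (co X i)).const_mul (-1))
  rw [nw_const_mul, abs_neg, abs_one, one_mul] at h1
  simpa only [map_sub, neg_mul, one_mul, ← sub_eq_add_neg] using h1

theorem nwv_le_Sy7 {m : ℕ} {f : E d → X} (hf : Wv m f) (N : ℕ) :
    nwv (fun k => (min (wk k) N) ^ m) f ≤ nv m f := by
  refine Finset.sum_le_sum fun i _ => ?_
  refine ((hf (co X i)).summable_bdd (B := (N : ℝ) ^ m) fun k => ?_).tsum_le_tsum (fun k => ?_)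
    ((hf (co X i)).summable le_rfl)
  · rw [abs_of_nonneg (wt_Sy7 m N k).1]
    exact (wt_Sy7 m N k).2
  · simp only [zpow_natCast]
    exact mul_le_mul_of_nonneg_right (pow_le_pow_left₀
      (le_min (zero_le_one.trans (one_le_wk k)) (Nat.cast_nonneg N)) (min_le_left _ _) m)
      (norm_nonneg _)

theorem flip_Sy7 : ∃ T : (E d →L[ℝ] E d) →L[ℝ] (E d →L[ℝ] E d →L[ℝ] X) →L[ℝ] X,
    ∀ M A, T M A = tr2 A M := by
  obtain ⟨T, hT⟩ := exists_tr2L (d := d) (X := X)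
  refine ⟨LinearMap.toContinuousLinearMap
    { toFun := fun M => (ContinuousLinearMap.apply ℝ X M).comp T
      map_add' := fun a b => ?_
      map_smul' := fun c a => ?_ }, fun M A => hT A M⟩
  · ext1 A
    exact map_add (T A) a b
  · ext1 A
    exact map_smul (T A) c a

end aux

theorem gain_inv : ∃ ε₀ C : ℝ, 0 < ε₀ ∧ 0 < C ∧ ∀ (m : ℕ) (h : E d → E d →L[ℝ] E d), Wv m h →
    nv 0 h ≤ ε₀ → Wv m (fun x => Ring.inverse (1 + h x)) ∧
      nv 0 (fun x => Ring.inverse (1 + h x) - 1) ≤ C * nv 0 h := by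
  obtain ⟨ε₁, C₁, hε₁, hC₁, hN⟩ := neumann (d := d)
  obtain ⟨C₂, hC₂, hT⟩ := nwv_bil_tame (d := d)
    (ContinuousLinearMap.compL ℝ (E d) (E d) (E d))
  refine ⟨min ε₁ (1 / (2 * C₂)), C₁, by positivity, hC₁, fun m h hh h0 => ?_⟩
  have hh0 : Wv 0 h := hh.mono (Nat.zero_le m)
  obtain ⟨hu, hk, hle⟩ := hN 0 h hh0 (by simpa using h0.trans (min_le_left _ _))
  refine ⟨?_, by simpa using hle⟩
  obtain ⟨C', hC', hT⟩ := hT m
  set k : E d → E d →L[ℝ] E d := fun x => Ring.inverse (1 + h x) - 1 with hkd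
  have hp := hh0.bil hk (ContinuousLinearMap.compL ℝ (E d) (E d) (E d))
  have e : k = fun x => -h x - ContinuousLinearMap.compL ℝ (E d) (E d) (E d) (h x) (k x) := by
    funext x
    have h1 := Ring.mul_inverse_cancel _ (hu x)
    change Ring.inverse (1 + h x) - 1 = -h x - h x * (Ring.inverse (1 + h x) - 1)
    rw [add_mul, one_mul] at h1
    rw [mul_sub, mul_one, eq_sub_iff_add_eq'.2 h1]
    abel
  have hc : C₂ * nv 0 h ≤ 1 / 2 := by
    have := mul_le_mul_of_nonneg_left (h0.trans (min_le_right _ _)) hC₂.le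
    refine this.trans (le_of_eq ?_)
    field_simp
  have hm : Wv m k := by
    refine Wv_of_bdd hk (B := 2 * (nv m h + C' * nv m h * nv 0 k)) fun N => ?_
    have a1 := nwv_sub_Sy7 (wt_Sy7 m N) hh0.neg hp
    rw [← e] at a1
    have a2 := nwv_le_Sy7 hh.neg N
    rw [nv_neg] at a2
    have a3 := hT N h k hh hk
    have a4 := mul_le_mul_of_nonneg_right hc (nwv_nonneg_Wi8 (fun j => (wt_Sy7 m N j).1) k)
    linarith
  simpa only [hkd, sub_add_cancel] using hm.add (Wv_const 1)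

theorem gain_two : ∃ ε₀ : ℝ, 0 < ε₀ ∧ ∀ (m : ℕ) (Pm : E d → E d →L[ℝ] E d) (v : E d → E n),
    Wv m Pm → nv 0 (fun x => Pm x - 1) ≤ ε₀ → Wv 2 v → Wv m (fun x => tr2 (d2 v x) (Pm x)) →
    Wv (m + 2) v := by
  obtain ⟨T, hT⟩ := flip_Sy7 (d := d) (X := E n)
  obtain ⟨C₂, hC₂, hB⟩ := nwv_bil_tame (d := d) (X := E d →L[ℝ] E d)
    (Y := E d →L[ℝ] E d →L[ℝ] E n) (Z := E n) T
  obtain ⟨C₃, hC₃, hD⟩ := nwv_d2_le (d := d) (X := E n)
  refine ⟨1 / (2 * C₂ * C₃), by positivity, fun m Pm v hP h0 hv hG => ?_⟩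
  obtain ⟨C', hC', hB⟩ := hB m
  have hP1 : Wv m fun x => Pm x - 1 := hP.sub (Wv_const 1)
  have hd : Wv 0 (d2 v) := Wv.dif (n := 0) (Wv.dif (n := 1) hv)
  have hp := (hP1.mono (Nat.zero_le m)).bil hd T
  have e : lapv v = fun x => tr2 (d2 v x) (Pm x) - T (Pm x - 1) (d2 v x) := by
    funext x
    rw [lapv, map_sub, sub_apply, hT, hT, sub_sub_cancel]
  have hc : C₂ * nv 0 (fun x => Pm x - 1) * C₃ ≤ 1 / 2 := by
    have := mul_le_mul_of_nonneg_right (mul_le_mul_of_nonneg_left h0 hC₂.le) hC₃.le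
    refine this.trans (le_of_eq ?_)
    field_simp
  refine Wv_of_lap hv (Wv_of_bdd (Wv.lap (n := 0) hv).1
    (B := 2 * (nv m (fun x => tr2 (d2 v x) (Pm x)) +
      C' * nv m (fun x => Pm x - 1) * nv 0 (d2 v))) fun N => ?_)
  have a1 := nwv_sub_Sy7 (wt_Sy7 m N) (hG.mono (Nat.zero_le m)) hp
  rw [← e] at a1
  have a2 := nwv_le_Sy7 hG N
  have a3 := hB N _ _ hP1 hd
  have a4 := mul_le_mul_of_nonneg_right hc (nwv_nonneg_Wi8 (fun j => (wt_Sy7 m N j).1) (lapv v))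
  have a5 := mul_le_mul_of_nonneg_left (hD _ _ v (wt_Sy7 m N) hv)
    (mul_nonneg hC₂.le (nv_nonneg 0 fun x => Pm x - 1))
  linarith

theorem exists_cut_pt {x : E d} (hx : ‖x‖ < 5 / 2) {U : Set (E d)} (hU : U ∈ 𝓝 x) :
    ∃ (χ : E d → ℝ) (r : ℝ), 0 < r ∧ (∀ m, W m χ) ∧ (χ =ᶠ[𝓝 x] fun _ => 1) ∧ closedBall x r ⊆ U ∧
      closedBall x r ⊆ ocube d ∧ ∀ y ∈ ocube d, y ∉ closedBall x r → χ y = 0 := by
  have h1 : ball (0 : E d) (14 / 5) ∈ 𝓝 x :=
    isOpen_ball.mem_nhds (by rw [mem_ball_zero_iff]; linarith)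
  obtain ⟨r, hr, hsub⟩ := nhds_basis_closedBall.mem_iff.1 (inter_mem hU h1)
  have hoc : closedBall x r ⊆ ocube d := fun y hy =>
    ball_subset_ocube (ball_subset_ball (by norm_num) (hsub hy).2)
  let φ : ContDiffBump x := ⟨r / 2, r, by positivity, by linarith⟩
  have hz : ∀ y, y ∉ closedBall x r → φ y = 0 := fun y hy =>
    φ.zero_of_le_dist (le_of_lt (not_le.1 hy))
  obtain ⟨hW, he⟩ := W_per_smooth (φ := φ) φ.contDiff fun y hy => hz y fun h => hy (hsub h).2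
  refine ⟨per φ, r, hr, hW, ?_, fun y hy => (hsub hy).1, hoc, fun y hy hy' => ?_⟩
  · filter_upwards [φ.eventuallyEq_one, isOpen_ocube.mem_nhds (hoc (mem_closedBall_self hr.le))]
      with y h2 h3
    rw [he y h3, h2]
    rfl
  · rw [he y hy, hz y hy']

/-- A function that is small in the weakest norm and has a regular germ at `x` has the germ of a
regular function that is small in the weakest norm. -/
theorem germ_small {X : Type*} [NormedAddCommGroup X] [NormedSpace ℝ X] [FiniteDimensional ℝ X]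
    {m : ℕ} {h g : E d → X} {x : E d} (hx : ‖x‖ < 5 / 2) (hh : Wv 0 h) (hg : Wv m g)
    (he : h =ᶠ[𝓝 x] g) {η : ℝ} (hη : 0 < η) :
    ∃ k : E d → X, Wv m k ∧ nv 0 k ≤ nv 0 h + η ∧ k =ᶠ[𝓝 x] h := by
  obtain ⟨χ, r, -, hχ, h1, hU, -, hz⟩ := exists_cut_pt hx he
  have n0 := nm_nonneg 0 χ
  obtain ⟨t, ht, ht0, ht1⟩ := exists_trunc hh (η := η / (nm 0 χ + 1)) (by positivity)
  have w1 : Wv m fun y => χ y • (g y - t y) := Wv.smul (hχ m) (hg.sub (ht m))
  have w2 : Wv 0 fun y => χ y • (h y - t y) := Wv.smul (hχ 0) (hh.sub (ht 0))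
  have e : (fun y => χ y • (g y - t y)) = fun y => χ y • (h y - t y) := by
    refine w1.ext w2 fun y hy => ?_
    by_cases h2 : y ∈ closedBall x r
    · have h3 : h y = g y := hU h2
      simp only [h3]
    · simp only [hz y hy h2, zero_smul]
  refine ⟨fun y => t y + χ y • (g y - t y), (ht m).add w1, ?_, ?_⟩
  · have a1 := nv_add_le (ht m) w1 (σ := 0) (by positivity)
    have a2 := nv_smul_le (hχ 0) (hh.sub (ht 0)) (σ := 0) (by simp)
    rw [← e, Nat.cast_zero] at a2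
    have a3 := mul_le_mul_of_nonneg_left ht1 n0
    have a4 : nm 0 χ * (η / (nm 0 χ + 1)) ≤ η := by
      rw [← mul_div_assoc, div_le_iff₀ (by positivity)]
      nlinarith
    linarith
  · filter_upwards [h1, he] with y h2 h3
    rw [h2, h3, one_smul, add_sub_cancel]

end Pool.Agent.Lib.MP_8daebb_an.GM.Ch
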