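import Pool.Agent.Lib.MP_8daebb_an.GM.TDefs

/-! Linear algebra of area elements. -/

set_option linter.unusedSectionVars false

open MeasureTheory Metric Filter Topology Set
open scoped RealInnerProductSpace ENNReal

namespace Pool.Agent.Lib.MP_8daebb_an.GM

open SV (areaElt)

variable {H : Type*} [NormedAddCommGroup H] [InnerProductSpace ℝ H] [FiniteDimensional ℝ H]
  [MeasurableSpace H] [BorelSpace H] {m : ℕ}

lemma det_adjoint (A : E m →ₗ[ℝ] E m) :
    LinearMap.det (LinearMap.adjoint A) = LinearMap.det A := by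
  have b := EuclideanSpace.basisFun (Fin m) ℝ
  rw [← LinearMap.det_toMatrix b.toBasis, ← LinearMap.det_toMatrix b.toBasis A,
    LinearMap.toMatrix_adjoint, Matrix.det_conjTranspose, star_trivial]

lemma gram_eq (A : E m →ₗ[ℝ] E m) :
    Matrix.det (Matrix.of fun i k : Fin m =>
      ⟪A (EuclideanSpace.single i 1), A (EuclideanSpace.single k 1)⟫) = LinearMap.det A ^ 2 := by
  have h : (Matrix.of fun i k : Fin m =>
      ⟪A (EuclideanSpace.single i 1), A (EuclideanSpace.single k 1)⟫) =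
      LinearMap.toMatrix (EuclideanSpace.basisFun (Fin m) ℝ).toBasis
        (EuclideanSpace.basisFun (Fin m) ℝ).toBasis (LinearMap.adjoint A ∘ₗ A) := by
    ext i k
    rw [LinearMap.toMatrix_apply, OrthonormalBasis.coe_toBasis_repr_apply,
      OrthonormalBasis.repr_apply_apply, LinearMap.comp_apply, LinearMap.adjoint_inner_right]
    simp
  rw [h, LinearMap.det_toMatrix, LinearMap.det_comp, det_adjoint, sq]

lemma areaElt_eq {M : E m →L[ℝ] H} (ι : E m →ₗᵢ[ℝ] H) (B : E m →ₗ[ℝ] E m)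
    (h : ∀ x, M x = ι (B x)) : areaElt M = |LinearMap.det B| := by
  rw [areaElt, ← Real.sqrt_sq_eq_abs, ← gram_eq]
  simp only [h, ι.inner_map_map]

theorem injective_of_plane {M : E m →L[ℝ] H} {P : H →L[ℝ] H} (hP : IsPlane m P)
    (hr : range P = range M) : Function.Injective M := by
  have h1 : LinearMap.range (P : H →ₗ[ℝ] H) = LinearMap.range (M : E m →ₗ[ℝ] H) :=
    SetLike.ext' hr
  have h2 := LinearMap.finrank_range_add_finrank_ker (M : E m →ₗ[ℝ] H)
  rw [← h1, hP.2.2, finrank_euclideanSpace_fin] at h2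
  have h3 : LinearMap.ker (M : E m →ₗ[ℝ] H) = ⊥ := Submodule.finrank_eq_zero.1 (by omega)
  exact LinearMap.ker_eq_bot.1 h3

/-- an injective map is an isometry composed with an automorphism -/
theorem exists_factor {M : E m →L[ℝ] H} (hM : Function.Injective M) :
    ∃ (ι : E m →ₗᵢ[ℝ] H) (B : E m ≃L[ℝ] E m), (∀ x, M x = ι (B x)) ∧
      |(B : E m →L[ℝ] E m).det| = areaElt M := by
  let K := LinearMap.range (M : E m →ₗ[ℝ] H)
  let φ : E m ≃ₗ[ℝ] K := LinearEquiv.ofInjective (M : E m →ₗ[ℝ] H) hM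
  have hK : Module.finrank ℝ K = m := by
    rw [← φ.finrank_eq, finrank_euclideanSpace_fin]
  let e : E m ≃ₗᵢ[ℝ] K := (EuclideanSpace.basisFun (Fin m) ℝ).equiv (stdOrthonormalBasis ℝ K)
    (finCongr hK.symm)
  let B : E m ≃ₗ[ℝ] E m := φ.trans e.symm.toLinearEquiv
  have h : ∀ x, M x = (K.subtypeₗᵢ.comp e.toLinearIsometry) (B x) := by
    intro x
    show M x = (e (e.symm (φ x)) : H)
    rw [e.apply_symm_apply]
    rfl
  exact ⟨_, B.toContinuousLinearEquiv, h, (areaElt_eq _ (B : E m →ₗ[ℝ] E m) h).symm⟩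

theorem plane_eq {ι : E m →ₗᵢ[ℝ] H} {P : H →L[ℝ] H} (hP : IsPlane m P) (hr : range P = range ι) :
    P = ι.toContinuousLinearMap.comp (pr ι) := by
  ext x
  obtain ⟨p, hp⟩ : P x ∈ range ι := hr ▸ mem_range_self x
  have h : pr ι x = p := ext_inner_right ℝ fun q => by
    obtain ⟨z, hz⟩ : ι q ∈ range P := hr ▸ mem_range_self q
    rw [inner_pr, ← ι.inner_map_map, hp, ← hz, hP.1, hP.2.1]
  show P x = ι (pr ι x)
  rw [h, hp]

theorem areaElt_pos {M : E m →L[ℝ] H} (hM : Function.Injective M) : 0 < areaElt M := by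
  obtain ⟨ι, B, -, h⟩ := exists_factor hM
  rw [← h, abs_pos]
  exact (LinearEquiv.isUnit_det' B.toLinearEquiv).ne_zero

theorem continuous_areaElt : Continuous fun L : E m →L[ℝ] H => areaElt L := by
  unfold areaElt
  refine Continuous.sqrt (Continuous.matrix_det (continuous_matrix fun i k => ?_))
  simp only [Matrix.of_apply]
  fun_prop

theorem areaElt_smul {c : ℝ} (hc : 0 ≤ c) (M : E m →L[ℝ] H) :
    areaElt (c • M) = c ^ m * areaElt M := by
  have h : (Matrix.of fun i k : Fin m =>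
      ⟪(c • M) (EuclideanSpace.single i 1), (c • M) (EuclideanSpace.single k 1)⟫) =
      (c ^ 2) • Matrix.of fun i k : Fin m =>
        ⟪M (EuclideanSpace.single i 1), M (EuclideanSpace.single k 1)⟫ := by
    ext i k
    simp only [Matrix.of_apply, Matrix.smul_apply, smul_apply, real_inner_smul_left,
      real_inner_smul_right, smul_eq_mul]
    ring
  rw [areaElt, h, Matrix.det_smul, Fintype.card_fin, ← pow_mul, mul_comm 2 m, pow_mul,
    Real.sqrt_mul (sq_nonneg _), Real.sqrt_sq (by positivity), areaElt]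

theorem continuous_jac : Continuous fun x : (H →L[ℝ] E m) × (H →L[ℝ] H) => jac x.1 x.2 := by
  have := FiniteDimensional.complete ℝ H
  have hc : Continuous fun A : H →L[ℝ] E m => ContinuousLinearMap.adjoint A :=
    (ContinuousLinearMap.adjoint : (H →L[ℝ] E m) ≃ₗᵢ⋆[ℝ] (E m →L[ℝ] H)).continuous
  have h : ∀ x : (H →L[ℝ] E m) × (H →L[ℝ] H), jac x.1 x.2 =
      √((x.1.comp (x.2.comp (ContinuousLinearMap.adjoint x.1))).det) := fun x => by
    rw [jac, ContinuousLinearMap.det, ContinuousLinearMap.adjoint_toLinearMap]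
    rfl
  simp only [h]
  exact (ContinuousLinearMap.continuous_det.comp (continuous_fst.clm_comp
    (continuous_snd.clm_comp (hc.comp continuous_fst)))).sqrt

/-- the chain rule for area elements -/
theorem abs_det_comp {M : E m →L[ℝ] H} {P : H →L[ℝ] H} (hP : IsPlane m P)
    (hr : range P = range M) (L : H →L[ℝ] E m) : |(L.comp M).det| = jac L P * areaElt M := by
  obtain ⟨ι, B, h1, h2⟩ := exists_factor (injective_of_plane hP hr)
  have h3 : range P = range ι := by
    rw [hr, show (M : E m → H) = ι ∘ B from funext h1, B.surjective.range_comp]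
  have h4 : (L : H →ₗ[ℝ] E m) ∘ₗ (P : H →ₗ[ℝ] H) ∘ₗ LinearMap.adjoint (L : H →ₗ[ℝ] E m) =
      ((L : H →ₗ[ℝ] E m) ∘ₗ ι.toLinearMap) ∘ₗ
        LinearMap.adjoint ((L : H →ₗ[ℝ] E m) ∘ₗ ι.toLinearMap) := by
    rw [LinearMap.adjoint_comp, plane_eq hP h3]
    rfl
  have h5 : ((L.comp M : E m →L[ℝ] E m) : E m →ₗ[ℝ] E m) =
      ((L : H →ₗ[ℝ] E m) ∘ₗ ι.toLinearMap) ∘ₗ ((B : E m →L[ℝ] E m) : E m →ₗ[ℝ] E m) :=
    LinearMap.ext fun x => congrArg L (h1 x)
  rw [jac, h4, LinearMap.det_comp, det_adjoint, Real.sqrt_mul_self_eq_abs, ← h2,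
    ContinuousLinearMap.det, h5, LinearMap.det_comp, abs_mul]

end Pool.Agent.Lib.MP_8daebb_an.GM
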