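import Pool.Agent.Lib.MP_8daebb_an.GM.TDefs
import Pool.Agent.Lib.MP_8daebb_an.Trace

/-! Elementary properties of the blow-up. -/

set_option linter.unusedSectionVars false

open MeasureTheory Metric Filter Topology Set
open scoped RealInnerProductSpace ENNReal

namespace Pool.Agent.Lib.MP_8daebb_an.GM

open SV (areaElt IsIntegral)

variable {H : Type*} [NormedAddCommGroup H] [InnerProductSpace ℝ H] [FiniteDimensional ℝ H]
  [MeasurableSpace H] [BorelSpace H] {m : ℕ}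

variable {U : Set H} {V : Measure (H × (H →L[ℝ] H))} {x₀ : H} {r : ℝ}

/-- the scaling map of the space -/
noncomputable def sc_tblow (x₀ : H) {r : ℝ} (hr : 0 < r) : H ≃ₜ H where
  toFun y := r⁻¹ • (y - x₀)
  invFun z := x₀ + r • z
  left_inv y := by
    simp only
    rw [smul_smul, mul_inv_cancel₀ hr.ne', one_smul, add_sub_cancel]
  right_inv z := by
    simp only
    rw [add_sub_cancel_left, smul_smul, inv_mul_cancel₀ hr.ne', one_smul]
  continuous_toFun := by fun_prop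
  continuous_invFun := by fun_prop

/-- the scaling map on pairs -/
noncomputable def eq_tblow (x₀ : H) {r : ℝ} (hr : 0 < r) :
    (H × (H →L[ℝ] H)) ≃ᵐ (H × (H →L[ℝ] H)) :=
  (sc_tblow x₀ hr).toMeasurableEquiv.prodCongr (MeasurableEquiv.refl _)

theorem blow_eq_tblow (hr : 0 < r) : blow m V x₀ r = ENNReal.ofReal (r⁻¹ ^ m) •
    (V.restrict (Prod.fst ⁻¹' ball x₀ (4 * r))).map (eq_tblow x₀ hr) := rfl

theorem meas_tblow (x₀ : H) (s : ℝ) :
    MeasurableSet (Prod.fst ⁻¹' ball x₀ s : Set (H × (H →L[ℝ] H))) :=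
  measurable_fst measurableSet_ball

theorem blow_apply_tblow (hr : 0 < r) (A : Set (H × (H →L[ℝ] H))) :
    blow m V x₀ r A = ENNReal.ofReal (r⁻¹ ^ m) *
      V ({w | (r⁻¹ • (w.1 - x₀), w.2) ∈ A} ∩ Prod.fst ⁻¹' ball x₀ (4 * r)) := by
  rw [blow_eq_tblow hr, Measure.smul_apply, MeasurableEquiv.map_apply,
    Measure.restrict_apply' (meas_tblow x₀ _), smul_eq_mul]
  rfl

theorem mem_ball_tblow (hr : 0 < r) (y p : H) (σ : ℝ) :
    r⁻¹ • (y - x₀) ∈ ball p σ ↔ y ∈ ball (x₀ + r • p) (r * σ) := by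
  have h1 : r⁻¹ • (y - x₀) - p = r⁻¹ • (y - (x₀ + r • p)) := by
    rw [← sub_sub, smul_sub r⁻¹ (y - x₀), smul_smul, inv_mul_cancel₀ hr.ne', one_smul]
  rw [mem_ball, mem_ball, dist_eq_norm, dist_eq_norm, h1, norm_smul, Real.norm_eq_abs,
    abs_of_pos (inv_pos.2 hr), inv_mul_lt_iff₀ hr]

theorem mem_ball_zero_tblow (hr : 0 < r) (y : H) (σ : ℝ) :
    r⁻¹ • (y - x₀) ∈ ball (0 : H) σ ↔ y ∈ ball x₀ (r * σ) := by
  rw [mem_ball_tblow hr, smul_zero, add_zero]

theorem tanDiv_tblow (hr : 0 < r) {X : H → H} (hX : ContDiff ℝ 1 X) (w : H × (H →L[ℝ] H)) :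
    tanDiv (X ∘ sc_tblow x₀ hr) w = r⁻¹ * tanDiv X (r⁻¹ • (w.1 - x₀), w.2) := by
  have h1 : HasFDerivAt (fun y : H => r⁻¹ • (y - x₀)) (r⁻¹ • ContinuousLinearMap.id ℝ H) w.1 :=
    ((hasFDerivAt_id w.1).sub_const x₀).const_smul r⁻¹
  have h2 : HasFDerivAt X (fderiv ℝ X (r⁻¹ • (w.1 - x₀))) (r⁻¹ • (w.1 - x₀)) :=
    (hX.differentiable one_ne_zero _).hasFDerivAt
  have h3 : fderiv ℝ (X ∘ sc_tblow x₀ hr) w.1 = r⁻¹ • fderiv ℝ X (r⁻¹ • (w.1 - x₀)) := by
    have h4 := (h2.comp w.1 h1).fderiv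
    rw [ContinuousLinearMap.comp_smul, ContinuousLinearMap.comp_id] at h4
    exact h4
  unfold tanDiv
  rw [h3, ContinuousLinearMap.comp_smul, ContinuousLinearMap.toLinearMap_smul, map_smul, smul_eq_mul]

theorem blow_apply_le (hr : 0 < r) (A : Set (H × (H →L[ℝ] H))) :
    blow m V x₀ r A ≤ ENNReal.ofReal (r⁻¹ ^ m) * V {w | (r⁻¹ • (w.1 - x₀), w.2) ∈ A} := by
  rw [blow_apply_tblow hr]
  exact mul_le_mul_right (measure_mono inter_subset_left) _

theorem blow_fst_ball (hr : 0 < r) (p : H) (σ : ℝ) :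
    (blow m V x₀ r).fst (ball p σ) =
      ENNReal.ofReal (r⁻¹ ^ m) * V.fst (ball (x₀ + r • p) (r * σ) ∩ ball x₀ (4 * r)) := by
  rw [Measure.fst_apply measurableSet_ball,
    Measure.fst_apply (measurableSet_ball.inter measurableSet_ball), blow_apply_tblow hr]
  congr 2
  ext w
  simp only [mem_inter_iff, mem_ofPred_eq, mem_preimage, mem_ball_tblow hr]

theorem ae_blow (hr : 0 < r) {p : H × (H →L[ℝ] H) → Prop}
    (h : ∀ᵐ w ∂V, w.1 ∈ ball x₀ (4 * r) → p (r⁻¹ • (w.1 - x₀), w.2)) : ∀ᵐ z ∂blow m V x₀ r, p z := by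
  rw [ae_iff] at h ⊢
  rw [blow_apply_tblow hr]
  refine mul_eq_zero_of_right _ (measure_mono_null (fun w hw => ?_) h)
  exact fun hp => hw.1 (hp hw.2)

theorem blow_fin (hV : IsStationaryVarifold m U V) (hr : 0 < r) (hU : closedBall x₀ (4 * r) ⊆ U) :
    IsFiniteMeasure (blow m V x₀ r) := by
  refine ⟨?_⟩
  rw [blow_apply_tblow hr]
  refine ENNReal.mul_lt_top ENNReal.ofReal_lt_top ?_
  have h1 := hV.radon _ (isCompact_closedBall x₀ (4 * r)) hU
  rw [Measure.fst_apply measurableSet_closedBall] at h1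
  exact lt_of_le_of_lt
    (measure_mono (inter_subset_right.trans (preimage_mono ball_subset_closedBall))) h1

theorem blow_car (hV : IsStationaryVarifold m U V) (hr : 0 < r) :
    ∀ᵐ z ∂blow m V x₀ r, ‖z.1‖ < 4 ∧ IsPlane m z.2 := by
  refine ae_blow hr ?_
  filter_upwards [hV.carried] with w hw hb
  refine ⟨?_, hw.2⟩
  rw [mul_comm] at hb
  exact mem_ball_zero_iff.1 ((mem_ball_zero_tblow hr _ _).2 hb)

theorem blow_stat (hV : IsStationaryVarifold m U V) (hr : 0 < r) (hU : closedBall x₀ (4 * r) ⊆ U)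
    (X : H → H) (hX : ContDiff ℝ 1 X) (hc : HasCompactSupport X) (hs : tsupport X ⊆ ball 0 4) :
    ∫ z, tanDiv X z ∂blow m V x₀ r = 0 := by
  have hX' : ContDiff ℝ 1 (X ∘ sc_tblow x₀ hr) :=
    hX.comp ((contDiff_id.sub contDiff_const).const_smul r⁻¹)
  have hs' : tsupport (X ∘ sc_tblow x₀ hr) ⊆ ball x₀ (4 * r) := by
    intro y hy
    have h1 : sc_tblow x₀ hr y ∈ tsupport X :=
      tsupport_comp_subset_preimage X (sc_tblow x₀ hr).continuous hy
    rw [mul_comm]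
    exact (mem_ball_zero_tblow hr _ _).1 (hs h1)
  have h0 := hV.stationary _ hX' (hc.comp_homeomorph _)
    (hs'.trans (ball_subset_closedBall.trans hU))
  simp only [tanDiv_tblow hr hX] at h0
  rw [integral_const_mul] at h0
  have h1 := (mul_eq_zero.1 h0).resolve_left (inv_pos.2 hr).ne'
  rw [blow_eq_tblow hr, integral_smul_measure, integral_map_equiv]
  change _ • ∫ w in Prod.fst ⁻¹' ball x₀ (4 * r), tanDiv X (r⁻¹ • (w.1 - x₀), w.2) ∂V = 0
  rw [setIntegral_eq_integral_of_forall_compl_eq_zero, h1, smul_zero]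
  intro w hw
  have h2 : r⁻¹ • (w.1 - x₀) ∉ tsupport X := fun h => hw (by
    rw [mem_preimage, mul_comm]
    exact (mem_ball_zero_tblow hr _ _).1 (hs h))
  unfold tanDiv
  simp only
  rw [fderiv_of_notMem_tsupport ℝ h2, ContinuousLinearMap.comp_zero,
    ContinuousLinearMap.toLinearMap_zero, map_zero]

theorem mem_support_blow (hr : 0 < r) {y : H} (hy : ‖y‖ < 4) :
    y ∈ (blow m V x₀ r).fst.support ↔ x₀ + r • y ∈ V.fst.support := by
  rw [Measure.mem_support_iff_forall, Measure.mem_support_iff_forall]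
  constructor
  · intro h W hW
    obtain ⟨ε, hε, hb⟩ := Metric.mem_nhds_iff.1 hW
    have h1 := h _ (ball_mem_nhds y (div_pos hε hr))
    rw [blow_fst_ball hr, mul_div_cancel₀ _ hr.ne'] at h1
    exact lt_of_lt_of_le (ENNReal.mul_pos_iff.1 h1).2 (measure_mono (inter_subset_left.trans hb))
  · intro h W hW
    obtain ⟨ε, hε, hb⟩ := Metric.mem_nhds_iff.1 hW
    refine lt_of_lt_of_le ?_ (measure_mono hb)
    rw [blow_fst_ball hr]
    refine ENNReal.mul_pos_iff.2 ⟨ENNReal.ofReal_pos.2 (by positivity), h _ ?_⟩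
    refine inter_mem (ball_mem_nhds _ (mul_pos hr hε)) (isOpen_ball.mem_nhds ?_)
    rw [mem_ball, dist_eq_norm, add_sub_cancel_left, norm_smul, Real.norm_eq_abs, abs_of_pos hr,
      mul_comm]
    exact mul_lt_mul_of_pos_right hy hr

/-- the graph property passes from the blow-up to the varifold -/
theorem smoothGraphNear_of_blow (hr : 0 < r) {ι : E m →ₗᵢ[ℝ] H}
    (h : GraphAt0 (blow m V x₀ r).fst.support ι) : SmoothGraphNear V.fst.support x₀ ι := by
  obtain ⟨ρ, hρ, f, hf, hperp, hS⟩ := h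
  refine ⟨r * min ρ 4, mul_pos hr (lt_min hρ (by norm_num)),
    fun p => r • f (r⁻¹ • p), ?_, fun p q => ?_, ?_⟩
  · exact (hf.comp (contDiff_id.const_smul r⁻¹)).const_smul r
  · rw [real_inner_smul_left, hperp, mul_zero]
  · ext x
    refine and_congr_left fun hx => ?_
    have hy := mem_ball_zero_iff.1 ((mem_ball_zero_tblow hr x _).2 hx)
    have hxy : x₀ + r • (r⁻¹ • (x - x₀)) = x := (sc_tblow x₀ hr).left_inv x
    have h1 := mem_support_blow (m := m) (V := V) (x₀ := x₀) hr (hy.trans_le (min_le_right _ _))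
    rw [hxy] at h1
    have h2 : r⁻¹ • (x - x₀) ∈ ball (0 : H) ρ := mem_ball_zero_iff.2 (hy.trans_le (min_le_left _ _))
    have h3 := Set.ext_iff.1 hS (r⁻¹ • (x - x₀))
    simp only [mem_inter_iff, h2, and_true] at h3
    rw [← h1, h3]
    constructor
    · rintro ⟨p, hp⟩
      refine ⟨r • p, ?_⟩
      simp only at hp ⊢
      rw [smul_smul, inv_mul_cancel₀ hr.ne', one_smul,
        map_smul, add_assoc, ← smul_add, hp, hxy]
    · rintro ⟨q, hq⟩
      refine ⟨r⁻¹ • q, ?_⟩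
      simp only at hq ⊢
      rw [← hq, map_smul, add_assoc, add_sub_cancel_left, smul_add, smul_smul,
        inv_mul_cancel₀ hr.ne', one_smul]

end Pool.Agent.Lib.MP_8daebb_an.GM
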