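import Pool.Agent.Lib.MP_8daebb_an.GM.EV
import Pool.Agent.Lib.MP_8daebb_an.Fiber

/-! Definitions for the passage from the hypotheses of the question to the package EV. -/

set_option linter.unusedSectionVars false

open MeasureTheory Metric Filter Topology Set
open scoped RealInnerProductSpace ENNReal

namespace Pool.Agent.Lib.MP_8daebb_an.GM

variable {H : Type*} [NormedAddCommGroup H] [InnerProductSpace ℝ H] [FiniteDimensional ℝ H]
  [MeasurableSpace H] [BorelSpace H]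

/-- integral varifold, in integrated form -/
def IsIntC (m : ℕ) (V : Measure (H × (H →L[ℝ] H))) : Prop :=
  ∃ (f : ℕ → E m → H) (A : ℕ → Set (E m)) (P : ℕ → E m → H →L[ℝ] H),
    (∀ k, ContDiff ℝ 1 (f k)) ∧ (∀ k, MeasurableSet (A k)) ∧ (∀ k, Measurable (P k)) ∧
    (∀ k, ∀ a ∈ A k, IsPlane m (P k a) ∧ range (P k a) = range (fderiv ℝ (f k) a)) ∧
    ∀ φ : H × (H →L[ℝ] H) → ℝ≥0∞, Measurable φ →
      ∫⁻ w, φ w ∂V = ∑' k, ∫⁻ a in A k, φ (f k a, P k a) *
        ENNReal.ofReal (SV.areaElt (fderiv ℝ (f k) a))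

/-- the lower density at `p` is at least one -/
def LD1 (m : ℕ) (V : Measure (H × (H →L[ℝ] H))) (p : H) : Prop :=
  ∀ δ > 0, ∀ᶠ s in 𝓝[>] (0 : ℝ), ENNReal.ofReal ((1 - δ) * omega m * s ^ m) ≤ V.fst (ball p s)

/-- the blow-up at `x₀` with scale `r` of the part of `V` in the ball of radius `4 r` -/
noncomputable def blow (m : ℕ) (V : Measure (H × (H →L[ℝ] H))) (x₀ : H) (r : ℝ) :
    Measure (H × (H →L[ℝ] H)) :=
  ENNReal.ofReal (r⁻¹ ^ m) •
    (V.restrict (Prod.fst ⁻¹' ball x₀ (4 * r))).map fun w => (r⁻¹ • (w.1 - x₀), w.2)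

end Pool.Agent.Lib.MP_8daebb_an.GM
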