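import Pool.Agent.Lib.MP_8daebb_an.GM.BC

/-! The mass ratio is close to an integer. -/

set_option linter.unusedSectionVars false
set_option linter.unusedVariables false

open MeasureTheory Metric Filter Topology Set
open scoped RealInnerProductSpace ENNReal ContDiff

namespace Pool.Agent.Lib.MP_8daebb_an.GM

open LG (vb chi om trS Sym)

variable {α : Type*} [MeasurableSpace α] {m : ℕ} {H : Type*} [NormedAddCommGroup H]
  [InnerProductSpace ℝ H] [FiniteDimensional ℝ H] [MeasurableSpace H] [BorelSpace H]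

theorem small_trap (m : ℕ) {ε : ℝ} (hε : 0 < ε) :
    ∃ κ : ℝ, 0 < κ ∧ κ ≤ ε ∧ (1 + κ) ^ m ≤ 1 + ε := by
  have hc : Continuous fun x : ℝ => (1 + x) ^ m := by fun_prop
  have h1 : ∀ᶠ x in 𝓝 (0 : ℝ), (1 + x) ^ m < 1 + ε :=
    hc.continuousAt.eventually_lt continuousAt_const (by simpa using hε)
  have h2 : ∀ᶠ x in 𝓝[>] (0 : ℝ), (1 + x) ^ m < 1 + ε := h1.filter_mono nhdsWithin_le_nhds
  obtain ⟨x, hx1, hx2⟩ := (h2.and (Ioo_mem_nhdsGT hε)).exists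
  exact ⟨x, hx2.1, hx2.2.le, hx1.le⟩

/-- The integral of a multiplicity bounded by `n` off a set `B`. -/
theorem int_le_trap {N : E m → ℕ} (hN : Integrable fun v => (N v : ℝ)) {B : Set (E m)}
    (hB : MeasurableSet B) (hI : IntegrableOn (fun v => (N v : ℝ) + 1) B) (u : E m) {σ : ℝ}
    (hσ : 0 < σ) (n : ℕ) (h : ∀ᵐ v, v ∈ ball u σ → v ∉ B → (N v : ℝ) ≤ n) :
    ∫ v in ball u σ, (N v : ℝ) ≤ n * (vb m * σ ^ m) + ∫ v in B, ((N v : ℝ) + 1) := by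
  have : IsFiniteMeasure (volume.restrict (ball u σ)) :=
    isFiniteMeasure_restrict.2 measure_ball_lt_top.ne
  have hi : Integrable (B.indicator fun v => (N v : ℝ) + 1) := (integrable_indicator_iff hB).2 hI
  have h0 : ∀ v, 0 ≤ B.indicator (fun v => (N v : ℝ) + 1) v := fun v =>
    indicator_nonneg (fun v _ => by positivity) v
  calc ∫ v in ball u σ, (N v : ℝ)
      ≤ ∫ v in ball u σ, ((n : ℝ) + B.indicator (fun v => (N v : ℝ) + 1) v) := by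
        refine integral_mono_ae hN.integrableOn ((integrable_const _).add hi.integrableOn) ?_
        rw [EventuallyLE, ae_restrict_iff' measurableSet_ball]
        filter_upwards [h] with v hv hvb
        by_cases hb : v ∈ B
        · rw [indicator_of_mem hb]
          have : (0 : ℝ) ≤ n := Nat.cast_nonneg n
          linarith
        · rw [indicator_of_notMem hb, add_zero]
          exact hv hvb hb
    _ = n * (vb m * σ ^ m) + ∫ v in ball u σ, B.indicator (fun v => (N v : ℝ) + 1) v := by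
        rw [integral_add (integrable_const _) hi.integrableOn, setIntegral_const,
          LG.vol_ball u hσ, smul_eq_mul, mul_comm]
    _ ≤ n * (vb m * σ ^ m) + ∫ v in B, ((N v : ℝ) + 1) := by
        rw [← integral_indicator hB]
        exact add_le_add le_rfl (setIntegral_le_integral hi (Eventually.of_forall h0))

/-- Comparison of the ratios of two cylinders near `u` at the scale `σ`. -/
theorem move_trap (m : ℕ) {κ : ℝ} (hκ : 0 < κ) (hκ1 : κ ≤ 1 / 2) : ∃ C : ℝ, 0 < C ∧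
    ∀ (D : CD m α H) (c : E m) (R δ M : ℝ), CV D c R δ M → δ ≤ 1 →
    ∀ (u u₁ u₂ : E m) (σ r₁ r₂ A lam : ℝ), 0 < σ → ‖u₁ - u‖ ≤ σ → ‖u₂ - u‖ ≤ σ → σ / 2 ≤ r₁ →
    r₁ ≤ 2 * σ → σ / 2 ≤ r₂ → r₂ ≤ 2 * σ → ‖u - c‖ + 8 * σ ≤ R → D.T u (8 * σ) ≤ lam * σ ^ m →
    0 ≤ A → D.Ms u (8 * σ) ≤ A * σ ^ m →
    D.Ms u₁ r₁ / r₁ ^ m ≤ (1 + κ) ^ m * (D.Ms u₂ r₂ / r₂ ^ m) + C * (lam + δ * A) := by
  obtain ⟨C, hC, hmv⟩ :=
    sc_move (α := α) (H := H) m (κ := κ) (L := 8) hκ (by linarith) (by norm_num)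
  refine ⟨C, hC, fun D c R δ M h hδ u u₁ u₂ σ r₁ r₂ A lam hσ h1 h2 h3 h4 h5 h6 hR hT hA hm => ?_⟩
  have hk : 0 < 1 + κ := by linarith
  have hr2 : 0 < r₂ := by linarith
  have h7 : 2 * σ ≤ 8 * (r₂ / (1 + κ)) := by
    rw [← mul_div_assoc, le_div_iff₀ hk]; nlinarith
  have h8 : r₂ / (1 + κ) ≤ 2 * σ := by
    rw [div_le_iff₀ hk]; nlinarith
  have hp : σ ^ m ≤ (2 * σ) ^ m := pow_le_pow_left₀ hσ.le (by linarith) m
  have hmono := h.cyl_mono (u := u) (v := u) (r := 3 * (2 * σ)) (s := 8 * σ)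
    (by rw [sub_self, norm_zero]; linarith)
  have h9 : D.Ms u (3 * (2 * σ)) ≤ A * (2 * σ) ^ m :=
    (hmono.1.trans hm).trans (mul_le_mul_of_nonneg_left hp hA)
  have hh := hmv D c R δ M h hδ u u₁ u₂ (2 * σ) r₁ (r₂ / (1 + κ)) A (by linarith) (by linarith)
    (by linarith) (by linarith) h4 h7 h8 (by linarith) h9
  have e1 : (1 + κ) * (r₂ / (1 + κ)) = r₂ := by field_simp
  have e2 : D.Ms u₂ r₂ / (r₂ / (1 + κ)) ^ m = (1 + κ) ^ m * (D.Ms u₂ r₂ / r₂ ^ m) := by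
    rw [div_pow]; field_simp
  rw [e1, e2] at hh
  have hT1 : D.T u (3 * (2 * σ)) ≤ D.T u (8 * σ) := hmono.2.1
  have hT0 := (h.nonneg u (3 * (2 * σ))).2.1
  have hσ2 : 0 < σ ^ m := by positivity
  have hlam : 0 ≤ lam := by
    by_contra hn
    push Not at hn
    have := mul_neg_of_neg_of_pos hn hσ2
    linarith
  have hT2 : D.T u (3 * (2 * σ)) / (2 * σ) ^ m ≤ lam := by
    rw [div_le_iff₀ (by positivity)]
    exact (hT1.trans hT).trans (mul_le_mul_of_nonneg_left hp hlam)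
  have h11 : C * (D.T u (3 * (2 * σ)) / (2 * σ) ^ m + δ * A) ≤ C * (lam + δ * A) :=
    mul_le_mul_of_nonneg_left (by linarith) hC.le
  linarith

theorem ar1_trap {κ ε P k A θ e X Y : ℝ} (hκ : 0 < κ) (hκε : κ ≤ ε) (hε : ε ≤ 1 / 2)
    (hP0 : 0 ≤ P) (hP : P ≤ 1 + ε) (hA : 1 ≤ A)
    (hk : 32 * ε * A ≤ k) (hθ0 : 0 ≤ θ) (hθ : θ ≤ A) (he0 : 0 ≤ e) (he : 8 * e ≤ k)
    (h1 : X ≤ (1 + κ) * (P * Y) + κ) (h2 : Y ≤ P * θ + e) :
    X ≤ θ + 2 * k := by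
  have hε0 : 0 < ε := by linarith
  have hp : 0 ≤ (1 + κ) * P := by positivity
  have h3 : (1 + κ) * P * Y ≤ (1 + κ) * P * (P * θ + e) := mul_le_mul_of_nonneg_left h2 hp
  have h4 : (1 + κ) * P ≤ (1 + ε) * (1 + ε) := mul_le_mul (by linarith) hP hP0 (by linarith)
  have h5 : (1 + κ) * P ≤ 1 + 3 * ε := by nlinarith
  have h6 : (1 + κ) * P * P ≤ 1 + 7 * ε := by
    have : (1 + κ) * P * P ≤ (1 + 3 * ε) * (1 + ε) := mul_le_mul h5 hP hP0 (by linarith)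
    nlinarith
  have h7 : (1 + κ) * P * P * θ ≤ (1 + 7 * ε) * θ := mul_le_mul_of_nonneg_right h6 hθ0
  have h8 : (1 + κ) * P * e ≤ 8 * e := mul_le_mul_of_nonneg_right (by linarith) he0
  have h9 : ε * θ ≤ ε * A := mul_le_mul_of_nonneg_left hθ hε0.le
  have h10 : ε ≤ ε * A := by nlinarith
  nlinarith

theorem ar2_trap {ε P k A θ : ℝ} (hε : 0 < ε) (hP : P ≤ 1 + ε) (hA : 0 ≤ A)
    (hk : 32 * ε * A ≤ k) (hθ0 : 0 ≤ θ) (hθ : θ ≤ A) : P * θ ≤ θ + k := by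
  have h6 : P * θ ≤ (1 + ε) * θ := mul_le_mul_of_nonneg_right hP hθ0
  have h7 : ε * θ ≤ ε * A := mul_le_mul_of_nonneg_left hθ hε.le
  have h8 : 0 ≤ ε * A := by positivity
  linarith

theorem ar3_trap {I μ T J θ k l δ A s p : ℝ} (hs : 0 ≤ s) (hδ : 0 ≤ δ) (hk : k ≤ 1 / 10)
    (hp : 0 ≤ p) (hA : 1 ≤ A) (hθ : θ ≤ A) (hδA : 8 * (δ * A) ≤ k) (hl : p * l ≤ k)
    (h3 : μ ≤ (θ + 2 * k) * s) (h4 : -(p * T + δ * J) ≤ μ - I) (h5 : T ≤ l * s)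
    (h6 : J ≤ 4 * μ) : I ≤ (θ + 4 * k) * s := by
  have h6 : δ * J ≤ δ * (4 * ((θ + 2 * k) * s)) :=
    mul_le_mul_of_nonneg_left (h6.trans (by linarith)) hδ
  have h7 : 4 * (δ * (θ + 2 * k)) ≤ k := by
    have : δ * (θ + 2 * k) ≤ δ * (2 * A) := mul_le_mul_of_nonneg_left (by linarith) hδ
    linarith
  have h8 : 4 * (δ * (θ + 2 * k)) * s ≤ k * s := mul_le_mul_of_nonneg_right h7 hs
  have h9 : p * l * s ≤ k * s := mul_le_mul_of_nonneg_right hl hs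
  have h10 : p * T ≤ p * (l * s) := mul_le_mul_of_nonneg_left h5 hp
  linarith

theorem ar4_trap {I μ T T8 J n k lam δ A s W Z Cq p q b : ℝ} (hs : 0 ≤ s) (hδ : 0 ≤ δ)
    (hC : 0 ≤ Cq) (hp : 0 ≤ p) (hq : 0 ≤ q)
    (hδA : 4 * (δ * A) ≤ k) (hl : p * lam ≤ k) (hC2 : Cq * (q * lam) ≤ k)
    (h1 : I ≤ n * (b * s) + W) (h2 : μ - I ≤ p * T + δ * J) (h3 : T ≤ T8)
    (h4 : T8 ≤ lam * s) (h5 : J ≤ 4 * (A * s)) (h6 : W ≤ Cq * Z) (h7 : Z ≤ q * T8) :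
    μ ≤ (n * b + 3 * k) * s := by
  have a4 : δ * J ≤ δ * (4 * (A * s)) := mul_le_mul_of_nonneg_left h5 hδ
  have a3 : q * T8 ≤ q * (lam * s) := mul_le_mul_of_nonneg_left h4 hq
  have a5 : Cq * Z ≤ Cq * (q * lam * s) := mul_le_mul_of_nonneg_left (by linarith) hC
  have a6 : Cq * (q * lam) * s ≤ k * s := mul_le_mul_of_nonneg_right hC2 hs
  have a7 : 4 * (δ * A) * s ≤ k * s := mul_le_mul_of_nonneg_right hδA hs
  have a8 : p * lam * s ≤ k * s := mul_le_mul_of_nonneg_right hl hs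
  have a9 : p * T ≤ p * (lam * s) := mul_le_mul_of_nonneg_left (h3.trans h4) hp
  linarith

theorem ar5_trap {κ σ : ℝ} (hκ : 0 < κ) (hκ1 : κ ≤ 1 / 2) (hσ : 0 < σ) :
    σ / 2 ≤ (1 + κ) * σ ∧ (1 + κ) * σ ≤ 2 * σ := by
  constructor <;> nlinarith

theorem ar6_trap (m : ℕ) {A σ r μ : ℝ} (hA : 0 ≤ A) (hσ : 0 < σ) (hr : σ / 2 ≤ r)
    (h : μ ≤ A * σ ^ m) : μ ≤ 2 ^ m * A * r ^ m := by
  have h4 : σ ^ m ≤ 2 ^ m * r ^ m := by
    rw [← mul_pow]; exact pow_le_pow_left₀ hσ.le (by linarith) m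
  have h5 := mul_le_mul_of_nonneg_left h4 hA
  linarith

theorem trap (m : ℕ) (hm : 1 ≤ m) {κ : ℝ} (hκ : 0 < κ) (M A : ℝ) :
    ∃ lam : ℝ, 0 < lam ∧ ∃ δ₀ : ℝ, 0 < δ₀ ∧
    ∀ (D : CD m α H) (c : E m) (R δ : ℝ), CV D c R δ M → δ ≤ δ₀ → ∀ (u : E m) (σ : ℝ),
    0 < σ → ‖u - c‖ + 8 * σ ≤ R → D.T u (8 * σ) ≤ lam * σ ^ m → D.Ms u (8 * σ) ≤ A * σ ^ m →
    ∃ n : ℕ, ∀ u' : E m, ‖u' - u‖ ≤ σ → ∀ r, σ / 2 ≤ r → r ≤ σ →
      |D.Ms u' r - n * vb m * r ^ m| ≤ κ * r ^ m := by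
  obtain ⟨A₁, hA1, hAA⟩ : ∃ A₁ : ℝ, 1 ≤ A₁ ∧ A ≤ A₁ := ⟨max 1 A, le_max_left _ _, le_max_right _ _⟩
  obtain ⟨k, hk0, hk1, hkκ⟩ : ∃ k : ℝ, 0 < k ∧ k ≤ 1 / 10 ∧ 10 * k ≤ κ := by
    refine ⟨min κ 1 / 10, by positivity, ?_, ?_⟩
    · have := min_le_right κ 1; linarith
    · have := min_le_left κ 1; linarith
  have hA0 : 0 < A₁ := by linarith
  obtain ⟨A₂, hA₂⟩ : ∃ A₂ : ℝ, A₂ = 2 ^ m * A₁ := ⟨_, rfl⟩
  have hA12 : A₁ ≤ A₂ := by
    rw [hA₂]; exact le_mul_of_one_le_left hA0.le (one_le_pow₀ (by norm_num))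
  have hA2 : 1 ≤ A₂ := hA1.trans hA12
  obtain ⟨ε, hε0, hε1, hεA⟩ : ∃ ε : ℝ, 0 < ε ∧ ε ≤ 1 / 2 ∧ 32 * ε * A₂ ≤ k := by
    refine ⟨k / (32 * A₂), by positivity, ?_, le_of_eq (by field_simp)⟩
    rw [div_le_iff₀ (by positivity)]; linarith
  obtain ⟨κ', hκ0, hκε, hP⟩ := small_trap m hε0
  have hκ1 : κ' ≤ 1 / 2 := hκε.trans hε1
  have hP0 : 0 ≤ (1 + κ') ^ m := by positivity
  obtain ⟨p, hp⟩ : ∃ p : ℝ, p = m + 1 := ⟨_, rfl⟩
  have hp0 : 0 < p := by rw [hp]; positivity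
  have hmp : (m : ℝ) ≤ p := by rw [hp]; linarith
  obtain ⟨C₂, hC₂, hmv⟩ := move_trap (α := α) (H := H) m hκ0 hκ1
  obtain ⟨lamC, hlamC, δC, hδC, hcm⟩ := cyl_mono (α := α) (H := H) m hm hκ0 hκ1 M A₁
  obtain ⟨lam₀, hlam₀, δB, hδB, C₁, hC₁, hbc⟩ := bad_cover (α := α) (H := H) m hm M A₁
  obtain ⟨l₁, hl0, hl1, hl2, hl3⟩ : ∃ l₁ : ℝ, 0 < l₁ ∧ l₁ ≤ lam₀ ∧ l₁ ≤ lamC ∧ p * l₁ ≤ k := by
    refine ⟨min (min lam₀ lamC) (k / p), by positivity, (min_le_left _ _).trans (min_le_left _ _),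
      (min_le_left _ _).trans (min_le_right _ _), ?_⟩
    have := min_le_right (min lam₀ lamC) (k / p)
    rw [le_div_iff₀ hp0] at this
    linarith
  obtain ⟨lam, hlam, hm1, hm2, hm3⟩ : ∃ lam : ℝ, 0 < lam ∧ lam ≤ l₁ / 10 ^ m ∧
      16 * (C₂ * lam) ≤ k ∧ C₁ / l₁ ^ 2 * (p * lam) ≤ k := by
    refine ⟨min (l₁ / 10 ^ m) (min (k / (16 * C₂)) (k * l₁ ^ 2 / (p * C₁))), by positivity,
      min_le_left _ _, ?_, ?_⟩
    · have h1 := (min_le_right (l₁ / 10 ^ m) _).trans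
        (min_le_left (k / (16 * C₂)) (k * l₁ ^ 2 / (p * C₁)))
      rw [le_div_iff₀ (by positivity)] at h1
      linarith
    · have h1 := (min_le_right (l₁ / 10 ^ m) _).trans
        (min_le_right (k / (16 * C₂)) (k * l₁ ^ 2 / (p * C₁)))
      rw [le_div_iff₀ (by positivity)] at h1
      rw [div_mul_eq_mul_div, div_le_iff₀ (by positivity)]
      linarith
  have hml : lam ≤ l₁ := hm1.trans (div_le_self hl0.le (one_le_pow₀ (by norm_num)))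
  have hpl : p * lam ≤ k := (mul_le_mul_of_nonneg_left hml hp0.le).trans hl3
  obtain ⟨δ₀, hδ₀, hd1, hd2, hd3, hd4⟩ : ∃ δ₀ : ℝ, 0 < δ₀ ∧ δ₀ ≤ δC ∧ δ₀ ≤ δB ∧
      16 * (C₂ * (δ₀ * A₁)) ≤ k ∧ 8 * (δ₀ * A₁) ≤ k := by
    refine ⟨min (min δC δB) (min (k / (16 * C₂ * A₁)) (k / (8 * A₁))), by positivity,
      (min_le_left _ _).trans (min_le_left _ _), (min_le_left _ _).trans (min_le_right _ _), ?_, ?_⟩
    · have h1 := (min_le_right (min δC δB) _).trans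
        (min_le_left (k / (16 * C₂ * A₁)) (k / (8 * A₁)))
      rw [le_div_iff₀ (by positivity)] at h1
      linarith
    · have h1 := (min_le_right (min δC δB) _).trans
        (min_le_right (k / (16 * C₂ * A₁)) (k / (8 * A₁)))
      rw [le_div_iff₀ (by positivity)] at h1
      linarith
  refine ⟨lam, hlam, δ₀, hδ₀, fun D c R δ h hδ u σ hσ hR hT hm => ?_⟩
  have hδ0 := h.δ_nonneg
  have hδA : δ * A₁ ≤ δ₀ * A₁ := mul_le_mul_of_nonneg_right hδ hA0.le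
  have hδk : 8 * (δ * A₁) ≤ k := by linarith only [hδA, hd4]
  have hδ1 : δ ≤ 1 := by
    have : δ * 1 ≤ δ * A₁ := mul_le_mul_of_nonneg_left hA1 hδ0
    linarith only [this, hδk, hk1]
  have hσ2 : 0 < σ ^ m := by positivity
  have hm' : D.Ms u (8 * σ) ≤ A₁ * σ ^ m :=
    hm.trans (mul_le_mul_of_nonneg_right hAA hσ2.le)
  have huu : ‖u - u‖ ≤ σ := by rw [sub_self, norm_zero]; exact hσ.le
  obtain ⟨e, he⟩ : ∃ e, e = C₂ * (lam + δ * A₁) := ⟨_, rfl⟩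
  have he0 : 0 ≤ e := by rw [he]; positivity
  have he8 : 8 * e ≤ k := by
    have h1 : C₂ * (δ * A₁) ≤ C₂ * (δ₀ * A₁) := mul_le_mul_of_nonneg_left hδA hC₂.le
    rw [he, mul_add]; linarith only [h1, hd3, hm2]
  have hmv' : ∀ (u₁ u₂ : E m) (r₁ r₂ : ℝ), ‖u₁ - u‖ ≤ σ → ‖u₂ - u‖ ≤ σ → σ / 2 ≤ r₁ →
      r₁ ≤ 2 * σ → σ / 2 ≤ r₂ → r₂ ≤ 2 * σ →
      D.Ms u₁ r₁ / r₁ ^ m ≤ (1 + κ') ^ m * (D.Ms u₂ r₂ / r₂ ^ m) + e := by
    intro u₁ u₂ r₁ r₂ h1 h2 h3 h4 h5 h6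
    rw [he]
    exact hmv D c R δ M h hδ1 u u₁ u₂ σ r₁ r₂ A₁ lam hσ h1 h2 h3 h4 h5 h6 hR hT hA0.le hm'
  obtain ⟨θ, hθ⟩ : ∃ θ, θ = D.Ms u σ / σ ^ m := ⟨_, rfl⟩
  have hθ0 : 0 ≤ θ := by rw [hθ]; exact div_nonneg (h.nonneg u σ).1 hσ2.le
  have hσ8 := h.cyl_mono (u := u) (v := u) (r := σ) (s := 8 * σ)
    (by rw [sub_self, norm_zero]; linarith only [hσ])
  have hmσ : D.Ms u σ ≤ A₁ * σ ^ m := hσ8.1.trans hm'
  have hθA : θ ≤ A₁ := by rw [hθ, div_le_iff₀ hσ2]; exact hmσ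
  obtain ⟨N, hN⟩ := h.exists_mult
  have hNi : Integrable fun v => (N v : ℝ) := hN.integrable h
  obtain ⟨B, hBm, hBT, hBi, hBI⟩ := hbc D c R δ h (hδ.trans hd2) N u σ l₁ hN hσ hl0 hl1 hR
    (by
      have := mul_le_mul_of_nonneg_right hm1 hσ2.le
      rw [div_mul_eq_mul_div] at this
      exact hT.trans this) hm'
  -- the ratio at good points
  have hgood : ∀ v ∈ ball u σ, v ∉ B → ∀ s, 0 < s → s ≤ σ →
      (∫ w in ball v s, (N w : ℝ)) / s ^ m ≤ θ + 4 * k := by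
    intro v hv hvB s hs hsσ
    have hvu : ‖v - u‖ ≤ σ := by rw [← dist_eq_norm]; exact le_of_lt hv
    have hvc : ‖v - c‖ ≤ ‖v - u‖ + ‖u - c‖ := norm_sub_le_norm_sub_add_norm_sub _ _ _
    have hs2 : 0 < s ^ m := by positivity
    have h1 := hcm D c R δ h (hδ.trans hd1) v s σ hs hsσ (by linarith only [hvc, hvu, hR, hσ])
      (fun r hr hr4 => (hBT v hv hvB r (by linarith only [hr, hs]) hr4).trans
        (mul_le_mul_of_nonneg_right hl2 (pow_nonneg (by linarith only [hr, hs]) m)))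
      ((h.cyl_mono (by linarith only [hvu, hσ])).1.trans hm')
    have h2 := hmv' v u ((1 + κ') * σ) σ hvu huu (ar5_trap hκ0 hκ1 hσ).1 (ar5_trap hκ0 hκ1 hσ).2
      (by linarith only [hσ]) (by linarith only [hσ])
    rw [← hθ] at h2
    have e1 : (1 + κ') * D.Ms v ((1 + κ') * σ) / σ ^ m = (1 + κ') *
        ((1 + κ') ^ m * (D.Ms v ((1 + κ') * σ) / ((1 + κ') * σ) ^ m)) := by
      rw [mul_pow]; field_simp
    rw [e1] at h1
    have h3 := ar1_trap hκ0 hκε hε1 hP0 hP hA2 hεA hθ0 (hθA.trans hA12) he0 he8 h1 h2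
    rw [div_le_iff₀ hs2] at h3 ⊢
    have h4 := (abs_le.1 (hN.mass_near h v s)).1
    rw [← hp] at h4
    exact ar3_trap hs2.le hδ0 hk1 hp0.le hA1 hθA hδk hl3 h3 h4
      (hBT v hv hvB s hs (by linarith only [hsσ, hσ])) (h.nonneg v s).2.2.2.2.2.1
  have hπ := LG.vb_pos m
  obtain ⟨n, hn⟩ : ∃ n : ℕ, n = ⌊(θ + 4 * k) / vb m⌋₊ := ⟨_, rfl⟩
  have hn1 : n * vb m ≤ θ + 4 * k := by
    have : (n : ℝ) ≤ (θ + 4 * k) / vb m := by rw [hn]; exact Nat.floor_le (by positivity)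
    rwa [le_div_iff₀ hπ] at this
  have hae : ∀ᵐ v, v ∈ ball u σ → v ∉ B → (N v : ℝ) ≤ n := by
    filter_upwards [LG.ae_lebesgue hNi.locallyIntegrable] with v hv hvb hvB
    have h1 : vb m * N v ≤ θ + 4 * k := by
      refine le_of_tendsto hv ?_
      filter_upwards [Ioo_mem_nhdsGT hσ] with s hs
      exact hgood v hvb hvB s hs.1 hs.2.le
    have h2 : N v ≤ n := by
      rw [hn]
      refine Nat.le_floor ?_
      rw [le_div_iff₀ hπ]; linarith only [h1]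
    exact_mod_cast h2
  have hn2 : θ ≤ n * vb m + 3 * k := by
    rw [hθ, div_le_iff₀ hσ2]
    have h4 := (abs_le.1 (hN.mass_near h u σ)).2
    rw [← hp] at h4
    have h5 : ∫ a in D.cyl u (8 * σ), D.t a ^ 2 ∂D.m ≤ p * D.T u (8 * σ) :=
      (h.nonneg u (8 * σ)).2.2.2.2.2.2.2.trans
        (mul_le_mul_of_nonneg_right hmp (h.nonneg u (8 * σ)).2.1)
    have h6 : D.J u σ ≤ 4 * (A₁ * σ ^ m) := by
      linarith only [(h.nonneg u σ).2.2.2.2.2.1, hmσ]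
    exact ar4_trap hσ2.le hδ0 (by positivity) hp0.le hp0.le
      (by linarith only [hδk, hk0]) hpl hm3 (int_le_trap hNi hBm hBi u hσ n hae) h4 hσ8.2.1 hT
      h6 hBI h5
  refine ⟨n, fun u' hu' r hr1 hr2 => ?_⟩
  have hr0 : 0 < r := by linarith only [hr1, hσ]
  have hr : 0 < r ^ m := by positivity
  have h1 := hmv' u' u r σ hu' huu hr1 (by linarith only [hr2, hσ]) (by linarith only [hσ])
    (by linarith only [hσ])
  have h2 := hmv' u u' σ r huu hu' (by linarith only [hσ]) (by linarith only [hσ]) hr1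
    (by linarith only [hr2, hσ])
  rw [← hθ] at h1 h2
  obtain ⟨μ, hμ⟩ : ∃ μ, μ = D.Ms u' r / r ^ m := ⟨_, rfl⟩
  rw [← hμ] at h1 h2
  have hμ0 : 0 ≤ μ := by rw [hμ]; exact div_nonneg (h.nonneg u' r).1 hr.le
  have hμA : μ ≤ A₂ := by
    rw [hμ, div_le_iff₀ hr, hA₂]
    exact ar6_trap m hA0.le hσ hr1 ((h.cyl_mono (u := u) (v := u') (r := r) (s := 8 * σ)
      (by linarith only [hu', hr2, hσ])).1.trans hm')
  have h5 := ar2_trap hε0 hP (by linarith only [hA2]) hεA hθ0 (hθA.trans hA12)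
  have h6 := ar2_trap hε0 hP (by linarith only [hA2]) hεA hμ0 hμA
  have h7 : |μ - n * vb m| ≤ κ :=
    abs_le.2 ⟨by linarith only [h2, h6, hn1, he8, hkκ, hk0, he0],
      by linarith only [h1, h5, hn2, he8, hkκ, hk0, he0]⟩
  have e1 : D.Ms u' r - n * vb m * r ^ m = (μ - n * vb m) * r ^ m := by
    rw [hμ]; field_simp
  rw [e1, abs_mul, abs_of_pos hr]
  exact mul_le_mul_of_nonneg_right h7 hr.le

end Pool.Agent.Lib.MP_8daebb_an.GM
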