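import Pool.Agent.Lib.MP_8daebb_an.GM.Av2
import Pool.Agent.Lib.MP_8daebb_an.GM.MetF

/-! Auxiliary facts for the two-point functional. -/

set_option linter.unusedSectionVars false
set_option linter.unusedVariables false

open MeasureTheory Metric Filter Topology Set
open scoped RealInnerProductSpace ENNReal ContDiff

namespace Pool.Agent.Lib.MP_8daebb_an.GM

open LG (vb chi om trS)

/-- Bounded measurable functions. -/
def BMtwoa {β F : Type*} [MeasurableSpace β] [NormedAddCommGroup F] (μ : Measure β) (f : β → F) :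
    Prop := AEStronglyMeasurable f μ ∧ ∃ B, ∀ᵐ b ∂μ, ‖f b‖ ≤ B

namespace BMtwoa

variable {β E F G : Type*} [MeasurableSpace β] [NormedAddCommGroup E] [NormedAddCommGroup F]
  [NormedAddCommGroup G] {μ : Measure β} {f f' : β → E} {g : β → F}

theorem int [IsFiniteMeasure μ] (h : BMtwoa μ f) : Integrable f μ :=
  h.2.elim fun B hB => Integrable.of_bound h.1 B hB

theorem const (c : E) : BMtwoa μ fun _ => c :=
  ⟨aestronglyMeasurable_const, ‖c‖, Eventually.of_forall fun _ => le_rfl⟩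

theorem cont [ProperSpace E] (h : BMtwoa μ f) {φ : E → F} (hφ : Continuous φ) :
    BMtwoa μ fun b => φ (f b) := by
  obtain ⟨h1, B, hB⟩ := h
  obtain ⟨C, hC⟩ := (isCompact_closedBall (0 : E) B).exists_bound_of_continuousOn hφ.continuousOn
  exact ⟨hφ.comp_aestronglyMeasurable h1, C,
    hB.mono fun b hb => hC _ (mem_closedBall_zero_iff.2 hb)⟩

theorem add (h : BMtwoa μ f) (h' : BMtwoa μ f') : BMtwoa μ fun b => f b + f' b := by
  obtain ⟨h1, B, hB⟩ := h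
  obtain ⟨h2, B', hB'⟩ := h'
  refine ⟨h1.add h2, B + B', ?_⟩
  filter_upwards [hB, hB'] with b b1 b2 using norm_add_le_of_le b1 b2

theorem neg (h : BMtwoa μ f) : BMtwoa μ fun b => -f b :=
  ⟨h.1.neg, by simpa only [norm_neg] using h.2⟩

theorem sub (h : BMtwoa μ f) (h' : BMtwoa μ f') : BMtwoa μ fun b => f b - f' b := by
  simpa only [sub_eq_add_neg] using h.add h'.neg

theorem bil (h : BMtwoa μ f) (h' : BMtwoa μ g) {φ : E → F → G}
    (hφ : Continuous fun w : E × F => φ w.1 w.2) (hb : ∀ v w, ‖φ v w‖ ≤ ‖v‖ * ‖w‖) :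
    BMtwoa μ fun b => φ (f b) (g b) := by
  obtain ⟨h1, B, hB⟩ := h
  obtain ⟨h2, B', hB'⟩ := h'
  refine ⟨hφ.comp_aestronglyMeasurable (h1.prodMk h2), B * B', ?_⟩
  filter_upwards [hB, hB'] with b b1 b2 using
    (hb _ _).trans (mul_le_mul b1 b2 (norm_nonneg _) ((norm_nonneg _).trans b1))

theorem mul {f g : β → ℝ} (h : BMtwoa μ f) (h' : BMtwoa μ g) : BMtwoa μ fun b => f b * g b :=
  h.bil h' (φ := fun v w => v * w) continuous_mul norm_mul_le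

theorem inn [InnerProductSpace ℝ E] (h : BMtwoa μ f) (h' : BMtwoa μ f') :
    BMtwoa μ fun b => ⟪f b, f' b⟫ :=
  h.bil h' (φ := fun v w => ⟪v, w⟫) continuous_inner norm_inner_le_norm

theorem app [NormedSpace ℝ E] [NormedSpace ℝ F] {f : β → E →L[ℝ] F} {g : β → E} (h : BMtwoa μ f)
    (h' : BMtwoa μ g) : BMtwoa μ fun b => f b (g b) :=
  h.bil h' (φ := fun v w => v w) (by fun_prop) ContinuousLinearMap.le_opNorm

theorem fst [SFinite μ] (h : BMtwoa μ f) : BMtwoa (μ.prod μ) fun b => f b.1 :=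
  ⟨h.1.comp_fst, h.2.imp fun _ hB => Measure.quasiMeasurePreserving_fst.ae hB⟩

theorem snd [SFinite μ] (h : BMtwoa μ f) : BMtwoa (μ.prod μ) fun b => f b.2 :=
  ⟨h.1.comp_snd, h.2.imp fun _ hB => Measure.quasiMeasurePreserving_snd.ae hB⟩

end BMtwoa

/-- The derivative of the bounded primitive. -/
noncomputable def thTwoa (Δ r : ℝ) : ℝ := (1 + (r / Δ) ^ 2)⁻¹

/-- The bounded primitive. -/
noncomputable def prTwoa (Δ r : ℝ) : ℝ := Δ * Real.arctan (r / Δ)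

theorem th_twoa {Δ : ℝ} (hΔ : 0 < Δ) : Continuous (thTwoa Δ) ∧ ContDiff ℝ 1 (prTwoa Δ) ∧
    ∀ r, HasDerivAt (prTwoa Δ) (thTwoa Δ r) r ∧ |prTwoa Δ r| ≤ 2 * Δ ∧ 0 ≤ thTwoa Δ r ∧
      thTwoa Δ r ≤ 1 := by
  refine ⟨Continuous.inv₀ (by fun_prop) fun r => by positivity,
    contDiff_const.mul (Real.contDiff_arctan.comp (contDiff_id.div_const Δ)), fun r =>
    ⟨?_, ?_, by unfold thTwoa; positivity,
      inv_le_one_of_one_le₀ (le_add_of_nonneg_right (sq_nonneg _))⟩⟩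
  · refine (((hasDerivAt_id r).div_const Δ).arctan.const_mul Δ).congr_deriv ?_
    rw [thTwoa, id]
    field_simp
  · rw [prTwoa, abs_mul, abs_of_pos hΔ, mul_comm]
    refine mul_le_mul_of_nonneg_right (abs_le.2 ⟨?_, ?_⟩) hΔ.le
    · linarith [Real.neg_pi_div_two_lt_arctan (r / Δ), Real.pi_le_four]
    · linarith [Real.arctan_lt_pi_div_two (r / Δ), Real.pi_le_four]

variable {d : ℕ} {α : Type*} [MeasurableSpace α] {H : Type*} [NormedAddCommGroup H]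
  [InnerProductSpace ℝ H] [FiniteDimensional ℝ H] [MeasurableSpace H] [BorelSpace H]

theorem test_twoa {ρ R : ℝ} (hρ : 0 < ρ) {u : E d} (hu : ‖u‖ + 2 * ρ ≤ R) {ψ ψ' : ℝ → ℝ}
    (hψ : ContDiff ℝ 1 ψ) (hd : ∀ r, HasDerivAt ψ (ψ' r) r) :
    Test 0 R (fun w : E d × ℝ => kr ρ (u - w.1) * ψ w.2) ∧ ∀ (x v : E d) (z t : ℝ),
      fderiv ℝ (fun w : E d × ℝ => kr ρ (u - w.1) * ψ w.2) (x, z) (v, t) =
        -(fderiv ℝ (kr ρ) (u - x) v) * ψ z + kr ρ (u - x) * (ψ' z * t) := by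
  have h1 : ContDiff ℝ 1 (kr ρ : E d → ℝ) := contDiff_infty.1 (kr_contDiff ρ) 1
  refine ⟨⟨((h1.comp (contDiff_const.sub contDiff_fst)).mul (hψ.comp contDiff_snd)).contDiffOn,
    ‖u‖ + ρ, by linarith, fun w hw => ?_⟩, fun x v z t => ?_⟩
  · rw [sub_zero] at hw
    have : ρ ≤ ‖u - w.1‖ := by linarith [norm_sub_norm_le w.1 u, norm_sub_rev u w.1]
    simp only [(kr_zero hρ this).1, zero_mul]
  · have h2 := (h1.differentiable one_ne_zero (u - x)).hasFDerivAt.comp ((x, z) : E d × ℝ)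
      ((hasFDerivAt_fst (𝕜 := ℝ) (p := (x, z))).const_sub u)
    have h3 := (hd z).hasFDerivAt.comp ((x, z) : E d × ℝ) (hasFDerivAt_snd (𝕜 := ℝ) (p := (x, z)))
    refine (DFunLike.congr_fun (h2.mul h3).fderiv (v, t)).trans ?_
    simp
    ring

theorem ineq_twoa {k k' th Θ Δ η g X L T Y s n n' r c m : ℝ} (hk : 0 ≤ k) (hk' : 0 ≤ k')
    (h0 : 0 ≤ th) (h1 : th ≤ 1) (hΘ : |Θ| ≤ 2 * Δ) (hη : |η * g| ≤ 4 * s * n)
    (hX : |X| ≤ 3 * s * (n + n')) (hL : |L| ≤ r) (hT : |T| ≤ 12 * r * c)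
    (hY : |Y| ≤ 6 * m * r) :
    k * k' * (th * (η * g) + th * X - Θ * L - Θ * Y) - k * (Θ * T) ≤
      s * (7 * (k * n * k') + 3 * (k * (k' * n'))) +
        Δ * ((2 + 12 * m) * (k * r * k') + 24 * (k * r * c)) := by
  have a1 : ∀ {x B : ℝ}, |x| ≤ B → th * x ≤ B := fun hx =>
    (mul_le_mul_of_nonneg_left (le_abs_self _) h0).trans
      ((mul_le_of_le_one_left (abs_nonneg _) h1).trans hx)
  have a2 : ∀ {x B : ℝ}, |x| ≤ B → -(Θ * x) ≤ 2 * Δ * B := fun hx =>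
    (neg_le_abs _).trans (by
      rw [abs_mul]
      exact mul_le_mul hΘ hx (abs_nonneg _) ((abs_nonneg _).trans hΘ))
  have b1 : th * (η * g) + th * X - Θ * L - Θ * Y ≤
      4 * s * n + 3 * s * (n + n') + 2 * Δ * r + 2 * Δ * (6 * m * r) := by
    linarith [a1 hη, a1 hX, a2 hL, a2 hY]
  linarith [mul_le_mul_of_nonneg_left b1 (mul_nonneg hk hk'), mul_le_mul_of_nonneg_left (a2 hT) hk]

theorem sym_twoa {A A' : E d →L[ℝ] E d} (hA : ‖A - 1‖ ≤ 1 / 2) {ρ n n' : ℝ} (hρ : 0 ≤ ρ)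
    (hA' : ‖A - A'‖ ≤ ρ / 5) {p p' : E d} (hp : ‖p‖ ^ 2 ≤ 8 * n) (hp' : ‖p'‖ ^ 2 ≤ 8 * n') :
    ‖p - p'‖ ^ 2 ≤ 2 * (⟪A p, p⟫ + ⟪A' p', p'⟫ - ⟪p', A p⟫ - ⟪p, A' p'⟫) + 6 * ρ * (n + n') := by
  have h1 : |⟪(A - 1) (p - p'), p - p'⟫| ≤ 1 / 2 * ‖p - p'‖ * ‖p - p'‖ :=
    (abs_real_inner_le_norm _ _).trans (mul_le_mul_of_nonneg_right
      (((A - 1).le_opNorm _).trans (mul_le_mul_of_nonneg_right hA (norm_nonneg _))) (norm_nonneg _))
  have h2 : |⟪(A - A') p', p - p'⟫| ≤ ρ / 5 * ‖p'‖ * (‖p‖ + ‖p'‖) :=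
    (abs_real_inner_le_norm _ _).trans (mul_le_mul
      (((A - A').le_opNorm _).trans (mul_le_mul_of_nonneg_right hA' (norm_nonneg _)))
      (norm_sub_le _ _) (norm_nonneg _) (by positivity))
  have h3 : ‖p'‖ * (‖p‖ + ‖p'‖) ≤ 12 * (n + n') := by
    nlinarith [sq_nonneg (‖p‖ - ‖p'‖), sq_nonneg ‖p‖, sq_nonneg ‖p'‖]
  have h4 : 0 ≤ n + n' := by nlinarith [sq_nonneg ‖p‖, sq_nonneg ‖p'‖]
  have h5 := mul_le_mul_of_nonneg_left h3 hρ
  have h6 := mul_nonneg hρ h4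
  have e1 : ⟪(A - 1) (p - p'), p - p'⟫ + ‖p - p'‖ ^ 2 + ⟪(A - A') p', p - p'⟫ =
      ⟪A p, p⟫ + ⟪A' p', p'⟫ - ⟪p', A p⟫ - ⟪p, A' p'⟫ := by
    rw [← real_inner_self_eq_norm_sq, real_inner_comm (A p) p', real_inner_comm (A' p') p]
    simp only [sub_apply, one_apply_eq_self, map_sub, inner_sub_left, inner_sub_right]
    ring
  linarith [(abs_le.1 h1).1, (abs_le.1 h2).1]

theorem PW.twoa {D : CD d α H} {δ : ℝ} {a : α} (h : PW D δ a) (h0 : 0 ≤ δ) (hδ : δ ≤ 1 / 2)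
    (ham : ‖D.am (D.x a) - 1‖ ≤ δ) {e : H} (he : ‖e‖ = 1) :
    ‖D.p e a‖ ≤ 3 * √(D.en a) ∧ √(D.en a) ≤ d + 1 ∧ ‖D.τ a‖ ≤ 2 * D.en a := by
  obtain ⟨-, h2, h3, h4, h5, -⟩ := h.scal h0 hδ ham he
  have h7 := Real.sqrt_nonneg (D.en a)
  have hd : (0 : ℝ) ≤ d := Nat.cast_nonneg d
  refine ⟨le_of_sq_le_sq (h5.trans ?_) (by positivity),
    Real.sqrt_le_iff.2 ⟨by positivity, by nlinarith⟩, h.τ_le.trans (by linarith)⟩
  rw [mul_pow, Real.sq_sqrt h2]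
  linarith

theorem CV.bm_twoa {D : CD d α H} {R δ M : ℝ} (h : CV D 0 R δ M) (hδ : δ ≤ 1 / 2) {e : H}
    (he : ‖e‖ = 1) : BMtwoa D.m D.x ∧ BMtwoa D.m (D.z e) ∧ BMtwoa D.m (fun a => ‖D.y a‖) ∧
      BMtwoa D.m (fun a => ⟪D.g a e, e⟫) ∧ BMtwoa D.m (fun a => ⟪D.L a, e⟫) ∧
      BMtwoa D.m (fun a => D.q a e) ∧ BMtwoa D.m (D.p e) ∧ BMtwoa D.m D.eh ∧ BMtwoa D.m D.τ ∧
      BMtwoa D.m D.en ∧ BMtwoa D.m (D.dd e) ∧ BMtwoa D.m fun a => D.am (D.x a) := by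
  obtain ⟨m1, m2, m3, m4, m5, m6⟩ := h.meas_e e
  have h1 := h.ae_met.mono fun a ha =>
    And.intro ha (And.intro (ha.1.scal h.δ_nonneg hδ ha.2.2.2.2 he)
      (ha.1.twoa h.δ_nonneg hδ ha.2.2.2.2 he))
  refine ⟨⟨h.m_x.aestronglyMeasurable, 2, h.x_le_av⟩, ⟨m1.aestronglyMeasurable, δ, ?_⟩,
    ⟨h.m_y.norm.aestronglyMeasurable, δ, ?_⟩, ⟨m5.aestronglyMeasurable, 4 * (d + 1), ?_⟩,
    ⟨(h.m_L.inner_const (𝕜 := ℝ)).aestronglyMeasurable, d + 1, ?_⟩,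
    ⟨m4.aestronglyMeasurable, 6 * (d + 1), ?_⟩,
    ⟨m2.aestronglyMeasurable, 3 * (d + 1), ?_⟩, ⟨h.m_eh.aestronglyMeasurable, d + 1, ?_⟩,
    ⟨h.m_τ.aestronglyMeasurable, 2 * (d + 1), ?_⟩, ⟨m6.aestronglyMeasurable, d + 1, ?_⟩,
    ⟨m3.aestronglyMeasurable, 6 * (d + 1), ?_⟩,
    ⟨(h.m_am.comp h.m_x).aestronglyMeasurable, 2, ?_⟩⟩ <;>
  filter_upwards [h1] with a ⟨⟨ha, hx, _⟩,
    ⟨a1, a2, a3, _, _, _, a7, a8, a9, _, _, a12, a13, a14, a15, _⟩, b1, b2, b3⟩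
  · exact a1.trans ha.y_le
  · exact (norm_norm _).le.trans ha.y_le
  · rw [Real.norm_of_nonneg a8]; linarith
  · exact a14.trans b2
  · linarith
  · linarith
  · linarith
  · linarith
  · rw [Real.norm_of_nonneg a2]; linarith
  · rw [Real.norm_of_nonneg a12]; linarith
  · exact (h.met.psd hδ hx).2.2.1

theorem field_twoa {D : CD d α H} {R δ M ρ : ℝ} (h : CV D 0 R δ M) {Θ : α × α → ℝ} {q : α → E d}
    (hΘ : BMtwoa (D.m.prod D.m) Θ) (hq : BMtwoa D.m q) :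
    ContDiff ℝ 1 (fun u => ∫ b, (kr ρ (u - D.x b.1) * kr ρ (u - D.x b.2)) • Θ b • q b.1
      ∂D.m.prod D.m) ∧ ∀ u, trH (fderiv ℝ (fun u => ∫ b,
        (kr ρ (u - D.x b.1) * kr ρ (u - D.x b.2)) • Θ b • q b.1 ∂D.m.prod D.m) u) =
      ∫ b, (fderiv ℝ (kr ρ) (u - D.x b.1) (q b.1) * kr ρ (u - D.x b.2) +
        kr ρ (u - D.x b.1) * fderiv ℝ (kr ρ) (u - D.x b.2) (q b.1)) * Θ b ∂D.m.prod D.m := by
  have := h.fin
  have h1 : ContDiff ℝ 1 (kr ρ : E d → ℝ) := contDiff_infty.1 (kr_contDiff ρ) 1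
  have hY : Measurable fun b : α × α => (D.x b.1, D.x b.2) :=
    (h.m_x.comp measurable_fst).prodMk (h.m_x.comp measurable_snd)
  have hB : ∀ᵐ b ∂D.m.prod D.m, ‖(D.x b.1, D.x b.2)‖ ≤ 2 := by
    filter_upwards [Measure.quasiMeasurePreserving_fst.ae h.x_le_av,
      Measure.quasiMeasurePreserving_snd.ae h.x_le_av] with b b1 b2 using max_le b1 b2
  have hf := (hΘ.bil hq.fst (φ := fun v w => v • w) continuous_smul norm_smul_le).int
  have hg : ContDiff ℝ 1 fun w : E d × E d => kr ρ w.1 * kr ρ w.2 :=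
    (h1.comp contDiff_fst).mul (h1.comp contDiff_snd)
  have hd : ∀ w : E d × E d, ∀ v : E d,
      fderiv ℝ (fun w : E d × E d => kr ρ w.1 * kr ρ w.2) w (v, v) =
      fderiv ℝ (kr ρ) w.1 v * kr ρ w.2 + kr ρ w.1 * fderiv ℝ (kr ρ) w.2 v := fun w v => by
    have h2 := (h1.differentiable one_ne_zero w.1).hasFDerivAt.comp w hasFDerivAt_fst
    have h3 := (h1.differentiable one_ne_zero w.2).hasFDerivAt.comp w hasFDerivAt_snd
    refine (DFunLike.congr_fun (h2.mul h3).fderiv (v, v)).trans ?_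
    simp
    ring
  obtain ⟨G, hG⟩ : ∃ G : E d × E d → E d, G = fun w => ∫ b,
    (fun w : E d × E d => kr ρ w.1 * kr ρ w.2)
    (w - (D.x b.1, D.x b.2)) • Θ b • q b.1 ∂D.m.prod D.m := ⟨_, rfl⟩
  have e1 : (fun u => ∫ b, (kr ρ (u - D.x b.1) * kr ρ (u - D.x b.2)) • Θ b • q b.1
      ∂D.m.prod D.m) = G ∘ fun u => (u, u) := by
    rw [hG]; rfl
  have c1 := SV.conv_contDiff hY hB hf 1 hg
  rw [← hG] at c1
  rw [e1]
  refine ⟨c1.comp (contDiff_id.prodMk contDiff_id), fun u => ?_⟩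
  obtain ⟨-, i1, d1, d2⟩ := SV.conv_hasFDerivAt hY hB hf hg (u, u)
  rw [← hG] at d1 d2
  have h2 : ∀ v, fderiv ℝ (G ∘ fun u => (u, u)) u v = fderiv ℝ G (u, u) (v, v) := fun v =>
    DFunLike.congr_fun (d1.hasFDerivAt.comp u (f := fun u => (u, u))
      ((hasFDerivAt_id u).prodMk (hasFDerivAt_id u))).fderiv v
  rw [← trS_eq, trS]
  simp only [h2, d2, real_inner_comm (LG.eb _), ← integral_inner (i1 _)]
  rw [← integral_finsetSum _ fun i _ => (i1 _).const_inner _]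
  refine integral_congr_ae (Eventually.of_forall fun b => ?_)
  have h3 : ∀ A : E d →L[ℝ] ℝ, A (q b.1) = ∑ i, ⟪LG.eb i, q b.1⟫ * A (LG.eb i) := fun A => by
    conv_lhs => rw [sum_eb_id (q b.1), map_sum]
    simp only [map_smul, smul_eq_mul, real_inner_comm (LG.eb _)]
  simp only [hd, h3 (fderiv ℝ (kr ρ) _), real_inner_smul_right, Prod.mk_sub_mk, Finset.sum_mul,
    Finset.mul_sum, ← Finset.sum_add_distrib]
  exact Finset.sum_congr rfl fun i _ => by ring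

theorem dk_twoa {D : CD d α H} {R δ M ρ : ℝ} (h : CV D 0 R δ M) (hρ : 0 < ρ) (u : E d) :
    ∫ a, ‖fderiv ℝ (kr ρ) (u - D.x a)‖ * D.en a ∂D.m ≤ Ck d / ρ * (D.En u ρ / ρ ^ d) := by
  have hi := h.integrable_t.2.2.2.1
  have e1 : Ck d / ρ * (D.En u ρ / ρ ^ d) =
      ∫ a, (D.cyl u ρ).indicator (fun a => Ck d / ρ ^ (d + 1) * D.en a) a ∂D.m := by
    rw [integral_indicator (h.meas_cyl u ρ), integral_const_mul, CD.En, pow_succ]
    field_simp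
  rw [e1]
  refine integral_mono_of_nonneg (h.pw_av.mono fun a ha =>
    mul_nonneg (norm_nonneg _) ha.facts_av.1) ((hi.const_mul _).indicator (h.meas_cyl u ρ))
    (h.pw_av.mono fun a ha => ?_)
  by_cases hx : a ∈ D.cyl u ρ
  · simp only [indicator_of_mem hx]
    exact mul_le_mul_of_nonneg_right (kr_le hρ _).2.1 ha.facts_av.1
  · have h1 : ρ ≤ ‖u - D.x a‖ := by
      rw [norm_sub_rev]
      exact not_lt.1 hx
    simp only [indicator_of_notMem hx, (kr_zero hρ h1).2.1, norm_zero, zero_mul, le_refl]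

end Pool.Agent.Lib.MP_8daebb_an.GM
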