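import Pool.Agent.Lib.MP_8daebb_an.GM.Av2
import Pool.Agent.Lib.MP_8daebb_an.GM.MetF
import Pool.Agent.Lib.MP_8daebb_an.GM.TwoAX

/-! The two-point functional is almost a divergence. -/

set_option linter.unusedSectionVars false
set_option linter.unusedVariables false

open MeasureTheory Metric Filter Topology Set
open scoped RealInnerProductSpace ENNReal ContDiff

namespace Pool.Agent.Lib.MP_8daebb_an.GM

open LG (vb chi om trS)

variable {d : ℕ} {α : Type*} [MeasurableSpace α] {H : Type*} [NormedAddCommGroup H]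
  [InnerProductSpace ℝ H] [FiniteDimensional ℝ H] [MeasurableSpace H] [BorelSpace H]

theorem two_point (d : ℕ) (M : ℝ) : ∃ C : ℝ, 0 < C ∧ ∀ (D : CD d α H) (R δ lam ρ Δ : ℝ) (e : H),
    CV D 0 R δ M → δ ≤ 1 / 10 → Ht D lam → 0 < lam → 2 * lam ≤ ρ → ‖e‖ = 1 → 0 < Δ →
    ∃ Bf : E d → E d, ContDiff ℝ 1 Bf ∧
      (∀ u, ‖Bf u‖ ≤ C * Δ * D.av ρ (fun a => √(D.en a)) u) ∧
      ∀ u : E d, ‖u‖ + 2 * ρ ≤ R → D.two e ρ Δ u ≤ 4 * trH (fderiv ℝ Bf u) +
        C * ((ρ + Δ / ρ) * (D.En u ρ / ρ ^ d) + Δ * D.av ρ (fun a => √(D.en a)) u) := by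
  obtain ⟨C₀, hC₀, H₀⟩ := av_le (α := α) (H := H) d M
  have hCk := one_le_Ck d
  have hd : (0 : ℝ) ≤ d := Nat.cast_nonneg d
  obtain ⟨C, hC0, hC1, hC2, hC3⟩ : ∃ C : ℝ, 0 < C ∧ 32 * C₀ ^ 2 ≤ C ∧ 96 * (Ck d * C₀ ^ 2) ≤ C ∧
      4 * (2 + 12 * (d + 1)) * C₀ ≤ C := by
    have a1 : 0 ≤ 32 * C₀ ^ 2 := by positivity
    have a2 : 0 ≤ 96 * (Ck d * C₀ ^ 2) := by positivity
    have a3 : 0 < 4 * (2 + 12 * (d + 1)) * C₀ := by positivity
    exact ⟨32 * C₀ ^ 2 + 96 * (Ck d * C₀ ^ 2) + 4 * (2 + 12 * (d + 1)) * C₀, by linarith,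
      by linarith, by linarith, by linarith⟩
  refine ⟨C, hC0, fun D R δ lam ρ Δ e h hδ' hs hl hlρ he hΔ => ?_⟩
  have := h.fin
  have hρ0 : 0 < ρ := by linarith
  have hδ : δ ≤ 1 / 2 := by linarith
  obtain ⟨bx, bz, bη, bg, bL, bq, bp, bh, bτ, bn, bd, bA⟩ := h.bm_twoa hδ he
  obtain ⟨t1, t2, t3⟩ := th_twoa hΔ
  have bΘ := (bz.fst.sub bz.snd).cont t2.continuous
  have bt := (bz.fst.sub bz.snd).cont t1
  have br := bn.cont Real.continuous_sqrt
  have c0 := (kr_contDiff (m := d) ρ).continuous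
  have c1 := (fderiv_contDiff_ker (kr_contDiff (m := d) ρ)).continuous
  have bk := fun u : E d => ((BMtwoa.const u).sub bx).cont c0
  have bD := fun u : E d => ((BMtwoa.const u).sub bx).cont c1
  have bN := fun u : E d => ((BMtwoa.const u).sub bx).cont c1.norm
  have hpw := h.ae_met.and hs
  have hae := (Measure.quasiMeasurePreserving_fst (μ := D.m) (ν := D.m)).ae hpw |>.and
    ((Measure.quasiMeasurePreserving_snd (μ := D.m) (ν := D.m)).ae hpw)
  obtain ⟨f1, f2⟩ := field_twoa (ρ := ρ) h bΘ bq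
  have hav := fun u => H₀ D 0 R δ lam ρ u h hδ' hs hl hlρ
  simp only [CD.av, smul_eq_mul, mul_one, sub_zero] at hav ⊢
  refine ⟨_, f1, fun u => ?_, fun u hu => ?_⟩
  · obtain ⟨-, -, v1, -, -, v2, -⟩ := hav u
    refine (norm_integral_le_of_norm_le
      ((((bk u).mul br).fst.mul (bk u).snd).int.const_mul (12 * Δ)) ?_).trans ?_
    · filter_upwards [hae] with b ⟨⟨⟨b1, _, _, _, b2⟩, _⟩, _⟩
      have k0 := mul_nonneg (kr_nonneg hρ0 (u - D.x b.1)) (kr_nonneg hρ0 (u - D.x b.2))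
      rw [norm_smul, norm_smul, Real.norm_of_nonneg k0, Real.norm_eq_abs]
      refine (mul_le_mul_of_nonneg_left (mul_le_mul (t3 _).2.1
        (b1.scal h.δ_nonneg hδ b2 he).2.2.2.2.2.2.1
        (norm_nonneg _) (by linarith)) k0).trans (le_of_eq (by ring))
    · rw [integral_const_mul, integral_prod_mul (fun a => kr ρ (u - D.x a) * √(D.en a))
        fun a => kr ρ (u - D.x a)]
      have h1 := mul_le_mul_of_nonneg_left v1 (mul_nonneg hΔ.le v2)
      have h2 := mul_le_mul_of_nonneg_right (show 12 * C₀ ≤ C by nlinarith) (mul_nonneg hΔ.le v2)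
      linarith
  have k1 := (bk u).fst
  have k2 := (bk u).snd
  have iS := (((k1.mul k2).mul bt).mul
    ((((BMtwoa.const 1).add bη.fst).mul bg.fst).sub (bp.snd.inn (bA.app bp).fst))).int
  have iN := (((((bD u).fst.app bq.fst).mul k2).add (k1.mul ((bD u).snd.app bq.fst))).mul bΘ).int
  have iV := (k2.mul (((((bD u).fst.app bq.fst).neg.mul bΘ).add (k1.mul (bt.mul bg.fst))).add
    ((k1.mul bΘ).mul bL.fst))).int
  have iW := (k1.mul (((((bD u).snd.app (bq.fst.sub (bτ.snd.app bq.fst))).neg.mul bΘ).add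
    (k2.mul (bt.neg.mul (bp.snd.inn bq.fst)))).add ((k2.mul bΘ).mul (bh.snd.inn bq.fst)))).int
  have eV := (integral_prod_symm _ iV).trans (integral_eq_zero_of_ae
    (Eventually.of_forall fun a' => by
      obtain ⟨h1, h2⟩ := test_twoa hρ0 hu (t2.comp (contDiff_id.sub contDiff_const))
        fun r => (t3 (r - D.z e a')).1.comp_sub_const r (D.z e a')
      have h3 := h.ver_e e h1
      simp only [h2] at h3
      exact (integral_const_mul (kr ρ (u - D.x a')) _).trans (mul_eq_zero_of_right _ h3)))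
  have eW := (integral_prod _ iW).trans (integral_eq_zero_of_ae
    (Eventually.of_forall fun a => by
      obtain ⟨h1, h2⟩ := test_twoa hρ0 hu (t2.comp (contDiff_const.sub contDiff_id))
        fun r => (t3 (D.z e a - r)).1.comp_const_sub (D.z e a) r
      have h3 := h.hor_e e h1 (D.q a e)
      simp only [h2] at h3
      exact (integral_const_mul (kr ρ (u - D.x a)) _).trans (mul_eq_zero_of_right _ h3)))
  have j1 := (((bk u).mul bn).fst.mul k2).int
  have j2 := (k1.mul ((bk u).mul bn).snd).int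
  have j3 := (((bk u).mul br).fst.mul k2).int
  have j4 := (((bk u).mul br).fst.mul ((bN u).mul bn).snd).int
  have j5 := ((j1.const_mul 7).add (j2.const_mul 3)).const_mul lam
  have j6 := ((j3.const_mul (2 + 12 * (d + 1))).add (j4.const_mul 24)).const_mul Δ
  have iB := j5.add j6
  have key := integral_mono_ae iS (((iN.add iV).add iW).add iB) (by
    filter_upwards [hae] with b ⟨⟨⟨b1, _, _, _, m1⟩, y1⟩, ⟨b2, _, _, _, m2⟩, _⟩
    obtain ⟨-, n1, -, -, -, a6, q1, a7, a8, -, -, -, -, a12, -⟩ := b1.scal h.δ_nonneg hδ m1 he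
    obtain ⟨-, n2, a3, -, -, -, -, -, -, -, -, -, -, -, a13, -⟩ := b2.scal h.δ_nonneg hδ m2 he
    obtain ⟨p2, -, τ2⟩ := b2.twoa h.δ_nonneg hδ m2 he
    have s1 := Real.sqrt_nonneg (D.en b.1)
    have s2 := Real.sqrt_nonneg (D.en b.2)
    have h1 := ineq_twoa (s := lam) (n := D.en b.1) (n' := D.en b.2) (m := d + 1)
      (c := ‖fderiv ℝ (kr ρ) (u - D.x b.2)‖ * D.en b.2) (η := ‖D.y b.1‖) (g := ⟪D.g b.1 e, e⟫)
      (X := ⟪D.p e b.2, D.q b.1 e - D.am (D.x b.1) (D.p e b.1)⟫)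
      (T := fderiv ℝ (kr ρ) (u - D.x b.2) (D.τ b.2 (D.q b.1 e))) (Y := ⟪D.eh b.2, D.q b.1 e⟫)
      (kr_nonneg hρ0 (u - D.x b.1)) (kr_nonneg hρ0 (u - D.x b.2))
      (t3 (D.z e b.1 - D.z e b.2)).2.2.1 (t3 _).2.2.2 (t3 (D.z e b.1 - D.z e b.2)).2.1 (by
        rw [abs_of_nonneg (mul_nonneg (norm_nonneg _) a7)]
        exact (mul_le_mul y1 a8 a7 hl.le).trans (le_of_eq (by ring))) (by
        refine (abs_real_inner_le_norm _ _).trans ((mul_le_mul p2 (a6.trans
          (mul_le_mul_of_nonneg_right (mul_le_mul_of_nonneg_left y1 zero_le_two) s1))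
            (norm_nonneg _) (by positivity)).trans ?_)
        have h2 : 2 * (√(D.en b.1) * √(D.en b.2)) ≤ D.en b.1 + D.en b.2 := by
          nlinarith [sq_nonneg (√(D.en b.1) - √(D.en b.2)), Real.sq_sqrt n1, Real.sq_sqrt n2]
        linarith [mul_le_mul_of_nonneg_left h2 hl.le]) a12 (by
        have h2 := (fderiv ℝ (kr ρ) (u - D.x b.2)).le_opNorm (D.τ b.2 (D.q b.1 e))
        have h3 := mul_le_mul_of_nonneg_left (((D.τ b.2).le_opNorm (D.q b.1 e)).trans
          (mul_le_mul τ2 q1 (norm_nonneg _) (by linarith)))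
          (norm_nonneg (fderiv ℝ (kr ρ) (u - D.x b.2)))
        exact (h2.trans h3).trans (le_of_eq (by ring))) (by
        refine (abs_real_inner_le_norm _ _).trans ((mul_le_mul (a13.trans a3) q1 (norm_nonneg _)
          (by positivity)).trans (le_of_eq (by ring))))
    simp only [Pi.add_apply, map_sub, inner_sub_right] at h1 ⊢
    linarith)
  have p1 := integral_prod_mul (μ := D.m) (ν := D.m) (fun a => kr ρ (u - D.x a) * D.en a)
    fun a => kr ρ (u - D.x a)
  have p2 := integral_prod_mul (μ := D.m) (ν := D.m) (fun a => kr ρ (u - D.x a))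
    fun a => kr ρ (u - D.x a) * D.en a
  rw [integral_add' ((iN.add iV).add iW) iB, integral_add' (iN.add iV) iW, integral_add' iN iV, eV,
    eW, ← f2 u, integral_add' j5 j6,
    integral_const_mul, integral_const_mul, integral_add' (j1.const_mul 7) (j2.const_mul 3),
    integral_add' (j3.const_mul _) (j4.const_mul 24), integral_const_mul, integral_const_mul,
    integral_const_mul, integral_const_mul, p1, p2,
    integral_prod_mul (fun a => kr ρ (u - D.x a) * √(D.en a)) fun a => kr ρ (u - D.x a),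
    integral_prod_mul (fun a => kr ρ (u - D.x a) * √(D.en a))
      fun a => ‖fderiv ℝ (kr ρ) (u - D.x a)‖ * D.en a] at key
  have iT := (((k1.mul k2).mul bt).mul ((((bp.fst.sub bp.snd).cont
    (φ := fun v => ‖v‖ ^ 2) (by fun_prop)).add bd.fst).add bd.snd)).int
  have j7 := (iS.add iS.swap).const_mul 2
  have j8 := (j1.add j2).const_mul (6 * ρ)
  have key2 := integral_mono_ae iT (j7.add j8) (by
    filter_upwards [hae] with b ⟨⟨⟨b1, x1, _, _, m1⟩, _⟩, ⟨b2, x2, _, _, m2⟩, _⟩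
    obtain ⟨-, n1, -, -, p1, -, -, -, -, -, -, d1, -⟩ := b1.scal h.δ_nonneg hδ m1 he
    obtain ⟨-, n2, -, -, p2, -, -, -, -, -, -, d2, -⟩ := b2.scal h.δ_nonneg hδ m2 he
    have h1 : thTwoa Δ (D.z e b.2 - D.z e b.1) = thTwoa Δ (D.z e b.1 - D.z e b.2) := by
      unfold thTwoa
      congr 2
      ring
    simp only [Pi.add_apply, Function.comp_def, Prod.fst_swap, Prod.snd_swap, h1]
    by_cases z1 : ‖D.x b.1 - u‖ < ρ
    swap
    · simp [kr_off_av hρ0 z1]
    by_cases z2 : ‖D.x b.2 - u‖ < ρ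
    swap
    · simp [kr_off_av hρ0 z2]
    have h2 : ‖D.x b.1 - D.x b.2‖ ≤ 2 * ρ := by
      linarith [norm_sub_le_norm_sub_add_norm_sub (D.x b.1) u (D.x b.2), norm_sub_rev u (D.x b.2)]
    have h3 := sym_twoa (m1.trans hδ) hρ0.le ((h.met.lip h.δ_nonneg hδ x1 x2).2.1.trans
      ((mul_le_mul hδ' h2 (norm_nonneg _) (by norm_num)).trans (le_of_eq (by ring)))) p1 p2
    obtain ⟨-, -, t4, t5⟩ := t3 (D.z e b.1 - D.z e b.2)
    have k0 := mul_nonneg (kr_nonneg hρ0 (u - D.x b.1)) (kr_nonneg hρ0 (u - D.x b.2))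
    have h4 := mul_le_mul_of_nonneg_left h3 (mul_nonneg k0 t4)
    have h5 := mul_nonneg (mul_nonneg k0 t4) (add_nonneg d1 d2)
    have h6 := mul_le_mul_of_nonneg_left t5 (mul_nonneg k0 (mul_nonneg hρ0.le (add_nonneg n1 n2)))
    simp only [CD.dd] at h5 ⊢
    linarith)
  rw [integral_add' j7 j8, integral_const_mul, integral_const_mul, integral_add' iS iS.swap,
    integral_add' j1 j2, p1, p2, integral_prod _ iT, Function.comp_def,
    integral_prod_swap (fun b : α × α => kr ρ (u - D.x b.1) *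
      kr ρ (u - D.x b.2) * thTwoa Δ (D.z e b.1 - D.z e b.2) *
      ((1 + ‖D.y b.1‖) * ⟪D.g b.1 e, e⟫ - ⟪D.p e b.2, D.am (D.x b.1) (D.p e b.1)⟫))] at key2
  obtain ⟨-, v0, v1, v2, v3, v4, v5, -, v6, -⟩ := hav u
  have hE : 0 ≤ D.En u ρ / ρ ^ d := div_nonneg (h.nonneg u ρ).2.2.2.1 (by positivity)
  have v7 : √(D.En u ρ / ρ ^ d) ≤ C₀ := by
    refine Real.sqrt_le_iff.2 ⟨by linarith, (v6 hu).trans ?_⟩
    rw [sq C₀]
    refine mul_le_mul_of_nonneg_left (le_trans ?_ hC₀) (by linarith)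
    rw [div_le_one (by positivity)]
    exact pow_le_pow_left₀ hl.le (by linarith) 2
  have v8 := v5.trans (mul_le_mul_of_nonneg_left v7 (by linarith))
  have v9 := mul_le_mul v3 v1 v0 (by positivity)
  have v10 := mul_le_mul v8 (dk_twoa h hρ0 u) (integral_nonneg_of_ae (h.pw_av.mono fun a ha =>
    mul_nonneg (norm_nonneg _) ha.facts_av.1)) (by positivity)
  have v11 := mul_le_mul_of_nonneg_left v1 v4
  refine le_trans key2 ?_
  generalize D.En u ρ / ρ ^ d = E₁ at *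
  generalize ∫ a, kr ρ (u - D.x a) * √(D.en a) ∂D.m = r at *
  generalize ∫ a, kr ρ (u - D.x a) * D.en a ∂D.m = n at *
  generalize ∫ a, kr ρ (u - D.x a) ∂D.m = k at *
  have w1 := mul_le_mul_of_nonneg_right hlρ (mul_nonneg v2 v0)
  have w2 := mul_le_mul_of_nonneg_left v9 hρ0.le
  have w3 := mul_le_mul_of_nonneg_right hC1 (mul_nonneg hρ0.le hE)
  have w4 := mul_le_mul_of_nonneg_left v10 hΔ.le
  have w5 := mul_le_mul_of_nonneg_right hC2 (mul_nonneg (div_nonneg hΔ.le hρ0.le) hE)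
  have w6 := mul_le_mul_of_nonneg_left v11
    (show 0 ≤ Δ * (2 + 12 * ((d : ℝ) + 1)) by positivity)
  have w7 := mul_le_mul_of_nonneg_right hC3 (mul_nonneg hΔ.le v4)
  simp only [div_eq_mul_inv] at w4 w5 ⊢
  linarith

end Pool.Agent.Lib.MP_8daebb_an.GM
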