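import Pool.Agent.Lib.MP_8daebb_an.GM.ChB3

/-! Traces on a plane that is close to a tangent plane. -/

open MeasureTheory Metric Set Filter Topology
open scoped RealInnerProductSpace ContDiff ENNReal

namespace Pool.Agent.Lib.MP_8daebb_an.GM.Ch

variable {d n : ℕ} {H : Type*} [NormedAddCommGroup H] [InnerProductSpace ℝ H]
  [FiniteDimensional ℝ H] {ι : E d →ₗᵢ[ℝ] H} {κ : E n →ₗᵢ[ℝ] H} {ε : ℝ}
  {D : E d →L[ℝ] H} {P : H →L[ℝ] H}

theorem abs_tr_psd {K : H →L[ℝ] H} (hs : ∀ v u, ⟪K v, u⟫ = ⟪v, K u⟫) (hp : ∀ v, 0 ≤ ⟪K v, v⟫)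
    (M : H →L[ℝ] H) : |trH (K.comp M)| ≤ trH K * ‖M‖ := by
  obtain ⟨b, μ, hb⟩ := exists_eig rfl hs
  have h0 : ∀ i, 0 ≤ μ i := fun i => by rw [diag_eig hb]; exact hp _
  rw [trH_eq_sum b, diag_tr hb, Finset.sum_mul]
  refine (Finset.abs_sum_le_sum_abs _ _).trans (Finset.sum_le_sum fun i _ => ?_)
  show |⟪b i, K (M (b i))⟫| ≤ _
  rw [← hs, hb, real_inner_smul_left, abs_mul, abs_of_nonneg (h0 i)]
  refine mul_le_mul_of_nonneg_left ((abs_real_inner_le_norm _ _).trans ?_) (h0 i)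
  have := M.le_opNorm (b i)
  rw [b.norm_eq_one i] at this ⊢
  linarith

theorem sand_tr_V1 {S R : H →L[ℝ] H} (hS : Pr_ChB3 S) (hR : Pr_ChB3 R) (M : H →L[ℝ] H) :
    |trH ((S.comp (R.comp S)).comp M)| ≤ trH (R.comp S) * ‖M‖ := by
  have hq : ∀ v, ⟪(S.comp (R.comp S)) v, v⟫ = ‖R (S v)‖ ^ 2 := fun v => by
    show ⟪S (R (S v)), v⟫ = _
    rw [hS.1, ← real_inner_self_eq_norm_sq, hR.1 (S v) (R (S v)), hR.2, hR.1]
  have hs : ∀ v u, ⟪(S.comp (R.comp S)) v, u⟫ = ⟪v, (S.comp (R.comp S)) u⟫ := fun v u => by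
    show ⟪S (R (S v)), u⟫ = ⟪v, S (R (S u))⟫
    rw [hS.1, hR.1, hS.1]
  have hp : ∀ v, 0 ≤ ⟪(S.comp (R.comp S)) v, v⟫ := fun v => by rw [hq]; positivity
  have ht : trH (S.comp (R.comp S)) = trH (R.comp S) := by
    rw [trH_comm]
    congr 1
    ext v
    show R (S (S v)) = R (S v)
    rw [hS.2]
  rw [← ht]
  exact abs_tr_psd hs hp M

theorem tr_diag (h : Jet0 ε D) (hP : IsPlane d P) {M : H →L[ℝ] H}
    (h0 : trH ((pT D).comp M) = 0)
    (h1 : ad ((1 - pT D).comp (M.comp (pT D))) + (pT D).comp (M.comp (1 - pT D)) = 0) :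
    |trH (P.comp M)| ≤ 2 * ft D P * ‖M‖ := by
  have hT := pr_pT_ChB3 h
  have hp := pr_plane_ChB3 hP
  have a1 := sand_tr_V1 hT hp.one_sub M
  have a2 := sand_tr_V1 hT.one_sub hp M
  rw [← ft_eq_ChB3] at a1
  rw [← ft_eq h hP] at a2
  generalize ft D P = f at a1 a2 ⊢
  generalize pT D = T at hT a1 a2 h0 h1
  have e0 : P.comp M = T.comp M - (T.comp ((1 - P).comp T)).comp M +
      ((1 - T).comp (P.comp (1 - T))).comp M +
      (T.comp (P.comp ((1 - T).comp M)) + (1 - T).comp (P.comp (T.comp M))) := by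
    ext v
    simp only [ContinuousLinearMap.comp_apply, add_apply,
      sub_apply, one_apply_eq_self, map_sub, hT.2]
    abel
  have e1 : trH (T.comp (P.comp ((1 - T).comp M))) = trH (P.comp ((1 - T).comp (M.comp T))) :=
    trH_comm _ _
  have e2 : trH ((1 - T).comp (P.comp (T.comp M))) = trH (P.comp (T.comp (M.comp (1 - T)))) :=
    trH_comm _ _
  have e3 : T.comp (M.comp (1 - T)) = -ad ((1 - T).comp (M.comp T)) :=
    eq_neg_of_add_eq_zero_right h1
  have e4 : trH (P.comp (T.comp (M.comp (1 - T)))) = -trH (P.comp ((1 - T).comp (M.comp T))) := by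
    rw [e3, ContinuousLinearMap.comp_neg, trH_neg, trH_comm P ((1 - T).comp (M.comp T)),
      ← trH_ad (((1 - T).comp (M.comp T)).comp P), ad_comp _ P, ad_of_symm hp.1]
  rw [e0, trH_add, trH_add, trH_add, trH_sub, e1, e2, e4, h0]
  have := abs_le.1 a1
  have := abs_le.1 a2
  exact abs_le.2 ⟨by linarith, by linarith⟩

theorem tr_off (h : Jet0 ε D) (hP : IsPlane d P) (M : H →L[ℝ] H) :
    |trH (P.comp M) - trH ((pT D).comp M)| ≤ 2 * d * √(ft D P) * ‖M‖ := by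
  have hT := pr_pT_ChB3 h
  have hp := pr_plane_ChB3 hP
  have hq := h.plane
  have a1 := (sand_ChB3 hT hp.one_sub).2.2
  have a2 := (sand_ChB3 hT.one_sub hp).2.2
  rw [← ft_eq_ChB3] at a1
  rw [← ft_eq h hP] at a2
  have hf := Real.sqrt_nonneg (ft D P)
  generalize √(ft D P) = f at a1 a2 hf ⊢
  generalize pT D = T at hT a1 a2 hq
  have e0 : P.comp M - T.comp M = P.comp (P.comp ((1 - T).comp M)) -
      ((1 - P).comp T).comp (T.comp M) := by
    ext v
    simp only [ContinuousLinearMap.comp_apply, sub_apply,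
      one_apply_eq_self, map_sub, hT.2, hp.2]
    abel
  have e1 : trH (((1 - P).comp T).comp (T.comp M)) = trH (T.comp (M.comp ((1 - P).comp T))) :=
    trH_comm _ _
  have b1 := plane_abs_tr hP (P.comp ((1 - T).comp M))
  have b2 := plane_abs_tr hq (M.comp ((1 - P).comp T))
  have c1 : ‖P.comp ((1 - T).comp M)‖ ≤ f * ‖M‖ := by
    refine ContinuousLinearMap.opNorm_le_bound _ (by positivity) fun v => ?_
    refine (a2 (M v)).trans ?_
    rw [mul_assoc]
    exact mul_le_mul_of_nonneg_left (M.le_opNorm v) hf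
  have c2 : ‖M.comp ((1 - P).comp T)‖ ≤ f * ‖M‖ := by
    refine ContinuousLinearMap.opNorm_le_bound _ (by positivity) fun v => ?_
    refine (M.le_opNorm _).trans ?_
    rw [mul_comm f, mul_assoc]
    exact mul_le_mul_of_nonneg_left (a1 v) (norm_nonneg _)
  have hd : (0 : ℝ) ≤ d := Nat.cast_nonneg d
  have d1 := mul_le_mul_of_nonneg_left c1 hd
  have d2 := mul_le_mul_of_nonneg_left c2 hd
  rw [← trH_sub, e0, trH_sub, e1]
  have := abs_le.1 b1
  have := abs_le.1 b2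
  exact abs_le.2 ⟨by linarith, by linarith⟩

end Pool.Agent.Lib.MP_8daebb_an.GM.Ch
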