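import Pool.Agent.Lib.MP_8daebb_an.GM.Ad1

/-! The algebra of the test field. -/

open MeasureTheory Metric Set Filter Topology
open scoped RealInnerProductSpace ContDiff ENNReal

namespace Pool.Agent.Lib.MP_8daebb_an.GM.Ch

variable {d n : ℕ} {H : Type*} [NormedAddCommGroup H] [InnerProductSpace ℝ H]
  [FiniteDimensional ℝ H] {ι : E d →ₗᵢ[ℝ] H} {κ : E n →ₗᵢ[ℝ] H} {ε : ℝ} {L : E d →L[ℝ] E n}
  {A : E d →L[ℝ] E d →L[ℝ] E n}

theorem M1_apply_V2 (φ : E n) (dφ : E d →L[ℝ] E n) (Y : E n →L[ℝ] E d) (p : H) :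
    M1 ι κ L A φ dφ Y p = nf ι κ L (dφ (ad ι.toContinuousLinearMap p)) -
      ι (shL A φ (ad ι.toContinuousLinearMap p)) - DD ι κ L (Y (ad (nf ι κ L) p)) := rfl

theorem M2_apply_V2 (z : E d) (B : E d →L[ℝ] E d) (p : H) :
    M2 ι κ L A z B p = κ (A (ad ι.toContinuousLinearMap p) z) +
      DD ι κ L (B (ad ι.toContinuousLinearMap p)) := rfl

theorem YY_apply_V2 (φ : E n) (dφ : E d →L[ℝ] E n) (b : E n) :
    YY ι κ L A φ dφ b = gi (DD ι κ L) (ad dφ b) +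
      (2 : ℝ) • gi (DD ι κ L) (shL A φ (gi (DD ι κ L) (ad L b))) := rfl

theorem tr_pT_V2 (D : E d →L[ℝ] H) (M : H →L[ℝ] H) :
    trH ((pT D).comp M) = trH (((gi D).comp ((ad D).comp M)).comp D) :=
  trH_comm D ((gi D).comp ((ad D).comp M))

theorem pi_sub_V2 (hs : Spl ι κ) (h : Jet0 ε (DD ι κ L)) (p : H) :
    ad ι.toContinuousLinearMap p - gi (DD ι κ L) (ad (DD ι κ L) p) =
      -gi (DD ι κ L) (ad L (ad (nf ι κ L) p)) := by
  have e1 : gm (DD ι κ L) (ad ι.toContinuousLinearMap p) =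
      ad ι.toContinuousLinearMap p + ad L (L (ad ι.toContinuousLinearMap p)) := by
    rw [hs.gm_DD L]
    rfl
  rw [← h.gi_gm (ad ι.toContinuousLinearMap p), e1, ← map_sub, ← map_neg, ad_DD, ad_nf,
    map_sub (ad L)]
  congr 1
  abel

theorem M1_tr (hs : Spl ι κ) (h : Jet0 ε (DD ι κ L)) (har : tr2 A (gi (DD ι κ L)) = 0) (φ : E n)
    (dφ : E d →L[ℝ] E n) (Y : E n →L[ℝ] E d) :
    trH ((pT (DD ι κ L)).comp (M1 ι κ L A φ dφ Y)) = 0 := by
  have e1 : ((gi (DD ι κ L)).comp ((ad (DD ι κ L)).comp (M1 ι κ L A φ dφ Y))).comp (DD ι κ L) =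
      -(gi (DD ι κ L)).comp (shL A φ) := by
    ext1 v
    simp only [ContinuousLinearMap.comp_apply, neg_apply, M1_apply_V2]
    rw [(hs.frames L v 0).2.2.2.2.1, (hs.frames L v 0).2.1, map_zero, map_zero, sub_zero, map_sub,
      (hs.frames L v _).1, (hs.frames L _ 0).2.2.1, zero_sub, map_neg]
  rw [tr_pT_V2, e1, trH_neg, tr_shL_ChB2 h.gi_symm, ← inner_sum]
  change -⟪φ, tr2 A (gi (DD ι κ L))⟫ = 0
  rw [har, inner_zero_right, neg_zero]

theorem M1_off (hs : Spl ι κ) (h : Jet0 ε (DD ι κ L)) (sA : ∀ a b, A a b = A b a) (φ : E n)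
    (dφ : E d →L[ℝ] E n) :
    ad ((1 - pT (DD ι κ L)).comp ((M1 ι κ L A φ dφ (YY ι κ L A φ dφ)).comp (pT (DD ι κ L)))) +
      (pT (DD ι κ L)).comp ((M1 ι κ L A φ dφ (YY ι κ L A φ dφ)).comp (1 - pT (DD ι κ L))) = 0 := by
  ext1 p
  refine ext_inner_right ℝ fun q => ?_
  have hS := shL_symm sA φ
  have hr := pi_sub_V2 hs h p
  simp only [add_apply, zero_apply, inner_zero_left, inner_add_left, inner_ad_left,
    ContinuousLinearMap.comp_apply, sub_apply, one_apply_eq_self]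
  rw [h.pT_symm, pT_apply _ q]
  generalize gi (DD ι κ L) (ad (DD ι κ L) q) = w
  have e1 : M1 ι κ L A φ dφ (YY ι κ L A φ dφ) (DD ι κ L w) =
      nf ι κ L (dφ w) - ι (shL A φ w) := by
    rw [M1_apply_V2, (hs.frames L w 0).2.2.2.2.1, (hs.frames L w 0).2.1, map_zero, map_zero,
      sub_zero]
  have e2 : pT (DD ι κ L) (nf ι κ L (dφ w) - ι (shL A φ w)) =
      -DD ι κ L (gi (DD ι κ L) (shL A φ w)) := by
    rw [pT_apply, map_sub, (hs.frames L w _).1, (hs.frames L _ 0).2.2.1, zero_sub, map_neg, map_neg]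
  have e3 : ad ι.toContinuousLinearMap (p - pT (DD ι κ L) p) =
      -gi (DD ι κ L) (ad L (ad (nf ι κ L) p)) := by
    rw [map_sub, pT_apply, (hs.frames L _ 0).2.2.2.2.1, hr]
  have e4 : ad (nf ι κ L) (p - pT (DD ι κ L) p) = ad (nf ι κ L) p := by
    rw [map_sub, pT_apply, (hs.frames L _ 0).2.1, sub_zero]
  have e5 : ⟪p, ι (shL A φ w)⟫ - ⟪p, DD ι κ L (gi (DD ι κ L) (shL A φ w))⟫ =
      -⟪shL A φ (gi (DD ι κ L) (ad L (ad (nf ι κ L) p))), w⟫ := by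
    rw [hS, ← inner_neg_left, ← hr, inner_sub_left, h.gi_symm, inner_ad_left, inner_ad_left]
    rfl
  rw [e1, e2, M1_apply_V2, e3, e4, ← inner_ad_left (DD ι κ L), map_sub, map_sub,
    (hs.frames L w _).1, (hs.frames L _ 0).2.2.1, ← gm_apply, YY_apply_V2, map_add, map_smul,
    h.gm_gi, h.gm_gi]
  simp only [inner_sub_right, inner_neg_right, inner_sub_left, inner_add_left, inner_zero_left,
    real_inner_smul_left, map_neg, inner_neg_left, inner_ad_left]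
  linarith

theorem M2_tr (hs : Spl ι κ) (h : Jet0 ε (DD ι κ L)) (sA : ∀ a b, A a b = A b a) (z : E d)
    (B : E d →L[ℝ] E d) :
    trH ((pT (DD ι κ L)).comp (M2 ι κ L A z B)) = dlw (DD ι κ L) (kA κ A) z + trH B := by
  have e1 : ((gi (DD ι κ L)).comp ((ad (DD ι κ L)).comp (M2 ι κ L A z B))).comp (DD ι κ L) =
      ((gi (DD ι κ L)).comp (ad (DD ι κ L))).comp (kA κ A z) + B := by
    ext1 v
    simp only [ContinuousLinearMap.comp_apply, add_apply, M2_apply_V2, kA_apply]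
    rw [(hs.frames L v 0).2.2.2.2.1, map_add, map_add, ← gm_apply, h.gi_gm, sA]
  rw [tr_pT_V2, e1, trH_add, dlw_apply]

theorem norm_M1 (hL : ‖L‖ ≤ 1) (hA : ‖A‖ ≤ 1) (φ : E n) (dφ : E d →L[ℝ] E n) (Y : E n →L[ℝ] E d) :
    ‖M1 ι κ L A φ dφ Y‖ ≤ 2 * ‖dφ‖ + ‖φ‖ + 4 * ‖Y‖ := by
  obtain ⟨-, -, hD, hN, -⟩ := DD_sub (ι := ι) (κ := κ) L L
  have hD2 : ‖DD ι κ L‖ ≤ 2 := by linarith
  have hN2 : ‖nf ι κ L‖ ≤ 2 := by linarith
  refine ContinuousLinearMap.opNorm_le_bound _ (by positivity) fun p => ?_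
  have hp := norm_ad_iso ι p
  have h1 : ‖nf ι κ L (dφ (ad ι.toContinuousLinearMap p))‖ ≤ 2 * (‖dφ‖ * ‖p‖) :=
    (nf ι κ L).le_of_opNorm_le_of_le hN2 (dφ.le_of_opNorm_le_of_le le_rfl hp)
  have h2 : ‖ι (shL A φ (ad ι.toContinuousLinearMap p))‖ ≤ ‖φ‖ * ‖p‖ := by
    rw [ι.norm_map]
    refine (shL A φ).le_of_opNorm_le_of_le ((norm_shL_le A φ).trans ?_) hp
    exact mul_le_of_le_one_left (norm_nonneg _) hA
  have h3 : ‖DD ι κ L (Y (ad (nf ι κ L) p))‖ ≤ 2 * (‖Y‖ * (2 * ‖p‖)) :=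
    (DD ι κ L).le_of_opNorm_le_of_le hD2 (Y.le_of_opNorm_le_of_le le_rfl
      ((ad (nf ι κ L)).le_of_opNorm_le_of_le ((norm_ad _).le.trans hN2) le_rfl))
  rw [M1_apply_V2]
  refine (norm_sub_le _ _).trans ((add_le_add (norm_sub_le _ _) le_rfl).trans ?_)
  linarith

theorem norm_M2 (hL : ‖L‖ ≤ 1) (hA : ‖A‖ ≤ 1) (z : E d) (B : E d →L[ℝ] E d) :
    ‖M2 ι κ L A z B‖ ≤ ‖z‖ + 2 * ‖B‖ := by
  obtain ⟨-, -, hD, -, -⟩ := DD_sub (ι := ι) (κ := κ) L L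
  have hD2 : ‖DD ι κ L‖ ≤ 2 := by linarith
  refine ContinuousLinearMap.opNorm_le_bound _ (by positivity) fun p => ?_
  have hp := norm_ad_iso ι p
  have h1 : ‖κ (A (ad ι.toContinuousLinearMap p) z)‖ ≤ 1 * ‖p‖ * ‖z‖ := by
    rw [κ.norm_map]
    exact (A _).le_of_opNorm_le_of_le (A.le_of_opNorm_le_of_le hA hp) le_rfl
  have h3 : ‖DD ι κ L (B (ad ι.toContinuousLinearMap p))‖ ≤ 2 * (‖B‖ * ‖p‖) :=
    (DD ι κ L).le_of_opNorm_le_of_le hD2 (B.le_of_opNorm_le_of_le le_rfl hp)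
  rw [M2_apply_V2]
  refine (norm_add_le _ _).trans ?_
  linarith

theorem dgi_eq (hs : Spl ι κ) {u : E d → E n} (hu : Pw u ε) (hε : cH H * ε ≤ 1) {x : E d}
    (hN : NN u x = 0) (v : E d) :
    ⟪dgi u x, v⟫ = -dlw (DD ι κ (d1 u x)) (kA κ (d2 u x)) (iu u x v) := by
  have hj := hu.jet0 (ι := ι) (κ := κ) hε x
  have e1 : iu u = fun y => gi (DD ι κ (d1 u y)) := funext fun y => (hs.gi_DD u y).2.symm
  have hd : HasFDerivAt (d1 u) (d2 u x) x :=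
    ((hu.sm.fderiv_right (m := 1) (by norm_num)).differentiable one_ne_zero x).hasFDerivAt
  have hD : HasFDerivAt (fun y => DD ι κ (d1 u y)) (kA κ (d2 u x)) x :=
    ((ContinuousLinearMap.compL ℝ (E d) (E n) H κ.toContinuousLinearMap).hasFDerivAt.comp x
      hd).const_add ι.toContinuousLinearMap
  have hg : fderiv ℝ (iu u) x = (dgiL (DD ι κ (d1 u x))).comp (kA κ (d2 u x)) := by
    rw [e1]
    exact (hj.hasFDerivAt_gi.comp x hD).fderiv
  have har : trA (DD ι κ (d1 u x)) (kA κ (d2 u x)) = 0 := by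
    rw [hs.trA_gr, hN, map_zero]
  have hdiv := hj.div_gi (A := kA κ (d2 u x))
    (fun a b => by rw [kA_apply, kA_apply, hu.symm]) har v
  rw [← (hs.gi_DD u x).2, ← hdiv, trH_eq_sum (EuclideanSpace.basisFun (Fin d) ℝ), dgi, hg,
    sum_inner]
  refine Finset.sum_congr rfl fun i _ => ?_
  simp only [EuclideanSpace.basisFun_apply, ContinuousLinearMap.comp_apply,
    ContinuousLinearMap.flip_apply, dgiL_apply, dGL_dG, inner_neg_left, inner_neg_right]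
  rw [hj.gi_symm, dG_symm, hj.gi_symm]

theorem ZZ_eq_YY (hs : Spl ι κ) {u : E d → E n} (hu : Pw u ε) (hε : cH H * ε ≤ 1) {x : E d}
    (hN : NN u x = 0) (ψ : E d → E n) (a : ℝ) :
    a • ZZ u ψ x = YY ι κ (d1 u x) (d2 u x) (a • ψ x)
      (a • (d1 ψ x - (dlw (DD ι κ (d1 u x)) (kA κ (d2 u x))).smulRight (ψ x))) := by
  have hj := hu.jet0 (ι := ι) (κ := κ) hε x
  ext1 b
  refine ext_inner_right ℝ fun v => ?_
  have h1 := dgi_eq hs hu hε hN v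
  have e1 : ZZ u ψ x b = iu u x (ad (d1 ψ x) b) + ⟪ψ x, b⟫ • dgi u x +
      (2 : ℝ) • iu u x (shL (d2 u x) (ψ x) (iu u x (ad (d1 u x) b))) := rfl
  rw [YY_apply_V2, smul_apply, e1, ← (hs.gi_DD u x).2] at *
  simp only [inner_add_left, real_inner_smul_left, map_smul, smul_apply, h1]
  rw [hj.gi_symm (ad (d1 ψ x) b), hj.gi_symm (ad (d1 ψ x - _) b), inner_ad_left, inner_ad_left]
  simp only [sub_apply, ContinuousLinearMap.smulRight_apply, inner_sub_right,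
    real_inner_smul_right, real_inner_comm (ψ x) b]
  ring

end Pool.Agent.Lib.MP_8daebb_an.GM.Ch
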