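import Pool.Agent.Lib.MP_8daebb_an.GM.Ad1
import Pool.Agent.Lib.MP_8daebb_an.GM.Sy6

/-! The derivative of the test field. -/

open MeasureTheory Metric Set Filter Topology
open scoped RealInnerProductSpace ContDiff ENNReal

namespace Pool.Agent.Lib.MP_8daebb_an.GM.Ch

variable {d n : ℕ} {H : Type*} [NormedAddCommGroup H] [InnerProductSpace ℝ H]
  [FiniteDimensional ℝ H] {ι : E d →ₗᵢ[ℝ] H} {κ : E n →ₗᵢ[ℝ] H} {ε : ℝ} {u ψ : E d → E n}

theorem unit_V3 (hs : Spl ι κ) (hu : Pw u ε) (hε : cH H * ε ≤ 1) (x : E d) : IsUnit (gu u x) :=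
  (hs.gi_DD u x).1 ▸ (hu.jet0 (ι := ι) (κ := κ) hε x).unit

theorem contDiff_ZZ (hs : Spl ι κ) (hu : Pw u ε) (hε : cH H * ε ≤ 1) (hψ : ContDiff ℝ 2 ψ) :
    ContDiff ℝ 1 (ZZ u ψ) := by
  have hi2 := iu_contDiff_Sy6 hu.sm (unit_V3 hs hu hε)
  have hi : ContDiff ℝ 1 (iu u) := hi2.of_le (by norm_num)
  have hdi : ContDiff ℝ 1 (fderiv ℝ (iu u)) := hi2.fderiv_right (m := 1) (by norm_num)
  have h1 : ContDiff ℝ 2 (d1 u) := hu.sm.fderiv_right (m := 2) (by norm_num)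
  have h2 : ContDiff ℝ 1 (d2 u) := h1.fderiv_right (m := 1) (by norm_num)
  have p0 : ContDiff ℝ 1 ψ := hψ.of_le (by norm_num)
  have p1 : ContDiff ℝ 1 (d1 ψ) := hψ.fderiv_right (m := 1) (by norm_num)
  have a1 : ContDiff ℝ 1 fun x => ad (d1 ψ x) :=
    (ad : (E d →L[ℝ] E n) →L[ℝ] E n →L[ℝ] E d).contDiff.comp p1
  have a2 : ContDiff ℝ 1 fun x => ad (d1 u x) :=
    (ad : (E d →L[ℝ] E n) →L[ℝ] E n →L[ℝ] E d).contDiff.comp (h1.of_le (by norm_num))
  have hg : ContDiff ℝ 1 (dgi u) :=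
    ContDiff.sum fun i _ => (hdi.clm_apply contDiff_const).clm_apply contDiff_const
  refine contDiff_clm_apply_iff.2 fun b => ?_
  have hS : ∀ w : E d → E d, ContDiff ℝ 1 w → ContDiff ℝ 1 fun x => shL (d2 u x) (ψ x) (w x) :=
    fun w hw => ((ad : (E d →L[ℝ] E n) →L[ℝ] E n →L[ℝ] E d).contDiff.comp
      (h2.clm_apply hw)).clm_apply p0
  have e : (fun x => ZZ u ψ x b) = fun x => iu u x (ad (d1 ψ x) b) + ⟪ψ x, b⟫ • dgi u x +
      (2 : ℝ) • iu u x (shL (d2 u x) (ψ x) (iu u x (ad (d1 u x) b))) := by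
    funext x; simp [ZZ]
  rw [e]
  exact ((hi.clm_apply (a1.clm_apply contDiff_const)).add
    ((p0.inner ℝ contDiff_const).smul hg)).add
    ((hi.clm_apply (hS _ (hi.clm_apply (a2.clm_apply contDiff_const)))).const_smul _)

omit [FiniteDimensional ℝ H] in
theorem hasDD_V3 (L : E d →L[ℝ] E n) : HasFDerivAt (DD ι κ)
    (ContinuousLinearMap.compL ℝ (E d) (E n) H κ.toContinuousLinearMap) L :=
  (ContinuousLinearMap.compL ℝ (E d) (E n) H κ.toContinuousLinearMap).hasFDerivAt.const_add _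

omit [FiniteDimensional ℝ H] in
theorem smDD_V3 : ContDiff ℝ 1 (DD ι κ) :=
  contDiff_const.add (ContinuousLinearMap.compL ℝ (E d) (E n) H κ.toContinuousLinearMap).contDiff

theorem contDiff_XX (hs : Spl ι κ) (hu : Pw u ε) (hε : cH H * ε ≤ 1) (hψ : ContDiff ℝ 2 ψ) :
    ContDiff ℝ 1 (XX ι κ u ψ) := by
  have hv : ContDiff ℝ 1 (vx ι : H → E d) := (ad ι.toContinuousLinearMap).contDiff
  have h1 : ContDiff ℝ 1 (d1 u) := hu.sm.fderiv_right (m := 1) (by norm_num)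
  have hD : ContDiff ℝ 1 fun x => DD ι κ (d1 u x) := smDD_V3.comp h1
  have hw : ContDiff ℝ 1 fun x => (wt (DD ι κ (d1 u x)))⁻¹ := by
    refine ContDiff.inv (contDiff_iff_contDiffAt.2 fun x => ?_) fun x => (hu.jet0 hε x).wt_pos.ne'
    have h3 : ContDiffAt ℝ 1 wt (DD ι κ (d1 u x)) :=
      (hu.jet0 hε x).contDiffAt_wt.of_le (by exact_mod_cast le_top)
    exact ContDiffAt.comp (g := wt) (f := fun x => DD ι κ (d1 u x)) x h3 hD.contDiffAt
  have p0 : ContDiff ℝ 1 ψ := hψ.of_le (by norm_num)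
  have a2 : ContDiff ℝ 1 fun x => ad (d1 u x) :=
    (ad : (E d →L[ℝ] E n) →L[ℝ] E n →L[ℝ] E d).contDiff.comp h1
  have hN : ContDiff ℝ 1 fun x => nf ι κ (d1 u x) (ψ x) :=
    (κ.toContinuousLinearMap.contDiff.comp p0).sub
      (ι.toContinuousLinearMap.contDiff.comp (a2.clm_apply p0))
  have hz : ContDiff ℝ 1 (vz ι κ u) :=
    (ad κ.toContinuousLinearMap).contDiff.sub ((hu.sm.of_le (by norm_num)).comp hv)
  exact (hw.comp hv).smul ((hN.comp hv).sub ((hD.comp hv).clm_apply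
    (((contDiff_ZZ hs hu hε hψ).comp hv).clm_apply hz)))

theorem XX_zero {p : H} (h : ψ =ᶠ[𝓝 (vx ι p)] fun _ => 0) : XX ι κ u ψ p = 0 := by
  have h0 : ψ (vx ι p) = 0 := h.eq_of_nhds
  simp [XX, (JT_zero u h).1, h0]

theorem hasFDerivAt_vz (hu : Pw u ε) (p : H) :
    HasFDerivAt (vz ι κ u) (ad (nf ι κ (d1 u (vx ι p)))) p := by
  have h1 := ((hu.sm.differentiable (by norm_num)) (vx ι p)).hasFDerivAt.comp p
    (ad ι.toContinuousLinearMap).hasFDerivAt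
  have h2 := (ad κ.toContinuousLinearMap).hasFDerivAt.sub h1
  refine h2.congr_fderiv ?_
  ext1 q
  rw [ad_nf]; rfl

theorem fderiv_XX (hs : Spl ι κ) (hu : Pw u ε) (hε : cH H * ε ≤ 1) (hψ : ContDiff ℝ 2 ψ) (p : H)
    {x : E d} (hx : x = vx ι p) {a : ℝ} (ha : a = (wt (DD ι κ (d1 u x)))⁻¹) {lw : E d →L[ℝ] ℝ}
    (hl : lw = dlw (DD ι κ (d1 u x)) (kA κ (d2 u x))) :
    fderiv ℝ (XX ι κ u ψ) p =
      M1 ι κ (d1 u x) (d2 u x) (a • ψ x) (a • (d1 ψ x - lw.smulRight (ψ x))) (a • ZZ u ψ x) -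
      M2 ι κ (d1 u x) (d2 u x) (a • ZZ u ψ x (vz ι κ u p))
        (a • ((fderiv ℝ (ZZ u ψ) x).flip (vz ι κ u p) - lw.smulRight (ZZ u ψ x (vz ι κ u p)))) := by
  subst hx
  set x := vx ι p with hx
  have hv : HasFDerivAt (vx ι : H → E d) (ad ι.toContinuousLinearMap) p :=
    (ad ι.toContinuousLinearMap).hasFDerivAt
  have h1 : HasFDerivAt (d1 u) (d2 u x) x :=
    ((hu.sm.fderiv_right (m := 1) (by norm_num)).differentiable one_ne_zero x).hasFDerivAt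
  have hD : HasFDerivAt (fun x => DD ι κ (d1 u x)) (kA κ (d2 u x)) x := (hasDD_V3 _).comp x h1
  have hJ := hu.jet0 (ι := ι) (κ := κ) hε x
  have hw0 := hJ.hasFDerivAt_wt.comp x hD
  have hw : HasFDerivAt (fun x => (wt (DD ι κ (d1 u x)))⁻¹) ((-a) • lw) x := by
    refine ((hasFDerivAt_inv hJ.wt_pos.ne').comp x hw0).congr_fderiv ?_
    ext h
    have := hJ.wt_pos.ne'
    simp only [ha, hl, ContinuousLinearMap.comp_apply, smul_apply, lwL_dlw,
      ContinuousLinearMap.toSpanSingleton_apply, smul_eq_mul]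
    field_simp
  have p0 : HasFDerivAt ψ (d1 ψ x) x := (hψ.differentiable two_ne_zero x).hasFDerivAt
  have a2 := (ad : (E d →L[ℝ] E n) →L[ℝ] E n →L[ℝ] E d).hasFDerivAt.comp x h1
  have hN := (κ.toContinuousLinearMap.hasFDerivAt.comp x p0).sub
      (ι.toContinuousLinearMap.hasFDerivAt.comp x (a2.clm_apply p0))
  have hZ : HasFDerivAt (ZZ u ψ) (fderiv ℝ (ZZ u ψ) x) x :=
    ((contDiff_ZZ hs hu hε hψ).differentiable one_ne_zero x).hasFDerivAt
  have hF := (hw.comp p hv).smul ((hN.comp p hv).sub ((hD.comp p hv).clm_apply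
    ((hZ.comp p hv).clm_apply (hasFDerivAt_vz (ι := ι) (κ := κ) hu p))))
  ext1 q
  have e : fderiv ℝ (XX ι κ u ψ) p q =
      a • ((κ (d1 ψ x (ad ι.toContinuousLinearMap q)) -
        ι (ad (d1 u x) (d1 ψ x (ad ι.toContinuousLinearMap q)) +
          ad (d2 u x (ad ι.toContinuousLinearMap q)) (ψ x))) -
        (DD ι κ (d1 u x) (ZZ u ψ x (ad (nf ι κ (d1 u x)) q) +
          fderiv ℝ (ZZ u ψ) x (ad ι.toContinuousLinearMap q) (vz ι κ u p)) +
        κ (d2 u x (ad ι.toContinuousLinearMap q) (ZZ u ψ x (vz ι κ u p))))) +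
      (-a * lw (ad ι.toContinuousLinearMap q)) • ((κ (ψ x) - ι (ad (d1 u x) (ψ x))) -
        DD ι κ (d1 u x) (ZZ u ψ x (vz ι κ u p))) := by
    have := congrArg (fun M => M q) hF.fderiv
    subst ha
    exact this
  rw [e]
  simp only [M1, M2, sub_apply, ContinuousLinearMap.comp_apply,
    add_apply, smul_apply, ContinuousLinearMap.flip_apply,
    ContinuousLinearMap.smulRight_apply, LinearIsometry.coe_toContinuousLinearMap, nf_apply,
    shL_apply, map_add, map_sub, map_smul]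
  module

end Pool.Agent.Lib.MP_8daebb_an.GM.Ch
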