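import Pool.Agent.Lib.MP_8daebb_an.GM.V1
import Pool.Agent.Lib.MP_8daebb_an.GM.V2
import Pool.Agent.Lib.MP_8daebb_an.GM.V3

/-! The divergence of the test field along a plane. -/

open MeasureTheory Metric Set Filter Topology
open scoped RealInnerProductSpace ContDiff ENNReal

namespace Pool.Agent.Lib.MP_8daebb_an.GM.Ch

variable {d n : ℕ} {H : Type*} [NormedAddCommGroup H] [InnerProductSpace ℝ H]
  [FiniteDimensional ℝ H] {ι : E d →ₗᵢ[ℝ] H} {κ : E n →ₗᵢ[ℝ] H}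

theorem tr_flip_dvz (Z : E d → E n →L[ℝ] E d) (x : E d) (ζ : E n) :
    trH ((fderiv ℝ Z x).flip ζ) = ⟪dvz Z x, ζ⟫ := by
  rw [trH_eq_sum (EuclideanSpace.basisFun (Fin d) ℝ), dvz, sum_inner]
  refine Finset.sum_congr rfl fun i _ => ?_
  rw [inner_ad_left, EuclideanSpace.basisFun_apply, ContinuousLinearMap.flip_apply]

theorem tr_smulRight_V4 (l : E d →L[ℝ] ℝ) (z : E d) : trH (l.smulRight z) = l z := by
  have e : ((l.smulRight z : E d →L[ℝ] E d) : E d →ₗ[ℝ] E d) =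
      (l : E d →ₗ[ℝ] ℝ).smulRight z := rfl
  rw [trH, e, LinearMap.trace_smulRight]
  rfl

theorem num_V4 {d Λ t s z A B : ℝ} (hd : 0 ≤ d) (hΛ : 0 ≤ Λ) (ht : 0 ≤ t)
    (hs : s ^ 2 = t) (hA : A ≤ 2 * t * (8 * Λ)) (hB : B ≤ 2 * d * s * (4 * (Λ * z))) :
    A + B ≤ 50 * (d + 1) * Λ * (t + z ^ 2) := by
  have h1 : 2 * (s * z) ≤ t + z ^ 2 := by nlinarith [sq_nonneg (s - z)]
  have h2 : 0 ≤ d * Λ := mul_nonneg hd hΛ
  have h3 : 2 * d * s * (4 * (Λ * z)) = 4 * (d * Λ) * (2 * (s * z)) := by ring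
  have h4 : 4 * (d * Λ) * (2 * (s * z)) ≤ 4 * (d * Λ) * (t + z ^ 2) :=
    mul_le_mul_of_nonneg_left h1 (by positivity)
  have h5 : 0 ≤ Λ * z ^ 2 := by positivity
  have h6 : 0 ≤ Λ * t := by positivity
  have h7 : 0 ≤ d * Λ * (t + z ^ 2) := by positivity
  nlinarith

theorem XX_div {ε Λ : ℝ} {u ψ : E d → E n} (hs : Spl ι κ) (hu : Pw u ε) (hε : cH H * ε ≤ 1)
    (hψ : ContDiff ℝ 2 ψ) {p : H} {P : H →L[ℝ] H} (hP : IsPlane d P) (hN : NN u (vx ι p) = 0)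
    (h0 : ‖ψ (vx ι p)‖ ≤ Λ) (h1 : ‖d1 ψ (vx ι p)‖ ≤ Λ) (h2 : ‖ZZ u ψ (vx ι p)‖ ≤ Λ)
    (h3 : ∀ a, ‖fderiv ℝ (ZZ u ψ) (vx ι p) a‖ ≤ Λ * ‖a‖) :
    |tanDiv (XX ι κ u ψ) (p, P) +
        ⟪JT u ψ (vx ι p), vz ι κ u p⟫ / wt (DD ι κ (d1 u (vx ι p)))| ≤
      50 * (d + 1) * Λ * (ft (DD ι κ (d1 u (vx ι p))) P + ‖vz ι κ u p‖ ^ 2) := by
  have hd := fderiv_XX hs hu hε hψ p rfl rfl rfl
  have hY := ZZ_eq_YY hs hu hε hN ψ (wt (DD ι κ (d1 u (vx ι p))))⁻¹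
  have hJ := hu.jet0 (ι := ι) (κ := κ) hε (vx ι p)
  have har : tr2 (d2 u (vx ι p)) (gi (DD ι κ (d1 u (vx ι p)))) = 0 := by
    rw [(hs.gi_DD u (vx ι p)).2]; exact hN
  have hfl := tr_flip_dvz (ZZ u ψ) (vx ι p) (vz ι κ u p)
  have hL : ‖d1 u (vx ι p)‖ ≤ 1 := (hu.n1 _).trans (hJ.eps_le.trans (by norm_num))
  have hA0 : ‖d2 u (vx ι p)‖ ≤ ε := hu.n2 _
  have hA : ‖d2 u (vx ι p)‖ ≤ 1 := hA0.trans (hJ.eps_le.trans (by norm_num))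
  have sA := hu.symm (vx ι p)
  have hF : ‖(fderiv ℝ (ZZ u ψ) (vx ι p)).flip (vz ι κ u p)‖ ≤ Λ * ‖vz ι κ u p‖ := by
    refine ContinuousLinearMap.opNorm_le_bound _
      (mul_nonneg ((norm_nonneg _).trans h0) (norm_nonneg _)) fun a => ?_
    rw [ContinuousLinearMap.flip_apply]
    calc _ ≤ ‖fderiv ℝ (ZZ u ψ) (vx ι p) a‖ * ‖vz ι κ u p‖ := ContinuousLinearMap.le_opNorm _ _
      _ ≤ Λ * ‖a‖ * ‖vz ι κ u p‖ := mul_le_mul_of_nonneg_right (h3 a) (norm_nonneg _)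
      _ = _ := by ring
  have et : tanDiv (XX ι κ u ψ) (p, P) = trH (P.comp (fderiv ℝ (XX ι κ u ψ) p)) := rfl
  rw [et, hd, JT, ← hfl]
  generalize vx ι p = x at *
  generalize vz ι κ u p = ζ at *
  generalize (fderiv ℝ (ZZ u ψ) x).flip ζ = F at *
  generalize ZZ u ψ x = Z at *
  generalize d1 ψ x = dψ at *
  generalize ψ x = φ at *
  generalize d1 u x = L at *
  generalize d2 u x = A at *
  have hΛ : 0 ≤ Λ := (norm_nonneg _).trans h0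
  have hw := hJ.wt_low
  have hlw : ‖dlw (DD ι κ L) (kA κ A)‖ ≤ 1 / 100 := by
    refine ContinuousLinearMap.opNorm_le_bound _ (by norm_num) fun a => ?_
    have e1 := hJ.abs_dlw (kA κ A) a
    have e2 : ‖kA κ A a‖ ≤ ε * ‖a‖ :=
      (ContinuousLinearMap.le_opNorm _ _).trans
        (mul_le_mul_of_nonneg_right ((norm_kA A).trans hA0) (norm_nonneg _))
    have e3 := hJ.d_eps
    have e4 : (0 : ℝ) ≤ d := Nat.cast_nonneg d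
    have e5 : 2 * d * ‖kA κ A a‖ ≤ 2 * d * (ε * ‖a‖) :=
      mul_le_mul_of_nonneg_left e2 (by positivity)
    rw [Real.norm_eq_abs]
    nlinarith [norm_nonneg a]
  have tM2 := M2_tr hs hJ sA ((wt (DD ι κ L))⁻¹ • Z ζ)
    ((wt (DD ι κ L))⁻¹ • (F - (dlw (DD ι κ L) (kA κ A)).smulRight (Z ζ)))
  have o2 := tr_off hJ hP (M2 ι κ L A ((wt (DD ι κ L))⁻¹ • Z ζ)
    ((wt (DD ι κ L))⁻¹ • (F - (dlw (DD ι κ L) (kA κ A)).smulRight (Z ζ))))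
  have n2 := norm_M2 (ι := ι) (κ := κ) hL hA ((wt (DD ι κ L))⁻¹ • Z ζ)
    ((wt (DD ι κ L))⁻¹ • (F - (dlw (DD ι κ L) (kA κ A)).smulRight (Z ζ)))
  have o1 := tr_diag hJ hP (M1_tr hs hJ har ((wt (DD ι κ L))⁻¹ • φ)
    ((wt (DD ι κ L))⁻¹ • (dψ - (dlw (DD ι κ L) (kA κ A)).smulRight φ)) ((wt (DD ι κ L))⁻¹ • Z))
    (by rw [hY]; exact M1_off hs hJ sA _ _)
  have n1 := norm_M1 (ι := ι) (κ := κ) hL hA ((wt (DD ι κ L))⁻¹ • φ)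
    ((wt (DD ι κ L))⁻¹ • (dψ - (dlw (DD ι κ L) (kA κ A)).smulRight φ)) ((wt (DD ι κ L))⁻¹ • Z)
  have ht := ft_nonneg hJ hP
  rw [trH_smul, trH_sub, tr_smulRight_V4, map_smul, smul_eq_mul] at tM2
  rw [ContinuousLinearMap.comp_sub, trH_sub, div_eq_inv_mul]
  have ha0 : 0 ≤ (wt (DD ι κ L))⁻¹ := inv_nonneg.2 hJ.wt_pos.le
  have ha1 : (wt (DD ι κ L))⁻¹ ≤ 11 / 10 := by
    rw [inv_le_comm₀ hJ.wt_pos (by norm_num)]; linarith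
  generalize dlw (DD ι κ L) (kA κ A) = lw at *
  generalize (wt (DD ι κ L))⁻¹ = a at *
  have hZ : ‖Z ζ‖ ≤ Λ * ‖ζ‖ :=
    (Z.le_opNorm ζ).trans (mul_le_mul_of_nonneg_right h2 (norm_nonneg _))
  have sm : ∀ {X : Type} [NormedAddCommGroup X] [NormedSpace ℝ X] (v : X) (c : ℝ), ‖v‖ ≤ c →
      ‖a • v‖ ≤ 11 / 10 * c := fun v c h => by
    rw [norm_smul, Real.norm_of_nonneg ha0]
    exact mul_le_mul ha1 h (norm_nonneg _) (by norm_num)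
  have b1 : ‖dψ - lw.smulRight φ‖ ≤ 101 / 100 * Λ := by
    have e1 : ‖lw‖ * ‖φ‖ ≤ 1 / 100 * Λ := mul_le_mul hlw h0 (norm_nonneg _) (by norm_num)
    have e2 := norm_sub_le dψ (lw.smulRight φ)
    rw [ContinuousLinearMap.norm_smulRight_apply] at e2
    linarith
  have b2 : ‖F - lw.smulRight (Z ζ)‖ ≤ 101 / 100 * (Λ * ‖ζ‖) := by
    have e1 : ‖lw‖ * ‖Z ζ‖ ≤ 1 / 100 * (Λ * ‖ζ‖) :=
      mul_le_mul hlw hZ (norm_nonneg _) (by norm_num)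
    have e2 := norm_sub_le F (lw.smulRight (Z ζ))
    rw [ContinuousLinearMap.norm_smulRight_apply] at e2
    linarith
  have hp : 0 ≤ Λ * ‖ζ‖ := by positivity
  have m1 : ‖M1 ι κ L A (a • φ) (a • (dψ - lw.smulRight φ)) (a • Z)‖ ≤ 8 * Λ := by
    linarith [sm _ _ b1, sm _ _ h0, sm _ _ h2]
  have m2 : ‖M2 ι κ L A (a • Z ζ) (a • (F - lw.smulRight (Z ζ)))‖ ≤ 4 * (Λ * ‖ζ‖) := by
    linarith [sm _ _ b2, sm _ _ hZ]
  have k1 := o1.trans (mul_le_mul_of_nonneg_left m1 (by positivity))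
  have k2 := o2.trans (mul_le_mul_of_nonneg_left m2 (by positivity))
  refine le_trans ?_ (num_V4 (Nat.cast_nonneg d) hΛ ht (Real.sq_sqrt ht) k1 k2)
  refine le_trans (le_of_eq ?_) (abs_sub _ _)
  congr 1
  rw [tM2]
  ring

end Pool.Agent.Lib.MP_8daebb_an.GM.Ch
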