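import Pool.Agent.Lib.MP_8daebb_an.GM.Ad2

/-! Vertical heights and normal heights. -/

open MeasureTheory Metric Set Filter Topology
open scoped RealInnerProductSpace ContDiff ENNReal

namespace Pool.Agent.Lib.MP_8daebb_an.GM.Ch

variable {d n : ℕ} {H : Type*} [NormedAddCommGroup H] [InnerProductSpace ℝ H]
  [FiniteDimensional ℝ H] {ι : E d →ₗᵢ[ℝ] H} {κ : E n →ₗᵢ[ℝ] H} {ε : ℝ} {u : E d → E n}

theorem norm_ad_le_V5 {L : E d →L[ℝ] E n} {c : ℝ} (h : ‖L‖ ≤ c) (b : E n) : ‖ad L b‖ ≤ c * ‖b‖ :=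
  ((ad L).le_opNorm b).trans (mul_le_mul_of_nonneg_right ((norm_ad L).trans_le h) (norm_nonneg b))

theorem ad_nf_comb_V5 (hs : Spl ι κ) (L : E d →L[ℝ] E n) (a : E d) (b : E n) :
    ad (nf ι κ L) (ι a + κ b) = b - L a := by
  rw [ad_nf, (hs.ad_comb a b).1, (hs.ad_comb a b).2]

theorem ft_aff_V5 (hu : Pw u ε) (hε : cH H * ε ≤ 1) {x₀ : E d} (z : E d) {A : E d →L[ℝ] E d}
    (hA : Fr x₀ A) (P : H →L[ℝ] H) :
    ft (d1 (aff (gr ι κ u) x₀ A) z) P = ft (DD ι κ (d1 u (x₀ + A z))) P := by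
  rw [d1_aff_gr hu.sm]
  exact ft_comp (hu.jet0 hε _).unit (Ring.mul_inverse_cancel A hA.inv.1)
    (Ring.inverse_mul_cancel A hA.inv.1) P

theorem fermi_vert (hs : Spl ι κ) (hu : Pw u ε) (hε : cH H * ε ≤ 1) {x₀ z : E d}
    {A : E d →L[ℝ] E d} (hA : Fr x₀ A) {y p : H} (hy : ad (d1 (aff (gr ι κ u) x₀ A) z) y = 0)
    (hp : p = aff (gr ι κ u) x₀ A z + y) {P : H →L[ℝ] H} (hP : IsPlane d P) :
    ‖vx ι p - (x₀ + A z)‖ ≤ ε * ‖y‖ ∧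
      ‖vz ι κ u p - ad (nf ι κ (d1 u (x₀ + A z))) y‖ ≤ ‖y‖ ^ 2 ∧
      ‖ad (nf ι κ (d1 u (x₀ + A z))) y‖ ≤ 2 * ‖y‖ ∧
      ft (DD ι κ (d1 u (vx ι p))) P ≤ 2 * ft (d1 (aff (gr ι κ u) x₀ A) z) P + 2 * ‖y‖ ^ 2 ∧
      |wt (d1 (aff (gr ι κ u) x₀ A) z) / wt (DD ι κ (d1 u (vx ι p))) - (|A.det|)| ≤ |A.det| * ‖y‖ ∧
      0 ≤ wt (d1 (aff (gr ι κ u) x₀ A) z) ∧ wt (d1 (aff (gr ι κ u) x₀ A) z) ≤ 2 * |A.det| := by
  rw [ft_aff_V5 hu hε z hA P]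
  rw [d1_aff_gr hu.sm] at hy ⊢
  rw [hA.ad_comp, ad_DD] at hy
  rw [wt_comp]
  set x := x₀ + A z with hx
  have j0 := hu.jet0 (ι := ι) (κ := κ) hε x
  have j1 := hu.jet0 (ι := ι) (κ := κ) hε (vx ι p)
  have e0 := j0.eps0
  have e1 := j0.eps_le
  have e2 := j0.dd_eps
  have e3 := j0.d_eps
  have hd : (0 : ℝ) ≤ d := Nat.cast_nonneg d
  have y0 := norm_nonneg y
  have hp' : p = ι x + κ (u x) + y := hp
  have v1 : vx ι p - x = ad ι.toContinuousLinearMap y := by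
    rw [vx, hp', map_add, (hs.ad_comb x (u x)).1, add_sub_cancel_left]
  have v2 : ‖vx ι p - x‖ ≤ ε * ‖y‖ := by
    rw [v1, eq_neg_of_add_eq_zero_left hy, norm_neg]
    exact (norm_ad_le_V5 (hu.n1 x) _).trans (mul_le_mul_of_nonneg_left (norm_ad_iso κ y) e0)
  have v3 : vz ι κ u p - ad (nf ι κ (d1 u x)) y =
      -(u (vx ι p) - u x - d1 u x (vx ι p - x)) := by
    rw [vz, ad_nf, v1]
    conv_lhs => rw [hp', map_add, (hs.ad_comb x (u x)).2, ← hp']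
    abel
  obtain ⟨-, l2, l3⟩ := hu.lip (vx ι p) x
  have v4 : ‖DD ι κ (d1 u (vx ι p)) - DD ι κ (d1 u x)‖ ≤ ε * (ε * ‖y‖) :=
    (DD_sub _ _).1.trans (l2.trans (mul_le_mul_of_nonneg_left v2 e0))
  have v5 : ε * ‖y‖ ≤ ‖y‖ := mul_le_of_le_one_left y0 (by linarith)
  have v6 : 0 ≤ ε * ‖y‖ := mul_nonneg e0 y0
  have a0 := abs_nonneg A.det
  have w0 := j0.wt_pos
  have w1 := j1.wt_low
  refine ⟨v2, ?_, ?_, ?_, ?_, by positivity, ?_⟩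
  · rw [v3, norm_neg]
    have k := pow_le_pow_left₀ (norm_nonneg _) (v2.trans v5) 2
    exact l3.trans ((mul_le_of_le_one_left (sq_nonneg _) (by linarith)).trans k)
  · refine ((ad _).le_opNorm y).trans (mul_le_mul_of_nonneg_right ?_ y0)
    rw [norm_ad]
    linarith [(DD_sub (ι := ι) (κ := κ) (d1 u x) (d1 u x)).2.2.2.1, hu.n1 x]
  · have k1 := (abs_le.1 (j1.sqrt_ft_sub' j0 hP)).2
    have k2 : 6 * ((d : ℝ) + 1) * (ε * (ε * ‖y‖)) ≤ ‖y‖ := by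
      have k3 : 6 * ((d : ℝ) + 1) * ε ≤ 1 := by nlinarith
      nlinarith
    have k4 := mul_le_mul_of_nonneg_left v4 (show 0 ≤ 6 * ((d : ℝ) + 1) by positivity)
    have k5 : √(ft (DD ι κ (d1 u (vx ι p))) P) ≤ √(ft (DD ι κ (d1 u x)) P) + ‖y‖ := by linarith
    have k6 := pow_le_pow_left₀ (Real.sqrt_nonneg _) k5 2
    rw [Real.sq_sqrt (ft_nonneg j1 hP), add_sq, Real.sq_sqrt (ft_nonneg j0 hP)] at k6
    nlinarith [sq_nonneg (√(ft (DD ι κ (d1 u x)) P) - ‖y‖), Real.sq_sqrt (ft_nonneg j0 hP)]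
  · have k1 := j1.wt_sub' j0
    have k2 := mul_le_mul_of_nonneg_left v4 (show 0 ≤ 3 * (d : ℝ) by positivity)
    have k3 : 3 * (d : ℝ) * (ε * (ε * ‖y‖)) ≤ ‖y‖ / 2 := by nlinarith
    have w2 := j1.wt_pos
    rw [show |A.det| * wt (DD ι κ (d1 u x)) / wt (DD ι κ (d1 u (vx ι p))) - |A.det| =
      |A.det| * ((wt (DD ι κ (d1 u x)) - wt (DD ι κ (d1 u (vx ι p)))) /
        wt (DD ι κ (d1 u (vx ι p)))) by field_simp, abs_mul, abs_abs, abs_div, abs_of_pos w2,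
      abs_sub_comm]
    refine mul_le_mul_of_nonneg_left ?_ a0
    rw [div_le_iff₀ w2]
    nlinarith
  · nlinarith [j0.wt_up]

theorem new_pt (hs : Spl ι κ) (hu : Pw u ε) {du : E d → E n} {e r : ℝ} (hd : Pw du e)
    {x x' : E d} {y y' : H} (h : gr ι κ u x + y = gr ι κ (fun z => u z + du z) x' + y')
    (hr : ‖x - x'‖ ≤ r) :
    ‖ad (nf ι κ (d1 u x)) y' - (ad (nf ι κ (d1 u x)) y - du x)‖ ≤ ε * r ^ 2 + e * r := by
  have e0 : 0 ≤ ε := (norm_nonneg _).trans (hu.n0 x)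
  have e1 : 0 ≤ e := (norm_nonneg _).trans (hd.n0 x)
  have h1 : y' = y + (ι (x - x') + κ (u x - u x' - du x')) := by
    have h2 : ι x + κ (u x) + y = ι x' + κ (u x' + du x') + y' := h
    rw [map_add] at h2
    rw [map_sub, map_sub, map_sub, ← sub_eq_of_eq_add' h2]
    abel
  have h3 : ad (nf ι κ (d1 u x)) y' - (ad (nf ι κ (d1 u x)) y - du x) =
      -(u x' - u x - d1 u x (x' - x)) + (du x - du x') := by
    rw [h1, map_add, ad_nf_comb_V5 hs, map_sub, map_sub]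
    abel
  rw [h3]
  refine (norm_add_le _ _).trans (add_le_add ?_ ?_)
  · rw [norm_neg]
    refine (hu.lip x' x).2.2.trans (mul_le_mul_of_nonneg_left ?_ e0)
    rw [norm_sub_rev]
    exact pow_le_pow_left₀ (norm_nonneg _) hr 2
  · exact (hd.lip x x').1.trans (mul_le_mul_of_nonneg_left hr e1)

theorem weak_pt : ∃ ε₀ C : ℝ, 0 < ε₀ ∧ 0 < C ∧ ∀ (ι : E d →ₗᵢ[ℝ] H) (κ : E n →ₗᵢ[ℝ] H)
    (u : E d → E n) (ε : ℝ) (x₀ z : E d) (A : E d →L[ℝ] E d) (y p : H) (P : H →L[ℝ] H)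
    (f : E d → E n) (Λ T : ℝ), Spl ι κ → Pw u ε → ε ≤ ε₀ → Fr x₀ A →
    ad (d1 (aff (gr ι κ u) x₀ A) z) y = 0 → p = aff (gr ι κ u) x₀ A z + y → IsPlane d P → ‖y‖ ≤ 2 →
    0 ≤ Λ → (∀ x, ‖f x‖ ≤ Λ) → (∀ x x', ‖f x - f x'‖ ≤ Λ * ‖x - x'‖) →
    |T + ⟪f (vx ι p), vz ι κ u p⟫ / wt (DD ι κ (d1 u (vx ι p)))| ≤
      Λ * (ft (DD ι κ (d1 u (vx ι p))) P + ‖vz ι κ u p‖ ^ 2) →
    |wt (d1 (aff (gr ι κ u) x₀ A) z) * T +
        |A.det| * ⟪f (x₀ + A z), ad (nf ι κ (d1 u (x₀ + A z))) y⟫| ≤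
      C * Λ * (ft (d1 (aff (gr ι κ u) x₀ A) z) P + ‖y‖ ^ 2) := by
  obtain ⟨C, hC, HC⟩ := fr_det (d := d)
  have hc : 0 < cH H := lt_of_lt_of_le (by norm_num) cH_ge
  refine ⟨1 / cH H, 43 * C, by positivity, by positivity,
    fun ι κ u ε x₀ z A y p P f Λ T hs hu hε hA hy hp hP hy2 hΛ hf hf' hT => ?_⟩
  have hε' : cH H * ε ≤ 1 := by rwa [le_div_iff₀' hc] at hε
  obtain ⟨f1, f2, f3, f4, f5, f6, f7⟩ := fermi_vert hs hu hε' hA hy hp hP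
  have j0 := hu.jet0 (ι := ι) (κ := κ) hε' (x₀ + A z)
  have t0 : 0 ≤ ft (d1 (aff (gr ι κ u) x₀ A) z) P := by
    rw [ft_aff_V5 hu hε' z hA P]
    exact ft_nonneg j0 hP
  have e0 := j0.eps0
  have e1 := j0.eps_le
  have a1 := (HC x₀ A hA).1
  have a0 := abs_nonneg A.det
  have y0 := norm_nonneg y
  generalize ft (d1 (aff (gr ι κ u) x₀ A) z) P = t at *
  generalize ft (DD ι κ (d1 u (vx ι p))) P = t' at *
  generalize wt (d1 (aff (gr ι κ u) x₀ A) z) = W at *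
  generalize wt (DD ι κ (d1 u (vx ι p))) = w at *
  generalize ad (nf ι κ (d1 u (x₀ + A z))) y = N at *
  generalize vz ι κ u p = V at *
  generalize |A.det| = a at *
  have v1 : ‖V‖ ≤ 4 * ‖y‖ := by
    have k := norm_le_norm_sub_add V N
    nlinarith
  have v2 : ‖V‖ ^ 2 ≤ 16 * ‖y‖ ^ 2 := (pow_le_pow_left₀ (norm_nonneg _) v1 2).trans_eq (by ring)
  have b1 : |W * (T + ⟪f (vx ι p), V⟫ / w)| ≤ 2 * a * (Λ * (2 * t + 18 * ‖y‖ ^ 2)) := by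
    rw [abs_mul, abs_of_nonneg f6]
    exact mul_le_mul f7 (hT.trans (mul_le_mul_of_nonneg_left (by linarith) hΛ)) (abs_nonneg _)
      (by positivity)
  have b2 : |(W / w - a) * ⟪f (vx ι p), V⟫| ≤ a * ‖y‖ * (Λ * (4 * ‖y‖)) := by
    rw [abs_mul]
    exact mul_le_mul f5 ((abs_real_inner_le_norm _ _).trans
      (mul_le_mul (hf _) v1 (norm_nonneg _) hΛ)) (abs_nonneg _) (by positivity)
  have b3 : |a * ⟪f (vx ι p), V - N⟫| ≤ a * (Λ * ‖y‖ ^ 2) := by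
    rw [abs_mul, abs_of_nonneg a0]
    exact mul_le_mul_of_nonneg_left ((abs_real_inner_le_norm _ _).trans
      (mul_le_mul (hf _) f2 (norm_nonneg _) hΛ)) a0
  have b4 : |a * ⟪f (vx ι p) - f (x₀ + A z), N⟫| ≤ a * (Λ * ‖y‖ * (2 * ‖y‖)) := by
    rw [abs_mul, abs_of_nonneg a0]
    refine mul_le_mul_of_nonneg_left ((abs_real_inner_le_norm _ _).trans
      (mul_le_mul ((hf' _ _).trans (mul_le_mul_of_nonneg_left (f1.trans ?_) hΛ)) f3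
        (norm_nonneg _) (by positivity))) a0
    exact mul_le_of_le_one_left y0 (by linarith)
  have e : W * T + a * ⟪f (x₀ + A z), N⟫ = W * (T + ⟪f (vx ι p), V⟫ / w) -
      (W / w - a) * ⟪f (vx ι p), V⟫ - a * ⟪f (vx ι p), V - N⟫ -
      a * ⟪f (vx ι p) - f (x₀ + A z), N⟫ := by
    rw [inner_sub_right, inner_sub_left]
    ring
  have k1 : a * (Λ * (t + ‖y‖ ^ 2)) ≤ C * (Λ * (t + ‖y‖ ^ 2)) :=
    mul_le_mul_of_nonneg_right a1 (by positivity)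
  have k2 : 0 ≤ a * (Λ * t) := by positivity
  rw [e, abs_le]
  constructor <;> linarith [abs_le.1 b1, abs_le.1 b2, abs_le.1 b3, abs_le.1 b4]

end Pool.Agent.Lib.MP_8daebb_an.GM.Ch
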