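import Pool.Agent.Lib.MP_8daebb_an.GM.V4
import Pool.Agent.Lib.MP_8daebb_an.GM.V5
import Pool.Agent.Lib.MP_8daebb_an.GM.V6

/-! The very weak Jacobi equation. -/

open MeasureTheory Metric Set Filter Topology
open scoped RealInnerProductSpace ContDiff ENNReal

namespace Pool.Agent.Lib.MP_8daebb_an.GM.Ch

variable {d n : ℕ} {α : Type*} [MeasurableSpace α] {H : Type*} [NormedAddCommGroup H]
  [InnerProductSpace ℝ H] [FiniteDimensional ℝ H] [MeasurableSpace H] [BorelSpace H]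

theorem vh_meas {ι : E d →ₗᵢ[ℝ] H} {κ : E n →ₗᵢ[ℝ] H} {c : Cen d n} {D : CD d α H} {R δ M ε : ℝ}
    (h : CV D 0 R δ M) (hu : Pw c.u ε) (hε : ε ≤ 1) : Measurable (vh ι κ c D) ∧
      (∀ a, ‖vh ι κ c D a‖ ≤ 2 * ‖D.y a‖) ∧ Measurable fun a => c.pt (D.x a) := by
  have c1 : Continuous (d1 c.u) := hu.sm.continuous_fderiv (by norm_num)
  have c2 : Continuous c.pt := continuous_const.add c.A.continuous
  have c3 : Continuous fun w : E d × H => ad (nf ι κ (d1 c.u (c.pt w.1))) w.2 := by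
    unfold nf
    fun_prop
  have c4 := c3.measurable.comp (h.m_x.prodMk h.m_y)
  simp only [Function.comp_def] at c4
  refine ⟨by unfold vh; exact c4, fun a => ?_, c2.measurable.comp h.m_x⟩
  refine (ContinuousLinearMap.le_opNorm _ _).trans
    (mul_le_mul_of_nonneg_right ?_ (norm_nonneg _))
  rw [norm_ad]
  refine (DD_sub (ι := ι) (κ := κ) _ 0).2.2.2.1.trans ?_
  linarith [hu.n1 (c.pt (D.x a))]

theorem bounds_V9 : ∃ ε₀ K : ℝ, 0 < ε₀ ∧ 0 < K ∧ ∀ (u ψ : E d → E n) (ε : ℝ), Sml (d + 4) u ε →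
    ε ≤ ε₀ → Wv 3 ψ → (∀ x, ‖ψ x‖ ≤ K * nv 3 ψ) ∧ (∀ x, ‖d1 ψ x‖ ≤ K * nv 3 ψ) ∧
      (∀ x, ‖ZZ u ψ x‖ ≤ K * nv 3 ψ) ∧ (∀ x a, ‖fderiv ℝ (ZZ u ψ) x a‖ ≤ K * nv 3 ψ * ‖a‖) ∧
      (∀ x, ‖JT u ψ x‖ ≤ K * nv 3 ψ) ∧
      (∀ x x', ‖JT u ψ x - JT u ψ x'‖ ≤ K * nv 3 ψ * ‖x - x'‖) ∧ Continuous (JT u ψ) := by
  obtain ⟨ε₁, C₁, hε₁, hC₁, hZ⟩ := ZZ_le (d := d) (n := n)
  obtain ⟨ε₂, C₂, hε₂, hC₂, hJ⟩ := JT_le (d := d) (n := n)
  obtain ⟨C₃, hC₃, h3⟩ := lip_of_W (d := d) (X := E n)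
  obtain ⟨C₄, hC₄, h4⟩ := lip_of_W (d := d) (X := E n →L[ℝ] E d)
  obtain ⟨C₅, hC₅, h5⟩ := norm_fderiv_le_nv (d := d) (X := E n)
  obtain ⟨C₆, hC₆, h6⟩ := norm_fderiv_le_nv (d := d) (X := E n →L[ℝ] E d)
  refine ⟨min ε₁ ε₂, C₃ + C₅ + C₄ * C₁ + C₆ * C₁ + C₃ * C₂, by positivity, by positivity, ?_⟩
  intro u ψ ε hu hε hψ
  have w1 : Wv 1 ψ := hψ.mono (by norm_num)
  obtain ⟨z1, z2⟩ := hZ (d + 4) 1 u ψ ε hu (hε.trans (min_le_left _ _)) (by omega)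
    (hψ.mono (by norm_num))
  obtain ⟨j1, j2⟩ := hJ (d + 4) 1 u ψ ε hu (hε.trans (min_le_right _ _)) (by omega) hψ
  have n1 : nv 1 ψ ≤ nv 3 ψ := hψ.nv_mono (by norm_num) (by norm_num)
  have n2 : nv 1 (ZZ u ψ) ≤ C₁ * nv 3 ψ := z2.trans (mul_le_mul_of_nonneg_left
    (hψ.nv_mono (by norm_num) (by norm_num)) hC₁.le)
  have n3 : nv 1 (JT u ψ) ≤ C₂ * nv 3 ψ := j2
  have N0 := nv_nonneg 3 ψ
  obtain ⟨N, hN⟩ : ∃ N, N = nv 3 ψ := ⟨_, rfl⟩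
  rw [← hN] at n1 n2 n3 N0 ⊢
  have a1 := mul_le_mul_of_nonneg_left n1 hC₃.le
  have a2 := mul_le_mul_of_nonneg_left n1 hC₅.le
  have a3 := mul_le_mul_of_nonneg_left n2 hC₄.le
  have a4 := mul_le_mul_of_nonneg_left n2 hC₆.le
  have a5 := mul_le_mul_of_nonneg_left n3 hC₃.le
  have b1 : 0 ≤ C₃ * N := by positivity
  have b2 : 0 ≤ C₅ * N := by positivity
  have b3 : 0 ≤ C₄ * (C₁ * N) := by positivity
  have b4 : 0 ≤ C₆ * (C₁ * N) := by positivity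
  have b5 : 0 ≤ C₃ * (C₂ * N) := by positivity
  refine ⟨fun x => ((h3 ψ w1).1 x).trans (by linarith), fun x => ?_,
    fun x => ((h4 _ z1).1 x).trans (by linarith), fun x a => (h6 _ z1 x a).trans ?_,
    fun x => ((h3 _ j1).1 x).trans (by linarith), fun x x' => ((h3 _ j1).2 x x').trans ?_,
    j1.continuous⟩
  · refine ContinuousLinearMap.opNorm_le_bound _ (by linarith) fun a => (h5 ψ w1 x a).trans ?_
    exact mul_le_mul_of_nonneg_right (by linarith) (norm_nonneg _)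
  · exact mul_le_mul_of_nonneg_right (by linarith) (norm_nonneg _)
  · exact mul_le_mul_of_nonneg_right (by linarith) (norm_nonneg _)

theorem zero_V9 {x₀ x : E d} {A : E d →L[ℝ] E d} (hA : Fr x₀ A) {r : ℝ} {ψ : E d → E n}
    (hψ : ∀ x ∈ ocube d, x ∉ el x₀ A r → ψ x = 0) (h1 : r < ‖Ring.inverse A (x - x₀)‖)
    (h2 : ‖Ring.inverse A (x - x₀)‖ < 9 / 4) : ψ =ᶠ[𝓝 x] fun _ => 0 := by
  have hc : Continuous fun x : E d => ‖Ring.inverse A (x - x₀)‖ := by fun_prop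
  filter_upwards [hc.continuousAt.eventually (lt_mem_nhds h1),
    hc.continuousAt.eventually (gt_mem_nhds h2)] with z hz hz'
  exact hψ z (ball_subset_ocube (ball_subset_ball (by norm_num) (hA.el_subset le_rfl hz')))
    (not_lt.2 hz.le)

theorem near_V9 {x₀ x z : E d} {A : E d →L[ℝ] E d} (hA : Fr x₀ A) {l : ℝ}
    (h : ‖x - (x₀ + A z)‖ ≤ l / 1000) : |‖Ring.inverse A (x - x₀)‖ - ‖z‖| ≤ l / 500 := by
  obtain ⟨-, -, h1, -, -, h2⟩ := hA.inv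
  refine (abs_norm_sub_norm_le _ _).trans ?_
  have e : Ring.inverse A (x - x₀) - z = Ring.inverse A (x - (x₀ + A z)) := by
    rw [← sub_sub, map_sub _ (x - x₀), h1]
  rw [e]
  linarith [(h2 (x - (x₀ + A z))).2, norm_nonneg (x - (x₀ + A z))]

omit [MeasurableSpace H] [BorelSpace H] in
theorem cont_tanDiv_V9 {X : H → H} (hX : ContDiff ℝ 1 X) : Continuous (tanDiv X) := by
  have h1 : Continuous (fderiv ℝ X) := hX.continuous_fderiv one_ne_zero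
  exact trL.continuous.comp (continuous_snd.clm_comp (h1.comp continuous_fst))

theorem weak_eq : ∃ ε₀ C : ℝ, 0 < ε₀ ∧ 0 < C ∧ ∀ (ι : E d →ₗᵢ[ℝ] H) (κ : E n →ₗᵢ[ℝ] H)
    (c : Cen d n) (D : CD d α H) (ε R δ M R₁ l σ : ℝ) (ψ : E d → E n), Spl ι κ →
    Sml (d + 4) c.u ε → ε ≤ ε₀ → Fr c.x₀ c.A → CV D 0 R δ M → Lk D (c.F ι κ) → R₁ ≤ R → 0 < l →
    l ≤ R₁ → σ ≤ l → (∀ x ∈ el c.x₀ c.A R₁, NN c.u x = 0) →
    (∀ᵐ a ∂D.m, a ∈ D.cyl 0 R₁ → ‖D.y a‖ ≤ σ) → Wv 3 ψ →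
    (∀ x ∈ ocube d, x ∉ el c.x₀ c.A (R₁ - l) → ψ x = 0) →
    |∫ a, ⟪JT c.u ψ (c.pt (D.x a)), vh ι κ c D a⟫ ∂D.m| ≤ C * nv 3 ψ * D.En 0 R₁ := by
  obtain ⟨ε₁, K, hε₁, hK, hbd⟩ := bounds_V9 (d := d) (n := n)
  obtain ⟨ε₂, C₂, hε₂, hC₂, hweak⟩ := weak_pt (d := d) (n := n) (H := H)
  obtain ⟨C₃, hC₃, hpw⟩ := exists_pw (d := d) (n := n)
  obtain ⟨C₄, hC₄, hdet⟩ := fr_det (d := d)
  have hcH := cH_ge (H := H)
  have hcH0 : 0 < cH H := by linarith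
  refine ⟨min ε₁ (min ε₂ (cH H)⁻¹ / C₃), C₄ * (C₂ * (50 * (d + 1) * K)), by positivity,
    by positivity, ?_⟩
  intro ι κ c D ε R δ M R₁ l σ ψ hs hu hε hA h hL hR hl hlR hσ hN hy hψ hψ0
  obtain ⟨k1, k2, k3, k4, k5, k6, k7⟩ := hbd c.u ψ ε hu (hε.trans (min_le_left _ _)) hψ
  have hP := hpw (d + 4) c.u ε (by omega) hu
  obtain ⟨e, he⟩ : ∃ e, e = C₃ * ε := ⟨_, rfl⟩
  rw [← he] at hP
  have e0 : 0 ≤ e := (norm_nonneg _).trans (hP.n0 0)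
  have e1 : e ≤ min ε₂ (cH H)⁻¹ := by
    rw [he, mul_comm, ← le_div_iff₀ hC₃]
    exact hε.trans (min_le_right _ _)
  have e2 : cH H * e ≤ 1 := by
    rw [← le_div_iff₀' hcH0, one_div]
    exact e1.trans (min_le_right _ _)
  have e3 : e ≤ 1 / 1000 := by linarith [mul_le_mul_of_nonneg_right hcH e0]
  have N0 := nv_nonneg 3 ψ
  obtain ⟨Λ₀, hΛ₀⟩ : ∃ Λ₀, Λ₀ = K * nv 3 ψ := ⟨_, rfl⟩
  rw [← hΛ₀] at k1 k2 k3 k4 k5 k6
  have Λ0 : 0 ≤ Λ₀ := by rw [hΛ₀]; positivity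
  obtain ⟨Λ, hΛ⟩ : ∃ Λ : ℝ, Λ = 50 * (d + 1) * Λ₀ := ⟨_, rfl⟩
  have Λ1 : Λ₀ ≤ Λ := by
    rw [hΛ]
    exact le_mul_of_one_le_left Λ0 (by linarith [(Nat.cast_nonneg d : (0 : ℝ) ≤ d)])
  have ψ2 : ContDiff ℝ 2 ψ := (hψ.mono (n' := 2) (by norm_num)).contDiff
  have hX := contDiff_XX hs hP e2 ψ2
  have hR2 := h.R_le
  have := h.fin
  let η : ContDiffBump (0 : E d) := ⟨R₁ - l / 2, R₁ - l / 4, by linarith, by linarith⟩
  have η1 : ∀ z : E d, ‖z‖ ≤ R₁ - l / 2 → η z = 1 := fun z hz =>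
    η.one_of_mem_closedBall (mem_closedBall_zero_iff.2 hz)
  have η0 : ∀ z : E d, R₁ - l / 4 ≤ ‖z‖ → η z = 0 := fun z hz =>
    η.zero_of_le_dist (by rwa [dist_zero_right])
  have geo : ∀ a ∈ D.G, ‖D.y a‖ ≤ σ →
      |‖Ring.inverse c.A (vx ι (D.pos a) - c.x₀)‖ - ‖D.x a‖| ≤ l / 500 := by
    intro a ha hya
    refine near_V9 hA ((fermi_vert hs hP e2 hA (hL.nor a ha) (hL.pos a ha)
      (h.pw a ha).plane).1.trans ?_)
    linarith [mul_le_mul e3 (hya.trans hσ) (norm_nonneg _) (by norm_num)]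
  have hamb := h.amb (fun w => η w.1) ⟨(η.contDiff.comp contDiff_fst).contDiffOn, R₁ - l / 4,
    by linarith, fun w hw => η0 _ (by rwa [sub_zero] at hw)⟩ _ hX (by
      filter_upwards [h.ae_G, hy] with a ha hya hne
      have hc : Continuous fun w : E d × H => ‖w.1‖ := by fun_prop
      rcases lt_or_ge ‖D.x a‖ (R₁ - l / 2) with h1 | h1
      · have h2 : (fun w : E d × H => η w.1) =ᶠ[𝓝 (D.x a, D.y a)] fun _ => 1 := by
          filter_upwards [hc.continuousAt.eventually (gt_mem_nhds h1)] with w hw using η1 _ hw.le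
        rw [h2.fderiv_eq, fderiv_fun_const, Pi.zero_apply]
      rcases lt_or_ge (R₁ - l / 4) ‖D.x a‖ with h3 | h3
      · have h2 : (fun w : E d × H => η w.1) =ᶠ[𝓝 (D.x a, D.y a)] fun _ => 0 := by
          filter_upwards [hc.continuousAt.eventually (lt_mem_nhds h3)] with w hw using η0 _ hw.le
        rw [h2.fderiv_eq, fderiv_fun_const, Pi.zero_apply]
      have h4 := abs_le.1 (geo a ha (hya (show ‖D.x a - 0‖ < R₁ by rw [sub_zero]; linarith)))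
      exact absurd (XX_zero (zero_V9 hA hψ0 (by linarith) (by linarith))) hne)
  obtain ⟨m1, m2, m3⟩ := vh_meas (ι := ι) (κ := κ) h hP (by linarith)
  obtain ⟨i1, i2, i3, -⟩ := en_facts h
  have mS : Measurable fun a => ⟪JT c.u ψ (c.pt (D.x a)), vh ι κ c D a⟫ :=
    (k7.measurable.comp m3).inner m1
  have iS : Integrable (fun a => ⟪JT c.u ψ (c.pt (D.x a)), vh ι κ c D a⟫) D.m := by
    refine Integrable.of_bound mS.aestronglyMeasurable (Λ₀ * 4) ?_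
    filter_upwards [h.ae_G] with a ha
    refine (norm_inner_le_norm _ _).trans (mul_le_mul (k5 _) ?_ (norm_nonneg _) Λ0)
    linarith [m2 a, (h.pw a ha).y_two]
  have mT : Measurable fun a => η (D.x a) * D.w (D.x a) *
      tanDiv (XX ι κ c.u ψ) (D.pos a, D.Pl a) :=
    ((η.continuous.measurable.comp h.m_x).mul (h.m_w.comp h.m_x)).mul
      ((cont_tanDiv_V9 hX).measurable.comp (h.m_pos.prodMk h.m_Pl))
  have key : ∀ᵐ a ∂D.m, ‖η (D.x a) * D.w (D.x a) * tanDiv (XX ι κ c.u ψ) (D.pos a, D.Pl a) +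
      |c.A.det| * ⟪JT c.u ψ (c.pt (D.x a)), vh ι κ c D a⟫‖ ≤
      C₂ * Λ * (D.cyl 0 R₁).indicator D.en a := by
    filter_upwards [h.ae_G, h.car, hy, i2] with a ha hx hya hen
    have h1 : η (D.x a) * ⟪JT c.u ψ (c.pt (D.x a)), vh ι κ c D a⟫ =
        ⟪JT c.u ψ (c.pt (D.x a)), vh ι κ c D a⟫ := by
      rcases le_or_gt ‖D.x a‖ (R₁ - l / 2) with h1 | h1
      · rw [η1 _ h1, one_mul]
      · have h2 : Ring.inverse c.A (c.pt (D.x a) - c.x₀) = D.x a := by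
          rw [Cen.pt, add_sub_cancel_left, hA.inv.2.2.1]
        have h3 := mem_ball_zero_iff.1 hx
        rw [(JT_zero c.u (zero_V9 hA hψ0 (by rw [h2]; linarith) (by rw [h2]; linarith))).2,
          inner_zero_left, mul_zero]
    rw [← h1, mul_assoc, mul_left_comm |c.A.det|, ← mul_add, norm_mul,
      Real.norm_of_nonneg η.nonneg]
    rcases le_or_gt (R₁ - l / 4) ‖D.x a‖ with h2 | h2
    · rw [η0 _ h2, zero_mul]
      exact mul_nonneg (mul_nonneg hC₂.le (Λ0.trans Λ1))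
        (indicator_apply_nonneg fun _ => hen)
    have h3 : a ∈ D.cyl 0 R₁ := show ‖D.x a - 0‖ < R₁ by rw [sub_zero]; linarith
    have h4 := abs_le.1 (geo a ha (hya h3))
    have h5 := XX_div hs hP e2 ψ2 (h.pw a ha).plane
      (hN (vx ι (D.pos a)) (show _ < R₁ by linarith)) (k1 _) (k2 _) (k3 _) (k4 _)
    rw [← hΛ] at h5
    have h6 := hweak ι κ c.u e c.x₀ (D.x a) c.A (D.y a) (D.pos a) (D.Pl a) (JT c.u ψ) Λ _ hs hP
      (e1.trans (min_le_left _ _)) hA (hL.nor a ha) (hL.pos a ha) (h.pw a ha).plane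
      (h.pw a ha).y_two (Λ0.trans Λ1) (fun x => (k5 x).trans Λ1)
      (fun x x' => (k6 x x').trans (mul_le_mul_of_nonneg_right Λ1 (norm_nonneg _))) h5
    rw [indicator_of_mem h3, CD.en, hL.t a ha, hL.w a ha]
    exact (mul_le_of_le_one_left (norm_nonneg _) η.le_one).trans h6
  have iB : Integrable (fun a => C₂ * Λ * (D.cyl 0 R₁).indicator D.en a) D.m :=
    (i1.indicator (i3 0 R₁)).const_mul _
  have iG := iB.mono' (mT.add (mS.const_mul |c.A.det|)).aestronglyMeasurable key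
  have iT : Integrable (fun a => η (D.x a) * D.w (D.x a) *
      tanDiv (XX ι κ c.u ψ) (D.pos a, D.Pl a)) D.m :=
    (iG.sub (iS.const_mul |c.A.det|)).congr (.of_forall fun a => add_sub_cancel_right _ _)
  have h7 := norm_integral_le_of_norm_le iB key
  rw [integral_add iT (iS.const_mul _), hamb, zero_add, integral_const_mul, integral_const_mul,
    integral_indicator (i3 0 R₁), norm_mul, Real.norm_eq_abs, Real.norm_eq_abs, abs_abs] at h7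
  have h8 := mul_le_mul_of_nonneg_left h7 hC₄.le
  have h9 := mul_le_mul_of_nonneg_right (hdet _ _ hA).2
    (abs_nonneg (∫ a, ⟪JT c.u ψ (c.pt (D.x a)), vh ι κ c D a⟫ ∂D.m))
  rw [hΛ, hΛ₀] at h8
  unfold CD.En
  linarith

end Pool.Agent.Lib.MP_8daebb_an.GM.Ch
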