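import Pool.Agent.Lib.MP_8daebb_an.GM.WiDef

/-! Vertical heights and the test field of the very weak Jacobi equation. -/

open MeasureTheory Metric Set
open scoped RealInnerProductSpace

namespace Pool.Agent.Lib.MP_8daebb_an.GM.Ch

variable {d n : ℕ} {H : Type*} [NormedAddCommGroup H] [InnerProductSpace ℝ H]
  [FiniteDimensional ℝ H]

/-- Pointwise smallness up to order three. -/
structure Pw (u : E d → E n) (ε : ℝ) : Prop where
  sm : ContDiff ℝ 3 u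
  n0 : ∀ x, ‖u x‖ ≤ ε
  n1 : ∀ x, ‖d1 u x‖ ≤ ε
  n2 : ∀ x, ‖d2 u x‖ ≤ ε
  n3 : ∀ x a, ‖d3 u x a‖ ≤ ε * ‖a‖

/-- The point of the base plane with parameter `z`. -/
def Cen.pt (c : Cen d n) (z : E d) : E d := c.x₀ + c.A z

/-- The tangent frame of a graph with slope `L`. -/
noncomputable def DD (ι : E d →ₗᵢ[ℝ] H) (κ : E n →ₗᵢ[ℝ] H) (L : E d →L[ℝ] E n) : E d →L[ℝ] H :=
  ι.toContinuousLinearMap + κ.toContinuousLinearMap.comp L

/-- A vertical bilinear map. -/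
noncomputable def kA (κ : E n →ₗᵢ[ℝ] H) (A : E d →L[ℝ] E d →L[ℝ] E n) : E d →L[ℝ] E d →L[ℝ] H :=
  (ContinuousLinearMap.compL ℝ (E d) (E n) H κ.toContinuousLinearMap).comp A

/-- The test field. -/
noncomputable def XX (ι : E d →ₗᵢ[ℝ] H) (κ : E n →ₗᵢ[ℝ] H) (u ψ : E d → E n) (p : H) : H :=
  (wt (DD ι κ (d1 u (vx ι p))))⁻¹ • (nf ι κ (d1 u (vx ι p)) (ψ (vx ι p)) -
    DD ι κ (d1 u (vx ι p)) (ZZ u ψ (vx ι p) (vz ι κ u p)))

/-- The flux matrix of a jet. -/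
noncomputable def YY (ι : E d →ₗᵢ[ℝ] H) (κ : E n →ₗᵢ[ℝ] H) (L : E d →L[ℝ] E n)
    (A : E d →L[ℝ] E d →L[ℝ] E n) (φ : E n) (dφ : E d →L[ℝ] E n) : E n →L[ℝ] E d :=
  (gi (DD ι κ L)).comp (ad dφ) +
    (2 : ℝ) • (gi (DD ι κ L)).comp ((shL A φ).comp ((gi (DD ι κ L)).comp (ad L)))

/-- The main part of the derivative of the test field. -/
noncomputable def M1 (ι : E d →ₗᵢ[ℝ] H) (κ : E n →ₗᵢ[ℝ] H) (L : E d →L[ℝ] E n)
    (A : E d →L[ℝ] E d →L[ℝ] E n) (φ : E n) (dφ : E d →L[ℝ] E n) (Y : E n →L[ℝ] E d) : H →L[ℝ] H :=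
  ((nf ι κ L).comp dφ - ι.toContinuousLinearMap.comp (shL A φ)).comp
    (ad ι.toContinuousLinearMap) - (DD ι κ L).comp (Y.comp (ad (nf ι κ L)))

/-- The part of the derivative of the test field that is linear in the height. -/
noncomputable def M2 (ι : E d →ₗᵢ[ℝ] H) (κ : E n →ₗᵢ[ℝ] H) (L : E d →L[ℝ] E n)
    (A : E d →L[ℝ] E d →L[ℝ] E n) (z : E d) (B : E d →L[ℝ] E d) : H →L[ℝ] H :=
  (κ.toContinuousLinearMap.comp (A.flip z) + (DD ι κ L).comp B).comp (ad ι.toContinuousLinearMap)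

variable {α : Type*} [MeasurableSpace α]

/-- The chart data `D` come from the nearest-point projection to the image of `F`. -/
structure Lk (D : CD d α H) (F : E d → H) : Prop where
  pos : ∀ a ∈ D.G, D.pos a = F (D.x a) + D.y a
  nor : ∀ a ∈ D.G, ad (d1 F (D.x a)) (D.y a) = 0
  t : ∀ a ∈ D.G, D.t a = ft (d1 F (D.x a)) (D.Pl a)
  w : ∀ a ∈ D.G, D.w (D.x a) = wt (d1 F (D.x a))

/-- The linearised vertical height. -/
noncomputable def vh (ι : E d →ₗᵢ[ℝ] H) (κ : E n →ₗᵢ[ℝ] H) (c : Cen d n) (D : CD d α H) (a : α) :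
    E n := ad (nf ι κ (d1 c.u (c.pt (D.x a)))) (D.y a)

end Pool.Agent.Lib.MP_8daebb_an.GM.Ch
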