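import Pool.Agent.Lib.MP_8daebb_an.GM.WiDef

/-! Weights, characters and the period cube. -/

open MeasureTheory Metric Set Filter Topology
open scoped RealInnerProductSpace ContDiff ENNReal

namespace Pool.Agent.Lib.MP_8daebb_an.GM.Ch

variable {d : ℕ}

theorem one_le_wk (k : Fin d → ℤ) : 1 ≤ wk k := by
  exact le_add_of_nonneg_right (Finset.sum_nonneg fun i _ => abs_nonneg _)

theorem wk_neg (k : Fin d → ℤ) : wk (-k) = wk k := by
  simp [wk]

theorem wk_zero : wk (0 : Fin d → ℤ) = 1 := by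
  simp [wk]

theorem sum_add_le_Wi1 (j k : Fin d → ℤ) :
    ∑ i, |((j + k) i : ℝ)| ≤ ∑ i, |(j i : ℝ)| + ∑ i, |(k i : ℝ)| := by
  rw [← Finset.sum_add_distrib]
  refine Finset.sum_le_sum fun i _ => ?_
  rw [Pi.add_apply, Int.cast_add]
  exact abs_add_le _ _

theorem wk_add_le (j k : Fin d → ℤ) : wk (j + k) ≤ wk j + wk k := by
  have := sum_add_le_Wi1 j k
  unfold wk
  linarith

theorem wk_add_le_mul (j k : Fin d → ℤ) : wk (j + k) ≤ wk j * wk k := by
  have h := sum_add_le_Wi1 j k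
  have h1 : 0 ≤ ∑ i, |(j i : ℝ)| := Finset.sum_nonneg fun i _ => abs_nonneg _
  have h2 : 0 ≤ ∑ i, |(k i : ℝ)| := Finset.sum_nonneg fun i _ => abs_nonneg _
  have h3 := mul_nonneg h1 h2
  unfold wk
  linarith

theorem peetre (j k : Fin d → ℤ) {σ : ℤ} {n : ℕ} (h : |σ| ≤ n) :
    wk (j + k) ^ σ ≤ wk j ^ n * wk k ^ σ := by
  have hj := one_le_wk j
  have hk := one_le_wk k
  have hjk := one_le_wk (j + k)
  obtain ⟨m, rfl | rfl⟩ := Int.eq_nat_or_neg σ
  · have hm : m ≤ n := by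
      rw [Nat.abs_cast] at h
      exact_mod_cast h
    rw [zpow_natCast, zpow_natCast]
    calc wk (j + k) ^ m ≤ (wk j * wk k) ^ m :=
          pow_le_pow_left₀ (by linarith) (wk_add_le_mul j k) m
      _ = wk j ^ m * wk k ^ m := mul_pow _ _ _
      _ ≤ wk j ^ n * wk k ^ m :=
          mul_le_mul_of_nonneg_right (pow_le_pow_right₀ hj hm) (by positivity)
  · have hm : m ≤ n := by
      rw [abs_neg, Nat.abs_cast] at h
      exact_mod_cast h
    have h1 := wk_add_le_mul (-j) (j + k)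
    rw [neg_add_cancel_left, wk_neg] at h1
    rw [zpow_neg, zpow_neg, zpow_natCast, zpow_natCast, ← div_eq_mul_inv, inv_eq_one_div,
      div_le_div_iff₀ (by positivity) (by positivity), one_mul]
    calc wk k ^ m ≤ (wk j * wk (j + k)) ^ m := pow_le_pow_left₀ (by linarith) h1 m
      _ = wk j ^ m * wk (j + k) ^ m := mul_pow _ _ _
      _ ≤ wk j ^ n * wk (j + k) ^ m :=
          mul_le_mul_of_nonneg_right (pow_le_pow_right₀ hj hm) (by positivity)

theorem abs_le_wk (k : Fin d → ℤ) (i : Fin d) : |(k i : ℝ)| ≤ wk k := by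
  have := Finset.single_le_sum (f := fun i => |(k i : ℝ)|) (fun i _ => abs_nonneg _)
    (Finset.mem_univ i)
  unfold wk
  linarith

theorem wk_sq_le {k : Fin d → ℤ} (hk : k ≠ 0) : 1 ≤ k2 k ∧ wk k ^ 2 ≤ (d + 1) ^ 2 * k2 k := by
  obtain ⟨i, hi⟩ := Function.ne_iff.1 hk
  have h1 : (1 : ℝ) ≤ (k i : ℝ) ^ 2 := by
    have : (1 : ℤ) ≤ k i ^ 2 := Int.add_one_le_of_lt (a := 0) (sq_pos_of_ne_zero hi)
    exact_mod_cast this
  have h2 : ∀ l, (k l : ℝ) ^ 2 ≤ k2 k := fun l =>
    Finset.single_le_sum (f := fun i => (k i : ℝ) ^ 2) (fun i _ => sq_nonneg _) (Finset.mem_univ l)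
  have h3 : 1 ≤ k2 k := h1.trans (h2 i)
  refine ⟨h3, ?_⟩
  have h4 : ∑ l, |(k l : ℝ)| ≤ d * √(k2 k) := by
    have := Finset.sum_le_card_nsmul Finset.univ (fun l => |(k l : ℝ)|) (√(k2 k)) fun l _ =>
      Real.abs_le_sqrt (h2 l)
    simpa using this
  have h5 : 1 ≤ √(k2 k) := Real.one_le_sqrt.2 h3
  have h6 : wk k ≤ (d + 1) * √(k2 k) := by
    unfold wk
    linarith
  have h7 := pow_le_pow_left₀ (zero_le_one.trans (one_le_wk k)) h6 2
  rwa [mul_pow, Real.sq_sqrt (by linarith)] at h7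

theorem k2_le (k : Fin d → ℤ) : 0 ≤ k2 k ∧ k2 k ≤ wk k ^ 2 := by
  refine ⟨Finset.sum_nonneg fun i _ => sq_nonneg _, ?_⟩
  have h1 : k2 k ≤ ∑ i, |(k i : ℝ)| * wk k := Finset.sum_le_sum fun i _ => by
    rw [← sq_abs, sq]
    exact mul_le_mul_of_nonneg_left (abs_le_wk k i) (abs_nonneg _)
  rw [← Finset.sum_mul] at h1
  have h2 : ∑ i, |(k i : ℝ)| ≤ wk k := le_add_of_nonneg_left zero_le_one
  have h3 := mul_le_mul_of_nonneg_right h2 (zero_le_one.trans (one_le_wk k))
  rw [sq]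
  exact h1.trans h3

theorem summable_prod_Wi1 {f : ℤ → ℝ} (h0 : ∀ j, 0 ≤ f j) (hf : Summable f) :
    Summable fun k : Fin d → ℤ => ∏ i, f (k i) := by
  refine summable_of_sum_le (c := (∑' j, f j) ^ d)
    (fun k => Finset.prod_nonneg fun i _ => h0 _) fun s => ?_
  calc ∑ k ∈ s, ∏ i, f (k i) ≤
        ∑ k ∈ Fintype.piFinset fun _ : Fin d => s.biUnion fun k => Finset.univ.image k,
          ∏ i, f (k i) := by
        refine Finset.sum_le_sum_of_subset_of_nonneg (fun k hk => ?_)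
          fun k _ _ => Finset.prod_nonneg fun i _ => h0 _
        exact Fintype.mem_piFinset.2 fun i =>
          Finset.mem_biUnion.2 ⟨k, hk, Finset.mem_image_of_mem k (Finset.mem_univ i)⟩
    _ = ∏ _i : Fin d, ∑ j ∈ s.biUnion fun k => Finset.univ.image k, f j :=
        (Finset.prod_univ_sum _ fun _ j => f j).symm
    _ ≤ ∏ _i : Fin d, ∑' j, f j :=
        Finset.prod_le_prod (fun _ _ => Finset.sum_nonneg fun j _ => h0 j)
          fun _ _ => hf.sum_le_tsum _ fun j _ => h0 j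
    _ = (∑' j, f j) ^ d := by simp

theorem summable_wk : Summable fun k : Fin d → ℤ => wk k ^ (-((d : ℤ) + 1)) := by
  rcases Nat.eq_zero_or_pos d with rfl | hd
  · exact Summable.of_finite
  have hd' : (0 : ℝ) < d := by exact_mod_cast hd
  have hp : (1 : ℝ) < (d + 1) / d := by
    rw [lt_div_iff₀ hd']
    linarith
  have hs := summable_prod_Wi1 (d := d) (fun j => by positivity)
    ((Real.summable_one_div_int_add_rpow (1 / 2) ((d + 1) / d)).2 hp)
  refine Summable.of_nonneg_of_le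
    (fun k => zpow_nonneg (zero_le_one.trans (one_le_wk k)) _) (fun k => ?_) hs
  have hw : 0 < wk k := zero_lt_one.trans_le (one_le_wk k)
  have e : wk k ^ (-((d : ℤ) + 1)) = ∏ _i : Fin d, 1 / wk k ^ (((d : ℝ) + 1) / d) := by
    rw [Finset.prod_const, Finset.card_univ, Fintype.card_fin, one_div, inv_pow,
      ← Real.rpow_natCast, ← Real.rpow_mul hw.le, div_mul_cancel₀ _ hd'.ne', zpow_neg,
      ← Real.rpow_intCast]
    push_cast
    rfl
  rw [e]
  refine Finset.prod_le_prod (fun i _ => by positivity) fun i _ => ?_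
  have h1 : 0 < |(k i : ℝ) + 1 / 2| := by
    refine abs_pos.2 fun h => ?_
    have h2 : ((2 * k i + 1 : ℤ) : ℝ) = 0 := by
      push_cast
      linarith
    have h3 : 2 * k i + 1 = 0 := by exact_mod_cast h2
    omega
  have h2 : |(k i : ℝ) + 1 / 2| ≤ wk k := by
    have h3 := Finset.single_le_sum (f := fun i => |(k i : ℝ)|) (fun i _ => abs_nonneg _)
      (Finset.mem_univ i)
    have h4 := abs_add_le (k i : ℝ) (1 / 2)
    rw [abs_of_pos (by norm_num : (0 : ℝ) < 1 / 2)] at h4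
    unfold wk
    linarith
  exact one_div_le_one_div_of_le (Real.rpow_pos_of_pos h1 _)
    (Real.rpow_le_rpow h1.le h2 (by linarith))

theorem finite_wk (N : ℝ) : {k : Fin d → ℤ | wk k ≤ N}.Finite := by
  refine (Set.Finite.pi' fun _ : Fin d => Set.finite_Icc (-⌈N⌉) ⌈N⌉).subset fun k hk i => ?_
  have h1 : |(k i : ℝ)| ≤ (⌈N⌉ : ℤ) := ((abs_le_wk k i).trans hk).trans (Int.le_ceil N)
  have h2 : |k i| ≤ ⌈N⌉ := by exact_mod_cast h1
  exact abs_le.1 h2

theorem ek_add (j k : Fin d → ℤ) (x : E d) : ek (j + k) x = ek j x * ek k x := by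
  have e : kx (j + k) x = kx j x + kx k x := by
    simp [kx, add_mul, Finset.sum_add_distrib]
  rw [ek, ek, ek, e, Complex.ofReal_add, add_mul, Complex.exp_add]

theorem ek_zero (x : E d) : ek 0 x = 1 := by
  simp [ek, kx]

theorem norm_ek (k : Fin d → ℤ) (x : E d) : ‖ek k x‖ = 1 := by
  exact Complex.norm_exp_ofReal_mul_I _

theorem ek_neg (k : Fin d → ℤ) (x : E d) : ek (-k) x = (starRingEnd ℂ) (ek k x) := by
  have e : kx (-k) x = -kx k x := by simp [kx]
  rw [ek, ek, e, ← Complex.exp_conj, map_mul, Complex.conj_ofReal, Complex.conj_I,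
    Complex.ofReal_neg, neg_mul, mul_neg]

/-- The phase as a linear map. -/
noncomputable def kxL_Wi1 (k : Fin d → ℤ) : E d →L[ℝ] ℂ :=
  (Complex.ofRealCLM.comp (∑ i, (k i : ℝ) • EuclideanSpace.proj i)).smulRight Complex.I

theorem kxL_apply_Wi1 (k : Fin d → ℤ) (x : E d) : kxL_Wi1 k x = kx k x * Complex.I := by
  simp [kxL_Wi1, kx]

theorem ek_eq_Wi1 (k : Fin d → ℤ) : ek k = fun x => Complex.exp (kxL_Wi1 k x) :=
  funext fun x => by rw [kxL_apply_Wi1, ek]

theorem contDiff_ek (k : Fin d → ℤ) : ContDiff ℝ ∞ (ek k) := by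
  rw [ek_eq_Wi1]
  exact (kxL_Wi1 k).contDiff.cexp

theorem abs_kx_le (k : Fin d → ℤ) (v : E d) : |kx k v| ≤ wk k * ‖v‖ := by
  calc |kx k v| ≤ ∑ i, |(k i : ℝ) * v i| := Finset.abs_sum_le_sum_abs _ _
    _ ≤ ∑ i, |(k i : ℝ)| * ‖v‖ := Finset.sum_le_sum fun i _ => by
        rw [abs_mul]
        exact mul_le_mul_of_nonneg_left (PiLp.norm_apply_le v i) (abs_nonneg _)
    _ ≤ wk k * ‖v‖ := by
        rw [← Finset.sum_mul]
        exact mul_le_mul_of_nonneg_right (le_add_of_nonneg_left zero_le_one) (norm_nonneg v)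

theorem fderiv_ek (k : Fin d → ℤ) (x v : E d) :
    fderiv ℝ (ek k) x v = (kx k v : ℂ) * Complex.I * ek k x := by
  rw [ek_eq_Wi1, ((kxL_Wi1 k).hasFDerivAt (x := x)).cexp.fderiv, smul_apply, smul_eq_mul,
    kxL_apply_Wi1 k v, mul_comm]

theorem kx_eb (k : Fin d → ℤ) (i : Fin d) : kx k (eb i) = k i := by
  simp [kx]

theorem cube_eq_Wi1 : cube d = (WithLp.ofLp : E d → Fin d → ℝ) ⁻¹'
    Set.pi univ fun _ => Ioc (-Real.pi) Real.pi := by
  ext x
  simp [cube]

theorem ocube_eq_Wi1 : ocube d = (WithLp.ofLp : E d → Fin d → ℝ) ⁻¹'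
    Set.pi univ fun _ => Ioo (-Real.pi) Real.pi := by
  ext x
  simp [ocube]

theorem measurableSet_cube : MeasurableSet (cube d) := by
  rw [cube_eq_Wi1]
  exact (PiLp.continuous_ofLp 2 _).measurable (MeasurableSet.univ_pi fun _ => measurableSet_Ioc)

theorem isOpen_ocube : IsOpen (ocube d) := by
  rw [ocube_eq_Wi1]
  exact (isOpen_set_pi finite_univ fun _ _ => isOpen_Ioo).preimage (PiLp.continuous_ofLp 2 _)

theorem ball_subset_ocube : ball (0 : E d) 3 ⊆ ocube d := by
  intro x hx i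
  have h1 : |x i| < Real.pi :=
    ((PiLp.norm_apply_le x i).trans_lt (mem_ball_zero_iff.1 hx)).trans Real.pi_gt_three
  exact abs_lt.1 h1

theorem ocube_subset_cube : ocube d ⊆ cube d := by
  exact fun x hx i => Ioo_subset_Ioc_self (hx i)

theorem ocube_ae_eq_cube : ocube d =ᵐ[volume] cube d := by
  rw [cube_eq_Wi1, ocube_eq_Wi1]
  exact (PiLp.volume_preserving_ofLp (Fin d)).quasiMeasurePreserving.preimage_ae_eq
    (Measure.univ_pi_Ioo_ae_eq_Icc.trans Measure.univ_pi_Ioc_ae_eq_Icc.symm)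

theorem volume_cube : volume.real (cube d) = (2 * Real.pi) ^ d ∧ volume (cube d) ≠ ⊤ := by
  have e : volume (cube d) = ENNReal.ofReal (2 * Real.pi) ^ d := by
    rw [cube_eq_Wi1, (PiLp.volume_preserving_ofLp (Fin d)).measure_preimage
      (MeasurableSet.univ_pi fun _ => measurableSet_Ioc).nullMeasurableSet, Real.volume_pi_Ioc,
      Finset.prod_const, Finset.card_univ, Fintype.card_fin, sub_neg_eq_add, two_mul]
  constructor
  · rw [Measure.real, e, ENNReal.toReal_pow, ENNReal.toReal_ofReal (by positivity)]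
  · rw [e]
    exact ENNReal.pow_ne_top ENNReal.ofReal_ne_top

theorem integrableOn_cube {F : Type*} [NormedAddCommGroup F] {f : E d → F} (hf : Continuous f) :
    IntegrableOn f (cube d) := by
  have hK : IsCompact ((WithLp.toLp 2 : (Fin d → ℝ) → E d) ''
      Set.pi univ fun _ => Icc (-Real.pi) Real.pi) :=
    (isCompact_univ_pi fun _ => isCompact_Icc).image (PiLp.continuous_toLp 2 _)
  exact (hf.continuousOn.integrableOn_compact hK).mono_set fun x hx =>
    ⟨x.ofLp, fun i _ => Ioc_subset_Icc_self (hx i), rfl⟩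

theorem integral_one_Wi1 (n : ℤ) :
    ∫ y in Ioc (-Real.pi) Real.pi, Complex.exp (n * Complex.I * y) =
      if n = 0 then ((2 * Real.pi : ℝ) : ℂ) else 0 := by
  rw [← intervalIntegral.integral_of_le (by linarith [Real.pi_pos])]
  split_ifs with h
  · simp [h, two_mul]
  · have hn : (n : ℂ) * Complex.I ≠ 0 := mul_ne_zero (by exact_mod_cast h) Complex.I_ne_zero
    have e : (n : ℂ) * Complex.I * Real.pi =
        n * Complex.I * (-Real.pi : ℝ) + n * (2 * Real.pi * Complex.I) := by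
      push_cast
      ring
    rw [integral_exp_mul_complex hn, e, Complex.exp_add, Complex.exp_int_mul_two_pi_mul_I, mul_one,
      sub_self, zero_div]

theorem integral_ek (k : Fin d → ℤ) :
    ∫ x in cube d, ek k x = if k = 0 then (((2 * Real.pi) ^ d : ℝ) : ℂ) else 0 := by
  have e : ∀ x : E d, ek k x = ∏ i, Complex.exp (k i * Complex.I * x.ofLp i) := fun x => by
    rw [← Complex.exp_sum, ek, kx]
    congr 1
    push_cast
    rw [Finset.sum_mul]
    exact Finset.sum_congr rfl fun i _ => by ring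
  simp only [e]
  rw [cube_eq_Wi1, (PiLp.volume_preserving_ofLp (Fin d)).setIntegral_preimage_emb
    (MeasurableEquiv.toLp 2 _).symm.measurableEmbedding
    (fun y : Fin d → ℝ => ∏ i, Complex.exp (k i * Complex.I * y i)), volume_pi,
    Measure.restrict_pi_pi,
    integral_fintype_prod_eq_prod (fun i (y : ℝ) => Complex.exp (k i * Complex.I * y))]
  simp only [integral_one_Wi1]
  split_ifs with h
  · simp [h]
  · obtain ⟨i, hi⟩ := Function.ne_iff.1 h
    exact Finset.prod_eq_zero (Finset.mem_univ i) (if_neg hi)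

end Pool.Agent.Lib.MP_8daebb_an.GM.Ch
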