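import Pool.Agent.Lib.MP_8daebb_an.GM.Wi1

/-! The scalar class: linear structure and series. -/

open MeasureTheory Metric Set Filter Topology
open scoped RealInnerProductSpace ContDiff ENNReal

namespace Pool.Agent.Lib.MP_8daebb_an.GM.Ch

variable {d : ℕ} {f g : E d → ℝ} {n : ℕ}

theorem wk_pos_Wi2 (k : Fin d → ℤ) : 0 < wk k := one_pos.trans_le (one_le_wk k)

theorem int_Wi2 (hf : Continuous f) (k : Fin d → ℤ) :
    Integrable (fun x => ek (-k) x * (f x : ℂ)) (volume.restrict (cube d)) :=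
  integrableOn_cube ((contDiff_ek (-k)).continuous.mul (Complex.continuous_ofReal.comp hf))

theorem summable_zpow_Wi2 {c : (Fin d → ℤ) → ℂ} (hc : Summable fun k => wk k ^ n * ‖c k‖) {σ : ℤ}
    (hσ : σ ≤ n) : Summable fun k => wk k ^ σ * ‖c k‖ := by
  refine hc.of_nonneg_of_le
    (fun k => mul_nonneg (zpow_pos (wk_pos_Wi2 k) σ).le (norm_nonneg _)) fun k => ?_
  rw [← zpow_natCast]
  exact mul_le_mul_of_nonneg_right (zpow_le_zpow_right₀ (one_le_wk k) hσ) (norm_nonneg _)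

theorem summable_of_wk_Wi2 {c : (Fin d → ℤ) → ℂ} (hc : Summable fun k => wk k ^ n * ‖c k‖) :
    Summable fun k => ‖c k‖ := by
  simpa only [zpow_zero, one_mul] using summable_zpow_Wi2 hc (σ := 0) (by positivity)

theorem cf_of_hasSum_Wi2 {c : (Fin d → ℤ) → ℂ} (hc : Summable fun k => ‖c k‖)
    (h : ∀ x, HasSum (fun k => c k * ek k x) (f x : ℂ)) (k : Fin d → ℤ) : cf f k = c k := by
  have e : ∀ j x, ek (-k) x * (c j * ek j x) = c j * ek (j - k) x := fun j x => by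
    rw [sub_eq_neg_add, ek_add, mul_left_comm]
  have h1 := hasSum_integral_of_summable_integral_norm (μ := volume.restrict (cube d))
    (F := fun j x => c j * ek (j - k) x)
    (fun j => integrableOn_cube (continuous_const.mul (contDiff_ek _).continuous)) (by
      simp only [norm_mul, norm_ek, mul_one, integral_const, smul_eq_mul]
      exact hc.mul_left _)
  have h2 : (fun x => ∑' j, c j * ek (j - k) x) = fun x => ek (-k) x * (f x : ℂ) := by
    funext x
    simp only [← e]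
    exact ((h x).mul_left _).tsum_eq
  have h3 := hasSum_single (f := fun j => ∫ x in cube d, c j * ek (j - k) x) k (fun j hj => by
    rw [integral_const_mul, integral_ek, if_neg (sub_ne_zero.2 hj), mul_zero])
  have h4 := h1.unique h3
  rw [h2, integral_const_mul, integral_ek, if_pos (sub_self k)] at h4
  rw [cf, h4, mul_left_comm, ← Complex.ofReal_mul, inv_mul_cancel₀ (by positivity),
    Complex.ofReal_one, mul_one]

theorem hasSum_ev_Wi2 {c : (Fin d → ℤ) → ℂ} (hc : Summable fun k => ‖c k‖) (x : E d) :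
    HasSum (fun k => (c k + (starRingEnd ℂ) (c (-k))) / 2 * ek k x) (ev c x : ℂ) := by
  have h1 : Summable fun k => c k * ek k x :=
    hc.of_norm_bounded fun k => by rw [norm_mul, norm_ek, mul_one]
  have h2 := (Equiv.neg (Fin d → ℤ)).hasSum_iff.2 (Complex.hasSum_conj'.2 h1.hasSum)
  have h3 := (h1.hasSum.add h2).div_const 2
  rw [ev, Complex.re_eq_add_conj]
  have h4 : (fun k => (c k + (starRingEnd ℂ) (c (-k))) / 2 * ek k x) = fun k =>
      (c k * ek k x + (starRingEnd ℂ) (c (-k) * ek (-k) x)) / 2 := by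
    funext k
    rw [map_mul, ← ek_neg, neg_neg]
    ring
  rw [h4]
  exact h3

theorem sym_Wi2 {c : (Fin d → ℤ) → ℂ} {ϖ : (Fin d → ℤ) → ℝ} (h0 : ∀ k, 0 ≤ ϖ k)
    (h1 : ∀ k, ϖ (-k) = ϖ k) (hc : Summable fun k => ϖ k * ‖c k‖) :
    (Summable fun k => ϖ k * ‖(c k + (starRingEnd ℂ) (c (-k))) / 2‖) ∧
      ∑' k, ϖ k * ‖(c k + (starRingEnd ℂ) (c (-k))) / 2‖ ≤ ∑' k, ϖ k * ‖c k‖ := by
  have h2 : HasSum (fun k => ϖ (-k) * ‖c (-k)‖) (∑' k, ϖ k * ‖c k‖) :=
    (Equiv.neg (Fin d → ℤ)).hasSum_iff.2 hc.hasSum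
  have h3 := (hc.hasSum.add h2).div_const 2
  have h4 : ∀ k, ϖ k * ‖(c k + (starRingEnd ℂ) (c (-k))) / 2‖ ≤
      (ϖ k * ‖c k‖ + ϖ (-k) * ‖c (-k)‖) / 2 := fun k => by
    rw [h1, ← mul_add, mul_div_assoc, norm_div, Complex.norm_two]
    refine mul_le_mul_of_nonneg_left (div_le_div_of_nonneg_right ?_ zero_le_two) (h0 k)
    exact (norm_add_le _ _).trans (by rw [Complex.norm_conj])
  have h5 := h3.summable.of_nonneg_of_le (fun k => mul_nonneg (h0 k) (norm_nonneg _)) h4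
  refine ⟨h5, (h5.tsum_le_tsum h4 h3.summable).trans (le_of_eq ?_)⟩
  rw [h3.tsum_eq]
  ring

theorem cf_neg_conj (f : E d → ℝ) (k : Fin d → ℤ) : cf f (-k) = (starRingEnd ℂ) (cf f k) := by
  rw [cf, cf, map_mul, Complex.conj_ofReal, ← integral_conj]
  congr 2
  funext x
  rw [map_mul, Complex.conj_ofReal, ← ek_neg]

theorem cf_add (hf : Continuous f) (hg : Continuous g) (k : Fin d → ℤ) :
    cf (fun x => f x + g x) k = cf f k + cf g k := by
  rw [cf, cf, cf, ← mul_add, ← integral_add (int_Wi2 hf k) (int_Wi2 hg k)]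
  congr 2
  funext x
  push_cast
  ring

theorem cf_const_mul (c : ℝ) (f : E d → ℝ) (k : Fin d → ℤ) :
    cf (fun x => c * f x) k = c * cf f k := by
  rw [cf, cf, mul_left_comm, ← integral_const_mul (c : ℂ)]
  congr 2
  funext x
  push_cast
  ring

theorem cf_congr (h : EqOn f g (ocube d)) : cf f = cf g := by
  funext k
  rw [cf, cf, ← setIntegral_congr_set ocube_ae_eq_cube, ← setIntegral_congr_set ocube_ae_eq_cube]
  congr 1
  exact setIntegral_congr_fun isOpen_ocube.measurableSet fun x hx => by simp only [h hx]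

theorem cf_zero_eq (hf : Continuous f) :
    ∫ x in cube d, f x = (2 * Real.pi) ^ d * (cf f 0).re := by
  have h1 : (fun x => ek (-(0 : Fin d → ℤ)) x * (f x : ℂ)) = fun x => (f x : ℂ) := by
    funext x
    rw [neg_zero, ek_zero, one_mul]
  rw [cf, h1, integral_complex_ofReal, ← Complex.ofReal_mul, Complex.ofReal_re, ← mul_assoc,
    mul_inv_cancel₀ (by positivity), one_mul]

theorem norm_cf_le {B : ℝ} (h : ∀ x ∈ cube d, |f x| ≤ B) (k : Fin d → ℤ) : ‖cf f k‖ ≤ B := by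
  have h1 : ‖∫ x in cube d, ek (-k) x * (f x : ℂ)‖ ≤ B * volume.real (cube d) :=
    norm_setIntegral_le_of_norm_le_const volume_cube.2.lt_top fun x hx => by
      rw [norm_mul, norm_ek, one_mul, Complex.norm_real]
      exact h x hx
  have h2 : (0 : ℝ) < (2 * Real.pi) ^ d := by positivity
  rw [cf, norm_mul, Complex.norm_real, Real.norm_of_nonneg (inv_nonneg.2 h2.le),
    inv_mul_le_iff₀ h2, mul_comm, ← volume_cube.1]
  exact h1

theorem cf_ev {c : (Fin d → ℤ) → ℂ} (hc : Summable fun k => ‖c k‖) (k : Fin d → ℤ) :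
    cf (ev c) k = (c k + (starRingEnd ℂ) (c (-k))) / 2 := by
  refine cf_of_hasSum_Wi2 (c := fun k => (c k + (starRingEnd ℂ) (c (-k))) / 2) ?_
    (hasSum_ev_Wi2 hc) k
  simpa using (sym_Wi2 (ϖ := fun _ => 1) (fun _ => zero_le_one) (fun _ => rfl)
    (by simpa using hc)).1

theorem W_ev {c : (Fin d → ℤ) → ℂ} (hc : Summable fun k => wk k ^ n * ‖c k‖) : W n (ev c) := by
  have h0 := summable_of_wk_Wi2 hc
  constructor
  · simp only [cf_ev h0]
    exact (sym_Wi2 (fun k => (pow_pos (wk_pos_Wi2 k) n).le) (fun k => by rw [wk_neg]) hc).1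
  · intro x
    simp only [cf_ev h0]
    exact hasSum_ev_Wi2 h0 x

theorem nm_ev_le {c : (Fin d → ℤ) → ℂ} (hc : Summable fun k => wk k ^ n * ‖c k‖) {σ : ℤ}
    (hσ : σ ≤ n) : nm σ (ev c) ≤ ∑' k, wk k ^ σ * ‖c k‖ := by
  simp only [nm, nw, cf_ev (summable_of_wk_Wi2 hc)]
  exact (sym_Wi2 (fun k => (zpow_pos (wk_pos_Wi2 k) σ).le) (fun k => by rw [wk_neg])
    (summable_zpow_Wi2 hc hσ)).2

theorem W.mono (h : W n f) {n' : ℕ} (hn : n' ≤ n) : W n' f := by
  refine ⟨?_, h.rep⟩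
  simpa only [zpow_natCast] using summable_zpow_Wi2 h.sum (σ := n') (by exact_mod_cast hn)

theorem W.summable (h : W n f) {σ : ℤ} (hσ : σ ≤ n) : Summable fun k => wk k ^ σ * ‖cf f k‖ := by
  exact summable_zpow_Wi2 h.sum hσ

theorem W.summable_norm (h : W n f) : Summable fun k => ‖cf f k‖ := by
  exact summable_of_wk_Wi2 h.sum

theorem W.summable_bdd (h : W n f) {ϖ : (Fin d → ℤ) → ℝ} {B : ℝ} (hϖ : ∀ k, |ϖ k| ≤ B) :
    Summable fun k => ϖ k * ‖cf f k‖ := by
  refine (h.summable_norm.mul_left B).of_norm_bounded fun k => ?_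
  rw [norm_mul, norm_norm]
  exact mul_le_mul_of_nonneg_right (hϖ k) (norm_nonneg _)

theorem W.eq_ev (h : W n f) : f = ev (cf f) := by
  funext x
  rw [ev, (h.rep x).tsum_eq, Complex.ofReal_re]

theorem W.continuous (h : W n f) : Continuous f := by
  rw [h.eq_ev]
  refine Complex.continuous_re.comp (continuous_tsum
    (fun k => continuous_const.mul (contDiff_ek k).continuous) h.summable_norm fun k x => ?_)
  rw [norm_mul, norm_ek, mul_one]

theorem W.abs_le (h : W n f) (x : E d) : |f x| ≤ nm 0 f := by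
  rw [← Real.norm_eq_abs, ← Complex.norm_real]
  refine (h.rep x).norm_le_of_bounded (h.summable (σ := 0) (by positivity)).hasSum fun k => ?_
  rw [norm_mul, norm_ek, mul_one, zpow_zero, one_mul]

theorem W.ext (hf : W n f) {n' : ℕ} (hg : W n' g) (h : EqOn f g (ocube d)) : f = g := by
  rw [hf.eq_ev, cf_congr h, ← hg.eq_ev]

theorem nw_nonneg {ϖ : (Fin d → ℤ) → ℝ} (hϖ : ∀ k, 0 ≤ ϖ k) (f : E d → ℝ) : 0 ≤ nw ϖ f := by
  exact tsum_nonneg fun k => mul_nonneg (hϖ k) (norm_nonneg _)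

theorem nm_nonneg (σ : ℤ) (f : E d → ℝ) : 0 ≤ nm σ f := by
  exact nw_nonneg (fun k => (zpow_pos (wk_pos_Wi2 k) σ).le) f

theorem W.nm_mono (h : W n f) {σ τ : ℤ} (hστ : σ ≤ τ) (hτ : τ ≤ n) : nm σ f ≤ nm τ f := by
  exact (h.summable (hστ.trans hτ)).tsum_le_tsum (fun k => mul_le_mul_of_nonneg_right
    (zpow_le_zpow_right₀ (one_le_wk k) hστ) (norm_nonneg _)) (h.summable hτ)

theorem W.term_le (h : W n f) {σ : ℤ} (hσ : σ ≤ n) (k : Fin d → ℤ) :
    wk k ^ σ * ‖cf f k‖ ≤ nm σ f := by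
  exact (h.summable hσ).le_tsum k fun j _ =>
    mul_nonneg (zpow_pos (wk_pos_Wi2 j) σ).le (norm_nonneg _)

theorem W.eq_zero (h : W n f) {σ : ℤ} (hσ : σ ≤ n) (h0 : nm σ f ≤ 0) : f = fun _ => 0 := by
  have h1 : ∀ k, cf f k = 0 := fun k => by
    have h2 := (h.term_le hσ k).trans h0
    have h3 := zpow_pos (wk_pos_Wi2 k) σ
    exact norm_le_zero_iff.1 (by
      by_contra h4
      exact absurd (mul_pos h3 (not_le.1 h4)) (not_lt.2 h2))
  funext x
  have h5 := h.rep x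
  simp only [h1, zero_mul] at h5
  exact_mod_cast h5.unique hasSum_zero

theorem W_const (c : ℝ) : W n (fun _ : E d => c) ∧ ∀ σ, nm σ (fun _ : E d => c) = |c| := by
  classical
  have h1 : ∀ x : E d, HasSum (fun k : Fin d → ℤ => (if k = 0 then (c : ℂ) else 0) * ek k x)
      (c : ℂ) := fun x => by
    have := hasSum_single (f := fun k : Fin d → ℤ => (if k = 0 then (c : ℂ) else 0) * ek k x) 0
      (fun k hk => by rw [if_neg hk, zero_mul])
    rwa [if_pos rfl, ek_zero, mul_one] at this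
  have h2 : ∀ ϖ : (Fin d → ℤ) → ℝ, HasSum
      (fun k : Fin d → ℤ => ϖ k * ‖if k = 0 then (c : ℂ) else 0‖) (ϖ 0 * |c|) := fun ϖ => by
    have := hasSum_single (f := fun k : Fin d → ℤ => ϖ k * ‖if k = 0 then (c : ℂ) else 0‖) 0
      (fun k hk => by rw [if_neg hk, norm_zero, mul_zero])
    rwa [if_pos rfl, Complex.norm_real, Real.norm_eq_abs] at this
  have h3 : ∀ k, cf (fun _ : E d => c) k = if k = 0 then (c : ℂ) else 0 :=
    cf_of_hasSum_Wi2 (by simpa only [one_mul] using (h2 fun _ => 1).summable) h1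
  refine ⟨⟨?_, fun x => ?_⟩, fun σ => ?_⟩
  · simp only [h3]
    exact (h2 _).summable
  · simp only [h3]
    exact h1 x
  · simp only [nm, nw, h3]
    rw [(h2 _).tsum_eq, wk_zero, one_zpow, one_mul]

theorem W.add (hf : W n f) (hg : W n g) : W n fun x => f x + g x := by
  constructor
  · refine (hf.sum.add hg.sum).of_nonneg_of_le
      (fun k => mul_nonneg (pow_pos (wk_pos_Wi2 k) n).le (norm_nonneg _)) fun k => ?_
    rw [cf_add hf.continuous hg.continuous, ← mul_add]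
    exact mul_le_mul_of_nonneg_left (norm_add_le _ _) (pow_pos (wk_pos_Wi2 k) n).le
  · intro x
    simp only [cf_add hf.continuous hg.continuous, add_mul, Complex.ofReal_add]
    exact (hf.rep x).add (hg.rep x)

theorem W.const_mul (hf : W n f) (c : ℝ) : W n fun x => c * f x := by
  constructor
  · refine (hf.sum.mul_left ‖(c : ℂ)‖).congr fun k => ?_
    rw [cf_const_mul, norm_mul, mul_left_comm]
  · intro x
    simp only [cf_const_mul, mul_assoc, Complex.ofReal_mul]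
    exact (hf.rep x).mul_left _

theorem W.finsum {ι : Type*} (s : Finset ι) {F : ι → E d → ℝ} (h : ∀ i ∈ s, W n (F i)) :
    W n fun x => ∑ i ∈ s, F i x := by
  classical
  induction s using Finset.induction_on with
  | empty => simpa only [Finset.sum_empty] using (W_const 0).1
  | insert i s hi ih =>
    simp only [Finset.sum_insert hi]
    exact (h i (Finset.mem_insert_self _ _)).add
      (ih fun j hj => h j (Finset.mem_insert_of_mem hj))

theorem nw_const_mul (ϖ : (Fin d → ℤ) → ℝ) (c : ℝ) (f : E d → ℝ) :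
    nw ϖ (fun x => c * f x) = |c| * nw ϖ f := by
  rw [nw, nw, ← tsum_mul_left]
  refine tsum_congr fun k => ?_
  rw [cf_const_mul, norm_mul, Complex.norm_real, Real.norm_eq_abs, mul_left_comm]

theorem cf_finsum_Wi2 {ι : Type*} (s : Finset ι) {F : ι → E d → ℝ}
    (hc : ∀ i ∈ s, Continuous (F i)) (k : Fin d → ℤ) :
    cf (fun x => ∑ i ∈ s, F i x) k = ∑ i ∈ s, cf (F i) k := by
  simp only [cf]
  rw [← Finset.mul_sum, ← integral_finsetSum s fun i hi => int_Wi2 (hc i hi) k]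
  congr 2
  funext x
  rw [Complex.ofReal_sum, Finset.mul_sum]

theorem nw_finsum_le {ι : Type*} (s : Finset ι) {F : ι → E d → ℝ} {ϖ : (Fin d → ℤ) → ℝ}
    (hϖ : ∀ k, 0 ≤ ϖ k) (hc : ∀ i ∈ s, Continuous (F i))
    (h : ∀ i ∈ s, Summable fun k => ϖ k * ‖cf (F i) k‖) :
    (Summable fun k => ϖ k * ‖cf (fun x => ∑ i ∈ s, F i x) k‖) ∧
      nw ϖ (fun x => ∑ i ∈ s, F i x) ≤ ∑ i ∈ s, nw ϖ (F i) := by
  have h1 : ∀ k, ϖ k * ‖cf (fun x => ∑ i ∈ s, F i x) k‖ ≤ ∑ i ∈ s, ϖ k * ‖cf (F i) k‖ := by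
    intro k
    rw [cf_finsum_Wi2 s hc, ← Finset.mul_sum]
    exact mul_le_mul_of_nonneg_left (norm_sum_le _ _) (hϖ k)
  have h2 := summable_sum h
  have h3 := h2.of_nonneg_of_le (fun k => mul_nonneg (hϖ k) (norm_nonneg _)) h1
  refine ⟨h3, (h3.tsum_le_tsum h1 h2).trans (le_of_eq ?_)⟩
  exact Summable.tsum_finsetSum h

theorem W_tsum {F : ℕ → E d → ℝ} (h : ∀ i, W n (F i)) (hs : Summable fun i => nm n (F i)) :
    (∀ x, Summable fun i => F i x) ∧ W n (fun x => ∑' i, F i x) ∧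
      ∀ σ : ℤ, σ ≤ n → nm σ (fun x => ∑' i, F i x) ≤ ∑' i, nm σ (F i) := by
  have s0 : ∀ σ : ℤ, σ ≤ n → Summable fun i => nm σ (F i) := fun σ hσ =>
    hs.of_nonneg_of_le (fun i => nm_nonneg σ _) fun i => (h i).nm_mono hσ le_rfl
  have p0 : ∀ (σ : ℤ) (z : ℂ) (k : Fin d → ℤ), 0 ≤ wk k ^ σ * ‖z‖ := fun σ z k =>
    mul_nonneg (zpow_pos (wk_pos_Wi2 k) σ).le (norm_nonneg _)
  have s1 : ∀ σ : ℤ, σ ≤ n →
      Summable fun p : ℕ × (Fin d → ℤ) => wk p.2 ^ σ * ‖cf (F p.1) p.2‖ := fun σ hσ =>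
    (summable_prod_of_nonneg fun p => p0 σ _ _).2 ⟨fun i => (h i).summable hσ, s0 σ hσ⟩
  have s2 : ∀ x, Summable fun i => F i x := fun x =>
    (s0 0 (by positivity)).of_norm_bounded fun i => (h i).abs_le x
  have s3 : Summable fun p : ℕ × (Fin d → ℤ) => ‖cf (F p.1) p.2‖ := by
    simpa only [zpow_zero, one_mul] using s1 0 (by positivity)
  have s4 : ∀ k, Summable fun i => ‖cf (F i) k‖ := fun k => s3.prod_symm.prod_factor k
  have b1 : ∀ (σ : ℤ) k, wk k ^ σ * ‖∑' i, cf (F i) k‖ ≤ ∑' i, wk k ^ σ * ‖cf (F i) k‖ := by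
    intro σ k
    rw [tsum_mul_left]
    exact mul_le_mul_of_nonneg_left (norm_tsum_le_tsum_norm (s4 k))
      (zpow_pos (wk_pos_Wi2 k) σ).le
  have s5 : ∀ σ : ℤ, σ ≤ n → Summable fun k => ∑' i, wk k ^ σ * ‖cf (F i) k‖ := fun σ hσ =>
    (s1 σ hσ).prod_symm.prod
  have s6 : ∀ σ : ℤ, σ ≤ n → Summable fun k => wk k ^ σ * ‖∑' i, cf (F i) k‖ := fun σ hσ =>
    (s5 σ hσ).of_nonneg_of_le (fun k => p0 σ _ k) (b1 σ)
  have r1 : ∀ x, HasSum (fun k => (∑' i, cf (F i) k) * ek k x) ((∑' i, F i x : ℝ) : ℂ) := by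
    intro x
    have t1 : Summable fun p : ℕ × (Fin d → ℤ) => cf (F p.1) p.2 * ek p.2 x :=
      s3.of_norm_bounded fun p => by rw [norm_mul, norm_ek, mul_one]
    have t2 := t1.hasSum.prod_fiberwise fun i => (h i).rep x
    have t3 : ((∑' i, F i x : ℝ) : ℂ) = ∑' p : ℕ × (Fin d → ℤ), cf (F p.1) p.2 * ek p.2 x :=
      (Complex.hasSum_ofReal.2 (s2 x).hasSum).unique t2
    rw [t3]
    exact ((Equiv.prodComm (Fin d → ℤ) ℕ).hasSum_iff.2 t1.hasSum).prod_fiberwise fun k =>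
      (s4 k).of_norm.hasSum.mul_right (ek k x)
  have e1 : ∀ k, cf (fun x => ∑' i, F i x) k = ∑' i, cf (F i) k :=
    cf_of_hasSum_Wi2 (by simpa only [zpow_zero, one_mul] using s6 0 (by positivity)) r1
  refine ⟨s2, ⟨?_, fun x => ?_⟩, fun σ hσ => ?_⟩
  · simpa only [e1, zpow_natCast] using s6 n le_rfl
  · simpa only [e1] using r1 x
  · simp only [nm, nw, e1]
    refine ((s6 σ hσ).tsum_le_tsum (b1 σ) (s5 σ hσ)).trans (le_of_eq ?_)
    exact Summable.tsum_comm (f := fun i k => wk k ^ σ * ‖cf (F i) k‖) (s1 σ hσ)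

theorem W_of_bdd (h : W 0 f) {B : ℝ}
    (hB : ∀ N : ℕ, nw (fun k => (min (wk k) N) ^ n) f ≤ B) : W n f ∧ nm n f ≤ B := by
  have p0 : ∀ k, 0 ≤ wk k ^ n * ‖cf f k‖ := fun k =>
    mul_nonneg (pow_pos (wk_pos_Wi2 k) n).le (norm_nonneg _)
  have h1 : ∀ s : Finset (Fin d → ℤ), ∑ k ∈ s, wk k ^ n * ‖cf f k‖ ≤ B := by
    intro s
    obtain ⟨N, hN⟩ := exists_nat_ge (∑ k ∈ s, wk k)
    have m0 : ∀ k : Fin d → ℤ, 0 ≤ min (wk k) N := fun k =>
      le_min (wk_pos_Wi2 k).le (Nat.cast_nonneg N)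
    have h2 : Summable fun k => (min (wk k) N) ^ n * ‖cf f k‖ :=
      h.summable_bdd (B := (N : ℝ) ^ n) fun k => by
        rw [abs_of_nonneg (pow_nonneg (m0 k) n)]
        exact pow_le_pow_left₀ (m0 k) (min_le_right _ _) n
    refine le_trans (le_of_eq ?_) ((h2.sum_le_tsum s fun k _ =>
      mul_nonneg (pow_nonneg (m0 k) n) (norm_nonneg _)).trans (hB N))
    refine Finset.sum_congr rfl fun k hk => ?_
    rw [min_eq_left ((Finset.single_le_sum (fun j _ => (wk_pos_Wi2 j).le) hk).trans hN)]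
  have h3 := summable_of_sum_le p0 h1
  refine ⟨⟨h3, h.rep⟩, ?_⟩
  simp only [nm, nw, zpow_natCast]
  exact h3.tsum_le_of_sum_le h1

end Pool.Agent.Lib.MP_8daebb_an.GM.Ch
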