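import Pool.Agent.Lib.MP_8daebb_an.GM.Wi2

/-! Products. -/

open MeasureTheory Metric Set Filter Topology
open scoped RealInnerProductSpace ContDiff ENNReal

namespace Pool.Agent.Lib.MP_8daebb_an.GM.Ch

variable {d : ℕ} {f g : E d → ℝ} {n : ℕ}

theorem hasSum_congr_Wi3 {ι : Type*} {u v : ι → ℂ} {a b : ℂ} (h : HasSum u a) (h1 : ∀ i, v i = u i)
    (h2 : b = a) : HasSum v b := by
  rw [funext h1, h2]; exact h

theorem cf_mul (hf : W 0 f) (hg : Continuous g) (k : Fin d → ℤ) :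
    HasSum (fun j => cf f j * cf g (k - j)) (cf (fun x => f x * g x) k) := by
  have hc : ∀ j, Continuous fun x => cf f j * (ek (-(k - j)) x * (g x : ℂ)) := fun j =>
    continuous_const.mul ((contDiff_ek _).continuous.mul (Complex.continuous_ofReal.comp hg))
  have h1 := hasSum_integral_of_summable_integral_norm (μ := volume.restrict (cube d))
    (F := fun j x => cf f j * (ek (-(k - j)) x * (g x : ℂ))) (fun j => integrableOn_cube (hc j)) (by
      have e : ∀ j, ∫ x in cube d, ‖cf f j * (ek (-(k - j)) x * (g x : ℂ))‖ =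
          ‖cf f j‖ * ∫ x in cube d, ‖(g x : ℂ)‖ := fun j => by
        rw [← integral_const_mul]
        simp only [norm_mul, norm_ek, one_mul]
      simp only [e]
      exact hf.summable_norm.mul_right _)
  have h2 : ∀ x, ∑' j, cf f j * (ek (-(k - j)) x * (g x : ℂ)) =
      ek (-k) x * ((f x * g x : ℝ) : ℂ) := fun x => by
    have h3 := (hf.rep x).mul_right (ek (-k) x * (g x : ℂ))
    refine (hasSum_congr_Wi3 h3 (fun j => ?_) ?_).tsum_eq
    · rw [show -(k - j) = j + -k by abel, ek_add]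
      ring
    · push_cast
      ring
  simp only [h2, integral_const_mul] at h1
  have h4 := h1.mul_left ((((2 * Real.pi) ^ d)⁻¹ : ℝ) : ℂ)
  refine hasSum_congr_Wi3 h4 (fun j => ?_) rfl
  rw [cf.eq_1 g]
  ring

/-- The shear of pairs of frequencies. -/
def sh_Wi3 (d : ℕ) : (Fin d → ℤ) × (Fin d → ℤ) ≃ (Fin d → ℤ) × (Fin d → ℤ) where
  toFun p := (p.2, p.1 - p.2)
  invFun p := (p.1 + p.2, p.1)
  left_inv p := by simp
  right_inv p := by simp

theorem nw_mul (hf : W 0 f) (hg : W 0 g) {ϖ a b a' b' : (Fin d → ℤ) → ℝ} (hϖ : ∀ k, 0 ≤ ϖ k)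
    (ha : ∀ k, 0 ≤ a k) (hb : ∀ k, 0 ≤ b k) (ha' : ∀ k, 0 ≤ a' k) (hb' : ∀ k, 0 ≤ b' k)
    (h : ∀ j k, ϖ (j + k) ≤ a j * b k + a' j * b' k)
    (s1 : Summable fun k => a k * ‖cf f k‖) (s2 : Summable fun k => b k * ‖cf g k‖)
    (s3 : Summable fun k => a' k * ‖cf f k‖) (s4 : Summable fun k => b' k * ‖cf g k‖) :
    (Summable fun k => ϖ k * ‖cf (fun x => f x * g x) k‖) ∧
      nw ϖ (fun x => f x * g x) ≤ nw a f * nw b g + nw a' f * nw b' g := by
  have t1 := s1.hasSum.mul s2.hasSum (s1.mul_of_nonneg s2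
    (fun k => mul_nonneg (ha k) (norm_nonneg _)) fun k => mul_nonneg (hb k) (norm_nonneg _))
  have t2 := s3.hasSum.mul s4.hasSum (s3.mul_of_nonneg s4
    (fun k => mul_nonneg (ha' k) (norm_nonneg _)) fun k => mul_nonneg (hb' k) (norm_nonneg _))
  have t3 := (sh_Wi3 d).hasSum_iff.2 (t1.add t2)
  have t4 := t3.prod_fiberwise fun k => (t3.summable.prod_factor k).hasSum
  have key : ∀ k, ϖ k * ‖cf (fun x => f x * g x) k‖ ≤ ∑' j, ((fun p : (Fin d → ℤ) × (Fin d → ℤ) =>
      a p.1 * ‖cf f p.1‖ * (b p.2 * ‖cf g p.2‖) + a' p.1 * ‖cf f p.1‖ * (b' p.2 * ‖cf g p.2‖)) ∘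
        sh_Wi3 d) (k, j) := fun k => by
    have u1 := ((cf_mul hf hg.continuous k).mul_left (ϖ k : ℂ)).norm_le_of_bounded
      (t3.summable.prod_factor k).hasSum fun j => by
        have u2 := h j (k - j)
        rw [add_sub_cancel] at u2
        have u3 := mul_le_mul_of_nonneg_right u2
          (mul_nonneg (norm_nonneg (cf f j)) (norm_nonneg (cf g (k - j))))
        rw [norm_mul, norm_mul, Complex.norm_real, Real.norm_of_nonneg (hϖ k)]
        refine u3.trans (le_of_eq ?_)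
        show _ = a j * ‖cf f j‖ * (b (k - j) * ‖cf g (k - j)‖) +
          a' j * ‖cf f j‖ * (b' (k - j) * ‖cf g (k - j)‖)
        ring
    rwa [norm_mul, Complex.norm_real, Real.norm_of_nonneg (hϖ k)] at u1
  have s5 : Summable fun k => ϖ k * ‖cf (fun x => f x * g x) k‖ :=
    Summable.of_nonneg_of_le (fun k => mul_nonneg (hϖ k) (norm_nonneg _)) key t4.summable
  exact ⟨s5, hasSum_le key s5.hasSum t4⟩

theorem wk_pos_Wi3 (k : Fin d → ℤ) : 0 < wk k := lt_of_lt_of_le one_pos (one_le_wk k)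

theorem W.mul (hf : W n f) (hg : W n g) : W n fun x => f x * g x := by
  have hf0 := hf.mono (Nat.zero_le n)
  have hg0 := hg.mono (Nat.zero_le n)
  refine ⟨(nw_mul hf0 hg0 (ϖ := fun k => wk k ^ n) (a := fun k => wk k ^ n)
    (b := fun k => wk k ^ n) (a' := fun _ => 0) (b' := fun _ => 0)
    (fun k => (pow_pos (wk_pos_Wi3 k) n).le) (fun k => (pow_pos (wk_pos_Wi3 k) n).le)
    (fun k => (pow_pos (wk_pos_Wi3 k) n).le) (fun _ => le_rfl) (fun _ => le_rfl) (fun j k => ?_)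
    hf.sum hg.sum (by simp) (by simp)).1, fun x => ?_⟩
  · rw [mul_zero, add_zero, ← mul_pow]
    exact pow_le_pow_left₀ (wk_pos_Wi3 _).le (wk_add_le_mul j k) n
  · have v1 : Summable fun k => ‖cf f k * ek k x‖ := by
      simpa only [norm_mul, norm_ek, mul_one] using hf.summable_norm
    have v2 : Summable fun k => ‖cf g k * ek k x‖ := by
      simpa only [norm_mul, norm_ek, mul_one] using hg.summable_norm
    have v3 := summable_mul_of_summable_norm v1 v2
    have t1 := (hf.rep x).mul (hg.rep x) v3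
    have t2 := (sh_Wi3 d).hasSum_iff.2 t1
    rw [Complex.ofReal_mul]
    refine t2.prod_fiberwise fun k => ?_
    refine hasSum_congr_Wi3 ((cf_mul hf0 hg.continuous k).mul_right (ek k x)) (fun j => ?_) rfl
    show cf f j * ek j x * (cf g (k - j) * ek (k - j) x) = _
    have : ek k x = ek j x * ek (k - j) x := by rw [← ek_add, add_sub_cancel]
    rw [this]
    ring

theorem nm_mul_le (hf : W n f) (hg : W n g) {σ : ℤ} (hσ : |σ| ≤ n) :
    nm σ (fun x => f x * g x) ≤ nm n f * nm σ g := by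
  have := (nw_mul (hf.mono (Nat.zero_le n)) (hg.mono (Nat.zero_le n)) (ϖ := fun k => wk k ^ σ)
    (a := fun k => wk k ^ (n : ℤ)) (b := fun k => wk k ^ σ) (a' := fun _ => 0) (b' := fun _ => 0)
    (fun k => (zpow_pos (wk_pos_Wi3 k) _).le) (fun k => (zpow_pos (wk_pos_Wi3 k) _).le)
    (fun k => (zpow_pos (wk_pos_Wi3 k) _).le) (fun _ => le_rfl) (fun _ => le_rfl)
    (fun j k => by rw [mul_zero, add_zero, zpow_natCast]; exact peetre j k hσ)
    (hf.summable le_rfl) (hg.summable (abs_le.1 hσ).2) (by simp) (by simp)).2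
  simpa [nm, nw] using this

theorem add_pow_le_Wi3 (n : ℕ) : ∃ C : ℝ, 0 < C ∧ ∀ x a : ℝ, 0 ≤ x → 0 ≤ a →
    (x + a) ^ n ≤ 2 * x ^ n + C * a ^ n := by
  obtain ⟨η, hη, h2⟩ : ∃ η : ℝ, 0 < η ∧ (1 + η) ^ n ≤ 2 := by
    have hl : 0 < Real.log 2 := Real.log_pos one_lt_two
    refine ⟨Real.log 2 / (n + 1), by positivity, ?_⟩
    have h1 : 1 + Real.log 2 / (n + 1) ≤ Real.exp (Real.log 2 / (n + 1)) := by
      linarith [Real.add_one_le_exp (Real.log 2 / (n + 1))]
    refine (pow_le_pow_left₀ (by positivity) h1 n).trans ?_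
    rw [← Real.exp_nat_mul]
    refine (Real.exp_le_exp.2 (?_ : _ ≤ Real.log 2)).trans (Real.exp_log two_pos).le
    rw [← mul_div_assoc, div_le_iff₀ (by positivity)]
    nlinarith
  refine ⟨(1 + η⁻¹) ^ n, by positivity, fun x a hx ha => ?_⟩
  rcases le_total a (η * x) with h | h
  · have h3 : (x + a) ^ n ≤ ((1 + η) * x) ^ n := pow_le_pow_left₀ (by positivity) (by linarith) n
    rw [mul_pow] at h3
    have h4 := mul_le_mul_of_nonneg_right h2 (pow_nonneg hx n)
    have h5 : 0 ≤ (1 + η⁻¹) ^ n * a ^ n := by positivity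
    linarith
  · have h6 : x ≤ η⁻¹ * a := by rw [le_inv_mul_iff₀ hη]; exact h
    have h3 : (x + a) ^ n ≤ ((1 + η⁻¹) * a) ^ n := pow_le_pow_left₀ (by positivity) (by linarith) n
    rw [mul_pow] at h3
    have h5 : 0 ≤ 2 * x ^ n := by positivity
    linarith

theorem tame_wk (n : ℕ) : ∃ C : ℝ, 0 < C ∧ ∀ (N : ℕ) (j k : Fin d → ℤ),
    (min (wk (j + k)) N) ^ n ≤ 1 * (2 * (min (wk k) N) ^ n) + C * wk j ^ n * 1 := by
  obtain ⟨C, hC, h⟩ := add_pow_le_Wi3 n
  refine ⟨C, hC, fun N j k => ?_⟩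
  have hN : (0 : ℝ) ≤ N := Nat.cast_nonneg N
  have h1 : min (wk (j + k)) N ≤ min (wk k) N + wk j := by
    have := wk_add_le j k
    have := wk_pos_Wi3 j
    rcases le_total (wk k) N with h2 | h2
    · rw [min_eq_left h2]; linarith [min_le_left (wk (j + k)) (N : ℝ)]
    · rw [min_eq_right h2]; linarith [min_le_right (wk (j + k)) (N : ℝ)]
  rw [one_mul, mul_one]
  exact (pow_le_pow_left₀ (le_min (wk_pos_Wi3 _).le hN) h1 n).trans
    (h _ _ (le_min (wk_pos_Wi3 _).le hN) (wk_pos_Wi3 _).le)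

theorem single_Wi3 (k : Fin d → ℤ) (c : ℂ) (hc : ‖c‖ = 1) :
    W n (fun x => (c * ek k x).re) ∧ nm n (fun x => (c * ek k x).re) ≤ wk k ^ n := by
  classical
  have h1 : HasSum (fun j => wk j ^ n * ‖(Pi.single k c : (Fin d → ℤ) → ℂ) j‖) (wk k ^ n) := by
    have := hasSum_single (f := fun j => wk j ^ n * ‖(Pi.single k c : (Fin d → ℤ) → ℂ) j‖) k
      (fun j hj => by simp [Pi.single_eq_of_ne hj])
    simpa [hc] using this
  have h2 : ev (Pi.single k c) = fun x => (c * ek k x).re := by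
    funext x
    unfold ev
    rw [tsum_eq_single k (fun j hj => by simp [Pi.single_eq_of_ne hj]), Pi.single_eq_same]
  rw [← h2]
  refine ⟨W_ev h1.summable, (nm_ev_le h1.summable le_rfl).trans (le_of_eq ?_)⟩
  simp only [zpow_natCast]
  exact h1.tsum_eq

theorem W_cos (k : Fin d → ℤ) : W n (fun x => Real.cos (kx k x)) ∧ W n (fun x => Real.sin (kx k x)) ∧
    nm n (fun x => Real.cos (kx k x)) ≤ wk k ^ n ∧ nm n (fun x => Real.sin (kx k x)) ≤ wk k ^ n := by
  have h1 := single_Wi3 (n := n) k 1 norm_one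
  have h2 := single_Wi3 (n := n) k (-Complex.I) (by simp)
  have e1 : (fun x => (1 * ek k x).re) = fun x => Real.cos (kx k x) := by
    funext x
    rw [one_mul, ek, Complex.exp_ofReal_mul_I_re]
  have e2 : (fun x => (-Complex.I * ek k x).re) = fun x => Real.sin (kx k x) := by
    funext x
    rw [← Complex.exp_ofReal_mul_I_im, ek]
    simp
  rw [e1] at h1
  rw [e2] at h2
  exact ⟨h1.1, h2.1, h1.2, h2.2⟩

theorem cf_eq_cos_sin (hf : Continuous f) (k : Fin d → ℤ) :
    cf f k = (((2 * Real.pi) ^ d)⁻¹ * ∫ x in cube d, Real.cos (kx k x) * f x : ℝ) -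
      (((2 * Real.pi) ^ d)⁻¹ * ∫ x in cube d, Real.sin (kx k x) * f x : ℝ) * Complex.I := by
  have hc := (W_cos (n := 0) k).1.continuous
  have hs := (W_cos (n := 0) k).2.1.continuous
  have e : ∀ x, ek (-k) x * (f x : ℂ) = ((Real.cos (kx k x) * f x : ℝ) : ℂ) -
      ((Real.sin (kx k x) * f x : ℝ) : ℂ) * Complex.I := fun x => by
    rw [ek_neg, ek, Complex.exp_mul_I, ← Complex.ofReal_cos, ← Complex.ofReal_sin, map_add, map_mul,
      Complex.conj_ofReal, Complex.conj_ofReal, Complex.conj_I]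
    push_cast
    ring
  have i1 : IntegrableOn (fun x => ((Real.cos (kx k x) * f x : ℝ) : ℂ)) (cube d) :=
    integrableOn_cube (Complex.continuous_ofReal.comp (hc.mul hf))
  have i2 : IntegrableOn (fun x => ((Real.sin (kx k x) * f x : ℝ) : ℂ) * Complex.I) (cube d) :=
    integrableOn_cube ((Complex.continuous_ofReal.comp (hs.mul hf)).mul continuous_const)
  unfold cf
  simp only [e]
  rw [integral_sub i1 i2, integral_mul_const, integral_complex_ofReal, integral_complex_ofReal,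
    Complex.ofReal_mul, Complex.ofReal_mul]
  ring

theorem pairing (hf : W 0 f) (hg : Continuous g) :
    HasSum (fun k => (2 * Real.pi) ^ d * (cf f k * cf g (-k)).re) (∫ x in cube d, f x * g x) := by
  have h1 := (Complex.hasSum_re (cf_mul hf hg 0)).mul_left ((2 * Real.pi) ^ d)
  rw [← cf_zero_eq (f := fun x => f x * g x) (hf.continuous.mul hg)] at h1
  simpa only [zero_sub] using h1

theorem pairing_le (hf : W 0 f) (hg : Continuous g) {s : ℕ} {Λ : ℝ}
    (h : ∀ k, wk k ^ s * ‖cf g k‖ ≤ Λ) :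
    |∫ x in cube d, f x * g x| ≤ (2 * Real.pi) ^ d * nm (-(s : ℤ)) f * Λ := by
  have h1 := ((hf.summable (σ := -(s : ℤ)) (by simp)).hasSum.mul_left
    ((2 * Real.pi) ^ d)).mul_right Λ
  rw [← Real.norm_eq_abs]
  refine (pairing hf hg).norm_le_of_bounded h1 fun k => ?_
  have hp : 0 < (2 * Real.pi) ^ d := by positivity
  have hw := pow_pos (wk_pos_Wi3 k) s
  have h2 := h (-k)
  rw [wk_neg] at h2
  have h3 : ‖cf g (-k)‖ ≤ (wk k ^ s)⁻¹ * Λ := by rw [le_inv_mul_iff₀ hw]; exact h2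
  rw [norm_mul, Real.norm_of_nonneg hp.le, mul_assoc, zpow_neg, zpow_natCast]
  refine mul_le_mul_of_nonneg_left ?_ hp.le
  refine (Complex.abs_re_le_norm _).trans ?_
  rw [norm_mul]
  refine (mul_le_mul_of_nonneg_left h3 (norm_nonneg _)).trans (le_of_eq ?_)
  ring

end Pool.Agent.Lib.MP_8daebb_an.GM.Ch
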