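import Pool.Agent.Lib.MP_8daebb_an.GM.Wi2

/-! Derivatives. -/

open MeasureTheory Metric Set Filter Topology
open scoped RealInnerProductSpace ContDiff ENNReal

namespace Pool.Agent.Lib.MP_8daebb_an.GM.Ch

variable {d : ℕ} {f : E d → ℝ} {n : ℕ}

theorem wk_pos_Wi4 (k : Fin d → ℤ) : 0 < wk k := lt_of_lt_of_le one_pos (one_le_wk k)

theorem norm_der_Wi4 (c : ℂ) (k : Fin d → ℤ) (x : E d) :
    ‖c • fderiv ℝ (ek k) x‖ ≤ wk k * ‖c‖ := by
  refine ContinuousLinearMap.opNorm_le_bound _ (mul_nonneg (wk_pos_Wi4 k).le (norm_nonneg _))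
    fun v => ?_
  rw [ContinuousLinearMap.smul_apply, fderiv_ek, norm_smul, norm_mul, norm_mul, norm_ek,
    Complex.norm_I, Complex.norm_real, Real.norm_eq_abs]
  calc ‖c‖ * (|kx k v| * 1 * 1) = ‖c‖ * |kx k v| := by ring
    _ ≤ ‖c‖ * (wk k * ‖v‖) := mul_le_mul_of_nonneg_left (abs_kx_le k v) (norm_nonneg _)
    _ = _ := by ring

theorem sum1_Wi4 (h : W (n + 1) f) : Summable fun k => wk k * ‖cf f k‖ := by
  simpa using (h.mono (n' := 1) (by omega)).sum

theorem hasF_Wi4 (h : W (n + 1) f) (x : E d) :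
    HasFDerivAt f (Complex.reCLM.comp (∑' k, cf f k • fderiv ℝ (ek k) x)) x := by
  have h1 : HasFDerivAt (fun y => ∑' k, cf f k * ek k y) (∑' k, cf f k • fderiv ℝ (ek k) x) x :=
    hasFDerivAt_tsum (f := fun k y => cf f k * ek k y)
      (f' := fun k y => cf f k • fderiv ℝ (ek k) y) (sum1_Wi4 h)
      (fun k y => (((contDiff_ek k).differentiable (by simp)) y).hasFDerivAt.const_mul _)
      (fun k y => norm_der_Wi4 _ k y) (h.rep 0).summable x
  have h2 := Complex.reCLM.hasFDerivAt.comp x h1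
  have e : (⇑Complex.reCLM ∘ fun y => ∑' k, cf f k * ek k y) = f := h.eq_ev.symm
  rwa [e] at h2

theorem W.differentiable (h : W (n + 1) f) : Differentiable ℝ f :=
  fun x => (hasF_Wi4 h x).differentiableAt

theorem pd_eq_Wi4 (h : W (n + 1) f) (i : Fin d) :
    pd i f = ev fun k => Complex.I * (k i : ℝ) * cf f k := by
  funext x
  have hs : Summable fun k => cf f k • fderiv ℝ (ek k) x :=
    Summable.of_norm_bounded (sum1_Wi4 h) fun k => norm_der_Wi4 _ k x
  have h1 := (ContinuousLinearMap.apply ℝ ℂ (eb i : E d)).map_tsum hs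
  simp only [ContinuousLinearMap.apply_apply] at h1
  rw [pd, (hasF_Wi4 h x).fderiv, ContinuousLinearMap.comp_apply, h1, Complex.reCLM_apply, ev]
  congr 2
  funext k
  rw [ContinuousLinearMap.smul_apply, fderiv_ek, kx_eb, smul_eq_mul]
  ring

theorem norm_c_Wi4 (c : ℂ) (k : Fin d → ℤ) (i : Fin d) :
    ‖Complex.I * (k i : ℝ) * c‖ = |(k i : ℝ)| * ‖c‖ := by
  rw [norm_mul, norm_mul, Complex.norm_I, one_mul, Complex.norm_real, Real.norm_eq_abs]

theorem sum2_Wi4 (h : W (n + 1) f) (i : Fin d) :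
    Summable fun k => wk k ^ n * ‖Complex.I * (k i : ℝ) * cf f k‖ := by
  refine Summable.of_nonneg_of_le
    (fun k => mul_nonneg (pow_nonneg (wk_pos_Wi4 k).le _) (norm_nonneg _)) (fun k => ?_) h.sum
  rw [norm_c_Wi4, pow_succ, mul_assoc]
  exact mul_le_mul_of_nonneg_left (mul_le_mul_of_nonneg_right (abs_le_wk k i) (norm_nonneg _))
    (pow_nonneg (wk_pos_Wi4 k).le _)

theorem W.dif (h : W (n + 1) f) (i : Fin d) : W n (pd i f) := by
  rw [pd_eq_Wi4 h]
  exact W_ev (sum2_Wi4 h i)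

theorem W.cf_pd (h : W (n + 1) f) (i : Fin d) (k : Fin d → ℤ) :
    cf (pd i f) k = Complex.I * (k i : ℝ) * cf f k := by
  have hs : Summable fun k : Fin d → ℤ => ‖Complex.I * (k i : ℝ) * cf f k‖ := by
    simpa only [pow_zero, one_mul] using sum2_Wi4 (h.mono (n' := 0 + 1) (by omega)) i
  rw [pd_eq_Wi4 h, cf_ev hs, cf_neg_conj]
  simp only [map_mul, Complex.conj_I, Complex.conj_ofReal, Complex.conj_conj, Pi.neg_apply]
  push_cast
  ring

theorem W.nm_pd (h : W (n + 1) f) (i : Fin d) {σ : ℤ} (hσ : σ ≤ n) :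
    nm σ (pd i f) ≤ nm (σ + 1) f := by
  refine Summable.tsum_le_tsum (fun k => ?_) ((h.dif i).summable hσ)
    (h.summable (by push_cast; omega))
  dsimp only
  rw [h.cf_pd, norm_c_Wi4, zpow_add_one₀ (wk_pos_Wi4 k).ne', mul_assoc]
  exact mul_le_mul_of_nonneg_left (mul_le_mul_of_nonneg_right (abs_le_wk k i) (norm_nonneg _))
    (zpow_nonneg (wk_pos_Wi4 k).le _)

theorem fderiv_eq_sum (f : E d → ℝ) (x v : E d) : fderiv ℝ f x v = ∑ i, v i * pd i f x := by
  have hv : v = ∑ i, v i • (eb i : E d) := by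
    simpa using ((EuclideanSpace.basisFun (Fin d) ℝ).sum_repr v).symm
  conv_lhs => rw [hv]
  simp only [map_sum, map_smul, smul_eq_mul, pd]

theorem W.contDiff (h : W n f) : ContDiff ℝ n f := by
  induction n generalizing f with
  | zero => exact contDiff_zero.2 h.continuous
  | succ n ih =>
    rw [Nat.cast_succ, contDiff_succ_iff_fderiv_apply]
    refine ⟨h.differentiable, by simp, fun v => ?_⟩
    simp only [fderiv_eq_sum]
    exact ContDiff.sum fun i _ => contDiff_const.mul (ih (h.dif i))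

theorem W.integral_pd (h : W (n + 1) f) (i : Fin d) : ∫ x in cube d, pd i f x = 0 := by
  rw [cf_zero_eq (h.dif i).continuous, h.cf_pd]
  simp

theorem lapv_eq (h : ContDiff ℝ 2 f) (x : E d) : lapv f x = ∑ i, pd i (pd i f) x := by
  unfold lapv tr2
  refine Finset.sum_congr rfl fun i _ => ?_
  have h1 : DifferentiableAt ℝ (fderiv ℝ f) x :=
    ((h.fderiv_right (m := 1) le_rfl).differentiable one_ne_zero) x
  have h2 : pd i f = fun y => fderiv ℝ f y (eb i) := rfl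
  rw [pd, h2, fderiv_clm_apply h1 (differentiableAt_const _)]
  simp

theorem cf_sum_Wi4 {ι : Type*} (s : Finset ι) {F : ι → E d → ℝ} (h : ∀ i, Continuous (F i))
    (k : Fin d → ℤ) : cf (fun x => ∑ i ∈ s, F i x) k = ∑ i ∈ s, cf (F i) k := by
  classical
  induction s using Finset.induction_on with
  | empty => simp [cf]
  | insert a s ha ih =>
    simp only [Finset.sum_insert ha]
    rw [cf_add (h a) (continuous_finsetSum s fun i _ => h i), ih]

theorem W.lap (h : W (n + 2) f) : W n (lapv f) ∧ ∀ k, cf (lapv f) k = -(k2 k : ℝ) * cf f k := by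
  have e : lapv f = fun x => ∑ i, pd i (pd i f) x :=
    funext (lapv_eq (h.mono (n' := 2) (by omega)).contDiff)
  rw [e]
  refine ⟨W.finsum _ fun i _ => (h.dif i).dif i, fun k => ?_⟩
  rw [cf_sum_Wi4 _ fun i => ((h.dif i).dif i).continuous, k2]
  push_cast
  rw [neg_mul, Finset.sum_mul, ← Finset.sum_neg_distrib]
  refine Finset.sum_congr rfl fun i _ => ?_
  rw [(h.dif i).cf_pd, h.cf_pd]
  push_cast
  linear_combination ((k i : ℂ) ^ 2 * cf f k) * Complex.I_mul_I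

theorem norm_lap_Wi4 (h : W (n + 2) f) (k : Fin d → ℤ) : ‖cf (lapv f) k‖ = k2 k * ‖cf f k‖ := by
  rw [h.lap.2, norm_mul, norm_neg, Complex.norm_real, Real.norm_of_nonneg (k2_le k).1]

theorem term_Wi4 (h : W (n + 2) f) (σ τ : ℤ) (k : Fin d → ℤ) :
    wk k ^ (σ + 2) * ‖cf f k‖ ≤
      (d + 1) ^ 2 * (wk k ^ σ * ‖cf (lapv f) k‖) + wk k ^ τ * ‖cf f k‖ := by
  have hw := wk_pos_Wi4 k
  by_cases hk : k = 0
  · subst hk
    simp only [wk_zero, one_zpow, one_mul, le_add_iff_nonneg_left]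
    positivity
  · rw [norm_lap_Wi4 h, zpow_add₀ hw.ne', zpow_ofNat]
    have h1 : wk k ^ σ * ‖cf f k‖ * wk k ^ 2 ≤ wk k ^ σ * ‖cf f k‖ * ((d + 1) ^ 2 * k2 k) :=
      mul_le_mul_of_nonneg_left (wk_sq_le hk).2 (by positivity)
    have h2 : 0 ≤ wk k ^ τ * ‖cf f k‖ := by positivity
    nlinarith

theorem W.apriori (h : W (n + 2) f) {σ τ : ℤ} (hσ : σ ≤ n) (hτ : τ ≤ n + 2) :
    nm (σ + 2) f ≤ (d + 1) ^ 2 * nm σ (lapv f) + nm τ f := by
  have s1 := (h.lap.1.summable hσ).mul_left (((d : ℝ) + 1) ^ 2)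
  have s2 := h.summable (σ := τ) (by push_cast; omega)
  have := Summable.tsum_le_tsum (term_Wi4 h σ τ) (h.summable (by push_cast; omega)) (s1.add s2)
  rwa [s1.tsum_add s2, tsum_mul_left] at this

theorem W.cf_pd_pd (h : W 2 f) (i j : Fin d) (k : Fin d → ℤ) :
    ‖cf (pd i (pd j f)) k‖ ≤ ‖cf (lapv f) k‖ := by
  rw [norm_lap_Wi4 (n := 0) h, W.cf_pd (n := 0) (W.dif (n := 1) h j), W.cf_pd (n := 1) h,
    norm_c_Wi4, norm_c_Wi4, ← mul_assoc]
  refine mul_le_mul_of_nonneg_right ?_ (norm_nonneg _)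
  have h1 : ∀ l, |(k l : ℝ)| ^ 2 ≤ k2 k := fun l => by
    rw [sq_abs]
    exact Finset.single_le_sum (f := fun l => (k l : ℝ) ^ 2) (fun _ _ => sq_nonneg _)
      (Finset.mem_univ l)
  nlinarith [h1 i, h1 j, sq_nonneg (|(k i : ℝ)| - |(k j : ℝ)|)]

theorem W_of_lap (h : W 2 f) (hl : W n (lapv f)) : W (n + 2) f := by
  refine ⟨?_, h.rep⟩
  have s1 := (hl.summable (σ := n) le_rfl).mul_left (((d : ℝ) + 1) ^ 2)
  have s2 := h.summable (σ := 0) (by norm_num)
  refine Summable.of_nonneg_of_le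
    (fun k => mul_nonneg (pow_nonneg (wk_pos_Wi4 k).le _) (norm_nonneg _)) (fun k => ?_)
    (s1.add s2)
  have := term_Wi4 (n := 0) h n 0 k
  rwa [show ((n : ℤ) + 2) = ((n + 2 : ℕ) : ℤ) by push_cast; ring, zpow_natCast] at this

end Pool.Agent.Lib.MP_8daebb_an.GM.Ch
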