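import Pool.Agent.Lib.MP_8daebb_an.GM.Wi3
import Pool.Agent.Lib.MP_8daebb_an.GM.Wi4

/-! The vector-valued class. -/

open MeasureTheory Metric Set Filter Topology
open scoped RealInnerProductSpace ContDiff ENNReal

set_option linter.unusedSectionVars false

namespace Pool.Agent.Lib.MP_8daebb_an.GM.Ch

variable {d : ℕ} {X Y Z : Type*} [NormedAddCommGroup X] [NormedSpace ℝ X] [FiniteDimensional ℝ X]
  [NormedAddCommGroup Y] [NormedSpace ℝ Y] [FiniteDimensional ℝ Y]
  [NormedAddCommGroup Z] [NormedSpace ℝ Z] [FiniteDimensional ℝ Z] {f g : E d → X} {n : ℕ}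

theorem sum_co (v : X) : ∑ i, co X i v • Module.finBasis ℝ X i = v := by
  simp [co]

theorem map_eq_sum_Wi7 (T : X →L[ℝ] Y) (v : X) :
    T v = ∑ i, co X i v • T (Module.finBasis ℝ X i) := by
  conv_lhs => rw [← sum_co v]
  simp [map_sum]

theorem Wv_of_co (h : ∀ i, W n fun x => co X i (f x)) : Wv n f := by
  intro ℓ
  have e : (fun x => ℓ (f x)) = fun x => ∑ i, ℓ (Module.finBasis ℝ X i) * co X i (f x) := by
    funext x
    rw [map_eq_sum_Wi7 ℓ]
    simp [mul_comm]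
  rw [e]
  exact W.finsum _ fun i _ => (h i).const_mul _

theorem Wv_real {φ : E d → ℝ} : Wv n φ ↔ W n φ := by
  refine ⟨fun h => h (ContinuousLinearMap.id ℝ ℝ), fun h ℓ => ?_⟩
  have e : (fun x => ℓ (φ x)) = fun x => ℓ 1 * φ x := by
    funext x
    rw [← mul_one (φ x), ← smul_eq_mul, map_smul]
    simp [mul_comm]
  rw [e]
  exact h.const_mul _

theorem Wv.mono (h : Wv n f) {n' : ℕ} (hn : n' ≤ n) : Wv n' f := fun ℓ => (h ℓ).mono hn

theorem Wv.contDiff (h : Wv n f) : ContDiff ℝ n f := by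
  have e : f = fun x => ∑ i, co X i (f x) • Module.finBasis ℝ X i := by
    funext x
    exact (sum_co _).symm
  rw [e]
  exact ContDiff.sum fun i _ => (h (co X i)).contDiff.smul contDiff_const

theorem Wv.continuous (h : Wv n f) : Continuous f := h.contDiff.continuous

theorem Wv.ext (hf : Wv n f) {n' : ℕ} (hg : Wv n' g) (h : EqOn f g (ocube d)) : f = g := by
  funext x
  rw [← sum_co (f x), ← sum_co (g x)]
  refine Finset.sum_congr rfl fun i _ => ?_
  have := (hf (co X i)).ext (hg (co X i)) fun y hy => by simp only [h hy]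
  rw [congrFun this x]

theorem Wv_const (c : X) : Wv n fun _ : E d => c := fun ℓ => (W_const (ℓ c)).1

theorem Wv.add (hf : Wv n f) (hg : Wv n g) : Wv n fun x => f x + g x := fun ℓ => by
  simpa only [map_add] using (hf ℓ).add (hg ℓ)

theorem Wv.const_smul_Wi7 (hf : Wv n f) (c : ℝ) : Wv n fun x => c • f x := fun ℓ => by
  simpa only [map_smul, smul_eq_mul] using (hf ℓ).const_mul c

theorem Wv.sub (hf : Wv n f) (hg : Wv n g) : Wv n fun x => f x - g x := by
  simpa only [neg_one_smul, ← sub_eq_add_neg] using hf.add (hg.const_smul_Wi7 (-1))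

theorem Wv.neg (hf : Wv n f) : Wv n fun x => -f x := by
  simpa only [neg_one_smul] using hf.const_smul_Wi7 (-1)

theorem Wv.const_smul (hf : Wv n f) (c : ℝ) : Wv n fun x => c • f x := hf.const_smul_Wi7 c

theorem Wv.finsum {ι : Type*} (s : Finset ι) {F : ι → E d → X} (h : ∀ i ∈ s, Wv n (F i)) :
    Wv n fun x => ∑ i ∈ s, F i x := fun ℓ => by
  simpa only [map_sum] using W.finsum s fun i hi => h i hi ℓ

theorem Wv.clm (hf : Wv n f) (T : X →L[ℝ] Y) : Wv n fun x => T (f x) := fun ℓ => hf (ℓ.comp T)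

theorem Wv.bil (hf : Wv n f) {g : E d → Y} (hg : Wv n g) (B : X →L[ℝ] Y →L[ℝ] Z) :
    Wv n fun x => B (f x) (g x) := fun ℓ => by
  have e : (fun x => ℓ (B (f x) (g x))) = fun x =>
      ∑ i, co X i (f x) * (ℓ.comp (B (Module.finBasis ℝ X i))) (g x) := by
    funext x
    rw [map_eq_sum_Wi7 B]
    simp [map_sum]
  rw [e]
  exact W.finsum _ fun i _ => (hf _).mul (hg _)

theorem Wv.smul {χ : E d → ℝ} (hχ : W n χ) (hf : Wv n f) : Wv n fun x => χ x • f x := fun ℓ => by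
  simpa only [map_smul, smul_eq_mul] using hχ.mul (hf ℓ)

theorem Wv.dif (hf : Wv (n + 1) f) : Wv n (fderiv ℝ f) := by
  have hd : Differentiable ℝ f := hf.contDiff.differentiable (by simp)
  have e : fderiv ℝ f = fun x => ∑ i, ∑ j, pd j (fun z => co X i (f z)) x •
      (EuclideanSpace.proj j : E d →L[ℝ] ℝ).smulRight (Module.finBasis ℝ X i) := by
    funext x
    ext1 v
    rw [← sum_co (fderiv ℝ f x v)]
    simp only [sum_apply, smul_apply,
      ContinuousLinearMap.smulRight_apply]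
    refine Finset.sum_congr rfl fun i _ => ?_
    have h1 : co X i (fderiv ℝ f x v) = fderiv ℝ (fun z => co X i (f z)) x v := by
      have := ((co X i).hasFDerivAt.comp x (hd x).hasFDerivAt).fderiv
      exact (congrArg (fun T => T v) this).symm
    rw [h1, fderiv_eq_sum, Finset.sum_smul]
    refine Finset.sum_congr rfl fun j _ => ?_
    rw [smul_smul, mul_comm]
    rfl
  rw [e]
  exact Wv.finsum _ fun i _ => Wv.finsum _ fun j _ => Wv.smul ((hf _).dif j) (Wv_const _)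

theorem nv_eq_Wi7 (σ : ℤ) (f : E d → X) : nv σ f = ∑ i, nm σ fun x => co X i (f x) := rfl

theorem nv_nonneg (σ : ℤ) (f : E d → X) : 0 ≤ nv σ f := by
  rw [nv_eq_Wi7]
  exact Finset.sum_nonneg fun _ _ => nm_nonneg σ _

theorem nv_zero (σ : ℤ) : nv σ (fun _ : E d => (0 : X)) = 0 := by
  rw [nv_eq_Wi7]
  refine Finset.sum_eq_zero fun i _ => ?_
  have := (W_const (d := d) (n := 0) (co X i 0)).2 σ
  simpa using this

theorem Wv.nv_mono (h : Wv n f) {σ τ : ℤ} (hστ : σ ≤ τ) (hτ : τ ≤ n) : nv σ f ≤ nv τ f := by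
  rw [nv_eq_Wi7, nv_eq_Wi7]
  exact Finset.sum_le_sum fun i _ => (h (co X i)).nm_mono hστ hτ

theorem Wv.eq_zero (h : Wv n f) {σ : ℤ} (hσ : σ ≤ n) (h0 : nv σ f ≤ 0) : f = fun _ => 0 := by
  funext x
  rw [← sum_co (f x)]
  refine Finset.sum_eq_zero fun i _ => ?_
  have h1 : nm σ (fun x => co X i (f x)) ≤ nv σ f :=
    Finset.single_le_sum (f := fun i => nm σ fun x => co X i (f x))
      (fun _ _ => nm_nonneg σ _) (Finset.mem_univ i)
  rw [congrFun ((h (co X i)).eq_zero hσ (h1.trans h0)) x, zero_smul]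

theorem wk_pow_nonneg_Wi7 (σ : ℤ) (k : Fin d → ℤ) : 0 ≤ wk k ^ σ :=
  zpow_nonneg (zero_le_one.trans (one_le_wk k)) σ

theorem nv_finsum_le_Wi7 {ι : Type*} (s : Finset ι) {F : ι → E d → X} (h : ∀ i ∈ s, Wv n (F i))
    {σ : ℤ} (hσ : σ ≤ n) : nv σ (fun x => ∑ i ∈ s, F i x) ≤ ∑ i ∈ s, nv σ (F i) := by
  unfold nv nwv
  rw [Finset.sum_comm]
  refine Finset.sum_le_sum fun j _ => ?_
  simp only [map_sum]
  exact (nw_finsum_le s (F := fun i x => co X j (F i x)) (wk_pow_nonneg_Wi7 σ)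
    (fun i hi => (h i hi _).continuous) fun i hi => (h i hi _).summable hσ).2

theorem nv_add_le (hf : Wv n f) (hg : Wv n g) {σ : ℤ} (hσ : σ ≤ n) :
    nv σ (fun x => f x + g x) ≤ nv σ f + nv σ g := by
  have := nv_finsum_le_Wi7 (Finset.univ : Finset Bool) (F := fun b => if b then f else g)
    (n := n) (fun b _ => by cases b <;> simpa) hσ
  simpa using this

theorem nv_const_smul_Wi7 (σ : ℤ) (c : ℝ) (f : E d → X) :
    nv σ (fun x => c • f x) = |c| * nv σ f := by
  unfold nv nwv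
  rw [Finset.mul_sum]
  refine Finset.sum_congr rfl fun j _ => ?_
  simp only [map_smul, smul_eq_mul]
  exact nw_const_mul _ _ _

theorem nv_neg_Wi7 (σ : ℤ) (f : E d → X) : nv σ (fun x => -f x) = nv σ f := by
  simpa using nv_const_smul_Wi7 σ (-1) f

theorem nv_sub_le (hf : Wv n f) (hg : Wv n g) {σ : ℤ} (hσ : σ ≤ n) :
    nv σ (fun x => f x - g x) ≤ nv σ f + nv σ g := by
  have := nv_add_le hf hg.neg hσ
  rwa [nv_neg_Wi7, ← funext fun x => sub_eq_add_neg (f x) (g x)] at this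

theorem nv_neg (σ : ℤ) (f : E d → X) : nv σ (fun x => -f x) = nv σ f := nv_neg_Wi7 σ f

theorem nv_sub_comm (σ : ℤ) (f g : E d → X) :
    nv σ (fun x => f x - g x) = nv σ fun x => g x - f x := by
  rw [← nv_neg]
  simp only [neg_sub]

theorem nv_const_smul (σ : ℤ) (c : ℝ) (f : E d → X) : nv σ (fun x => c • f x) = |c| * nv σ f :=
  nv_const_smul_Wi7 σ c f

theorem nv_finsum_le {ι : Type*} (s : Finset ι) {F : ι → E d → X} (h : ∀ i ∈ s, Wv n (F i))
    {σ : ℤ} (hσ : σ ≤ n) : nv σ (fun x => ∑ i ∈ s, F i x) ≤ ∑ i ∈ s, nv σ (F i) :=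
  nv_finsum_le_Wi7 s h hσ

theorem nv_smul_le {χ : E d → ℝ} (hχ : W n χ) (hf : Wv n f) {σ : ℤ} (hσ : |σ| ≤ n) :
    nv σ (fun x => χ x • f x) ≤ nm n χ * nv σ f := by
  unfold nv nwv
  rw [Finset.mul_sum]
  refine Finset.sum_le_sum fun j _ => ?_
  simp only [map_smul, smul_eq_mul]
  exact nm_mul_le hχ (hf _) hσ

end Pool.Agent.Lib.MP_8daebb_an.GM.Ch
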