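import Pool.Agent.Lib.MP_8daebb_an.GM.Wi8

/-! Series, fixed points, inverses, truncation and compactness. -/

open MeasureTheory Metric Set Filter Topology
open scoped RealInnerProductSpace ContDiff ENNReal

namespace Pool.Agent.Lib.MP_8daebb_an.GM.Ch

variable {d : ℕ} {X Y Z : Type*} [NormedAddCommGroup X] [NormedSpace ℝ X] [FiniteDimensional ℝ X]
  [NormedAddCommGroup Y] [NormedSpace ℝ Y] [FiniteDimensional ℝ Y]
  [NormedAddCommGroup Z] [NormedSpace ℝ Z] [FiniteDimensional ℝ Z]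

theorem nv_eq_Wi9 (σ : ℤ) (f : E d → X) : nv σ f = ∑ a, nm σ fun x => co X a (f x) := rfl

theorem nm_le_Wi9 (σ : ℤ) (f : E d → X) (a : Fin (Module.finrank ℝ X)) :
    (nm σ fun x => co X a (f x)) ≤ nv σ f :=
  Finset.single_le_sum (f := fun a => nm σ fun x => co X a (f x)) (fun _ _ => nm_nonneg _ _)
    (Finset.mem_univ a)

theorem co_sum_Wi9 (c : Fin (Module.finrank ℝ X) → ℝ) (a : Fin (Module.finrank ℝ X)) :
    co X a (∑ b, c b • Module.finBasis ℝ X b) = c a := by
  simp [co, Finsupp.single_apply]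

theorem ev_sub_Wi9 {c c' : (Fin d → ℤ) → ℂ} (hc : Summable fun k => ‖c k‖)
    (hc' : Summable fun k => ‖c' k‖) (x : E d) :
    ev c x - ev c' x = ev (fun k => c k - c' k) x := by
  have h1 : Summable fun k => c k * ek k x :=
    Summable.of_norm (by simpa only [norm_mul, norm_ek, mul_one] using hc)
  have h2 : Summable fun k => c' k * ek k x :=
    Summable.of_norm (by simpa only [norm_mul, norm_ek, mul_one] using hc')
  simp only [ev, sub_mul, h1.tsum_sub h2, Complex.sub_re]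

theorem tail_Wi9 {e : ℕ → (Fin d → ℤ) → ℝ} {B : ℝ} (h0 : ∀ j k, 0 ≤ e j k)
    (hs : ∀ j, Summable fun k => wk k * e j k) (hB : ∀ j, ∑' k, wk k * e j k ≤ B)
    (ht : ∀ k, Tendsto (fun j => e j k) atTop (𝓝 0)) :
    Tendsto (fun j => ∑' k, e j k) atTop (𝓝 0) := by
  classical
  rw [Metric.tendsto_atTop]
  intro ε hε
  have hB0 : 0 ≤ B := (tsum_nonneg fun k =>
    mul_nonneg (zero_le_one.trans (one_le_wk k)) (h0 0 k)).trans (hB 0)
  obtain ⟨N, hN0, hN⟩ : ∃ N : ℝ, 0 < N ∧ B / N < ε / 2 := by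
    refine ⟨2 * (B + 1) / ε, by positivity, ?_⟩
    rw [div_lt_iff₀ (by positivity)]
    have : ε / 2 * (2 * (B + 1) / ε) = B + 1 := by field_simp
    linarith
  have h1 : Tendsto (fun j => ∑ k ∈ (finite_wk (d := d) N).toFinset, e j k) atTop (𝓝 0) := by
    simpa using tendsto_finsetSum (finite_wk (d := d) N).toFinset fun k _ => ht k
  obtain ⟨j₀, hj₀⟩ := eventually_atTop.1 (h1.eventually (gt_mem_nhds (half_pos hε)))
  refine ⟨j₀, fun j hj => ?_⟩
  rw [Real.dist_0_eq_abs, abs_of_nonneg (tsum_nonneg (h0 j))]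
  have h2 : HasSum (fun k => if k ∈ (finite_wk (d := d) N).toFinset then e j k else 0)
      (∑ k ∈ (finite_wk (d := d) N).toFinset, e j k) := by
    have := hasSum_sum_of_ne_finset_zero
      (f := fun k => if k ∈ (finite_wk (d := d) N).toFinset then e j k else 0)
      (s := (finite_wk (d := d) N).toFinset) (L := SummationFilter.unconditional _)
      (fun k hk => if_neg hk)
    rwa [Finset.sum_congr rfl fun k hk => if_pos hk] at this
  have h3 := h2.add ((hs j).hasSum.div_const N)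
  have h4 : ∀ k, e j k ≤
      (if k ∈ (finite_wk (d := d) N).toFinset then e j k else 0) + wk k * e j k / N := by
    intro k
    have g0 := h0 j k
    have g1 := one_le_wk k
    split_ifs with hk
    · exact le_add_of_nonneg_right (by positivity)
    · have g2 : N < wk k := by simpa using hk
      rw [zero_add, le_div_iff₀ hN0]
      nlinarith
  have h5 := Summable.tsum_le_tsum h4 (h3.summable.of_nonneg_of_le (h0 j) h4) h3.summable
  rw [h3.tsum_eq] at h5
  have h6 := div_le_div_of_nonneg_right (hB j) hN0.le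
  linarith [hj₀ j hj]

theorem Wv_tsum {n : ℕ} {F : ℕ → E d → X} (h : ∀ i, Wv n (F i))
    (hs : Summable fun i => nv n (F i)) :
    (∀ x, Summable fun i => F i x) ∧ Wv n (fun x => ∑' i, F i x) ∧
      nv n (fun x => ∑' i, F i x) ≤ ∑' i, nv n (F i) := by
  have hG := fun a => W_tsum (F := fun i x => co X a (F i x)) (fun i => h i _)
    (hs.of_nonneg_of_le (fun _ => nm_nonneg _ _) fun i => nm_le_Wi9 n (F i) a)
  have h1 : ∀ x, Summable fun i => F i x := fun x => by
    have := summable_sum (s := Finset.univ) fun a _ =>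
      ((hG a).1 x).smul_const (Module.finBasis ℝ X a)
    simpa only [sum_co] using this
  have h2 : ∀ a, (fun x => co X a (∑' i, F i x)) = fun x => ∑' i, co X a (F i x) :=
    fun a => funext fun x => (co X a).map_tsum (h1 x)
  refine ⟨h1, Wv_of_co fun a => by rw [h2 a]; exact (hG a).2.1, ?_⟩
  simp only [nv_eq_Wi9, h2]
  rw [Summable.tsum_finsetSum fun a _ =>
    hs.of_nonneg_of_le (fun _ => nm_nonneg _ _) fun i => nm_le_Wi9 n (F i) a]
  exact Finset.sum_le_sum fun a _ => (hG a).2.2 n le_rfl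

theorem exists_fix {n : ℕ} {γ : ℝ} (hγ : 0 ≤ γ) (T : (E d → X) → E d → X)
    (h1 : ∀ h, Wv n h → nv n h ≤ γ → Wv n (T h) ∧ nv n (T h) ≤ γ)
    (h2 : ∀ h h', Wv n h → nv n h ≤ γ → Wv n h' → nv n h' ≤ γ →
      nv n (fun x => T h x - T h' x) ≤ 1 / 2 * nv n fun x => h x - h' x) :
    ∃ h, Wv n h ∧ nv n h ≤ γ ∧ T h = h := by
  obtain ⟨u, hu0, hu⟩ : ∃ u : ℕ → E d → X, u 0 = (fun _ => 0) ∧ ∀ k, u (k + 1) = T (u k) :=
    ⟨fun k => T^[k] fun _ => 0, rfl, fun k => Function.iterate_succ_apply' _ _ _⟩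
  have hP : ∀ k, Wv n (u k) ∧ nv n (u k) ≤ γ := by
    intro k
    induction k with
    | zero => rw [hu0, nv_zero]; exact ⟨Wv_const 0, hγ⟩
    | succ k ih => rw [hu]; exact h1 _ ih.1 ih.2
  obtain ⟨δ, hδ⟩ : ∃ δ : ℕ → E d → X, δ = fun k x => u (k + 1) x - u k x := ⟨_, rfl⟩
  have hW : ∀ k, Wv n (δ k) := fun k => by
    rw [hδ]
    exact (hP (k + 1)).1.sub (hP k).1
  have hg : ∀ k, nv n (δ k) ≤ nv n (δ 0) * (1 / 2) ^ k := by
    intro k
    induction k with
    | zero => simp
    | succ k ih =>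
      have := h2 _ _ (hP (k + 1)).1 (hP (k + 1)).2 (hP k).1 (hP k).2
      rw [← hu, ← hu] at this
      have e1 : nv n (δ (k + 1)) ≤ 1 / 2 * nv n (δ k) := by rw [hδ]; exact this
      rw [pow_succ]
      linarith
  have hs : Summable fun k => nv n (δ k) :=
    (summable_geometric_two.mul_left _).of_nonneg_of_le (fun _ => nv_nonneg _ _) hg
  have hR := fun m => Wv_tsum (F := fun i => δ (i + m)) (fun i => hW _)
    ((summable_nat_add_iff (f := fun k => nv n (δ k)) m).2 hs)
  have hR0 := Wv_tsum hW hs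
  have ht := tendsto_sum_nat_add fun k => nv n (δ k)
  obtain ⟨h, hh⟩ : ∃ h : E d → X, h = fun x => ∑' i, δ i x := ⟨_, rfl⟩
  have hWh : Wv n h := by rw [hh]; exact hR0.2.1
  have e : ∀ m, (fun x => h x - u m x) = fun x => ∑' i, δ (i + m) x := fun m => funext fun x => by
    have e1 := (hR0.1 x).sum_add_tsum_nat_add m
    have e2 : ∑ i ∈ Finset.range m, δ i x = u m x := by
      rw [hδ, Finset.sum_range_sub fun i => u i x, hu0, sub_zero]
    rw [hh, ← e2]
    exact sub_eq_of_eq_add' e1.symm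
  have hd : ∀ m, (nv n fun x => h x - u m x) ≤ ∑' i, nv n (δ (i + m)) := fun m => by
    rw [e m]
    exact (hR m).2.2
  have hγh : nv n h ≤ γ := by
    have t1 : Tendsto (fun m => γ + ∑' i, nv n (δ (i + m))) atTop (𝓝 (γ + 0)) := ht.const_add γ
    rw [add_zero] at t1
    refine ge_of_tendsto' (b := nv n h) t1 fun m => ?_
    have := nv_add_le (hP m).1 (hWh.sub (hP m).1) (σ := n) le_rfl
    simp only [add_sub_cancel] at this
    linarith [(hP m).2, hd m]
  refine ⟨h, hWh, hγh, ?_⟩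
  have hT := (h1 h hWh hγh).1
  have hz : (nv n fun x => T h x - h x) ≤ 0 := by
    have t1 : Tendsto (fun m => 1 / 2 * ∑' i, nv n (δ (i + m)) + ∑' i, nv n (δ (i + (m + 1))))
        atTop (𝓝 (1 / 2 * 0 + 0)) :=
      (ht.const_mul _).add (ht.comp (tendsto_add_atTop_nat 1))
    rw [mul_zero, add_zero] at t1
    apply ge_of_tendsto' t1
    intro m
    have g1 := nv_sub_le (hT.sub (hP (m + 1)).1) (hWh.sub (hP (m + 1)).1) (σ := n) le_rfl
    simp only [sub_sub_sub_cancel_right] at g1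
    have g2 := h2 _ _ hWh hγh (hP m).1 (hP m).2
    rw [← hu] at g2
    linarith [hd m, hd (m + 1)]
  have := (hT.sub hWh).eq_zero le_rfl hz
  exact funext fun x => sub_eq_zero.1 (congrFun this x)

theorem neumann : ∃ ε₀ C : ℝ, 0 < ε₀ ∧ 0 < C ∧ ∀ (n : ℕ) (h : E d → E d →L[ℝ] E d), Wv n h →
    nv n h ≤ ε₀ → (∀ x, IsUnit (1 + h x)) ∧ Wv n (fun x => Ring.inverse (1 + h x) - 1) ∧
      nv n (fun x => Ring.inverse (1 + h x) - 1) ≤ C * nv n h := by
  obtain ⟨B, hB⟩ : ∃ B : (E d →L[ℝ] E d) →L[ℝ] (E d →L[ℝ] E d) →L[ℝ] E d →L[ℝ] E d,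
      ∀ f g, B f g = f * g := ⟨ContinuousLinearMap.compL ℝ (E d) (E d) (E d), fun _ _ => rfl⟩
  obtain ⟨C₁, hC₁, h1⟩ := nv_bil (d := d) B
  obtain ⟨C₂, hC₂, h2⟩ := norm_le_nv (d := d) (X := E d →L[ℝ] E d)
  refine ⟨min (1 / (2 * C₁)) (1 / (2 * C₂)), 2, by positivity, two_pos, fun n h hW hε => ?_⟩
  have e1 : C₁ * nv n h ≤ 1 / 2 := by
    have := hε.trans (min_le_left _ _)
    rw [le_div_iff₀ (by positivity)] at this
    linarith
  have e2 : ∀ x, ‖-h x‖ < 1 := fun x => by
    have g1 := hε.trans (min_le_right _ _)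
    rw [le_div_iff₀ (by positivity)] at g1
    have g2 := hW.nv_mono (σ := 0) (τ := n) (by positivity) le_rfl
    have g3 := h2 h (hW.mono n.zero_le) x
    rw [norm_neg]
    nlinarith
  have hp : ∀ k, Wv n (fun x => (-h x) ^ (k + 1)) ∧
      nv n (fun x => (-h x) ^ (k + 1)) ≤ nv n h * (1 / 2) ^ k := by
    intro k
    induction k with
    | zero =>
      simp only [zero_add, pow_one, pow_zero, mul_one, nv_neg, le_refl, and_true]
      exact hW.neg
    | succ k ih =>
      have g1 := hW.neg.bil ih.1 B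
      have g2 := (h1 n n _ _ hW.neg ih.1 (by simp)).1
      simp only [hB, ← pow_succ', nv_neg] at g1 g2
      refine ⟨g1, g2.trans ?_⟩
      rw [pow_succ (1 / 2 : ℝ)]
      nlinarith [ih.2, nv_nonneg (n : ℤ) fun x => (-h x) ^ (k + 1)]
  have hs0 := summable_geometric_two.mul_left (nv n h)
  have hs : Summable fun k => nv n fun x => (-h x) ^ (k + 1) :=
    hs0.of_nonneg_of_le (fun _ => nv_nonneg _ _) fun k => (hp k).2
  obtain ⟨-, t1, t2⟩ := Wv_tsum (fun k => (hp k).1) hs
  have e : (fun x => Ring.inverse (1 + h x) - 1) = fun x => ∑' k, (-h x) ^ (k + 1) :=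
    funext fun x => by
      rw [← sub_neg_eq_add, ← geom_series_eq_inverse _ (e2 x),
        (summable_geometric_of_norm_lt_one (e2 x)).tsum_eq_zero_add, pow_zero, add_sub_cancel_left]
  rw [e]
  refine ⟨fun x => ?_, t1, t2.trans ?_⟩
  · rw [← sub_neg_eq_add]
    exact isUnit_one_sub_of_norm_lt_one (e2 x)
  · refine (hs.tsum_le_tsum (fun k => (hp k).2) hs0).trans ?_
    rw [tsum_mul_left, tsum_geometric_two, mul_comm]

theorem exists_trunc {f : E d → X} (h : Wv 0 f) {η : ℝ} (hη : 0 < η) : ∃ g : E d → X,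
    (∀ n, Wv n g) ∧ nv 0 g ≤ nv 0 f ∧ nv 0 (fun x => f x - g x) ≤ η := by
  classical
  have key : ∀ φ : E d → ℝ, W 0 φ → ∀ ε > 0, ∃ ψ : E d → ℝ, (∀ n, W n ψ) ∧ nm 0 ψ ≤ nm 0 φ ∧
      nm 0 (fun x => φ x - ψ x) ≤ ε := by
    intro φ hφ ε hε
    have hs := hφ.summable_norm
    obtain ⟨s, hs1⟩ := ((tendsto_tsum_compl_atTop_zero fun k => ‖cf φ k‖).eventually
      (gt_mem_nhds hε)).exists
    have s1 : ∀ n : ℕ, Summable fun k => wk k ^ n * ‖if k ∈ s then cf φ k else 0‖ := fun n =>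
      summable_of_ne_finset_zero (s := s) fun k hk => by simp [hk]
    have s0 : Summable fun k => ‖if k ∈ s then cf φ k else 0‖ := by simpa using s1 0
    refine ⟨ev fun k => if k ∈ s then cf φ k else 0, fun n => W_ev (s1 n), ?_, ?_⟩
    · refine (nm_ev_le (s1 0) (σ := 0) le_rfl).trans ?_
      simp only [nm, nw, zpow_zero, one_mul]
      refine s0.tsum_le_tsum (fun k => ?_) hs
      split_ifs <;> simp
    · have e : (fun x => φ x - ev (fun k => if k ∈ s then cf φ k else 0) x) =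
          ev fun k => cf φ k - if k ∈ s then cf φ k else 0 := funext fun x => by
        rw [← ev_sub_Wi9 hs s0, ← hφ.eq_ev]
      have e2 : (fun k => ‖cf φ k - if k ∈ s then cf φ k else 0‖) =
          {k | k ∉ s}.indicator fun k => ‖cf φ k‖ := funext fun k => by
        by_cases hk : k ∈ s <;> simp [hk]
      have s2 : Summable fun k => wk k ^ 0 * ‖cf φ k - if k ∈ s then cf φ k else 0‖ := by
        simp only [pow_zero, one_mul, e2]
        exact hs.indicator _
      rw [e]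
      refine (nm_ev_le s2 (σ := 0) le_rfl).trans ?_
      simp only [zpow_zero, one_mul, e2]
      rw [← tsum_subtype]
      exact hs1.le
  choose ψ g1 g2 g3 using fun a => key _ (h (co X a)) (η / (Module.finrank ℝ X + 1))
    (by positivity)
  refine ⟨fun x => ∑ a, ψ a x • Module.finBasis ℝ X a, fun n => Wv_of_co fun a => ?_, ?_, ?_⟩
  · simpa only [co_sum_Wi9] using g1 a n
  · simp only [nv_eq_Wi9, co_sum_Wi9]
    exact Finset.sum_le_sum fun a _ => g2 a
  · simp only [nv_eq_Wi9, map_sub, co_sum_Wi9]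
    refine (Finset.sum_le_sum fun a _ => g3 a).trans ?_
    rw [Finset.sum_const, Finset.card_univ, Fintype.card_fin, nsmul_eq_mul, ← mul_div_assoc,
      div_le_iff₀ (by positivity)]
    nlinarith

theorem compact_W {n : ℕ} {B : ℝ} (u : ℕ → E d → X) (h : ∀ j, Wv (n + 1) (u j))
    (hB : ∀ j, nv (n + 1) (u j) ≤ B) : ∃ (u₀ : E d → X) (φ : ℕ → ℕ), StrictMono φ ∧
      Wv (n + 1) u₀ ∧ nv (n + 1) u₀ ≤ B ∧
      Tendsto (fun j => nv n fun x => u (φ j) x - u₀ x) atTop (𝓝 0) := by
  have hw : ∀ k : Fin d → ℤ, 0 < wk k := fun k => one_pos.trans_le (one_le_wk k)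
  have hB' : ∀ j, ∑ a, ∑' k, wk k ^ (n + 1) * ‖cf (fun x => co X a (u j x)) k‖ ≤ B := fun j => by
    have := hB j
    rw [← Nat.cast_succ, nv_eq_Wi9] at this
    simpa only [nm, nw, zpow_natCast] using this
  have hB1 : ∀ j a, ∑' k, wk k ^ (n + 1) * ‖cf (fun x => co X a (u j x)) k‖ ≤ B := fun j a =>
    (Finset.single_le_sum
      (f := fun a => ∑' k, wk k ^ (n + 1) * ‖cf (fun x => co X a (u j x)) k‖)
      (fun _ _ => tsum_nonneg fun k => by have := hw k; positivity) (Finset.mem_univ a)).trans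
      (hB' j)
  obtain ⟨c, -, φ, hφ, hc⟩ := (isCompact_univ_pi
    fun _ : Fin (Module.finrank ℝ X) × (Fin d → ℤ) => isCompact_closedBall (0 : ℂ) B).tendsto_subseq
    (x := fun j p => cf (fun x => co X p.1 (u j x)) p.2) fun j p _ => by
      rw [mem_closedBall_zero_iff]
      refine le_trans ?_ (((h j (co X p.1)).sum.le_tsum p.2 fun k _ => by
        have := hw k; positivity).trans (hB1 j p.1))
      exact le_mul_of_one_le_left (norm_nonneg _) (one_le_pow₀ (one_le_wk _))
  have hc' : ∀ a k, Tendsto (fun j => cf (fun x => co X a (u (φ j) x)) k) atTop (𝓝 (c (a, k))) :=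
    fun a k => tendsto_pi_nhds.1 hc (a, k)
  have hF : ∀ s : Finset (Fin d → ℤ), ∑ k ∈ s, ∑ a, wk k ^ (n + 1) * ‖c (a, k)‖ ≤ B := fun s => by
    rw [Finset.sum_comm]
    refine le_of_tendsto' (tendsto_finsetSum _ fun a _ => tendsto_finsetSum s fun k _ =>
      (hc' a k).norm.const_mul (wk k ^ (n + 1))) fun j => le_trans ?_ (hB' (φ j))
    exact Finset.sum_le_sum fun a _ => (h (φ j) (co X a)).sum.sum_le_tsum s fun k _ => by
      have := hw k; positivity
  have h0 : ∀ k a, 0 ≤ wk k ^ (n + 1) * ‖c (a, k)‖ := fun k a => by have := hw k; positivity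
  have hS : Summable fun k => ∑ a, wk k ^ (n + 1) * ‖c (a, k)‖ :=
    summable_of_sum_le (fun k => Finset.sum_nonneg fun a _ => h0 k a) hF
  have hS1 : ∀ a, Summable fun k => wk k ^ (n + 1) * ‖c (a, k)‖ := fun a =>
    hS.of_nonneg_of_le (fun k => h0 k a) fun k =>
      Finset.single_le_sum (f := fun a => wk k ^ (n + 1) * ‖c (a, k)‖) (fun a _ => h0 k a)
        (Finset.mem_univ a)
  have hS2 : ∑ a, ∑' k, wk k ^ (n + 1) * ‖c (a, k)‖ ≤ B := by
    rw [← Summable.tsum_finsetSum fun a _ => hS1 a]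
    exact hS.tsum_le_of_sum_le hF
  have hS3 : ∀ a, ∑' k, wk k ^ (n + 1) * ‖c (a, k)‖ ≤ B := fun a =>
    (Finset.single_le_sum (f := fun a => ∑' k, wk k ^ (n + 1) * ‖c (a, k)‖)
      (fun a _ => tsum_nonneg fun k => h0 k a) (Finset.mem_univ a)).trans hS2
  refine ⟨fun x => ∑ a, ev (fun k => c (a, k)) x • Module.finBasis ℝ X a, φ, hφ,
    Wv_of_co fun a => ?_, ?_, ?_⟩
  · simpa only [co_sum_Wi9] using W_ev (hS1 a)
  · simp only [nv_eq_Wi9, co_sum_Wi9]
    refine le_trans (Finset.sum_le_sum fun a _ => ?_) hS2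
    have := nm_ev_le (hS1 a) (σ := ((n + 1 : ℕ) : ℤ)) le_rfl
    simp only [zpow_natCast] at this
    rwa [Nat.cast_succ] at this
  · simp only [nv_eq_Wi9, map_sub, co_sum_Wi9]
    have key : ∀ a, Tendsto (fun j => nm n fun x => co X a (u (φ j) x) - ev (fun k => c (a, k)) x)
        atTop (𝓝 0) := by
      intro a
      have g0 : ∀ j k, wk k * (wk k ^ n * ‖cf (fun x => co X a (u (φ j) x)) k - c (a, k)‖) ≤
          wk k ^ (n + 1) * ‖cf (fun x => co X a (u (φ j) x)) k‖ + wk k ^ (n + 1) * ‖c (a, k)‖ := by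
        intro j k
        rw [← mul_assoc, ← pow_succ', ← mul_add]
        exact mul_le_mul_of_nonneg_left (norm_sub_le _ _) (pow_nonneg (hw k).le _)
      have g1 : ∀ j, Summable fun k =>
          wk k * (wk k ^ n * ‖cf (fun x => co X a (u (φ j) x)) k - c (a, k)‖) := fun j =>
        ((h (φ j) (co X a)).sum.add (hS1 a)).of_nonneg_of_le (fun k => by have := hw k; positivity) (g0 j)
      have g2 := tail_Wi9
        (e := fun j k => wk k ^ n * ‖cf (fun x => co X a (u (φ j) x)) k - c (a, k)‖) (B := B + B)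
        (fun j k => by have := hw k; positivity) g1 (fun j => by
          refine ((g1 j).tsum_le_tsum (g0 j) ((h (φ j) (co X a)).sum.add (hS1 a))).trans ?_
          rw [(h (φ j) (co X a)).sum.tsum_add (hS1 a)]
          exact add_le_add (hB1 _ a) (hS3 a)) fun k => by
          simpa using (tendsto_iff_norm_sub_tendsto_zero.1 (hc' a k)).const_mul (wk k ^ n)
      refine squeeze_zero (fun j => nm_nonneg _ _) (fun j => ?_) g2
      have e : (fun x => co X a (u (φ j) x) - ev (fun k => c (a, k)) x) =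
          ev fun k => cf (fun x => co X a (u (φ j) x)) k - c (a, k) := funext fun x => by
        rw [← ev_sub_Wi9 (h (φ j) (co X a)).summable_norm ((hS1 a).of_nonneg_of_le (fun _ => norm_nonneg _)
          fun k => le_mul_of_one_le_left (norm_nonneg _) (one_le_pow₀ (one_le_wk _))),
          ← (h (φ j) (co X a)).eq_ev]
      rw [e]
      have := nm_ev_le (n := n + 1)
        (c := fun k => cf (fun x => co X a (u (φ j) x)) k - c (a, k))
        (by simpa only [← mul_assoc, ← pow_succ'] using g1 j) (σ := n) (by simp)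
      simpa only [zpow_natCast] using this
    simpa using tendsto_finsetSum Finset.univ fun a _ => key a

end Pool.Agent.Lib.MP_8daebb_an.GM.Ch
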