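import Pool.Agent.Lib.MP_8daebb_an.GM.ChDef

/-! Absolutely convergent Fourier series with weights, and the minimal surface system. -/

open MeasureTheory Metric Set
open scoped RealInnerProductSpace

namespace Pool.Agent.Lib.MP_8daebb_an.GM.Ch

variable {d : ℕ}

/-- The weight of a frequency. -/
noncomputable def wk (k : Fin d → ℤ) : ℝ := 1 + ∑ i, |(k i : ℝ)|

/-- The phase. -/
noncomputable def kx (k : Fin d → ℤ) (x : E d) : ℝ := ∑ i, (k i : ℝ) * x i

/-- The squared length of a frequency. -/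
noncomputable def k2 (k : Fin d → ℤ) : ℝ := ∑ i, (k i : ℝ) ^ 2

/-- The characters. -/
noncomputable def ek (k : Fin d → ℤ) (x : E d) : ℂ := Complex.exp (kx k x * Complex.I)

/-- The period cube. -/
def cube (d : ℕ) : Set (E d) := {x | ∀ i, x i ∈ Ioc (-Real.pi) Real.pi}

/-- The open period cube. -/
def ocube (d : ℕ) : Set (E d) := {x | ∀ i, x i ∈ Ioo (-Real.pi) Real.pi}

/-- Fourier coefficients. -/
noncomputable def cf (f : E d → ℝ) (k : Fin d → ℤ) : ℂ :=
  (((2 * Real.pi) ^ d)⁻¹ : ℝ) * ∫ x in cube d, ek (-k) x * f x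

/-- Weighted sum of the Fourier coefficients. -/
noncomputable def nw (ϖ : (Fin d → ℤ) → ℝ) (f : E d → ℝ) : ℝ := ∑' k, ϖ k * ‖cf f k‖

/-- The norm of order `σ`. -/
noncomputable def nm (σ : ℤ) (f : E d → ℝ) : ℝ := nw (fun k => wk k ^ σ) f

/-- `f` is the sum of its Fourier series, which converges absolutely with the weight of
order `n`. -/
structure W (n : ℕ) (f : E d → ℝ) : Prop where
  sum : Summable fun k => wk k ^ n * ‖cf f k‖
  rep : ∀ x, HasSum (fun k => cf f k * ek k x) (f x : ℂ)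

/-- The real part of a trigonometric series. -/
noncomputable def ev (c : (Fin d → ℤ) → ℂ) (x : E d) : ℝ := (∑' k, c k * ek k x).re

/-- Periodisation of a function supported in the period cube. -/
noncomputable def per (φ : E d → ℝ) : E d → ℝ := ev (cf φ)

/-- Derivative in a coordinate direction. -/
noncomputable def pd (i : Fin d) (f : E d → ℝ) (x : E d) : ℝ := fderiv ℝ f x (eb i)

/-- A fixed cutoff: one on `ball 0 (13/5)`, zero off `ball 0 (14/5)`. -/
noncomputable def bumpR (d : ℕ) : ContDiffBump (0 : E d) := ⟨13 / 5, 14 / 5, by norm_num, by norm_num⟩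

/-- A right inverse of the Laplacian over `ball 0 (13/5)`. -/
noncomputable def R0 (f : E d → ℝ) (x : E d) : ℝ :=
  ev (fun k => -cf f k / (k2 k : ℝ)) x +
    (cf f 0).re * per (fun z : E d => bumpR d z * (‖z‖ ^ 2 / (2 * d))) x

section vec
variable {X : Type*} [NormedAddCommGroup X] [NormedSpace ℝ X] [FiniteDimensional ℝ X]

/-- The coordinates of a fixed basis. -/
noncomputable def co (X : Type*) [NormedAddCommGroup X] [NormedSpace ℝ X] [FiniteDimensional ℝ X]
    (i : Fin (Module.finrank ℝ X)) : X →L[ℝ] ℝ :=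
  LinearMap.toContinuousLinearMap ((Module.finBasis ℝ X).coord i)

/-- The vector-valued version of `W`. -/
def Wv (n : ℕ) (f : E d → X) : Prop := ∀ ℓ : X →L[ℝ] ℝ, W n fun x => ℓ (f x)

/-- The vector-valued version of `nw`. -/
noncomputable def nwv (ϖ : (Fin d → ℤ) → ℝ) (f : E d → X) : ℝ := ∑ i, nw ϖ fun x => co X i (f x)

/-- The vector-valued version of `nm`. -/
noncomputable def nv (σ : ℤ) (f : E d → X) : ℝ := nwv (fun k => wk k ^ σ) f

/-- The vector-valued version of `R0`. -/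
noncomputable def Rv (f : E d → X) (x : E d) : X :=
  ∑ i, R0 (fun z => co X i (f z)) x • Module.finBasis ℝ X i

/-- Contraction of a bilinear map with an endomorphism. -/
noncomputable def tr2 (A : E d →L[ℝ] E d →L[ℝ] X) (M : E d →L[ℝ] E d) : X :=
  ∑ i, A (eb i) (M (eb i))

/-- The Laplacian. -/
noncomputable def lapv (f : E d → X) (x : E d) : X := tr2 (d2 f x) 1

end vec

/-- The ellipsoid `x₀ + A (ball 0 r)`. -/
def el (x₀ : E d) (A : E d →L[ℝ] E d) (r : ℝ) : Set (E d) :=
  {x | ‖Ring.inverse A (x - x₀)‖ < r}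

/-- An affine frame close to the identity. -/
structure Fr (x₀ : E d) (A : E d →L[ℝ] E d) : Prop where
  x_le : ‖x₀‖ ≤ 1 / 10
  A_le : ‖A - 1‖ ≤ 1 / 10

/-- A periodic cutoff: one on `Ω₁`, zero on the part of the open cube outside `Ω₂`. -/
structure Cut (χ : E d → ℝ) (Ω₁ Ω₂ : Set (E d)) : Prop where
  sm : ∀ n, W n χ
  one : ∀ x ∈ Ω₁, χ x = 1
  zero : ∀ x ∈ ocube d, x ∉ Ω₂ → χ x = 0
  mem : ∀ x ∈ ocube d, 0 ≤ χ x ∧ χ x ≤ 1

section sys
variable {n : ℕ}

/-- The metric of the graph of `u`. -/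
noncomputable def gu (u : E d → E n) (x : E d) : E d →L[ℝ] E d := 1 + (ad (d1 u x)).comp (d1 u x)

/-- The inverse metric. -/
noncomputable def iu (u : E d → E n) (x : E d) : E d →L[ℝ] E d := Ring.inverse (gu u x)

/-- The minimal surface operator. -/
noncomputable def NN (u : E d → E n) (x : E d) : E n := tr2 (d2 u x) (iu u x)

/-- Its nonlinear part. -/
noncomputable def PP (u : E d → E n) (x : E d) : E n := tr2 (d2 u x) (iu u x - 1)

/-- The variation of the metric. -/
noncomputable def dgu (u v : E d → E n) (x : E d) : E d →L[ℝ] E d :=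
  (ad (d1 v x)).comp (d1 u x) + (ad (d1 u x)).comp (d1 v x)

/-- The linearisation of `PP`. -/
noncomputable def PL (u v : E d → E n) (x : E d) : E n :=
  tr2 (d2 v x) (iu u x - 1) - tr2 (d2 u x) ((iu u x).comp ((dgu u v x).comp (iu u x)))

/-- The linearisation of `NN`. -/
noncomputable def JJ (u v : E d → E n) (x : E d) : E n := lapv v x + PL u v x

/-- The commutator of `JJ u` with the multiplication by `χ`. -/
noncomputable def CM (u : E d → E n) (χ : E d → ℝ) (v : E d → E n) (x : E d) : E n :=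
  JJ u (fun z => χ z • v z) x - χ x • JJ u v x

/-- The divergence of the inverse metric. -/
noncomputable def dgi (u : E d → E n) (x : E d) : E d := ∑ i, fderiv ℝ (iu u) x (eb i) (eb i)

/-- The flux of the transposed operator. -/
noncomputable def ZZ (u ψ : E d → E n) (x : E d) : E n →L[ℝ] E d :=
  (iu u x).comp (ad (d1 ψ x)) + (innerSL ℝ (ψ x)).smulRight (dgi u x) +
    (2 : ℝ) • (iu u x).comp ((shL (d2 u x) (ψ x)).comp ((iu u x).comp (ad (d1 u x))))

/-- The divergence of a matrix field. -/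
noncomputable def dvz (Z : E d → E n →L[ℝ] E d) (x : E d) : E n :=
  ∑ i, ad (fderiv ℝ Z x (eb i)) (eb i)

/-- The transposed operator. -/
noncomputable def JT (u ψ : E d → E n) : E d → E n := dvz (ZZ u ψ)

/-- Smallness in the norm of order `s + 2`. -/
structure Sml (s : ℕ) (u : E d → E n) (ε : ℝ) : Prop where
  w : Wv (s + 2) u
  le : nv (s + 2) u ≤ ε

variable {H : Type*} [NormedAddCommGroup H] [InnerProductSpace ℝ H] [FiniteDimensional ℝ H]

/-- An orthogonal splitting of `H`. -/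
structure Spl (ι : E d →ₗᵢ[ℝ] H) (κ : E n →ₗᵢ[ℝ] H) : Prop where
  orth : ∀ a b, ⟪ι a, κ b⟫ = 0
  sum : ∀ p, ι (ad ι.toContinuousLinearMap p) + κ (ad κ.toContinuousLinearMap p) = p

/-- The graph of `u`. -/
noncomputable def gr (ι : E d →ₗᵢ[ℝ] H) (κ : E n →ₗᵢ[ℝ] H) (u : E d → E n) (x : E d) : H :=
  ι x + κ (u x)

/-- The horizontal coordinate. -/
noncomputable def vx (ι : E d →ₗᵢ[ℝ] H) (p : H) : E d := ad ι.toContinuousLinearMap p

/-- The vertical height over the graph of `u`. -/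
noncomputable def vz (ι : E d →ₗᵢ[ℝ] H) (κ : E n →ₗᵢ[ℝ] H) (u : E d → E n) (p : H) : E n :=
  ad κ.toContinuousLinearMap p - u (vx ι p)

/-- The normal frame of a graph with slope `Du`. -/
noncomputable def nf (ι : E d →ₗᵢ[ℝ] H) (κ : E n →ₗᵢ[ℝ] H) (Du : E d →L[ℝ] E n) : E n →L[ℝ] H :=
  κ.toContinuousLinearMap - ι.toContinuousLinearMap.comp (ad Du)

/-- A centre: a periodic function and an affine frame. -/
structure Cen (d n : ℕ) where
  u : E d → E n
  x₀ : E d
  A : E d →L[ℝ] E d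

/-- The parametrisation of a centre. -/
noncomputable def Cen.F (c : Cen d n) (ι : E d →ₗᵢ[ℝ] H) (κ : E n →ₗᵢ[ℝ] H) : E d → H :=
  aff (gr ι κ c.u) c.x₀ c.A

/-- Admissible centres. -/
structure Adm (ι : E d →ₗᵢ[ℝ] H) (κ : E n →ₗᵢ[ℝ] H) (c : Cen d n) (ε R : ℝ) : Prop where
  sml : Sml (d + 4) c.u ε
  x_le : ‖c.x₀‖ ≤ ε
  A_le : ‖c.A - 1‖ ≤ ε
  eqn : ∀ z ∈ ball (0 : E d) R, NN c.u (c.x₀ + c.A z) = 0
  nrm : Nrm (c.F ι κ)
  org : Org (c.F ι κ)

end sys

end Pool.Agent.Lib.MP_8daebb_an.GM.Ch
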