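import Pool.Agent.Lib.MP_8daebb_an.GM.Ad2
import Pool.Agent.Lib.MP_8daebb_an.GM.Wi9

/-! Limits of centres. -/

open MeasureTheory Metric Set Filter Topology
open scoped RealInnerProductSpace ContDiff ENNReal

namespace Pool.Agent.Lib.MP_8daebb_an.GM.Ch

variable {d n : ℕ} {H : Type*} [NormedAddCommGroup H] [InnerProductSpace ℝ H]
  [FiniteDimensional ℝ H] {ι : E d →ₗᵢ[ℝ] H} {κ : E n →ₗᵢ[ℝ] H}

theorem lim_Z1 {X Y : Type*} [TopologicalSpace X] [NormedAddCommGroup Y] {g : ℕ → X → Y}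
    {g₀ : X → Y} (hg : Continuous g₀) {δ : ℕ → ℝ} (hδ : Tendsto δ atTop (𝓝 0))
    (h : ∀ j y, ‖g j y - g₀ y‖ ≤ δ j) {x : ℕ → X} {x₀ : X} (hx : Tendsto x atTop (𝓝 x₀)) :
    Tendsto (fun j => g j (x j)) atTop (𝓝 (g₀ x₀)) := by
  have h1 : Tendsto (fun j => g j (x j) - g₀ (x j)) atTop (𝓝 0) :=
    squeeze_zero_norm (fun j => h j (x j)) hδ
  have h2 := h1.add ((hg.tendsto x₀).comp hx)
  simpa using h2

/-- Convergence of the jets along a convergent sequence of points. -/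
theorem jets_Z1 {u : ℕ → E d → E n} {u₀ : E d → E n} (hu : ∀ j, ContDiff ℝ 3 (u j))
    (hu₀ : ContDiff ℝ 3 u₀) {δ : ℕ → ℝ} (hδ : Tendsto δ atTop (𝓝 0))
    (h : ∀ j, Pw (fun x => u j x - u₀ x) (δ j)) {x : ℕ → E d} {x₀ : E d}
    (hx : Tendsto x atTop (𝓝 x₀)) :
    Tendsto (fun j => u j (x j)) atTop (𝓝 (u₀ x₀)) ∧
      Tendsto (fun j => d1 (u j) (x j)) atTop (𝓝 (d1 u₀ x₀)) ∧
      Tendsto (fun j => d2 (u j) (x j)) atTop (𝓝 (d2 u₀ x₀)) := by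
  have h2 : ContDiff ℝ 2 u₀ := hu₀.of_le (by norm_num)
  have h1 : ContDiff ℝ 1 (d1 u₀) := h2.fderiv_right (by norm_num)
  have e := fun j => d1_add ((hu j).of_le (by norm_num : (2 : ℕ∞ω) ≤ 3)) h2
  refine ⟨lim_Z1 hu₀.continuous hδ (fun j y => (h j).n0 y) hx,
    lim_Z1 h1.continuous hδ (fun j y => ?_) hx,
    lim_Z1 (h1.continuous_fderiv one_ne_zero) hδ (fun j y => ?_) hx⟩
  · have := (h j).n1 y
    rwa [(e j).2.2.1] at this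
  · have := (h j).n2 y
    rwa [(e j).2.2.2] at this

theorem app_Z1 {X Y : Type*} [NormedAddCommGroup X] [NormedSpace ℝ X] [NormedAddCommGroup Y]
    [NormedSpace ℝ Y] {f : ℕ → X →L[ℝ] Y} {f₀ : X →L[ℝ] Y} {v : ℕ → X} {v₀ : X}
    (hf : Tendsto f atTop (𝓝 f₀)) (hv : Tendsto v atTop (𝓝 v₀)) :
    Tendsto (fun j => f j (v j)) atTop (𝓝 (f₀ v₀)) :=
  ((continuous_fst.clm_apply continuous_snd).tendsto (f₀, v₀)).comp (hf.prodMk_nhds hv)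

theorem tr2_Z1 {B : ℕ → E d →L[ℝ] E d →L[ℝ] E n} {B₀ : E d →L[ℝ] E d →L[ℝ] E n}
    {M : ℕ → E d →L[ℝ] E d} {M₀ : E d →L[ℝ] E d} (hB : Tendsto B atTop (𝓝 B₀))
    (hM : Tendsto M atTop (𝓝 M₀)) :
    Tendsto (fun j => tr2 (B j) (M j)) atTop (𝓝 (tr2 B₀ M₀)) := by
  unfold tr2
  exact tendsto_finsetSum _ fun i _ =>
    app_Z1 (app_Z1 hB tendsto_const_nhds) (app_Z1 hM tendsto_const_nhds)

theorem inv_Z1 {L : ℕ → E d →L[ℝ] E n} {L₀ : E d →L[ℝ] E n} (hL : Tendsto L atTop (𝓝 L₀))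
    (hu : IsUnit (1 + (ad L₀).comp L₀)) :
    Tendsto (fun j => Ring.inverse (1 + (ad (L j)).comp (L j))) atTop
      (𝓝 (Ring.inverse (1 + (ad L₀).comp L₀))) := by
  obtain ⟨T, hT⟩ := exists_T_Sy1 (d := d) (n := n)
  simp only [← hT] at hu ⊢
  have g1 : Tendsto (fun j => 1 + T (L j) (L j)) atTop (𝓝 (1 + T L₀ L₀)) :=
    ((T.continuous₂.tendsto (L₀, L₀)).comp (hL.prodMk_nhds hL)).const_add 1
  obtain ⟨w, hw⟩ := hu
  have h := NormedRing.inverse_continuousAt w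
  rw [hw] at h
  exact h.tendsto.comp g1

theorem nn_Z1 {u : ℕ → E d → E n} {u₀ : E d → E n} {x : ℕ → E d} {x₀ : E d}
    (h1 : Tendsto (fun j => d1 (u j) (x j)) atTop (𝓝 (d1 u₀ x₀)))
    (h2 : Tendsto (fun j => d2 (u j) (x j)) atTop (𝓝 (d2 u₀ x₀))) (hu : IsUnit (gu u₀ x₀)) :
    Tendsto (fun j => NN (u j) (x j)) atTop (𝓝 (NN u₀ x₀)) := by
  unfold gu at hu
  unfold NN iu gu
  exact tr2_Z1 h2 (inv_Z1 h1 hu)

omit [FiniteDimensional ℝ H] in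
theorem dd_Z1 (ι : E d →ₗᵢ[ℝ] H) (κ : E n →ₗᵢ[ℝ] H) :
    Continuous fun p : (E d →L[ℝ] E n) × (E d →L[ℝ] E d) => (DD ι κ p.1).comp p.2 :=
  (continuous_const.add (continuous_const.clm_comp continuous_fst)).clm_comp continuous_snd

omit [FiniteDimensional ℝ H] in
theorem dist_Z1 (ι : E d →ₗᵢ[ℝ] H) (κ : E n →ₗᵢ[ℝ] H) {u u₀ : E d → E n} {δ K : ℝ}
    (h : ∀ x, ‖u x - u₀ x‖ ≤ δ) (hK : ∀ x x', ‖u₀ x - u₀ x'‖ ≤ K * ‖x - x'‖) (y y₀ : E d) :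
    ‖gr ι κ u y - gr ι κ u₀ y₀‖ ≤ (1 + K) * ‖y - y₀‖ + δ := by
  have e : gr ι κ u y - gr ι κ u₀ y₀ = ι (y - y₀) + (κ (u y - u₀ y) + κ (u₀ y - u₀ y₀)) := by
    simp only [gr, map_sub]
    abel
  have h1 := norm_add_le (ι (y - y₀)) (κ (u y - u₀ y) + κ (u₀ y - u₀ y₀))
  have h2 := norm_add_le (κ (u y - u₀ y)) (κ (u₀ y - u₀ y₀))
  rw [ι.norm_map] at h1
  rw [κ.norm_map, κ.norm_map] at h2
  rw [e]
  linarith [h y, hK y y₀]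

theorem montel : ∃ ε₀ : ℝ, 0 < ε₀ ∧ ∀ (ι : E d →ₗᵢ[ℝ] H) (κ : E n →ₗᵢ[ℝ] H) (ε : ℝ)
    (c : ℕ → Cen d n), Spl ι κ → ε ≤ ε₀ → (∀ j, Adm ι κ (c j) ε (1 / 2)) →
    ∃ (c₀ : Cen d n) (φ : ℕ → ℕ), StrictMono φ ∧ Adm ι κ c₀ ε (1 / 2) ∧ Continuous (c₀.F ι κ) ∧
      TendstoUniformlyOn (fun j => (c (φ j)).F ι κ) (c₀.F ι κ) atTop (closedBall 0 (1 / 4)) := by
  obtain ⟨ε₀, C₀, hε₀, -, hiu⟩ := iu_W (d := d) (n := n)
  obtain ⟨C, hC, hpw⟩ := exists_pw (d := d) (n := n)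
  refine ⟨ε₀, hε₀, fun ι κ ε c hs hε hc => ?_⟩
  have e1 : ((d + 5 : ℕ) : ℤ) + 1 = ((d + 4 : ℕ) : ℤ) + 2 := by push_cast; ring
  have e2 : ((d + 5 : ℕ) : ℤ) = ((d + 3 : ℕ) : ℤ) + 2 := by push_cast; ring
  obtain ⟨u₀, φ₁, hφ₁, hW, hB, hT⟩ := compact_W (n := d + 5) (B := ε) (fun j => (c j).u)
    (fun j => (hc j).sml.w) fun j => by rw [e1]; exact (hc j).sml.le
  have hS : Sml (d + 4) u₀ ε := ⟨hW, by rw [← e1]; exact hB⟩
  have : ProperSpace (E d →L[ℝ] E d) := FiniteDimensional.proper_real _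
  obtain ⟨⟨x₀, A⟩, ⟨hx₀, hA⟩, φ₂, hφ₂, hlim⟩ :=
    ((isCompact_closedBall (0 : E d) ε).prod
      (isCompact_closedBall (1 : E d →L[ℝ] E d) ε)).tendsto_subseq
      (x := fun j => ((c (φ₁ j)).x₀, (c (φ₁ j)).A)) fun j =>
        ⟨mem_closedBall_zero_iff.2 (hc _).x_le, mem_closedBall_iff_norm.2 (hc _).A_le⟩
  have tx : Tendsto (fun j => (c (φ₁ (φ₂ j))).x₀) atTop (𝓝 x₀) :=
    (continuous_fst.tendsto _).comp hlim
  have tA : Tendsto (fun j => (c (φ₁ (φ₂ j))).A) atTop (𝓝 A) :=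
    (continuous_snd.tendsto _).comp hlim
  have ty : ∀ z, Tendsto (fun j => (c (φ₁ (φ₂ j))).x₀ + (c (φ₁ (φ₂ j))).A z) atTop
      (𝓝 (x₀ + A z)) := fun z =>
    tx.add (((ContinuousLinearMap.apply ℝ (E d) z).continuous.tendsto A).comp tA)
  have hP₀ := hpw _ _ _ (by omega) hS
  have hP : ∀ j, Pw (c j).u (C * ε) := fun j => hpw _ _ _ (by omega) (hc j).sml
  obtain ⟨δ, hδ⟩ : ∃ δ : ℕ → ℝ,
    δ = fun j => C * nv (d + 5 : ℕ) fun x => (c (φ₁ (φ₂ j))).u x - u₀ x := ⟨_, rfl⟩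
  have tδ : Tendsto δ atTop (𝓝 0) := by
    have := (hT.comp hφ₂.tendsto_atTop).const_mul C
    rw [mul_zero] at this
    rw [hδ]
    exact this
  have hD : ∀ j, Pw (fun x => (c (φ₁ (φ₂ j))).u x - u₀ x) (δ j) := fun j => by
    rw [hδ]
    exact hpw (d + 3) _ _ (by omega)
      ⟨((hc _).sml.w.sub hW).mono (by omega), by rw [← e2]⟩
  have J := fun z => jets_Z1 (u := fun j => (c (φ₁ (φ₂ j))).u) (fun j => (hP _).sm) hP₀.sm tδ hD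
    (ty z)
  have tD : Tendsto (fun j => d1 ((c (φ₁ (φ₂ j))).F ι κ) 0) atTop
      (𝓝 (d1 (aff (gr ι κ u₀) x₀ A) 0)) := by
    rw [d1_aff_gr hP₀.sm]
    refine (((dd_Z1 ι κ).tendsto (d1 u₀ (x₀ + A 0), A)).comp ((J 0).2.1.prodMk_nhds tA)).congr
      fun j => ?_
    exact (d1_aff_gr (hP _).sm _ _ _).symm
  have tF : Tendsto (fun j => (c (φ₁ (φ₂ j))).F ι κ 0) atTop (𝓝 (aff (gr ι κ u₀) x₀ A 0)) :=
    ((ι.continuous.tendsto _).comp (ty 0)).add ((κ.continuous.tendsto _).comp (J 0).1)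
  refine ⟨⟨u₀, x₀, A⟩, φ₁ ∘ φ₂, hφ₁.comp hφ₂, ⟨hS, mem_closedBall_zero_iff.1 hx₀,
    mem_closedBall_iff_norm.1 hA, fun z hz => ?_, ?_, ?_⟩, ?_, ?_⟩
  · refine tendsto_nhds_unique (nn_Z1 (J z).2.1 (J z).2.2 ((hiu _ _ _ hS hε).1 _)) ?_
    exact tendsto_const_nhds.congr fun j => ((hc _).eqn z hz).symm
  · have c1 : Continuous fun D : E d →L[ℝ] H => gm D :=
      (ad : (E d →L[ℝ] H) →L[ℝ] _).continuous.clm_comp continuous_id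
    exact tendsto_nhds_unique ((c1.tendsto _).comp tD)
      (tendsto_const_nhds.congr fun j => ((hc _).nrm).symm)
  · have c1 : Continuous fun p : (E d →L[ℝ] H) × H => ad p.1 p.2 :=
      ((ad : (E d →L[ℝ] H) →L[ℝ] _).continuous.comp continuous_fst).clm_apply continuous_snd
    exact tendsto_nhds_unique ((c1.tendsto (_, _)).comp (tD.prodMk_nhds tF))
      (tendsto_const_nhds.congr fun j => ((hc _).org).symm)
  · exact (d_gr (ι := ι) (κ := κ) hP₀.sm 0).1.continuous.comp (continuous_const.add A.continuous)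
  · have t1 : Tendsto (fun j => (1 + C * ε) * (‖(c (φ₁ (φ₂ j))).x₀ - x₀‖ +
        ‖(c (φ₁ (φ₂ j))).A - A‖) + δ j) atTop (𝓝 ((1 + C * ε) * (0 + 0) + 0)) :=
      (((tendsto_iff_norm_sub_tendsto_zero.1 tx).add
        (tendsto_iff_norm_sub_tendsto_zero.1 tA)).const_mul _).add tδ
    simp only [add_zero, mul_zero] at t1
    refine Metric.tendstoUniformlyOn_iff.2 fun η hη => ?_
    filter_upwards [t1.eventually (gt_mem_nhds hη)] with j hj z hz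
    rw [dist_comm, dist_eq_norm]
    refine lt_of_le_of_lt ((dist_Z1 ι κ (hD j).n0 (fun x x' => (hP₀.lip x x').1) _ _).trans ?_) hj
    have h0 : 0 ≤ 1 + C * ε := by have := hS.nonneg; positivity
    have h1 : (c (φ₁ (φ₂ j))).x₀ + (c (φ₁ (φ₂ j))).A z - (x₀ + A z) =
        ((c (φ₁ (φ₂ j))).x₀ - x₀) + ((c (φ₁ (φ₂ j))).A - A) z := by
      rw [sub_apply]
      abel
    have h2 := ((c (φ₁ (φ₂ j))).A - A).le_opNorm z
    have h3 := mem_closedBall_zero_iff.1 hz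
    have h4 := norm_nonneg ((c (φ₁ (φ₂ j))).A - A)
    have h5 := norm_add_le ((c (φ₁ (φ₂ j))).x₀ - x₀) (((c (φ₁ (φ₂ j))).A - A) z)
    rw [← h1] at h5
    have h6 : ‖(c (φ₁ (φ₂ j))).x₀ + (c (φ₁ (φ₂ j))).A z - (x₀ + A z)‖ ≤
        ‖(c (φ₁ (φ₂ j))).x₀ - x₀‖ + ‖(c (φ₁ (φ₂ j))).A - A‖ := by nlinarith
    exact add_le_add (mul_le_mul_of_nonneg_left h6 h0) le_rfl

end Pool.Agent.Lib.MP_8daebb_an.GM.Ch
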